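import Pool.Agent.MP_6374aa_gt.IfT

/-!
Positions of admissible cycles.
-/

namespace Pool.Agent.MP_6374aa_gt

open Classical

variable {V : Type} {G : SimpleGraph V} {A : Set V} {C : Type} [CommGroup C] [Fintype C]
  {α : C →* Equiv.Perm V}

/-- The action on subspaces of chains. -/
noncomputable def sub_AdmPos (α : C →* Equiv.Perm V) : C →* Function.End (Submodule ℚ (EA V)) where
  toFun g W := W.map (emap (α g))
  map_one' := by
    funext W
    rw [map_one, show emap (1 : Equiv.Perm V) = LinearMap.id from LinearMap.ext emap_id,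
      Submodule.map_id]
    rfl
  map_mul' g h := by
    funext W
    rw [map_mul, show emap (α g * α h : Equiv.Perm V) = emap (α g) ∘ₗ emap (α h) from
      LinearMap.ext fun z => (emap_comp (α g) (α h) z).symm, Submodule.map_comp]
    rfl

omit [Fintype C] in
theorem inv_AdmPos (g : C) (z : EA V) : emap (α g) (emap (α g⁻¹) z) = z := by
  rw [emap_comp, ← Equiv.Perm.coe_mul, ← map_mul, mul_inv_cancel, map_one, Equiv.Perm.coe_one,
    emap_id]

theorem uniq_AdmPos (P : Pack G A) {n : ℕ} (hn : n = 2 ∨ n = 3) {x y : P.X} {z : EA V}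
    (hx : z ∈ P.I x n) (hy : z ∈ P.I y n) (hz : z ∉ Bd G A n) : x = y := by
  by_contra hne
  have h1 : ∀ s, z ∈ P.I s n → ∀ t, (Pi.single s z : P.X → EA V) t ∈ P.I t n := by
    intro s hs t
    by_cases e : t = s
    · rw [e, Pi.single_eq_same]; exact hs
    · rw [Pi.single_eq_of_ne e]; exact zero_mem _
  have := P.h3 n hn (Pi.single x z - Pi.single y z) (fun t => sub_mem (h1 x hx t) (h1 y hy t))
    (by simp) x
  rw [Pi.sub_apply, Pi.single_eq_same, Pi.single_eq_of_ne hne, sub_zero] at this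
  exact hz this

theorem map_AdmPos (P : Pack G A) (h : Act G A α) {n : ℕ} (hn : n = 2 ∨ n = 3) {g : C}
    {x y : P.X} (hm : MatchAt (α g) P x P y) {z : EA V} (hx : z ∈ P.I x n) (hz : z ∉ Bd G A n) :
    (P.I x n).map (emap (α g)) = P.I y n := by
  refine le_antisymm (Submodule.map_le_iff_le_comap.2 fun w hw =>
    hm.emap_mem (h.isIso g).isHom hw) fun w hw => ?_
  obtain ⟨x', hx'⟩ := P.perm h g⁻¹ y
  have h1 := hx'.emap_mem (h.isIso _).isHom (hm.emap_mem (h.isIso g).isHom hx)
  have h2 := inv_AdmPos (α := α) g⁻¹ z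
  rw [inv_inv] at h2
  rw [h2] at h1
  obtain rfl := uniq_AdmPos P hn hx h1 hz
  exact ⟨_, hx'.emap_mem (h.isIso _).isHom hw, inv_AdmPos g w⟩

theorem site_AdmPos (P : Pack G A) {J : Type} [Fintype J] {z : J → EA V} {dz : J → ℕ}
    (h : Adm G A α z dz) (j : J) : z j ∉ Bd G A (dz j) ∧ ∃ x, z j ∈ P.I x (dz j) := by
  have h1 : z j ∉ Bd G A (dz j) := fun hb => by
    have := h.ind (dz j) (Pi.single j 1) (fun i hi => Pi.single_eq_of_ne (fun e => hi (by rw [e])) _)
      (by
        rwa [Finset.sum_eq_single j (fun i _ hi => by rw [Pi.single_eq_of_ne hi, act_zero])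
          (by simp), Pi.single_eq_same, act_one]) j
    rw [Pi.single_eq_same] at this
    exact one_ne_zero this
  obtain ⟨y, hy, Γ, h2, h3, h4⟩ := h.pure j
  exact ⟨h1, (P.pure hy h2 h3 (h.deg j)).elim (fun e => absurd (e h4) h1) fun ⟨x, e⟩ => ⟨x, e h4⟩⟩

theorem rel_AdmPos (P : Pack G A) (hA : Act G A α) {J : Type} [Fintype J] {z : J → EA V}
    {dz : J → ℕ} (h : Adm G A α z dz) {x : J → P.X} (hx : ∀ j, z j ∈ P.I (x j) (dz j)) {n : ℕ}
    (hn : n = 2 ∨ n = 3) {y : P.X} {w : EA V} (hw : w ∈ P.I y n) {μ : J → RC C}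
    (hμ : ∀ j, dz j ≠ n → μ j = 0) (hb : w - ∑ j, act α (μ j) (z j) ∈ Bd G A n) {j : J} {g : C}
    (hg : (μ j).coeff g ≠ 0) : (P.I (x j) (dz j)).map (emap (α g)) = P.I y n := by
  choose σ hσ using P.perm hA
  have hd : ∀ j g, (μ j).coeff g ≠ 0 → dz j = n := fun j g hg =>
    by_contra fun e => hg (by rw [hμ j e]; rfl)
  rw [map_AdmPos P hA (h.deg j) (hσ g (x j)) (hx j) (site_AdmPos P h j).1, hd j g hg]
  congr 1
  by_contra hne
  let ν : P.X → J → RC C := fun s j =>
    ∑ g ∈ Finset.univ.filter fun g => σ g (x j) = s, MonoidAlgebra.single g ((μ j).coeff g)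
  have e : ∀ s j, act α (ν s j) (z j) =
      ∑ g ∈ Finset.univ.filter fun g => σ g (x j) = s, (μ j).coeff g • emap (α g) (z j) :=
    fun s j => by simp only [ν, act_sum, act_single]
  have h1 := P.h3 n hn (fun s => (Pi.single y w : P.X → EA V) s - ∑ j, act α (ν s j) (z j))
    (fun s => sub_mem (by
      by_cases e : s = y
      · rw [e, Pi.single_eq_same]; exact hw
      · rw [Pi.single_eq_of_ne e]; exact zero_mem _) (sum_mem fun j _ => by
      rw [e]
      refine sum_mem fun g hg => ?_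
      by_cases h0 : (μ j).coeff g = 0
      · rw [h0, zero_smul]; exact zero_mem _
      · rw [← (Finset.mem_filter.1 hg).2, ← hd j g h0]
        exact Submodule.smul_mem _ _ ((hσ g (x j)).emap_mem (hA.isIso g).isHom (hx j))))
    (by
      rw [Finset.sum_sub_distrib, Finset.sum_pi_single', if_pos (Finset.mem_univ _),
        Finset.sum_comm]
      rwa [Finset.sum_congr rfl fun j _ => show ∑ s, act α (ν s j) (z j) = act α (μ j) (z j) by
        simp only [e]
        exact Finset.sum_fiberwise _ (fun g => σ g (x j)) _]) (σ g (x j))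
  rw [Pi.single_eq_of_ne hne, zero_sub, neg_mem_iff] at h1
  have h2 := h.ind n (ν (σ g (x j))) (fun i hi => by simp [ν, hμ i hi]) h1 j
  have h3 := congrArg (fun r : RC C => r.coeff g) h2
  simp [ν, Finsupp.single_apply] at h3
  exact hg h3

theorem admPos : AdmPosStmt := by
  intro C _ _ V G A α P hA hF
  refine ⟨Submodule ℚ (EA V), (sub_AdmPos α).toHomPerm,
    {W | ∃ x n, (n = 2 ∨ n = 3) ∧ W = P.I x n ∧ ∃ z ∈ W, z ∉ Bd G A n}, ?_,
    fun J J' _ _ z dz z' dz' h h' => ?_⟩
  · rintro g _ ⟨x, n, hn, rfl, z, hz, hb⟩ e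
    by_contra hg
    refine hb (hF x n hn g hg z hz ?_)
    rw [← e]
    exact Submodule.mem_map_of_mem hz
  · choose x hx using fun j => (site_AdmPos P h j).2
    choose x' hx' using fun j => (site_AdmPos P h' j).2
    exact ⟨fun j => P.I (x j) (dz j), fun j => P.I (x' j) (dz' j),
      fun j => ⟨_, _, h.deg j, rfl, _, hx j, (site_AdmPos P h j).1⟩,
      fun j => ⟨_, _, h'.deg j, rfl, _, hx' j, (site_AdmPos P h' j).1⟩,
      fun j' μ h1 h2 j g hg => rel_AdmPos P hA h hx (h'.deg j') (hx' j') h1 h2 hg,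
      fun j μ h1 h2 j' g hg => rel_AdmPos P hA h' hx' (h.deg j) (hx j) h1 h2 hg⟩

end Pool.Agent.MP_6374aa_gt
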