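import Pool.Agent.MP_6374aa_gt.IfT

/-! Admissible families adapted to a map satisfying the dichotomy. -/

namespace Pool.Agent.MP_6374aa_gt

open Classical

noncomputable section

variable {C : Type} [CommGroup C] [Fintype C] {V V' : Type} {G : SimpleGraph V} {A : Set V}
  {α : C →* Equiv.Perm V} {G' : SimpleGraph V'} {A' : Set V'} {α' : C →* Equiv.Perm V'}

theorem reindex_AdmS {J J' : Type} [Fintype J] [Fintype J'] {w : J → EA V} {dw : J → ℕ}
    (h : Adm G A α w dw) (e : J' ≃ J) : Adm G A α (fun j => w (e j)) (fun j => dw (e j)) where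
  deg j := h.deg (e j)
  pure j := h.pure (e j)
  ind n μ hμ hb j := by
    have h1 := h.ind n (fun j => μ (e.symm j)) (fun j hj => hμ _ (by simpa using hj)) (by
      rw [← e.sum_comp]
      simpa using hb) (e j)
    simpa using h1
  span n hn v hv := by
    obtain ⟨μ, h1, h2⟩ := h.span n hn v hv
    refine ⟨fun j => μ (e j), fun j hj => h1 _ hj, ?_⟩
    rwa [← e.sum_comp] at h2

theorem inj_AdmS {P : Pack G A} {P' : Pack G' A'} {f : V' → V} {b : P.X → P'.X}
    (hD : Dich f P' P b) {n : ℕ} (hn : n = 2 ∨ n = 3) {w : EA V'}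
    (hw : w ∈ ⨆ x, P'.I (b x) n) (hb : emap f w ∈ Bd G A n) : w ∈ Bd G' A' n := by
  obtain ⟨a, h1, rfl⟩ := (Submodule.mem_iSup_iff_exists_finsupp _ _).1 hw
  rw [Finsupp.sum_fintype _ _ fun _ => rfl] at hb ⊢
  rw [map_sum] at hb
  have h2 := P.h3 n hn (fun x => emap f (a x)) (fun x => (hD.mat x).emap_mem hD.hom (h1 x)) hb
  exact Submodule.sum_mem _ fun x _ => hD.hinj n hn x _ (h1 x) (h2 x)

theorem adapt_AdmS {P : Pack G A} {P' : Pack G' A'} {f : V' → V} {b : P.X → P'.X}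
    (hA : Act G A α) (hA' : Act G' A' α') (hE : Eqv A' α' α f) (hD : Dich f P' P b)
    {J1 J2 : Type} [Fintype J1] [Fintype J2] {z : J1 → EA V'} {dz : J1 → ℕ} {y : J2 → EA V'}
    {dy : J2 → ℕ} (src : Adm G' A' α' (Sum.elim z y) (Sum.elim dz dy))
    (hz : ∀ j, ∃ x', x' ∉ Set.range b ∧ z j ∈ P'.I x' (dz j))
    (hy : ∀ j, ∃ x, y j ∈ P'.I (b x) (dy j)) : Adapt G A α G' A' α' f z dz y dy := by
  have kill : ∀ j, emap f (z j) ∈ Bd G A (dz j) := fun j => by
    obtain ⟨x', h1, h2⟩ := hz j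
    exact P.emap_mem_Bd hD.hom (P'.mem x') (hD.kill x' h1) (src.deg (Sum.inl j)) h2
  have cz : ∀ j, z j ∈ Ch G' A' (dz j) := fun j => (mem_Zy.1 (src.cyc (Sum.inl j))).1
  have cy : ∀ j, y j ∈ Ch G' A' (dy j) := fun j => (mem_Zy.1 (src.cyc (Sum.inr j))).1
  have ind2 : ∀ n (μ : J2 → RC C), (∀ j, dy j ≠ n → μ j = 0) →
      ∑ j, act α' (μ j) (y j) ∈ Bd G' A' n → ∀ j, μ j = 0 := fun n μ hμ hb j => by
    refine src.ind n (Sum.elim 0 μ) ?_ ?_ (Sum.inr j)
    · rintro (i | i) hi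
      · rfl
      · exact hμ i hi
    · simpa [Fintype.sum_sum_type, act_zero] using hb
  have K2 : ∀ j, y j ∉ Bd G' A' (dy j) := fun j hb => by
    have h1 := ind2 (dy j) (Pi.single j 1) (fun i hi => Pi.single_eq_of_ne (by
      rintro rfl
      exact hi rfl) _) (by
        rw [Finset.sum_eq_single j (fun i _ hi => by rw [Pi.single_eq_of_ne hi, act_zero])
          (by simp), Pi.single_eq_same, act_one]
        exact hb) j
    rw [Pi.single_eq_same] at h1
    exact one_ne_zero h1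
  have K3 : ∀ j g, emap (α' g) (y j) ∈ ⨆ x, P'.I (b x) (dy j) := fun j g => by
    obtain ⟨x, hx⟩ := hy j
    obtain ⟨x', hm⟩ := P'.perm hA' g (b x)
    have h1 := hm.emap_mem (hA'.isIso g).isHom hx
    by_cases hr : x' ∈ Set.range b
    · obtain ⟨x2, rfl⟩ := hr
      exact Submodule.mem_iSup_of_mem x2 h1
    · exfalso
      have hn := src.deg (Sum.inr j)
      have h2 := P.emap_mem_Bd hD.hom (P'.mem x') (hD.kill x' hr) hn h1
      rw [emap_comp, emap_congr (f := f ∘ α' g) (g := α g ∘ f) (hE g) (cy j), ← emap_comp] at h2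
      exact K2 j (hD.hinj _ hn x _ hx ((hA.isIso g).mem_Bd (emap_mem_Ch hD.hom (cy j)) h2))
  have K4 : ∀ n (μ : J2 → RC C), (∀ j, dy j ≠ n → μ j = 0) →
      ∑ j, act α' (μ j) (y j) ∈ ⨆ x, P'.I (b x) n := fun n μ hμ => by
    refine Submodule.sum_mem _ fun j _ => ?_
    by_cases hj : dy j = n
    · subst hj
      exact Submodule.sum_mem _ fun g _ => Submodule.smul_mem _ _ (K3 j g)
    · rw [hμ j hj, act_zero]
      exact zero_mem _
  have K5 : ∀ μ : J2 → RC C, emap f (∑ j, act α' (μ j) (y j)) =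
      ∑ j, act α (μ j) (emap f (y j)) := fun μ => by
    rw [map_sum]
    exact Finset.sum_congr rfl fun j _ => emap_act hE _ (cy j)
  have K6 : ∀ n (μ : J1 → RC C), (∀ j, dz j ≠ n → μ j = 0) →
      emap f (∑ j, act α' (μ j) (z j)) ∈ Bd G A n := fun n μ hμ => by
    rw [map_sum]
    refine Submodule.sum_mem _ fun j _ => ?_
    by_cases hj : dz j = n
    · subst hj
      rw [emap_act hE _ (cz j)]
      exact act_mem_Bd hA _ (kill j)
    · rw [hμ j hj, act_zero, map_zero]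
      exact zero_mem _
  have sp : ∀ n, n = 2 ∨ n = 3 → ∀ w ∈ Zy G' A' n, ∃ (μ : J1 → RC C) (ν : J2 → RC C),
      (∀ j, dz j ≠ n → μ j = 0) ∧ (∀ j, dy j ≠ n → ν j = 0) ∧
      w - (∑ j, act α' (μ j) (z j) + ∑ j, act α' (ν j) (y j)) ∈ Bd G' A' n := fun n hn w hw => by
    obtain ⟨μ, h1, h2⟩ := src.span n hn w hw
    rw [Fintype.sum_sum_type] at h2
    exact ⟨fun j => μ (Sum.inl j), fun j => μ (Sum.inr j), fun j hj => h1 _ hj,
      fun j hj => h1 _ hj, h2⟩
  refine ⟨src, ⟨fun j => src.deg (Sum.inr j), fun j => ?_, fun n μ hμ hb j => ?_,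
    fun n hn w hw => ?_⟩, kill, fun n hn w hw hb => ?_⟩
  · obtain ⟨x, hx⟩ := hy j
    exact ⟨P.a x, P.mem x, P.Λ x, P.loop x, P.hasE x, (hD.mat x).emap_mem hD.hom hx⟩
  · by_cases hj : dy j = n
    · have hn : n = 2 ∨ n = 3 := hj ▸ src.deg (Sum.inr j)
      exact ind2 n μ hμ (inj_AdmS hD hn (K4 n μ hμ) (by rwa [K5])) j
    · exact hμ j hj
  · obtain ⟨a, h1, h2⟩ := P.exists_decomp hn hw
    choose a' h3 h4 using fun x => hD.hsurj n hn x (a x) (h1 x)
    obtain ⟨μ, ν, h5, h6, h7⟩ := sp n hn (∑ x, a' x)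
      (Submodule.sum_mem _ fun x _ => II_le_Zy _ _ _ (h3 x))
    refine ⟨ν, h6, ?_⟩
    have h8 := emap_mem_Bd hD.hom h7
    rw [map_sub, map_add, K5, map_sum] at h8
    have h9 : ∑ x, (emap f (a' x) - a x) ∈ Bd G A n := Submodule.sum_mem _ fun x _ => h4 x
    rw [Finset.sum_sub_distrib] at h9
    have h10 := add_mem (add_mem (sub_mem h2 h9) h8) (K6 n μ h5)
    convert h10 using 1
    abel
  · obtain ⟨μ, ν, h5, h6, h7⟩ := sp n hn w hw
    refine ⟨μ, h5, ?_⟩
    have h8 := emap_mem_Bd hD.hom h7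
    rw [map_sub, map_add] at h8
    have h9 : emap f (∑ j, act α' (ν j) (y j)) ∈ Bd G A n := by
      have h10 := sub_mem (sub_mem hb h8) (K6 n μ h5)
      convert h10 using 1
      abel
    have h11 := add_mem h7 (inj_AdmS hD hn (K4 n ν h6) h9)
    convert h11 using 1
    abel

theorem admS (hF : FamStmt) : AdmStmt := by
  intro C _ _ V V' U G A α G' A' α' P P' f b π U0 hA hA' hE hFr hD hl
  choose u hu using hl
  obtain ⟨J, _, _, w, dw, site, h1, h2⟩ := hF C V' G' A' α' P'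
    (fun x' n => if h : (n = 2 ∨ n = 3) ∧ x' ∉ Set.range b then
      Zy G' (A' ∩ π ⁻¹' {u n h.1 x' h.2}) n else ⊤) hA' hFr (fun x' n hn => by
        by_cases hx : x' ∈ Set.range b
        · rw [dif_neg fun h => h.2 hx]
          exact le_top.trans le_sup_left
        · rw [dif_pos ⟨hn, hx⟩]
          exact (hu n hn x' hx).2)
  refine ⟨{j // site j ∉ Set.range b}, {j // ¬ site j ∉ Set.range b}, inferInstance,
    inferInstance, inferInstance, inferInstance, fun j => w j, fun j => dw j, fun j => w j,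
    fun j => dw j, fun j => u (dw j) (h1.deg j) (site j) j.2, ?_, fun j => ⟨(hu _ _ _ _).1, ?_⟩⟩
  · refine adapt_AdmS (b := b) hA hA' hE hD ?_ (fun j => ⟨site j, j.2, (h2 j).1⟩) fun j => ?_
    · have h3 := reindex_AdmS h1 (Equiv.sumCompl fun j => site j ∉ Set.range b)
      convert h3 using 1
      · funext j
        cases j <;> rfl
      · funext j
        cases j <;> rfl
    · obtain ⟨x, hx⟩ := not_not.1 j.2
      exact ⟨x, hx ▸ (h2 j).1⟩
  · have h3 := (h2 j).2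
    rwa [dif_pos ⟨h1.deg j, j.2⟩] at h3

end

end Pool.Agent.MP_6374aa_gt
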