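import Pool.Agent.MP_6374aa_gt.IfD

/-! Simplicial approximation of a contraction. -/

namespace Pool.Agent.MP_6374aa_gt

open Classical Topology

noncomputable section

section

variable {V V' V'' : Type} {G : SimpleGraph V} {G' : SimpleGraph V'} {G'' : SimpleGraph V''}
  {A : Set V} {A' : Set V'} {A'' : Set V''}

/-- The map kills homology and loops. -/
def Null_Apx (G' : SimpleGraph V') (A' : Set V') (G : SimpleGraph V) (A : Set V) (f : V' → V) :
    Prop :=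
  (∀ n, ∀ z ∈ Zy G' A' n, emap f z ∈ Bd G A n) ∧
    ∀ w γ, Path G' A' w w γ → gmap G' A' G A f γ = 1

theorem sc_Apx {f g : V' → V} (hf : IsHom G' A' G A f) (hg : IsHom G' A' G A g)
    (h : SC G' A' G f g) (hn : Null_Apx G' A' G A g) : Null_Apx G' A' G A f := by
  refine ⟨fun n z hz => ?_, fun w γ hγ => ?_⟩
  · have := add_mem (emap_sub_mem_Bd hf hg h hz) (hn.1 n z hz)
    rwa [sub_add_cancel] at this
  · have h1 := Path.gmap_sc hf hg h hγ
    rw [hn.2 w γ hγ, eq_comm, mul_assoc, inv_mul_eq_one] at h1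
    exact mul_eq_right.1 h1.symm

theorem const_Apx {f : V' → V} {a : V} (ha : a ∈ A) (h : ∀ w ∈ A', f w = a) :
    Null_Apx G' A' G A f := by
  have h1 : IsHom G' A' G {a} f :=
    ⟨h, fun x hx y hy _ => Or.inl ((h x hx).trans (h y hy).symm)⟩
  have h0 : IsHom G' A' G A f := h1.mono subset_rfl fun x hx => (h x hx).symm ▸ ha
  refine ⟨fun n z hz => ?_, fun w γ hγ => ?_⟩
  · exact Zy_le_Bd_of_cone ha (Set.singleton_subset_iff.2 ha)
      (fun t ht => by rw [Set.mem_singleton_iff.1 ht]; exact Adq.refl _ _) n (emap_mem_Zy h1 hz)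
  · have h2 : ∀ x y γ, Path G' A' x y γ → gmap G' A' G A f γ = 1 := by
      intro x y γ hp
      induction hp with
      | nil _ => exact map_one _
      | cons hu huw hp ih =>
        rw [map_mul, ih, gmap_gen h0, h _ hu, h _ hp.mem_left, (flat_gen G A).self ha, mul_one]
    exact h2 w w γ hγ

theorem cl_Apx {c : V'' → V'} {i : V' → V} (hc : CL G'' A'' G' A' c) (hs : SE G'' A'' G' A' c)
    (hi : IsHom G' A' G A i) (hn : Null_Apx G'' A'' G A (i ∘ c)) : Null_Apx G' A' G A i := by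
  refine ⟨fun n z hz => ?_, fun w γ hγ => ?_⟩
  · obtain ⟨z', h1, h2⟩ := (fibre_lemma hc.1
      (fun τ h1 h2 h3 n => (hc.2 τ h1 h2 h3).Zy_le_Bd n) subset_rfl n).2 z hz
    have h3 := hn.1 n z' (Zy_mono Set.inter_subset_left n h1)
    rw [← emap_comp] at h3
    have h4 := sub_mem h3 (emap_mem_Bd hi h2)
    rwa [map_sub, sub_sub_cancel] at h4
  · obtain ⟨y, hy, δ, hδ⟩ := hs.ess w hγ.mem_left
    obtain ⟨γ', h1, h2⟩ := hs.full y hy y hy _ ((hδ.symm.trans hγ).trans hδ)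
    have h3 := hn.2 y γ' h1
    rw [← gmap_comp hi hc.1, h2, map_mul, map_mul, map_inv, mul_assoc, inv_mul_eq_one] at h3
    exact mul_eq_right.1 h3.symm

end

theorem tower_Apx (hQ : ClSeStmt) {X V : Type} {G : SimpleGraph V} {A : Set V} (L : ℕ → Lev C1)
    (c : ∀ n, (L (n + 1)).V → (L n).V) (D : ∀ n, (L n).V → Set X)
    (hcl : ∀ n, CL (L (n + 1)).G (L (n + 1)).A (L n).G (L n).A (c n))
    (nest : ∀ n, ∀ w ∈ (L (n + 1)).A, D (n + 1) w ⊆ D n (c n w)) (i : (L 0).V → V)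
    (hi : IsHom (L 0).G (L 0).A G A i) (n : ℕ) :
    ∃ cc : (L n).V → (L 0).V, IsHom (L n).G (L n).A (L 0).G (L 0).A cc ∧
      (∀ w ∈ (L n).A, D n w ⊆ D 0 (cc w)) ∧
      (Null_Apx (L n).G (L n).A G A (i ∘ cc) → Null_Apx (L 0).G (L 0).A G A i) := by
  induction n with
  | zero => exact ⟨id, IsHom.id _ subset_rfl, fun _ _ => subset_rfl, fun h => h⟩
  | succ n ih =>
    obtain ⟨cc, h1, h2, h3⟩ := ih
    exact ⟨cc ∘ c n, h1.comp (hcl n).1,
      fun w hw => (nest n w hw).trans (h2 _ ((hcl n).1.1 w hw)),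
      fun h => h3 (cl_Apx (hcl n) (hQ _ _ _ _ _ _ _ (hcl n)) (hi.comp h1) h)⟩

theorem leb_Apx {Y E V : Type} [PseudoMetricSpace Y] [CompactSpace Y] [TopologicalSpace E]
    {G : SimpleGraph V} {a : E → V}
    (ha : ∀ e, ∃ N ∈ 𝓝 e, ∀ e1 ∈ N, ∀ e2 ∈ N, Adq G (a e1) (a e2)) {F : Y → E}
    (hF : Continuous F) : ∃ δ > 0, ∀ p q, dist p q < δ → Adq G (a (F p)) (a (F q)) := by
  choose N hN hA using ha
  obtain ⟨δ, hδ, h⟩ := lebesgue_number_lemma_of_metric (s := (Set.univ : Set Y))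
    (c := fun p => interior (F ⁻¹' N (F p))) isCompact_univ (fun _ => isOpen_interior)
    fun p _ => Set.mem_iUnion.2 ⟨p, mem_interior_iff_mem_nhds.2 (hF.continuousAt (hN _))⟩
  refine ⟨δ, hδ, fun p q hpq => ?_⟩
  obtain ⟨r, hr⟩ := h q trivial
  have h1 : p ∈ F ⁻¹' N (F r) := interior_subset (hr hpq)
  have h2 : q ∈ F ⁻¹' N (F r) := interior_subset (hr (Metric.mem_ball_self hδ))
  exact hA (F r) _ h1 _ h2

theorem chain_Apx {X W V E : Type} [PseudoMetricSpace X] [TopologicalSpace E]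
    {G' : SimpleGraph W} {A' : Set W} {G : SimpleGraph V} {A : Set V} {a : E → V}
    (haA : ∀ e, a e ∈ A) {F : unitInterval × X → E} {e0 : E} (h1 : ∀ y, F (1, y) = e0) {δ : ℝ}
    (hδ : 0 < δ) (hF : ∀ p q, dist p q < δ → Adq G (a (F p)) (a (F q))) {x : W → X}
    (hx : ∀ u ∈ A', ∀ w ∈ A', Adq G' u w → dist (x u) (x w) < δ) :
    Null_Apx G' A' G A fun w => a (F (0, x w)) := by
  obtain ⟨m, hm⟩ := exists_nat_one_div_lt hδ
  let s : ℕ → unitInterval := fun k => Set.projIcc 0 1 zero_le_one ((k : ℝ) / (m + 1))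
  let f : ℕ → W → V := fun k w => a (F (s k, x w))
  have hm0 : (0 : ℝ) < m + 1 := by positivity
  have hom : ∀ k, IsHom G' A' G A (f k) := fun k =>
    ⟨fun _ _ => haA _, fun u hu w hw h => hF _ _ (by
      rw [Prod.dist_eq, dist_self]
      exact max_lt hδ (hx u hu w hw (Or.inr h)))⟩
  have hsc : ∀ k, SC G' A' G (f k) (f (k + 1)) := fun k u hu w hw h => hF _ _ (by
    rw [Prod.dist_eq]
    refine max_lt ?_ (hx u hu w hw h)
    refine lt_of_le_of_lt ((LipschitzWith.projIcc zero_le_one).dist_le_mul _ _) ?_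
    rw [NNReal.coe_one, one_mul, Real.dist_eq, ← sub_div, Nat.cast_add_one, sub_add_cancel_left,
      abs_div, abs_neg, abs_one, abs_of_pos hm0]
    exact hm)
  have key : ∀ k, Null_Apx G' A' G A (f k) → Null_Apx G' A' G A (f 0) := by
    intro k
    induction k with
    | zero => exact id
    | succ k ih => exact fun h => ih (sc_Apx (hom k) (hom (k + 1)) (hsc k) h)
  have e0' : s 0 = 0 := by simp [s]
  have e1 : s (m + 1) = 1 := by
    simp only [s]
    rw [Nat.cast_add_one, div_self hm0.ne', Set.projIcc_right]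
    rfl
  have := key (m + 1) (const_Apx (haA e0) fun w _ => by simp only [f, e1, h1])
  simpa only [f, e0'] using this

theorem apx (hS : SdStmt) (hB : RlBasicStmt) (hQ : ClSeStmt) (hC : SeCompStmt) : ApxStmt := by
  have _ := hC
  intro U V E _ H B G A _ _ a b i hFin haA ha hb hi hab
  obtain ⟨e0, ⟨Hm⟩⟩ := (contractible_iff_id_nullhomotopic E).1 inferInstance
  change Null_Apx H B G A i
  rcases B.eq_empty_or_nonempty with rfl | hne
  · exact const_Apx (haA e0) fun _ h => h.elim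
  obtain ⟨hX, hβ⟩ := hB U H B
  obtain ⟨β, hβ⟩ := hβ C1 1 (freeAct_one H B).toAct
  obtain ⟨L, c, K, D, O, hT, hO, hcl⟩ := hS C1 U H B 1 β (freeAct_one H B) hFin hne hβ
  obtain ⟨δ1, hδ1, h1⟩ := leb_Apx (F := fun p : unitInterval × Rl H B => Hm (p.1, b p.2)) ha
    (Hm.continuous.comp (continuous_fst.prodMk (hb.comp continuous_snd)))
  obtain ⟨δ2, hδ2, h2⟩ := lebesgue_number_lemma_of_metric (s := (Set.univ : Set (Rl H B)))
    (c := fun v : B => O 0 v.1) isCompact_univ (fun v => hT.isOpen 0 v.1 v.2) fun y _ => by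
      obtain ⟨v, hv, h⟩ := hT.cover 0 y
      exact Set.mem_iUnion.2 ⟨⟨v, hv⟩, hT.DO 0 v hv (hT.KD 0 v hv h)⟩
  have hδ : 0 < min δ1 δ2 := lt_min hδ1 hδ2
  obtain ⟨n, hn⟩ := hT.mesh (Set.range fun y => Metric.ball y (min δ1 δ2 / 4))
    (by rintro _ ⟨y, rfl⟩; exact Metric.isOpen_ball)
    fun y => ⟨_, ⟨y, rfl⟩, Metric.mem_ball_self (by positivity)⟩
  have hd : ∀ u ∈ (Lev.cons ⟨U, H, B, 1⟩ L n).A, ∀ p ∈ K n u, ∀ q ∈ K n u,
      dist p q < min δ1 δ2 / 2 := by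
    intro u hu p hp q hq
    obtain ⟨_, ⟨y, rfl⟩, h⟩ := hn n le_rfl u hu
    have h3 := dist_triangle_right p q y
    have h4 : dist p y < _ := h hp
    have h5 : dist q y < _ := h hq
    linarith
  have hd' : ∀ u ∈ (Lev.cons ⟨U, H, B, 1⟩ L n).A, ∀ w ∈ (Lev.cons ⟨U, H, B, 1⟩ L n).A,
      Adq (Lev.cons ⟨U, H, B, 1⟩ L n).G u w → ∀ p ∈ K n u, ∀ q ∈ K n w,
        dist p q < min δ1 δ2 := by
    intro u hu w hw h p hp q hq
    obtain ⟨r, hr, hr'⟩ := hT.meet n u hu w hw h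
    have h3 := dist_triangle p r q
    have h4 := hd u hu p hp r hr
    have h5 := hd w hw r hr' q hq
    linarith
  have : Nonempty (Rl H B) := by
    obtain ⟨v, hv⟩ := hne
    exact ⟨(hT.meet 0 v hv v hv (Adq.refl _ _)).some⟩
  have hex : ∀ w ∈ (Lev.cons ⟨U, H, B, 1⟩ L n).A, ∃ y, y ∈ K n w := fun w hw =>
    (hT.meet n w hw w hw (Adq.refl _ _)).imp fun _ h => h.1
  choose! x hx using hex
  choose φ hφ using fun w => h2 (x w) trivial
  have hK : ∀ u ∈ (Lev.cons ⟨U, H, B, 1⟩ L n).A, ∀ w ∈ (Lev.cons ⟨U, H, B, 1⟩ L n).A,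
      Adq (Lev.cons ⟨U, H, B, 1⟩ L n).G u w → x u ∈ O 0 (φ w).1 := fun u hu w hw h =>
    hφ w ((hd' u hu w hw h _ (hx u hu) _ (hx w hw)).trans_le (min_le_right _ _))
  obtain ⟨cc, hc1, hc2, hc3⟩ := tower_Apx hQ (Lev.cons ⟨U, H, B, 1⟩ L) c D
    (fun n => (hcl n).2) hT.nest i hi n
  have hφh : IsHom (Lev.cons ⟨U, H, B, 1⟩ L n).G (Lev.cons ⟨U, H, B, 1⟩ L n).A H B
      fun w => (φ w).1 :=
    ⟨fun w _ => (φ w).2, fun u hu w hw h => hT.adq 0 _ (φ u).2 _ (φ w).2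
      ⟨x u, hK u hu u hu (Adq.refl _ _), hK u hu w hw (Or.inr h)⟩⟩
  have hN := chain_Apx (G' := (Lev.cons ⟨U, H, B, 1⟩ L n).G) haA
    (F := fun p : unitInterval × Rl H B => Hm (p.1, b p.2)) (e0 := e0)
    (fun y => Hm.apply_one _) hδ1 h1 fun u hu w hw h =>
      (hd' u hu w hw h _ (hx u hu) _ (hx w hw)).trans_le (min_le_left _ _)
  simp only [ContinuousMap.Homotopy.apply_zero, ContinuousMap.id_apply] at hN
  refine hc3 (sc_Apx (hi.comp hc1) (hi.comp hφh) (fun u hu w hw h => ?_)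
    (sc_Apx (hi.comp hφh) ⟨fun _ _ => haA _, fun u hu w hw h => ?_⟩ (fun u hu w hw h => ?_) hN))
  · refine hi.adq (hc1.1 u hu) (φ w).2 (hT.adq 0 _ (hc1.1 u hu) _ (φ w).2 ⟨x u, ?_, hK u hu w hw h⟩)
    exact hT.DO 0 _ (hc1.1 u hu) (hc2 u hu (hT.KD n u hu (hx u hu)))
  · have h3 := h1 (0, x u) (0, x w) (by
      rw [Prod.dist_eq, dist_self]
      exact max_lt hδ1 ((hd' u hu w hw (Or.inr h) _ (hx u hu) _ (hx w hw)).trans_le
        (min_le_left _ _)))
    simpa only [ContinuousMap.Homotopy.apply_zero, ContinuousMap.id_apply] using h3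
  · have h3 := hK w hw u hu h.symm
    rw [hO] at h3
    exact (hab (x w) _ h3).symm

end

end Pool.Agent.MP_6374aa_gt
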