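import Pool.Agent.MP_6374aa_gt.IfC

/-! Packs with at most one site; the deck group. -/

namespace Pool.Agent.MP_6374aa_gt

open Classical

variable {V : Type} {G : SimpleGraph V} {A : Set V} {L : Type} [Group L]

theorem h1_Base {lab : V → V → L} (h : Flat G A lab) {n : ℕ}
    (hz : Zy (cov G lab L) (up A L) n ≤ Bd (cov G lab L) (up A L) n) (y : V) :
    II G A ⊥ y n ≤ Bd G A n := by
  refine sup_le ?_ le_rfl
  rintro _ ⟨z, hz', rfl⟩
  let φ : Gp G A ⧸ (⊥ : Subgroup (Gp G A)) →* L := QuotientGroup.lift ⊥ (glift G A lab) bot_le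
  have hφ : ∀ (g : Gp G A) q, φ (g • q) = glift G A lab g * φ q := fun g q =>
    QuotientGroup.induction_on q fun γ => map_mul (glift G A lab) g γ
  have hF : IsHom (cov G (gen G A) (Gp G A ⧸ (⊥ : Subgroup (Gp G A)))) (comp G A ⊥ y)
      (cov G lab L) (up A L) fun p => (p.1, φ p.2) :=
    ⟨fun p hp => comp_subset hp, fun p hp q hq hpq =>
      (cov_adq h (comp_subset hp) (comp_subset hq)).2 ⟨Or.inr hpq.1, by
        rw [hpq.2.1, hφ, glift_gen h, smul_eq_mul]⟩⟩
  have h1 := emap_mem_Bd (up_hom_GrB1 lab) (hz (emap_mem_Zy hF hz'))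
  rwa [emap_comp] at h1

theorem h2_Base (hc : PConn G A) {y : V} (hy : y ∈ A) (n : ℕ) :
    Zy G A n ≤ II G A (Loop G A y) y n := by
  intro z hz
  choose! q hq using fun a ha => hc.2 a ha y hy
  have hF : IsHom G A (cov G (gen G A) (Gp G A ⧸ Loop G A y)) (comp G A (Loop G A y) y)
      fun a => (a, QuotientGroup.mk (q a)) :=
    ⟨fun a ha => ⟨q a, hq a ha, rfl⟩, fun a ha b hb hab =>
      (cov_adq (flat_gen G A) ha hb).2 ⟨Or.inr hab, QuotientGroup.eq.2 ((mem_Loop hy).2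
        ((hq a ha).symm.trans ((Path.single ha hb (Or.inr hab)).trans (hq b hb))))⟩⟩
  refine Submodule.mem_sup_left ⟨_, emap_mem_Zy hF hz, ?_⟩
  rw [emap_comp]
  exact emap_id z

theorem baseS : BaseStmt := by
  intro V G A L _ lab y h3 hc hf hy hz hne hE
  refine ⟨{
    X := Unit
    a := fun _ => y
    Λ := fun _ => Loop G A y
    fin3 := h3
    conn := hc
    mem := fun _ => hy
    loop := fun _ => le_rfl
    ne := fun _ => hne
    hasE := fun _ => hE
    k1 := fun y' hy' H hH _ _ => ?_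
    k2 := fun _ _ γ hγ _ _ _ _ => ⟨rfl, (mem_Loop hy).2 hγ⟩
    k3 := fun _ => ?_
    k4 := fun y' hy' δ hδ => ?_
    h1 := fun y' _ n hn => h1_Base hf (hz n hn) y'
    h2 := fun n _ => (h2_Base hc hy n).trans (le_sup_of_le_right (le_iSup_of_le () le_rfl))
    h3 := fun n _ z _ h x => by simpa using h }, (), fun _ => rfl, rfl, rfl⟩
  · obtain ⟨γ, hγ⟩ := hc.2 y' hy' y hy
    exact ⟨(), γ, hγ, fun δ hδ => hγ.conj_mem_Loop (hH hδ)⟩
  · obtain ⟨R, p, -, h2, h4, h5⟩ := exists_retraction hc hy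
    refine ⟨R, fun δ hδ => ?_, h5, fun _ h => absurd rfl h⟩
    rw [h4 y y δ ((mem_Loop hy).1 hδ), h2, one_mul, inv_one, mul_one]
  · obtain ⟨γ, hγ⟩ := hc.2 y' hy' y hy
    have h1 := Subgroup.normalClosure_normal.conj_mem _ (Subgroup.subset_normalClosure
      (Set.mem_iUnion.2 ⟨(), hγ.conj_mem_Loop hδ⟩ :
        _ ∈ ⋃ _ : Unit, (Loop G A y : Set (Gp G A)))) γ
    rwa [show γ * (γ⁻¹ * δ * γ) * γ⁻¹ = δ by group] at h1

theorem emptyS : EmptyStmt := by
  intro V G A h3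
  constructor
  · rintro ⟨⟨hc, hs⟩, hz⟩
    have hb : ∀ y ∈ A, Loop G A y ≤ ⊥ := fun y hy δ hδ => hs y δ ((mem_Loop hy).1 hδ)
    exact ⟨{
      X := Empty
      a := fun x => x.elim
      Λ := fun x => x.elim
      fin3 := h3
      conn := hc
      mem := fun x => x.elim
      loop := fun x => x.elim
      ne := fun x => x.elim
      hasE := fun x => x.elim
      k1 := fun y hy H hH hne _ => absurd (eq_bot_iff.2 (hH.trans (hb y hy))) hne
      k2 := fun x => x.elim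
      k3 := fun x => x.elim
      k4 := fun y hy => (hb y hy).trans bot_le
      h1 := fun y _ n hn => (II_le_Zy _ _ _).trans (hz n hn)
      h2 := fun n hn => (hz n hn).trans le_sup_left
      h3 := fun _ _ _ _ _ x => x.elim }, inferInstanceAs (IsEmpty Empty)⟩
  · rintro ⟨P, hP⟩
    refine ⟨⟨P.conn, fun a γ hγ => ?_⟩, fun n hn => (P.h2 n hn).trans
      (sup_le le_rfl (iSup_le fun x => hP.elim x))⟩
    exact (P.k4 a hγ.mem_left).trans (Subgroup.normalClosure_le_normal (N := ⊥)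
      (Set.iUnion_subset fun x => hP.elim x)) ((mem_Loop hγ.mem_left).2 hγ)

theorem deckIso : DeckIsoStmt := by
  intro V G A L _ lab y hf hy hs
  refine ⟨hs.1.image (up_hom_GrB1 lab) fun a ha => ⟨(a, 1), ha, 1, Path.nil ha⟩,
    MulEquiv.ofBijective ((glift G A lab).comp (Loop G A y).subtype)
      ⟨(injective_iff_map_eq_one _).2 fun δ hδ => ?_, fun l => ?_⟩, fun _ => rfl⟩
  · obtain ⟨γ, h1, h2⟩ := ((mem_Loop hy).1 δ.2).lift hf (1 : L)
    rw [show glift G A lab δ = 1 from hδ, one_smul] at h1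
    rw [hs.2 _ _ h1, map_one] at h2
    exact Subtype.ext h2.symm
  · obtain ⟨γ, hγ⟩ := hs.1.2 (y, l) hy (y, 1) hy
    exact ⟨⟨_, (mem_Loop hy).2 (hγ.map (up_hom_GrB1 lab))⟩,
      ((hγ.proj hf).trans (mul_one _)).symm⟩

end Pool.Agent.MP_6374aa_gt
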