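import Pool.Agent.MP_6374aa_gt.IfP

/-! The parity lemma, through the group algebra of the cyclic group over the field with two
elements. -/

namespace Pool.Agent.MP_6374aa_gt

noncomputable section

section
variable {n : ℕ}

/-- a group element in the group algebra -/
def e_Beatty (g : ZMod n) : AddMonoidAlgebra (ZMod 2) (ZMod n) := AddMonoidAlgebra.single g 1

theorem e_add_Beatty (g h : ZMod n) : e_Beatty (g + h) = e_Beatty g * e_Beatty h := by
  rw [e_Beatty, e_Beatty, e_Beatty, AddMonoidAlgebra.single_mul_single, one_mul]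

theorem e_pow_Beatty (g : ZMod n) (t : ℕ) : e_Beatty g ^ t = e_Beatty ((t : ZMod n) * g) := by
  rw [e_Beatty, e_Beatty, AddMonoidAlgebra.single_pow, one_pow, nsmul_eq_mul]

theorem e_coeff_Beatty (g h : ZMod n) : (e_Beatty g).coeff h = if g = h then 1 else 0 := by
  rw [e_Beatty, AddMonoidAlgebra.coeff_single, Finsupp.single_apply]

theorem two_Beatty : (2 : AddMonoidAlgebra (ZMod 2) (ZMod n)) = 0 := by
  refine one_add_one_eq_two.symm.trans ?_
  rw [AddMonoidAlgebra.one_def, ← AddMonoidAlgebra.single_add,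
    show (1 : ZMod 2) + 1 = 0 by decide, AddMonoidAlgebra.single_zero]

/-- the sum of the first and the third symmetric function -/
def W_Beatty (p q r s : ZMod n) : AddMonoidAlgebra (ZMod 2) (ZMod n) :=
  e_Beatty p + e_Beatty q + e_Beatty r + e_Beatty s + e_Beatty p * e_Beatty q * e_Beatty r +
    e_Beatty p * e_Beatty q * e_Beatty s + e_Beatty p * e_Beatty r * e_Beatty s +
    e_Beatty q * e_Beatty r * e_Beatty s

/-- a small number and its inverse -/
structure Good_Beatty (x : ℕ) (u : ZMod n) : Prop where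
  pos : 0 < x
  lt : 2 * x < n
  inv : (x : ZMod n) * u = 1

theorem cast_inj_Beatty {x y : ℕ} (hx : x < n) (hy : y < n) (h : (x : ZMod n) = y) : x = y :=
  Nat.ModEq.eq_of_lt_of_lt ((ZMod.natCast_eq_natCast_iff x y n).1 h) hx hy

theorem add_ne_Beatty {x y : ℕ} {u v : ZMod n} (hx : Good_Beatty x u) (hy : Good_Beatty y v) :
    u + v ≠ 0 := by
  intro h
  have h1 : ((x + y : ℕ) : ZMod n) = (0 : ℕ) := by
    push_cast
    linear_combination (x : ZMod n) * y * h - y * hx.inv - x * hy.inv
  have := cast_inj_Beatty (by have := hx.lt; have := hy.lt; omega) (by have := hx.lt; omega) h1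
  have := hx.pos
  omega

theorem eq_Beatty {x y : ℕ} {u v : ZMod n} (hx : Good_Beatty x u) (hy : Good_Beatty y v)
    (h : u + u = v + v) : x = y := by
  have h1 : ((2 * y : ℕ) : ZMod n) = (2 * x : ℕ) := by
    push_cast
    linear_combination (x : ZMod n) * y * h - 2 * y * hx.inv + 2 * x * hy.inv
  have := cast_inj_Beatty hy.lt hx.lt h1
  omega

theorem eq_inv_Beatty {x : ℕ} {u v : ZMod n} (hx : Good_Beatty x u) (hy : Good_Beatty x v) :
    u = v := by
  linear_combination v * hx.inv - u * hy.inv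

theorem step1_Beatty {y z t : ℕ} {p q r s : ZMod n} (hq : Good_Beatty y q) (hr : Good_Beatty z r)
    (hs : Good_Beatty t s) (h : W_Beatty p q r s = 0) :
    q = p ∨ r = p ∨ s = p ∨ q + r + s = p := by
  by_contra hc
  simp only [not_or] at hc
  obtain ⟨h1, h2, h3, h4⟩ := hc
  have h5 : p + q + r ≠ p := fun e => add_ne_Beatty hq hr (by linear_combination e)
  have h6 : p + q + s ≠ p := fun e => add_ne_Beatty hq hs (by linear_combination e)
  have h7 : p + r + s ≠ p := fun e => add_ne_Beatty hr hs (by linear_combination e)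
  have h8 := congrArg (fun w => w.coeff p) h
  simp only [W_Beatty, ← e_add_Beatty, AddMonoidAlgebra.coeff_add, Finsupp.add_apply,
    e_coeff_Beatty, if_neg h1, if_neg h2, if_neg h3, if_neg h4, if_neg h5, if_neg h6, if_neg h7,
    if_true, add_zero, AddMonoidAlgebra.coeff_zero, Finsupp.zero_apply] at h8
  exact one_ne_zero h8

theorem step2a_Beatty {x : ℕ} {p r s : ZMod n} (hp : Good_Beatty x p) (h : W_Beatty p p r s = 0)
    (h1 : s ≠ r) : p + p + s = r := by
  by_contra h2
  have h3 : p + p + r ≠ r := fun e => add_ne_Beatty hp hp (by linear_combination e)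
  have h4 : e_Beatty r + e_Beatty s + e_Beatty (p + p + r) + e_Beatty (p + p + s) = 0 := by
    simp only [e_add_Beatty]
    unfold W_Beatty at h
    linear_combination h - (e_Beatty p + e_Beatty p * e_Beatty r * e_Beatty s) * two_Beatty
  have h8 := congrArg (fun w => w.coeff r) h4
  simp only [AddMonoidAlgebra.coeff_add, Finsupp.add_apply, e_coeff_Beatty, if_neg h1, if_neg h2,
    if_neg h3, if_true, add_zero, AddMonoidAlgebra.coeff_zero, Finsupp.zero_apply] at h8
  exact one_ne_zero h8

theorem step2_Beatty (hn : 5 ≤ n) {x : ℕ} {p r s : ZMod n} (hp : Good_Beatty x p)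
    (h : W_Beatty p p r s = 0) : r = s := by
  by_contra hc
  have h1 := step2a_Beatty hp h (fun e => hc e.symm)
  have h2 := step2a_Beatty hp (r := s) (s := r) (by rw [← h]; unfold W_Beatty; ring) hc
  have h3 : ((4 : ℕ) : ZMod n) = (0 : ℕ) := by
    push_cast
    linear_combination (x : ZMod n) * h1 + (x : ZMod n) * h2 - 4 * hp.inv
  have := cast_inj_Beatty (by omega) (by omega) h3
  omega

theorem pair_Beatty (hn : 5 ≤ n) {x y z t : ℕ} {p q r s : ZMod n} (hp : Good_Beatty x p)
    (hq : Good_Beatty y q) (hr : Good_Beatty z r) (hs : Good_Beatty t s)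
    (h : W_Beatty p q r s = 0) : (x = y ∧ z = t) ∨ (x = z ∧ y = t) ∨ (x = t ∧ y = z) := by
  have c12 : q = p → x = y ∧ z = t := fun e => by
    subst e
    exact ⟨eq_Beatty hp hq rfl, eq_Beatty hr hs (by rw [step2_Beatty hn hp h])⟩
  have c13 : r = p → x = z ∧ y = t := fun e => by
    subst e
    exact ⟨eq_Beatty hp hr rfl, eq_Beatty hq hs (by
      rw [step2_Beatty hn hp (r := q) (s := s) (by rw [← h]; unfold W_Beatty; ring)])⟩
  have c14 : s = p → x = t ∧ y = z := fun e => by
    subst e
    exact ⟨eq_Beatty hp hs rfl, eq_Beatty hq hr (by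
      rw [step2_Beatty hn hp (r := q) (s := r) (by rw [← h]; unfold W_Beatty; ring)])⟩
  rcases step1_Beatty hq hr hs h with e | e | e | e
  · exact Or.inl (c12 e)
  · exact Or.inr (Or.inl (c13 e))
  · exact Or.inr (Or.inr (c14 e))
  rcases step1_Beatty hp hr hs (p := q) (by rw [← h]; unfold W_Beatty; ring) with f | f | f | f
  · exact Or.inl (c12 f.symm)
  · subst f
    exact Or.inr (Or.inr (c14
      (step2_Beatty hn hq (r := s) (s := p) (by rw [← h]; unfold W_Beatty; ring))))
  · subst f
    exact Or.inr (Or.inl (c13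
      (step2_Beatty hn hq (r := r) (s := p) (by rw [← h]; unfold W_Beatty; ring))))
  · have hxy : x = y := eq_Beatty hp hq (by linear_combination f - e)
    subst hxy
    exact Or.inl (c12 (eq_inv_Beatty hq hp))

theorem geo_coeff_Beatty {x : ℕ} {u : ZMod n} (hx : Good_Beatty x u) (k : ℕ) :
    (∑ t ∈ Finset.range x, e_Beatty u ^ t).coeff (k : ZMod n) =
      ((if k * x % n < x then 1 else 0 : ℕ) : ZMod 2) := by
  have hn : 0 < n := by have := hx.lt; omega
  rw [AddMonoidAlgebra.coeff_sum, Finsupp.finsetSum_apply]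
  have h : ∀ t ∈ Finset.range x, (e_Beatty u ^ t).coeff (k : ZMod n) =
      if k * x % n = t then 1 else 0 := by
    intro t ht
    rw [e_pow_Beatty, e_coeff_Beatty]
    refine if_congr ⟨fun e => ?_, fun e => ?_⟩ rfl rfl
    · refine cast_inj_Beatty (Nat.mod_lt _ hn)
        (by have := Finset.mem_range.1 ht; have := hx.lt; omega) ?_
      rw [ZMod.natCast_mod]
      push_cast
      linear_combination (t : ZMod n) * hx.inv - x * e
    · rw [← e, ZMod.natCast_mod]
      push_cast
      linear_combination (k : ZMod n) * hx.inv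
  rw [Finset.sum_congr rfl h, Finset.sum_ite_eq]
  simp only [Finset.mem_range, Nat.cast_ite, Nat.cast_one, Nat.cast_zero]

theorem jump_Beatty {x : ℕ} (hx : x < n) (i : ℕ) :
    (i + 1) * x / n = i * x / n + if (i + 1) * x % n < x then 1 else 0 := by
  have hn : 0 < n := by omega
  have h1 := Nat.mod_lt (i * x) hn
  rw [add_mul, one_mul, Nat.add_div hn, Nat.div_eq_of_lt hx, Nat.mod_eq_of_lt hx, add_zero,
    Nat.add_mod, Nat.mod_eq_of_lt hx]
  generalize i * x % n = r at h1
  congr 1
  refine if_congr ⟨fun h => ?_, fun h => ?_⟩ rfl rfl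
  · rw [Nat.mod_eq_sub_mod h, Nat.mod_eq_of_lt (by omega)]
    omega
  · by_contra hc
    rw [Nat.mod_eq_of_lt (by omega)] at h
    omega

end

theorem beatty : BeattyStmt := by
  intro n a b c hn hc hcb hba han ca cb cc h
  have : NeZero n := ⟨by omega⟩
  have good : ∀ x : ℕ, 0 < x → 2 * x < n → x.Coprime n → ∃ u : ZMod n, Good_Beatty x u :=
    fun x h1 h2 h3 => ⟨_, h1, h2, ZMod.coe_mul_inv_eq_one x h3⟩
  obtain ⟨α, hα⟩ := good a (by omega) han ca
  obtain ⟨β, hβ⟩ := good b (by omega) (by omega) cb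
  obtain ⟨γ, hγ⟩ := good c (by omega) (by omega) cc
  have h1 : Good_Beatty 1 (1 : ZMod n) := ⟨one_pos, by omega, by simp⟩
  have geo : ∀ {x : ℕ} {u : ZMod n}, Good_Beatty x u →
      (e_Beatty u - 1) * ∑ t ∈ Finset.range x, e_Beatty u ^ t = e_Beatty 1 - 1 := by
    intro x u hx
    rw [mul_geom_sum, e_pow_Beatty, hx.inv]
  have hS : (∑ t ∈ Finset.range a, e_Beatty α ^ t) + (∑ t ∈ Finset.range b, e_Beatty β ^ t) +
      (∑ t ∈ Finset.range c, e_Beatty γ ^ t) + ∑ t ∈ Finset.range 1, e_Beatty (1 : ZMod n) ^ t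
        = 0 := by
    apply AddMonoidAlgebra.coeff_injective
    ext j
    obtain ⟨k, hk, rfl⟩ : ∃ k, k < n ∧ (k : ZMod n) = j :=
      ⟨j.val, j.val_lt, ZMod.natCast_zmod_val j⟩
    simp only [AddMonoidAlgebra.coeff_add, Finsupp.add_apply, AddMonoidAlgebra.coeff_zero,
      Finsupp.zero_apply]
    rw [geo_coeff_Beatty hα, geo_coeff_Beatty hβ, geo_coeff_Beatty hγ, geo_coeff_Beatty h1,
      ← Nat.cast_add, ← Nat.cast_add, ← Nat.cast_add, ZMod.natCast_eq_zero_iff_even]
    rcases k with _ | i
    · simp only [zero_mul, Nat.zero_mod, hα.pos, hβ.pos, hγ.pos, one_pos, if_true]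
      decide
    · have e1 := h (i + 1) (by omega) hk
      have e2 : Even (i * a / n + i * b / n + i * c / n) := by
        rcases Nat.eq_zero_or_pos i with rfl | hi
        · simp
        · exact h i hi (by omega)
      rw [jump_Beatty (x := a) (by omega), jump_Beatty (x := b) (by omega),
        jump_Beatty (x := c) (by omega)] at e1
      rw [mul_one, Nat.mod_eq_of_lt hk, if_neg (show ¬ i + 1 < 1 by omega), add_zero]
      rw [Nat.even_iff] at e1 e2 ⊢
      omega
  rw [Finset.sum_range_one, pow_zero] at hS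
  have hW : W_Beatty (1 : ZMod n) α β γ = 0 := by
    have ga := geo hα
    have gb := geo hβ
    have gc := geo hγ
    unfold W_Beatty
    generalize e_Beatty (1 : ZMod n) = X at ga gb gc ⊢
    generalize (∑ t ∈ Finset.range a, e_Beatty α ^ t) = P at ga hS
    generalize (∑ t ∈ Finset.range b, e_Beatty β ^ t) = Q at gb hS
    generalize (∑ t ∈ Finset.range c, e_Beatty γ ^ t) = R at gc hS
    generalize e_Beatty α = A at ga ⊢
    generalize e_Beatty β = B at gb ⊢
    generalize e_Beatty γ = C at gc ⊢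
    linear_combination (A - 1) * (B - 1) * (C - 1) * hS - (B - 1) * (C - 1) * ga -
      (A - 1) * (C - 1) * gb - (A - 1) * (B - 1) * gc +
      (X * A + X * B + X * C + A * B + A * C + B * C - X - A - B - C + 2) * two_Beatty
  have := pair_Beatty hn h1 hα hβ hγ hW
  omega

end

end Pool.Agent.MP_6374aa_gt
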