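import Pool.Agent.MP_6374aa_gt.Core4

/-! Edge functions and their evaluation on chains. -/

namespace Pool.Agent.MP_6374aa_gt

open Classical

variable {V V' : Type} {G : SimpleGraph V} {G' : SimpleGraph V'} {A S T : Set V} {A' : Set V'}

theorem ind_CapA {p : EA V → Prop} (h0 : p 0) (hadd : ∀ x y, p x → p y → p (x + y))
    (hsmul : ∀ (r : ℚ) x, p x → p (r • x)) (hw : ∀ l : List V, p (wedge l)) (z : EA V) : p z := by
  have h : z ∈ Submodule.span ℚ (Set.range (wedge : List V → EA V)) := by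
    induction z using CliffordAlgebra.left_induction with
    | algebraMap r =>
      rw [Algebra.algebraMap_eq_smul_one]
      exact Submodule.smul_mem _ _ (Submodule.subset_span ⟨[], rfl⟩)
    | add x y h h' => exact add_mem h h'
    | ι_mul x m h =>
      induction m using Finsupp.induction_linear with
      | zero => simp
      | add m m' e e' => rw [map_add, add_mul]; exact add_mem e e'
      | single a r =>
        rw [← Finsupp.smul_single_one, map_smul, smul_mul_assoc]
        exact Submodule.smul_mem _ _ ((Submodule.span_le (p := (Submodule.span ℚ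
          (Set.range wedge)).comap (LinearMap.mulLeft ℚ (vx a)))).2
          (Set.range_subset_iff.2 fun l => Submodule.subset_span ⟨a :: l, rfl⟩) h)
  exact Submodule.span_induction (fun _ ⟨l, e⟩ => e ▸ hw l) h0 (fun x y _ _ => hadd x y)
    (fun r x _ => hsmul r x) h

theorem top_CapA (l : List V) : wedge l ∈ Ch ⊤ Set.univ l.length :=
  wedge_mem_Ch ⟨fun _ _ => trivial, fun x _ y _ => eq_or_ne x y⟩

theorem iv_CapA (p a : V) (z : EA V) :
    iv p (vx a * z) = (if p = a then (1 : ℚ) else 0) • z - vx a * iv p z := by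
  rw [iv, ctr_vx_mul_ChA2, Finsupp.lapply_apply, Finsupp.single_apply]
  simp only [eq_comm]

theorem sc_one : sc (1 : EA V) = 1 := map_one (ExteriorAlgebra.algebraMapInv : EA V →ₐ[ℚ] ℚ)

theorem sc_vx_mul (a : V) (z : EA V) : sc (vx a * z) = 0 := by
  simp [sc, vx, ExteriorAlgebra.algebraMapInv]

theorem sc_eq_zero {n : ℕ} {z : EA V} (hz : z ∈ Ch G S (n + 1)) : sc z = 0 := by
  refine Ch_induction (p := fun z => sc z = 0) (map_zero _) (fun x y _ _ h h' => ?_)
    (fun r x _ h => ?_) (fun l hl _ _ => ?_) hz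
  · rw [map_add, h, h', add_zero]
  · rw [map_smul, h, smul_zero]
  · obtain ⟨a, l, rfl⟩ := List.exists_cons_of_length_eq_add_one hl
    exact sc_vx_mul _ _

theorem sc_emap (f : V → V') (z : EA V) : sc (emap f z) = sc z := by
  induction z using ind_CapA with
  | h0 => simp
  | hadd x y h h' => simp only [map_add, h, h']
  | hsmul r x h => simp only [map_smul, h]
  | hw l => cases l <;> simp [sc_one, emap_mul, sc_vx_mul]

theorem eq_sc_smul {z : EA V} (hz : z ∈ Ch G S 0) : z = sc z • (1 : EA V) := by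
  obtain ⟨r, rfl⟩ := mem_Ch_zero.1 hz
  rw [map_smul, sc_one, smul_eq_mul, mul_one]

/-- Every element has finite support. -/
theorem iv_finite (x : EA V) : {p : V | iv p x ≠ 0}.Finite := by
  induction x using ind_CapA with
  | h0 => simp
  | hadd x y h h' =>
    refine (h.union h').subset fun p hp => by_contra fun e => hp ?_
    simp only [Set.mem_union, Set.mem_ofPred_eq, not_or, not_not] at e
    rw [map_add, e.1, e.2, add_zero]
  | hsmul r x h => exact h.subset fun p hp e => hp (by rw [map_smul, e, smul_zero])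
  | hw l => exact l.finite_toSet.subset fun p hp => by_contra fun e => hp (iv_wedge_ChA2 l e)

theorem ef_add (x y : EA V) (p q : V) : ef (x + y) p q = ef x p q + ef y p q := by
  simp [ef]

theorem ef_sub (x y : EA V) (p q : V) : ef (x - y) p q = ef x p q - ef y p q := by
  simp [ef]

theorem ef_neg (x : EA V) (p q : V) : ef (-x) p q = - ef x p q := by
  simp [ef]

theorem ef_smul (r : ℚ) (x : EA V) (p q : V) : ef (r • x) p q = r * ef x p q := by
  simp [ef]

theorem ef_zero (p q : V) : ef (0 : EA V) p q = 0 := by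
  simp [ef]

theorem ef_sum {ι : Type} (s : Finset ι) (x : ι → EA V) (p q : V) :
    ef (∑ i ∈ s, x i) p q = ∑ i ∈ s, ef (x i) p q := by
  simp [ef]

theorem ef_anti (x : EA V) (p q : V) : ef x q p = - ef x p q := by
  rw [ef, iv_iv_comm, map_neg, ef]

theorem ef_self (x : EA V) (p : V) : ef x p p = 0 := by
  simp [ef]

theorem ef_vx_vx (a b p q : V) : ef (vx a * vx b) p q =
    (if p = a ∧ q = b then 1 else 0) - (if p = b ∧ q = a then 1 else 0) := by
  have h : ∀ p a : V, iv p (vx a) = (if p = a then (1 : ℚ) else 0) • 1 := fun p a => by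
    simpa only [mul_one, iv_one, mul_zero, sub_zero] using iv_CapA p a 1
  simp only [ef, iv_CapA, h, mul_smul_comm, map_sub, map_smul, sc_one, smul_eq_mul, mul_one,
    ite_and]
  split_ifs <;> simp

theorem ef_finite (x : EA V) : {e : V × V | ef x e.1 e.2 ≠ 0}.Finite :=
  ((iv_finite x).prod (iv_finite x)).subset fun e he =>
    ⟨fun h => he (by simp [ef, h]), fun h => he (by rw [ef_anti]; simp [ef, h])⟩

theorem ef_fs (G : SimpleGraph V) (A : Set V) (x : EA V) : FS G A (ef x) :=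
  (ef_finite x).subset fun _ he => he.2.2.2

theorem ef_ne_zero {x : EA V} (hx : x ∈ Ch G S 2) {p q : V} (h : ef x p q ≠ 0) :
    p ∈ S ∧ q ∈ S ∧ G.Adj p q := by
  have h1 : q ∈ Lk G S {p} := by_contra fun e => h (by
    rw [ef, iv_eq_zero e (iv_mem_Ch p hx), map_zero])
  exact ⟨by_contra fun e => h (by simp [ef, iv_eq_zero e hx]), h1.1, h1.2 p rfl⟩

theorem ef_eq_zero_of_ne {n : ℕ} {x : EA V} (hx : x ∈ Ch G S n) (hn : n ≠ 2) (p q : V) :
    ef x p q = 0 := by
  rcases n with _ | _ | _ | n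
  · rw [eq_sc_smul hx]
    simp [ef]
  · rw [ef, eq_sc_smul (iv_mem_Ch p hx)]
    simp
  · exact absurd rfl hn
  · exact sc_eq_zero (iv_mem_Ch q (iv_mem_Ch p hx))

theorem iv0_CapA {x : EA V} (hx : x ∈ Ch G S 2) {p : V} (h : ∀ q, ef x p q = 0) : iv p x = 0 :=
  eq_zero_of_iv (iv_mem_Ch p hx) fun q _ => by
    rw [eq_sc_smul (iv_mem_Ch q (iv_mem_Ch p hx)), ← ef, h, zero_smul]

theorem eq_of_ef {x y : EA V} (hx : x ∈ Ch G S 2) (hy : y ∈ Ch G S 2)
    (h : ∀ p ∈ S, ∀ q ∈ S, G.Adj p q → ef x p q = ef y p q) : x = y :=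
  sub_eq_zero.1 (eq_zero_of_iv (sub_mem hx hy) fun p _ => iv0_CapA (sub_mem hx hy) fun q =>
    by_contra fun e => by
      obtain ⟨a, b, c⟩ := ef_ne_zero (sub_mem hx hy) e
      exact e (by rw [ef_sub, h p a q b c, sub_self]))

theorem mem_Ch_of_ef {x : EA V} (hx : x ∈ Ch G S 2)
    (h : ∀ p q, ef x p q ≠ 0 → p ∈ T ∧ q ∈ T) : x ∈ Ch G T 2 :=
  Ch_mono Set.inter_subset_right 2 (mem_Ch_of_iv hx fun p _ hp => iv0_CapA hx fun q =>
    by_contra fun e => hp (h p q e).1)

theorem ef_emap {f : V' → V} (hf : Function.Injective f) (x : EA V') (p q : V') :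
    ef (emap f x) (f p) (f q) = ef x p q := by
  rw [ef, iv_emap hf, iv_emap hf, sc_emap, ef]

theorem ef_perm (g : Equiv.Perm V) (x : EA V) (p q : V) :
    ef (emap g x) p q = ef x (g⁻¹ p) (g⁻¹ q) := by
  rw [← ef_emap g.injective x]
  simp

theorem sum_CapA (a : V → V → ℚ) (z : EA V) (s : Finset (V × V))
    (h : ∀ e : V × V, ef z e.1 e.2 ≠ 0 → e ∈ s) :
    evE a z = ∑ e ∈ s, a e.1 e.2 * ef z e.1 e.2 / 2 :=
  finsum_eq_sum_of_support_subset _ fun e he => h e fun h0 => he (by simp [h0])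

theorem sum'_CapA (a : V → V → ℚ) (z : EA V) :
    evE a z = ∑ e ∈ (ef_finite z).toFinset, a e.1 e.2 * ef z e.1 e.2 / 2 :=
  sum_CapA a z _ fun _ => (ef_finite z).mem_toFinset.2

theorem evE_add (a : V → V → ℚ) (x y : EA V) : evE a (x + y) = evE a x + evE a y := by
  rw [sum_CapA a (x + y) ((ef_finite x).union (ef_finite y)).toFinset,
    sum_CapA a x ((ef_finite x).union (ef_finite y)).toFinset,
    sum_CapA a y ((ef_finite x).union (ef_finite y)).toFinset, ← Finset.sum_add_distrib]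
  · simp only [ef_add, mul_add, add_div]
  · exact fun e he => (Set.Finite.mem_toFinset _).2 (.inr he)
  · exact fun e he => (Set.Finite.mem_toFinset _).2 (.inl he)
  · refine fun e he => (Set.Finite.mem_toFinset _).2 (by_contra fun h => he ?_)
    simp only [Set.mem_union, Set.mem_ofPred_eq, not_or, not_not] at h
    rw [ef_add, h.1, h.2, add_zero]

theorem evE_smul (a : V → V → ℚ) (r : ℚ) (x : EA V) : evE a (r • x) = r * evE a x := by
  simp only [evE, ef_smul, mul_finsum]
  exact finsum_congr fun e => by ring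

theorem evE_neg (a : V → V → ℚ) (x : EA V) : evE a (-x) = - evE a x := by
  rw [← neg_one_smul ℚ x, evE_smul, neg_one_mul]

theorem evE_sub (a : V → V → ℚ) (x y : EA V) : evE a (x - y) = evE a x - evE a y := by
  rw [sub_eq_add_neg, evE_add, evE_neg, sub_eq_add_neg]

theorem evE_zero (a : V → V → ℚ) : evE a 0 = 0 := by
  simp [evE, ef_zero]

theorem evE_sum {ι : Type} (a : V → V → ℚ) (s : Finset ι) (x : ι → EA V) :
    evE a (∑ i ∈ s, x i) = ∑ i ∈ s, evE a (x i) := by
  induction s using Finset.induction_on with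
  | empty => exact evE_zero a
  | insert i s hi ih => rw [Finset.sum_insert hi, Finset.sum_insert hi, evE_add, ih]

theorem evE_add_left (a b : V → V → ℚ) (x : EA V) :
    evE (fun p q => a p q + b p q) x = evE a x + evE b x := by
  simp only [sum'_CapA, add_mul, add_div, Finset.sum_add_distrib]

theorem evE_sub_left (a b : V → V → ℚ) (x : EA V) :
    evE (fun p q => a p q - b p q) x = evE a x - evE b x := by
  simp only [sum'_CapA, sub_mul, sub_div, Finset.sum_sub_distrib]

theorem evE_mul_left (r : ℚ) (a : V → V → ℚ) (x : EA V) :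
    evE (fun p q => r * a p q) x = r * evE a x := by
  simp only [sum'_CapA, Finset.mul_sum, mul_assoc, mul_div_assoc]

theorem evE_zero_left (x : EA V) : evE (fun _ _ => 0) x = 0 := by
  simp [evE]

theorem evE_sum_left {ι : Type} (s : Finset ι) (a : ι → V → V → ℚ) (x : EA V) :
    evE (fun p q => ∑ i ∈ s, a i p q) x = ∑ i ∈ s, evE (a i) x := by
  simp only [sum'_CapA, Finset.sum_mul, Finset.sum_div]
  exact Finset.sum_comm

theorem evE_vx_vx (a : V → V → ℚ) (p q : V) : evE a (vx p * vx q) = (a p q - a q p) / 2 := by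
  have h : ∀ e ∈ ({(p, q), (q, p)} : Finset (V × V)), ∑ d ∈ ({(p, q), (q, p)} : Finset (V × V)),
      a d.1 d.2 * (if d.1 = e.1 ∧ d.2 = e.2 then 1 else 0) / 2 = a e.1 e.2 / 2 := fun e he => by
    rw [Finset.sum_eq_single_of_mem e he fun d _ hd => by simp [← Prod.ext_iff, hd]]
    simp
  rw [sum_CapA a _ {(p, q), (q, p)} fun e he => by_contra fun h => he (by
    simp only [Finset.mem_insert, Finset.mem_singleton, Prod.ext_iff, not_or] at h
    rw [ef_vx_vx, if_neg h.1, if_neg h.2, sub_zero])]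
  simp only [ef_vx_vx, mul_sub, sub_div, Finset.sum_sub_distrib]
  rw [h (p, q) (by simp), h (q, p) (by simp)]

theorem evE_congr {a b : V → V → ℚ} {z : EA V} (hz : z ∈ Ch G S 2)
    (h : ∀ p ∈ S, ∀ q ∈ S, G.Adj p q → a p q = b p q) : evE a z = evE b z :=
  finsum_congr fun e => by
    by_cases h0 : ef z e.1 e.2 = 0
    · rw [h0, mul_zero, mul_zero]
    · obtain ⟨h1, h2, h3⟩ := ef_ne_zero hz h0
      rw [h _ h1 _ h2 h3]

theorem evE_eq_zero_of_ne (a : V → V → ℚ) {n : ℕ} {z : EA V} (hz : z ∈ Ch G S n) (hn : n ≠ 2) :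
    evE a z = 0 := by
  simp [evE, ef_eq_zero_of_ne hz hn]

theorem evE_ne_zero {a : V → V → ℚ} {z : EA V} (hz : z ∈ Ch G S 2) (h : evE a z ≠ 0) :
    ∃ p ∈ S, ∃ q ∈ S, G.Adj p q ∧ a p q ≠ 0 := by
  by_contra h0
  push Not at h0
  exact h ((evE_congr hz h0).trans (evE_zero_left z))

theorem evE_emap (a : V → V → ℚ) (f : V' → V) (z : EA V') :
    evE a (emap f z) = evE (fun p q => a (f p) (f q)) z := by
  induction z using ind_CapA with
  | h0 => simp [evE_zero]
  | hadd x y h h' => simp only [map_add, evE_add, h, h']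
  | hsmul r x h => simp only [map_smul, evE_smul, h]
  | hw l =>
    by_cases h : l.length = 2
    · obtain ⟨p, q, rfl⟩ := List.length_eq_two.1 h
      simp [emap_mul, evE_vx_vx]
    · rw [emap_wedge, evE_eq_zero_of_ne _ (top_CapA l) h,
        evE_eq_zero_of_ne _ (top_CapA _) (by simpa using h)]

theorem evE_comm (x y : EA V) : evE (ef x) y = evE (ef y) x :=
  finsum_congr fun e => by rw [mul_comm]

theorem evE_ef_perm (g : Equiv.Perm V) (x y : EA V) :
    evE (ef (emap g x)) (emap g y) = evE (ef x) y := by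
  simp only [evE_emap, ef_emap g.injective]

theorem evE_ef_vx (x : EA V) (p q : V) : evE (ef x) (vx p * vx q) = ef x p q := by
  rw [evE_vx_vx, ef_anti x p q]
  ring

theorem bd3_CapA (a : V → V → ℚ) (p q r : V) : evE a (bd (wedge [p, q, r])) =
    (a q r - a r q) / 2 - ((a p r - a r p) / 2 - (a p q - a q p) / 2) := by
  simp only [wedge_cons, wedge_nil, mul_one, bd_vx_mul, bd_vx, mul_sub, evE_sub, evE_vx_vx]

theorem Coc.anti_CapA {a : V → V → ℚ} (h : Coc G A a) {p q : V} (hp : p ∈ A) (hq : q ∈ A)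
    (e : Adq G p q) : a q p = -a p q := by
  rcases e with rfl | e
  · rw [h.self, neg_zero]
  · exact h.anti p hp q hq e

theorem Coc.tri_CapA {a : V → V → ℚ} (h : Coc G A a) {p q r : V} (hp : p ∈ A) (hq : q ∈ A)
    (hr : r ∈ A) (e1 : Adq G p q) (e2 : Adq G q r) (e3 : Adq G p r) : a p q + a q r = a p r := by
  rcases e1 with rfl | e1
  · rw [h.self, zero_add]
  rcases e2 with rfl | e2
  · rw [h.self, add_zero]
  rcases e3 with rfl | e3
  · rw [h.self, h.anti p hp q hq e1, add_neg_cancel]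
  · exact h.tri p hp q hq r hr e1 e2 e3

theorem Coc.evE_bd {a : V → V → ℚ} (h : Coc G A a) {z : EA V} (hz : z ∈ Bd G A 2) :
    evE a z = 0 := by
  obtain ⟨w, hw, rfl⟩ := mem_Bd.1 hz
  refine Ch_induction (p := fun w => evE a (bd w) = 0) (by simp [evE_zero])
    (fun x y _ _ h h' => ?_) (fun r x _ h => ?_) (fun l hl _ hc => ?_) hw
  · rw [map_add, evE_add, h, h', add_zero]
  · rw [map_smul, evE_smul, h, mul_zero]
  · obtain ⟨p, q, r, rfl⟩ := List.length_eq_three.1 hl
    have hp := hc.1 p (by simp)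
    have hq := hc.1 q (by simp)
    have hr := hc.1 r (by simp)
    have e1 := hc.2 p (by simp) q (by simp)
    have e2 := hc.2 q (by simp) r (by simp)
    have e3 := hc.2 p (by simp) r (by simp)
    rw [bd3_CapA, h.anti_CapA hp hq e1, h.anti_CapA hq hr e2, h.anti_CapA hp hr e3,
      ← h.tri_CapA hp hq hr e1 e2 e3]
    ring

theorem evE_cob (F : V → ℚ) {z : EA V} (hz : z ∈ Zy G A 2) :
    evE (fun p q => F p - F q) z = 0 := by
  have h : evE (fun p q => F p - F q) z = -sc (ctr (Finsupp.linearCombination ℚ F) (bd z)) := by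
    refine Ch_induction (p := fun z => evE (fun p q => F p - F q) z =
      -sc (ctr (Finsupp.linearCombination ℚ F) (bd z))) (by simp [evE_zero])
      (fun x y _ _ h h' => ?_) (fun r x _ h => ?_) (fun l hl _ _ => ?_) hz.1
    · simp only [map_add, evE_add, h, h', neg_add]
    · simp only [map_smul, evE_smul, h, smul_eq_mul, mul_neg]
    · obtain ⟨p, q, rfl⟩ := List.length_eq_two.1 hl
      rw [wedge_cons, wedge_cons, wedge_nil, bd_vx_mul, bd_vx_mul, bd_one, mul_zero, sub_zero,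
        map_sub, ctr_vx_mul_ChA2, ctr_vx_mul_ChA2, mul_one, evE_vx_vx]
      simp [ctr_one_ChA2, sc_one]
      ring
  rw [h, (mem_Zy.1 hz).2]
  simp

theorem coc_of_evE {a : V → V → ℚ} (h : ∀ p q, a q p = - a p q)
    (h0 : ∀ z ∈ Bd G A 2, evE a z = 0) : Coc G A a := by
  refine ⟨fun p _ q _ _ => h p q, fun p hp q hq r hr e1 e2 e3 => ?_, fun p => by linarith [h p p]⟩
  have := h0 _ (mem_Bd.2 ⟨wedge [p, q, r], wedge_mem_Ch (l := [p, q, r]) ⟨by simp [hp, hq, hr], by
    simp [Adq, e1, e2, e3, e1.symm, e2.symm, e3.symm]⟩, rfl⟩)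
  rw [bd3_CapA, h p q, h q r, h p r] at this
  linarith

theorem coc_cob (G : SimpleGraph V) (A : Set V) (F : V → ℚ) : Coc G A fun p q => F p - F q :=
  ⟨fun _ _ _ _ _ => by ring, fun _ _ _ _ _ _ _ _ _ => by ring, fun _ => sub_self _⟩

theorem Coc.pull {a : V → V → ℚ} (h : Coc G A a) {f : V' → V} (hf : IsHom G' A' G A f) :
    Coc G' A' fun p q => a (f p) (f q) :=
  ⟨fun p hp q hq e => h.anti_CapA (hf.1 p hp) (hf.1 q hq) (hf.2 p hp q hq e),
    fun p hp q hq r hr e1 e2 e3 => h.tri_CapA (hf.1 p hp) (hf.1 q hq) (hf.1 r hr)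
      (hf.2 p hp q hq e1) (hf.2 q hq r hr e2) (hf.2 p hp r hr e3), fun _ => h.self _⟩

theorem Coc.add {a b : V → V → ℚ} (ha : Coc G A a) (hb : Coc G A b) :
    Coc G A fun p q => a p q + b p q :=
  ⟨fun p hp q hq e => by linarith [ha.anti p hp q hq e, hb.anti p hp q hq e],
    fun p hp q hq r hr e1 e2 e3 => by
      linarith [ha.tri p hp q hq r hr e1 e2 e3, hb.tri p hp q hq r hr e1 e2 e3],
    fun p => by linarith [ha.self p, hb.self p]⟩

theorem Coc.sub {a b : V → V → ℚ} (ha : Coc G A a) (hb : Coc G A b) :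
    Coc G A fun p q => a p q - b p q :=
  ⟨fun p hp q hq e => by linarith [ha.anti p hp q hq e, hb.anti p hp q hq e],
    fun p hp q hq r hr e1 e2 e3 => by
      linarith [ha.tri p hp q hq r hr e1 e2 e3, hb.tri p hp q hq r hr e1 e2 e3],
    fun p => by linarith [ha.self p, hb.self p]⟩

theorem Coc.mul (r : ℚ) {a : V → V → ℚ} (ha : Coc G A a) : Coc G A fun p q => r * a p q :=
  ⟨fun p hp q hq e => by rw [ha.anti p hp q hq e, mul_neg],
    fun p hp q hq s hs e1 e2 e3 => by rw [← ha.tri p hp q hq s hs e1 e2 e3, mul_add],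
    fun p => by rw [ha.self p, mul_zero]⟩

theorem Coc.sum {ι : Type} (s : Finset ι) {a : ι → V → V → ℚ} (ha : ∀ i ∈ s, Coc G A (a i)) :
    Coc G A fun p q => ∑ i ∈ s, a i p q :=
  ⟨fun p hp q hq e => by
      rw [← Finset.sum_neg_distrib]
      exact Finset.sum_congr rfl fun i hi => (ha i hi).anti p hp q hq e,
    fun p hp q hq r hr e1 e2 e3 => by
      rw [← Finset.sum_add_distrib]
      exact Finset.sum_congr rfl fun i hi => (ha i hi).tri p hp q hq r hr e1 e2 e3,
    fun p => Finset.sum_eq_zero fun i hi => (ha i hi).self p⟩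

theorem Coc.congr {a b : V → V → ℚ} (ha : Coc G A a) (h0 : ∀ p, b p p = 0)
    (h : ∀ p ∈ A, ∀ q ∈ A, G.Adj p q → b p q = a p q) : Coc G A b :=
  ⟨fun p hp q hq e => by rw [h p hp q hq e, h q hq p hp e.symm, ha.anti p hp q hq e],
    fun p hp q hq r hr e1 e2 e3 => by
      rw [h p hp q hq e1, h q hq r hr e2, h p hp r hr e3, ha.tri p hp q hq r hr e1 e2 e3], h0⟩

theorem Coc.mono {a : V → V → ℚ} (ha : Coc G A a) (h : S ⊆ A) : Coc G S a :=
  ⟨fun p hp q hq => ha.anti p (h hp) q (h hq),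
    fun p hp q hq r hr => ha.tri p (h hp) q (h hq) r (h hr), ha.self⟩

theorem FS.add {a b : V → V → ℚ} (ha : FS G A a) (hb : FS G A b) :
    FS G A fun p q => a p q + b p q :=
  (Set.Finite.union ha hb).subset fun e he => by
    by_cases h : a e.1 e.2 = 0
    · exact .inr ⟨he.1, he.2.1, he.2.2.1, by simpa [h] using he.2.2.2⟩
    · exact .inl ⟨he.1, he.2.1, he.2.2.1, h⟩

theorem FS.sub {a b : V → V → ℚ} (ha : FS G A a) (hb : FS G A b) :
    FS G A fun p q => a p q - b p q :=
  (Set.Finite.union ha hb).subset fun e he => by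
    by_cases h : a e.1 e.2 = 0
    · exact .inr ⟨he.1, he.2.1, he.2.2.1, by simpa [h] using he.2.2.2⟩
    · exact .inl ⟨he.1, he.2.1, he.2.2.1, h⟩

theorem FS.mul (r : ℚ) {a : V → V → ℚ} (ha : FS G A a) : FS G A fun p q => r * a p q :=
  Set.Finite.subset ha fun _ he => ⟨he.1, he.2.1, he.2.2.1, right_ne_zero_of_mul he.2.2.2⟩

theorem fs_of_finite (G : SimpleGraph V) (hA : A.Finite) (a : V → V → ℚ) : FS G A a :=
  (hA.prod hA).subset fun _ he => ⟨he.1, he.2.1⟩

theorem fs_cob (hl : ∀ p ∈ A, (Lk G A {p}).Finite) {F : V → ℚ}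
    (hF : {p | p ∈ A ∧ F p ≠ 0}.Finite) : FS G A fun p q => F p - F q := by
  refine (hF.biUnion fun p hp => ((Set.finite_singleton p).prod (hl p hp.1)).union
    ((hl p hp.1).prod (Set.finite_singleton p))).subset fun e ⟨h1, h2, h3, h4⟩ => ?_
  by_cases h : F e.1 = 0
  · exact Set.mem_biUnion (x := e.2) ⟨h2, by simpa [h] using h4⟩
      (.inr ⟨⟨h1, fun u hu => hu ▸ h3.symm⟩, rfl⟩)
  · exact Set.mem_biUnion (x := e.1) ⟨h1, h⟩ (.inl ⟨rfl, h2, fun u hu => hu ▸ h3⟩)

/-- Antisymmetric edge functions of finite support come from chains. -/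
theorem exists_ef {a : V → V → ℚ} (hf : FS G A a)
    (ha : ∀ p ∈ A, ∀ q ∈ A, G.Adj p q → a q p = - a p q) :
    ∃ x ∈ Ch G A 2, ∀ p ∈ A, ∀ q ∈ A, G.Adj p q → ef x p q = a p q := by
  refine ⟨∑ e ∈ hf.toFinset, (a e.1 e.2 / 2) • (vx e.1 * vx e.2), Submodule.sum_mem _ fun e he => ?_,
    fun p hp q hq h => ?_⟩
  · obtain ⟨h1, h2, h3, -⟩ := hf.mem_toFinset.1 he
    simpa using Submodule.smul_mem _ (a e.1 e.2 / 2) (wedge_mem_Ch (G := G) (S := A)
      (l := [e.1, e.2]) ⟨by simp [h1, h2], by simp [Adq, h3, h3.symm]⟩)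
  have key : ∀ p ∈ A, ∀ q ∈ A, G.Adj p q → ∑ e ∈ hf.toFinset,
      a e.1 e.2 / 2 * (if p = e.1 ∧ q = e.2 then 1 else 0) = a p q / 2 := fun p hp q hq h => by
    rw [Finset.sum_eq_single (p, q) (fun e _ he => by
      rw [if_neg fun h => he (Prod.ext h.1.symm h.2.symm), mul_zero]) fun he => by
      rw [show a p q = 0 from by_contra fun h0 => he (hf.mem_toFinset.2 ⟨hp, hq, h, h0⟩)]
      simp]
    simp
  simp only [ef_sum, ef_smul, ef_vx_vx, mul_sub, Finset.sum_sub_distrib, and_comm (a := p = Prod.snd _)]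
  rw [key p hp q hq h, key q hq p hp h.symm, ha p hp q hq h]
  ring

/-- Cocycles of finite support come from chains. -/
theorem Coc.exists_ef {a : V → V → ℚ} (h : Coc G A a) (hf : FS G A a) :
    ∃ x ∈ Ch G A 2, Coc G A (ef x) ∧ ∀ p ∈ A, ∀ q ∈ A, G.Adj p q → ef x p q = a p q := by
  obtain ⟨x, h1, h2⟩ := MP_6374aa_gt.exists_ef hf h.anti
  exact ⟨x, h1, h.congr (ef_self x) h2, h2⟩

end Pool.Agent.MP_6374aa_gt
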