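import Pool.Agent.MP_6374aa_gt.CapA

/-! Cap products: linearity, supports, equivariance. -/

namespace Pool.Agent.MP_6374aa_gt

open Classical

variable {V V' : Type} {G : SimpleGraph V} {A S : Set V} {η η' : V → EA V} {a b : V → V → ℚ}

theorem lk_lk (G : SimpleGraph V) (A : Set V) (p q : V) :
    Lk G (Lk G A {p}) {q} = Lk G A {p, q} := by
  ext w
  simp only [Lk, Set.mem_ofPred_eq, Set.mem_singleton_iff, Set.mem_insert_iff, forall_eq,
    forall_eq_or_imp, and_assoc]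

theorem eta0_lc (hA : A.Finite) {ζ : EA V} (hζ : ζ ∈ Zy G A 4) : Eta0 G A (lc ζ) :=
  ⟨fun _ _ => hA.subset fun _ hw => hw.1, fun _ hp => iv_eq_zero hp (mem_Zy.1 hζ).1,
    fun p _ => iv_mem_Zy p hζ, fun p q => iv_iv_comm q p ζ⟩

theorem Eta0.smul (h : Eta0 G A η) (r : ℚ) : Eta0 G A fun p => r • η p := by
  refine ⟨h.lf, fun p hp => ?_, fun p hp => Submodule.smul_mem _ _ (h.mem p hp), fun p q => ?_⟩
  · show r • η p = 0
    rw [h.out p hp, smul_zero]
  · show iv q (r • η p) = - iv p (r • η q)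
    rw [map_smul, map_smul, h.anti p q, smul_neg]

theorem Eta0.ne (h : Eta0 G A η) {p q : V} (hpq : iv q (η p) ≠ 0) :
    p ∈ A ∧ q ∈ A ∧ G.Adj p q := by
  have hp : p ∈ A := by
    by_contra hp
    exact hpq (by rw [h.out p hp, map_zero])
  have hq : q ∈ Lk G A {p} := by
    by_contra hq
    exact hpq (iv_eq_zero hq (mem_Zy.1 (h.mem p hp)).1)
  exact ⟨hp, hq.1, hq.2 p rfl⟩

theorem Eta0.edge_mem (h : Eta0 G A η) (p q : V) : iv q (η p) ∈ Zy G (Lk G A {p, q}) 2 := by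
  by_cases hp : p ∈ A
  · rw [← lk_lk]
    exact iv_mem_Zy q (h.mem p hp)
  · rw [h.out p hp, map_zero]
    exact Submodule.zero_mem _

theorem Eta0.finite (h : Eta0 G A η) (ha : FS G A a) :
    {e : V × V | a e.1 e.2 • (vx e.2 * iv e.2 (η e.1)) ≠ 0}.Finite := by
  refine Set.Finite.subset ha fun e he => ?_
  have h1 : a e.1 e.2 ≠ 0 := fun h0 => he (by rw [h0, zero_smul])
  have h2 : iv e.2 (η e.1) ≠ 0 := fun h0 => he (by rw [h0, mul_zero, smul_zero])
  obtain ⟨hp, hq, hpq⟩ := h.ne h2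
  exact ⟨hp, hq, hpq, h1⟩

/-- The cap product as a finite sum. -/
theorem cap1_eq_sum (s : Finset (V × V))
    (hs : ∀ p q, a p q ≠ 0 → iv q (η p) ≠ 0 → (p, q) ∈ s) :
    cap1 η a = ∑ e ∈ s, a e.1 e.2 • (vx e.2 * iv e.2 (η e.1)) := by
  refine finsum_eq_sum_of_support_subset _ fun e he => ?_
  have h1 : a e.1 e.2 ≠ 0 := fun h0 => he (by
    show a e.1 e.2 • (vx e.2 * iv e.2 (η e.1)) = 0
    rw [h0, zero_smul])
  have h2 : iv e.2 (η e.1) ≠ 0 := fun h0 => he (by
    show a e.1 e.2 • (vx e.2 * iv e.2 (η e.1)) = 0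
    rw [h0, mul_zero, smul_zero])
  exact hs e.1 e.2 h1 h2

theorem cap0_eq_sum {F : V → ℚ} (s : Finset V) (hs : ∀ p, F p ≠ 0 → η p ≠ 0 → p ∈ s) :
    cap0 η F = ∑ p ∈ s, F p • (vx p * η p) := by
  refine finsum_eq_sum_of_support_subset _ fun p he => ?_
  have h1 : F p ≠ 0 := fun h0 => he (by
    show F p • (vx p * η p) = 0
    rw [h0, zero_smul])
  have h2 : η p ≠ 0 := fun h0 => he (by
    show F p • (vx p * η p) = 0
    rw [h0, mul_zero, smul_zero])
  exact hs p h1 h2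

theorem cap1_congr (h : Eta0 G A η) (hab : ∀ p ∈ A, ∀ q ∈ A, G.Adj p q → a p q = b p q) :
    cap1 η a = cap1 η b := by
  refine finsum_congr fun e => ?_
  by_cases h2 : iv e.2 (η e.1) = 0
  · rw [h2, mul_zero, smul_zero, smul_zero]
  · obtain ⟨hp, hq, hpq⟩ := h.ne h2
    rw [hab _ hp _ hq hpq]

theorem cap1_congr_eta (h : ∀ p q, a p q ≠ 0 → iv q (η p) = iv q (η' p)) :
    cap1 η a = cap1 η' a := by
  refine finsum_congr fun e => ?_
  by_cases h1 : a e.1 e.2 = 0
  · rw [h1, zero_smul, zero_smul]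
  · rw [h _ _ h1]

theorem add_CapB (ha : {e : V × V | a e.1 e.2 • (vx e.2 * iv e.2 (η e.1)) ≠ 0}.Finite)
    (hb : {e : V × V | b e.1 e.2 • (vx e.2 * iv e.2 (η e.1)) ≠ 0}.Finite) :
    cap1 η (fun p q => a p q + b p q) = cap1 η a + cap1 η b := by
  unfold cap1
  rw [← finsum_add_distrib ha hb]
  exact finsum_congr fun e => add_smul _ _ _

theorem sub_CapB (ha : {e : V × V | a e.1 e.2 • (vx e.2 * iv e.2 (η e.1)) ≠ 0}.Finite)
    (hb : {e : V × V | b e.1 e.2 • (vx e.2 * iv e.2 (η e.1)) ≠ 0}.Finite) :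
    cap1 η (fun p q => a p q - b p q) = cap1 η a - cap1 η b := by
  unfold cap1
  rw [← finsum_sub_distrib ha hb]
  exact finsum_congr fun e => sub_smul _ _ _

theorem fin_ef_CapB (η : V → EA V) (x : EA V) :
    {e : V × V | ef x e.1 e.2 • (vx e.2 * iv e.2 (η e.1)) ≠ 0}.Finite :=
  (ef_finite x).subset fun e he h0 => he (by rw [h0, zero_smul])

theorem cap1_add (h : Eta0 G A η) (ha : FS G A a) (hb : FS G A b) :
    cap1 η (fun p q => a p q + b p q) = cap1 η a + cap1 η b :=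
  add_CapB (h.finite ha) (h.finite hb)

theorem cap1_sub (h : Eta0 G A η) (ha : FS G A a) (hb : FS G A b) :
    cap1 η (fun p q => a p q - b p q) = cap1 η a - cap1 η b :=
  sub_CapB (h.finite ha) (h.finite hb)

theorem cap1_mul (η : V → EA V) (r : ℚ) (a : V → V → ℚ) :
    cap1 η (fun p q => r * a p q) = r • cap1 η a := by
  unfold cap1
  rw [smul_finsum]
  exact finsum_congr fun e => mul_smul _ _ _

theorem cap1_zero (η : V → EA V) : cap1 η (fun _ _ => 0) = 0 := by
  unfold cap1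
  simp only [zero_smul, finsum_zero]

theorem cap1_smul_eta (η : V → EA V) (r : ℚ) (a : V → V → ℚ) :
    cap1 (fun p => r • η p) a = r • cap1 η a := by
  unfold cap1
  rw [smul_finsum]
  refine finsum_congr fun e => ?_
  rw [map_smul, mul_smul_comm, smul_comm]

theorem cap1_ef_add (η : V → EA V) (x y : EA V) :
    cap1 η (ef (x + y)) = cap1 η (ef x) + cap1 η (ef y) := by
  rw [← add_CapB (fin_ef_CapB η x) (fin_ef_CapB η y)]
  congr 1
  funext p q
  exact ef_add x y p q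

theorem cap1_ef_sub (η : V → EA V) (x y : EA V) :
    cap1 η (ef (x - y)) = cap1 η (ef x) - cap1 η (ef y) := by
  rw [← sub_CapB (fin_ef_CapB η x) (fin_ef_CapB η y)]
  congr 1
  funext p q
  exact ef_sub x y p q

theorem cap1_ef_smul (η : V → EA V) (r : ℚ) (x : EA V) :
    cap1 η (ef (r • x)) = r • cap1 η (ef x) := by
  rw [← cap1_mul]
  congr 1
  funext p q
  exact ef_smul r x p q

theorem cap1_ef_zero (η : V → EA V) : cap1 η (ef 0) = 0 := by
  have e : ef (0 : EA V) = fun _ _ => 0 := by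
    funext p q
    exact ef_zero p q
  rw [e, cap1_zero]

theorem cap1_ef_sum {ι : Type} (η : V → EA V) (s : Finset ι) (x : ι → EA V) :
    cap1 η (ef (∑ i ∈ s, x i)) = ∑ i ∈ s, cap1 η (ef (x i)) := by
  induction s using Finset.induction_on with
  | empty => rw [Finset.sum_empty, Finset.sum_empty, cap1_ef_zero]
  | insert i s hi ih => rw [Finset.sum_insert hi, Finset.sum_insert hi, cap1_ef_add, ih]

theorem cap1_ef_of_ne (η : V → EA V) {n : ℕ} {x : EA V} (hx : x ∈ Ch G S n) (hn : n ≠ 2) :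
    cap1 η (ef x) = 0 := by
  rw [← cap1_zero η]
  congr 1
  funext p q
  exact ef_eq_zero_of_ne hx hn p q

theorem cap1_ef_edge (h : Eta0 G A η) {p q : V} (hpq : p ≠ q) :
    cap1 η (ef (vx p * vx q)) = (vx p + vx q) * iv q (η p) := by
  have hne : (p, q) ≠ (q, p) := fun e => hpq (Prod.mk.inj e).1
  rw [cap1_eq_sum (η := η) {(p, q), (q, p)}, Finset.sum_pair hne]
  · have e1 : ef (vx p * vx q) p q = 1 := by
      rw [ef_vx_vx, if_pos ⟨rfl, rfl⟩, if_neg fun e => hpq e.1, sub_zero]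
    have e2 : ef (vx p * vx q) q p = -1 := by
      rw [ef_anti, e1]
    show ef (vx p * vx q) p q • (vx q * iv q (η p)) + ef (vx p * vx q) q p • (vx p * iv p (η q)) =
      (vx p + vx q) * iv q (η p)
    rw [e1, e2, h.anti q p, one_smul, neg_smul, one_smul, mul_neg, neg_neg, add_mul, add_comm]
  · intro u w h1 _
    rw [ef_vx_vx] at h1
    by_cases c1 : u = p ∧ w = q
    · rw [c1.1, c1.2]
      exact Finset.mem_insert_self _ _
    · by_cases c2 : u = q ∧ w = p
      · rw [c2.1, c2.2]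
        exact Finset.mem_insert_of_mem (Finset.mem_singleton_self _)
      · exact absurd (by rw [if_neg c1, if_neg c2, sub_zero]) h1

theorem cap1_mem (h : Eta0 G A η) (ha : FS G A a)
    (hS : ∀ p ∈ A, ∀ q ∈ A, G.Adj p q → a p q ≠ 0 → q ∈ S ∧ Lk G A {p, q} ⊆ S) :
    cap1 η a ∈ Ch G S 3 := by
  have _ := ha
  refine finsum_induction (fun z => z ∈ Ch G S 3) (Submodule.zero_mem _)
    (fun _ _ hx hy => Submodule.add_mem _ hx hy) fun e => ?_
  show a e.1 e.2 • (vx e.2 * iv e.2 (η e.1)) ∈ Ch G S 3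
  by_cases h1 : a e.1 e.2 = 0
  · rw [h1, zero_smul]
    exact Submodule.zero_mem _
  by_cases h2 : iv e.2 (η e.1) = 0
  · rw [h2, mul_zero, smul_zero]
    exact Submodule.zero_mem _
  obtain ⟨hp, hq, hpq⟩ := h.ne h2
  obtain ⟨k1, k2⟩ := hS _ hp _ hq hpq h1
  exact Submodule.smul_mem _ _ (vx_mul_mem_Ch k1 k2
    (fun t ht => Or.inr (ht.2 _ (Or.inr rfl))) (mem_Zy.1 (h.edge_mem e.1 e.2)).1)

theorem cap1_mem' (h : Eta0 G A η) (ha : FS G A a) : cap1 η a ∈ Ch G A 3 :=
  cap1_mem h ha fun _ _ _ hq _ _ => ⟨hq, fun _ hw => hw.1⟩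

theorem cap0_mem (h : Eta0 G A η) {F : V → ℚ} (hF : {p | p ∈ A ∧ F p ≠ 0}.Finite)
    (hS : ∀ p ∈ A, F p ≠ 0 → p ∈ S ∧ Lk G A {p} ⊆ S) : cap0 η F ∈ Ch G S 4 := by
  have _ := hF
  refine finsum_induction (fun z => z ∈ Ch G S 4) (Submodule.zero_mem _)
    (fun _ _ hx hy => Submodule.add_mem _ hx hy) fun p => ?_
  show F p • (vx p * η p) ∈ Ch G S 4
  by_cases h1 : F p = 0
  · rw [h1, zero_smul]
    exact Submodule.zero_mem _
  by_cases hp : p ∈ A
  · obtain ⟨k1, k2⟩ := hS p hp h1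
    exact Submodule.smul_mem _ _ (vx_mul_mem_Ch k1 k2
      (fun t ht => Or.inr (ht.2 _ rfl)) (mem_Zy.1 (h.mem p hp)).1)
  · rw [h.out p hp, mul_zero, smul_zero]
    exact Submodule.zero_mem _

theorem cap0_mem' (h : Eta0 G A η) {F : V → ℚ} (hF : {p | p ∈ A ∧ F p ≠ 0}.Finite) :
    cap0 η F ∈ Ch G A 4 :=
  cap0_mem h hF fun _ hp _ => ⟨hp, fun _ hw => hw.1⟩

theorem cap0_sub (h : Eta0 G A η) {F F' : V → ℚ} (hF : {p | p ∈ A ∧ F p ≠ 0}.Finite)
    (hF' : {p | p ∈ A ∧ F' p ≠ 0}.Finite) :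
    cap0 η (fun p => F p - F' p) = cap0 η F - cap0 η F' := by
  have key : ∀ K : V → ℚ, {p | p ∈ A ∧ K p ≠ 0}.Finite →
      Function.HasFiniteSupport fun p => K p • (vx p * η p) := by
    intro K hK
    refine Set.Finite.subset hK fun p he => ?_
    have h1 : K p ≠ 0 := fun h0 => he (by
      show K p • (vx p * η p) = 0
      rw [h0, zero_smul])
    have h2 : p ∈ A := by
      by_contra hp
      exact he (by
        show K p • (vx p * η p) = 0
        rw [h.out p hp, mul_zero, smul_zero])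
    exact ⟨h2, h1⟩
  unfold cap0
  rw [← finsum_sub_distrib (key F hF) (key F' hF')]
  exact finsum_congr fun p => sub_smul _ _ _

theorem cap1_perm (g : Equiv.Perm V) (hη : ∀ p, η (g p) = emap g (η p)) (a : V → V → ℚ) :
    cap1 η (fun p q => a (g⁻¹ p) (g⁻¹ q)) = emap g (cap1 η a) := by
  unfold cap1
  rw [← finsum_comp_equiv (Equiv.prodCongr g g)]
  refine Eq.trans (finsum_congr fun e => ?_)
    ((emap g).toAddMonoidHom.map_finsum_of_injective (emap_injective g.injective) _).symm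
  show a (g⁻¹ (g e.1)) (g⁻¹ (g e.2)) • (vx (g e.2) * iv (g e.2) (η (g e.1))) =
    emap g (a e.1 e.2 • (vx e.2 * iv e.2 (η e.1)))
  have e1 : ∀ x, g⁻¹ (g x) = x := fun x => g.symm_apply_apply x
  rw [e1, e1, hη, iv_emap g.injective, map_smul, emap_mul, emap_vx]

theorem cap1_ef_perm (g : Equiv.Perm V) (hη : ∀ p, η (g p) = emap g (η p)) (x : EA V) :
    cap1 η (ef (emap g x)) = emap g (cap1 η (ef x)) := by
  rw [← cap1_perm g hη]
  congr 1
  funext p q
  exact ef_perm g x p q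

theorem lc_perm (g : Equiv.Perm V) {ζ : EA V} (hζ : emap g ζ = ζ) (p : V) :
    lc ζ (g p) = emap g (lc ζ p) := by
  show iv (g p) ζ = emap g (iv p ζ)
  rw [← iv_emap g.injective, hζ]

theorem lc_smul (r : ℚ) (ζ : EA V) : lc (r • ζ) = fun p => r • lc ζ p := by
  funext p
  exact map_smul (iv p) r ζ

theorem lc_inj {n : ℕ} {ζ ζ' : EA V} (h : ζ ∈ Ch G A (n + 1)) (h' : ζ' ∈ Ch G A (n + 1))
    (e : lc ζ = lc ζ') : ζ = ζ' := by
  refine sub_eq_zero.1 (eq_zero_of_iv (Submodule.sub_mem _ h h') fun v _ => ?_)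
  rw [map_sub, sub_eq_zero]
  exact congrFun e v

theorem euler_CapB (t : Finset V) (l : List V) (hl : ∀ x ∈ l, x ∈ t) :
    ∑ p ∈ t, vx p * iv p (wedge l) = (l.length : ℚ) • wedge l := by
  induction l with
  | nil =>
    simp only [wedge_nil, iv_one, mul_zero, Finset.sum_const_zero, List.length_nil, Nat.cast_zero,
      zero_smul]
  | cons u l ih =>
    have hu : u ∈ t := hl u List.mem_cons_self
    have ih' := ih fun x hx => hl x (List.mem_cons_of_mem _ hx)
    have step : ∀ p, vx p * iv p (vx u * wedge l) =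
        (if p = u then vx u * wedge l else 0) + vx u * (vx p * iv p (wedge l)) := by
      intro p
      by_cases hp : p = u
      · subst hp
        rw [if_pos rfl, iv_vx_mul_self, mul_sub, ← mul_assoc, vx_mul_vx_self, zero_mul, sub_zero,
          add_zero]
      · rw [if_neg hp, zero_add, iv_vx_mul_ne (Ne.symm hp), mul_neg, ← mul_assoc, ← mul_assoc,
          vx_mul_vx_comm p u, neg_mul, neg_neg]
    rw [wedge_cons, Finset.sum_congr rfl fun p _ => step p, Finset.sum_add_distrib,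
      Finset.sum_ite_eq' t u, if_pos hu, ← Finset.mul_sum, ih', List.length_cons, Nat.cast_succ,
      add_smul, one_smul, mul_smul_comm, add_comm]

theorem bd_CapB (z : EA V) : ∃ t0 : Finset V, ∀ t : Finset V, t0 ⊆ t → ∑ p ∈ t, iv p z = bd z := by
  refine CliffordAlgebra.left_induction (Q := (0 : QuadraticForm ℚ (V →₀ ℚ)))
    (P := fun z : EA V => ∃ t0 : Finset V, ∀ t : Finset V, t0 ⊆ t → ∑ p ∈ t, iv p z = bd z)
    ?_ ?_ ?_ z
  · intro r
    refine ⟨∅, fun t _ => ?_⟩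
    show ∑ p ∈ t, ctr (Finsupp.lapply p) (algebraMap ℚ (EA V) r) =
      ctr (Finsupp.linearCombination ℚ fun _ : V => (1 : ℚ)) (algebraMap ℚ (EA V) r)
    simp only [ctr_alg_ChA2, Finset.sum_const_zero]
  · rintro x y ⟨t1, h1⟩ ⟨t2, h2⟩
    refine ⟨t1 ∪ t2, fun t ht => ?_⟩
    have e1 : ∑ p ∈ t, iv p (x : EA V) = bd x := h1 t (Finset.union_subset_left ht)
    have e2 : ∑ p ∈ t, iv p (y : EA V) = bd y := h2 t (Finset.union_subset_right ht)
    show ∑ p ∈ t, iv p ((x : EA V) + y) = bd ((x : EA V) + y)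
    simp only [map_add, Finset.sum_add_distrib]
    rw [e1, e2]
  · rintro x m ⟨t1, h1⟩
    refine ⟨t1 ∪ m.support, fun t ht => ?_⟩
    have e1 : ∑ p ∈ t, ctr (Finsupp.lapply p) (x : EA V) =
        ctr (Finsupp.linearCombination ℚ fun _ : V => (1 : ℚ)) x :=
      h1 t (Finset.union_subset_left ht)
    have e2 : ∑ p ∈ t, m p = Finsupp.linearCombination ℚ (fun _ : V => (1 : ℚ)) m := by
      rw [Finsupp.linearCombination_apply, Finsupp.sum_of_support_subset m
        (Finset.union_subset_right ht) (fun _ c => c • (1 : ℚ)) fun _ _ => zero_smul _ _]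
      simp only [smul_eq_mul, mul_one]
    show ∑ p ∈ t, ctr (Finsupp.lapply p) (ExteriorAlgebra.ι ℚ m * x) =
      ctr (Finsupp.linearCombination ℚ fun _ : V => (1 : ℚ)) (ExteriorAlgebra.ι ℚ m * x)
    simp only [ctr_iota_mul_ChA2, Finset.sum_sub_distrib, Finsupp.lapply_apply]
    rw [← Finset.sum_smul, ← Finset.mul_sum, e1, e2]

/-- The Euler identity. -/
theorem sum_vx_iv {n : ℕ} {z : EA V} (hz : z ∈ Ch G S n) (s : Finset V)
    (hs : ∀ p, iv p z ≠ 0 → p ∈ s) : ∑ p ∈ s, vx p * iv p z = (n : ℚ) • z := by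
  obtain ⟨S0, _, hz0⟩ := exists_finite_support hz
  have key : ∑ p ∈ s ∪ S0, vx p * iv p z = (n : ℚ) • z := by
    refine Ch_induction (p := fun z => ∑ p ∈ s ∪ S0, vx p * iv p z = (n : ℚ) • z) ?_ ?_ ?_ ?_ hz0
    · simp only [map_zero, mul_zero, Finset.sum_const_zero, smul_zero]
    · intro x y _ _ hx hy
      simp only [map_add, mul_add, Finset.sum_add_distrib, smul_add]
      rw [hx, hy]
    · intro r x _ hx
      simp only [map_smul, mul_smul_comm]
      rw [← Finset.smul_sum, hx, smul_comm]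
    · intro l hl _ hc
      rw [← hl]
      exact euler_CapB _ l fun x hx => Finset.mem_union_right _ (hc.1 x hx)
  rw [← key]
  refine Finset.sum_subset Finset.subset_union_left fun p _ hp => ?_
  have : iv p z = 0 := by
    by_contra h0
    exact hp (hs p h0)
  rw [this, mul_zero]

theorem sum_iv (z : EA V) (s : Finset V) (hs : ∀ p, iv p z ≠ 0 → p ∈ s) :
    ∑ p ∈ s, iv p z = bd z := by
  obtain ⟨t, ht⟩ := bd_CapB z
  rw [← ht (s ∪ t) Finset.subset_union_right]
  refine Finset.sum_subset Finset.subset_union_left fun p _ hp => ?_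
  by_contra h0
  exact hp (hs p h0)

end Pool.Agent.MP_6374aa_gt
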