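import Pool.Agent.MP_6374aa_gt.IfB

/-!
Basic facts on homology manifolds.
-/

namespace Pool.Agent.MP_6374aa_gt

open Classical

variable {V : Type} {G : SimpleGraph V}

theorem lk_sub_MfBasic {S : Set V} {v : V} : Lk G S {v} ⊆ S \ {v} := fun _ hx =>
  ⟨hx.1, fun h => G.irrefl (hx.2 _ h)⟩

theorem link_MfBasic {A : Set V} (h : LocS G A 4) {v : V} (hv : v ∈ A) :
    HS G (Lk G A {v}) 3 := by
  have := (h {v} (Finset.singleton_nonempty v) (by simpa using hv) (by simp)).2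
  simpa using this

theorem loc_MfBasic {A : Set V} (h : LocS G A 4) {v : V} (hv : v ∈ A) :
    LocS G (Lk G A {v}) 3 := by
  intro σ _ hσ hc
  have h1 : v ∉ σ := fun h => (lk_sub_MfBasic (hσ h)).2 rfl
  have h2 := h (insert v σ) (Finset.insert_nonempty _ _)
    (by
      rw [Finset.coe_insert]
      exact Set.insert_subset hv fun x hx => (hσ hx).1)
    (by
      rw [Finset.coe_insert]
      exact hc.insert fun x hx _ => (hσ hx).2 v rfl)
  rw [Finset.card_insert_of_notMem h1] at h2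
  have e : Lk G (Lk G A {v}) σ = Lk G A ↑(insert v σ) := by
    ext w
    simp [Lk, and_assoc]
  refine ⟨by omega, ?_⟩
  rw [e, show 3 - σ.card = 4 - (σ.card + 1) by omega]
  exact h2.2

theorem step_MfBasic {A : Set V} (h : LocS G A 4) {z : EA V} (hz : z ∈ Zy G A 4) {u w : V}
    (hu : u ∈ A) (hw : w ∈ A) (huw : Adq G u w) (h0 : iv w z = 0) : iv u z = 0 := by
  rcases huw with rfl | huw
  · exact h0
  obtain ⟨-, ζ, -, -, h1, h2⟩ := link_MfBasic h hu
  obtain ⟨r, hr⟩ := h1 _ (iv_mem_Zy u hz)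
  have h3 : iv w (iv u z) = 0 := by rw [iv_iv_comm, h0, map_zero, neg_zero]
  rw [hr, map_smul, smul_eq_zero] at h3
  rw [hr, h3.resolve_right (h2 w ⟨hw, fun x hx => by rw [hx]; exact huw⟩), zero_smul]

theorem mfBasic : MfBasicStmt := by
  rintro V G A ⟨hfin, hconn, hloc, -⟩
  refine ⟨⟨hfin, fun s hs hc => ?_⟩, fun z hz v hv h0 => ?_,
    fun v hv => ⟨link_MfBasic hloc hv, loc_MfBasic hloc hv⟩⟩
  · rcases s.eq_empty_or_nonempty with rfl | hne
    · simp
    · exact (hloc s hne hs hc).1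
  · refine eq_zero_of_iv (mem_Zy.1 hz).1 fun u hu => ?_
    obtain ⟨γ, hγ⟩ := hconn.2 u hu v hv
    clear hu hv
    induction hγ with
    | nil _ => exact h0
    | cons h1 h2 h3 ih => exact step_MfBasic hloc hz h1 h3.mem_left h2 (ih h0)

theorem lkBd_MfBasic {A : Set V} (h : Mf G A) {v : V} (hv : v ∈ A) (n : ℕ) :
    Zy G (Lk G A {v}) n ≤ Bd G (A \ {v}) n := by
  obtain ⟨-, -, hloc, ζ, hζ, hζ'⟩ := h
  obtain ⟨h1, ξ, -, -, h2, -⟩ := link_MfBasic hloc hv
  by_cases hn : n = 3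
  swap
  · exact (h1 n hn).trans (Bd_mono lk_sub_MfBasic n)
  subst hn
  intro z hz
  obtain ⟨r, rfl⟩ := h2 z hz
  obtain ⟨s, hs⟩ := h2 _ (iv_mem_Zy v hζ)
  have s0 : s ≠ 0 := fun e => hζ' v hv (by rw [hs, e, zero_smul])
  have h3 : iv v ζ ∈ Bd G (A \ {v}) 3 := by
    refine mem_Bd.2 ⟨_, neg_mem (sub_vx_mul_iv_mem_Ch v (mem_Zy.1 hζ).1), ?_⟩
    rw [map_neg, map_sub, bd_vx_mul, (mem_Zy.1 hζ).2, (mem_Zy.1 (iv_mem_Zy v hζ)).2]
    simp
  have e : r • ξ = (r * s⁻¹) • iv v ζ := by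
    rw [hs, smul_smul, mul_assoc, inv_mul_cancel₀ s0, mul_one]
  rw [e]
  exact Submodule.smul_mem _ _ h3

theorem mfRem (hR : RemGenStmt) (hB : MfBasicStmt) : MfRemStmt := by
  intro V G A h v hv
  have e : ∀ T ⊆ Lk G A {v}, (A \ insert v (Lk G A {v})) ∪ T = A \ insert v (Lk G A {v} \ T) := by
    intro T hT
    ext x
    have h1 : x ∈ T → x ∈ A ∧ x ≠ v := fun hx => lk_sub_MfBasic (hT hx)
    simp only [Set.mem_union, Set.mem_sdiff, Set.mem_insert_iff]
    tauto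
  refine ⟨fun T hT n z hz hb => ?_, fun T hT n hn => ?_, fun z hz => ?_⟩
  · rw [e T hT] at hz ⊢
    refine (hR V G 4 A h.1 h.2.2.1 v hv _ Set.sdiff_subset n).1 z hz ?_
    exact mem_Bd_diff (lkBd_MfBasic h hv n)
      (Zy_mono (Set.sdiff_subset_sdiff_right (by simp)) n hz) hb
  · rw [e T hT]
    rcases n with _ | n
    · exact (PConn.Zy_zero_le ⟨v, hv⟩).trans le_sup_right
    refine (Zy_le_diff (v := v) (((hB V G A h).2.2 v hv).1.1 n (by omega))).trans
      (sup_le ?_ le_sup_right)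
    exact (hR V G 4 A h.1 h.2.2.1 v hv _ Set.sdiff_subset (n + 1)).2.1.trans
      (sup_le_sup_left (Bd_mono Set.sdiff_subset _) _)
  · exact (hB V G A h).2.1 z (Zy_mono Set.sdiff_subset 4 hz) v hv
      (iv_eq_zero (S := A \ {v}) (fun h => h.2 rfl) (mem_Zy.1 hz).1)

theorem one_ne_MfBasic : (1 : EA V) ≠ 0 := by
  simp

theorem iv_self_MfBasic (a : V) : iv a (vx a) = 1 := by
  simpa using iv_vx_mul_self a 1

theorem iv_ne_MfBasic {a b : V} (h : b ≠ a) : iv a (vx b) = 0 := by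
  simpa using iv_vx_mul_ne h 1

theorem hs1 : Hs1Stmt := by
  intro V G
  refine ⟨⟨fun n hn z hz => ?_, 1, mem_Zy.2 ⟨mem_Ch_zero.2 ⟨1, (one_smul _ _).symm⟩, bd_one⟩,
    one_ne_MfBasic, fun z hz => mem_Ch_zero.1 (mem_Zy.1 hz).1, fun _ h => h.elim⟩,
    fun a b hab => ?_⟩
  · obtain ⟨n, rfl⟩ := Nat.exists_eq_succ_of_ne_zero hn
    rw [eq_zero_of_iv (mem_Zy.1 hz).1 fun _ h => h.elim]
    exact zero_mem _
  have hne : a ≠ b := fun e => hab (Or.inl e)
  refine ⟨fun n hn => ?_, vx a - vx b, mem_Zy.2 ⟨sub_mem (vx_mem_GrA2 (by simp))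
    (vx_mem_GrA2 (by simp)), by simp⟩, fun h => hne (vx_inj_GrA2 (sub_eq_zero.1 h)),
    fun z hz => ?_, ?_⟩
  · rcases Nat.eq_zero_or_pos n with rfl | h0
    · exact PConn.Zy_zero_le ⟨a, by simp⟩
    refine le_trans (le_trans inf_le_left (Ch_eq_bot fun s hs hc => ?_).le) bot_le
    have : s.card ≤ 1 := Finset.card_le_one.2 fun x hx y hy => by
      by_contra h
      have h1 := hc hx hy h
      rcases hs hx with rfl | rfl <;> rcases hs hy with rfl | rfl
      · exact h rfl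
      · exact hab (Or.inr h1)
      · exact hab (Or.inr h1.symm)
      · exact h rfl
    omega
  · have h1 : Ch G {a, b} 1 ≤ Submodule.span ℚ {vx a, vx b} := Ch_le_of fun l hl _ hc => by
      obtain ⟨x, rfl⟩ := List.length_eq_one_iff.1 hl
      rw [wedge_cons, wedge_nil, mul_one]
      rcases hc.1 x (by simp) with rfl | rfl <;> exact Submodule.subset_span (by simp)
    obtain ⟨r, s, rfl⟩ := Submodule.mem_span_pair.1 (h1 (mem_Zy.1 hz).1)
    have h2 := (mem_Zy.1 hz).2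
    rw [map_add, map_smul, map_smul, bd_vx, bd_vx, ← add_smul, smul_eq_zero] at h2
    refine ⟨r, ?_⟩
    rw [eq_neg_of_add_eq_zero_right (h2.resolve_right one_ne_MfBasic), neg_smul, smul_sub,
      sub_eq_add_neg]
  · rintro v (rfl | rfl)
    · rw [map_sub, iv_self_MfBasic, iv_ne_MfBasic hne.symm, sub_zero]
      exact one_ne_MfBasic
    · rw [map_sub, iv_self_MfBasic, iv_ne_MfBasic hne, zero_sub]
      exact neg_ne_zero.2 one_ne_MfBasic

end Pool.Agent.MP_6374aa_gt
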