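import Pool.Agent.MP_6374aa_gt.CapB
import Pool.Agent.MP_6374aa_gt.MfBasic

/-! Cap products: boundaries, naturality, fundamental cycles. -/

namespace Pool.Agent.MP_6374aa_gt

open Classical

variable {V V' : Type} {G : SimpleGraph V} {A : Set V} {η : V → EA V} {a : V → V → ℚ}

theorem ctr_eq_sum_CapC (φ : (V →₀ ℚ) →ₗ[ℚ] ℚ) (z : EA V) (s : Finset V)
    (hs : ∀ p, iv p z ≠ 0 → p ∈ s) : ctr φ z = ∑ p ∈ s, φ (Finsupp.single p 1) • iv p z := by
  have key : ∃ s0 : Finset V, ∀ t, s0 ⊆ t →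
      ctr φ z = ∑ p ∈ t, φ (Finsupp.single p 1) • iv p z := by
    clear hs
    refine CliffordAlgebra.left_induction (Q := (0 : QuadraticForm ℚ (V →₀ ℚ)))
      (P := fun z : EA V => ∃ s0 : Finset V, ∀ t, s0 ⊆ t →
        ctr φ z = ∑ p ∈ t, φ (Finsupp.single p 1) • iv p z) ?_ ?_ ?_ z
    · intro r
      refine ⟨∅, fun t _ => ?_⟩
      show ctr φ (algebraMap ℚ (EA V) r) =
        ∑ p ∈ t, φ (Finsupp.single p 1) • iv p (algebraMap ℚ (EA V) r)
      simp only [iv, ctr_alg_ChA2, smul_zero, Finset.sum_const_zero]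
    · rintro x y ⟨s1, hx⟩ ⟨s2, hy⟩
      refine ⟨s1 ∪ s2, fun t ht => ?_⟩
      have hx' := hx t (Finset.subset_union_left.trans ht)
      have hy' := hy t (Finset.subset_union_right.trans ht)
      show ctr φ ((x : EA V) + y) = ∑ p ∈ t, φ (Finsupp.single p 1) • iv p ((x : EA V) + y)
      simp only [map_add, smul_add, Finset.sum_add_distrib]
      rw [hx', hy']
    · rintro x m ⟨s1, hx⟩
      refine ⟨s1 ∪ m.support, fun t ht => ?_⟩
      have hx' := hx t (Finset.subset_union_left.trans ht)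
      have hm : φ m = ∑ p ∈ t, φ (Finsupp.single p 1) * m p := by
        conv_lhs => rw [← Finsupp.sum_single m]
        rw [Finsupp.sum_of_support_subset m (Finset.subset_union_right.trans ht) _
          (fun _ _ => Finsupp.single_zero _), map_sum]
        refine Finset.sum_congr rfl fun p _ => ?_
        rw [mul_comm, ← smul_eq_mul, ← map_smul, Finsupp.smul_single, smul_eq_mul, mul_one]
      show ctr φ (ExteriorAlgebra.ι ℚ m * x) =
        ∑ p ∈ t, φ (Finsupp.single p 1) • iv p (ExteriorAlgebra.ι ℚ m * x)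
      simp only [iv, ctr_iota_mul_ChA2, Finsupp.lapply_apply, smul_sub, Finset.sum_sub_distrib,
        smul_smul]
      rw [hx', hm, Finset.sum_smul, Finset.mul_sum]
      simp only [iv, mul_smul_comm]
  obtain ⟨s0, h⟩ := key
  rw [h (s0 ∪ s) Finset.subset_union_left]
  refine (Finset.sum_subset Finset.subset_union_right fun p _ hp => ?_).symm
  rw [not_not.1 fun e => hp (hs p e), smul_zero]

theorem iv_emap_CapC (f : V' → V) (x : EA V') (s : Finset V') (hs : ∀ p, iv p x ≠ 0 → p ∈ s)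
    (u : V) : iv u (emap f x) = ∑ p ∈ s, if f p = u then emap f (iv p x) else 0 := by
  rw [iv, ← emap_ctr_ChA2 f ((Finsupp.lapply u).comp (Finsupp.lmapDomain ℚ ℚ f)) _ fun _ => rfl,
    ctr_eq_sum_CapC _ x s hs, map_sum]
  refine Finset.sum_congr rfl fun p _ => ?_
  by_cases h : f p = u <;> simp [h]

theorem sum_emap_CapC {M : Type} [AddCommGroup M] [Module ℚ M] (f : V' → V) (x : EA V')
    (s : Finset V') (hs : ∀ p, iv p x ≠ 0 → p ∈ s) (L : V → EA V →ₗ[ℚ] M) :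
    ∑ u ∈ s.image f, L u (iv u (emap f x)) = ∑ p ∈ s, L (f p) (emap f (iv p x)) := by
  simp only [iv_emap_CapC f x s hs, map_sum]
  rw [Finset.sum_comm]
  refine Finset.sum_congr rfl fun p hp => ?_
  rw [Finset.sum_eq_single (f p) (fun u _ hu => by rw [if_neg hu.symm, map_zero])
    fun h => (h (Finset.mem_image_of_mem f hp)).elim, if_pos rfl]

theorem two_CapC {x : EA V} {s : Finset V} (hs : ∀ p, iv p x ≠ 0 → p ∈ s) {p q : V}
    (h : iv q (iv p x) ≠ 0) : p ∈ s ∧ q ∈ s :=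
  ⟨hs p fun e => h (by rw [e, map_zero]),
    hs q fun e => h (by rw [iv_iv_comm, e, map_zero, neg_zero])⟩

theorem mem_CapC (h : Eta0 G A η) (p : V) : η p ∈ Zy G (Lk G A {p}) 3 := by
  by_cases hp : p ∈ A
  · exact h.mem p hp
  · rw [h.out p hp]
    exact zero_mem _

theorem hs_CapC {S : Set V} {d : ℕ} (h : HS G S d) {w : EA V} (hw : w ∈ Zy G S d) (h0 : w ≠ 0) :
    (∀ z ∈ Zy G S d, ∃ r : ℚ, z = r • w) ∧ ∀ v ∈ S, iv v w ≠ 0 := by
  obtain ⟨-, ξ, -, -, h1, h2⟩ := h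
  obtain ⟨s, rfl⟩ := h1 w hw
  have s0 : s ≠ 0 := left_ne_zero_of_smul h0
  refine ⟨fun z hz => ?_, fun v hv => ?_⟩
  · obtain ⟨t, rfl⟩ := h1 z hz
    exact ⟨t * s⁻¹, by rw [smul_smul, mul_assoc, inv_mul_cancel₀ s0, mul_one]⟩
  · rw [map_smul]
    exact smul_ne_zero s0 (h2 v hv)

theorem edge_CapC (h : LocS G A 4) {p q : V} (hp : p ∈ A) (hq : q ∈ A) (hpq : G.Adj p q) :
    HS G (Lk G A {p, q}) 2 := by
  have := (loc_MfBasic h hp {q} (Finset.singleton_nonempty q)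
    (by simpa [Lk] using ⟨hq, hpq⟩) (by simp)).2
  rw [Finset.coe_singleton, lk_lk] at this
  simpa using this

theorem bd_cap1 (h : Eta0 G A η) (ha : FS G A a) (hc : Coc G A a) : bd (cap1 η a) = 0 := by
  refine eq_zero_of_iv (bd_mem_Ch (cap1_mem' h ha)) fun x hx => ?_
  obtain ⟨T, h1, h2⟩ : ∃ T : Finset V, (∀ p, iv p (η x) ≠ 0 → p ∈ T) ∧
      ∀ p q, a p q ≠ 0 → iv q (η p) ≠ 0 → (p, q) ∈ T ×ˢ T := by
    refine ⟨(iv_finite (η x)).toFinset ∪ (ha.toFinset.image Prod.fst ∪ ha.toFinset.image Prod.snd),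
      fun p hp => Finset.mem_union_left _ (by simpa using hp), fun p q h1 h2 => ?_⟩
    have h3 : (p, q) ∈ ha.toFinset :=
      ha.mem_toFinset.2 ⟨(h.ne h2).1, (h.ne h2).2.1, (h.ne h2).2.2, h1⟩
    exact Finset.mem_product.2
      ⟨Finset.mem_union_right _ (Finset.mem_union_left _ (Finset.mem_image_of_mem _ h3)),
        Finset.mem_union_right _ (Finset.mem_union_right _ (Finset.mem_image_of_mem _ h3))⟩
  have h3 : ∀ p q, iv x (bd (a p q • (vx q * iv q (η p)))) =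
      a p x • iv q (iv p (η x)) + a x q • iv q (iv p (η x)) := by
    intro p q
    have e : iv x (iv q (η p)) = iv q (iv p (η x)) := by
      rw [iv_iv_comm, h.anti p x, map_neg, neg_neg]
    rw [map_smul, map_smul, bd_vx_mul, (mem_Zy.1 (h.edge_mem p q)).2, mul_zero, sub_zero, e,
      ← add_smul]
    by_cases h0 : iv q (iv p (η x)) = 0
    · rw [h0, smul_zero, smul_zero]
    have b1 := h.ne (p := p) (q := q) fun e' => h0 (by rw [← e, e', map_zero])
    have b2 := h.ne (p := x) (q := p) fun e' => h0 (by rw [e', map_zero])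
    have b3 := h.ne (p := x) (q := q) fun e' => h0 (by rw [iv_iv_comm, e', map_zero, neg_zero])
    rw [hc.tri p b1.1 x hx q b1.2.1 b2.2.2.symm b3.2.2 b1.2.2]
  have h4 := (mem_Zy.1 (h.mem x hx)).2
  rw [cap1_eq_sum _ h2, map_sum, map_sum, Finset.sum_product]
  simp only [h3, Finset.sum_add_distrib]
  rw [Finset.sum_comm (f := fun p q => a x q • iv q (iv p (η x)))]
  simp only [← Finset.smul_sum, ← map_sum]
  rw [sum_iv _ T h1, h4]
  simp only [map_zero, smul_zero, Finset.sum_const_zero, add_zero]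
  refine Finset.sum_eq_zero fun p _ => ?_
  rw [sum_iv _ T fun q hq => (two_CapC h1 hq).2, ← neg_neg (bd _), ← iv_bd, h4, map_zero, neg_zero,
    smul_zero]

theorem cap1_mem_Zy (h : Eta0 G A η) (ha : FS G A a) (hc : Coc G A a) : cap1 η a ∈ Zy G A 3 :=
  mem_Zy.2 ⟨cap1_mem' h ha, bd_cap1 h ha hc⟩

theorem bd_cap0 (h : Eta0 G A η) {F : V → ℚ} (s : Finset V) (hs : ∀ p ∈ A, F p ≠ 0 → p ∈ s) :
    bd (cap0 η F) = ∑ p ∈ s, F p • η p := by
  rw [cap0_eq_sum s fun p h1 h2 => hs p (not_not.1 fun e => h2 (h.out p e)) h1, map_sum]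
  refine Finset.sum_congr rfl fun p _ => ?_
  rw [map_smul, bd_vx_mul, (mem_Zy.1 (mem_CapC h p)).2, mul_zero, sub_zero]

theorem cap1_cob (h : Eta0 G A η) {F : V → ℚ} (hF : {p | p ∈ A ∧ F p ≠ 0}.Finite) :
    cap1 η (fun p q => F p - F q) = (3 : ℚ) • bd (cap0 η F) := by
  obtain ⟨T, h1, h2⟩ : ∃ T : Finset V, (∀ p ∈ A, F p ≠ 0 → p ∈ T) ∧
      ∀ p, F p ≠ 0 → ∀ q, iv q (η p) ≠ 0 → q ∈ T :=
    ⟨hF.toFinset ∪ hF.toFinset.biUnion fun p => (iv_finite (η p)).toFinset,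
      fun p hp h1 => Finset.mem_union_left _ (hF.mem_toFinset.2 ⟨hp, h1⟩),
      fun p h1 q h2 => Finset.mem_union_right _ (Finset.mem_biUnion.2
        ⟨p, hF.mem_toFinset.2 ⟨(h.ne h2).1, h1⟩, by simpa using h2⟩)⟩
  rw [bd_cap0 h T h1, cap1_eq_sum (T ×ˢ T) fun p q a1 a2 => by
    rw [Finset.mem_product]
    by_cases hp : F p = 0
    · have hq : F q ≠ 0 := fun e => a1 (by rw [hp, e, sub_zero])
      exact ⟨h2 q hq p fun e => a2 (by rw [h.anti, e, neg_zero]), h1 q (h.ne a2).2.1 hq⟩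
    · exact ⟨h1 p (h.ne a2).1 hp, h2 p hp q a2⟩, Finset.sum_product]
  simp only [sub_smul, Finset.sum_sub_distrib]
  rw [Finset.sum_comm (f := fun p q => F q • (vx q * iv q (η p)))]
  simp only [← Finset.smul_sum, ← Finset.mul_sum]
  rw [Finset.smul_sum, Finset.sum_eq_zero (f := fun q => F q • (vx q * ∑ p ∈ T, iv q (η p))),
    sub_zero]
  · refine Finset.sum_congr rfl fun p _ => ?_
    by_cases hp : F p = 0
    · rw [hp, zero_smul, zero_smul, smul_zero]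
    · rw [sum_vx_iv (mem_Zy.1 (mem_CapC h p)).1 T (h2 p hp), smul_comm]
      rfl
  · intro q _
    by_cases hq : F q = 0
    · rw [hq, zero_smul]
    · simp only [fun p => h.anti p q]
      rw [Finset.sum_neg_distrib, sum_iv _ T (h2 q hq), (mem_Zy.1 (mem_CapC h q)).2, neg_zero,
        mul_zero, smul_zero]

theorem cap1_cob_mem (h : Eta0 G A η) {F : V → ℚ} (hF : {p | p ∈ A ∧ F p ≠ 0}.Finite) :
    cap1 η (fun p q => F p - F q) ∈ Bd G A 3 := by
  rw [cap1_cob h hF]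
  exact Submodule.smul_mem _ _ (mem_Bd.2 ⟨_, cap0_mem' h hF, rfl⟩)

/-- Naturality. -/
theorem emap_cap1 (f : V' → V) (x : EA V') (a : V → V → ℚ) :
    emap f (cap1 (lc x) fun p q => a (f p) (f q)) = cap1 (lc (emap f x)) a := by
  obtain ⟨s, hs⟩ : ∃ s : Finset V', ∀ p, iv p x ≠ 0 → p ∈ s :=
    ⟨(iv_finite x).toFinset, fun p hp => by simpa using hp⟩
  have ht : ∀ u, iv u (emap f x) ≠ 0 → u ∈ s.image f := by
    intro u hu
    by_contra h
    refine hu ?_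
    rw [iv_emap_CapC f x s hs]
    exact Finset.sum_eq_zero fun p hp => if_neg fun e => h (Finset.mem_image.2 ⟨p, hp, e⟩)
  rw [cap1_eq_sum (s ×ˢ s) fun p q _ h => Finset.mem_product.2 (two_CapC hs h),
    cap1_eq_sum (s.image f ×ˢ s.image f) fun p q _ h => Finset.mem_product.2 (two_CapC ht h),
    Finset.sum_product, Finset.sum_product, map_sum]
  have h1 := sum_emap_CapC f x s hs fun u =>
    ∑ v ∈ s.image f, a u v • (LinearMap.mulLeft ℚ (vx v)).comp (iv v)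
  simp only [LinearMap.sum_apply, LinearMap.smul_apply, LinearMap.comp_apply,
    LinearMap.mulLeft_apply] at h1
  simp only [lc]
  rw [h1]
  refine Finset.sum_congr rfl fun p _ => ?_
  have h2 := sum_emap_CapC f (iv p x) s (fun q hq => (two_CapC hs hq).2) fun v =>
    a (f p) v • LinearMap.mulLeft ℚ (vx v)
  simp only [LinearMap.smul_apply, LinearMap.mulLeft_apply] at h2
  rw [h2, map_sum]
  simp only [map_smul, emap_mul, emap_vx]

theorem Eta0.exists_top (h : Eta0 G A η) (hA : A.Finite) : ∃ ζ ∈ Zy G A 4, lc ζ = η := by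
  have hF : {p | p ∈ A ∧ (fun _ : V => (1 : ℚ)) p ≠ 0}.Finite := hA.subset fun _ hp => hp.1
  have h1 : ∀ x, iv x (cap0 η fun _ => 1) = (4 : ℚ) • η x := by
    intro x
    have h2 : ∀ p, iv x (vx p * η p) = (if p = x then η x else 0) + vx p * iv p (η x) := by
      intro p
      by_cases hp : p = x
      · have h3 : iv x (η x) = 0 := not_not.1 fun e => G.irrefl (h.ne e).2.2
        rw [if_pos hp, hp, iv_vx_mul_self, h3, mul_zero, sub_zero, add_zero]
      · rw [if_neg hp, iv_vx_mul_ne hp, h.anti p x, mul_neg, neg_neg, zero_add]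
    rw [cap0_eq_sum hA.toFinset fun p _ h2 =>
      hA.mem_toFinset.2 (not_not.1 fun e => h2 (h.out p e)), map_sum]
    simp only [one_smul, h2, Finset.sum_add_distrib, Finset.sum_ite_eq']
    rw [sum_vx_iv (mem_Zy.1 (mem_CapC h x)).1 _ fun p hp => hA.mem_toFinset.2 (h.ne hp).2.1]
    split_ifs with hx
    · rw [show (4 : ℚ) = 1 + (3 : ℕ) by norm_num, add_smul, one_smul]
    · rw [h.out x fun e => hx (hA.mem_toFinset.2 e), smul_zero, smul_zero, add_zero]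
  have h2 := cap0_mem' h hF
  refine ⟨(1 / 4 : ℚ) • cap0 η fun _ => 1, Submodule.smul_mem _ _ (mem_Zy.2 ⟨h2, ?_⟩), ?_⟩
  · refine eq_zero_of_iv (bd_mem_Ch h2) fun x _ => ?_
    rw [iv_bd, h1, map_smul, (mem_Zy.1 (mem_CapC h x)).2, smul_zero, neg_zero]
  · funext x
    rw [lc, map_smul, h1, smul_smul]
    norm_num

theorem eta_of_mf (h : Mf G A) {ζ : EA V} (hζ : ζ ∈ Zy G A 4) (h0 : ζ ≠ 0) : Eta G A (lc ζ) :=
  ⟨eta0_lc h.1 hζ, h.2.2.1, fun p hp e => h0 ((mfBasic V G A h).2.1 ζ hζ p hp e)⟩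

theorem Mf.top_smul (h : Mf G A) {ζ ζ' : EA V} (hζ : ζ ∈ Zy G A 4) (h0 : ζ ≠ 0)
    (hζ' : ζ' ∈ Zy G A 4) : ∃ r : ℚ, ζ' = r • ζ := by
  obtain ⟨v, hv⟩ := h.2.1.1
  obtain ⟨r, hr⟩ := (hs_CapC (link_MfBasic h.2.2.1 hv) (iv_mem_Zy v hζ)
    ((eta_of_mf h hζ h0).ne v hv)).1 _ (iv_mem_Zy v hζ')
  refine ⟨r, sub_eq_zero.1 ((mfBasic V G A h).2.1 _
    (sub_mem hζ' (Submodule.smul_mem _ _ hζ)) v hv ?_)⟩
  rw [map_sub, map_smul, hr, sub_self]

theorem Eta.gen0 (h : Eta G A η) {p : V} (hp : p ∈ A) {z : EA V} (hz : z ∈ Zy G (Lk G A {p}) 3) :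
    ∃ r : ℚ, z = r • η p :=
  (hs_CapC (link_MfBasic h.loc hp) (h.mem p hp) (h.ne p hp)).1 z hz

theorem Eta.ne1 (h : Eta G A η) {p q : V} (hp : p ∈ A) (hq : q ∈ A) (hpq : G.Adj p q) :
    iv q (η p) ≠ 0 :=
  (hs_CapC (link_MfBasic h.loc hp) (h.mem p hp) (h.ne p hp)).2 q
    ⟨hq, fun _ e => by rw [e]; exact hpq⟩

theorem Eta.gen1 (h : Eta G A η) {p q : V} (hp : p ∈ A) (hq : q ∈ A) (hpq : G.Adj p q)
    {z : EA V} (hz : z ∈ Zy G (Lk G A {p, q}) 2) : ∃ r : ℚ, z = r • iv q (η p) :=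
  (hs_CapC (edge_CapC h.loc hp hq hpq) (h.toEta0.edge_mem p q) (h.ne1 hp hq hpq)).1 z hz

theorem Eta.ne2 (h : Eta G A η) {p q r : V} (hp : p ∈ A) (hq : q ∈ A) (hr : r ∈ A)
    (hpq : G.Adj p q) (hqr : G.Adj q r) (hpr : G.Adj p r) : iv r (iv q (η p)) ≠ 0 :=
  (hs_CapC (edge_CapC h.loc hp hq hpq) (h.toEta0.edge_mem p q) (h.ne1 hp hq hpq)).2 r
    ⟨hr, by rintro _ (rfl | rfl) <;> assumption⟩

theorem Eta.link_acyclic (h : Eta G A η) {p : V} (hp : p ∈ A) {n : ℕ} (hn : n ≠ 3) :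
    Zy G (Lk G A {p}) n ≤ Bd G (Lk G A {p}) n :=
  (link_MfBasic h.loc hp).1 n hn

end Pool.Agent.MP_6374aa_gt
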