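import Pool.Agent.MP_6374aa_gt.IfB

/-! Homology manifolds are invariant under isomorphisms. -/

namespace Pool.Agent.MP_6374aa_gt

open Classical

variable {V V' : Type} {G : SimpleGraph V} {G' : SimpleGraph V'} {S : Set V} {S' : Set V'}
  {f : V' → V}

theorem iv_MfIso (h : IsIso G' S' G S f) {n : ℕ} {z : EA V'} (hz : z ∈ Ch G' S' n)
    (hv : ∀ v ∈ S, iv v (emap f z) ≠ 0) : ∀ v ∈ S', iv v z ≠ 0 := fun v h1 h2 =>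
  hv (f v) (h.1.1 h1) (iv_eq_zero (S := S \ {f v}) (fun h3 => h3.2 rfl)
    (emap_mem_Ch (h.isHom.mono (S' := S' \ {v}) (S := S \ {f v}) Set.sdiff_subset fun _ ha =>
      ⟨h.1.1 ha.1, fun e => ha.2 (h.1.2.1 ha.1 h1 e)⟩) (mem_Ch_diff_of_iv hz h2)))

theorem hs_MfIso (h : IsIso G' S' G S f) {d : ℕ} (hs : HS G S d) : HS G' S' d := by
  obtain ⟨h1, ζ, h2, h3, h4, h5⟩ := hs
  obtain ⟨ζ', h6, rfl⟩ := h.exists_Zy h2
  refine ⟨fun n hn z hz => h.mem_Bd (mem_Zy.1 hz).1 (h1 n hn (emap_mem_Zy h.isHom hz)), ζ', h6,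
    fun e => h3 (by rw [e, map_zero]), fun z hz => ?_, iv_MfIso h (mem_Zy.1 h6).1 h5⟩
  obtain ⟨r, hr⟩ := h4 _ (emap_mem_Zy h.isHom hz)
  exact ⟨r, sub_eq_zero.1 (emap_eq_zero_of_injOn h.1.2.1
    (sub_mem (mem_Zy.1 hz).1 (Submodule.smul_mem _ r (mem_Zy.1 h6).1))
    (by rw [map_sub, map_smul, hr, sub_self]))⟩

theorem lk_MfIso (h : IsIso G' S' G S f) {σ : Set V'} (hσ : σ ⊆ S') :
    IsIso G' (Lk G' S' σ) G (Lk G S (f '' σ)) f := by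
  refine ⟨⟨fun a ha => ⟨h.1.1 ha.1, ?_⟩, h.1.2.1.mono fun _ ha => ha.1, fun b hb => ?_⟩,
    fun a ha b hb => h.2 a ha.1 b hb.1⟩
  · rintro _ ⟨u, hu, rfl⟩
    exact (h.2 u (hσ hu) a ha.1).1 (ha.2 u hu)
  · obtain ⟨a, ha, rfl⟩ := h.1.2.2 hb.1
    exact ⟨a, ⟨ha, fun u hu => (h.2 u (hσ hu) a ha).2 (hb.2 _ ⟨u, hu, rfl⟩)⟩, rfl⟩

theorem loc_MfIso (h : IsIso G' S' G S f) {d : ℕ} (hs : LocS G S d) : LocS G' S' d := by
  intro σ h1 h2 h3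
  have h4 := hs (σ.image f) (h1.image f)
  rw [Finset.card_image_of_injOn (h.1.2.1.mono h2), Finset.coe_image] at h4
  obtain ⟨h5, h6⟩ := h4 (Set.image_subset_iff.2 fun a ha => h.1.1 (h2 ha)) (by
    rintro _ ⟨a, ha, rfl⟩ _ ⟨b, hb, rfl⟩ hab
    exact (h.2 a (h2 ha) b (h2 hb)).1 (h3 ha hb fun e => hab (congrArg f e)))
  exact ⟨h5, hs_MfIso (lk_MfIso h h2) h6⟩

theorem pull_MfIso (h : IsIso G' S' G S f) (hs : Mf G S) : Mf G' S' := by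
  obtain ⟨h1, h2, h3, ζ, h4, h5⟩ := hs
  obtain ⟨ζ', h6, rfl⟩ := h.exists_Zy h4
  obtain ⟨x, hx⟩ := h2.1
  obtain ⟨y, -, -⟩ := h.1.2.2 hx
  have : Nonempty V' := ⟨y⟩
  obtain ⟨g, hg, h7, -⟩ := h.exists_inv
  exact ⟨h.1.finite_iff_finite.2 h1,
    h2.image hg.isHom fun a ha => ⟨f a, h.1.1 ha, 1, (h7 a ha).symm ▸ Path.nil ha⟩,
    loc_MfIso h h3, ζ', h6, iv_MfIso h (mem_Zy.1 h6).1 h5⟩

theorem mfIso : MfIsoStmt := by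
  refine fun V V' G A G' A' f h => ⟨pull_MfIso h, fun hs => ?_⟩
  have : Nonempty V' := hs.2.1.1.elim fun x _ => ⟨x⟩
  obtain ⟨g, hg, -⟩ := h.exists_inv
  exact pull_MfIso hg hs

end Pool.Agent.MP_6374aa_gt
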