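import Pool.Agent.MP_6374aa_gt.CapC
import Pool.Agent.MP_6374aa_gt.MfIso

/-! Fundamental cycles of covers. -/

namespace Pool.Agent.MP_6374aa_gt

open Classical

variable {V : Type} {G : SimpleGraph V} {A : Set V} {η : V → EA V} {L : Type} [Group L]
  {lab : V → V → L}

omit [Group L] in
theorem inj_CapD (s : V → L) : Function.Injective fun u => (u, s u) :=
  fun _ _ h => congrArg Prod.fst h

omit [Group L] in
theorem iv_sec_CapD (s : V → L) (q : V × L) (z : EA V) :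
    iv q (emap (fun u => (u, s u)) z) =
      if q.2 = s q.1 then emap (fun u => (u, s u)) (iv q.1 z) else 0 := by
  split_ifs with e
  · rw [← iv_emap (inj_CapD s), ← e]
  · refine (emap_ctr_ChA2 _ 0 _ (fun m => Finsupp.mapDomain_of_notMem_range m q ?_) z).symm.trans ?_
    · rintro ⟨u, rfl⟩
      exact e rfl
    · rw [ctr, map_zero, LinearMap.zero_apply, map_zero]

omit [Group L] in
theorem fst_sec_CapD (s : V → L) (z : EA V) : emap Prod.fst (emap (fun u => (u, s u)) z) = z :=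
  (emap_comp _ _ z).trans (emap_id z)

theorem star_CapD (hl : Flat G A lab) {p a b : V × L} (hp : p.1 ∈ A) (ha : a.1 ∈ A) (hb : b.1 ∈ A)
    (h1 : Adq (cov G lab L) a p) (h2 : Adq (cov G lab L) b p) (h3 : Adq G a.1 b.1) :
    Adq (cov G lab L) a b := by
  obtain ⟨h4, h5⟩ := (cov_adq hl ha hp).1 h1
  obtain ⟨h6, h7⟩ := (cov_adq hl hb hp).1 h2
  exact (cov_adq hl ha hb).2 ⟨h3, by rw [h5, h7, smul_smul, hl _ ha _ hb _ hp h3 h6 h4]⟩

theorem adj_CapD (hl : Flat G A lab) {p a b : V × L} (hp : p.1 ∈ A) (ha : a.1 ∈ A) (hb : b.1 ∈ A)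
    (h1 : Adq (cov G lab L) a p) (h2 : Adq (cov G lab L) b p) (h3 : G.Adj a.1 b.1) :
    (cov G lab L).Adj a b :=
  (star_CapD hl hp ha hb h1 h2 (Or.inr h3)).resolve_left fun e => h3.ne (congrArg Prod.fst e)

theorem sec_CapD (hl : Flat G A lab) {p : V × L} (hp : p.1 ∈ A) :
    IsHom G (Lk G A {p.1}) (cov G lab L) (Lk (cov G lab L) (up A L) {p})
      fun u => (u, lab u p.1 * p.2) := by
  have h1 : ∀ w ∈ Lk G A {p.1}, (cov G lab L).Adj (w, lab w p.1 * p.2) p :=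
    fun w hw => (cov_adj'_GrB1 hl hw.1 hp).2 ⟨(hw.2 _ rfl).symm, rfl⟩
  refine ⟨fun w hw => ⟨hw.1, ?_⟩, fun a ha b hb hab =>
    star_CapD hl hp ha.1 hb.1 (Or.inr (h1 a ha)) (Or.inr (h1 b hb)) (Or.inr hab)⟩
  rintro _ rfl
  exact (h1 w hw).symm

theorem lk_CapD (hl : Flat G A lab) {σ : Set (V × L)} (h2 : σ ⊆ up A L) {p : V × L} (hp : p ∈ σ)
    (h4 : ∀ u ∈ σ, Adq (cov G lab L) u p) :
    IsIso (cov G lab L) (Lk (cov G lab L) (up A L) σ) G (Lk G A (Prod.fst '' σ)) Prod.fst := by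
  refine ⟨⟨fun a ha => ⟨ha.1, ?_⟩, fun a ha b hb e => ?_,
    fun w hw => ⟨(w, lab w p.1 * p.2), ⟨hw.1, fun u hu => ?_⟩, rfl⟩⟩, fun a ha b hb =>
      ⟨fun e => e.1, adj_CapD hl (h2 hp) ha.1 hb.1 (Or.inr (ha.2 p hp).symm)
        (Or.inr (hb.2 p hp).symm)⟩⟩
  · rintro _ ⟨u, hu, rfl⟩
    exact (ha.2 u hu).1
  · exact (star_CapD hl (h2 hp) ha.1 hb.1 (Or.inr (ha.2 p hp).symm) (Or.inr (hb.2 p hp).symm)
      (Or.inl e)).resolve_right fun n => n.1.ne e
  · exact adj_CapD hl (h2 hp) (h2 hu) hw.1 (h4 u hu)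
      ((cov_adq hl hw.1 (h2 hp)).2 ⟨Or.inr (hw.2 _ ⟨p, hp, rfl⟩).symm, rfl⟩) (hw.2 _ ⟨u, hu, rfl⟩)

theorem deck_CapD {C : Type} [CommGroup C] (ψ : C →* L) (g : C) :
    IsHom (cov G lab L) (up A L) (cov G lab L) (up A L) (deck V ψ g) :=
  ⟨fun _ ha => ha, fun _ _ _ _ hab => Or.inr
    ⟨hab.1, (congrArg (· * (ψ g)⁻¹) hab.2.1).trans (mul_assoc _ _ _),
      (congrArg (· * (ψ g)⁻¹) hab.2.2).trans (mul_assoc _ _ _)⟩⟩

omit [Group L] in
theorem fin_CapD [Finite L] (hA : A.Finite) : (up A L).Finite :=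
  (hA.prod Set.finite_univ).subset fun _ hp => ⟨hp, trivial⟩

theorem ne_CapD {p : V × L} (h : η p.1 ≠ 0) : etaL lab η p ≠ 0 := fun e =>
  h (emap_injective (inj_CapD _) (e.trans (map_zero _).symm))

theorem iv_etaL (h : Eta0 G A η) (hl : Flat G A lab) (p q : V × L) :
    iv q (etaL lab η p) = if q.2 = lab q.1 p.1 * p.2 then
      emap (fun u => (u, lab u p.1 * p.2)) (iv q.1 (η p.1)) else 0 := iv_sec_CapD _ q _

theorem Eta0.cov (h : Eta0 G A η) (hl : Flat G A lab) :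
    Eta0 (cov G lab L) (up A L) (etaL lab η) := by
  refine ⟨fun p hp => (cov_link_iso hl (fun _ h => h) hp fun _ hw _ => hw).1.finite_iff_finite.2
    (h.lf p.1 hp), fun p hp => by rw [etaL, h.out p.1 hp, map_zero], fun p hp => ?_, fun p q => ?_⟩
  · exact emap_mem_Zy (sec_CapD hl hp) (h.mem p.1 hp)
  · rw [iv_etaL h hl, iv_etaL h hl]
    by_cases h0 : iv q.1 (η p.1) = 0
    · rw [h0, neg_eq_zero.1 ((h.anti p.1 q.1).symm.trans h0)]
      simp
    obtain ⟨hp, hq, hpq⟩ := h.ne h0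
    by_cases e : q.2 = lab q.1 p.1 * p.2
    · rw [if_pos e, if_pos (by rw [e, hl.symm hp hq (Or.inr hpq), mul_inv_cancel_left]), h.anti,
        map_neg, neg_inj]
      refine emap_congr (fun u hu => ?_) (mem_Zy.1 (h.edge_mem q.1 p.1)).1
      rw [e, ← mul_assoc, hl u hu.1 _ hq _ hp (Or.inr (hu.2 _ (by simp)).symm) (Or.inr hpq.symm)
        (Or.inr (hu.2 _ (by simp)).symm)]
    · rw [if_neg e, if_neg fun e' => e (by rw [e', hl.symm hp hq (Or.inr hpq), inv_mul_cancel_left]),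
        neg_zero]

theorem LocS.cov {d : ℕ} (h : LocS G A d) (hl : Flat G A lab) :
    LocS (cov G lab L) (up A L) d := by
  intro σ ⟨p, hp⟩ h2 h3
  have h4 : ∀ u ∈ σ, Adq (Pool.Agent.MP_6374aa_gt.cov G lab L) u p := fun u hu =>
    or_iff_not_imp_left.2 (h3 hu hp)
  have h5 := h (σ.image Prod.fst) ⟨p.1, Finset.mem_image_of_mem _ hp⟩
  rw [Finset.card_image_of_injOn fun a ha b hb e => by_contra fun n => (h3 ha hb n).1.ne e,
    Finset.coe_image] at h5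
  obtain ⟨h6, h7⟩ := h5 (Set.image_subset_iff.2 h2) (by
    rintro _ ⟨a, ha, rfl⟩ _ ⟨b, hb, rfl⟩ hab
    exact (h3 ha hb fun e => hab (congrArg _ e)).1)
  exact ⟨h6, hs_MfIso (lk_CapD hl h2 hp h4) h7⟩

theorem Eta.cov (h : Eta G A η) (hl : Flat G A lab) :
    Eta (cov G lab L) (up A L) (etaL lab η) :=
  ⟨h.toEta0.cov hl, h.loc.cov hl, fun p hp => ne_CapD (h.ne p.1 hp)⟩

theorem etaL_deck {C : Type} [CommGroup C] (ψ : C →* L) (lab : V → V → L) (η : V → EA V) (g : C)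
    (p : V × L) : etaL lab η (deck V ψ g p) = emap (deck V ψ g) (etaL lab η p) := by
  rw [etaL, etaL, emap_comp]
  exact congrArg (emap · (η p.1)) (funext fun u => Prod.ext rfl (mul_assoc _ _ _).symm)

/-- The transfer of a cycle of top degree. -/
theorem exists_top_lift [Finite L] (hA : A.Finite) (hl : Flat G A lab) {ζ : EA V}
    (hζ : ζ ∈ Zy G A 4) : ∃ ζ' ∈ Zy (cov G lab L) (up A L) 4, lc ζ' = etaL lab (lc ζ) ∧
      (ζ ≠ 0 → ζ' ≠ 0) ∧
      ∀ (C : Type) [CommGroup C] (ψ : C →* L) (g : C), emap (deck V ψ g) ζ' = ζ' := by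
  obtain ⟨ζ', h1, h2⟩ := ((eta0_lc hA hζ).cov hl).exists_top (fin_CapD hA)
  refine ⟨ζ', h1, h2, fun h0 e => h0 (eq_zero_of_iv (mem_Zy.1 hζ).1 fun v _ => by_contra fun n =>
    ne_CapD (lab := lab) (η := lc ζ) (p := (v, 1)) n (by rw [← h2, e, lc, map_zero])),
    fun C _ ψ g => lc_inj (emap_mem_Ch (deck_CapD ψ g) (mem_Zy.1 h1).1) (mem_Zy.1 h1).1
      (funext fun q => ?_)⟩
  obtain ⟨p, rfl⟩ := (deck V ψ g).surjective q
  rw [h2, etaL_deck, ← h2]
  exact iv_emap (deck V ψ g).injective p ζ'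

/-- Connected finite covers of homology manifolds are homology manifolds. -/
theorem Mf.cov [Finite L] (h : Mf G A) (hl : Flat G A lab) (hc : PConn (cov G lab L) (up A L)) :
    Mf (cov G lab L) (up A L) := by
  obtain ⟨h1, -, h2, ζ, h3, h4⟩ := h
  obtain ⟨ζ', h5, h6, -⟩ := exists_top_lift h1 hl h3
  exact ⟨fin_CapD h1, hc, h2.cov hl, ζ', h5, fun v hv =>
    (congrFun h6 v).trans_ne (ne_CapD (η := lc ζ) (h4 v.1 hv))⟩

/-- Invariant cycles of top degree are transfers. -/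
theorem exists_top_base {C : Type} [CommGroup C] [Finite C] {lab : V → V → C} (hA : A.Finite)
    (hl : Flat G A lab) {ζ' : EA (V × C)} (hζ : ζ' ∈ Zy (cov G lab C) (up A C) 4)
    (hi : ∀ g, emap (dk V C g) ζ' = ζ') : ∃ ζ ∈ Zy G A 4, lc ζ' = etaL lab (lc ζ) := by
  obtain ⟨η, hη⟩ : ∃ η : V → EA V, ∀ p, η p = emap Prod.fst (iv (p, 1) ζ') := ⟨_, fun _ => rfl⟩
  have h1 : lc ζ' = etaL lab η := funext fun ⟨v, c⟩ => by
    have e : (v, c) = dk V C c⁻¹ (v, 1) := Prod.ext rfl (by simp [deck])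
    rw [etaL, hη, emap_comp, e, lc_perm _ (hi _), ← e]
    refine emap_congr (fun u hu => ?_) (iv_mem_Ch _ (mem_Zy.1 hζ).1)
    refine Prod.ext rfl ?_
    simp [deck, (hu.2 _ rfl).2.2]
  have h2 : ∀ p q, iv q (η p) = if lab p q * lab q p = 1 then - iv p (η q) else 0 := fun p q => by
    have e : iv (q, lab q p * 1) (lc ζ' (p, 1)) = - iv (p, 1) (lc ζ' (q, lab q p * 1)) :=
      iv_iv_comm _ _ _
    rw [h1, etaL, etaL, iv_sec_CapD, iv_sec_CapD, if_pos rfl] at e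
    have e' := congrArg (emap Prod.fst) e
    rw [fst_sec_CapD, map_neg, apply_ite (emap Prod.fst), fst_sec_CapD, map_zero] at e'
    simp only [e', mul_one, eq_comm (a := (1 : C)), neg_ite, neg_zero]
  obtain ⟨ζ, h3, h4⟩ := Eta0.exists_top (G := G) (η := η) ⟨fun p _ => hA.subset fun _ h => h.1,
    fun p hp => by rw [hη, iv_eq_zero (S := up A C) hp (mem_Zy.1 hζ).1, map_zero],
    fun p hp => hη p ▸ emap_mem_Zy (cov_link_iso (p := (p, 1)) hl (fun _ h => h) hp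
      fun _ hw _ => hw).isHom (iv_mem_Zy _ hζ), fun p q => by
      rw [h2 p q]
      split_ifs with e
      · rfl
      · rw [h2 q p, if_neg (mul_comm (lab p q) _ ▸ e), neg_zero]⟩ hA
  exact ⟨ζ, h3, h4 ▸ h1⟩

end Pool.Agent.MP_6374aa_gt
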