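import Pool.Agent.MP_6374aa_gt.IfA

/-! Controlled contractions have trivial torsion. -/

namespace Pool.Agent.MP_6374aa_gt

open Classical

noncomputable section

section Ctl

variable {C : Type} [CommGroup C] {B I : Type} {β : C →* Equiv.Perm B} {B0 : Set B}
  {ρ : ℕ → B → B → Prop} {pos : I → B}

theorem ctl_mono_Cct (hm : ∀ k a b, ρ k a b → ρ (k + 1) a b) {k l : ℕ} (hkl : k ≤ l)
    {M : Matrix I I (RC C)} (hM : Ctl β (ρ k) pos pos M) : Ctl β (ρ l) pos pos M := by
  induction l, hkl using Nat.le_induction with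
  | base => exact hM
  | succ l _ ih => exact fun j i g h => hm _ _ _ (ih j i g h)

theorem ctl_add_Cct {r : B → B → Prop} {M N : Matrix I I (RC C)} (hM : Ctl β r pos pos M)
    (hN : Ctl β r pos pos N) : Ctl β r pos pos (M + N) := by
  intro j i g h
  by_cases h1 : (M j i).coeff g = 0
  · refine hN j i g fun h2 => h ?_
    simp [Matrix.add_apply, h1, h2]
  · exact hM j i g h1

theorem ctl_sub_Cct {r : B → B → Prop} {M N : Matrix I I (RC C)} (hM : Ctl β r pos pos M)
    (hN : Ctl β r pos pos N) : Ctl β r pos pos (M - N) := by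
  intro j i g h
  by_cases h1 : (M j i).coeff g = 0
  · refine hN j i g fun h2 => h ?_
    simp [Matrix.sub_apply, h1, h2]
  · exact hM j i g h1

theorem ctl_one_Cct [DecidableEq I] {r : B → B → Prop} (hp : ∀ i, pos i ∈ B0)
    (hr : ∀ a ∈ B0, r a a) : Ctl β r pos pos (1 : Matrix I I (RC C)) := by
  intro j i g h
  by_cases hji : j = i
  · subst hji
    rw [Matrix.one_apply_eq, MonoidAlgebra.one_def] at h
    have hg : g = 1 := by
      by_contra hg
      apply h
      simp [Ne.symm hg]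
    subst hg
    simpa using hr _ (hp j)
  · rw [Matrix.one_apply_ne hji] at h
    simp at h

theorem coeff_mul_ne_Cct {a b : RC C} {g : C} (h : (a * b).coeff g ≠ 0) :
    ∃ g₁ g₂, g₂ * g₁ = g ∧ a.coeff g₁ ≠ 0 ∧ b.coeff g₂ ≠ 0 := by
  have h1 : g ∈ (a * b).coeff.support := Finsupp.mem_support_iff.2 h
  obtain ⟨g₁, h₁, g₂, h₂, rfl⟩ := Finset.mem_mul.1 (MonoidAlgebra.support_coeff_mul_subset a b h1)
  exact ⟨g₁, g₂, mul_comm _ _, Finsupp.mem_support_iff.1 h₁, Finsupp.mem_support_iff.1 h₂⟩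

theorem ctl_mul_Cct [Fintype I] (hp : ∀ i, pos i ∈ B0) (hβ : ∀ g, ∀ b ∈ B0, β g b ∈ B0)
    (hi : ∀ k g a b, ρ k a b → ρ k (β g a) (β g b))
    (ht : ∀ k, ∀ a ∈ B0, ∀ b ∈ B0, ∀ c ∈ B0, ρ k a b → ρ k b c → ρ (k + 1) a c) {k : ℕ}
    {M N : Matrix I I (RC C)} (hM : Ctl β (ρ k) pos pos M) (hN : Ctl β (ρ k) pos pos N) :
    Ctl β (ρ (k + 1)) pos pos (M * N) := by
  intro j i g h
  rw [Matrix.mul_apply, MonoidAlgebra.coeff_sum, Finsupp.finsetSum_apply] at h
  obtain ⟨m, -, hm⟩ := Finset.exists_ne_zero_of_sum_ne_zero h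
  obtain ⟨g₁, g₂, rfl, h₁, h₂⟩ := coeff_mul_ne_Cct hm
  refine ht k _ (hβ _ _ (hp j)) _ (hβ g₂ _ (hp m)) _ (hp i) ?_ (hN m i g₂ h₂)
  rw [map_mul, Equiv.Perm.mul_apply]
  exact hi k g₂ _ _ (hM j m g₁ h₁)

end Ctl

section Alg

variable {R I : Type} [CommRing R] [Fintype I] [DecidableEq I]

omit [DecidableEq I] in
theorem mul_ne_Cct {M N : Matrix I I R} {i j : I} (h : (M * N) i j ≠ 0) :
    ∃ m, M i m ≠ 0 ∧ N m j ≠ 0 := by
  rw [Matrix.mul_apply] at h
  obtain ⟨m, -, hm⟩ := Finset.exists_ne_zero_of_sum_ne_zero h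
  exact ⟨m, left_ne_zero_of_mul hm, right_ne_zero_of_mul hm⟩

omit [DecidableEq I] in
theorem mul_congr_Cct {M M' N : Matrix I I R} {i j : I} (h : ∀ m, N m j ≠ 0 → M i m = M' i m) :
    (M * N) i j = (M' * N) i j := by
  simp only [Matrix.mul_apply]
  refine Finset.sum_congr rfl fun m _ => ?_
  by_cases hm : N m j = 0
  · rw [hm, mul_zero, mul_zero]
  · rw [h m hm]

theorem block_Cct {T : Matrix I I R} (hT : T * T = 1) (p q : I → Prop) [Fintype {i // p i}]
    [DecidableEq {i // q i}] (h : ∀ i m, q i → ¬ p m → T i m = 0) :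
    (Matrix.of fun (i : {i // q i}) (j : {i // p i}) => T i.1 j.1) *
      (Matrix.of fun (j : {i // p i}) (i : {i // q i}) => T j.1 i.1) = 1 := by
  ext i i'
  have h1 := congrFun (congrFun hT i.1) i'.1
  rw [Matrix.mul_apply] at h1 ⊢
  simp only [Matrix.of_apply]
  rw [← Finset.sum_subtype (Finset.univ.filter p) (by simp) fun m => T i.1 m * T m i'.1,
    Finset.sum_filter_of_ne fun m _ hm => by
      by_contra hp
      exact hm (by rw [h i.1 m i.2 hp, zero_mul]), h1]
  simp [Matrix.one_apply, Subtype.ext_iff]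

theorem square_Cct {d h : Matrix I I R} (hd : d * d = 0) (hh : d * h + h * d = 1) :
    d * (h * d * h) + h * d * h * d = 1 ∧ (d + h * d * h) * (d + h * d * h) = 1 := by
  have h1 : d * h * d = d := by
    have := congrArg (· * d) hh
    simpa [add_mul, mul_assoc, hd] using this
  have h2 : d * h = 1 - h * d := eq_sub_of_add_eq hh
  have h3 : h * d = 1 - d * h := eq_sub_of_add_eq' hh
  have h4 : d * h * h = h * (h * d) := by
    rw [h3, mul_sub, mul_one]
    nth_rewrite 1 [h2]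
    rw [sub_mul, one_mul, mul_assoc]
  have h5 : d * (h * d * h) + h * d * h * d = 1 := by
    calc _ = d * h * d * h + h * (d * h * d) := by simp only [mul_assoc]
      _ = 1 := by rw [h1, hh]
  have h6 : h * d * h * (h * d * h) = 0 := by
    calc _ = h * (d * h * h * d) * h := by simp only [mul_assoc]
      _ = h * (h * h * (d * d)) * h := by rw [h4]; simp only [mul_assoc]
      _ = 0 := by simp [hd]
  refine ⟨h5, ?_⟩
  rw [add_mul, mul_add, mul_add, hd, h6, zero_add, add_zero, h5]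

end Alg

theorem contr_Cct {C : Type} [CommGroup C] {B I : Type} [Fintype I] [DecidableEq I]
    {β : C →* Equiv.Perm B} {B0 : Set B} {ρ : ℕ → B → B → Prop} {pos : I → B} {deg : I → ℕ}
    {d : Matrix I I (RC C)} (hp : ∀ i, pos i ∈ B0) (hd : IsCx deg d)
    (hβ : ∀ g, ∀ b ∈ B0, β g b ∈ B0) (hi : ∀ k g a b, ρ k a b → ρ k (β g a) (β g b))
    (hr : ∀ k, ∀ a ∈ B0, ρ k a a) (hm : ∀ k a b, ρ k a b → ρ (k + 1) a b)
    (ht : ∀ k, ∀ a ∈ B0, ∀ b ∈ B0, ∀ c ∈ B0, ρ k a b → ρ k b c → ρ (k + 1) a c)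
    (hc : Ctl β (ρ 0) pos pos d)
    (hs : ∀ k n, ∀ b ∈ B0, ∀ x : I → RC C, (∀ i, deg i ≠ n → x i = 0) →
      (∀ i g, (x i).coeff g ≠ 0 → ρ k (β g (pos i)) b) → d.mulVec x = 0 →
      ∃ y : I → RC C, (∀ i, deg i ≠ n + 1 → y i = 0) ∧
        (∀ i g, (y i).coeff g ≠ 0 → ρ (k + 1) (β g (pos i)) b) ∧ d.mulVec y = x) (n : ℕ) :
    ∃ h : Matrix I I (RC C), (∀ i j, h i j ≠ 0 → deg i = deg j + 1) ∧
      Ctl β (ρ (2 * n)) pos pos h ∧
      ∀ i j, deg j < n → (d * h + h * d) i j = (1 : Matrix I I (RC C)) i j := by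
  induction n with
  | zero => exact ⟨0, fun i j h => absurd rfl h, fun j i g h => by simp at h, fun i j h => by omega⟩
  | succ n ih =>
    obtain ⟨h, h1, h2, h3⟩ := ih
    have hx : Ctl β (ρ (2 * n + 1)) pos pos (1 - h * d) :=
      ctl_sub_Cct (ctl_one_Cct hp (hr _))
        (ctl_mul_Cct hp hβ hi ht h2 (ctl_mono_Cct hm (Nat.zero_le _) hc))
    have hy : ∀ j, deg j = n → ∃ y : I → RC C, (∀ i, deg i ≠ n + 1 → y i = 0) ∧
        (∀ i g, (y i).coeff g ≠ 0 → ρ (2 * n + 1 + 1) (β g (pos i)) (pos j)) ∧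
        d.mulVec y = fun i => (1 - h * d) i j := by
      intro j hj
      refine hs _ n _ (hp j) _ (fun i hi' => ?_) (fun i g hg => hx i j g hg) ?_
      · rw [Matrix.sub_apply, Matrix.one_apply_ne (fun e : i = j => hi' (by rw [e, hj])), zero_sub,
          neg_eq_zero]
        by_contra hne
        obtain ⟨m, hm1, hm2⟩ := mul_ne_Cct hne
        have := h1 _ _ hm1
        have := hd.1 _ _ hm2
        omega
      · funext i
        have e1 : ((d * h + h * d) * d) i j = ((1 : Matrix I I (RC C)) * d) i j :=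
          mul_congr_Cct fun m hm' => h3 i m (by have := hd.1 _ _ hm'; omega)
        rw [add_mul, mul_assoc h, hd.2, mul_zero, add_zero, one_mul] at e1
        change (d * (1 - h * d)) i j = 0
        rw [mul_sub, mul_one, ← mul_assoc, Matrix.sub_apply, e1, sub_self]
    choose! y hy1 hy2 hy3 using hy
    refine ⟨Matrix.of fun i j => if deg j = n then y j i else h i j, fun i j hij => ?_,
      fun i j g hg => ?_, fun i j hj => ?_⟩
    · rw [Matrix.of_apply] at hij
      split_ifs at hij with hj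
      · by_contra hne
        exact hij (hy1 j hj i (by rwa [← hj]))
      · exact h1 i j hij
    · rw [Matrix.of_apply] at hg
      split_ifs at hg with hj
      · exact hy2 j hj i g hg
      · exact hm _ _ _ (hm _ _ _ (h2 i j g hg))
    · have e1 : ((Matrix.of fun i j => if deg j = n then y j i else h i j) * d) i j =
          (h * d) i j := mul_congr_Cct fun m hm' => by
        have := hd.1 _ _ hm'
        rw [Matrix.of_apply, if_neg (by omega)]
      rw [Matrix.add_apply, e1]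
      by_cases hj' : deg j = n
      · have e2 : (d * Matrix.of fun i j => if deg j = n then y j i else h i j) i j =
            (1 - h * d) i j := by
          rw [← congrFun (hy3 j hj') i]
          simp [Matrix.mul_apply, Matrix.mulVec, dotProduct, hj']
        rw [e2, Matrix.sub_apply, sub_add_cancel]
      · have e2 : (d * Matrix.of fun i j => if deg j = n then y j i else h i j) i j =
            (d * h) i j := by
          simp [Matrix.mul_apply, hj']
        rw [e2, ← Matrix.add_apply]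
        exact h3 i j (by omega)

theorem cct (hE : TorExStmt) : CctStmt := by
  intro C _ _ B I _ _ β B0 ρ pos deg d hp hdeg hd hβ hi hr hm ht hc hs hV
  obtain ⟨h, h1, h2, h3⟩ := contr_Cct hp hd hβ hi hr hm ht hc hs 5
  have hh : d * h + h * d = 1 := by
    ext1 i j
    exact h3 i j (by have := hdeg j; omega)
  obtain ⟨h4, h5⟩ := square_Cct hd.2 hh
  have h6 : ∀ i j, (h * d * h) i j ≠ 0 → deg i = deg j + 1 := by
    intro i j hij
    obtain ⟨m, hm1, hm2⟩ := mul_ne_Cct hij
    obtain ⟨m', hm3, hm4⟩ := mul_ne_Cct hm1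
    have := h1 _ _ hm2
    have := h1 _ _ hm3
    have := hd.1 _ _ hm4
    omega
  have hctr : IsCtr deg d (h * d * h) := ⟨h6, h4⟩
  obtain ⟨e⟩ := hE (RC C) I deg d _ hd hctr
  have hT : Ctl β (ρ 30) pos pos (d + h * d * h) :=
    ctl_add_Cct (ctl_mono_Cct hm (Nat.zero_le _) hc) (ctl_mono_Cct hm (by norm_num : 12 ≤ 30)
      (ctl_mul_Cct hp hβ hi ht (ctl_mul_Cct hp hβ hi ht h2 (ctl_mono_Cct hm (Nat.zero_le _) hc))
        (ctl_mono_Cct hm (by norm_num) h2)))
  have hpar : ∀ i m, (Odd (deg i) ↔ Odd (deg m)) → (d + h * d * h) i m = 0 := by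
    intro i m him
    rw [Nat.odd_iff, Nat.odd_iff] at him
    have e1 : d i m = 0 := by
      by_contra hne
      have := hd.1 _ _ hne
      omega
    have e2 : (h * d * h) i m = 0 := by
      by_contra hne
      have := h6 _ _ hne
      omega
    rw [Matrix.add_apply, e1, e2, add_zero]
  refine ⟨_, ?_, _, hctr, e, rfl⟩
  exact hV {i // Odd (deg i)} {i // ¬ Odd (deg i)} (fun i => pos i.1) (fun i => pos i.1)
    (fun i => hp _) (fun i => hp _) (Matrix.of fun i j => (d + h * d * h) i.1 j.1)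
    (Matrix.of fun i j => (d + h * d * h) i.1 j.1)
    (block_Cct h5 _ _ fun i m a b => hpar i m ⟨fun c => absurd c a, fun c => absurd c b⟩)
    (block_Cct h5 _ _ fun i m a b => hpar i m ⟨fun _ => not_not.1 b, fun _ => a⟩)
    (fun j i g hg => hT _ _ g hg) (fun j i g hg => hT _ _ g hg) e

end

end Pool.Agent.MP_6374aa_gt
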