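import Pool.Agent.MP_6374aa_gt.IfP
import Pool.Agent.MP_6374aa_gt.Cct

/-! Controlled contractions relative to an idempotent. -/

namespace Pool.Agent.MP_6374aa_gt

open Classical

noncomputable section

theorem square_CctP {A : Type} [Ring A] {d h ε : A} (hd : d * d = 0) (hh : d * h + h * d = ε)
    (e1 : ε * d = d) (e2 : ε * h = h) (e3 : h * ε = h) :
    d * (h * d * h) + h * d * h * d = ε ∧ h * d * h * (h * d * h) = 0 := by
  have h2 : d * h = ε - h * d := eq_sub_of_add_eq hh
  have h3 : h * d = ε - d * h := eq_sub_of_add_eq' hh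
  have h1 : d * h * d = d := by
    rw [h2, sub_mul, e1, mul_assoc, hd, mul_zero, sub_zero]
  have h4 : d * h * h = h * (h * d) := by
    rw [h3, mul_sub, e3]
    nth_rewrite 1 [h2]
    rw [sub_mul, e2, mul_assoc]
  constructor
  · calc _ = d * h * d * h + h * (d * h * d) := by simp only [mul_assoc]
      _ = ε := by rw [h1, hh]
  · calc _ = h * (d * h * h * d) * h := by simp only [mul_assoc]
      _ = h * (h * h * (d * d)) * h := by rw [h4]; simp only [mul_assoc]
      _ = 0 := by simp [hd]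

theorem contr_CctP {C : Type} [CommGroup C] {B I : Type} [Fintype I] [DecidableEq I]
    {β : C →* Equiv.Perm B} {B0 : Set B} {ρ : ℕ → B → B → Prop} {pos : I → B} {deg : I → ℕ}
    {d ε : Matrix I I (RC C)} (hp : ∀ i, pos i ∈ B0) (hd : IsCx deg d)
    (hβ : ∀ g, ∀ b ∈ B0, β g b ∈ B0) (hi : ∀ k g a b, ρ k a b → ρ k (β g a) (β g b))
    (hm : ∀ k a b, ρ k a b → ρ (k + 1) a b)
    (ht : ∀ k, ∀ a ∈ B0, ∀ b ∈ B0, ∀ c ∈ B0, ρ k a b → ρ k b c → ρ (k + 1) a c)
    (hc : Ctl β (ρ 0) pos pos d) (hcε : Ctl β (ρ 0) pos pos ε)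
    (hε : ∀ i j, ε i j ≠ 0 → deg i = deg j) (e0 : ε * ε = ε) (e1 : ε * d = d) (e2 : d * ε = d)
    (hs : ∀ k n, ∀ b ∈ B0, ∀ x : I → RC C, (∀ i, deg i ≠ n → x i = 0) →
      (∀ i g, (x i).coeff g ≠ 0 → ρ k (β g (pos i)) b) → d.mulVec x = 0 → ε.mulVec x = x →
      ∃ y : I → RC C, (∀ i, deg i ≠ n + 1 → y i = 0) ∧
        (∀ i g, (y i).coeff g ≠ 0 → ρ (k + 1) (β g (pos i)) b) ∧ d.mulVec y = x) (n : ℕ) :
    ∃ h : Matrix I I (RC C), (∀ i j, h i j ≠ 0 → deg i = deg j + 1) ∧
      Ctl β (ρ (3 * n)) pos pos h ∧ ε * h = h ∧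
      ∀ i j, deg j < n → (d * h + h * d) i j = ε i j := by
  induction n with
  | zero =>
    exact ⟨0, fun i j h => absurd rfl h, fun j i g h => by simp at h, mul_zero _,
      fun i j h => by omega⟩
  | succ n ih =>
    obtain ⟨h, h1, h2, h0, h3⟩ := ih
    have hx : Ctl β (ρ (3 * n + 1)) pos pos (ε - h * d) :=
      ctl_sub_Cct (ctl_mono_Cct hm (Nat.zero_le _) hcε)
        (ctl_mul_Cct hp hβ hi ht h2 (ctl_mono_Cct hm (Nat.zero_le _) hc))
    have hy : ∀ j, deg j = n → ∃ y : I → RC C, (∀ i, deg i ≠ n + 1 → y i = 0) ∧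
        (∀ i g, (y i).coeff g ≠ 0 → ρ (3 * n + 1 + 1) (β g (pos i)) (pos j)) ∧
        d.mulVec y = fun i => (ε - h * d) i j := by
      intro j hj
      refine hs _ n _ (hp j) _ (fun i hi' => ?_) (fun i g hg => hx i j g hg) ?_ ?_
      · have e3 : ε i j = 0 := by
          by_contra hne
          exact hi' ((hε i j hne).trans hj)
        rw [Matrix.sub_apply, e3, zero_sub, neg_eq_zero]
        by_contra hne
        obtain ⟨m, hm1, hm2⟩ := mul_ne_Cct hne
        have := h1 _ _ hm1
        have := hd.1 _ _ hm2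
        omega
      · funext i
        have e3 : ((d * h + h * d) * d) i j = (ε * d) i j :=
          mul_congr_Cct fun m hm' => h3 i m (by have := hd.1 _ _ hm'; omega)
        rw [add_mul, mul_assoc h, hd.2, mul_zero, add_zero, e1] at e3
        change (d * (ε - h * d)) i j = 0
        rw [mul_sub, e2, ← mul_assoc, Matrix.sub_apply, e3, sub_self]
      · funext i
        change (ε * (ε - h * d)) i j = _
        rw [mul_sub, e0, ← mul_assoc, h0]
    choose! y hy1 hy2 hy3 using hy
    obtain ⟨k, k1, k2, k3⟩ : ∃ k : Matrix I I (RC C), (∀ i j, k i j ≠ 0 → deg i = deg j + 1) ∧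
        Ctl β (ρ (3 * n + 1 + 1)) pos pos k ∧
        ∀ i j, deg j < n + 1 → (d * k + k * d) i j = ε i j := by
      refine ⟨Matrix.of fun i j => if deg j = n then y j i else h i j, fun i j hij => ?_,
        fun i j g hg => ?_, fun i j hj => ?_⟩
      · rw [Matrix.of_apply] at hij
        split_ifs at hij with hj
        · by_contra hne
          exact hij (hy1 j hj i (by rwa [← hj]))
        · exact h1 i j hij
      · rw [Matrix.of_apply] at hg
        split_ifs at hg with hj
        · exact hy2 j hj i g hg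
        · exact hm _ _ _ (hm _ _ _ (h2 i j g hg))
      · have e3 : ((Matrix.of fun i j => if deg j = n then y j i else h i j) * d) i j =
            (h * d) i j := mul_congr_Cct fun m hm' => by
          have := hd.1 _ _ hm'
          rw [Matrix.of_apply, if_neg (by omega)]
        rw [Matrix.add_apply, e3]
        by_cases hj' : deg j = n
        · have e4 : (d * Matrix.of fun i j => if deg j = n then y j i else h i j) i j =
              (ε - h * d) i j := by
            rw [← congrFun (hy3 j hj') i]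
            simp [Matrix.mul_apply, Matrix.mulVec, dotProduct, hj']
          rw [e4, Matrix.sub_apply, sub_add_cancel]
        · have e4 : (d * Matrix.of fun i j => if deg j = n then y j i else h i j) i j =
              (d * h) i j := by
            simp [Matrix.mul_apply, hj']
          rw [e4, ← Matrix.add_apply]
          exact h3 i j (by omega)
    refine ⟨ε * k, fun i j hij => ?_,
      ctl_mul_Cct hp hβ hi ht (ctl_mono_Cct hm (Nat.zero_le _) hcε) k2,
      by rw [← mul_assoc, e0], fun i j hj => ?_⟩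
    · obtain ⟨m, hm1, hm2⟩ := mul_ne_Cct hij
      rw [hε _ _ hm1, k1 _ _ hm2]
    · have e3 : d * (ε * k) + ε * k * d = ε * (d * k + k * d) := by
        rw [mul_add, ← mul_assoc, ← mul_assoc, ← mul_assoc, e1, e2]
      rw [e3]
      conv_rhs => rw [← e0]
      rw [Matrix.mul_apply, Matrix.mul_apply]
      exact Finset.sum_congr rfl fun m _ => by rw [k3 m j hj]

theorem cctP : CctPStmt := by
  intro C _ _ B I _ _ β B0 ρ pos deg d ε hp hdeg hd hβ hi _ hm ht hc hcε hε e0 e1 e2 hs
  obtain ⟨k, k1, k2, k0, k3⟩ := contr_CctP hp hd hβ hi hm ht hc hcε hε e0 e1 e2 hs 5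
  have hk : d * k + k * d = ε := by
    ext1 i j
    exact k3 i j (by have := hdeg j; omega)
  obtain ⟨h, h1, h2, h3, h4, h5⟩ : ∃ h : Matrix I I (RC C),
      (∀ i j, h i j ≠ 0 → deg i = deg j + 1) ∧ Ctl β (ρ 16) pos pos h ∧ d * h + h * d = ε ∧
        ε * h = h ∧ h * ε = h := by
    refine ⟨k * ε, fun i j hij => ?_,
      ctl_mul_Cct hp hβ hi ht k2 (ctl_mono_Cct hm (Nat.zero_le _) hcε), ?_,
      by rw [← mul_assoc, k0], by rw [mul_assoc, e0]⟩
    · obtain ⟨m, hm1, hm2⟩ := mul_ne_Cct hij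
      rw [k1 _ _ hm1, hε _ _ hm2]
    · calc d * (k * ε) + k * ε * d = (d * k + k * d) * ε := by
            rw [add_mul, mul_assoc, mul_assoc, mul_assoc, e1, e2]
        _ = ε := by rw [hk, e0]
  obtain ⟨h6, h7⟩ := square_CctP hd.2 h3 e1 h4 h5
  refine ⟨h * d * h, fun i j hij => ?_, h6, h7, by rw [← mul_assoc, ← mul_assoc, h4],
    by rw [mul_assoc, h5], ctl_mono_Cct hm (by norm_num : 18 ≤ 30)
      (ctl_mul_Cct hp hβ hi ht (ctl_mul_Cct hp hβ hi ht h2 (ctl_mono_Cct hm (Nat.zero_le _) hc))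
        (ctl_mono_Cct hm (by norm_num) h2))⟩
  obtain ⟨m, hm1, hm2⟩ := mul_ne_Cct hij
  obtain ⟨m', hm3, hm4⟩ := mul_ne_Cct hm1
  have := h1 _ _ hm2
  have := h1 _ _ hm3
  have := hd.1 _ _ hm4
  omega

end

end Pool.Agent.MP_6374aa_gt
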