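import Pool.Agent.MP_6374aa_gt.IfC

/-! Packs extend along cell-like maps, and extensions give dichotomies. -/

namespace Pool.Agent.MP_6374aa_gt

open Classical

noncomputable section

theorem clExt (hG : ClGrpStmt) (hL : ClLocStmt) (hS : ClSeStmt) : ClExtStmt := by
  intro V V' G A G' A' c P P' b hc hm
  have loc := hL V V' G A G' A' c hc P'.fin3
  have se := hS V V' G A G' A' c hc
  obtain ⟨-, σ, s, k, -, -, -, hk⟩ := hG V V' G A G' A' c hc
  refine ⟨loc, b.injective, hm, fun x' h => absurd (b.surjective x') h, fun L _ ρ _ => ?_,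
    fun n hn z hz h => Submodule.mem_sup_left (se.hinj n hn z hz h),
    fun n _ x' h => absurd (b.surjective x') h, fun n hn x S hSA h z hz => ?_⟩
  · refine ⟨fun u w => (ρ.comp σ) (gen G A u w), fun x => ρ (k x), flat_hom _,
      fun u hu w hw huw => ?_⟩
    have h1 := hk u w _ (Path.single hu hw huw)
    rw [gmap_gen hc.1] at h1
    rw [h1, map_mul, map_mul, map_inv]
    rfl
  · obtain ⟨y, hy, β, hβ, e⟩ := Submodule.mem_sup.1 (h ((hm x).emap_mem hc.1 hz))
    obtain ⟨z', hz', h1⟩ := loc.s2 n S hSA y hy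
    have h2 : z - z' ∈ Bd G' A' n := by
      refine se.hinj n hn _ (sub_mem (II_le_Zy _ _ _ hz) (Zy_mono Set.inter_subset_left n hz')) ?_
      have h3 : emap c (z - z') = β - (emap c z' - y) := by
        rw [map_sub, ← e]
        abel
      rw [h3]
      exact sub_mem hβ (Bd_mono hSA n h1)
    exact Submodule.mem_sup.2 ⟨z', hz', z - z', h2, add_sub_cancel z' z⟩

theorem q0_ClExt (hS : ClSeStmt) (hP : PbStmt) (hE : ClExtStmt) {V V' : Type} {G : SimpleGraph V}
    {A : Set V} {G' : SimpleGraph V'} {A' : Set V'} {c : V' → V} (hc : CL G' A' G A c)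
    (hA : Fin3 G' A') : Q0 G' A' G A c := by
  refine ⟨hS _ _ _ _ _ _ _ hc, fun P => ?_⟩
  obtain ⟨P', b, hm⟩ := hP _ _ _ _ _ _ c P (hS _ _ _ _ _ _ _ hc) hA
  exact ⟨P', b, hE _ _ _ _ _ _ c P P' b hc hm, b.surjective⟩

theorem clQ1 (hS : ClSeStmt) (hP : PbStmt) (hE : ClExtStmt) (hC : ClCovStmt) : ClQ1Stmt := by
  intro V V' G A G' A' c hc hA
  exact ⟨q0_ClExt hS hP hE hc hA, fun L _ _ lab hl =>
    q0_ClExt hS hP hE (hC _ _ _ _ _ _ c L L lab hl hc) (hA.cov (hl.pull hc.1))⟩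

theorem decomp_ClExt {X E : Type} [Fintype X] [AddCommGroup E] [Module ℚ E]
    {N : X → Submodule ℚ E} {T : Set X} {z : E} (hz : z ∈ ⨆ x ∉ T, N x) :
    ∃ w : X → E, (∀ x, w x ∈ N x) ∧ (∀ x ∈ T, w x = 0) ∧ z = ∑ x, w x := by
  obtain ⟨w, h1, rfl⟩ := (Submodule.mem_iSup_iff_exists_finsupp _ _).1 hz
  refine ⟨w, fun x => (iSup_le fun _ => le_rfl : (⨆ _ : x ∉ T, N x) ≤ N x) (h1 x),
    fun x hx => ?_, Finsupp.sum_fintype _ _ fun _ => rfl⟩
  exact (Submodule.mem_bot ℚ).1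
    ((iSup_le fun h => absurd hx h : (⨆ _ : x ∉ T, N x) ≤ ⊥) (h1 x))

theorem single_mem_ClExt {X E : Type} [AddCommGroup E] [Module ℚ E] {N : X → Submodule ℚ E}
    {x : X} {z : E} (hz : z ∈ N x) (y : X) : (Pi.single x z : X → E) y ∈ N y := by
  by_cases h : y = x
  · rw [h, Pi.single_eq_same]
    exact hz
  · rw [Pi.single_eq_of_ne h]
    exact zero_mem _

theorem extDich : ExtDichStmt := by
  intro V V' G A G' A' c P P' j h
  refine ⟨h.loc.hom, h.inj, h.old, h.new, fun n hn x z hz hb => ?_, fun n hn x z hz => ?_⟩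
  · obtain ⟨β, hβ, y, hy, e⟩ := Submodule.mem_sup.1 (h.ker n hn z (II_le_Zy _ _ _ hz) hb)
    obtain ⟨w, h1, h2, rfl⟩ := decomp_ClExt hy
    have h3 := P'.h3 n hn (fun x' => (Pi.single (j x) z : P'.X → EA V') x' - w x')
      (fun x' => sub_mem (single_mem_ClExt (N := fun x' => P'.I x' n) hz x') (h1 x')) (by
        rw [Finset.sum_sub_distrib, Finset.sum_pi_single', if_pos (Finset.mem_univ _), ← e,
          add_sub_cancel_right]
        exact hβ) (j x)
    rwa [Pi.single_eq_same, h2 _ ⟨x, rfl⟩, sub_zero] at h3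
  · obtain ⟨z', hz', h1⟩ := h.loc.s2 n A subset_rfl z (II_le_Zy _ _ _ hz)
    obtain ⟨w, h2, h3⟩ := P'.exists_decomp hn (Zy_mono Set.inter_subset_left n hz')
    have h4 := emap_mem_Bd h.loc.hom h3
    rw [map_sub, map_sum, ← Finset.sum_add_sum_compl (Finset.univ.map ⟨j, h.inj⟩),
      Finset.sum_map] at h4
    have h5 : ∑ x' ∈ (Finset.univ.map ⟨j, h.inj⟩)ᶜ, emap c (w x') ∈ Bd G A n :=
      sum_mem fun x' hx' => P.emap_mem_Bd h.loc.hom (P'.mem x') (h.new x' fun ⟨y, hy⟩ =>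
        Finset.mem_compl.1 hx' (Finset.mem_map.2 ⟨y, Finset.mem_univ y, hy⟩)) hn (h2 x')
    have h6 := P.h3 n hn (fun y => emap c (w (j y)) - (Pi.single x z : P.X → EA V) y)
      (fun y => sub_mem ((h.old y).emap_mem h.loc.hom (h2 (j y)))
        (single_mem_ClExt (N := fun y => P.I y n) hz y)) (by
        rw [Finset.sum_sub_distrib, Finset.sum_pi_single', if_pos (Finset.mem_univ _)]
        have h7 := sub_mem (sub_mem h1 h4) h5
        simp only [Function.Embedding.coeFn_mk] at h7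
        convert h7 using 1
        abel) x
    rw [Pi.single_eq_same] at h6
    exact ⟨w (j x), h2 _, h6⟩

end

end Pool.Agent.MP_6374aa_gt
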