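import Pool.Agent.MP_6374aa_gt.IfC

namespace Pool.Agent.MP_6374aa_gt

open Classical

theorem isurj_ClSe {V V' : Type} {G : SimpleGraph V} {A : Set V} {G' : SimpleGraph V'}
    {A' : Set V'} {c : V' → V} (hc : CL G' A' G A c)
    (full : ∀ x' ∈ A', ∀ y' ∈ A', ∀ γ, Path G A (c x') (c y') γ →
      ∃ γ', Path G' A' x' y' γ' ∧ gmap G' A' G A c γ' = γ)
    (faith : ∀ y' γ', Path G' A' y' y' γ' → gmap G' A' G A c γ' = 1 → γ' = 1) (n : ℕ) {y' : V'}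
    (hy : y' ∈ A') {Γ' : Subgroup (Gp G' A')} (hΓ : Γ' ≤ Loop G' A' y') {z : EA V}
    (hz : z ∈ II G A (Γ'.map (gmap G' A' G A c)) (c y') n) :
    ∃ z' ∈ II G' A' Γ' y' n, emap c z' - z ∈ Bd G A n := by
  obtain ⟨F, h1, h2⟩ := exists_comp_lift (Γ' := Γ') (Γ := Γ'.map (gmap G' A' G A c)) hc.1
    (Path.nil (hc.1.1 y' hy)) fun δ hδ => by
      rw [inv_one, one_mul, mul_one]
      exact ⟨δ, hδ, rfl⟩
  simp only [mul_one] at h1
  have h3 : c ∘ Prod.fst = Prod.fst ∘ F := by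
    funext ⟨v, q⟩
    induction q using QuotientGroup.induction_on with
    | H γ => simp only [Function.comp, h1]
  have key : ∀ p ∈ comp G' A' Γ' y', ∀ q ∈ comp G' A' Γ' y',
      Adq (cov G (gen G A) _) (F p) (F q) → Adq G' p.1 q.1 → Adq (cov G' (gen G' A') _) p q := by
    rintro ⟨u, _⟩ ⟨γ, a1, rfl⟩ ⟨w, _⟩ ⟨δ, a2, rfl⟩ a3 a4
    have hu := a1.mem_left
    have hw := a2.mem_left
    rw [h1, h1] at a3
    have a5 := ((cov_adq (flat_gen G A) (hc.1.1 u hu) (hc.1.1 w hw)).1 a3).2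
    obtain ⟨ε, a6, a7⟩ := QuotientGroup.eq.1 a5
    have a8 := faith y' _ (((mem_Loop hy).1 (hΓ a6)).symm.trans
      (a1.symm.trans (Path.cons hu a4 a2))) (by
        rw [map_mul, map_inv, a7, map_mul, map_inv, map_mul, gmap_gen hc.1]
        exact inv_mul_cancel _)
    refine (cov_adq (flat_gen G' A') hu hw).2 ⟨a4, QuotientGroup.eq.2 ?_⟩
    rw [inv_mul_eq_one] at a8
    exact a8 ▸ a6
  obtain ⟨_, ⟨w, hw, rfl⟩, b, hb, rfl⟩ := Submodule.mem_sup.1 hz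
  obtain ⟨w', a1, a2⟩ := (fibre_lemma h2 (fun τ t1 t2 t3 m => by
    have adq : ∀ p ∈ τ, ∀ q ∈ τ, Adq (cov G (gen G A) _) p q := fun p hp q hq =>
      (eq_or_ne p q).imp id (t3 hp hq)
    have k : ∀ p ∈ comp G' A' Γ' y' ∩ F ⁻¹' τ, ∀ q ∈ comp G' A' Γ' y' ∩ F ⁻¹' τ,
        Adq G' p.1 q.1 → Adq (cov G' (gen G' A') _) p q := fun p hp q hq =>
      key p hp.1 q hq.1 (adq _ hp.2 _ hq.2)
    refine Contr.Zy_le_Bd (IsIso.contr (G := G') (S := A' ∩ c ⁻¹' (τ.image Prod.fst))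
      (f := Prod.fst) ⟨⟨fun p hp => ⟨comp_subset hp.1, ?_⟩, fun p hp q hq e => ?_, ?_⟩,
        fun p hp q hq => ⟨fun h => ?_, fun h => ?_⟩⟩ (hc.2 _ (t1.image _) ?_ ?_)) m
    · exact Finset.mem_coe.2 (Finset.mem_image.2 ⟨F p, hp.2, (congrFun h3 p).symm⟩)
    · exact (k p hp q hq (.inl e)).resolve_right fun h => h.1.ne e
    · rintro u ⟨hu, a1⟩
      obtain ⟨⟨x, r⟩, a2, a3⟩ := Finset.mem_image.1 a1
      obtain rfl : x = c u := a3
      obtain ⟨γ, a4, a5⟩ := t2 a2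
      obtain ⟨γ', a6, rfl⟩ := full u hu y' hy γ a4
      refine ⟨(u, QuotientGroup.mk γ'), ⟨⟨γ', a6, rfl⟩, ?_⟩, rfl⟩
      rw [Set.mem_preimage, h1, ← show r = _ from a5]
      exact a2
    · exact h.1
    · exact (k p hp q hq (.inr h)).resolve_left fun e => h.ne (congrArg _ e)
    · rw [Finset.coe_image]
      rintro _ ⟨p, hp, rfl⟩
      exact comp_subset (t2 hp)
    · rw [Finset.coe_image]
      rintro _ ⟨p, hp, rfl⟩ _ ⟨q, hq, rfl⟩ e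
      exact (t3 hp hq fun h => e (congrArg _ h)).1) subset_rfl n).2 w hw
  refine ⟨emap Prod.fst w',
    Submodule.mem_sup_left ⟨w', Zy_mono Set.inter_subset_left n a1, rfl⟩, ?_⟩
  rw [emap_comp, h3, ← emap_comp, ← sub_sub, ← map_sub]
  exact sub_mem (emap_mem_Bd (cov_fst_hom _ fun p hp => comp_subset hp) a2) hb

theorem clSe (hG : ClGrpStmt) : ClSeStmt := by
  intro V V' G A G' A' c hc
  obtain ⟨hs, σ, s, k, -, h2, h3, h4⟩ := hG V V' G A G' A' c hc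
  have full : ∀ x' ∈ A', ∀ y' ∈ A', ∀ γ, Path G A (c x') (c y') γ →
      ∃ γ', Path G' A' x' y' γ' ∧ gmap G' A' G A c γ' = γ := fun x hx y hy γ hγ =>
    ⟨k x * σ γ * (k y)⁻¹, ((h3 x hx).1.trans (h2 _ _ γ hγ).1).trans (h3 y hy).1.symm, by
      rw [map_mul, map_mul, map_inv, (h3 x hx).2, (h3 y hy).2, (h2 _ _ γ hγ).2, one_mul, inv_one,
        mul_one]⟩
  have faith : ∀ y' γ', Path G' A' y' y' γ' → gmap G' A' G A c γ' = 1 → γ' = 1 :=
    fun y γ hγ e => by rw [h4 y y γ hγ, e, map_one, mul_one, mul_inv_cancel]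
  have fib := fibre_lemma hc.1 (fun τ t1 t2 t3 => (hc.2 τ t1 t2 t3).Zy_le_Bd) subset_rfl
  rw [Set.inter_eq_left.2 (show A' ⊆ c ⁻¹' A from hc.1.1)] at fib
  refine ⟨hc.1, fun y hy => ?_, full, faith, fun n _ => (fib n).1, fun n _ => (fib n).2,
    fun n _ y hy Γ hΓ z hz => isurj_ClSe hc full faith n hy hΓ hz⟩
  obtain ⟨y', h5, rfl⟩ := hs y hy
  exact ⟨y', h5, 1, Path.nil hy⟩

end Pool.Agent.MP_6374aa_gt
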