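import Pool.Agent.MP_6374aa_gt.ClGrp
import Pool.Agent.MP_6374aa_gt.ClSe
import Pool.Agent.MP_6374aa_gt.ClExt

/-! Cell-like maps are equivalences and packs extend along them, without hypotheses. -/

namespace Pool.Agent.MP_6374aa_gt

open Classical

noncomputable section

theorem clSe_ok : ClSeStmt := by
  intro V V' G A G' A' c hc
  have full : ∀ x' ∈ A', ∀ y' ∈ A', ∀ γ, Path G A (c x') (c y') γ →
      ∃ γ', Path G' A' x' y' γ' ∧ gmap G' A' G A c γ' = γ := fun x hx y hy γ hγ => by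
    obtain ⟨σ, s, k, -, h2, h3, -⟩ := core_ClGrp hc ⟨x⟩
    exact ⟨k x * σ γ * (k y)⁻¹, ((h3 x hx).1.trans (h2 _ _ γ hγ).1).trans (h3 y hy).1.symm, by
      rw [map_mul, map_mul, map_inv, (h3 x hx).2, (h3 y hy).2, (h2 _ _ γ hγ).2, one_mul, inv_one,
        mul_one]⟩
  have faith : ∀ y' γ', Path G' A' y' y' γ' → gmap G' A' G A c γ' = 1 → γ' = 1 :=
    fun y γ hγ e => by
      obtain ⟨σ, s, k, -, -, -, h4⟩ := core_ClGrp hc ⟨y⟩
      rw [h4 y y γ hγ, e, map_one, mul_one, mul_inv_cancel]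
  have fib := fibre_lemma hc.1 (fun τ t1 t2 t3 => (hc.2 τ t1 t2 t3).Zy_le_Bd) subset_rfl
  rw [Set.inter_eq_left.2 (show A' ⊆ c ⁻¹' A from hc.1.1)] at fib
  refine ⟨hc.1, fun y hy => ?_, full, faith, fun n _ => (fib n).1, fun n _ => (fib n).2,
    fun n _ y hy Γ hΓ z hz => isurj_ClSe hc full faith n hy hΓ hz⟩
  obtain ⟨y', h5, rfl⟩ := surj_ClGrp hc y hy
  exact ⟨y', h5, 1, Path.nil hy⟩

theorem clExt_ok : ClExtStmt := by
  intro V V' G A G' A' c P P' b hc hm
  have loc := clLoc V V' G A G' A' c hc P'.fin3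
  have se := clSe_ok V V' G A G' A' c hc
  obtain ⟨σ, s, k, -, -, -, hk⟩ := core_ClGrp hc ⟨P'.conn.1.some⟩
  refine ⟨loc, b.injective, hm, fun x' h => absurd (b.surjective x') h, fun L _ ρ _ => ?_,
    fun n hn z hz h => Submodule.mem_sup_left (se.hinj n hn z hz h),
    fun n _ x' h => absurd (b.surjective x') h, fun n hn x S hSA h z hz => ?_⟩
  · refine ⟨fun u w => (ρ.comp σ) (gen G A u w), fun x => ρ (k x), flat_hom _,
      fun u hu w hw huw => ?_⟩
    have h1 := hk u w _ (Path.single hu hw huw)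
    rw [gmap_gen hc.1] at h1
    rw [h1, map_mul, map_mul, map_inv]
    rfl
  · obtain ⟨y, hy, β, hβ, e⟩ := Submodule.mem_sup.1 (h ((hm x).emap_mem hc.1 hz))
    obtain ⟨z', hz', h1⟩ := loc.s2 n S hSA y hy
    have h2 : z - z' ∈ Bd G' A' n := by
      refine se.hinj n hn _ (sub_mem (II_le_Zy _ _ _ hz) (Zy_mono Set.inter_subset_left n hz')) ?_
      have h3 : emap c (z - z') = β - (emap c z' - y) := by
        rw [map_sub, ← e]
        abel
      rw [h3]
      exact sub_mem hβ (Bd_mono hSA n h1)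
    exact Submodule.mem_sup.2 ⟨z', hz', z - z', h2, add_sub_cancel z' z⟩

end

end Pool.Agent.MP_6374aa_gt
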