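import Pool.Agent.MP_6374aa_gt.IfC

/-! Cell-like maps: inverse on the edge path groupoid and local homological properties. -/

namespace Pool.Agent.MP_6374aa_gt

open Classical

noncomputable section

variable {V V' : Type} {G : SimpleGraph V} {A : Set V} {G' : SimpleGraph V'} {A' : Set V'}
  {c : V' → V}

/-- The image of a path inside `T`. -/
def FP_ClGrp (G' : SimpleGraph V') (A' T : Set V') (x y : V') (g : Gp G' A') : Prop :=
  ∃ γ, Path G' T x y γ ∧ g = gmap G' T G' A' id γ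

theorem FP_ClGrp.mono {T T' : Set V'} (h1 : T ⊆ T') (h2 : T' ⊆ A') {x y : V'} {g : Gp G' A'}
    (h : FP_ClGrp G' A' T x y g) : FP_ClGrp G' A' T' x y g := by
  obtain ⟨γ, hγ, rfl⟩ := h
  exact ⟨_, hγ.map (IsHom.id G' h1), (gmap_comp (IsHom.id G' h2) (IsHom.id G' h1) γ).symm⟩

theorem FP_ClGrp.path {T : Set V'} (h2 : T ⊆ A') {x y : V'} {g : Gp G' A'}
    (h : FP_ClGrp G' A' T x y g) : Path G' A' x y g := by
  obtain ⟨γ, hγ, rfl⟩ := h
  exact hγ.map (IsHom.id G' h2)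

theorem FP_ClGrp.trans {T : Set V'} {x y z : V'} {g g' : Gp G' A'}
    (h : FP_ClGrp G' A' T x y g) (h' : FP_ClGrp G' A' T y z g') :
    FP_ClGrp G' A' T x z (g * g') := by
  obtain ⟨γ, hγ, rfl⟩ := h
  obtain ⟨γ', hγ', rfl⟩ := h'
  exact ⟨_, hγ.trans hγ', (map_mul _ _ _).symm⟩

theorem FP_ClGrp.single {T : Set V'} (h2 : T ⊆ A') {x y : V'} (hx : x ∈ T) (hy : y ∈ T)
    (h : Adq G' x y) : FP_ClGrp G' A' T x y (gen G' A' x y) :=
  ⟨_, Path.single hx hy h, (gmap_gen (IsHom.id G' h2) x y).symm⟩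

theorem FP_ClGrp.unique {T : Set V'} (hT : SConn G' T) {x y : V'} {g g' : Gp G' A'}
    (h : FP_ClGrp G' A' T x y g) (h' : FP_ClGrp G' A' T x y g') : g = g' := by
  obtain ⟨γ, hγ, rfl⟩ := h
  obtain ⟨γ', hγ', rfl⟩ := h'
  rw [hT.path_unique hγ hγ']

theorem FP_ClGrp.gmap_eq (hc : IsHom G' A' G A c) {τ : Set V} (hτ : τ ⊆ A)
    (hq : ∀ a ∈ τ, ∀ b ∈ τ, Adq G a b) {x y : V'} {g : Gp G' A'}
    (h : FP_ClGrp G' A' (A' ∩ c ⁻¹' τ) x y g) : gmap G' A' G A c g = gen G A (c x) (c y) := by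
  obtain ⟨γ, hγ, rfl⟩ := h
  induction hγ with
  | nil hy => rw [map_one, map_one, (flat_gen G A).self (hτ hy.2)]
  | cons hu huw hp ih =>
    rw [map_mul, map_mul, ih, gmap_gen (IsHom.id G' Set.inter_subset_left), gmap_gen hc]
    have hw := hp.mem_left
    have hy := hp.mem_right
    exact flat_gen G A _ (hτ hu.2) _ (hτ hw.2) _ (hτ hy.2) (hq _ hu.2 _ hw.2)
      (hq _ hw.2 _ hy.2) (hq _ hu.2 _ hy.2)

theorem contr_ClGrp (h : CL G' A' G A c) {τ : Set V} (hf : τ.Finite) (hn : τ.Nonempty)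
    (hτ : τ ⊆ A) (hq : ∀ a ∈ τ, ∀ b ∈ τ, Adq G a b) : Contr G' (A' ∩ c ⁻¹' τ) := by
  have := h.2 hf.toFinset (by simpa using hn) (by simpa using hτ) (by
    rw [Set.Finite.coe_toFinset]
    exact fun a ha b hb hab => (hq a ha b hb).resolve_left hab)
  rwa [Set.Finite.coe_toFinset] at this

theorem surj_ClGrp (h : CL G' A' G A c) : ∀ y ∈ A, ∃ y' ∈ A', c y' = y := by
  intro y hy
  obtain ⟨_, _, a, ha, _⟩ := contr_ClGrp h (Set.finite_singleton y) (Set.singleton_nonempty y)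
    (Set.singleton_subset_iff.2 hy) (by rintro a rfl b rfl; exact Adq.refl G _)
  exact ⟨a, ha.1, ha.2⟩

theorem three_ClGrp (h : CL G' A' G A c) {u v w : V} (hu : u ∈ A) (hv : v ∈ A) (hw : w ∈ A)
    (h1 : Adq G u v) (h2 : Adq G v w) (h3 : Adq G u w) :
    SConn G' (A' ∩ c ⁻¹' {u, v, w}) := by
  refine (contr_ClGrp h (Set.toFinite _) ⟨u, by simp⟩ ?_ ?_).sconn
  · rintro a (rfl | rfl | rfl) <;> assumption
  · rintro a (rfl | rfl | rfl) b (rfl | rfl | rfl) <;>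
      first | exact Adq.refl G _ | assumption | (apply Adq.symm; assumption)

theorem two_ClGrp (h : CL G' A' G A c) {u w : V} (hu : u ∈ A) (hw : w ∈ A) (h3 : Adq G u w) :
    SConn G' (A' ∩ c ⁻¹' {u, w}) := by
  have := three_ClGrp h hu hu hw (Adq.refl G u) h3 h3
  rwa [Set.insert_eq_of_mem (Set.mem_insert u {w})] at this

theorem pair_ClGrp {u w : V} (h3 : Adq G u w) :
    ∀ a ∈ ({u, w} : Set V), ∀ b ∈ ({u, w} : Set V), Adq G a b := by
  rintro a (rfl | rfl) b (rfl | rfl) <;>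
    first | exact Adq.refl G _ | assumption | (apply Adq.symm; assumption)

theorem ex_ClGrp (h : CL G' A' G A c) (x y : V') : ∃ g : Gp G' A',
    x ∈ A' → y ∈ A' → Adq G (c x) (c y) → FP_ClGrp G' A' (A' ∩ c ⁻¹' {c x, c y}) x y g := by
  by_cases hh : x ∈ A' ∧ y ∈ A' ∧ Adq G (c x) (c y)
  · obtain ⟨hx, hy, hq⟩ := hh
    obtain ⟨γ, hγ⟩ := (two_ClGrp h (h.1.1 x hx) (h.1.1 y hy) hq).1.2 x ⟨hx, by simp⟩ y
      ⟨hy, by simp⟩
    exact ⟨_, fun _ _ _ => ⟨γ, hγ, rfl⟩⟩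
  · exact ⟨1, fun hx hy hq => absurd ⟨hx, hy, hq⟩ hh⟩

theorem core_ClGrp (h : CL G' A' G A c) (hne : Nonempty V') :
    ∃ (σ : Gp G A →* Gp G' A') (s : V → V') (k : V' → Gp G' A'),
      (∀ y ∈ A, s y ∈ A' ∧ c (s y) = y) ∧
      (∀ a b γ, Path G A a b γ → Path G' A' (s a) (s b) (σ γ) ∧ gmap G' A' G A c (σ γ) = γ) ∧
      (∀ x ∈ A', Path G' A' x (s (c x)) (k x) ∧ gmap G' A' G A c (k x) = 1) ∧
      ∀ x y γ, Path G' A' x y γ → γ = k x * σ (gmap G' A' G A c γ) * (k y)⁻¹ := by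
  choose! s hs1 hs2 using surj_ClGrp h
  choose p hp using ex_ClGrp h
  have hmul : ∀ x ∈ A', ∀ y ∈ A', ∀ z ∈ A', Adq G (c x) (c y) → Adq G (c y) (c z) →
      Adq G (c x) (c z) → p x y * p y z = p x z := by
    intro x hx y hy z hz h1 h2 h3
    have hS := three_ClGrp h (h.1.1 x hx) (h.1.1 y hy) (h.1.1 z hz) h1 h2 h3
    have hm : ∀ {a b : V}, a ∈ ({c x, c y, c z} : Set V) → b ∈ ({c x, c y, c z} : Set V) →
        A' ∩ c ⁻¹' {a, b} ⊆ A' ∩ c ⁻¹' {c x, c y, c z} := by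
      intro a b ha hb
      refine Set.inter_subset_inter_right _ (Set.preimage_mono ?_)
      rintro t (rfl | rfl) <;> assumption
    exact FP_ClGrp.unique hS
      (((hp x y hx hy h1).mono (hm (by simp) (by simp)) Set.inter_subset_left).trans
        ((hp y z hy hz h2).mono (hm (by simp) (by simp)) Set.inter_subset_left))
      ((hp x z hx hz h3).mono (hm (by simp) (by simp)) Set.inter_subset_left)
  have hpath : ∀ x ∈ A', ∀ y ∈ A', Adq G (c x) (c y) →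
      Path G' A' x y (p x y) ∧ gmap G' A' G A c (p x y) = gen G A (c x) (c y) := by
    intro x hx y hy hq
    refine ⟨(hp x y hx hy hq).path Set.inter_subset_left,
      (hp x y hx hy hq).gmap_eq h.1 ?_ (pair_ClGrp hq)⟩
    rintro t (rfl | rfl)
    · exact h.1.1 _ hx
    · exact h.1.1 _ hy
  have hgen : ∀ x ∈ A', ∀ y ∈ A', Adq G' x y → p x y = gen G' A' x y := by
    intro x hx y hy hq
    have hq' := h.1.adq hx hy hq
    exact FP_ClGrp.unique (two_ClGrp h (h.1.1 x hx) (h.1.1 y hy) hq') (hp x y hx hy hq')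
      (FP_ClGrp.single Set.inter_subset_left ⟨hx, by simp⟩ ⟨hy, by simp⟩ hq)
  have hq : ∀ u ∈ A, ∀ w ∈ A, Adq G u w → Adq G (c (s u)) (c (s w)) := by
    intro u hu w hw huw
    rwa [hs2 u hu, hs2 w hw]
  have hflat : Flat G A fun u w => p (s u) (s w) := fun u hu v hv w hw h1 h2 h3 =>
    hmul _ (hs1 u hu) _ (hs1 v hv) _ (hs1 w hw) (hq u hu v hv h1) (hq v hv w hw h2)
      (hq u hu w hw h3)
  have hk : ∀ x ∈ A', ∀ y ∈ A', Adq G (c x) (c y) → Adq G (c x) (c (s (c y))) := by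
    intro x hx y hy hxy
    rwa [hs2 _ (h.1.1 y hy)]
  refine ⟨glift G A fun u w => p (s u) (s w), s, fun x => p x (s (c x)),
    fun y hy => ⟨hs1 y hy, hs2 y hy⟩, ?_, ?_, ?_⟩
  · intro a b γ hγ
    induction hγ with
    | nil hy => exact ⟨by rw [map_one]; exact Path.nil (hs1 _ hy), by rw [map_one, map_one]⟩
    | cons hu huw hr ih =>
      have hw := hr.mem_left
      obtain ⟨e1, e2⟩ := hpath _ (hs1 _ hu) _ (hs1 _ hw) (hq _ hu _ hw huw)
      rw [map_mul, glift_gen hflat]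
      exact ⟨e1.trans ih.1, by rw [map_mul, e2, ih.2, hs2 _ hu, hs2 _ hw]⟩
  · intro x hx
    have hcx := h.1.1 x hx
    obtain ⟨e1, e2⟩ := hpath x hx _ (hs1 _ hcx) (hk x hx x hx (Adq.refl G _))
    exact ⟨e1, by rw [e2, hs2 _ hcx, (flat_gen G A).self hcx]⟩
  · intro x y γ hγ
    refine Path.gauge' (ρ := MonoidHom.id _)
      (σ := (glift G A fun u w => p (s u) (s w)).comp (gmap G' A' G A c))
      (k := fun x => p x (s (c x))) ?_ hγ
    intro u hu w hw huw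
    have hcu := h.1.1 u hu
    have hcw := h.1.1 w hw
    have hq' := h.1.adq hu hw huw
    rw [MonoidHom.id_apply, MonoidHom.comp_apply, gmap_gen h.1, glift_gen hflat,
      hmul u hu _ (hs1 _ hcu) _ (hs1 _ hcw) (hk u hu u hu (Adq.refl G _)) (hq _ hcu _ hcw hq')
        (hk u hu w hw hq'), eq_mul_inv_iff_mul_eq, ← hgen u hu w hw huw]
    exact hmul u hu w hw _ (hs1 _ hcw) hq' (hk w hw w hw (Adq.refl G _)) (hk u hu w hw hq')

theorem clLoc : ClLocStmt := by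
  intro V V' G A G' A' c h h3
  have hf := fun {S : Set V} (hS : S ⊆ A) (n : ℕ) =>
    fibre_lemma h.1 (fun τ h1 h2 h3 n => (h.2 τ h1 h2 h3).Zy_le_Bd n) hS n
  refine ⟨h.1, surj_ClGrp h, fun n S hS z hz hb _ => (hf hS n).1 z hz hb,
    fun n S hS => (hf hS n).2,
    fun n _ S hS z hz hb => Submodule.mem_sup_left ((hf hS n).1 z hz hb), ?_, ?_⟩
  · intro n _ s z hs hz _ u hu
    have hc := contr_ClGrp h (Set.finite_singleton u) (Set.singleton_nonempty u)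
      (Set.singleton_subset_iff.2 (hs hu)) (by rintro a rfl b rfl; exact Adq.refl G _)
    exact Bd_mono Set.inter_subset_left n (hc.Zy_le_Bd n (hz u hu))
  · intro z hz h0
    have e : A' ∩ c ⁻¹' A = A' := Set.inter_eq_left.2 fun a ha => h.1.1 a ha
    have := (hf subset_rfl 4).1 z (by rwa [e]) (by rw [h0]; exact Submodule.zero_mem _)
    rwa [h3.Bd_eq_bot Set.inter_subset_left le_rfl, Submodule.mem_bot] at this

end

end Pool.Agent.MP_6374aa_gt
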