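import Pool.Agent.MP_6374aa_gt.IfB

namespace Pool.Agent.MP_6374aa_gt

open Classical

variable {V : Type} {G : SimpleGraph V} {A : Set V}

lemma lk_ClosedMf (s t : Set V) : Lk G (Lk G A s) t = Lk G A (s ∪ t) := by
  ext w
  simp only [Lk, Set.mem_ofPred_eq, Set.mem_union, or_imp, forall_and, and_assoc]

lemma uni_ClosedMf {σ τ : Finset V} (h1 : ↑σ ⊆ A) (h2 : G.IsClique (σ : Set V))
    (h3 : ↑τ ⊆ Lk G A σ) (h4 : G.IsClique (τ : Set V)) :
    ↑(σ ∪ τ) ⊆ A ∧ G.IsClique (↑(σ ∪ τ) : Set V) ∧ (σ ∪ τ).card = σ.card + τ.card := by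
  rw [Finset.coe_union]
  refine ⟨Set.union_subset h1 fun x hx => (h3 hx).1, ?_, Finset.card_union_of_disjoint
    (Finset.disjoint_left.2 fun x hx hx' => G.irrefl ((h3 hx').2 x hx))⟩
  rintro x (hx | hx) y (hy | hy) h
  · exact h2 hx hy h
  · exact (h3 hy).2 x hx
  · exact ((h3 hx).2 y hy).symm
  · exact h4 hx hy h

variable [Fintype V]

lemma loc_ClosedMf (h : Closed3 G A) {σ : Finset V} (h1 : ↑σ ⊆ A) (h2 : G.IsClique (σ : Set V))
    (ih : ∀ ρ : Finset V, ↑ρ ⊆ A → G.IsClique (ρ : Set V) → σ.card < ρ.card →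
      HS G (Lk G A ρ) (4 - ρ.card)) : LocS G (Lk G A σ) (4 - σ.card) := by
  intro τ h0 h3 h4
  obtain ⟨e1, e2, e3⟩ := uni_ClosedMf h1 h2 h3 h4
  have e4 := h.dim _ e1 e2
  have e5 := h0.card_pos
  have e6 := ih _ e1 e2 (by omega)
  rw [e3, ← Nat.sub_sub, Finset.coe_union] at e6
  exact ⟨by omega, lk_ClosedMf (G := G) _ _ ▸ e6⟩

lemma tri_ClosedMf (h : Closed3 G A) {a b c : V} (ha : a ∈ A) (hb : b ∈ Lk G A {a})
    (hc : c ∈ Lk G A {a, b}) : ∃ x y, ¬ Adq G x y ∧ Lk G A {a, b, c} = {x, y} := by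
  have e1 := hb.2 a rfl
  have e2 := hc.2 a (by simp)
  have e3 := hc.2 b (by simp)
  obtain ⟨x, y, e4, e5⟩ := Set.ncard_eq_two.1 (h.tri a ha b hb.1 c hc.1 e1 e2 e3)
  refine ⟨x, y, fun e => ?_, e5⟩
  have e6 : G.IsNClique 3 {a, b, c} := SimpleGraph.is3Clique_triple_iff.2 ⟨e1, e2, e3⟩
  obtain ⟨f1, f2, f3⟩ := uni_ClosedMf (A := A) (σ := {a, b, c}) (τ := {x, y})
    (by simp [Set.insert_subset_iff, ha, hb.1, hc.1]) e6.1 (by simp [e5])
    (by simpa using fun _ => e.resolve_left e4)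
  have := h.dim _ f1 f2
  rw [f3, e6.2, Finset.card_pair e4] at this
  omega

theorem closedMf (hO : OrientStmt) (h1 : Hs1Stmt) (hU : HsUpStmt) : ClosedMfStmt := by
  intro V _ G A h
  obtain ⟨ζ, hζ, ho⟩ := hO V G A h
  have o3 : ∀ a ∈ A, ∀ b ∈ Lk G A {a}, ∀ c ∈ Lk G A {a, b}, iv c (iv b (iv a ζ)) ≠ 0 := by
    intro a ha b hb c hc e
    obtain ⟨x, y, -, e5⟩ := tri_ClosedMf h ha hb hc
    exact ho a ha b hb c hc x (by simp [e5]) (by rw [e, map_zero])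
  have n2 : ∀ a ∈ A, ∀ b ∈ Lk G A {a}, ∃ c, c ∈ Lk G A {a, b} := fun a ha b hb =>
    (pconn_iff.2 (h.edge a ha b hb.1 (hb.2 a rfl))).1
  have o2 : ∀ a ∈ A, ∀ b ∈ Lk G A {a}, iv b (iv a ζ) ≠ 0 := by
    intro a ha b hb e
    obtain ⟨c, hc⟩ := n2 a ha b hb
    exact o3 a ha b hb c hc (by rw [e, map_zero])
  have n1 : ∀ a ∈ A, ∃ b, b ∈ Lk G A {a} := fun a ha => (pconn_iff.2 (h.vert a ha).1).1
  have key : ∀ n, ∀ σ : Finset V, 4 - σ.card = n → ↑σ ⊆ A → G.IsClique (σ : Set V) →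
      0 < σ.card → HS G (Lk G A σ) (4 - σ.card) := by
    intro n
    induction n using Nat.strong_induction_on with
    | _ n ih =>
    intro σ hn e1 e2 e3
    have e4 := h.dim σ e1 e2
    have e5 := loc_ClosedMf h e1 e2 fun ρ f1 f2 f3 =>
      ih _ (by have := h.dim ρ f1 f2; omega) ρ rfl f1 f2 (by omega)
    obtain e | e | e | e : σ.card = 1 ∨ σ.card = 2 ∨ σ.card = 3 ∨ σ.card = 4 := by omega
    · rw [e] at e5 ⊢
      obtain ⟨a, rfl⟩ := Finset.card_eq_one.1 e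
      rw [Finset.coe_singleton] at e1 e5 ⊢
      have ha := e1 rfl
      exact hU V G _ 3 (Set.toFinite _) (pconn_iff.2 (h.vert a ha).1) e5
        ⟨_, iv_mem_Zy a hζ, o2 a ha⟩ (Or.inr ⟨rfl, (h.vert a ha).2⟩)
    · rw [e] at e5 ⊢
      obtain ⟨a, b, hab, rfl⟩ := Finset.card_eq_two.1 e
      rw [Finset.coe_pair] at e1 e2 e5 ⊢
      have ha : a ∈ A := e1 (by simp)
      have hb : b ∈ Lk G A {a} := ⟨e1 (by simp), by simpa using e2 (by simp) (by simp) hab⟩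
      have hz := iv_mem_Zy b (iv_mem_Zy a hζ)
      rw [lk_ClosedMf] at hz
      exact hU V G _ 2 (Set.toFinite _) (pconn_iff.2 (h.edge a ha b hb.1 (hb.2 a rfl))) e5
        ⟨_, hz, o3 a ha b hb⟩ (Or.inl rfl)
    · rw [e]
      obtain ⟨a, b, c, hab, hac, hbc, rfl⟩ := Finset.card_eq_three.1 e
      rw [Finset.coe_insert, Finset.coe_pair] at e1 e2 ⊢
      obtain ⟨x, y, e6, e7⟩ := tri_ClosedMf h (a := a) (b := b) (c := c) (e1 (by simp))
        ⟨e1 (by simp), by simpa using e2 (by simp) (by simp) hab⟩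
        ⟨e1 (by simp), by
          simpa using ⟨e2 (by simp) (by simp) hac, e2 (by simp) (by simp) hbc⟩⟩
      rw [e7]
      exact (h1 V G).2 x y e6
    · rw [e, Set.eq_empty_of_forall_notMem (s := Lk G A σ) fun w hw => ?_]
      · exact (h1 V G).1
      · have := (e5 {w} (by simp) (by simpa using hw) (by simp)).1
        simp [e] at this
  have hc := pconn_iff.2 h.conn
  refine ⟨⟨Set.toFinite _, hc, fun σ f0 f1 f2 => ⟨h.dim σ f1 f2, key _ σ rfl f1 f2 f0.card_pos⟩,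
    ζ, hζ, fun a ha e => ?_⟩, ?_⟩
  · obtain ⟨b, hb⟩ := n1 a ha
    exact o2 a ha b hb (by rw [e, map_zero])
  · obtain ⟨a, ha⟩ := hc.1
    obtain ⟨b, hb⟩ := n1 a ha
    obtain ⟨c, hc⟩ := n2 a ha b hb
    obtain ⟨x, y, e6, e7⟩ := tri_ClosedMf h ha hb hc
    exact ⟨x, (e7.ge (by simp)).1, y, (e7.ge (by simp)).1, e6⟩

end Pool.Agent.MP_6374aa_gt
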