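import Pool.Agent.MP_6374aa_gt.IfT

/-! Matched typed sites have the same traces. -/

namespace Pool.Agent.MP_6374aa_gt

open Classical

noncomputable section

theorem psi_Compare {Λ : Type} [Group Λ] (a : Λ) (p : ℕ) (hp : orderOf a = p) :
    ∃ ψ : Cp p →* Λ, Function.Injective ψ ∧ ψ (Multiplicative.ofAdd 1) = a := by
  have hg : ∀ x : Subgroup.zpowers a,
      x ∈ Subgroup.zpowers (⟨a, Subgroup.mem_zpowers a⟩ : Subgroup.zpowers a) := by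
    rintro ⟨_, k, rfl⟩
    exact ⟨k, Subtype.ext (by simp)⟩
  have hn : Nat.card (Subgroup.zpowers a) = p := by rw [Nat.card_zpowers, hp]
  refine ⟨(Subgroup.zpowers a).subtype.comp (zmodMulEquivOfGenerator hg hn).toMonoidHom,
    Subtype.val_injective.comp (zmodMulEquivOfGenerator hg hn).injective, ?_⟩
  change ((zmodMulEquivOfGenerator hg hn (Multiplicative.ofAdd 1) : Subgroup.zpowers a) : Λ) = a
  rw [zmodMulEquivOfGenerator_apply_ofAdd_one]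

theorem core_Compare (hS : SysStmt) (hC : CovSysStmt) (hU : ValUniqStmt) (hG : GrStmt)
    (L : ℕ → Lev C1) (φ : ∀ i, (L (i + 1)).V → (L i).V) (c : ∀ i, (L (i + 2)).V → (L i).V)
    (hsys : IsSys T0 L φ c) (hfin : ∀ i, Fin3 (L i).G (L i).A)
    (hcov : ∀ i, CovQ (L (i + 2)).G (L (i + 2)).A (L i).G (L i).A (c i))
    {Λ : Type} [Group Λ] [Finite Λ] (lab : (L 0).V → (L 0).V → Λ)
    (hl : Flat (L 0).G (L 0).A lab) (p : ℕ) [NeZero p] (hp : 5 ≤ p) (ψ : Cp p →* Λ)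
    (hψ : Function.Injective ψ) (lab1 : (L 1).V → (L 1).V → Λ)
    (h1 : lab1 = fun u w => lab (φ 0 u) (φ 0 w))
    (Q0 : Pack (cov (L 0).G lab Λ) (up (L 0).A Λ))
    (Q1 : Pack (cov (L 1).G lab1 Λ) (up (L 1).A Λ)) (f0 : Fr Q0 (deck (L 0).V ψ))
    (f1 : Fr Q1 (deck (L 1).V ψ)) {a b a' b' : (ZMod p)ˣ}
    (v0 : Val (cov (L 0).G lab Λ) (up (L 0).A Λ) (deck (L 0).V ψ) (lens p a b))
    (v1 : Val (cov (L 1).G lab1 Λ) (up (L 1).A Λ) (deck (L 1).V ψ) (lens p a' b')) :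
    cosum p a b = cosum p a' b' := by
  subst h1
  obtain ⟨s1, s2, -⟩ := hC (Cp p) Λ L φ c lab ψ hsys hl hψ hfin
  have h2 := (hS (Cp p) (covL L φ lab ψ) (covφ L φ lab ψ) (covc L φ c lab ψ) Q0 Q1 s1
    (fun i => s2 i (hcov i)) f0 f1 (lens p a' b')).1 v1
  obtain ⟨u, hu, e⟩ := hU _ _ _ _ _ Q0 _ _ (freeAct_deck hψ) f0 v0 h2
  exact hG p hp a b a' b' u hu e

theorem compareS (hD : DichStmt) (hE : ExtDichStmt) (hS : SysStmt) (hC : CovSysStmt)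
    (hU : ValUniqStmt) (hG : GrStmt) : CompareStmt := by
  intro L φ c P0 P1 hsys hext hcov x0
  have hpk : ∀ i, Nonempty (Pack (L i).G (L i).A) ∧ Nonempty (Pack (L (i + 1)).G (L (i + 1)).A) := by
    intro i
    induction i with
    | zero => exact ⟨⟨P0⟩, ⟨P1⟩⟩
    | succ i ih =>
      obtain ⟨⟨Q⟩, h⟩ := ih
      obtain ⟨Q', -⟩ := hext i Q
      exact ⟨h, ⟨Q'⟩⟩
  have hfin : ∀ i, Fin3 (L i).G (L i).A := fun i => (hpk i).1.elim fun Q => Q.fin3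
  have hT : 1 ≤ T0 := Nat.one_le_pow _ _ (by norm_num)
  have hsc : ∀ i, SC (L (i + 2)).G (L (i + 2)).A (L i).G (c i) (φ i ∘ φ (i + 1)) :=
    fun i a ha b hb hab => hsys.sc i a ha b hb ((Near.of_adq hb hab).mono ha hT)
  obtain ⟨P2, j0, e0⟩ := hext 0 P0
  obtain ⟨P3, j1, e1⟩ := hext 1 P1
  obtain ⟨b, hb⟩ := hD _ _ _ _ _ _ _ _ _ _ _ _ (φ 0) (φ 1) (φ 2) (c 0) (c 1) P0 P1 P2 P3 j0 j1
    (hsys.hφ 0) (hsys.hφ 1) (hsys.hφ 2) (hsc 0) (hsc 1) (hE _ _ _ _ _ _ _ _ _ _ e0)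
    (hE _ _ _ _ _ _ _ _ _ _ e1)
  refine ⟨b x0, ?_⟩
  rintro Λ0 Λ1 _ _ χ0 χ1 ⟨θ0, h0⟩ ⟨θ1, h1⟩
  obtain ⟨r, r1, r2, r3⟩ := P0.k3 x0
  obtain ⟨ρ0, hρ0⟩ : ∃ ρ0 : Gp (L 0).G (L 0).A →* Λ0, ∀ δ, ρ0 δ = θ0 ⟨r δ, r2 δ⟩ :=
    ⟨θ0.toMonoidHom.comp (r.codRestrict (P0.Λ x0) r2), fun _ => rfl⟩
  have ha : ∀ δ : P0.Λ x0, ρ0 δ = θ0 δ := fun δ => by
    rw [hρ0]
    exact congrArg θ0 (Subtype.ext (r1 δ δ.2))
  have hk : ∀ y, y ≠ x0 → ∀ δ ∈ P0.Λ y, ρ0 δ = 1 := fun y hy δ hδ => by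
    rw [hρ0, ← map_one θ0]
    exact congrArg θ0 (Subtype.ext (r3 y hy δ hδ))
  obtain ⟨e, γ, -, he⟩ := (hb.mat x0).exists_iso
  obtain ⟨ρ1, hρ1⟩ : ∃ ρ1 : Gp (L 1).G (L 1).A →* Λ0,
      ∀ δ, ρ1 δ = ρ0 (gmap (L 1).G (L 1).A (L 0).G (L 0).A (φ 0) δ) :=
    ⟨ρ0.comp (gmap (L 1).G (L 1).A (L 0).G (L 0).A (φ 0)), fun _ => rfl⟩
  obtain ⟨η, hη⟩ : ∃ η : P1.Λ (b x0) ≃* Λ0, ∀ δ : P1.Λ (b x0), ρ1 δ = η δ := by
    refine ⟨e.trans (θ0.trans (MulAut.conj (ρ0 γ))), fun δ => ?_⟩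
    change ρ1 δ = ρ0 γ * θ0 (e δ) * (ρ0 γ)⁻¹
    rw [← ha, he, hρ1, map_mul, map_mul, map_inv]
    group
  have hk1 : ∀ y, y ≠ b x0 → ∀ δ ∈ P1.Λ y, ρ1 δ = 1 := fun y hy δ hδ => by
    rw [hρ1]
    by_cases hr : y ∈ Set.range b
    · obtain ⟨x, rfl⟩ := hr
      obtain ⟨-, γ', -, h3, -⟩ := hb.mat x
      have h4 := hk x (fun h => hy (congrArg b h)) _ (h3 δ hδ)
      rw [map_mul, map_mul, map_inv, mul_assoc, inv_mul_eq_one, eq_comm, mul_eq_right] at h4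
      exact h4
    · rw [hb.kill y hr δ hδ, map_one]
  refine ⟨θ1.symm.trans η, fun hfn g hg => ?_⟩
  haveI : NeZero (orderOf g) := ⟨by omega⟩
  obtain ⟨ψ, hψ, hψ1⟩ := psi_Compare ((θ1.symm.trans η) g) (orderOf g) (MulEquiv.orderOf_eq _ g)
  obtain ⟨Q0, f0, a, a', c0, v0⟩ := h0 Λ0 ρ0
    (fun δ hδ h => congrArg Subtype.val ((map_eq_one_iff θ0 θ0.injective).1
      ((ha ⟨δ, hδ⟩).symm.trans h)))
    (fun l => ⟨θ0.symm l, (θ0.symm l).2, by rw [ha, MulEquiv.apply_symm_apply]⟩) hk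
    (orderOf g) hg (θ0.symm ((θ1.symm.trans η) g)) ψ hψ
    (by rw [ha, MulEquiv.apply_symm_apply, hψ1])
  obtain ⟨Q1, f1, d, d', c1, v1⟩ := h1 Λ0 ρ1
    (fun δ hδ h => congrArg Subtype.val ((map_eq_one_iff η η.injective).1
      ((hη ⟨δ, hδ⟩).symm.trans h)))
    (fun l => ⟨η.symm l, (η.symm l).2, by rw [hη, MulEquiv.apply_symm_apply]⟩) hk1
    (orderOf g) hg (θ1.symm g) ψ hψ (by rw [hη, hψ1]; rfl)
  have h5 := core_Compare hS hC hU hG L φ c hsys hfin hcov _ (flat_hom ρ0) (orderOf g) hg ψ hψ _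
    (funext fun u => funext fun w => by rw [hρ1, gmap_gen (hsys.hφ 0)]) Q0 Q1 f0 f1 v0 v1
  simp only [MulEquiv.apply_symm_apply] at c0 c1
  rw [c0, c1, h5]

end

end Pool.Agent.MP_6374aa_gt
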