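import Pool.Agent.MP_6374aa_gt.IfM

/-! Matched typed sites have the same traces (version with handles). -/

namespace Pool.Agent.MP_6374aa_gt

open Classical

noncomputable section

theorem unit_Compare2 (p : ℕ) (m : (ZMod p)ˣ) :
    ∃ μ : Cp p ≃* Cp p, ∀ k, (μ k).toAdd = m * k.toAdd :=
  ⟨{ toFun := fun k => Multiplicative.ofAdd ((m : ZMod p) * k.toAdd)
     invFun := fun k => Multiplicative.ofAdd (((m⁻¹ : (ZMod p)ˣ) : ZMod p) * k.toAdd)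
     left_inv := fun k => by simp
     right_inv := fun k => by simp
     map_mul' := fun k l => by simp [mul_add] }, fun _ => rfl⟩

theorem unw_Compare2 {V : Type} {G : SimpleGraph V} {A : Set V} (P : GP G A) (x : P.X) {L : Type}
    [Group L] (θ : P.Λ x ≃* L) : ∃ ρ : Gp G A →* L, Unw P x ρ ∧ ∀ δ : P.Λ x, ρ δ = θ δ := by
  obtain ⟨ρ, h1, -⟩ := P.fp.ext L
    (fun y => if h : y = x then (h ▸ θ.toMonoidHom : P.Λ y →* L) else 1) fun _ => 1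
  have ha : ∀ δ : P.Λ x, ρ δ = θ δ := fun δ => by
    rw [h1, dif_pos rfl]
    rfl
  refine ⟨ρ, ⟨fun δ hδ h => ?_, fun l => ⟨θ.symm l, (θ.symm l).2, ?_⟩, fun y hy δ hδ => ?_⟩, ha⟩
  · exact congrArg Subtype.val ((map_eq_one_iff θ θ.injective).1 ((ha ⟨δ, hδ⟩).symm.trans h))
  · rw [ha, MulEquiv.apply_symm_apply]
  · have h2 := h1 y ⟨δ, hδ⟩
    rw [dif_neg hy] at h2
    exact h2

theorem conn_Compare2 (hP : PConnCovStmt) {V : Type} {G : SimpleGraph V} {A : Set V} (P : GP G A)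
    (x : P.X) {L : Type} [Group L] {ρ : Gp G A →* L} (h : Unw P x ρ) :
    PConn (cov G (fun u w => ρ (gen G A u w)) L) (up A L) := by
  refine (hP V L G A _ (flat_hom ρ) P.conn P.y P.mem).2 fun l => ?_
  obtain ⟨δ, hδ, e⟩ := h.surj l
  refine ⟨δ, P.fp.le x hδ, ?_⟩
  rw [← e]
  exact DFunLike.congr_fun (Gp.hom_ext fun u w => glift_gen (flat_hom ρ) u w) δ

theorem compare2 (hD : DichGStmt) (hS : GDSStmt) (hI : GDIsoStmt) (hV : SysCovStmt)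
    (hU : ValUniq2Stmt) (hG : SignStmt) (hP : PConnCovStmt) (hB : MfBasicStmt) :
    Compare2Stmt := by
  intro L φ c P0 P1 hsys hM hQ hcov
  have hfin : ∀ i, Fin3 (L i).G (L i).A := fun i => (hB _ _ _ (hM i)).1
  have hT : 1 ≤ T0 := Nat.one_le_pow _ _ (by norm_num)
  have hsc : ∀ i, SC (L (i + 2)).G (L (i + 2)).A (L i).G (c i) (φ i ∘ φ (i + 1)) :=
    fun i a ha b hb hab => hsys.sc i a ha b hb ((Near.of_adq hb hab).mono ha hT)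
  obtain ⟨P2, j0, e0⟩ := hQ 0 P0
  obtain ⟨P3, j1, e1⟩ := hQ 1 P1
  obtain ⟨b, hb⟩ := hD _ _ _ _ _ _ _ _ _ _ _ _ (φ 0) (φ 1) (φ 2) (c 0) (c 1) P0 P1 P2 P3 j0 j1
    (hsys.hφ 0) (hsys.hφ 1) (hsys.hφ 2) (hsc 0) (hsc 1) e0 e1
  refine ⟨hS _ _ _ _ _ _ _ _ _ _ hb, fun x0 => ⟨b x0, ?_⟩⟩
  rintro Λ0 Λ1 _ _ l0 l1 χ0 χ1 ⟨θ0, h0⟩ ⟨θ1, h1⟩
  obtain ⟨m, hm⟩ := hI _ _ _ _ _ _ _ _ _ _ hb x0
  by_cases hc : l0 ∧ l1 ∧ Finite Λ0 ∧ IsCyclic Λ0 ∧ 5 ≤ Nat.card Λ0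
  swap
  · refine ⟨θ1.symm.trans (m.trans θ0), fun k0 k1 k2 k3 g hg => absurd ⟨k0, k1, k2, k3, ?_⟩ hc⟩
    rw [← MulEquiv.orderOf_eq (θ1.symm.trans (m.trans θ0)) g] at hg
    exact hg.trans orderOf_le_card
  obtain ⟨k0, k1, k2, k3, hp⟩ := hc
  obtain ⟨p, hpe⟩ : ∃ p, Nat.card Λ0 = p := ⟨_, rfl⟩
  obtain ⟨κ⟩ : Nonempty (Λ0 ≃* Cp p) := hpe ▸ ⟨(zmodCyclicMulEquiv k3).symm⟩
  rw [hpe] at hp
  have : NeZero p := ⟨by omega⟩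
  have := nontrivial_RH p (by omega)
  obtain ⟨ρ0, u0, ha⟩ := unw_Compare2 P0 x0 (θ0.trans κ)
  obtain ⟨hm1, hm2⟩ := hm (Cp p) ρ0
  have u1 := hm2.1 u0
  obtain ⟨a, a', c0, v0⟩ := h0 k0 p hp ρ0 u0
  obtain ⟨d, d', c1, v1⟩ := h1 k1 p hp _ u1
  have n0 := conn_Compare2 hP P0 x0 u0
  have n1 := conn_Compare2 hP P1 (b x0) u1
  have hl : (fun u w => (ρ0.comp (gmap (L 1).G (L 1).A (L 0).G (L 0).A (φ 0)))
      (gen (L 1).G (L 1).A u w)) =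
      fun u w => ρ0 (gen (L 0).G (L 0).A (φ 0 u) (φ 0 w)) :=
    funext fun u => funext fun w => congrArg ρ0 (gmap_gen (hsys.hφ 0) u w)
  rw [hl] at v1 n1
  have v2 := (hV L φ c p (fun u w => ρ0 (gen (L 0).G (L 0).A u w)) hsys hfin hcov (Or.inl hM) hp
    (flat_hom ρ0) n0 n1 _).1 v1
  have hs := hU (Cp p) _ _ _ _ _ _ (freeAct_deck (ψ := MonoidHom.id (Cp p)) fun _ _ h => h).toAct
    ((hM 0).cov (flat_hom ρ0) n0) v0 v2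
  obtain ⟨m0, hm0⟩ := hG p hp a a' d d' hs
  obtain ⟨μ, hμ⟩ := unit_Compare2 p m0
  refine ⟨(θ1.symm.trans (m.trans θ0)).trans (κ.trans (μ.trans κ.symm)), fun _ _ _ _ g _ => ?_⟩
  have e2 := c0 (θ0.symm (κ.symm (μ (κ (θ0 (m (θ1.symm g)))))))
  have e3 := c1 (θ1.symm g)
  rw [ha] at e2
  rw [MonoidHom.comp_apply, hm1, ha, ← hm0, ← hμ] at e3
  simp only [MulEquiv.trans_apply, MulEquiv.apply_symm_apply] at e2 e3 ⊢
  rw [e2, e3]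

end

end Pool.Agent.MP_6374aa_gt
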