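import Pool.Agent.MP_6374aa_gt.IfA

namespace Pool.Agent.MP_6374aa_gt

open Classical Matrix

noncomputable section

theorem swap_Cone {R J : Type} [CommRing R] [Fintype J] [DecidableEq J] (dy : J → ℕ) :
    IsTor (Sum.elim dy fun j => dy j + 1)
      (fromBlocks (0 : Matrix J J R) (1 : Matrix J J R) (0 : Matrix J J R) (0 : Matrix J J R))
      1 := by
  refine ⟨fromBlocks 0 0 1 0, ⟨?_, ?_⟩, (Equiv.sumComm J J).subtypeEquiv ?_, ?_⟩
  · rintro (i | i) (j | j) h
    · simp at h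
    · simp at h
    · have : i = j := by
        by_contra hne
        exact h (by simp [hne])
      simp [this]
    · simp at h
  · simp [fromBlocks_multiply, fromBlocks_add]
  · rintro (i | i)
    · simp [Nat.odd_add_one]
    · simp [Nat.odd_add_one]
  · rw [← det_one (n := {i : J ⊕ J // Odd (Sum.elim dy (fun j => dy j + 1) i)})]
    congr 1
    ext ⟨i | i, hi⟩ ⟨j | j, hj⟩ <;> simp [one_apply]

/-- The reindexing of the big complex. -/
def eqv_Cone (I I' J1 J2 : Type) :
    (I ⊕ (I' ⊕ J1)) ⊕ (J2 ⊕ J2) ≃ (I ⊕ J2) ⊕ (I' ⊕ (J1 ⊕ J2)) where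
  toFun := Sum.elim
    (Sum.elim (fun i => .inl (.inl i))
      (Sum.elim (fun i => .inr (.inl i)) fun j => .inr (.inr (.inl j))))
    (Sum.elim (fun j => .inl (.inr j)) fun j => .inr (.inr (.inr j)))
  invFun := Sum.elim
    (Sum.elim (fun i => .inl (.inl i)) fun j => .inr (.inl j))
    (Sum.elim (fun i => .inl (.inr (.inl i)))
      (Sum.elim (fun j => .inl (.inr (.inr j))) fun j => .inr (.inr j)))
  left_inv := by rintro ((i | i | i) | i | i) <;> rfl
  right_inv := by rintro ((i | i) | i | i | i) <;> rfl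

section

variable {R I I' J1 J2 : Type} [CommRing R] [Fintype I] [DecidableEq I]
  [Fintype I'] [DecidableEq I'] [Fintype J1] [DecidableEq J1] [Fintype J2] [DecidableEq J2]
  {dI : I → ℕ} {dI' : I' → ℕ} {dz : J1 → ℕ} {dy : J2 → ℕ} {D : Matrix I I R}
  {D' : Matrix I' I' R} {Φ : Matrix I I' R} {Wm : Matrix I J1 R}
  {Z : Matrix I' J1 R} {Y : Matrix I' J2 R}

/-- The chain map from the source to the target. -/
def b_Cone (J2 : Type) [DecidableEq J2] (Φ : Matrix I I' R) (Wm : Matrix I J1 R) :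
    Matrix (I ⊕ J2) (I' ⊕ (J1 ⊕ J2)) R :=
  fromBlocks Φ (fromCols Wm 0) 0 (fromCols 0 1)

theorem cx_Cone
    (h1 : IsCx (Sum.elim dI (Sum.elim (fun i => dI' i + 1) fun j => dz j + 1))
      (fromBlocks D (fromCols Φ Wm) 0 (-fromBlocks D' Z 0 0)))
    (h2 : IsCx (Sum.elim dI' (Sum.elim dz dy)) (fromBlocks D' (fromCols Z Y) 0 0)) :
    IsCx (Sum.elim (Sum.elim dI dy) fun x => Sum.elim dI' (Sum.elim dz dy) x + 1)
      (fromBlocks (fromBlocks D (Φ * Y) 0 (0 : Matrix J2 J2 R)) (b_Cone J2 Φ Wm) 0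
        (-fromBlocks D' (fromCols Z Y) 0 (0 : Matrix (J1 ⊕ J2) (J1 ⊕ J2) R))) := by
  have k1 := h1.2
  have k2 := h2.2
  have e1 : D * D = 0 := by
    ext i j
    simpa [fromBlocks_multiply] using congrFun (congrFun k1 (.inl i)) (.inl j)
  have e2 : D * Φ = Φ * D' := by
    ext i j
    have := congrFun (congrFun k1 (.inl i)) (.inr (.inl j))
    simpa [fromBlocks_multiply, fromCols_mul_fromBlocks, ← sub_eq_add_neg, sub_eq_zero]
      using this
  have e3 : D * Wm = Φ * Z := by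
    ext i j
    have := congrFun (congrFun k1 (.inl i)) (.inr (.inr j))
    simpa [fromBlocks_multiply, fromCols_mul_fromBlocks, ← sub_eq_add_neg, sub_eq_zero]
      using this
  have e4 : D' * Y = 0 := by
    ext i j
    simpa [fromBlocks_multiply] using congrFun (congrFun k2 (.inl i)) (.inr (.inr j))
  refine ⟨?_, ?_⟩
  · rintro ((i | i) | i) ((j | j) | j) h
    · simpa using h1.1 (.inl i) (.inl j) (by simpa using h)
    · have h' : (Φ * Y) i j ≠ 0 := by simpa using h
      rw [mul_apply] at h'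
      obtain ⟨k, -, hk⟩ := Finset.exists_ne_zero_of_sum_ne_zero h'
      have a1 := h1.1 (.inl i) (.inr (.inl k)) (by simpa using left_ne_zero_of_mul hk)
      have a2 := h2.1 (.inl k) (.inr (.inr j)) (by simpa using right_ne_zero_of_mul hk)
      simp only [Sum.elim_inl, Sum.elim_inr] at a1 a2 ⊢
      omega
    · rcases j with j | j | j
      · simpa using h1.1 (.inl i) (.inr (.inl j)) (by simpa [b_Cone] using h)
      · simpa using h1.1 (.inl i) (.inr (.inr j)) (by simpa [b_Cone] using h)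
      · simp [b_Cone] at h
    · simp at h
    · simp at h
    · rcases j with j | j | j
      · simp [b_Cone] at h
      · simp [b_Cone] at h
      · have : i = j := by
          by_contra hne
          exact h (by simp [b_Cone, hne])
        simp [this]
    · simp at h
    · simp at h
    · have := h2.1 i j (by simpa using h)
      simpa using this
  · have f1 : fromBlocks D (Φ * Y) 0 (0 : Matrix J2 J2 R) * fromBlocks D (Φ * Y) 0 0 = 0 := by
      rw [fromBlocks_multiply, ← Matrix.mul_assoc, e2, Matrix.mul_assoc Φ D' Y, e4, e1]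
      simp
    have f2 : fromBlocks D (Φ * Y) 0 (0 : Matrix J2 J2 R) * b_Cone J2 Φ Wm =
        b_Cone J2 Φ Wm * fromBlocks D' (fromCols Z Y) 0 (0 : Matrix (J1 ⊕ J2) (J1 ⊕ J2) R) := by
      rw [b_Cone, fromBlocks_multiply, fromBlocks_multiply]
      ext (i | i) (j | j | j) <;> simp [e2, e3]
    rw [fromBlocks_multiply, f1, f2]
    simp only [Matrix.mul_neg, Matrix.neg_mul, k2]
    simp

theorem big_Cone (hR : TorReindexStmt) (hB : TorBlockStmt) {u : R}
    (h1 : IsCx (Sum.elim dI (Sum.elim (fun i => dI' i + 1) fun j => dz j + 1))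
      (fromBlocks D (fromCols Φ Wm) 0 (-fromBlocks D' Z 0 0)))
    (h2 : IsCx (Sum.elim dI' (Sum.elim dz dy)) (fromBlocks D' (fromCols Z Y) 0 0))
    (hu : IsTor (Sum.elim dI (Sum.elim (fun i => dI' i + 1) fun j => dz j + 1))
      (fromBlocks D (fromCols Φ Wm) 0 (-fromBlocks D' Z 0 0)) u) :
    ∃ v, (v = u ∨ v = -u) ∧
      IsTor (Sum.elim (Sum.elim dI dy) fun x => Sum.elim dI' (Sum.elim dz dy) x + 1)
      (fromBlocks (fromBlocks D (Φ * Y) 0 (0 : Matrix J2 J2 R)) (b_Cone J2 Φ Wm) 0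
        (-fromBlocks D' (fromCols Z Y) 0 (0 : Matrix (J1 ⊕ J2) (J1 ⊕ J2) R))) v := by
  have hT := cx_Cone h1 h2
  generalize hdeg : (Sum.elim (Sum.elim dI dy) fun x => Sum.elim dI' (Sum.elim dz dy) x + 1) =
    deg at hT ⊢
  generalize hM : fromBlocks (fromBlocks D (Φ * Y) 0 (0 : Matrix J2 J2 R)) (b_Cone J2 Φ Wm) 0
    (-fromBlocks D' (fromCols Z Y) 0 (0 : Matrix (J1 ⊕ J2) (J1 ⊕ J2) R)) = T at hT ⊢
  have g1 : deg ∘ eqv_Cone I I' J1 J2 =
      Sum.elim (Sum.elim dI (Sum.elim (fun i => dI' i + 1) fun j => dz j + 1))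
        (Sum.elim dy fun j => dy j + 1) := by
    subst hdeg
    funext x
    rcases x with (i | i | i) | i | i <;> rfl
  have g2 : T.submatrix (eqv_Cone I I' J1 J2) (eqv_Cone I I' J1 J2) =
      fromBlocks (fromBlocks D (fromCols Φ Wm) 0 (-fromBlocks D' Z 0 0))
        (T.submatrix (eqv_Cone I I' J1 J2) (eqv_Cone I I' J1 J2)).toBlocks₁₂ 0
        (fromBlocks (0 : Matrix J2 J2 R) (1 : Matrix J2 J2 R) 0 0) := by
    subst hM
    ext ((i | i | i) | i | i) ((j | j | j) | j | j) <;>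
      simp [eqv_Cone, b_Cone, toBlocks₁₂]
  have g3 := (hR R _ _ (eqv_Cone I I' J1 J2) deg T u).1 hT
  rw [g1, g2] at g3
  obtain ⟨v, hv, hv'⟩ := hB R _ _ _ _ _ _ _ u 1 g3 hu (swap_Cone dy)
  rw [← g1, ← g2] at hv
  refine ⟨v, by simpa using hv', ?_⟩
  have g4 := (hR R _ _ (eqv_Cone I I' J1 J2).symm _ _ v).2 hv
  simpa [Function.comp_assoc] using g4

end

theorem coneS (hM : TorMapStmt) (hR : TorReindexStmt) (hN : TorNegStmt) (hN' : TorNegStmt')
    (hB : TorBlockStmt) (hS : TorSubStmt) (hI : InUStmt) : ConeStmt := by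
  intro C _ _ I I' J1 J2 _ _ _ _ _ _ _ _ dI dI' dz dy D D' Φ Wm Z Y u τ h1 h2 hu ht
  obtain ⟨-, hmul, hneg, hinv⟩ := hI C
  obtain ⟨v0, hv0, hT⟩ := big_Cone hR hB h1 h2 ht
  have hv0' : InU v0 := by
    rcases hv0 with rfl | rfl
    exacts [hu, hneg _ hu]
  have k1 := (hM _ _ _ (qq C) _ _ v0).1 (cx_Cone h1 h2)
  have k2 := (hM _ _ _ (qq C) _ _ v0).2 hT
  have k3 := (hM _ _ _ (qq C) _ _ v0).1 h2
  rw [fromBlocks_map, Matrix.map_zero _ (map_zero _), Matrix.map_neg _ (map_neg _)] at k1 k2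
  obtain ⟨s1, s2⟩ := hS _ _ _ _ _ _ _ _ _ k1 k2
  constructor
  · rintro ⟨v, hv, htv⟩
    obtain ⟨w, hw, hw'⟩ := hN _ _ _ _ _ k3 htv
    obtain ⟨u1, hu1, hu1'⟩ := s1 w hw
    have : u1 = qq C (v0 * v) * τ ∨ u1 = qq C (-(v0 * v)) * τ := by
      rw [map_neg, map_mul]
      rcases hw' with a | a <;> rcases hu1' with b | b <;> rw [b]
      · left
        linear_combination (-u1) * a
      · right
        linear_combination (-u1) * a
      · right
        linear_combination u1 * a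
      · left
        linear_combination u1 * a
    rcases this with rfl | rfl
    · exact ⟨_, hmul _ _ hv0' hv, hu1⟩
    · exact ⟨_, hneg _ (hmul _ _ hv0' hv), hu1⟩
  · rintro ⟨v, hv, htv⟩
    obtain ⟨w, hw, hw'⟩ := s2 _ htv
    obtain ⟨u1, hu1, hu1'⟩ := hN' _ _ _ _ _ k3 hw
    obtain ⟨v1, hv1, hvv⟩ := hinv v0 hv0'
    have hq : qq C v0 * qq C v1 = 1 := by rw [← map_mul, hvv, map_one]
    have : u1 = qq C (v1 * v) * τ ∨ u1 = qq C (-(v1 * v)) * τ := by
      rw [map_neg, map_mul]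
      rcases hw' with a | a <;> rcases hu1' with b | b <;> rw [a] at hq
      · left
        linear_combination (-u1) * hq + (qq C v1 * qq C v * τ) * b
      · right
        linear_combination (-u1) * hq + (qq C v1 * qq C v * τ) * b
      · right
        linear_combination (-u1) * hq - (qq C v1 * qq C v * τ) * b
      · left
        linear_combination (-u1) * hq - (qq C v1 * qq C v * τ) * b
    rcases this with rfl | rfl
    · exact ⟨_, hmul _ _ hv1 hv, hu1⟩
    · exact ⟨_, hneg _ (hmul _ _ hv1 hv), hu1⟩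

end

end Pool.Agent.MP_6374aa_gt
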