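import Pool.Agent.MP_6374aa_gt.IfC

/-! Congruence and composition of the basic classes of maps. -/

namespace Pool.Agent.MP_6374aa_gt

open Classical

noncomputable section

section

variable {V V' : Type} {G : SimpleGraph V} {A : Set V} {G' : SimpleGraph V'} {A' : Set V'}
  {c c' : V' → V}

theorem hom_Congr (h : ∀ a ∈ A', c a = c' a) (hc : IsHom G' A' G A c) : IsHom G' A' G A c' :=
  ⟨fun a ha => h a ha ▸ hc.1 a ha, fun a ha b hb hab => h a ha ▸ h b hb ▸ hc.2 a ha b hb hab⟩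

theorem pre_Congr (h : ∀ a ∈ A', c a = c' a) (S : Set V) : A' ∩ c' ⁻¹' S = A' ∩ c ⁻¹' S := by
  ext a
  refine and_congr_right fun ha => ?_
  rw [Set.mem_preimage, Set.mem_preimage, h a ha]

theorem em_Congr (h : ∀ a ∈ A', c a = c' a) {S : Set V'} (hS : S ⊆ A') {n : ℕ} {z : EA V'}
    (hz : z ∈ Zy G' S n) : emap c' z = emap c z :=
  (emap_congr (fun a ha => h a (hS ha)) (mem_Zy.1 hz).1).symm

theorem loc_Congr (h : ∀ a ∈ A', c a = c' a) (hc : Loc G' A' G A c) : Loc G' A' G A c' where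
  hom := hom_Congr h hc.hom
  surj v hv := by
    obtain ⟨w, hw, e⟩ := hc.surj v hv
    exact ⟨w, hw, h w hw ▸ e⟩
  s1 n S hS z hz h1 h2 := by
    rw [em_Congr h Set.inter_subset_left hz] at h1
    rw [pre_Congr h] at hz ⊢
    exact hc.s1 n S hS z hz h1 h2
  s2 n S hS z hz := by
    obtain ⟨z', h1, h2⟩ := hc.s2 n S hS z hz
    rw [pre_Congr h]
    exact ⟨z', h1, by rwa [em_Congr h Set.inter_subset_left h1]⟩
  ls n hn S hS z hz h1 := by
    rw [em_Congr h Set.inter_subset_left hz] at h1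
    simp only [pre_Congr h] at hz ⊢
    exact hc.ls n hn S hS z hz h1
  ind n hn s z hs h1 h2 := by
    simp only [pre_Congr h] at h1
    exact hc.ind n hn s z hs h1 h2
  top z hz h1 := by
    rw [em_Congr h subset_rfl hz] at h1
    exact hc.top z hz h1

theorem gm_Congr (h : ∀ a ∈ A', c a = c' a) (hc : IsHom G' A' G A c) {y : V'} (hy : y ∈ A')
    {δ : Gp G' A'} (hδ : δ ∈ Loop G' A' y) : gmap G' A' G A c' δ = gmap G' A' G A c δ :=
  (((mem_Loop hy).1 hδ).gmap_congr hc h).symm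

theorem ext_Congr (h : ∀ a ∈ A', c a = c' a) {P : Pack G A} {P' : Pack G' A'} {j : P.X → P'.X}
    (hc : Ext c P' P j) : Ext c' P' P j := by
  have gm : ∀ x', ∀ δ ∈ P'.Λ x', gmap G' A' G A c' δ = gmap G' A' G A c δ := fun x' δ hδ =>
    gm_Congr h hc.loc.hom (P'.mem x') (P'.loop x' hδ)
  refine ⟨loc_Congr h hc.loc, hc.inj, fun x => ?_, fun x' hx δ hδ => ?_, fun L _ ρ hρ => ?_,
    fun n hn z hz h1 => ?_, fun n hn x' hx => ?_, fun n hn x S hS h1 => ?_⟩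
  · obtain ⟨h1, γ, h2, h3, h4⟩ := hc.old x
    refine ⟨fun δ hδ e => h1 δ hδ (gm _ δ hδ ▸ e), γ, h _ (P'.mem _) ▸ h2, fun δ hδ => ?_,
      fun δ hδ => ?_⟩
    · rw [gm _ δ hδ]
      exact h3 δ hδ
    · obtain ⟨δ', h5, h6⟩ := h4 δ hδ
      exact ⟨δ', h5, by rwa [gm _ δ' h5]⟩
  · rw [gm _ δ hδ]
    exact hc.new x' hx δ hδ
  · obtain ⟨lab, k, h1, h2⟩ := hc.gauge L ρ hρ
    exact ⟨lab, k, h1, fun u hu w hw huw => by rw [← h u hu, ← h w hw]; exact h2 u hu w hw huw⟩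
  · rw [em_Congr h subset_rfl hz] at h1
    exact hc.ker n hn z hz h1
  · simp only [pre_Congr h]
    exact hc.loc1 n hn x' hx
  · rw [pre_Congr h]
    exact hc.loc2 n hn x S hS h1

theorem se_Congr (h : ∀ a ∈ A', c a = c' a) (hc : SE G' A' G A c) : SE G' A' G A c' where
  hom := hom_Congr h hc.hom
  ess y hy := by
    obtain ⟨y', h1, γ, h2⟩ := hc.ess y hy
    exact ⟨y', h1, γ, h y' h1 ▸ h2⟩
  full x' hx y' hy γ hγ := by
    rw [← h x' hx, ← h y' hy] at hγ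
    obtain ⟨γ', h1, h2⟩ := hc.full x' hx y' hy γ hγ
    exact ⟨γ', h1, by rwa [← h1.gmap_congr hc.hom h]⟩
  faith y' γ' h1 h2 := hc.faith y' γ' h1 (by rwa [h1.gmap_congr hc.hom h])
  hinj n hn z hz h1 := by
    rw [em_Congr h subset_rfl hz] at h1
    exact hc.hinj n hn z hz h1
  hsurj n hn z hz := by
    obtain ⟨z', h1, h2⟩ := hc.hsurj n hn z hz
    exact ⟨z', h1, by rwa [em_Congr h subset_rfl h1]⟩
  isurj n hn y' hy Γ' hΓ z hz := by
    have e : Γ'.map (gmap G' A' G A c') = Γ'.map (gmap G' A' G A c) := by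
      ext δ
      simp only [Subgroup.mem_map]
      exact exists_congr fun δ' => and_congr_right fun h1 => by
        rw [gm_Congr h hc.hom hy (hΓ h1)]
    rw [e, ← h y' hy] at hz
    obtain ⟨z', h1, h2⟩ := hc.isurj n hn y' hy Γ' hΓ z hz
    exact ⟨z', h1, by rwa [em_Congr h subset_rfl (II_le_Zy _ _ _ h1)]⟩

end

theorem congrS : CongrStmt := fun _ _ _ _ _ _ _ _ h =>
  ⟨fun _ _ _ hc => ext_Congr h hc, se_Congr h⟩

theorem seComp : SeCompStmt := by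
  intro V V' V'' G A G' A' G'' A'' c c' h1 h2
  have key : ∀ (n : ℕ) (z : EA V) (z' : EA V') (z'' : EA V''), emap c z' - z ∈ Bd G A n →
      emap c' z'' - z' ∈ Bd G' A' n → emap (c ∘ c') z'' - z ∈ Bd G A n := by
    intro n z z' z'' a1 a2
    have a3 := add_mem (emap_mem_Bd h1.hom a2) a1
    rwa [map_sub, emap_comp, sub_add_sub_cancel] at a3
  refine ⟨h1.hom.comp h2.hom, fun y hy => ?_, fun x hx y hy γ hγ => ?_, fun y γ a1 a2 => ?_,
    fun n hn z hz a1 => ?_, fun n hn z hz => ?_, fun n hn y hy Γ hΓ z hz => ?_⟩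
  · obtain ⟨y', a1, γ, a2⟩ := h1.ess y hy
    obtain ⟨y'', a3, γ', a4⟩ := h2.ess y' a1
    exact ⟨y'', a3, _, a2.trans (a4.map h1.hom)⟩
  · obtain ⟨γ', a1, a2⟩ := h1.full _ (h2.hom.1 x hx) _ (h2.hom.1 y hy) γ hγ
    obtain ⟨γ'', a3, a4⟩ := h2.full x hx y hy γ' a1
    exact ⟨γ'', a3, by rw [← gmap_comp h1.hom h2.hom, a4, a2]⟩
  · rw [← gmap_comp h1.hom h2.hom] at a2
    exact h2.faith y γ a1 (h1.faith _ _ (a1.map h2.hom) a2)
  · rw [← emap_comp] at a1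
    exact h2.hinj n hn z hz (h1.hinj n hn _ (emap_mem_Zy h2.hom hz) a1)
  · obtain ⟨z', a1, a2⟩ := h1.hsurj n hn z hz
    obtain ⟨z'', a3, a4⟩ := h2.hsurj n hn z' a1
    exact ⟨z'', a3, key n z z' z'' a2 a4⟩
  · have e : Γ.map (gmap G'' A'' G A (c ∘ c')) =
        (Γ.map (gmap G'' A'' G' A' c')).map (gmap G' A' G A c) := by
      rw [Subgroup.map_map]
      congr 1
      exact MonoidHom.ext fun γ => (gmap_comp h1.hom h2.hom γ).symm
    rw [e] at hz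
    obtain ⟨z', a1, a2⟩ := h1.isurj n hn _ (h2.hom.1 y hy) _ (by
      rintro _ ⟨δ, hδ, rfl⟩
      exact gmap_mem_Loop h2.hom hy (hΓ hδ)) z hz
    obtain ⟨z'', a3, a4⟩ := h2.isurj n hn y hy Γ hΓ z' a1
    exact ⟨z'', a3, key n z z' z'' a2 a4⟩

theorem clCov : ClCovStmt := by
  intro V V' G A G' A' c L Ω _ _ lab hl hc
  refine ⟨lift1_hom hl hc.1, fun τ hne hτ hcl => ?_⟩
  have key : ∀ p ∈ τ, ∀ q ∈ τ, Adq G p.1 q.1 ∧ p.2 = lab p.1 q.1 • q.2 := by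
    intro p hp q hq
    refine (cov_adq hl (hτ hp) (hτ hq)).1 ?_
    by_cases e : p = q
    · exact Or.inl e
    · exact Or.inr (hcl hp hq e)
  have h1 := hc.2 (τ.image Prod.fst) (hne.image _) (by
      intro a ha
      obtain ⟨p, hp, rfl⟩ := Finset.mem_image.1 ha
      exact hτ hp) (by
      intro a ha b hb hab
      obtain ⟨p, hp, rfl⟩ := Finset.mem_image.1 ha
      obtain ⟨q, hq, rfl⟩ := Finset.mem_image.1 hb
      exact (key p hp q hq).1.resolve_left hab)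
  refine IsIso.contr (f := Prod.fst) ?_ h1
  refine ⟨⟨fun p hp => ?_, fun p hp q hq e => ?_,
    fun a ha => ?_⟩, fun p hp q hq => ⟨fun h => h.1, fun h => ?_⟩⟩
  · exact ⟨hp.1, Finset.mem_image.2 ⟨_, hp.2, rfl⟩⟩
  · refine Prod.ext e ?_
    have h2 : p.2 = lab (c p.1) (c q.1) • q.2 := (key _ hp.2 _ hq.2).2
    rwa [e, hl.self (hc.1.1 _ hq.1), one_smul] at h2
  · obtain ⟨p, hp, e⟩ := Finset.mem_image.1 ha.2
    refine ⟨(a, p.2), ⟨ha.1, ?_⟩, rfl⟩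
    show (c a, p.2) ∈ τ
    rwa [← e]
  · exact ⟨h, (key _ hp.2 _ hq.2).2, (key _ hq.2 _ hp.2).2⟩

theorem extQ_Congr (hE : ExtCompStmt) {V V' V'' : Type} {G : SimpleGraph V} {A : Set V}
    {G' : SimpleGraph V'} {A' : Set V'} {G'' : SimpleGraph V''} {A'' : Set V''} {c : V' → V}
    {c' : V'' → V'} (h1 : ExtQ G' A' G A c) (h2 : ExtQ G'' A'' G' A' c') :
    ExtQ G'' A'' G A (c ∘ c') := fun P => by
  obtain ⟨P', j, a1⟩ := h1 P
  obtain ⟨P'', j', a2⟩ := h2 P'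
  exact ⟨P'', _, hE _ _ _ _ _ _ _ _ _ _ _ _ _ _ _ _ a1 a2⟩

theorem q0_Congr (hE : ExtCompStmt) (hS : SeCompStmt) {V V' V'' : Type} {G : SimpleGraph V}
    {A : Set V} {G' : SimpleGraph V'} {A' : Set V'} {G'' : SimpleGraph V''} {A'' : Set V''}
    {c : V' → V} {c' : V'' → V'} (h1 : Q0 G' A' G A c) (h2 : Q0 G'' A'' G' A' c') :
    Q0 G'' A'' G A (c ∘ c') := by
  refine ⟨hS _ _ _ _ _ _ _ _ _ _ _ h1.1 h2.1, fun P => ?_⟩
  obtain ⟨P', j, a1, b1⟩ := h1.2 P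
  obtain ⟨P'', j', a2, b2⟩ := h2.2 P'
  exact ⟨P'', _, hE _ _ _ _ _ _ _ _ _ _ _ _ _ _ _ _ a1 a2, b2.comp b1⟩

theorem qComp (hE : ExtCompStmt) (hS : SeCompStmt) : QCompStmt := by
  intro V V' V'' G A G' A' G'' A'' c c'
  refine ⟨extQ_Congr hE, fun h1 h2 => ⟨h1.1.comp h2.1, fun L _ _ lab hl => ?_⟩, q0_Congr hE hS,
    fun h1 h2 => ⟨q0_Congr hE hS h1.1 h2.1, fun L _ _ lab hl => ?_⟩,
    fun h => ⟨h.1.1.hom, fun L _ _ lab hl P => ?_⟩⟩
  · exact extQ_Congr hE (h1.2 L lab hl) (h2.2 L _ (hl.pull h1.1))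
  · exact q0_Congr hE hS (h1.2 L lab hl) (h2.2 L _ (hl.pull h1.1.1.hom))
  · obtain ⟨P', j, a1, -⟩ := (h.2 L lab hl).2 P
    exact ⟨P', j, a1⟩

end

end Pool.Agent.MP_6374aa_gt
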