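import Pool.Agent.MP_6374aa_gt.IfA
import Pool.Agent.MP_6374aa_gt.GrA3

/-! Height function and circle valued coordinates over a free three dimensional complex. -/

namespace Pool.Agent.MP_6374aa_gt

open Classical

noncomputable section

/-- Equivariant labelling of the points with trivial stabiliser. -/
theorem label_Coord {C X : Type} [Group C] (ac : C → X → X) (h1 : ∀ x, ac 1 x = x)
    (hm : ∀ g h x, ac (g * h) x = ac g (ac h x)) :
    ∃ γ : X → C, ∀ x, (∀ g, ac g x = x → g = 1) → ∀ g, γ (ac g x) = g * γ x := by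
  let r : Setoid X := ⟨fun x y => ∃ g, ac g x = y, ⟨fun x => ⟨1, h1 x⟩,
    fun ⟨g, hg⟩ => ⟨g⁻¹, by rw [← hg, ← hm, inv_mul_cancel, h1]⟩,
    fun ⟨g, hg⟩ ⟨h, hh⟩ => ⟨h * g, by rw [hm, hg, hh]⟩⟩⟩
  have hex : ∀ x, ∃ g, ac g (Quotient.mk r x).out = x := fun x => Quotient.mk_out (s := r) x
  choose γ hγ using hex
  refine ⟨γ, fun x hx g => ?_⟩
  have hq : Quotient.mk r (ac g x) = Quotient.mk r x :=
    (Quotient.sound (s := r) (show ∃ k, ac k x = ac g x from ⟨g, rfl⟩)).symm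
  have h2 := hγ (ac g x)
  rw [hq] at h2
  have h3 := hγ x
  generalize γ (ac g x) = k at h2 ⊢
  have h4 : ac (γ x * k⁻¹ * g) x = x := by
    rw [hm, hm, ← h2, ← hm k⁻¹, inv_mul_cancel, h1, h3]
  have h5 := hx _ h4
  calc k = g * (γ x * k⁻¹ * g) * g⁻¹ * k := by rw [h5]; group
    _ = g * γ x := by group

/-- The first radius at which the sets have at least `k` points. -/
def lv_Coord {X : Type} (F : ℕ → Set X) (k : ℕ) : ℕ := sInf {r | r = 401 ∨ k ≤ (F r).ncard}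

theorem lv_le_Coord {X : Type} (F : ℕ → Set X) (k : ℕ) : lv_Coord F k ≤ 401 :=
  Nat.sInf_le (Or.inl rfl)

theorem lv_spec_Coord {X : Type} (F : ℕ → Set X) (k : ℕ) :
    lv_Coord F k = 401 ∨ k ≤ (F (lv_Coord F k)).ncard :=
  Nat.sInf_mem (s := {r | r = 401 ∨ k ≤ (F r).ncard}) ⟨401, Or.inl rfl⟩

theorem lv_min_Coord {X : Type} {F : ℕ → Set X} {k r : ℕ} (h : k ≤ (F r).ncard) :
    lv_Coord F k ≤ r :=
  Nat.sInf_le (Or.inr h)

theorem lv_lip_Coord {X : Type} {F G : ℕ → Set X} (hG : ∀ r, (G r).Finite)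
    (h : ∀ r, F r ⊆ G (r + 1)) (k : ℕ) : lv_Coord G k ≤ lv_Coord F k + 1 := by
  rcases lv_spec_Coord F k with e | e
  · have := lv_le_Coord G k
    omega
  · exact lv_min_Coord (e.trans (Set.ncard_le_ncard (h _) (hG _)))

theorem lv_const_Coord {X : Type} {F G : ℕ → Set X} (hF : ∀ r, (F r).Finite)
    (hG : ∀ r, (G r).Finite) (hm : Monotone G) (hFG : ∀ r, F r ⊆ G (r + 1))
    (hGF : ∀ r, G r ⊆ F (r + 1)) {k : ℕ} (h : lv_Coord F k + 3 ≤ lv_Coord F (k + 1)) :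
    G (lv_Coord G k) = F (lv_Coord F k) := by
  have h1 := lv_lip_Coord hG hFG k
  have h2 := lv_lip_Coord hF hGF (k + 1)
  have h3 := lv_le_Coord F (k + 1)
  have h4 : (G (lv_Coord F k + 1)).ncard ≤ k := by
    by_contra hc
    have : lv_Coord G (k + 1) ≤ lv_Coord F k + 1 := lv_min_Coord (by omega)
    omega
  have h5 : k ≤ (F (lv_Coord F k)).ncard := (lv_spec_Coord F k).resolve_left (by omega)
  have h6 : k ≤ (G (lv_Coord G k)).ncard := (lv_spec_Coord G k).resolve_left (by omega)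
  rw [Set.eq_of_subset_of_ncard_le (hFG _) (h4.trans h5) (hG _)]
  exact Set.eq_of_subset_of_ncard_le (hm h1) (h4.trans h6) (hG _)

/-- A weight with a label that is locally constant where the weight is large. -/
structure Wt_Coord {C B : Type} [CommGroup C] (β : C →* Equiv.Perm B) (B0 : Set B)
    (ρ : B → B → Prop) (w : B → ℤ) (γ : B → C) : Prop where
  lip : ∀ a ∈ B0, ∀ b ∈ B0, ρ a b → |w a - w b| ≤ 2
  inv : ∀ g, ∀ b ∈ B0, w (β g b) = w b
  eqv : ∀ g, ∀ b ∈ B0, γ (β g b) = g * γ b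
  con : ∀ a ∈ B0, ∀ b ∈ B0, ρ a b → 3 ≤ w b → γ a = γ b

theorem side_Coord {C B : Type} [CommGroup C] {β : C →* Equiv.Perm B} {B0 : Set B}
    {ρ : B → B → Prop} {t : C} (ht : ∀ g, g ∈ Subgroup.zpowers t) {w1 w2 : B → ℤ}
    {γ1 γ2 : B → C} (H1 : Wt_Coord β B0 ρ w1 γ1) (H2 : Wt_Coord β B0 ρ w2 γ2) :
    ∃ (lam : B → C) (l : B → B → ℤ), (∀ g, ∀ b ∈ B0, lam (β g b) = g * lam b) ∧
      (∀ g, ∀ a ∈ B0, ∀ b ∈ B0, l (β g a) (β g b) = l a b) ∧
      (∀ a ∈ B0, ∀ b ∈ B0, 180 ≤ w1 b + w2 b → ρ a b → lam a = lam b * t ^ l a b) ∧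
      (∀ a, l a a = 0) ∧
      ∀ a ∈ B0, ∀ b ∈ B0, ∀ c ∈ B0, 180 ≤ w1 b + w2 b → ρ a b → ρ b c →
        l a c = l a b + l b c := by
  have hs : ∀ g : C, ∃ n : ℤ, t ^ n = g := fun g => Subgroup.mem_zpowers_iff.1 (ht g)
  choose s hs using hs
  refine ⟨fun b => if w2 b ≤ w1 b then γ1 b else γ2 b,
    fun a b => ((if w2 a ≤ w1 a then 1 else 0) - (if w2 b ≤ w1 b then 1 else 0)) *
      s (γ1 a * (γ2 a)⁻¹), ?_, ?_, ?_, ?_, ?_⟩
  · intro g b hb
    simp only [H1.inv g b hb, H2.inv g b hb, H1.eqv g b hb, H2.eqv g b hb]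
    split_ifs <;> rfl
  · intro g a ha b hb
    have e : g * γ1 a * (g * γ2 a)⁻¹ = γ1 a * (γ2 a)⁻¹ := by
      rw [mul_inv, mul_mul_mul_comm, mul_inv_cancel, one_mul]
    simp only [H1.inv g b hb, H2.inv g b hb, H1.inv g a ha, H2.inv g a ha, H1.eqv g a ha,
      H2.eqv g a ha, e]
  · intro a ha b hb hP hab
    by_cases h1 : w2 a ≤ w1 a <;> by_cases h2 : w2 b ≤ w1 b
    · simp only [if_pos h1, if_pos h2, sub_self, zero_mul, zpow_zero, mul_one]
      exact H1.con a ha b hb hab (by omega)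
    · simp only [if_pos h1, if_neg h2, sub_zero, one_mul, hs]
      rw [← H2.con a ha b hb hab (by omega), mul_comm (γ1 a), mul_inv_cancel_left]
    · simp only [if_neg h1, if_pos h2, zero_sub, neg_mul, one_mul, zpow_neg, hs]
      rw [← H1.con a ha b hb hab (by omega), mul_inv, inv_inv, mul_inv_cancel_left]
    · simp only [if_neg h1, if_neg h2, sub_self, zero_mul, zpow_zero, mul_one]
      exact H2.con a ha b hb hab (by omega)
  · intro a
    simp only [sub_self, zero_mul]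
  · intro a ha b hb c hc hP hab hbc
    have l1 := abs_le.1 (H1.lip b hb c hc hbc)
    have l2 := abs_le.1 (H2.lip b hb c hc hbc)
    by_cases h2 : w2 b ≤ w1 b <;> by_cases h3 : w2 c ≤ w1 c
    · simp only [if_pos h2, if_pos h3]
      ring
    · simp only [if_pos h2, if_neg h3]
      rw [H1.con a ha b hb hab (by omega), H2.con a ha b hb hab (by omega)]
      ring
    · simp only [if_neg h2, if_pos h3]
      rw [H1.con a ha b hb hab (by omega), H2.con a ha b hb hab (by omega)]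
      ring
    · simp only [if_neg h2, if_neg h3]
      ring

/-- The image of the ball of radius `r * R`. -/
def Nb_Coord {V0 V1 : Type} (G1 : SimpleGraph V1) (A1 : Set V1) (φ : V1 → V0) (R : ℕ) (b : V1)
    (r : ℕ) : Set V0 :=
  φ '' {c | Near G1 A1 (r * R) b c}

section

variable {C : Type} [CommGroup C] {V0 V1 : Type} {G0 : SimpleGraph V0} {A0 : Set V0}
  {α0 : C →* Equiv.Perm V0} {G1 : SimpleGraph V1} {A1 : Set V1} {α1 : C →* Equiv.Perm V1}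
  {φ : V1 → V0} {R T : ℕ}

theorem Nb_sub_Coord (hφ : ∀ a ∈ A1, φ a ∈ A0) {b : V1} (hb : b ∈ A1) (r : ℕ) :
    Nb_Coord G1 A1 φ R b r ⊆ A0 := by
  rintro x ⟨c, hc, rfl⟩
  exact hφ c (Near.mem hb hc)

theorem Nb_self_Coord {b : V1} (hb : b ∈ A1) (r : ℕ) : φ b ∈ Nb_Coord G1 A1 φ R b r :=
  ⟨b, Near.refl hb _, rfl⟩

theorem Nb_mono_Coord {b : V1} (hb : b ∈ A1) : Monotone (Nb_Coord G1 A1 φ R b) := by
  rintro r r' h x ⟨c, hc, rfl⟩
  exact ⟨c, Near.mono hb (Nat.mul_le_mul_right R h) hc, rfl⟩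

theorem Nb_near_Coord {a b : V1} (h : Near G1 A1 R a b) (r : ℕ) :
    Nb_Coord G1 A1 φ R b r ⊆ Nb_Coord G1 A1 φ R a (r + 1) := by
  rintro x ⟨c, hc, rfl⟩
  refine ⟨c, ?_, rfl⟩
  have := Near.trans h hc
  rwa [show R + r * R = (r + 1) * R by ring] at this

theorem Nb_clique_Coord (hT : ∀ a ∈ A1, ∀ b ∈ A1, Near G1 A1 T a b → Adq G0 (φ a) (φ b))
    (hR : 1000 * (R + 1) ≤ T) {b : V1} (hb : b ∈ A1) {r : ℕ} (hr : r ≤ 401) :
    G0.IsClique (Nb_Coord G1 A1 φ R b r) := by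
  rintro x ⟨c, hc, rfl⟩ y ⟨d, hd, rfl⟩ hne
  have hc' : c ∈ A1 := Near.mem hb hc
  have h1 : r * R ≤ 401 * R := Nat.mul_le_mul_right R hr
  have h2 : Near G1 A1 T c d :=
    Near.mono hc' (by omega) (Near.trans (Near.symm hb hc) hd)
  exact (hT c hc' d (Near.mem hb hd) h2).resolve_left hne

theorem near_act_Coord [Fintype C] (hA : Act G1 A1 α1) (g : C) {n : ℕ} {a b : V1} (ha : a ∈ A1)
    (h : Near G1 A1 n a b) : Near G1 A1 n (α1 g a) (α1 g b) :=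
  Near.map ⟨hA.mem g, fun x hx y hy e => Or.inr (hA.adj g x hx y hy e)⟩ ha h

theorem Nb_eqv_Coord [Fintype C] (hA : Act G1 A1 α1) (hE : Eqv A1 α1 α0 φ) (g : C) {b : V1}
    (hb : b ∈ A1) (r : ℕ) :
    Nb_Coord G1 A1 φ R (α1 g b) r = α0 g '' Nb_Coord G1 A1 φ R b r := by
  have hinv : ∀ x, α1 g⁻¹ (α1 g x) = x := fun x => by
    rw [← Equiv.Perm.mul_apply, ← map_mul, inv_mul_cancel, map_one, Equiv.Perm.one_apply]
  have hinv' : ∀ x, α1 g (α1 g⁻¹ x) = x := fun x => by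
    rw [← Equiv.Perm.mul_apply, ← map_mul, mul_inv_cancel, map_one, Equiv.Perm.one_apply]
  apply Set.Subset.antisymm
  · rintro x ⟨c, hc, rfl⟩
    have h1 := near_act_Coord hA g⁻¹ (hA.mem g b hb) hc
    rw [hinv] at h1
    refine ⟨φ (α1 g⁻¹ c), ⟨_, h1, rfl⟩, ?_⟩
    rw [← hE g _ (Near.mem hb h1), hinv']
  · rintro x ⟨y, ⟨c, hc, rfl⟩, rfl⟩
    exact ⟨α1 g c, near_act_Coord hA g hb hc, hE g c (Near.mem hb hc)⟩

theorem lv_eqv_Coord [Fintype C] (hA : Act G1 A1 α1) (hE : Eqv A1 α1 α0 φ) (g : C) {b : V1}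
    (hb : b ∈ A1) (k : ℕ) :
    lv_Coord (Nb_Coord G1 A1 φ R (α1 g b)) k = lv_Coord (Nb_Coord G1 A1 φ R b) k := by
  unfold lv_Coord
  simp only [Nb_eqv_Coord hA hE g hb, Set.ncard_image_of_injective _ (α0 g).injective]

theorem lv_near_Coord (hF : Fin3 G0 A0) (hφ : ∀ a ∈ A1, φ a ∈ A0) {a b : V1} (ha : a ∈ A1)
    (hb : b ∈ A1) (h : Near G1 A1 R a b) (k : ℕ) :
    lv_Coord (Nb_Coord G1 A1 φ R a) k ≤ lv_Coord (Nb_Coord G1 A1 φ R b) k + 1 ∧
      lv_Coord (Nb_Coord G1 A1 φ R b) k ≤ lv_Coord (Nb_Coord G1 A1 φ R a) k + 1 :=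
  ⟨lv_lip_Coord (fun r => hF.1.subset (Nb_sub_Coord hφ ha r)) (Nb_near_Coord h) k,
    lv_lip_Coord (fun r => hF.1.subset (Nb_sub_Coord hφ hb r))
      (Nb_near_Coord (Near.symm ha h)) k⟩

theorem lv_one_Coord (hF : Fin3 G0 A0) (hφ : ∀ a ∈ A1, φ a ∈ A0) {b : V1} (hb : b ∈ A1) :
    lv_Coord (Nb_Coord G1 A1 φ R b) 1 = 0 :=
  Nat.le_zero.1 (lv_min_Coord
    ((Set.ncard_pos (hF.1.subset (Nb_sub_Coord hφ hb 0))).2 ⟨_, Nb_self_Coord hb 0⟩))

theorem lv_five_Coord (hF : Fin3 G0 A0) (hφ : ∀ a ∈ A1, φ a ∈ A0)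
    (hT : ∀ a ∈ A1, ∀ b ∈ A1, Near G1 A1 T a b → Adq G0 (φ a) (φ b))
    (hR : 1000 * (R + 1) ≤ T) {b : V1} (hb : b ∈ A1) :
    lv_Coord (Nb_Coord G1 A1 φ R b) 5 = 401 := by
  refine (lv_spec_Coord _ 5).resolve_right ?_
  have hr := lv_le_Coord (Nb_Coord G1 A1 φ R b) 5
  generalize lv_Coord (Nb_Coord G1 A1 φ R b) 5 = r at hr
  have hfin : (Nb_Coord G1 A1 φ R b r).Finite := hF.1.subset (Nb_sub_Coord hφ hb r)
  have h4 := hF.2 hfin.toFinset (by rw [hfin.coe_toFinset]; exact Nb_sub_Coord hφ hb r)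
    (by rw [hfin.coe_toFinset]; exact Nb_clique_Coord hT hR hb hr)
  rw [Set.ncard_eq_toFinset_card _ hfin]
  omega

theorem wt_Coord [Fintype C] (hA0 : FreeAct G0 A0 α0) (hF : Fin3 G0 A0) (hA : Act G1 A1 α1)
    (hφ : ∀ a ∈ A1, φ a ∈ A0) (hE : Eqv A1 α1 α0 φ)
    (hT : ∀ a ∈ A1, ∀ b ∈ A1, Near G1 A1 T a b → Adq G0 (φ a) (φ b))
    (hR : 1000 * (R + 1) ≤ T) (k : ℕ) :
    ∃ γ : V1 → C, Wt_Coord α1 A1 (Near G1 A1 R)
      (fun b => (lv_Coord (Nb_Coord G1 A1 φ R b) (k + 1) : ℤ) -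
        lv_Coord (Nb_Coord G1 A1 φ R b) k) γ := by
  obtain ⟨γ, hγ⟩ := label_Coord (fun (g : C) (S : Set V0) => α0 g '' S)
    (fun S => by simp) (fun g h S => by simp [Set.image_image])
  refine ⟨fun b => γ (Nb_Coord G1 A1 φ R b (lv_Coord (Nb_Coord G1 A1 φ R b) k)), ?_, ?_, ?_, ?_⟩
  · intro a ha b hb h
    have h1 := lv_near_Coord hF hφ ha hb h k
    have h2 := lv_near_Coord hF hφ ha hb h (k + 1)
    rw [abs_le]
    constructor <;> omega
  · intro g b hb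
    simp only [lv_eqv_Coord hA hE g hb]
  · intro g b hb
    simp only [lv_eqv_Coord hA hE g hb]
    rw [Nb_eqv_Coord hA hE g hb]
    refine hγ _ (fun g' hg' => ?_) g
    have hr := lv_le_Coord (Nb_Coord G1 A1 φ R b) k
    generalize lv_Coord (Nb_Coord G1 A1 φ R b) k = r at hr hg'
    have hfin : (Nb_Coord G1 A1 φ R b r).Finite := hF.1.subset (Nb_sub_Coord hφ hb r)
    refine hA0.free g' hfin.toFinset ⟨φ b, hfin.mem_toFinset.2 (Nb_self_Coord hb r)⟩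
      (by rw [hfin.coe_toFinset]; exact Nb_sub_Coord hφ hb r)
      (by rw [hfin.coe_toFinset]; exact Nb_clique_Coord hT hR hb hr) ?_
    apply Finset.coe_injective
    rw [Finset.coe_map, hfin.coe_toFinset]
    exact hg'
  · intro a ha b hb h hw
    have e := lv_const_Coord (F := Nb_Coord G1 A1 φ R b) (G := Nb_Coord G1 A1 φ R a)
      (fun r => hF.1.subset (Nb_sub_Coord hφ hb r))
      (fun r => hF.1.subset (Nb_sub_Coord hφ ha r)) (Nb_mono_Coord ha) (Nb_near_Coord h)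
      (Nb_near_Coord (Near.symm ha h)) (k := k) (by omega)
    simp only [e]

end

theorem coord : CoordStmt := by
  intro C _ _ V0 V1 G0 A0 α0 G1 A1 α1 φ R T t ht hA0 hF hA hφ hE hT hR
  obtain ⟨γ1, H1⟩ := wt_Coord hA0 hF hA hφ hE hT hR 1
  obtain ⟨γ2, H2⟩ := wt_Coord hA0 hF hA hφ hE hT hR 2
  obtain ⟨γ3, H3⟩ := wt_Coord hA0 hF hA hφ hE hT hR 3
  obtain ⟨γ4, H4⟩ := wt_Coord hA0 hF hA hφ hE hT hR 4
  obtain ⟨lam1, l1, a1, b1, c1, d1, e1⟩ := side_Coord ht H1 H2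
  obtain ⟨lam2, l2, a2, b2, c2, d2, e2⟩ := side_Coord ht H3 H4
  have p1 : ∀ b ∈ A1, Reg true ((lv_Coord (Nb_Coord G1 A1 φ R b) 3 : ℤ) - 200) →
      180 ≤ ((lv_Coord (Nb_Coord G1 A1 φ R b) (1 + 1) : ℤ) - lv_Coord (Nb_Coord G1 A1 φ R b) 1) +
        ((lv_Coord (Nb_Coord G1 A1 φ R b) (2 + 1) : ℤ) - lv_Coord (Nb_Coord G1 A1 φ R b) 2) := by
    intro b hb h
    have h1 := lv_one_Coord (G1 := G1) (R := R) hF hφ hb
    simp only [Reg, if_true] at h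
    norm_num only
    omega
  have p2 : ∀ b ∈ A1, Reg false ((lv_Coord (Nb_Coord G1 A1 φ R b) 3 : ℤ) - 200) →
      180 ≤ ((lv_Coord (Nb_Coord G1 A1 φ R b) (3 + 1) : ℤ) - lv_Coord (Nb_Coord G1 A1 φ R b) 3) +
        ((lv_Coord (Nb_Coord G1 A1 φ R b) (4 + 1) : ℤ) - lv_Coord (Nb_Coord G1 A1 φ R b) 4) := by
    intro b hb h
    have h1 := lv_five_Coord hF hφ hT hR hb
    simp only [Reg, Bool.false_eq_true, if_false] at h
    norm_num only
    omega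
  refine ⟨fun b => (lv_Coord (Nb_Coord G1 A1 φ R b) 3 : ℤ) - 200,
    fun s => cond s lam1 lam2, fun s => cond s l1 l2, ?_, ?_, ?_, ?_, ?_, ?_, ?_⟩
  · intro g b hb
    simp only [lv_eqv_Coord hA hE g hb]
  · intro a ha b hb h
    have h1 := lv_near_Coord hF hφ ha hb h 3
    rw [abs_le]
    constructor <;> omega
  · intro s g b hb _
    cases s
    · exact a2 g b hb
    · exact a1 g b hb
  · intro s g a ha b hb _ _ _
    cases s
    · exact b2 g a ha b hb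
    · exact b1 g a ha b hb
  · intro s a ha b hb _ h hab
    cases s
    · exact c2 a ha b hb (p2 b hb h) hab
    · exact c1 a ha b hb (p1 b hb h) hab
  · intro s a _ _
    cases s
    · exact d2 a
    · exact d1 a
  · intro s a ha b hb c hc _ h _ hab hbc
    cases s
    · exact e2 a ha b hb c hc (p2 b hb h) hab hbc
    · exact e1 a ha b hb c hc (p1 b hb h) hab hbc

end

end Pool.Agent.MP_6374aa_gt
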