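import Pool.Agent.MP_6374aa_gt.Defs

/-! Statement level definitions for arbitrary prime summands. -/

namespace Pool.Agent.MP_6374aa_gt

variable {V : Type}

/-- A triangulated closed oriented 3-manifold with its universal cover `E` and deck group `Λ`,
which is not a free product of two nontrivial groups. -/
structure Prime3 [Fintype V] (G : SimpleGraph V) where
  A : Set V
  closed : Closed3 G A
  E : Type
  [top : TopologicalSpace E]
  sc : SimplyConnectedSpace E
  Λ : Type
  [grp : Group Λ]
  [act : MulAction Λ E]
  p : E → Rl G A
  cov : IsQuotientCoveringMap p Λ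
  indec : ∀ (H K : Type) [Group H] [Group K], Nonempty (Λ ≃* Monoid.Coprod H K) →
    Subsingleton H ∨ Subsingleton K

attribute [instance] Prime3.top Prime3.grp Prime3.act

/-- Lens spaces: the universal cover is the 3-sphere and the deck group is finite cyclic and
acts linearly. -/
def IsLens [Fintype V] {G : SimpleGraph V} (P : Prime3 G) : Prop :=
  Finite P.Λ ∧ IsCyclic P.Λ ∧ ∃ (e : P.E ≃ₜ S3) (L : P.Λ → Matrix (Fin 4) (Fin 4) ℝ),
    ∀ g x, (e (g • x)).1 = (L g).mulVec (e x).1

/-- A flag no-square triangulation `Γ` of a closed oriented 3-manifold, together with a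
homeomorphism onto a connected sum of the manifolds `P i`. -/
structure Side2 where
  V : Type
  [finV : Fintype V]
  Γ : SimpleGraph V
  closed : Closed3 Γ Set.univ
  nosq : NoSquare Γ
  U : Type
  [finU : Fintype U]
  K : SimpleGraph U
  ι : Type
  P : ι → Prime3 K
  A : Set U
  sum : IsSum K (fun i => (P i).A) A Set.univ
  homeo : Rl Γ Set.univ ≃ₜ Rl K A

attribute [instance] Side2.finV Side2.finU

end Pool.Agent.MP_6374aa_gt
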