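import Pool.Agent.MP_6374aa_gt.IfD
import Pool.Agent.MP_6374aa_gt.Defs2

/-!
Internal definitions for the version with handles: phases of torsion, cap products, dual pairs,
free product data.
-/

namespace Pool.Agent.MP_6374aa_gt

open Classical Matrix

noncomputable section

variable {V V' V'' : Type}

/-! ### The involution, characters, phases -/

/-- The involution of the group ring. -/
def barR (C : Type) [CommGroup C] : RC C →+* RC C :=
  MonoidAlgebra.mapDomainRingHom ℚ (invMonoidHom : C →* C)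

theorem barR_barR {C : Type} [CommGroup C] (x : RC C) : barR C (barR C x) = x := by
  have h : (barR C).comp (barR C) = RingHom.id _ := by
    rw [barR, ← MonoidAlgebra.mapDomainRingHom_comp]
    have : (invMonoidHom : C →* C).comp invMonoidHom = MonoidHom.id C := by
      ext g
      simp
    rw [this, MonoidAlgebra.mapDomainRingHom_id]
  exact DFunLike.congr_fun h x

instance starRC (C : Type) [CommGroup C] : StarRing (RC C) where
  star := barR C
  star_involutive := barR_barR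
  star_mul x y := by
    change barR C (x * y) = barR C y * barR C x
    rw [map_mul, mul_comm]
  star_add x y := map_add (barR C) x y

/-- Nontrivial characters. -/
abbrev Chr (C : Type) [CommGroup C] : Type := {χ : C →* ℂˣ // χ ≠ 1}

abbrev RH (C : Type) [CommGroup C] : Type := Chr C → ℂ

/-- Evaluation at one character. -/
def evc {C : Type} [CommGroup C] (χ : C →* ℂˣ) : RC C →+* ℂ :=
  (MonoidAlgebra.lift ℚ ℂ C ((Units.coeHom ℂ).comp χ)).toRingHom

/-- Evaluation at all nontrivial characters. -/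
def evH (C : Type) [CommGroup C] : RC C →+* RH C := RingHom.pi fun χ : Chr C => evc χ.1

/-- Trivial phase. -/
def InP {C : Type} [CommGroup C] (u : RH C) : Prop :=
  ∃ (g : C) (s : ℂ), (s = 1 ∨ s = -1) ∧ ∀ χ : Chr C, ∃ r : ℝ, 0 < r ∧
    u χ = s * (χ.1 g : ℂ) * (r : ℂ)

/-- Equal phases. -/
def Sim {C : Type} [CommGroup C] (u τ : RH C) : Prop := ∃ w, InP w ∧ u = w * τ

/-! ### Dual pairs -/

section Mat

variable {S I J : Type} [CommRing S]

def d23 (J : Type) : J ⊕ J → ℕ := Sum.elim (fun _ => 2) fun _ => 3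

/-- The complex `D` with cells of degree two and three attached along `Z` and `Y`. -/
def cx2 (D : Matrix I I S) (Z Y : Matrix I J S) : Matrix (I ⊕ (J ⊕ J)) (I ⊕ (J ⊕ J)) S :=
  fromBlocks D (fromCols Z Y) 0 0

/-- The mapping cone of `Φ` with cells attached. -/
def cone {I' K : Type} (D : Matrix I I S) (Φ : Matrix I I' S) (Wm : Matrix I K S)
    (D' : Matrix I' I' S) (Z : Matrix I' K S) : Matrix (I ⊕ (I' ⊕ K)) (I ⊕ (I' ⊕ K)) S :=
  fromBlocks D (fromCols Φ Wm) 0 (-fromBlocks D' Z 0 0)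

def dcone {I' K : Type} (deg : I → ℕ) (deg' : I' → ℕ) (dz : K → ℕ) : I ⊕ (I' ⊕ K) → ℕ :=
  Sum.elim deg (Sum.elim (fun i => deg' i + 1) fun j => dz j + 1)

/-- Coordinate projections. -/
def dg (S : Type) [CommRing S] {X : Type} [DecidableEq X] (x : X → Bool) : Matrix X X S :=
  diagonal fun a => if x a then 1 else 0

variable [StarRing S] [Fintype I] [DecidableEq I] [Fintype J] [DecidableEq J]

/-- Cycles `Z` and cocycles `A` of degree one, dual to each other. -/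
structure DualPair (deg : I → ℕ) (D : Matrix I I S) (Z A : Matrix I J S) : Prop where
  dZ : ∀ i j, deg i ≠ 1 → Z i j = 0
  dA : ∀ i j, deg i ≠ 1 → A i j = 0
  cyc : D * Z = 0
  coc : Aᴴ * D = 0
  pair : Aᴴ * Z = 1

/-- The columns of `Z` span the homology in degree one. -/
def Spans (deg : I → ℕ) (D : Matrix I I S) (Z : Matrix I J S) : Prop :=
  ∀ x : I → S, (∀ i, deg i ≠ 1 → x i = 0) → D.mulVec x = 0 →
    ∃ (μ : J → S) (y : I → S), x = Z.mulVec μ + D.mulVec y

/-- A complex with a cap product matrix from cochains of degree one to chains of degree two. -/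
structure CapM (deg : I → ℕ) (D Γ : Matrix I I S) : Prop where
  cx : IsCx deg D
  le : ∀ i, deg i ≤ 3
  dΓ : ∀ i j, Γ i j ≠ 0 → deg i = 2 ∧ deg j = 1
  up : ∃ Γ2 : Matrix I I S, D * Γ = Γ2 * Dᴴ
  lo : ∃ Γ0 : Matrix I I S, (∀ i j, Γ0 i j ≠ 0 → deg i = 3 ∧ deg j = 0) ∧ Γ * Dᴴ = D * Γ0

end Mat

/-- The phase of the torsion with respect to dual bases is the phase of `τ`. -/
def ValM {C I : Type} [CommGroup C] [Fintype I] [DecidableEq I] (deg : I → ℕ)
    (D Γ : Matrix I I (RH C)) (τ : RH C) : Prop :=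
  ∃ (J : Type) (_ : Fintype J) (_ : DecidableEq J) (Z A : Matrix I J (RH C)) (u : RH C),
    DualPair deg D Z A ∧ IsTor (Sum.elim deg (d23 J)) (cx2 D Z (Γ * A)) u ∧ Sim u τ

/-! ### Controlled vanishing with an idempotent -/

section Van

variable {C B : Type} [CommGroup C]

def VanE (β : C →* Equiv.Perm B) (B0 : Set B) (ρ : B → B → Prop) {W : Type} [Fintype W]
    [DecidableEq W] (pW : W → B) (e : Matrix W W (RC C)) : Prop :=
  ∀ (I J : Type) [Fintype I] [DecidableEq I] [Fintype J] [DecidableEq J] (pI : I → B)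
    (pJ : J → B), (∀ i, pI i ∈ B0) → (∀ j, pJ j ∈ B0) →
    ∀ (Ψ : Matrix (J ⊕ W) (I ⊕ W) (RC C)) (Ψ' : Matrix (I ⊕ W) (J ⊕ W) (RC C)),
      Ctl β ρ (Sum.elim pI pW) (Sum.elim pJ pW) Ψ → Ctl β ρ (Sum.elim pJ pW) (Sum.elim pI pW) Ψ' →
      Ψ' * Ψ = fromBlocks 1 0 0 eᴴ → Ψ * Ψ' = fromBlocks 1 0 0 e →
      Ψ * fromBlocks 1 0 0 eᴴ = Ψ → Ψ' * fromBlocks 1 0 0 e = Ψ' → ∀ ε : I ≃ J,
      InP (evH C (det ((Ψ + fromBlocks 0 0 0 ((1 - e) * (1 - e)ᴴ)).submatrix
        (ε.sumCongr (Equiv.refl W)) id)))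

def VanishP (β : C →* Equiv.Perm B) (B0 : Set B) (ρ : B → B → Prop) : Prop :=
  ∀ (W : Type) [Fintype W] [DecidableEq W] (pW : W → B) (e : Matrix W W (RC C)),
    (∀ w, pW w ∈ B0) → e * e = e → Ctl β ρ pW pW e → Ctl β ρ pW pW eᴴ → VanE β B0 ρ pW e

end Van

/-! ### Cochains of degree one and cap products -/

/-- The scalar part. -/
def sc : EA V →ₗ[ℚ] ℚ := (ExteriorAlgebra.algebraMapInv : EA V →ₐ[ℚ] ℚ).toLinearMap

/-- The coefficients of a chain on oriented edges. -/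
def ef (x : EA V) (p q : V) : ℚ := sc (iv q (iv p x))

/-- Evaluation of an edge function on a chain. -/
def evE (a : V → V → ℚ) (z : EA V) : ℚ := ∑ᶠ e : V × V, a e.1 e.2 * ef z e.1 e.2 / 2

/-- Cocycles (only edges matter). -/
structure Coc (G : SimpleGraph V) (A : Set V) (a : V → V → ℚ) : Prop where
  anti : ∀ p ∈ A, ∀ q ∈ A, G.Adj p q → a q p = - a p q
  tri : ∀ p ∈ A, ∀ q ∈ A, ∀ r ∈ A, G.Adj p q → G.Adj q r → G.Adj p r → a p q + a q r = a p r
  self : ∀ p, a p p = 0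

/-- Finite support on edges. -/
def FS (G : SimpleGraph V) (A : Set V) (a : V → V → ℚ) : Prop :=
  {e : V × V | e.1 ∈ A ∧ e.2 ∈ A ∧ G.Adj e.1 e.2 ∧ a e.1 e.2 ≠ 0}.Finite

def cap1 (η : V → EA V) (a : V → V → ℚ) : EA V :=
  ∑ᶠ e : V × V, a e.1 e.2 • (vx e.2 * iv e.2 (η e.1))

def cap0 (η : V → EA V) (f : V → ℚ) : EA V := ∑ᶠ p : V, f p • (vx p * η p)

/-- The local classes of a chain. -/
def lc (ζ : EA V) (p : V) : EA V := iv p ζ

/-- A locally finite cycle of top degree, given by its local classes. -/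
structure Eta0 (G : SimpleGraph V) (A : Set V) (η : V → EA V) : Prop where
  lf : ∀ p ∈ A, (Lk G A {p}).Finite
  out : ∀ p, p ∉ A → η p = 0
  mem : ∀ p ∈ A, η p ∈ Zy G (Lk G A {p}) 3
  anti : ∀ p q, iv q (η p) = - iv p (η q)

/-- A locally finite fundamental cycle of a homology manifold. -/
structure Eta (G : SimpleGraph V) (A : Set V) (η : V → EA V) : Prop extends Eta0 G A η where
  loc : LocS G A 4
  ne : ∀ p ∈ A, η p ≠ 0

/-- The lift of local classes to a regular cover. -/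
def etaL {L : Type} [Group L] (lab : V → V → L) (η : V → EA V) (p : V × L) : EA (V × L) :=
  emap (fun u => (u, lab u p.1 * p.2)) (η p.1)

section Fin

variable {C : Type} [CommGroup C] [Fintype C]

/-- The pairing with values in the group ring. -/
def prR (α : C →* Equiv.Perm V) (a : V → V → ℚ) (z : EA V) : RC C :=
  ∑ g : C, MonoidAlgebra.single g (evE a (emap (α g⁻¹) z))

/-- The combination with coefficients in the column `j` of `M`. -/
def cmb (α : C →* Equiv.Perm V) {I J : Type} [Fintype I] (z : I → EA V) (M : Matrix I J (RC C))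
    (j : J) : EA V := ∑ i, act α (M i j) (z i)

/-- `Γ` is the matrix of the cap product. -/
def Frame.IsCap {G : SimpleGraph V} {A : Set V} {α : C →* Equiv.Perm V} (F : Frame G A α)
    (η : V → EA V) (Γ : Matrix F.I F.I (RC C)) : Prop :=
  ∀ j, F.ev (fun i => Γ i j) = if F.deg j = 1 then cap1 η (ef (wedge (F.s j))) else 0

/-- An invariant cycle of top degree. -/
def TopC (G : SimpleGraph V) (A : Set V) (α : C →* Equiv.Perm V) (ζ : EA V) : Prop :=
  ζ ∈ Zy G A 4 ∧ ∀ g, emap (α g) ζ = ζ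

def ValZ (G : SimpleGraph V) (A : Set V) (α : C →* Equiv.Perm V) (ζ : EA V) (τ : RH C) : Prop :=
  ∃ (F : Frame G A α) (D Γ : Matrix F.I F.I (RC C)), F.IsBd D ∧ F.IsCap (lc ζ) Γ ∧
    ValM F.deg (D.map (evH C)) (Γ.map (evH C)) τ

def Val2 (G : SimpleGraph V) (A : Set V) (α : C →* Equiv.Perm V) (τ : RH C) : Prop :=
  ∃ ζ, TopC G A α ζ ∧ ζ ≠ 0 ∧ ValZ G A α ζ τ

/-- Spanning families of a submodule of the homology in degree one and of its dual. -/
structure KData (G : SimpleGraph V) (A : Set V) (α : C →* Equiv.Perm V) (ζ : EA V) {W : Type}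
    [Fintype W] (z1 z2 a : W → EA V) (e : Matrix W W (RC C)) : Prop where
  h1 : ∀ j, z1 j ∈ Zy G A 2
  h2 : ∀ j, z2 j ∈ Zy G A 3
  ha : ∀ j, a j ∈ Ch G A 2
  coc : ∀ j, Coc G A (ef (a j))
  pair : ∀ i j, prR α (ef (a i)) (z1 j) = e i j
  cap : ∀ j, cap1 (lc ζ) (ef (a j)) - z2 j ∈ Bd G A 3
  idem : e * e = e
  fix1 : ∀ j, cmb α z1 e j = z1 j
  fix2 : ∀ j, cmb α z2 eᴴ j = z2 j
  rel1 : ∀ μ : W → RC C, ∑ j, act α (μ j) (z1 j) ∈ Bd G A 2 → e.mulVec μ = 0
  rel2 : ∀ μ : W → RC C, ∑ j, act α (μ j) (z2 j) ∈ Bd G A 3 → eᴴ.mulVec μ = 0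

/-- Located dual bases of the kernel of a collapse. -/
structure DF (G' : SimpleGraph V') (A' : Set V') (α' : C →* Equiv.Perm V') (ζ' : EA V')
    (G : SimpleGraph V) (A : Set V) (c : V' → V) {W : Type} [Fintype W] [DecidableEq W]
    (ν y a : W → EA V') (loc : W → V) : Prop where
  kd : KData G' A' α' ζ' ν y a 1
  mem : ∀ j, loc j ∈ A
  l1 : ∀ j, ν j ∈ Zy G' (A' ∩ c ⁻¹' {loc j}) 2
  l2 : ∀ j, y j ∈ Zy G' (A' ∩ c ⁻¹' {loc j}) 3
  k1 : ∀ w ∈ Zy G' A' 2, emap c w ∈ Bd G A 2 →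
    ∃ μ : W → RC C, w - ∑ j, act α' (μ j) (ν j) ∈ Bd G' A' 2
  k2 : ∀ w ∈ Zy G' A' 3, emap c w ∈ Bd G A 3 →
    ∃ μ : W → RC C, w - ∑ j, act α' (μ j) (y j) ∈ Bd G' A' 3

end Fin

/-- Injectivity on homology in degrees one and two. -/
def HInj (G' : SimpleGraph V') (A' : Set V') (G : SimpleGraph V) (A : Set V) (c : V' → V) :
    Prop :=
  ∀ n, n = 2 ∨ n = 3 → ∀ z ∈ Zy G' A' n, emap c z ∈ Bd G A n → z ∈ Bd G' A' n

/-! ### Frames for arbitrary abelian groups -/

section Gen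

variable {C : Type} [CommGroup C]

def actG (α : C →* Equiv.Perm V) (r : RC C) (z : EA V) : EA V :=
  r.coeff.sum fun g c => c • emap (α g) z

namespace Frame

variable {G : SimpleGraph V} {A : Set V} {α : C →* Equiv.Perm V} (F : Frame G A α)

def evG (x : F.I → RC C) : EA V := ∑ i, actG α (x i) (wedge (F.s i))

def IsBdG (D : Matrix F.I F.I (RC C)) : Prop :=
  ∀ j, F.evG (fun i => D i j) = if F.deg j = 0 then 0 else bd (wedge (F.s j))

def IsCapG (η : V → EA V) (Γ : Matrix F.I F.I (RC C)) : Prop :=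
  ∀ j, F.evG (fun i => Γ i j) = if F.deg j = 1 then cap1 η (ef (wedge (F.s j))) else 0

end Frame

end Gen

abbrev Zm : Type := Multiplicative ℤ

/-- The closed star. -/
def cst (G : SimpleGraph V) (A : Set V) (v : V) : Set V := insert v (Lk G A {v})

/-- The first homology of the infinite cyclic cover relative to the lifts of the star of `v` is
torsion free. -/
def TF (G : SimpleGraph V) (M : Set V) (v : V) (lz : V → V → Zm) : Prop :=
  ∀ z ∈ Ch (cov G lz Zm) (up M Zm) 2, bd z ∈ Ch (cov G lz Zm) (up (cst G M v) Zm) 1 →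
    ∀ r : RC Zm, r ≠ 0 →
      actG (deck V (MonoidHom.id Zm)) r z ∈
        Ch (cov G lz Zm) (up (cst G M v) Zm) 2 ⊔ Bd (cov G lz Zm) (up M Zm) 2 →
      z ∈ Ch (cov G lz Zm) (up (cst G M v) Zm) 2 ⊔ Bd (cov G lz Zm) (up M Zm) 2

/-! ### Free product data -/

/-- `H` is the free product of the groups `Λ x` and the free group on the elements `t s`. -/
structure FP {π : Type} [Group π] (H : Subgroup π) {X S : Type} (Λ : X → Subgroup π)
    (t : S → π) : Prop where
  le : ∀ x, Λ x ≤ H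
  mem : ∀ s, t s ∈ H
  gen : H ≤ Subgroup.closure ((⋃ x, (Λ x : Set π)) ∪ Set.range t)
  ext : ∀ (L : Type) [Group L] (f : ∀ x, Λ x →* L) (g : S → L),
    ∃ ρ : π →* L, (∀ x (δ : Λ x), ρ δ = f x δ) ∧ ∀ s, ρ (t s) = g s
  ne : ∀ x, Λ x ≠ ⊥
  hasE : ∀ x, HasE (Λ x)

/-- `ψ` maps `Λ'` isomorphically onto a conjugate of `Λ`. -/
def Mt {π π' : Type} [Group π] [Group π'] (ψ : π' →* π) (H : Subgroup π) (Λ' : Subgroup π')
    (Λ : Subgroup π) : Prop :=
  (∀ δ ∈ Λ', ψ δ = 1 → δ = 1) ∧ ∃ k ∈ H, (∀ δ ∈ Λ', k⁻¹ * ψ δ * k ∈ Λ) ∧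
    ∀ δ ∈ Λ, ∃ δ' ∈ Λ', k⁻¹ * ψ δ' * k = δ

/-- A surjection under which every factor is matched or killed. -/
structure GDa {π π' : Type} [Group π] [Group π'] (ψ : π' →* π) (H' : Subgroup π')
    (H : Subgroup π) {X X' : Type} (Λ' : X' → Subgroup π') (Λ : X → Subgroup π) (j : X → X') :
    Prop where
  map : ∀ δ ∈ H', ψ δ ∈ H
  onto : ∀ δ ∈ H, ∃ δ' ∈ H', ψ δ' = δ
  inj : Function.Injective j
  mat : ∀ x, Mt ψ H (Λ' (j x)) (Λ x)
  kill : ∀ x', x' ∉ Set.range j → ∀ δ ∈ Λ' x', ψ δ = 1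

/-- A free product decomposition of the edge path group. -/
structure GP (G : SimpleGraph V) (A : Set V) where
  X : Type
  [finX : Fintype X]
  S : Type
  [finS : Fintype S]
  y : V
  Λ : X → Subgroup (Gp G A)
  t : S → Gp G A
  fin3 : Fin3 G A
  conn : PConn G A
  mem : y ∈ A
  fp : FP (Loop G A y) Λ t

attribute [instance] GP.finX GP.finS

/-- The homomorphism induced by `f`, transported along `γ`. -/
def gcj (G' : SimpleGraph V') (A' : Set V') (G : SimpleGraph V) (A : Set V) (f : V' → V)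
    (γ : Gp G A) : Gp G' A' →* Gp G A :=
  (MulAut.conj γ⁻¹).toMonoidHom.comp (gmap G' A' G A f)

def GD {G' : SimpleGraph V'} {A' : Set V'} {G : SimpleGraph V} {A : Set V} (f : V' → V)
    (P' : GP G' A') (P : GP G A) (j : P.X → P'.X) : Prop :=
  IsHom G' A' G A f ∧ ∃ γ, Path G A (f P'.y) P.y γ ∧
    GDa (gcj G' A' G A f γ) (Loop G' A' P'.y) (Loop G A P.y) P'.Λ P.Λ j

def GQ (G' : SimpleGraph V') (A' : Set V') (G : SimpleGraph V) (A : Set V) (c : V' → V) : Prop :=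
  ∀ P : GP G A, ∃ (P' : GP G' A') (j : P.X → P'.X), GD c P' P j

/-- The lifts to finite covers are collapses and preserve connectedness. -/
def CovL (G' : SimpleGraph V') (A' : Set V') (G : SimpleGraph V) (A : Set V) (c : V' → V) :
    Prop :=
  IsHom G' A' G A c ∧ ∀ (L : Type) [Group L] [Finite L] (lab : V → V → L), Flat G A lab →
    Loc (cov G' (fun u w => lab (c u) (c w)) L) (up A' L) (cov G lab L) (up A L) (lift1 c L) ∧
    (PConn (cov G lab L) (up A L) → PConn (cov G' (fun u w => lab (c u) (c w)) L) (up A' L))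

/-- The lifts to finite covers are injective on homology. -/
def CovI (G' : SimpleGraph V') (A' : Set V') (G : SimpleGraph V) (A : Set V) (c : V' → V) :
    Prop :=
  ∀ (L : Type) [Group L] [Finite L] (lab : V → V → L), Flat G A lab →
    HInj (cov G' (fun u w => lab (c u) (c w)) L) (up A' L) (cov G lab L) (up A L) (lift1 c L)

/-- The class of maps used for subdivisions. -/
structure QS (G' : SimpleGraph V') (A' : Set V') (G : SimpleGraph V) (A : Set V) (c : V' → V) :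
    Prop where
  se : SE G' A' G A c
  cl : CovL G' A' G A c
  ci : CovI G' A' G A c
  fin : Fin3 G' A'

/-- The value on the cyclic cover given by a labelling. -/
def ValC (G : SimpleGraph V) (A : Set V) (p : ℕ) [NeZero p] (lab : V → V → Cp p)
    (τ : RH (Cp p)) : Prop :=
  Val2 (cov G lab (Cp p)) (up A (Cp p)) (deck V (MonoidHom.id (Cp p))) τ

/-- The values on connected cyclic covers are preserved. -/
def CovV (G' : SimpleGraph V') (A' : Set V') (G : SimpleGraph V) (A : Set V) (f : V' → V) :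
    Prop :=
  ∀ (p : ℕ) [NeZero p], 5 ≤ p → ∀ lab : V → V → Cp p, Flat G A lab →
    PConn (cov G lab (Cp p)) (up A (Cp p)) →
    ∀ τ, ValC G' A' p (fun u w => lab (f u) (f w)) τ ↔ ValC G A p lab τ

/-! ### Types of sites -/

def lensH (p : ℕ) [NeZero p] (a b : (ZMod p)ˣ) : RH (Cp p) :=
  evH (Cp p) ((tp p (a⁻¹ : (ZMod p)ˣ) - 1) * (tp p (b⁻¹ : (ZMod p)ˣ) - 1))

/-- The trace of the `k`-th power of the rotation. -/
def tr2 (p : ℕ) (a b : (ZMod p)ˣ) (k : ZMod p) : ℝ :=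
  2 * Real.cos (2 * Real.pi * (((a : ZMod p) * k).val : ℝ) / p) +
    2 * Real.cos (2 * Real.pi * (((b : ZMod p) * k).val : ℝ) / p)

/-- `ρ` unwraps exactly the site `x`. -/
structure Unw {G : SimpleGraph V} {A : Set V} (P : GP G A) (x : P.X) {L : Type} [Group L]
    (ρ : Gp G A →* L) : Prop where
  inj : ∀ δ ∈ P.Λ x, ρ δ = 1 → δ = 1
  surj : ∀ l, ∃ δ ∈ P.Λ x, ρ δ = l
  kill : ∀ y, y ≠ x → ∀ δ ∈ P.Λ y, ρ δ = 1

def Cov2 {G : SimpleGraph V} {A : Set V} (P : GP G A) (x : P.X) (χ : P.Λ x → ℝ) : Prop :=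
  ∀ (p : ℕ) [NeZero p], 5 ≤ p → ∀ ρ : Gp G A →* Cp p, Unw P x ρ →
    ∃ a b : (ZMod p)ˣ, (∀ δ : P.Λ x, χ δ = tr2 p a b (ρ δ).toAdd) ∧
      ValC G A p (fun u w => ρ (gen G A u w)) (lensH p a b)

/-- The site `x` has group `L`, and trace function `χ` if `l` holds. -/
def SiteOf2 {G : SimpleGraph V} {A : Set V} (P : GP G A) (x : P.X) (L : Type) [Group L]
    (l : Prop) (χ : L → ℝ) : Prop :=
  ∃ θ : P.Λ x ≃* L, l → Cov2 P x fun δ => χ (θ δ)

/-- All sites have a type in the family, and free generators come from infinite cyclic types. -/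
def Typed2 {ι : Type} {G : SimpleGraph V} {A : Set V} (Q : GP G A) (Λ : ι → Type)
    [∀ i, Group (Λ i)] (l : ι → Prop) (χ : ∀ i, Λ i → ℝ) : Prop :=
  (∀ x, ∃ i, SiteOf2 Q x (Λ i) (l i) (χ i)) ∧ (Nonempty Q.S → ∃ i, Nonempty (Λ i ≃* Zm))

/-- The type occurs. -/
def Occ {G : SimpleGraph V} {A : Set V} (Q : GP G A) (L : Type) [Group L] (l : Prop)
    (χ : L → ℝ) : Prop :=
  Nontrivial L → (∃ x, SiteOf2 Q x L l χ) ∨ (Nonempty (L ≃* Zm) ∧ Nonempty Q.S)

end

end Pool.Agent.MP_6374aa_gt
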