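import Pool.Agent.MP_6374aa_gt.Core3

/-!
Internal definitions: explicit matrices of covers, controlled idempotents, van Kampen data.
-/

namespace Pool.Agent.MP_6374aa_gt

open Classical Matrix

noncomputable section

variable {V V' : Type}

/-! ### Explicit matrices of regular abelian covers -/

/-- A chosen vertex of a simplex. -/
def hd (v0 : V) (σ : Finset V) : V := if h : σ.Nonempty then h.choose else v0

/-- The coefficient of the simplex `σ`. -/
def cf (σ : Finset V) (z : EA V) : ℚ := sc (σ.toList.foldl (fun w u => iv u w) z)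

/-- The incidence numbers. -/
def bD (τ σ : Finset V) : ℚ := cf τ (bd (wedge σ.toList))

/-- The coefficients of the cap product. -/
def bG (η : V → EA V) (τ σ : Finset V) : ℚ := cf τ (cap1 η (ef (wedge σ.toList)))

/-- The rational incidence matrix. -/
def bM {I J : Type} (σ : I → Finset V) (τ : J → Finset V) : Matrix I J ℚ :=
  Matrix.of fun i j => bD (σ i) (τ j)

/-- `σ` enumerates the set `X` of simplices. -/
def Enum {I : Type} (σ : I → Finset V) (X : Set (Finset V)) : Prop :=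
  Function.Injective σ ∧ Set.range σ = X

def dgc {I : Type} (σ : I → Finset V) (i : I) : ℕ := (σ i).card - 1

section Tw

variable {C : Type} [CommGroup C]

/-- The twisted matrix. -/
def tw (v0 : V) (lab : V → V → C) (N : Finset V → Finset V → ℚ) {I J : Type} (σ : I → Finset V)
    (τ : J → Finset V) : Matrix I J (RC C) :=
  Matrix.of fun i j => MonoidAlgebra.single (lab (hd v0 (τ j)) (hd v0 (σ i))) (N (σ i) (τ j))

/-- The chosen lift of a simplex. -/
def sl (v0 : V) (lab : V → V → C) (σ : Finset V) : List (V × C) :=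
  σ.toList.map fun u => (u, lab u (hd v0 σ))

/-- The deck group acting on its regular cover. -/
abbrev dk (V C : Type) [CommGroup C] : C →* Equiv.Perm (V × C) := deck V (MonoidHom.id C)

/-- The chain of the cover with coordinates `x`. -/
def evT (v0 : V) (lab : V → V → C) {I : Type} [Fintype I] (σ : I → Finset V) (x : I → RC C) :
    EA (V × C) := ∑ i, actG (dk V C) (x i) (wedge (sl v0 lab (σ i)))

end Tw

/-! ### Small matrix constructions -/

section Mat

variable {S I : Type} [CommRing S]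

/-- The complex `D` with one cell of degree four attached along `w`. -/
def ext1 (D : Matrix I I S) (w : I → S) : Matrix (I ⊕ Unit) (I ⊕ Unit) S :=
  fromBlocks D (Matrix.of fun i _ => w i) 0 0

def dg4 (deg : I → ℕ) : I ⊕ Unit → ℕ := Sum.elim deg fun _ => 4

/-- The vector `x` has degree `n`. -/
def Dg (deg : I → ℕ) (n : ℕ) (x : I → S) : Prop := ∀ i, deg i ≠ n → x i = 0

/-- The boundary matrix of a union along the common part `L`. -/
def mvD {P L X : Type} (dPP : Matrix P P S) (dLP : Matrix L P S) (dLL : Matrix L L S)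
    (dLX : Matrix L X S) (dXX : Matrix X X S) : Matrix (P ⊕ (L ⊕ X)) (P ⊕ (L ⊕ X)) S :=
  fromBlocks dPP 0 (fromRows dLP 0) (fromBlocks dLL dLX 0 dXX)

variable [StarRing S] [Fintype I] [DecidableEq I]

/-- Dual bases of a complex with vanishing homology in degree zero. -/
structure SideP {K : Type} [Fintype K] [DecidableEq K] (deg : I → ℕ) (d : Matrix I I S)
    (Z A : Matrix I K S) : Prop where
  cx : IsCx deg d
  dp : DualPair deg d Z A
  sp : Spans deg d Z
  h0 : ∀ x, Dg deg 0 x → ∃ y, Dg deg 1 y ∧ d.mulVec y = x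
  cob : ∀ b, Dg deg 1 b → dᴴ.mulVec b = 0 → Zᴴ.mulVec b = 0 → ∃ g, Dg deg 0 g ∧ b = dᴴ.mulVec g

end Mat

/-- The standing hypotheses on the second summand of a graft. -/
structure SideH (G : SimpleGraph V) (M : Set V) (v : V) (lz : V → V → Zm) (ζ : EA V) {L Q : Type}
    (σL : L → Finset V) (σQ : Q → Finset V) : Prop where
  mf : Mf G M
  mem : v ∈ M
  flat : Flat G M lz
  one : ∀ a ∈ cst G M v, ∀ b ∈ cst G M v, Adq G a b → lz a b = 1
  top : ζ ∈ Zy G M 4
  ne : ζ ≠ 0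
  eL : Enum σL (sdA G (Lk G M {v}))
  eQ : Enum σQ {σ | σ ∈ sdA G M ∧ ¬ ↑σ ⊆ cst G M v}

/-! ### Controlled idempotents -/

section Idem

variable {C : Type} [CommGroup C] [Fintype C]

/-- The idempotent `e` describes the kernel of `f` inside the span of located dual bases. -/
structure IdE (G' : SimpleGraph V') (A' : Set V') (α' : C →* Equiv.Perm V') (ζ' : EA V')
    (G : SimpleGraph V) (A : Set V) (f : V' → V) {U : Type} (c : V' → U) (γ : C →* Equiv.Perm U)
    {W : Type} [Fintype W] (ν y a : W → EA V') (loc : W → U) (e : Matrix W W (RC C)) : Prop where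
  kd : KData G' A' α' ζ' (cmb α' ν e) (cmb α' y eᴴ) (cmb α' a eᴴ) e
  b1 : ∀ j, emap f (cmb α' ν e j) ∈ Bd G A 2
  b2 : ∀ j, emap f (cmb α' y eᴴ j) ∈ Bd G A 3
  k1 : ∀ μ : W → RC C, emap f (∑ j, act α' (μ j) (ν j)) ∈ Bd G A 2 → e.mulVec μ = μ
  k2 : ∀ μ : W → RC C, emap f (∑ j, act α' (μ j) (y j)) ∈ Bd G A 3 → eᴴ.mulVec μ = μ
  ctl : ∀ i j g, (e i j).coeff g ≠ 0 → (i = j ∧ g = 1) ∨
    ∃ p ∈ A', ∃ q ∈ A', c q = γ g (loc i) ∧ c p = loc j ∧ f p = f q

/-- Control data with an idempotent. -/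
structure Geo2 {B : Type} (G : SimpleGraph V) (A : Set V) (α : C →* Equiv.Perm V)
    (G' : SimpleGraph V') (A' : Set V') (α' : C →* Equiv.Perm V') (f : V' → V)
    (β : C →* Equiv.Perm B) (B0 : Set B) (St : ℕ → B → Set V) (pos : Finset V → B) {W : Type}
    [Fintype W] [DecidableEq W] (z1 z2 : W → EA V') (pz : W → B) (w : W ⊕ W → EA V)
    (e : Matrix W W (RC C)) : Prop where
  geo : Geo G A α G' A' α' f β B0 St pos (Sum.elim z1 z2) (d23 W) (Sum.elim pz pz) w
  fix : ∀ j, cmb α w (fromBlocks e 0 0 eᴴ) j = w j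
  c1 : Ctl β (fun a b => St 0 a ⊆ St 1 b) pz pz e
  c2 : Ctl β (fun a b => St 0 a ⊆ St 1 b) pz pz eᴴ
  van : VanE β B0 (fun a b => St 0 a ⊆ St 100 b) pz eᴴ
  tr : ∃ r : ℚ, e.trace = MonoidAlgebra.single 1 r

end Idem

/-- Van Kampen data of a graft, based at the centre. -/
structure VK2 (G : SimpleGraph V) (A M B : Set V) (v l : V) (i1 : Gp G A →* Gp G B)
    (i2 : Gp G M →* Gp G B) (Pp : V → Gp G B) : Prop where
  mem : l ∈ B
  e1 : ∀ a ∈ A \ {v}, ∀ b ∈ A \ {v}, Adq G a b →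
    i1 (gen G A a b) = Pp a * gen G B a b * (Pp b)⁻¹
  e2 : ∀ a ∈ M \ {v}, ∀ b ∈ M \ {v}, Adq G a b →
    i2 (gen G M a b) = Pp a * gen G B a b * (Pp b)⁻¹
  c1 : ∀ a ∈ cst G A v, ∀ b ∈ cst G A v, Adq G a b → i1 (gen G A a b) = 1
  c2 : ∀ a ∈ cst G M v, ∀ b ∈ cst G M v, Adq G a b → i2 (gen G M a b) = 1
  l1 : ∀ δ ∈ Loop G A v, i1 δ ∈ Loop G B l
  l2 : ∀ δ ∈ Loop G M v, i2 δ ∈ Loop G B l
  gn : Loop G B l ≤ (Loop G A v).map i1 ⊔ (Loop G M v).map i2
  ext : ∀ (L : Type) [Group L] (ρ1 : Gp G A →* L) (ρ2 : Gp G M →* L), ∃ ρ : Gp G B →* L,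
    (∀ δ ∈ Loop G A v, ρ (i1 δ) = ρ1 δ) ∧ ∀ δ ∈ Loop G M v, ρ (i2 δ) = ρ2 δ
  p1 : ∃ γ, Path G A (col A v l) v γ ∧
    (∀ δ ∈ Loop G A v, gcj G B G A (col A v) γ (i1 δ) = δ) ∧
    ∀ δ ∈ Loop G M v, gcj G B G A (col A v) γ (i2 δ) = 1
  p2 : ∃ γ, Path G M (col M v l) v γ ∧
    (∀ δ ∈ Loop G M v, gcj G B G M (col M v) γ (i2 δ) = δ) ∧
    ∀ δ ∈ Loop G A v, gcj G B G M (col M v) γ (i1 δ) = 1
  conn : PConn G A → PConn G M → PConn G B

/-- The types of the sites of `P` pass to `P'` along `j`. -/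
def Pass {G : SimpleGraph V} {A : Set V} {G' : SimpleGraph V'} {A' : Set V'} (P : GP G A)
    (P' : GP G' A') (j : P.X → P'.X) : Prop :=
  ∀ (x : P.X) (L : Type) [Group L] (l : Prop) (χ : L → ℝ),
    SiteOf2 P x L l χ → SiteOf2 P' (j x) L l χ

/-- The trace data of a summand. -/
def Chi2 [Fintype V] {G : SimpleGraph V} (P : Prime3 G) (χ : P.Λ → ℝ) : Prop :=
  IsLens P → ∃ (e : P.E ≃ₜ S3) (L : P.Λ → Matrix (Fin 4) (Fin 4) ℝ),
    (∀ g x, (e (g • x)).1 = (L g).mulVec (e x).1) ∧ ∀ g, χ g = (L g).trace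

end

end Pool.Agent.MP_6374aa_gt
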