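import Pool.Agent.MP_6374aa_gt.IfQ

/-! The value of a cyclic cover computed from the twisted matrices. -/

namespace Pool.Agent.MP_6374aa_gt

open Classical Matrix

theorem tw_smul_CovFrame {V C I : Type} [CommGroup C] (v0 : V) (lab : V → V → C)
    (σ : I → Finset V) (η : V → EA V) (r : ℚ) :
    (tw v0 lab (bG fun p => r • η p) σ σ).map (evH C) =
      r • (tw v0 lab (bG η) σ σ).map (evH C) := by
  ext i j χ
  simp only [Matrix.map_apply, Matrix.smul_apply, Pi.smul_apply, tw, Matrix.of_apply, evH_apply,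
    evc_single, bG_smul]
  rw [Rat.smul_def, Rat.cast_mul, mul_assoc]

theorem covFrameS (hA : ValAny2Stmt) (hS : ValScaleStmt) : CovFrameStmt := by
  intro p _ V I _ _ G A v0 lab σ ζ hM hl hσ hζ h0
  have hact : Act (cov G lab (Cp p)) (up A (Cp p)) (dk V (Cp p)) :=
    (freeAct_deck (ψ := MonoidHom.id _) fun _ _ h => h).toAct
  have hdeg := covFrame_deg (v0 := v0) hl hσ
  have hD := covFrame_isBd (v0 := v0) hl hσ
  obtain ⟨ζ', z1, z2, z3, z4⟩ := exists_top_lift hM.1 hl hζ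
  have hT : TopC (cov G lab (Cp p)) (up A (Cp p)) (dk V (Cp p)) ζ' := ⟨z1, z4 _ _⟩
  have hΓ : (covFrame v0 hl hσ).IsCap (lc ζ') (tw v0 lab (bG (lc ζ)) σ σ) := by
    rw [z2]
    exact covFrame_isCap hl hσ (eta0_lc hM.1 hζ)
  refine ⟨?_, fun τ => ⟨?_, fun h => ?_⟩⟩
  · rw [← hdeg]
    exact (Frame.capM hact (Fin3.cov hl (mfBasic V G A hM).1) hT hD hΓ).map _ evH_star
  · rintro ⟨ζ'', hT', hne, hV⟩
    obtain ⟨ζ0, y1, y2⟩ := exists_top_base hM.1 hl hT'.1 hT'.2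
    obtain ⟨r, rfl⟩ := hM.top_smul hζ h0 y1
    have hr : r ≠ 0 := by
      rintro rfl
      refine hne (lc_inj (mem_Zy.1 hT'.1).1 (Submodule.zero_mem _) ?_)
      rw [y2, zero_smul]
      funext q
      simp [etaL, lc]
    have hΓ' : (covFrame v0 hl hσ).IsCap (lc ζ'') (tw v0 lab (bG (lc (r • ζ))) σ σ) := by
      rw [y2]
      exact covFrame_isCap hl hσ (eta0_lc hM.1 y1)
    have h1 : ValM (covFrame v0 hl hσ).deg ((tw v0 lab bD σ σ).map (evH (Cp p)))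
        ((tw v0 lab (bG (lc (r • ζ))) σ σ).map (evH (Cp p))) τ :=
      hA _ _ _ _ _ _ τ hact hT' hV (covFrame v0 hl hσ) _ _ hD hΓ'
    rw [hdeg] at h1
    have h2 := hS (Cp p) I _ _ _ τ r⁻¹ (inv_ne_zero hr) h1
    rwa [lc_smul, tw_smul_CovFrame, smul_smul, inv_mul_cancel₀ hr, one_smul] at h2
  · refine ⟨ζ', hT, z3 h0, covFrame v0 hl hσ, _, _, hD, hΓ, ?_⟩
    rw [hdeg]
    exact h

end Pool.Agent.MP_6374aa_gt
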