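import Pool.Agent.MP_6374aa_gt.IfT

/-! The system of covers of an interleaved system. -/

namespace Pool.Agent.MP_6374aa_gt

open Classical

section

variable {V0 V1 Λ : Type} [Group Λ] {G0 : SimpleGraph V0} {A0 : Set V0} {G1 : SimpleGraph V1}
  {A1 : Set V1} {lab : V0 → V0 → Λ} {T : ℕ}

theorem near_CovSys {f : V1 → V0} (h : Flat G0 A0 lab) (hf : IsHom G1 A1 G0 A0 f)
    (hb : ∀ a ∈ A1, ∀ b ∈ A1, Near G1 A1 T a b → Adq G0 (f a) (f b)) {q : V1 × Λ}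
    (hq : q.1 ∈ A1) : ∀ n ≤ T, ∀ p : V1 × Λ, p.1 ∈ A1 →
      Near (cov G1 (fun u w => lab (f u) (f w)) Λ) (up A1 Λ) n p q →
      Near G1 A1 n p.1 q.1 ∧ p.2 = lab (f p.1) (f q.1) * q.2 := by
  intro n
  induction n with
  | zero =>
    intro _ p hp e
    obtain rfl : p = q := e
    exact ⟨rfl, by rw [h.self (hf.1 _ hp), one_mul]⟩
  | succ n ih =>
    rintro hn p hp ⟨r, hr, a, b⟩
    obtain ⟨b1, b2⟩ := ih (by omega) r hr b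
    obtain ⟨a1, a2⟩ := (cov_adq (h.pull hf) (u := p.1) (w := r.1) (ω := p.2) (ω' := r.2) hp hr).1 a
    have c1 : Near G1 A1 (n + 1) p.1 q.1 := ⟨r.1, hr, a1, b1⟩
    refine ⟨c1, ?_⟩
    rw [a2, b2, smul_eq_mul, ← mul_assoc, h _ (hf.1 _ hp) _ (hf.1 _ hr) _ (hf.1 _ hq)
      (hf.adq hp hr a1) (hb _ hr _ hq (b1.mono hr (by omega))) (hb _ hp _ hq (c1.mono hp hn))]

variable {f c : V1 → V0}

theorem sc_CovSys (h : Flat G0 A0 lab) (hf : IsHom G1 A1 G0 A0 f) (hc : IsHom G1 A1 G0 A0 c)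
    (hb : ∀ a ∈ A1, ∀ b ∈ A1, Near G1 A1 T a b → Adq G0 (f a) (f b))
    (hs : ∀ a ∈ A1, ∀ b ∈ A1, Near G1 A1 T a b → Adq G0 (c a) (f b)) {p q : V1 × Λ}
    (hp : p.1 ∈ A1) (hq : q.1 ∈ A1)
    (e : Near (cov G1 (fun u w => lab (f u) (f w)) Λ) (up A1 Λ) T p q) :
    Adq (cov G0 lab Λ) (c p.1, lab (c p.1) (f p.1) * p.2) (f q.1, q.2) := by
  obtain ⟨a1, a2⟩ := near_CovSys h hf hb hq T le_rfl p hp e
  refine (cov_adq h (hc.1 _ hp) (hf.1 _ hq)).2 ⟨hs _ hp _ hq a1, ?_⟩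
  rw [a2, smul_eq_mul, ← mul_assoc, h _ (hc.1 _ hp) _ (hf.1 _ hp) _ (hf.1 _ hq)
    (hs _ hp _ hp (Near.refl hp T)) (hb _ hp _ hq a1) (hs _ hp _ hq a1)]

theorem hom_CovSys (h : Flat G0 A0 lab) (hf : IsHom G1 A1 G0 A0 f) (hc : IsHom G1 A1 G0 A0 c)
    (hs : ∀ a ∈ A1, ∀ b ∈ A1, Adq G1 a b → Adq G0 (c a) (f b)) :
    IsHom (cov G1 (fun u w => lab (f u) (f w)) Λ) (up A1 Λ) (cov G0 lab Λ) (up A0 Λ)
      fun p => (c p.1, lab (c p.1) (f p.1) * p.2) := by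
  refine ⟨fun p hp => hc.1 p.1 hp, fun p hp q hq e => ?_⟩
  have a1 : Adq G1 p.1 q.1 := Or.inr e.1
  have a2 : p.2 = lab (f p.1) (f q.1) * q.2 := e.2.1
  refine (cov_adq h (hc.1 _ hp) (hc.1 _ hq)).2 ⟨hc.adq hp hq a1, ?_⟩
  rw [a2, smul_eq_mul, ← mul_assoc, ← mul_assoc, h _ (hc.1 _ hp) _ (hf.1 _ hp) _ (hf.1 _ hq)
    (hs _ hp _ hp (Adq.refl _ _)) (hf.adq hp hq a1) (hs _ hp _ hq a1),
    h _ (hc.1 _ hp) _ (hc.1 _ hq) _ (hf.1 _ hq) (hc.adq hp hq a1) (hs _ hq _ hq (Adq.refl _ _))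
      (hs _ hp _ hq a1)]

theorem gauge_CovSys (h : Flat G0 A0 lab) (hf : IsHom G1 A1 G0 A0 f) (hc : IsHom G1 A1 G0 A0 c)
    (hs : ∀ a ∈ A1, ∀ b ∈ A1, Adq G1 a b → Adq G0 (c a) (f b)) :
    IsIso (cov G1 (fun u w => lab (f u) (f w)) Λ) (up A1 Λ)
      (cov G1 (fun u w => lab (c u) (c w)) Λ) (up A1 Λ)
      fun p => (p.1, (lab (f p.1) (c p.1))⁻¹ • p.2) := by
  refine cov_gauge_iso (h.pull hc) (k := fun u => lab (f u) (c u)) fun u hu w hw a => ?_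
  have b1 := (hs _ hw _ hu a.symm).symm
  have b2 := (hs _ hw _ hw (Adq.refl _ _)).symm
  rw [h _ (hf.1 _ hu) _ (hc.1 _ hu) _ (hc.1 _ hw) (hs _ hu _ hu (Adq.refl _ _)).symm
    (hc.adq hu hw a) b1, ← h.symm (hf.1 _ hw) (hc.1 _ hw) b2,
    h _ (hf.1 _ hu) _ (hc.1 _ hw) _ (hf.1 _ hw) b1 b2.symm (hf.adq hu hw a)]

theorem ext_CovSys (hQ : ClQ1Stmt) (hC : QCompStmt) (hK : CongrStmt) [Finite Λ]
    (h : Flat G0 A0 lab) (hf : IsHom G1 A1 G0 A0 f) (hc : IsHom G1 A1 G0 A0 c)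
    (hs : ∀ a ∈ A1, ∀ b ∈ A1, Adq G1 a b → Adq G0 (c a) (f b)) (h3 : Fin3 G1 A1) :
    (CovQ G1 A1 G0 A0 c → ExtQ (cov G1 (fun u w => lab (f u) (f w)) Λ) (up A1 Λ) (cov G0 lab Λ)
      (up A0 Λ) fun p => (c p.1, lab (c p.1) (f p.1) * p.2)) ∧
    (Q1 G1 A1 G0 A0 c → Q0 (cov G1 (fun u w => lab (f u) (f w)) Λ) (up A1 Λ) (cov G0 lab Λ)
      (up A0 Λ) fun p => (c p.1, lab (c p.1) (f p.1) * p.2)) := by
  have g := (hQ _ _ _ _ _ _ _ (gauge_CovSys h hf hc hs).cl (h3.cov (h.pull hf))).1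
  have k := hK _ _ (cov G0 lab Λ) (up A0 Λ) (cov G1 (fun u w => lab (f u) (f w)) Λ) (up A1 Λ)
    (lift1 c Λ ∘ fun p => (p.1, (lab (f p.1) (c p.1))⁻¹ • p.2))
    (fun p => (c p.1, lab (c p.1) (f p.1) * p.2)) fun p hp => by
      rw [h.symm (hf.1 _ hp) (hc.1 _ hp) (hs _ hp _ hp (Adq.refl _ _)).symm]
      rfl
  constructor
  · intro a P
    obtain ⟨P', j, e⟩ := (hC _ _ _ _ _ _ _ _ _ _ _).1 (a.2 Λ lab h)
      (fun P => (g.2 P).imp fun _ e => e.imp fun _ e => e.1) P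
    exact ⟨P', j, k.1 P P' j e⟩
  · intro a
    have b := (hC _ _ _ _ _ _ _ _ _ _ _).2.2.1 (a.2 Λ lab h) g
    refine ⟨k.2 b.1, fun P => ?_⟩
    obtain ⟨P', j, e, s⟩ := b.2 P
    exact ⟨P', j, k.1 P P' j e, s⟩

end

theorem covSys (hQ : ClQ1Stmt) (hC : QCompStmt) (hK : CongrStmt) : CovSysStmt := by
  intro C Λ _ _ _ _ L φ c lab ψ S h0 hψ h3
  have fl : ∀ i, Flat (L i).G (L i).A (labS L φ lab i) := fun i => by
    induction i with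
    | zero => exact h0
    | succ i ih => exact ih.pull (S.hφ i)
  have h1 : 1 ≤ T0 := Nat.one_le_pow _ _ (by norm_num)
  have ff : ∀ i, IsHom (L (i + 2)).G (L (i + 2)).A (L i).G (L i).A fun u => φ i (φ (i + 1) u) :=
    fun i => (S.hφ i).comp (S.hφ (i + 1))
  have hs : ∀ i, ∀ a ∈ (L (i + 2)).A, ∀ b ∈ (L (i + 2)).A, Adq (L (i + 2)).G a b →
      Adq (L i).G (c i a) (φ i (φ (i + 1) b)) := fun i a ha b hb e =>
    S.sc i a ha b hb ((Near.of_adq hb e).mono ha h1)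
  refine ⟨⟨fun i => freeAct_deck hψ, fun i => lift1_hom (fl i) (S.hφ i),
    fun i => hom_CovSys (fl i) (ff i) (S.hc i) (hs i), fun i g a _ => rfl,
    fun i g a _ => Prod.ext rfl (mul_assoc _ _ _).symm, fun i a ha b hb e => ?_,
    fun i a ha b hb e => ?_⟩,
    fun i => (ext_CovSys hQ hC hK (fl i) (ff i) (S.hc i) (hs i) (h3 _)).1,
    fun i => (ext_CovSys hQ hC hK (fl i) (ff i) (S.hc i) (hs i) (h3 _)).2⟩
  · obtain ⟨a1, a2⟩ := near_CovSys (fl i) (S.hφ i) (S.ball i) hb T0 le_rfl a ha e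
    exact (cov_adq (fl i) ((S.hφ i).1 _ ha) ((S.hφ i).1 _ hb)).2 ⟨S.ball i _ ha _ hb a1, a2⟩
  · exact sc_CovSys (fl i) (ff i) (S.hc i) (fun a ha b hb e => (S.hφ i).adq
      ((S.hφ (i + 1)).1 _ ha) ((S.hφ (i + 1)).1 _ hb) (S.ball (i + 1) a ha b hb e)) (S.sc i) ha hb e

end Pool.Agent.MP_6374aa_gt
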