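import Pool.Agent.MP_6374aa_gt.IfC

/-! Packs extend along the lifts of the collapse of a graft. -/

namespace Pool.Agent.MP_6374aa_gt

open Classical

noncomputable section

variable {V V' : Type} {G : SimpleGraph V} {A M B : Set V} {v : V} {L : Type} [Group L]
  {lab : V → V → L}

theorem fin3_GraftCov {G' : SimpleGraph V'} {A' : Set V'} {f : V' → V} (h : IsIso G' A' G A f)
    (hA : Fin3 G A) : Fin3 G' A' := by
  refine ⟨Set.Finite.of_injOn h.1.mapsTo h.1.injOn hA.1, fun s hs hc => ?_⟩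
  rw [← Finset.card_image_of_injOn (h.1.injOn.mono hs)]
  refine hA.2 _ ?_ ?_
  · rw [Finset.coe_image]
    rintro _ ⟨x, hx, rfl⟩
    exact h.1.mapsTo (hs hx)
  · rw [Finset.coe_image]
    rintro _ ⟨x, hx, rfl⟩ _ ⟨y, hy, rfl⟩ hne
    exact (h.2 x (hs hx) y (hs hy)).1 (hc hx hy fun e => hne (by rw [e]))

theorem col_pos_GraftCov {x : V} (hx : x ∈ A) : col A v x = x := if_pos hx

theorem col_neg_GraftCov {x : V} (hx : x ∉ A) : col A v x = v := if_neg hx

theorem col_star_GraftCov (h : Graft G A M B v) {u : V} (hu : u ∈ M) :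
    col A v u ∈ A ∧ Adq G (col A v u) v := by
  by_cases hA : u ∈ A
  · rw [col_pos_GraftCov hA]
    refine ⟨hA, ?_⟩
    have h1 : u ∈ insert v (Lk G A {v}) := h.inter ▸ ⟨hA, hu⟩
    rcases h1 with h1 | h1
    · exact Or.inl h1
    · exact Or.inr (h1.2 v rfl).symm
  · rw [col_neg_GraftCov hA]
    exact ⟨h.memA, Or.inl rfl⟩

theorem col_adq_GraftCov (h : Graft G A M B v) {u w : V} (hu : u ∈ M) (hw : w ∈ M)
    (huw : G.Adj u w) : Adq G (col A v u) (col A v w) := by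
  by_cases h1 : u ∈ A
  · by_cases h2 : w ∈ A
    · rw [col_pos_GraftCov h1, col_pos_GraftCov h2]
      exact Or.inr huw
    · rw [col_neg_GraftCov h2]
      exact (col_star_GraftCov h hu).2
  · rw [col_neg_GraftCov h1]
    exact (col_star_GraftCov h hw).2.symm

/-- The cover with the sheets in `s` grafted. -/
def As_GraftCov (A M : Set V) (v : V) (s : Finset L) : Set (V × L) :=
  {p | (p.1 ∈ A ∧ (p.1 = v → p.2 ∉ s)) ∨ (p.1 ∈ M ∧ p.1 ∉ A ∧ p.2 ∈ s)}

/-- The sheet over the second summand with number g. -/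
def Mg_GraftCov (A M : Set V) (v : V) (lab : V → V → L) (g : L) : Set (V × L) :=
  {p | p.1 ∈ M ∧ p.2 = lab (col A v p.1) v * g}

theorem adj_GraftCov (h : Graft G A M B v) (hl : Flat G A lab) {g : L} {p q : V × L}
    (hp : p ∈ Mg_GraftCov A M v lab g) (hq : q ∈ Mg_GraftCov A M v lab g) (hpq : G.Adj p.1 q.1) :
    (cov G (fun u w => lab (col A v u) (col A v w)) L).Adj p q := by
  have key : ∀ {p q : V × L}, p ∈ Mg_GraftCov A M v lab g → q ∈ Mg_GraftCov A M v lab g →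
      G.Adj p.1 q.1 → p.2 = lab (col A v p.1) (col A v q.1) • q.2 := by
    intro p q hp hq hpq
    obtain ⟨p1, p2⟩ := col_star_GraftCov h hp.1
    obtain ⟨q1, q2⟩ := col_star_GraftCov h hq.1
    rw [smul_eq_mul, hp.2, hq.2, ← mul_assoc,
      hl _ p1 _ q1 _ h.memA (col_adq_GraftCov h hp.1 hq.1 hpq) q2 p2]
  exact ⟨hpq, key hp hq hpq, key hq hp hpq.symm⟩

theorem iso_GraftCov (h : Graft G A M B v) (hl : Flat G A lab) (g : L) :
    IsIso (cov G (fun u w => lab (col A v u) (col A v w)) L) (Mg_GraftCov A M v lab g) G M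
      Prod.fst := by
  refine ⟨⟨fun p hp => hp.1, fun p hp q hq e => Prod.ext e ?_, fun u hu => ?_⟩,
    fun p hp q hq => ⟨fun h1 => h1.1, adj_GraftCov h hl hp hq⟩⟩
  · rw [hp.2, hq.2, e]
  · exact ⟨(u, lab (col A v u) v * g), ⟨hu, rfl⟩, rfl⟩

theorem snd_GraftCov (h : Graft G A M B v) (hl : Flat G A lab) {g : L} {p : V × L}
    (hp : p ∈ Mg_GraftCov A M v lab g) (h1 : p.1 = v ∨ p.1 ∉ A) : p.2 = g := by
  have h2 : col A v p.1 = v := by
    rcases h1 with h1 | h1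
    · rw [h1, col_pos_GraftCov h.memA]
    · exact col_neg_GraftCov h1
  rw [hp.2, h2, hl.self h.memA, one_mul]

theorem graft_GraftCov (h : Graft G A M B v) (hl : Flat G A lab) {s : Finset L} {g : L}
    (hg : g ∉ s) : Graft (cov G (fun u w => lab (col A v u) (col A v w)) L)
      (As_GraftCov A M v s) (Mg_GraftCov A M v lab g) (As_GraftCov A M v (insert g s)) (v, g) := by
  have hv : col A v v = v := col_pos_GraftCov h.memA
  have mA : (v, g) ∈ As_GraftCov A M v s := Or.inl ⟨h.memA, fun _ => hg⟩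
  have mM : (v, g) ∈ Mg_GraftCov A M v lab g :=
    ⟨h.memM, by rw [hv, hl.self h.memA, one_mul]⟩
  have hlk : ∀ {u}, G.Adj v u → (u ∈ A ↔ u ∈ M) := fun {u} hu => by
    have h1 : u ∈ Lk G A {v} ↔ u ∈ Lk G M {v} := by rw [h.lk]
    simpa [Lk, hu] using h1
  have lk : Lk (cov G (fun u w => lab (col A v u) (col A v w)) L) (As_GraftCov A M v s) {(v, g)} =
      Lk (cov G (fun u w => lab (col A v u) (col A v w)) L) (Mg_GraftCov A M v lab g) {(v, g)} := by
    ext q
    rw [lk_cov_GrB1, lk_cov_GrB1]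
    refine and_congr_left fun hq => ⟨fun h1 => ⟨?_, ?_⟩, fun h1 => ?_⟩
    · rcases h1 with h1 | h1
      · exact (hlk hq.1).1 h1.1
      · exact h1.1
    · have h2 : q.2 = lab (col A v q.1) (col A v v) * g := hq.2.2
      rwa [hv] at h2
    · exact Or.inl ⟨(hlk hq.1).2 h1.1, fun e => absurd e.symm hq.1.ne⟩
  refine ⟨mA, mM, lk, ?_, ?_, ?_⟩
  · ext q
    refine ⟨fun ⟨h1, h2⟩ => ?_, ?_⟩
    · rcases h1 with h1 | h1
      · have h3 : q.1 ∈ insert v (Lk G A {v}) := h.inter ▸ ⟨h1.1, h2.1⟩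
        rcases h3 with h3 | h3
        · exact Or.inl (Prod.ext h3 (snd_GraftCov h hl h2 (Or.inl h3)))
        · exact Or.inr (lk_cov_GrB1.2 ⟨Or.inl h1, adj_GraftCov h hl mM h2 (h3.2 v rfl)⟩)
      · exact absurd (snd_GraftCov h hl h2 (Or.inr h1.2.1) ▸ h1.2.2) hg
    · rintro (rfl | h1)
      · exact ⟨mA, mM⟩
      · exact ⟨h1.1, (lk ▸ h1).1⟩
  · rintro a ⟨a1, a2⟩ b ⟨b1, b2⟩ hab
    have b3 : b.1 ∉ A := fun b3 => b2 (Or.inl ⟨b3, fun e => by
      rw [snd_GraftCov h hl b1 (Or.inl e)]; exact hg⟩)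
    have a3 : a.1 ∉ M := fun a3 => a2 ⟨a3, by
      have h1 : a.2 = lab (col A v a.1) (col A v b.1) * b.2 := hab.2.1
      rwa [col_neg_GraftCov b3, snd_GraftCov h hl b1 (Or.inr b3)] at h1⟩
    rcases a1 with a1 | a1
    · exact h.sep _ ⟨a1.1, a3⟩ _ ⟨b1.1, b3⟩ hab.1
    · exact a3 a1.1
  · ext p
    refine ⟨?_, ?_⟩
    · rintro (h1 | h1)
      · refine ⟨Or.inl (Or.inl ⟨h1.1, fun e h2 => h1.2 e (Finset.mem_insert_of_mem h2)⟩), ?_⟩
        rintro rfl
        exact h1.2 rfl (Finset.mem_insert_self _ _)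
      · refine ⟨?_, ?_⟩
        · rcases Finset.mem_insert.1 h1.2.2 with h2 | h2
          · exact Or.inr ⟨h1.1, by rw [col_neg_GraftCov h1.2.1, hl.self h.memA, one_mul, h2]⟩
          · exact Or.inl (Or.inr ⟨h1.1, h1.2.1, h2⟩)
        · rintro rfl
          exact h1.2.1 h.memA
    · rintro ⟨(h1 | h1) | h1, h2⟩
      · refine Or.inl ⟨h1.1, fun e h3 => ?_⟩
        rcases Finset.mem_insert.1 h3 with h3 | h3
        · exact h2 (Prod.ext e h3)
        · exact h1.2 e h3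
      · exact Or.inr ⟨h1.1, h1.2.1, Finset.mem_insert_of_mem h1.2.2⟩
      · by_cases h3 : p.1 ∈ A
        · exact Or.inl ⟨h3, fun e _ => h2 (Prod.ext e (snd_GraftCov h hl h1 (Or.inl e)))⟩
        · refine Or.inr ⟨h1.1, h3, ?_⟩
          rw [snd_GraftCov h hl h1 (Or.inr h3)]
          exact Finset.mem_insert_self _ _

theorem start_GraftCov :
    IsIso (cov G (fun u w => lab (col A v u) (col A v w)) L) (As_GraftCov A M v ∅) (cov G lab L)
      (up A L) (lift1 (col A v) L) := by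
  have h1 : ∀ p : V × L, p ∈ As_GraftCov A M v (∅ : Finset L) ↔ p.1 ∈ A := fun p => by
    simp [As_GraftCov]
  have h2 : ∀ p : V × L, p.1 ∈ A → lift1 (col A v) L p = p := fun p hp =>
    Prod.ext (col_pos_GraftCov hp) rfl
  refine ⟨⟨fun p hp => ?_, fun p hp q hq e => ?_, fun p hp => ⟨p, (h1 p).2 hp, h2 p hp⟩⟩,
    fun p hp q hq => ?_⟩
  · rw [h2 p ((h1 p).1 hp)]
    exact (h1 p).1 hp
  · rwa [h2 p ((h1 p).1 hp), h2 q ((h1 q).1 hq)] at e
  · rw [h2 p ((h1 p).1 hp), h2 q ((h1 q).1 hq), cov_adj_GrB1, cov_adj_GrB1,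
      col_pos_GraftCov ((h1 p).1 hp), col_pos_GraftCov ((h1 q).1 hq)]

theorem graftCov (hG : GraftStmt) (hQ : ClQ1Stmt) (hI : MfIsoStmt) (hC : QCompStmt)
    (hK : CongrStmt) (hB : MfBasicStmt) : GraftCovStmt := by
  intro V G A M B v h hM ⟨P0⟩
  refine ⟨h.col_hom, fun L _ _ lab hl P => ?_⟩
  have := Fintype.ofFinite L
  have key : ∀ s : Finset L, ExtQ (cov G (fun u w => lab (col A v u) (col A v w)) L)
      (As_GraftCov A M v s) (cov G lab L) (up A L) (lift1 (col A v) L) := by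
    intro s
    induction s using Finset.induction_on with
    | empty =>
      intro P1
      obtain ⟨P', j, h1, -⟩ := (hQ _ _ _ _ _ _ _ (start_GraftCov (M := M)).cl
        (fin3_GraftCov start_GraftCov P1.fin3)).1.2 P1
      exact ⟨P', j, h1⟩
    | insert g s hg ih =>
      have h1 := iso_GraftCov h hl g
      have h2 := (hI _ _ _ _ _ _ _ h1).1 hM
      obtain ⟨P2, -⟩ := (hQ _ _ _ _ _ _ _ h1.cl (hB _ _ _ h2).1).1.2 P0
      have h3 : ExtQ _ (As_GraftCov A M v (insert g s)) _ (As_GraftCov A M v s)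
          (col (As_GraftCov A M v s) (v, g)) := fun P1 => by
        obtain ⟨P', j1, j2, h4, -⟩ := hG _ _ _ _ _ _ P1 P2 (graft_GraftCov h hl hg) h2
        exact ⟨P', j1, h4⟩
      intro P1
      obtain ⟨P', j, h4⟩ := (hC _ _ _ _ _ _ _ _ _ _ _).1 ih h3 P1
      refine ⟨P', j, (hK _ _ _ _ _ _ _ _ fun p hp => ?_).1 _ _ _ h4⟩
      by_cases h5 : p ∈ As_GraftCov A M v s
      · rw [Function.comp_apply, col_pos_GraftCov h5]
      · rw [Function.comp_apply, col_neg_GraftCov h5]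
        rcases hp with hp | hp
        · exact absurd (Or.inl ⟨hp.1, fun e h6 => hp.2 e (Finset.mem_insert_of_mem h6)⟩) h5
        · rcases Finset.mem_insert.1 hp.2.2 with h6 | h6
          · exact Prod.ext ((col_pos_GraftCov h.memA).trans (col_neg_GraftCov hp.2.1).symm) h6.symm
          · exact absurd (Or.inr ⟨hp.1, hp.2.1, h6⟩) h5
  have e : up B L = As_GraftCov A M v Finset.univ := by
    ext p
    have h1 := h.memA
    change p.1 ∈ B ↔ _
    rw [h.mem_GrB3]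
    simp only [As_GraftCov, Set.mem_ofPred_eq, Finset.mem_univ, not_true_eq_false, and_true]
    constructor
    · rintro ⟨h2 | h2, h3⟩
      · exact Or.inl ⟨h2, h3⟩
      · by_cases h4 : p.1 ∈ A
        · exact Or.inl ⟨h4, h3⟩
        · exact Or.inr ⟨h2, h4⟩
    · rintro (h2 | h2)
      · exact ⟨Or.inl h2.1, h2.2⟩
      · exact ⟨Or.inr h2.1, fun e => h2.2 (e ▸ h1)⟩
  rw [e]
  exact key _ P

end

end Pool.Agent.MP_6374aa_gt
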