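import Pool.Agent.MP_6374aa_gt.IfC

namespace Pool.Agent.MP_6374aa_gt

open Classical

variable {V V' : Type} {G : SimpleGraph V} {A : Set V} {G' : SimpleGraph V'} {A' : Set V'}
  {f : V' → V}

/-- A homomorphism followed by a conjugation. -/
def cj_Pb {H H' : Type} [Group H] [Group H'] (F : H' →* H) (g : H) : H' →* H where
  toFun δ := g⁻¹ * F δ * g
  map_one' := by simp
  map_mul' δ δ' := by simp [mul_assoc]

theorem cj_apply_Pb {H H' : Type} [Group H] [Group H'] (F : H' →* H) (g : H) (δ : H') :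
    cj_Pb F g δ = g⁻¹ * F δ * g := rfl

/-- The pulled back site group. -/
noncomputable def lam_Pb (G' : SimpleGraph V') (A' : Set V') (f : V' → V) (Γ : Subgroup (Gp G A)) (y : V')
    (g : Gp G A) : Subgroup (Gp G' A') :=
  Loop G' A' y ⊓ Γ.comap (cj_Pb (gmap G' A' G A f) g)

theorem mem_lam_Pb {Γ : Subgroup (Gp G A)} {y : V'} {g : Gp G A} {δ : Gp G' A'} :
    δ ∈ lam_Pb G' A' f Γ y g ↔ δ ∈ Loop G' A' y ∧ g⁻¹ * gmap G' A' G A f δ * g ∈ Γ := Iff.rfl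

theorem inj_Pb (h : SE G' A' G A f) {y : V'} (hy : y ∈ A') {δ : Gp G' A'} (hδ : δ ∈ Loop G' A' y)
    (h1 : gmap G' A' G A f δ = 1) : δ = 1 := h.faith y δ ((mem_Loop hy).1 hδ) h1

theorem inj'_Pb (h : SE G' A' G A f) {y : V'} (hy : y ∈ A') {δ : Gp G' A'} (hδ : δ ∈ Loop G' A' y)
    {g : Gp G A} (h1 : g⁻¹ * gmap G' A' G A f δ * g = 1) : δ = 1 :=
  inj_Pb h hy hδ (by simpa [mul_assoc] using congrArg (fun t => g * t * g⁻¹) h1)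

theorem surj_Pb (h : SE G' A' G A f) {y : V'} (hy : y ∈ A') {a : V} {g : Gp G A}
    (hg : Path G A (f y) a g) {Γ : Subgroup (Gp G A)} (hΓ : Γ ≤ Loop G A a) {δ : Gp G A}
    (hδ : δ ∈ Γ) : ∃ δ' ∈ lam_Pb G' A' f Γ y g, g⁻¹ * gmap G' A' G A f δ' * g = δ := by
  obtain ⟨δ', h1, h2⟩ := h.full y hy y hy _
    ((hg.trans ((mem_Loop hg.mem_right).1 (hΓ hδ))).trans hg.symm)
  have h3 : g⁻¹ * gmap G' A' G A f δ' * g = δ := by rw [h2]; group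
  exact ⟨δ', ⟨(mem_Loop hy).2 h1, show g⁻¹ * gmap G' A' G A f δ' * g ∈ Γ from h3.symm ▸ hδ⟩, h3⟩

theorem iso_Pb (h : SE G' A' G A f) {y : V'} (hy : y ∈ A') {a : V} {g : Gp G A}
    (hg : Path G A (f y) a g) {Γ : Subgroup (Gp G A)} (hΓ : Γ ≤ Loop G A a) :
    ∃ e : lam_Pb G' A' f Γ y g ≃* Γ, ∀ δ, (e δ : Gp G A) = g⁻¹ * gmap G' A' G A f δ * g := by
  refine ⟨MulEquiv.ofBijective (((cj_Pb (gmap G' A' G A f) g).comp
    (lam_Pb G' A' f Γ y g).subtype).codRestrict Γ fun δ => δ.2.2) ⟨?_, fun δ => ?_⟩, fun _ => rfl⟩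
  · rw [injective_iff_map_eq_one]
    exact fun δ h1 => Subtype.ext (inj'_Pb h hy δ.2.1 (congrArg Subtype.val h1))
  · obtain ⟨δ', h1, h2⟩ := surj_Pb h hy hg hΓ δ.2
    exact ⟨⟨δ', h1⟩, Subtype.ext h2⟩

theorem conn_Pb (h : SE G' A' G A f) (hc : PConn G A) : PConn G' A' := by
  obtain ⟨a, ha⟩ := hc.1
  obtain ⟨y, hy, -⟩ := h.ess a ha
  refine ⟨⟨y, hy⟩, fun a ha b hb => ?_⟩
  obtain ⟨γ, h1⟩ := hc.2 _ (h.hom.1 a ha) _ (h.hom.1 b hb)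
  exact (h.full a ha b hb γ h1).imp fun _ h2 => h2.1

section Fields

variable (h : SE G' A' G A f) (P : Pack G A) {y : P.X → V'} {g : P.X → Gp G A}
  (hy : ∀ x, y x ∈ A') (hg : ∀ x, Path G A (f (y x)) (P.a x) (g x))

include h hy hg

theorem k1_Pb : ∀ y0 ∈ A', ∀ H : Subgroup (Gp G' A'), H ≤ Loop G' A' y0 → H ≠ ⊥ → HasE H →
    ∃ x γ, Path G' A' y0 (y x) γ ∧ ∀ δ ∈ H, γ⁻¹ * δ * γ ∈ lam_Pb G' A' f (P.Λ x) (y x) (g x) := by
  intro y0 h0 H h1 h2 h3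
  have h4 : ∀ δ ∈ H, gmap G' A' G A f δ = 1 → δ = 1 := fun δ hδ => inj_Pb h h0 (h1 hδ)
  obtain ⟨x, γ, h5, h6⟩ := P.k1 (f y0) (h.hom.1 _ h0) (H.map (gmap G' A' G A f))
    (by rintro _ ⟨δ, hδ, rfl⟩; exact gmap_mem_Loop h.hom h0 (h1 hδ))
    (fun e => h2 ((Subgroup.eq_bot_iff_forall _).2 fun δ hδ =>
      h4 δ hδ ((Subgroup.eq_bot_iff_forall _).1 e _ ⟨δ, hδ, rfl⟩))) (h3.map _ h4)
  obtain ⟨γ', h7, h8⟩ := h.full y0 h0 (y x) (hy x) _ (h5.trans (hg x).symm)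
  refine ⟨x, γ', h7, fun δ hδ => mem_lam_Pb.2 ⟨h7.conj_mem_Loop (h1 hδ), ?_⟩⟩
  have h9 := h6 _ ⟨δ, hδ, rfl⟩
  rw [map_mul, map_mul, map_inv, h8]
  convert h9 using 1
  group

theorem k2_Pb : ∀ x x' γ, Path G' A' (y x) (y x') γ →
    ∀ δ ∈ lam_Pb G' A' f (P.Λ x) (y x) (g x), δ ≠ 1 →
      γ⁻¹ * δ * γ ∈ lam_Pb G' A' f (P.Λ x') (y x') (g x') →
      x = x' ∧ γ ∈ lam_Pb G' A' f (P.Λ x) (y x) (g x) := by
  intro x x' γ h1 δ h2 h3 h4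
  obtain ⟨rfl, h5⟩ := P.k2 x x' _ (((hg x).symm.trans (h1.map h.hom)).trans (hg x')) _ h2.2
    (fun e => h3 (inj'_Pb h (hy x) h2.1 e)) (by
      have h5 := (mem_lam_Pb.1 h4).2
      rw [map_mul, map_mul, map_inv] at h5
      convert h5 using 1
      rw [cj_apply_Pb]
      group)
  exact ⟨rfl, (mem_Loop (hy x)).2 h1, h5⟩

theorem k3_Pb (x : P.X) : ∃ ρ : Gp G' A' →* Gp G' A',
    (∀ δ ∈ lam_Pb G' A' f (P.Λ x) (y x) (g x), ρ δ = δ) ∧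
      (∀ δ, ρ δ ∈ lam_Pb G' A' f (P.Λ x) (y x) (g x)) ∧
      ∀ x', x' ≠ x → ∀ δ ∈ lam_Pb G' A' f (P.Λ x') (y x') (g x'), ρ δ = 1 := by
  obtain ⟨ρ, h1, h2, h3⟩ := P.k3 x
  obtain ⟨e, he⟩ := iso_Pb h (hy x) (hg x) (P.loop x)
  refine ⟨(Subgroup.subtype _).comp (e.symm.toMonoidHom.comp
    ((ρ.codRestrict _ h2).comp (cj_Pb (gmap G' A' G A f) (g x)))), fun δ hδ => ?_,
    fun δ => (e.symm _).2, fun x' hx δ hδ => ?_⟩
  · have h4 : ρ.codRestrict _ h2 (cj_Pb (gmap G' A' G A f) (g x) δ) = e ⟨δ, hδ⟩ :=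
      Subtype.ext ((h1 _ hδ.2).trans (he ⟨δ, hδ⟩).symm)
    simp [h4]
  · have h4 := h3 x' hx _ hδ.2
    have h5 : ρ (gmap G' A' G A f δ) = 1 := by
      simpa [cj_apply_Pb, mul_assoc] using congrArg (fun t => ρ (g x') * t * (ρ (g x'))⁻¹) h4
    have h6 : ρ.codRestrict _ h2 (cj_Pb (gmap G' A' G A f) (g x) δ) = 1 :=
      Subtype.ext (by simp [cj_apply_Pb, h5])
    simp [h6]

theorem k4_Pb : ∀ y0 ∈ A', Loop G' A' y0 ≤
    Subgroup.normalClosure (⋃ x, (lam_Pb G' A' f (P.Λ x) (y x) (g x) : Set (Gp G' A'))) := by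
  intro y0 h0 δ hδ
  obtain ⟨R, p, r1, r2, r3, r4⟩ := exists_retraction P.conn (h.hom.1 _ h0)
  set N := Subgroup.normalClosure (⋃ x, (lam_Pb G' A' f (P.Λ x) (y x) (g x) : Set (Gp G' A')))
  have hN : (((N ⊓ Loop G' A' y0).map (gmap G' A' G A f)).comap R).Normal := by
    refine ⟨fun l ⟨d, d1, d2⟩ m => ?_⟩
    obtain ⟨ν, n1, n2⟩ := h.full y0 h0 y0 h0 _ ((mem_Loop (h.hom.1 _ h0)).1 (r4 m))
    have n3 := (mem_Loop h0).2 n1
    exact ⟨ν * d * ν⁻¹, ⟨Subgroup.normalClosure_normal.conj_mem d d1.1 ν,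
      Subgroup.mul_mem _ (Subgroup.mul_mem _ n3 d1.2) (Subgroup.inv_mem _ n3)⟩, by simp [n2, d2]⟩
  have h1 : Subgroup.normalClosure (⋃ x, (P.Λ x : Set (Gp G A))) ≤
      ((N ⊓ Loop G' A' y0).map (gmap G' A' G A f)).comap R := by
    refine Subgroup.normalClosure_le_normal (Set.iUnion_subset fun x l hl => ?_)
    obtain ⟨d, d1, d2⟩ := surj_Pb h (hy x) (hg x) (P.loop x) hl
    obtain ⟨ν, n1, n2⟩ := h.full y0 h0 (y x) (hy x) _ ((r1 _ (P.mem x)).trans (hg x).symm)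
    refine ⟨ν * d * ν⁻¹, ⟨Subgroup.normalClosure_normal.conj_mem d
      (Subgroup.subset_normalClosure (Set.mem_iUnion.2 ⟨x, d1⟩)) ν, ?_⟩, ?_⟩
    · simpa using n1.symm.conj_mem_Loop d1.1
    · rw [r3 _ _ l ((mem_Loop (P.mem x)).1 (P.loop x hl)), map_mul, map_mul, map_inv, n2, ← d2]
      group
  have h2 := gmap_mem_Loop h.hom h0 hδ
  obtain ⟨d, d1, d2⟩ := h1 (P.k4 _ (h.hom.1 _ h0) h2)
  rw [r3 _ _ _ ((mem_Loop (h.hom.1 _ h0)).1 h2), r2, one_mul, inv_one, mul_one] at d2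
  have h3 := inj_Pb h h0 (mul_mem (inv_mem d1.2) hδ) (by simp [d2])
  exact inv_mul_eq_one.1 h3 ▸ d1.1

theorem hsurj_Pb {n : ℕ} (hn : n = 2 ∨ n = 3) (x : P.X) {z : EA V} (hz : z ∈ P.I x n) :
    ∃ z' ∈ II G' A' (lam_Pb G' A' f (P.Λ x) (y x) (g x)) (y x) n, emap f z' - z ∈ Bd G A n := by
  refine h.isurj n hn (y x) (hy x) _ inf_le_left z (II_le_II (hg x).symm (fun δ hδ => ?_) n hz)
  obtain ⟨d, d1, rfl⟩ := surj_Pb h (hy x) (hg x) (P.loop x) hδ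
  exact ⟨d, d1, by group⟩

theorem h2_Pb : ∀ n, n = 2 ∨ n = 3 → Zy G' A' n ≤
    Bd G' A' n ⊔ ⨆ x, II G' A' (lam_Pb G' A' f (P.Λ x) (y x) (g x)) (y x) n := by
  intro n hn z hz
  obtain ⟨w, h1, h2⟩ := P.exists_decomp hn (emap_mem_Zy h.hom hz)
  choose w' h3 h4 using fun x => hsurj_Pb h P hy hg hn x (h1 x)
  have h5 : z - ∑ x, w' x ∈ Bd G' A' n := by
    refine h.hinj n hn _ (sub_mem hz (sum_mem fun x _ => II_le_Zy _ _ _ (h3 x))) ?_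
    convert sub_mem h2 (sum_mem fun x (_ : x ∈ Finset.univ) => h4 x) using 1
    rw [map_sub, map_sum, Finset.sum_sub_distrib]
    abel
  rw [← sub_add_cancel z (∑ x, w' x)]
  exact Submodule.add_mem_sup h5 (sum_mem fun x _ => Submodule.mem_iSup_of_mem x (h3 x))

omit hy in
theorem h3_Pb : ∀ n, n = 2 ∨ n = 3 → ∀ z : P.X → EA V',
    (∀ x, z x ∈ II G' A' (lam_Pb G' A' f (P.Λ x) (y x) (g x)) (y x) n) →
    ∑ x, z x ∈ Bd G' A' n → ∀ x, z x ∈ Bd G' A' n := by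
  intro n hn z h1 h2 x
  refine h.hinj n hn _ (II_le_Zy _ _ _ (h1 x)) (P.h3 n hn (fun x => emap f (z x))
    (fun x => emap_mem_II h.hom (hg x) (fun δ hδ => (mem_lam_Pb.1 hδ).2) (h1 x)) ?_ x)
  rw [← map_sum]
  exact emap_mem_Bd h.hom h2

end Fields

theorem pb : PbStmt := by
  intro V V' G A G' A' f P h hF
  choose y hy g' hg' using fun x => h.ess _ (P.mem x)
  have hg := fun x => (hg' x).symm
  refine ⟨{
    X := P.X
    a := y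
    Λ := fun x => lam_Pb G' A' f (P.Λ x) (y x) (g' x)⁻¹
    fin3 := hF
    conn := conn_Pb h P.conn
    mem := hy
    loop := fun _ => inf_le_left
    ne := fun x e => P.ne x ((Subgroup.eq_bot_iff_forall _).2 fun δ hδ => ?_)
    hasE := fun x => ?_
    k1 := k1_Pb h P hy hg
    k2 := k2_Pb h P hy hg
    k3 := k3_Pb h P hy hg
    k4 := k4_Pb h P hy hg
    h1 := fun y0 h0 n hn z hz => h.hinj n hn z (II_le_Zy _ _ _ hz)
      (P.emap_mem_Bd h.hom h0 (fun δ hδ => by rw [Subgroup.mem_bot.1 hδ, map_one]) hn hz)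
    h2 := h2_Pb h P hy hg
    h3 := h3_Pb h P hg }, Equiv.refl _, fun x => ⟨fun δ hδ => inj_Pb h (hy x) hδ.1, _, hg x,
      fun δ hδ => hδ.2, fun δ hδ => surj_Pb h (hy x) (hg x) (P.loop x) hδ⟩⟩
  · obtain ⟨d, d1, rfl⟩ := surj_Pb h (hy x) (hg x) (P.loop x) hδ
    rw [(Subgroup.eq_bot_iff_forall _).1 e d d1]
    simp
  · obtain ⟨e, -⟩ := iso_Pb h (hy x) (hg x) (P.loop x)
    exact (P.hasE x).congr e.symm

end Pool.Agent.MP_6374aa_gt
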