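import Pool.Agent.MP_6374aa_gt.IfQ
import Pool.Agent.MP_6374aa_gt.CovSys
import Pool.Agent.MP_6374aa_gt.GraftCov
import Pool.Agent.MP_6374aa_gt.Congr
import Pool.Agent.MP_6374aa_gt.Pb

/-! Local properties of the lifts of collapses to finite covers. -/

namespace Pool.Agent.MP_6374aa_gt

open Classical

noncomputable section

theorem pconn_CovSys2 {V V' : Type} {G : SimpleGraph V} {A : Set V} {G' : SimpleGraph V'}
    {A' : Set V'} {f : V' → V} (h : IsIso G' A' G A f) (hc : PConn G A) : PConn G' A' := by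
  obtain ⟨a, ha⟩ := hc.1
  obtain ⟨a', ha', -⟩ := h.1.surjOn ha
  exact pconn_of_Zy_one ⟨a', ha'⟩ fun z hz =>
    h.mem_Bd (mem_Zy.1 hz).1 (hc.Zy_one_le (emap_mem_Zy h.isHom hz))

theorem ext_CovSys2 {V0 V1 Λ : Type} [Group Λ] [Finite Λ] {G0 : SimpleGraph V0} {A0 : Set V0}
    {G1 : SimpleGraph V1} {A1 : Set V1} {lab : V0 → V0 → Λ} {f c : V1 → V0} (hL : ClLocStmt)
    (hC : LocCompStmt) (h : Flat G0 A0 lab) (hf : IsHom G1 A1 G0 A0 f) (hc : IsHom G1 A1 G0 A0 c)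
    (hs : ∀ a ∈ A1, ∀ b ∈ A1, Adq G1 a b → Adq G0 (c a) (f b)) (h3 : Fin3 G1 A1) :
    (CovL G1 A1 G0 A0 c → Loc (cov G1 (fun u w => lab (f u) (f w)) Λ) (up A1 Λ) (cov G0 lab Λ)
      (up A0 Λ) (fun p => (c p.1, lab (c p.1) (f p.1) * p.2)) ∧
      (PConn (cov G0 lab Λ) (up A0 Λ) →
        PConn (cov G1 (fun u w => lab (f u) (f w)) Λ) (up A1 Λ))) ∧
    (CovI G1 A1 G0 A0 c → HInj (cov G1 (fun u w => lab (f u) (f w)) Λ) (up A1 Λ) (cov G0 lab Λ)
      (up A0 Λ) fun p => (c p.1, lab (c p.1) (f p.1) * p.2)) := by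
  have i := gauge_CovSys h hf hc hs
  have k : ∀ p ∈ up A1 Λ, (lift1 c Λ ∘ fun p => (p.1, (lab (f p.1) (c p.1))⁻¹ • p.2)) p =
      (fun p : V1 × Λ => (c p.1, lab (c p.1) (f p.1) * p.2)) p := fun p hp => by
    beta_reduce
    rw [h.symm (hf.1 _ hp) (hc.1 _ hp) (hs _ hp _ hp (Adq.refl _ _)).symm]
    rfl
  refine ⟨fun a => ⟨loc_Congr k (hC _ _ _ _ _ _ _ _ _ _ _ (a.2 Λ lab h).1
    (hL _ _ _ _ _ _ _ i.cl (h3.cov (h.pull hf)))),
    fun b => pconn_CovSys2 i ((a.2 Λ lab h).2 b)⟩, fun a n hn z hz hb => ?_⟩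
  rw [em_Congr k subset_rfl hz, ← emap_comp] at hb
  exact i.mem_Bd (mem_Zy.1 hz).1 (a Λ lab h n hn _ (emap_mem_Zy i.isHom hz) hb)

theorem covSys2 (hL : ClLocStmt) (hC : LocCompStmt) : CovSys2Stmt := by
  intro C Λ _ _ _ L φ c lab ψ S h0 h3 i
  have fl : ∀ i, Flat (L i).G (L i).A (labS L φ lab i) := fun i => by
    induction i with
    | zero => exact h0
    | succ i ih => exact ih.pull (S.hφ i)
  have h1 : 1 ≤ T0 := Nat.one_le_pow _ _ (by norm_num)
  have ff : IsHom (L (i + 2)).G (L (i + 2)).A (L i).G (L i).A fun u => φ i (φ (i + 1) u) :=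
    (S.hφ i).comp (S.hφ (i + 1))
  exact ext_CovSys2 hL hC (fl i) ff (S.hc i)
    (fun a ha b hb e => S.sc i a ha b hb ((Near.of_adq hb e).mono ha h1)) (h3 _)

theorem clQS (hS : ClSeStmt) (hL : ClLocStmt) (hC : ClCovStmt) : ClQSStmt := by
  intro V V' G A G' A' c h h3
  refine ⟨hS _ _ _ _ _ _ _ h, ⟨h.1, fun L _ _ lab hl => ?_⟩, fun L _ _ lab hl => ?_, h3⟩
  · have k := hC _ _ _ _ _ _ _ L L lab hl h
    exact ⟨hL _ _ _ _ _ _ _ k (h3.cov (hl.pull h.1)), conn_Pb (hS _ _ _ _ _ _ _ k)⟩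
  · exact (hS _ _ _ _ _ _ _ (hC _ _ _ _ _ _ _ L L lab hl h)).hinj

theorem qSComp (hL : LocCompStmt) (hS : SeCompStmt) : QSCompStmt := by
  intro V V' V'' G A G' A' G'' A'' c c'
  have k : CovL G' A' G A c → CovL G'' A'' G' A' c' → CovL G'' A'' G A (c ∘ c') := fun a b =>
    ⟨a.1.comp b.1, fun L _ _ lab hl =>
      ⟨hL _ _ _ _ _ _ _ _ _ _ _ (a.2 L lab hl).1 (b.2 L _ (hl.pull a.1)).1,
        fun p => (b.2 L _ (hl.pull a.1)).2 ((a.2 L lab hl).2 p)⟩⟩
  refine ⟨k, fun a b => ⟨hS _ _ _ _ _ _ _ _ _ _ _ a.se b.se, k a.cl b.cl,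
    fun L _ _ lab hl n hn z hz hb => ?_, b.fin⟩⟩
  have e : lift1 (c ∘ c') L = lift1 c L ∘ lift1 c' L := rfl
  rw [e, ← emap_comp] at hb
  exact b.ci L _ (hl.pull a.cl.1) n hn z hz
    (a.ci L lab hl n hn _ (emap_mem_Zy (lift1_hom (hl.pull a.cl.1) b.cl.1) hz) hb)

theorem graft_CovSys2 {V : Type} {G : SimpleGraph V} {A M B : Set V} {v : V}
    (h : Graft G A M B v) (hF : GFacts G A M B v) (hL : Loc G B G A (col A v)) (hA : PConn G A)
    (hM : PConn G M) : PConn G B := by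
  obtain ⟨w, hw, -⟩ := hL.surj v h.memA
  have e : B ∩ col A v ⁻¹' A = B := Set.inter_eq_left.2 fun a ha => h.col_hom.1 a ha
  refine pconn_of_Zy_one ⟨w, hw⟩ fun z hz => ?_
  have := hF.g2 1 A subset_rfl z (by rwa [e]) (hA.Zy_one_le (emap_mem_Zy h.col_hom hz))
    (hM.Zy_one_le (emap_mem_Zy h.symm.col_hom hz))
  rwa [e] at this

theorem graftCovL (hF : GFactsStmt) (hG : GLocStmt) (hR : MfRemStmt) (hI : MfIsoStmt)
    (hL : ClLocStmt) (hC : LocCompStmt) : GraftCovLStmt := by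
  intro V G A M B v h h3 hM
  refine ⟨h.col_hom, fun L _ _ lab hl => ?_⟩
  have := Fintype.ofFinite L
  have key : ∀ s : Finset L, Loc (cov G (fun u w => lab (col A v u) (col A v w)) L)
      (As_GraftCov A M v s) (cov G lab L) (up A L) (lift1 (col A v) L) ∧
      (PConn (cov G lab L) (up A L) →
        PConn (cov G (fun u w => lab (col A v u) (col A v w)) L) (As_GraftCov A M v s)) := by
    intro s
    induction s using Finset.induction_on with
    | empty =>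
      exact ⟨hL _ _ _ _ _ _ _ (start_GraftCov (M := M)).cl
        (fin3_GraftCov start_GraftCov (h3.cov hl)), pconn_CovSys2 start_GraftCov⟩
    | insert g s hg ih =>
      have h2 := (hI _ _ _ _ _ _ _ (iso_GraftCov h hl g)).1 hM
      have g1 := graft_GraftCov h hl hg
      have g2 := hR _ _ _ h2 _ g1.memM
      have g3 := hF _ _ _ _ _ _ g1 g2
      have g4 := hG _ _ _ _ _ _ g1 g2 g3
      refine ⟨loc_Congr (fun p hp => ?_) (hC _ _ _ _ _ _ _ _ _ _ _ ih.1 g4),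
        fun b => graft_CovSys2 g1 g3 g4 (ih.2 b) h2.2.1⟩
      by_cases h5 : p ∈ As_GraftCov A M v s
      · rw [Function.comp_apply, col_pos_GraftCov h5]
      · rw [Function.comp_apply, col_neg_GraftCov h5]
        rcases hp with hp | hp
        · exact absurd (Or.inl ⟨hp.1, fun e h6 => hp.2 e (Finset.mem_insert_of_mem h6)⟩) h5
        · rcases Finset.mem_insert.1 hp.2.2 with h6 | h6
          · exact Prod.ext ((col_pos_GraftCov h.memA).trans (col_neg_GraftCov hp.2.1).symm) h6.symm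
          · exact absurd (Or.inr ⟨hp.1, hp.2.1, h6⟩) h5
  have e : up B L = As_GraftCov A M v Finset.univ := by
    ext p
    have h1 := h.memA
    change p.1 ∈ B ↔ _
    rw [h.mem_GrB3]
    simp only [As_GraftCov, Set.mem_ofPred_eq, Finset.mem_univ, not_true_eq_false, and_true]
    constructor
    · rintro ⟨h2 | h2, h3⟩
      · exact Or.inl ⟨h2, h3⟩
      · by_cases h4 : p.1 ∈ A
        · exact Or.inl ⟨h4, h3⟩
        · exact Or.inr ⟨h2, h4⟩
    · rintro (h2 | h2)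
      · exact ⟨Or.inl h2.1, h2.2⟩
      · exact ⟨Or.inr h2.1, fun e => h2.2 (e ▸ h1)⟩
  rw [e]
  exact key _

end

end Pool.Agent.MP_6374aa_gt
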