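import Pool.Agent.MP_6374aa_gt.IfT

/-! The control data of an interleaved system. -/

namespace Pool.Agent.MP_6374aa_gt

open Classical

section

variable {C : Type} [CommGroup C] {L : ℕ → Lev C} {φ : ∀ i, (L (i + 1)).V → (L i).V}
  {c : ∀ i, (L (i + 2)).V → (L i).V}

/-- The composite from level five to level one. -/
def ps_CtGeo (φ : ∀ i, (L (i + 1)).V → (L i).V) (s : (L 5).V) : (L 1).V := φ 1 (φ 2 (φ 3 (φ 4 s)))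

theorem rad_CtGeo (k : ℕ) : 10 ≤ rad k ∧ rad (k + 1) = 3 * rad k := by
  have := Nat.one_le_pow k 3 (by norm_num)
  simp only [rad, pow_succ]
  omega

theorem T0_CtGeo : 2 ≤ T0 ∧ 1000 * (rad 0 + rad 100 + 1) ≤ T0 := by
  norm_num [T0, rad]

theorem mem_CtGeo {k : ℕ} {b : (L 1).V} {v : (L 6).V} : v ∈ St6 L φ k b ↔
    v ∈ (L 6).A ∧ Near (L 1).G (L 1).A (rad k) (ps_CtGeo φ (φ 5 v)) b := Iff.rfl

variable (hs : IsSys T0 L φ c)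
include hs

theorem sc_CtGeo (i : ℕ) {a b : (L (i + 2)).V} (ha : a ∈ (L (i + 2)).A) (hb : b ∈ (L (i + 2)).A)
    (h : Adq (L (i + 2)).G a b) : Adq (L i).G (c i a) (φ i (φ (i + 1) b)) :=
  hs.sc i a ha b hb ((Near.of_adq hb h).mono ha (by have := T0_CtGeo.1; omega))

theorem hom_CtGeo : IsHom (L 5).G (L 5).A (L 1).G (L 1).A (ps_CtGeo φ) :=
  (hs.hφ 1).comp ((hs.hφ 2).comp ((hs.hφ 3).comp (hs.hφ 4)))

theorem eqv_CtGeo : Eqv (L 5).A (L 5).α (L 1).α (ps_CtGeo φ) := fun g a ha => by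
  have h4 := (hs.hφ 4).1 a ha
  have h3 := (hs.hφ 3).1 _ h4
  have h2 := (hs.hφ 2).1 _ h3
  exact (congrArg (fun x => φ 1 (φ 2 (φ 3 x))) (hs.eφ 4 g a ha)).trans
    ((congrArg (fun x => φ 1 (φ 2 x)) (hs.eφ 3 g _ h4)).trans
      ((congrArg (φ 1) (hs.eφ 2 g _ h3)).trans (hs.eφ 1 g _ h2)))

theorem step_CtGeo {s t : (L 5).V} (h1 : s ∈ (L 5).A) (h2 : t ∈ (L 5).A) (h : Adq (L 5).G s t)
    {n m : ℕ} {b : (L 1).V} (hb : Near (L 1).G (L 1).A n (ps_CtGeo φ t) b) (hm : 1 + n ≤ m) :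
    Near (L 1).G (L 1).A m (ps_CtGeo φ s) b :=
  ((Near.of_adq ((hom_CtGeo hs).1 t h2) ((hom_CtGeo hs).adq h1 h2 h)).trans hb).mono
    ((hom_CtGeo hs).1 s h1) hm

theorem in1_CtGeo {v : (L 6).V} (h : v ∈ (L 6).A) : ps_CtGeo φ (φ 5 v) ∈ (L 1).A :=
  (hom_CtGeo hs).1 _ ((hs.hφ 5).1 v h)

theorem adj_CtGeo {k : ℕ} {b : (L 1).V} {v v' : (L 6).V} (h : v ∈ St6 L φ k b)
    (h' : v' ∈ (L 6).A) (ha : Adq (L 6).G v v') : v' ∈ St6 L φ (k + 1) b :=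
  mem_CtGeo.2 ⟨h', step_CtGeo hs ((hs.hφ 5).1 v' h') ((hs.hφ 5).1 v h.1)
    ((hs.hφ 5).adq h' h.1 ha.symm) (mem_CtGeo.1 h).2 (by have := rad_CtGeo k; omega)⟩

theorem fib_CtGeo {a : (L 7).V} (ha : a ∈ (L 7).A) {n k : ℕ} {b : (L 1).V}
    (hb : Near (L 1).G (L 1).A n (ps_CtGeo φ (c 5 a)) b) (hk : 1 + n ≤ rad k) :
    φ 6 a ∈ St6 L φ k b :=
  mem_CtGeo.2 ⟨(hs.hφ 6).1 a ha, step_CtGeo hs ((hs.hφ 5).1 _ ((hs.hφ 6).1 a ha))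
    ((hs.hc 5).1 a ha) (sc_CtGeo hs 5 ha ha (Adq.refl _ _)).symm hb hk⟩

theorem fill_CtGeo (hl : ∀ i, Loc (L (i + 2)).G (L (i + 2)).A (L i).G (L i).A (c i))
    {u : (L 5).V} (hu : u ∈ (L 5).A) {n : ℕ} {z : EA (L 7).V}
    (hz : z ∈ Zy (L 7).G ((L 7).A ∩ c 5 ⁻¹' {u}) n) (hb : emap (φ 6) z ∈ Bd (L 6).G (L 6).A n) :
    emap (φ 6) z ∈ Bd (L 6).G (St6 L φ 0 (ps_CtGeo φ u)) n := by
  have u4 := (hs.hφ 4).1 u hu
  have u2 := (hs.hφ 2).1 _ ((hs.hφ 3).1 _ u4)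
  let S2 : Set (L 2).V := {s | s ∈ (L 2).A ∧ Adq (L 2).G (φ 2 (φ 3 (φ 4 u))) s}
  let S4 : Set (L 4).V := (L 4).A ∩ c 2 ⁻¹' S2
  let S6 : Set (L 6).V := (L 6).A ∩ c 4 ⁻¹' S4
  have h6 : emap (φ 6) z ∈ Zy (L 6).G S6 n := by
    refine emap_mem_Zy ((hs.hφ 6).mono Set.inter_subset_left fun a ha => ?_) hz
    have a6 := (hs.hφ 6).1 a ha.1
    have a5 := (hs.hφ 5).1 _ a6
    have a4 := (hs.hc 4).1 _ a6
    have e : Adq (L 5).G u (φ 5 (φ 6 a)) := by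
      have := sc_CtGeo hs 5 ha.1 ha.1 (Adq.refl _ _)
      rwa [show c 5 a = u from ha.2] at this
    refine ⟨a6, a4, (hs.hc 2).1 _ a4, (hs.sc 2 _ a4 _ u4 (Near.mono a4 T0_CtGeo.1 ?_)).symm⟩
    exact (Near.of_adq ((hs.hφ 4).1 _ a5) (sc_CtGeo hs 4 a6 a6 (Adq.refl _ _))).trans
      (Near.of_adq u4 ((hs.hφ 4).adq a5 hu e.symm))
  have h4 : emap (c 4) (emap (φ 6) z) ∈ Zy (L 4).G S4 n :=
    emap_mem_Zy ((hs.hc 4).mono Set.inter_subset_left fun a ha => ha.2) h6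
  have h2 : emap (c 2) (emap (c 4) (emap (φ 6) z)) ∈ Bd (L 2).G S2 n :=
    Zy_le_Bd_of_cone (S := S2) (T := S2) (And.intro u2 (Adq.refl _ _)) subset_rfl (fun t ht => ht.2) n
      (emap_mem_Zy ((hs.hc 2).mono Set.inter_subset_left fun a ha => ha.2) h4)
  have k4 := (hl 2).s1 n S2 (fun _ h => h.1) _ h4 h2 (emap_mem_Bd (hs.hc 4) hb)
  refine Bd_mono (fun v hv => ?_) n ((hl 4).s1 n S4 Set.inter_subset_left _ h6 k4 hb)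
  obtain ⟨v6, v4, v2, e⟩ := hv
  have w4 := (hs.hφ 4).1 _ ((hs.hφ 5).1 _ v6)
  have w2 := (hs.hφ 2).1 _ ((hs.hφ 3).1 _ w4)
  have e2 := sc_CtGeo hs 2 v4 w4 (sc_CtGeo hs 4 v6 v6 (Adq.refl _ _))
  exact mem_CtGeo.2 ⟨v6, (((Near.of_adq v2 e2.symm).trans (Near.of_adq u2 e.symm)).map (hs.hφ 1)
    w2).mono (in1_CtGeo hs v6) (by norm_num [rad])⟩

theorem la1_CtGeo (hl : ∀ i, Loc (L (i + 2)).G (L (i + 2)).A (L i).G (L i).A (c i)) (k n : ℕ)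
    (b : (L 1).V) (x : EA (L 6).V) (hx : x ∈ Zy (L 6).G (St6 L φ k b) n) :
    ∃ a ∈ Zy (L 7).G ((L 7).A ∩ φ 6 ⁻¹' St6 L φ (k + 1) b) n,
      emap (φ 6) a - x ∈ Bd (L 6).G (St6 L φ (k + 1) b) n := by
  obtain ⟨x', h1, h2⟩ := (hl 6).s2 n (St6 L φ k b) (fun _ h => h.1) x hx
  have hm : St6 L φ k b ⊆ St6 L φ (k + 1) b := fun v hv => adj_CtGeo hs hv hv.1 (Adq.refl _ _)
  have h3 : ∀ a ∈ (L 8).A ∩ c 6 ⁻¹' St6 L φ k b, φ 6 (φ 7 a) ∈ St6 L φ (k + 1) b := fun a ha =>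
    adj_CtGeo hs ha.2 ((hs.hφ 6).1 _ ((hs.hφ 7).1 a ha.1)) (sc_CtGeo hs 6 ha.1 ha.1 (Adq.refl _ _))
  refine ⟨emap (φ 7) x', emap_mem_Zy ((hs.hφ 7).mono Set.inter_subset_left fun a ha =>
    Set.mem_inter ((hs.hφ 7).1 a ha.1) (h3 a ha)) h1, ?_⟩
  have h4 := emap_sub_mem_Bd ((hs.hc 6).mono Set.inter_subset_left fun a ha => hm ha.2)
    (((hs.hφ 6).comp (hs.hφ 7)).mono Set.inter_subset_left h3)
    (fun a ha b hb h => sc_CtGeo hs 6 ha.1 hb.1 h) h1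
  have h5 := sub_mem (Bd_mono hm n h2) h4
  rw [sub_sub_sub_cancel_left, ← emap_comp] at h5
  exact h5

end

theorem ctGeo (hL : La2Stmt) (hV : VpStmt) : CtGeoStmt := by
  intro C _ _ _ L φ c J1 J2 _ _ z dz y dy loc hs h3 hp hl had hloc
  obtain ⟨a0, -⟩ := hp.1
  choose w w1 w2 using fun j => mem_Bd.1 (fill_CtGeo hs hl (hloc j).1 (hloc j).2 (had.kill j))
  have eqv : ∀ k b g v, v ∈ St6 L φ k b → (L 6).α g v ∈ St6 L φ k ((L 1).α g b) := by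
    intro k b g v hv
    refine mem_CtGeo.2 ⟨(hs.free 6).mem g v hv.1, ?_⟩
    rw [(congrArg (ps_CtGeo φ) (hs.eφ 5 g v hv.1)).trans (eqv_CtGeo hs g _ ((hs.hφ 5).1 v hv.1))]
    exact (mem_CtGeo.1 hv).2.map ((hs.free 1).toAct.isIso g).isHom (in1_CtGeo hs hv.1)
  have inv : ∀ g, ∀ b ∈ {b | (St6 L φ 0 b).Nonempty},
      (L 1).α g b ∈ {b | (St6 L φ 0 b).Nonempty} := fun g b ⟨v, hv⟩ => ⟨_, eqv 0 b g v hv⟩
  refine ⟨fun σ => ps_CtGeo φ (φ 5 (if h : σ.Nonempty then h.choose else φ 6 a0)),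
    fun j => ps_CtGeo φ (loc j), w, {b | (St6 L φ 0 b).Nonempty}, inv, eqv,
    fun k b v hv => adj_CtGeo hs hv hv.1 (Adq.refl _ _), fun k b v hv => hv.1,
    fun σ s1 s2 s3 => ?_, ?_, fun j => ⟨?_, ?_, w1 j, w2 j⟩, fun k b _ v hv => ?_,
    fun k n b _ => la1_CtGeo hs hl k n b, fun k n b _ a ha hb => ?_, ?_⟩
  · rw [dif_pos s1]
    have hv := s1.choose_spec
    generalize s1.choose = v at hv
    have h0 := Near.refl (G := (L 1).G) (in1_CtGeo hs (s2 hv))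
    refine ⟨⟨v, mem_CtGeo.2 ⟨s2 hv, h0 _⟩⟩, fun x hx => mem_CtGeo.2 ⟨s2 hx, ?_⟩,
      fun k b _ h x hx => mem_CtGeo.2 ⟨hx.1, ?_⟩⟩
    · refine step_CtGeo hs ((hs.hφ 5).1 x (s2 hx)) ((hs.hφ 5).1 v (s2 hv))
        ((hs.hφ 5).adq (s2 hx) (s2 hv) ?_) (h0 0) (by norm_num [rad])
      exact (eq_or_ne x v).imp id fun e => s3 hx hv e
    · refine ((mem_CtGeo.1 hx).2.trans (mem_CtGeo.1 (h hv)).2).mono (in1_CtGeo hs hx.1) ?_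
      have := rad_CtGeo k
      have : rad 0 = 10 := rfl
      omega
  · rintro k a ⟨v, hv⟩ b - h x hx
    refine mem_CtGeo.2 ⟨hx.1, ((mem_CtGeo.1 hx).2.trans (((mem_CtGeo.1 hv).2.symm
      (in1_CtGeo hs hv.1)).trans (mem_CtGeo.1 (h hv)).2)).mono (in1_CtGeo hs hx.1) ?_⟩
    have := rad_CtGeo k
    have : rad 0 = 10 := rfl
    omega
  · obtain ⟨a, ha, e⟩ := (hl 5).surj _ (hloc j).1
    exact ⟨φ 6 a, fib_CtGeo hs ha (n := 0) (congrArg (ps_CtGeo φ) e) (by norm_num [rad])⟩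
  · refine Ch_mono (fun a ha => ?_) _ (mem_Zy.1 (hloc j).2).1
    exact ⟨ha.1, fib_CtGeo hs ha.1 (n := 0) (congrArg (ps_CtGeo φ) ha.2) (by norm_num [rad])⟩
  · obtain ⟨x, hx, e⟩ := (hl 6).surj v hv.1
    have h1 := sc_CtGeo hs 6 hx hx (Adq.refl _ _)
    rw [e] at h1
    exact ⟨φ 7 x, (hs.hφ 7).1 x hx, adj_CtGeo hs hv ((hs.hφ 6).1 _ ((hs.hφ 7).1 x hx)) h1, h1⟩
  · let S : Set (L 5).V :=
      {s | s ∈ (L 5).A ∧ Near (L 1).G (L 1).A (1 + rad k) (ps_CtGeo φ s) b}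
    have hr := rad_CtGeo k
    have m1 : ∀ x ∈ (L 7).A ∩ φ 6 ⁻¹' St6 L φ k b, c 5 x ∈ S := fun x hx =>
      ⟨(hs.hc 5).1 x hx.1, step_CtGeo hs ((hs.hc 5).1 x hx.1) ((hs.hφ 5).1 _ hx.2.1)
        (sc_CtGeo hs 5 hx.1 hx.1 (Adq.refl _ _)) (mem_CtGeo.1 hx.2).2 le_rfl⟩
    have m2 : ∀ v ∈ St6 L φ k b, φ 5 v ∈ S := fun v hv =>
      ⟨(hs.hφ 5).1 v hv.1, (mem_CtGeo.1 hv).2.mono (in1_CtGeo hs hv.1) (by omega)⟩
    have m3 := emap_sub_mem_Bd ((hs.hc 5).mono Set.inter_subset_left m1)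
      (((hs.hφ 5).comp (hs.hφ 6)).mono Set.inter_subset_left fun x hx => m2 _ hx.2)
      (fun a ha b hb h => sc_CtGeo hs 5 ha.1 hb.1 h) ha
    have m4 := add_mem m3 (emap_mem_Bd ((hs.hφ 5).mono (fun _ h => h.1) m2) hb)
    rw [← emap_comp, sub_add_cancel] at m4
    obtain ⟨μ, r1, r2, r3⟩ := hL C _ _ J1 _ _ _ _ _ _ (c 5) z dz loc (hs.free 7).toAct
      (hs.free 5).toAct (hs.ec 5) (hl 5) (h3 7) (h3 5) hp hloc (fun n μ q1 q2 j =>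
        had.src.ind n (Sum.elim μ 0) (by
          rintro (j | j) h
          exacts [q1 j h, rfl]) (by simpa [act_zero] using q2) (Sum.inl j))
      n S (fun _ h => h.1) a (Zy_mono (fun x hx => Set.mem_inter hx.1 (m1 x hx)) n ha) m4
      fun hn => had.ker n hn a (Zy_mono Set.inter_subset_left n ha) (Bd_mono (fun _ h => h.1) n hb)
    refine ⟨μ, r1, fun j g h x hx => mem_CtGeo.2 ⟨hx.1, ?_⟩, Bd_mono (fun x hx =>
      Set.mem_inter hx.1 (fib_CtGeo hs hx.1 hx.2.2 (by omega))) n r3⟩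
    rw [← eqv_CtGeo hs g _ (hloc j).1] at hx
    refine ((mem_CtGeo.1 hx).2.trans (r2 j g h).2).mono (in1_CtGeo hs hx.1) ?_
    have : rad 0 = 10 := rfl
    omega
  · have key : ∀ a ∈ {b | (St6 L φ 0 b).Nonempty}, ∀ b, St6 L φ 0 a ⊆ St6 L φ 100 b →
        Near (L 1).G (L 1).A (rad 0 + rad 100) a b := fun a ⟨v, hv⟩ b h =>
      ((mem_CtGeo.1 hv).2.symm (in1_CtGeo hs hv.1)).trans (mem_CtGeo.1 (h hv)).2
    have sub : ∀ a ∈ {b | (St6 L φ 0 b).Nonempty}, a ∈ (L 1).A := fun a ⟨v, hv⟩ =>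
      (mem_CtGeo.1 hv).2.mem (in1_CtGeo hs hv.1)
    intro I J _ _ _ _ pI pJ hI hJ M N e1 e2 c1 c2
    exact hV C _ _ _ _ _ _ _ _ (φ 0) _ _ (hs.free 0) (h3 0) (hs.free 1).toAct (hs.hφ 0).1 (hs.eφ 0)
      (hs.ball 0) T0_CtGeo.2 I J pI pJ (fun i => sub _ (hI i)) (fun j => sub _ (hJ j)) M N e1 e2
      (fun j i g h => key _ (inv g _ (hJ j)) _ (c1 j i g h))
      fun i j g h => key _ (inv g _ (hI i)) _ (c2 i j g h)

end Pool.Agent.MP_6374aa_gt
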