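import Pool.Agent.MP_6374aa_gt.IfQ
import Pool.Agent.MP_6374aa_gt.CtGeo

/-! The control data of an interleaved system, with an idempotent. -/

namespace Pool.Agent.MP_6374aa_gt

open Classical Matrix

section

variable {C : Type} [CommGroup C] [Fintype C] {L : ℕ → Lev C}
  {φ : ∀ i, (L (i + 1)).V → (L i).V} {c : ∀ i, (L (i + 2)).V → (L i).V}

theorem T0_CtGeo2 : 16 ≤ T0 := by
  have := T0_CtGeo.2
  omega

theorem shift_CtGeo2 {V : Type} {G : SimpleGraph V} {A : Set V} {α : C →* Equiv.Perm V}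
    (h : Act G A α) {n : ℕ} {a b : V} (hb : b ∈ A) {g : C} (hn : Near G A n (α g⁻¹ b) a) :
    Near G A n (α g a) b := by
  have h1 := hn.map (h.isIso g).isHom (h.mem _ b hb)
  have e : α g (α g⁻¹ b) = b := by simp
  rw [e] at h1
  exact h1.symm hb

variable (hs : IsSys T0 L φ c)
include hs

theorem fill_CtGeo2 (hl : ∀ i, Loc (L (i + 2)).G (L (i + 2)).A (L i).G (L i).A (c i))
    {u : (L 5).V} (hu : u ∈ (L 5).A) {n : ℕ} {z : EA (L 7).V}
    (hz : z ∈ Zy (L 7).G ((L 7).A ∩ c 5 ⁻¹' {s | Near (L 5).G (L 5).A 2 s u}) n)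
    (hb : emap (φ 6) z ∈ Bd (L 6).G (L 6).A n) :
    emap (φ 6) z ∈ Bd (L 6).G {v | v ∈ (L 6).A ∧
      Near (L 1).G (L 1).A 2 (ps_CtGeo φ (φ 5 v)) (ps_CtGeo φ u)} n := by
  have u4 := (hs.hφ 4).1 u hu
  have u2 := (hs.hφ 2).1 _ ((hs.hφ 3).1 _ u4)
  let S2 : Set (L 2).V := {s | s ∈ (L 2).A ∧ Adq (L 2).G (φ 2 (φ 3 (φ 4 u))) s}
  let S4 : Set (L 4).V := (L 4).A ∩ c 2 ⁻¹' S2
  let S6 : Set (L 6).V := (L 6).A ∩ c 4 ⁻¹' S4
  have h6 : emap (φ 6) z ∈ Zy (L 6).G S6 n := by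
    refine emap_mem_Zy ((hs.hφ 6).mono Set.inter_subset_left fun a ha => ?_) hz
    have a6 := (hs.hφ 6).1 a ha.1
    have a5 := (hs.hφ 5).1 _ a6
    have a4 := (hs.hc 4).1 _ a6
    have e : Near (L 5).G (L 5).A (1 + 2) (φ 5 (φ 6 a)) u :=
      (Near.of_adq ((hs.hc 5).1 a ha.1) (sc_CtGeo hs 5 ha.1 ha.1 (Adq.refl _ _)).symm).trans ha.2
    refine ⟨a6, a4, (hs.hc 2).1 _ a4, (hs.sc 2 _ a4 _ u4 (Near.mono (n := 1 + (1 + 2)) a4
      (by have := T0_CtGeo2; omega) ?_)).symm⟩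
    exact (Near.of_adq ((hs.hφ 4).1 _ a5) (sc_CtGeo hs 4 a6 a6 (Adq.refl _ _))).trans
      (e.map (hs.hφ 4) a5)
  have h4 : emap (c 4) (emap (φ 6) z) ∈ Zy (L 4).G S4 n :=
    emap_mem_Zy ((hs.hc 4).mono Set.inter_subset_left fun a ha => ha.2) h6
  have h2 : emap (c 2) (emap (c 4) (emap (φ 6) z)) ∈ Bd (L 2).G S2 n :=
    Zy_le_Bd_of_cone (S := S2) (T := S2) (And.intro u2 (Adq.refl _ _)) subset_rfl (fun t ht => ht.2) n
      (emap_mem_Zy ((hs.hc 2).mono Set.inter_subset_left fun a ha => ha.2) h4)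
  have k4 := (hl 2).s1 n S2 (fun _ h => h.1) _ h4 h2 (emap_mem_Bd (hs.hc 4) hb)
  refine Bd_mono (fun v hv => ?_) n ((hl 4).s1 n S4 Set.inter_subset_left _ h6 k4 hb)
  obtain ⟨v6, v4, v2, e⟩ := hv
  have w4 := (hs.hφ 4).1 _ ((hs.hφ 5).1 _ v6)
  have w2 := (hs.hφ 2).1 _ ((hs.hφ 3).1 _ w4)
  have e2 := sc_CtGeo hs 2 v4 w4 (sc_CtGeo hs 4 v6 v6 (Adq.refl _ _))
  exact ⟨v6, ((Near.of_adq v2 e2.symm).trans (Near.of_adq u2 e.symm)).map (hs.hφ 1) w2⟩

theorem one_CtGeo2 (h3 : Fin3 (L 4).G (L 4).A) {u : (L 5).V} (hu : u ∈ (L 5).A) {g : C}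
    (h : Near (L 5).G (L 5).A 2 ((L 5).α g u) u) : g = 1 := by
  have f5 := (hs.free 5).toAct
  have f4 := hs.free 4
  have hx := (hs.hφ 4).1 u hu
  have n1 : ∀ k : ℕ, Near (L 5).G (L 5).A (2 * k) ((L 5).α (g ^ k) u) u := by
    intro k
    induction k with
    | zero => simp [Near]
    | succ k ih =>
      have h1 := h.map (f5.isIso (g ^ k)).isHom (f5.mem g u hu)
      have h2 := h1.trans ih
      rw [pow_succ, map_mul, Equiv.Perm.mul_apply, Nat.mul_succ, Nat.add_comm]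
      exact h2
  have n2 : ∀ k l : ℕ, k < 5 → l < 5 →
      Adq (L 4).G ((L 4).α (g ^ k) (φ 4 u)) ((L 4).α (g ^ l) (φ 4 u)) := by
    intro k l hk hl
    rw [← hs.eφ 4 _ u hu, ← hs.eφ 4 _ u hu]
    refine hs.ball 4 _ (f5.mem _ u hu) _ (f5.mem _ u hu) ?_
    exact ((n1 k).trans ((n1 l).symm (f5.mem _ u hu))).mono (f5.mem _ u hu)
      (by have := T0_CtGeo2; omega)
  generalize φ 4 u = x at hx n2
  let s : Finset (L 4).V := (Finset.range 5).image fun k => (L 4).α (g ^ k) x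
  have s1 : (s : Set (L 4).V) ⊆ (L 4).A := by
    intro v hv
    obtain ⟨k, -, rfl⟩ := Finset.mem_image.1 (Finset.mem_coe.1 hv)
    exact f4.mem _ x hx
  have s2 : (L 4).G.IsClique (s : Set (L 4).V) := by
    intro v hv v' hv' hne
    obtain ⟨k, hk, rfl⟩ := Finset.mem_image.1 (Finset.mem_coe.1 hv)
    obtain ⟨l, hl, rfl⟩ := Finset.mem_image.1 (Finset.mem_coe.1 hv')
    exact (n2 k l (Finset.mem_range.1 hk) (Finset.mem_range.1 hl)).resolve_left hne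
  have s3 := h3.2 s s1 s2
  have n3 : ∀ k l : ℕ, k < l → (L 4).α (g ^ k) x = (L 4).α (g ^ l) x → g ^ (l - k) = 1 := by
    intro k l hkl e
    refine f4.free _ {x} (Finset.singleton_nonempty x) (by simpa using hx) (by simp) ?_
    rw [Finset.map_singleton]
    congr 1
    apply ((L 4).α (g ^ k)).injective
    change (L 4).α (g ^ k) ((L 4).α (g ^ (l - k)) x) = _
    rw [← Equiv.Perm.mul_apply, ← map_mul, ← pow_add, Nat.add_sub_cancel' hkl.le, e]
  obtain ⟨m, m1, m2, m3⟩ : ∃ m, 1 ≤ m ∧ m ≤ 4 ∧ g ^ m = 1 := by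
    obtain ⟨k, hk, l, hl, hne, e⟩ := Finset.exists_ne_map_eq_of_card_lt_of_maps_to
      (s := Finset.range 5) (t := s) (by rw [Finset.card_range]; omega)
      (f := fun k => (L 4).α (g ^ k) x) fun k hk => Finset.mem_image_of_mem _ hk
    rw [Finset.mem_range] at hk hl
    rcases lt_or_gt_of_ne hne with h1 | h1
    · exact ⟨l - k, by omega, by omega, n3 k l h1 e⟩
    · exact ⟨k - l, by omega, by omega, n3 l k h1 e.symm⟩
  refine f4.free g s ⟨_, Finset.mem_image_of_mem _ (Finset.mem_range.2 (by norm_num : 0 < 5))⟩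
    s1 s2 (Finset.eq_of_subset_of_card_le (fun v hv => ?_) (by rw [Finset.card_map]))
  obtain ⟨v', hv', rfl⟩ := Finset.mem_map.1 hv
  obtain ⟨k, hk, rfl⟩ := Finset.mem_image.1 hv'
  rw [Finset.mem_range] at hk
  have e : (L 4).α g ((L 4).α (g ^ k) x) = (L 4).α (g ^ (k + 1)) x := by
    rw [← Equiv.Perm.mul_apply, ← map_mul, ← pow_succ']
  change (L 4).α g ((L 4).α (g ^ k) x) ∈ s
  rw [e]
  by_cases hk4 : k + 1 < 5
  · exact Finset.mem_image_of_mem _ (Finset.mem_range.2 hk4)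
  · have e2 : g ^ (k + 1) = g ^ (5 - m) := by
      rw [show k + 1 = 5 - m + m by omega, pow_add, m3, mul_one]
    rw [e2]
    exact Finset.mem_image_of_mem _ (Finset.mem_range.2 (by omega))

theorem nr_CtGeo2 {W : Type} [Fintype W] [DecidableEq W] {ζ : EA (L 7).V}
    {ν y a : W → EA (L 7).V} {loc : W → (L 5).V} {e : Matrix W W (RC C)}
    (hm : ∀ j, loc j ∈ (L 5).A)
    (ie : IdE (L 7).G (L 7).A (L 7).α ζ (L 6).G (L 6).A (φ 6) (c 5) (L 5).α ν y a loc e)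
    (i j : W) (g : C) (h : (e i j).coeff g ≠ 0 ∨ (eᴴ i j).coeff g ≠ 0) :
    Near (L 5).G (L 5).A 2 ((L 5).α g (loc i)) (loc j) := by
  have k : ∀ i j g, (e i j).coeff g ≠ 0 → Near (L 5).G (L 5).A 2 ((L 5).α g (loc i)) (loc j) := by
    intro i j g h
    rcases ie.ctl i j g h with ⟨rfl, rfl⟩ | ⟨p, hp, q, hq, e1, e2, e3⟩
    · rw [map_one]
      exact Near.refl (hm i) 2
    · rw [← e1, ← e2]
      have h1 := sc_CtGeo hs 5 hq hq (Adq.refl _ _)
      have h2 := sc_CtGeo hs 5 hp hp (Adq.refl _ _)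
      rw [← e3] at h1
      exact (Near.of_adq ((hs.hφ 5).1 _ ((hs.hφ 6).1 p hp)) h1).trans
        (Near.of_adq ((hs.hc 5).1 p hp) h2.symm)
  rcases h with h | h
  · exact k i j g h
  · rw [conjTranspose_apply, coeff_star] at h
    exact shift_CtGeo2 (hs.free 5).toAct (hm j) (k j i g⁻¹ h)

theorem nr1_CtGeo2 {u v : (L 5).V} (hu : u ∈ (L 5).A) {g : C} {n : ℕ}
    (h : Near (L 5).G (L 5).A n ((L 5).α g u) v) :
    Near (L 1).G (L 1).A n ((L 1).α g (ps_CtGeo φ u)) (ps_CtGeo φ v) := by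
  rw [← eqv_CtGeo hs g u hu]
  exact h.map (hom_CtGeo hs) ((hs.free 5).mem g u hu)

end

section

variable {C V W : Type} [CommGroup C] [Fintype C] [Fintype W] {α : C →* Equiv.Perm V}

theorem elim_CtGeo2 (ν y : W → EA V) (e e' : Matrix W W (RC C)) :
    Sum.elim (cmb α ν e) (cmb α y e') = cmb α (Sum.elim ν y) (fromBlocks e 0 0 e') := by
  funext j
  cases j <;> simp [cmb, act_zero]

theorem blk_CtGeo2 {e e' : Matrix W W (RC C)} {P : W → W → C → Prop}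
    (h : ∀ i j g, (e i j).coeff g ≠ 0 ∨ (e' i j).coeff g ≠ 0 → P i j g) (i j : W ⊕ W) (g : C)
    (hg : (fromBlocks e 0 0 e' i j).coeff g ≠ 0) :
    P (Sum.elim id id i) (Sum.elim id id j) g ∧ d23 W i = d23 W j := by
  rcases i with i | i <;> rcases j with j | j
  · exact ⟨h i j g (Or.inl hg), rfl⟩
  · simp at hg
  · simp at hg
  · exact ⟨h i j g (Or.inr hg), rfl⟩

theorem sum1_CtGeo2 (ν y : W → EA V) {μ : W ⊕ W → RC C} (h : ∀ j, d23 W j ≠ 2 → μ j = 0) :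
    ∑ j, act α (μ j) (Sum.elim ν y j) = ∑ j, act α (μ (Sum.inl j)) (ν j) := by
  have : ∀ j, μ (Sum.inr j) = 0 := fun j => h _ (by simp [d23])
  simp [this, act_zero]

theorem sum2_CtGeo2 (ν y : W → EA V) {μ : W ⊕ W → RC C} (h : ∀ j, d23 W j ≠ 3 → μ j = 0) :
    ∑ j, act α (μ j) (Sum.elim ν y j) = ∑ j, act α (μ (Sum.inr j)) (y j) := by
  have : ∀ j, μ (Sum.inl j) = 0 := fun j => h _ (by simp [d23])
  simp [this, act_zero]

end

theorem ctGeo2 (hL : La2Stmt) (hV : VpStmt) (hP : VpPStmt) : CtGeo2Stmt := by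
  intro C _ _ _ L φ c W _ _ ζ ν y a loc e hs h3 hp hl df ie
  obtain ⟨a0, -⟩ := hp.1
  have nr := nr_CtGeo2 hs df.mem ie
  have he : e * e = e := ie.kd.idem
  have he' : eᴴ * eᴴ = eᴴ := by rw [← conjTranspose_mul, he]
  obtain ⟨E, hE⟩ : ∃ E, E = fromBlocks e 0 0 eᴴ := ⟨_, rfl⟩
  have hEE : E * E = E := by
    rw [hE, fromBlocks_multiply]
    simp [he, he']
  obtain ⟨lc, hlc⟩ : ∃ lc : W ⊕ W → (L 5).V, lc = fun j => loc (Sum.elim id id j) := ⟨_, rfl⟩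
  have lm : ∀ j, lc j ∈ (L 5).A := fun j => hlc ▸ df.mem _
  have nE : ∀ i j g, (E i j).coeff g ≠ 0 →
      Near (L 5).G (L 5).A 2 ((L 5).α g (lc i)) (lc j) ∧ d23 W i = d23 W j := by
    rw [hE, hlc]
    exact blk_CtGeo2 nr
  have hpz : (Sum.elim (fun j => ps_CtGeo φ (loc j)) fun j => ps_CtGeo φ (loc j)) =
      fun j => ps_CtGeo φ (lc j) := by
    funext j
    cases j <;> simp [hlc]
  have hx : ∀ j, Sum.elim ν y j ∈ Zy (L 7).G ((L 7).A ∩ c 5 ⁻¹' {lc j}) (d23 W j) := by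
    rw [hlc]
    rintro (j | j)
    exacts [df.l1 j, df.l2 j]
  have hz0 := elim_CtGeo2 (α := (L 7).α) ν y e eᴴ
  rw [← hE] at hz0
  have hz : ∀ j, cmb (L 7).α (Sum.elim ν y) E j ∈
      Zy (L 7).G ((L 7).A ∩ c 5 ⁻¹' {s | Near (L 5).G (L 5).A 2 s (lc j)}) (d23 W j) := by
    intro j
    refine sum_act_mem _ fun i g hg => ?_
    obtain ⟨q1, q2⟩ := nE i j g hg
    rw [← q2]
    refine emap_mem_Zy ((((hs.free 7).toAct.isIso g).isHom).mono Set.inter_subset_left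
      fun v hv => Set.mem_inter ((hs.free 7).mem g v hv.1) ?_) (hx i)
    change Near _ _ 2 (c 5 ((L 7).α g v)) _
    rw [hs.ec 5 g v hv.1, show c 5 v = lc i from hv.2]
    exact q1
  have hb : ∀ j, emap (φ 6) (cmb (L 7).α (Sum.elim ν y) E j) ∈ Bd (L 6).G (L 6).A (d23 W j) := by
    rw [← hz0]
    rintro (j | j)
    exacts [ie.b1 j, ie.b2 j]
  choose w w1 w2 using fun j => mem_Bd.1 (fill_CtGeo2 hs hl (lm j) (hz j) (hb j))
  have r0 : rad 0 = 10 := rfl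
  have r1 : rad 1 = 30 := rfl
  have eq6 : ∀ g, ∀ v ∈ (L 6).A, ps_CtGeo φ (φ 5 ((L 6).α g v)) =
      (L 1).α g (ps_CtGeo φ (φ 5 v)) := fun g v hv =>
    (congrArg (ps_CtGeo φ) (hs.eφ 5 g v hv)).trans (eqv_CtGeo hs g _ ((hs.hφ 5).1 v hv))
  have eqv : ∀ k b g v, v ∈ St6 L φ k b → (L 6).α g v ∈ St6 L φ k ((L 1).α g b) := by
    intro k b g v hv
    refine mem_CtGeo.2 ⟨(hs.free 6).mem g v hv.1, ?_⟩
    rw [eq6 g v hv.1]
    exact (mem_CtGeo.1 hv).2.map ((hs.free 1).toAct.isIso g).isHom (in1_CtGeo hs hv.1)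
  have inv : ∀ g, ∀ b ∈ {b | (St6 L φ 0 b).Nonempty},
      (L 1).α g b ∈ {b | (St6 L φ 0 b).Nonempty} := fun g b ⟨v, hv⟩ => ⟨_, eqv 0 b g v hv⟩
  have key : ∀ a ∈ {b | (St6 L φ 0 b).Nonempty}, ∀ b, St6 L φ 0 a ⊆ St6 L φ 100 b →
      Near (L 1).G (L 1).A (rad 0 + rad 100) a b := fun a ⟨v, hv⟩ b h =>
    ((mem_CtGeo.1 hv).2.symm (in1_CtGeo hs hv.1)).trans (mem_CtGeo.1 (h hv)).2
  have sub : ∀ a ∈ {b | (St6 L φ 0 b).Nonempty}, a ∈ (L 1).A := fun a ⟨v, hv⟩ =>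
    (mem_CtGeo.1 hv).2.mem (in1_CtGeo hs hv.1)
  have pzB : ∀ u ∈ (L 5).A, ps_CtGeo φ u ∈ {b | (St6 L φ 0 b).Nonempty} := by
    intro u hu
    obtain ⟨a, ha, e⟩ := (hl 5).surj _ hu
    exact ⟨φ 6 a, fib_CtGeo hs ha (n := 0) (congrArg (ps_CtGeo φ) e) (by norm_num [rad])⟩
  have ctl : ∀ i j g, (e i j).coeff g ≠ 0 ∨ (eᴴ i j).coeff g ≠ 0 →
      St6 L φ 0 ((L 1).α g (ps_CtGeo φ (loc i))) ⊆ St6 L φ 1 (ps_CtGeo φ (loc j)) :=
    fun i j g h x hx => mem_CtGeo.2 ⟨hx.1, ((mem_CtGeo.1 hx).2.trans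
      (nr1_CtGeo2 hs (df.mem i) (nr i j g h))).mono (in1_CtGeo hs hx.1) (by omega)⟩
  refine ⟨fun σ => ps_CtGeo φ (φ 5 (if h : σ.Nonempty then h.choose else φ 6 a0)),
    fun j => ps_CtGeo φ (loc j), cmb (L 6).α w E, {b | (St6 L φ 0 b).Nonempty}, ?_, ?_,
    fun i j g h => ctl i j g (Or.inl h), fun i j g h => ctl i j g (Or.inr h), ?_, ?_⟩
  · rw [hz0, hpz]
    refine ⟨inv, eqv,
      fun k b v hv => adj_CtGeo hs hv hv.1 (Adq.refl _ _), fun k b v hv => hv.1,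
      fun σ s1 s2 s3 => ?_, ?_, fun j => ⟨pzB _ (lm j), ?_, ?_, ?_⟩, fun k b _ v hv => ?_,
      fun k n b _ => la1_CtGeo hs hl k n b, fun k n b _ a ha hb => ?_, ?_⟩
    · rw [dif_pos s1]
      have hv := s1.choose_spec
      generalize s1.choose = v at hv
      have h0 := Near.refl (G := (L 1).G) (in1_CtGeo hs (s2 hv))
      refine ⟨⟨v, mem_CtGeo.2 ⟨s2 hv, h0 _⟩⟩, fun x hx => mem_CtGeo.2 ⟨s2 hx, ?_⟩,
        fun k b _ h x hx => mem_CtGeo.2 ⟨hx.1, ?_⟩⟩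
      · refine step_CtGeo hs ((hs.hφ 5).1 x (s2 hx)) ((hs.hφ 5).1 v (s2 hv))
          ((hs.hφ 5).adq (s2 hx) (s2 hv) ?_) (h0 0) (by norm_num [rad])
        exact (eq_or_ne x v).imp id fun e => s3 hx hv e
      · refine ((mem_CtGeo.1 hx).2.trans (mem_CtGeo.1 (h hv)).2).mono (in1_CtGeo hs hx.1) ?_
        have := rad_CtGeo k
        omega
    · rintro k a ⟨v, hv⟩ b - h x hx
      refine mem_CtGeo.2 ⟨hx.1, ((mem_CtGeo.1 hx).2.trans (((mem_CtGeo.1 hv).2.symm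
        (in1_CtGeo hs hv.1)).trans (mem_CtGeo.1 (h hv)).2)).mono (in1_CtGeo hs hx.1) ?_⟩
      have := rad_CtGeo k
      omega
    · refine Ch_mono (fun a ha => ?_) _ (mem_Zy.1 (hz j)).1
      exact ⟨ha.1, fib_CtGeo hs ha.1 (n := 2)
        (Near.map (hom_CtGeo hs) ((hs.hc 5).1 a ha.1) ha.2) (by omega)⟩
    · refine sum_act_mem _ fun i g hg => ?_
      obtain ⟨q1, q2⟩ := nE i j g hg
      rw [← q2]
      refine emap_mem_Ch ((((hs.free 6).toAct.isIso g).isHom).mono (fun _ h => h.1)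
        fun v hv => mem_CtGeo.2 ⟨(hs.free 6).mem g v hv.1, ?_⟩) (w1 i)
      refine Near.mono (n := 2 + 2) (in1_CtGeo hs ((hs.free 6).mem g v hv.1)) (by omega) ?_
      rw [eq6 g v hv.1]
      exact (hv.2.map ((hs.free 1).toAct.isIso g).isHom (in1_CtGeo hs hv.1)).trans
        (nr1_CtGeo2 hs (lm i) q1)
    · conv_rhs => rw [← hEE, ← cmb_cmb]
      rw [cmb, cmb, emap_sum_act (hs.eφ 6) (fun i => ⟨_, Ch_mono Set.inter_subset_left _
        (mem_Zy.1 (hz i)).1⟩), map_sum]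
      exact Finset.sum_congr rfl fun i _ => by rw [bd_act, w2]
    · obtain ⟨x, hx, e⟩ := (hl 6).surj v hv.1
      have h1 := sc_CtGeo hs 6 hx hx (Adq.refl _ _)
      rw [e] at h1
      exact ⟨φ 7 x, (hs.hφ 7).1 x hx, adj_CtGeo hs hv ((hs.hφ 6).1 _ ((hs.hφ 7).1 x hx)) h1, h1⟩
    · let S : Set (L 5).V :=
        {s | s ∈ (L 5).A ∧ Near (L 1).G (L 1).A (1 + rad k) (ps_CtGeo φ s) b}
      have hr := rad_CtGeo k
      have m1 : ∀ x ∈ (L 7).A ∩ φ 6 ⁻¹' St6 L φ k b, c 5 x ∈ S := fun x hx =>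
        ⟨(hs.hc 5).1 x hx.1, step_CtGeo hs ((hs.hc 5).1 x hx.1) ((hs.hφ 5).1 _ hx.2.1)
          (sc_CtGeo hs 5 hx.1 hx.1 (Adq.refl _ _)) (mem_CtGeo.1 hx.2).2 le_rfl⟩
      have m2 : ∀ v ∈ St6 L φ k b, φ 5 v ∈ S := fun v hv =>
        ⟨(hs.hφ 5).1 v hv.1, (mem_CtGeo.1 hv).2.mono (in1_CtGeo hs hv.1) (by omega)⟩
      have m3 := emap_sub_mem_Bd ((hs.hc 5).mono Set.inter_subset_left m1)
        (((hs.hφ 5).comp (hs.hφ 6)).mono Set.inter_subset_left fun x hx => m2 _ hx.2)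
        (fun a ha b hb h => sc_CtGeo hs 5 ha.1 hb.1 h) ha
      have m4 := add_mem m3 (emap_mem_Bd ((hs.hφ 5).mono (fun _ h => h.1) m2) hb)
      rw [← emap_comp, sub_add_cancel] at m4
      have a7 := Zy_mono Set.inter_subset_left n ha
      have m5 : emap (c 5) a ∈ Bd (L 5).G (L 5).A n := Bd_mono (fun _ h => h.1) n m4
      obtain ⟨μ, r1, r2, r3⟩ := hL C _ _ (W ⊕ W) _ _ _ _ _ _ (c 5) (Sum.elim ν y) (d23 W) lc
        (hs.free 7).toAct (hs.free 5).toAct (hs.ec 5) (hl 5) (h3 7) (h3 5) hp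
        (fun j => ⟨lm j, hx j⟩) (fun n μ q1 q2 j => by
          by_contra hj
          have hn : d23 W j = n := by
            by_contra hn
            exact hj (q1 j hn)
          subst hn
          rcases j with j | j
          · rw [sum1_CtGeo2 ν y q1] at q2
            have := congrFun (df.kd.rel1 _ q2) j
            rw [one_mulVec] at this
            exact hj this
          · rw [sum2_CtGeo2 ν y q1] at q2
            have := congrFun (df.kd.rel2 _ q2) j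
            rw [conjTranspose_one, one_mulVec] at this
            exact hj this)
        n S (fun _ h => h.1) a (Zy_mono (fun x hx => Set.mem_inter hx.1 (m1 x hx)) n ha) m4
        (by
          rintro (rfl | rfl)
          · obtain ⟨μ, hμ⟩ := df.k1 a a7 m5
            refine ⟨Sum.elim μ 0, ?_, by simpa [act_zero] using hμ⟩
            rintro (j | j) h
            exacts [absurd rfl h, rfl]
          · obtain ⟨μ, hμ⟩ := df.k2 a a7 m5
            refine ⟨Sum.elim 0 μ, ?_, by simpa [act_zero] using hμ⟩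
            rintro (j | j) h
            exacts [rfl, absurd rfl h])
      have m6 : emap (φ 6) (∑ j, act (L 7).α (μ j) (Sum.elim ν y j)) ∈ Bd (L 6).G (L 6).A n := by
        have := sub_mem (Bd_mono (fun _ h => h.1) n hb)
          (emap_mem_Bd (hs.hφ 6) (Bd_mono Set.inter_subset_left n r3))
        rwa [map_sub, sub_sub_cancel] at this
      have m7 : e.mulVec (μ ∘ Sum.inl) = μ ∘ Sum.inl := by
        by_cases hn : n = 2
        · subst hn
          rw [sum1_CtGeo2 ν y r1] at m6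
          exact ie.k1 _ m6
        · have : μ ∘ Sum.inl = 0 := funext fun j => r1 _ (Ne.symm hn)
          rw [this, mulVec_zero]
      have m8 : eᴴ.mulVec (μ ∘ Sum.inr) = μ ∘ Sum.inr := by
        by_cases hn : n = 3
        · subst hn
          rw [sum2_CtGeo2 ν y r1] at m6
          exact ie.k2 _ m6
        · have : μ ∘ Sum.inr = 0 := funext fun j => r1 _ (Ne.symm hn)
          rw [this, mulVec_zero]
      have m9 : E.mulVec μ = μ := by
        rw [hE, fromBlocks_mulVec, m7, m8, zero_mulVec, zero_mulVec, add_zero, zero_add,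
          Sum.elim_comp_inl_inr]
      refine ⟨μ, r1, fun j g h x hx => mem_CtGeo.2 ⟨hx.1, ?_⟩, ?_⟩
      · rw [← eqv_CtGeo hs g _ (lm j)] at hx
        refine ((mem_CtGeo.1 hx).2.trans (r2 j g h).2).mono (in1_CtGeo hs hx.1) ?_
        omega
      · rw [sum_act_cmb, m9]
        exact Bd_mono (fun x hx =>
          Set.mem_inter hx.1 (fib_CtGeo hs hx.1 hx.2.2 (by omega))) n r3
    · intro I J _ _ _ _ pI pJ hI hJ M N e1 e2 c1 c2
      exact hV C _ _ _ _ _ _ _ _ (φ 0) _ _ (hs.free 0) (h3 0) (hs.free 1).toAct (hs.hφ 0).1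
        (hs.eφ 0) (hs.ball 0) T0_CtGeo.2 I J pI pJ (fun i => sub _ (hI i)) (fun j => sub _ (hJ j))
        M N e1 e2 (fun j i g h => key _ (inv g _ (hJ j)) _ (c1 j i g h))
        fun i j g h => key _ (inv g _ (hI i)) _ (c2 i j g h)
  · intro j
    rw [← hE, cmb_cmb, hEE]
  · have c0 : ∀ i j g, (e i j).coeff g ≠ 0 ∨ (eᴴ i j).coeff g ≠ 0 →
        Near (L 1).G (L 1).A (rad 0 + rad 100) ((L 1).α g (ps_CtGeo φ (loc i)))
          (ps_CtGeo φ (loc j)) := fun i j g h =>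
      (nr1_CtGeo2 hs (df.mem i) (nr i j g h)).mono
        ((hs.free 1).mem g _ ((hom_CtGeo hs).1 _ (df.mem i))) (by omega)
    have hv := hP C _ _ _ _ _ _ _ _ (φ 0) _ _ (hs.free 0) (h3 0) (hs.free 1).toAct (hs.hφ 0).1
      (hs.eφ 0) (hs.ball 0) T0_CtGeo.2 W (fun j => ps_CtGeo φ (loc j)) eᴴ
      (fun j => (hom_CtGeo hs).1 _ (df.mem j)) he' (fun i j g h => c0 i j g (Or.inr h))
      (fun i j g h => c0 i j g (Or.inl (by rwa [conjTranspose_conjTranspose] at h)))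
    intro I J _ _ _ _ pI pJ hI hJ Ψ Ψ' c1 c2
    refine hv I J pI pJ (fun i => sub _ (hI i)) (fun j => sub _ (hJ j)) Ψ Ψ'
      (fun j i g h => key _ (inv g _ ?_) _ (c1 j i g h))
      fun i j g h => key _ (inv g _ ?_) _ (c2 i j g h)
    · cases j
      exacts [hJ _, pzB _ (df.mem _)]
    · cases i
      exacts [hI _, pzB _ (df.mem _)]
  · refine ⟨e.trace.coeff 1, ext_FrB fun g => ?_⟩
    by_cases hg : g = 1
    · subst hg
      simp
    · have h0 : ∀ i, (e i i).coeff g = 0 := fun i => by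
        by_contra h
        exact hg (one_CtGeo2 hs (h3 4) (df.mem i) (nr i i g (Or.inl h)))
      simp [trace, h0, hg]

end Pool.Agent.MP_6374aa_gt
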