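import Pool.Agent.MP_6374aa_gt.CutSA

/-! Cutting a banded idempotent: operators on two sided sequences. -/

namespace Pool.Agent.MP_6374aa_gt

open Classical Matrix

noncomputable section

/-- Endomorphisms of two sided sequences. -/
abbrev Om_CutS (S : Type) [CommRing S] : Type := Module.End S (ℤ → S)

variable (S : Type) [CommRing S]

/-- The shift. -/
def sh_CutS : Zm →* Om_CutS S where
  toFun n := LinearMap.funLeft S S fun m => m - Multiplicative.toAdd n
  map_one' := LinearMap.ext fun f => funext fun m => by simp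
  map_mul' a b := LinearMap.ext fun f => funext fun m => by simp [sub_sub]

/-- Laurent polynomials acting on sequences. -/
def psi_CutS : MonoidAlgebra S Zm →ₐ[S] Om_CutS S :=
  MonoidAlgebra.lift S (Om_CutS S) Zm (sh_CutS S)

/-- Truncation to the degrees at least `L`. -/
def tr_CutS (L : ℤ) : Om_CutS S where
  toFun f m := if L ≤ m then f m else 0
  map_add' f g := funext fun m => by by_cases h : L ≤ m <;> simp [h]
  map_smul' r f := funext fun m => by by_cases h : L ≤ m <;> simp [h]

variable {S}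

theorem tr_apply_CutS (L : ℤ) (f : ℤ → S) (m : ℤ) :
    tr_CutS S L f m = if L ≤ m then f m else 0 := rfl

theorem psi_single_CutS (n : Zm) (r : S) (f : ℤ → S) (m : ℤ) :
    psi_CutS S (MonoidAlgebra.single n r) f m = r * f (m - Multiplicative.toAdd n) := by
  rw [psi_CutS, MonoidAlgebra.lift_single]; rfl

theorem trtr_CutS (a b : ℤ) : tr_CutS S a * tr_CutS S b = tr_CutS S (max a b) :=
  LinearMap.ext fun f => funext fun m => by
    simp only [Module.End.mul_apply, tr_apply_CutS, max_le_iff]
    by_cases ha : a ≤ m <;> by_cases hb : b ≤ m <;> simp [ha, hb]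

/-- The operator moves degrees by at most `k`. -/
def Bd_CutS (k : ℤ) (w : Om_CutS S) : Prop :=
  ∀ L, tr_CutS S (L + k) * w * tr_CutS S L = tr_CutS S (L + k) * w ∧
    tr_CutS S L * w * tr_CutS S (L + k) = w * tr_CutS S (L + k)

theorem bd_CutS (r : MonoidAlgebra S Zm) :
    ∀ᶠ k : ℤ in Filter.atTop, Bd_CutS k (psi_CutS S r) := by
  induction r using MonoidAlgebra.induction_linear with
  | zero => exact Filter.Eventually.of_forall fun k L => by simp
  | add a b ha hb =>
    filter_upwards [ha, hb] with k h1 h2 L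
    rw [map_add]
    exact ⟨by rw [mul_add, add_mul, (h1 L).1, (h2 L).1],
      by rw [mul_add, add_mul, (h1 L).2, (h2 L).2, add_mul]⟩
  | single n r =>
    filter_upwards [Filter.eventually_ge_atTop |Multiplicative.toAdd n|] with k hk L
    have := abs_le.1 hk
    constructor <;> refine LinearMap.ext fun f => funext fun m => ?_ <;>
      simp only [Module.End.mul_apply, tr_apply_CutS, psi_single_CutS] <;> split_ifs <;>
      first | rfl | omega | simp

variable {X Y : Type} [Fintype X] [DecidableEq X]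

theorem bdm_CutS (U U' : Matrix X X (MonoidAlgebra S Zm)) :
    ∃ k : ℤ, 0 ≤ k ∧ ∀ V, V = U ∨ V = U' → ∀ L,
      scalar X (tr_CutS S (L + k)) * (psi_CutS S).toRingHom.mapMatrix V * scalar X (tr_CutS S L) =
        scalar X (tr_CutS S (L + k)) * (psi_CutS S).toRingHom.mapMatrix V ∧
      scalar X (tr_CutS S L) * (psi_CutS S).toRingHom.mapMatrix V * scalar X (tr_CutS S (L + k)) =
        (psi_CutS S).toRingHom.mapMatrix V * scalar X (tr_CutS S (L + k)) := by
  have h : ∀ V : Matrix X X (MonoidAlgebra S Zm),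
      ∀ᶠ k : ℤ in Filter.atTop, ∀ a b, Bd_CutS k (psi_CutS S (V a b)) := fun V =>
    Filter.eventually_all.2 fun a => Filter.eventually_all.2 fun b => bd_CutS _
  obtain ⟨k, h0, h1, h2⟩ := ((Filter.eventually_ge_atTop 0).and ((h U).and (h U'))).exists
  refine ⟨k, h0, fun V hV L => ?_⟩
  have h3 : ∀ a b, Bd_CutS k (psi_CutS S (V a b)) := by rcases hV with rfl | rfl <;> assumption
  constructor <;> refine Matrix.ext fun a b => ?_ <;>
    simp only [scalar_apply, diagonal_mul, mul_diagonal]
  · exact (h3 a b L).1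
  · exact (h3 a b L).2

/-- Compression to a family of indices. -/
def cmp_CutS (g : Y → X × ℤ) (B : Matrix X X (Om_CutS S)) : Matrix Y Y S :=
  fun a b => B (g a).1 (g b).1 (Pi.single (g b).2 1) (g a).2

theorem win_CutS (lo hi : ℤ) (h : lo ≤ hi) (f : ℤ → S) :
    (tr_CutS S lo - tr_CutS S hi) f =
      ∑ m ∈ Finset.Ico lo hi, f m • (Pi.single m 1 : ℤ → S) := by
  funext n
  simp only [LinearMap.sub_apply, Pi.sub_apply, tr_apply_CutS, Finset.sum_apply, Pi.smul_apply,
    Pi.single_apply, smul_eq_mul, mul_ite, mul_one, mul_zero, Finset.sum_ite_eq, Finset.mem_Ico]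
  split_ifs <;> first | omega | simp

theorem cmp_mul_CutS [Fintype Y] (g : Y → X × ℤ) (hg : Function.Injective g) (lo hi : ℤ)
    (h : lo ≤ hi) (hr : ∀ p : X × ℤ, (∃ a, g a = p) ↔ lo ≤ p.2 ∧ p.2 < hi)
    (B C : Matrix X X (Om_CutS S)) :
    cmp_CutS g (B * scalar X (tr_CutS S lo - tr_CutS S hi) * C) = cmp_CutS g B * cmp_CutS g C := by
  ext a b
  have e1 : Finset.univ.image g = Finset.univ ×ˢ Finset.Ico lo hi := by
    ext p
    simp [hr p]
  let F : X × ℤ → S := fun p =>
    B (g a).1 p.1 (Pi.single p.2 1) (g a).2 * C p.1 (g b).1 (Pi.single (g b).2 1) p.2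
  have e2 : (cmp_CutS g B * cmp_CutS g C) a b = ∑ y, F (g y) := rfl
  rw [e2, ← Finset.sum_image (fun x _ y _ hxy => hg hxy), e1, Finset.sum_product]
  simp only [cmp_CutS, mul_apply (M := B * _), scalar_apply, mul_diagonal, LinearMap.sum_apply,
    Finset.sum_apply, Module.End.mul_apply, win_CutS lo hi h, map_sum, map_smul, Pi.smul_apply,
    smul_eq_mul, F]
  exact Finset.sum_congr rfl fun y _ => Finset.sum_congr rfl fun m _ => mul_comm _ _

omit [Fintype X] in
theorem cmp_diag_CutS [DecidableEq Y] (g : Y → X × ℤ) (hg : Function.Injective g)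
    (w : X → Om_CutS S) (v : X → ℤ → S) (hw : ∀ x f n, w x f n = v x n * f n) :
    cmp_CutS g (diagonal w) = diagonal fun a => v (g a).1 (g a).2 := by
  ext a b
  rw [cmp_CutS, diagonal_apply, diagonal_apply]
  by_cases h : a = b
  · subst h; simp [hw]
  · rw [if_neg h]
    split_ifs with h1
    · have h2 : (g a).2 ≠ (g b).2 := fun h2 => h (hg (Prod.ext h1 h2))
      rw [hw, Pi.single_eq_of_ne h2, mul_zero]
    · rfl

omit [Fintype X] in
theorem cmp_one_CutS [DecidableEq Y] (g : Y → X × ℤ) (hg : Function.Injective g) :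
    cmp_CutS g (1 : Matrix X X (Om_CutS S)) = 1 :=
  cmp_diag_CutS g hg (fun _ => 1) (fun _ _ => 1) fun _ _ _ => (one_mul _).symm

omit [Fintype X] [DecidableEq X] in
theorem cmp_add_CutS (g : Y → X × ℤ) (B C : Matrix X X (Om_CutS S)) :
    cmp_CutS g (B + C) = cmp_CutS g B + cmp_CutS g C := rfl

/-- The compression of an idempotent commuting with the window. -/
theorem cmp_main_CutS [Fintype Y] [DecidableEq Y] (g : Y → X × ℤ) (hg : Function.Injective g)
    (lo hi : ℤ) (h : lo ≤ hi) (hr : ∀ p : X × ℤ, (∃ a, g a = p) ↔ lo ≤ p.2 ∧ p.2 < hi)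
    (π E : Matrix X X (Om_CutS S)) (h1 : π * π = π) (h2 : π * E = E * π)
    (h3 : π * scalar X (tr_CutS S lo - tr_CutS S hi) =
      scalar X (tr_CutS S lo - tr_CutS S hi) * π) :
    cmp_CutS g π * cmp_CutS g π = cmp_CutS g π ∧
      cmp_CutS g π * cmp_CutS g E = cmp_CutS g E * cmp_CutS g π := by
  have m := cmp_mul_CutS (S := S) g hg lo hi h hr
  set ω := scalar X (tr_CutS S lo - tr_CutS S hi)
  have l : ∀ B, cmp_CutS g (ω * B) = cmp_CutS g B := fun B => by
    have := m 1 B
    rwa [one_mul, cmp_one_CutS g hg, one_mul] at this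
  have r : ∀ B, cmp_CutS g (B * ω) = cmp_CutS g B := fun B => by
    have := m B 1
    rwa [mul_one, cmp_one_CutS g hg, mul_one] at this
  constructor
  · rw [← m, h3, mul_assoc, h1, l]
  · rw [← m, ← m, h3, mul_assoc, l, mul_assoc, ← h3, ← mul_assoc, r, h2]

end

end Pool.Agent.MP_6374aa_gt
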