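import Pool.Agent.MP_6374aa_gt.IfP
import Pool.Agent.MP_6374aa_gt.CutSB

/-! Cutting a banded idempotent. -/

namespace Pool.Agent.MP_6374aa_gt

open Classical Matrix

noncomputable section

theorem op_CutS {S X : Type} [CommRing S] [Fintype X] [DecidableEq X] (e α β : Matrix X X S)
    (x o p : X → Bool) (U U' q : Matrix X X (MonoidAlgebra S Zm))
    (hq : ∀ a b, q a b = algebraMap S _ (dg S x a b) +
      (MonoidAlgebra.single (Multiplicative.ofAdd (1 : ℤ)) 1 - 1) * algebraMap S _ (α a b) +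
      (MonoidAlgebra.single (Multiplicative.ofAdd (-1 : ℤ)) 1 - 1) * algebraMap S _ (β a b))
    (h1 : e * dg S x = dg S x * e - β + α) (h2 : e * α = α) (h3 : α * e = 0) (h4 : e * β = 0)
    (h5 : β * e = β) (hU : U * U' = 1) (hU' : U' * U = 1) (hp : U * q * U' = dg _ p)
    (ho : U * dg _ o = dg _ o * U) (ho' : U' * dg _ o = dg _ o * U') :
    ∃ (k : ℤ) (π E : Matrix X X (Om_CutS S)), 0 ≤ k ∧ π * π = π ∧ π * E = E * π ∧
      π * scalar X (tr_CutS S (-(2 * k)) - tr_CutS S (2 * k + 1)) =
        scalar X (tr_CutS S (-(2 * k)) - tr_CutS S (2 * k + 1)) * π ∧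
      (∀ a b f n, E a b f n =
        (if a = b ∧ n < 0 then f n else 0) + if n = 0 then e a b * f 0 else 0) ∧
      ∀ a, (∀ b, q a b = dg _ o a b ∧ q b a = dg _ o b a) → ∀ b f n,
        π a b f n = dg S o a b * f n ∧ π b a f n = dg S o b a * f n := by
  let Φ : Matrix X X (MonoidAlgebra S Zm) →+* Matrix X X (Om_CutS S) :=
    (psi_CutS S).toRingHom.mapMatrix
  let f : Matrix X X S →+* Matrix X X (Om_CutS S) := (algebraMap S (Om_CutS S)).mapMatrix
  let g : Om_CutS S →+* Matrix X X (Om_CutS S) := scalar X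
  have hc : ∀ b w, g w * f b = f b * g w := by
    intro b w
    refine Matrix.ext fun i j => ?_
    simp only [g, f, scalar_apply, diagonal_mul, mul_diagonal, RingHom.mapMatrix_apply, map_apply]
    exact (Algebra.commutes _ _).symm
  have hd : ∀ y : X → Bool, Φ (dg _ y) = f (dg S y) := by
    intro y
    refine Matrix.ext fun i j => ?_
    simp only [Φ, f, RingHom.mapMatrix_apply, map_apply, dg, diagonal_apply]
    split_ifs <;> simp
  set T : MonoidAlgebra S Zm := MonoidAlgebra.single (Multiplicative.ofAdd (1 : ℤ)) 1 with hT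
  set T' : MonoidAlgebra S Zm := MonoidAlgebra.single (Multiplicative.ofAdd (-1 : ℤ)) 1 with hT'
  have hΦq : Φ q = f (dg S x) + g (psi_CutS S (T - 1)) * f α + g (psi_CutS S (T' - 1)) * f β := by
    refine Matrix.ext fun i j => ?_
    simp only [Φ, f, g, RingHom.mapMatrix_apply, map_apply, Matrix.add_apply, scalar_apply,
      diagonal_mul, hq, AlgHom.toRingHom_eq_coe, RingHom.coe_coe, map_add, map_mul,
      AlgHom.commutes]
  set t := tr_CutS S with ht
  have tt : ∀ a b, g (t a) * g (t b) = g (t (max a b)) := fun a b => by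
    rw [← map_mul, trtr_CutS]
  have k6 : t 0 * psi_CutS S (T - 1) =
      psi_CutS S (T - 1) * t 0 + (t 0 - t 1) * psi_CutS S (T - 1) + (t 0 - t 1) := by
    refine LinearMap.ext fun v => funext fun m => ?_
    simp only [map_sub, map_one, hT, ht, Module.End.mul_apply, LinearMap.add_apply,
      LinearMap.sub_apply, Pi.add_apply, Pi.sub_apply, tr_apply_CutS, psi_single_CutS,
      Module.End.one_apply, toAdd_ofAdd, one_mul]
    split_ifs <;> first | omega | ring
  have k7 : t 0 * psi_CutS S (T' - 1) =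
      psi_CutS S (T' - 1) * t 0 - psi_CutS S (T' - 1) * (t 0 - t 1) - (t 0 - t 1) := by
    refine LinearMap.ext fun v => funext fun m => ?_
    simp only [map_sub, map_one, hT', ht, Module.End.mul_apply,
      LinearMap.sub_apply, Pi.sub_apply, tr_apply_CutS, psi_single_CutS,
      Module.End.one_apply, toAdd_ofAdd, one_mul]
    split_ifs <;> first | omega | ring
  have g5 := gq_CutS f g hc e (dg S x) α β (t 0) (t 0 - t 1) _ _ h1 h2 h3 h4 h5 k6 k7
  rw [← hΦq] at g5
  have m01 : max (0 : ℤ) 1 = 1 := rfl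
  have m10 : max (1 : ℤ) 0 = 1 := rfl
  obtain ⟨k, hk, hb⟩ := bdm_CutS U U'
  obtain ⟨τ, π, p1, p2, p3, p4, p5⟩ := main_CutS (fun L => g (t L)) tt k hk (Φ U) (Φ U') (Φ q)
    (f (dg S p)) (f (dg S o)) (g (t 0) - f e * g (t 0 - t 1))
    (by rw [← map_mul, hU, map_one]) (by rw [← map_mul, hU', map_one])
    (by rw [← map_mul, ← map_mul, hp, hd]) (by rw [← map_mul, dgdg_CutS])
    (fun L => (hc _ _).symm) (fun L => (hc _ _).symm)
    (by rw [← hd, ← map_mul, ho, map_mul]) (by rw [← hd, ← map_mul, ho', map_mul])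
    (by rw [← map_mul, dgdg_CutS])
    (fun L => (hb U (Or.inl rfl) L).1) (fun L => (hb U (Or.inl rfl) L).2)
    (fun L => (hb U' (Or.inr rfl) L).1) (fun L => (hb U' (Or.inr rfl) L).2)
    (by rw [sub_mul, mul_assoc, map_sub, sub_mul, tt, tt, m01, max_self, sub_self, mul_zero,
      sub_zero])
    (by rw [mul_sub, ← mul_assoc, hc, mul_assoc, map_sub, mul_sub, tt, tt, m10, max_self,
      sub_self, mul_zero, sub_zero])
    (by rw [sub_mul, mul_assoc, map_sub, sub_mul, tt, tt, m10, max_self])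
    (by rw [mul_sub, ← mul_assoc, hc, mul_assoc, map_sub, mul_sub, tt, tt, m01, max_self]) g5
  refine ⟨k, π, 1 - (g (t 0) - f e * g (t 0 - t 1)), hk, p3, ?_, ?_, ?_, ?_⟩
  · rw [mul_sub, sub_mul, p4, mul_one, one_mul]
  · rw [map_sub]; exact p5
  · intro a b v n
    simp only [g, f, Matrix.sub_apply, scalar_apply, mul_diagonal, RingHom.mapMatrix_apply,
      map_apply, diagonal_apply, one_apply, LinearMap.sub_apply, Pi.sub_apply,
      Module.End.mul_apply, Module.algebraMap_end_apply, Pi.smul_apply, smul_eq_mul, ht,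
      tr_apply_CutS]
    by_cases hab : a = b
    · simp only [hab, if_true, true_and, Module.End.one_apply, tr_apply_CutS]
      rcases lt_trichotomy n 0 with h | h | h
      · simp [h, h.ne, not_le.2 h, show ¬ 1 ≤ n by omega]
      · simp [h]
      · simp [h.le, h.ne', not_lt.2 h.le, show 1 ≤ n by omega]
    · simp only [hab, if_false, false_and, LinearMap.zero_apply, Pi.zero_apply]
      rcases lt_trichotomy n 0 with h | h | h
      · simp [h.ne, not_le.2 h, show ¬ 1 ≤ n by omega]
      · simp [h]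
      · simp [h.le, h.ne', show 1 ≤ n by omega]
  · intro a ha b v n
    have z : ∀ c, (Φ q - f (dg S o)) a c = 0 ∧ (Φ q - f (dg S o)) c a = 0 := by
      intro c
      rw [← hd, ← map_sub]
      simp only [Φ, RingHom.mapMatrix_apply, map_apply, Matrix.sub_apply, (ha c).1, (ha c).2,
        sub_self, map_zero, and_self]
    constructor
    · rw [p1, Matrix.add_apply, mul_apply,
        Finset.sum_eq_zero fun c _ => by rw [(z c).1, zero_mul], add_zero]
      rfl
    · rw [p2, Matrix.add_apply, mul_apply,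
        Finset.sum_eq_zero fun c _ => by rw [(z c).2, mul_zero], add_zero]
      rfl

theorem cutS : CutStmt := by
  intro S W _ _ _ u e hS hb he
  obtain ⟨α, β, γ, a1, a2, a3, a4, a5, a6, a7, a8, a9, a10, a11⟩ := base_CutS u e hb he
  set χ : W → Bool := fun a => decide (0 < u a) with hχ
  let o : W → Bool := fun a => decide (1 < u a)
  let C : Matrix W W S →+* Matrix W W (MonoidAlgebra S Zm) := (algebraMap S _).mapMatrix
  let T : MonoidAlgebra S Zm := MonoidAlgebra.single (Multiplicative.ofAdd (1 : ℤ)) 1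
  let T' : MonoidAlgebra S Zm := MonoidAlgebra.single (Multiplicative.ofAdd (-1 : ℤ)) 1
  have hT : T * T' = 1 := by
    simp only [T, T', MonoidAlgebra.single_mul_single, ← ofAdd_add, add_neg_cancel, ofAdd_zero,
      mul_one, MonoidAlgebra.one_def]
  let q := C (dg S χ) + (T - 1) • C α + (T' - 1) • C β
  have hq : q * q = q := idem_CutS _ _ _ (C γ) T T' hT (by rw [← map_mul, dgdg_CutS])
    (by rw [← map_mul, a1, map_zero]) (by rw [← map_mul, a2, map_zero])
    (by rw [← map_mul, ← map_mul, ← map_add, a3, map_sub])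
    (by rw [← map_mul, ← map_mul, ← map_add, a4, map_sub])
    (by rw [← map_mul, ← map_mul, ← map_add, a5, map_neg])
  have hs : ∀ a b, (u a < 0 ∨ 1 < u a) ∨ (u b < 0 ∨ 1 < u b) → q a b = dg _ o a b := by
    intro a b h
    simp only [q, C, Matrix.add_apply, Matrix.smul_apply, RingHom.mapMatrix_apply, map_apply,
      (a11 a b h).1, (a11 a b h).2, map_zero, smul_zero, add_zero, dg, diagonal_apply, hχ, o]
    by_cases hab : a = b
    · subst hab
      by_cases h1 : 1 < u a
      · simp [h1, show 0 < u a by omega, MonoidAlgebra.one_def]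
      · simp [h1, show ¬ 0 < u a by omega]
    · simp [hab]
  obtain ⟨N, _, _, p0, p, U, U', b1, b2, b3, b4, b5⟩ := stab_CutS hS
    (fun w => ¬ (u w < 0 ∨ 1 < u w)) o q hq (fun a b h => hs a b (by simpa only [not_not] using h))
    (fun a h => by simp only [o, decide_eq_false_iff_not]; omega)
  have hbl : dg S (Sum.elim χ p0) = fromBlocks (dg S χ) 0 0 (dg S p0) := by
    rw [dg, dg, dg, fromBlocks_diagonal]
    congr 1
    funext y
    rcases y with y | y <;> rfl
  obtain ⟨k, π, E, hk, c1, c2, c3, c4, c5⟩ := op_CutS (fromBlocks e 0 0 0) (fromBlocks α 0 0 0)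
    (fromBlocks β 0 0 0) (Sum.elim χ p0) (Sum.elim o fun _ => false) p U U'
    (fromBlocks q 0 0 (dg _ p0))
    (by
      rw [hbl]
      rintro (a | a) (b | b)
      · rfl
      · simp
      · simp
      · simp only [fromBlocks_apply₂₂, dg, diagonal_apply, Matrix.zero_apply, map_zero, mul_zero,
          add_zero]
        split_ifs <;> simp [MonoidAlgebra.one_def])
    (by
      rw [hbl, fromBlocks_multiply, fromBlocks_multiply]
      ext (a | a) (b | b) <;> simp [a6])
    (by rw [fromBlocks_multiply]; simp [a7]) (by rw [fromBlocks_multiply]; simp [a8])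
    (by rw [fromBlocks_multiply]; simp [a9]) (by rw [fromBlocks_multiply]; simp [a10])
    b1 b2 b3 b4 b5
  let M : Type := {y : (W ⊕ N) × ℤ //
    (-(2 * k) ≤ y.2 ∧ y.2 < 2 * k + 1) ∧ ¬ (y.1.isLeft = true ∧ y.2 = 0)}
  have hM : Finite M := by
    refine Set.Finite.to_subtype (Set.Finite.subset
      (Set.Finite.prod Set.finite_univ (Set.finite_Ico (-(2 * k)) (2 * k + 1))) ?_)
    exact fun y hy => ⟨trivial, hy.1⟩
  let _ : Fintype M := Fintype.ofFinite M
  let g : W ⊕ M → (W ⊕ N) × ℤ := Sum.elim (fun w => (Sum.inl w, 0)) Subtype.val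
  have hg : Function.Injective g := by
    rintro (a | a) (b | b) hab
    · simpa [g] using hab
    · have : (b : (W ⊕ N) × ℤ) = (Sum.inl a, 0) := hab.symm
      exact absurd (by rw [this]; exact ⟨rfl, rfl⟩) b.2.2
    · have : (a : (W ⊕ N) × ℤ) = (Sum.inl b, 0) := hab
      exact absurd (by rw [this]; exact ⟨rfl, rfl⟩) a.2.2
    · exact congrArg _ (Subtype.ext hab)
  have hr : ∀ y : (W ⊕ N) × ℤ, (∃ a, g a = y) ↔ -(2 * k) ≤ y.2 ∧ y.2 < 2 * k + 1 := by
    intro y
    constructor
    · rintro ⟨a | a, rfl⟩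
      · exact ⟨by simp [g]; omega, by simp [g]; omega⟩
      · exact a.2.1
    · intro hy
      by_cases h : y.1.isLeft = true ∧ y.2 = 0
      · obtain ⟨w, hw⟩ := Sum.isLeft_iff.1 h.1
        exact ⟨Sum.inl w, Prod.ext hw.symm h.2.symm⟩
      · exact ⟨Sum.inr ⟨y, hy, h⟩, rfl⟩
  obtain ⟨d1, d2⟩ := cmp_main_CutS g hg _ _ (by omega) hr π E c1 c2 c3
  have hy : ∀ (y : M) (x : W ⊕ N), y.1.2 = 0 →
      (fromBlocks e 0 0 0 : Matrix (W ⊕ N) (W ⊕ N) S) y.1.1 x = 0 ∧
      (fromBlocks e 0 0 0 : Matrix (W ⊕ N) (W ⊕ N) S) x y.1.1 = 0 := by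
    rintro ⟨⟨y | y, n⟩, h⟩ x h0
    · exact absurd ⟨rfl, h0⟩ h.2
    · rcases x with x | x <;> exact ⟨rfl, rfl⟩
  have hE : cmp_CutS g E = fromBlocks e 0 0 (dg S fun y : M => decide (y.1.2 < 0)) := by
    ext (a | a) (b | b) <;> simp only [cmp_CutS, c4, g, Sum.elim_inl, Sum.elim_inr]
    · simp
    · by_cases h : b.1.2 = 0
      · simp [(hy b _ h).2]
      · simp [h]
    · by_cases h : a.1.2 = 0
      · simp [(hy a _ h).1, h]
      · simp [h]
    · have h1 : (if a.1.2 = 0 then (fromBlocks e 0 0 0 : Matrix (W ⊕ N) (W ⊕ N) S) a.1.1 b.1.1 *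
          (Pi.single b.1.2 1 : ℤ → S) 0 else 0) = 0 := by
        split_ifs with h
        · rw [(hy a _ h).1, zero_mul]
        · rfl
      rw [h1, add_zero, fromBlocks_apply₂₂, dg, diagonal_apply]
      by_cases hab : a = b
      · subst hab; simp
      · rw [if_neg hab]
        split_ifs with h
        · exact Pi.single_eq_of_ne (fun h2 => hab (Subtype.ext (Prod.ext h.1 h2))) _
        · rfl
  refine ⟨M, inferInstance, inferInstance, _, cmp_CutS g π, d1, hE ▸ d2, ?_⟩
  rintro (a | a) b h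
  · have h' : u a < 0 ∨ 1 < u a := h
    have k := c5 (Sum.inl a) (by
      rintro (c | c)
      · exact ⟨(hs a c (Or.inl h)).trans (by by_cases x : a = c <;> simp [dg, x] <;> rfl),
          (hs c a (Or.inr h)).trans (by by_cases x : c = a <;> simp [dg, x] <;> rfl)⟩
      · simp [dg]) (g b).1
    have k1 : cmp_CutS g π (Sum.inl a) b = dg S (Sum.elim o fun _ => false) (Sum.inl a) (g b).1 *
        (Pi.single (g b).2 1 : ℤ → S) 0 := (k _ _).1
    have k2 : cmp_CutS g π b (Sum.inl a) = dg S (Sum.elim o fun _ => false) (g b).1 (Sum.inl a) *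
        (Pi.single 0 1 : ℤ → S) (g b).2 := (k _ _).2
    rw [k1, k2, dg, diagonal_apply, diagonal_apply]
    by_cases hab : Sum.inl a = b
    · subst hab
      by_cases h1 : 1 < u a
      · simp [g, o, h1, show 0 < u a by omega]
      · simp [g, o, h1, show ¬ 0 < u a by omega]
    · have hn : Sum.inl a = (g b).1 → (g b).2 ≠ 0 := fun x y => hab (hg (Prod.ext x y.symm))
      rw [if_neg (show ¬ (Sum.inl a = b ∧ 0 < Sum.elim u (fun _ => 0) (Sum.inl a : W ⊕ M)) from
        fun x => hab x.1)]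
      by_cases x : Sum.inl a = (g b).1
      · rw [Pi.single_eq_of_ne (hn x), Pi.single_eq_of_ne (hn x).symm, mul_zero, mul_zero]
        exact ⟨rfl, rfl⟩
      · rw [if_neg x, if_neg (Ne.symm x), zero_mul, zero_mul]
        exact ⟨rfl, rfl⟩
  · simp at h

end

end Pool.Agent.MP_6374aa_gt
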