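import Pool.Agent.MP_6374aa_gt.IfP

/-! Cutting a banded idempotent: the ring identities. -/

namespace Pool.Agent.MP_6374aa_gt

open Classical Matrix

noncomputable section

section Abs

variable {A : Type} [Ring A]

theorem alg_CutS (χ e c : A) (hχ : χ * χ = χ) (hc : c = χ * e - e * χ)
    (h1 : (e * e - e) * c = 0) (h2 : c * (e * e - e) = 0)
    (h3 : χ * (e * e - e) = (e * e - e) * χ) :
    -(e * c) = -(c * (1 - e)) ∧ c * e = (1 - e) * c ∧
    -(e * c) * -(e * c) = 0 ∧ c * e * (c * e) = 0 ∧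
    χ * -(e * c) + -(e * c) * χ = -(e * c) - c * c ∧
    χ * (c * e) + c * e * χ = c * e - c * c ∧
    -(e * c) * (c * e) + c * e * -(e * c) = -(c * c) ∧
    e * χ = χ * e - c * e + -(e * c) ∧ e * -(e * c) = -(e * c) ∧ -(e * c) * e = 0 ∧
    e * (c * e) = 0 ∧ c * e * e = c * e := by
  have k1 : c * e + e * c = c := by
    have : c * e + e * c - c = χ * (e * e - e) - (e * e - e) * χ := by
      rw [hc]; noncomm_ring
    rw [h3, sub_self, sub_eq_zero] at this
    exact this
  have k2 : χ * c + c * χ = c := by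
    have : χ * c + c * χ = χ * χ * e - e * (χ * χ) := by
      rw [hc]; noncomm_ring
    rw [this, hχ, hc]
  have k3 : e * (e * c) = e * c := by
    have : e * (e * c) - e * c = (e * e - e) * c := by noncomm_ring
    rw [h1, sub_eq_zero] at this
    exact this
  have k4 : c * e * e = c * e := by
    have : c * e * e - c * e = c * (e * e - e) := by noncomm_ring
    rw [h2, sub_eq_zero] at this
    exact this
  have k5 : e * c = c - c * e := by rw [eq_sub_iff_add_eq, add_comm, k1]
  have k6 : c * e = c - e * c := by rw [eq_sub_iff_add_eq, k1]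
  have k7 : e * c * e = 0 := by rw [k5, sub_mul, k4, sub_self]
  have k8 : e * (c * e) = 0 := by rw [← mul_assoc, k7]
  have k9 : c * χ = c - χ * c := by rw [eq_sub_iff_add_eq, add_comm, k2]
  have k10 : χ * c = c - c * χ := by rw [eq_sub_iff_add_eq, k2]
  refine ⟨?_, ?_, ?_, ?_, ?_, ?_, ?_, ?_, ?_, ?_, k8, k4⟩
  · rw [k5]; noncomm_ring
  · rw [k6]; noncomm_ring
  · have : -(e * c) * -(e * c) = e * c * e * c := by noncomm_ring
    rw [this, k7, zero_mul]
  · have : c * e * (c * e) = c * (e * (c * e)) := by noncomm_ring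
    rw [this, k8, mul_zero]
  · have : χ * -(e * c) + -(e * c) * χ = -(χ * e * c) - e * (c * χ) := by noncomm_ring
    rw [this, k9]
    have h : c * c = (χ * e - e * χ) * c := by rw [← hc]
    rw [h]; noncomm_ring
  · have : χ * (c * e) + c * e * χ = χ * c * e + c * e * χ := by noncomm_ring
    rw [this, k10]
    have h : c * c = c * (χ * e - e * χ) := by rw [← hc]
    rw [h]; noncomm_ring
  · have a1 : -(e * c) * (c * e) + c * e * -(e * c) =
        -(e * c * (c * e)) - c * (e * (e * c)) := by noncomm_ring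
    have a2 : e * c * (c * e) = e * c * c - e * c * e * c := by
      conv_lhs => rw [k6]
      noncomm_ring
    have a3 : c * (e * c) = c * e * c := by noncomm_ring
    rw [a1, k3, a2, k7, a3, k6]
    noncomm_ring
  · have : χ * e - c * e + -(e * c) = χ * e - (c * e + e * c) := by noncomm_ring
    rw [this, k1, hc]; noncomm_ring
  · rw [mul_neg, k3]
  · rw [neg_mul, k7, neg_zero]

theorem idem_CutS {R : Type} [CommRing R] [Algebra R A] (χ α β γ : A) (T T' : R)
    (hT : T * T' = 1) (hχ : χ * χ = χ) (ha : α * α = 0) (hb : β * β = 0)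
    (h1 : χ * α + α * χ = α - γ) (h2 : χ * β + β * χ = β - γ) (h3 : α * β + β * α = -γ) :
    (χ + (T - 1) • α + (T' - 1) • β) * (χ + (T - 1) • α + (T' - 1) • β) =
      χ + (T - 1) • α + (T' - 1) • β := by
  have e1 : χ * α = α - γ - α * χ := by rw [← h1]; abel
  have e2 : χ * β = β - γ - β * χ := by rw [← h2]; abel
  have e3 : α * β = -γ - β * α := by rw [← h3]; abel
  simp only [add_mul, mul_add, smul_mul_assoc, mul_smul_comm, hχ, ha, hb, e1, e2, e3]
  match_scalars
  all_goals first | ring1 | linear_combination (-1 : R) * hT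

theorem gq_CutS {B O : Type} [Ring B] [Ring O] (f : B →+* A) (g : O →+* A)
    (hc : ∀ b w, g w * f b = f b * g w) (e χ α β : B) (t ε a b : O)
    (h1 : e * χ = χ * e - β + α) (h2 : e * α = α) (h3 : α * e = 0) (h4 : e * β = 0)
    (h5 : β * e = β) (h6 : t * a = a * t + ε * a + ε) (h7 : t * b = b * t - b * ε - ε) :
    (g t - f e * g ε) * (f χ + g a * f α + g b * f β) =
      (f χ + g a * f α + g b * f β) * (g t - f e * g ε) := by
  have key : ∀ x x' w w', f x * g w * (f x' * g w') = f (x * x') * g (w * w') := by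
    intro x x' w w'
    rw [map_mul, map_mul, mul_assoc, ← mul_assoc (g w), hc, mul_assoc, mul_assoc]
  have r1 : g t = f 1 * g t := by rw [map_one, one_mul]
  have r2 : f χ = f χ * g 1 := by rw [map_one, mul_one]
  rw [r1, r2, hc α, hc β]
  simp only [add_mul, mul_add, sub_mul, mul_sub, key, one_mul, mul_one, h1, h2, h3, h4, h5, h6,
    h7, map_add, map_sub, map_zero, zero_mul]
  abel

theorem main_CutS (θ : ℤ → A) (hθ : ∀ a b, θ a * θ b = θ (max a b)) (k : ℤ) (hk : 0 ≤ k)
    (U U' q c0 o G : A) (hU : U * U' = 1) (hU' : U' * U = 1) (hq : U * q * U' = c0)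
    (hc0 : c0 * c0 = c0) (hcθ : ∀ L, c0 * θ L = θ L * c0) (hoθ : ∀ L, o * θ L = θ L * o)
    (hoU : U * o = o * U) (hoU' : U' * o = o * U') (hoo : o * o = o)
    (b1 : ∀ L, θ (L + k) * U * θ L = θ (L + k) * U) (b2 : ∀ L, θ L * U * θ (L + k) = U * θ (L + k))
    (b3 : ∀ L, θ (L + k) * U' * θ L = θ (L + k) * U')
    (b4 : ∀ L, θ L * U' * θ (L + k) = U' * θ (L + k))
    (g1 : G * θ 1 = θ 1) (g2 : θ 1 * G = θ 1) (g3 : G * θ 0 = G) (g4 : θ 0 * G = G)
    (g5 : G * q = q * G) :
    ∃ τ π : A, π = o + (q - o) * τ ∧ π = o + τ * (q - o) ∧ π * π = π ∧ π * G = G * π ∧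
      π * (θ (-(2 * k)) - θ (2 * k + 1)) = (θ (-(2 * k)) - θ (2 * k + 1)) * π := by
  have hq' : q = U' * c0 * U := by
    rw [← hq]
    calc q = (U' * U) * q * (U' * U) := by rw [hU', one_mul, mul_one]
      _ = _ := by noncomm_ring
  set σ : ℤ → A := fun L => U' * θ L * U with hσ
  have s0 : ∀ a b, σ a * σ b = σ (max a b) := by
    intro a b
    calc σ a * σ b = U' * θ a * (U * U') * θ b * U := by simp only [hσ]; noncomm_ring
      _ = _ := by rw [hU, mul_one, mul_assoc U', hθ]
  have s1 : ∀ L, σ (L + k) * θ L = σ (L + k) := by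
    intro L
    calc σ (L + k) * θ L = U' * (θ (L + k) * U * θ L) := by simp only [hσ]; noncomm_ring
      _ = _ := by rw [b1, ← mul_assoc]
  have s2 : ∀ L, θ L * σ (L + k) = σ (L + k) := by
    intro L
    calc θ L * σ (L + k) = θ L * U' * θ (L + k) * U := by simp only [hσ]; noncomm_ring
      _ = _ := by rw [b4]
  have s3 : ∀ L, θ (L + k) * σ L = θ (L + k) := by
    intro L
    calc θ (L + k) * σ L = θ (L + k) * U' * θ L * U := by simp only [hσ]; noncomm_ring
      _ = _ := by rw [b3, mul_assoc, hU', mul_one]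
  have s4 : ∀ L, σ L * θ (L + k) = θ (L + k) := by
    intro L
    calc σ L * θ (L + k) = U' * (θ L * U * θ (L + k)) := by simp only [hσ]; noncomm_ring
      _ = _ := by rw [b2, ← mul_assoc, hU', one_mul]
  have s5 : ∀ L, σ L * q = q * σ L := by
    intro L
    calc σ L * q = U' * θ L * (U * U') * c0 * U := by simp only [hσ, hq']; noncomm_ring
      _ = U' * (c0 * θ L) * U := by rw [hU, mul_one, hcθ, mul_assoc U']
      _ = U' * c0 * (U * U') * θ L * U := by rw [hU, mul_one, mul_assoc U' c0]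
      _ = _ := by simp only [hσ, hq']; noncomm_ring
  have s6 : ∀ L, σ L * o = o * σ L := by
    intro L
    calc σ L * o = U' * θ L * (U * o) := by simp only [hσ]; noncomm_ring
      _ = U' * (θ L * o) * U := by rw [hoU]; noncomm_ring
      _ = U' * o * θ L * U := by rw [← hoθ]; noncomm_ring
      _ = _ := by rw [hoU']; simp only [hσ]; noncomm_ring
  have hqq : q * q = q := by
    calc q * q = U' * c0 * (U * U') * c0 * U := by rw [hq']; noncomm_ring
      _ = _ := by rw [hU, mul_one, mul_assoc U', hc0, hq']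
  set p := σ (1 + k) with hp
  set m := σ (-k) with hm
  have p1 : p * θ 1 = p := s1 1
  have p2 : θ 1 * p = p := s2 1
  have p3 : θ (2 * k + 1) * p = θ (2 * k + 1) := by
    have := s3 (1 + k); rwa [show 1 + k + k = 2 * k + 1 by ring] at this
  have p4 : p * θ (2 * k + 1) = θ (2 * k + 1) := by
    have := s4 (1 + k); rwa [show 1 + k + k = 2 * k + 1 by ring] at this
  have m1 : m * θ (-(2 * k)) = m := by
    have := s1 (-(2 * k)); rwa [show -(2 * k) + k = -k by ring] at this
  have m2 : θ (-(2 * k)) * m = m := by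
    have := s2 (-(2 * k)); rwa [show -(2 * k) + k = -k by ring] at this
  have m3 : θ 0 * m = θ 0 := by
    have := s3 (-k); rwa [neg_add_cancel] at this
  have m4 : m * θ 0 = θ 0 := by
    have := s4 (-k); rwa [neg_add_cancel] at this
  have pp : p * p = p := by rw [hp, s0, max_self]
  have mm : m * m = m := by rw [hm, s0, max_self]
  have pm : p * m = p := by rw [hp, hm, s0, max_eq_left (by omega)]
  have mp : m * p = p := by rw [hp, hm, s0, max_eq_right (by omega)]
  have t1 : θ (-(2 * k)) * θ 1 = θ 1 := by rw [hθ, max_eq_right (by omega)]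
  have t2 : θ 1 * θ (-(2 * k)) = θ 1 := by rw [hθ, max_eq_left (by omega)]
  have t3 : θ (2 * k + 1) * θ 0 = θ (2 * k + 1) := by rw [hθ, max_eq_left (by omega)]
  have t4 : θ 0 * θ (2 * k + 1) = θ (2 * k + 1) := by rw [hθ, max_eq_right (by omega)]
  have w1 : θ (-(2 * k)) * p = p := by rw [← p2, ← mul_assoc, t1]
  have w2 : p * θ (-(2 * k)) = p := by rw [← p1, mul_assoc, t2]
  have w3 : θ (2 * k + 1) * m = θ (2 * k + 1) := by rw [← t3, mul_assoc, m3]
  have w4 : m * θ (2 * k + 1) = θ (2 * k + 1) := by rw [← t4, ← mul_assoc, m4]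
  have G1 : G * p = p := by rw [← p2, ← mul_assoc, g1]
  have G2 : p * G = p := by rw [← p1, mul_assoc, g2]
  have G3 : G * m = G := by rw [← g3, mul_assoc, m3]
  have G4 : m * G = G := by rw [← g4, ← mul_assoc, m4]
  have po : p * o = o * p := s6 _
  set τ := m - p with hτ
  have ττ : τ * τ = τ := by rw [hτ, sub_mul, mul_sub, mul_sub, mm, mp, pm, pp]; abel
  have τq : τ * q = q * τ := by rw [hτ, sub_mul, mul_sub, hm, hp, s5, s5]
  have τo : τ * o = o * τ := by rw [hτ, sub_mul, mul_sub, hm, hp, s6, s6]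
  have Gτ : G * τ = G - p := by rw [hτ, mul_sub, G3, G1]
  have τG : τ * G = G - p := by rw [hτ, sub_mul, G4, G2]
  set ω := θ (-(2 * k)) - θ (2 * k + 1) with hω
  have ωτ : ω * τ = τ := by rw [hω, hτ, sub_mul, mul_sub, mul_sub, m2, w1, w3, p3]; abel
  have τω : τ * ω = τ := by rw [hω, hτ, sub_mul, mul_sub, mul_sub, m1, w2, w4, p4]; abel
  have oω : o * ω = ω * o := by rw [hω, sub_mul, mul_sub, hoθ, hoθ]
  clear_value τ ω
  have sw : (q - o) * τ = τ * (q - o) := by rw [sub_mul, mul_sub, τq, τo]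
  refine ⟨τ, o + (q - o) * τ, rfl, by rw [sw], ?_, ?_, ?_⟩
  · have e1 : o + (q - o) * τ = q * τ + o * (1 - τ) := by noncomm_ring
    have e2 : τ * (o + (q - o) * τ) = q * τ := by
      rw [mul_add, ← mul_assoc, ← sw, mul_assoc, ττ, τo]; noncomm_ring
    have e3 : (1 - τ) * (o + (q - o) * τ) = o * (1 - τ) := by
      rw [sub_mul, one_mul, e2]; noncomm_ring
    calc (o + (q - o) * τ) * (o + (q - o) * τ)
        = (q * τ + o * (1 - τ)) * (o + (q - o) * τ) := by rw [← e1]
      _ = q * (τ * (o + (q - o) * τ)) + o * ((1 - τ) * (o + (q - o) * τ)) := by noncomm_ring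
      _ = _ := by rw [e2, e3, ← mul_assoc, ← mul_assoc, hqq, hoo, e1]
  · have e1 : (o + (q - o) * τ) * G = o * G + (q - o) * (τ * G) := by noncomm_ring
    have e2 : G * (o + (q - o) * τ) = G * o + G * τ * (q - o) := by rw [sw]; noncomm_ring
    have e3 : p * q = q * p := s5 _
    rw [e1, e2, τG, Gτ]
    simp only [sub_mul, mul_sub, g5, e3, po]
    abel
  · rw [add_mul, mul_add, mul_assoc, τω, sw, ← mul_assoc, ωτ, oω]

end Abs

section Mat

variable {S W : Type} [CommRing S] [Fintype W] [DecidableEq W]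

theorem dgmul_CutS (x : W → Bool) (M : Matrix W W S) (a b : W) :
    (dg S x * M) a b = if x a then M a b else 0 := by
  rw [dg, diagonal_mul]; split_ifs <;> simp

theorem muldg_CutS (x : W → Bool) (M : Matrix W W S) (a b : W) :
    (M * dg S x) a b = if x b then M a b else 0 := by
  rw [dg, mul_diagonal]; split_ifs <;> simp

theorem dgdg_CutS (x : W → Bool) : dg S x * dg S x = dg S x := by
  ext a b
  rw [dgmul_CutS]
  split_ifs with h
  · rfl
  · rw [dg, diagonal_apply]; simp [h]

theorem base_CutS (u : W → ℤ) (e : Matrix W W S) (hb : Band u u e)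
    (he : EqR (fun x => |x| ≤ 10) u u (e * e) e) :
    ∃ α β γ : Matrix W W S, α * α = 0 ∧ β * β = 0 ∧
      dg S (fun a => decide (0 < u a)) * α + α * dg S (fun a => decide (0 < u a)) = α - γ ∧
      dg S (fun a => decide (0 < u a)) * β + β * dg S (fun a => decide (0 < u a)) = β - γ ∧
      α * β + β * α = -γ ∧
      e * dg S (fun a => decide (0 < u a)) = dg S (fun a => decide (0 < u a)) * e - β + α ∧
      e * α = α ∧ α * e = 0 ∧ e * β = 0 ∧ β * e = β ∧
      ∀ a b, (u a < 0 ∨ 1 < u a) ∨ (u b < 0 ∨ 1 < u b) → α a b = 0 ∧ β a b = 0 := by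
  set χ := dg S (fun a => decide (0 < u a)) with hχ
  set c := χ * e - e * χ with hc
  have c0 : ∀ a b, (u a < 0 ∨ 1 < u a) ∨ (u b < 0 ∨ 1 < u b) → c a b = 0 := by
    intro a b h
    rw [hc, Matrix.sub_apply, hχ, dgmul_CutS, muldg_CutS]
    by_cases h0 : e a b = 0
    · simp [h0]
    · have := abs_le.1 (hb a b h0)
      by_cases ha : 0 < u a <;> by_cases hb' : 0 < u b <;> simp [ha, hb'] <;> omega
  have d0 : ∀ a b, (e * e - e) a b ≠ 0 → (9 ≤ u a ∧ 9 ≤ u b) ∨ (u a ≤ -9 ∧ u b ≤ -9) := by
    intro a b h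
    have h1 : ¬ (|u a| ≤ 10 ∧ |u b| ≤ 10) := by
      rintro ⟨x, y⟩
      exact h (by rw [Matrix.sub_apply, he a b x y, sub_self])
    have h2 : |u a - u b| ≤ 2 := by
      by_contra h3
      apply h
      have h4 : e a b = 0 := by
        by_contra h5
        exact h3 ((hb a b h5).trans (by norm_num))
      rw [Matrix.sub_apply, h4, sub_zero, mul_apply]
      refine Finset.sum_eq_zero fun w _ => ?_
      by_contra h6
      have x := abs_le.1 (hb a w (left_ne_zero_of_mul h6))
      have y := abs_le.1 (hb w b (right_ne_zero_of_mul h6))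
      exact h3 (abs_le.2 (by omega))
    rw [abs_le, abs_le] at h1
    rw [abs_le] at h2
    omega
  have h1 : (e * e - e) * c = 0 := by
    ext a b
    rw [mul_apply]
    refine Finset.sum_eq_zero fun w _ => ?_
    by_cases h : (e * e - e) a w = 0
    · rw [h, zero_mul]
    · rw [c0 w b (by have := d0 a w h; omega), mul_zero]
  have h2 : c * (e * e - e) = 0 := by
    ext a b
    rw [mul_apply]
    refine Finset.sum_eq_zero fun w _ => ?_
    by_cases h : (e * e - e) w b = 0
    · rw [h, mul_zero]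
    · rw [c0 a w (by have := d0 w b h; omega), zero_mul]
  have h3 : χ * (e * e - e) = (e * e - e) * χ := by
    ext a b
    rw [hχ, dgmul_CutS, muldg_CutS]
    by_cases h : (e * e - e) a b = 0
    · simp only [h, ite_self]
    · have := d0 a b h
      by_cases ha : 0 < u a <;> by_cases hb' : 0 < u b <;> simp only [ha, hb'] <;> omega
  have l0 : ∀ (M : Matrix W W S) a b, (u a < 0 ∨ 1 < u a) → (c * M) a b = 0 := by
    intro M a b h
    rw [mul_apply]
    exact Finset.sum_eq_zero fun w _ => by rw [c0 a w (Or.inl h), zero_mul]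
  have r0 : ∀ (M : Matrix W W S) a b, (u b < 0 ∨ 1 < u b) → (M * c) a b = 0 := by
    intro M a b h
    rw [mul_apply]
    exact Finset.sum_eq_zero fun w _ => by rw [c0 w b (Or.inr h), mul_zero]
  obtain ⟨a1, a2, a3, a4, a5, a6, a7, a8, a9, a10, a11, a12⟩ :=
    alg_CutS χ e c (dgdg_CutS _) hc h1 h2 h3
  refine ⟨-(e * c), c * e, c * c, a3, a4, a5, a6, a7, a8, a9, a10, a11, a12, ?_⟩
  rintro a b (h | h)
  · exact ⟨by rw [a1, Matrix.neg_apply, l0 _ _ _ h, neg_zero], l0 _ _ _ h⟩
  · exact ⟨by rw [Matrix.neg_apply, r0 _ _ _ h, neg_zero], by rw [a2, r0 _ _ _ h]⟩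

theorem stab_CutS (h : StdIdem S) (P : W → Prop) (o : W → Bool) (q : Matrix W W S)
    (hq : q * q = q) (hs : ∀ a b, ¬ P a ∨ ¬ P b → q a b = dg S o a b)
    (ho : ∀ a, P a → o a = false) :
    ∃ (N : Type) (_ : Fintype N) (_ : DecidableEq N) (p0 : N → Bool) (p : W ⊕ N → Bool)
      (U U' : Matrix (W ⊕ N) (W ⊕ N) S), U * U' = 1 ∧ U' * U = 1 ∧
      U * fromBlocks q 0 0 (dg S p0) * U' = dg S p ∧
      U * dg S (Sum.elim o fun _ => false) = dg S (Sum.elim o fun _ => false) * U ∧
      U' * dg S (Sum.elim o fun _ => false) = dg S (Sum.elim o fun _ => false) * U' := by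
  let q0 : Matrix {w // P w} {w // P w} S := q.submatrix Subtype.val Subtype.val
  have z1 : ∀ (a : {w // P w}) (b : {w // ¬ P w}), q a b = 0 ∧ q b a = 0 := by
    intro a b
    have hn : (a : W) ≠ b := fun x => b.2 (x ▸ a.2)
    rw [hs _ _ (Or.inr b.2), hs _ _ (Or.inl b.2), dg, diagonal_apply_ne _ hn,
      diagonal_apply_ne _ hn.symm]
    exact ⟨rfl, rfl⟩
  have hq0 : q0 * q0 = q0 := by
    ext a b
    have := congrFun (congrFun hq a) b
    rw [mul_apply, ← Fintype.sum_subtype_add_sum_subtype P,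
      Finset.sum_eq_zero (s := Finset.univ) (f := fun i : {w // ¬ P w} => q a i * q i b)
        (fun w _ => by rw [(z1 a w).1, zero_mul]), add_zero] at this
    rw [mul_apply]
    exact this
  obtain ⟨N, i1, i2, p0, p', Q, Q', h1, h2, h3⟩ := h _ q0 hq0
  let f : ({w // P w} ⊕ N) ⊕ {w // ¬ P w} → W ⊕ N :=
    Sum.elim (Sum.map Subtype.val id) fun w => Sum.inl w.1
  have hf : Function.Bijective f := by
    constructor
    · rintro ((a | a) | a) ((b | b) | b) hab <;> simp [f] at hab ⊢
      · exact Subtype.ext hab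
      · exact b.2 (hab ▸ a.2)
      · exact hab
      · exact a.2 (hab ▸ b.2)
      · exact Subtype.ext hab
    · rintro (a | a)
      · by_cases ha : P a
        · exact ⟨Sum.inl (Sum.inl ⟨a, ha⟩), rfl⟩
        · exact ⟨Sum.inr ⟨a, ha⟩, rfl⟩
      · exact ⟨Sum.inl (Sum.inr a), rfl⟩
  let ε := (Equiv.ofBijective f hf).symm
  have key : ∀ (M : Matrix (W ⊕ N) (W ⊕ N) S) M', M.submatrix f f = M' → M = M'.submatrix ε ε := by
    rintro M _ rfl
    ext a b
    simp [ε, Equiv.ofBijective_apply_symm_apply]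
  have dsub : ∀ x : W ⊕ N → Bool, (dg S x).submatrix f f = dg S (x ∘ f) := by
    intro x
    rw [dg, submatrix_diagonal _ _ hf.1]; rfl
  have dbl : ∀ (x : ({w // P w} ⊕ N) ⊕ {w // ¬ P w} → Bool),
      dg S x = fromBlocks (dg S (x ∘ Sum.inl)) 0 0 (dg S (x ∘ Sum.inr)) := by
    intro x
    rw [dg, dg, dg, fromBlocks_diagonal]
    congr 1
    funext y
    rcases y with y | y <;> rfl
  let o1 : {w // ¬ P w} → Bool := fun w => o w
  have e1 : fromBlocks q 0 0 (dg S p0) = (fromBlocks (fromBlocks q0 0 0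
      (diagonal fun x => if p0 x then 1 else 0)) 0 0 (dg S o1)).submatrix ε ε := by
    apply key
    ext ((a | a) | a) ((b | b) | b) <;> simp [f, q0, dg, z1]
    rw [hs _ _ (Or.inl a.2), dg, diagonal_apply, diagonal_apply]
    simp [Subtype.ext_iff, o1]
  have e2 : dg S (Sum.elim o fun _ : N => false) =
      (fromBlocks 0 0 0 (dg S o1) : Matrix _ _ S).submatrix ε ε := by
    apply key
    rw [dsub, dbl]
    congr 1
    ext (a | a) b <;> simp [dg, f, diagonal_apply]
    intro _ x
    rw [ho _ a.2] at x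
    exact absurd x (by simp)
  refine ⟨N, i1, i2, p0, Sum.elim p' o1 ∘ ε, (fromBlocks Q 0 0 1).submatrix ε ε,
    (fromBlocks Q' 0 0 1).submatrix ε ε, ?_, ?_, ?_, ?_, ?_⟩
  · rw [submatrix_mul_equiv, fromBlocks_multiply]; simp [h1]
  · rw [submatrix_mul_equiv, fromBlocks_multiply]; simp [h2]
  · rw [e1, submatrix_mul_equiv, submatrix_mul_equiv, fromBlocks_multiply, fromBlocks_multiply]
    simp only [Matrix.mul_zero, Matrix.zero_mul, add_zero, zero_add, Matrix.mul_one,
      Matrix.one_mul, h3]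
    symm
    apply key
    rw [dsub, dbl]
    have : (Sum.elim p' o1 ∘ ε) ∘ f = Sum.elim p' o1 := by
      funext y
      exact congrArg _ ((Equiv.ofBijective f hf).symm_apply_apply y)
    rw [this]; rfl
  · rw [e2, submatrix_mul_equiv, submatrix_mul_equiv, fromBlocks_multiply, fromBlocks_multiply]
    simp
  · rw [e2, submatrix_mul_equiv, submatrix_mul_equiv, fromBlocks_multiply, fromBlocks_multiply]
    simp

end Mat

end

end Pool.Agent.MP_6374aa_gt
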