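import Mathlib

/-!
Statement level definitions: flag triangulations of closed oriented 3-manifolds, simplicial
connected sums, right-angled Coxeter groups and their boundaries.
-/

namespace Pool.Agent.MP_6374aa_gt

variable {V : Type}

/-- Equal or adjacent. -/
def Adq (G : SimpleGraph V) (a b : V) : Prop := a = b ∨ G.Adj a b

/-- The geometric realisation of the flag complex of `G` on the vertex set `A`. -/
def Rl [Fintype V] (G : SimpleGraph V) (A : Set V) : Set (V → ℝ) :=
  {x | (∀ v, 0 ≤ x v) ∧ ∑ v, x v = 1 ∧ (∀ v, x v ≠ 0 → v ∈ A) ∧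
    ∀ u v, x u ≠ 0 → x v ≠ 0 → Adq G u v}

/-- The vertices of `A` adjacent to every vertex of `s`: the link of the simplex `s`. -/
def Lk (G : SimpleGraph V) (A s : Set V) : Set V := {w | w ∈ A ∧ ∀ u ∈ s, G.Adj u w}

/-- The number of cliques with `n` vertices in `S`. -/
noncomputable def ncl (G : SimpleGraph V) (S : Set V) (n : ℕ) : ℕ :=
  {s : Finset V | ↑s ⊆ S ∧ G.IsClique (s : Set V) ∧ s.card = n}.ncard

/-- The flag complex of `G` on `A` is a closed connected oriented combinatorial 3-manifold:
it is connected of dimension at most 3, every triangle lies in two tetrahedra, links of edges are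
connected (circles), links of vertices are connected with Euler characteristic 2 (2-spheres),
and there is a 3-cycle `o` that is nonzero on every tetrahedron. -/
structure Closed3 [Fintype V] (G : SimpleGraph V) (A : Set V) : Prop where
  conn : (G.induce A).Connected
  dim : ∀ s : Finset V, ↑s ⊆ A → G.IsClique (s : Set V) → s.card ≤ 4
  tri : ∀ a ∈ A, ∀ b ∈ A, ∀ c ∈ A, G.Adj a b → G.Adj a c → G.Adj b c →
    (Lk G A {a, b, c}).ncard = 2
  edge : ∀ a ∈ A, ∀ b ∈ A, G.Adj a b → (G.induce (Lk G A {a, b})).Connected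
  vert : ∀ a ∈ A, (G.induce (Lk G A {a})).Connected ∧
    ncl G (Lk G A {a}) 1 + ncl G (Lk G A {a}) 3 = ncl G (Lk G A {a}) 2 + 2
  orient : ∃ o : V → V → V → V → ℤ,
    (∀ a b c d, o a b c d ≠ 0 ↔ a ∈ A ∧ b ∈ Lk G A {a} ∧ c ∈ Lk G A {a, b} ∧
      d ∈ Lk G A {a, b, c}) ∧
    (∀ a b c d, o b a c d = - o a b c d ∧ o a c b d = - o a b c d ∧ o a b d c = - o a b c d) ∧
    ∀ b c d, ∑ a, o a b c d = 0

/-- Every 4-cycle has a diagonal. -/
def NoSquare (G : SimpleGraph V) : Prop :=
  ∀ a b c d, G.Adj a b → G.Adj b c → G.Adj c d → G.Adj d a → Adq G a c ∨ Adq G b d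

/-- `A'` is the simplicial connected sum of `A` and `M`: they meet in the closed star of the
vertex `v`, which is the same in both, and `A'` is their union with `v` removed. -/
structure Graft (G : SimpleGraph V) (A M A' : Set V) (v : V) : Prop where
  memA : v ∈ A
  memM : v ∈ M
  lk : Lk G A {v} = Lk G M {v}
  inter : A ∩ M = insert v (Lk G A {v})
  sep : ∀ a ∈ A \ M, ∀ b ∈ M \ A, ¬ G.Adj a b
  eq : A' = (A ∪ M) \ {v}

/-- `A` is an iterated simplicial connected sum of the complexes `P i`, `i` in the index set. -/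
inductive IsSum (G : SimpleGraph V) {ι : Type} (P : ι → Set V) : Set V → Set ι → Prop
  | one (i : ι) : IsSum G P (P i) {i}
  | sum {A M A' : Set V} {s t : Set ι} {v : V} :
      IsSum G P A s → IsSum G P M t → Graft G A M A' v → IsSum G P A' (s ∪ t)

/-- The unit sphere in `ℝ^4`. -/
def S3 : Set (Fin 4 → ℝ) := {x | ∑ i, x i ^ 2 = 1}

/-- A triangulated closed oriented 3-manifold presented as a quotient `E / Λ` of a covering
space action, with `E` contractible and `Λ` infinite, or `E` the 3-sphere and `Λ` finite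
acting linearly. -/
structure Piece [Fintype V] (G : SimpleGraph V) where
  A : Set V
  closed : Closed3 G A
  E : Type
  [top : TopologicalSpace E]
  Λ : Type
  [grp : Group Λ]
  [act : MulAction Λ E]
  p : E → Rl G A
  cov : IsQuotientCoveringMap p Λ
  geom : (ContractibleSpace E ∧ Infinite Λ) ∨ (Finite Λ ∧ ∃ (e : E ≃ₜ S3)
    (L : Λ → Matrix (Fin 4) (Fin 4) ℝ), ∀ g x, (e (g • x)).1 = (L g).mulVec (e x).1)

attribute [instance] Piece.top Piece.grp Piece.act

/-- The relations of the right-angled Coxeter group of `Γ`. -/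
def rels (Γ : SimpleGraph V) : Set (FreeGroup V) :=
  {r | (∃ v, r = FreeGroup.of v ^ 2) ∨
    ∃ u v, Γ.Adj u v ∧ r = (FreeGroup.of u * FreeGroup.of v) ^ 2}

/-- The right-angled Coxeter group of `Γ`. -/
abbrev W (Γ : SimpleGraph V) : Type := PresentedGroup (rels Γ)

/-- The Cayley graph. -/
def cay (Γ : SimpleGraph V) : SimpleGraph (W Γ) :=
  SimpleGraph.fromRel fun g h => ∃ v, h = g * PresentedGroup.of v

/-- Geodesic rays from the identity in the Cayley graph. -/
def Ray (Γ : SimpleGraph V) : Type :=
  {r : ℕ → W Γ // r 0 = 1 ∧ ∀ m n, (cay Γ).dist (r m) (r (m + n)) = n}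

/-- The topology of pointwise convergence on rays. -/
@[reducible] def rayTop (Γ : SimpleGraph V) : TopologicalSpace (Ray Γ) :=
  TopologicalSpace.induced Subtype.val (@Pi.topologicalSpace ℕ (fun _ => W Γ) fun _ => ⊥)

/-- The boundary: rays up to bounded distance. -/
def Bdry (Γ : SimpleGraph V) : Type :=
  Quot fun r s : Ray Γ => ∃ C, ∀ n, (cay Γ).dist (r.1 n) (s.1 n) ≤ C

/-- The quotient topology on the boundary. -/
@[reducible] def bdryTop (Γ : SimpleGraph V) : TopologicalSpace (Bdry Γ) :=
  TopologicalSpace.coinduced (Quot.mk _) (rayTop Γ)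

/-- A flag no-square triangulation `Γ` of a closed oriented 3-manifold, together with a
homeomorphism onto a connected sum of the pieces `P i`. -/
structure Side where
  V : Type
  [finV : Fintype V]
  Γ : SimpleGraph V
  closed : Closed3 Γ Set.univ
  nosq : NoSquare Γ
  U : Type
  [finU : Fintype U]
  K : SimpleGraph U
  ι : Type
  P : ι → Piece K
  A : Set U
  sum : IsSum K (fun i => (P i).A) A Set.univ
  homeo : Rl Γ Set.univ ≃ₜ Rl K A

attribute [instance] Side.finV Side.finU

end Pool.Agent.MP_6374aa_gt
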