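import Pool.Agent.MP_6374aa_gt.IfQ

/-! Maps of nonzero degree and local dual bases. -/

namespace Pool.Agent.MP_6374aa_gt

open Classical

noncomputable section

variable {V V' : Type} {G : SimpleGraph V} {G' : SimpleGraph V'} {A S : Set V} {A' : Set V'}
  {η : V → EA V} {b : V → V → ℚ}

theorem key_Deg (hI : PDinjStmt) (hη : Eta G A η) (hA : A.Finite) (hb : Coc G A b)
    (h : cap1 η b ∈ Bd G A 3) :
    ∃ F : V → ℚ, ∀ p ∈ A, ∀ q ∈ A, G.Adj p q → b p q = F p - F q := by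
  obtain ⟨W, hW, e⟩ := mem_Bd.1 h
  obtain ⟨F, -, -, h1, -⟩ := hI V G A η b W hη hb (fs_of_finite G hA b) hW e.symm
  exact ⟨F, h1⟩

theorem kill_Deg {F : V → ℚ} (hF : ∀ p ∈ A, ∀ q ∈ A, G.Adj p q → b p q = F p - F q) {z : EA V}
    (hz : z ∈ Zy G A 2) : evE b z = 0 := by
  rw [evE_congr (mem_Zy.1 hz).1 hF, evE_cob F hz]

theorem cob_Deg (hη : Eta0 G A η) (hA : A.Finite) {F : V → ℚ}
    (hF : ∀ p ∈ A, ∀ q ∈ A, G.Adj p q → b p q = F p - F q) : cap1 η b ∈ Bd G A 3 := by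
  rw [cap1_congr hη hF]
  exact cap1_cob_mem hη (hA.subset fun _ h => h.1)

theorem degS (hS : PDsurjStmt) (hI : PDinjStmt) : DegStmt := by
  intro V V' G A G' A' f ζ' hf hM hM' hζ h0
  have hη : Eta G A (lc (emap f ζ')) := eta_of_mf hM (emap_mem_Zy hf hζ) h0
  have hη' : Eta0 G' A' (lc ζ') := eta0_lc hM'.1 hζ
  have fs := fs_of_finite G' hM'.1
  have onto : ∀ z ∈ Zy G A 2, ∃ z' ∈ Zy G' A' 2, emap f z' - z ∈ Bd G A 2 := by
    intro z hz
    have hm : z ∈ (Zy G' A' 2).map (emap f) ⊔ Bd G A 2 := by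
      by_contra hn
      obtain ⟨φ, h1, h2⟩ := Submodule.exists_dual_map_eq_bot_of_notMem hn inferInstance
      have h3 : ∀ w ∈ (Zy G' A' 2).map (emap f) ⊔ Bd G A 2, φ w = 0 := fun w hw => by
        have : φ w ∈ ((Zy G' A' 2).map (emap f) ⊔ Bd G A 2).map φ := Submodule.mem_map_of_mem hw
        rwa [h2, Submodule.mem_bot] at this
      obtain ⟨a, ha, hb⟩ := exists_coc φ fun w hw => h3 w (Submodule.mem_sup_right hw)
      obtain ⟨F', hF'⟩ := exists_cob (ha.pull hf).anti fun w hw => by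
        rw [← evE_emap a f, hb _ (emap_mem_Ch hf (mem_Zy.1 hw).1)]
        exact h3 _ (Submodule.mem_sup_left (Submodule.mem_map_of_mem hw))
      have h4 := emap_mem_Bd hf (cob_Deg hη' hM'.1 hF')
      rw [emap_cap1] at h4
      obtain ⟨F, hF⟩ := key_Deg hI hη hM.1 ha h4
      exact h1 (by rw [← hb z (mem_Zy.1 hz).1, kill_Deg hF hz])
    obtain ⟨_, ⟨z', h1, rfl⟩, w, h2, rfl⟩ := Submodule.mem_sup.1 hm
    exact ⟨z', h1, by simpa using h2⟩
  refine ⟨onto, fun ν hν h1 h2 => ?_, fun a ha h1 h2 => ?_⟩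
  · refine mem_Bd_of_coc (mem_Zy.1 hν).1 fun a ha => ?_
    obtain ⟨b, hb, -, -, h3⟩ := hS V G A A _ hη subset_rfl _
      (emap_mem_Zy hf (cap1_mem_Zy hη' (fs a) ha))
    have h4 := h2 _ (ha.sub (hb.pull hf)) (by
      rw [cap1_sub hη' (fs _) (fs _), map_sub, emap_cap1, ← neg_sub]
      exact neg_mem h3)
    rwa [evE_sub_left, ← evE_emap b f, hb.evE_bd h1, sub_zero] at h4
  · obtain ⟨b, F, hb, h3⟩ := exists_coc_push hf onto ha h2
    have h4 : cap1 (lc (emap f ζ')) b ∈ Bd G A 3 := by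
      rw [cap1_congr hη' h3, cap1_add hη' (fs _) (fs _), map_add, emap_cap1] at h1
      have h5 := emap_mem_Bd hf (cob_Deg hη' hM'.1 (F := F) fun _ _ _ _ _ => rfl)
      simpa using sub_mem h1 h5
    obtain ⟨F0, hF⟩ := key_Deg hI hη hM.1 hb h4
    refine cob_Deg hη' hM'.1 (F := fun p => F0 (f p) + F p) fun p hp q hq hpq => ?_
    rw [h3 p hp q hq hpq]
    rcases hf.2 p hp q hq hpq with e | e
    · rw [e, hb.self]
      ring
    · rw [hF _ (hf.1 p hp) _ (hf.1 q hq) e]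
      ring

/-- Dual bases modulo the kernels of a bilinear form. -/
theorem dual_Deg {E F : Type} [AddCommGroup E] [Module ℚ E] [AddCommGroup F] [Module ℚ F]
    [FiniteDimensional ℚ F] (B : E →ₗ[ℚ] F →ₗ[ℚ] ℚ) :
    ∃ (n : ℕ) (y : Fin n → E) (ν : Fin n → F), (∀ i j, B (y i) (ν j) = if i = j then 1 else 0) ∧
      (∀ w : F, ∃ μ : Fin n → ℚ, ∀ e, B e (w - ∑ j, μ j • ν j) = 0) ∧
      ∀ e : E, ∃ μ : Fin n → ℚ, B (e - ∑ j, μ j • y j) = 0 := by
  let β := Module.finBasis ℚ (LinearMap.range B)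
  choose y hy using fun i => (β i).2
  choose ψ hψ using fun j => (β.coord j).exists_extend
  let ν := fun j => (Module.evalEquiv ℚ F).symm (ψ j)
  have hν : ∀ (r : LinearMap.range B) j, r.1 (ν j) = β.repr r j := fun r j =>
    (Module.apply_evalEquiv_symm_apply ℚ F r.1 (ψ j)).trans (LinearMap.congr_fun (hψ j) r)
  have hs : ∀ r : LinearMap.range B, r.1 = ∑ j, β.repr r j • (β j).1 := fun r => by
    have := congrArg (LinearMap.range B).subtype (β.sum_repr r)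
    rw [map_sum] at this
    exact this.symm
  refine ⟨_, y, ν, fun i j => ?_, fun w => ⟨fun j => (β j).1 w, fun e => ?_⟩,
    fun e => ⟨fun j => β.repr ⟨B e, e, rfl⟩ j, ?_⟩⟩
  · rw [hy, hν, β.repr_self, Finsupp.single_apply]
  · have h1 := fun j => hν ⟨B e, e, rfl⟩ j
    have h2 := LinearMap.congr_fun (hs ⟨B e, e, rfl⟩) w
    simp only at h1 h2
    simp only [map_sub, map_sum, map_smul, h1, h2, LinearMap.sum_apply, LinearMap.smul_apply,
      smul_eq_mul, mul_comm, sub_self]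
  · simp only [map_sub, map_sum, map_smul, hy]
    exact sub_eq_zero.2 (hs ⟨B e, e, rfl⟩)

/-- Pairs of a chain and a dual cocycle. -/
def pd_Deg (G : SimpleGraph V) (A : Set V) (η : V → EA V) : Submodule ℚ (EA V × EA V) where
  carrier := {e | e.2 ∈ Ch G A 2 ∧ Coc G A (ef e.2) ∧ cap1 η (ef e.2) - e.1 ∈ Bd G A 3}
  zero_mem' := ⟨zero_mem _, ⟨fun _ _ _ _ _ => by simp [ef_zero], fun _ _ _ _ _ _ _ _ _ => by
    simp [ef_zero], fun _ => ef_zero _ _⟩, by simp [cap1_ef_zero]⟩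
  add_mem' := by
    rintro x y ⟨h1, h2, h3⟩ ⟨k1, k2, k3⟩
    refine ⟨add_mem h1 k1, (h2.add k2).congr (ef_self _) fun p _ q _ _ => ef_add _ _ p q, ?_⟩
    rw [Prod.snd_add, Prod.fst_add, cap1_ef_add, add_sub_add_comm]
    exact add_mem h3 k3
  smul_mem' := by
    rintro r x ⟨h1, h2, h3⟩
    refine ⟨Submodule.smul_mem _ _ h1,
      (h2.mul r).congr (ef_self _) fun p _ q _ _ => ef_smul _ _ p q, ?_⟩
    rw [Prod.smul_snd, Prod.smul_fst, cap1_ef_smul, ← smul_sub]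
    exact Submodule.smul_mem _ _ h3

/-- Chains whose edges meet `S`. -/
def sp_Deg (S : Set V) : Submodule ℚ (EA V) where
  carrier := {x | ∀ p q, ef x p q ≠ 0 → p ∈ S ∨ q ∈ S}
  zero_mem' := fun p q h => absurd (ef_zero p q) h
  add_mem' := by
    intro x y hx hy p q h
    by_cases e : ef x p q = 0
    · exact hy p q (by rwa [ef_add, e, zero_add] at h)
    · exact hx p q e
  smul_mem' := fun r x hx p q h => hx p q (by
    rw [ef_smul] at h
    exact right_ne_zero_of_mul h)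

theorem ex_Deg (hS : PDsurjStmt) (hη : Eta G A η) (hSA : S ⊆ A) {y : EA V} (hy : y ∈ Zy G S 3) :
    ∃ x, (y, x) ∈ pd_Deg G A η ∧ x ∈ sp_Deg S := by
  obtain ⟨b, h1, h2, h3, h4⟩ := hS V G A S η hη hSA y hy
  obtain ⟨x, k1, k2, k3⟩ := h1.exists_ef h2
  refine ⟨x, ⟨k1, k2, ?_⟩, fun p q h => ?_⟩
  · rwa [cap1_congr hη.toEta0 k3]
  · obtain ⟨hp, hq, hpq⟩ := ef_ne_zero k1 h
    exact h3 p q (by rwa [← k3 p hp q hq hpq])

theorem dis_Deg {c : V' → V} {u v : V} (huv : u ≠ v) {x ν : EA V'}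
    (hx : x ∈ sp_Deg (A' ∩ c ⁻¹' {u})) (hν : ν ∈ Zy G' (A' ∩ c ⁻¹' {v}) 2) :
    evE (ef x) ν = 0 := by
  by_contra h
  obtain ⟨p, hp, q, hq, -, h1⟩ := evE_ne_zero (mem_Zy.1 hν).1 h
  rcases hx p q h1 with e | e
  · exact huv (e.2.symm.trans hp.2)
  · exact huv (e.2.symm.trans hq.2)

theorem famU (hS : PDsurjStmt) (hI : PDinjStmt) (hD : DegStmt) : FamUStmt := by
  intro V V' G A G' A' c ζ' hc hM hM' hζ h0 u hu
  have hη : Eta G' A' (lc ζ') := eta_of_mf hM' hζ h0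
  have hd := hD V V' G A G' A' c ζ' hc.hom hM hM' hζ fun e => h0 (hc.top ζ' hζ e)
  have fs := fs_of_finite G' hM'.1
  have hAA : A' ∩ c ⁻¹' A = A' := Set.inter_eq_left.2 hc.hom.1
  have hls : ∀ n, n = 2 ∨ n = 3 → ∀ N : Submodule ℚ (EA V'), Bd G' A' n ≤ N →
      (∀ v ∈ A, Zy G' (A' ∩ c ⁻¹' {v}) n ≤ N) → ∀ z ∈ Zy G' A' n, emap c z ∈ Bd G A n →
      z ∈ N := by
    intro n hn N h1 h2 z hz hb
    have := hc.ls n hn A subset_rfl z (by rwa [hAA]) hb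
    rw [hAA] at this
    exact (sup_le h1 (iSup₂_le h2) : _ ≤ N) this
  set S := A' ∩ c ⁻¹' {u} with hSdef
  have hSA : S ⊆ A' := Set.inter_subset_left
  have hcS : ∀ n, 2 ≤ n → ∀ z ∈ Zy G' S n, emap c z = 0 := fun n hn z hz =>
    emap_eq_zero_of_const (u := u) (fun a ha => ha.2) hn (mem_Zy.1 hz).1
  let E : Submodule ℚ (EA V' × EA V') := pd_Deg G' A' (lc ζ') ⊓ (Zy G' S 3).prod (sp_Deg S)
  have : FiniteDimensional ℚ (Ch G' S 2) := finiteDimensional_Ch (hM'.1.subset hSA) 2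
  have : FiniteDimensional ℚ (Zy G' S 2) := Submodule.finiteDimensional_of_le inf_le_left
  let B : E →ₗ[ℚ] Zy G' S 2 →ₗ[ℚ] ℚ := LinearMap.mk₂ ℚ (fun e ν => evE (ef e.1.2) ν.1)
    (fun e e' ν => by
      rw [evE_comm, evE_comm e.1.2, evE_comm e'.1.2]
      exact evE_add _ _ _)
    (fun r e ν => by
      rw [evE_comm, evE_comm e.1.2]
      exact evE_smul _ _ _)
    (fun e ν ν' => evE_add _ _ _) (fun r e ν => evE_smul _ _ _)
  have hL : ∀ e : E, B e = 0 → e.1.1 ∈ Bd G' A' 3 := by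
    rintro ⟨⟨y, x⟩, ⟨h1, h2, h3⟩, h4, h5⟩ he
    have h6 := hd.n2 (ef x) h2 (by
      have := emap_mem_Bd hc.hom h3
      rwa [map_sub, hcS 3 (by norm_num) y h4, sub_zero] at this) (fun ν hν hb => by
      refine hls 2 (Or.inl rfl) (LinearMap.ker (evL_UCT (ef x))) (fun z hz => h2.evE_bd hz)
        (fun v _ z hz => ?_) ν hν hb
      by_cases e : u = v
      · subst e
        exact LinearMap.congr_fun he ⟨z, hz⟩
      · exact dis_Deg e h5 hz)
    simpa using sub_mem h6 h3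
  have hR : ∀ ν : Zy G' S 2, (∀ e, B e ν = 0) → ν.1 ∈ Bd G' A' 2 := by
    rintro ⟨ν, hν⟩ he
    have hν' := Zy_mono hSA 2 hν
    refine hd.n1 ν hν' (by rw [hcS 2 le_rfl ν hν]; exact zero_mem _) fun a ha hb => ?_
    obtain ⟨⟨y, x⟩, ⟨⟨h1, h2, h3⟩, h4⟩, h5⟩ := hls 3 (Or.inr rfl)
      ((pd_Deg G' A' (lc ζ') ⊓ (LinearMap.ker (evL_UCT (ef ν))).comap
        (LinearMap.snd ℚ _ _)).map (LinearMap.fst ℚ _ _))
      (fun z hz => ⟨(z, 0), ⟨⟨zero_mem _, (pd_Deg G' A' (lc ζ')).zero_mem.2.1, by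
        simpa [cap1_ef_zero] using hz⟩, map_zero (evL_UCT (ef ν))⟩, rfl⟩)
      (fun v _ z hz => by
        obtain ⟨x, k1, k2⟩ := ex_Deg hS hη Set.inter_subset_left hz
        refine ⟨(z, x), ⟨k1, (evE_comm ν x).trans ?_⟩, rfl⟩
        by_cases e : v = u
        · subst e
          exact he ⟨(z, x), k1, hz, k2⟩
        · exact dis_Deg e k2 hν) _ (cap1_mem_Zy hη.toEta0 (fs a) ha) hb
    have h6 : y = cap1 (lc ζ') a := h5
    have h7 : evE (ef x) ν = 0 := (evE_comm x ν).trans h4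
    obtain ⟨F, hF⟩ := key_Deg hI hη hM'.1 (h2.sub ha) (by
      rw [cap1_sub hη.toEta0 (fs _) (fs _), ← h6]
      exact h3)
    have h8 := kill_Deg hF hν'
    rwa [evE_sub_left, h7, zero_sub, neg_eq_zero] at h8
  obtain ⟨n, y, ν, h1, h2, h3⟩ := dual_Deg B
  refine ⟨n, fun j => (ν j).1, fun j => (y j).1.1, fun j => (y j).1.2, fun j => (ν j).2,
    fun j => (y j).2.2.1, fun j => (y j).2.1.1, fun j => (y j).2.1.2.1, fun j => (y j).2.2.2,
    fun j => (y j).2.1.2.2, h1, fun w hw => ?_, fun w hw => ?_⟩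
  · obtain ⟨μ, hμ⟩ := h2 ⟨w, hw⟩
    exact ⟨μ, by simpa using hR _ hμ⟩
  · obtain ⟨x, k1, k2⟩ := ex_Deg hS hη hSA hw
    obtain ⟨μ, hμ⟩ := h3 ⟨(w, x), k1, hw, k2⟩
    exact ⟨μ, by simpa [Prod.fst_sum] using hL _ hμ⟩

end

end Pool.Agent.MP_6374aa_gt
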