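import Pool.Agent.MP_6374aa_gt.IfG

/-! The abstract dichotomy for free product decompositions. -/

namespace Pool.Agent.MP_6374aa_gt

theorem conj_DichAbs {L : Type} [Group L] {a b : L} : a⁻¹ * b * a = 1 ↔ b = 1 := by
  rw [← conj_eq_one_iff (a := a⁻¹) (b := b), inv_inv]

section

variable {π π' π'' X : Type} [Group π] [Group π'] [Group π''] {H : Subgroup π} {H' : Subgroup π'}
  {Λ : X → Subgroup π} {K : Subgroup π} {K' : Subgroup π'} {K'' : Subgroup π''} {f c : π' →* π}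
  {g : π'' →* π'} {x y : X}

/-- The element `k` conjugates the image of `K'` into `K`. -/
def Into_DichAbs (f : π' →* π) (H : Subgroup π) (K' : Subgroup π') (K : Subgroup π) (k : π) :
    Prop :=
  k ∈ H ∧ ∀ δ ∈ K', k⁻¹ * f δ * k ∈ K

theorem matchSc_DichAbs {k0 : π} (h0 : k0 ∈ H) (h : ∀ δ ∈ K', c δ = k0⁻¹ * f δ * k0)
    (hm : Mt c H K' K) : Mt f H K' K := by
  obtain ⟨h1, γ, h2, h3, h4⟩ := hm
  have h5 : ∀ δ ∈ K', (k0 * γ)⁻¹ * f δ * (k0 * γ) = γ⁻¹ * c δ * γ := by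
    intro δ hδ
    rw [h δ hδ]
    group
  refine ⟨fun δ hδ h6 => h1 δ hδ ?_, _, mul_mem h0 h2, fun δ hδ => h5 δ hδ ▸ h3 δ hδ,
    fun δ hδ => ?_⟩
  · rw [h δ hδ, h6, mul_one, inv_mul_cancel]
  · obtain ⟨δ', h6, h7⟩ := h4 δ hδ
    exact ⟨δ', h6, (h5 δ' h6).trans h7⟩

theorem ex_DichAbs (P : FPk H Λ) (hf : ∀ δ ∈ H', f δ ∈ H) (hK : K' ≤ H' ∧ K' ≠ ⊥ ∧ HasE K')
    (hi : ∀ δ ∈ K', f δ = 1 → δ = 1) : ∃ x γ, Into_DichAbs f H K' (Λ x) γ := by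
  obtain ⟨x, γ, h1, h2⟩ := P.k1 (K'.map f)
    (by rintro _ ⟨δ, hδ, rfl⟩; exact hf δ (hK.1 hδ))
    (fun h => hK.2.1 ((Subgroup.eq_bot_iff_forall _).2 fun δ hδ =>
      hi δ hδ ((Subgroup.eq_bot_iff_forall _).1 h _ ⟨δ, hδ, rfl⟩))) (hK.2.2.map _ hi)
  exact ⟨x, γ, h1, fun δ hδ => h2 _ ⟨δ, hδ, rfl⟩⟩

theorem uniq_DichAbs (P : FPk H Λ) (hne : K' ≠ ⊥) (hm : Mt f H K' (Λ x)) {γ : π}
    (h : Into_DichAbs f H K' (Λ y) γ) :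
    y = x ∧ ∀ δ ∈ Λ x, ∃ δ' ∈ K', γ⁻¹ * f δ' * γ = δ := by
  obtain ⟨h1, γ1, h2, h3, h4⟩ := hm
  obtain ⟨δ0, h5, h6⟩ : ∃ δ ∈ K', δ ≠ 1 := by
    by_contra hn
    exact hne ((Subgroup.eq_bot_iff_forall _).2 fun δ hδ => by_contra fun h => hn ⟨δ, hδ, h⟩)
  have e : (γ1⁻¹ * γ)⁻¹ * (γ1⁻¹ * f δ0 * γ1) * (γ1⁻¹ * γ) = γ⁻¹ * f δ0 * γ := by group
  obtain ⟨h7, h8⟩ := P.k2 x y _ (mul_mem (inv_mem h2) h.1) _ (h3 δ0 h5)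
    (fun h => h6 (h1 δ0 h5 (conj_DichAbs.1 h))) (e ▸ h.2 δ0 h5)
  refine ⟨h7.symm, fun δ hδ => ?_⟩
  obtain ⟨δ', h9, h10⟩ := h4 _ (mul_mem (mul_mem h8 hδ) (inv_mem h8))
  refine ⟨δ', h9, ?_⟩
  calc _ = (γ1⁻¹ * γ)⁻¹ * (γ1⁻¹ * f δ' * γ1) * (γ1⁻¹ * γ) := by group
    _ = δ := by rw [h10]; group

theorem fac_DichAbs {L' : Subgroup π'} (P : FPk H Λ) (hf : ∀ δ ∈ H', f δ ∈ H) (hne : K'' ≠ ⊥)
    (hm : Mt (f.comp g) H K'' (Λ x)) {γ' : π'} {γ : π}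
    (h' : Into_DichAbs g H' K'' L' γ') (h : Into_DichAbs f H L' (Λ y) γ) :
    y = x ∧ ((∀ δ ∈ L', f δ = 1 → δ = 1) → Mt f H L' (Λ x) ∧ Mt g H' K'' L') := by
  have h1 : ∀ δ, (f γ' * γ)⁻¹ * (f.comp g) δ * (f γ' * γ) = γ⁻¹ * f (γ'⁻¹ * g δ * γ') * γ := by
    intro δ
    rw [map_mul, map_mul, map_inv, MonoidHom.comp_apply]
    group
  obtain ⟨rfl, h2⟩ := uniq_DichAbs P hne hm (y := y) (γ := f γ' * γ)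
    ⟨mul_mem (hf _ h'.1) h.1, fun δ hδ => h1 δ ▸ h.2 _ (h'.2 δ hδ)⟩
  refine ⟨rfl, fun hi => ⟨⟨hi, γ, h.1, h.2, fun δ hδ => ?_⟩, fun δ hδ h3 => hm.1 δ hδ ?_,
    γ', h'.1, h'.2, fun δ hδ => ?_⟩⟩
  · obtain ⟨δ'', h3, h4⟩ := h2 δ hδ
    exact ⟨_, h'.2 δ'' h3, (h1 δ'').symm.trans h4⟩
  · rw [MonoidHom.comp_apply, h3, map_one]
  · obtain ⟨δ'', h3, h4⟩ := h2 _ (h.2 δ hδ)
    rw [h1, mul_left_inj, mul_right_inj] at h4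
    refine ⟨δ'', h3, mul_inv_eq_one.1 (hi _ (mul_mem (h'.2 δ'' h3) (inv_mem hδ)) ?_)⟩
    rw [map_mul, map_inv, h4, mul_inv_cancel]

end

theorem dichAbs : DichAbsStmt := by
  intro π0 π1 π2 π3 X0 X1 X2 X3 _ _ _ _ H0 H1 H2 H3 Λ0 Λ1 Λ2 Λ3 f0 f1 f2 c0 c1 k0 k1 j0 j1
    P0 P1 P2 a1 a2 a3 h0 h1 h2 hk0 hk1 s0 s1 d0 d1
  have m0 : ∀ x, Mt (f0.comp f1) H0 (Λ2 (j0 x)) (Λ0 x) := fun x =>
    matchSc_DichAbs hk0 (fun δ hδ => s0 δ ((a2 _).1 hδ)) (d0.mat x)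
  have m1 : ∀ x, Mt (f1.comp f2) H1 (Λ3 (j1 x)) (Λ1 x) := fun x =>
    matchSc_DichAbs hk1 (fun δ hδ => s1 δ ((a3 _).1 hδ)) (d1.mat x)
  have i1 : ∀ x, ∀ δ ∈ Λ2 (j0 x), f1 δ = 1 → δ = 1 := fun x δ hδ h =>
    (m0 x).1 δ hδ (by rw [MonoidHom.comp_apply, h, map_one])
  choose b γ1 hb using fun x => ex_DichAbs P1 h1 (a2 _) (i1 x)
  have key : ∀ x', (∀ δ ∈ Λ1 x', f0 δ = 1) ∨ ∃ y, b y = x' ∧ Mt f0 H0 (Λ1 (b y)) (Λ0 y) := by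
    intro x'
    obtain ⟨w, γ2, hw⟩ := ex_DichAbs P2 h2 (a3 (j1 x')) fun δ hδ h =>
      (m1 x').1 δ hδ (by rw [MonoidHom.comp_apply, h, map_one])
    by_cases hn : w ∈ Set.range j0
    · obtain ⟨y, rfl⟩ := hn
      obtain ⟨rfl, h3⟩ := fac_DichAbs P1 h1 (a3 _).2.1 (m1 x') hw (hb y)
      obtain ⟨h4, -⟩ := h3 (i1 y)
      have i0 : ∀ δ ∈ Λ1 (b y), f0 δ = 1 → δ = 1 := fun δ hδ h => by
        obtain ⟨-, γ, -, -, h6⟩ := h4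
        obtain ⟨δ', h7, rfl⟩ := h6 δ hδ
        rw [map_mul, map_mul, map_inv, conj_DichAbs] at h
        rw [(m0 y).1 δ' h7 h, map_one, mul_one, inv_mul_cancel]
      obtain ⟨z, γ0, hz⟩ := ex_DichAbs P0 h0 (a1 _) i0
      exact Or.inr ⟨y, rfl, ((fac_DichAbs P0 h0 (a2 _).2.1 (m0 y) (hb y) hz).2 i0).1⟩
    · refine Or.inl fun δ hδ => ?_
      obtain ⟨-, γ, -, -, h3⟩ := m1 x'
      obtain ⟨δ', h4, rfl⟩ := h3 δ hδ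
      have h5 := s0 _ ((a2 _).1 (hw.2 δ' h4))
      rw [d0.kill w hn _ (hw.2 δ' h4), eq_comm, conj_DichAbs] at h5
      simp only [map_mul, map_inv, conj_DichAbs] at h5
      rw [map_mul, map_mul, map_inv, conj_DichAbs, MonoidHom.comp_apply, h5]
  have all : ∀ x, Mt f0 H0 (Λ1 (b x)) (Λ0 x) := by
    intro x
    rcases key (b x) with h | ⟨y, h3, h4⟩
    · refine absurd ((Subgroup.eq_bot_iff_forall _).2 fun δ hδ => (m0 x).1 δ hδ ?_) (a2 (j0 x)).2.1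
      have h5 := h _ ((hb x).2 δ hδ)
      rwa [map_mul, map_mul, map_inv, conj_DichAbs] at h5
    · obtain ⟨-, γ, h5, h6, -⟩ := id h4
      rw [h3] at h6
      obtain rfl := (fac_DichAbs P0 h0 (a2 _).2.1 (m0 x) (hb x) ⟨h5, h6⟩).1
      exact h4
  refine ⟨b, h0, fun δ hδ => ?_, fun x y h => ?_, all,
    fun x' hx => (key x').resolve_right fun ⟨y, h, _⟩ => hx ⟨y, h⟩⟩
  · obtain ⟨δ2, h3, h4⟩ := d0.onto _ (mul_mem (mul_mem (inv_mem hk0) hδ) hk0)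
    rw [s0 δ2 h3, mul_left_inj, mul_right_inj] at h4
    exact ⟨f1 δ2, h1 δ2 h3, h4⟩
  · obtain ⟨-, γ, h5, h6, -⟩ := all x
    rw [h] at h6
    exact (uniq_DichAbs P0 (a1 _).2.1 (all y) ⟨h5, h6⟩).1

section

variable {V V' V'' : Type} {G : SimpleGraph V} {G' : SimpleGraph V'} {G'' : SimpleGraph V''}
  {A : Set V} {A' : Set V'} {A'' : Set V''} {f : V' → V} {g : V'' → V'} {c : V'' → V}
  {y : V} {y' : V'} {y'' : V''}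

theorem gcj_DichAbs (γ : Gp G A) (δ : Gp G' A') :
    gcj G' A' G A f γ δ = γ⁻¹ * gmap G' A' G A f δ * γ := by
  simp [gcj]

theorem loop_DichAbs (hf : IsHom G' A' G A f) (hy : y' ∈ A') {β : Gp G A}
    (h : Path G A (f y') y β) : ∀ δ ∈ Loop G' A' y', gcj G' A' G A f β δ ∈ Loop G A y :=
  fun δ hδ => gcj_DichAbs β δ ▸ h.conj_mem_Loop (gmap_mem_Loop hf hy hδ)

theorem two_DichAbs (hf : IsHom G' A' G A f) (hg : IsHom G'' A'' G' A' g)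
    (hc : IsHom G'' A'' G A c) (hs : SC G'' A'' G c (f ∘ g)) (hy : y'' ∈ A'') {β γ : Gp G A}
    {β' : Gp G' A'} (h : Path G A (f y') y β) (h' : Path G' A' (g y'') y' β')
    (hγ : Path G A (c y'') y γ) : ∃ k ∈ Loop G A y, ∀ δ ∈ Loop G'' A'' y'',
      gcj G'' A'' G A c γ δ = k⁻¹ * gcj G' A' G A f β (gcj G'' A'' G' A' g β' δ) * k := by
  refine ⟨(gmap G' A' G A f β' * β)⁻¹ * (gen G A (c y'') ((f ∘ g) y''))⁻¹ * γ,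
    (mem_Loop h.mem_right).2 ((((h'.map hf).trans h).symm.trans
      (Path.single (hc.1 _ hy) ((hf.comp hg).1 _ hy) (hs _ hy _ hy (Adq.refl _ _))).symm).trans hγ),
    fun δ hδ => ?_⟩
  rw [gcj_DichAbs, gcj_DichAbs, gcj_DichAbs, map_mul, map_mul, map_inv, gmap_comp hf hg,
    ((mem_Loop hy).1 hδ).gmap_sc hc (hf.comp hg) hs]
  group

end

theorem dichG (hA : DichAbsStmt) (h1 : FPk1Stmt) (h2 : FPk2Stmt) : DichGStmt := by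
  intro V0 V1 V2 V3 G0 A0 G1 A1 G2 A2 G3 A3 φ0 φ1 φ2 c0 c1 P0 P1 P2 P3 j0 j1 e0 e1 e2 s0 s1
    ⟨hc0, γ0, p0, d0⟩ ⟨hc1, γ1, p1, d1⟩
  obtain ⟨β0, b0⟩ := P0.conn.2 _ (e0.1 _ P1.mem) _ P0.mem
  obtain ⟨β1, b1⟩ := P1.conn.2 _ (e1.1 _ P2.mem) _ P1.mem
  obtain ⟨β2, b2⟩ := P2.conn.2 _ (e2.1 _ P3.mem) _ P2.mem
  obtain ⟨k0, hk0, t0⟩ := two_DichAbs e0 e1 hc0 s0 P2.mem b0 b1 p0
  obtain ⟨k1, hk1, t1⟩ := two_DichAbs e1 e2 hc1 s1 P3.mem b1 b2 p1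
  obtain ⟨b, hb⟩ := hA _ _ _ _ _ _ _ _ _ _ _ _ _ _ _ _ _ _ _ _ _ k0 k1 j0 j1
    ⟨h1 _ _ _ _ _ _ P0.fp, h2 _ _ _ _ _ _ P0.fp⟩ ⟨h1 _ _ _ _ _ _ P1.fp, h2 _ _ _ _ _ _ P1.fp⟩
    ⟨h1 _ _ _ _ _ _ P2.fp, h2 _ _ _ _ _ _ P2.fp⟩
    (fun x => ⟨P1.fp.le x, P1.fp.ne x, P1.fp.hasE x⟩)
    (fun x => ⟨P2.fp.le x, P2.fp.ne x, P2.fp.hasE x⟩)
    (fun x => ⟨P3.fp.le x, P3.fp.ne x, P3.fp.hasE x⟩)
    (loop_DichAbs e0 P1.mem b0) (loop_DichAbs e1 P2.mem b1) (loop_DichAbs e2 P3.mem b2)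
    hk0 hk1 t0 t1 d0 d1
  exact ⟨b, e0, β0, b0, hb⟩

end Pool.Agent.MP_6374aa_gt
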