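import Pool.Agent.MP_6374aa_gt.IfC

/-! The group theoretic part of the dichotomy. -/

namespace Pool.Agent.MP_6374aa_gt

theorem conj_DichGrp {L : Type} [Group L] {a b : L} : a⁻¹ * b * a = 1 ↔ b = 1 := by
  rw [← conj_eq_one_iff (a := a⁻¹) (b := b), inv_inv]

section

variable {V V' V'' : Type} {G : SimpleGraph V} {G' : SimpleGraph V'} {G'' : SimpleGraph V''}
  {A : Set V} {A' : Set V'} {A'' : Set V''} {f c : V' → V} {g : V'' → V'}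
  {P : Pack G A} {P' : Pack G' A'} {P'' : Pack G'' A''} {x y : P.X} {x' : P'.X} {x'' : P''.X}

/-- The path `γ` conjugates the image of the factor at `x'` into the factor at `x`. -/
def Into_DichGrp (f : V' → V) (P' : Pack G' A') (x' : P'.X) (P : Pack G A) (x : P.X)
    (γ : Gp G A) : Prop :=
  Path G A (f (P'.a x')) (P.a x) γ ∧ ∀ δ ∈ P'.Λ x', γ⁻¹ * gmap G' A' G A f δ * γ ∈ P.Λ x

theorem sc_DichGrp (hc : IsHom G' A' G A c) (hf : IsHom G' A' G A f) (h : SC G' A' G c f)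
    {δ : Gp G' A'} (hδ : δ ∈ P'.Λ x') : gmap G' A' G A f δ =
      (gen G A (c (P'.a x')) (f (P'.a x')))⁻¹ * gmap G' A' G A c δ *
        gen G A (c (P'.a x')) (f (P'.a x')) :=
  ((mem_Loop (P'.mem x')).1 (P'.loop x' hδ)).gmap_sc hc hf h

theorem matchSc_DichGrp (hc : IsHom G' A' G A c) (hf : IsHom G' A' G A f) (h : SC G' A' G c f)
    (hm : MatchAt c P' x' P x) : MatchAt f P' x' P x := by
  obtain ⟨h1, γ, h2, h3, h4⟩ := hm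
  have ha := P'.mem x'
  have h5 : ∀ δ ∈ P'.Λ x', ((gen G A (c (P'.a x')) (f (P'.a x')))⁻¹ * γ)⁻¹ * gmap G' A' G A f δ *
      ((gen G A (c (P'.a x')) (f (P'.a x')))⁻¹ * γ) = γ⁻¹ * gmap G' A' G A c δ * γ := by
    intro δ hδ
    rw [sc_DichGrp hc hf h hδ]
    group
  refine ⟨fun δ hδ h6 => h1 δ hδ ?_, _,
    (Path.single (hc.1 _ ha) (hf.1 _ ha) (h _ ha _ ha (Adq.refl _ _))).symm.trans h2,
    fun δ hδ => h5 δ hδ ▸ h3 δ hδ, fun δ hδ => ?_⟩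
  · rwa [sc_DichGrp hc hf h hδ, conj_DichGrp] at h6
  · obtain ⟨δ', h6, h7⟩ := h4 δ hδ
    exact ⟨δ', h6, (h5 δ' h6).trans h7⟩

theorem ex_DichGrp (hf : IsHom G' A' G A f) (P : Pack G A)
    (hi : ∀ δ ∈ P'.Λ x', gmap G' A' G A f δ = 1 → δ = 1) : ∃ x γ, Into_DichGrp f P' x' P x γ := by
  obtain ⟨x, γ, h1, h2⟩ := P.k1 _ (hf.1 _ (P'.mem x')) ((P'.Λ x').map (gmap G' A' G A f))
    (by rintro _ ⟨δ, hδ, rfl⟩; exact gmap_mem_Loop hf (P'.mem x') (P'.loop x' hδ))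
    (fun h => P'.ne x' ((Subgroup.eq_bot_iff_forall _).2 fun δ hδ =>
      hi δ hδ ((Subgroup.eq_bot_iff_forall _).1 h _ ⟨δ, hδ, rfl⟩))) ((P'.hasE x').map _ hi)
  exact ⟨x, γ, h1, fun δ hδ => h2 _ ⟨δ, hδ, rfl⟩⟩

theorem uniq_DichGrp (hm : MatchAt f P' x' P x) {γ : Gp G A} (h : Into_DichGrp f P' x' P y γ) :
    y = x ∧ ∀ δ ∈ P.Λ x, ∃ δ' ∈ P'.Λ x', γ⁻¹ * gmap G' A' G A f δ' * γ = δ := by
  obtain ⟨h1, γ1, h2, h3, h4⟩ := hm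
  obtain ⟨δ0, h5, h6⟩ : ∃ δ ∈ P'.Λ x', δ ≠ 1 := by
    by_contra hn
    exact P'.ne x' ((Subgroup.eq_bot_iff_forall _).2 fun δ hδ =>
      by_contra fun h => hn ⟨δ, hδ, h⟩)
  obtain ⟨h7, h8⟩ := P.k2 x y _ (h2.symm.trans h.1) _ (h3 δ0 h5)
    (fun h => h6 (h1 δ0 h5 (conj_DichGrp.1 h))) (by
      convert h.2 δ0 h5 using 1
      group)
  refine ⟨h7.symm, fun δ hδ => ?_⟩
  obtain ⟨δ', h9, h10⟩ := h4 _ (mul_mem (mul_mem h8 hδ) (inv_mem h8))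
  refine ⟨δ', h9, ?_⟩
  calc _ = (γ1⁻¹ * γ)⁻¹ * (γ1⁻¹ * gmap G' A' G A f δ' * γ1) * (γ1⁻¹ * γ) := by group
    _ = δ := by rw [h10]; group

theorem fac_DichGrp (hf : IsHom G' A' G A f) (hg : IsHom G'' A'' G' A' g)
    (hm : MatchAt (f ∘ g) P'' x'' P x) {γ' : Gp G' A'} {γ : Gp G A}
    (h' : Into_DichGrp g P'' x'' P' x' γ') (h : Into_DichGrp f P' x' P y γ) :
    y = x ∧ ((∀ δ ∈ P'.Λ x', gmap G' A' G A f δ = 1 → δ = 1) →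
      MatchAt f P' x' P x ∧ MatchAt g P'' x'' P' x') := by
  have h1 : ∀ δ, (gmap G' A' G A f γ' * γ)⁻¹ * gmap G'' A'' G A (f ∘ g) δ *
      (gmap G' A' G A f γ' * γ) =
        γ⁻¹ * gmap G' A' G A f (γ'⁻¹ * gmap G'' A'' G' A' g δ * γ') * γ := by
    intro δ
    rw [map_mul, map_mul, map_inv, gmap_comp hf hg]
    group
  obtain ⟨rfl, h2⟩ := uniq_DichGrp hm (y := y) (γ := gmap G' A' G A f γ' * γ)
    ⟨(h'.1.map hf).trans h.1, fun δ hδ => h1 δ ▸ h.2 _ (h'.2 δ hδ)⟩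
  refine ⟨rfl, fun hi => ⟨⟨hi, γ, h.1, h.2, fun δ hδ => ?_⟩, fun δ hδ h3 => hm.1 δ hδ ?_,
    γ', h'.1, h'.2, fun δ hδ => ?_⟩⟩
  · obtain ⟨δ'', h3, h4⟩ := h2 δ hδ
    exact ⟨_, h'.2 δ'' h3, (h1 δ'').symm.trans h4⟩
  · rw [← gmap_comp hf hg, h3, map_one]
  · obtain ⟨δ'', h3, h4⟩ := h2 _ (h.2 δ hδ)
    rw [h1, mul_left_inj, mul_right_inj] at h4
    refine ⟨δ'', h3, mul_inv_eq_one.1 (hi _ (mul_mem (h'.2 δ'' h3) (inv_mem hδ)) ?_)⟩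
    rw [map_mul, map_inv, h4, mul_inv_cancel]

end

theorem dichGrp : DichGrpStmt := by
  intro V0 V1 V2 V3 G0 A0 G1 A1 G2 A2 G3 A3 φ0 φ1 φ2 c0 c1 P0 P1 P2 P3 j0 j1 h0 h1 h2 s0 s1 d0 d1
  have m0 := fun x => matchSc_DichGrp d0.hom (h0.comp h1) s0 (d0.mat x)
  have m1 := fun x => matchSc_DichGrp d1.hom (h1.comp h2) s1 (d1.mat x)
  have i1 : ∀ x, ∀ δ ∈ P2.Λ (j0 x), gmap G2 A2 G1 A1 φ1 δ = 1 → δ = 1 := fun x δ hδ h =>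
    (m0 x).1 δ hδ (by rw [← gmap_comp h0 h1, h, map_one])
  choose b γ1 hb using fun x => ex_DichGrp h1 P1 (i1 x)
  have key : ∀ x', (∀ δ ∈ P1.Λ x', gmap G1 A1 G0 A0 φ0 δ = 1) ∨ ∃ y, b y = x' ∧
      MatchAt φ0 P1 (b y) P0 y ∧ MatchAt φ1 P2 (j0 y) P1 (b y) ∧
        MatchAt φ2 P3 (j1 (b y)) P2 (j0 y) := by
    intro x'
    obtain ⟨w, γ2, hw⟩ := ex_DichGrp h2 P2 fun δ hδ h =>
      (m1 x').1 δ hδ (by rw [← gmap_comp h1 h2, h, map_one])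
    by_cases hn : w ∈ Set.range j0
    · obtain ⟨y, rfl⟩ := hn
      obtain ⟨rfl, h3⟩ := fac_DichGrp h1 h2 (m1 x') hw (hb y)
      obtain ⟨h4, h5⟩ := h3 (i1 y)
      have i0 : ∀ δ ∈ P1.Λ (b y), gmap G1 A1 G0 A0 φ0 δ = 1 → δ = 1 := fun δ hδ h => by
        obtain ⟨-, γ, -, -, h6⟩ := h4
        obtain ⟨δ', h7, rfl⟩ := h6 δ hδ
        rw [map_mul, map_mul, map_inv, conj_DichGrp, gmap_comp h0 h1] at h
        rw [(m0 y).1 δ' h7 h, map_one, mul_one, inv_mul_cancel]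
      obtain ⟨z, γ0, hz⟩ := ex_DichGrp h0 P0 i0
      exact Or.inr ⟨y, rfl, ((fac_DichGrp h0 h1 (m0 y) (hb y) hz).2 i0).1, h4, h5⟩
    · refine Or.inl fun δ hδ => ?_
      obtain ⟨-, γ, -, -, h3⟩ := m1 x'
      obtain ⟨δ', h4, rfl⟩ := h3 δ hδ
      have h5 := sc_DichGrp d0.hom (h0.comp h1) s0 (hw.2 δ' h4)
      rw [d0.kill w hn _ (hw.2 δ' h4), mul_one, inv_mul_cancel, map_mul, map_mul, map_inv,
        conj_DichGrp] at h5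
      rw [map_mul, map_mul, map_inv, conj_DichGrp, ← gmap_comp h1 h2, gmap_comp h0 h1, h5]
  have all : ∀ x, MatchAt φ0 P1 (b x) P0 x ∧ MatchAt φ1 P2 (j0 x) P1 (b x) ∧
      MatchAt φ2 P3 (j1 (b x)) P2 (j0 x) := by
    intro x
    rcases key (b x) with h | ⟨y, h3, h4⟩
    · refine absurd ((Subgroup.eq_bot_iff_forall _).2 fun δ hδ => (m0 x).1 δ hδ ?_) (P2.ne (j0 x))
      have h5 := h _ ((hb x).2 δ hδ)
      rwa [map_mul, map_mul, map_inv, conj_DichGrp, gmap_comp h0 h1] at h5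
    · obtain ⟨-, γ, h5, h6, -⟩ := h4.1
      rw [h3] at h5 h6
      obtain rfl := (fac_DichGrp h0 h1 (m0 x) (hb x) ⟨h5, h6⟩).1
      exact h4
  refine ⟨b, fun x y h => ?_, fun x => (all x).1, fun x => (all x).2.1, fun x => (all x).2.2,
    fun x' hx => (key x').resolve_right fun ⟨y, h, _⟩ => hx ⟨y, h⟩⟩
  obtain ⟨-, γ, h5, h6, -⟩ := (all x).1
  rw [h] at h5 h6
  exact (uniq_DichGrp (all y).1 ⟨h5, h6⟩).1

end Pool.Agent.MP_6374aa_gt
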