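import Pool.Agent.MP_6374aa_gt.IfC

namespace Pool.Agent.MP_6374aa_gt

theorem dichS (h : DichGrpStmt) : DichStmt := by
  intro V0 V1 V2 V3 G0 A0 G1 A1 G2 A2 G3 A3 φ0 φ1 φ2 c0 c1 P0 P1 P2 P3 j0 j1 h0 h1 h2 s0 s1 d0 d1
  obtain ⟨b, hb, m0, m1, m2, hk⟩ := h V0 V1 V2 V3 G0 A0 G1 A1 G2 A2 G3 A3 φ0 φ1 φ2 c0 c1
    P0 P1 P2 P3 j0 j1 h0 h1 h2 s0 s1 d0 d1
  have e0 : ∀ n x, ∀ z ∈ P2.I x n, emap c0 z - emap φ0 (emap φ1 z) ∈ Bd G0 A0 n :=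
    fun n x z hz => by
      rw [emap_comp]
      exact emap_sub_mem_Bd d0.hom (h0.comp h1) s0 (II_le_Zy _ _ _ hz)
  have e1 : ∀ n x, ∀ z ∈ P3.I x n, emap c1 z - emap φ1 (emap φ2 z) ∈ Bd G1 A1 n :=
    fun n x z hz => by
      rw [emap_comp]
      exact emap_sub_mem_Bd d1.hom (h1.comp h2) s1 (II_le_Zy _ _ _ hz)
  refine ⟨b, h0, hb, m0, hk, fun n hn x z hz hz0 => ?_, fun n hn x z hz => ?_⟩
  · obtain ⟨z3, hz3, a1⟩ := d1.hsurj n hn (b x) z hz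
    have hz2 : emap φ2 z3 ∈ P2.I (j0 x) n := (m2 x).emap_mem h2 hz3
    have a2 : emap φ1 (emap φ2 z3) - z ∈ Bd G1 A1 n := by
      have := sub_mem a1 (e1 n _ z3 hz3)
      rwa [sub_sub_sub_cancel_left] at this
    have a3 : emap φ0 (emap φ1 (emap φ2 z3)) ∈ Bd G0 A0 n := by
      have := add_mem (emap_mem_Bd h0 a2) hz0
      rwa [map_sub, sub_add_cancel] at this
    have a4 : emap c0 (emap φ2 z3) ∈ Bd G0 A0 n := by
      have := add_mem (e0 n _ _ hz2) a3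
      rwa [sub_add_cancel] at this
    have a5 := emap_mem_Bd h1 (d0.hinj n hn x _ hz2 a4)
    have := sub_mem a5 a2
    rwa [sub_sub_cancel] at this
  · obtain ⟨z2, hz2, a1⟩ := d0.hsurj n hn x z hz
    refine ⟨emap φ1 z2, (m1 x).emap_mem h1 hz2, ?_⟩
    have := sub_mem a1 (e0 n _ z2 hz2)
    rwa [sub_sub_sub_cancel_left] at this

end Pool.Agent.MP_6374aa_gt
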