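import Pool.Agent.MP_6374aa_gt.IfC

/-! Composition of collapses and of extensions of packs. -/

namespace Pool.Agent.MP_6374aa_gt

open Classical

noncomputable section

variable {V V' V'' : Type} {G : SimpleGraph V} {G' : SimpleGraph V'} {G'' : SimpleGraph V''}
  {A : Set V} {A' : Set V'} {A'' : Set V''} {c : V' → V} {c' : V'' → V'}

theorem pre_ExtComp (h : IsHom G'' A'' G' A' c') (c : V' → V) (S : Set V) :
    A'' ∩ (c ∘ c') ⁻¹' S = A'' ∩ c' ⁻¹' (A' ∩ c ⁻¹' S) := by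
  ext x
  constructor
  · rintro ⟨h1, h2⟩
    exact ⟨h1, h.1 x h1, h2⟩
  · rintro ⟨h1, -, h2⟩
    exact ⟨h1, h2⟩

theorem hom_ExtComp (h : IsHom G' A' G A c) (S : Set V) : IsHom G' (A' ∩ c ⁻¹' S) G S c :=
  h.mono Set.inter_subset_left fun _ ha => ha.2

theorem biSup_ExtComp {ι M : Type} [AddCommGroup M] [Module ℚ M] (S : Set ι)
    (N : ι → Submodule ℚ M) {a : M} (h : a ∈ ⨆ i ∈ S, N i) :
    ∃ f : ι →₀ M, (∀ i, f i ∈ N i) ∧ (∀ i, i ∉ S → f i = 0) ∧ ∑ i ∈ f.support, f i = a := by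
  obtain ⟨f, hf, hs⟩ := (Submodule.mem_iSup_iff_exists_finsupp _ a).1 h
  refine ⟨f, fun i => ?_, fun i hi => ?_, hs⟩
  · exact (iSup_le fun _ => le_rfl : (⨆ _ : i ∈ S, N i) ≤ N i) (hf i)
  · have h1 := hf i
    rwa [iSup_neg hi, Submodule.mem_bot] at h1

/-- Correcting a cycle by a lift of its image. -/
theorem fix_ExtComp {M M' : Type} [AddCommGroup M] [Module ℚ M] [AddCommGroup M'] [Module ℚ M']
    (f : M' →ₗ[ℚ] M) {Z B' T : Submodule ℚ M'} {B U : Submodule ℚ M} (hT : T ≤ Z)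
    (hU : U ≤ T.map f ⊔ B) (hk : ∀ z ∈ Z, f z ∈ B → z ∈ B' ⊔ T) {z : M'} (hz : z ∈ Z)
    (hf : f z ∈ B ⊔ U) : z ∈ B' ⊔ T := by
  have h1 : f z ∈ T.map f ⊔ B := (sup_le le_sup_right hU : B ⊔ U ≤ _) hf
  obtain ⟨y, ⟨t, ht, rfl⟩, b, hb, e⟩ := Submodule.mem_sup.1 h1
  have h2 : f (z - t) ∈ B := by
    rw [map_sub, ← e, add_sub_cancel_left]
    exact hb
  have h3 := hk _ (Z.sub_mem hz (hT ht)) h2
  have h4 := Submodule.add_mem _ h3 (Submodule.mem_sup_right ht)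
  rwa [sub_add_cancel] at h4

theorem mem_map_sup_ExtComp {M M' : Type} [AddCommGroup M] [Module ℚ M] [AddCommGroup M']
    [Module ℚ M'] (f : M' →ₗ[ℚ] M) {T : Submodule ℚ M'} {B : Submodule ℚ M} {y : M} {t : M'}
    (ht : t ∈ T) (h : f t - y ∈ B) : y ∈ T.map f ⊔ B := by
  have h1 := Submodule.sub_mem _ (Submodule.mem_sup_left (T := B) (Submodule.mem_map_of_mem ht))
    (Submodule.mem_sup_right (S := T.map f) h)
  rwa [sub_sub_cancel] at h1

theorem ls_ExtComp (H : Loc G' A' G A c) (H' : Loc G'' A'' G' A' c') {n : ℕ}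
    (hn : n = 2 ∨ n = 3) {S : Set V} (hS : S ⊆ A) {z : EA V''}
    (hz : z ∈ Zy G'' (A'' ∩ (c ∘ c') ⁻¹' S) n) (hb : emap (c ∘ c') z ∈ Bd G S n) :
    z ∈ Bd G'' (A'' ∩ (c ∘ c') ⁻¹' S) n ⊔ ⨆ u ∈ S, Zy G'' (A'' ∩ (c ∘ c') ⁻¹' {u}) n := by
  have hy : emap c' z ∈ Zy G' (A' ∩ c ⁻¹' S) n :=
    emap_mem_Zy (hom_ExtComp H'.hom _) (by rwa [← pre_ExtComp H'.hom])
  refine fix_ExtComp (emap c') (Z := Zy G'' (A'' ∩ (c ∘ c') ⁻¹' S) n) ?_ ?_ ?_ hz
    (H.ls n hn S hS _ hy (by rwa [emap_comp]))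
  · refine iSup₂_le fun u hu => Zy_mono ?_ n
    rintro x ⟨h1, h2⟩
    exact ⟨h1, by rw [Set.mem_preimage, Set.mem_singleton_iff.1 h2]; exact hu⟩
  · refine iSup₂_le fun u hu y hy => ?_
    obtain ⟨t, ht, h⟩ := H'.s2 n _ Set.inter_subset_left y hy
    rw [← pre_ExtComp H'.hom] at ht
    refine mem_map_sup_ExtComp _ (Submodule.mem_iSup_of_mem u (Submodule.mem_iSup_of_mem hu ht))
      (Bd_mono ?_ n h)
    rintro x ⟨h1, h2⟩
    exact ⟨h1, by rw [Set.mem_preimage, Set.mem_singleton_iff.1 h2]; exact hu⟩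
  · intro w hw hwb
    rw [pre_ExtComp H'.hom] at hw ⊢
    refine SetLike.le_def.1 (sup_le_sup_left ?_ _) (H'.ls n hn _ Set.inter_subset_left w hw hwb)
    refine iSup₂_le fun v hv => le_iSup₂_of_le (c v) hv.2 (Zy_mono ?_ n)
    rintro x ⟨h1, h2⟩
    exact ⟨h1, congrArg c (Set.mem_singleton_iff.1 h2)⟩

theorem ind_ExtComp (H : Loc G' A' G A c) (H' : Loc G'' A'' G' A' c') {n : ℕ}
    (hn : n = 2 ∨ n = 3) (s : Finset V) (z : V → EA V'') (hs : ↑s ⊆ A)
    (hz : ∀ u ∈ s, z u ∈ Zy G'' (A'' ∩ (c ∘ c') ⁻¹' {u}) n) (hb : ∑ u ∈ s, z u ∈ Bd G'' A'' n) :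
    ∀ u ∈ s, z u ∈ Bd G'' A'' n := by
  have hy : ∀ u ∈ s, emap c' (z u) ∈ Zy G' (A' ∩ c ⁻¹' {u}) n := fun u hu =>
    emap_mem_Zy (hom_ExtComp H'.hom _) (by rw [← pre_ExtComp H'.hom]; exact hz u hu)
  have h1 : ∀ u ∈ s, emap c' (z u) ∈ Bd G' A' n :=
    H.ind n hn s (fun u => emap c' (z u)) hs hy (by rw [← map_sum]; exact emap_mem_Bd H'.hom hb)
  have h2 : ∀ u, ∃ f : V' →₀ EA V'', (∀ w, f w ∈ Zy G'' (A'' ∩ c' ⁻¹' {w}) n) ∧
      (∀ w, w ∉ A' ∩ c ⁻¹' {u} → f w = 0) ∧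
      (u ∈ s → z u - ∑ w ∈ f.support, f w ∈ Bd G'' A'' n) := by
    intro u
    by_cases hu : u ∈ s
    · have e : emap c (emap c' (z u)) = 0 :=
        emap_eq_zero_of_const (u := u) (fun a ha => ha.2) (by omega) (mem_Zy.1 (hy u hu)).1
      have h3 := H.s1 n {u} (Set.singleton_subset_iff.2 (hs hu)) _ (hy u hu)
        (by rw [e]; exact zero_mem _) (h1 u hu)
      have h4 := H'.ls n hn _ Set.inter_subset_left (z u)
        (by rw [← pre_ExtComp H'.hom]; exact hz u hu) h3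
      obtain ⟨b, hb, a, ha, e'⟩ := Submodule.mem_sup.1 h4
      obtain ⟨f, f1, f2, f3⟩ := biSup_ExtComp _ _ ha
      refine ⟨f, f1, f2, fun _ => ?_⟩
      rw [f3, ← e', add_sub_cancel_right]
      exact Bd_mono Set.inter_subset_left n hb
    · exact ⟨0, fun _ => zero_mem _, fun _ _ => rfl, fun h => absurd h hu⟩
  choose f f1 f2 f3 using h2
  have hsupp : ∀ u, ∀ w ∈ (f u).support, w ∈ A' ∩ c ⁻¹' {u} := fun u w hw => by
    by_contra h
    exact Finsupp.mem_support_iff.1 hw (f2 u w h)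
  have h5 := H'.ind n hn (s.biUnion fun u => (f u).support) (fun w => ∑ u ∈ s, f u w)
    (fun w hw => by
      obtain ⟨u, -, hw⟩ := Finset.mem_biUnion.1 hw
      exact (hsupp u w hw).1)
    (fun w _ => Submodule.sum_mem _ fun u _ => f1 u w)
    (by
      rw [Finset.sum_comm]
      have e : ∀ u ∈ s, ∑ w ∈ s.biUnion fun u => (f u).support, f u w =
          z u - (z u - ∑ w ∈ (f u).support, f u w) := fun u hu => by
        rw [sub_sub_cancel]
        exact (Finset.sum_subset (Finset.subset_biUnion_of_mem (fun u => (f u).support) hu)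
          fun w _ hw => Finsupp.notMem_support_iff.1 hw).symm
      rw [Finset.sum_congr rfl e, Finset.sum_sub_distrib]
      exact Submodule.sub_mem _ hb (Submodule.sum_mem _ fun u hu => f3 u hu))
  intro u hu
  have h6 : ∑ w ∈ (f u).support, f u w ∈ Bd G'' A'' n := by
    refine Submodule.sum_mem _ fun w hw => ?_
    have h7 := h5 w (Finset.mem_biUnion.2 ⟨u, hu, hw⟩)
    rwa [Finset.sum_eq_single_of_mem u hu fun u' _ hne => f2 u' w fun h =>
      hne ((Set.mem_singleton_iff.1 h.2).symm.trans (Set.mem_singleton_iff.1 (hsupp u w hw).2))]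
      at h7
  have h8 := Submodule.add_mem _ (f3 u hu) h6
  rwa [sub_add_cancel] at h8

theorem locComp : LocCompStmt := by
  intro V V' V'' G A G' A' G'' A'' c c' H H'
  refine ⟨H.hom.comp H'.hom, ?_, ?_, ?_, fun n hn S hS z hz hb => ls_ExtComp H H' hn hS hz hb,
    fun n hn s z hs hz hb => ind_ExtComp H H' hn s z hs hz hb, ?_⟩
  · intro v hv
    obtain ⟨w, hw, rfl⟩ := H.surj v hv
    obtain ⟨x, hx, rfl⟩ := H'.surj w hw
    exact ⟨x, hx, rfl⟩
  · intro n S hS z hz h1 h2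
    rw [pre_ExtComp H'.hom] at hz ⊢
    exact H'.s1 n _ Set.inter_subset_left z hz
      (H.s1 n S hS _ (emap_mem_Zy (hom_ExtComp H'.hom _) hz) (by rwa [emap_comp])
        (emap_mem_Bd H'.hom h2)) h2
  · intro n S hS z hz
    obtain ⟨y, hy, h1⟩ := H.s2 n S hS z hz
    obtain ⟨x, hx, h2⟩ := H'.s2 n _ Set.inter_subset_left y hy
    refine ⟨x, by rwa [pre_ExtComp H'.hom], ?_⟩
    have h3 := Submodule.add_mem _ (emap_mem_Bd (hom_ExtComp H.hom S) h2) h1
    rwa [map_sub, emap_comp, sub_add_sub_cancel] at h3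
  · intro z hz h
    exact H'.top z hz (H.top _ (emap_mem_Zy H'.hom hz) (by rwa [emap_comp]))

/-- An extension maps the classes of an old site onto the classes of the site. -/
theorem onto_ExtComp {P : Pack G A} {P' : Pack G' A'} {j : P.X → P'.X} (E : Ext c P' P j) {n : ℕ}
    (hn : n = 2 ∨ n = 3) (x : P.X) : P.I x n ≤ (P'.I (j x) n).map (emap c) ⊔ Bd G A n := by
  intro w hw
  obtain ⟨w', hw', h1⟩ := E.loc.s2 n A subset_rfl w (II_le_Zy _ _ n hw)
  obtain ⟨v, hv, h2⟩ := P'.exists_decomp hn (Zy_mono Set.inter_subset_left n hw')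
  have h3 := emap_mem_Bd E.loc.hom h2
  rw [map_sub, map_sum] at h3
  have e : ∑ y, emap c (v (j y)) = ∑ x', if x' ∈ Set.range j then emap c (v x') else 0 :=
    Fintype.sum_of_injective j E.inj _ _ (fun i hi => if_neg hi)
      fun i => (if_pos ⟨i, rfl⟩).symm
  have h4 : ∑ x', emap c (v x') - ∑ y, emap c (v (j y)) ∈ Bd G A n := by
    rw [e, ← Finset.sum_sub_distrib]
    refine Submodule.sum_mem _ fun x' _ => ?_
    split_ifs with h
    · rw [sub_self]
      exact zero_mem _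
    · rw [sub_zero]
      exact P.emap_mem_Bd E.loc.hom (P'.mem x') (E.new x' h) hn (hv x')
  have h5 := P.h3 n hn (fun y => emap c (v (j y)) - if y = x then w else 0)
    (fun y => by
      refine Submodule.sub_mem _ ((E.old y).emap_mem E.loc.hom (hv (j y))) ?_
      split_ifs with h
      · rw [h]
        exact hw
      · exact zero_mem _)
    (by
      rw [Finset.sum_sub_distrib, Finset.sum_ite_eq' Finset.univ x fun _ => w,
        if_pos (Finset.mem_univ x)]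
      have h6 := Submodule.sub_mem _ (Submodule.sub_mem _ h1 h3) h4
      convert h6 using 1
      abel) x
  simp only [if_true] at h5
  exact mem_map_sup_ExtComp _ (hv (j x)) h5

theorem range_ExtComp {X X' X'' : Type} {j : X → X'} {j' : X' → X''}
    (hj' : Function.Injective j') {x' : X'} (h : x' ∉ Set.range j) :
    j' x' ∉ Set.range (j' ∘ j) := by
  rintro ⟨x, hx⟩
  exact h ⟨x, hj' hx⟩

theorem cases_ExtComp {X X' X'' : Type} {j : X → X'} {j' : X' → X''} {x'' : X''}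
    (h : x'' ∉ Set.range (j' ∘ j)) :
    x'' ∉ Set.range j' ∨ ∃ x', x' ∉ Set.range j ∧ j' x' = x'' := by
  by_cases h1 : x'' ∈ Set.range j'
  · obtain ⟨x', rfl⟩ := h1
    refine Or.inr ⟨x', ?_, rfl⟩
    rintro ⟨x, rfl⟩
    exact h ⟨x, rfl⟩
  · exact Or.inl h1

theorem extComp (h : LocCompStmt) : ExtCompStmt := by
  intro V V' V'' G A G' A' G'' A'' c c' P P' P'' j j' E E'
  have hr : ∀ x'', x'' ∉ Set.range j' → x'' ∉ Set.range (j' ∘ j) := by
    rintro x'' h1 ⟨x, hx⟩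
    exact h1 ⟨j x, hx⟩
  refine ⟨h _ _ _ _ _ _ _ _ _ _ _ E.loc E'.loc, E'.inj.comp E.inj,
    fun x => MatchAt.comp E.loc.hom E'.loc.hom (E'.old (j x)) (E.old x), ?_, ?_, ?_, ?_, ?_⟩
  · intro x'' hx δ hδ
    rw [← gmap_comp E.loc.hom E'.loc.hom]
    rcases cases_ExtComp hx with h1 | ⟨x', h1, rfl⟩
    · rw [E'.new x'' h1 δ hδ, map_one]
    · obtain ⟨-, γ, -, h2, -⟩ := E'.old x'
      have h3 := E.new x' h1 _ (h2 δ hδ)
      rwa [map_mul, map_mul, map_inv, mul_assoc, inv_mul_eq_one, eq_comm, mul_eq_right] at h3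
  · intro L _ ρ hρ
    obtain ⟨lab', k', hf', hk'⟩ := E'.gauge L ρ fun x'' hx => hρ x'' (hr x'' hx)
    obtain ⟨lab, k, hf, hk⟩ := E.gauge L (glift G' A' lab') (by
      intro x' hx δ hδ
      obtain ⟨-, γ, -, -, h2⟩ := E'.old x'
      obtain ⟨δ', hδ', rfl⟩ := h2 δ hδ
      have h3 := Path.gauge' (ρ := ρ) (σ := (glift G' A' lab').comp (gmap G'' A'' G' A' c'))
        (k := k') (fun u hu w hw huw => by
          rw [MonoidHom.comp_apply, gmap_gen E'.loc.hom, glift_gen hf']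
          exact hk' u hu w hw huw) ((mem_Loop (P''.mem _)).1 (P''.loop _ hδ'))
      rw [hρ _ (range_ExtComp E'.inj hx) δ' hδ', eq_comm, mul_inv_eq_one, mul_eq_left,
        MonoidHom.comp_apply] at h3
      rw [map_mul, map_mul, h3, mul_one, map_inv, inv_mul_cancel])
    refine ⟨lab, fun u => k' u * k (c' u), hf, fun u hu w hw huw => ?_⟩
    have h4 := hk _ (E'.loc.hom.1 u hu) _ (E'.loc.hom.1 w hw) (E'.loc.hom.adq hu hw huw)
    rw [glift_gen hf'] at h4
    rw [hk' u hu w hw huw, h4]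
    simp only [Function.comp_apply]
    group
  · intro n hn z hz hb
    refine fix_ExtComp (emap c') (Z := Zy G'' A'' n) ?_ ?_ ?_ hz
      (E.ker n hn _ (emap_mem_Zy E'.loc.hom hz) (by rwa [emap_comp]))
    · exact iSup₂_le fun x'' _ => II_le_Zy _ _ n
    · refine iSup₂_le fun x' hx => (onto_ExtComp E' hn x').trans (sup_le_sup_right ?_ _)
      exact Submodule.map_mono (le_iSup₂_of_le (j' x') (range_ExtComp E'.inj hx) le_rfl)
    · intro w hw hwb
      refine SetLike.le_def.1 (sup_le_sup_left ?_ _) (E'.ker n hn w hw hwb)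
      exact iSup₂_le fun x'' hx => le_iSup₂_of_le x'' (hr x'' hx) le_rfl
  · intro n hn x'' hx
    rcases cases_ExtComp hx with h1 | ⟨x', h1, rfl⟩
    · obtain ⟨w, hw, h2⟩ := E'.loc1 n hn x'' h1
      refine ⟨c w, E.loc.hom.1 w hw, h2.trans (sup_le_sup_right (Zy_mono ?_ n) _)⟩
      rintro x ⟨h3, h4⟩
      exact ⟨h3, congrArg c (Set.mem_singleton_iff.1 h4)⟩
    · obtain ⟨u, hu, h2⟩ := E.loc1 n hn x' h1
      refine ⟨u, hu, ?_⟩
      rw [pre_ExtComp E'.loc.hom]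
      exact E'.loc2 n hn x' _ Set.inter_subset_left h2
  · intro n hn x S hS h1
    rw [pre_ExtComp E'.loc.hom]
    exact E'.loc2 n hn (j x) _ Set.inter_subset_left (E.loc2 n hn x S hS h1)

end

end Pool.Agent.MP_6374aa_gt
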