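import Pool.Agent.MP_6374aa_gt.IfG
import Pool.Agent.MP_6374aa_gt.GrA3

/-! Subgroups of free products with free generators. -/

namespace Pool.Agent.MP_6374aa_gt

open Classical Monoid

noncomputable section

theorem step_FPk {π A : Type} [Group π] [Group A] (j : A →* π) (M K : Subgroup π)
    (φ : π →* Coprod A M) (hφ : ∀ g ∈ K, Coprod.lift j M.subtype (φ g) = g) (hE : HasE K) :
    ∃ k ∈ j.range ⊔ M, (∀ δ ∈ K, k⁻¹ * δ * k ∈ M) ∨
      ∃ u : K →* A, Function.Injective u ∧ ∀ δ : K, k⁻¹ * δ * k = j (u δ) := by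
  have hinj : Function.Injective (φ.comp K.subtype) := by
    rw [injective_iff_map_eq_one]
    intro δ hδ
    have h1 : φ δ = 1 := hδ
    have h2 := hφ δ δ.2
    rw [h1, map_one] at h2
    exact Subtype.ext h2.symm
  obtain ⟨w, hw⟩ := hE A M (φ.comp K.subtype) hinj
  have hk : Coprod.lift j M.subtype w ∈ j.range ⊔ M := by
    have : Coprod.lift j M.subtype w ∈ (Coprod.lift j M.subtype).range := ⟨w, rfl⟩
    rwa [Coprod.range_lift, Subgroup.range_subtype] at this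
  have hc : ∀ δ : K, Coprod.lift j M.subtype (w⁻¹ * φ δ * w) =
      (Coprod.lift j M.subtype w)⁻¹ * δ * Coprod.lift j M.subtype w := by
    intro δ
    rw [map_mul, map_mul, map_inv, hφ δ δ.2]
  refine ⟨_, hk, ?_⟩
  rcases hw with hw | hw
  · right
    refine ⟨Coprod.fst.comp ((MulAut.conj w⁻¹).toMonoidHom.comp (φ.comp K.subtype)), ?_, ?_⟩
    · rw [injective_iff_map_eq_one]
      intro δ hδ
      obtain ⟨a, ha⟩ := hw δ
      have h1 : Coprod.fst (w⁻¹ * φ δ * w) = 1 := by simpa using hδ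
      have ha' : Coprod.inl a = w⁻¹ * φ δ * w := ha
      rw [← ha', Coprod.fst_apply_inl] at h1
      rw [h1, map_one] at ha'
      have h2 : φ δ = 1 := by
        have : φ δ = w * (w⁻¹ * φ δ * w) * w⁻¹ := by group
        rw [this, ← ha']
        group
      exact hinj (by simpa using h2)
    · intro δ
      obtain ⟨a, ha⟩ := hw δ
      have ha' : Coprod.inl a = w⁻¹ * φ δ * w := ha
      have h1 : Coprod.fst.comp ((MulAut.conj w⁻¹).toMonoidHom.comp (φ.comp K.subtype)) δ =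
          Coprod.fst (w⁻¹ * φ δ * w) := by simp
      rw [h1, ← hc δ, ← ha', Coprod.fst_apply_inl, Coprod.lift_apply_inl]
  · left
    intro δ hδ
    obtain ⟨b, hb⟩ := hw ⟨δ, hδ⟩
    have hb' : Coprod.inr b = w⁻¹ * φ δ * w := hb
    have := hc ⟨δ, hδ⟩
    rw [← hb', Coprod.lift_apply_inr] at this
    rw [← this]
    exact b.2

theorem noZ_FPk {π : Type} [Group π] {K : Subgroup π} (h0 : K ≠ ⊥) (hE : HasE K) (u : K →* Zm)
    (hu : Function.Injective u) : False := by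
  let θ : Zm →* Coprod Zm Zm := zpowersHom _
    (Coprod.inl (Multiplicative.ofAdd (1 : ℤ)) * Coprod.inr (Multiplicative.ofAdd (1 : ℤ)))
  have h1 : Coprod.fst.comp θ = MonoidHom.id Zm := by
    apply MonoidHom.ext_mint
    simp [θ]
  have h2 : Coprod.snd.comp θ = MonoidHom.id Zm := by
    apply MonoidHom.ext_mint
    simp [θ]
  have h1' : ∀ z, Coprod.fst (θ z) = z := fun z => DFunLike.congr_fun h1 z
  have h2' : ∀ z, Coprod.snd (θ z) = z := fun z => DFunLike.congr_fun h2 z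
  have hθ : Function.Injective θ := fun a b h => by rw [← h1' a, h, h1']
  obtain ⟨w, hw⟩ := hE Zm Zm (θ.comp u) (hθ.comp hu)
  apply h0
  rw [eq_bot_iff]
  intro δ hδ
  have key : u ⟨δ, hδ⟩ = 1 := by
    rcases hw with hw | hw
    · obtain ⟨a, ha⟩ := hw ⟨δ, hδ⟩
      have := congrArg Coprod.snd ha
      rw [Coprod.snd_apply_inl, map_mul, map_mul, map_inv, MonoidHom.comp_apply, h2', mul_comm,
        ← mul_assoc, mul_inv_cancel, one_mul] at this
      exact this.symm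
    · obtain ⟨a, ha⟩ := hw ⟨δ, hδ⟩
      have := congrArg Coprod.fst ha
      rw [Coprod.fst_apply_inr, map_mul, map_mul, map_inv, MonoidHom.comp_apply, h1', mul_comm,
        ← mul_assoc, mul_inv_cancel, one_mul] at this
      exact this.symm
  have : (⟨δ, hδ⟩ : K) = 1 := hu (by rw [key, map_one])
  exact Subgroup.mem_bot.2 (congrArg Subtype.val this)

section
variable {π X S : Type} [Group π] {H : Subgroup π} {Λ : X → Subgroup π} {t : S → π}

theorem exX_FPk (h : FP H Λ t) (x : X) (M : Subgroup π) :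
    ∃ φ : π →* Coprod (Λ x) M, (∀ δ : Λ x, φ δ = Coprod.inl δ) ∧
      (∀ y, y ≠ x → ∀ (hy : Λ y ≤ M) (δ : Λ y), φ δ = Coprod.inr (Subgroup.inclusion hy δ)) ∧
      ∀ s (hs : t s ∈ M), φ (t s) = Coprod.inr ⟨t s, hs⟩ := by
  obtain ⟨φ, h1, h2⟩ := h.ext (Coprod (Λ x) M)
    (fun y => if e : y = x then Coprod.inl.comp (Subgroup.inclusion (e ▸ le_rfl))
      else if hy : Λ y ≤ M then Coprod.inr.comp (Subgroup.inclusion hy) else 1)
    (fun s => if hs : t s ∈ M then Coprod.inr ⟨t s, hs⟩ else 1)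
  refine ⟨φ, fun δ => ?_, fun y e hy δ => ?_, fun s hs => ?_⟩
  · rw [h1, dif_pos rfl]
    rfl
  · rw [h1, dif_neg e, dif_pos hy]
    rfl
  · rw [h2, dif_pos hs]

theorem exS_FPk (h : FP H Λ t) (s : S) (M : Subgroup π) :
    ∃ φ : π →* Coprod Zm M, φ (t s) = Coprod.inl (Multiplicative.ofAdd (1 : ℤ)) ∧
      (∀ y (hy : Λ y ≤ M) (δ : Λ y), φ δ = Coprod.inr (Subgroup.inclusion hy δ)) ∧
      ∀ r, r ≠ s → ∀ hr : t r ∈ M, φ (t r) = Coprod.inr ⟨t r, hr⟩ := by
  obtain ⟨φ, h1, h2⟩ := h.ext (Coprod Zm M)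
    (fun y => if hy : Λ y ≤ M then Coprod.inr.comp (Subgroup.inclusion hy) else 1)
    (fun r => if r = s then Coprod.inl (Multiplicative.ofAdd (1 : ℤ))
      else if hr : t r ∈ M then Coprod.inr ⟨t r, hr⟩ else 1)
  refine ⟨φ, ?_, fun y hy δ => ?_, fun r e hr => ?_⟩
  · rw [h2, if_pos rfl]
  · rw [h1, dif_pos hy]
    rfl
  · rw [h2, if_neg e, dif_pos hr]

/-- the subgroup generated by a sub-family -/
def sub_FPk (Λ : X → Subgroup π) (t : S → π) (a : Set X) (b : Set S) : Subgroup π :=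
  Subgroup.closure {g | (∃ x ∈ a, g ∈ Λ x) ∨ ∃ s ∈ b, g = t s}

theorem sub_le_FPk (h : FP H Λ t) (a : Set X) (b : Set S) : sub_FPk Λ t a b ≤ H := by
  rw [sub_FPk, Subgroup.closure_le]
  rintro g (⟨x, -, hx⟩ | ⟨s, -, rfl⟩)
  · exact h.le x hx
  · exact h.mem s

theorem le_sub_FPk {a : Set X} (b : Set S) {x : X} (hx : x ∈ a) : Λ x ≤ sub_FPk Λ t a b :=
  fun _ hg => Subgroup.subset_closure (Or.inl ⟨x, hx, hg⟩)

theorem mem_sub_FPk (a : Set X) {b : Set S} {s : S} (hs : s ∈ b) : t s ∈ sub_FPk Λ t a b :=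
  Subgroup.subset_closure (Or.inr ⟨s, hs, rfl⟩)

theorem gen_FPk (h : FP H Λ t) : H ≤ sub_FPk Λ t Set.univ Set.univ := by
  refine h.gen.trans ?_
  rw [Subgroup.closure_le]
  rintro g (hg | ⟨s, rfl⟩)
  · obtain ⟨x, hx⟩ := Set.mem_iUnion.1 hg
    exact le_sub_FPk _ (Set.mem_univ x) hx
  · exact mem_sub_FPk _ (Set.mem_univ s)

theorem fix_FPk (ψ : π →* π) (a : Set X) (b : Set S) (h1 : ∀ x ∈ a, ∀ δ : Λ x, ψ δ = δ)
    (h2 : ∀ s ∈ b, ψ (t s) = t s) {g : π} (hg : g ∈ sub_FPk Λ t a b) : ψ g = g := by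
  have : Set.EqOn ψ (MonoidHom.id π) {g | (∃ x ∈ a, g ∈ Λ x) ∨ ∃ s ∈ b, g = t s} := by
    rintro g (⟨x, hx, hg⟩ | ⟨s, hs, rfl⟩)
    · exact h1 x hx ⟨g, hg⟩
    · exact h2 s hs
  exact MonoidHom.eqOn_closure this hg

/-- the conclusion of the subgroup theorem for the subgroups of `M` -/
def Good_FPk (H : Subgroup π) (Λ : X → Subgroup π) (M : Subgroup π) : Prop :=
  ∀ K : Subgroup π, K ≤ M → K ≠ ⊥ → HasE K → ∃ x, ∃ k ∈ H, ∀ δ ∈ K, k⁻¹ * δ * k ∈ Λ x

theorem conj_FPk {M K : Subgroup π} (hM : Good_FPk H Λ M) (h0 : K ≠ ⊥) (hE : HasE K) {k : π}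
    (hk : k ∈ H) (hK : ∀ δ ∈ K, k⁻¹ * δ * k ∈ M) :
    ∃ x, ∃ k ∈ H, ∀ δ ∈ K, k⁻¹ * δ * k ∈ Λ x := by
  have hf : ∀ δ, (MulAut.conj k⁻¹).toMonoidHom δ = k⁻¹ * δ * k := fun δ => by simp
  obtain ⟨x, k', hk', h⟩ := hM (K.map (MulAut.conj k⁻¹).toMonoidHom)
    (by
      rintro _ ⟨δ, hδ, rfl⟩
      rw [hf]
      exact hK δ hδ)
    (by
      intro e
      apply h0
      exact (Subgroup.map_eq_bot_iff_of_injective _ (MulAut.conj k⁻¹).injective).1 e)
    (hE.map _ fun δ _ e => (MulAut.conj k⁻¹).injective (by simpa using e))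
  refine ⟨x, k * k', H.mul_mem hk hk', fun δ hδ => ?_⟩
  have := h _ ⟨δ, hδ, rfl⟩
  rw [hf] at this
  have e : (k * k')⁻¹ * δ * (k * k') = k'⁻¹ * (k⁻¹ * δ * k) * k' := by group
  rwa [e]

theorem stepX_FPk (h : FP H Λ t) (a : Set X) (b : Set S) (x : X)
    (ih : Good_FPk H Λ (sub_FPk Λ t a b)) : Good_FPk H Λ (sub_FPk Λ t (insert x a) b) := by
  intro K hK h0 hE
  obtain ⟨φ, h1, h2, h3⟩ := exX_FPk h x (sub_FPk Λ t a b)
  obtain ⟨k, hk, hc⟩ := step_FPk (Λ x).subtype (sub_FPk Λ t a b) K φ (fun g hg =>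
    fix_FPk ((Coprod.lift (Λ x).subtype (sub_FPk Λ t a b).subtype).comp φ) (insert x a) b
      (fun y hy δ => by
        by_cases e : y = x
        · subst e
          rw [MonoidHom.comp_apply, h1, Coprod.lift_apply_inl]
          rfl
        · rw [MonoidHom.comp_apply, h2 y e (le_sub_FPk b (hy.resolve_left e)),
            Coprod.lift_apply_inr]
          rfl)
      (fun s hs => by
        rw [MonoidHom.comp_apply, h3 s (mem_sub_FPk a hs), Coprod.lift_apply_inr]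
        rfl) (hK hg)) hE
  have hkH : k ∈ H := by
    rw [Subgroup.range_subtype] at hk
    exact sup_le (h.le x) (sub_le_FPk h a b) hk
  rcases hc with hc | ⟨u, -, hu⟩
  · exact conj_FPk ih h0 hE hkH hc
  · refine ⟨x, k, hkH, fun δ hδ => ?_⟩
    have := hu ⟨δ, hδ⟩
    rw [this]
    exact (u ⟨δ, hδ⟩).2

theorem stepS_FPk (h : FP H Λ t) (a : Set X) (b : Set S) (s : S)
    (ih : Good_FPk H Λ (sub_FPk Λ t a b)) : Good_FPk H Λ (sub_FPk Λ t a (insert s b)) := by
  intro K hK h0 hE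
  obtain ⟨φ, h1, h2, h3⟩ := exS_FPk h s (sub_FPk Λ t a b)
  obtain ⟨k, hk, hc⟩ := step_FPk (zpowersHom π (t s)) (sub_FPk Λ t a b) K φ (fun g hg =>
    fix_FPk ((Coprod.lift (zpowersHom π (t s)) (sub_FPk Λ t a b).subtype).comp φ) a (insert s b)
      (fun y hy δ => by
        rw [MonoidHom.comp_apply, h2 y (le_sub_FPk b hy), Coprod.lift_apply_inr]
        rfl)
      (fun r hr => by
        by_cases e : r = s
        · subst e
          rw [MonoidHom.comp_apply, h1, Coprod.lift_apply_inl]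
          simp
        · rw [MonoidHom.comp_apply, h3 r e (mem_sub_FPk a (hr.resolve_left e)),
            Coprod.lift_apply_inr]
          rfl) (hK hg)) hE
  have hkH : k ∈ H := by
    refine sup_le ?_ (sub_le_FPk h a b) hk
    rintro _ ⟨z, rfl⟩
    rw [zpowersHom_apply]
    exact H.zpow_mem (h.mem s) _
  rcases hc with hc | ⟨u, hu, -⟩
  · exact conj_FPk ih h0 hE hkH hc
  · exact (noZ_FPk h0 hE u hu).elim

theorem good_FPk (h : FP H Λ t) {a : Set X} (ha : a.Finite) {b : Set S} (hb : b.Finite) :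
    Good_FPk H Λ (sub_FPk Λ t a b) := by
  induction a, ha using Set.Finite.induction_on with
  | empty =>
    induction b, hb using Set.Finite.induction_on with
    | empty =>
      intro K hK h0 _
      refine (h0 (le_bot_iff.1 (hK.trans ?_))).elim
      rw [sub_FPk, Subgroup.closure_le]
      rintro g (⟨x, hx, -⟩ | ⟨s, hs, -⟩)
      · exact hx.elim
      · exact hs.elim
    | insert _ _ ih => exact stepS_FPk h _ _ _ ih
  | insert _ _ ih => exact stepX_FPk h _ _ _ ih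

end

theorem fPk1 : FPk1Stmt := by
  intro π X S _ _ _ H Λ t h K hK h0 hE
  exact good_FPk h Set.finite_univ Set.finite_univ K (hK.trans (gen_FPk h)) h0 hE

theorem fPk2 (hM : MalStmt) : FPk2Stmt := by
  intro π X S _ H Λ t h x x' k hk δ hδ h1 hc
  obtain ⟨φ, f1, f2, f3⟩ := exX_FPk h x H
  have hδ' : (⟨δ, hδ⟩ : Λ x) ≠ 1 := fun e => h1 (congrArg Subtype.val e)
  have e0 : φ (k⁻¹ * δ * k) = (φ k)⁻¹ * Coprod.inl (⟨δ, hδ⟩ : Λ x) * φ k := by
    rw [map_mul, map_mul, map_inv, ← f1]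
  have e : x = x' := by
    by_contra e
    have h2 := f2 x' (Ne.symm e) (h.le x') ⟨_, hc⟩
    have h3 := congrArg Coprod.fst (e0.symm.trans h2)
    rw [Coprod.fst_apply_inr, map_mul, map_mul, map_inv, Coprod.fst_apply_inl] at h3
    apply hδ'
    have : (⟨δ, hδ⟩ : Λ x) = Coprod.fst (φ k) *
        ((Coprod.fst (φ k))⁻¹ * ⟨δ, hδ⟩ * Coprod.fst (φ k)) * (Coprod.fst (φ k))⁻¹ := by group
    rw [this, h3]
    group
  subst e
  refine ⟨rfl, ?_⟩
  obtain ⟨a, ha⟩ := (hM (Λ x) H (φ k)).1 ⟨δ, hδ⟩ ⟨_, hc⟩ hδ' (e0.symm.trans (f1 ⟨_, hc⟩))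
  have h4 := fix_FPk ((Coprod.lift (Λ x).subtype H.subtype).comp φ) Set.univ Set.univ
    (fun y _ δ => by
      by_cases e : y = x
      · subst e
        rw [MonoidHom.comp_apply, f1, Coprod.lift_apply_inl]
        rfl
      · rw [MonoidHom.comp_apply, f2 y e (h.le y), Coprod.lift_apply_inr]
        rfl)
    (fun s _ => by
      rw [MonoidHom.comp_apply, f3 s (h.mem s), Coprod.lift_apply_inr]
      rfl) (gen_FPk h hk)
  rw [MonoidHom.comp_apply, ← ha, Coprod.lift_apply_inl] at h4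
  rw [← h4]
  exact a.2

end

end Pool.Agent.MP_6374aa_gt
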