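import Pool.Agent.MP_6374aa_gt.IfT

/-! Existence of admissible families adapted to the sites. -/

namespace Pool.Agent.MP_6374aa_gt

open Classical

section Abs

variable {E : Type} [AddCommGroup E] [Module ℚ E]

theorem basis_Fam (I N B : Submodule ℚ E) [FiniteDimensional ℚ I] (h1 : B ≤ I) (h2 : I ≤ N ⊔ B) :
    ∃ (d : ℕ) (z : Fin d → E), (∀ i, z i ∈ I ∧ z i ∈ N) ∧
      (∀ c : Fin d → ℚ, ∑ i, c i • z i ∈ B → ∀ i, c i = 0) ∧
      I ≤ B ⊔ Submodule.span ℚ (Set.range z) := by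
  let b := Module.finBasis ℚ (I.map B.mkQ)
  have h3 : ∀ i, ∃ z, (z ∈ I ∧ z ∈ N) ∧ B.mkQ z = b i := fun i => by
    obtain ⟨w, hw, e⟩ := (b i).2
    obtain ⟨u, hu, v, hv, rfl⟩ := Submodule.mem_sup.1 (h2 hw)
    refine ⟨u, ⟨(I.add_mem_iff_left (h1 hv)).1 hw, hu⟩, ?_⟩
    rw [← e, map_add, B.mkQ_apply v, (Submodule.Quotient.mk_eq_zero B).2 hv, add_zero]
  choose z h4 h5 using h3
  have h6 : ∀ c : _ → ℚ, B.mkQ (∑ i, c i • z i) = ((∑ i, c i • b i : I.map B.mkQ) : E ⧸ B) :=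
    fun c => by simp only [map_sum, map_smul, h5, Submodule.coe_sum, Submodule.coe_smul]
  refine ⟨_, z, h4, fun c hc => Fintype.linearIndependent_iff.1 b.linearIndependent c
    (Subtype.ext ?_), fun w hw => ?_⟩
  · rw [← h6]
    exact (Submodule.Quotient.mk_eq_zero B).2 hc
  · have h7 := h6 (b.repr ⟨_, Submodule.mem_map_of_mem hw⟩)
    rw [b.sum_repr] at h7
    refine Submodule.mem_sup.2 ⟨_, (Submodule.Quotient.eq B).1 h7.symm, _,
      Submodule.sum_mem _ fun i _ => Submodule.smul_mem _ _ (Submodule.subset_span ⟨i, rfl⟩),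
      sub_add_cancel _ _⟩

variable {X C : Type} [Fintype X] [Group C] [Fintype C] {I N : X → Submodule ℚ E}
  {B : Submodule ℚ E}

theorem ind_Fam (h3 : ∀ z : X → E, (∀ x, z x ∈ I x) → ∑ x, z x ∈ B → ∀ x, z x ∈ B) {K : Type}
    [Fintype K] {σ : K → X} (hσ : Function.Injective σ) (u : K → E) (hu : ∀ k, u k ∈ I (σ k))
    (hs : ∑ k, u k ∈ B) (k : K) : u k ∈ B := by
  have := h3 (fun y => ∑ k with σ k = y, u k)
    (fun y => Submodule.sum_mem _ fun k hk => (Finset.mem_filter.1 hk).2 ▸ hu k)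
    (by rwa [Finset.sum_fiberwise Finset.univ σ u]) (σ k)
  rwa [Finset.sum_eq_single_of_mem k (by simp) fun k' hk' hne =>
    absurd (hσ (Finset.mem_filter.1 hk').2) hne] at this

theorem abs_Fam (T : C → E →ₗ[ℚ] E) (T1 : ∀ z, T 1 z = z)
    (T2 : ∀ g h z, T g (T h z) = T (g * h) z) (hB : ∀ g, ∀ z ∈ B, T g z ∈ B)
    (hfd : ∀ x, FiniteDimensional ℚ (I x)) (h1 : ∀ x, B ≤ I x) (h2 : ∀ x, I x ≤ N x ⊔ B)
    (h3 : ∀ z : X → E, (∀ x, z x ∈ I x) → ∑ x, z x ∈ B → ∀ x, z x ∈ B)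
    (hop : ∀ g x, ∃ y, ∀ z ∈ I x, T g z ∈ I y)
    (hfr : ∀ x g, g ≠ 1 → ∀ z ∈ I x, T g z ∈ I x → z ∈ B) :
    ∃ (J : Type) (_ : Fintype J) (z : J → E) (site : J → X),
      (∀ j, z j ∈ I (site j) ∧ z j ∈ N (site j)) ∧
      (∀ c : J → C → ℚ, ∑ j, ∑ g, c j g • T g (z j) ∈ B → ∀ j g, c j g = 0) ∧
      ∀ x, I x ≤ B ⊔ Submodule.span ℚ (Set.range fun p : J × C => T p.2 (z p.1)) := by
  have hinv : ∀ g z, T g (T g⁻¹ z) = z := fun g z => by rw [T2, mul_inv_cancel, T1]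
  have hinv' : ∀ g z, T g⁻¹ (T g z) = z := fun g z => by rw [T2, inv_mul_cancel, T1]
  have huniq : ∀ x x', ¬ I x ≤ B → I x ≤ I x' → x = x' := fun x x' hx hle => by
    by_contra hne
    refine hx fun w hw => ind_Fam h3 (K := Bool) (σ := fun b => cond b x x') ?_
      (fun b => cond b w (-w)) ?_ (by simp) true
    · rintro (_ | _) (_ | _) e
      · rfl
      · exact absurd e.symm hne
      · exact absurd e hne
      · rfl
    · rintro (_ | _)
      · exact neg_mem (hle hw)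
      · exact hw
  have hsym : ∀ g x y, ¬ I x ≤ B → (∀ z ∈ I x, T g z ∈ I y) → ∀ z ∈ I y, T g⁻¹ z ∈ I x :=
    fun g x y hx h => by
      obtain ⟨x', hx'⟩ := hop g⁻¹ y
      rwa [huniq x x' hx fun z hz => hinv' g z ▸ hx' _ (h z hz)]
  have hvis : ∀ g x y, ¬ I x ≤ B → (∀ z ∈ I x, T g z ∈ I y) → ¬ I y ≤ B :=
    fun g x y hx h hy => hx fun z hz => hinv' g z ▸ hB _ _ (hy (h z hz))
  let s : Setoid {x // ¬ I x ≤ B} := ⟨fun x y => ∃ g, ∀ z ∈ I x.1, T g z ∈ I y.1,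
    fun x => ⟨1, fun z hz => by rwa [T1]⟩, fun {x y} ⟨g, h⟩ => ⟨g⁻¹, hsym g _ _ x.2 h⟩,
    fun ⟨g, h⟩ ⟨g', h'⟩ => ⟨g' * g, fun z hz => T2 g' g z ▸ h' _ (h z hz)⟩⟩
  choose d z z1 z2 z3 using fun x => basis_Fam (I x) (N x) B (h1 x) (h2 x)
  choose op hop using hop
  let _ : Fintype (Quotient s) := Fintype.ofFinite _
  refine ⟨Σ q : Quotient s, Fin (d q.out.1), inferInstance, fun j => z _ j.2, fun j => j.1.out.1,
    fun j => z1 _ _, fun c hc j g => ?_, fun y w hw => ?_⟩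
  · have hinj : Function.Injective fun p : Quotient s × C => op p.2 p.1.out.1 := by
      rintro ⟨q, g⟩ ⟨q', g'⟩ (e : op g q.out.1 = op g' q'.out.1)
      have e1 : ∀ z ∈ I q.out.1, T (g'⁻¹ * g) z ∈ I q'.out.1 := fun z hz =>
        T2 _ _ z ▸ hsym g' _ _ q'.out.2 (hop g' _) _ (e ▸ hop g _ z hz)
      obtain rfl : q = q' := Quotient.out_equiv_out.1 ⟨_, e1⟩
      have e2 : g'⁻¹ * g = 1 := by
        by_contra hne
        exact q.out.2 fun z hz => hfr _ _ hne z hz (e1 z hz)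
      rw [inv_mul_eq_one.1 e2]
    have := ind_Fam h3 hinj (fun p => T p.2 (∑ i, c ⟨p.1, i⟩ p.2 • z _ i))
      (fun p => hop _ _ _ (Submodule.sum_mem _ fun i _ => Submodule.smul_mem _ _ (z1 _ i).1))
      (by
        rw [Fintype.sum_sigma] at hc
        simp only [Fintype.sum_prod_type, map_sum, map_smul]
        rwa [Finset.sum_congr rfl fun q _ => Finset.sum_comm] at hc) (j.1, g)
    have h4 := hB g⁻¹ _ this
    rw [hinv'] at h4
    exact z2 _ (fun i => c ⟨j.1, i⟩ g) h4 j.2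
  · by_cases hy : I y ≤ B
    · exact Submodule.mem_sup_left (hy hw)
    obtain ⟨g, hg⟩ := Quotient.mk_out (s := s) ⟨y, hy⟩
    rw [← hinv g w]
    obtain ⟨u, hu, v, hv, e⟩ := Submodule.mem_sup.1
      (z3 _ (hsym g _ _ (Quotient.mk s ⟨y, hy⟩).out.2 hg w hw))
    rw [← e, map_add]
    refine Submodule.add_mem_sup (hB g u hu) (Submodule.mem_comap.1 (Submodule.span_le.2 ?_ hv))
    rintro _ ⟨i, rfl⟩
    exact Submodule.subset_span ⟨(⟨_, i⟩, g), rfl⟩

end Abs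

theorem deg_Fam {C : Type} [CommGroup C] [Fintype C] {V : Type} {G : SimpleGraph V} {A : Set V}
    {α : C →* Equiv.Perm V} (P : Pack G A) (N : P.X → Submodule ℚ (EA V)) (hα : Act G A α)
    (hfr : Fr P α) {n : ℕ} (hn : n = 2 ∨ n = 3) (hN : ∀ x, P.I x n ≤ N x ⊔ Bd G A n) :
    ∃ (J : Type) (_ : Fintype J) (z : J → EA V) (site : J → P.X),
      (∀ j, z j ∈ P.I (site j) n ∧ z j ∈ N (site j)) ∧
      (∀ μ : J → RC C, ∑ j, act α (μ j) (z j) ∈ Bd G A n → ∀ j, μ j = 0) ∧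
      ∀ w ∈ Zy G A n, ∃ μ : J → RC C, w - ∑ j, act α (μ j) (z j) ∈ Bd G A n := by
  obtain ⟨J, _, z, site, h1, h2, h3⟩ := abs_Fam (I := fun x => P.I x n) (N := N) (B := Bd G A n)
    (fun g => emap (α g))
    (fun z => by rw [← one_smul ℚ (emap (α 1) z), ← act_single]; exact act_one z)
    (fun g h z => by rw [emap_comp, map_mul, Equiv.Perm.coe_mul])
    (fun g z hz => emap_mem_Bd (hα.isIso g).isHom hz)
    (fun x => by
      have := finiteDimensional_Ch (G := G) P.fin3.1 n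
      exact Submodule.finiteDimensional_of_le ((II_le_Zy _ _ n).trans inf_le_left))
    (fun x => Bd_le_II _ _ n) hN (P.h3 n hn)
    (fun g x => (P.perm hα g x).imp fun y hy z hz => hy.emap_mem (hα.isIso g).isHom hz)
    fun x g => hfr x n hn g
  refine ⟨J, inferInstance, z, site, h1, fun μ hμ j => ?_, fun w hw => ?_⟩
  · ext g
    exact h2 (fun j g => (μ j).coeff g) hμ j g
  · obtain ⟨u, hu, v, hv, rfl⟩ := Submodule.mem_sup.1
      ((sup_le le_sup_left (iSup_le h3) : Bd G A n ⊔ ⨆ x, P.I x n ≤ _) (P.h2 n hn hw))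
    obtain ⟨c, rfl⟩ := (Submodule.mem_span_range_iff_exists_fun ℚ).1 hv
    refine ⟨fun j => .ofCoeff (Finsupp.equivFunOnFinite.symm fun g => c (j, g)), ?_⟩
    rw [Fintype.sum_prod_type]
    exact (add_sub_cancel_right u _).symm ▸ hu

theorem fam : FamStmt := by
  intro C _ _ V G A α P N hα hfr hN
  obtain ⟨J, _, z, s, a1, a2, a3⟩ := deg_Fam P (N · 2) hα hfr (Or.inl rfl)
    fun x => hN x 2 (Or.inl rfl)
  obtain ⟨J', _, z', s', b1, b2, b3⟩ := deg_Fam P (N · 3) hα hfr (Or.inr rfl)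
    fun x => hN x 3 (Or.inr rfl)
  have h : ∀ j, Sum.elim z z' j ∈ P.I (Sum.elim s s' j) (Sum.elim (fun _ => 2) (fun _ => 3) j) ∧
      Sum.elim z z' j ∈ N (Sum.elim s s' j) (Sum.elim (fun _ => 2) (fun _ => 3) j) := by
    rintro (j | j)
    · exact a1 j
    · exact b1 j
  refine ⟨J ⊕ J', inferInstance, inferInstance, _, _, _, ⟨?_, fun j =>
    ⟨_, P.mem _, _, P.loop _, P.hasE _, (h j).1⟩, fun n μ h0 hμ => ?_, ?_⟩, h⟩
  · rintro (j | j)
    · exact Or.inl rfl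
    · exact Or.inr rfl
  · rw [Fintype.sum_sum_type] at hμ
    rintro (j | j)
    · by_cases e : 2 = n
      · subst e
        rw [Finset.sum_eq_zero (s := Finset.univ (α := J')) fun j _ => by
          rw [h0 (.inr j) (by simp), act_zero], add_zero] at hμ
        exact a2 _ hμ j
      · exact h0 _ e
    · by_cases e : 3 = n
      · subst e
        rw [Finset.sum_eq_zero (s := Finset.univ (α := J)) fun j _ => by
          rw [h0 (.inl j) (by simp), act_zero], zero_add] at hμ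
        exact b2 _ hμ j
      · exact h0 _ e
  · rintro n (rfl | rfl) w hw
    · obtain ⟨μ, hμ⟩ := a3 w hw
      refine ⟨Sum.elim μ 0, ?_, by simpa [Fintype.sum_sum_type, act_zero] using hμ⟩
      rintro (j | j) e
      · exact absurd rfl e
      · rfl
    · obtain ⟨μ, hμ⟩ := b3 w hw
      refine ⟨Sum.elim 0 μ, ?_, by simpa [Fintype.sum_sum_type, act_zero] using hμ⟩
      rintro (j | j) e
      · rfl
      · exact absurd rfl e

end Pool.Agent.MP_6374aa_gt
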