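import Pool.Agent.MP_6374aa_gt.IfQ

/-! Located dual bases of the kernel of an equivariant collapse. -/

namespace Pool.Agent.MP_6374aa_gt

open Classical Matrix

variable {C : Type} [CommGroup C] [Fintype C] {V V' : Type} {G : SimpleGraph V} {A : Set V}
  {α : C →* Equiv.Perm V} {G' : SimpleGraph V'} {A' : Set V'} {α' : C →* Equiv.Perm V'}
  {c : V' → V}

omit [Fintype C] in
theorem rep_FamD (h : FreeAct G A α) : ∃ U : Set V, U ⊆ A ∧ (∀ u ∈ A, ∃ g, α g u ∈ U) ∧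
    ∀ g, ∀ u ∈ U, α g u ∈ U → g = 1 := by
  let s : Setoid V := ⟨fun x y => ∃ g, α g x = y, fun x => ⟨1, by simp⟩,
    fun ⟨g, e⟩ => ⟨g⁻¹, by simp [← e]⟩,
    fun ⟨g, e⟩ ⟨k, e'⟩ => ⟨k * g, by simp [← e', ← e]⟩⟩
  refine ⟨{u | u ∈ A ∧ (Quotient.mk s u).out = u}, fun u hu => hu.1, fun u hu => ?_,
    fun g u hu hg => ?_⟩
  · obtain ⟨g, e⟩ : s u (Quotient.mk s u).out := s.symm (Quotient.mk_out u)
    refine ⟨g, h.mem g u hu, ?_⟩
    rw [e, Quotient.out_eq]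
  · have e : Quotient.mk s u = Quotient.mk s (α g u) := Quotient.sound ⟨g, rfl⟩
    have e2 : α g u = u := by rw [← hg.2, ← e, hu.2]
    refine h.free g {u} (by simp) (by simpa using hu.1) (by simp) ?_
    simp [e2]

theorem fib_FamD (h : Act G' A' α') (he : Eqv A' α' α c) (g : C) (u : V) {n : ℕ} {z : EA V'}
    (hz : z ∈ Zy G' (A' ∩ c ⁻¹' {u}) n) : emap (α' g) z ∈ Zy G' (A' ∩ c ⁻¹' {α g u}) n := by
  refine emap_mem_Zy ((h.isIso g).isHom.mono Set.inter_subset_left fun a ha =>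
    Set.mem_inter (h.mem g a ha.1) ?_) hz
  have e : c a = u := ha.2
  change c (α' g a) = α g u
  rw [he g a ha.1, e]

theorem span_FamD (h : Act G' A' α') (he : Eqv A' α' α c) (hl : Loc G' A' G A c) {U : Set V}
    (hU : ∀ u ∈ A, ∃ g, α g u ∈ U) {d : U → ℕ} [Fintype (Σ u : U, Fin (d u))] {n : ℕ}
    (hn : n = 2 ∨ n = 3) (z : ∀ u : U, Fin (d u) → EA V')
    (hz : ∀ u : U, ∀ w ∈ Zy G' (A' ∩ c ⁻¹' {u.1}) n, ∃ μ : Fin (d u) → ℚ,
      w - ∑ j, μ j • z u j ∈ Bd G' A' n) :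
    ∀ w ∈ Zy G' A' n, emap c w ∈ Bd G A n → ∃ μ : (Σ u : U, Fin (d u)) → RC C,
      w - ∑ j, act α' (μ j) (z j.1 j.2) ∈ Bd G' A' n := by
  intro w hw hc
  have h1 : ∀ u ∈ A, Zy G' (A' ∩ c ⁻¹' {u}) n ≤ Bd G' A' n ⊔ Submodule.span ℚ (Set.range
      fun p : (Σ u : U, Fin (d u)) × C => emap (α' p.2) (z p.1.1 p.1.2)) := fun u hu x hx => by
    obtain ⟨g, hg⟩ := hU u hu
    obtain ⟨μ, hμ⟩ := hz ⟨_, hg⟩ _ (fib_FamD h he g u hx)
    have h2 := emap_mem_Bd (h.isIso g⁻¹).isHom hμ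
    rw [map_sub, emap_mul_FrB, inv_mul_cancel, map_one, Equiv.Perm.coe_one, emap_id,
      map_sum] at h2
    refine Submodule.mem_sup.2 ⟨_, h2, _, Submodule.sum_mem _ fun j _ => ?_, sub_add_cancel _ _⟩
    rw [map_smul]
    exact Submodule.smul_mem _ _ (Submodule.subset_span ⟨(⟨⟨_, hg⟩, j⟩, g⁻¹), rfl⟩)
  have h3 := hl.ls n hn A subset_rfl w
    (Zy_mono (fun a ha => Set.mem_inter ha (hl.hom.1 a ha)) n hw) hc
  obtain ⟨u, hu, v, hv, rfl⟩ := Submodule.mem_sup.1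
    ((sup_le ((Bd_mono Set.inter_subset_left n).trans le_sup_left) (iSup₂_le h1)) h3)
  obtain ⟨r, rfl⟩ := (Submodule.mem_span_range_iff_exists_fun ℚ).1 hv
  refine ⟨fun j => .ofCoeff (Finsupp.equivFunOnFinite.symm fun g => r (j, g)), ?_⟩
  rw [Fintype.sum_prod_type]
  exact (add_sub_cancel_right u _).symm ▸ hu

theorem kd_FamD (hI : PDinjStmt) (h : Act G' A' α') (hm : Mf G' A') {ζ : EA V'}
    (hζ : TopC G' A' α' ζ) (h0 : ζ ≠ 0) {W : Type} [Fintype W] [DecidableEq W]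
    {ν y a : W → EA V'} (h1 : ∀ j, ν j ∈ Zy G' A' 2) (h2 : ∀ j, y j ∈ Zy G' A' 3)
    (ha : ∀ j, a j ∈ Ch G' A' 2) (hc : ∀ j, Coc G' A' (ef (a j)))
    (hp : ∀ i j, prR α' (ef (a i)) (ν j) = (1 : Matrix W W (RC C)) i j)
    (hcap : ∀ j, cap1 (lc ζ) (ef (a j)) - y j ∈ Bd G' A' 3) : KData G' A' α' ζ ν y a 1 := by
  refine ⟨h1, h2, ha, hc, hp, hcap, mul_one _, fun j => by rw [cmb_one],
    fun j => by rw [conjTranspose_one, cmb_one], fun μ hμ => ?_, fun μ hμ => ?_⟩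
  · funext i
    have e := prR_bd h (hc i) hμ
    rw [prR_sum] at e
    simp only [prR_act, hp] at e
    rw [Pi.zero_apply, ← e, mulVec, dotProduct]
    exact Finset.sum_congr rfl fun j _ => mul_comm _ _
  · have h3 : cap1 (lc ζ) (ef (∑ j, act α' (μ j) (a j))) ∈ Bd G' A' 3 := by
      have h4 := add_mem (Submodule.sum_mem _ fun j (_ : j ∈ Finset.univ) =>
        act_mem_Bd h (μ j) (hcap j)) hμ
      rw [← Finset.sum_add_distrib] at h4
      rw [cap1_ef_sum]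
      simpa only [act_sub_right, sub_add_cancel, cap1_ef_act hζ.2] using h4
    obtain ⟨w, hw, e⟩ := mem_Bd.1 h3
    obtain ⟨F, -, -, hF, -⟩ := hI V' G' A' (lc ζ) _ w (eta_of_mf hm hζ.1 h0)
      (coc_sum_act h hc μ) (ef_fs _ _ _) hw e.symm
    rw [conjTranspose_one, one_mulVec]
    funext i
    have e2 := (prR_congr h (h1 i).1 hF).trans (prR_cob h F (h1 i))
    rw [prR_ef_sum] at e2
    simp only [prR_ef_act, hp, one_apply, mul_ite, mul_one, mul_zero, Finset.sum_ite_eq',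
      Finset.mem_univ, if_true] at e2
    exact star_eq_zero.1 e2

theorem famD (hU : FamUStmt) (hI : PDinjStmt) : FamDStmt := by
  intro C _ _ V V' G A α G' A' α' c ζ hα h he hl hm hm' hζ h0
  obtain ⟨U, hUA, hrep, hfr⟩ := rep_FamD hα
  choose d ν y a hD using fun u : U => hU V V' G A G' A' c ζ hl hm hm' hζ.1 h0 u.1 (hUA u.2)
  have : Fintype U := (hm.1.subset hUA).fintype
  refine ⟨Σ u : U, Fin (d u), inferInstance, inferInstance, fun j => ν j.1 j.2,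
    fun j => y j.1 j.2, fun j => a j.1 j.2, fun j => j.1.1, ⟨kd_FamD hI h hm' hζ h0
      (fun j => Zy_mono Set.inter_subset_left _ ((hD j.1).h1 j.2))
      (fun j => Zy_mono Set.inter_subset_left _ ((hD j.1).h2 j.2)) (fun j => (hD j.1).ha j.2)
      (fun j => (hD j.1).coc j.2) ?_ fun j => (hD j.1).cap j.2, fun j => hUA j.1.2,
      fun j => (hD j.1).h1 j.2, fun j => (hD j.1).h2 j.2,
      span_FamD h he hl hrep (Or.inl rfl) ν fun u => (hD u).s1,
      span_FamD h he hl hrep (Or.inr rfl) y fun u => (hD u).s2⟩⟩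
  rintro ⟨u, i⟩ ⟨u', j⟩
  refine ext_FrB fun g => ?_
  rw [prR_coeff]
  by_cases e : α g⁻¹ u'.1 = u.1
  · have e1 : g⁻¹ = 1 := hfr _ _ u'.2 (e ▸ u.2)
    rw [e1, map_one, Equiv.Perm.coe_one, id] at e
    obtain rfl : u' = u := Subtype.ext e
    rw [e1, map_one, Equiv.Perm.coe_one, emap_id, (hD u').pair, inv_eq_one.1 e1, one_apply]
    by_cases e2 : i = j
    · subst e2
      simp [MonoidAlgebra.one_def]
    · simp [e2]
  · have e1 : evE (ef (a u i)) (emap (α' g⁻¹) (ν u' j)) = 0 := by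
      by_contra e1
      obtain ⟨p, hp, q, hq, -, e2⟩ := evE_ne_zero (fib_FamD h he g⁻¹ _ ((hD u').h1 j)).1 e1
      rcases (hD u).supp i p q e2 with e3 | e3
      · exact e (hp.2.symm.trans e3.2)
      · exact e (hq.2.symm.trans e3.2)
    rw [e1, one_apply]
    split_ifs with e2
    · have e3 : u = u' := congrArg Sigma.fst e2
      subst e3
      have e4 : g ≠ 1 := by
        rintro rfl
        simp at e
      simp [MonoidAlgebra.one_def, e4]
    · simp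

end Pool.Agent.MP_6374aa_gt
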