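import Pool.Agent.MP_6374aa_gt.IfT

namespace Pool.Agent.MP_6374aa_gt

open Classical

/-- The action on finite sets of vertices. -/
def fin_Fl {C V : Type} [CommGroup C] (α : C →* Equiv.Perm V) : C →* Equiv.Perm (Finset V) where
  toFun g := (α g).finsetCongr
  map_one' := by
    rw [map_one]
    exact Equiv.finsetCongr_refl
  map_mul' g h := by
    rw [map_mul]
    exact (Equiv.finsetCongr_trans (α h) (α g)).symm

theorem fin_apply_Fl {C V : Type} [CommGroup C] (α : C →* Equiv.Perm V) (g : C) (σ : Finset V) :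
    fin_Fl α g σ = σ.map (α g).toEmbedding := rfl

theorem fl (hG : GeoStmt) (hA : AdmStmt) (hL : La2Stmt) (hV : VposStmt) (hD : ExtDichStmt)
    (hF : FrExtStmt) : FlStmt := by
  intro C _ _ V V' G A α G' A' α' c P P' j h1 h2 h3 h4 h5
  have h6 := hF C V V' G A α G' A' α' c P P' j h1 h2.toAct h3 h4 h5
  refine ⟨h6, ?_⟩
  obtain ⟨J1, J2, _, _, _, _, z, dz, y, dy, loc, had, hloc⟩ := hA C V V' V G A α G' A' α' P P' c j
    c A h1.toAct h2.toAct h3 h6 (hD V V' G A G' A' c P P' j h4) h4.loc1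
  have hinv : ∀ g, ∀ b ∈ {σ : Finset V | σ.Nonempty ∧ ↑σ ⊆ A ∧ G.IsClique (σ : Set V)},
      fin_Fl α g b ∈ {σ : Finset V | σ.Nonempty ∧ ↑σ ⊆ A ∧ G.IsClique (σ : Set V)} := by
    rintro g σ ⟨a1, a2, a3⟩
    have := isCl_toFinset (isCl_map_FrA h1.toAct g (isCl_toList a2 a3))
    rw [toFinset_map_FrA, Finset.toList_toFinset] at this
    exact ⟨Finset.map_nonempty.2 a1, this⟩
  have hind : ∀ n (μ : J1 → RC C), (∀ j, dz j ≠ n → μ j = 0) →
      ∑ j, act α' (μ j) (z j) ∈ Bd G' A' n → ∀ j, μ j = 0 := fun n μ e1 e2 i =>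
    had.src.ind n (Sum.elim μ 0) (by rintro (i | i) h; exacts [e1 i h, rfl])
      (by simpa [Fintype.sum_sum_type, act_zero] using e2) (Sum.inl i)
  refine hG C V V' (Finset V) G A α G' A' α' c (fin_Fl α)
    {σ | σ.Nonempty ∧ ↑σ ⊆ A ∧ G.IsClique (σ : Set V)} (fun _ σ => A ∩ σ) id J1 J2 z dz y dy
    (fun i => {loc i}) 0 P P' h1 h2 h5 h6 h4.loc.hom h3 ⟨hinv, fun k b g v hv => ⟨h1.mem g v hv.1,
      Finset.mem_map_of_mem _ hv.2⟩, fun _ _ => subset_rfl, fun _ _ => Set.inter_subset_left,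
      fun σ a1 a2 a3 => ⟨⟨a1, a2, a3⟩, Set.subset_inter a2 subset_rfl,
        fun k b _ h => Set.inter_subset_right.trans h⟩, fun _ _ _ _ _ h => h, fun i => ?_,
      fun k b _ v hv => ?_, fun k n b hb x hx => ?_, fun k n b hb a ha ha' => ?_, ?_⟩ had
  · obtain ⟨e1, e2⟩ := hloc i
    refine ⟨⟨Finset.singleton_nonempty _, by simpa using e1, by simp⟩,
      Ch_mono (fun v hv => And.intro hv.1 (And.intro (h4.loc.hom.1 v hv.1) (by simpa using hv.2)))
        _ (mem_Zy.1 e2).1,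
      zero_mem _, ?_⟩
    have e3 : dz i = 2 ∨ dz i = 3 := had.src.deg (Sum.inl i)
    rw [emap_eq_zero_of_const (u := loc i) (fun v hv => hv.2) (by omega) (mem_Zy.1 e2).1]
    exact map_zero _
  · obtain ⟨v', e1, rfl⟩ := h4.loc.surj v hv.1
    exact ⟨v', e1, hv, Adq.refl _ _⟩
  · obtain ⟨⟨v, hv⟩, a2, a3⟩ := hb
    refine ⟨0, zero_mem _, ?_⟩
    rw [map_zero, zero_sub]
    refine neg_mem (Zy_le_Bd_of_cone (S := A ∩ b) (v := v) (And.intro (a2 hv) hv) subset_rfl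
      (fun t ht => ?_) n hx)
    by_cases e : v = t
    · exact Or.inl e
    · exact Or.inr (a3 hv ht.2 e)
  · obtain ⟨μ, e1, e2, e3⟩ := hL C V' V J1 G' A' α' G A α c z dz loc h2.toAct h1.toAct h3 h4.loc
      P'.fin3 P.fin3 P'.conn hloc hind n (A ∩ b) Set.inter_subset_left a ha ha' fun hn =>
        had.ker n hn a (Zy_mono Set.inter_subset_left n ha) (Bd_mono Set.inter_subset_left n ha')
    refine ⟨μ, e1, fun i g hg v hv => ?_, e3⟩
    have e4 : v = α g (loc i) := by simpa [fin_apply_Fl] using hv.2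
    exact e4 ▸ e2 i g hg
  · intro I J _ _ _ _ pI pJ hI hJ M N e1 e2 e3 e4
    exact hV C (Finset V) (fin_Fl α) {σ | σ.Nonempty ∧ ↑σ ⊆ A ∧ G.IsClique (σ : Set V)} (· ⊆ ·)
      Finset.card (fun g b => Finset.card_map _) (fun g b hb => h1.free g b hb.1 hb.2.1 hb.2.2)
      (fun a b h => (eq_or_ne a b).imp_right fun e =>
        Finset.card_lt_card (Finset.ssubset_iff_subset_ne.2 ⟨h, e⟩)) I J pI pJ hI hJ M N e1 e2
      (fun j i g hg v hv => (e3 j i g hg ⟨(hinv g _ (hJ j)).2.1 hv, hv⟩).2)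
      (fun i j g hg v hv => (e4 i j g hg ⟨(hinv g _ (hI i)).2.1 hv, hv⟩).2)

end Pool.Agent.MP_6374aa_gt
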