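import Pool.Agent.MP_6374aa_gt.IfQ
import Pool.Agent.MP_6374aa_gt.Fl

/-! Collapses preserve the phase invariant. -/

namespace Pool.Agent.MP_6374aa_gt

open Classical Matrix

section

variable {C : Type} [CommGroup C] [Fintype C] {V V' : Type} {G : SimpleGraph V} {A : Set V}
  {α : C →* Equiv.Perm V} {G' : SimpleGraph V'} {A' : Set V'} {α' : C →* Equiv.Perm V'}
  {c : V' → V}

theorem geo_Fl2 (hL : La2Stmt) (hV : VposStmt) (h1 : FreeAct G A α) (h2 : Act G' A' α')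
    (h3 : Eqv A' α' α c) (h4 : Loc G' A' G A c) (f1 : Fin3 G A) (f2 : Fin3 G' A')
    (hc : PConn G' A') {J : Type} [Fintype J] (z : J → EA V') (dz : J → ℕ) (loc : J → V)
    (pz : J → Finset V) (hpz : ∀ j, pz j = {loc j})
    (hloc : ∀ j, loc j ∈ A ∧ z j ∈ Zy G' (A' ∩ c ⁻¹' {loc j}) (dz j))
    (hd : ∀ j, dz j = 2 ∨ dz j = 3)
    (hind : ∀ n (μ : J → RC C), (∀ j, dz j ≠ n → μ j = 0) →
      ∑ j, act α' (μ j) (z j) ∈ Bd G' A' n → ∀ j, μ j = 0)
    (hker : ∀ n, n = 2 ∨ n = 3 → ∀ a ∈ Zy G' A' n, emap c a ∈ Bd G A n →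
      ∃ μ : J → RC C, (∀ j, dz j ≠ n → μ j = 0) ∧ a - ∑ j, act α' (μ j) (z j) ∈ Bd G' A' n) :
    Geo G A α G' A' α' c (fin_Fl α) {σ | σ.Nonempty ∧ ↑σ ⊆ A ∧ G.IsClique (σ : Set V)}
      (fun _ σ => A ∩ σ) id z dz pz 0 := by
  obtain rfl : pz = fun j => {loc j} := funext hpz
  have hinv : ∀ g, ∀ b ∈ {σ : Finset V | σ.Nonempty ∧ ↑σ ⊆ A ∧ G.IsClique (σ : Set V)},
      fin_Fl α g b ∈ {σ : Finset V | σ.Nonempty ∧ ↑σ ⊆ A ∧ G.IsClique (σ : Set V)} := by
    rintro g σ ⟨a1, a2, a3⟩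
    have := isCl_toFinset (isCl_map_FrA h1.toAct g (isCl_toList a2 a3))
    rw [toFinset_map_FrA, Finset.toList_toFinset] at this
    exact ⟨Finset.map_nonempty.2 a1, this⟩
  refine ⟨hinv, fun k b g v hv => ⟨h1.mem g v hv.1,
      Finset.mem_map_of_mem _ hv.2⟩, fun _ _ => subset_rfl, fun _ _ => Set.inter_subset_left,
      fun σ a1 a2 a3 => ⟨⟨a1, a2, a3⟩, Set.subset_inter a2 subset_rfl,
        fun k b _ h => Set.inter_subset_right.trans h⟩, fun _ _ _ _ _ h => h, fun i => ?_,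
      fun k b _ v hv => ?_, fun k n b hb x hx => ?_, fun k n b hb a ha ha' => ?_, ?_⟩
  · obtain ⟨e1, e2⟩ := hloc i
    refine ⟨⟨Finset.singleton_nonempty _, by simpa using e1, by simp⟩,
      Ch_mono (fun v hv => And.intro hv.1 (And.intro (h4.hom.1 v hv.1) (by simpa using hv.2)))
        _ (mem_Zy.1 e2).1,
      zero_mem _, ?_⟩
    have e3 := hd i
    rw [emap_eq_zero_of_const (u := loc i) (fun v hv => hv.2) (by omega) (mem_Zy.1 e2).1]
    exact map_zero _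
  · obtain ⟨v', e1, rfl⟩ := h4.surj v hv.1
    exact ⟨v', e1, hv, Adq.refl _ _⟩
  · obtain ⟨⟨v, hv⟩, a2, a3⟩ := hb
    refine ⟨0, zero_mem _, ?_⟩
    rw [map_zero, zero_sub]
    refine neg_mem (Zy_le_Bd_of_cone (S := A ∩ b) (v := v) (And.intro (a2 hv) hv) subset_rfl
      (fun t ht => ?_) n hx)
    by_cases e : v = t
    · exact Or.inl e
    · exact Or.inr (a3 hv ht.2 e)
  · obtain ⟨μ, e1, e2, e3⟩ := hL C V' V J G' A' α' G A α c z dz loc h2 h1.toAct h3 h4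
      f2 f1 hc hloc hind n (A ∩ b) Set.inter_subset_left a ha ha' fun hn =>
        hker n hn a (Zy_mono Set.inter_subset_left n ha) (Bd_mono Set.inter_subset_left n ha')
    refine ⟨μ, e1, fun i g hg v hv => ?_, e3⟩
    have e4 : v = α g (loc i) := by simpa [fin_apply_Fl] using hv.2
    exact e4 ▸ e2 i g hg
  · intro I J _ _ _ _ pI pJ hI hJ M N e1 e2 e3 e4
    exact hV C (Finset V) (fin_Fl α) {σ | σ.Nonempty ∧ ↑σ ⊆ A ∧ G.IsClique (σ : Set V)} (· ⊆ ·)
      Finset.card (fun g b => Finset.card_map _) (fun g b hb => h1.free g b hb.1 hb.2.1 hb.2.2)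
      (fun a b h => (eq_or_ne a b).imp_right fun e =>
        Finset.card_lt_card (Finset.ssubset_iff_subset_ne.2 ⟨h, e⟩)) I J pI pJ hI hJ M N e1 e2
      (fun j i g hg v hv => (e3 j i g hg ⟨(hinv g _ (hJ j)).2.1 hv, hv⟩).2)
      (fun i j g hg v hv => (e4 i j g hg ⟨(hinv g _ (hI i)).2.1 hv, hv⟩).2)

omit [Fintype C] in
theorem ctl_one_Fl2 {B W : Type} [DecidableEq W] (β : C →* Equiv.Perm B) {ρ : B → B → Prop}
    (hρ : ∀ b, ρ b b) (p : W → B) : Ctl β ρ p p (1 : Matrix W W (RC C)) := by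
  intro j i g hg
  by_cases e : j = i
  · subst e
    rw [Matrix.one_apply_eq, MonoidAlgebra.one_def] at hg
    have e : g = 1 := by
      by_contra e
      exact hg (by simp [e])
    subst e
    simpa using hρ _
  · rw [Matrix.one_apply_ne e] at hg
    simp at hg

theorem geo2_Fl2 (hL : La2Stmt) (hV : VposStmt) (hO : VanOneStmt) (h1 : FreeAct G A α)
    (h2 : Act G' A' α') (h3 : Eqv A' α' α c) (h4 : Loc G' A' G A c) (f1 : Fin3 G A)
    (f2 : Fin3 G' A') (hc : PConn G' A') {W : Type} [Fintype W] [DecidableEq W] {ζ : EA V'}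
    {ν y a : W → EA V'} {loc : W → V} (h : DF G' A' α' ζ G A c ν y a loc) :
    Geo2 G A α G' A' α' c (fin_Fl α) {σ | σ.Nonempty ∧ ↑σ ⊆ A ∧ G.IsClique (σ : Set V)}
      (fun _ σ => A ∩ σ) id ν y (fun j => {loc j}) 0 1 := by
  have hg := geo_Fl2 hL hV h1 h2 h3 h4 f1 f2 hc (Sum.elim ν y) (d23 W) (Sum.elim loc loc)
    (Sum.elim (fun j => {loc j}) fun j => {loc j}) (by rintro (j | j) <;> rfl)
    (by rintro (j | j); exacts [⟨h.mem j, h.l1 j⟩, ⟨h.mem j, h.l2 j⟩])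
    (by rintro (j | j); exacts [Or.inl rfl, Or.inr rfl])
    (fun n μ e1 e2 => by
      rw [Fintype.sum_sum_type] at e2
      by_cases n2 : n = 2
      · subst n2
        have e3 : ∀ j, μ (Sum.inr j) = 0 := fun j => e1 _ (by simp [d23])
        have e4 := h.kd.rel1 (fun j => μ (Sum.inl j)) (by simpa [e3, act_zero] using e2)
        rw [Matrix.one_mulVec] at e4
        rintro (j | j)
        exacts [congrFun e4 j, e3 j]
      by_cases n3 : n = 3
      · subst n3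
        have e3 : ∀ j, μ (Sum.inl j) = 0 := fun j => e1 _ (by simp [d23])
        have e4 := h.kd.rel2 (fun j => μ (Sum.inr j)) (by simpa [e3, act_zero] using e2)
        rw [conjTranspose_one, Matrix.one_mulVec] at e4
        rintro (j | j)
        exacts [e3 j, congrFun e4 j]
      · rintro (j | j)
        exacts [e1 _ (Ne.symm n2), e1 _ (Ne.symm n3)])
    (by
      rintro n (rfl | rfl) w hw hb
      · obtain ⟨μ, hμ⟩ := h.k1 w hw hb
        refine ⟨Sum.elim μ 0, ?_, by simpa [Fintype.sum_sum_type, act_zero] using hμ⟩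
        rintro (j | j) e
        exacts [absurd rfl e, rfl]
      · obtain ⟨μ, hμ⟩ := h.k2 w hw hb
        refine ⟨Sum.elim 0 μ, ?_, by simpa [Fintype.sum_sum_type, act_zero] using hμ⟩
        rintro (j | j) e
        exacts [rfl, absurd rfl e])
  have hc := ctl_one_Fl2 (fin_Fl α) (ρ := fun a b => A ∩ ↑a ⊆ A ∩ ↑b) (fun _ => subset_rfl)
    fun j => ({loc j} : Finset V)
  refine ⟨hg, fun j => by simp [cmb, act_zero_right], hc, ?_, ?_, Fintype.card W, ?_⟩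
  · rw [conjTranspose_one]
    exact hc
  · rw [conjTranspose_one]
    exact hO C _ W _ _ _ _ (fun j => (hg.hz (Sum.inl j)).1) hg.van
  · rw [trace_one, MonoidAlgebra.natCast_def]

theorem df_empty_Fl2 (h : HInj G' A' G A c) (ζ : EA V') :
    DF G' A' α' ζ G A c (Empty.elim : Empty → EA V') Empty.elim Empty.elim Empty.elim :=
  ⟨⟨(·.elim), (·.elim), (·.elim), (·.elim), (·.elim), (·.elim), one_mul _, (·.elim), (·.elim),
      fun _ _ => funext (·.elim), fun _ _ => funext (·.elim)⟩, (·.elim), (·.elim), (·.elim),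
    fun w hw hb => ⟨0, by simpa using h 2 (Or.inl rfl) w hw hb⟩,
    fun w hw hb => ⟨0, by simpa using h 3 (Or.inr rfl) w hw hb⟩⟩

end

theorem fl2 (hG : GeoS2Stmt) (hF : FamDStmt) (hL : La2Stmt) (hV : VposStmt) (hO : VanOneStmt) :
    Fl2Stmt := by
  intro C _ _ _ V V' G A α G' A' α' c h1 h2 h3 h4 f1 f2 hc hm τ
  have key : ∀ ζ, TopC G' A' α' ζ → ζ ≠ 0 →
      (ValZ G' A' α' ζ τ ↔ ValZ G A α (emap c ζ) τ) := fun ζ e1 e2 => by
    obtain ⟨W, _, _, ν, y, a, loc, h⟩ : ∃ (W : Type) (_ : Fintype W) (_ : DecidableEq W)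
        (ν y a : W → EA V') (loc : W → V), DF G' A' α' ζ G A c ν y a loc := by
      rcases hm with ⟨m1, m2⟩ | hm
      · exact hF C V V' G A α G' A' α' c ζ h1 h2.toAct h3 h4 m1 m2 e1 e2
      · exact ⟨Empty, inferInstance, inferInstance, _, _, _, _, df_empty_Fl2 hm ζ⟩
    exact hG C V V' _ W G A α G' A' α' c _ _ _ _ ν y a _ _ _ ζ h1 h2 f1 f2 h4.hom h3 e1
      (geo2_Fl2 hL hV hO h1 h2.toAct h3 h4 f1 f2 hc h) h.kd τ
  constructor
  · rintro ⟨ζ, e1, e2, e3⟩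
    exact ⟨emap c ζ, e1.map h4.hom h3, fun e => e2 (h4.top ζ e1.1 e), (key ζ e1 e2).1 e3⟩
  · rintro ⟨ζ, e1, e2, e3⟩
    obtain ⟨ζ', a1, a2⟩ := h4.s2 4 A subset_rfl ζ e1.1
    rw [f1.Bd_eq_bot subset_rfl le_rfl, Submodule.mem_bot, sub_eq_zero] at a2
    have a3 : ζ' ∈ Zy G' A' 4 := Zy_mono Set.inter_subset_left 4 a1
    subst a2
    have a4 : TopC G' A' α' ζ' := ⟨a3, fun g => by
      refine sub_eq_zero.1 (h4.top _ (sub_mem (emap_mem_Zy (h2.toAct.isIso g).isHom a3) a3) ?_)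
      rw [map_sub, emap_comp, emap_congr (f := c ∘ α' g) (g := α g ∘ c) (h3 g) (mem_Zy.1 a3).1,
        ← emap_comp, e1.2 g, sub_self]⟩
    have a5 : ζ' ≠ 0 := fun e => e2 (by rw [e, map_zero])
    exact ⟨ζ', a4, a5, (key ζ' a4 a5).2 e3⟩

theorem qsCovV (hF : Fl2Stmt) : QsCovVStmt := by
  intro V V' G A G' A' c h f p _ hp lab hl hc τ
  have := nontrivial_RH p (by omega)
  obtain ⟨e1, e2⟩ := h.cl.2 (Cp p) lab hl
  exact hF (Cp p) _ _ _ _ _ _ _ _ (lift1 c (Cp p)) (freeAct_deck Function.injective_id)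
    (freeAct_deck Function.injective_id) (fun _ _ _ => rfl) e1 (Fin3.cov hl f)
    (Fin3.cov (hl.pull h.cl.1) h.fin) (e2 hc) (Or.inr (h.ci (Cp p) lab hl)) τ

end Pool.Agent.MP_6374aa_gt
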