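import Pool.Agent.MP_6374aa_gt.Api

/-! Coordinates with respect to frames. -/

namespace Pool.Agent.MP_6374aa_gt

open Classical

variable {V : Type} {G : SimpleGraph V} {A : Set V} {C : Type} [CommGroup C] [Fintype C]
  {α : C →* Equiv.Perm V}

theorem toFinset_map_FrA (e : Equiv.Perm V) (l : List V) :
    (l.map e).toFinset = l.toFinset.map e.toEmbedding := by
  ext x
  simp only [List.mem_toFinset, List.mem_map, Finset.mem_map, Equiv.coe_toEmbedding]

omit [Fintype C] in
theorem isCl_map_FrA (h : Act G A α) (g : C) {l : List V} (hl : IsCl G A l) :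
    IsCl G A (l.map (α g)) := by
  constructor
  · intro x hx
    obtain ⟨a, ha, rfl⟩ := List.mem_map.1 hx
    exact h.mem g a (hl.1 a ha)
  · intro x hx y hy
    obtain ⟨a, ha, rfl⟩ := List.mem_map.1 hx
    obtain ⟨b, hb, rfl⟩ := List.mem_map.1 hy
    rcases hl.2 a ha b hb with rfl | hab
    · exact Or.inl rfl
    · exact Or.inr (h.adj g a (hl.1 a ha) b (hl.1 b hb) hab)

theorem FreeAct.nonempty_frame (h : FreeAct G A α) (hA : A.Finite) : Nonempty (Frame G A α) := by
  have hm : ∀ (g g' : C) (σ : Finset V), (σ.map (α g').toEmbedding).map (α g).toEmbedding =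
      σ.map (α (g * g')).toEmbedding := fun g g' σ => by
    rw [Finset.map_map, map_mul]
    rfl
  have h1 : ∀ σ : Finset V, σ.map (α 1).toEmbedding = σ := fun σ => by
    rw [map_one]
    exact Finset.map_refl
  let s : Setoid (Finset V) := ⟨fun σ τ => ∃ g, σ.map (α g).toEmbedding = τ, fun σ => ⟨1, h1 σ⟩,
    fun ⟨g, e⟩ => ⟨g⁻¹, by rw [← e, hm, inv_mul_cancel, h1]⟩,
    fun ⟨g, e⟩ ⟨g', e'⟩ => ⟨g' * g, by rw [← hm, e, e']⟩⟩
  let good : Finset V → Prop := fun σ => σ.Nonempty ∧ ↑σ ⊆ A ∧ G.IsClique (σ : Set V)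
  have hg : ∀ g σ, good σ → good (σ.map (α g).toEmbedding) := by
    rintro g σ ⟨a1, a2, a3⟩
    have := isCl_toFinset (isCl_map_FrA h.toAct g (isCl_toList a2 a3))
    rw [toFinset_map_FrA, Finset.toList_toFinset] at this
    exact ⟨Finset.map_nonempty.2 a1, this⟩
  let I := {q : Quotient s // good q.out}
  have hI : Finite I := Finite.of_injective
    (fun q : I => (⟨q.1.out, Finset.mem_powerset.2 fun x hx => hA.mem_toFinset.2 (q.2.2.1 hx)⟩ :
      hA.toFinset.powerset))
    fun q q' e => Subtype.ext (Quotient.out_injective (congrArg Subtype.val e))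
  let _ : Fintype I := Fintype.ofFinite I
  refine ⟨{ I := I
            s := fun q => q.1.out.toList
            nodup := fun q => Finset.nodup_toList _
            ne := fun q => by simpa using q.2.1.ne_empty
            cl := fun q => isCl_toList q.2.2.1 q.2.2.2
            rep := fun σ a1 a2 a3 => ?_ }⟩
  obtain ⟨k, hk⟩ := Quotient.mk_out (s := s) σ
  have b1 : good (Quotient.mk s σ).out := by
    have := hg k⁻¹ σ ⟨a1, a2, a3⟩
    rwa [← hk, hm, inv_mul_cancel, h1] at this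
  refine ⟨(k, ⟨_, b1⟩), by simp only [Finset.toList_toFinset, hk], ?_⟩
  rintro ⟨k', q, hq⟩ e
  simp only [Finset.toList_toFinset] at e
  have b2 : q = Quotient.mk s σ := by
    rw [← Quotient.out_eq q]
    exact Quotient.sound ⟨k', e.symm⟩
  subst b2
  have b3 := h.free (k⁻¹ * k') _ b1.1 b1.2.1 b1.2.2 (by
    rw [← hm, ← e]
    nth_rw 1 [← hk]
    rw [hm, inv_mul_cancel, h1])
  rw [inv_mul_eq_one] at b3
  rw [b3]

namespace Frame

variable (F : Frame G A α)

theorem ev_eq_FrA (x : F.I → RC C) :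
    F.ev x = ∑ p : F.I × C, (x p.1).coeff p.2 • wedge ((F.s p.1).map (α p.2)) := by
  simp only [ev, act, emap_wedge, Fintype.sum_prod_type]

theorem ev_add (x y : F.I → RC C) : F.ev (x + y) = F.ev x + F.ev y := by
  simp only [ev, Pi.add_apply, act_add, Finset.sum_add_distrib]
theorem ev_neg (x : F.I → RC C) : F.ev (-x) = - F.ev x := by
  simp only [ev, Pi.neg_apply, act_neg, Finset.sum_neg_distrib]
theorem ev_sub (x y : F.I → RC C) : F.ev (x - y) = F.ev x - F.ev y := by
  rw [sub_eq_add_neg, ev_add, ev_neg, sub_eq_add_neg]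
theorem ev_zero : F.ev 0 = 0 := by
  simp only [ev, Pi.zero_apply, act_zero, Finset.sum_const_zero]
theorem ev_smul (r : RC C) (x : F.I → RC C) : F.ev (r • x) = act α r (F.ev x) := by
  simp only [ev, Pi.smul_apply, smul_eq_mul, act_mul, act_sum_right]
theorem ev_single (i : F.I) (r : RC C) : F.ev (Pi.single i r) = act α r (wedge (F.s i)) := by
  rw [ev, Finset.sum_eq_single i (fun j _ hj => by rw [Pi.single_eq_of_ne hj, act_zero])
    (by simp), Pi.single_eq_same]
theorem ev_mulVec {J : Type} [Fintype J] (M : Matrix F.I J (RC C)) (μ : J → RC C) :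
    F.ev (M.mulVec μ) = ∑ j, act α (μ j) (F.ev fun i => M i j) := by
  simp only [ev, Matrix.mulVec, dotProduct, act_sum, act_sum_right, ← act_mul, mul_comm (μ _)]
  exact Finset.sum_comm
omit [Fintype C] in
theorem length_eq (i : F.I) : (F.s i).length = F.deg i + 1 := by
  have := List.length_pos_iff.2 (F.ne i)
  unfold deg
  omega
omit [Fintype C] in
theorem deg_le (h : Fin3 G A) (i : F.I) : F.deg i ≤ 3 := by
  have h1 := h.2 _ (isCl_toFinset (F.cl i)).1 (isCl_toFinset (F.cl i)).2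
  rw [List.toFinset_card_of_nodup (F.nodup i), length_eq] at h1
  omega
theorem ev_injective (h : Act G A α) : Function.Injective F.ev := by
  have hl := linearIndependent_wedge (fun p : F.I × C => (F.s p.1).map (α p.2))
    (fun p => (F.nodup p.1).map (α p.2).injective) (by
      rintro ⟨i, g⟩ ⟨j, k⟩ e
      simp only at e
      have h1 := isCl_toFinset (isCl_map_FrA h g (F.cl i))
      have h2 := (F.rep _ (by simpa using F.ne i) h1.1 h1.2).unique (y₁ := (g, i)) (y₂ := (k, j))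
        (toFinset_map_FrA _ _) (e.trans (toFinset_map_FrA _ _))
      obtain ⟨rfl, rfl⟩ := Prod.mk.inj h2
      rfl)
  intro x y e
  have h1 : F.ev (x - y) = 0 := by rw [ev_sub, e, sub_self]
  rw [ev_eq_FrA] at h1
  have h2 := Fintype.linearIndependent_iff.1 hl (fun p => ((x - y) p.1).coeff p.2) h1
  refine sub_eq_zero.1 (funext fun i => ?_)
  ext g
  exact h2 (i, g)
theorem ev_mem_Ch (h : Act G A α) {S : Set V} {n : ℕ} {x : F.I → RC C}
    (hd : ∀ i, F.deg i ≠ n → x i = 0)
    (hs : ∀ i g, (x i).coeff g ≠ 0 → ∀ v ∈ F.s i, α g v ∈ S) : F.ev x ∈ Ch G S (n + 1) := by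
  rw [ev_eq_FrA]
  refine Submodule.sum_mem _ ?_
  rintro ⟨i, g⟩ -
  by_cases hz : (x i).coeff g = 0
  · simp [hz]
  have h1 : F.deg i = n := by
    by_contra hne
    exact hz (by simp [hd i hne])
  have h2 : IsCl G S ((F.s i).map (α g)) := by
    refine ⟨fun y hy => ?_, (isCl_map_FrA h g (F.cl i)).2⟩
    obtain ⟨a, ha, rfl⟩ := List.mem_map.1 hy
    exact hs i g hz a ha
  have h3 := wedge_mem_Ch h2
  rw [List.length_map, length_eq, h1] at h3
  exact Submodule.smul_mem _ _ h3
theorem exists_ev (h : Act G A α) {S : Set V} (hS : S ⊆ A) {n : ℕ} {z : EA V}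
    (hz : z ∈ Ch G S (n + 1)) : ∃ x : F.I → RC C, (∀ i, F.deg i ≠ n → x i = 0) ∧
      (∀ i g, (x i).coeff g ≠ 0 → ∀ v ∈ F.s i, α g v ∈ S) ∧ F.ev x = z := by
  have _ := h
  refine Ch_induction (p := fun z => ∃ x : F.I → RC C, (∀ i, F.deg i ≠ n → x i = 0) ∧
      (∀ i g, (x i).coeff g ≠ 0 → ∀ v ∈ F.s i, α g v ∈ S) ∧ F.ev x = z)
    ⟨0, fun _ _ => rfl, fun i g hg => absurd rfl hg, F.ev_zero⟩ ?_ ?_ ?_ hz
  · rintro _ _ - - ⟨x, x1, x2, rfl⟩ ⟨y, y1, y2, rfl⟩
    refine ⟨x + y, fun i hi => by simp [x1 i hi, y1 i hi], fun i g hg => ?_, F.ev_add x y⟩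
    by_cases h1 : (x i).coeff g = 0
    · exact y2 i g fun h2 => hg (by simp [h1, h2])
    · exact x2 i g h1
  · rintro r _ - ⟨x, x1, x2, rfl⟩
    refine ⟨r • x, fun i hi => by simp [x1 i hi], fun i g hg => x2 i g fun h2 => hg (by simp [h2]),
      ?_⟩
    simp [ev_eq_FrA, Finset.smul_sum, smul_smul]
  · intro l hl hn hc
    have h1 := isCl_toFinset hc
    have h0 : l ≠ [] := by rintro rfl; simp at hl
    obtain ⟨⟨g, i⟩, e, -⟩ := F.rep l.toFinset (by simpa using h0) (h1.1.trans hS) h1.2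
    simp only at e
    rw [← toFinset_map_FrA] at e
    have hp := List.perm_of_nodup_nodup_toFinset_eq hn ((F.nodup i).map (α g).injective) e
    obtain ⟨c, hc'⟩ : ∃ c : ℚ, wedge l = c • wedge ((F.s i).map (α g)) := by
      rcases wedge_perm hp with h2 | h2
      · exact ⟨1, by rw [h2, one_smul]⟩
      · exact ⟨-1, by rw [h2, neg_one_smul]⟩
    refine ⟨Pi.single i (MonoidAlgebra.single g c), fun j hj => ?_, fun j k hk v hv => ?_, ?_⟩
    · refine Pi.single_eq_of_ne ?_ _
      rintro rfl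
      have := hp.length_eq
      rw [List.length_map, length_eq, hl] at this
      omega
    · by_cases hj : j = i
      · subst hj
        by_cases hg : k = g
        · subst hg
          exact hc.1 _ (hp.mem_iff.2 (List.mem_map_of_mem hv))
        · exact absurd (by simp [hg]) hk
      · exact absurd (by simp [hj]) hk
    · rw [ev_single, act_single, emap_wedge, hc']
/-- Coordinates of a chain are homogeneous and supported where the chain is. -/
theorem coord_of_mem (h : Act G A α) {S : Set V} (hS : S ⊆ A) {n : ℕ} {x : F.I → RC C}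
    (hz : F.ev x ∈ Ch G S (n + 1)) : (∀ i, F.deg i ≠ n → x i = 0) ∧
      ∀ i g, (x i).coeff g ≠ 0 → ∀ v ∈ F.s i, α g v ∈ S := by
  obtain ⟨y, y1, y2, e⟩ := F.exists_ev h hS hz
  obtain rfl := F.ev_injective h e
  exact ⟨y1, y2⟩
omit [Fintype C] in
theorem bd_mem_FrA (j : F.I) : bd (wedge (F.s j)) ∈ Ch G {v | v ∈ F.s j} (F.deg j) := by
  have h1 : IsCl G {v | v ∈ F.s j} (F.s j) := ⟨fun _ hx => hx, (F.cl j).2⟩
  have h2 := wedge_mem_Ch h1
  rw [length_eq] at h2
  exact bd_mem_Ch h2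
theorem exists_isBd (h : Act G A α) : ∃ D, F.IsBd D := by
  have : ∀ j, ∃ x, F.ev x = if F.deg j = 0 then 0 else bd (wedge (F.s j)) := by
    intro j
    split_ifs with hj
    · exact ⟨0, F.ev_zero⟩
    · have h1 := F.bd_mem_FrA j
      obtain ⟨m, hm⟩ := Nat.exists_eq_succ_of_ne_zero hj
      rw [hm] at h1
      obtain ⟨x, -, -, e⟩ := F.exists_ev h (fun v hv => (F.cl j).1 v hv) h1
      exact ⟨x, e⟩
  choose c hc using this
  exact ⟨Matrix.of fun i j => c j i, hc⟩
theorem exists_isCo (h : Act G A α) {J : Type} (z : J → EA V)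
    (hz : ∀ j, ∃ n, z j ∈ Ch G A (n + 1)) : ∃ Z, F.IsCo Z z := by
  have : ∀ j, ∃ x, F.ev x = z j := by
    intro j
    obtain ⟨n, hn⟩ := hz j
    obtain ⟨x, -, -, e⟩ := F.exists_ev h subset_rfl hn
    exact ⟨x, e⟩
  choose c hc using this
  exact ⟨Matrix.of fun i j => c j i, hc⟩

variable {F}

theorem IsBd.col_FrA (h : Act G A α) {D : Matrix F.I F.I (RC C)} (hD : F.IsBd D) (j : F.I) :
    (∀ i, F.deg j ≠ F.deg i + 1 → D i j = 0) ∧
      ∀ i g, (D i j).coeff g ≠ 0 → ∀ v ∈ F.s i, α g v ∈ F.s j := by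
  have h1 := hD j
  split_ifs at h1 with hj
  · have h2 := F.ev_injective h (h1.trans F.ev_zero.symm)
    have h3 : ∀ i, D i j = 0 := congrFun h2
    exact ⟨fun i _ => h3 i, fun i g hg => absurd (by simp [h3]) hg⟩
  · have h2 := F.bd_mem_FrA j
    obtain ⟨m, hm⟩ := Nat.exists_eq_succ_of_ne_zero hj
    rw [hm, ← h1] at h2
    have h3 := F.coord_of_mem h (fun v hv => (F.cl j).1 v hv) h2
    exact ⟨fun i hi => h3.1 i (by omega), h3.2⟩
theorem IsBd.ev_mulVec {D : Matrix F.I F.I (RC C)} (hD : F.IsBd D) {n : ℕ} {x : F.I → RC C}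
    (hd : ∀ i, F.deg i ≠ n + 1 → x i = 0) : F.ev (D.mulVec x) = bd (F.ev x) := by
  rw [Frame.ev_mulVec, ev, map_sum]
  refine Finset.sum_congr rfl fun j _ => ?_
  rw [bd_act]
  by_cases hj : F.deg j = n + 1
  · rw [hD j, if_neg (by omega)]
  · rw [hd j hj, act_zero, act_zero]
theorem IsBd.mulVec_zero (h : Act G A α) {D : Matrix F.I F.I (RC C)} (hD : F.IsBd D)
    {x : F.I → RC C} (hd : ∀ i, F.deg i ≠ 0 → x i = 0) : D.mulVec x = 0 := by
  refine F.ev_injective h ?_
  rw [Frame.ev_mulVec, ev_zero]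
  refine Finset.sum_eq_zero fun j _ => ?_
  by_cases hj : F.deg j = 0
  · rw [hD j, if_pos hj, act_zero_right]
  · rw [hd j hj, act_zero]
theorem IsBd.isCx (h : Act G A α) {D : Matrix F.I F.I (RC C)} (hD : F.IsBd D) : IsCx F.deg D := by
  refine ⟨fun i j hij => by_contra fun hne => hij ((hD.col_FrA h j).1 i hne), ?_⟩
  have key : ∀ j, D.mulVec (fun i => D i j) = 0 := by
    intro j
    have h1 := (hD.col_FrA h j).1
    by_cases hj : F.deg j ≤ 1
    · exact hD.mulVec_zero h fun i hi => h1 i (by omega)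
    · refine F.ev_injective h ?_
      rw [hD.ev_mulVec (n := F.deg j - 2) fun i hi => h1 i (by omega), hD j, if_neg (by omega),
        bd_bd, ev_zero]
  ext1 i j
  exact congrFun (key j) i
theorem IsBd.support (h : Act G A α) {D : Matrix F.I F.I (RC C)} (hD : F.IsBd D) {i j : F.I}
    {g : C} (hg : (D i j).coeff g ≠ 0) : ∀ v ∈ F.s i, α g v ∈ F.s j :=
  (hD.col_FrA h j).2 i g hg
theorem IsCo.ev_mulVec {J : Type} [Fintype J] {Z : Matrix F.I J (RC C)} {z : J → EA V}
    (hZ : F.IsCo Z z) (μ : J → RC C) : F.ev (Z.mulVec μ) = ∑ j, act α (μ j) (z j) := by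
  rw [Frame.ev_mulVec]
  exact Finset.sum_congr rfl fun j _ => by rw [hZ j]
theorem isCx_cone (h : Act G A α) {D : Matrix F.I F.I (RC C)} (hD : F.IsBd D) {J : Type}
    [Fintype J] [DecidableEq J] {Z : Matrix F.I J (RC C)} {z : J → EA V} (hZ : F.IsCo Z z)
    {dz : J → ℕ} (hd : ∀ j, 2 ≤ dz j) (hz : ∀ j, z j ∈ Zy G A (dz j)) :
    IsCx (Sum.elim F.deg dz) (Matrix.fromBlocks D Z 0 (0 : Matrix J J (RC C))) := by
  have h1 : ∀ j i, F.deg i ≠ dz j - 2 + 1 → Z i j = 0 := by
    intro j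
    have h2 := (mem_Zy.1 (hz j)).1
    have h3 := hd j
    rw [← hZ j, show dz j = dz j - 2 + 1 + 1 by omega] at h2
    exact (F.coord_of_mem h subset_rfl h2).1
  have h2 : D * Z = 0 := by
    ext1 i j
    have : D.mulVec (fun i => Z i j) = 0 := by
      refine F.ev_injective h ?_
      rw [hD.ev_mulVec (h1 j), hZ j, (mem_Zy.1 (hz j)).2, ev_zero]
    exact congrFun this i
  constructor
  · rintro (i | i) (j | j) hij
    · exact (hD.isCx h).1 i j hij
    · have h3 : F.deg i = dz j - 2 + 1 := by_contra fun hne => hij (h1 j i hne)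
      have h4 := hd j
      simp only [Sum.elim_inl, Sum.elim_inr]
      omega
    · exact absurd rfl hij
    · exact absurd rfl hij
  · rw [Matrix.fromBlocks_multiply, (hD.isCx h).2, h2]
    simp

end Frame

theorem Adm.cyc {J : Type} [Fintype J] {z : J → EA V} {dz : J → ℕ} (h : Adm G A α z dz) (j : J) :
    z j ∈ Zy G A (dz j) := by
  obtain ⟨y, -, Γ, -, -, hz⟩ := h.pure j
  exact II_le_Zy Γ y _ hz

end Pool.Agent.MP_6374aa_gt
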