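import Pool.Agent.MP_6374aa_gt.Core4

/-! Characters, the involution and phases. -/

namespace Pool.Agent.MP_6374aa_gt

open Classical Matrix

variable {C C' : Type} [CommGroup C] [CommGroup C']

theorem evc_single (χ : C →* ℂˣ) (g : C) (r : ℚ) :
    evc χ (MonoidAlgebra.single g r) = (r : ℂ) * (χ g : ℂ) := by
  change MonoidAlgebra.lift ℚ ℂ C ((Units.coeHom ℂ).comp χ) (MonoidAlgebra.single g r) = _
  rw [MonoidAlgebra.lift_single, Rat.smul_def]
  rfl

theorem star_single (g : C) (r : ℚ) :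
    star (MonoidAlgebra.single g r : RC C) = MonoidAlgebra.single g⁻¹ r := by
  change MonoidAlgebra.mapDomain (invMonoidHom : C →* C) (MonoidAlgebra.single g r) = _
  rw [MonoidAlgebra.mapDomain_single]
  rfl

theorem coeff_star (x : RC C) (g : C) : (star x).coeff g = x.coeff g⁻¹ := by
  induction x using MonoidAlgebra.induction_linear with
  | zero => simp
  | add x y hx hy => rw [star_add, MonoidAlgebra.coeff_add, MonoidAlgebra.coeff_add,
      Finsupp.add_apply, Finsupp.add_apply, hx, hy]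
  | single a r =>
    rw [star_single, MonoidAlgebra.coeff_single, MonoidAlgebra.coeff_single, Finsupp.single_apply,
      Finsupp.single_apply]
    simp only [inv_eq_iff_eq_inv]

theorem evc_star [Finite C] (χ : C →* ℂˣ) (x : RC C) : evc χ (star x) = star (evc χ x) := by
  induction x using MonoidAlgebra.induction_linear with
  | zero => simp
  | add x y hx hy => rw [star_add, map_add, map_add, star_add, hx, hy]
  | single a r =>
    have h1 : ‖(χ a : ℂ)‖ = 1 :=
      (((Units.coeHom ℂ).comp χ).isOfFinOrder (isOfFinOrder_of_finite a)).norm_eq_one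
    rw [star_single, evc_single, evc_single, star_mul', map_inv, Units.val_inv_eq_inv_val,
      RCLike.inv_eq_conj h1, star_ratCast]
    rfl

theorem evH_apply (x : RC C) (χ : Chr C) : evH C x χ = evc χ.1 x := rfl

theorem evH_star [Finite C] (x : RC C) : evH C (star x) = star (evH C x) := by
  funext χ
  rw [evH_apply, evc_star, Pi.star_apply, evH_apply]

theorem map_evH_conj [Finite C] {I J : Type} (M : Matrix I J (RC C)) :
    Mᴴ.map (evH C) = (M.map (evH C))ᴴ := Matrix.conjTranspose_map _ evH_star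

theorem mapDomain_star (f : C →* C') (x : RC C) :
    MonoidAlgebra.mapDomainRingHom ℚ f (star x) = star (MonoidAlgebra.mapDomainRingHom ℚ f x) :=
  by
  induction x using MonoidAlgebra.induction_linear with
  | zero => simp
  | add x y hx hy => rw [star_add, map_add, map_add, star_add, hx, hy]
  | single a r =>
    rw [star_single]
    change MonoidAlgebra.mapDomain f _ = star (MonoidAlgebra.mapDomain f _)
    rw [MonoidAlgebra.mapDomain_single, MonoidAlgebra.mapDomain_single, star_single, map_inv]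

theorem evH_algebraMap (r : ℚ) : evH C (MonoidAlgebra.single 1 r) = algebraMap ℚ (RH C) r := by
  funext χ
  rw [evH_apply, evc_single]
  simp

theorem InP.one : InP (1 : RH C) := ⟨1, 1, Or.inl rfl, fun χ => ⟨1, one_pos, by simp⟩⟩

theorem InP.mul {u v : RH C} (hu : InP u) (hv : InP v) : InP (u * v) := by
  obtain ⟨g, s, hs, hu⟩ := hu
  obtain ⟨g', s', hs', hv⟩ := hv
  refine ⟨g * g', s * s', ?_, fun χ => ?_⟩
  · rcases hs with rfl | rfl <;> rcases hs' with rfl | rfl <;> simp
  · obtain ⟨r, hr, e⟩ := hu χ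
    obtain ⟨r', hr', e'⟩ := hv χ
    refine ⟨r * r', mul_pos hr hr', ?_⟩
    rw [Pi.mul_apply, e, e', map_mul, Units.val_mul, Complex.ofReal_mul]
    ring

theorem InP.neg {u : RH C} (hu : InP u) : InP (-u) := by
  obtain ⟨g, s, hs, hu⟩ := hu
  refine ⟨g, -s, ?_, fun χ => ?_⟩
  · rcases hs with rfl | rfl <;> simp
  · obtain ⟨r, hr, e⟩ := hu χ
    refine ⟨r, hr, ?_⟩
    rw [Pi.neg_apply, e]
    ring

theorem InP.exists_inv {u : RH C} (hu : InP u) : ∃ v, InP v ∧ u * v = 1 := by
  obtain ⟨g, s, hs, hu⟩ := hu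
  have hs0 : s ≠ 0 := by rcases hs with rfl | rfl <;> simp
  have hs1 : s⁻¹ = s := by rcases hs with rfl | rfl <;> simp
  refine ⟨fun χ => (u χ)⁻¹, ⟨g⁻¹, s, hs, fun χ => ?_⟩, ?_⟩
  · obtain ⟨r, hr, e⟩ := hu χ
    refine ⟨r⁻¹, inv_pos.mpr hr, ?_⟩
    change (u χ)⁻¹ = _
    rw [e, mul_inv, mul_inv, hs1, map_inv, Units.val_inv_eq_inv_val, Complex.ofReal_inv]
  · funext χ
    obtain ⟨r, hr, e⟩ := hu χ
    refine mul_inv_cancel₀ ?_
    rw [e]
    exact mul_ne_zero (mul_ne_zero hs0 (Units.ne_zero _)) (Complex.ofReal_ne_zero.mpr hr.ne')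

theorem InP.isUnit {u : RH C} (hu : InP u) : IsUnit u := by
  obtain ⟨v, -, h⟩ := hu.exists_inv
  exact IsUnit.of_mul_eq_one v h

theorem InP.of_mul_eq_one {u v : RH C} (hu : InP u) (h : u * v = 1) : InP v := by
  obtain ⟨w, hw, e⟩ := hu.exists_inv
  have : v = w := by
    calc v = v * (u * w) := by rw [e, mul_one]
      _ = (u * v) * w := by ring
      _ = w := by rw [h, one_mul]
  exact this ▸ hw

theorem InP.of_mul_left {u v : RH C} (hu : InP u) (h : InP (u * v)) : InP v := by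
  obtain ⟨w, hw, e⟩ := hu.exists_inv
  have : v = w * (u * v) := by
    calc v = (u * w) * v := by rw [e, one_mul]
      _ = w * (u * v) := by ring
  rw [this]
  exact hw.mul h

theorem InP.pow {u : RH C} (hu : InP u) (n : ℕ) : InP (u ^ n) := by
  induction n with
  | zero => rw [pow_zero]; exact InP.one
  | succ n ih => rw [pow_succ]; exact ih.mul hu

theorem InP.prod {ι : Type} (s : Finset ι) {u : ι → RH C} (hu : ∀ i ∈ s, InP (u i)) :
    InP (∏ i ∈ s, u i) := Finset.prod_induction u InP (fun _ _ => InP.mul) InP.one hu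

theorem InP.of_pos {u : RH C} (h : ∀ χ, ∃ r : ℝ, 0 < r ∧ u χ = (r : ℂ)) : InP u := by
  refine ⟨1, 1, Or.inl rfl, fun χ => ?_⟩
  obtain ⟨r, hr, e⟩ := h χ
  exact ⟨r, hr, by simp [e]⟩

theorem InP.mul_star {u : RH C} (h : IsUnit u) : InP (u * star u) := by
  refine InP.of_pos fun χ => ⟨Complex.normSq (u χ), ?_, ?_⟩
  · exact Complex.normSq_pos.mpr (h.map (Pi.evalRingHom (fun _ : Chr C => ℂ) χ)).ne_zero
  · exact Complex.mul_conj (u χ)

theorem InP.rat {r : ℚ} (h : r ≠ 0) : InP (algebraMap ℚ (RH C) r) := by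
  rcases lt_or_gt_of_ne h with h | h
  · refine ⟨1, -1, Or.inr rfl, fun χ => ⟨-(r : ℝ), ?_, ?_⟩⟩
    · exact neg_pos.mpr (by exact_mod_cast h)
    · simp
  · refine InP.of_pos fun χ => ⟨(r : ℝ), by exact_mod_cast h, ?_⟩
    simp

theorem InP.of_eq_or {u v : RH C} (hu : InP u) (h : v = u ∨ v = -u) : InP v := by
  rcases h with rfl | rfl
  · exact hu
  · exact hu.neg

theorem InU.inP {u : RC C} (h : InU u) : InP (evH C u) := by
  obtain ⟨r, g, hr, rfl⟩ := h
  have e : (MonoidAlgebra.single g r : RC C) =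
      MonoidAlgebra.single 1 r * MonoidAlgebra.single g 1 := by simp
  rw [e, map_mul, evH_algebraMap]
  refine (InP.rat hr).mul ⟨g, 1, Or.inl rfl, fun χ => ⟨1, one_pos, ?_⟩⟩
  rw [evH_apply, evc_single]
  simp

theorem InU.mapDomain {u : RC C} (h : InU u) (f : C →* C') :
    InU (MonoidAlgebra.mapDomainRingHom ℚ f u) := by
  obtain ⟨r, g, hr, rfl⟩ := h
  exact ⟨r, f g, hr, MonoidAlgebra.mapDomain_single⟩

theorem Sim.refl (u : RH C) : Sim u u := ⟨1, InP.one, (one_mul u).symm⟩

theorem Sim.symm {u v : RH C} (h : Sim u v) : Sim v u := by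
  obtain ⟨w, hw, rfl⟩ := h
  obtain ⟨w', hw', e⟩ := hw.exists_inv
  refine ⟨w', hw', ?_⟩
  rw [← mul_assoc, mul_comm w' w, e, one_mul]

theorem Sim.trans {u v w : RH C} (h : Sim u v) (h' : Sim v w) : Sim u w := by
  obtain ⟨a, ha, rfl⟩ := h
  obtain ⟨b, hb, rfl⟩ := h'
  exact ⟨a * b, ha.mul hb, (mul_assoc _ _ _).symm⟩

theorem Sim.mul_left {w u τ : RH C} (hw : InP w) (h : Sim u τ) : Sim (w * u) τ := Sim.trans ⟨w, hw, rfl⟩ h

theorem Sim.of_mul_left {w u τ : RH C} (hw : InP w) (h : Sim (w * u) τ) : Sim u τ := Sim.trans (Sim.symm ⟨w, hw, rfl⟩) h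

theorem Sim.neg {u τ : RH C} (h : Sim u τ) : Sim (-u) τ := by
  have h1 := Sim.mul_left InP.one.neg h
  rwa [neg_one_mul] at h1

theorem Sim.of_eq_or {u v τ : RH C} (h : Sim u τ) (e : v = u ∨ v = -u) : Sim v τ := by
  rcases e with rfl | rfl
  · exact h
  · exact h.neg

theorem Sim.of_mul_eq {u v a b : RH C} (ha : InP a) (hb : InP b) (h : u * a = v * b) : Sim u v :=
  by
  refine Sim.of_mul_left ha ⟨b, hb, ?_⟩
  rw [mul_comm a u, h, mul_comm]

theorem nontrivial_RH (p : ℕ) [NeZero p] (hp : 2 ≤ p) : Nontrivial (RH (Cp p)) := by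
  have : Fact (1 < p) := ⟨hp⟩
  have : Nonempty (Chr (Cp p)) := by
    refine ⟨⟨(ZMod.stdAddChar (N := p)).toMonoidHom.toHomUnits, fun h => ?_⟩⟩
    have h1 := congrArg (fun χ : Cp p →* ℂˣ => (χ (Multiplicative.ofAdd 1) : ℂ)) h
    have h2 : ZMod.stdAddChar (1 : ZMod p) = ZMod.stdAddChar (0 : ZMod p) := by
      rw [AddChar.map_zero_eq_one]
      exact h1
    exact one_ne_zero (ZMod.injective_stdAddChar h2)
  infer_instance

theorem evH_nrm [Fintype C] : evH C (nrm C) = 0 := by
  funext χ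
  rw [evH_apply, nrm, map_sum]
  have h1 : (Units.coeHom ℂ).comp χ.1 ≠ 1 := fun h => χ.2 (by
    ext g
    exact DFunLike.congr_fun h g)
  have h2 := sum_hom_units_eq_zero _ h1
  rw [Pi.zero_apply, ← h2]
  refine Finset.sum_congr rfl fun g _ => ?_
  rw [evc_single]
  simp

theorem exists_evQ (C : Type) [CommGroup C] [Fintype C] :
    ∃ f : RQ C →+* RH C, ∀ x, f (qq C x) = evH C x := by
  refine ⟨Ideal.Quotient.lift _ (evH C) fun a ha => ?_, fun x => rfl⟩
  obtain ⟨b, rfl⟩ := Ideal.mem_span_singleton'.mp ha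
  rw [map_mul, evH_nrm, mul_zero]

/-- Over the group ring of a finite group a matrix that kills the kernel of `N` factors. -/
theorem exists_factor [Finite C] {I J K : Type} [Fintype I] [Fintype K] (M : Matrix J I (RC C))
    (N : Matrix K I (RC C)) (h : ∀ x, N.mulVec x = 0 → M.mulVec x = 0) :
    ∃ T : Matrix J K (RC C), M = T * N := by
  have : NeZero (Nat.card C : ℚ) := ⟨by exact_mod_cast (Nat.card_pos (α := C)).ne'⟩
  obtain ⟨g, hg⟩ := MonoidAlgebra.exists_leftInverse_of_injective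
    ((LinearMap.ker N.mulVecLin).liftQ N.mulVecLin le_rfl)
    (Submodule.ker_liftQ_eq_bot _ _ _ le_rfl)
  let ψ : (K → RC C) →ₗ[RC C] (J → RC C) :=
    ((LinearMap.ker N.mulVecLin).liftQ M.mulVecLin fun x hx => h x hx).comp g
  have hψ : ∀ x, ψ (N.mulVec x) = M.mulVec x := by
    intro x
    have h1 : g (N.mulVec x) = Submodule.Quotient.mk x :=
      DFunLike.congr_fun hg (Submodule.Quotient.mk x)
    change (LinearMap.ker N.mulVecLin).liftQ M.mulVecLin (fun x hx => h x hx)
      (g (N.mulVec x)) = _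
    rw [h1]
    rfl
  refine ⟨Matrix.of fun j k => ψ (Pi.single k 1) j, ?_⟩
  ext1 j i
  have h2 : N.mulVec (Pi.single i 1) = ∑ k, N k i • (Pi.single k 1 : K → RC C) := by
    rw [Matrix.mulVec_single_one]
    funext k
    simp [Finset.sum_apply, Pi.single_apply]
  have h3 := congrFun (hψ (Pi.single i 1)) j
  rw [h2, map_sum, Matrix.mulVec_single_one, Finset.sum_apply] at h3
  rw [Matrix.mul_apply]
  refine h3.symm.trans (Finset.sum_congr rfl fun k _ => ?_)
  rw [map_smul, Pi.smul_apply, smul_eq_mul, mul_comm]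
  rfl

section Mat

variable {S S' I J : Type} [CommRing S] [StarRing S] [CommRing S'] [StarRing S'] [Fintype I]
  [DecidableEq I] [Fintype J] [DecidableEq J]

theorem CapM.map {deg : I → ℕ} {D Γ : Matrix I I S} (h : CapM deg D Γ) (f : S →+* S')
    (hf : ∀ x, f (star x) = star (f x)) : CapM deg (D.map f) (Γ.map f) := by
  have hz : ∀ x, f x ≠ 0 → x ≠ 0 := fun x hx e => hx (by rw [e, map_zero])
  refine ⟨⟨fun i j hij => h.cx.1 i j (hz _ hij), ?_⟩, h.le, fun i j hij => h.dΓ i j (hz _ hij),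
    ?_, ?_⟩
  · rw [← Matrix.map_mul, h.cx.2, Matrix.map_zero _ (map_zero f)]
  · obtain ⟨Γ2, e⟩ := h.up
    exact ⟨Γ2.map f, by rw [← Matrix.conjTranspose_map _ hf, ← Matrix.map_mul, e, Matrix.map_mul]⟩
  · obtain ⟨Γ0, d, e⟩ := h.lo
    exact ⟨Γ0.map f, fun i j hij => d i j (hz _ hij),
      by rw [← Matrix.conjTranspose_map _ hf, ← Matrix.map_mul, e, Matrix.map_mul]⟩

theorem CapM.reindex {deg : I → ℕ} {D Γ : Matrix I I S} (h : CapM deg D Γ) (e : J ≃ I) :
    CapM (deg ∘ e) (D.submatrix e e) (Γ.submatrix e e) := by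
  refine ⟨⟨fun i j hij => h.cx.1 _ _ hij, ?_⟩, fun i => h.le _, fun i j hij => h.dΓ _ _ hij,
    ?_, ?_⟩
  · rw [Matrix.submatrix_mul_equiv, h.cx.2]
    rfl
  · obtain ⟨Γ2, e2⟩ := h.up
    exact ⟨Γ2.submatrix e e, by rw [Matrix.conjTranspose_submatrix, Matrix.submatrix_mul_equiv,
      Matrix.submatrix_mul_equiv, e2]⟩
  · obtain ⟨Γ0, d, e0⟩ := h.lo
    exact ⟨Γ0.submatrix e e, fun i j hij => d _ _ hij, by rw [Matrix.conjTranspose_submatrix,
      Matrix.submatrix_mul_equiv, Matrix.submatrix_mul_equiv, e0]⟩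

theorem DualPair.map {deg : I → ℕ} {D : Matrix I I S} {Z A : Matrix I J S}
    (h : DualPair deg D Z A) (f : S →+* S') (hf : ∀ x, f (star x) = star (f x)) :
    DualPair deg (D.map f) (Z.map f) (A.map f) := by
  refine ⟨fun i j hi => ?_, fun i j hi => ?_, ?_, ?_, ?_⟩
  · rw [Matrix.map_apply, h.dZ i j hi, map_zero]
  · rw [Matrix.map_apply, h.dA i j hi, map_zero]
  · rw [← Matrix.map_mul, h.cyc, Matrix.map_zero _ (map_zero f)]
  · rw [← Matrix.conjTranspose_map _ hf, ← Matrix.map_mul, h.coc, Matrix.map_zero _ (map_zero f)]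
  · rw [← Matrix.conjTranspose_map _ hf, ← Matrix.map_mul, h.pair,
      Matrix.map_one _ (map_zero f) (map_one f)]

theorem CapM.isCx_cx2 {deg : I → ℕ} {D Γ : Matrix I I S} (h : CapM deg D Γ) {Z A : Matrix I J S}
    (hp : DualPair deg D Z A) : IsCx (Sum.elim deg (d23 J)) (cx2 D Z (Γ * A)) := by
  constructor
  · rintro (i | i) (j | j | j) hij
    · exact h.cx.1 i j hij
    · have h1 : deg i = 1 := by
        by_contra hc
        exact hij (hp.dZ i j hc)
      change 2 = deg i + 1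
      omega
    · have h1 : deg i = 2 := by
        by_contra hc
        refine hij ?_
        change (Γ * A) i j = 0
        rw [Matrix.mul_apply]
        refine Finset.sum_eq_zero fun k _ => ?_
        have h2 : Γ i k = 0 := by
          by_contra h3
          exact hc (h.dΓ i k h3).1
        rw [h2, zero_mul]
      change 3 = deg i + 1
      omega
    · exact absurd rfl hij
    · exact absurd rfl hij
    · exact absurd rfl hij
  · obtain ⟨Γ2, e⟩ := h.up
    have h1 : Dᴴ * A = 0 := by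
      have h2 := congrArg Matrix.conjTranspose hp.coc
      rwa [Matrix.conjTranspose_mul, Matrix.conjTranspose_conjTranspose,
        Matrix.conjTranspose_zero] at h2
    have h3 : D * (Γ * A) = 0 := by
      rw [← Matrix.mul_assoc, e, Matrix.mul_assoc, h1, Matrix.mul_zero]
    rw [cx2, Matrix.fromBlocks_multiply, Matrix.mul_fromCols, h.cx.2, hp.cyc, h3]
    simp

/-- In a contractible completed complex the cycles `Z` span, with control of the degree. -/
theorem spans_of_isCtr {deg : I → ℕ} {D : Matrix I I S} {Z Y : Matrix I J S}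
    {h : Matrix (I ⊕ (J ⊕ J)) (I ⊕ (J ⊕ J)) S}
    (hh : IsCtr (Sum.elim deg (d23 J)) (cx2 D Z Y) h) : Spans deg D Z := by
  intro x hx hc
  have h1 : (cx2 D Z Y).mulVec (Sum.elim x 0) = 0 := by
    rw [cx2, Matrix.fromBlocks_mulVec]
    simp [hc]
  have h2 := congrArg (fun M => Matrix.mulVec M (Sum.elim x 0)) hh.2
  simp only [Matrix.add_mulVec, ← Matrix.mulVec_mulVec, h1, Matrix.mulVec_zero, add_zero,
    Matrix.one_mulVec] at h2
  have h3 : ∀ j, h.mulVec (Sum.elim x 0) (Sum.inr (Sum.inr j)) = 0 := by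
    intro j
    refine Finset.sum_eq_zero ?_
    rintro (k | k) _
    · by_cases hk : deg k = 1
      · have h4 : h (Sum.inr (Sum.inr j)) (Sum.inl k) = 0 := by
          by_contra h5
          have h6 : 3 = deg k + 1 := hh.1 _ _ h5
          omega
        change h (Sum.inr (Sum.inr j)) (Sum.inl k) * _ = 0
        rw [h4, zero_mul]
      · change _ * x k = 0
        rw [hx k hk, mul_zero]
    · exact mul_zero _
  generalize h.mulVec (Sum.elim x 0) = w at h2 h3
  refine ⟨fun j => w (Sum.inr (Sum.inl j)), fun i => w (Sum.inl i), ?_⟩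
  funext i
  have h7 := congrFun h2 (Sum.inl i)
  rw [Sum.elim_inl] at h7
  rw [← h7]
  simp [cx2, Matrix.mulVec, dotProduct, Fintype.sum_sum_type, h3, add_comm]

theorem Spans.deg {deg : I → ℕ} {D : Matrix I I S} {Z : Matrix I J S} (h : Spans deg D Z)
    (hD : IsCx deg D) (hZ : ∀ i j, deg i ≠ 1 → Z i j = 0) {K : Type} (X : Matrix I K S)
    (hX : ∀ i j, deg i ≠ 1 → X i j = 0) (hc : ∀ j, D.mulVec (fun i => X i j) = 0) :
    ∃ (μ : Matrix J K S) (m : Matrix I K S), (∀ i j, deg i ≠ 2 → m i j = 0) ∧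
      X = Z * μ + D * m := by
  choose μ y hy using fun j => h (fun i => X i j) (fun i hi => hX i j hi) (hc j)
  refine ⟨Matrix.of fun a j => μ j a, Matrix.of fun i j => if deg i = 2 then y j i else 0,
    fun i j hi => if_neg hi, ?_⟩
  ext i j
  rw [Matrix.add_apply, Matrix.mul_apply, Matrix.mul_apply]
  by_cases hi : deg i = 1
  · rw [congrFun (hy j) i, Pi.add_apply]
    refine congrArg₂ (· + ·) rfl (Finset.sum_congr rfl fun k _ => ?_)
    by_cases hk : D i k = 0
    · change D i k * _ = _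
      rw [hk, zero_mul, zero_mul]
    · have h1 := hD.1 i k hk
      rw [Matrix.of_apply, if_pos (by omega)]
  · rw [hX i j hi, Finset.sum_eq_zero fun a _ => by rw [hZ i a hi, zero_mul], zero_add]
    refine (Finset.sum_eq_zero fun k _ => ?_).symm
    by_cases hk : D i k = 0
    · rw [hk, zero_mul]
    · have h1 := hD.1 i k hk
      rw [Matrix.of_apply, if_neg (by omega), mul_zero]

end Mat

end Pool.Agent.MP_6374aa_gt
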