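import Pool.Agent.MP_6374aa_gt.CapB
import Pool.Agent.MP_6374aa_gt.InPA

/-! The pairing with values in the group ring. -/

namespace Pool.Agent.MP_6374aa_gt

open Classical Matrix

variable {V V' : Type} {G : SimpleGraph V} {A : Set V} {G' : SimpleGraph V'} {A' : Set V'}
  {C : Type} [CommGroup C] [Fintype C] {α : C →* Equiv.Perm V} {α' : C →* Equiv.Perm V'}

omit [Fintype C] in
theorem ext_FrB {x y : RC C} (h : ∀ g, x.coeff g = y.coeff g) : x = y :=
  MonoidAlgebra.ext (Finsupp.ext h)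

omit [Fintype C] in
theorem emap_mul_FrB (g h : C) (z : EA V) :
    emap (α g) (emap (α h) z) = emap (α (g * h)) z := by
  rw [emap_comp, map_mul, Equiv.Perm.coe_mul]

theorem prR_coeff (a : V → V → ℚ) (z : EA V) (g : C) :
    (prR α a z).coeff g = evE a (emap (α g⁻¹) z) := by
  rw [prR, MonoidAlgebra.coeff_sum, Finsupp.finsetSum_apply,
    Finset.sum_eq_single g (fun b _ hb => by simp [hb]) (by simp)]
  simp

theorem prR_add (a : V → V → ℚ) (x y : EA V) : prR α a (x + y) = prR α a x + prR α a y := by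
  refine ext_FrB fun g => ?_
  rw [MonoidAlgebra.coeff_add, Finsupp.add_apply, prR_coeff, prR_coeff, prR_coeff, map_add,
    evE_add]

theorem prR_sub (a : V → V → ℚ) (x y : EA V) : prR α a (x - y) = prR α a x - prR α a y := by
  refine ext_FrB fun g => ?_
  rw [MonoidAlgebra.coeff_sub, Finsupp.sub_apply, prR_coeff, prR_coeff, prR_coeff, map_sub,
    evE_sub]

theorem prR_zero (a : V → V → ℚ) : prR α a 0 = 0 := by
  refine ext_FrB fun g => ?_
  rw [prR_coeff, map_zero, evE_zero, MonoidAlgebra.coeff_zero, Finsupp.zero_apply]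

theorem prR_sum {ι : Type} (a : V → V → ℚ) (s : Finset ι) (x : ι → EA V) :
    prR α a (∑ i ∈ s, x i) = ∑ i ∈ s, prR α a (x i) := by
  induction s using Finset.induction_on with
  | empty => rw [Finset.sum_empty, Finset.sum_empty, prR_zero]
  | insert b t hb ih => rw [Finset.sum_insert hb, Finset.sum_insert hb, prR_add, ih]

theorem prR_act (a : V → V → ℚ) (r : RC C) (z : EA V) : prR α a (act α r z) = r * prR α a z := by
  induction r using MonoidAlgebra.induction_linear with
  | zero => rw [act_zero, prR_zero, zero_mul]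
  | add b c hb hc => rw [act_add, prR_add, hb, hc, add_mul]
  | single h c =>
    refine ext_FrB fun g => ?_
    rw [MonoidAlgebra.coeff_single_mul_apply, prR_coeff, prR_coeff, act_single, map_smul, evE_smul,
      emap_mul_FrB, _root_.mul_inv_rev, inv_inv]

theorem prR_add_left (a b : V → V → ℚ) (z : EA V) :
    prR α (fun p q => a p q + b p q) z = prR α a z + prR α b z := by
  refine ext_FrB fun g => ?_
  rw [MonoidAlgebra.coeff_add, Finsupp.add_apply, prR_coeff, prR_coeff, prR_coeff, evE_add_left]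

theorem prR_sub_left (a b : V → V → ℚ) (z : EA V) :
    prR α (fun p q => a p q - b p q) z = prR α a z - prR α b z := by
  refine ext_FrB fun g => ?_
  rw [MonoidAlgebra.coeff_sub, Finsupp.sub_apply, prR_coeff, prR_coeff, prR_coeff, evE_sub_left]

theorem comm_FrB (x z : EA V) : prR α (ef x) z = star (prR α (ef z) x) := by
  refine ext_FrB fun g => ?_
  rw [coeff_star, prR_coeff, prR_coeff, inv_inv, evE_comm z, ← evE_ef_perm (α g) x, emap_mul_FrB,
    mul_inv_cancel, map_one, Equiv.Perm.coe_one, emap_id]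

theorem prR_ef_add (x y z : EA V) : prR α (ef (x + y)) z = prR α (ef x) z + prR α (ef y) z := by
  rw [comm_FrB (x + y), prR_add, star_add, ← comm_FrB, ← comm_FrB]

theorem prR_ef_sub (x y z : EA V) : prR α (ef (x - y)) z = prR α (ef x) z - prR α (ef y) z := by
  rw [comm_FrB (x - y), prR_sub, star_sub, ← comm_FrB, ← comm_FrB]

theorem prR_ef_sum {ι : Type} (s : Finset ι) (x : ι → EA V) (z : EA V) :
    prR α (ef (∑ i ∈ s, x i)) z = ∑ i ∈ s, prR α (ef (x i)) z := by
  rw [comm_FrB (∑ i ∈ s, x i), prR_sum, star_sum]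
  exact Finset.sum_congr rfl fun i _ => (comm_FrB _ _).symm

theorem prR_ef_act (r : RC C) (x z : EA V) :
    prR α (ef (act α r x)) z = star r * prR α (ef x) z := by
  rw [comm_FrB (act α r x), prR_act, star_mul', ← comm_FrB]

theorem prR_ef_comm (x z : EA V) : prR α (ef x) z = star (prR α (ef z) x) := comm_FrB x z

theorem prR_bd (h : Act G A α) {a : V → V → ℚ} (hc : Coc G A a) {z : EA V} (hz : z ∈ Bd G A 2) :
    prR α a z = 0 := by
  refine ext_FrB fun g => ?_
  rw [prR_coeff, hc.evE_bd (emap_mem_Bd (h.isIso g⁻¹).isHom hz), MonoidAlgebra.coeff_zero,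
    Finsupp.zero_apply]

theorem prR_cob (h : Act G A α) (F : V → ℚ) {z : EA V} (hz : z ∈ Zy G A 2) :
    prR α (fun p q => F p - F q) z = 0 := by
  refine ext_FrB fun g => ?_
  rw [prR_coeff, evE_cob F (emap_mem_Zy (h.isIso g⁻¹).isHom hz), MonoidAlgebra.coeff_zero,
    Finsupp.zero_apply]

theorem prR_congr (h : Act G A α) {a b : V → V → ℚ} {z : EA V} (hz : z ∈ Ch G A 2)
    (hab : ∀ p ∈ A, ∀ q ∈ A, G.Adj p q → a p q = b p q) : prR α a z = prR α b z := by
  refine ext_FrB fun g => ?_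
  rw [prR_coeff, prR_coeff, evE_congr (emap_mem_Ch (h.isIso g⁻¹).isHom hz) hab]

theorem prR_emap {f : V' → V} (he : Eqv A' α' α f) (a : V → V → ℚ) {n : ℕ} {z : EA V'}
    (hz : z ∈ Ch G' A' n) : prR α a (emap f z) = prR α' (fun p q => a (f p) (f q)) z := by
  refine ext_FrB fun g => ?_
  rw [prR_coeff, prR_coeff, ← evE_emap a f, emap_comp, emap_comp,
    emap_congr (f := f ∘ α' g⁻¹) (g := α g⁻¹ ∘ f) (he g⁻¹) hz]

theorem prR_cmb {I J K L : Type} [Fintype I] [Fintype K] (x : I → EA V) (z : K → EA V)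
    (M : Matrix I J (RC C)) (N : Matrix K L (RC C)) (j : J) (l : L) :
    prR α (ef (cmb α x M j)) (cmb α z N l) =
      (Mᴴ * Matrix.of (fun i k => prR α (ef (x i)) (z k)) * N) j l := by
  rw [cmb, cmb, prR_sum, Matrix.mul_apply]
  refine Finset.sum_congr rfl fun k _ => ?_
  rw [prR_act, prR_ef_sum, Matrix.mul_apply, mul_comm]
  congr 1
  refine Finset.sum_congr rfl fun i _ => ?_
  rw [prR_ef_act, Matrix.conjTranspose_apply, Matrix.of_apply]

theorem ef_act (r : RC C) (x : EA V) (p q : V) :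
    ef (act α r x) p q = ∑ g : C, r.coeff g * ef x (α g⁻¹ p) (α g⁻¹ q) := by
  rw [act, ef_sum]
  refine Finset.sum_congr rfl fun g _ => ?_
  rw [ef_smul, ef_perm, map_inv]

theorem Coc.perm (h : Act G A α) {a : V → V → ℚ} (hc : Coc G A a) (g : C) :
    Coc G A fun p q => a (α g p) (α g q) := hc.pull (h.isIso g).isHom

theorem coc_act (h : Act G A α) {x : EA V} (hc : Coc G A (ef x)) (r : RC C) :
    Coc G A (ef (act α r x)) := by
  have e : ef (act α r x) = fun p q => ∑ g : C, r.coeff g * ef x (α g⁻¹ p) (α g⁻¹ q) :=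
    funext fun p => funext fun q => ef_act r x p q
  rw [e]
  exact Coc.sum Finset.univ (a := fun g p q => r.coeff g * ef x (α g⁻¹ p) (α g⁻¹ q))
    fun g _ => Coc.mul _ (Coc.perm h hc g⁻¹)

theorem coc_sum_act (h : Act G A α) {I : Type} [Fintype I] {x : I → EA V}
    (hc : ∀ i, Coc G A (ef (x i))) (μ : I → RC C) : Coc G A (ef (∑ i, act α (μ i) (x i))) := by
  have e : ef (∑ i, act α (μ i) (x i)) = fun p q => ∑ i, ef (act α (μ i) (x i)) p q :=
    funext fun p => funext fun q => ef_sum _ _ p q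
  rw [e]
  exact Coc.sum Finset.univ (a := fun i => ef (act α (μ i) (x i))) fun i _ => coc_act h (hc i) _

theorem cap1_ef_act {ζ : EA V} (hζ : ∀ g, emap (α g) ζ = ζ) (r : RC C) (x : EA V) :
    cap1 (lc ζ) (ef (act α r x)) = act α r (cap1 (lc ζ) (ef x)) := by
  rw [act, act, cap1_ef_sum]
  refine Finset.sum_congr rfl fun g _ => ?_
  rw [cap1_ef_smul, cap1_ef_perm (α g) (lc_perm (α g) (hζ g))]

theorem sum_act_cmb_FrB {I J : Type} [Fintype I] [Fintype J] (z : I → EA V)
    (M : Matrix I J (RC C)) (μ : J → RC C) :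
    ∑ j, act α (μ j) (cmb α z M j) = ∑ i, act α (∑ j, M i j * μ j) (z i) := by
  simp only [cmb, act_sum_right, act_sum]
  rw [Finset.sum_comm]
  refine Finset.sum_congr rfl fun i _ => Finset.sum_congr rfl fun j _ => ?_
  rw [mul_comm, act_mul]

theorem cmb_cmb {I J K : Type} [Fintype I] [Fintype J] (z : I → EA V) (M : Matrix I J (RC C))
    (N : Matrix J K (RC C)) : cmb α (cmb α z M) N = cmb α z (M * N) :=
  funext fun k => sum_act_cmb_FrB z M fun j => N j k

theorem sum_act_cmb {I J : Type} [Fintype I] [Fintype J] (z : I → EA V) (M : Matrix I J (RC C))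
    (μ : J → RC C) :
    ∑ j, act α (μ j) (cmb α z M j) = ∑ i, act α (M.mulVec μ i) (z i) := sum_act_cmb_FrB z M μ

theorem cmb_one {I : Type} [Fintype I] [DecidableEq I] (z : I → EA V) :
    cmb α z (1 : Matrix I I (RC C)) = z := by
  funext j
  rw [cmb, Finset.sum_eq_single j (fun i _ hi => by rw [Matrix.one_apply_ne hi, act_zero])
    (by simp), Matrix.one_apply_eq, act_one]

theorem sum_act_mem (N : Submodule ℚ (EA V)) {I : Type} [Fintype I] {z : I → EA V}
    {μ : I → RC C} (h : ∀ i g, (μ i).coeff g ≠ 0 → emap (α g) (z i) ∈ N) :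
    ∑ i, act α (μ i) (z i) ∈ N := by
  refine N.sum_mem fun i _ => N.sum_mem fun g _ => ?_
  by_cases e : (μ i).coeff g = 0
  · rw [e, zero_smul]
    exact N.zero_mem
  · exact N.smul_mem _ (h i g e)

theorem emap_sum_act {f : V' → V} (he : Eqv A' α' α f) {I : Type} [Fintype I] {z : I → EA V'}
    (hz : ∀ i, ∃ n, z i ∈ Ch G' A' n) (μ : I → RC C) :
    emap f (∑ i, act α' (μ i) (z i)) = ∑ i, act α (μ i) (emap f (z i)) := by
  rw [map_sum]
  refine Finset.sum_congr rfl fun i _ => ?_
  obtain ⟨n, hn⟩ := hz i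
  exact emap_act he _ hn

theorem TopC.smul {ζ : EA V} (h : TopC G A α ζ) (r : ℚ) : TopC G A α (r • ζ) :=
  ⟨Submodule.smul_mem _ r h.1, fun g => by rw [map_smul, h.2 g]⟩

theorem TopC.map {f : V' → V} (hf : IsHom G' A' G A f) (he : Eqv A' α' α f) {ζ : EA V'}
    (h : TopC G' A' α' ζ) : TopC G A α (emap f ζ) :=
  ⟨emap_mem_Zy hf h.1, fun g => by
    rw [emap_comp, ← emap_congr (f := f ∘ α' g) (g := α g ∘ f) (he g) (mem_Zy.1 h.1).1,
      ← emap_comp, h.2 g]⟩

end Pool.Agent.MP_6374aa_gt
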