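import Pool.Agent.MP_6374aa_gt.FrB
import Pool.Agent.MP_6374aa_gt.CapC

/-! The matrices of the pairing and of the cap product. -/

namespace Pool.Agent.MP_6374aa_gt

open Classical Matrix

variable {V V' : Type} {G : SimpleGraph V} {A : Set V} {G' : SimpleGraph V'} {A' : Set V'}
  {C : Type} [CommGroup C] [Fintype C] {α : C →* Equiv.Perm V} {α' : C →* Equiv.Perm V'}

theorem prR_one_FrC (a : V → V → ℚ) (z : EA V) : (prR α a z).coeff 1 = evE a z := by
  rw [prR_coeff, inv_one, map_one]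
  exact congrArg _ (emap_id z)

theorem wm_FrC {l : List V} (hl : IsCl G A l) (n : ℕ) (e : l.length = n) : wedge l ∈ Ch G A n :=
  e ▸ wedge_mem_Ch hl

theorem ef_wedge_FrC {l : List V} (hl : IsCl G A l) {p q : V} (h : l.toFinset ≠ [p, q].toFinset) :
    ef (wedge l) p q = 0 := by
  by_cases h2 : l.length = 2
  · obtain ⟨a, b, rfl⟩ := List.length_eq_two.1 h2
    rw [wedge_cons, wedge_cons, wedge_nil, mul_one, ef_vx_vx, if_neg, if_neg, sub_zero]
    · rintro ⟨rfl, rfl⟩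
      exact h (by simp [Finset.pair_comm])
    · rintro ⟨rfl, rfl⟩
      exact h rfl
  · exact ef_eq_zero_of_ne (wedge_mem_Ch hl) h2 p q

theorem sc_wedge_FrC {l : List V} (hl : IsCl G A l) {p : V} (h : l.toFinset ≠ [p].toFinset) :
    sc (iv p (wedge l)) = 0 := by
  rcases l with _ | ⟨a, _ | ⟨b, l⟩⟩
  · simp
  · rw [wedge_cons, iv_vx_mul_ne (by rintro rfl; exact h rfl), map_neg, sc_vx_mul, neg_zero]
  · exact sc_eq_zero (iv_mem_Ch p (wm_FrC hl (l.length + 1 + 1) rfl))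

omit [Fintype C] in
theorem dot_FrC {I J : Type} [Fintype I] [Fintype J] (M : Matrix I J (RC C)) (x : I → RC C)
    (y : J → RC C) : star (Mᴴ.mulVec x) ⬝ᵥ y = star x ⬝ᵥ M.mulVec y := by
  rw [star_mulVec, conjTranspose_conjTranspose, dotProduct_mulVec]

omit [Fintype C] in
theorem dg_FrC {I J : Type} [Fintype I] {M : Matrix I J (RC C)} {d : I → ℕ} {d' : J → ℕ}
    {n m : ℕ} (h : ∀ i j, M i j ≠ 0 → d i = n → d' j = m) {x : I → RC C} (hx : Dg d n x) :
    Dg d' m (Mᴴ.mulVec x) := fun j hj => Finset.sum_eq_zero fun i _ => by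
  change star (M i j) * x i = 0
  by_cases hi : d i = n
  · rw [show M i j = 0 from of_not_not fun h1 => hj (h i j h1 hi), star_zero, zero_mul]
  · rw [hx i hi, mul_zero]

omit [Fintype C] in
theorem dg_single_FrC {I : Type} [DecidableEq I] (d : I → ℕ) (j : I) :
    Dg d (d j) (Pi.single j (1 : RC C)) := fun _ hi =>
  Pi.single_eq_of_ne (by rintro rfl; exact hi rfl) _

namespace Frame

variable {F : Frame G A α} {F' : Frame G' A' α'}

theorem coef_FrC (F : Frame G A α) (h : Act G A α) (i : F.I) (g : C) (φ : EA V →ₗ[ℚ] ℚ)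
    (h1 : φ (wedge ((F.s i).map (α g))) = 1)
    (h0 : ∀ l, IsCl G A l → l.toFinset ≠ ((F.s i).map (α g)).toFinset → φ (wedge l) = 0)
    (y : F.I → RC C) : φ (F.ev y) = (y i).coeff g := by
  rw [ev_eq_FrA, map_sum, Finset.sum_eq_single (i, g) _ (by simp), map_smul, h1, smul_eq_mul,
    mul_one]
  rintro ⟨j, k⟩ - hne
  rw [map_smul, h0 _ (isCl_map_FrA h k (F.cl j)), smul_zero]
  intro e
  have h2 := isCl_toFinset (isCl_map_FrA h g (F.cl i))
  have h3 := (F.rep _ (by simpa using F.ne i) h2.1 h2.2).unique (y₁ := (g, i)) (y₂ := (k, j))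
    (toFinset_map_FrA _ _) (e.symm.trans (toFinset_map_FrA _ _))
  obtain ⟨rfl, rfl⟩ := Prod.mk.inj h3
  exact hne rfl

theorem ef_ev_FrC (h : Act G A α) {i : F.I} {p q : V} (e : F.s i = [p, q]) (g : C)
    (y : F.I → RC C) : ef (F.ev y) (α g p) (α g q) = (y i).coeff g := by
  have h1 : α g p ≠ α g q := (α g).injective.ne (by simpa [e] using F.nodup i)
  refine F.coef_FrC h i g (sc ∘ₗ iv (α g q) ∘ₗ iv (α g p)) ?_ (fun l hl hne => ?_) y
  · change ef _ _ _ = _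
    simp [e, ef_vx_vx, h1]
  · exact ef_wedge_FrC hl (by simpa only [e, List.map] using hne)

theorem vx_dot_FrC (F : Frame G A α) (h : Act G A α) {p : V} (hp : p ∈ A) :
    ∃ w, F.ev w = vx p ∧ ∀ x, (star x ⬝ᵥ w).coeff 1 = sc (iv p (F.ev x)) := by
  obtain ⟨⟨g, i⟩, e, -⟩ := F.rep {p} (by simp) (by simpa using hp) (by simp)
  have h1 : (F.s i).length = 1 := by
    simpa [List.toFinset_card_of_nodup (F.nodup i)] using (congrArg Finset.card e).symm
  obtain ⟨a, ha⟩ := List.length_eq_one_iff.1 h1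
  obtain rfl : p = α g a := by simpa [ha] using e
  refine ⟨Pi.single i (MonoidAlgebra.single g 1), by simp [ev_single, act_single, ha], fun x => ?_⟩
  rw [dotProduct_single, MonoidAlgebra.coeff_mul_single_apply, Pi.star_apply, coeff_star]
  simp only [one_mul, inv_inv, mul_one]
  refine (F.coef_FrC h i g (sc ∘ₗ iv (α g a)) ?_ (fun l hl hne => ?_) x).symm
  · rw [ha, List.map_singleton, wedge_cons, LinearMap.comp_apply, iv_vx_mul_self]
    simp [sc_one]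
  · exact sc_wedge_FrC hl (by simpa only [ha, List.map] using hne)

theorem ev_mem_FrC (h : Act G A α) {n : ℕ} {x : F.I → RC C} (hx : Dg F.deg n x) :
    F.ev x ∈ Ch G A (n + 1) :=
  F.ev_mem_Ch h hx fun i g _ v hv => h.mem g v ((F.cl i).1 v hv)

theorem ev_one_FrC (F : Frame G A α) (j : F.I) : F.ev (Pi.single j 1) = wedge (F.s j) := by
  rw [ev_single, act_one]

theorem wedge_mem (F : Frame G A α) (i : F.I) : wedge (F.s i) ∈ Ch G A (F.deg i + 1) := 
  F.length_eq i ▸ wedge_mem_Ch (F.cl i)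

theorem star_dot (F : Frame G A α) (h : Act G A α) {x : F.I → RC C} (hx : Dg F.deg 1 x)
    (y : F.I → RC C) : star x ⬝ᵥ y = prR α (ef (F.ev x)) (F.ev y) := by
  rw [ev.eq_1 F x, prR_ef_sum]
  refine Finset.sum_congr rfl fun i _ => ?_
  rw [prR_ef_act, Pi.star_apply]
  by_cases hi : F.deg i = 1
  · obtain ⟨p, q, e⟩ := List.length_eq_two.1 ((F.length_eq i).trans (by rw [hi]))
    congr 1
    ext g
    rw [prR_coeff, e, wedge_cons, wedge_cons, wedge_nil, mul_one, evE_comm, evE_ef_vx, ef_perm,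
      map_inv, inv_inv, ef_ev_FrC h e]
  · rw [hx i hi, star_zero, zero_mul, zero_mul]

theorem edge_FrC (F : Frame G A α) (h : Act G A α) {p q : V} (hp : p ∈ A) (hq : q ∈ A)
    (hpq : G.Adj p q) : ∃ y, Dg F.deg 1 y ∧ F.ev y = vx p * vx q ∧
      ∀ x, Dg F.deg 1 x → ef (F.ev x) p q = (star x ⬝ᵥ y).coeff 1 := by
  have h1 : IsCl G A [p, q] := ⟨by simp [hp, hq], by simp [Adq, hpq, hpq.symm]⟩
  obtain ⟨y, y1, -, y2⟩ := F.exists_ev h subset_rfl (wm_FrC h1 (1 + 1) rfl)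
  rw [wedge_cons, wedge_cons, wedge_nil, mul_one] at y2
  exact ⟨y, y1, y2, fun x hx => by rw [F.star_dot h hx, prR_one_FrC, y2, evE_ef_vx]⟩

theorem IsCo.dg (h : Act G A α) {J : Type} {Z : Matrix F.I J (RC C)} {z : J → EA V}
    (hZ : F.IsCo Z z) {n : ℕ} {j : J} (hz : z j ∈ Ch G A (n + 1)) (i : F.I) (hi : F.deg i ≠ n) :
    Z i j = 0 := 
  (F.coord_of_mem h subset_rfl (x := fun i => Z i j) (hZ j ▸ hz)).1 i hi

theorem IsCo.conj_mul (h : Act G A α) {J K : Type} {Am : Matrix F.I J (RC C)} {a : J → EA V}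
    (hA : F.IsCo Am a) (ha : ∀ j, a j ∈ Ch G A 2) {Z : Matrix F.I K (RC C)} {z : K → EA V}
    (hZ : F.IsCo Z z) : Amᴴ * Z = Matrix.of fun j k => prR α (ef (a j)) (z k) := by
  ext1 j k
  rw [Matrix.of_apply, ← hA j, ← hZ k, ← F.star_dot h (hA.dg h (ha j))]
  rfl

theorem IsCo.mul {J K : Type} [Fintype J] {Z : Matrix F.I J (RC C)} {z : J → EA V}
    (hZ : F.IsCo Z z) (M : Matrix J K (RC C)) : F.IsCo (Z * M) (cmb α z M) := fun k =>
  hZ.ev_mulVec fun j => M j k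

theorem IsCo.unique (h : Act G A α) {J : Type} {Z Z' : Matrix F.I J (RC C)} {z : J → EA V}
    (hZ : F.IsCo Z z) (hZ' : F.IsCo Z' z) : Z = Z' := by
  ext1 i j
  exact congrFun (F.ev_injective h ((hZ j).trans (hZ' j).symm)) i

theorem IsBd.unique (h : Act G A α) {D D' : Matrix F.I F.I (RC C)} (hD : F.IsBd D)
    (hD' : F.IsBd D') : D = D' := IsCo.unique h hD hD'

theorem IsCap.unique (h : Act G A α) {η : V → EA V} {Γ Γ' : Matrix F.I F.I (RC C)}
    (hΓ : F.IsCap η Γ) (hΓ' : F.IsCap η Γ') : Γ = Γ' := IsCo.unique h hΓ hΓ'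

theorem exists_isCap (F : Frame G A α) (h : Act G A α) (hA : A.Finite) {ζ : EA V}
    (hζ : ζ ∈ Zy G A 4) : ∃ Γ, F.IsCap (lc ζ) Γ := by
  refine F.exists_isCo h _ fun j => ⟨2, ?_⟩
  split_ifs
  · exact cap1_mem' (eta0_lc hA hζ) (ef_fs G A _)
  · exact Submodule.zero_mem _

theorem IsCap.smul {ζ : EA V} {Γ : Matrix F.I F.I (RC C)} (hΓ : F.IsCap (lc ζ) Γ) (r : ℚ) :
    F.IsCap (lc (r • ζ)) (r • Γ) := fun j => by
  have : F.ev (fun i => (r • Γ) i j) = r • F.ev fun i => Γ i j := by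
    simp [ev_eq_FrA, Finset.smul_sum, smul_smul]
  rw [this, hΓ j, lc_smul, cap1_smul_eta, smul_ite, smul_zero]

theorem IsCap.ev_mulVec (h : Act G A α) {ζ : EA V} (hζ : ∀ g, emap (α g) ζ = ζ)
    {Γ : Matrix F.I F.I (RC C)} (hΓ : F.IsCap (lc ζ) Γ) (x : F.I → RC C) :
    F.ev (Γ.mulVec x) = cap1 (lc ζ) (ef (F.ev x)) := by
  have _ := h
  rw [IsCo.ev_mulVec hΓ, ev, cap1_ef_sum]
  refine Finset.sum_congr rfl fun j _ => ?_
  rw [cap1_ef_act hζ]
  split_ifs with hj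
  · rfl
  · rw [cap1_ef_of_ne _ (F.wedge_mem j) (by omega)]

theorem IsBd.coc_iff (h : Act G A α) {D : Matrix F.I F.I (RC C)} (hD : F.IsBd D)
    {x : F.I → RC C} (hx : Dg F.deg 1 x) : Dᴴ.mulVec x = 0 ↔ Coc G A (ef (F.ev x)) := by
  refine ⟨fun h0 => coc_of_evE (ef_anti _) fun z hz => ?_, fun hc => ?_⟩
  · obtain ⟨w, hw, rfl⟩ := mem_Bd.1 hz
    obtain ⟨y, y1, -, rfl⟩ := F.exists_ev h subset_rfl hw
    rw [← prR_one_FrC (α := α), ← hD.ev_mulVec y1, ← F.star_dot h hx, ← dot_FrC, h0]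
    simp
  · funext j
    by_cases hj : F.deg j = 2
    · have h1 := dot_FrC D x (Pi.single j 1)
      have h2 : Dg F.deg 2 (Pi.single j (1 : RC C)) := hj ▸ dg_single_FrC F.deg j
      rw [F.star_dot h hx, hD.ev_mulVec (n := 1) h2, ev_one_FrC,
        prR_bd h hc (mem_Bd.2 ⟨_, hj ▸ F.wedge_mem j, rfl⟩), dotProduct_single, mul_one] at h1
      exact star_eq_zero.1 h1
    · exact dg_FrC (fun i j h1 h2 => by rw [(hD.isCx h).1 i j h1, h2]) hx j hj

/-- The coboundary of a vector of degree zero. -/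
theorem IsBd.ef_conj (h : Act G A α) {D : Matrix F.I F.I (RC C)} (hD : F.IsBd D)
    {x : F.I → RC C} (hx : Dg F.deg 0 x) : Dg F.deg 1 (Dᴴ.mulVec x) ∧
      ∀ p ∈ A, ∀ q ∈ A, G.Adj p q →
        ef (F.ev (Dᴴ.mulVec x)) p q = sc (iv q (F.ev x)) - sc (iv p (F.ev x)) := by
  have h1 : Dg F.deg 1 (Dᴴ.mulVec x) :=
    dg_FrC (fun i j h1 h2 => by rw [(hD.isCx h).1 i j h1, h2]) hx
  refine ⟨h1, fun p hp q hq hpq => ?_⟩
  obtain ⟨y, y1, y2, y3⟩ := F.edge_FrC h hp hq hpq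
  obtain ⟨u, u1, u2⟩ := F.vx_dot_FrC h hp
  obtain ⟨w, w1, w2⟩ := F.vx_dot_FrC h hq
  have h2 : D.mulVec y = w - u := F.ev_injective h (by
    rw [hD.ev_mulVec (n := 0) y1, y2, ev_sub, u1, w1, bd_vx_mul, bd_vx, mul_one])
  rw [y3 _ h1, dot_FrC, h2, dotProduct_sub, ← u2, ← w2]
  simp

theorem capM (h : Act G A α) (h3 : Fin3 G A) {ζ : EA V} (hζ : TopC G A α ζ)
    {D Γ : Matrix F.I F.I (RC C)} (hD : F.IsBd D) (hΓ : F.IsCap (lc ζ) Γ) : CapM F.deg D Γ := by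
  have hη := eta0_lc h3.1 hζ.1
  have hcx := hD.isCx h
  have hd : ∀ i j, Γ i j ≠ 0 → F.deg i = 2 ∧ F.deg j = 1 := fun i j hij => by
    by_cases hj : F.deg j = 1
    · refine ⟨of_not_not fun hi => hij (IsCo.dg h hΓ (n := 2) ?_ i hi), hj⟩
      rw [if_pos hj]
      exact cap1_mem' hη (ef_fs G A _)
    · have h1 := hΓ j
      rw [if_neg hj, ← F.ev_zero] at h1
      exact absurd (congrFun (F.ev_injective h h1) i) hij
  refine ⟨hcx, F.deg_le h3, hd, exists_factor _ _ fun x hx => ?_, ?_⟩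
  · obtain ⟨y, hy⟩ : ∃ y : F.I → RC C, y = fun i => if F.deg i = 1 then x i else 0 := ⟨_, rfl⟩
    have y1 : Dg F.deg 1 y := fun i hi => by rw [hy]; exact if_neg hi
    have y2 : Γ.mulVec x = Γ.mulVec y := funext fun i => Finset.sum_congr rfl fun j _ => by
      by_cases hij : Γ i j = 0
      · simp [hij]
      · simp [hy, (hd i j hij).2]
    have y3 : Dᴴ.mulVec y = 0 := funext fun j => by
      by_cases hj : F.deg j = 2
      · refine Eq.trans (Finset.sum_congr rfl fun i _ => ?_) (congrFun hx j)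
        by_cases hij : D i j = 0
        · simp [hij]
        · have := hcx.1 i j hij
          simp [hy, show F.deg i = 1 by omega]
      · exact dg_FrC (fun i j h1 h2 => by rw [hcx.1 i j h1, h2]) y1 j hj
    have y4 := hΓ.ev_mulVec h hζ.2 y
    refine F.ev_injective h ?_
    rw [← mulVec_mulVec, y2, hD.ev_mulVec (n := 1) (F.coord_of_mem h subset_rfl
      (y4 ▸ cap1_mem' hη (ef_fs G A _))).1, y4,
      bd_cap1 hη (ef_fs G A _) ((hD.coc_iff h y1).1 y3), ev_zero]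
  · have key : ∀ j, ∃ y : F.I → RC C, (∀ i, y i ≠ 0 → F.deg i = 3 ∧ F.deg j = 0) ∧
        ∀ i, (Γ * Dᴴ) i j = D.mulVec y i := fun j => by
      by_cases hj : F.deg j = 0
      · have hf : {p | p ∈ A ∧ - sc (iv p (wedge (F.s j))) ≠ 0}.Finite :=
          h3.1.subset fun _ hp => hp.1
        obtain ⟨y, y1, -, y2⟩ := F.exists_ev h subset_rfl
          (Submodule.smul_mem _ (3 : ℚ) (cap0_mem' hη hf))
        refine ⟨y, fun i hi => ⟨of_not_not fun h1 => hi (y1 i h1), hj⟩, congrFun ?_⟩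
        have h1 := (hD.ef_conj h (hj ▸ dg_single_FrC F.deg j)).2
        rw [ev_one_FrC] at h1
        refine Eq.trans (b := Γ.mulVec (Dᴴ.mulVec (Pi.single j 1))) ?_ (F.ev_injective h ?_)
        · rw [mulVec_mulVec, mulVec_single_one]
          rfl
        · rw [hΓ.ev_mulVec h hζ.2, hD.ev_mulVec (n := 2) y1, y2, map_smul, ← cap1_cob hη hf]
          exact cap1_congr hη fun p hp q hq hpq => by rw [h1 p hp q hq hpq]; ring
      · refine ⟨0, fun i hi => absurd rfl hi, fun i => ?_⟩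
        rw [mulVec_zero]
        refine Finset.sum_eq_zero fun k _ => ?_
        change Γ i k * star (D j k) = 0
        by_cases h1 : Γ i k = 0
        · rw [h1, zero_mul]
        · have h2 := (hd i k h1).2
          rw [show D j k = 0 from of_not_not fun h3 => hj (by have := hcx.1 j k h3; omega),
            star_zero, mul_zero]
    choose y y1 y2 using key
    exact ⟨Matrix.of fun i j => y j i, fun i j => y1 j i, Matrix.ext fun i j => y2 j i⟩

theorem IsCo.ev_FrC {f : V' → V} (he : Eqv A' α' α f) {Φ : Matrix F.I F'.I (RC C)}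
    (hΦ : F.IsCo Φ fun i => emap f (wedge (F'.s i))) (y : F'.I → RC C) :
    F.ev (Φ.mulVec y) = emap f (F'.ev y) := by
  rw [hΦ.ev_mulVec, ev, emap_sum_act he fun i => ⟨_, F'.wedge_mem i⟩]

theorem IsCo.dg_FrC (h : Act G A α) {f : V' → V} (hf : IsHom G' A' G A f)
    {Φ : Matrix F.I F'.I (RC C)} (hΦ : F.IsCo Φ fun i => emap f (wedge (F'.s i))) {n : ℕ}
    {x : F.I → RC C} (hx : Dg F.deg n x) : Dg F'.deg n (Φᴴ.mulVec x) :=
  MP_6374aa_gt.dg_FrC (fun i j h1 h2 => h2 ▸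
    (of_not_not fun h3 => h1 (hΦ.dg h (emap_mem_Ch hf (F'.wedge_mem j)) i h3)).symm) hx

theorem IsCo.pull (h : Act G A α) (h' : Act G' A' α') {f : V' → V} (hf : IsHom G' A' G A f)
    (he : Eqv A' α' α f) {Φ : Matrix F.I F'.I (RC C)}
    (hΦ : F.IsCo Φ fun i => emap f (wedge (F'.s i))) {x : F.I → RC C} (hx : Dg F.deg 1 x) :
    Dg F'.deg 1 (Φᴴ.mulVec x) ∧ ∀ p ∈ A', ∀ q ∈ A', G'.Adj p q →
      ef (F'.ev (Φᴴ.mulVec x)) p q = ef (F.ev x) (f p) (f q) := by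
  refine ⟨hΦ.dg_FrC h hf hx, fun p hp q hq hpq => ?_⟩
  obtain ⟨y, -, y2, y3⟩ := F'.edge_FrC h' hp hq hpq
  rw [y3 _ (hΦ.dg_FrC h hf hx), dot_FrC, F.star_dot h hx, prR_one_FrC, hΦ.ev_FrC he, y2, emap_mul,
    emap_vx, emap_vx, evE_ef_vx]

/-- Naturality of the cap product matrix. -/
theorem cap_nat (h : Act G A α) (h' : Act G' A' α') (hA : A'.Finite) {f : V' → V}
    (hf : IsHom G' A' G A f) (he : Eqv A' α' α f) {Φ : Matrix F.I F'.I (RC C)}
    (hΦ : F.IsCo Φ fun i => emap f (wedge (F'.s i))) {ζ : EA V'} (hζ : TopC G' A' α' ζ)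
    {Γ' : Matrix F'.I F'.I (RC C)} (hΓ' : F'.IsCap (lc ζ) Γ') {Γ : Matrix F.I F.I (RC C)}
    (hΓ : F.IsCap (lc (emap f ζ)) Γ) : Φ * Γ' * Φᴴ = Γ := by
  refine IsCap.unique h (fun j => ?_) hΓ
  have e : (fun i => (Φ * Γ' * Φᴴ) i j) = Φ.mulVec (Γ'.mulVec (Φᴴ.mulVec (Pi.single j 1))) := by
    rw [mulVec_mulVec, mulVec_mulVec, mulVec_single_one]
    rfl
  rw [e, hΦ.ev_FrC he, hΓ'.ev_mulVec h' hζ.2]
  split_ifs with hj
  · rw [cap1_congr (eta0_lc hA hζ.1) (hΦ.pull h h' hf he (hj ▸ dg_single_FrC F.deg j)).2,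
      emap_cap1, ev_one_FrC]
  · rw [cap1_ef_of_ne _ (ev_mem_FrC h' (hΦ.dg_FrC h hf (dg_single_FrC F.deg j))) (by omega),
      map_zero]

end Frame

end Pool.Agent.MP_6374aa_gt
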