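import Pool.Agent.MP_6374aa_gt.CapB
import Pool.Agent.MP_6374aa_gt.InPA

/-! Coefficients of simplices and the action of arbitrary abelian group rings. -/

namespace Pool.Agent.MP_6374aa_gt

open Classical Matrix

variable {V V' : Type} {G : SimpleGraph V} {A S : Set V} {C : Type} [CommGroup C]
  {α : C →* Equiv.Perm V}

theorem hd_mem (v0 : V) {σ : Finset V} (h : σ.Nonempty) : hd v0 σ ∈ σ := by
  unfold hd
  rw [dif_pos h]
  exact h.choose_spec

/-- Iterated contraction as a linear map. -/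
noncomputable def cfL_FrG : List V → EA V →ₗ[ℚ] EA V
  | [] => LinearMap.id
  | u :: l => cfL_FrG l ∘ₗ iv u

theorem foldl_FrG (l : List V) (z : EA V) : l.foldl (fun w u => iv u w) z = cfL_FrG l z := by
  induction l generalizing z with
  | nil => rfl
  | cons u l ih => exact ih _

theorem cf_eq_FrG (σ : Finset V) (z : EA V) : cf σ z = (sc ∘ₗ cfL_FrG σ.toList) z := by
  rw [cf, foldl_FrG]
  rfl

theorem self_FrG {l : List V} (h : l.Nodup) : sc (cfL_FrG l (wedge l)) = 1 := by
  induction l with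
  | nil => exact sc_one
  | cons u l ih =>
    rw [List.nodup_cons] at h
    show sc (cfL_FrG l (iv u (wedge (u :: l)))) = 1
    rw [wedge_cons, iv_vx_mul_self, iv_wedge_ChA2 l h.1, mul_zero, sub_zero, ih h.2]

theorem ne_FrG (m : List V) : ∀ l : List V, l.toFinset ≠ m.toFinset →
    sc (cfL_FrG m (wedge l)) = 0 := by
  induction m with
  | nil =>
    intro l hl
    cases l with
    | nil => exact absurd rfl hl
    | cons a l => rw [wedge_cons]; exact sc_vx_mul _ _
  | cons u m ih =>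
    intro l hl
    show sc (cfL_FrG m (iv u (wedge l))) = 0
    by_cases hn : l.Nodup
    · by_cases hu : u ∈ l
      · have h1 : (l.erase u).toFinset ≠ m.toFinset := by
          intro e
          apply hl
          rw [List.toFinset_cons, ← e, ← List.toFinset_cons]
          exact List.toFinset_eq_of_perm _ _ (List.perm_cons_erase hu)
        rcases iv_wedge_mem_ChA2 hn hu with h2 | h2
        · rw [h2.2, ih _ h1]
        · rw [h2.2, map_neg, map_neg, ih _ h1, neg_zero]
      · rw [iv_wedge_ChA2 l hu, map_zero, map_zero]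
    · rw [wedge_eq_zero_of_not_nodup hn, map_zero, map_zero, map_zero]

theorem vx_FrG {p : V} (m : List V) (h : p ∉ m) : ∀ y : EA V, sc (cfL_FrG m (vx p * y)) = 0 := by
  induction m with
  | nil => exact sc_vx_mul p
  | cons u m ih =>
    intro y
    rw [List.mem_cons, not_or] at h
    show sc (cfL_FrG m (iv u (vx p * y))) = 0
    rw [iv_vx_mul_ne h.1, map_neg, map_neg, ih h.2, neg_zero]

theorem cf_add (σ : Finset V) (x y : EA V) : cf σ (x + y) = cf σ x + cf σ y := by
  simp only [cf_eq_FrG, map_add]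

theorem cf_sub (σ : Finset V) (x y : EA V) : cf σ (x - y) = cf σ x - cf σ y := by
  simp only [cf_eq_FrG, map_sub]

theorem cf_neg (σ : Finset V) (x : EA V) : cf σ (-x) = - cf σ x := by
  simp only [cf_eq_FrG, map_neg]

theorem cf_smul (σ : Finset V) (r : ℚ) (x : EA V) : cf σ (r • x) = r * cf σ x := by
  simp only [cf_eq_FrG, map_smul, smul_eq_mul]

theorem cf_zero (σ : Finset V) : cf σ (0 : EA V) = 0 := by
  simp only [cf_eq_FrG, map_zero]

theorem cf_sum {ι : Type} (σ : Finset V) (s : Finset ι) (x : ι → EA V) :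
    cf σ (∑ i ∈ s, x i) = ∑ i ∈ s, cf σ (x i) := by
  simp only [cf_eq_FrG, map_sum]

theorem cf_wedge_self (σ : Finset V) : cf σ (wedge σ.toList) = 1 := by
  rw [cf_eq_FrG]
  exact self_FrG σ.nodup_toList

theorem cf_wedge_ne {σ : Finset V} {l : List V} (h : l.toFinset ≠ σ) : cf σ (wedge l) = 0 := by
  rw [cf_eq_FrG]
  exact ne_FrG _ l (by rwa [Finset.toList_toFinset])

theorem cf_ne_zero {σ : Finset V} {n : ℕ} {z : EA V} (hz : z ∈ Ch G S n) (h : cf σ z ≠ 0) :
    σ.card = n ∧ ↑σ ⊆ S ∧ G.IsClique (σ : Set V) := by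
  by_contra hc
  refine h (Ch_induction (p := fun z => cf σ z = 0) (cf_zero σ) ?_ ?_ ?_ hz)
  · intro x y _ _ hx hy
    rw [cf_add, hx, hy, add_zero]
  · intro r x _ hx
    rw [cf_smul, hx, mul_zero]
  · intro l h1 h2 h3
    refine cf_wedge_ne fun e => hc ?_
    subst e
    exact ⟨(List.toFinset_card_of_nodup h2).trans h1, isCl_toFinset h3⟩

theorem cf_emap {f : V → V'} (hf : Function.Injective f) (σ : Finset V) (z : EA V) :
    sc ((σ.toList.map f).foldl (fun w u => iv u w) (emap f z)) = cf σ z := by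
  unfold cf
  generalize σ.toList = l
  induction l generalizing z with
  | nil => exact sc_emap f z
  | cons u l ih =>
    rw [List.map_cons, List.foldl_cons, List.foldl_cons, iv_emap hf]
    exact ih _

theorem cf_toList_FrG (τ σ : Finset V) : cf τ (wedge σ.toList) = if σ = τ then 1 else 0 := by
  split_ifs with e
  · rw [e, cf_wedge_self]
  · exact cf_wedge_ne (by rwa [Finset.toList_toFinset])

theorem rep_FrG {n : ℕ} {z : EA V} (hz : z ∈ Ch G S n) :
    ∃ t : Finset (Finset V), z = ∑ τ ∈ t, cf τ z • wedge τ.toList := by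
  rw [span_ChB2] at hz
  obtain ⟨c, hc⟩ := Finsupp.mem_span_range_iff_exists_finsupp.1 hz
  refine ⟨c.support.map (Function.Embedding.subtype _), ?_⟩
  rw [Finset.sum_map]
  refine hc.symm.trans (Finset.sum_congr rfl fun s hs => ?_)
  have : cf s.1 z = c s := by
    rw [← hc, Finsupp.sum, cf_sum, Finset.sum_eq_single_of_mem s hs]
    · rw [cf_smul, cf_wedge_self, mul_one]
    · intro b _ hb
      rw [cf_smul, cf_toList_FrG, if_neg fun e => hb (Subtype.ext e), mul_zero]
  show c s • wedge s.1.toList = cf s.1 z • wedge s.1.toList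
  rw [this]

theorem zero_FrG {n : ℕ} {z : EA V} (hz : z ∈ Ch G S n) (h : ∀ τ, cf τ z = 0) : z = 0 := by
  obtain ⟨t, ht⟩ := rep_FrG hz
  rw [ht]
  exact Finset.sum_eq_zero fun τ _ => by rw [h, zero_smul]

theorem term_FrG {T : Set V} {n : ℕ} {z : EA V} (hz : z ∈ Ch G S n) {τ : Finset V}
    (h : cf τ z ≠ 0 → ↑τ ⊆ T) : cf τ z • wedge τ.toList ∈ Ch G T n := by
  by_cases e : cf τ z = 0
  · rw [e, zero_smul]
    exact Submodule.zero_mem _
  · obtain ⟨h1, -, h3⟩ := cf_ne_zero hz e
    have := wedge_mem_Ch (isCl_toList (h e) h3)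
    rw [Finset.length_toList, h1] at this
    exact Submodule.smul_mem _ _ this

/-- A chain is the sum of its simplices. -/
theorem eq_sum_cf {I : Type} [Fintype I] {σ : I → Finset V} (hσ : Function.Injective σ) {n : ℕ}
    {z : EA V} (hz : z ∈ Ch G S n) (h : ∀ τ, cf τ z ≠ 0 → τ ∈ Set.range σ) :
    z = ∑ i, cf (σ i) z • wedge (σ i).toList := by
  refine sub_eq_zero.1 (zero_FrG (sub_mem hz (Submodule.sum_mem _ fun i _ =>
    term_FrG hz fun e => (cf_ne_zero hz e).2.1)) fun τ => ?_)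
  rw [cf_sub, cf_sum, sub_eq_zero]
  by_cases e : τ ∈ Set.range σ
  · obtain ⟨i, rfl⟩ := e
    rw [Finset.sum_eq_single_of_mem i (Finset.mem_univ i)]
    · rw [cf_smul, cf_wedge_self, mul_one]
    · intro b _ hb
      rw [cf_smul, cf_toList_FrG, if_neg fun e => hb (hσ e), mul_zero]
  · rw [not_not.1 fun e' => e (h τ e')]
    refine (Finset.sum_eq_zero fun i _ => ?_).symm
    rw [cf_smul, cf_toList_FrG, if_neg fun e' => e ⟨i, e'⟩, mul_zero]

theorem eq_zero_of_cf {n : ℕ} {z : EA V} (hz : z ∈ Ch G S n) (h : ∀ τ, cf τ z = 0) : z = 0 :=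
  zero_FrG hz h

theorem mem_Ch_of_cf {T : Set V} {n : ℕ} {z : EA V} (hz : z ∈ Ch G S n)
    (h : ∀ τ, cf τ z ≠ 0 → ↑τ ⊆ T) : z ∈ Ch G T n := by
  obtain ⟨t, ht⟩ := rep_FrG hz
  rw [ht]
  exact Submodule.sum_mem _ fun τ _ => term_FrG hz (h τ)

theorem wedge_toList_mem {σ : Finset V} (h : σ ∈ sdA G S) : wedge σ.toList ∈ Ch G S σ.card := by
  have := wedge_mem_Ch (isCl_toList h.2.1 h.2.2)
  rwa [Finset.length_toList] at this

theorem top_FrG (σ : Finset V) : wedge σ.toList ∈ Ch ⊤ (σ : Set V) σ.card := by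
  have := wedge_mem_Ch (isCl_toList (G := ⊤) (s := σ) subset_rfl fun _ _ _ _ h => h)
  rwa [Finset.length_toList] at this

theorem bD_ne {τ σ : Finset V} (h : bD τ σ ≠ 0) : τ ⊆ σ ∧ σ.card = τ.card + 1 := by
  have h1 := top_FrG σ
  unfold bD at h
  cases e : σ.card with
  | zero =>
    rw [e] at h1
    rw [bd_eq_zero_of_Ch_zero h1, cf_zero] at h
    exact absurd rfl h
  | succ n =>
    rw [e] at h1
    obtain ⟨h2, h3, -⟩ := cf_ne_zero (bd_mem_Ch h1) h
    exact ⟨Finset.coe_subset.1 h3, by rw [h2]⟩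

theorem edge_FrG {p q : V} (hp : p ∈ A) (hq : q ∈ A) (hpq : G.Adj p q) {y : EA V}
    (hy : y ∈ Ch G (Lk G A {p, q}) 2) {τ σ : Finset V} (hσ : ∀ x, x ∈ σ ↔ x = p ∨ x = q)
    (h : cf τ (vx p * y) ≠ 0) : τ.card = 3 ∧ τ ∪ σ ∈ sdA G A ∧ (τ ∪ σ).card = 4 := by
  have h1 : vx p * y ∈ Ch G (insert p (Lk G A {p, q})) 3 :=
    vx_mul_mem_Ch (Set.mem_insert _ _) (Set.subset_insert _ _)
      (fun t ht => Or.inr (ht.2 p (Set.mem_insert _ _))) hy
  obtain ⟨h2, h3, h4⟩ := cf_ne_zero h1 h
  have h5 : p ∈ τ := by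
    by_contra e
    exact h ((cf_eq_FrG _ _).trans (vx_FrG _ (fun e' => e (Finset.mem_toList.1 e')) y))
  have h6 : ∀ x ∈ τ, x ∈ A ∧ G.Adj q x := by
    intro x hx
    rcases h3 hx with e | e
    · rw [e]
      exact ⟨hp, hpq.symm⟩
    · exact ⟨e.1, e.2 q (Set.mem_insert_of_mem _ rfl)⟩
  have h7 : q ∉ τ := fun e => G.irrefl (h6 q e).2
  have h8 : τ ∪ σ = insert q τ := by
    ext x
    rw [Finset.mem_union, hσ, Finset.mem_insert]
    constructor
    · rintro (e | e | e)
      · exact Or.inr e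
      · exact Or.inr (e ▸ h5)
      · exact Or.inl e
    · rintro (e | e)
      · exact Or.inr (Or.inr e)
      · exact Or.inl e
  rw [h8]
  refine ⟨h2, ⟨Finset.insert_nonempty _ _, ?_, ?_⟩, by rw [Finset.card_insert_of_notMem h7, h2]⟩
  · rw [Finset.coe_insert]
    exact Set.insert_subset hq fun x hx => (h6 x hx).1
  · rw [Finset.coe_insert]
    exact h4.insert fun x hx _ => (h6 x hx).2

theorem bG_ne {η : V → EA V} (hη : Eta0 G A η) {τ σ : Finset V} (h : bG η τ σ ≠ 0) :
    τ.card = 3 ∧ σ.card = 2 ∧ τ ∪ σ ∈ sdA G A ∧ (τ ∪ σ).card = 4 := by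
  unfold bG at h
  have h2 : σ.card = 2 := by
    by_contra e
    rw [cap1_ef_of_ne η (top_FrG σ) e, cf_zero] at h
    exact h rfl
  obtain ⟨p, q, e⟩ := List.length_eq_two.1 (σ.length_toList.trans h2)
  have hne : p ≠ q := by
    have := σ.nodup_toList
    rw [e] at this
    simpa using this
  have hσ : ∀ x, x ∈ σ ↔ x = p ∨ x = q := fun x => by
    rw [← Finset.mem_toList, e]
    simp
  rw [e, wedge_cons, wedge_cons, wedge_nil, mul_one, cap1_ef_edge hη hne] at h
  have hy : iv q (η p) ≠ 0 := fun e' => h (by rw [e', mul_zero, cf_zero])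
  obtain ⟨hp, hq, hpq⟩ := hη.ne hy
  have hm := (mem_Zy.1 (hη.edge_mem p q)).1
  rw [add_mul, cf_add] at h
  by_cases e1 : cf τ (vx p * iv q (η p)) = 0
  · rw [e1, zero_add] at h
    rw [Set.pair_comm] at hm
    obtain ⟨a, b, c⟩ := edge_FrG hq hp hpq.symm hm (fun x => (hσ x).trans or_comm) h
    exact ⟨a, h2, b, c⟩
  · obtain ⟨a, b, c⟩ := edge_FrG hp hq hpq hm hσ e1
    exact ⟨a, h2, b, c⟩

theorem bG_congr {η η' : V → EA V} {σ : Finset V}
    (h : ∀ p ∈ σ, ∀ q ∈ σ, iv q (η p) = iv q (η' p)) (τ : Finset V) : bG η τ σ = bG η' τ σ := by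
  unfold bG
  rw [cap1_congr_eta]
  intro p q hpq
  by_cases e : σ.card = 2
  · have h1 := top_FrG σ
    rw [e] at h1
    obtain ⟨a, b, -⟩ := ef_ne_zero h1 hpq
    exact h p a q b
  · exact absurd (ef_eq_zero_of_ne (top_FrG σ) e p q) hpq

theorem bG_smul (η : V → EA V) (r : ℚ) (τ σ : Finset V) :
    bG (fun p => r • η p) τ σ = r * bG η τ σ := by
  unfold bG
  rw [cap1_smul_eta, cf_smul]

theorem exists_enum {X : Set (Finset V)} (h : X.Finite) :
    ∃ (I : Type) (_ : Fintype I) (_ : DecidableEq I) (σ : I → Finset V), Enum σ X :=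
  ⟨X, h.fintype, inferInstance, Subtype.val, Subtype.val_injective, Subtype.range_coe⟩

theorem sdA_finite (G : SimpleGraph V) (hA : A.Finite) : (sdA G A).Finite :=
  hA.toFinset.powerset.finite_toSet.subset fun _ hs => by simpa using hs.2.1

theorem Enum.sum {I J : Type} {σ : I → Finset V} {τ : J → Finset V} {X Y : Set (Finset V)}
    (hσ : Enum σ X) (hτ : Enum τ Y) (h : Disjoint X Y) : Enum (Sum.elim σ τ) (X ∪ Y) := by
  refine ⟨hσ.1.sumElim hτ.1 fun a b e => ?_, by rw [Set.Sum.elim_range, hσ.2, hτ.2]⟩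
  exact Set.disjoint_left.1 h (hσ.2 ▸ Set.mem_range_self a) (e ▸ hτ.2 ▸ Set.mem_range_self b)

theorem tw_map {C' I J : Type} [CommGroup C'] (π : C →* C') (v0 : V) (lab : V → V → C)
    (N : Finset V → Finset V → ℚ) (σ : I → Finset V) (τ : J → Finset V) :
    (tw v0 lab N σ τ).map (MonoidAlgebra.mapDomainRingHom ℚ π) =
      tw v0 (fun a b => π (lab a b)) N σ τ := by
  refine Matrix.ext fun i j => ?_
  simp [tw]

theorem tw_congr {I J : Type} (v0 : V) {lab lab' : V → V → C} {N N' : Finset V → Finset V → ℚ}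
    {σ : I → Finset V} {τ : J → Finset V} (h1 : ∀ i j, N (σ i) (τ j) = N' (σ i) (τ j))
    (h2 : ∀ i j, N (σ i) (τ j) ≠ 0 →
      lab (hd v0 (τ j)) (hd v0 (σ i)) = lab' (hd v0 (τ j)) (hd v0 (σ i))) :
    tw v0 lab N σ τ = tw v0 lab' N' σ τ := by
  refine Matrix.ext fun i j => ?_
  simp only [tw, Matrix.of_apply]
  rw [← h1]
  by_cases e : N (σ i) (τ j) = 0
  · rw [e, MonoidAlgebra.single_zero, MonoidAlgebra.single_zero]
  · rw [h2 i j e]

theorem actG_eq_act [Fintype C] (r : RC C) (z : EA V) : actG α r z = act α r z :=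
  Finsupp.sum_fintype _ _ fun _ => zero_smul _ _

theorem actG_single (g : C) (r : ℚ) (z : EA V) :
    actG α (MonoidAlgebra.single g r) z = r • emap (α g) z := by
  unfold actG
  rw [MonoidAlgebra.coeff_single]
  exact Finsupp.sum_single_index (zero_smul _ _)

theorem actG_one (z : EA V) : actG α 1 z = z := by
  rw [MonoidAlgebra.one_def, actG_single, map_one, one_smul, Equiv.Perm.coe_one, emap_id]

theorem actG_zero (z : EA V) : actG α 0 z = 0 := by
  unfold actG
  rw [MonoidAlgebra.coeff_zero, Finsupp.sum_zero_index]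

theorem actG_add (r s : RC C) (z : EA V) : actG α (r + s) z = actG α r z + actG α s z := by
  unfold actG
  rw [MonoidAlgebra.coeff_add]
  exact Finsupp.sum_add_index' (fun _ => zero_smul _ _) fun _ _ _ => add_smul _ _ _

/-- The action as an additive map of the ring element. -/
noncomputable def actH_FrG (α : C →* Equiv.Perm V) (z : EA V) : RC C →+ EA V :=
  AddMonoidHom.mk' (fun r => actG α r z) fun r s => actG_add r s z

/-- The action as a linear map of the chain. -/
noncomputable def actL_FrG (α : C →* Equiv.Perm V) (r : RC C) : EA V →ₗ[ℚ] EA V :=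
  ∑ g ∈ r.coeff.support, r.coeff g • emap (α g)

theorem actL_eq_FrG (r : RC C) (z : EA V) : actG α r z = actL_FrG α r z := by
  simp only [actG, actL_FrG, Finsupp.sum, LinearMap.sum_apply, LinearMap.smul_apply]

theorem actG_neg (r : RC C) (z : EA V) : actG α (-r) z = - actG α r z :=
  map_neg (actH_FrG α z) r

theorem actG_sub (r s : RC C) (z : EA V) : actG α (r - s) z = actG α r z - actG α s z :=
  map_sub (actH_FrG α z) r s

theorem actG_sum {ι : Type} (t : Finset ι) (r : ι → RC C) (z : EA V) :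
    actG α (∑ i ∈ t, r i) z = ∑ i ∈ t, actG α (r i) z :=
  map_sum (actH_FrG α z) r t

theorem actG_mul (r s : RC C) (z : EA V) : actG α (r * s) z = actG α r (actG α s z) := by
  induction r using MonoidAlgebra.induction_linear with
  | zero => rw [zero_mul, actG_zero, actG_zero]
  | add x y hx hy => rw [add_mul, actG_add, actG_add, hx, hy]
  | single g a =>
    induction s using MonoidAlgebra.induction_linear with
    | zero => rw [mul_zero, actG_zero, actG_single, map_zero, smul_zero]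
    | add x y hx hy =>
      rw [mul_add, actG_add, actG_add, hx, hy]
      simp only [actG_single, map_add, smul_add]
    | single k b =>
      rw [MonoidAlgebra.single_mul_single, actG_single, actG_single, actG_single, map_smul,
        emap_comp, map_mul, Equiv.Perm.coe_mul, mul_smul]

theorem actG_add_right (r : RC C) (z w : EA V) : actG α r (z + w) = actG α r z + actG α r w := by
  simp only [actL_eq_FrG, map_add]

theorem actG_sub_right (r : RC C) (z w : EA V) : actG α r (z - w) = actG α r z - actG α r w := by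
  simp only [actL_eq_FrG, map_sub]

theorem actG_smul_right (r : RC C) (c : ℚ) (z : EA V) : actG α r (c • z) = c • actG α r z := by
  simp only [actL_eq_FrG, map_smul]

theorem actG_zero_right (r : RC C) : actG α r (0 : EA V) = 0 := by
  simp only [actL_eq_FrG, map_zero]

theorem actG_sum_right {ι : Type} (t : Finset ι) (r : RC C) (z : ι → EA V) :
    actG α r (∑ i ∈ t, z i) = ∑ i ∈ t, actG α r (z i) := by
  simp only [actL_eq_FrG, map_sum]

theorem bd_actG (r : RC C) (z : EA V) : bd (actG α r z) = actG α r (bd z) := by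
  simp only [actG, Finsupp.sum, map_sum, map_smul, emap_bd]

theorem actG_mem (N : Submodule ℚ (EA V)) {r : RC C} {z : EA V}
    (h : ∀ g, r.coeff g ≠ 0 → emap (α g) z ∈ N) : actG α r z ∈ N :=
  Submodule.sum_mem _ fun g hg => Submodule.smul_mem _ _ (h g (Finsupp.mem_support_iff.1 hg))

theorem cap1_ef_actG {η : V → EA V} (hη : ∀ g p, η (α g p) = emap (α g) (η p)) (r : RC C)
    (x : EA V) : cap1 η (ef (actG α r x)) = actG α r (cap1 η (ef x)) := by
  simp only [actG, Finsupp.sum, cap1_ef_sum, cap1_ef_smul]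
  exact Finset.sum_congr rfl fun g _ => by rw [cap1_ef_perm (α g) (hη g)]

theorem dk_hom (G : SimpleGraph V) (S : Set V) (lab : V → V → C) (g : C) :
    IsHom (cov G lab C) (up S C) (cov G lab C) (up S C) (dk V C g) := by
  refine ⟨fun a ha => ha, fun a _ b _ h => Or.inr ⟨h.1, ?_, ?_⟩⟩
  · show a.2 * g⁻¹ = lab a.1 b.1 * (b.2 * g⁻¹)
    rw [h.2.1, smul_eq_mul, mul_assoc]
  · show b.2 * g⁻¹ = lab b.1 a.1 * (a.2 * g⁻¹)
    rw [← mul_assoc, ← smul_eq_mul (lab b.1 a.1), ← h.2.2]

theorem actG_dk_Ch {lab : V → V → C} (r : RC C) {n : ℕ} {z : EA (V × C)}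
    (hz : z ∈ Ch (cov G lab C) (up S C) n) : actG (dk V C) r z ∈ Ch (cov G lab C) (up S C) n :=
  actG_mem _ fun g _ => emap_mem_Ch (dk_hom G S lab g) hz

theorem actG_dk_Bd {lab : V → V → C} (r : RC C) {n : ℕ} {z : EA (V × C)}
    (hz : z ∈ Bd (cov G lab C) (up S C) n) : actG (dk V C) r z ∈ Bd (cov G lab C) (up S C) n :=
  actG_mem _ fun g _ => emap_mem_Bd (dk_hom G S lab g) hz

end Pool.Agent.MP_6374aa_gt
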