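import Pool.Agent.MP_6374aa_gt.FrG
import Pool.Agent.MP_6374aa_gt.CapD

/-! Coordinates on regular abelian covers. -/

namespace Pool.Agent.MP_6374aa_gt

open Classical Matrix

variable {V : Type} {G : SimpleGraph V} {A S : Set V} {C : Type} [CommGroup C] {v0 : V}
  {lab : V → V → C} {I J : Type} [Fintype I] [Fintype J] {σ : I → Finset V} {τ : J → Finset V}

theorem evT_add (x y : I → RC C) : evT v0 lab σ (x + y) = evT v0 lab σ x + evT v0 lab σ y := by
  simp only [evT, Pi.add_apply, actG_add, Finset.sum_add_distrib]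

theorem evT_sub (x y : I → RC C) : evT v0 lab σ (x - y) = evT v0 lab σ x - evT v0 lab σ y := by
  simp only [evT, Pi.sub_apply, actG_sub, Finset.sum_sub_distrib]

theorem evT_neg (x : I → RC C) : evT v0 lab σ (-x) = - evT v0 lab σ x := by
  simp only [evT, Pi.neg_apply, actG_neg, Finset.sum_neg_distrib]

theorem evT_zero : evT v0 lab σ 0 = 0 := by
  simp only [evT, Pi.zero_apply, actG_zero, Finset.sum_const_zero]

theorem evT_smul (r : RC C) (x : I → RC C) :
    evT v0 lab σ (r • x) = actG (dk V C) r (evT v0 lab σ x) := by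
  simp only [evT, Pi.smul_apply, smul_eq_mul, actG_mul, actG_sum_right]

theorem evT_elim (x : I → RC C) (y : J → RC C) :
    evT v0 lab (Sum.elim σ τ) (Sum.elim x y) = evT v0 lab σ x + evT v0 lab τ y := by
  simp only [evT, Fintype.sum_sum_type, Sum.elim_inl, Sum.elim_inr]

theorem wedge_sl (v0 : V) (lab : V → V → C) (s : Finset V) :
    wedge (sl v0 lab s) = emap (fun u => (u, lab u (hd v0 s))) (wedge s.toList) :=
  (emap_wedge _ _).symm

/-! ### Translates of the chosen lifts -/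

/-- The coefficient of an ordered simplex. -/
noncomputable def cfl_FrH {U : Type} : List U → EA U →ₗ[ℚ] ℚ
  | [] => sc
  | a :: m => cfl_FrH m ∘ₗ iv a

theorem cfl_self_FrH {U : Type} {m : List U} (hm : m.Nodup) : cfl_FrH m (wedge m) = 1 := by
  induction m with
  | nil => exact sc_one
  | cons a m ih =>
    rw [List.nodup_cons] at hm
    simp [cfl_FrH, iv_vx_mul_self, iv_ChB2 hm.1, ih hm.2]

theorem cfl_ne_FrH {U : Type} {m l : List U} (hl' : ¬ ∀ x, x ∈ l ↔ x ∈ m) :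
    cfl_FrH m (wedge l) = 0 := by
  have hl : l.toFinset ≠ m.toFinset := fun e => hl' (List.toFinset.ext_iff.1 e)
  clear hl'
  induction m generalizing l with
  | nil =>
    cases l with
    | nil => exact absurd rfl hl
    | cons a l => exact sc_vx_mul _ _
  | cons a m ih =>
    by_cases h3 : l.Nodup
    swap
    · rw [wedge_eq_zero_of_not_nodup h3, map_zero]
    by_cases h4 : a ∈ l
    swap
    · rw [cfl_FrH, LinearMap.comp_apply, iv_ChB2 h4, map_zero]
    have h5 := ih (l := l.erase a) fun e => hl (by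
      rw [List.toFinset_eq_of_perm _ _ (List.perm_cons_erase h4), List.toFinset_cons, e,
        List.toFinset_cons])
    rcases wedge_perm (List.perm_cons_erase h4) with e | e <;>
      simp [cfl_FrH, e, iv_vx_mul_self, iv_ChB2 h3.not_mem_erase, h5]

/-- A translate of the chosen lift. -/
noncomputable def tl_FrH (v0 : V) (lab : V → V → C) (g : C) (s : Finset V) : List (V × C) :=
  s.toList.map fun u => (u, lab u (hd v0 s) * g⁻¹)

theorem map_sl_FrH (g : C) (s : Finset V) : (sl v0 lab s).map (dk V C g) = tl_FrH v0 lab g s := by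
  rw [sl, List.map_map]; rfl

theorem emap_sl_FrH (g : C) (s : Finset V) :
    emap (dk V C g) (wedge (sl v0 lab s)) = wedge (tl_FrH v0 lab g s) := by
  rw [emap_wedge, map_sl_FrH]

theorem tl_nodup_FrH (g : C) (s : Finset V) : (tl_FrH v0 lab g s).Nodup :=
  s.nodup_toList.map fun _ _ e => congrArg Prod.fst e

theorem mem_tl_FrH {g : C} {s : Finset V} {p : V × C} :
    p ∈ tl_FrH v0 lab g s ↔ p.1 ∈ s ∧ p.2 = lab p.1 (hd v0 s) * g⁻¹ := by
  simp only [tl_FrH, List.mem_map, Finset.mem_toList]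
  constructor
  · rintro ⟨u, hu, rfl⟩
    exact ⟨hu, rfl⟩
  · rintro ⟨h1, h2⟩
    exact ⟨p.1, h1, Prod.ext rfl h2.symm⟩

theorem mk_mem_tl_FrH {g : C} {s : Finset V} {u : V} (hu : u ∈ s) :
    (u, lab u (hd v0 s) * g⁻¹) ∈ tl_FrH v0 lab g s := mem_tl_FrH.2 ⟨hu, rfl⟩

theorem tl_length_FrH (g : C) (s : Finset V) : (tl_FrH v0 lab g s).length = s.card := by
  rw [tl_FrH, List.length_map, Finset.length_toList]

theorem tl_inj_FrH {g g' : C} {s t : Finset V} (hs : s.Nonempty)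
    (h : ∀ p, p ∈ tl_FrH v0 lab g s ↔ p ∈ tl_FrH v0 lab g' t) : s = t ∧ g = g' := by
  obtain rfl : s = t := Finset.ext fun u =>
    ⟨fun hu => (mem_tl_FrH.1 ((h _).1 (mk_mem_tl_FrH hu))).1,
      fun hu => (mem_tl_FrH.1 ((h _).2 (mk_mem_tl_FrH hu))).1⟩
  obtain ⟨u, hu⟩ := hs
  have := (mem_tl_FrH.1 ((h _).1 (mk_mem_tl_FrH hu))).2
  exact ⟨rfl, inv_injective (mul_left_cancel this)⟩

theorem coef_FrH (hσ : Function.Injective σ) (hn : ∀ i, (σ i).Nonempty) (x : I → RC C) (i : I)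
    (g : C) : cfl_FrH (tl_FrH v0 lab g (σ i)) (evT v0 lab σ x) = (x i).coeff g := by
  have key : ∀ (j : I) (r : RC C), cfl_FrH (tl_FrH v0 lab g (σ i))
      (actG (dk V C) r (wedge (sl v0 lab (σ j)))) = if j = i then r.coeff g else 0 := by
    intro j r
    induction r using MonoidAlgebra.induction_linear with
    | zero => simp [actG_zero]
    | add a b ha hb => rw [actG_add, map_add, ha, hb]; split_ifs <;> simp
    | single h c =>
      rw [actG_single, map_smul, emap_sl_FrH]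
      by_cases e : j = i ∧ h = g
      · obtain ⟨rfl, rfl⟩ := e
        simp [cfl_self_FrH (tl_nodup_FrH _ _)]
      · rw [cfl_ne_FrH fun e' => e ((tl_inj_FrH (hn j) e').imp_left fun e => hσ e), smul_zero]
        split_ifs with e1
        · rw [MonoidAlgebra.coeff_single, Finsupp.single_eq_of_ne' fun e2 => e ⟨e1, e2⟩]
        · rfl
  simp only [evT, map_sum, key, Finset.sum_ite_eq', Finset.mem_univ, if_true]

theorem isCl_sl_FrH (hl : Flat G A lab) {s : Finset V} (hs : s ∈ sdA G A) (hS : ↑s ⊆ S) :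
    IsCl (cov G lab C) (up S C) (sl v0 lab s) := by
  have h := hd_mem v0 hs.1
  have c := isCl_toList hs.2.1 hs.2.2
  have f : ∀ a ∈ s.toList, ∀ b ∈ s.toList, lab a (hd v0 s) = lab a b * lab b (hd v0 s) :=
    fun a ha b hb => (hl a (c.1 a ha) b (c.1 b hb) _ (hs.2.1 h) (c.2 a ha b hb)
      (c.2 b hb _ (Finset.mem_toList.2 h)) (c.2 a ha _ (Finset.mem_toList.2 h))).symm
  constructor
  · intro p hp
    obtain ⟨u, hu, rfl⟩ := List.mem_map.1 hp
    exact hS (Finset.mem_toList.1 hu)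
  · intro p hp q hq
    obtain ⟨u, hu, rfl⟩ := List.mem_map.1 hp
    obtain ⟨w, hw, rfl⟩ := List.mem_map.1 hq
    rcases c.2 u hu w hw with rfl | e
    · exact .inl rfl
    · exact .inr ⟨e, f u hu w hw, f w hw u hu⟩

theorem isCl_sl (hl : Flat G A lab) (hS : S ⊆ A) {s : Finset V} (hs : s ∈ sdA G S) :
    IsCl (cov G lab C) (up S C) (sl v0 lab s) :=
  isCl_sl_FrH hl ⟨hs.1, hs.2.1.trans hS, hs.2.2⟩ hs.2.1

theorem sl_mem_FrH (hl : Flat G A lab) {s : Finset V} (hs : s ∈ sdA G A) (hS : ↑s ⊆ S) :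
    wedge (sl v0 lab s) ∈ Ch (cov G lab C) (up S C) s.card := by
  have := wedge_mem_Ch (isCl_sl_FrH (v0 := v0) hl hs hS)
  rwa [sl, List.length_map, Finset.length_toList] at this

/-- Cliques of the cover are translates of the chosen lifts. -/
theorem clique_FrH (v0 : V) (hl : Flat G A lab) (hS : S ⊆ A) {l : List (V × C)} (h0 : l ≠ [])
    (hc : IsCl (cov G lab C) (up S C) l) :
    ∃ s ∈ sdA G S, ∃ g, ∀ p, p ∈ l ↔ p ∈ tl_FrH v0 lab g s := by
  have c : IsCl G S (l.map Prod.fst) := by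
    constructor
    · intro u hu
      obtain ⟨p, hp, rfl⟩ := List.mem_map.1 hu
      exact hc.1 p hp
    · intro u hu w hw
      obtain ⟨p, hp, rfl⟩ := List.mem_map.1 hu
      obtain ⟨q, hq, rfl⟩ := List.mem_map.1 hw
      exact (hc.2 p hp q hq).imp (congrArg Prod.fst) fun e => e.1
  have ne : (l.map Prod.fst).toFinset.Nonempty := by simpa using h0
  obtain ⟨q, hq, e⟩ := List.mem_map.1 (List.mem_toFinset.1 (hd_mem v0 ne))
  have f : ∀ p ∈ l, p.2 = lab p.1 q.1 * q.2 := fun p hp => by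
    rcases hc.2 p hp q hq with rfl | h
    · have a := hS (hc.1 p hp)
      rw [mul_eq_left.1 (hl _ a _ a _ a (.inl rfl) (.inl rfl) (.inl rfl)), one_mul]
    · exact h.2.1
  refine ⟨_, ⟨ne, isCl_toFinset c⟩, q.2⁻¹, fun p => ?_⟩
  rw [mem_tl_FrH, ← e, inv_inv, List.mem_toFinset]
  refine ⟨fun hp => ⟨List.mem_map_of_mem hp, f p hp⟩, fun ⟨h1, h2⟩ => ?_⟩
  obtain ⟨p', hp', e'⟩ := List.mem_map.1 h1
  rwa [show p = p' from Prod.ext e'.symm (by rw [h2, f p' hp', e'])]

theorem evT_single_FrH [DecidableEq I] (i : I) (r : RC C) :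
    evT v0 lab σ (Pi.single i r) = actG (dk V C) r (wedge (sl v0 lab (σ i))) := by
  rw [evT, Finset.sum_eq_single i (fun j _ hj => by rw [Pi.single_eq_of_ne hj, actG_zero])
    (by simp), Pi.single_eq_same]

theorem evT_mulVec_FrH (M : Matrix I J (RC C)) (μ : J → RC C) :
    evT v0 lab σ (M.mulVec μ) = ∑ j, actG (dk V C) (μ j) (evT v0 lab σ fun i => M i j) := by
  simp only [evT, Matrix.mulVec, dotProduct, actG_sum, actG_sum_right, ← actG_mul, mul_comm (μ _)]
  exact Finset.sum_comm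

theorem emap_evT_FrH (g : C) (x : I → RC C) :
    emap (dk V C g) (evT v0 lab σ x) =
      evT v0 lab σ ((MonoidAlgebra.single g (1 : ℚ) : RC C) • x) := by
  rw [evT_smul, actG_single, one_smul]

theorem evT_injective (hσ : Function.Injective σ) (hn : ∀ i, (σ i).Nonempty) {x : I → RC C}
    (h : evT v0 lab σ x = 0) : x = 0 := by
  funext i
  ext g
  rw [← coef_FrH (v0 := v0) (lab := lab) hσ hn, h, map_zero]
  rfl

theorem evT_mem (hl : Flat G A lab) (hσ : ∀ i, σ i ∈ sdA G A) {n : ℕ} {x : I → RC C}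
    (hx : ∀ i, x i ≠ 0 → (σ i).card = n ∧ ↑(σ i) ⊆ S) :
    evT v0 lab σ x ∈ Ch (cov G lab C) (up S C) n := by
  refine Submodule.sum_mem _ fun i _ => ?_
  by_cases h : x i = 0
  · rw [h, actG_zero]; exact Submodule.zero_mem _
  · exact actG_dk_Ch _ ((hx i h).1 ▸ sl_mem_FrH hl (hσ i) (hx i h).2)

theorem exists_evT (hl : Flat G A lab) (hS : S ⊆ A) {n : ℕ} (hn : n ≠ 0)
    (hall : ∀ s ∈ sdA G S, s.card = n → s ∈ Set.range σ) {z : EA (V × C)}
    (hz : z ∈ Ch (cov G lab C) (up S C) n) :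
    ∃ x : I → RC C, (∀ i, x i ≠ 0 → (σ i).card = n ∧ ↑(σ i) ⊆ S) ∧ evT v0 lab σ x = z := by
  refine Ch_induction (p := fun z => ∃ x : I → RC C,
    (∀ i, x i ≠ 0 → (σ i).card = n ∧ ↑(σ i) ⊆ S) ∧ evT v0 lab σ x = z)
    ⟨0, fun i h => absurd rfl h, evT_zero⟩ ?_ ?_ ?_ hz
  · rintro _ _ - - ⟨x, x1, rfl⟩ ⟨y, y1, rfl⟩
    refine ⟨x + y, fun i hi => ?_, evT_add x y⟩
    by_cases h : x i = 0
    · exact y1 i fun h' => hi (by simp [h, h'])
    · exact x1 i h
  · rintro r _ - ⟨x, x1, rfl⟩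
    refine ⟨(MonoidAlgebra.single 1 r : RC C) • x, fun i hi => x1 i fun h => hi (by simp [h]), ?_⟩
    rw [evT_smul, actG_single, map_one]
    exact congrArg _ (emap_id _)
  · intro l h1 h2 hc
    obtain ⟨s, hs, g, e⟩ := clique_FrH v0 hl hS (by rintro rfl; exact hn h1.symm) hc
    have hp := (List.perm_ext_iff_of_nodup h2 (tl_nodup_FrH g s)).2 e
    have hcard : s.card = n := by rw [← h1, hp.length_eq, tl_length_FrH]
    obtain ⟨i, rfl⟩ := hall s hs hcard
    obtain ⟨c, hc'⟩ : ∃ c : ℚ, wedge l = c • wedge (tl_FrH v0 lab g (σ i)) := by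
      rcases wedge_perm hp with h2 | h2
      · exact ⟨1, by rw [h2, one_smul]⟩
      · exact ⟨-1, by rw [h2, neg_one_smul]⟩
    refine ⟨Pi.single i (MonoidAlgebra.single g c), fun j hj => ?_, ?_⟩
    · obtain rfl : j = i := by
        by_contra h
        exact hj (Pi.single_eq_of_ne h _)
      exact ⟨hcard, hs.2.1⟩
    · rw [evT_single_FrH, actG_single, emap_sl_FrH, hc']

theorem coord_evT (hl : Flat G A lab) (hσ : Function.Injective σ) (hA : ∀ i, σ i ∈ sdA G A)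
    (hS : S ⊆ A) {n : ℕ} {x : I → RC C} (hx : evT v0 lab σ x ∈ Ch (cov G lab C) (up S C) n) :
    ∀ i, x i ≠ 0 → (σ i).card = n ∧ ↑(σ i) ⊆ S := by
  have _ := hl
  have _ := hS
  intro i hi
  by_contra hne
  refine hi ?_
  ext g
  rw [← coef_FrH (v0 := v0) (lab := lab) hσ fun j => (hA j).1]
  refine (Ch_le_of (N := LinearMap.ker (cfl_FrH (tl_FrH v0 lab g (σ i)))) ?_ hx : _)
  intro l h1 h2 hc
  refine cfl_ne_FrH fun e => hne ⟨?_, fun u hu => ?_⟩
  · rw [← h1, ((List.perm_ext_iff_of_nodup h2 (tl_nodup_FrH g _)).2 e).length_eq, tl_length_FrH]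
  · exact hc.1 _ ((e _).2 (mk_mem_tl_FrH hu))

/-- Lifts along sections in coordinates. -/
theorem lift_FrH (hσ : Function.Injective σ) {n : ℕ} {z : EA V} (hz : z ∈ Ch G S n)
    (h : ∀ s, cf s z ≠ 0 → s ∈ Set.range σ) (k : V → C) (c : I → C)
    (hk : ∀ i, cf (σ i) z ≠ 0 → ∀ u ∈ σ i, lab u (hd v0 (σ i)) = k u * c i) :
    evT v0 lab σ (fun i => MonoidAlgebra.single (c i) (cf (σ i) z)) =
      emap (fun u => (u, k u)) z := by
  conv_rhs => rw [eq_sum_cf hσ hz h, map_sum]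
  refine Finset.sum_congr rfl fun i _ => ?_
  rw [actG_single, map_smul, emap_sl_FrH, emap_wedge]
  by_cases e : cf (σ i) z = 0
  · rw [e, zero_smul, zero_smul]
  · rw [tl_FrH, List.map_congr_left fun u hu => by
      rw [hk i e u (Finset.mem_toList.1 hu), mul_inv_cancel_right]]

theorem flat_FrH (hl : Flat G A lab) {s : Finset V} (hs : s ∈ sdA G A) {a b c : V} (ha : a ∈ s)
    (hb : b ∈ s) (hc : c ∈ s) : lab a c = lab a b * lab b c := by
  have d := (isCl_toList hs.2.1 hs.2.2).2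
  simp only [Finset.mem_toList] at d
  exact (hl a (hs.2.1 ha) b (hs.2.1 hb) c (hs.2.1 hc) (d a ha b hb) (d b hb c hc)
    (d a ha c hc)).symm

omit [Fintype I] in
theorem Enum.mem_FrH {X : Set (Finset V)} (hσ : Enum σ X) (i : I) : σ i ∈ X :=
  hσ.2 ▸ Set.mem_range_self i

omit [Fintype I] [Fintype J] in
theorem tw_ne_FrH {N : Finset V → Finset V → ℚ} {i : I} {j : J} (h : tw v0 lab N σ τ i j ≠ 0) :
    N (σ i) (τ j) ≠ 0 := MonoidAlgebra.single_ne_zero.1 h

omit [Fintype J] in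
theorem col_bd_FrH (hl : Flat G A lab) (hσ : Enum σ (sdA G A)) {j : J} (hτ : τ j ∈ sdA G A)
    (h2 : 2 ≤ (τ j).card) :
    evT v0 lab σ (fun i => tw v0 lab bD σ τ i j) = bd (wedge (sl v0 lab (τ j))) := by
  obtain ⟨n, hn⟩ : ∃ n, (τ j).card = n + 1 := ⟨(τ j).card - 1, by omega⟩
  have hz := bd_mem_Ch (hn ▸ wedge_toList_mem hτ)
  rw [wedge_sl, ← emap_bd]
  refine lift_FrH hσ.1 hz (fun s hs => ?_) _ _ fun i hi u hu => ?_
  · have := cf_ne_zero hz hs
    exact hσ.2 ▸ ⟨Finset.card_pos.1 (by omega), this.2⟩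
  · have := (bD_ne hi).1
    exact flat_FrH hl hτ (this hu) (hd_mem v0 hτ.1) (this (hd_mem v0 ⟨u, hu⟩))

omit [Fintype J] in
theorem col_cap_FrH (hl : Flat G A lab) {η : V → EA V} (hη : Eta0 G A η) (hσ : Enum σ (sdA G A))
    {j : J} (hτ : τ j ∈ sdA G A) : evT v0 lab σ (fun i => tw v0 lab (bG η) σ τ i j) =
      cap1 (etaL lab η) (ef (wedge (sl v0 lab (τ j)))) := by
  have hz := cap1_mem' hη (ef_fs G A (wedge (τ j).toList))
  have hh := hd_mem v0 hτ.1
  refine (lift_FrH hσ.1 hz (fun s hs => ?_) (fun u => lab u (hd v0 (τ j))) _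
    fun i hi u hu => ?_).trans ?_
  · have := cf_ne_zero hz hs
    exact hσ.2 ▸ ⟨Finset.card_pos.1 (by omega), this.2⟩
  · exact flat_FrH hl (bG_ne hη hi).2.2.1 (Finset.mem_union_left _ hu)
      (Finset.mem_union_right _ hh) (Finset.mem_union_left _ (hd_mem v0 ⟨u, hu⟩))
  by_cases h2 : (τ j).card = 2
  swap
  · rw [cap1_ef_of_ne _ (wedge_toList_mem hτ) h2, cap1_ef_of_ne _ (sl_mem_FrH hl hτ hτ.2.1) h2,
      map_zero]
  obtain ⟨p, q, e⟩ := List.length_eq_two.1 ((Finset.length_toList _).trans h2)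
  have m : ∀ u, u ∈ τ j ↔ u = p ∨ u = q := fun u => by rw [← Finset.mem_toList, e]; simp
  have hpq : p ≠ q := by simpa [e] using (τ j).nodup_toList
  have hp := (m p).2 (.inl rfl)
  have hq := (m q).2 (.inr rfl)
  simp only [sl, e, List.map_cons, List.map_nil, wedge_cons, wedge_nil, mul_one]
  rw [cap1_ef_edge hη hpq, cap1_ef_edge (hη.cov hl) fun e => hpq (congrArg Prod.fst e),
    iv_etaL hη hl, if_pos (flat_FrH hl hτ hq hp hh), emap_mul, map_add, emap_vx, emap_vx]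
  congr 1
  refine emap_congr (f := fun u => (u, lab u (hd v0 (τ j))))
    (g := fun u => (u, lab u p * lab p (hd v0 (τ j)))) (fun u hu => Prod.ext rfl ?_)
    (hη.edge_mem p q).1
  have a : ∀ w ∈ τ j, Adq G u w := fun w hw => .inr (hu.2 w ((m w).1 hw)).symm
  have d := (isCl_toList hτ.2.1 hτ.2.2).2
  exact (hl u hu.1 p (hτ.2.1 hp) _ (hτ.2.1 hh) (a p hp)
    (d p (Finset.mem_toList.2 hp) _ (Finset.mem_toList.2 hh)) (a _ hh)).symm

theorem evT_bd (hl : Flat G A lab) (hσ : Enum σ (sdA G A)) (hτ : ∀ j, τ j ∈ sdA G A)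
    {x : J → RC C} (hx : ∀ j, x j ≠ 0 → 2 ≤ (τ j).card) :
    evT v0 lab σ ((tw v0 lab bD σ τ).mulVec x) = bd (evT v0 lab τ x) := by
  rw [evT_mulVec_FrH, evT, map_sum]
  refine Finset.sum_congr rfl fun j _ => ?_
  by_cases h : x j = 0
  · rw [h, actG_zero, actG_zero, map_zero]
  · rw [col_bd_FrH hl hσ (hτ j) (hx j h), bd_actG]

theorem evT_cap (hl : Flat G A lab) {η : V → EA V} (hη : Eta0 G A η) (hσ : Enum σ (sdA G A))
    (hτ : ∀ j, τ j ∈ sdA G A) (x : J → RC C) :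
    evT v0 lab σ ((tw v0 lab (bG η) σ τ).mulVec x) =
      cap1 (etaL lab η) (ef (evT v0 lab τ x)) := by
  rw [evT_mulVec_FrH, evT, cap1_ef_sum]
  refine Finset.sum_congr rfl fun j _ => ?_
  rw [col_cap_FrH hl hη hσ (hτ j), cap1_ef_actG (etaL_deck (MonoidHom.id C) lab η)]

/-- The pairing of coordinates. -/
theorem pair_FrH (hσ : Function.Injective σ) (hn : ∀ i, (σ i).Nonempty) (x y : I → RC C) (g : C)
    (φ : EA (V × C) →ₗ[ℚ] ℚ) (H : ∀ i, x i ≠ 0 → ∀ h, φ (wedge (tl_FrH v0 lab h (σ i))) =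
      cfl_FrH (tl_FrH v0 lab h (σ i)) (emap (dk V C g⁻¹) (evT v0 lab σ y))) :
    (star x ⬝ᵥ y).coeff g = φ (evT v0 lab σ x) := by
  rw [dotProduct, MonoidAlgebra.coeff_sum, Finsupp.finsetSum_apply, evT, map_sum]
  refine Finset.sum_congr rfl fun i _ => ?_
  by_cases h0 : x i = 0
  · simp [h0, actG_zero]
  have H' := H i h0
  simp only [emap_evT_FrH, coef_FrH hσ hn, Pi.smul_apply, smul_eq_mul,
    MonoidAlgebra.coeff_single_mul_apply, inv_inv, one_mul] at H'
  rw [Pi.star_apply]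
  generalize x i = r
  induction r using MonoidAlgebra.induction_linear with
  | zero => simp [actG_zero]
  | add a b ha hb =>
    rw [star_add, add_mul, MonoidAlgebra.coeff_add, Finsupp.add_apply, ha, hb, actG_add, map_add]
  | single h c =>
    rw [star_single, MonoidAlgebra.coeff_single_mul_apply, actG_single, map_smul, emap_sl_FrH, H',
      inv_inv, mul_comm h g, smul_eq_mul]

omit [Fintype I] in
theorem Dg.card_FrH {R : Type} [CommRing R] {n : ℕ} {x : I → R} (hx : Dg (dgc σ) n x)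
    (hn : ∀ i, (σ i).Nonempty) {i : I} (h : x i ≠ 0) : (σ i).card = n + 1 := by
  have h1 : (σ i).card - 1 = n := by
    by_contra e
    exact h (hx i e)
  have := (hn i).card_pos
  omega

theorem evT_pair (hσ : Function.Injective σ) (hn : ∀ i, (σ i).Nonempty) {x : I → RC C}
    (hx : Dg (dgc σ) 1 x) (y : I → RC C) (g : C) :
    (star x ⬝ᵥ y).coeff g =
      evE (ef (evT v0 lab σ x)) (emap (dk V C g⁻¹) (evT v0 lab σ y)) := by
  rw [evE_comm]
  refine pair_FrH hσ hn x y g ⟨⟨evE _, evE_add _⟩, evE_smul _⟩ fun i hi h => ?_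
  obtain ⟨p, q, e⟩ := List.length_eq_two.1
    ((tl_length_FrH (v0 := v0) (lab := lab) h _).trans (hx.card_FrH hn hi))
  rw [e, wedge_cons, wedge_cons, wedge_nil, mul_one]
  exact evE_ef_vx _ p q

/-- Lifts of chains that lie in a region where the labelling is trivial. -/
theorem evT_triv (hσ : Function.Injective σ) (h1 : ∀ a ∈ S, ∀ b ∈ S, Adq G a b → lab a b = 1)
    {n : ℕ} {z : EA V} (hz : z ∈ Ch G S n) (h : ∀ s, cf s z ≠ 0 → s ∈ Set.range σ) :
    evT v0 lab σ (fun i => MonoidAlgebra.single 1 (cf (σ i) z)) =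
      emap (fun u => (u, (1 : C))) z := by
  refine lift_FrH hσ hz h (fun _ => 1) (fun _ => 1) fun i hi u hu => ?_
  obtain ⟨-, c1, c2⟩ := cf_ne_zero hz hi
  have hh := hd_mem v0 ⟨u, hu⟩
  rw [h1 u (c1 hu) _ (c1 hh) ((isCl_toList c1 c2).2 u (Finset.mem_toList.2 hu) _
    (Finset.mem_toList.2 hh)), mul_one]

theorem adj_FrH (M : Matrix I J (RC C)) (x : I → RC C) (y : J → RC C) :
    star (Mᴴ.mulVec x) ⬝ᵥ y = star x ⬝ᵥ M.mulVec y := by
  rw [star_mulVec, conjTranspose_conjTranspose, dotProduct_mulVec]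

theorem emap_dk_one_FrH (z : EA (V × C)) : emap (dk V C 1⁻¹) z = z := by
  rw [inv_one, map_one]
  exact emap_id z

omit [Fintype J] in
theorem adj_ne_FrH {x : I → RC C} {j : J} (h : (tw v0 lab bD σ τ)ᴴ.mulVec x j ≠ 0) :
    ∃ i, x i ≠ 0 ∧ (τ j).card = (σ i).card + 1 := by
  obtain ⟨i, -, hi⟩ := Finset.exists_ne_zero_of_sum_ne_zero h
  have h1 := left_ne_zero_of_mul hi
  simp only [conjTranspose_apply, star_ne_zero] at h1
  exact ⟨i, right_ne_zero_of_mul hi, (bD_ne (tw_ne_FrH h1)).2⟩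

/-- Cocycles in coordinates. -/
theorem evT_coc [DecidableEq I] (hl : Flat G A lab) (hσ : Enum σ (sdA G A)) {x : I → RC C}
    (hx : Dg (dgc σ) 1 x) : (tw v0 lab bD σ σ)ᴴ.mulVec x = 0 ↔
      Coc (cov G lab C) (up A C) (ef (evT v0 lab σ x)) := by
  have hn := fun i => (hσ.mem_FrH i).1
  refine ⟨fun h => coc_of_evE (ef_anti _) fun z hz => ?_, fun h => funext fun j => ?_⟩
  · obtain ⟨w, hw, rfl⟩ := mem_Bd.1 hz
    obtain ⟨y, hy, rfl⟩ := exists_evT (v0 := v0) hl subset_rfl (by simp)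
      (fun s hs _ => hσ.2.symm ▸ hs) hw
    rw [← evT_bd hl hσ hσ.mem_FrH fun j hj => by have := (hy j hj).1; omega,
      ← emap_dk_one_FrH (evT v0 lab σ (_ *ᵥ y)), ← evT_pair hσ.1 hn hx, ← adj_FrH, h]
    simp
  · by_contra hj
    obtain ⟨i, h1, h2⟩ := adj_ne_FrH hj
    rw [hx.card_FrH hn h1] at h2
    have s : ∀ j', (Pi.single j 1 : I → RC C) j' ≠ 0 → j' = j := fun j' hj' => by
      by_contra e
      exact hj' (Pi.single_eq_of_ne e _)
    refine hj (star_eq_zero.1 ?_)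
    ext g
    have e := evT_pair (v0 := v0) (lab := lab) hσ.1 hn hx
      ((tw v0 lab bD σ σ).mulVec (Pi.single j 1)) g
    rw [← adj_FrH, dotProduct_single, mul_one,
      evT_bd hl hσ hσ.mem_FrH fun j' hj' => by rw [s j' hj']; omega,
      h.evE_bd (emap_mem_Bd (dk_hom G A lab _) (mem_Bd.2 ⟨_, evT_mem hl hσ.mem_FrH
        fun j' hj' => s j' hj' ▸ ⟨h2, (hσ.mem_FrH j).2.1⟩, rfl⟩))] at e
    exact e

theorem sc_iv_vx_FrH {U : Type} (p q : U) : sc (iv p (vx q)) = sc (iv q (vx p)) := by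
  by_cases h : p = q
  · rw [h]
  · rw [← mul_one (vx q), ← mul_one (vx p), iv_vx_mul_ne (Ne.symm h), iv_vx_mul_ne h]
    simp

/-- Coboundaries in coordinates. -/
theorem evT_cob (hl : Flat G A lab) (hσ : Enum σ (sdA G A)) {x : I → RC C}
    (hx : Dg (dgc σ) 0 x) : Dg (dgc σ) 1 ((tw v0 lab bD σ σ)ᴴ.mulVec x) ∧
      ∀ p ∈ up A C, ∀ q ∈ up A C, (cov G lab C).Adj p q →
        ef (evT v0 lab σ ((tw v0 lab bD σ σ)ᴴ.mulVec x)) p q =
          sc (iv q (evT v0 lab σ x)) - sc (iv p (evT v0 lab σ x)) := by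
  have hn := fun i => (hσ.mem_FrH i).1
  have d : Dg (dgc σ) 1 ((tw v0 lab bD σ σ)ᴴ.mulVec x) := fun j hj => by
    by_contra h
    obtain ⟨i, h1, h2⟩ := adj_ne_FrH h
    rw [hx.card_FrH hn h1] at h2
    exact hj (by rw [dgc, h2])
  refine ⟨d, fun p hp q hq hpq => ?_⟩
  have c : IsCl (cov G lab C) (up A C) [p, q] := by
    constructor
    · simpa using ⟨hp, hq⟩
    · simpa using ⟨⟨.inl rfl, .inr hpq⟩, .inr hpq.symm, .inl rfl⟩
  obtain ⟨y, hy, e⟩ := exists_evT (v0 := v0) hl subset_rfl (by simp)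
    (fun s hs _ => hσ.2.symm ▸ hs) (wedge_mem_Ch c)
  rw [wedge_cons, wedge_cons, wedge_nil, mul_one] at e
  rw [← evE_ef_vx, ← e, ← emap_dk_one_FrH (evT v0 lab σ y), ← evT_pair hσ.1 hn d, adj_FrH]
  refine pair_FrH hσ.1 hn x _ 1 (sc ∘ₗ iv q - sc ∘ₗ iv p) fun i hi h => ?_
  obtain ⟨r, e'⟩ := List.length_eq_one_iff.1
    ((tl_length_FrH (v0 := v0) (lab := lab) h _).trans (hx.card_FrH hn hi))
  rw [emap_dk_one_FrH, evT_bd hl hσ hσ.mem_FrH fun j hj => (hy j hj).1.ge, e, e', bd_vx_mul]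
  simp [cfl_FrH, sc_iv_vx_FrH r]

theorem isCx_tw [DecidableEq I] (hl : Flat G A lab) (hσ : Enum σ (sdA G A)) :
    IsCx (dgc σ) (tw v0 lab bD σ σ) := by
  have hn := fun i => (hσ.mem_FrH i).1
  refine ⟨fun i j h => ?_, Matrix.ext fun i j => ?_⟩
  · have h1 := (bD_ne (tw_ne_FrH h)).2
    have := (hn i).card_pos
    unfold dgc
    omega
  by_contra h
  obtain ⟨k, -, hk⟩ := Finset.exists_ne_zero_of_sum_ne_zero h
  have h1 := (bD_ne (tw_ne_FrH (left_ne_zero_of_mul hk))).2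
  have h2 := (bD_ne (tw_ne_FrH (right_ne_zero_of_mul hk))).2
  have h3 := (hn i).card_pos
  have e := evT_bd (v0 := v0) hl hσ hσ.mem_FrH (x := fun k => tw v0 lab bD σ σ k j) fun k hk => by
    have := (bD_ne (tw_ne_FrH hk)).2
    omega
  rw [col_bd_FrH hl hσ (hσ.mem_FrH j) (by omega), bd_bd] at e
  exact h (congrFun (evT_injective hσ.1 hn e) i)

/-- The frame of a finite regular abelian cover. -/
noncomputable def covFrame [DecidableEq I] (v0 : V) (hl : Flat G A lab) (hσ : Enum σ (sdA G A)) :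
    Frame (cov G lab C) (up A C) (dk V C) where
  I := I
  s i := sl v0 lab (σ i)
  nodup i := (σ i).nodup_toList.map fun _ _ e => congrArg Prod.fst e
  ne i := by simpa [sl] using (hσ.mem_FrH i).1.ne_empty
  cl i := isCl_sl hl subset_rfl (hσ.mem_FrH i)
  rep T h0 h1 h2 := by
    obtain ⟨s, hs, g, e⟩ := clique_FrH v0 hl subset_rfl (by simpa using h0.ne_empty)
      (isCl_toList h1 h2)
    obtain ⟨i, rfl⟩ : s ∈ Set.range σ := hσ.2.symm ▸ hs
    simp only [← toFinset_map_FrA, map_sl_FrH, Finset.ext_iff, List.mem_toFinset]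
    simp only [Finset.mem_toList] at e
    refine ⟨(g, i), e, ?_⟩
    rintro ⟨g', i'⟩ e'
    obtain ⟨e1, e2⟩ := tl_inj_FrH hs.1 fun p => (e p).symm.trans (e' p)
    rw [e2, hσ.1 e1]

theorem covFrame_deg [DecidableEq I] (hl : Flat G A lab) (hσ : Enum σ (sdA G A)) :
    (covFrame v0 hl hσ).deg = dgc σ := funext fun i => by
  simp [Frame.deg, covFrame, sl, dgc]

theorem covFrame_ev [Fintype C] [DecidableEq I] (hl : Flat G A lab) (hσ : Enum σ (sdA G A))
    (x : I → RC C) : (covFrame v0 hl hσ).ev x = evT v0 lab σ x :=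
  Finset.sum_congr rfl fun _ _ => (actG_eq_act _ _).symm

theorem covFrame_isBd [Fintype C] [DecidableEq I] (hl : Flat G A lab) (hσ : Enum σ (sdA G A)) :
    (covFrame v0 hl hσ).IsBd (tw v0 lab bD σ σ) := fun j : I => by
  rw [covFrame_deg]
  refine (covFrame_ev hl hσ _).trans ?_
  have := (hσ.mem_FrH j).1.card_pos
  split_ifs with h
  · rw [← evT_zero (v0 := v0) (lab := lab) (σ := σ)]
    refine congrArg _ (funext fun i => ?_)
    by_contra e
    have h1 := (bD_ne (tw_ne_FrH e)).2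
    have := (hσ.mem_FrH i).1.card_pos
    unfold dgc at h
    omega
  · exact col_bd_FrH hl hσ (hσ.mem_FrH j) (by unfold dgc at h; omega)

theorem covFrame_isCap [Fintype C] [DecidableEq I] (hl : Flat G A lab) (hσ : Enum σ (sdA G A))
    {η : V → EA V} (hη : Eta0 G A η) :
    (covFrame v0 hl hσ).IsCap (etaL lab η) (tw v0 lab (bG η) σ σ) := fun j : I => by
  rw [covFrame_deg]
  refine ((covFrame_ev hl hσ _).trans (col_cap_FrH hl hη hσ (hσ.mem_FrH j))).trans ?_
  split_ifs with h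
  · rfl
  · exact cap1_ef_of_ne _ (sl_mem_FrH hl (hσ.mem_FrH j) (hσ.mem_FrH j).2.1) fun e =>
      h (by rw [dgc, e])

end Pool.Agent.MP_6374aa_gt
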