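import Pool.Agent.MP_6374aa_gt.IfG
import Pool.Agent.MP_6374aa_gt.GrA1

/-! Composition of matched free product data, and lifting of crossed homomorphisms. -/

namespace Pool.Agent.MP_6374aa_gt

open Classical

noncomputable section

theorem gcj_GDComp {V V' : Type} (G' : SimpleGraph V') (A' : Set V') (G : SimpleGraph V)
    (A : Set V) (f : V' → V) (γ : Gp G A) (δ : Gp G' A') :
    gcj G' A' G A f γ δ = γ⁻¹ * gmap G' A' G A f δ * γ := by
  simp [gcj]

theorem conj_GDComp {π L : Type} [Group π] [Group L] (ρ : π →* L) {k a : π}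
    (h : ρ (k⁻¹ * a * k) = 1) : ρ a = 1 := by
  have : a = k * (k⁻¹ * a * k) * k⁻¹ := by group
  rw [this, map_mul, map_mul, h, mul_one, ← map_mul, mul_inv_cancel, map_one]

theorem conj1_GDComp {π : Type} [Group π] {k a : π} (h : k⁻¹ * a * k = 1) : a = 1 :=
  conj_GDComp (MonoidHom.id π) h

theorem comm_GDComp {π L : Type} [Group π] [CommGroup L] (ρ : π →* L) (k a : π) :
    ρ (k⁻¹ * a * k) = ρ a := by
  rw [map_mul, map_mul, map_inv, mul_comm, mul_inv_cancel_left]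

theorem comp_GDComp {π π' π'' : Type} [Group π] [Group π'] [Group π''] {ψ : π' →* π}
    {ψ' : π'' →* π'} {H : Subgroup π} {H' : Subgroup π'} {H'' : Subgroup π''} {X X' X'' : Type}
    {Λ : X → Subgroup π} {Λ' : X' → Subgroup π'} {Λ'' : X'' → Subgroup π''} {j : X → X'}
    {j' : X' → X''} (h : GDa ψ H' H Λ' Λ j) (h' : GDa ψ' H'' H' Λ'' Λ' j') :
    GDa (ψ.comp ψ') H'' H Λ'' Λ (j' ∘ j) where
  map δ hδ := h.map _ (h'.map δ hδ)
  onto δ hδ := by
    obtain ⟨δ', m', rfl⟩ := h.onto δ hδ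
    obtain ⟨δ'', m'', rfl⟩ := h'.onto δ' m'
    exact ⟨δ'', m'', rfl⟩
  inj := h'.inj.comp h.inj
  mat x := by
    obtain ⟨a1, k, hk, a2, a3⟩ := h.mat x
    obtain ⟨b1, k', hk', b2, b3⟩ := h'.mat (j x)
    have e : ∀ δ, (ψ k' * k)⁻¹ * (ψ.comp ψ') δ * (ψ k' * k) =
        k⁻¹ * ψ (k'⁻¹ * ψ' δ * k') * k := by
      intro δ
      simp only [MonoidHom.comp_apply, map_mul, map_inv]
      group
    refine ⟨fun δ hδ h1 => b1 δ hδ ?_, ψ k' * k, H.mul_mem (h.map _ hk') hk, fun δ hδ => ?_,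
      fun δ hδ => ?_⟩
    · refine conj1_GDComp (k := k') (a1 _ (b2 δ hδ) ?_)
      rw [map_mul, map_mul, show ψ (ψ' δ) = 1 from h1, mul_one, ← map_mul, inv_mul_cancel, map_one]
    · rw [e]
      exact a2 _ (b2 δ hδ)
    · obtain ⟨δ', m', rfl⟩ := a3 δ hδ
      obtain ⟨δ'', m'', rfl⟩ := b3 δ' m'
      exact ⟨δ'', m'', e δ''⟩
  kill x'' hx δ hδ := by
    by_cases h1 : x'' ∈ Set.range j'
    · obtain ⟨x', rfl⟩ := h1
      obtain ⟨-, k', -, b2, -⟩ := h'.mat x'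
      refine conj_GDComp ψ (k := k') (h.kill x' ?_ _ (b2 δ hδ))
      rintro ⟨x, rfl⟩
      exact hx ⟨x, rfl⟩
    · rw [MonoidHom.comp_apply, h'.kill x'' h1 δ hδ, map_one]

theorem gDComp : GDCompStmt := by
  intro V V' V'' G A G' A' G'' A'' c c'
  have key : ∀ (P : GP G A) (P' : GP G' A') (P'' : GP G'' A'') (j : P.X → P'.X)
      (j' : P'.X → P''.X), GD c P' P j → GD c' P'' P' j' → GD (c ∘ c') P'' P (j' ∘ j) := by
    rintro P P' P'' j j' ⟨hc, γ, hγ, h⟩ ⟨hc', γ', hγ', h'⟩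
    refine ⟨hc.comp hc', gmap G' A' G A c γ' * γ, (hγ'.map hc).trans hγ, ?_⟩
    have e : gcj G'' A'' G A (c ∘ c') (gmap G' A' G A c γ' * γ) =
        (gcj G' A' G A c γ).comp (gcj G'' A'' G' A' c' γ') := by
      refine MonoidHom.ext fun δ => ?_
      rw [MonoidHom.comp_apply, gcj_GDComp, gcj_GDComp, gcj_GDComp, map_mul, map_mul, map_inv,
        gmap_comp hc hc']
      group
    rw [e]
    exact comp_GDComp h h'
  refine ⟨key, fun h h' P => ?_⟩
  obtain ⟨P', j, hj⟩ := h P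
  obtain ⟨P'', j', hj'⟩ := h' P'
  exact ⟨P'', j' ∘ j, key P P' P'' j j' hj hj'⟩

theorem gDS : GDSStmt := by
  rintro V V' G A G' A' f P P' j ⟨-, γ, -, h⟩ ⟨s⟩
  by_contra hS
  obtain ⟨ρ, h1, h2⟩ := P.fp.ext Zm (fun _ => 1) fun _ => Multiplicative.ofAdd 1
  obtain ⟨δ, hδ, e⟩ := h.onto _ (P.fp.mem s)
  have hk : Subgroup.closure ((⋃ x, (P'.Λ x : Set (Gp G' A'))) ∪ Set.range P'.t) ≤
      (ρ.comp (gcj G' A' G A f γ)).ker := by
    rw [Subgroup.closure_le]
    rintro a (ha | ⟨s', -⟩)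
    · obtain ⟨x', hx'⟩ := Set.mem_iUnion.1 ha
      change ρ (gcj G' A' G A f γ a) = 1
      by_cases h3 : x' ∈ Set.range j
      · obtain ⟨x, rfl⟩ := h3
        obtain ⟨-, k, -, a2, -⟩ := h.mat x
        exact conj_GDComp ρ (h1 x ⟨_, a2 a hx'⟩)
      · rw [h.kill x' h3 a hx', map_one]
    · exact absurd ⟨s'⟩ hS
  have h4 : ρ (gcj G' A' G A f γ δ) = 1 := hk (P'.fp.gen hδ)
  rw [e, h2] at h4
  exact one_ne_zero (ofAdd_eq_one.1 h4)

theorem gDIso : GDIsoStmt := by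
  rintro V V' G A G' A' f P P' j ⟨-, γ, -, h⟩ x
  obtain ⟨a1, k, -, a2, a3⟩ := h.mat x
  let m0 : P'.Λ (j x) →* P.Λ x :=
    (((MulAut.conj k⁻¹).toMonoidHom.comp (gcj G' A' G A f γ)).comp
      (P'.Λ (j x)).subtype).codRestrict _ fun δ => by simpa using a2 δ δ.2
  have hm : ∀ δ, (m0 δ : Gp G A) = k⁻¹ * gcj G' A' G A f γ δ * k := fun δ => by simp [m0]
  have hb : Function.Bijective m0 := by
    refine ⟨(injective_iff_map_eq_one _).2 fun δ hδ => Subtype.ext (a1 δ δ.2 ?_), fun δ => ?_⟩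
    · refine conj1_GDComp (k := k) ?_
      rw [← hm, hδ]
      rfl
    · obtain ⟨δ', m', e⟩ := a3 δ δ.2
      exact ⟨⟨δ', m'⟩, Subtype.ext ((hm _).trans e)⟩
  refine ⟨MulEquiv.ofBijective m0 hb, fun L _ ρ => ?_⟩
  have e : ∀ (k : Gp G A) δ, ρ (k⁻¹ * gcj G' A' G A f γ δ * k) = ρ (gmap G' A' G A f δ) := by
    intro k δ
    rw [comm_GDComp, gcj_GDComp, comm_GDComp]
  refine ⟨fun δ => ?_, fun u => ⟨fun δ hδ h1 => ?_, fun l => ?_, fun y hy δ hδ => ?_⟩,
    fun u => ⟨fun δ hδ h1 => ?_, fun l => ?_, fun y hy δ hδ => ?_⟩⟩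
  · rw [MulEquiv.ofBijective_apply, hm, e]
  · exact a1 δ hδ (conj1_GDComp (u.inj _ (a2 δ hδ) ((e k δ).trans h1)))
  · obtain ⟨δ, hδ, rfl⟩ := u.surj l
    obtain ⟨δ', m', rfl⟩ := a3 δ hδ
    exact ⟨δ', m', (e k δ').symm⟩
  · by_cases h3 : y ∈ Set.range j
    · obtain ⟨y, rfl⟩ := h3
      obtain ⟨-, k', -, b2, -⟩ := h.mat y
      exact (e k' δ).symm.trans (u.kill y (fun e' => hy (by rw [e'])) _ (b2 δ hδ))
    · refine (e 1 δ).symm.trans ?_
      rw [h.kill y h3 δ hδ, mul_one, mul_one, inv_one, map_one]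
  · obtain ⟨δ', m', rfl⟩ := a3 δ hδ
    rw [u.inj δ' m' ((e k δ').symm.trans h1), map_one, mul_one, inv_mul_cancel]
  · obtain ⟨δ, hδ, rfl⟩ := u.surj l
    exact ⟨_, a2 δ hδ, e k δ⟩
  · obtain ⟨-, k', -, -, b3⟩ := h.mat y
    obtain ⟨δ', m', rfl⟩ := b3 δ hδ
    exact (e k' δ').trans (u.kill (j y) (fun e' => hy (h.inj e')) δ' m')

/-- The semidirect product of the induced module with the infinite cyclic group. -/
@[ext] structure SD_GDComp (N : Type) [AddCommGroup N] where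
  l : Zm →₀ N
  r : Zm

section SD

variable {N : Type} [AddCommGroup N]

instance : Mul (SD_GDComp N) := ⟨fun a b => ⟨a.l + b.l.mapDomain fun g => a.r * g, a.r * b.r⟩⟩

instance : One (SD_GDComp N) := ⟨⟨0, 1⟩⟩

instance : Inv (SD_GDComp N) := ⟨fun a => ⟨(-a.l).mapDomain fun g => a.r⁻¹ * g, a.r⁻¹⟩⟩

theorem mul_l_GDComp (a b : SD_GDComp N) :
    (a * b).l = a.l + b.l.mapDomain fun g => a.r * g := rfl

theorem mul_r_GDComp (a b : SD_GDComp N) : (a * b).r = a.r * b.r := rfl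

instance : Group (SD_GDComp N) :=
  Group.ofLeftAxioms
    (fun a b c => SD_GDComp.ext (by
      rw [mul_l_GDComp, mul_l_GDComp, mul_l_GDComp, mul_l_GDComp, mul_r_GDComp,
        Finsupp.mapDomain_add, ← Finsupp.mapDomain_comp, add_assoc]
      congr 3
      funext g
      exact mul_assoc _ _ _) (mul_assoc _ _ _))
    (fun a => SD_GDComp.ext (by
      change 0 + a.l.mapDomain (fun g => 1 * g) = a.l
      simp only [one_mul, zero_add]
      exact Finsupp.mapDomain_id) (one_mul _))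
    fun a => SD_GDComp.ext (by
      change (-a.l).mapDomain (fun g => a.r⁻¹ * g) + a.l.mapDomain (fun g => a.r⁻¹ * g) = 0
      rw [← Finsupp.mapDomain_add, neg_add_cancel, Finsupp.mapDomain_zero]) (inv_mul_cancel _)

end SD

theorem dL : DLStmt := by
  intro π X S N _ _ H Λ t lam T δ fp h0 T1 Tm hδ
  obtain ⟨ρ, r1, r2⟩ := fp.ext (SD_GDComp N)
    (fun x => MonoidHom.mk' (fun γ => ⟨Finsupp.single 1 (δ γ), 1⟩) fun a b => SD_GDComp.ext (by
      change Finsupp.single 1 (δ (a * b)) = Finsupp.single 1 (δ a) +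
        (Finsupp.single 1 (δ b)).mapDomain fun g : Zm => 1 * g
      rw [Finsupp.mapDomain_single, hδ _ (fp.le x a.2) _ (fp.le x b.2), h0 x _ a.2, T1,
        Finsupp.single_add, one_mul]) (mul_one _).symm)
    fun s => ⟨Finsupp.single 1 (δ (t s)), lam (t s)⟩
  have ε1 : ∀ n : N, ((Finsupp.single (1 : Zm) n).sum fun g n => T g n) = n := by
    intro n
    exact (Finsupp.sum_single_index (h := fun g n => T g n) (map_zero _)).trans (T1 n)
  have ε2 : ∀ a b : Zm →₀ N, ((a + b).sum fun g n => T g n) =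
      (a.sum fun g n => T g n) + b.sum fun g n => T g n := fun a b =>
    Finsupp.sum_add_index' (fun _ => map_zero _) fun _ _ _ => map_add _ _ _
  have ε3 : ∀ (k : Zm) (b : Zm →₀ N), ((b.mapDomain fun g => k * g).sum fun g n => T g n) =
      T k (b.sum fun g n => T g n) := by
    intro k b
    rw [Finsupp.sum_mapDomain_index (fun _ => map_zero _) fun _ _ _ => map_add _ _ _,
      map_finsuppSum]
    simp only [Tm]
  have d1 : δ 1 = 0 := by
    have := hδ 1 H.one_mem 1 H.one_mem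
    rw [mul_one, map_one, T1] at this
    exact left_eq_add.1 this
  have key : ∀ a ∈ Subgroup.closure ((⋃ x, (Λ x : Set π)) ∪ Set.range t),
      a ∈ H ∧ (ρ a).r = lam a ∧ ((ρ a).l.sum fun g n => T g n) = δ a := by
    intro a ha
    induction ha using Subgroup.closure_induction with
    | mem a ha =>
      rcases ha with ha | ⟨s, rfl⟩
      · obtain ⟨x, hx⟩ := Set.mem_iUnion.1 ha
        rw [r1 x ⟨a, hx⟩]
        exact ⟨fp.le x hx, (h0 x a hx).symm, ε1 _⟩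
      · rw [r2]
        exact ⟨fp.mem s, rfl, ε1 _⟩
    | one =>
      rw [map_one, map_one, d1]
      exact ⟨H.one_mem, rfl, Finsupp.sum_zero_index⟩
    | mul a b _ _ ha hb =>
      refine ⟨H.mul_mem ha.1 hb.1, ?_, ?_⟩
      · rw [map_mul, map_mul, mul_r_GDComp, ha.2.1, hb.2.1]
      · rw [map_mul, mul_l_GDComp, ε2, ε3, ha.2.1, ha.2.2, hb.2.2, hδ a ha.1 b hb.1]
    | inv a _ ha =>
      have e1 : (ρ a⁻¹).r = lam a⁻¹ := by
        rw [map_inv, map_inv, ← ha.2.1]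
        rfl
      refine ⟨H.inv_mem ha.1, e1, ?_⟩
      have e2 := hδ _ (H.inv_mem ha.1) a ha.1
      have e3 : ((ρ (a⁻¹ * a)).l.sum fun g n => T g n) = δ (a⁻¹ * a) := by
        rw [inv_mul_cancel, map_one, d1]
        exact Finsupp.sum_zero_index
      rw [map_mul, mul_l_GDComp, ε2, ε3, e1, ha.2.2, e2] at e3
      exact add_right_cancel e3
  refine ⟨fun a => (ρ a).l, fun a ha b _ => ?_, fun a ha => (key a (fp.gen ha)).2.2⟩
  rw [← (key a (fp.gen ha)).2.1]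
  exact (congrArg SD_GDComp.l (map_mul ρ a b)).trans (mul_l_GDComp _ _)

end

end Pool.Agent.MP_6374aa_gt
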