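import Pool.Agent.MP_6374aa_gt.IfC

/-! Packs of grafts extend the packs of the summands. -/

namespace Pool.Agent.MP_6374aa_gt

open Classical

theorem gExt (h0 : VkOneStmt) (hG : GGaugeStmt) : GExtStmt := by
  intro V G A M B v D P1 P2 P' j1 j2 hg hf hl hs
  have hc := hg.col_hom
  have hr := hg.symm.col_hom
  have old : ∀ x, MatchAt (col A v) P' (j1 x) P1 x := fun x => by
    obtain ⟨⟨γ, g1, g2⟩, -⟩ := h0 V G A M B v D hg _ (P1.mem x)
    rw [MatchAt, hs.L1, hs.a1]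
    refine ⟨?_, γ, g1, ?_, fun δ hδ => ⟨_, ⟨δ, hδ, rfl⟩, g2 δ (P1.loop x hδ)⟩⟩
    · rintro _ ⟨δ, hδ, rfl⟩ e
      have := g2 δ (P1.loop x hδ)
      rw [e, mul_one, inv_mul_cancel] at this
      rw [← this, map_one]
    · rintro _ ⟨δ, hδ, rfl⟩
      rwa [g2 δ (P1.loop x hδ)]
  have new : ∀ x', x' ∉ Set.range j1 → ∀ δ ∈ P'.Λ x', gmap G B G A (col A v) δ = 1 := by
    intro x' hx'
    obtain ⟨y, rfl⟩ := (hs.surj x').resolve_left hx'
    rw [hs.L2]
    rintro _ ⟨δ, hδ, rfl⟩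
    exact (h0 V G M A B v D.swap hg.symm _ (P2.mem y)).2.1 δ (P2.loop y hδ)
  have kill : ∀ x, ∀ δ ∈ P'.Λ (j1 x), gmap G B G M (col M v) δ = 1 := by
    intro x
    rw [hs.L1]
    rintro _ ⟨δ, hδ, rfl⟩
    exact (h0 V G A M B v D hg _ (P1.mem x)).2.1 δ (P1.loop x hδ)
  have g2 : ∀ n, ∀ z ∈ Zy G B n, emap (col A v) z ∈ Bd G A n → emap (col M v) z ∈ Bd G M n →
      z ∈ Bd G B n := fun n => by
    have := hf.g2 n A subset_rfl
    rwa [(Set.inter_eq_left (t := col A v ⁻¹' A)).2 hc.1] at this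
  have nb : ∀ n, n = 2 ∨ n = 3 → ∀ x', x' ∉ Set.range j1 → ∀ z ∈ P'.I x' n,
      emap (col A v) z ∈ Bd G A n := fun n hn x' hx' z hz =>
    P1.emap_mem_Bd hc (P'.mem x') (new x' hx') hn hz
  have ob : ∀ n, n = 2 ∨ n = 3 → ∀ x, ∀ z ∈ P'.I (j1 x) n, emap (col M v) z ∈ Bd G M n :=
    fun n hn x z hz => P2.emap_mem_Bd hr (P'.mem _) (kill x) hn hz
  refine ⟨hl, hs.inj1, old, new, fun L _ ρ h => ?_, fun n hn z hz hb => ?_,
    fun n hn x' hx' => ⟨v, hg.memA, fun z hz => ?_⟩, fun n hn x S hS h z hz => ?_⟩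
  · obtain ⟨k, hk⟩ := hG V G A M B v D P2 hg L ρ fun x δ hδ =>
      h (j2 x) (fun ⟨y, e⟩ => hs.disj y x e) _ (by rw [hs.L2]; exact ⟨δ, hδ, rfl⟩)
    exact ⟨fun a b => ρ (D.i1 (gen G A a b)), k, flat_hom (ρ.comp D.i1), hk⟩
  · obtain ⟨w, w1, w2⟩ := P'.exists_decomp hn hz
    have e1 : ∑ x', emap (col A v) (w x') ∈ Bd G A n := by
      have := sub_mem hb (emap_mem_Bd hc w2)
      rwa [map_sub, sub_sub_cancel, map_sum] at this
    have e2 : ∑ x, emap (col A v) (w (j1 x)) ∈ Bd G A n := by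
      rw [← Finset.sum_add_sum_compl (Finset.univ.image j1), Finset.sum_image hs.inj1.injOn] at e1
      refine (Submodule.add_mem_iff_left _ (sum_mem fun x' hx' => nb n hn x' ?_ _ (w1 x'))).1 e1
      simpa using hx'
    have e3 := P1.h3 n hn _ (fun x => (old x).emap_mem hc (w1 _)) e2
    rw [← sub_add_cancel z (∑ x', w x')]
    refine add_mem (Submodule.mem_sup_left w2) (sum_mem fun x' _ => ?_)
    by_cases hx' : x' ∈ Set.range j1
    · obtain ⟨x, rfl⟩ := hx'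
      exact Submodule.mem_sup_left (g2 n _ (II_le_Zy _ _ _ (w1 _)) (e3 x) (ob n hn x _ (w1 _)))
    · exact Submodule.mem_sup_right
        (Submodule.mem_iSup_of_mem x' (Submodule.mem_iSup_of_mem hx' (w1 x')))
  · have hz' := II_le_Zy _ _ _ hz
    obtain ⟨z0, a1, a2, a3⟩ := hf.g3 n (by omega) _ (emap_mem_Zy hr hz')
    rw [← add_sub_cancel z0 z]
    refine Submodule.add_mem_sup a1 (g2 n _ (sub_mem hz' (Zy_mono Set.inter_subset_left _ a1)) ?_ ?_)
    · rw [map_sub, emap_eq_zero_of_const (u := v) (fun a ha => ha.2) (by omega) (mem_Zy.1 a1).1,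
        sub_zero]
      exact nb n hn x' hx' z hz
    · rw [map_sub, a3, ← neg_sub]
      exact neg_mem a2
  · obtain ⟨y, hy, b, hb, e⟩ := Submodule.mem_sup.1 (h ((old x).emap_mem hc hz))
    obtain ⟨z0, a1, a2, a3⟩ := hf.g1 n S hS y hy
    rw [← add_sub_cancel z0 z]
    refine Submodule.add_mem_sup a1 (g2 n _
      (sub_mem (II_le_Zy _ _ _ hz) (Zy_mono Set.inter_subset_left _ a1)) ?_ ?_)
    · rw [map_sub, ← e, add_comm, add_sub_assoc, ← neg_sub]
      exact add_mem hb (neg_mem (Bd_mono hS _ a2))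
    · rw [map_sub]
      exact sub_mem (ob n hn x z hz) (a3 (by omega))

theorem graftS (hV : VkStmt) (hP : GraftPackStmt) (hE : GExtStmt) (hF : GFactsStmt)
    (hL : GLocStmt) (hB : MfBasicStmt) (hR : MfRemStmt) (hS : Sc2Stmt) : GraftStmt := by
  intro V G A M B v P1 P2 hg hM
  obtain ⟨b1, b2⟩ := (hB V G M hM).2.2 v hg.memM
  have hsc := hS V G _ (hM.1.subset fun _ h => h.1) b1 b2
  rw [← hg.lk] at hsc b1
  obtain ⟨D⟩ := hV V G A M B v hg hsc
  have r1 := hR V G M hM v hg.memM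
  have f1 := hF V G A M B v hg r1
  obtain ⟨P', j1, j2, hs⟩ := hP V G A M B v D P1 P2 hg f1 fun n hn => b1.1 n (by omega)
  refine ⟨P', j1, j2, hE V G A M B v D P1 P2 P' j1 j2 hg f1 (hL V G A M B v hg r1 f1) hs,
    fun hA => ?_, hs.surj⟩
  have r2 := hR V G A hA v hg.memA
  have f2 := hF V G M A B v hg.symm r2
  exact hE V G M A B v D.swap P2 P1 P' j2 j1 hg.symm f2 (hL V G M A B v hg.symm r2 f2)
    ⟨hs.inj2, hs.inj1, fun x y h => hs.disj y x h.symm, fun x' => (hs.surj x').symm, hs.a2, hs.a1,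
      hs.L2, hs.L1⟩

end Pool.Agent.MP_6374aa_gt
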