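import Pool.Agent.MP_6374aa_gt.IfB

/-! The homology of a graft. -/

namespace Pool.Agent.MP_6374aa_gt

open Classical

noncomputable section

variable {V : Type} {G : SimpleGraph V} {A M B : Set V} {v : V}

theorem mem_Lk_GFacts {S : Set V} {x : V} : x ∈ Lk G S {v} ↔ x ∈ S ∧ G.Adj v x := by
  simp [Lk]

theorem col_mem_GFacts {x : V} (hx : x ∈ A) : col A v x = x := if_pos hx

theorem col_not_mem_GFacts {x : V} (hx : x ∉ A) : col A v x = v := if_neg hx

theorem Lk_sub_GFacts (h : Graft G A M B v) {S : Set V} (hS : S ⊆ A) :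
    Lk G S {v} ⊆ Lk G M {v} := fun x hx => by
  rw [← h.lk]
  exact mem_Lk_GFacts.2 ⟨hS (mem_Lk_GFacts.1 hx).1, (mem_Lk_GFacts.1 hx).2⟩

theorem far_GFacts (h : Graft G A M B v) {x : V} (hx : x ∈ M \ insert v (Lk G M {v})) :
    x ∉ A := fun ha => hx.2 (by rw [← h.lk, ← h.inter]; exact ⟨ha, hx.1⟩)

theorem subM_GFacts {T : Set V} (hT : T ⊆ Lk G M {v}) :
    (M \ insert v (Lk G M {v})) ∪ T ⊆ M \ {v} := by
  rintro x (hx | hx)
  · exact ⟨hx.1, fun e => hx.2 (Or.inl e)⟩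
  · exact Lk_sub_ChC1 (hT hx)

theorem subB_GFacts (h : Graft G A M B v) : M \ {v} ⊆ B := fun _ hx =>
  h.mem_GrB3.2 ⟨Or.inr hx.1, hx.2⟩

/-- the collapse sends chains of the far side into the cone -/
theorem cone_GFacts (h : Graft G A M B v) {T : Set V} (hT : T ⊆ Lk G M {v}) :
    IsHom G ((M \ insert v (Lk G M {v})) ∪ T) G (insert v T) (col A v) := by
  refine h.col_hom.mono ((subM_GFacts hT).trans (subB_GFacts h)) ?_
  rintro x (hx | hx)
  · rw [col_not_mem_GFacts (far_GFacts h hx)]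
    exact Or.inl rfl
  · have h1 := hT hx
    rw [← h.lk] at h1
    rw [col_mem_GFacts h1.1]
    exact Or.inr hx

theorem cone2_GFacts (h : Graft G A M B v) :
    IsHom G (M \ {v}) G (insert v (Lk G M {v})) (col A v) := by
  refine (cone_GFacts h (T := Lk G M {v}) subset_rfl).mono ?_ ?_
  · intro x hx
    by_cases h1 : x ∈ Lk G M {v}
    · exact Or.inr h1
    · exact Or.inl ⟨hx.1, fun e => e.elim hx.2 h1⟩
  · intro x hx
    by_cases h1 : x ∈ A
    · rw [col_mem_GFacts h1, ← h.lk, ← h.inter]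
      exact ⟨h1, hx.1⟩
    · rw [col_not_mem_GFacts h1]
      exact Or.inl rfl

theorem adq_GFacts {S : Set V} : ∀ t ∈ insert v (Lk G S {v}), Adq G v t := by
  rintro t (rfl | ht)
  · exact Adq.refl G _
  · exact Or.inr (mem_Lk_GFacts.1 ht).2

theorem star_GFacts {S : Set V} (hv : v ∈ S) (n : ℕ) :
    Zy G (insert v (Lk G S {v})) n ≤ Bd G S n :=
  Zy_le_Bd_of_cone hv (Set.insert_subset hv fun _ hx => hx.1) adq_GFacts n

theorem vx_star_GFacts {S : Set V} {n : ℕ} {u : EA V} (hu : u ∈ Ch G (Lk G S {v}) n) :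
    vx v * u ∈ Ch G (insert v (Lk G S {v})) (n + 1) :=
  vx_mul_mem_Ch (Set.mem_insert _ _) (Set.subset_insert _ _)
    (fun t ht => adq_GFacts t (Or.inr ht)) hu

theorem fill_GFacts (h : Graft G A M B v) (R : Rem G M v) {T : Set V} (hT : T ⊆ Lk G M {v})
    {m : ℕ} {u : EA V} (hu : u ∈ Zy G T m) :
    ∃ w ∈ Ch G ((M \ insert v (Lk G M {v})) ∪ T) (m + 1), bd w = u ∧
      (m + 1 ≤ 3 → w - vx v * u ∈ Bd G M (m + 1)) := by
  have h1 : u ∈ Bd G M m :=
    star_GFacts h.memM m (Zy_mono (hT.trans (Set.subset_insert _ _)) m hu)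
  obtain ⟨w0, hw0, e0⟩ := mem_Bd.1 (R.inj T hT m u (Zy_mono Set.subset_union_right m hu) h1)
  by_cases hm : m + 1 ≤ 3
  · have h2 : w0 - vx v * u ∈ Zy G M (m + 1) := by
      refine mem_Zy.2 ⟨Submodule.sub_mem _
        (Ch_mono ((subM_GFacts hT).trans Set.sdiff_subset) _ hw0) ?_, ?_⟩
      · exact Ch_mono (Set.insert_subset h.memM fun _ hx => hx.1) _
          (vx_star_GFacts (Ch_mono hT m (mem_Zy.1 hu).1))
      · rw [map_sub, bd_vx_mul, e0, (mem_Zy.1 hu).2, mul_zero, sub_zero, sub_self]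
    obtain ⟨y, hy, b, hb, e⟩ := Submodule.mem_sup.1 (R.surj T hT (m + 1) hm h2)
    refine ⟨w0 - y, Submodule.sub_mem _ hw0 (mem_Zy.1 hy).1, ?_, fun _ => ?_⟩
    · rw [map_sub, e0, (mem_Zy.1 hy).2, sub_zero]
    · have : w0 - y - vx v * u = b := by rw [sub_right_comm, ← e, add_sub_cancel_left]
      rwa [this]
  · exact ⟨w0, hw0, e0, fun h3 => absurd h3 hm⟩

theorem g1_GFacts (h : Graft G A M B v) (R : Rem G M v) (n : ℕ) (S : Set V) (hS : S ⊆ A)
    (z : EA V) (hz : z ∈ Zy G S n) : ∃ z' ∈ Zy G (B ∩ col A v ⁻¹' S) n,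
    emap (col A v) z' - z ∈ Bd G S n ∧ (n ≤ 3 → emap (col M v) z' ∈ Bd G M n) := by
  have hfix : emap (col A v) z = z :=
    emap_eq_self (fun a ha => col_mem_GFacts (hS ha)) (mem_Zy.1 hz).1
  by_cases hv : v ∈ S
  swap
  · rw [h.pre_of_not_mem hS hv]
    refine ⟨z, hz, by rw [hfix, sub_self]; exact Submodule.zero_mem _, fun _ => ?_⟩
    have h1 := emap_mem_Zy (cone2_GFacts h.symm)
      (Zy_mono (show S ⊆ A \ {v} from fun x hx => ⟨hS hx, fun e => hv (e ▸ hx)⟩) n hz)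
    rw [h.lk] at h1
    exact star_GFacts h.memM n h1
  rcases n with _ | m
  · have h1 : ∀ X : Set V, z ∈ Zy G X 0 := fun X =>
      mem_Zy.2 ⟨mem_Ch_zero.2 (mem_Ch_zero.1 (mem_Zy.1 hz).1), (mem_Zy.1 hz).2⟩
    refine ⟨z, h1 _, by rw [hfix, sub_self]; exact Submodule.zero_mem _, fun _ => ?_⟩
    exact PConn.Zy_zero_le ⟨v, h.memM⟩ (emap_mem_Zy h.symm.col_hom (h1 B))
  have hT := Lk_sub_GFacts h hS
  have hu := iv_mem_Zy v hz
  have hr := sub_vx_mul_iv_mem_Ch v (mem_Zy.1 hz).1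
  generalize iv v z = u at hu hr
  have hbu : bd (vx v * u) = u := by rw [bd_vx_mul, (mem_Zy.1 hu).2, mul_zero, sub_zero]
  obtain ⟨w, hw, e, hb⟩ := fill_GFacts h R hT hu
  have hbr : bd (z - vx v * u) = -u := by rw [map_sub, hbu, (mem_Zy.1 hz).2, zero_sub]
  rw [h.pre_of_mem hS hv]
  refine ⟨w + (z - vx v * u), mem_Zy.2 ⟨Submodule.add_mem _ (Ch_mono ?_ _ hw)
    (Ch_mono Set.subset_union_left _ hr), ?_⟩, ?_, fun hm => ?_⟩
  · rintro x (hx | hx)
    · exact Or.inr hx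
    · exact Or.inl (Lk_sub_ChC1 hx)
  · rw [map_add, e, hbr, add_neg_cancel]
  · have h1 : emap (col A v) (z - vx v * u) = z - vx v * u :=
      emap_eq_self (fun a ha => col_mem_GFacts (hS ha.1)) hr
    have h2 : emap (col A v) u = u :=
      emap_eq_self (fun a ha => col_mem_GFacts (hS ha.1)) (mem_Zy.1 hu).1
    have h3 : emap (col A v) (w + (z - vx v * u)) - z = emap (col A v) w - vx v * u := by
      rw [map_add, h1]
      abel
    rw [h3]
    refine star_GFacts hv _ (mem_Zy.2 ⟨Submodule.sub_mem _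
      (emap_mem_Ch (cone_GFacts h hT) hw) (vx_star_GFacts (mem_Zy.1 hu).1), ?_⟩)
    rw [map_sub, hbu, ← emap_bd, e, h2, sub_self]
  · have h1 : emap (col M v) w = w :=
      emap_eq_self (fun a ha => col_mem_GFacts (subM_GFacts hT ha).1) hw
    have h2 : emap (col M v) u = u :=
      emap_eq_self (fun a ha => col_mem_GFacts (hT ha).1) (mem_Zy.1 hu).1
    have h3 := emap_mem_Ch (cone2_GFacts h.symm)
      (Ch_mono (show S \ {v} ⊆ A \ {v} from fun x hx => ⟨hS hx.1, hx.2⟩) _ hr)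
    rw [h.lk] at h3
    have h4 : emap (col M v) (z - vx v * u) + vx v * u ∈ Bd G M (m + 1) := by
      refine star_GFacts h.memM _ (mem_Zy.2 ⟨Submodule.add_mem _ h3
        (vx_star_GFacts (Ch_mono hT m (mem_Zy.1 hu).1)), ?_⟩)
      rw [map_add, hbu, ← emap_bd, hbr, map_neg, h2, neg_add_cancel]
    have h5 : emap (col M v) (w + (z - vx v * u)) =
        (w - vx v * u) + (emap (col M v) (z - vx v * u) + vx v * u) := by
      rw [map_add, h1]
      abel
    rw [h5]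
    exact Submodule.add_mem _ (hb hm) h4

theorem g2_GFacts (h : Graft G A M B v) (R : Rem G M v) (n : ℕ) (S : Set V) (hS : S ⊆ A)
    (z : EA V) (hz : z ∈ Zy G (B ∩ col A v ⁻¹' S) n) (hc : emap (col A v) z ∈ Bd G S n)
    (hd : emap (col M v) z ∈ Bd G M n) : z ∈ Bd G (B ∩ col A v ⁻¹' S) n := by
  by_cases hv : v ∈ S
  swap
  · rw [h.pre_of_not_mem hS hv] at hz ⊢
    rwa [emap_eq_self (fun a ha => col_mem_GFacts (hS ha)) (mem_Zy.1 hz).1] at hc
  have hT := Lk_sub_GFacts h hS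
  have hP := h.pre_of_mem hS hv
  have hsplit : Ch G (B ∩ col A v ⁻¹' S) n ≤
      Ch G (S \ {v}) n ⊔ Ch G ((M \ insert v (Lk G M {v})) ∪ Lk G S {v}) n := by
    refine Ch_le_sup fun l hl => ?_
    rcases h.clique ⟨fun x hx => (hl.1 x hx).1, hl.2⟩ with h1 | h1
    · refine Or.inl fun x hx => ?_
      have h2 := hl.1 x hx
      rw [hP] at h2
      exact h2.resolve_right fun h3 => far_GFacts h h3 (h1 x hx).1
    · refine Or.inr fun x hx => ?_
      have h2 := hl.1 x hx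
      rw [hP] at h2
      rcases h2 with h2 | h2
      · have h3 : x ∈ A ∩ M := ⟨hS h2.1, (h1 x hx).1⟩
        rw [h.inter] at h3
        exact Or.inr (mem_Lk_GFacts.2 ⟨h2.1, (mem_Lk_GFacts.1 (h3.resolve_left h2.2)).2⟩)
      · exact Or.inl h2
  obtain ⟨z0, hz0, zF, hzF, e⟩ := Submodule.mem_sup.1 (hsplit (mem_Zy.1 hz).1)
  obtain ⟨q, hq, eq⟩ := mem_Bd.1 hc
  have hu := iv_mem_Ch v hq
  have hu0 := sub_vx_mul_iv_mem_Ch v hq
  generalize iv v q = u at hu hu0
  have h1 : emap (col A v) z0 = z0 := emap_eq_self (fun a ha => col_mem_GFacts (hS ha.1)) hz0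
  have h2 : z0 - bd (q - vx v * u) = bd (vx v * u) - emap (col A v) zF := by
    rw [map_sub, eq, ← e, map_add, h1]
    abel
  have ht : z0 - bd (q - vx v * u) ∈ Ch G (Lk G S {v}) n := by
    refine Ch_mono ?_ n (mem_Ch_inter (Submodule.sub_mem _ hz0 (bd_mem_Ch hu0))
      (T := insert v (Lk G S {v})) ?_)
    · exact fun x hx => hx.2.resolve_left hx.1.2
    · rw [h2]
      exact Submodule.sub_mem _ (bd_mem_Ch (vx_star_GFacts hu))
        (emap_mem_Ch (cone_GFacts h hT) hzF)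
  have h3 : z - bd (q - vx v * u) ∈ Zy G ((M \ insert v (Lk G M {v})) ∪ Lk G S {v}) n := by
    refine mem_Zy.2 ⟨?_, by rw [map_sub, bd_bd, (mem_Zy.1 hz).2, sub_zero]⟩
    have : z - bd (q - vx v * u) = zF + (z0 - bd (q - vx v * u)) := by
      rw [← e]
      abel
    rw [this]
    exact Submodule.add_mem _ hzF (Ch_mono Set.subset_union_right n ht)
  have h4 : z - bd (q - vx v * u) ∈ Bd G M n := by
    rw [← emap_eq_self (f := col M v) (fun a ha => col_mem_GFacts (subM_GFacts hT ha).1)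
      (mem_Zy.1 h3).1, map_sub]
    refine Submodule.sub_mem _ hd (emap_mem_Bd h.symm.col_hom (mem_Bd.2 ⟨_, Ch_mono ?_ _ hu0, rfl⟩))
    exact fun x hx => h.mem_GrB3.2 ⟨Or.inl (hS hx.1), hx.2⟩
  have h5 := R.inj _ hT n _ h3 h4
  rw [hP, ← sub_add_cancel z (bd (q - vx v * u))]
  refine Submodule.add_mem _ (Bd_mono ?_ n h5)
    (mem_Bd.2 ⟨_, Ch_mono Set.subset_union_left _ hu0, rfl⟩)
  rintro x (hx | hx)
  · exact Or.inr hx
  · exact Or.inl (Lk_sub_ChC1 hx)

theorem gFacts : GFactsStmt := by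
  intro V G A M B v h R
  refine ⟨g1_GFacts h R, g2_GFacts h R, fun n hn m hm => ?_, fun z hz hc => ?_⟩
  · obtain ⟨y, hy, b, hb, e⟩ := Submodule.mem_sup.1 (R.surj ∅ (Set.empty_subset _) n hn hm)
    refine ⟨y, ?_, ?_, ?_⟩
    · rw [h.pre_of_mem (Set.singleton_subset_iff.2 h.memA) (Set.mem_singleton v)]
      refine Zy_mono ?_ n hy
      rintro x (hx | hx)
      · exact Or.inr hx
      · exact hx.elim
    · rw [← e, sub_add_cancel_left]
      exact Submodule.neg_mem _ hb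
    · exact emap_eq_self (fun a ha => col_mem_GFacts (subM_GFacts (Set.empty_subset _) ha).1)
        (mem_Zy.1 hy).1
  · obtain ⟨z1, h1, z2, h2, e⟩ := Submodule.mem_sup.1
      (Ch_le_sup (fun l hl => h.clique hl) (mem_Zy.1 hz).1)
    rw [← e, map_add, emap_eq_self (fun a ha => col_mem_GFacts ha.1) h1,
      add_eq_zero_iff_eq_neg] at hc
    have h3 : z1 ∈ Ch G (insert v (Lk G M {v})) 4 := by
      rw [hc]
      exact Submodule.neg_mem _ (emap_mem_Ch (cone2_GFacts h) h2)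
    refine R.top z (mem_Zy.2 ⟨?_, (mem_Zy.1 hz).2⟩)
    rw [← e]
    refine Submodule.add_mem _ (Ch_mono ?_ 4 (mem_Ch_inter h1 h3)) h2
    exact fun x hx => Lk_sub_ChC1 (hx.2.resolve_left hx.1.2)

theorem far_ne_GFacts (h : Graft G A M B v) (R : Rem G M v) :
    (M \ insert v (Lk G M {v})).Nonempty := by
  by_contra h1
  have h2 : ∀ X : Set V, (1 : EA V) ∈ Zy G X 0 := fun X =>
    mem_Zy.2 ⟨mem_Ch_zero.2 ⟨1, (one_smul _ _).symm⟩, bd_one⟩
  obtain ⟨w, hw, e⟩ := mem_Bd.1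
    (R.inj ∅ (Set.empty_subset _) 0 1 (h2 _) (PConn.Zy_zero_le ⟨v, h.memM⟩ (h2 _)))
  rw [Set.not_nonempty_iff_eq_empty.1 h1, Set.union_empty] at hw
  rw [empty_ChC2 hw, map_zero] at e
  exact wedge_ne_zero (V := V) List.nodup_nil (wedge_nil.trans e.symm)

theorem gLoc : GLocStmt := by
  intro V G A M B v h R H
  refine ⟨h.col_hom, fun a ha => ?_, fun n S hS z hz hc hb => ?_, fun n S hS z hz => ?_,
    fun n hn S hS z hz hc => ?_, fun n hn s z hs hz hb u hu => ?_, H.top⟩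
  · by_cases h1 : a = v
    · obtain ⟨w, hw⟩ := far_ne_GFacts h R
      exact ⟨w, subB_GFacts h ⟨hw.1, fun e => hw.2 (Or.inl e)⟩,
        (col_not_mem_GFacts (far_GFacts h hw)).trans h1.symm⟩
    · exact ⟨a, h.mem_GrB3.2 ⟨Or.inl ha, h1⟩, col_mem_GFacts ha⟩
  · exact H.g2 n S hS z hz hc (emap_mem_Bd h.symm.col_hom hb)
  · obtain ⟨z', h1, h2, -⟩ := H.g1 n S hS z hz
    exact ⟨z', h1, h2⟩
  · by_cases hv : v ∈ S
    swap
    · refine Submodule.mem_sup_left ?_
      rw [h.pre_of_not_mem hS hv] at hz ⊢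
      rwa [emap_eq_self (fun a ha => col_mem_GFacts (hS ha)) (mem_Zy.1 hz).1] at hc
    obtain ⟨y, hy, h1, h2⟩ := H.g3 n (by omega) _
      (emap_mem_Zy h.symm.col_hom (Zy_mono Set.inter_subset_left n hz))
    have h3 : emap (col A v) y = 0 :=
      emap_eq_zero_of_const (u := v) (fun a ha => ha.2) (by omega) (mem_Zy.1 hy).1
    have h4 : z - y ∈ Bd G (B ∩ col A v ⁻¹' S) n := by
      refine H.g2 n S hS _ (Submodule.sub_mem _ hz (Zy_mono ?_ n hy)) ?_ ?_
      · exact Set.inter_subset_inter_right _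
          (Set.preimage_mono (Set.singleton_subset_iff.2 hv))
      · rwa [map_sub, h3, sub_zero]
      · rw [map_sub, h2, ← neg_sub]
        exact Submodule.neg_mem _ h1
    rw [← sub_add_cancel z y]
    exact Submodule.add_mem_sup h4 (Submodule.mem_iSup_of_mem v (Submodule.mem_iSup_of_mem hv hy))
  · have h0 : ∀ w ∈ s, w ≠ v → z w = 0 := fun w hw hne => by
      have h1 := (mem_Zy.1 (hz w hw)).1
      rw [h.pre_of_not_mem (Set.singleton_subset_iff.2 (hs hw)) (fun e => hne e.symm),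
        Ch_eq_bot fun t ht _ e => ?_] at h1
      · exact (Submodule.mem_bot _).1 h1
      · have h2 : t.card ≤ ({w} : Finset V).card :=
          Finset.card_le_card fun x hx => Finset.mem_singleton.2 (ht hx)
        rw [Finset.card_singleton] at h2
        omega
    by_cases h1 : u = v
    · subst h1
      rwa [Finset.sum_eq_single_of_mem u hu h0] at hb
    · rw [h0 u hu h1]
      exact Submodule.zero_mem _

end

end Pool.Agent.MP_6374aa_gt
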