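import Pool.Agent.MP_6374aa_gt.IfC

/-! The first two properties of the sites of a graft. -/

namespace Pool.Agent.MP_6374aa_gt

open Classical

variable {V : Type} {G : SimpleGraph V} {A M B : Set V} {v : V}

theorem one_GK12 (h : VkOneStmt) (D : VKD G A M B v) (P1 : Pack G A) (hM : PConn G M)
    (hg : Graft G A M B v) {y : V} (hy : y ∈ B) {H : Subgroup (Gp G B)} (hH : H ≤ Loop G B y)
    (h0 : H ≠ ⊥) (hE : HasE H) {w : D.Q} (hw : ∀ δ ∈ H, w⁻¹ * D.ι δ * w ∈ D.jn1.range) :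
    ∃ x γ, Path G B y (D.s (P1.a x)) γ ∧ ∀ δ ∈ H, γ⁻¹ * δ * γ ∈ (P1.Λ x).map D.i1 := by
  obtain ⟨u, m, hu⟩ : ∃ u m, ∀ δ ∈ H,
      m⁻¹ * δ * m = D.i1 (u⁻¹ * gmap G B G A (col A v) δ * u) := by
    refine ⟨D.k1 (col A v y) * D.pr1 w, (D.Pp y)⁻¹ * D.κ w, fun δ hδ => ?_⟩
    have hp := (mem_Loop hy).1 (hH hδ)
    obtain ⟨g, e⟩ := hw δ hδ
    have e1 := congrArg D.pr1 e
    have e2 := congrArg D.κ e
    rw [D.h1.prjn, map_mul, map_mul, map_inv, D.h1.proj _ _ _ hp] at e1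
    rw [D.κ1, map_mul, map_mul, map_inv, D.kappa _ _ _ hp, e1] at e2
    calc _ = (D.κ w)⁻¹ * (D.Pp y * δ * (D.Pp y)⁻¹) * D.κ w := by group
      _ = _ := by
        rw [← e2]
        congr 1
        group
  have hi : ∀ δ ∈ H, gmap G B G A (col A v) δ = 1 → δ = 1 := by
    intro δ hδ e
    have := hu δ hδ
    rw [e, mul_one, inv_mul_cancel, map_one] at this
    calc δ = m * (m⁻¹ * δ * m) * m⁻¹ := by group
      _ = 1 := by rw [this, mul_one, mul_inv_cancel]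
  obtain ⟨x, γ0, -, h2⟩ := P1.k1 _ (hg.col_hom.1 y hy) (H.map (gmap G B G A (col A v)))
    (by
      rintro _ ⟨δ, hδ, rfl⟩
      exact gmap_mem_Loop hg.col_hom hy (hH hδ))
    (fun e => h0 (eq_bot_iff.2 fun δ hδ =>
      hi δ hδ (Subgroup.mem_bot.1 (e ▸ Subgroup.mem_map_of_mem _ hδ))))
    (hE.map _ hi)
  obtain ⟨-, -, h3, h4⟩ := h V G A M B v D hg _ (P1.mem x)
  obtain ⟨γ, h5, h6⟩ := exists_path_conj (h4 P1.conn hM) hy (D.smem _ (Or.inl (P1.mem x)))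
    (m * D.i1 (u⁻¹ * γ0))
  refine ⟨x, γ, h5, fun δ hδ => ?_⟩
  have h7 := h2 _ (Subgroup.mem_map_of_mem _ hδ)
  have h8 : (m * D.i1 (u⁻¹ * γ0))⁻¹ * δ * (m * D.i1 (u⁻¹ * γ0)) =
      D.i1 (γ0⁻¹ * gmap G B G A (col A v) δ * γ0) := by
    calc _ = (D.i1 (u⁻¹ * γ0))⁻¹ * (m⁻¹ * δ * m) * D.i1 (u⁻¹ * γ0) := by group
      _ = _ := by
        rw [hu δ hδ, ← map_inv, ← map_mul, ← map_mul]
        congr 1
        group
  rw [h6 δ (hH hδ) (h8 ▸ h3 _ (P1.loop x h7)), h8]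
  exact Subgroup.mem_map_of_mem _ h7

theorem gK1 (h : VkOneStmt) : GK1Stmt := by
  intro V G A M B v D P1 P2 hg y hy H hH h0 hE
  obtain ⟨w, hw⟩ := D.kur H hE (D.ι.comp H.subtype) ((injective_iff_map_eq_one _).2 fun δ e => by
    have e1 := D.kappa _ _ _ ((mem_Loop hy).1 (hH δ.2))
    have e2 : D.ι δ.1 = 1 := e
    rw [e2, map_one, eq_comm, mul_inv_eq_one, mul_eq_left] at e1
    exact Subtype.ext e1)
  rcases hw with hw | hw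
  · obtain ⟨x, γ, h1, h2⟩ := one_GK12 h D P1 P2.conn hg hy hH h0 hE fun δ hδ => hw ⟨δ, hδ⟩
    exact ⟨.inl x, γ, h1, h2⟩
  · obtain ⟨x, γ, h1, h2⟩ := one_GK12 h D.swap P2 P1.conn hg.symm hy hH h0 hE (w := w)
      fun δ hδ => hw ⟨δ, hδ⟩
    exact ⟨.inr x, γ, h1, h2⟩

theorem same_GK12 (D : VKD G A M B v) (P1 : Pack G A) (hg : Graft G A M B v) {x x' : P1.X}
    {γ δ : Gp G B} (hγ : Path G B (D.s (P1.a x)) (D.s (P1.a x')) γ)
    (hδ : δ ∈ (P1.Λ x).map D.i1) (h0 : δ ≠ 1) (h1 : γ⁻¹ * δ * γ ∈ (P1.Λ x').map D.i1) :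
    x = x' ∧ γ ∈ (P1.Λ x).map D.i1 := by
  obtain ⟨δ0, d0, rfl⟩ := hδ
  obtain ⟨δ1, d1, e⟩ := h1
  have n0 : δ0 ≠ 1 := fun e => h0 (by rw [e, map_one])
  have e1 := congrArg D.ι e
  rw [map_mul, map_mul, map_inv, D.h1.iota _ _ _ ((mem_Loop (P1.mem x)).1 (P1.loop x d0)),
    D.h1.iota _ _ _ ((mem_Loop (P1.mem x')).1 (P1.loop x' d1))] at e1
  obtain ⟨u, hu⟩ := D.h1.mal _ _ _ (fun e => n0 (by
    rwa [mul_assoc, inv_mul_eq_one, eq_comm, mul_eq_right] at e)) e1.symm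
  have e2 := congrArg D.pr1 e1
  rw [← hu, D.h1.prjn, map_mul D.pr1, map_mul D.pr1, map_inv D.pr1, D.h1.prjn, D.h1.prjn] at e2
  have e3 := D.h1.proj _ _ _ hγ
  rw [← hu, D.h1.prjn] at e3
  have e4 := D.kappa _ _ _ hγ
  rw [← hu, D.κ1, D.Ps _ (Or.inl (P1.mem x)), D.Ps _ (Or.inl (P1.mem x')), one_mul, inv_one,
    mul_one] at e4
  have q : ∀ a ∈ A, Path G A a (col A v (D.s a)) (D.k1 a * (D.k1 (col A v (D.s a)))⁻¹) := by
    intro a ha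
    have h1 := D.h1.kpath _ (hg.col_hom.1 _ (D.smem a (Or.inl ha)))
    rw [D.h1.ts a ha] at h1
    exact (D.h1.kpath a ha).trans h1.symm
  have p := ((q _ (P1.mem x)).trans (hγ.map hg.col_hom)).trans (q _ (P1.mem x')).symm
  have e5 : D.k1 (P1.a x) * (D.k1 (col A v (D.s (P1.a x))))⁻¹ * gmap G B G A (col A v) γ *
      (D.k1 (P1.a x') * (D.k1 (col A v (D.s (P1.a x'))))⁻¹)⁻¹ =
        D.k1 (P1.a x) * u * (D.k1 (P1.a x'))⁻¹ := by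
    rw [e3]
    group
  rw [e5] at p
  obtain ⟨r1, r2⟩ := P1.k2 x x' _ p δ0 d0 n0 (by
    have : (D.k1 (P1.a x) * u * (D.k1 (P1.a x'))⁻¹)⁻¹ * δ0 *
        (D.k1 (P1.a x) * u * (D.k1 (P1.a x'))⁻¹) = δ1 := by
      calc _ = D.k1 (P1.a x') * (u⁻¹ * ((D.k1 (P1.a x))⁻¹ * δ0 * D.k1 (P1.a x)) * u) *
            (D.k1 (P1.a x'))⁻¹ := by group
        _ = _ := by
          rw [← e2]
          group
    rw [this]
    exact d1)
  refine ⟨r1, _, r2, ?_⟩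
  rw [map_mul, map_mul, map_inv, D.h1.ik _ (P1.mem x), D.h1.ik _ (P1.mem x'), one_mul, inv_one,
    mul_one, e4]

theorem diff_GK12 (D : VKD G A M B v) (P1 : Pack G A) (P2 : Pack G M) {x : P1.X} {x' : P2.X}
    {γ δ : Gp G B} (hδ : δ ∈ (P1.Λ x).map D.i1) (h1 : γ⁻¹ * δ * γ ∈ (P2.Λ x').map D.i2) :
    δ = 1 := by
  obtain ⟨δ0, d0, rfl⟩ := hδ
  obtain ⟨δ1, d1, e⟩ := h1
  have e1 := congrArg D.pr1 (congrArg D.ι e)
  rw [map_mul D.ι, map_mul D.ι, D.h1.iota _ _ _ ((mem_Loop (P1.mem x)).1 (P1.loop x d0)),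
    D.h2.iota _ _ _ ((mem_Loop (P2.mem x')).1 (P2.loop x' d1)), D.pr12, map_mul, map_mul,
    map_inv, map_inv, D.h1.prjn, eq_comm, mul_assoc, inv_mul_eq_one, eq_comm, mul_eq_right,
    mul_assoc, inv_mul_eq_one, eq_comm, mul_eq_right] at e1
  rw [e1, map_one]

theorem gK2 (_h : VkOneStmt) : GK2Stmt := by
  intro V G A M B v D P1 P2 hg x x' γ hγ δ hδ h0 h1
  rcases x with x | x <;> rcases x' with x' | x'
  · obtain ⟨r1, r2⟩ := same_GK12 D P1 hg hγ hδ h0 h1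
    exact ⟨congrArg _ r1, r2⟩
  · exact absurd (diff_GK12 D P1 P2 hδ h1) h0
  · exact absurd (diff_GK12 D.swap P2 P1 hδ h1) h0
  · obtain ⟨r1, r2⟩ := same_GK12 D.swap P2 hg.symm hγ hδ h0 h1
    exact ⟨congrArg _ r1, r2⟩

end Pool.Agent.MP_6374aa_gt
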