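import Pool.Agent.MP_6374aa_gt.IfC

namespace Pool.Agent.MP_6374aa_gt

open Classical

variable {V : Type} {G : SimpleGraph V} {A M B : Set V} {v : V}

/-- The part of a component away from the fibre over `v` maps to the cover of the graft. -/
theorem hom_GLift (D : VKD G A M B v) (h : Graft G A M B v) (a : V) (Γ : Subgroup (Gp G A)) :
    ∃ φ : V → Gp G A ⧸ Γ → Gp G B ⧸ Γ.map D.i1,
      IsHom (cov G (gen G A) (Gp G A ⧸ Γ)) (comp G A Γ a \ {p | p.1 = v})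
        (cov G (gen G B) (Gp G B ⧸ Γ.map D.i1)) (comp G B (Γ.map D.i1) (D.s a))
        fun p => (p.1, φ p.1 p.2) := by
  let φ : V → Gp G A ⧸ Γ → Gp G B ⧸ Γ.map D.i1 := fun u q =>
    Quotient.liftOn' q (fun γ => QuotientGroup.mk ((D.Pp u)⁻¹ * D.i1 γ)) fun x y hxy => by
      rw [QuotientGroup.leftRel_apply] at hxy
      refine QuotientGroup.eq.2 ⟨_, hxy, ?_⟩
      rw [map_mul, map_inv]
      group
  have hφ : ∀ u γ, φ u (QuotientGroup.mk γ) = QuotientGroup.mk ((D.Pp u)⁻¹ * D.i1 γ) :=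
    fun _ _ => rfl
  have hB : ∀ u ∈ A, u ≠ v → u ∈ B := fun u hu hv => h.mem_GrB3.2 ⟨Or.inl hu, hv⟩
  refine ⟨φ, ?_, ?_⟩
  · rintro ⟨u, q⟩ ⟨⟨γ, h1, h2⟩, h3⟩
    exact ⟨(D.Pp u)⁻¹ * D.i1 γ,
      (D.Ppath u (hB u h1.mem_left h3)).symm.trans (D.h1.path u a γ h1),
      (congrArg (φ u) h2).trans (hφ u γ)⟩
  · rintro ⟨u, p⟩ ⟨hp, hp'⟩ ⟨w, q⟩ ⟨hq, hq'⟩ ⟨h1, h2, -⟩
    have hu : u ∈ A := comp_subset hp
    have hw : w ∈ A := comp_subset hq
    refine (cov_adq (flat_gen G B) (hB u hu hp') (hB w hw hq')).2 ⟨Or.inr h1, ?_⟩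
    obtain ⟨γ, -, h3⟩ := hq
    have h4 : q = QuotientGroup.mk γ := h3
    have h5 : p = QuotientGroup.mk (gen G A u w * γ) := by
      have h6 : p = gen G A u w • q := h2
      rw [h6, h4]
      rfl
    change φ u p = gen G B u w • φ w q
    rw [h5, h4, hφ, hφ, map_mul, D.h1.edge u ⟨hu, hp'⟩ w ⟨hw, hq'⟩ (Or.inr h1)]
    change _ = QuotientGroup.mk (gen G B u w * ((D.Pp w)⁻¹ * D.i1 γ))
    congr 1
    group

theorem gLift : GLiftStmt := by
  intro V G A M B v D h hl a _ Γ n hn z hz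
  obtain ⟨m, rfl⟩ : ∃ m, n = m + 1 := ⟨n - 1, by omega⟩
  obtain ⟨_, ⟨z1, hz1, rfl⟩, b, hb, rfl⟩ := Submodule.mem_sup.1 hz
  have hS : ∀ p ∈ comp G A Γ a, p.1 ∈ A := fun p hp => comp_subset hp
  have hav := Zy_le_avoid (G := cov G (gen G A) (Gp G A ⧸ Γ)) (S := comp G A Γ a)
    (N := {p | p.1 = v}) (n := m)
    (fun p hp q hq hpq => G.irrefl (v := v) (by
      have h1 := hpq.1
      rwa [show p.1 = v from hp, show q.1 = v from hq] at h1))
    (fun p hp hp' w hw => by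
      have iso := cov_link_iso (flat_gen G A) hS hp'
        fun x hx hpx => comp_closed hp' hx (Or.inr hpx)
      refine iso.mem_Bd hw.1 ?_
      have h1 := emap_mem_Zy iso.isHom hw
      rw [show p.1 = v from hp] at h1 ⊢
      exact hl m (by omega) h1) hz1
  obtain ⟨z2, hz2, b2, hb2, rfl⟩ := Submodule.mem_sup.1 hav
  obtain ⟨φ, hφ⟩ := hom_GLift D h a Γ
  refine ⟨_, Submodule.mem_sup_left ⟨_, emap_mem_Zy hφ hz2, rfl⟩, ?_⟩
  have h1 : emap (col A v) (emap Prod.fst (emap (fun p : V × (Gp G A ⧸ Γ) =>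
      (p.1, φ p.1 p.2)) z2)) = emap Prod.fst z2 := by
    rw [emap_comp, emap_comp]
    exact emap_congr (fun p hp => if_pos (hS p hp.1)) hz2.1
  rw [h1, map_add, add_assoc, sub_add_cancel_left]
  exact neg_mem (add_mem (emap_mem_Bd (cov_fst_hom _ hS) hb2) hb)

end Pool.Agent.MP_6374aa_gt
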