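import Pool.Agent.MP_6374aa_gt.IfP

/-! The comparison along a map whose completed cone has trivial phase. -/

namespace Pool.Agent.MP_6374aa_gt

open Classical Matrix

section Gen

variable {S I I' J K : Type} [CommRing S]

theorem row_GeoAlg [Fintype I'] {deg : I → ℕ} {deg' : I' → ℕ} {a b : ℕ} {M : Matrix I I' S}
    {N : Matrix I' K S} (hM : ∀ i j, M i j ≠ 0 → deg' j = b → deg i = a)
    (hN : ∀ j k, deg' j ≠ b → N j k = 0) : ∀ i k, deg i ≠ a → (M * N) i k = 0 := by
  intro i k hi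
  rw [Matrix.mul_apply]
  refine Finset.sum_eq_zero fun j _ => ?_
  by_cases h : M i j = 0
  · rw [h, zero_mul]
  · rw [hN j k fun e => hi (hM i j h e), mul_zero]

theorem col_GeoAlg [Fintype I] {deg : I → ℕ} {deg' : I' → ℕ} {a b : ℕ} {M : Matrix I I' S}
    {N : Matrix K I S} (hM : ∀ i j, M i j ≠ 0 → deg i = b → deg' j = a)
    (hN : ∀ k i, deg i ≠ b → N k i = 0) : ∀ k j, deg' j ≠ a → (N * M) k j = 0 := by
  intro k j hj
  rw [Matrix.mul_apply]
  refine Finset.sum_eq_zero fun i _ => ?_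
  by_cases h : M i j = 0
  · rw [h, mul_zero]
  · rw [hN k i fun e => hj (hM i j h e), zero_mul]

theorem rowr_GeoAlg [Fintype J] {deg : I → ℕ} {a : ℕ} {M : Matrix I J S} (N : Matrix J K S)
    (hM : ∀ i j, deg i ≠ a → M i j = 0) : ∀ i k, deg i ≠ a → (M * N) i k = 0 := by
  intro i k hi
  rw [Matrix.mul_apply]
  exact Finset.sum_eq_zero fun j _ => by rw [hM i j hi, zero_mul]

variable [Fintype I] [DecidableEq I] [Fintype I'] [DecidableEq I'] [Fintype J] [DecidableEq J]
  {deg : I → ℕ} {deg' : I' → ℕ} {D : Matrix I I S} {D' : Matrix I' I' S} {Φ : Matrix I I' S}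
  {Wm : Matrix I (J ⊕ J) S} {Z Y : Matrix I' J S}

omit [DecidableEq I] [DecidableEq I'] [DecidableEq J] in
theorem cx_GeoAlg (hc : IsCx (dcone deg deg' (d23 J)) (cone D Φ Wm D' (fromCols Z Y))) :
    D * Φ = Φ * D' ∧ D * Wm.toCols₁ = Φ * Z ∧ (∀ i j, Φ i j ≠ 0 → deg' j = deg i) ∧
      ∀ i j, deg i ≠ 2 → Wm.toCols₁ i j = 0 := by
  obtain ⟨h1, h2⟩ := hc
  refine ⟨?_, ?_, ?_, ?_⟩
  · ext i j
    have := congrFun (congrFun h2 (Sum.inl i)) (Sum.inr (Sum.inl j))
    simp only [cone, Matrix.mul_apply, Fintype.sum_sum_type, fromBlocks_apply₁₁,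
      fromBlocks_apply₁₂, fromBlocks_apply₂₂, fromCols_apply_inl, fromCols_apply_inr,
      Matrix.neg_apply, fromBlocks_apply₂₁, Matrix.zero_apply, mul_zero,
      Finset.sum_const_zero, add_zero, mul_neg, Finset.sum_neg_distrib] at this
    simp only [Matrix.mul_apply]
    linear_combination this
  · ext i j
    have := congrFun (congrFun h2 (Sum.inl i)) (Sum.inr (Sum.inr (Sum.inl j)))
    simp only [cone, Matrix.mul_apply, Fintype.sum_sum_type, fromBlocks_apply₁₁,
      fromBlocks_apply₁₂, fromBlocks_apply₂₂, fromCols_apply_inl, fromCols_apply_inr,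
      Matrix.neg_apply, Matrix.zero_apply, mul_zero,
      Finset.sum_const_zero, add_zero, mul_neg, Finset.sum_neg_distrib] at this
    simp only [Matrix.mul_apply, toCols₁_apply]
    linear_combination this
  · intro i j h
    have := h1 (Sum.inl i) (Sum.inr (Sum.inl j)) (by simpa [cone] using h)
    simpa [dcone] using this
  · intro i j hi
    by_contra h
    have := h1 (Sum.inl i) (Sum.inr (Sum.inr (Sum.inl j))) (by simpa [cone] using h)
    simp only [dcone, d23, Sum.elim_inl, Sum.elim_inr] at this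
    omega

/-- Cycles of degree one lift. -/
theorem up_GeoAlg {h : Matrix (I ⊕ (I' ⊕ (J ⊕ J))) (I ⊕ (I' ⊕ (J ⊕ J))) S}
    (hh : IsCtr (dcone deg deg' (d23 J)) (cone D Φ Wm D' (fromCols Z Y)) h)
    (Z0 : Matrix I K S) (hd : ∀ i j, deg i ≠ 1 → Z0 i j = 0) (hz : D * Z0 = 0) :
    ∃ (a : Matrix I' K S) (b : Matrix I K S), (∀ i j, deg' i ≠ 1 → a i j = 0) ∧
      (∀ i j, deg i ≠ 2 → b i j = 0) ∧ D' * a = 0 ∧ Z0 = D * b + Φ * a := by
  obtain ⟨h1, h2⟩ := hh
  set X : Matrix (I ⊕ (I' ⊕ (J ⊕ J))) K S := fromRows Z0 0 with hX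
  have hdX : cone D Φ Wm D' (fromCols Z Y) * X = 0 := by
    rw [hX, cone, fromBlocks_mul_fromRows, hz]
    simp
  have e1 : cone D Φ Wm D' (fromCols Z Y) * (h * X) = X := by
    have := congrArg (· * X) h2
    simp only [Matrix.add_mul, Matrix.mul_assoc, hdX, Matrix.mul_zero, add_zero,
      Matrix.one_mul] at this
    exact this
  have hdeg : ∀ i k, dcone deg deg' (d23 J) i ≠ 2 → (h * X) i k = 0 := by
    refine row_GeoAlg (deg' := dcone deg deg' (d23 J)) (b := 1) (fun i j hij e => ?_) ?_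
    · rw [h1 i j hij, e]
    · rintro (j | j) k hj
      · exact hd j k (by simpa [dcone] using hj)
      · simp [hX]
  have hc : ∀ j k, (h * X) (Sum.inr (Sum.inr j)) k = 0 := by
    intro j k
    refine hdeg _ _ ?_
    rcases j with j | j <;> simp [dcone, d23]
  refine ⟨fun i k => (h * X) (Sum.inr (Sum.inl i)) k, fun i k => (h * X) (Sum.inl i) k,
    fun i k hi => hdeg _ _ (by simpa [dcone] using hi),
    fun i k hi => hdeg _ _ (by simpa [dcone] using hi), ?_, ?_⟩
  · ext i k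
    have := congrFun (congrFun e1 (Sum.inr (Sum.inl i))) k
    rw [Matrix.mul_apply] at this
    simp only [cone, Fintype.sum_sum_type, fromBlocks_apply₂₁, fromBlocks_apply₂₂,
      fromBlocks_apply₁₁, Matrix.neg_apply, Matrix.zero_apply, zero_mul, hc, mul_zero,
      Finset.sum_const_zero, add_zero, zero_add, neg_mul, Finset.sum_neg_distrib] at this
    rw [hX] at this
    simp only [fromRows_apply_inr, Matrix.zero_apply, neg_eq_zero] at this
    rw [Matrix.mul_apply]
    exact this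
  · ext i k
    have := congrFun (congrFun e1 (Sum.inl i)) k
    rw [Matrix.mul_apply] at this
    simp only [cone, Fintype.sum_sum_type, fromBlocks_apply₁₂, fromBlocks_apply₁₁,
      fromCols_apply_inl, hc, mul_zero, Finset.sum_const_zero, add_zero] at this
    rw [Matrix.add_apply, Matrix.mul_apply, Matrix.mul_apply, this, hX]
    simp

/-- Cocycles of degree one descend. -/
theorem down_GeoAlg {h : Matrix (I ⊕ (I' ⊕ (J ⊕ J))) (I ⊕ (I' ⊕ (J ⊕ J))) S}
    (hh : IsCtr (dcone deg deg' (d23 J)) (cone D Φ Wm D' (fromCols Z Y)) h)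
    (U : Matrix K I' S) (hd : ∀ k j, deg' j ≠ 1 → U k j = 0) (u1 : U * D' = 0) (u2 : U * Z = 0)
    (u3 : U * Y = 0) :
    ∃ (α : Matrix K I S) (β : Matrix K I' S), (∀ k j, deg j ≠ 1 → α k j = 0) ∧
      α * D = 0 ∧ α * Φ = U + β * D' := by
  obtain ⟨h1, h2⟩ := hh
  set R : Matrix K (I ⊕ (I' ⊕ (J ⊕ J))) S := fromCols 0 (fromCols U 0) with hR
  have hRd : R * cone D Φ Wm D' (fromCols Z Y) = 0 := by
    rw [hR, cone, fromCols_mul_fromBlocks, Matrix.mul_neg, fromCols_mul_fromBlocks,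
      mul_fromCols U, u1, u2, u3]
    simp
  have e1 : (R * h) * cone D Φ Wm D' (fromCols Z Y) = R := by
    have := congrArg (R * ·) h2
    simp only [Matrix.mul_add, ← Matrix.mul_assoc, hRd, Matrix.zero_mul, zero_add,
      Matrix.mul_one] at this
    exact this
  have hdeg : ∀ k j, dcone deg deg' (d23 J) j ≠ 1 → (R * h) k j = 0 := by
    refine col_GeoAlg (deg := dcone deg deg' (d23 J)) (b := 2) (fun i j hij e => ?_) ?_
    · have := h1 i j hij
      omega
    · rintro k (j | j | j) hj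
      · simp [hR]
      · exact hd k j (by simpa [dcone] using hj)
      · simp [hR]
  refine ⟨fun k i => (R * h) k (Sum.inl i), fun k i => (R * h) k (Sum.inr (Sum.inl i)),
    fun k i hi => hdeg _ _ (by simpa [dcone] using hi), ?_, ?_⟩
  · ext k i
    have := congrFun (congrFun e1 k) (Sum.inl i)
    rw [Matrix.mul_apply] at this
    simp only [cone, Fintype.sum_sum_type, fromBlocks_apply₂₁, fromBlocks_apply₁₁,
      Matrix.zero_apply, mul_zero, Finset.sum_const_zero, add_zero] at this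
    rw [Matrix.mul_apply, this, hR]
    simp
  · ext k i
    have := congrFun (congrFun e1 k) (Sum.inr (Sum.inl i))
    rw [Matrix.mul_apply] at this
    simp only [cone, Fintype.sum_sum_type, fromBlocks_apply₁₂, fromBlocks_apply₂₂,
      fromBlocks_apply₁₁, fromBlocks_apply₂₁, fromCols_apply_inl, Matrix.neg_apply,
      Matrix.zero_apply, mul_zero, Finset.sum_const_zero, add_zero, mul_neg,
      Finset.sum_neg_distrib] at this
    have hU : R k (Sum.inr (Sum.inl i)) = U k i := by simp [hR]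
    rw [Matrix.add_apply, Matrix.mul_apply, Matrix.mul_apply, ← hU, ← this]
    ring

end Gen

theorem geoAlg (hK : GeoKeyStmt) (hA : ValAnyMStmt) (hI : IdemSplitStmt) : GeoAlgStmt := by
  intro C I I' J _ _ _ _ _ _ _ _ deg deg' D Γ D' Γ' Φ Wm Z A Y K u H τ
  obtain ⟨c1, c2, c3, c4⟩ := cx_GeoAlg H.cx
  obtain ⟨h, hh, -⟩ := H.tor
  constructor
  · intro hV
    obtain ⟨J', _, _, Z', A', v, dp', ⟨h', hh', -⟩, -⟩ := id hV
    have sp' : Spans deg' D' Z' := spans_of_isCtr hh'
    obtain ⟨μ, m1, -, e1⟩ := sp'.deg H.cap'.cx dp'.dZ Z H.dp.dZ fun j =>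
      funext fun i => congrFun (congrFun H.dp.cyc i) j
    have eμ : A'ᴴ * Z = μ := by
      rw [e1, Matrix.mul_add, ← Matrix.mul_assoc, ← Matrix.mul_assoc, dp'.pair, dp'.coc]
      simp
    have eQ : Aᴴ * Z' * μ = 1 := by
      have := H.dp.pair
      rw [e1, Matrix.mul_add, ← Matrix.mul_assoc, ← Matrix.mul_assoc, H.dp.coc] at this
      simpa using this
    generalize hQ : Aᴴ * Z' = Q at eQ
    obtain ⟨n, X2, Y2, x1, x2⟩ := hI C J' (1 - μ * Q)
      ((Fintype.card J' : ℂ) - (Fintype.card J : ℂ))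
      (by
        have : μ * Q * (μ * Q) = μ * Q := by
          rw [Matrix.mul_assoc, ← Matrix.mul_assoc Q, eQ, Matrix.one_mul]
        rw [Matrix.sub_mul, Matrix.mul_sub, Matrix.mul_sub, this]
        simp)
      (fun χ => by
        rw [Matrix.trace_sub, Matrix.trace_mul_comm, eQ]
        simp)
    have q1 : Q * X2 = 0 := by
      calc Q * X2 = Q * (X2 * Y2) * X2 := by
            rw [Matrix.mul_assoc, Matrix.mul_assoc, x2, Matrix.mul_one]
        _ = 0 := by
            rw [x1, Matrix.mul_sub, ← Matrix.mul_assoc, eQ]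
            simp
    have q2 : Y2 * μ = 0 := by
      calc Y2 * μ = Y2 * ((X2 * Y2) * μ) := by
            rw [← Matrix.mul_assoc, ← Matrix.mul_assoc, x2, Matrix.one_mul]
        _ = 0 := by
            rw [x1, Matrix.sub_mul, Matrix.mul_assoc, eQ]
            simp
    have aΓ : A'ᴴ * Γ' = 0 := by
      refine Matrix.ext fun k j => ?_
      rw [Matrix.mul_apply]
      refine Finset.sum_eq_zero fun i _ => ?_
      by_cases hi : Γ' i j = 0
      · rw [hi, mul_zero]
      · have := (H.cap'.dΓ i j hi).1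
        rw [conjTranspose_apply, dp'.dA i k (by omega), star_zero, zero_mul]
    obtain ⟨α, β, a1, a2, a3⟩ := down_GeoAlg hh (Y2 * A'ᴴ)
      (fun k j hj => by
        rw [Matrix.mul_apply]
        exact Finset.sum_eq_zero fun i _ => by
          rw [conjTranspose_apply, dp'.dA j i hj, star_zero, mul_zero])
      (by rw [Matrix.mul_assoc, dp'.coc, Matrix.mul_zero])
      (by rw [Matrix.mul_assoc, eμ, q2])
      (by
        rw [Matrix.mul_assoc, H.hY, Matrix.mul_add, ← Matrix.mul_assoc, ← Matrix.mul_assoc, aΓ,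
          dp'.coc]
        simp)
    have z1 : ∀ i j, deg' i ≠ 1 → (Z' * X2) i j = 0 := rowr_GeoAlg X2 dp'.dZ
    have z2 : D' * (Z' * X2) = 0 := by rw [← Matrix.mul_assoc, dp'.cyc, Matrix.zero_mul]
    have dp0 : DualPair deg D (Φ * (Z' * X2)) αᴴ :=
      { dZ := row_GeoAlg (fun i j hij e => (c3 i j hij).symm.trans e) z1
        dA := fun i j hi => by rw [conjTranspose_apply, a1 j i hi, star_zero]
        cyc := by rw [← Matrix.mul_assoc, c1, Matrix.mul_assoc, z2, Matrix.mul_zero]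
        coc := by rw [conjTranspose_conjTranspose, a2]
        pair := by
          rw [conjTranspose_conjTranspose, ← Matrix.mul_assoc, a3, Matrix.add_mul,
            Matrix.mul_assoc β, z2, Matrix.mul_assoc, ← Matrix.mul_assoc A'ᴴ, dp'.pair]
          simpa using x2 }
    obtain ⟨k1, k2⟩ := hK C I I' J (Fin n) deg deg' D Γ D' Γ' Φ Wm Z A Y K u
      (Φ * (Z' * X2)) αᴴ 0 (Z' * X2) H dp0 z1 z2
      (by rw [← Matrix.mul_assoc, hQ, q1]) (fun _ _ _ => rfl) (by simp)
    have sp : Spans deg' D' (fromCols Z (Z' * X2)) := by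
      intro x hx hc
      obtain ⟨ν, y, e⟩ := sp' x hx hc
      refine ⟨Sum.elim (Q.mulVec ν) (Y2.mulVec ν), y - (m1 * Q).mulVec ν, ?_⟩
      have eZ : Z' = Z * Q + Z' * X2 * Y2 - D' * (m1 * Q) := by
        rw [Matrix.mul_assoc Z' X2, x1, Matrix.mul_sub, e1, Matrix.add_mul, Matrix.mul_assoc,
          Matrix.mul_assoc, Matrix.mul_one]
        abel
      rw [fromCols_mulVec_sumElim, mulVec_mulVec, mulVec_mulVec, mulVec_sub, mulVec_mulVec, e]
      conv_lhs => rw [eZ]
      rw [sub_mulVec, add_mulVec]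
      abel
    obtain ⟨w, w1, w2⟩ := (k2 τ).2 (hA C I' (J ⊕ Fin n) deg' D' Γ' _ _ τ H.cap' hV k1 sp)
    exact ⟨Fin n, inferInstance, inferInstance, _, _, w, dp0, w1, w2⟩
  · rintro ⟨J0, _, _, Z0, A0, v, dp0, t0, s0⟩
    obtain ⟨a, b, a1, b1, a2, e⟩ := up_GeoAlg hh Z0 dp0.dZ dp0.cyc
    obtain ⟨k1, k2⟩ := hK C I I' J J0 deg deg' D Γ D' Γ' Φ Wm Z A Y K u Z0 A0
      (-b - Wm.toCols₁ * (Aᴴ * a)) (a - Z * (Aᴴ * a)) H dp0
      (fun i j hi => by
        rw [Matrix.sub_apply, a1 i j hi, rowr_GeoAlg _ H.dp.dZ i j hi, sub_zero])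
      (by rw [Matrix.mul_sub, a2, ← Matrix.mul_assoc, H.dp.cyc]; simp)
      (by rw [Matrix.mul_sub, ← Matrix.mul_assoc, H.dp.pair]; simp)
      (fun i j hi => by
        rw [Matrix.sub_apply, Matrix.neg_apply, b1 i j hi, rowr_GeoAlg _ c4 i j hi]
        simp)
      (by
        rw [Matrix.mul_sub, Matrix.mul_sub, ← Matrix.mul_assoc Φ, ← Matrix.mul_assoc D, c2, e,
          Matrix.mul_neg]
        abel)
    obtain ⟨w, w1, w2⟩ := (k2 τ).1 ⟨v, t0, s0⟩
    exact ⟨J ⊕ J0, inferInstance, inferInstance, _, _, w, k1, w1, w2⟩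

end Pool.Agent.MP_6374aa_gt
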