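import Pool.Agent.MP_6374aa_gt.GeoConeB

/-! The mapping cone has trivial torsion. -/

namespace Pool.Agent.MP_6374aa_gt

open Classical

section

variable {C : Type} [CommGroup C] [Fintype C] {V V' B : Type} {G : SimpleGraph V} {A : Set V}
  {α : C →* Equiv.Perm V} {G' : SimpleGraph V'} {A' : Set V'} {α' : C →* Equiv.Perm V'}
  {f : V' → V} {β : C →* Equiv.Perm B} {B0 : Set B} {St : ℕ → B → Set V} {pos : Finset V → B}
  {J : Type} [Fintype J] {z : J → EA V'} {dz : J → ℕ} {pz : J → B} {w : J → EA V}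
  {F : Frame G A α} {F' : Frame G' A' α'} {D : Matrix F.I F.I (RC C)}
  {D' : Matrix F'.I F'.I (RC C)} {Φ : Matrix F.I F'.I (RC C)} {Wm : Matrix F.I J (RC C)}
  {Z : Matrix F'.I J (RC C)}

theorem ex0_GeoCone (h : Geo G A α G' A' α' f β B0 St pos z dz pz w)
    (hα : Act G A α) (hα' : Act G' A' α') (hf : IsHom G' A' G A f) (he : Eqv A' α' α f)
    (hD : F.IsBd D) (hD' : F'.IsBd D') (hΦ : F.IsCo Φ fun i => emap f (wedge (F'.s i)))
    {m : ℕ} {c : B} (hc : c ∈ B0) {b : F.I → RC C} (b1 : ∀ i, F.deg i ≠ 0 → b i = 0)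
    (b2 : ∀ i g, (b i).coeff g ≠ 0 → St 0 (β g (pos (F.s i).toFinset)) ⊆ St m c) :
    ∃ (e : F.I → RC C) (a : F'.I → RC C), (∀ i, F.deg i ≠ 1 → e i = 0) ∧
      (∀ i g, (e i).coeff g ≠ 0 → St 0 (β g (pos (F.s i).toFinset)) ⊆ St (m + 2) c) ∧
      (∀ i, F'.deg i ≠ 0 → a i = 0) ∧
      (∀ i g, (a i).coeff g ≠ 0 → St 0 (β g (pos ((F'.s i).map f).toFinset)) ⊆ St (m + 2) c) ∧
      D.mulVec e + Φ.mulVec a = b ∧ D'.mulVec a = 0 := by
  obtain ⟨E, hE, Y, hY, e0⟩ := loc0_GeoCone h hc (toCh_GeoCone h hα b1 b2)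
  obtain ⟨e, -, -, rfl⟩ := F.exists_ev hα (h.sub _ c) (n := 1) hE
  obtain ⟨a, -, -, rfl⟩ := F'.exists_ev hα' Set.inter_subset_left (n := 0) hY
  obtain ⟨e1, e2⟩ := ofCh_GeoCone h hα hc (n := 1) hE
  obtain ⟨a1, a2⟩ := ofCh'_GeoCone h hα' hf he hc (n := 0) hY
  refine ⟨e, a, e1, e2, a1, a2, F.ev_injective hα ?_, hD'.mulVec_zero hα' a1⟩
  rw [F.ev_add, hD.ev_mulVec (n := 0) e1, evPhi_GeoCone he hΦ, e0]

theorem exS_GeoCone (h : Geo G A α G' A' α' f β B0 St pos z dz pz w)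
    (hα : Act G A α) (hα' : Act G' A' α') (hf : IsHom G' A' G A f) (he : Eqv A' α' α f)
    (hD : F.IsBd D) (hD' : F'.IsBd D') (hΦ : F.IsCo Φ fun i => emap f (wedge (F'.s i)))
    (hW : F.IsCo Wm w) (hZ : F'.IsCo Z z) {m p : ℕ} {c : B} (hc : c ∈ B0) {b : F.I → RC C}
    (b1 : ∀ i, F.deg i ≠ p + 1 → b i = 0)
    (b2 : ∀ i g, (b i).coeff g ≠ 0 → St 0 (β g (pos (F.s i).toFinset)) ⊆ St m c)
    {a : F'.I → RC C} (a1 : ∀ i, F'.deg i ≠ p → a i = 0)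
    (a2 : ∀ i g, (a i).coeff g ≠ 0 → St 0 (β g (pos ((F'.s i).map f).toFinset)) ⊆ St m c)
    (d1 : D.mulVec b + Φ.mulVec a = 0) (d2 : D'.mulVec a = 0) :
    ∃ (e : F.I → RC C) (a' : F'.I → RC C) (μ : J → RC C), (∀ i, F.deg i ≠ p + 2 → e i = 0) ∧
      (∀ i g, (e i).coeff g ≠ 0 → St 0 (β g (pos (F.s i).toFinset)) ⊆ St (m + 3) c) ∧
      (∀ i, F'.deg i ≠ p + 1 → a' i = 0) ∧
      (∀ i g, (a' i).coeff g ≠ 0 → St 0 (β g (pos ((F'.s i).map f).toFinset)) ⊆ St (m + 3) c) ∧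
      (∀ j, dz j ≠ p + 1 → μ j = 0) ∧
      (∀ j g, (μ j).coeff g ≠ 0 → St 0 (β g (pz j)) ⊆ St (m + 1) c) ∧
      D.mulVec e + Φ.mulVec a' + Wm.mulVec μ = b ∧ -(D'.mulVec a' + Z.mulVec μ) = a := by
  have hX := toCh_GeoCone h hα b1 b2
  have hY := toCh'_GeoCone h hα' hf he a1 a2
  have e1 : bd (F.ev b) + emap f (F'.ev a) = 0 := by
    rw [← hD.ev_mulVec b1, ← evPhi_GeoCone he hΦ, ← F.ev_add, d1, F.ev_zero]
  have e2 : bd (F'.ev a) = 0 := by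
    cases p with
    | zero => exact cyc0_GeoCone hY e1
    | succ p => rw [← hD'.ev_mulVec a1, d2, F'.ev_zero]
  obtain ⟨E, hE, Y, hY', μ, m1, m2, f1, f2⟩ := loc_GeoCone h hα hf he hc hX hY e1 e2
  obtain ⟨e, -, -, rfl⟩ := F.exists_ev hα (h.sub _ c) (n := p + 2) hE
  obtain ⟨a', -, -, rfl⟩ := F'.exists_ev hα' Set.inter_subset_left (n := p + 1) hY'
  obtain ⟨g1, g2⟩ := ofCh_GeoCone h hα hc (n := p + 2) hE
  obtain ⟨g3, g4⟩ := ofCh'_GeoCone h hα' hf he hc (n := p + 1) hY'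
  refine ⟨e, a', μ, g1, g2, g3, g4, m1, m2, F.ev_injective hα ?_, F'.ev_injective hα' ?_⟩
  · rw [F.ev_add, F.ev_add, hD.ev_mulVec (n := p + 1) g1, evPhi_GeoCone he hΦ, hW.ev_mulVec, f1]
  · rw [F'.ev_neg, F'.ev_add, hD'.ev_mulVec g3, hZ.ev_mulVec, f2]

theorem mu_GeoCone (hα' : Act G' A' α') (hd : ∀ j, dz j = 2 ∨ dz j = 3)
    (hi : ∀ n (μ : J → RC C), (∀ j, dz j ≠ n → μ j = 0) →
      ∑ j, act α' (μ j) (z j) ∈ Bd G' A' n → ∀ j, μ j = 0)
    (hD' : F'.IsBd D') (hZ : F'.IsCo Z z) {n : ℕ} {a : F'.I → RC C}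
    (a1 : ∀ i, F'.deg i + 1 ≠ n → a i = 0) {μ : J → RC C} (m1 : ∀ j, dz j + 1 ≠ n → μ j = 0)
    (d2 : D'.mulVec a + Z.mulVec μ = 0) : μ = 0 := by
  funext j
  by_cases hn : n ≤ 2
  · have := hd j
    exact m1 j (by omega)
  · obtain ⟨p, rfl⟩ : ∃ p, n = p + 2 := ⟨n - 2, by omega⟩
    have a2 : ∀ i, F'.deg i ≠ p + 1 → a i = 0 := fun i hi => a1 i (by omega)
    have h1 : F'.ev a ∈ Ch G' A' (p + 1 + 1) :=
      F'.ev_mem_Ch hα' a2 fun i g _ v hv => hα'.mem g v ((F'.cl i).1 v hv)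
    refine hi (p + 1) μ (fun j hj => m1 j (by omega))
      (mem_Bd.2 ⟨-F'.ev a, Submodule.neg_mem _ h1, ?_⟩) j
    have h2 := congrArg F'.ev d2
    rw [F'.ev_add, hD'.ev_mulVec a2, hZ.ev_mulVec, F'.ev_zero] at h2
    rw [map_neg, neg_eq_of_add_eq_zero_right h2]

theorem ex_GeoCone (h : Geo G A α G' A' α' f β B0 St pos z dz pz w)
    (hα : Act G A α) (hα' : Act G' A' α') (hf : IsHom G' A' G A f) (he : Eqv A' α' α f)
    (hd : ∀ j, dz j = 2 ∨ dz j = 3)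
    (hi : ∀ n (μ : J → RC C), (∀ j, dz j ≠ n → μ j = 0) →
      ∑ j, act α' (μ j) (z j) ∈ Bd G' A' n → ∀ j, μ j = 0)
    (hD : F.IsBd D) (hD' : F'.IsBd D') (hΦ : F.IsCo Φ fun i => emap f (wedge (F'.s i)))
    (hW : F.IsCo Wm w) (hZ : F'.IsCo Z z) (m n : ℕ) {c : B} (hc : c ∈ B0)
    (x : F.I ⊕ F'.I ⊕ J → RC C)
    (x1 : ∀ i, Sum.elim F.deg (Sum.elim (fun i => F'.deg i + 1) fun j => dz j + 1) i ≠ n →
      x i = 0)
    (x2 : ∀ i g, (x i).coeff g ≠ 0 → St 0 (β g (Sum.elim (fun i => pos (F.s i).toFinset)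
        (Sum.elim (fun i => pos ((F'.s i).map f).toFinset) pz) i)) ⊆ St m c)
    (x3 : (Matrix.fromBlocks D (Matrix.fromCols Φ Wm) 0
      (-Matrix.fromBlocks D' Z 0 (0 : Matrix J J (RC C)))).mulVec x = 0) :
    ∃ y : F.I ⊕ F'.I ⊕ J → RC C,
      (∀ i, Sum.elim F.deg (Sum.elim (fun i => F'.deg i + 1) fun j => dz j + 1) i ≠ n + 1 →
        y i = 0) ∧
      (∀ i g, (y i).coeff g ≠ 0 → St 0 (β g (Sum.elim (fun i => pos (F.s i).toFinset)
        (Sum.elim (fun i => pos ((F'.s i).map f).toFinset) pz) i)) ⊆ St (m + 3) c) ∧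
      (Matrix.fromBlocks D (Matrix.fromCols Φ Wm) 0
        (-Matrix.fromBlocks D' Z 0 (0 : Matrix J J (RC C)))).mulVec y = x := by
  obtain ⟨b, a, μ, rfl⟩ : ∃ (b : F.I → RC C) (a : F'.I → RC C) (μ : J → RC C),
      x = Sum.elim b (Sum.elim a μ) :=
    ⟨fun i => x (.inl i), fun i => x (.inr (.inl i)), fun i => x (.inr (.inr i)), by
      funext i
      rcases i with i | i | i <;> rfl⟩
  rw [mv_GeoCone] at x3
  have d1 : D.mulVec b + Φ.mulVec a + Wm.mulVec μ = 0 := funext fun i => congrFun x3 (.inl i)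
  have d2 : D'.mulVec a + Z.mulVec μ = 0 :=
    neg_eq_zero.1 (funext fun i => congrFun x3 (.inr (.inl i)))
  have b1 : ∀ i, F.deg i ≠ n → b i = 0 := fun i => x1 (.inl i)
  have a1 : ∀ i, F'.deg i + 1 ≠ n → a i = 0 := fun i => x1 (.inr (.inl i))
  have m1 : ∀ j, dz j + 1 ≠ n → μ j = 0 := fun j => x1 (.inr (.inr j))
  have b2 : ∀ i g, (b i).coeff g ≠ 0 → St 0 (β g (pos (F.s i).toFinset)) ⊆ St m c :=
    fun i => x2 (.inl i)
  have a2 : ∀ i g, (a i).coeff g ≠ 0 → St 0 (β g (pos ((F'.s i).map f).toFinset)) ⊆ St m c :=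
    fun i => x2 (.inr (.inl i))
  obtain rfl := mu_GeoCone hα' hd hi hD' hZ a1 m1 d2
  rw [Matrix.mulVec_zero, add_zero] at d1 d2
  cases n with
  | zero =>
    obtain rfl : a = 0 := funext fun i => a1 i (Nat.succ_ne_zero _)
    obtain ⟨e, a', g1, g2, g3, g4, g5, g6⟩ := ex0_GeoCone h hα hα' hf he hD hD' hΦ hc b1 b2
    refine ⟨Sum.elim e (Sum.elim a' 0), ?_, ?_, ?_⟩
    · rintro (i | i | i) hi
      · exact g1 i hi
      · exact g3 i fun h0 => hi (congrArg (· + 1) h0)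
      · rfl
    · rintro (i | i | i) g hg
      · exact (g2 i g hg).trans (h.mono _ c)
      · exact (g4 i g hg).trans (h.mono _ c)
      · exact absurd rfl hg
    · rw [mv_GeoCone, g5, g6, Matrix.mulVec_zero, Matrix.mulVec_zero, add_zero, add_zero,
        neg_zero]
  | succ p =>
    obtain ⟨e, a', μ, g1, g2, g3, g4, g5, g6, g7, g8⟩ := exS_GeoCone h hα hα' hf he hD hD' hΦ hW
      hZ hc b1 b2 (fun i hi => a1 i fun h0 => hi (Nat.succ_injective h0)) a2 d1 d2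
    refine ⟨Sum.elim e (Sum.elim a' μ), ?_, ?_, ?_⟩
    · rintro (i | i | i) hi
      · exact g1 i hi
      · exact g3 i fun h0 => hi (congrArg (· + 1) h0)
      · exact g5 i fun h0 => hi (congrArg (· + 1) h0)
    · rintro (i | i | i) g hg
      · exact g2 i g hg
      · exact g4 i g hg
      · exact (g6 i g hg).trans (le_GeoCone h (by omega) c)
    · rw [mv_GeoCone, g7, g8]

end

theorem geoCone (hC : CctStmt) : GeoConeStmt := by
  intro C _ _ V V' B G A α G' A' α' f β B0 St pos J _ _ z dz pz w F F' D D' Φ Wm Z hα hα' h3 h3'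
    hf he h hd hz hi hD hD' hΦ hW hZ
  have hx := isCx_GeoCone h hα hα' hf he hd hz hD hD' hΦ hW hZ
  refine ⟨hx, hC C B _ β B0 (fun k a b => St 0 a ⊆ St (3 * k + 1) b)
    (Sum.elim (fun i => pos (F.s i).toFinset)
      (Sum.elim (fun i => pos ((F'.s i).map f).toFinset) pz)) _ _ ?_ ?_ hx h.inv
    (fun k g a b hab => eqv_GeoCone h g hab) (fun k a _ => le_GeoCone h (Nat.zero_le _) a)
    (fun k a b hab => hab.trans (le_GeoCone h (by omega) b))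
    (fun k a _ b hb c hc hab hbc =>
      (hab.trans (h.trans _ b hb c hc hbc)).trans (le_GeoCone h (by omega) c))
    (ctl_GeoCone h hα hα' hf he hd hD hD' hΦ hW hZ)
    (fun k n c hc x x1 x2 x3 =>
      ex_GeoCone h hα hα' hf he hd hi hD hD' hΦ hW hZ (3 * k + 1) n hc x x1 x2 x3) ?_⟩
  · rintro (i | i | i)
    · exact (pos_GeoCone h (F.cl i) (F.ne i)).1
    · exact (pos_GeoCone h (isCl_GeoCone hf (F'.cl i)) (ne_GeoCone F' f i)).1
    · exact (h.hz i).1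
  · rintro (i | i | i)
    · exact (F.deg_le h3 i).trans (Nat.le_succ 3)
    · exact Nat.succ_le_succ (F'.deg_le h3' i)
    · have := hd i
      simp only [Sum.elim_inr]
      omega
  · intro I K _ _ _ _ pI pK h1 h2 M N e1 e2 c1 c2 e
    exact h.van I K pI pK h1 h2 M N e1 e2
      (fun j i g hg => (c1 j i g hg).trans (le_GeoCone h (by omega) _))
      (fun j i g hg => (c2 j i g hg).trans (le_GeoCone h (by omega) _)) e

end Pool.Agent.MP_6374aa_gt
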