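import Pool.Agent.MP_6374aa_gt.IfQ
import Pool.Agent.MP_6374aa_gt.GeoCone

/-! The compressed mapping cone and the comparison of phases along controlled maps. -/

namespace Pool.Agent.MP_6374aa_gt

open Classical Matrix

section

variable {R I I' J : Type} [CommRing R] [Fintype I] [Fintype I'] [Fintype J] [DecidableEq I]
  [DecidableEq I'] (D : Matrix I I R) (Φ : Matrix I I' R) (Wm : Matrix I J R)
  (D' : Matrix I' I' R) (Z : Matrix I' J R) (E : Matrix J J R)

theorem left_GeoCone2 :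
    fromBlocks 1 0 0 (fromBlocks 1 0 0 E) * cone D Φ Wm D' Z = cone D Φ Wm D' Z := by
  simp [cone, fromBlocks_multiply]

theorem right_GeoCone2 (h1 : Wm * E = Wm) (h2 : Z * E = Z) :
    cone D Φ Wm D' Z * fromBlocks 1 0 0 (fromBlocks 1 0 0 E) = cone D Φ Wm D' Z := by
  simp [cone, fromBlocks_multiply, fromCols_mul_fromBlocks, h1, h2]

end

section

variable {C : Type} [CommGroup C] [Fintype C] {V V' B : Type} {G : SimpleGraph V} {A : Set V}
  {α : C →* Equiv.Perm V} {G' : SimpleGraph V'} {A' : Set V'} {α' : C →* Equiv.Perm V'}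
  {f : V' → V} {β : C →* Equiv.Perm B} {B0 : Set B} {St : ℕ → B → Set V} {pos : Finset V → B}
  {J : Type} [Fintype J] {z : J → EA V'} {dz : J → ℕ} {pz : J → B} {w : J → EA V}
  {F : Frame G A α} {F' : Frame G' A' α'} {D : Matrix F.I F.I (RC C)}
  {D' : Matrix F'.I F'.I (RC C)} {Φ : Matrix F.I F'.I (RC C)} {Wm : Matrix F.I J (RC C)}
  {Z : Matrix F'.I J (RC C)}

theorem bd_GeoCone2 (hα' : Act G' A' α') (hD' : F'.IsBd D') (hZ : F'.IsCo Z z) {p : ℕ}
    {a : F'.I → RC C} (a1 : ∀ i, F'.deg i + 1 ≠ p + 2 → a i = 0) {μ : J → RC C}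
    (d2 : D'.mulVec a + Z.mulVec μ = 0) : ∑ j, act α' (μ j) (z j) ∈ Bd G' A' (p + 1) := by
  have a2 : ∀ i, F'.deg i ≠ p + 1 → a i = 0 := fun i hi => a1 i (by omega)
  have h1 : F'.ev a ∈ Ch G' A' (p + 1 + 1) :=
    F'.ev_mem_Ch hα' a2 fun i g _ v hv => hα'.mem g v ((F'.cl i).1 v hv)
  refine mem_Bd.2 ⟨-F'.ev a, Submodule.neg_mem _ h1, ?_⟩
  have h2 := congrArg F'.ev d2
  rw [F'.ev_add, hD'.ev_mulVec a2, hZ.ev_mulVec, F'.ev_zero] at h2
  rw [map_neg, neg_eq_of_add_eq_zero_right h2]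

theorem ex_GeoCone2 (h : Geo G A α G' A' α' f β B0 St pos z dz pz w)
    (hα : Act G A α) (hα' : Act G' A' α') (hf : IsHom G' A' G A f) (he : Eqv A' α' α f)
    (hD : F.IsBd D) (hD' : F'.IsBd D') (hΦ : F.IsCo Φ fun i => emap f (wedge (F'.s i)))
    (hW : F.IsCo Wm w) (hZ : F'.IsCo Z z) (m n : ℕ) {c : B} (hc : c ∈ B0)
    {b : F.I → RC C} {a : F'.I → RC C} (b1 : ∀ i, F.deg i ≠ n → b i = 0)
    (a1 : ∀ i, F'.deg i + 1 ≠ n → a i = 0)
    (b2 : ∀ i g, (b i).coeff g ≠ 0 → St 0 (β g (pos (F.s i).toFinset)) ⊆ St m c)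
    (a2 : ∀ i g, (a i).coeff g ≠ 0 → St 0 (β g (pos ((F'.s i).map f).toFinset)) ⊆ St m c)
    (d1 : D.mulVec b + Φ.mulVec a = 0) (d2 : D'.mulVec a = 0) :
    ∃ y : F.I ⊕ F'.I ⊕ J → RC C, (∀ i, dcone F.deg F'.deg dz i ≠ n + 1 → y i = 0) ∧
      (∀ i g, (y i).coeff g ≠ 0 → St 0 (β g (Sum.elim (fun i => pos (F.s i).toFinset)
        (Sum.elim (fun i => pos ((F'.s i).map f).toFinset) pz) i)) ⊆ St (m + 3) c) ∧
      (cone D Φ Wm D' Z).mulVec y = Sum.elim b (Sum.elim a 0) := by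
  cases n with
  | zero =>
    obtain rfl : a = 0 := funext fun i => a1 i (Nat.succ_ne_zero _)
    obtain ⟨e, a', g1, g2, g3, g4, g5, g6⟩ := ex0_GeoCone h hα hα' hf he hD hD' hΦ hc b1 b2
    refine ⟨Sum.elim e (Sum.elim a' 0), ?_, ?_, ?_⟩
    · rintro (i | i | i) hi
      · exact g1 i hi
      · exact g3 i fun h0 => hi (congrArg (· + 1) h0)
      · rfl
    · rintro (i | i | i) g hg
      · exact (g2 i g hg).trans (h.mono _ c)
      · exact (g4 i g hg).trans (h.mono _ c)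
      · exact absurd rfl hg
    · rw [cone, mv_GeoCone, g5, g6, Matrix.mulVec_zero, Matrix.mulVec_zero, add_zero, add_zero,
        neg_zero]
  | succ p =>
    obtain ⟨e, a', μ, g1, g2, g3, g4, g5, g6, g7, g8⟩ := exS_GeoCone h hα hα' hf he hD hD' hΦ hW
      hZ hc b1 b2 (fun i hi => a1 i fun h0 => hi (Nat.succ_injective h0)) a2 d1 d2
    refine ⟨Sum.elim e (Sum.elim a' μ), ?_, ?_, ?_⟩
    · rintro (i | i | i) hi
      · exact g1 i hi
      · exact g3 i fun h0 => hi (congrArg (· + 1) h0)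
      · exact g5 i fun h0 => hi (congrArg (· + 1) h0)
    · rintro (i | i | i) g hg
      · exact g2 i g hg
      · exact g4 i g hg
      · exact (g6 i g hg).trans (le_GeoCone h (by omega) c)
    · rw [cone, mv_GeoCone, g7, g8]

end

section

variable {C : Type} [CommGroup C] [Fintype C] {V' W : Type} [Fintype W] {G' : SimpleGraph V'}
  {A' : Set V'} {α' : C →* Equiv.Perm V'} {ζ' : EA V'} {z1 z2 a : W → EA V'}
  {e : Matrix W W (RC C)}

theorem mu_GeoCone2 (kd : KData G' A' α' ζ' z1 z2 a e) {n : ℕ} {μ : W ⊕ W → RC C}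
    (m1 : ∀ j, d23 W j + 1 ≠ n → μ j = 0) (hE : (fromBlocks e 0 0 eᴴ).mulVec μ = μ)
    (hb : ∀ p, n = p + 2 → ∑ j, act α' (μ j) (Sum.elim z1 z2 j) ∈ Bd G' A' (p + 1)) : μ = 0 := by
  rw [fromBlocks_mulVec, zero_mulVec, zero_mulVec, add_zero, zero_add] at hE
  simp only [Fintype.sum_sum_type, Sum.elim_inl, Sum.elim_inr] at hb
  funext j
  by_contra hj
  have hn : d23 W j + 1 = n := by_contra fun h => hj (m1 j h)
  rcases j with j | j
  · have h := hb 1 hn.symm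
    rw [Finset.sum_eq_zero (f := fun j => act α' (μ (.inr j)) (z2 j)) fun j _ => by
      rw [m1 (.inr j) (by rw [← hn]; simp [d23]), act_zero], add_zero] at h
    exact hj ((congrFun hE (.inl j)).symm.trans (congrFun (kd.rel1 _ h) j))
  · have h := hb 2 hn.symm
    rw [Finset.sum_eq_zero (f := fun j => act α' (μ (.inl j)) (z1 j)) fun j _ => by
      rw [m1 (.inl j) (by rw [← hn]; simp [d23]), act_zero], zero_add] at h
    exact hj ((congrFun hE (.inr j)).symm.trans (congrFun (kd.rel2 _ h) j))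

theorem fix_GeoCone2 (kd : KData G' A' α' ζ' z1 z2 a e) :
    cmb α' (Sum.elim z1 z2) (fromBlocks e 0 0 eᴴ) = Sum.elim z1 z2 := by
  funext j
  rcases j with j | j
  · simpa [cmb, act_zero] using kd.fix1 j
  · simpa [cmb, act_zero] using kd.fix2 j

end

theorem one_GeoCone2 {C I : Type} [CommGroup C] [DecidableEq I] {i j : I} {g : C}
    (h : ((1 : Matrix I I (RC C)) i j).coeff g ≠ 0) : i = j ∧ g = 1 := by
  by_cases e : i = j
  · subst e
    refine ⟨rfl, by_contra fun hg => h ?_⟩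
    rw [one_apply_eq, MonoidAlgebra.one_def, MonoidAlgebra.coeff_single,
      Finsupp.single_eq_of_ne hg]
  · exact absurd (by rw [one_apply_ne e]; rfl) h

theorem geoCone2 (hC : CctPStmt) (hP : PosAlgStmt) : GeoCone2Stmt := by
  intro C _ _ _ V V' B W K _ _ _ _ G A α G' A' α' f β B0 St pos z1 z2 a pz w e ζ' F F' D D' Φ Wm Z
    X Y hα hα' h3 h3' hf he g2 kd hD hD' hΦ hW hZ hXY hYX
  have h := g2.geo
  have hd : ∀ j, d23 W j = 2 ∨ d23 W j = 3 := by rintro (j | j) <;> simp [d23]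
  have hx : IsCx (dcone F.deg F'.deg (d23 W)) (cone D Φ Wm D' Z) :=
    isCx_GeoCone h hα hα' hf he hd (by
      rintro (j | j)
      exacts [(mem_Zy.1 (kd.h1 j)).2, (mem_Zy.1 (kd.h2 j)).2]) hD hD' hΦ hW hZ
  have hWE : Wm * fromBlocks e 0 0 eᴴ = Wm :=
    (hW.mul _).unique hα (by rw [funext g2.fix]; exact hW)
  have hZE : Z * fromBlocks e 0 0 eᴴ = Z :=
    (hZ.mul _).unique hα' (by rw [fix_GeoCone2 kd]; exact hZ)
  have p1 := fun i => (pos_GeoCone h (F.cl i) (F.ne i)).1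
  have p2 := fun i => (pos_GeoCone h (isCl_GeoCone hf (F'.cl i)) (ne_GeoCone F' f i)).1
  have hd0 := ctl_GeoCone h hα hα' hf he hd hD hD' hΦ hW hZ
  obtain ⟨H, H1, H2, H3, H4, H5, H6⟩ := hC C B _ β B0 (fun k a b => St 0 a ⊆ St (3 * k + 1) b)
    (Sum.elim (fun i => pos (F.s i).toFinset)
      (Sum.elim (fun i => pos ((F'.s i).map f).toFinset) (Sum.elim pz pz)))
    _ _ (econe F.I F'.I e)
    (by
      rintro (i | i | i)
      exacts [p1 i, p2 i, (h.hz i).1])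
    (by
      rintro (i | i | i)
      · exact (F.deg_le h3 i).trans (Nat.le_succ 3)
      · exact Nat.succ_le_succ (F'.deg_le h3' i)
      · have := hd i
        simp only [dcone, Sum.elim_inr]
        omega) hx h.inv
    (fun k g a b hab => eqv_GeoCone h g hab) (fun k a _ => le_GeoCone h (Nat.zero_le _) a)
    (fun k a b hab => hab.trans (le_GeoCone h (by omega) b))
    (fun k a _ b hb c hc hab hbc =>
      (hab.trans (h.trans _ b hb c hc hbc)).trans (le_GeoCone h (by omega) c)) hd0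
    (by
      rintro (i | i | i | i) (j | j | j | j) g hg
      any_goals exact absurd rfl hg
      · obtain ⟨rfl, rfl⟩ := one_GeoCone2 hg
        rw [map_one]
        exact h.mono 0 _
      · obtain ⟨rfl, rfl⟩ := one_GeoCone2 hg
        rw [map_one]
        exact h.mono 0 _
      · exact g2.c1 i j g hg
      · exact g2.c2 i j g hg)
    (by
      rintro (i | i | i | i) (j | j | j | j) hg
      any_goals exact absurd rfl hg
      · rw [show i = j from by_contra fun e => hg (one_apply_ne e)]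
      · rw [show i = j from by_contra fun e => hg (one_apply_ne e)]
      · rfl
      · rfl)
    (by simp [econe, fromBlocks_multiply, ← conjTranspose_mul, kd.idem])
    (left_GeoCone2 D Φ Wm D' Z _) (right_GeoCone2 D Φ Wm D' Z _ hWE hZE)
    (by
      intro k n c hc x x1 x2 x3 x4
      obtain ⟨b, a, μ, rfl⟩ : ∃ (b : F.I → RC C) (a : F'.I → RC C) (μ : W ⊕ W → RC C),
          x = Sum.elim b (Sum.elim a μ) :=
        ⟨fun i => x (.inl i), fun i => x (.inr (.inl i)), fun i => x (.inr (.inr i)), by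
          funext i
          rcases i with i | i | i <;> rfl⟩
      rw [cone, mv_GeoCone] at x3
      have d1 : D.mulVec b + Φ.mulVec a + Wm.mulVec μ = 0 := funext fun i => congrFun x3 (.inl i)
      have d2 : D'.mulVec a + Z.mulVec μ = 0 :=
        neg_eq_zero.1 (funext fun i => congrFun x3 (.inr (.inl i)))
      have a1 : ∀ i, F'.deg i + 1 ≠ n → a i = 0 := fun i => x1 (.inr (.inl i))
      rw [econe, fromBlocks_mulVec, Sum.elim_comp_inr, fromBlocks_mulVec, Sum.elim_comp_inr] at x4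
      simp only [zero_mulVec, zero_add] at x4
      obtain rfl := mu_GeoCone2 (μ := μ) kd (fun j => x1 (.inr (.inr j)))
        (funext fun j => congrFun x4 (.inr (.inr j)))
        fun p hp => bd_GeoCone2 hα' hD' hZ (hp ▸ a1) d2
      rw [Matrix.mulVec_zero, add_zero] at d1 d2
      exact ex_GeoCone2 h hα hα' hf he hD hD' hΦ hW hZ (3 * k + 1) n hc (fun i => x1 (.inl i)) a1
        (fun i => x2 (.inl i)) (fun i => x2 (.inr (.inl i))) d1 d2)
  refine hP C B F.I F'.I W K β B0 _ _ _ pz F.deg F'.deg D Φ Wm D' Z e H X Y p1 p2 hx H1 H2 H3 H4 H5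
    kd.idem hWE hZE (fun j i g hg => ?_) g2.van hXY hYX
  by_cases h0 : (H j i).coeff g = 0
  · exact (hd0 j i g fun h1 => hg (by
      rw [Matrix.add_apply, MonoidAlgebra.coeff_add, Finsupp.add_apply, h0, add_zero]
      exact h1)).trans (le_GeoCone h (by omega) _)
  · exact (H6 j i g h0).trans (le_GeoCone h (by omega) _)

theorem dg_GeoCone2 {R S I J K : Type} [CommRing R] [CommRing S] [Fintype J] (φ : R →+* S)
    {M : Matrix I J R} (N : Matrix J K S) {i : I} (h : ∀ j, M i j = 0) (k : K) :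
    (M.map φ * N) i k = 0 := by
  simp [Matrix.mul_apply, h]

theorem geoS2 (hG : GeoCone2Stmt) (hI : IdemSplitStmt) (hA : GeoAlgStmt) (hV : ValAny2Stmt) :
    GeoS2Stmt := by
  intro C _ _ _ V V' B W _ _ G A α G' A' α' f β B0 St pos z1 z2 a pz w e ζ' fa fa' h3 h3' hf he
    tp g2 kd τ
  have hα := fa.toAct
  have hα' := fa'.toAct
  have tp0 := tp.map hf he
  obtain ⟨F⟩ := fa.nonempty_frame h3.1
  obtain ⟨F'⟩ := fa'.nonempty_frame h3'.1
  obtain ⟨D, hD⟩ := F.exists_isBd hα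
  obtain ⟨D', hD'⟩ := F'.exists_isBd hα'
  obtain ⟨Γ, hΓ⟩ := F.exists_isCap hα h3.1 tp0.1
  obtain ⟨Γ', hΓ'⟩ := F'.exists_isCap hα' h3'.1 tp.1
  obtain ⟨Φ, hΦ⟩ := F.exists_isCo hα (fun i => emap f (wedge (F'.s i)))
    fun i => ⟨_, emap_mem_Ch hf (F'.wedge_mem i)⟩
  obtain ⟨Wm, hW⟩ := F.exists_isCo hα w
    fun j => ⟨_, Ch_mono (g2.geo.sub _ _) _ (g2.geo.hz j).2.2.1⟩
  obtain ⟨Z1, hZ1⟩ := F'.exists_isCo hα' z1 fun j => ⟨1, (mem_Zy.1 (kd.h1 j)).1⟩
  obtain ⟨Z2, hZ2⟩ := F'.exists_isCo hα' z2 fun j => ⟨2, (mem_Zy.1 (kd.h2 j)).1⟩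
  obtain ⟨Am, hAm⟩ := F'.exists_isCo hα' a fun j => ⟨1, kd.ha j⟩
  choose k hk hk' using fun j => mem_Bd.1 (kd.cap j)
  obtain ⟨K0, hK⟩ := F'.exists_isCo hα' (fun j => -k j) fun j => ⟨3, neg_mem (hk j)⟩
  have hZ : F'.IsCo (fromCols Z1 Z2) (Sum.elim z1 z2) := by
    rintro (j | j)
    exacts [hZ1 j, hZ2 j]
  obtain ⟨r, hr⟩ := g2.tr
  obtain ⟨n, X, Y, hXY, hYX⟩ := hI C W (e.map (evH C)) (algebraMap ℚ ℂ r)
    (by rw [← Matrix.map_mul, kd.idem]) fun χ => by
      rw [← AddMonoidHom.map_trace (evH C), hr, evH_algebraMap]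
      rfl
  obtain ⟨c1, u, hu, t1⟩ := hG C V V' B W (Fin n) G A α G' A' α' f β B0 St pos z1 z2 a pz w e ζ' F
    F' D D' Φ Wm _ X Y hα hα' h3 h3' hf he g2 kd hD hD' hΦ hW hZ hXY hYX
  have e1 : (fromCols Z1 Z2).map (evH C) * fromBlocks X 0 0 Yᴴ =
      fromCols (Z1.map (evH C) * X) (Z2.map (evH C) * Yᴴ) := by
    rw [fromCols_map, fromCols_mul_fromBlocks]
    simp
  rw [e1] at c1 t1
  have dZ := fun i j hi => hZ1.dg hα' (n := 1) (mem_Zy.1 (kd.h1 j)).1 i hi
  have dA := fun i j hi => hAm.dg hα' (n := 1) (kd.ha j) i hi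
  have dK := fun i j hi => hK.dg hα' (n := 3) (neg_mem (hk j)) i hi
  have q1 : D' * Z1 = 0 := by
    ext1 i j
    refine congrFun (?_ : (fun i => (D' * Z1) i j) = 0) i
    refine F'.ev_injective hα' ?_
    rw [col_GeoCone, hD'.ev_mulVec (n := 0) fun i => dZ i j, hZ1 j, (mem_Zy.1 (kd.h1 j)).2,
      F'.ev_zero]
  have q2 : Amᴴ * D' = 0 := by
    rw [← conjTranspose_eq_zero, conjTranspose_mul, conjTranspose_conjTranspose]
    ext1 i j
    exact congrFun ((hD'.coc_iff hα' fun i => dA i j).2 (by rw [hAm j]; exact kd.coc j)) i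
  have q3 : Amᴴ * Z1 = e := (hAm.conj_mul hα' kd.ha hZ1).trans (Matrix.ext kd.pair)
  have q4 : Z2 = Γ' * Am + D' * K0 := by
    ext1 i j
    refine congrFun (?_ : (fun i => Z2 i j) = (fun i => (Γ' * Am) i j) + fun i => (D' * K0) i j) i
    refine F'.ev_injective hα' ?_
    rw [F'.ev_add, col_GeoCone, col_GeoCone, hΓ'.ev_mulVec hα' tp.2,
      hD'.ev_mulVec (n := 2) fun i => dK i j, hZ2 j, hAm j, hK j, map_neg, hk']
    abel
  have key := hA C F.I F'.I (Fin n) F.deg F'.deg _ (Γ.map (evH C)) _ (Γ'.map (evH C)) _ _ _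
    (Am.map (evH C) * Yᴴ) _ (K0.map (evH C) * Yᴴ) u
    ⟨(Frame.capM hα h3 tp0 hD hΓ).map _ evH_star, (Frame.capM hα' h3' tp hD' hΓ').map _ evH_star,
      by rw [← map_evH_conj, ← Matrix.map_mul, ← Matrix.map_mul,
        Frame.cap_nat hα hα' h3'.1 hf he hΦ tp hΓ' hΓ],
      ⟨fun i j hi => dg_GeoCone2 _ _ (fun j => dZ i j hi) j,
        fun i j hi => dg_GeoCone2 _ _ (fun j => dA i j hi) j,
        by rw [← Matrix.mul_assoc, ← Matrix.map_mul, q1]; simp,
        by rw [conjTranspose_mul, Matrix.mul_assoc, ← map_evH_conj, ← Matrix.map_mul, q2]; simp,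
        by rw [conjTranspose_mul, conjTranspose_conjTranspose, Matrix.mul_assoc,
          ← Matrix.mul_assoc _ _ X, ← map_evH_conj, ← Matrix.map_mul, q3, ← hXY, Matrix.mul_assoc,
          hYX, Matrix.mul_one, hYX]⟩,
      fun i j hi => dg_GeoCone2 _ _ (fun j => dK i j hi) j,
      by rw [q4, Matrix.map_add _ (map_add _), Matrix.map_mul, Matrix.map_mul, Matrix.add_mul,
        Matrix.mul_assoc, Matrix.mul_assoc], c1, t1, hu⟩ τ
  exact ⟨fun h => ⟨F, D, Γ, hD, hΓ, key.1 (hV C V' G' A' α' ζ' τ hα' tp h F' D' Γ' hD' hΓ')⟩,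
    fun h => ⟨F', D', Γ', hD', hΓ', key.2 (hV C V G A α _ τ hα tp0 h F D Γ hD hΓ)⟩⟩

end Pool.Agent.MP_6374aa_gt
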