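import Pool.Agent.MP_6374aa_gt.IfT

/-! The mapping cone: control sets and local exactness on chains. -/

namespace Pool.Agent.MP_6374aa_gt

open Classical

theorem mv_GeoCone {R I I' J : Type} [CommRing R] [Fintype I] [Fintype I'] [Fintype J]
    (D : Matrix I I R) (Φ : Matrix I I' R) (Wm : Matrix I J R) (D' : Matrix I' I' R)
    (Z : Matrix I' J R) (b : I → R) (a : I' → R) (μ : J → R) :
    (Matrix.fromBlocks D (Matrix.fromCols Φ Wm) 0
      (-Matrix.fromBlocks D' Z 0 (0 : Matrix J J R))).mulVec (Sum.elim b (Sum.elim a μ)) =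
      Sum.elim (D.mulVec b + Φ.mulVec a + Wm.mulVec μ)
        (Sum.elim (-(D'.mulVec a + Z.mulVec μ)) 0) := by
  rw [Matrix.fromBlocks_mulVec, Sum.elim_comp_inl, Sum.elim_comp_inr,
    Matrix.fromCols_mulVec_sumElim, Matrix.neg_mulVec, Matrix.fromBlocks_mulVec,
    Sum.elim_comp_inl, Sum.elim_comp_inr, Matrix.zero_mulVec, Matrix.zero_mulVec,
    Matrix.zero_mulVec, zero_add, add_zero, add_assoc]
  funext x
  rcases x with i | i | i <;> simp

theorem sq_GeoCone {R I I' J : Type} [CommRing R] [Fintype I] [Fintype I'] [Fintype J]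
    (D : Matrix I I R) (Φ : Matrix I I' R) (Wm : Matrix I J R) (D' : Matrix I' I' R)
    (Z : Matrix I' J R) (h1 : D * D = 0) (h2 : D * Φ = Φ * D') (h3 : D * Wm = Φ * Z)
    (h4 : D' * D' = 0) (h5 : D' * Z = 0) :
    Matrix.fromBlocks D (Matrix.fromCols Φ Wm) 0 (-Matrix.fromBlocks D' Z 0 (0 : Matrix J J R)) *
      Matrix.fromBlocks D (Matrix.fromCols Φ Wm) 0
        (-Matrix.fromBlocks D' Z 0 (0 : Matrix J J R)) = 0 := by
  have e1 : D * Matrix.fromCols Φ Wm +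
      Matrix.fromCols Φ Wm * (-Matrix.fromBlocks D' Z 0 (0 : Matrix J J R)) = 0 := by
    rw [Matrix.mul_neg, Matrix.mul_fromCols, Matrix.fromCols_mul_fromBlocks, h2, h3,
      Matrix.mul_zero, Matrix.mul_zero, add_zero, add_zero, add_neg_cancel]
  have e2 : (-Matrix.fromBlocks D' Z 0 (0 : Matrix J J R)) *
      (-Matrix.fromBlocks D' Z 0 (0 : Matrix J J R)) = 0 := by
    rw [neg_mul_neg, Matrix.fromBlocks_multiply, h4, h5]
    simp
  rw [Matrix.fromBlocks_multiply, e1, e2, h1]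
  simp

variable {C : Type} [CommGroup C] [Fintype C] {V V' B : Type} {G : SimpleGraph V} {A : Set V}
  {α : C →* Equiv.Perm V} {G' : SimpleGraph V'} {A' : Set V'} {α' : C →* Equiv.Perm V'}
  {f : V' → V} {β : C →* Equiv.Perm B} {B0 : Set B} {St : ℕ → B → Set V} {pos : Finset V → B}
  {J : Type} [Fintype J] {z : J → EA V'} {dz : J → ℕ} {pz : J → B} {w : J → EA V}

theorem le_GeoCone (h : Geo G A α G' A' α' f β B0 St pos z dz pz w) {k m : ℕ} (hk : k ≤ m)
    (b : B) : St k b ⊆ St m b := by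
  induction hk with
  | refl => exact subset_rfl
  | step _ ih => exact ih.trans (h.mono _ b)

theorem eqv_GeoCone (h : Geo G A α G' A' α' f β B0 St pos z dz pz w) {k : ℕ} (g : C) {a b : B}
    (hab : St 0 a ⊆ St k b) : St 0 (β g a) ⊆ St k (β g b) := by
  intro v hv
  have h1 := h.eqv 0 _ g⁻¹ v hv
  have e1 : β g⁻¹ (β g a) = a := by simp
  have e2 : α g (α g⁻¹ v) = v := by simp
  rw [e1] at h1
  have h2 := h.eqv k b g _ (hab h1)
  rwa [e2] at h2

theorem pos_GeoCone (h : Geo G A α G' A' α' f β B0 St pos z dz pz w) {l : List V}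
    (hl : IsCl G A l) (hne : l ≠ []) :
    pos l.toFinset ∈ B0 ∧ (∀ v ∈ l, v ∈ St 0 (pos l.toFinset)) ∧
      ∀ k, ∀ b ∈ B0, ∀ g, (∀ v ∈ l, α g v ∈ St k b) →
        St 0 (β g (pos l.toFinset)) ⊆ St (k + 1) b := by
  obtain ⟨h1, h2, h3⟩ := h.hpos l.toFinset (by simpa using hne) (isCl_toFinset hl).1
    (isCl_toFinset hl).2
  refine ⟨h1, fun v hv => h2 (by simpa using hv), fun k b hb g hg => ?_⟩
  have h4 := h3 k _ (h.inv g⁻¹ b hb) fun v hv => by
    have h5 := h.eqv k b g⁻¹ _ (hg v (by simpa using hv))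
    have e1 : α g⁻¹ (α g v) = v := by simp
    rwa [e1] at h5
  have h5 := eqv_GeoCone h g h4
  have e1 : β g (β g⁻¹ b) = b := by simp
  rwa [e1] at h5

theorem isCl_GeoCone (hf : IsHom G' A' G A f) {l : List V'} (hl : IsCl G' A' l) :
    IsCl G A (l.map f) := by
  constructor
  · intro x hx
    obtain ⟨a, ha, rfl⟩ := List.mem_map.1 hx
    exact hf.1 a (hl.1 a ha)
  · intro x hx y hy
    obtain ⟨a, ha, rfl⟩ := List.mem_map.1 hx
    obtain ⟨b, hb, rfl⟩ := List.mem_map.1 hy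
    exact hf.adq (hl.1 a ha) (hl.1 b hb) (hl.2 a ha b hb)

theorem emap_mem_GeoCone (hf : IsHom G' A' G A f) {S : Set V} {n : ℕ} {x : EA V'}
    (hx : x ∈ Ch G' (A' ∩ f ⁻¹' S) n) : emap f x ∈ Ch G S n :=
  emap_mem_Ch (hf.mono Set.inter_subset_left fun _ ha => ha.2) hx

theorem act_mem_GeoCone (h : Geo G A α G' A' α' f β B0 St pos z dz pz w) (hα : Act G A α)
    {S : Set V} {n : ℕ} {μ : J → RC C} (h1 : ∀ j, dz j ≠ n → μ j = 0)
    (h2 : ∀ j g, (μ j).coeff g ≠ 0 → St 0 (β g (pz j)) ⊆ S) :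
    ∑ j, act α (μ j) (w j) ∈ Ch G S (n + 1) := by
  refine Submodule.sum_mem _ fun j _ => ?_
  by_cases hj : dz j = n
  · unfold act
    refine Submodule.sum_mem _ fun g _ => ?_
    by_cases hg : (μ j).coeff g = 0
    · rw [hg, zero_smul]
      exact Submodule.zero_mem _
    · refine Submodule.smul_mem _ _ ?_
      rw [← hj]
      exact emap_mem_Ch ((hα.isIso g).isHom.mono (h.sub 0 _)
        fun a ha => h2 j g hg (h.eqv 0 _ g a ha)) (h.hz j).2.2.1
  · rw [h1 j hj, act_zero]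
    exact Submodule.zero_mem _

theorem bd_sum_GeoCone (h : Geo G A α G' A' α' f β B0 St pos z dz pz w) (he : Eqv A' α' α f)
    (μ : J → RC C) : bd (∑ j, act α (μ j) (w j)) = emap f (∑ j, act α' (μ j) (z j)) := by
  rw [map_sum, map_sum]
  refine Finset.sum_congr rfl fun j _ => ?_
  rw [bd_act, (h.hz j).2.2.2, emap_act he _ (Ch_mono Set.inter_subset_left _ (h.hz j).2.1)]

theorem loc0_GeoCone (h : Geo G A α G' A' α' f β B0 St pos z dz pz w) {k : ℕ} {b : B}
    (hb : b ∈ B0) {X : EA V} (hX : X ∈ Ch G (St k b) 1) :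
    ∃ E ∈ Ch G (St (k + 1) b) 2, ∃ Y ∈ Ch G' (A' ∩ f ⁻¹' St (k + 1) b) 1,
      bd E + emap f Y = X := by
  refine Ch_induction (p := fun X => ∃ E ∈ Ch G (St (k + 1) b) 2,
    ∃ Y ∈ Ch G' (A' ∩ f ⁻¹' St (k + 1) b) 1, bd E + emap f Y = X)
    ⟨0, Submodule.zero_mem _, 0, Submodule.zero_mem _, by simp⟩ ?_ ?_ ?_ hX
  · rintro _ _ - - ⟨E, hE, Y, hY, rfl⟩ ⟨E', hE', Y', hY', rfl⟩
    refine ⟨E + E', Submodule.add_mem _ hE hE', Y + Y', Submodule.add_mem _ hY hY', ?_⟩
    rw [map_add, map_add]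
    abel
  · rintro r _ - ⟨E, hE, Y, hY, rfl⟩
    refine ⟨r • E, Submodule.smul_mem _ _ hE, r • Y, Submodule.smul_mem _ _ hY, ?_⟩
    rw [map_smul, map_smul, smul_add]
  · intro l hl _ hc
    obtain ⟨v, rfl⟩ := List.length_eq_one_iff.1 hl
    have hv := hc.1 v (by simp)
    obtain ⟨v', h1, h2, h3⟩ := h.la0 k b hb v hv
    have c1 : IsCl G (St (k + 1) b) [f v', v] := by
      constructor
      · intro x hx
        simp only [List.mem_cons, List.not_mem_nil, or_false] at hx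
        rcases hx with rfl | rfl
        · exact h2
        · exact h.mono k b hv
      · intro x hx y hy
        simp only [List.mem_cons, List.not_mem_nil, or_false] at hx hy
        rcases hx with rfl | rfl <;> rcases hy with rfl | rfl
        · exact Adq.refl _ _
        · exact h3.symm
        · exact h3
        · exact Adq.refl _ _
    have c2 : IsCl G' (A' ∩ f ⁻¹' St (k + 1) b) [v'] := by
      constructor
      · intro x hx
        obtain rfl := List.mem_singleton.1 hx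
        exact ⟨h1, h2⟩
      · intro x hx y hy
        obtain rfl := List.mem_singleton.1 hx
        obtain rfl := List.mem_singleton.1 hy
        exact Adq.refl _ _
    have w1 := wedge_mem_Ch c1
    have w2 := wedge_mem_Ch c2
    rw [show [f v', v].length = 2 from rfl] at w1
    rw [show [v'].length = 1 from rfl] at w2
    refine ⟨wedge [f v', v], w1, wedge [v'], w2, ?_⟩
    rw [emap_wedge]
    simp only [List.map_cons, List.map_nil, wedge_cons, wedge_nil, mul_one, bd_vx_mul, bd_vx,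
      sub_add_cancel]

theorem cyc0_GeoCone {S : Set V'} {Y : EA V'} (hY : Y ∈ Ch G' S 1) {X : EA V}
    (e : bd X + emap f Y = 0) : bd Y = 0 := by
  obtain ⟨r, hr⟩ := mem_Ch_zero.1 (bd_mem_Ch hY)
  have h1 := congrArg bd e
  rw [map_add, bd_bd, zero_add, ← emap_bd, hr, map_smul, emap_one, map_zero] at h1
  have h2 : (1 : EA V) ≠ 0 := wedge_nil (V := V) ▸ wedge_ne_zero List.nodup_nil
  rw [hr, (smul_eq_zero.1 h1).resolve_right h2, zero_smul]

theorem loc_GeoCone (h : Geo G A α G' A' α' f β B0 St pos z dz pz w) (hα : Act G A α)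
    (hf : IsHom G' A' G A f) (he : Eqv A' α' α f) {k n : ℕ} {b : B} (hb : b ∈ B0) {X : EA V}
    (hX : X ∈ Ch G (St k b) (n + 1)) {Y : EA V'} (hY : Y ∈ Ch G' (A' ∩ f ⁻¹' St k b) n)
    (e1 : bd X + emap f Y = 0) (e2 : bd Y = 0) :
    ∃ E ∈ Ch G (St (k + 2) b) (n + 2), ∃ Y' ∈ Ch G' (A' ∩ f ⁻¹' St (k + 2) b) (n + 1),
      ∃ μ : J → RC C, (∀ j, dz j ≠ n → μ j = 0) ∧
        (∀ j g, (μ j).coeff g ≠ 0 → St 0 (β g (pz j)) ⊆ St (k + 1) b) ∧
        bd E + emap f Y' + ∑ j, act α (μ j) (w j) = X ∧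
        -(bd Y' + ∑ j, act α' (μ j) (z j)) = Y := by
  obtain ⟨μ, m1, m2, m3⟩ := h.la2 k n b hb Y (mem_Zy.2 ⟨hY, e2⟩)
    (mem_Bd.2 ⟨-X, Submodule.neg_mem _ hX, by rw [map_neg, neg_eq_of_add_eq_zero_right e1]⟩)
  obtain ⟨Y1, y1, y2⟩ := mem_Bd.1 m3
  have hZ : X + emap f Y1 + ∑ j, act α (μ j) (w j) ∈ Zy G (St (k + 1) b) (n + 1) := by
    refine mem_Zy.2 ⟨Submodule.add_mem _ (Submodule.add_mem _ (Ch_mono (h.mono k b) _ hX)
      (emap_mem_GeoCone hf y1)) (act_mem_GeoCone h hα m1 m2), ?_⟩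
    rw [map_add, map_add, ← emap_bd, y2, bd_sum_GeoCone h he, map_sub, add_assoc, sub_add_cancel,
      e1]
  obtain ⟨Y2, y3, y4⟩ := h.la1 (k + 1) (n + 1) b hb _ hZ
  obtain ⟨E, hE, y5⟩ := mem_Bd.1 y4
  have hn : ∑ j, act α ((-μ) j) (w j) = -∑ j, act α (μ j) (w j) := by
    simp only [Pi.neg_apply, act_neg, Finset.sum_neg_distrib]
  have hn' : ∑ j, act α' ((-μ) j) (z j) = -∑ j, act α' (μ j) (z j) := by
    simp only [Pi.neg_apply, act_neg, Finset.sum_neg_distrib]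
  refine ⟨-E, Submodule.neg_mem _ hE, Y2 - Y1, Submodule.sub_mem _ (mem_Zy.1 y3).1
    (Ch_mono (Set.inter_subset_inter_right _ (Set.preimage_mono (h.mono _ b))) _ y1), -μ,
    fun j hj => by simp [m1 j hj], fun j g hg => m2 j g fun h0 => hg (by simp [h0]), ?_, ?_⟩
  · rw [map_neg, y5, map_sub, hn]
    abel
  · rw [map_sub, (mem_Zy.1 y3).2, y2, hn']
    abel

end Pool.Agent.MP_6374aa_gt
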