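import Pool.Agent.MP_6374aa_gt.GeoConeA

/-! The mapping cone: coordinates, the differential and its control. -/

namespace Pool.Agent.MP_6374aa_gt

open Classical

variable {C : Type} [CommGroup C] [Fintype C] {V V' B : Type} {G : SimpleGraph V} {A : Set V}
  {α : C →* Equiv.Perm V} {G' : SimpleGraph V'} {A' : Set V'} {α' : C →* Equiv.Perm V'}
  {f : V' → V} {β : C →* Equiv.Perm B} {B0 : Set B} {St : ℕ → B → Set V} {pos : Finset V → B}
  {J : Type} [Fintype J] {z : J → EA V'} {dz : J → ℕ} {pz : J → B} {w : J → EA V}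
  {F : Frame G A α} {F' : Frame G' A' α'} {D : Matrix F.I F.I (RC C)}
  {D' : Matrix F'.I F'.I (RC C)} {Φ : Matrix F.I F'.I (RC C)} {Wm : Matrix F.I J (RC C)}
  {Z : Matrix F'.I J (RC C)}

theorem evPhi_GeoCone (he : Eqv A' α' α f) (hΦ : F.IsCo Φ fun i => emap f (wedge (F'.s i)))
    (a : F'.I → RC C) : F.ev (Φ.mulVec a) = emap f (F'.ev a) := by
  rw [hΦ.ev_mulVec, Frame.ev, map_sum]
  exact Finset.sum_congr rfl fun i _ => (emap_act he _ (wedge_mem_Ch (F'.cl i))).symm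

omit [Fintype C] in
theorem ne_GeoCone (F' : Frame G' A' α') (f : V' → V) (i : F'.I) : (F'.s i).map f ≠ [] :=
  fun e => F'.ne i (List.map_eq_nil_iff.1 e)

theorem toCh_GeoCone (h : Geo G A α G' A' α' f β B0 St pos z dz pz w) (hα : Act G A α)
    {S : Set V} {n : ℕ} {b : F.I → RC C} (hd : ∀ i, F.deg i ≠ n → b i = 0)
    (hs : ∀ i g, (b i).coeff g ≠ 0 → St 0 (β g (pos (F.s i).toFinset)) ⊆ S) :
    F.ev b ∈ Ch G S (n + 1) :=
  F.ev_mem_Ch hα hd fun i g hg v hv =>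
    hs i g hg (h.eqv 0 _ g v ((pos_GeoCone h (F.cl i) (F.ne i)).2.1 v hv))

theorem toCh'_GeoCone (h : Geo G A α G' A' α' f β B0 St pos z dz pz w) (hα' : Act G' A' α')
    (hf : IsHom G' A' G A f) (he : Eqv A' α' α f) {S : Set V} {n : ℕ} {a : F'.I → RC C}
    (hd : ∀ i, F'.deg i ≠ n → a i = 0)
    (hs : ∀ i g, (a i).coeff g ≠ 0 → St 0 (β g (pos ((F'.s i).map f).toFinset)) ⊆ S) :
    F'.ev a ∈ Ch G' (A' ∩ f ⁻¹' S) (n + 1) := by
  refine F'.ev_mem_Ch hα' hd fun i g hg v hv => ⟨hα'.mem g v ((F'.cl i).1 v hv), ?_⟩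
  rw [Set.mem_preimage, he g v ((F'.cl i).1 v hv)]
  exact hs i g hg (h.eqv 0 _ g _ ((pos_GeoCone h (isCl_GeoCone hf (F'.cl i))
    (ne_GeoCone F' f i)).2.1 _ (List.mem_map_of_mem hv)))

theorem ofCh_GeoCone (h : Geo G A α G' A' α' f β B0 St pos z dz pz w) (hα : Act G A α)
    {k n : ℕ} {c : B} (hc : c ∈ B0) {b : F.I → RC C} (hb : F.ev b ∈ Ch G (St k c) (n + 1)) :
    (∀ i, F.deg i ≠ n → b i = 0) ∧
      ∀ i g, (b i).coeff g ≠ 0 → St 0 (β g (pos (F.s i).toFinset)) ⊆ St (k + 1) c := by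
  obtain ⟨h1, h2⟩ := F.coord_of_mem hα (h.sub k c) hb
  exact ⟨h1, fun i g hg => (pos_GeoCone h (F.cl i) (F.ne i)).2.2 k c hc g (h2 i g hg)⟩

theorem ofCh'_GeoCone (h : Geo G A α G' A' α' f β B0 St pos z dz pz w) (hα' : Act G' A' α')
    (hf : IsHom G' A' G A f) (he : Eqv A' α' α f) {k n : ℕ} {c : B} (hc : c ∈ B0)
    {a : F'.I → RC C} (ha : F'.ev a ∈ Ch G' (A' ∩ f ⁻¹' St k c) (n + 1)) :
    (∀ i, F'.deg i ≠ n → a i = 0) ∧ ∀ i g, (a i).coeff g ≠ 0 →
      St 0 (β g (pos ((F'.s i).map f).toFinset)) ⊆ St (k + 1) c := by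
  obtain ⟨h1, h2⟩ := F'.coord_of_mem hα' Set.inter_subset_left ha
  refine ⟨h1, fun i g hg => (pos_GeoCone h (isCl_GeoCone hf (F'.cl i))
    (ne_GeoCone F' f i)).2.2 k c hc g fun v hv => ?_⟩
  obtain ⟨u, hu, rfl⟩ := List.mem_map.1 hv
  rw [← he g u ((F'.cl i).1 u hu)]
  exact (h2 i g hg u hu).2

theorem colPhi_GeoCone (h : Geo G A α G' A' α' f β B0 St pos z dz pz w)
    (hf : IsHom G' A' G A f) (hΦ : F.IsCo Φ fun i => emap f (wedge (F'.s i))) (j : F'.I) :
    F.ev (fun i => Φ i j) ∈ Ch G (St 0 (pos ((F'.s j).map f).toFinset)) (F'.deg j + 1) := by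
  have h1 := isCl_GeoCone hf (F'.cl j)
  have h2 : IsCl G (St 0 (pos ((F'.s j).map f).toFinset)) ((F'.s j).map f) :=
    ⟨(pos_GeoCone h h1 (ne_GeoCone F' f j)).2.1, h1.2⟩
  have h3 := wedge_mem_Ch h2
  rw [List.length_map, F'.length_eq, ← emap_wedge] at h3
  rw [hΦ j]
  exact h3

theorem colW_GeoCone (h : Geo G A α G' A' α' f β B0 St pos z dz pz w) (hW : F.IsCo Wm w)
    (j : J) : F.ev (fun i => Wm i j) ∈ Ch G (St 0 (pz j)) (dz j + 1) := by
  rw [hW j]
  exact (h.hz j).2.2.1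

theorem colZ_GeoCone (h : Geo G A α G' A' α' f β B0 St pos z dz pz w) (hZ : F'.IsCo Z z)
    (hd : ∀ j, dz j = 2 ∨ dz j = 3) (j : J) :
    F'.ev (fun i => Z i j) ∈ Ch G' (A' ∩ f ⁻¹' St 0 (pz j)) (dz j - 2 + 1 + 1) := by
  have h1 := hd j
  rw [hZ j, show dz j - 2 + 1 + 1 = dz j by omega]
  exact (h.hz j).2.1

theorem col_GeoCone {R I I' K : Type} [CommRing R] [Fintype K] (M : Matrix I K R)
    (N : Matrix K I' R) (j : I') : (fun i => (M * N) i j) = M.mulVec fun k => N k j := rfl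

theorem isCx_GeoCone [DecidableEq J] (h : Geo G A α G' A' α' f β B0 St pos z dz pz w)
    (hα : Act G A α) (hα' : Act G' A' α') (hf : IsHom G' A' G A f) (he : Eqv A' α' α f)
    (hd : ∀ j, dz j = 2 ∨ dz j = 3) (hz : ∀ j, bd (z j) = 0) (hD : F.IsBd D) (hD' : F'.IsBd D')
    (hΦ : F.IsCo Φ fun i => emap f (wedge (F'.s i))) (hW : F.IsCo Wm w) (hZ : F'.IsCo Z z) :
    IsCx (Sum.elim F.deg (Sum.elim (fun i => F'.deg i + 1) fun j => dz j + 1))
      (Matrix.fromBlocks D (Matrix.fromCols Φ Wm) 0 (-Matrix.fromBlocks D' Z 0 0)) := by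
  have p1 := fun j => (ofCh_GeoCone h hα (pos_GeoCone h (isCl_GeoCone hf (F'.cl j))
    (ne_GeoCone F' f j)).1 (colPhi_GeoCone h hf hΦ j)).1
  have p2 := fun j => (ofCh_GeoCone h hα (h.hz j).1 (colW_GeoCone h hW j)).1
  have p3 := fun j => (ofCh'_GeoCone h hα' hf he (h.hz j).1 (colZ_GeoCone h hZ hd j)).1
  constructor
  · rintro (i | i | i) (j | j | j) hij
    · exact (hD.isCx hα).1 i j hij
    · have h1 : F.deg i = F'.deg j := by_contra fun hne => hij (p1 j i hne)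
      simp only [Sum.elim_inl, Sum.elim_inr]
      omega
    · have h1 : F.deg i = dz j := by_contra fun hne => hij (p2 j i hne)
      simp only [Sum.elim_inl, Sum.elim_inr]
      omega
    · exact absurd rfl hij
    · have h1 := (hD'.isCx hα').1 i j (neg_ne_zero.1 hij)
      simp only [Sum.elim_inl, Sum.elim_inr]
      omega
    · have h1 : F'.deg i = dz j - 2 + 1 :=
        by_contra fun hne => neg_ne_zero.1 hij (p3 j i hne)
      have h2 := hd j
      simp only [Sum.elim_inl, Sum.elim_inr]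
      omega
    · exact absurd rfl hij
    · exact absurd neg_zero hij
    · exact absurd neg_zero hij
  · refine sq_GeoCone D Φ Wm D' Z (hD.isCx hα).2 ?_ ?_ (hD'.isCx hα').2 ?_
    · ext1 i j
      refine congrFun (?_ : (fun i => (D * Φ) i j) = fun i => (Φ * D') i j) i
      rw [col_GeoCone, col_GeoCone]
      refine F.ev_injective hα ?_
      rw [evPhi_GeoCone he hΦ, hD' j]
      split_ifs with hj
      · rw [hD.mulVec_zero hα (fun i hi => p1 j i (by omega)), F.ev_zero, map_zero]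
      · rw [hD.ev_mulVec (n := F'.deg j - 1) (fun i hi => p1 j i (by omega)), hΦ j, emap_bd]
    · ext1 i j
      refine congrFun (?_ : (fun i => (D * Wm) i j) = fun i => (Φ * Z) i j) i
      rw [col_GeoCone, col_GeoCone]
      refine F.ev_injective hα ?_
      have h1 := hd j
      rw [evPhi_GeoCone he hΦ, hZ j,
        hD.ev_mulVec (n := dz j - 1) (fun i hi => p2 j i (by omega)), hW j, (h.hz j).2.2.2]
    · ext1 i j
      refine congrFun (?_ : (fun i => (D' * Z) i j) = 0) i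
      rw [col_GeoCone]
      refine F'.ev_injective hα' ?_
      rw [hD'.ev_mulVec (p3 j), hZ j, hz j, F'.ev_zero]

theorem ctl_GeoCone (h : Geo G A α G' A' α' f β B0 St pos z dz pz w)
    (hα : Act G A α) (hα' : Act G' A' α') (hf : IsHom G' A' G A f) (he : Eqv A' α' α f)
    (hd : ∀ j, dz j = 2 ∨ dz j = 3) (hD : F.IsBd D) (hD' : F'.IsBd D')
    (hΦ : F.IsCo Φ fun i => emap f (wedge (F'.s i))) (hW : F.IsCo Wm w) (hZ : F'.IsCo Z z) :
    Ctl β (fun a b => St 0 a ⊆ St 1 b)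
      (Sum.elim (fun i => pos (F.s i).toFinset)
        (Sum.elim (fun i => pos ((F'.s i).map f).toFinset) pz))
      (Sum.elim (fun i => pos (F.s i).toFinset)
        (Sum.elim (fun i => pos ((F'.s i).map f).toFinset) pz))
      (Matrix.fromBlocks D (Matrix.fromCols Φ Wm) 0 (-Matrix.fromBlocks D' Z 0 0)) := by
  have q := fun j => pos_GeoCone h (F.cl j) (F.ne j)
  have q' := fun j => pos_GeoCone h (isCl_GeoCone hf (F'.cl j)) (ne_GeoCone F' f j)
  have hn : ∀ (r : RC C) (g : C), (-r).coeff g ≠ 0 → r.coeff g ≠ 0 :=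
    fun r g hg h0 => hg (by simp [h0])
  rintro (i | i | i) (j | j | j) g hg
  · exact (q i).2.2 0 _ (q j).1 g fun v hv => (q j).2.1 _ (hD.support hα hg v hv)
  · exact (ofCh_GeoCone h hα (q' j).1 (colPhi_GeoCone h hf hΦ j)).2 i g hg
  · exact (ofCh_GeoCone h hα (h.hz j).1 (colW_GeoCone h hW j)).2 i g hg
  · exact absurd rfl hg
  · refine (q' i).2.2 0 _ (q' j).1 g fun v hv => (q' j).2.1 _ ?_
    obtain ⟨u, hu, rfl⟩ := List.mem_map.1 hv
    rw [← he g u ((F'.cl i).1 u hu)]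
    exact List.mem_map_of_mem (hD'.support hα' (hn _ g hg) u hu)
  · exact (ofCh'_GeoCone h hα' hf he (h.hz j).1 (colZ_GeoCone h hZ hd j)).2 i g (hn _ g hg)
  · exact absurd rfl hg
  · exact absurd rfl (hn _ g hg)
  · exact absurd rfl (hn _ g hg)

end Pool.Agent.MP_6374aa_gt
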