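import Pool.Agent.MP_6374aa_gt.IfP

/-! The key step of the comparison along a map whose completed cone has trivial phase. -/

namespace Pool.Agent.MP_6374aa_gt

open Classical Matrix

section Gen

variable {R I J : Type} [CommRing R] [Fintype I] [DecidableEq I] [Fintype J] [DecidableEq J]

theorem isCx_iff_GeoKey (deg : I → ℕ) (dz : J → ℕ) (D : Matrix I I R) (Z : Matrix I J R) :
    IsCx (Sum.elim deg dz) (fromBlocks D Z 0 (0 : Matrix J J R)) ↔
      IsCx deg D ∧ (∀ i j, Z i j ≠ 0 → dz j = deg i + 1) ∧ D * Z = 0 := by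
  constructor
  · rintro ⟨h1, h2⟩
    rw [fromBlocks_multiply] at h2
    simp only [Matrix.mul_zero, Matrix.zero_mul, add_zero] at h2
    rw [← fromBlocks_zero, fromBlocks_inj] at h2
    exact ⟨⟨fun i j h => h1 (Sum.inl i) (Sum.inl j) h, h2.1⟩,
      fun i j h => h1 (Sum.inl i) (Sum.inr j) h, h2.2.1⟩
  · rintro ⟨⟨h1, h2⟩, h3, h4⟩
    refine ⟨?_, ?_⟩
    · rintro (i | i) (j | j) h
      · exact h1 i j h
      · exact h3 i j h
      · exact absurd rfl h
      · exact absurd rfl h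
    · rw [fromBlocks_multiply]
      simp [h2, h4]

theorem isCx_shear_GeoKey {deg : I → ℕ} {dz : J → ℕ} {D : Matrix I I R} {Z K : Matrix I J R}
    (hK : ∀ i j, K i j ≠ 0 → deg i = dz j)
    (h : IsCx (Sum.elim deg dz) (fromBlocks D Z 0 (0 : Matrix J J R))) :
    IsCx (Sum.elim deg dz) (fromBlocks D (Z + D * K) 0 (0 : Matrix J J R)) := by
  rw [isCx_iff_GeoKey] at h ⊢
  obtain ⟨h1, h2, h3⟩ := h
  refine ⟨h1, fun i j hij => ?_, ?_⟩
  · by_cases hz : Z i j = 0
    · rw [Matrix.add_apply, hz, zero_add, Matrix.mul_apply] at hij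
      obtain ⟨k, -, hk⟩ := Finset.exists_ne_zero_of_sum_ne_zero hij
      rw [← hK k j (right_ne_zero_of_mul hk), h1.1 i k (left_ne_zero_of_mul hk)]
    · exact h2 i j hz
  · rw [Matrix.mul_add, h3, ← Matrix.mul_assoc, h1.2, Matrix.zero_mul, add_zero]

theorem shear_iff_GeoKey (hS : TorShearStmt) {deg : I → ℕ} {dz : J → ℕ} {D : Matrix I I R}
    {Z K : Matrix I J R} (hK : ∀ i j, K i j ≠ 0 → deg i = dz j) (u : R) :
    IsTor (Sum.elim deg dz) (fromBlocks D Z 0 (0 : Matrix J J R)) u ↔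
      IsTor (Sum.elim deg dz) (fromBlocks D (Z + D * K) 0 (0 : Matrix J J R)) u := by
  refine ⟨hS R I J deg dz D Z K u hK, fun h => ?_⟩
  have := hS R I J deg dz D (Z + D * K) (-K) u (fun i j hij => hK i j (by simpa using hij)) h
  rwa [Matrix.mul_neg, add_neg_cancel_right] at this

theorem reindex_iff_GeoKey (hR : TorReindexStmt) (e : J ≃ I) (deg : I → ℕ) (d : Matrix I I R)
    (u : R) : IsTor deg d u ↔ IsTor (deg ∘ e) (d.submatrix e e) u := by
  refine ⟨(hR R I J e deg d u).2, fun h => ?_⟩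
  have := (hR R J I e.symm _ _ u).2 h
  simpa [Function.comp_assoc] using this

end Gen

section Re

variable {R I J J0 : Type} [CommRing R]

theorem sub_cx2_GeoKey (D : Matrix I I R) (Z Y : Matrix I J R) (Z1 Y1 : Matrix I J0 R) :
    (cx2 D (fromCols Z Z1) (fromCols Y Y1)).submatrix
      ((Equiv.refl I).sumCongr (Equiv.sumSumSumComm J J J0 J0))
      ((Equiv.refl I).sumCongr (Equiv.sumSumSumComm J J J0 J0)) =
      fromBlocks D (fromCols (fromCols Z Y) (fromCols Z1 Y1)) 0 0 := by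
  ext (i | (i | i) | (i | i)) (j | (j | j) | (j | j)) <;> rfl

theorem sub_deg_GeoKey (deg : I → ℕ) :
    Sum.elim deg (d23 (J ⊕ J0)) ∘ ((Equiv.refl I).sumCongr (Equiv.sumSumSumComm J J J0 J0)) =
      Sum.elim deg (Sum.elim (d23 J) (d23 J0)) := by
  funext x
  rcases x with (i | (i | i) | (i | i)) <;> rfl

end Re

theorem cone_facts_GeoKey {R I I' K : Type} [CommRing R] [Fintype I] [DecidableEq I] [Fintype I']
    [DecidableEq I'] [Fintype K] [DecidableEq K] {deg : I → ℕ} {deg' : I' → ℕ} {dz : K → ℕ}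
    {D : Matrix I I R} {D' : Matrix I' I' R} {Φ : Matrix I I' R} {Wm : Matrix I K R}
    {Z : Matrix I' K R} (h : IsCx (dcone deg deg' dz) (cone D Φ Wm D' Z)) :
    D * Φ = Φ * D' ∧ D * Wm = Φ * Z ∧ ∀ i j, Φ i j ≠ 0 → deg' j = deg i := by
  obtain ⟨h1, h2⟩ := h
  rw [cone, fromBlocks_multiply, ← fromBlocks_zero, fromBlocks_inj] at h2
  have h3 := h2.2.1
  rw [Matrix.mul_neg, ← sub_eq_add_neg, sub_eq_zero, mul_fromCols, fromCols_mul_fromBlocks,
    fromCols_ext_iff] at h3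
  simp only [Matrix.mul_zero, add_zero] at h3
  refine ⟨h3.1, h3.2, fun i j hij => ?_⟩
  have := h1 (Sum.inl i) (Sum.inr (Sum.inl j)) hij
  simpa [dcone] using this

theorem geoKey (hC : ConeRStmt) (hS : TorShearStmt) (hR : TorReindexStmt) : GeoKeyStmt := by
  intro C I I' J J0 _ _ _ _ _ _ _ _ _ deg deg' D Γ D' Γ' Φ Wm Z A Y K u Z0 A0 m Z1 G h0 dZ1 cZ1
    aZ1 dm hΦ
  obtain ⟨c1, c2, c3⟩ := cone_facts_GeoKey G.cx
  have c4 : Φ * Z = D * toCols₁ Wm := by
    have : D * fromCols (toCols₁ Wm) (toCols₂ Wm) = Φ * fromCols Z Y := by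
      rw [fromCols_toCols, c2]
    rw [mul_fromCols, mul_fromCols, fromCols_ext_iff] at this
    exact this.1.symm
  have hdp : DualPair deg' D' (fromCols Z Z1) (fromCols A (Φᴴ * A0)) := by
    refine ⟨?_, ?_, ?_, ?_, ?_⟩
    · rintro i (j | j) hi
      · exact G.dp.dZ i j hi
      · exact dZ1 i j hi
    · rintro i (j | j) hi
      · exact G.dp.dA i j hi
      · change (Φᴴ * A0) i j = 0
        rw [Matrix.mul_apply]
        refine Finset.sum_eq_zero fun k _ => ?_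
        by_cases hk : Φ k i = 0
        · rw [conjTranspose_apply, hk, star_zero, zero_mul]
        · rw [h0.dA k j (by rw [← c3 k i hk]; exact hi), mul_zero]
    · rw [mul_fromCols, G.dp.cyc, cZ1, fromCols_zero]
    · rw [conjTranspose_fromCols_eq_fromRows_conjTranspose, fromRows_mul, G.dp.coc,
        conjTranspose_mul, conjTranspose_conjTranspose, Matrix.mul_assoc, ← c1,
        ← Matrix.mul_assoc, h0.coc, Matrix.zero_mul, fromRows_zero]
    · rw [conjTranspose_fromCols_eq_fromRows_conjTranspose, fromRows_mul_fromCols, G.dp.pair, aZ1,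
        conjTranspose_mul, conjTranspose_conjTranspose, Matrix.mul_assoc, Matrix.mul_assoc, c4, hΦ,
        Matrix.mul_add, ← Matrix.mul_assoc, ← Matrix.mul_assoc, h0.coc, h0.pair, Matrix.zero_mul,
        Matrix.zero_mul, add_zero, fromBlocks_one]
  refine ⟨hdp, fun τ => ?_⟩
  have hK' : ∀ i j, (fromCols (fromCols (0 : Matrix I' J (RH C)) K)
      (0 : Matrix I' (J0 ⊕ J0) (RH C))) i j ≠ 0 → deg' i = Sum.elim (d23 J) (d23 J0) j := by
    rintro i ((j | j) | j) h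
    · exact absurd rfl h
    · by_contra hne
      exact h (G.dK i j hne)
    · exact absurd rfl h
  have hm' : ∀ i j, (fromCols m (0 : Matrix I J0 (RH C))) i j ≠ 0 → deg i = d23 J0 j := by
    rintro i (j | j) h
    · by_contra hne
      exact h (dm i j hne)
    · exact absurd rfl h
  have e1 : fromCols (fromCols Z Y) (fromCols Z1 (Γ' * (Φᴴ * A0))) =
      fromCols (fromCols Z (Γ' * A)) (fromCols Z1 (Γ' * (Φᴴ * A0))) +
        D' * fromCols (fromCols (0 : Matrix I' J (RH C)) K) (0 : Matrix I' (J0 ⊕ J0) (RH C)) := by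
    rw [mul_fromCols, mul_fromCols, G.hY, Matrix.mul_zero, Matrix.mul_zero]
    ext i ((j | j) | j) <;> simp
  have e2 : Φ * fromCols Z1 (Γ' * (Φᴴ * A0)) =
      fromCols Z0 (Γ * A0) + D * fromCols m (0 : Matrix I J0 (RH C)) := by
    rw [mul_fromCols, mul_fromCols, hΦ, ← G.nat, Matrix.mul_zero, Matrix.mul_assoc,
      Matrix.mul_assoc]
    ext i (j | j) <;> simp
  have hcx := (hR _ _ _ ((Equiv.refl I').sumCongr (Equiv.sumSumSumComm J J J0 J0)) _ _ 0).1
    (G.cap'.isCx_cx2 hdp)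
  rw [mul_fromCols, sub_cx2_GeoKey, sub_deg_GeoKey] at hcx
  have hcx' := isCx_shear_GeoKey hK' hcx
  rw [← e1] at hcx'
  have t1 : ∀ v, IsTor (Sum.elim deg' (d23 (J ⊕ J0)))
      (cx2 D' (fromCols Z Z1) (Γ' * fromCols A (Φᴴ * A0))) v ↔
      IsTor (Sum.elim deg' (Sum.elim (d23 J) (d23 J0)))
        (fromBlocks D' (fromCols (fromCols Z Y) (fromCols Z1 (Γ' * (Φᴴ * A0)))) 0 0) v := by
    intro v
    rw [reindex_iff_GeoKey hR ((Equiv.refl I').sumCongr (Equiv.sumSumSumComm J J J0 J0)),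
      mul_fromCols, sub_cx2_GeoKey, sub_deg_GeoKey, shear_iff_GeoKey hS hK', ← e1]
  have t2 : ∀ v, IsTor (Sum.elim deg (d23 J0)) (cx2 D Z0 (Γ * A0)) v ↔
      IsTor (Sum.elim deg (d23 J0))
        (fromBlocks D (Φ * fromCols Z1 (Γ' * (Φᴴ * A0))) 0 0) v := by
    intro v
    rw [cx2, shear_iff_GeoKey hS hm', ← e2]
  obtain ⟨k1, k2⟩ := hC _ _ _ _ _ deg deg' (d23 J) (d23 J0) D D' Φ Wm (fromCols Z Y)
    (fromCols Z1 (Γ' * (Φᴴ * A0))) u G.cx hcx' G.tor
  constructor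
  · rintro ⟨w, hw, hs⟩
    obtain ⟨v, hv, hvw⟩ := k2 w ((t2 w).1 hw)
    refine ⟨v, (t1 v).2 hv, Sim.of_mul_left G.inp (hs.of_eq_or ?_)⟩
    rcases hvw with h | h
    · exact Or.inl h.symm
    · exact Or.inr (by rw [h, neg_neg])
  · rintro ⟨v, hv, hs⟩
    obtain ⟨w, hw, hvw⟩ := k1 v ((t1 v).1 hv)
    exact ⟨w, (t2 w).2 hw, (Sim.mul_left G.inp hs).of_eq_or hvw⟩

end Pool.Agent.MP_6374aa_gt
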