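import Pool.Agent.MP_6374aa_gt.IfT

/-! Comparison of values along controlled maps, and freeness on sites. -/

namespace Pool.Agent.MP_6374aa_gt

open Classical

section

variable {C : Type} [CommGroup C] {V V' : Type} {G : SimpleGraph V} {A : Set V}
  {α : C →* Equiv.Perm V} {G' : SimpleGraph V'} {A' : Set V'} {α' : C →* Equiv.Perm V'}

theorem eqv_GeoS {f : V' → V} (h : Eqv A' α' α f) (g : C) {n : ℕ} {z : EA V'}
    (hz : z ∈ Ch G' A' n) : emap f (emap (α' g) z) = emap (α g) (emap f z) := by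
  rw [emap_comp, emap_comp]
  exact emap_congr (fun a ha => h g a ha) hz

theorem hom_GeoS (h : Act G A α) (g : C) : IsHom G A G A (α g) :=
  ⟨h.mem g, fun a ha b hb hab => Or.inr (h.adj g a ha b hb hab)⟩

theorem back_GeoS (h : Act G A α) (g : C) {n : ℕ} {z : EA V} (hz : z ∈ Ch G A n)
    (hb : emap (α g) z ∈ Bd G A n) : z ∈ Bd G A n := by
  have := emap_mem_Bd (hom_GeoS h g⁻¹) hb
  rwa [emap_comp, emap_eq_self (fun a _ => by simp) hz] at this

theorem wedge_GeoS (F : Frame G A α) (i : F.I) : wedge (F.s i) ∈ Ch G A (F.deg i + 1) := by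
  have := wedge_mem_Ch (F.cl i)
  rwa [F.length_eq] at this

end

theorem geoS (hG : GeoConeStmt) (hC : ConeStmt) (hA : ValAnyStmt) : GeoStmt := by
  intro C _ _ V V' B G A α G' A' α' f β B0 St pos J1 J2 _ _ _ _ z dz y dy pz w P P' fa fa' fr fr'
    hf he geo ad τ
  obtain ⟨F⟩ := fa.nonempty_frame P.fin3.1
  obtain ⟨F'⟩ := fa'.nonempty_frame P'.fin3.1
  obtain ⟨D, hD⟩ := F.exists_isBd fa.toAct
  obtain ⟨D', hD'⟩ := F'.exists_isBd fa'.toAct
  have hc : ∀ j, ∃ n, Sum.elim z y j ∈ Ch G' A' (n + 1) := fun j => by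
    have h1 := (mem_Zy.1 (ad.src.cyc j)).1
    rcases ad.src.deg j with h | h <;> rw [h] at h1 <;> exact ⟨_, h1⟩
  obtain ⟨Φ, hΦ⟩ := F.exists_isCo fa.toAct (fun i => emap f (wedge (F'.s i)))
    fun i => ⟨_, emap_mem_Ch hf (wedge_GeoS F' i)⟩
  obtain ⟨Wm, hW⟩ := F.exists_isCo fa.toAct w
    fun j => ⟨_, Ch_mono (geo.sub _ _) _ (geo.hz j).2.2.1⟩
  obtain ⟨Z, hZ⟩ := F'.exists_isCo fa'.toAct z fun j => hc (Sum.inl j)
  obtain ⟨Y, hY⟩ := F'.exists_isCo fa'.toAct y fun j => hc (Sum.inr j)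
  have hZY : F'.IsCo (Matrix.fromCols Z Y) (Sum.elim z y) := by
    rintro (j | j)
    · exact hZ j
    · exact hY j
  have hΦY : F.IsCo (Φ * Y) fun j => emap f (y j) := fun j => by
    have h1 := hΦ.ev_mulVec fun i => Y i j
    refine h1.trans ?_
    beta_reduce
    rw [← hY j, Frame.ev, map_sum]
    exact Finset.sum_congr rfl fun i _ => (emap_act he _ (wedge_GeoS F' i)).symm
  obtain ⟨c1, u, hu, t1⟩ := hG C V V' B G A α G' A' α' f β B0 St pos J1 z dz pz w F F' D D' Φ Wm Z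
    fa.toAct fa'.toAct P.fin3 P'.fin3 hf he geo (fun j => ad.src.deg (Sum.inl j))
    (fun j => (mem_Zy.1 (ad.src.cyc (Sum.inl j))).2)
    (fun n μ h1 h2 j => ad.src.ind n (Sum.elim μ 0)
      (by
        rintro (j | j) hj
        · exact h1 j hj
        · rfl)
      (by simpa [Fintype.sum_sum_type, act_zero] using h2) (Sum.inl j))
    hD hD' hΦ hW hZ
  have c2 := Frame.isCx_cone fa'.toAct hD' hZY (dz := Sum.elim dz dy)
    (fun j => by rcases ad.src.deg j with h | h <;> omega) ad.src.cyc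
  have key := hC C F.I F'.I J1 J2 F.deg F'.deg dz dy D D' Φ Wm Z Y u τ c1 c2 hu t1
  constructor
  · intro h
    exact ⟨F, D, J2, _, _, _, dy, Φ * Y, hD, ad.tgt, hΦY,
      key.1 (hA C V' G' A' α' P' τ fa' fr' h F' D' _ _ _ _ hD' ad.src hZY)⟩
  · intro h
    exact ⟨F', D', J1 ⊕ J2, _, _, _, _, _, hD', ad.src, hZY,
      key.2 (hA C V G A α P τ fa fr h F D _ _ _ _ hD ad.tgt hΦY)⟩

theorem frExt (hD : ExtDichStmt) : FrExtStmt := by
  intro C _ _ V V' G A α G' A' α' c P P' j fa ha' he ex fr x' n hn g hg z hz hz'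
  have d := hD V V' G A G' A' c P P' j ex
  have hzc : z ∈ Ch G' A' n := (mem_Zy.1 (II_le_Zy _ _ _ hz)).1
  by_cases hx : x' ∈ Set.range j
  · obtain ⟨x, rfl⟩ := hx
    refine d.hinj n hn x z hz (fr x n hn g hg _ ((d.mat x).emap_mem d.hom hz) ?_)
    rw [← eqv_GeoS he g hzc]
    exact (d.mat x).emap_mem d.hom hz'
  obtain ⟨u, hu, hl⟩ := ex.loc1 n hn x' hx
  obtain ⟨a, ha, b, hb, rfl⟩ := Submodule.mem_sup.1 (hl hz)
  obtain ⟨a', h1, b', h2, e⟩ := Submodule.mem_sup.1 (hl hz')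
  have hne : α g u ≠ u := fun h => hg (fa.free g {u} (Finset.singleton_nonempty u)
    (by simpa using hu) (by simp) (by simpa using h))
  have h3 : emap (α' g) a ∈ Zy G' (A' ∩ c ⁻¹' {α g u}) n := by
    refine emap_mem_Zy ((hom_GeoS ha' g).mono Set.inter_subset_left ?_) ha
    rintro v ⟨v1, v2⟩
    refine ⟨ha'.mem g v v1, ?_⟩
    rw [Set.mem_preimage, Set.mem_singleton_iff] at v2 ⊢
    rw [he g v v1, v2]
  have h4 := ex.loc.ind n hn {u, α g u} (fun t => if t = u then -a' else emap (α' g) a)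
    (by
      rw [Finset.coe_pair]
      rintro t (rfl | rfl)
      · exact hu
      · exact fa.mem g u hu)
    (fun t ht => by
      rcases Finset.mem_insert.1 ht with rfl | ht
      · rw [if_pos rfl]
        exact neg_mem h1
      · rw [Finset.mem_singleton.1 ht, if_neg hne]
        exact h3)
    (by
      rw [Finset.sum_pair hne.symm, if_pos rfl, if_neg hne]
      have h5 : -a' + emap (α' g) a = b' - emap (α' g) b := by
        rw [map_add] at e
        rw [eq_sub_iff_add_eq, add_assoc, ← e]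
        abel
      rw [h5]
      exact sub_mem h2 (emap_mem_Bd (hom_GeoS ha' g) hb))
    (α g u) (by simp)
  rw [if_neg hne] at h4
  exact add_mem (back_GeoS ha' g (Ch_mono Set.inter_subset_left _ (mem_Zy.1 ha).1) h4) hb

theorem frSe (hM : SeMatchStmt) : FrSeStmt := by
  intro C _ _ V V' G A α G' A' α' f P P' b ha ha' he se mat fr x n hn g hg z hz hz'
  obtain ⟨y, y1, y2⟩ := hM V V' G A G' A' f P P' x (b x) se (mat x) n hn z hz
  obtain ⟨y', y3, y4⟩ := hM V V' G A G' A' f P P' x (b x) se (mat x) n hn _ hz'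
  have c1 : y ∈ Zy G' A' n := II_le_Zy _ _ _ y1
  have c2 : y' ∈ Zy G' A' n := II_le_Zy _ _ _ y3
  have h1 : emap (α' g) y - y' ∈ Bd G' A' n := by
    refine se.hinj n hn _ (sub_mem (emap_mem_Zy (hom_GeoS ha' g) c1) c2) ?_
    have := sub_mem (emap_mem_Bd (hom_GeoS ha g) y2) y4
    rwa [map_sub, sub_sub_sub_cancel_right, ← eqv_GeoS he g (mem_Zy.1 c1).1, ← map_sub] at this
  have h2 : emap (α' g) y ∈ P'.I (b x) n := by
    have := add_mem (Bd_le_II (P'.Λ (b x)) (P'.a (b x)) n h1) y3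
    rwa [sub_add_cancel] at this
  have := sub_mem (emap_mem_Bd se.hom (fr (b x) n hn g hg y y1 h2)) y2
  rwa [sub_sub_cancel] at this

end Pool.Agent.MP_6374aa_gt
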