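import Pool.Agent.MP_6374aa_gt.IfA

/-! Lens torsion determines the cosine sum. -/

namespace Pool.Agent.MP_6374aa_gt

open Classical

noncomputable section

/-- The augmentation. -/
def aug_Gr (C : Type) [CommGroup C] : RC C →ₐ[ℚ] ℚ := MonoidAlgebra.lift ℚ ℚ C 1

theorem aug_single_Gr {C : Type} [CommGroup C] (g : C) (r : ℚ) :
    aug_Gr C (MonoidAlgebra.single g r) = r := by
  simp [aug_Gr, MonoidAlgebra.lift_single]

theorem mul_nrm_Gr {C : Type} [CommGroup C] [Fintype C] (μ : RC C) :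
    μ * nrm C = aug_Gr C μ • nrm C := by
  induction μ using MonoidAlgebra.induction_linear with
  | zero => simp
  | add x y hx hy => rw [add_mul, hx, hy, map_add, add_smul]
  | single g r =>
    rw [aug_single_Gr, nrm, Finset.mul_sum, Finset.smul_sum]
    refine Fintype.sum_equiv (Equiv.mulLeft g) _ _ fun h => ?_
    simp [MonoidAlgebra.single_mul_single]

theorem aug_nrm_Gr (C : Type) [CommGroup C] [Fintype C] :
    aug_Gr C (nrm C) = Fintype.card C := by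
  simp [nrm, map_sum, aug_single_Gr]

theorem eq_of_qq_Gr {C : Type} [CommGroup C] [Fintype C] {A B : RC C} (hA : aug_Gr C A = 0)
    (hB : aug_Gr C B = 0) (h : qq C A = qq C B) : A = B := by
  rw [Ideal.Quotient.eq, Ideal.mem_span_singleton'] at h
  obtain ⟨μ, hμ⟩ := h
  have h1 := congrArg (aug_Gr C) hμ
  rw [map_mul, map_sub, hA, hB, aug_nrm_Gr, sub_zero] at h1
  have h2 : (Fintype.card C : ℚ) ≠ 0 := by exact_mod_cast Fintype.card_ne_zero
  have h3 : aug_Gr C μ = 0 := (mul_eq_zero.1 h1).resolve_right h2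
  rw [mul_nrm_Gr, h3, zero_smul] at hμ
  exact sub_eq_zero.1 hμ.symm

/-- The involution induced by inversion. -/
def inv_Gr (C : Type) [CommGroup C] : RC C →+* RC C :=
  MonoidAlgebra.mapDomainRingHom ℚ (invMonoidHom : C →* C)

theorem inv_single_Gr {C : Type} [CommGroup C] (g : C) (r : ℚ) :
    inv_Gr C (MonoidAlgebra.single g r) = MonoidAlgebra.single g⁻¹ r := by
  simp [inv_Gr, MonoidAlgebra.mapDomain_single]

variable {p : ℕ}

theorem tp_add_Gr (k l : ZMod p) : tp p (k + l) = tp p k * tp p l := by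
  simp [tp, MonoidAlgebra.single_mul_single, ofAdd_add]

theorem tp_zero_Gr : tp p 0 = 1 := by
  simp [tp, MonoidAlgebra.one_def]

theorem inv_tp_Gr (k : ZMod p) : inv_Gr (Cp p) (tp p k) = tp p (-k) := by
  simp [tp, inv_single_Gr, ofAdd_neg]

theorem aug_tp_Gr (k : ZMod p) : aug_Gr (Cp p) (tp p k) = 1 := by
  simp [tp, aug_single_Gr]

/-- Indicator of an equality. -/
def ind_Gr (k z : ZMod p) : ℚ := if k = z then 1 else 0

theorem coeff_tp_Gr (k z : ZMod p) :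
    (tp p k).coeff (Multiplicative.ofAdd z) = ind_Gr k z := by
  simp [tp, ind_Gr, Finsupp.single_apply]

/-- The symmetric product. -/
def ff_Gr (x y : ZMod p) : RC (Cp p) :=
  (tp p x - 1) * (tp p y - 1) * ((tp p (-x) - 1) * (tp p (-y) - 1))

/-- Its coefficients. -/
def cf_Gr (x y z : ZMod p) : ℚ :=
  4 * ind_Gr 0 z - 2 * ind_Gr x z - 2 * ind_Gr (-x) z - 2 * ind_Gr y z - 2 * ind_Gr (-y) z +
    ind_Gr (x + y) z + ind_Gr (x + -y) z + ind_Gr (-x + y) z + ind_Gr (-x + -y) z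

theorem ff_eq_Gr (x y : ZMod p) :
    ff_Gr x y = (4 : ℚ) • tp p 0 - (2 : ℚ) • tp p x - (2 : ℚ) • tp p (-x) - (2 : ℚ) • tp p y -
      (2 : ℚ) • tp p (-y) + tp p (x + y) + tp p (x + -y) + tp p (-x + y) + tp p (-x + -y) := by
  have hx : tp p x * tp p (-x) = 1 := by rw [← tp_add_Gr, add_neg_cancel, tp_zero_Gr]
  have hy : tp p y * tp p (-y) = 1 := by rw [← tp_add_Gr, add_neg_cancel, tp_zero_Gr]
  simp only [tp_add_Gr, tp_zero_Gr, ff_Gr, Algebra.smul_def, map_ofNat]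
  linear_combination
    ((tp p y - 1) * (tp p (-y) - 1)) * hx + (2 - tp p x - tp p (-x)) * hy

theorem coeff_ff_Gr (x y z : ZMod p) :
    (ff_Gr x y).coeff (Multiplicative.ofAdd z) = cf_Gr x y z := by
  rw [ff_eq_Gr]
  simp only [MonoidAlgebra.coeff_add, MonoidAlgebra.coeff_sub, MonoidAlgebra.coeff_smul,
    Finsupp.add_apply, Finsupp.sub_apply, Finsupp.smul_apply, coeff_tp_Gr, smul_eq_mul, cf_Gr]

theorem ind_nonneg_Gr (k z : ZMod p) : 0 ≤ ind_Gr k z := by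
  unfold ind_Gr; split_ifs <;> norm_num

theorem ind_of_ne_Gr {k z : ZMod p} (h : k ≠ z) : ind_Gr k z = 0 := by simp [ind_Gr, h]

theorem ind_self_Gr (k : ZMod p) : ind_Gr k k = 1 := by simp [ind_Gr]

theorem ind_le_Gr (k z : ZMod p) : ind_Gr k z ≤ 1 := by
  unfold ind_Gr; split_ifs <;> norm_num

theorem cf_neg_left_Gr (x y z : ZMod p) : cf_Gr (-x) y z = cf_Gr x y z := by
  simp only [cf_Gr, neg_neg]; ring

theorem cf_comm_Gr (x y z : ZMod p) : cf_Gr y x z = cf_Gr x y z := by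
  simp only [cf_Gr, add_comm y x, add_comm y (-x), add_comm (-y) x, add_comm (-y) (-x)]; ring

theorem cf_self_Gr {x y : ZMod p} (hx : 4 * x ≠ 0) (hy : y ≠ 0) : cf_Gr x y x < 0 := by
  have h0 : (0 : ZMod p) ≠ x := fun h => hx (by rw [← h, mul_zero])
  have h1 : x + y ≠ x := fun h => hy (by linear_combination h)
  have h2 : x + -y ≠ x := fun h => hy (by linear_combination -h)
  have h3 : ind_Gr (-x + y) x + ind_Gr (-x + -y) x ≤ 1 := by
    by_cases h : -x + y = x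
    · have h' : -x + -y ≠ x := fun h' => hx (by linear_combination -h - h')
      rw [ind_of_ne_Gr h', add_zero]
      exact ind_le_Gr _ _
    · rw [ind_of_ne_Gr h, zero_add]
      exact ind_le_Gr _ _
  have h4 := ind_nonneg_Gr (-x) x
  have h5 := ind_nonneg_Gr y x
  have h6 := ind_nonneg_Gr (-y) x
  simp only [cf_Gr, ind_of_ne_Gr h0, ind_of_ne_Gr h1, ind_of_ne_Gr h2, ind_self_Gr]
  linarith

theorem cf_neg_iff_Gr {x y : ZMod p} (hx : 4 * x ≠ 0) (hy : 4 * y ≠ 0) (z : ZMod p) :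
    cf_Gr x y z < 0 ↔ (z = x ∨ z = -x) ∨ (z = y ∨ z = -y) := by
  have hx0 : x ≠ 0 := fun h => hx (by rw [h, mul_zero])
  have hy0 : y ≠ 0 := fun h => hy (by rw [h, mul_zero])
  have hx' : 4 * -x ≠ 0 := fun h => hx (by linear_combination -h)
  have hy' : 4 * -y ≠ 0 := fun h => hy (by linear_combination -h)
  constructor
  · intro h
    by_contra hc
    simp only [not_or] at hc
    obtain ⟨⟨h1, h2⟩, h3, h4⟩ := hc
    have a0 := ind_nonneg_Gr 0 z
    have a1 := ind_nonneg_Gr (x + y) z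
    have a2 := ind_nonneg_Gr (x + -y) z
    have a3 := ind_nonneg_Gr (-x + y) z
    have a4 := ind_nonneg_Gr (-x + -y) z
    simp only [cf_Gr, ind_of_ne_Gr (Ne.symm h1), ind_of_ne_Gr (Ne.symm h2),
      ind_of_ne_Gr (Ne.symm h3), ind_of_ne_Gr (Ne.symm h4)] at h
    linarith
  · rintro ((rfl | rfl) | (rfl | rfl))
    · exact cf_self_Gr hx hy0
    · rw [← cf_neg_left_Gr]; exact cf_self_Gr hx' hy0
    · rw [cf_comm_Gr]; exact cf_self_Gr hy hx0
    · rw [cf_comm_Gr, ← cf_neg_left_Gr]; exact cf_self_Gr hy' hx0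

theorem four_mul_ne_Gr (hp : 5 ≤ p) (x : (ZMod p)ˣ) : 4 * (x : ZMod p) ≠ 0 := by
  intro h
  have h1 : ((4 : ℕ) : ZMod p) = 0 := by
    have := (Units.mul_left_eq_zero x).1 h
    exact_mod_cast this
  rw [ZMod.natCast_eq_zero_iff] at h1
  have := Nat.le_of_dvd (by norm_num) h1
  omega

/-- The cosine value. -/
def co_Gr (z : ZMod p) : ℝ := 2 * Real.cos (2 * Real.pi * (z.val : ℝ) / p)

theorem co_neg_Gr [NeZero p] (z : ZMod p) : co_Gr (-z) = co_Gr z := by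
  by_cases hz : z = 0
  · rw [hz, neg_zero]
  · have hp : (p : ℝ) ≠ 0 := by exact_mod_cast NeZero.ne p
    unfold co_Gr
    rw [ZMod.neg_val, if_neg hz, Nat.cast_sub (ZMod.val_le z)]
    have : 2 * Real.pi * ((p : ℝ) - (z.val : ℝ)) / p =
        2 * Real.pi - 2 * Real.pi * (z.val : ℝ) / p := by field_simp
    rw [this, Real.cos_two_pi_sub]

theorem co_eq_Gr [NeZero p] {a b : (ZMod p)ˣ}
    (h : ((a⁻¹ : (ZMod p)ˣ) : ZMod p) = (b⁻¹ : (ZMod p)ˣ) ∨
      ((a⁻¹ : (ZMod p)ˣ) : ZMod p) = -((b⁻¹ : (ZMod p)ˣ) : ZMod p)) :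
    co_Gr (a : ZMod p) = co_Gr (b : ZMod p) := by
  rcases h with h | h
  · have h1 : a = b := inv_injective (Units.ext h)
    rw [h1]
  · have h1 : a⁻¹ = (-b)⁻¹ := by
      rw [inv_neg]
      exact Units.ext (by rw [h, Units.val_neg])
    rw [inv_injective h1, Units.val_neg, co_neg_Gr]

theorem gr : GrStmt := by
  intro p _ hp a b a' b' u hu h
  obtain ⟨r, g, hr, rfl⟩ := hu
  unfold lens at h
  rw [← map_mul] at h
  have h1 := eq_of_qq_Gr (by simp [aug_tp_Gr]) (by simp [aug_tp_Gr]) h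
  have h2 := congrArg (inv_Gr (Cp p)) h1
  simp only [map_mul, map_sub, map_one, inv_tp_Gr, inv_single_Gr] at h2
  have h3 : MonoidAlgebra.single g r * MonoidAlgebra.single g⁻¹ r =
      algebraMap ℚ (RC (Cp p)) (r * r) := by
    simp [MonoidAlgebra.single_mul_single]
  have h4 : ff_Gr ((a⁻¹ : (ZMod p)ˣ) : ZMod p) (b⁻¹ : (ZMod p)ˣ) =
      (r * r) • ff_Gr ((a'⁻¹ : (ZMod p)ˣ) : ZMod p) (b'⁻¹ : (ZMod p)ˣ) := by
    unfold ff_Gr
    rw [h1, h2, Algebra.smul_def, ← h3]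
    ring
  have h5 : ∀ z : ZMod p, cf_Gr ((a⁻¹ : (ZMod p)ˣ) : ZMod p) (b⁻¹ : (ZMod p)ˣ) z < 0 ↔
      cf_Gr ((a'⁻¹ : (ZMod p)ˣ) : ZMod p) (b'⁻¹ : (ZMod p)ˣ) z < 0 := by
    intro z
    rw [← coeff_ff_Gr, h4, MonoidAlgebra.coeff_smul_apply, coeff_ff_Gr, smul_eq_mul]
    have := mul_self_pos.2 hr
    constructor
    · intro h6
      by_contra h7
      exact absurd h6 (not_lt.2 (mul_nonneg this.le (not_lt.1 h7)))
    · exact fun h6 => mul_neg_of_pos_of_neg this h6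
  simp only [cf_neg_iff_Gr (four_mul_ne_Gr hp _) (four_mul_ne_Gr hp _)] at h5
  have e1 := ((h5 _).1 (Or.inl (Or.inl rfl))).imp co_eq_Gr co_eq_Gr
  have e2 := ((h5 _).1 (Or.inr (Or.inl rfl))).imp co_eq_Gr co_eq_Gr
  have e3 := ((h5 _).2 (Or.inl (Or.inl rfl))).imp co_eq_Gr co_eq_Gr
  have e4 := ((h5 _).2 (Or.inr (Or.inl rfl))).imp co_eq_Gr co_eq_Gr
  change co_Gr (a : ZMod p) + co_Gr (b : ZMod p) = co_Gr (a' : ZMod p) + co_Gr (b' : ZMod p)
  rcases e1 with e1 | e1 <;> rcases e2 with e2 | e2 <;> rcases e3 with e3 | e3 <;>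
    rcases e4 with e4 | e4 <;> linarith

end

end Pool.Agent.MP_6374aa_gt
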