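import Pool.Agent.MP_6374aa_gt.IfC

/-! The pack of a graft. -/

namespace Pool.Agent.MP_6374aa_gt

open Classical

variable {V : Type} {G : SimpleGraph V} {A M B : Set V} {v : V}

theorem key_GraftPack (hg : Graft G A M B v) (hF : GFacts G A M B v) {n : ℕ} {z : EA V}
    (hz : z ∈ Zy G B n) (h1 : emap (col A v) z ∈ Bd G A n) (h2 : emap (col M v) z ∈ Bd G M n) :
    z ∈ Bd G B n := by
  have e : B ∩ col A v ⁻¹' A = B := Set.inter_eq_left.2 fun x hx => hg.col_hom.1 x hx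
  have := hF.g2 n A subset_rfl z (by rwa [e]) h1 h2
  rwa [e] at this

theorem grp_GraftPack (h0 : VkOneStmt) (D : VKD G A M B v) (hg : Graft G A M B v)
    (P1 : Pack G A) (x : P1.X) : D.s (P1.a x) ∈ B ∧
      (P1.Λ x).map D.i1 ≤ Loop G B (D.s (P1.a x)) ∧ (P1.Λ x).map D.i1 ≠ ⊥ ∧
      HasE ((P1.Λ x).map D.i1) := by
  obtain ⟨⟨γ, -, h1⟩, -, h2, -⟩ := h0 V G A M B v D hg (P1.a x) (P1.mem x)
  have h3 : ∀ δ ∈ P1.Λ x, D.i1 δ = 1 → δ = 1 := fun δ hδ h => by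
    rw [← h1 δ (P1.loop x hδ), h]; simp
  refine ⟨D.smem _ (Or.inl (P1.mem x)), ?_, fun h => P1.ne x ?_, (P1.hasE x).map _ h3⟩
  · rintro _ ⟨δ, hδ, rfl⟩
    exact h2 δ (P1.loop x hδ)
  · refine (Subgroup.eq_bot_iff_forall _).2 fun δ hδ => h3 δ hδ ?_
    exact (Subgroup.eq_bot_iff_forall _).1 h _ (Subgroup.mem_map_of_mem _ hδ)

theorem site_GraftPack (h0 : VkOneStmt) (D : VKD G A M B v) (hg : Graft G A M B v)
    (P1 : Pack G A) (P2 : Pack G M) (x : P1.X) {n : ℕ} (hn : n = 2 ∨ n = 3) {z : EA V}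
    (hz : z ∈ II G B ((P1.Λ x).map D.i1) (D.s (P1.a x)) n) :
    emap (col A v) z ∈ P1.I x n ∧ emap (col M v) z ∈ Bd G M n := by
  obtain ⟨⟨γ, h1, h2⟩, h3, -, -⟩ := h0 V G A M B v D hg (P1.a x) (P1.mem x)
  refine ⟨emap_mem_II hg.col_hom h1 ?_ hz,
    P2.emap_mem_Bd hg.symm.col_hom (D.smem _ (Or.inl (P1.mem x))) ?_ hn hz⟩
  · rintro _ ⟨δ, hδ, rfl⟩
    rw [h2 δ (P1.loop x hδ)]
    exact hδ
  · rintro _ ⟨δ, hδ, rfl⟩
    exact h3 δ (P1.loop x hδ)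

theorem ind_GraftPack (h0 : VkOneStmt) (D : VKD G A M B v) (hg : Graft G A M B v)
    (P1 : Pack G A) (P2 : Pack G M) {n : ℕ} (hn : n = 2 ∨ n = 3) {z1 : P1.X → EA V}
    {z2 : P2.X → EA V} (h1 : ∀ x, z1 x ∈ II G B ((P1.Λ x).map D.i1) (D.s (P1.a x)) n)
    (h2 : ∀ x, z2 x ∈ II G B ((P2.Λ x).map D.i2) (D.s (P2.a x)) n)
    (h : ∑ x, z1 x + ∑ x, z2 x ∈ Bd G B n) (x : P1.X) : emap (col A v) (z1 x) ∈ Bd G A n := by
  refine P1.h3 n hn (fun x => emap (col A v) (z1 x))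
    (fun x => (site_GraftPack h0 D hg P1 P2 x hn (h1 x)).1) ?_ x
  have h3 := emap_mem_Bd hg.col_hom h
  rw [map_add, map_sum, map_sum] at h3
  exact (Submodule.add_mem_iff_left _ (Submodule.sum_mem _ fun y _ =>
    (site_GraftPack h0 D.swap hg.symm P2 P1 y hn (h2 y)).2)).1 h3

theorem dec_GraftPack (hL : GLiftStmt) (D : VKD G A M B v) (hg : Graft G A M B v)
    (hk : ∀ n, n = 1 ∨ n = 2 → Zy G (Lk G A {v}) n ≤ Bd G (Lk G A {v}) n)
    (P1 : Pack G A) {n : ℕ} (hn : n = 2 ∨ n = 3) {z : EA V} (hz : z ∈ Zy G B n) :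
    ∃ z1 : P1.X → EA V, (∀ x, z1 x ∈ II G B ((P1.Λ x).map D.i1) (D.s (P1.a x)) n) ∧
      emap (col A v) (z - ∑ x, z1 x) ∈ Bd G A n := by
  obtain ⟨w, h1, h2⟩ := P1.exists_decomp hn (emap_mem_Zy hg.col_hom hz)
  choose z1 h3 h4 using fun x => hL V G A M B v D hg hk _ (P1.mem x) _ n hn _ (h1 x)
  refine ⟨z1, h3, ?_⟩
  have h5 := sub_mem h2 (Submodule.sum_mem _ fun x (_ : x ∈ Finset.univ) => h4 x)
  rw [Finset.sum_sub_distrib, sub_sub, add_sub_cancel] at h5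
  rwa [map_sub, map_sum]

theorem graftPack (h0 : VkOneStmt) (h1 : GK1Stmt) (h2 : GK2Stmt) (h3 : GK3Stmt) (h4 : GK4Stmt)
    (hL : GLiftStmt) : GraftPackStmt := by
  intro V G A M B v D P1 P2 hg hF hk
  have e1 := grp_GraftPack h0 D hg P1
  have e2 := grp_GraftPack h0 D.swap hg.symm P2
  refine ⟨{
    X := P1.X ⊕ P2.X
    a := gA D P1 P2
    Λ := gL D P1 P2
    fin3 := hg.fin3 P1.fin3 P2.fin3
    conn := (h0 V G A M B v D hg v hg.memA).2.2.2 P1.conn P2.conn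
    mem := Sum.rec (fun x => (e1 x).1) fun x => (e2 x).1
    loop := Sum.rec (fun x => (e1 x).2.1) fun x => (e2 x).2.1
    ne := Sum.rec (fun x => (e1 x).2.2.1) fun x => (e2 x).2.2.1
    hasE := Sum.rec (fun x => (e1 x).2.2.2) fun x => (e2 x).2.2.2
    k1 := h1 V G A M B v D P1 P2 hg
    k2 := h2 V G A M B v D P1 P2 hg
    k3 := h3 V G A M B v D P1 P2 hg
    k4 := h4 V G A M B v D P1 P2 hg
    h1 := fun y hy n hn z hz => ?_
    h2 := fun n hn z hz => ?_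
    h3 := fun n hn z hz hs => ?_ }, Sum.inl, Sum.inr, Sum.inl_injective, Sum.inr_injective,
    fun _ _ => Sum.inl_ne_inr, Sum.rec (fun x => Or.inl ⟨x, rfl⟩) fun x => Or.inr ⟨x, rfl⟩,
    fun _ => rfl, fun _ => rfl, fun _ => rfl, fun _ => rfl⟩
  · exact key_GraftPack hg hF (II_le_Zy _ _ _ hz)
      (P1.emap_mem_Bd hg.col_hom hy (fun δ hδ => by rw [Subgroup.mem_bot.1 hδ, map_one]) hn hz)
      (P2.emap_mem_Bd hg.symm.col_hom hy
        (fun δ hδ => by rw [Subgroup.mem_bot.1 hδ, map_one]) hn hz)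
  · obtain ⟨z1, a1, a2⟩ := dec_GraftPack hL D hg hk P1 hn hz
    obtain ⟨z2, b1, b2⟩ := dec_GraftPack hL D.swap hg.symm (hg.lk ▸ hk) P2 hn hz
    have c1 : ∑ x, z1 x ∈ Zy G B n := Submodule.sum_mem _ fun x _ => II_le_Zy _ _ _ (a1 x)
    have c2 : ∑ x, z2 x ∈ Zy G B n := Submodule.sum_mem _ fun x _ => II_le_Zy _ _ _ (b1 x)
    have c3 : z - ∑ x, z1 x - ∑ x, z2 x ∈ Bd G B n := by
      refine key_GraftPack hg hF (sub_mem (sub_mem hz c1) c2) ?_ ?_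
      · rw [map_sub _ _ (∑ x, z2 x), map_sum _ z2]
        exact sub_mem a2 (Submodule.sum_mem _ fun x _ =>
          (site_GraftPack h0 D.swap hg.symm P2 P1 x hn (b1 x)).2)
      · rw [sub_right_comm, map_sub _ _ (∑ x, z1 x), map_sum _ z1]
        exact sub_mem b2 (Submodule.sum_mem _ fun x _ =>
          (site_GraftPack h0 D hg P1 P2 x hn (a1 x)).2)
    rw [show z = z - ∑ x, z1 x - ∑ x, z2 x + (∑ x, z1 x + ∑ x, z2 x) by abel]
    refine Submodule.add_mem_sup c3 (add_mem (Submodule.sum_mem _ fun x _ => ?_)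
      (Submodule.sum_mem _ fun x _ => ?_))
    · exact Submodule.mem_iSup_of_mem (Sum.inl x) (a1 x)
    · exact Submodule.mem_iSup_of_mem (Sum.inr x) (b1 x)
  · rw [Fintype.sum_sum_type] at hs
    rintro (x | x)
    · exact key_GraftPack hg hF (II_le_Zy _ _ _ (hz _))
        (ind_GraftPack h0 D hg P1 P2 hn (fun x => hz (.inl x)) (fun x => hz (.inr x)) hs x)
        (site_GraftPack h0 D hg P1 P2 x hn (hz (.inl x))).2
    · exact key_GraftPack hg hF (II_le_Zy _ _ _ (hz _))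
        (site_GraftPack h0 D.swap hg.symm P2 P1 x hn (hz (.inr x))).2
        (ind_GraftPack h0 D.swap hg.symm P2 P1 hn (fun x => hz (.inr x)) (fun x => hz (.inl x))
          (by rwa [add_comm]) x)

end Pool.Agent.MP_6374aa_gt
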