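import Pool.Agent.MP_6374aa_gt.IfB

/-! Grafts of homology spheres and of homology manifolds. -/

namespace Pool.Agent.MP_6374aa_gt

open Classical

variable {V : Type} {G : SimpleGraph V} {A M B : Set V} {v : V}

theorem inter_HsGraft (h : Graft G A M B v) : A \ {v} ∩ (M \ {v}) = Lk G A {v} := by
  ext x
  constructor
  · rintro ⟨⟨h1, h2⟩, h3, -⟩
    exact (show x ∈ insert v (Lk G A {v}) from h.inter ▸ ⟨h1, h3⟩).resolve_left h2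
  · intro hx
    have h1 : x ∈ A ∩ M := h.inter ▸ Or.inr hx
    exact ⟨Lk_sub_ChC1 hx, h1.2, (Lk_sub_ChC1 hx).2⟩

theorem sub_HsGraft (h : Graft G A M B v) : A \ {v} ⊆ B :=
  fun _ hx => h.mem_GrB3.2 ⟨Or.inl hx.1, hx.2⟩

theorem top_HsGraft {d : ℕ} (h : LocS G A d) : Ch G A (d + 1) = ⊥ :=
  Ch_eq_bot fun s hs hc e => by
    have := (h s (Finset.card_pos.1 (by omega)) hs hc).1
    omega

theorem vert_HsGraft {d : ℕ} (h : LocS G A d) (hv : v ∈ A) :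
    ∃ e, d = e + 1 ∧ HS G (Lk G A {v}) e := by
  obtain ⟨h1, h2⟩ := h {v} (Finset.singleton_nonempty v) (by simpa using hv) (by simp)
  rw [Finset.card_singleton] at h1 h2
  rw [Finset.coe_singleton] at h2
  exact ⟨d - 1, by omega, h2⟩

theorem cone_HsGraft {S T : Set V} {u : V} {n : ℕ} (h : Ch G S (n + 1) = ⊥) (hu : u ∈ S)
    (hT : T ⊆ Lk G S {u}) : Ch G T n = ⊥ := by
  refine eq_bot_iff.2 fun y hy => ?_
  have h1 := vx_mul_mem_Ch hu (fun t ht => (hT ht).1) (fun t ht => Or.inr ((hT ht).2 u rfl)) hy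
  rw [h, Submodule.mem_bot] at h1
  have h2 := iv_vx_mul_self u y
  rw [h1, map_zero, iv_eq_zero (fun hu' => (Lk_sub_ChC1 (hT hu')).2 rfl) hy, mul_zero,
    sub_zero] at h2
  exact h2 ▸ Submodule.zero_mem _

theorem bd_HsGraft {n : ℕ} {ζ : EA V} (h : ζ ∈ Zy G A (n + 1)) :
    bd (ζ - vx v * iv v ζ) = -iv v ζ := by
  rw [map_sub, bd_vx_mul, (mem_Zy.1 h).2, (mem_Zy.1 (iv_mem_Zy v h)).2, mul_zero, sub_zero,
    zero_sub]

theorem side_HsGraft (h : Graft G A M B v) {n : ℕ} {ζ y : EA V} (hζ : ζ ∈ Zy G A (n + 1))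
    (hy : y ∈ Ch G (M \ {v}) (n + 1)) {c : ℚ} (hc : c ≠ 0) {w : V} (hw : iv w ζ ≠ 0)
    (hw' : w ∉ M) : iv w (c • (ζ - vx v * iv v ζ) + y) ≠ 0 := by
  have h1 : v ≠ w := fun e => hw' (e ▸ h.memM)
  have h2 : w ∉ Lk G A {v} := fun h' => hw' (h.lk ▸ h' : w ∈ Lk G M {v}).1
  rw [map_add, iv_eq_zero (fun h' => hw' h'.1) hy, add_zero, map_smul, map_sub, iv_vx_mul_ne h1,
    iv_eq_zero h2 (iv_mem_Ch v (mem_Zy.1 hζ).1), mul_zero, neg_zero, sub_zero]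
  exact smul_ne_zero hc hw

theorem glue_HsGraft (h : Graft G A M B v) {e : ℕ} (hA : Ch G A (e + 2) = ⊥)
    (hL : HS G (Lk G A {v}) e) {ζ ξ : EA V} (hζ : ζ ∈ Zy G A (e + 1)) (hξ : ξ ∈ Zy G M (e + 1))
    (fζ : ∀ w ∈ A, iv w ζ ≠ 0) (fξ : ∀ w ∈ M, iv w ξ ≠ 0) :
    ∃ ω ∈ Zy G B (e + 1), ω ≠ 0 ∧ (∀ w ∈ B, iv w ω ≠ 0) ∧
      ((∀ z ∈ Zy G (A \ {v}) (e + 1), z = 0) → (∀ z ∈ Zy G (M \ {v}) (e + 1), z = 0) →
        ∀ z ∈ Zy G B (e + 1), ∃ r : ℚ, z = r • ω) := by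
  obtain ⟨-, η, -, h0, hη, fη⟩ := hL
  obtain ⟨a, ha⟩ := hη _ (iv_mem_Zy v hζ)
  obtain ⟨m, hm⟩ := hη _ (h.lk ▸ iv_mem_Zy v hξ)
  have a0 : a ≠ 0 := fun e => fζ v h.memA (by rw [ha, e, zero_smul])
  have m0 : m ≠ 0 := fun e => fξ v h.memM (by rw [hm, e, zero_smul])
  have sA := fun {c : ℚ} {y : EA V} {w : V} => side_HsGraft (y := y) (c := c) (w := w) h hζ
  have sM := fun {c : ℚ} {y : EA V} {w : V} => side_HsGraft (y := y) (c := c) (w := w) h.symm hξ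
  have hx := sub_vx_mul_iv_mem_Ch v (mem_Zy.1 hζ).1
  have hy := sub_vx_mul_iv_mem_Ch v (mem_Zy.1 hξ).1
  have bx := bd_HsGraft (v := v) hζ
  have by' := bd_HsGraft (v := v) hξ
  generalize ζ - vx v * iv v ζ = x at sA hx bx
  generalize ξ - vx v * iv v ξ = y at sM hy by'
  rw [ha] at bx
  rw [hm] at by'
  have hL : Ch G (Lk G A {v}) (e + 1) = ⊥ := cone_HsGraft hA h.memA subset_rfl
  refine ⟨m • x + (-a) • y, mem_Zy.2 ⟨add_mem (Submodule.smul_mem _ _ (Ch_mono (sub_HsGraft h) _ hx))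
    (Submodule.smul_mem _ _ (Ch_mono (sub_HsGraft h.symm) _ hy)), ?_⟩, fun h1 => ?_,
    fun w hw => ?_, fun zA zM z hz => ?_⟩
  · rw [map_add, map_smul, map_smul, bx, by']
    module
  · rw [neg_smul, add_neg_eq_zero] at h1
    have h2 := mem_Ch_inter (Submodule.smul_mem _ m hx) (h1 ▸ Submodule.smul_mem _ a hy)
    rw [inter_HsGraft h, hL, Submodule.mem_bot, smul_eq_zero_iff_right m0] at h2
    rw [h2, map_zero, zero_eq_neg] at bx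
    exact smul_ne_zero a0 h0 bx
  · obtain ⟨h1, h2⟩ := h.mem_GrB3.1 hw
    by_cases wM : w ∈ M
    · by_cases wA : w ∈ A
      · have wL : w ∈ Lk G A {v} := inter_HsGraft h ▸ ⟨⟨wA, h2⟩, wM, h2⟩
        intro h3
        rw [map_add, map_smul, map_smul, neg_smul, add_neg_eq_zero] at h3
        have h4 := mem_Ch_inter (Submodule.smul_mem _ m (iv_mem_Ch w hx))
          (h3 ▸ Submodule.smul_mem _ a (iv_mem_Ch w hy))
        rw [cone_HsGraft hL wL fun t ht => ⟨inter_HsGraft h ▸ ⟨ht.1.1, ht.2.1⟩, ht.1.2⟩,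
          Submodule.mem_bot, smul_eq_zero_iff_right m0] at h4
        have h5 := iv_bd w x
        rw [h4, map_zero, neg_zero, bx, map_neg, map_smul, neg_eq_zero] at h5
        exact smul_ne_zero a0 (fη w wL) h5
      · rw [add_comm]
        exact sM (Submodule.smul_mem _ _ hx) (neg_ne_zero.2 a0) (fξ w wM) wA
    · exact sA (Submodule.smul_mem _ _ hy) m0 (fζ w (h1.resolve_right wM)) wM
  · obtain ⟨p, hp, q, hq, rfl, h1, h2⟩ := split_ChC2 (fun l hl => h.clique hl) hz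
    obtain ⟨r, hr⟩ := hη _ (inter_HsGraft h ▸ h2)
    have h3 := zA (p + (r / a) • x) (mem_Zy.2 ⟨add_mem hp (Submodule.smul_mem _ _ hx), by
      rw [map_add, map_smul, hr, bx, smul_neg, smul_smul, div_mul_cancel₀ _ a0, add_neg_cancel]⟩)
    have h4 := zM (q - (r / m) • y) (mem_Zy.2 ⟨sub_mem hq (Submodule.smul_mem _ _ hy), by
      rw [map_sub, map_smul, h1, hr, by', smul_neg, smul_smul, div_mul_cancel₀ _ m0, sub_self]⟩)
    refine ⟨-(r / (a * m)), ?_⟩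
    rw [add_eq_zero_iff_eq_neg.1 h3, sub_eq_zero.1 h4, smul_add, smul_smul, smul_smul, ← neg_smul]
    congr 2 <;> field_simp

theorem hsGraft (hR : RemGenStmt) : HsGraftStmt := by
  intro V G d A M B v h fA fM hA lA hM lM
  have ac : ∀ S : Set V, S.Finite → HS G S d → LocS G S d → v ∈ S → ∀ n,
      Zy G (S \ {v}) n ≤ Bd G (S \ {v}) n := fun S h1 h2 h3 h4 n => by
    have := (hR V G d S h1 h3 v h4 ∅ (Set.empty_subset _) n).2.2 h2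
    rwa [insert_empty_eq] at this
  have tp : ∀ S : Set V, S.Finite → HS G S d → LocS G S d → v ∈ S →
      ∀ z ∈ Zy G (S \ {v}) d, z = 0 := fun S h1 h2 h3 h4 z hz => by
    obtain ⟨w, hw, rfl⟩ := mem_Bd.1 (ac S h1 h2 h3 h4 d hz)
    have := Ch_mono Set.sdiff_subset _ hw
    rw [top_HsGraft h3, Submodule.mem_bot] at this
    rw [this, map_zero]
  have bA := fun n => (ac A fA hA lA h.memA n).trans (Bd_mono (sub_HsGraft h) n)
  have bM := fun n => (ac M fM hM lM h.memM n).trans (Bd_mono (sub_HsGraft h.symm) n)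
  obtain ⟨e, rfl, hL⟩ := vert_HsGraft lA h.memA
  refine ⟨fun n hn => ?_, ?_⟩
  · rcases n with _ | n
    · exact fun z hz => bA 0 (mem_Zy.2 ⟨mem_Ch_zero.2 (mem_Ch_zero.1 (mem_Zy.1 hz).1),
        (mem_Zy.1 hz).2⟩)
    · exact (mv_Zy (sub_HsGraft h) (sub_HsGraft h.symm) (fun l hl => h.clique hl)
        (inter_HsGraft h ▸ hL.1 n fun e => hn (by rw [e]))).trans (sup_le (bA _) (bM _))
  · obtain ⟨ζ, hζ, -, -, fζ⟩ := id hA.2
    obtain ⟨ξ, hξ, -, -, fξ⟩ := id hM.2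
    obtain ⟨ω, h1, h2, h3, h4⟩ := glue_HsGraft h (top_HsGraft lA) hL hζ hξ fζ fξ
    exact ⟨ω, h1, h2, h4 (tp A fA hA lA h.memA) (tp M fM hM lM h.memM), h3⟩

theorem link_HsGraft {d : ℕ} (h : LocS G A d) {σ : Finset V} (hσ : ↑σ ⊆ A)
    (hc : G.IsClique (σ : Set V)) : LocS G (Lk G A σ) (d - σ.card) := by
  intro τ h0 hτ hτ'
  have hd : Disjoint σ τ := Finset.disjoint_left.2 fun x h1 h2 => G.irrefl ((hτ h2).2 x h1)
  obtain ⟨h1, h2⟩ := h (σ ∪ τ) (h0.mono Finset.subset_union_right)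
    (by rw [Finset.coe_union]; exact Set.union_subset hσ fun x hx => (hτ hx).1) (by
      rw [Finset.coe_union]
      rintro x (hx | hx) y (hy | hy) hne
      exacts [hc hx hy hne, (hτ hy).2 x hx, ((hτ hx).2 y hy).symm, hτ' hx hy hne])
  rw [Finset.card_union_of_disjoint hd] at h1 h2
  have e : Lk G A ↑(σ ∪ τ) = Lk G (Lk G A σ) τ := by
    rw [Finset.coe_union]
    ext x
    exact ⟨fun hx => ⟨⟨hx.1, fun u hu => hx.2 u (Or.inl hu)⟩, fun u hu => hx.2 u (Or.inr hu)⟩,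
      fun hx => ⟨hx.1.1, fun u hu => hu.elim (hx.1.2 u) (hx.2 u)⟩⟩
  rw [e, Nat.sub_add_eq] at h2
  exact ⟨by omega, h2⟩

theorem graft_HsGraft (h : Graft G A M B v) {σ : Set V} (hσ : σ ⊆ Lk G A {v}) :
    Graft G (Lk G A σ) (Lk G M σ) (Lk G B σ) v := by
  have hv : ∀ u ∈ σ, G.Adj u v := fun u hu => ((hσ hu).2 v rfl).symm
  refine ⟨⟨h.memA, hv⟩, ⟨h.memM, hv⟩, ?_, ?_, fun a ha b hb => ?_, ?_⟩
  · ext x
    exact ⟨fun hx => ⟨⟨(h.lk ▸ ⟨hx.1.1, hx.2⟩ : x ∈ Lk G M {v}).1, hx.1.2⟩, hx.2⟩,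
      fun hx => ⟨⟨(h.lk ▸ ⟨hx.1.1, hx.2⟩ : x ∈ Lk G A {v}).1, hx.1.2⟩, hx.2⟩⟩
  · ext x
    constructor
    · intro hx
      exact (show x ∈ insert v (Lk G A {v}) from h.inter ▸ ⟨hx.1.1, hx.2.1⟩).imp id
        fun h1 => ⟨hx.1, h1.2⟩
    · rintro (rfl | hx)
      · exact ⟨⟨h.memA, hv⟩, h.memM, hv⟩
      · exact ⟨hx.1, (h.lk ▸ ⟨hx.1.1, hx.2⟩ : x ∈ Lk G M {v}).1, hx.1.2⟩
  · exact h.sep a ⟨ha.1.1, fun h1 => ha.2 ⟨h1, ha.1.2⟩⟩ b ⟨hb.1.1, fun h1 => hb.2 ⟨h1, hb.1.2⟩⟩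
  · ext x
    constructor
    · intro hx
      obtain ⟨h1, h2⟩ := h.mem_GrB3.1 hx.1
      exact ⟨h1.imp (fun h3 => ⟨h3, hx.2⟩) fun h3 => ⟨h3, hx.2⟩, h2⟩
    · rintro ⟨h1 | h1, h2⟩
      · exact ⟨h.mem_GrB3.2 ⟨Or.inl h1.1, h2⟩, h1.2⟩
      · exact ⟨h.mem_GrB3.2 ⟨Or.inr h1.1, h2⟩, h1.2⟩

theorem loc_HsGraft (hH : HsGraftStmt) (h : Graft G A M B v) {d : ℕ} (fA : A.Finite)
    (fM : M.Finite) (lA : LocS G A d) (lM : LocS G M d) {σ : Finset V} (h0 : σ.Nonempty)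
    (hσ : ↑σ ⊆ A \ {v}) (hc : G.IsClique (σ : Set V)) :
    σ.card ≤ d ∧ HS G (Lk G B σ) (d - σ.card) := by
  have sA : ↑σ ⊆ A := hσ.trans Set.sdiff_subset
  obtain ⟨h1, h2⟩ := lA σ h0 sA hc
  refine ⟨h1, ?_⟩
  by_cases sM : ↑σ ⊆ M
  · exact hH V G _ _ _ _ v
      (graft_HsGraft h fun x hx => inter_HsGraft h ▸ ⟨hσ hx, sM hx, (hσ hx).2⟩)
      (fA.subset fun x hx => hx.1) (fM.subset fun x hx => hx.1) h2 (link_HsGraft lA sA hc)
      (lM σ h0 sM hc).2 (link_HsGraft lM sM hc)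
  · obtain ⟨x, hx, hx'⟩ := Set.not_subset.1 sM
    have e : Lk G B σ = Lk G A σ := by
      ext w
      refine ⟨fun hw => ⟨?_, hw.2⟩, fun hw => ⟨sub_HsGraft h ⟨hw.1, ?_⟩, hw.2⟩⟩
      · by_contra h3
        exact h.sep x ⟨sA hx, hx'⟩ w ⟨(h.mem_GrB3.1 hw.1).1.resolve_left h3, h3⟩ (hw.2 x hx)
      · rintro rfl
        exact hx' (h.lk ▸ ⟨sA hx, fun u hu => hu ▸ (hw.2 x hx).symm⟩ : x ∈ Lk G M {w}).1
    rw [e]
    exact h2

theorem mfGraft (hR : RemGenStmt) (hH : HsGraftStmt) (hB : MfBasicStmt) (hM : MfRemStmt) :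
    MfGraftStmt := by
  have _ := And.intro hR (And.intro hB hM)
  rintro V G A M B v h ⟨fA, cA, lA, ζ, hζ, fζ⟩ ⟨fM, cM, lM, ξ, hξ, fξ⟩
  obtain ⟨e, he, hL⟩ := vert_HsGraft lA h.memA
  obtain rfl : e = 3 := by omega
  have b1 : ∀ S : Set V, PConn G S → HS G (Lk G S {v}) 3 → S \ {v} ⊆ B →
      Zy G (S \ {v}) 1 ≤ Bd G B 1 := fun S h1 h2 h3 z hz =>
    Bd_mono h3 1 (mem_Bd_diff ((h2.1 1 (by norm_num)).trans (Bd_mono Lk_sub_ChC1 1)) hz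
      (h1.Zy_one_le (Zy_mono Set.sdiff_subset 1 hz)))
  obtain ⟨ω, h1, h2, h3, -⟩ := glue_HsGraft h (top_HsGraft lA) hL hζ hξ fζ fξ
  refine ⟨(fA.union fM).subset (h.eq ▸ Set.sdiff_subset), pconn_of_Zy_one ?_ ?_,
    fun σ h0 hσ hc => ?_, ω, h1, h3⟩
  · refine Set.nonempty_iff_ne_empty.2 fun e => h2 ?_
    exact empty_ChC2 (e ▸ (mem_Zy.1 h1).1)
  · exact (mv_Zy (sub_HsGraft h) (sub_HsGraft h.symm) (fun l hl => h.clique hl)
      (inter_HsGraft h ▸ hL.1 0 (by norm_num))).trans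
      (sup_le (b1 A cA hL (sub_HsGraft h)) (b1 M cM (h.lk ▸ hL) (sub_HsGraft h.symm)))
  · rcases h.clique (isCl_toList hσ hc) with h4 | h4
    · exact loc_HsGraft hH h fA fM lA lM h0 (fun x hx => h4 x (Finset.mem_toList.2 hx)) hc
    · exact loc_HsGraft hH h.symm fM fA lM lA h0 (fun x hx => h4 x (Finset.mem_toList.2 hx)) hc

end Pool.Agent.MP_6374aa_gt
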