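import Pool.Agent.MP_6374aa_gt.IfB

/-! Uniqueness of top cycles and the middle homology of surfaces. -/

namespace Pool.Agent.MP_6374aa_gt

open Classical

variable {V : Type} {G : SimpleGraph V} {S : Set V}

theorem link_HsUp {e : ℕ} (h : LocS G S (e + 1)) {v : V} (hv : v ∈ S) :
    HS G (Lk G S {v}) e := by
  have := (h {v} (Finset.singleton_nonempty v) (by simpa using hv) (by simp)).2
  rwa [Finset.coe_singleton, Finset.card_singleton, Nat.add_sub_cancel] at this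

theorem zero_HsUp {e : ℕ} (hc : PConn G S) (h : LocS G S (e + 1)) {z : EA V}
    (hz : z ∈ Zy G S (e + 1)) {v : V} (hv : v ∈ S) (h0 : iv v z = 0) : z = 0 := by
  have key : ∀ a b γ, Path G S a b γ → iv b z = 0 → iv a z = 0 := by
    intro a b γ hγ
    induction hγ with
    | nil _ => exact id
    | @cons u w y γ hu huw hp ih =>
      intro h1
      have h2 := ih h1
      rcases huw with rfl | huw
      · exact h2
      obtain ⟨-, η, -, -, h3, h4⟩ := link_HsUp h hu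
      obtain ⟨r, hr⟩ := h3 _ (iv_mem_Zy u hz)
      have h5 : iv w (iv u z) = 0 := by rw [iv_iv_comm, h2, map_zero, neg_zero]
      rw [hr, map_smul] at h5
      have h6 : w ∈ Lk G S {u} := ⟨hp.mem_left, fun x hx => by rw [hx]; exact huw⟩
      rw [hr, (smul_eq_zero.1 h5).resolve_right (h4 w h6), zero_smul]
  refine eq_zero_of_iv hz.1 fun a ha => ?_
  obtain ⟨γ, hγ⟩ := hc.2 a ha v hv
  exact key a v γ hγ h0

theorem uniq_HsUp {e : ℕ} (hc : PConn G S) (h : LocS G S (e + 1)) {ζ : EA V}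
    (hζ : ζ ∈ Zy G S (e + 1)) (h0 : ∀ v ∈ S, iv v ζ ≠ 0) {z : EA V} (hz : z ∈ Zy G S (e + 1)) :
    ∃ r : ℚ, z = r • ζ := by
  obtain ⟨v, hv⟩ := hc.1
  obtain ⟨-, η, -, -, h3, -⟩ := link_HsUp h hv
  obtain ⟨r, hr⟩ := h3 _ (iv_mem_Zy v hz)
  obtain ⟨s, hs⟩ := h3 _ (iv_mem_Zy v hζ)
  have hs0 : s ≠ 0 := fun e => h0 v hv (by rw [hs, e, zero_smul])
  refine ⟨r / s, sub_eq_zero.1 (zero_HsUp hc h
    (Submodule.sub_mem _ hz (Submodule.smul_mem _ _ hζ)) hv ?_)⟩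
  rw [map_sub, map_smul, hr, hs, smul_smul, div_mul_cancel₀ _ hs0, sub_self]

theorem rank_one_HsUp {N : Submodule ℚ (EA V)} {ζ : EA V} (h1 : ζ ∈ N) (h2 : ζ ≠ 0)
    (h3 : ∀ z ∈ N, ∃ r : ℚ, z = r • ζ) : Module.finrank ℚ N = 1 := by
  have : N = Submodule.span ℚ {ζ} := by
    refine le_antisymm (fun z hz => ?_) ((Submodule.span_singleton_le_iff_mem _ _).2 h1)
    obtain ⟨r, rfl⟩ := h3 z hz
    exact Submodule.smul_mem _ _ (Submodule.mem_span_singleton_self _)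
  rw [this, finrank_span_singleton h2]

theorem hsUp : HsUpStmt := by
  intro V G S d hS hc hL ⟨ζ, hζ, h0⟩ hd
  obtain ⟨e, rfl⟩ : ∃ e, d = e + 1 := ⟨d - 1, by omega⟩
  obtain ⟨v, hv⟩ := hc.1
  have hne : ζ ≠ 0 := fun e => h0 v hv (by rw [e, map_zero])
  refine ⟨fun n hn => ?_, ζ, hζ, hne, fun z hz => uniq_HsUp hc hL hζ h0 hz, h0⟩
  rcases Nat.lt_or_ge (e + 1) n with h1 | h1
  · have : Ch G S n = ⊥ := Ch_eq_bot fun s hs hcl e1 => by
      have := (hL s (Finset.card_pos.1 (by omega)) hs hcl).1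
      omega
    exact le_trans inf_le_left (this ▸ bot_le)
  obtain rfl | rfl | rfl : n = 0 ∨ n = 1 ∨ n = 2 := by omega
  · exact PConn.Zy_zero_le hc.1
  · exact hc.Zy_one_le
  obtain ⟨h2, h3⟩ := hd.resolve_left (by omega)
  obtain rfl : e = 2 := by omega
  have b0 : Module.finrank ℚ (Bd G S 0) = 1 :=
    rank_one_HsUp (ζ := 1) (PConn.Zy_zero_le hc.1 ⟨mem_Ch_zero.2 ⟨1, (one_smul _ _).symm⟩, bd_one⟩)
      one_ne_zero fun z hz => mem_Ch_zero.1 (Bd_le_Zy S 0 hz).1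
  have b1 : Bd G S 1 = Zy G S 1 := le_antisymm (Bd_le_Zy S 1) hc.Zy_one_le
  have z3 : Module.finrank ℚ (Zy G S 3) = 1 :=
    rank_one_HsUp hζ hne fun z hz => uniq_HsUp hc hL hζ h0 hz
  have c1 := finrank_Ch_succ (G := G) hS 0
  have c2 := finrank_Ch_succ (G := G) hS 1
  have c3 := finrank_Ch_succ (G := G) hS 2
  rw [finrank_Ch hS] at c1 c2 c3
  rw [b1] at c2
  have := finiteDimensional_Ch (G := G) hS 2
  have : FiniteDimensional ℚ (Zy G S 2) := Submodule.finiteDimensional_inf_left _ _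
  refine (Submodule.eq_of_le_of_finrank_eq (Bd_le_Zy S 2) ?_).ge
  simp only [Nat.reduceAdd] at c1 c2 c3
  omega

end Pool.Agent.MP_6374aa_gt
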