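import Mathlib

/-! The cone over a regular polygon is the plane. -/

namespace Pool.Agent.MP_6374aa_gt

open Complex ZMod

noncomputable section

variable {p : ℕ} [NeZero p]

/-- The cone over the polygon. -/
def Poly_JHomeo (y : ZMod p → ℝ) : Prop :=
  (∀ i, 0 ≤ y i) ∧ ∀ i j, y i ≠ 0 → y j ≠ 0 → i = j ∨ j = i + 1 ∨ i = j + 1

/-- The linear map to the plane. -/
def pl_JHomeo (y : ZMod p → ℝ) : ℂ := ∑ i, (y i : ℂ) * stdAddChar i

theorem exp_JHomeo (j : ZMod p) :
    stdAddChar j = exp ((2 * Real.pi * (j.val : ℝ) / p : ℝ) * I) := by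
  rw [stdAddChar_apply, toCircle_apply]
  congr 1
  push_cast
  ring

theorem re_JHomeo (j : ZMod p) :
    (stdAddChar j).re = Real.cos (2 * Real.pi * (j.val : ℝ) / p) := by
  rw [exp_JHomeo, exp_ofReal_mul_I_re]

theorem im_JHomeo (j : ZMod p) :
    (stdAddChar j).im = Real.sin (2 * Real.pi * (j.val : ℝ) / p) := by
  rw [exp_JHomeo, exp_ofReal_mul_I_im]

theorem sq_JHomeo (j : ZMod p) : (stdAddChar j).re ^ 2 + (stdAddChar j).im ^ 2 = 1 := by
  rw [re_JHomeo, im_JHomeo, Real.cos_sq_add_sin_sq]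

theorem neg_JHomeo (j : ZMod p) :
    (stdAddChar (-j)).re = (stdAddChar j).re ∧ (stdAddChar (-j)).im = -(stdAddChar j).im := by
  rw [AddChar.map_neg_eq_conj]
  exact ⟨rfl, rfl⟩

theorem pos_JHomeo (hp : 5 ≤ p) : 0 < (stdAddChar (1 : ZMod p)).im := by
  have : Fact (1 < p) := ⟨by omega⟩
  have h5 : (5 : ℝ) ≤ p := by exact_mod_cast hp
  rw [im_JHomeo, ZMod.val_one]
  refine Real.sin_pos_of_pos_of_lt_pi (by positivity) ?_
  rw [div_lt_iff₀ (by positivity)]
  push_cast
  nlinarith [Real.pi_pos]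

theorem le_JHomeo (hp : 5 ≤ p) {j : ZMod p} (hj : j ≠ 0) :
    (stdAddChar j).re ≤ (stdAddChar (1 : ZMod p)).re := by
  have : Fact (1 < p) := ⟨by omega⟩
  have h5 : (0 : ℝ) < p := by exact_mod_cast (by omega : 0 < p)
  have h1 : (1 : ℝ) ≤ j.val := by
    exact_mod_cast Nat.one_le_iff_ne_zero.2 fun h => hj ((ZMod.val_eq_zero j).1 h)
  have h2 : (j.val : ℝ) + 1 ≤ p := by exact_mod_cast ZMod.val_lt j
  have hπ := Real.pi_pos
  rw [re_JHomeo, re_JHomeo, ZMod.val_one]
  rcases le_total (2 * Real.pi * (j.val : ℝ) / p) Real.pi with h | h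
  · refine Real.cos_le_cos_of_nonneg_of_le_pi (by positivity) h ?_
    push_cast
    gcongr
  · rw [← Real.cos_two_pi_sub]
    refine Real.cos_le_cos_of_nonneg_of_le_pi (by positivity) (by linarith) ?_
    rw [le_sub_iff_add_le, ← add_div, div_le_iff₀ h5]
    push_cast
    nlinarith

omit [NeZero p] in
theorem small_JHomeo (hp : 5 ≤ p) {n : ℕ} (h0 : n ≠ 0) (hn : n < 5) : (n : ZMod p) ≠ 0 := by
  rw [Ne, ZMod.natCast_eq_zero_iff]
  exact fun h => absurd (Nat.le_of_dvd (Nat.pos_of_ne_zero h0) h) (by omega)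

omit [NeZero p] in
theorem supp_JHomeo (h3 : (3 : ZMod p) ≠ 0) {y : ZMod p → ℝ} (hy : Poly_JHomeo y) :
    ∃ k, ∀ i, i ≠ k → i ≠ k + 1 → y i = 0 := by
  by_cases h0 : ∀ i, y i = 0
  · exact ⟨0, fun i _ _ => h0 i⟩
  obtain ⟨i, hi⟩ := not_forall.1 h0
  by_cases h1 : y (i + 1) = 0
  · refine ⟨i - 1, fun j a b => by_contra fun hj => ?_⟩
    rcases hy.2 i j hi hj with h | h | h
    · exact b (by rw [← h, sub_add_cancel])
    · exact hj (h ▸ h1)
    · exact a (by rw [h, add_sub_cancel_right])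
  · refine ⟨i, fun j a b => by_contra fun hj => ?_⟩
    rcases hy.2 i j hi hj with h | h | h
    · exact a h.symm
    · exact b h
    · rcases hy.2 (i + 1) j h1 hj with h' | h' | h'
      · exact b h'.symm
      · exact h3 (by linear_combination -h - h')
      · exact a (add_right_cancel h').symm

theorem two_JHomeo (hp : 5 ≤ p) {M : Type} [AddCommMonoid M] {f : ZMod p → M} {k : ZMod p}
    (h : ∀ i, i ≠ k → i ≠ k + 1 → f i = 0) : ∑ i, f i = f k + f (k + 1) :=
  Fintype.sum_eq_add k (k + 1)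
    (fun e => small_JHomeo hp one_ne_zero (by omega) (by push_cast; linear_combination -e))
    fun i hi => h i hi.1 hi.2

/-- The functional of the edge from `k` to `k + 1`. -/
def el_JHomeo (k : ZMod p) (z : ℂ) : ℝ :=
  (z * stdAddChar (-k)).re + (z * stdAddChar (-(k + 1))).re

theorem el_pl_JHomeo (k : ZMod p) (y : ZMod p → ℝ) : el_JHomeo k (pl_JHomeo y) =
    ∑ i, y i * ((stdAddChar (i - k)).re + (stdAddChar (i - (k + 1))).re) := by
  simp only [el_JHomeo, pl_JHomeo, Finset.sum_mul, re_sum, mul_assoc, ← AddChar.map_add_eq_mul,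
    re_ofReal_mul, mul_add, Finset.sum_add_distrib, sub_eq_add_neg]

theorem inj_JHomeo (hp : 5 ≤ p) {y y' : ZMod p → ℝ} (hy : Poly_JHomeo y) (hy' : Poly_JHomeo y')
    (h : pl_JHomeo y = pl_JHomeo y') : y = y' := by
  have h3 : (3 : ZMod p) ≠ 0 := by exact_mod_cast small_JHomeo hp three_ne_zero (by omega)
  have hs := pos_JHomeo hp
  have hq := sq_JHomeo (1 : ZMod p)
  set c := (stdAddChar (1 : ZMod p)).re with hc
  have c1 : c < 1 := by nlinarith
  have c2 : 0 < 1 + c := by nlinarith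
  have w0 : ∀ k : ZMod p, (stdAddChar (k - k)).re + (stdAddChar (k - (k + 1))).re = 1 + c := by
    intro k
    rw [sub_self, sub_add_cancel_left, (neg_JHomeo 1).1, AddChar.map_zero_eq_one, one_re]
  have w1 : ∀ k : ZMod p,
      (stdAddChar (k + 1 - k)).re + (stdAddChar (k + 1 - (k + 1))).re = 1 + c := by
    intro k
    rw [sub_self, add_sub_cancel_left, AddChar.map_zero_eq_one, one_re, add_comm]
  have w2 : ∀ k i : ZMod p, i ≠ k → i ≠ k + 1 →
      (stdAddChar (i - k)).re + (stdAddChar (i - (k + 1))).re < 1 + c := fun k i a b => by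
    linarith [le_JHomeo hp (sub_ne_zero.2 a), le_JHomeo hp (sub_ne_zero.2 b)]
  have w3 : ∀ k i : ZMod p,
      0 ≤ 1 + c - ((stdAddChar (i - k)).re + (stdAddChar (i - (k + 1))).re) := fun k i => by
    by_cases a : i = k
    · rw [a, w0, sub_self]
    by_cases b : i = k + 1
    · rw [b, w1, sub_self]
    · exact sub_nonneg.2 (w2 k i a b).le
  have e1 : ∀ (k : ZMod p) (u : ZMod p → ℝ), (∑ i, u i) * (1 + c) - el_JHomeo k (pl_JHomeo u) =
      ∑ i, u i * (1 + c - ((stdAddChar (i - k)).re + (stdAddChar (i - (k + 1))).re)) := by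
    intro k u
    rw [el_pl_JHomeo, Finset.sum_mul, ← Finset.sum_sub_distrib]
    exact Finset.sum_congr rfl fun i _ => (mul_sub _ _ _).symm
  have e2 : ∀ (k : ZMod p) (u : ZMod p → ℝ), (∀ i, i ≠ k → i ≠ k + 1 → u i = 0) →
      (∑ i, u i) * (1 + c) - el_JHomeo k (pl_JHomeo u) = 0 := by
    intro k u hu
    rw [e1, two_JHomeo hp (k := k) fun i a b => by rw [hu i a b, zero_mul], w0, w1]
    ring
  have e3 : ∀ (k : ZMod p) (u : ZMod p → ℝ), (∀ i, 0 ≤ u i) →
      0 ≤ (∑ i, u i) * (1 + c) - el_JHomeo k (pl_JHomeo u) := by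
    intro k u hu
    rw [e1]
    exact Finset.sum_nonneg fun i _ => mul_nonneg (hu i) (w3 k i)
  obtain ⟨k, hk⟩ := supp_JHomeo h3 hy
  obtain ⟨l, hl⟩ := supp_JHomeo h3 hy'
  have f1 := e2 k y hk
  have f2 := e2 l y' hl
  have f3 := e3 k y' hy'.1
  have f4 := e3 l y hy.1
  rw [h] at f1 f4
  have f5 : (∑ i, y' i) * (1 + c) - el_JHomeo k (pl_JHomeo y') = 0 := by linarith
  rw [e1, Finset.sum_eq_zero_iff_of_nonneg fun i _ => mul_nonneg (hy'.1 i) (w3 k i)] at f5
  have hk' : ∀ i, i ≠ k → i ≠ k + 1 → y' i = 0 := fun i a b =>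
    (mul_eq_zero.1 (f5 i (Finset.mem_univ i))).resolve_right (sub_pos.2 (w2 k i a b)).ne'
  rw [pl_JHomeo, pl_JHomeo,
    two_JHomeo hp (k := k) fun i a b => by rw [hk i a b, ofReal_zero, zero_mul],
    two_JHomeo hp (k := k) fun i a b => by rw [hk' i a b, ofReal_zero, zero_mul],
    AddChar.map_add_eq_mul] at h
  have h0 : stdAddChar k ≠ 0 := fun e => by simpa [e] using sq_JHomeo k
  have h1 : (y k : ℂ) + y (k + 1) * stdAddChar (1 : ZMod p) =
      y' k + y' (k + 1) * stdAddChar (1 : ZMod p) :=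
    mul_left_cancel₀ h0 (by linear_combination h)
  have h2 := congrArg im h1
  have h4 := congrArg re h1
  simp only [add_im, ofReal_im, im_ofReal_mul, zero_add, add_re, ofReal_re, re_ofReal_mul] at h2 h4
  have h5 : y (k + 1) = y' (k + 1) := mul_right_cancel₀ hs.ne' h2
  funext i
  by_cases a : i = k
  · rw [h5] at h4
    rw [a, add_right_cancel h4]
  by_cases b : i = k + 1
  · rw [b, h5]
  · rw [hk i a b, hk' i a b]

theorem surj_JHomeo (hp : 5 ≤ p) (z : ℂ) : ∃ y : ZMod p → ℝ, Poly_JHomeo y ∧ pl_JHomeo y = z := by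
  have hs := pos_JHomeo hp
  have hq := sq_JHomeo (1 : ZMod p)
  obtain ⟨n1, n2⟩ := neg_JHomeo (1 : ZMod p)
  obtain ⟨k, hk⟩ := Finite.exists_max fun k : ZMod p => el_JHomeo k z
  have hne : k + 1 ≠ k :=
    fun e => small_JHomeo hp one_ne_zero (by omega) (by push_cast; linear_combination e)
  obtain ⟨w, hw⟩ : ∃ w, w = z * stdAddChar (-k) := ⟨_, rfl⟩
  have m : ∀ j : ZMod p, z * stdAddChar (-(k + j)) = w * stdAddChar (-j) := fun j => by
    rw [hw, neg_add, AddChar.map_add_eq_mul, mul_assoc]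
  have h1 := hk (k + -1)
  have h2 := hk (k + 1)
  have m2 : z * stdAddChar (-(k + 1 + 1)) =
      w * stdAddChar (-1 : ZMod p) * stdAddChar (-1 : ZMod p) := by
    rw [neg_add, AddChar.map_add_eq_mul, ← mul_assoc, m]
  simp only [el_JHomeo, neg_add_cancel_right, m, m2, ← hw, neg_neg, mul_re, mul_im, n1, n2]
    at h1 h2
  set c := (stdAddChar (1 : ZMod p)).re with hc
  set s := (stdAddChar (1 : ZMod p)).im with hs'
  have t0 : 0 ≤ w.im := by nlinarith
  have t1 : 0 ≤ w.re * s - w.im * c := by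
    have : 0 ≤ (w.re * s - w.im * c) * s := by
      have : w.re * (c ^ 2 + s ^ 2) = w.re := by rw [hq, mul_one]
      nlinarith
    exact nonneg_of_mul_nonneg_left this hs
  refine ⟨fun i => if i = k then (w.re * s - w.im * c) / s else if i = k + 1 then w.im / s else 0,
    ⟨fun i => ?_, fun i j hi hj => ?_⟩, ?_⟩
  · dsimp only
    split_ifs
    exacts [div_nonneg t1 hs.le, div_nonneg t0 hs.le, le_rfl]
  · have a : i = k ∨ i = k + 1 := by
      by_contra! h
      simp [h.1, h.2] at hi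
    have b : j = k ∨ j = k + 1 := by
      by_contra! h
      simp [h.1, h.2] at hj
    rcases a with a | a <;> rcases b with b | b <;> simp [a, b]
  · rw [pl_JHomeo, two_JHomeo hp (k := k) fun i a b => by simp [a, b]]
    simp only [if_true, if_neg hne, AddChar.map_add_eq_mul]
    have hz : z = w * stdAddChar k := by
      rw [hw, mul_assoc, ← AddChar.map_add_eq_mul, neg_add_cancel, AddChar.map_zero_eq_one, mul_one]
    have hw2 : w = ((w.re * s - w.im * c) / s : ℝ) + (w.im / s : ℝ) * stdAddChar (1 : ZMod p) := by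
      apply Complex.ext
      · rw [add_re, ofReal_re, re_ofReal_mul, ← hc]
        field_simp
        ring
      · rw [add_im, ofReal_im, im_ofReal_mul, ← hs']
        field_simp
        ring
    rw [hz]
    linear_combination -stdAddChar k * hw2

end

end Pool.Agent.MP_6374aa_gt
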