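import Pool.Agent.MP_6374aa_gt.IfD
import Pool.Agent.MP_6374aa_gt.JHomeoA

/-! The join of two polygons is the 3-sphere, equivariantly. -/

namespace Pool.Agent.MP_6374aa_gt

open Complex ZMod

noncomputable section

variable {p : ℕ} [NeZero p]

/-- The linear map to `ℝ^4`. -/
def F_JHomeo (y : ZMod p ⊕ ZMod p → ℝ) : Fin 4 → ℝ :=
  ![(pl_JHomeo (y ∘ Sum.inl)).re, (pl_JHomeo (y ∘ Sum.inl)).im,
    (pl_JHomeo (y ∘ Sum.inr)).re, (pl_JHomeo (y ∘ Sum.inr)).im]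

/-- The euclidean norm. -/
def nm_JHomeo (x : Fin 4 → ℝ) : ℝ := √(∑ i, x i ^ 2)

theorem nm_smul_JHomeo {r : ℝ} (hr : 0 ≤ r) (x : Fin 4 → ℝ) :
    nm_JHomeo (r • x) = r * nm_JHomeo x := by
  simp only [nm_JHomeo, Pi.smul_apply, smul_eq_mul, mul_pow, ← Finset.mul_sum]
  rw [Real.sqrt_mul (sq_nonneg r), Real.sqrt_sq hr]

theorem nm_pos_JHomeo {x : Fin 4 → ℝ} (hx : x ≠ 0) : 0 < nm_JHomeo x := by
  obtain ⟨i, hi⟩ := Function.ne_iff.1 hx
  exact Real.sqrt_pos.2 (Finset.sum_pos' (fun j _ => sq_nonneg _)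
    ⟨i, Finset.mem_univ i, sq_pos_of_ne_zero hi⟩)

theorem mem_JHomeo {x : Fin 4 → ℝ} : x ∈ S3 ↔ nm_JHomeo x = 1 := Real.sqrt_eq_one.symm

theorem pl_smul_JHomeo (r : ℝ) (y : ZMod p → ℝ) : pl_JHomeo (r • y) = r * pl_JHomeo y := by
  simp only [pl_JHomeo, Pi.smul_apply, smul_eq_mul, ofReal_mul, mul_assoc, Finset.mul_sum]

theorem F_smul_JHomeo (r : ℝ) (y : ZMod p ⊕ ZMod p → ℝ) : F_JHomeo (r • y) = r • F_JHomeo y := by
  have h1 : (r • y) ∘ Sum.inl = r • (y ∘ Sum.inl) := rfl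
  have h2 : (r • y) ∘ Sum.inr = r • (y ∘ Sum.inr) := rfl
  funext i
  fin_cases i <;> simp [F_JHomeo, h1, h2, pl_smul_JHomeo]

theorem F_cont_JHomeo : Continuous (F_JHomeo (p := p)) := by
  refine continuous_pi fun i => ?_
  fin_cases i <;> simp only [F_JHomeo, pl_JHomeo] <;> simp <;> fun_prop

omit [NeZero p] in
theorem adl_JHomeo (i j : ZMod p) :
    Adq (JG p) (Sum.inl i) (Sum.inl j) ↔ i = j ∨ j = i + 1 ∨ i = j + 1 := by
  simp only [Adq, JG, SimpleGraph.fromRel_adj, Sum.inl.injEq, ne_eq]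
  tauto

omit [NeZero p] in
theorem adr_JHomeo (i j : ZMod p) :
    Adq (JG p) (Sum.inr i) (Sum.inr j) ↔ i = j ∨ j = i + 1 ∨ i = j + 1 := by
  simp only [Adq, JG, SimpleGraph.fromRel_adj, Sum.inr.injEq, ne_eq]
  tauto

theorem rl_JHomeo {y : ZMod p ⊕ ZMod p → ℝ} : y ∈ Rl (JG p) Set.univ ↔
    ∑ v, y v = 1 ∧ Poly_JHomeo (y ∘ Sum.inl) ∧ Poly_JHomeo (y ∘ Sum.inr) := by
  refine ⟨fun ⟨h1, h2, _, h4⟩ => ⟨h2, ⟨fun i => h1 _, fun i j a b => ?_⟩, fun i => h1 _,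
    fun i j a b => ?_⟩, fun ⟨h1, h2, h3⟩ => ⟨?_, h1, fun _ _ => trivial, ?_⟩⟩
  · exact (adl_JHomeo i j).1 (h4 _ _ a b)
  · exact (adr_JHomeo i j).1 (h4 _ _ a b)
  · rintro (i | i)
    exacts [h2.1 i, h3.1 i]
  · rintro (i | i) (j | j) a b
    · exact (adl_JHomeo i j).2 (h2.2 i j a b)
    · exact Or.inr (by simp [JG, SimpleGraph.fromRel_adj])
    · exact Or.inr (by simp [JG, SimpleGraph.fromRel_adj])
    · exact (adr_JHomeo i j).2 (h3.2 i j a b)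

omit [NeZero p] in
theorem poly_smul_JHomeo {r : ℝ} (hr : 0 ≤ r) {y : ZMod p → ℝ} (hy : Poly_JHomeo y) :
    Poly_JHomeo (r • y) :=
  ⟨fun i => mul_nonneg hr (hy.1 i), fun i j a b =>
    hy.2 i j (right_ne_zero_of_mul a) (right_ne_zero_of_mul b)⟩

theorem F_inj_JHomeo (hp : 5 ≤ p) {y y' : Rl (JG p) Set.univ} {r : ℝ} (hr : 0 ≤ r)
    (h : F_JHomeo y.1 = r • F_JHomeo y'.1) : y.1 = r • y'.1 := by
  obtain ⟨-, a1, a2⟩ := rl_JHomeo.1 y.2
  obtain ⟨-, b1, b2⟩ := rl_JHomeo.1 y'.2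
  rw [← F_smul_JHomeo] at h
  have h1 : y.1 ∘ Sum.inl = r • (y'.1 ∘ Sum.inl) := inj_JHomeo hp a1 (poly_smul_JHomeo hr b1)
    (Complex.ext (congrFun h 0) (congrFun h 1))
  have h2 : y.1 ∘ Sum.inr = r • (y'.1 ∘ Sum.inr) := inj_JHomeo hp a2 (poly_smul_JHomeo hr b2)
    (Complex.ext (congrFun h 2) (congrFun h 3))
  funext v
  rcases v with i | i
  exacts [congrFun h1 i, congrFun h2 i]

theorem F_pos_JHomeo (hp : 5 ≤ p) (y : Rl (JG p) Set.univ) : 0 < nm_JHomeo (F_JHomeo y.1) := by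
  refine nm_pos_JHomeo fun h => ?_
  have h1 := F_inj_JHomeo hp (y := y) (y' := y) le_rfl (by rw [h, smul_zero])
  have h2 := y.2.2.1
  rw [h1] at h2
  simp at h2

/-- The map to the sphere. -/
def H_JHomeo (hp : 5 ≤ p) (y : Rl (JG p) Set.univ) : S3 :=
  ⟨(nm_JHomeo (F_JHomeo y.1))⁻¹ • F_JHomeo y.1, mem_JHomeo.2 (by
    rw [nm_smul_JHomeo (inv_pos.2 (F_pos_JHomeo hp y)).le,
      inv_mul_cancel₀ (F_pos_JHomeo hp y).ne'])⟩

theorem H_cont_JHomeo (hp : 5 ≤ p) : Continuous (H_JHomeo hp) := by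
  have h : Continuous fun y : Rl (JG p) Set.univ => F_JHomeo y.1 :=
    F_cont_JHomeo.comp continuous_subtype_val
  have h2 : Continuous nm_JHomeo := by
    unfold nm_JHomeo
    fun_prop
  exact (((h2.comp h).inv₀ fun y => (F_pos_JHomeo hp y).ne').smul h).subtype_mk _

theorem H_bij_JHomeo (hp : 5 ≤ p) : Function.Bijective (H_JHomeo hp) := by
  refine ⟨fun y y' h => ?_, fun x => ?_⟩
  · have h0 := F_pos_JHomeo hp y
    have h0' := F_pos_JHomeo hp y'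
    have h1 : (nm_JHomeo (F_JHomeo y.1))⁻¹ • F_JHomeo y.1 =
        (nm_JHomeo (F_JHomeo y'.1))⁻¹ • F_JHomeo y'.1 := congrArg Subtype.val h
    have h2 := F_inj_JHomeo hp (y := y) (y' := y') (mul_pos h0 (inv_pos.2 h0')).le (by
      rw [mul_smul, ← h1, smul_inv_smul₀ h0.ne'])
    have h3 := y.2.2.1
    rw [h2] at h3
    simp only [Pi.smul_apply, smul_eq_mul, ← Finset.mul_sum, y'.2.2.1, mul_one] at h3
    exact Subtype.ext (by rw [h2, h3, one_smul])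
  · obtain ⟨u, hu, eu⟩ := surj_JHomeo hp ⟨x.1 0, x.1 1⟩
    obtain ⟨v, hv, ev⟩ := surj_JHomeo hp ⟨x.1 2, x.1 3⟩
    have hF : F_JHomeo (Sum.elim u v) = x.1 := by
      funext i
      fin_cases i <;> simp [F_JHomeo, eu, ev]
    have hx := mem_JHomeo.1 x.2
    have h0 : ∀ w, 0 ≤ Sum.elim u v w := by
      rintro (i | i)
      exacts [hu.1 i, hv.1 i]
    have hs : 0 < ∑ w, Sum.elim u v w := by
      refine (Finset.sum_nonneg fun w _ => h0 w).lt_of_ne' fun e => ?_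
      have e1 : Sum.elim u v = (0 : ℝ) • Sum.elim u v := funext fun w => by
        rw [(Finset.sum_eq_zero_iff_of_nonneg fun w _ => h0 w).1 e w (Finset.mem_univ w),
          zero_smul, Pi.zero_apply]
      rw [← hF, e1, F_smul_JHomeo, nm_smul_JHomeo le_rfl, zero_mul] at hx
      exact zero_ne_one hx
    refine ⟨⟨(∑ w, Sum.elim u v w)⁻¹ • Sum.elim u v, rl_JHomeo.2 ⟨?_,
      poly_smul_JHomeo (inv_pos.2 hs).le hu, poly_smul_JHomeo (inv_pos.2 hs).le hv⟩⟩,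
      Subtype.ext ?_⟩
    · simp only [Pi.smul_apply, smul_eq_mul, ← Finset.mul_sum]
      exact inv_mul_cancel₀ hs.ne'
    · show (nm_JHomeo (F_JHomeo _))⁻¹ • F_JHomeo _ = _
      rw [F_smul_JHomeo, hF, nm_smul_JHomeo (inv_pos.2 hs).le, hx, mul_one,
        inv_smul_smul₀ (inv_pos.2 hs).ne']

theorem pl_rot_JHomeo {y y' : ZMod p → ℝ} {a : ZMod p} (h : ∀ i, y' (i + a) = y i) :
    pl_JHomeo y' = pl_JHomeo y * stdAddChar a := by
  rw [pl_JHomeo, pl_JHomeo, ← Equiv.sum_comp (Equiv.addRight a), Finset.sum_mul]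
  exact Finset.sum_congr rfl fun i _ => by
    rw [Equiv.coe_addRight, h, AddChar.map_add_eq_mul, mul_assoc]

theorem nm_rot_JHomeo (s t : ℝ) (x : Fin 4 → ℝ) : nm_JHomeo ((rot s t).mulVec x) = nm_JHomeo x := by
  unfold nm_JHomeo
  congr 1
  simp [rot, Fin.sum_univ_four, Matrix.mulVec, dotProduct]
  linear_combination (x 0 ^ 2 + x 1 ^ 2) * Real.cos_sq_add_sin_sq s +
    (x 2 ^ 2 + x 3 ^ 2) * Real.cos_sq_add_sin_sq t

theorem jHomeo (hB : RlBasicStmt) : JHomeoStmt := by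
  intro p _ hp
  have := (hB _ (JG p) Set.univ).1
  refine ⟨Continuous.homeoOfEquivCompactToT2 (f := Equiv.ofBijective _ (H_bij_JHomeo hp))
    (H_cont_JHomeo hp), fun a b y y' h => ?_⟩
  have h1 : pl_JHomeo (y'.1 ∘ Sum.inl) = pl_JHomeo (y.1 ∘ Sum.inl) * stdAddChar (a : ZMod p) :=
    pl_rot_JHomeo fun i => by simpa [Jα] using h (Sum.inl i)
  have h2 : pl_JHomeo (y'.1 ∘ Sum.inr) = pl_JHomeo (y.1 ∘ Sum.inr) * stdAddChar (b : ZMod p) :=
    pl_rot_JHomeo fun i => by simpa [Jα] using h (Sum.inr i)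
  have h3 : F_JHomeo y'.1 = (rot (ang p a) (ang p b)).mulVec (F_JHomeo y.1) := by
    funext i
    fin_cases i <;>
      simp [F_JHomeo, h1, h2, rot, ang, re_JHomeo, im_JHomeo, Fin.sum_univ_four, Matrix.mulVec,
        dotProduct] <;> ring
  show (nm_JHomeo (F_JHomeo y'.1))⁻¹ • F_JHomeo y'.1 =
    (rot (ang p a) (ang p b)).mulVec ((nm_JHomeo (F_JHomeo y.1))⁻¹ • F_JHomeo y.1)
  rw [Matrix.mulVec_smul, h3, nm_rot_JHomeo]

end

end Pool.Agent.MP_6374aa_gt
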