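import Pool.Agent.MP_6374aa_gt.IfT

/-! The join of two polygons: dimension, simple connectivity, homology and free rotations. -/

namespace Pool.Agent.MP_6374aa_gt

open Classical Sum

section

variable {V : Type} {G : SimpleGraph V}

theorem add_JPack {S : Set V} (v : V) {n : ℕ} (h : Zy G (Lk G S {v}) n ≤ Bd G (Lk G S {v}) n)
    (h' : Zy G (S \ {v}) (n + 1) ≤ Bd G (S \ {v}) (n + 1)) : Zy G S (n + 1) ≤ Bd G S (n + 1) :=
  (Zy_le_diff h).trans (sup_le (h'.trans (Bd_mono (fun _ hx => hx.1) _)) le_rfl)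

theorem lk_JPack {S : Set V} {v w : V} : w ∈ Lk G S {v} ↔ w ∈ S ∧ G.Adj v w :=
  ⟨fun h => ⟨h.1, h.2 v rfl⟩, fun h => ⟨h.1, fun _ hu => hu ▸ h.2⟩⟩

end

variable {p : ℕ}

theorem ne_JPack (hp : 5 ≤ p) :
    (1 : ZMod p) ≠ 0 ∧ (2 : ZMod p) ≠ 0 ∧ (3 : ZMod p) ≠ 0 := by
  have h : ∀ k : ℕ, 0 < k → k < 5 → ((k : ℕ) : ZMod p) ≠ 0 := fun k h1 h2 h3 => by
    have := Nat.le_of_dvd h1 ((ZMod.natCast_eq_zero_iff k p).1 h3)
    omega
  exact ⟨by exact_mod_cast h 1 (by norm_num) (by norm_num),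
    by exact_mod_cast h 2 (by norm_num) (by norm_num),
    by exact_mod_cast h 3 (by norm_num) (by norm_num)⟩

theorem ll_JPack (hp : 5 ≤ p) {i j : ZMod p} :
    (JG p).Adj (inl i) (inl j) ↔ j = i + 1 ∨ i = j + 1 := by
  rw [JG, SimpleGraph.fromRel_adj]
  refine ⟨fun h => h.2, fun h => ⟨fun h1 => (ne_JPack hp).1 ?_, h⟩⟩
  obtain rfl : i = j := inl_injective h1
  rcases h with h | h <;> linear_combination -h

theorem rr_JPack (hp : 5 ≤ p) {i j : ZMod p} :
    (JG p).Adj (inr i) (inr j) ↔ j = i + 1 ∨ i = j + 1 := by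
  rw [JG, SimpleGraph.fromRel_adj]
  refine ⟨fun h => h.2, fun h => ⟨fun h1 => (ne_JPack hp).1 ?_, h⟩⟩
  obtain rfl : i = j := inr_injective h1
  rcases h with h | h <;> linear_combination -h

theorem lr_JPack (i j : ZMod p) : (JG p).Adj (inl i) (inr j) := by
  rw [JG, SimpleGraph.fromRel_adj]
  exact ⟨inl_ne_inr, Or.inl trivial⟩

theorem card_JPack (hp : 5 ≤ p) (s : Finset (ZMod p))
    (h : ∀ i ∈ s, ∀ j ∈ s, i ≠ j → j = i + 1 ∨ i = j + 1) : s.card ≤ 2 := by
  obtain ⟨n1, -, n3⟩ := ne_JPack hp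
  by_contra h1
  obtain ⟨a, ha, b, hb, c, hc, hab, hac, hbc⟩ := Finset.two_lt_card.1 (not_le.1 h1)
  rcases h a ha b hb hab with e1 | e1 <;> rcases h a ha c hc hac with e2 | e2 <;>
    rcases h b hb c hc hbc with e3 | e3
  · exact n1 (by linear_combination e2 - e1 - e3)
  · exact n1 (by linear_combination e1 - e2 - e3)
  · exact n3 (by linear_combination -e1 - e2 - e3)
  · exact n1 (by linear_combination e3 - e1 - e2)
  · exact n1 (by linear_combination e3 - e1 - e2)
  · exact n3 (by linear_combination -e1 - e2 - e3)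
  · exact n1 (by linear_combination e1 - e2 - e3)
  · exact n1 (by linear_combination e2 - e1 - e3)

theorem rot_JPack (hp : 5 ≤ p) {i t : ZMod p} (h1 : i ≠ i + t → i + t = i + 1 ∨ i = i + t + 1)
    (h2 : i ≠ i + t + t → i + t + t = i + 1 ∨ i = i + t + t + 1) : t = 0 := by
  obtain ⟨n1, n2, n3⟩ := ne_JPack hp
  by_contra ht
  rcases h1 (fun h => ht (by linear_combination -h)) with e1 | e1
  · rcases h2 (fun h => n2 (by linear_combination -h - 2 * e1)) with e2 | e2
    · exact n1 (by linear_combination e2 - 2 * e1)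
    · exact n3 (by linear_combination -e2 - 2 * e1)
  · rcases h2 (fun h => n2 (by linear_combination h - 2 * e1)) with e2 | e2
    · exact n3 (by linear_combination -e2 - 2 * e1)
    · exact n1 (by linear_combination e2 - 2 * e1)

theorem fin3_JPack [NeZero p] (hp : 5 ≤ p) : Fin3 (JG p) Set.univ := by
  refine ⟨Set.finite_univ, fun s _ hs => ?_⟩
  have h1 := card_JPack hp s.toLeft fun i hi j hj hij => (ll_JPack hp).1
    (hs (Finset.mem_toLeft.1 hi) (Finset.mem_toLeft.1 hj) fun h => hij (inl_injective h))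
  have h2 := card_JPack hp s.toRight fun i hi j hj hij => (rr_JPack hp).1
    (hs (Finset.mem_toRight.1 hi) (Finset.mem_toRight.1 hj) fun h => hij (inr_injective h))
  have h3 := Finset.card_toLeft_add_card_toRight (u := s)
  omega

theorem free_JPack [NeZero p] (hp : 5 ≤ p) (a b : (ZMod p)ˣ) :
    FreeAct (JG p) Set.univ (Jα p a b) := by
  have el : ∀ g i, Jα p a b g (inl i) = inl (i + (a : ZMod p) * g.toAdd) := fun _ _ => rfl
  have er : ∀ g i, Jα p a b g (inr i) = inr (i + (b : ZMod p) * g.toAdd) := fun _ _ => rfl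
  refine ⟨⟨fun _ _ _ => trivial, ?_⟩, fun g σ hne _ hc h => ?_⟩
  · rintro g (i | i) - (j | j) - h
    · rw [el, el, ll_JPack hp]
      exact ((ll_JPack hp).1 h).imp (fun e => by linear_combination e)
        fun e => by linear_combination e
    · exact lr_JPack _ _
    · exact (lr_JPack _ _).symm
    · rw [er, er, rr_JPack hp]
      exact ((rr_JPack hp).1 h).imp (fun e => by linear_combination e)
        fun e => by linear_combination e
  · have hm : ∀ x ∈ σ, Jα p a b g x ∈ σ := fun x hx => h ▸ Finset.mem_map_of_mem _ hx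
    obtain ⟨x | x, hx⟩ := hne
    · have h1 := hm _ hx
      have h2 := hm _ h1
      rw [el] at h1
      rw [el, el] at h2
      have h3 := rot_JPack hp (fun e => (ll_JPack hp).1 (hc hx h1 fun e' => e (inl_injective e')))
        fun e => (ll_JPack hp).1 (hc hx h2 fun e' => e (inl_injective e'))
      exact toAdd_eq_zero.1 ((Units.mul_right_eq_zero a).1 h3)
    · have h1 := hm _ hx
      have h2 := hm _ h1
      rw [er] at h1
      rw [er, er] at h2
      have h3 := rot_JPack hp (fun e => (rr_JPack hp).1 (hc hx h1 fun e' => e (inr_injective e')))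
        fun e => (rr_JPack hp).1 (hc hx h2 fun e' => e (inr_injective e'))
      exact toAdd_eq_zero.1 ((Units.mul_right_eq_zero b).1 h3)

theorem ind_JPack [NeZero p] {P : ZMod p → Prop} (h0 : P 0) (h : ∀ i, P i → P (i + 1))
    (i : ZMod p) : P i := by
  obtain ⟨n, rfl⟩ := ZMod.natCast_zmod_surjective i
  induction n with
  | zero => simpa using h0
  | succ n ih => simpa using h _ ih

theorem sconn_JPack [NeZero p] (hp : 5 ≤ p) : SConn (JG p) Set.univ := by
  have lr : ∀ i j : ZMod p, Adq (JG p) (inl i) (inr j) := fun i j => Or.inr (lr_JPack i j)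
  have fl : ∀ {u v w}, Adq (JG p) u v → Adq (JG p) v w → Adq (JG p) u w →
      gen (JG p) Set.univ u v * gen (JG p) Set.univ v w = gen (JG p) Set.univ u w :=
    fun h1 h2 h3 => flat_gen (JG p) Set.univ _ trivial _ trivial _ trivial h1 h2 h3
  have h0 : ∀ a, ∃ γ, Path (JG p) Set.univ a (inl 0) γ := by
    rintro (i | j)
    · exact ⟨_, (Path.single (Set.mem_univ _) (Set.mem_univ _) (lr i 0)).trans
        (Path.single (Set.mem_univ _) (Set.mem_univ _) (lr 0 0).symm)⟩
    · exact ⟨_, Path.single (Set.mem_univ _) (Set.mem_univ _) (lr 0 j).symm⟩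
  refine ⟨⟨⟨inl 0, trivial⟩, fun a _ b _ => ?_⟩, fun a γ hγ => ?_⟩
  · obtain ⟨γ, hγ⟩ := h0 a
    obtain ⟨δ, hδ⟩ := h0 b
    exact ⟨_, hγ.trans hδ.symm⟩
  · have h1 : ∀ i j : ZMod p,
        gen (JG p) Set.univ (inl i) (inr j) * gen (JG p) Set.univ (inr j) (inl 0) =
          gen (JG p) Set.univ (inl i) (inr 0) * gen (JG p) Set.univ (inr 0) (inl 0) := by
      intro i j
      induction j using ind_JPack with
      | h0 => rfl
      | h j ih =>
        have h2 : Adq (JG p) (inr j) (inr (j + 1)) := Or.inr ((rr_JPack hp).2 (Or.inl rfl))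
        rw [← ih, ← fl (lr i j) h2 (lr i _), mul_assoc, fl h2 (lr 0 _).symm (lr 0 j).symm]
    let k : ZMod p ⊕ ZMod p → Gp (JG p) Set.univ := Sum.elim
      (fun i => gen (JG p) Set.univ (inl i) (inr 0) * gen (JG p) Set.univ (inr 0) (inl 0))
      fun j => gen (JG p) Set.univ (inr j) (inl 0)
    have h2 : ∀ u w, Adq (JG p) u w → gen (JG p) Set.univ u w * k w = k u := by
      rintro (i | i) (j | j) h
      · simp only [k, Sum.elim_inl]
        rw [← mul_assoc, fl h (lr j 0) (lr i 0)]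
      · exact h1 i j
      · simp only [k, Sum.elim_inl, Sum.elim_inr]
        rw [← h1 j i, ← mul_assoc, fl h h.symm (Adq.refl _ _), fl (Adq.refl _ _) (lr 0 i).symm
          (lr 0 i).symm]
      · exact fl h (lr 0 j).symm (lr 0 i).symm
    have h3 := Path.gauge' (ρ := MonoidHom.id _) (σ := 1) (k := k) (fun u _ w _ h => by
      rw [← h2 u w h]
      simp) hγ
    simpa using h3

/-- The first polygon together with an arc of the second one. -/
def U_JPack (p k : ℕ) : Set (ZMod p ⊕ ZMod p) := {x | ∀ j, x = inr j → j.val < k}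

theorem inl_mem_JPack (k : ℕ) (i : ZMod p) : inl i ∈ U_JPack p k := fun _ h => absurd h inl_ne_inr

theorem inr_mem_JPack {k : ℕ} {j : ZMod p} : inr j ∈ U_JPack p k ↔ j.val < k :=
  ⟨fun h => h j rfl, fun h _ e => inr_injective e ▸ h⟩

theorem diff_JPack [NeZero p] {k : ℕ} (hk : k < p) :
    U_JPack p (k + 1) \ {inr (k : ZMod p)} = U_JPack p k := by
  ext (i | j)
  · exact ⟨fun _ => inl_mem_JPack _ _, fun _ => ⟨inl_mem_JPack _ _, inl_ne_inr⟩⟩
  · rw [Set.mem_sdiff, inr_mem_JPack, inr_mem_JPack, Set.mem_singleton_iff, inr.injEq]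
    constructor
    · rintro ⟨h1, h2⟩
      refine lt_of_le_of_ne (Nat.lt_succ_iff.1 h1) fun h => h2 ?_
      rw [← h, ZMod.natCast_zmod_val]
    · refine fun h => ⟨by omega, fun e => ?_⟩
      rw [e, ZMod.val_natCast_of_lt hk] at h
      omega

theorem arc_JPack [NeZero p] (hp : 5 ≤ p) (m : ℕ) (hm : m + 1 < p) (n : ℕ) :
    Zy (JG p) (U_JPack p (m + 1)) n ≤ Bd (JG p) (U_JPack p (m + 1)) n := by
  induction m generalizing n with
  | zero =>
    refine Zy_le_Bd_of_cone (v := inr 0) (inr_mem_JPack.2 (by simp)) subset_rfl ?_ n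
    rintro (i | j) h
    · exact Or.inr (lr_JPack _ _).symm
    · have h1 := inr_mem_JPack.1 h
      have h2 : j = 0 := (ZMod.val_eq_zero j).1 (by omega)
      exact Or.inl (by rw [h2])
  | succ m ih =>
    cases n with
    | zero => exact PConn.Zy_zero_le ⟨_, inl_mem_JPack _ 0⟩
    | succ n =>
      refine add_JPack (inr ((m + 1 : ℕ) : ZMod p)) ?_ ?_
      · refine Zy_le_Bd_of_cone (v := inr (m : ZMod p)) (lk_JPack.2 ⟨inr_mem_JPack.2 ?_,
          (rr_JPack hp).2 (Or.inr (Nat.cast_succ m))⟩) subset_rfl ?_ n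
        · rw [ZMod.val_natCast_of_lt (by omega)]
          omega
        · rintro (i | j) h
          · exact Or.inr (lr_JPack _ _).symm
          · obtain ⟨h1, h2⟩ := lk_JPack.1 h
            rcases (rr_JPack hp).1 h2 with h3 | h3
            · rw [inr_mem_JPack, h3, ← Nat.cast_succ, ZMod.val_natCast_of_lt hm] at h1
              omega
            · rw [Nat.cast_succ] at h3
              exact Or.inl (by rw [add_right_cancel h3])
      · rw [diff_JPack (by omega)]
        exact ih (by omega) _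

theorem poly_JPack [NeZero p] (hp : 5 ≤ p) : PConn (JG p) (Set.range inl) := by
  have h0 : ∀ i : ZMod p, ∃ γ, Path (JG p) (Set.range inl) (inl 0) (inl i) γ := fun i => by
    induction i using ind_JPack with
    | h0 => exact ⟨_, Path.nil ⟨0, rfl⟩⟩
    | h i ih =>
      obtain ⟨γ, hγ⟩ := ih
      exact ⟨_, hγ.trans (Path.single ⟨_, rfl⟩ ⟨_, rfl⟩ (Or.inr ((ll_JPack hp).2 (Or.inl rfl))))⟩
  refine ⟨⟨_, 0, rfl⟩, ?_⟩
  rintro _ ⟨i, rfl⟩ _ ⟨j, rfl⟩
  obtain ⟨γ, hγ⟩ := h0 i
  obtain ⟨δ, hδ⟩ := h0 j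
  exact ⟨_, hγ.symm.trans hδ⟩

theorem susp_JPack (hp : 5 ≤ p) (c : ZMod p) {n : ℕ}
    (h : Zy (JG p) (Set.range inl) n ≤ Bd (JG p) (Set.range inl) n) :
    Zy (JG p) (Lk (JG p) Set.univ {inr c}) (n + 1) ≤
      Bd (JG p) (Lk (JG p) Set.univ {inr c}) (n + 1) := by
  obtain ⟨n1, n2, n3⟩ := ne_JPack hp
  refine add_JPack (inr (c + 1)) ?_ ?_
  · have : Lk (JG p) (Lk (JG p) Set.univ {inr c}) {inr (c + 1)} = Set.range inl := by
      ext (i | j)
      · exact ⟨fun _ => ⟨i, rfl⟩, fun _ => lk_JPack.2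
          ⟨lk_JPack.2 ⟨trivial, (lr_JPack _ _).symm⟩, (lr_JPack _ _).symm⟩⟩
      · refine ⟨fun h => ?_, fun ⟨_, h⟩ => absurd h inl_ne_inr⟩
        obtain ⟨h1, h2⟩ := lk_JPack.1 h
        rcases (rr_JPack hp).1 (lk_JPack.1 h1).2 with e1 | e1 <;>
          rcases (rr_JPack hp).1 h2 with e2 | e2
        · exact absurd (by linear_combination e1 - e2) n1
        · exact absurd (by linear_combination -e1 - e2) n1
        · exact absurd (by linear_combination -e1 - e2) n3
        · exact absurd (by linear_combination e2 - e1) n1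
    rwa [this]
  · refine Zy_le_Bd_of_cone (v := inr (c - 1)) ?_ subset_rfl ?_ _
    · exact ⟨lk_JPack.2 ⟨trivial, (rr_JPack hp).2 (Or.inr (sub_add_cancel c 1).symm)⟩,
        fun e => n2 (by linear_combination -(inr_injective e))⟩
    · rintro (i | j) ⟨h1, h2⟩
      · exact Or.inr (lr_JPack _ _).symm
      · rcases (rr_JPack hp).1 (lk_JPack.1 h1).2 with e1 | e1
        · exact absurd (congrArg inr e1) h2
        · exact Or.inl (by rw [e1, add_sub_cancel_right])

theorem hom_JPack [NeZero p] (hp : 5 ≤ p) {n : ℕ}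
    (h : Zy (JG p) (Set.range inl) n ≤ Bd (JG p) (Set.range inl) n) :
    Zy (JG p) Set.univ (n + 2) ≤ Bd (JG p) Set.univ (n + 2) := by
  obtain ⟨m, hm⟩ : ∃ m, p = m + 1 + 1 := ⟨p - 2, by omega⟩
  refine add_JPack (inr ((m + 1 : ℕ) : ZMod p)) (susp_JPack hp _ h) ?_
  have h1 : U_JPack p (m + 1 + 1) = Set.univ :=
    Set.eq_univ_of_forall fun x j _ => hm ▸ ZMod.val_lt j
  rw [← h1, diff_JPack (by omega)]
  exact arc_JPack hp m (by omega) _

theorem jPack : JPackStmt := by
  intro p _ hp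
  refine ⟨fin3_JPack hp, sconn_JPack hp, ?_, free_JPack hp⟩
  rintro n (rfl | rfl)
  · exact hom_JPack hp (PConn.Zy_zero_le ⟨_, 0, rfl⟩)
  · exact hom_JPack hp (poly_JPack hp).Zy_one_le

end Pool.Agent.MP_6374aa_gt
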