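import Pool.Agent.MP_6374aa_gt.JValA

/-! The torsion of the join of two polygons: the frame. -/

namespace Pool.Agent.MP_6374aa_gt

variable {p : ℕ}

/-- The vertices of a face of the polygon. -/
def ls_JVal : T_JVal p → List (ZMod p)
  | .inl _ => []
  | .inr (.inl i) => [i]
  | .inr (.inr i) => [i, i + 1]

/-- The vertices of a face of the join. -/
def cl_JVal (τ τ' : T_JVal p) : List (ZMod p ⊕ ZMod p) :=
  (ls_JVal τ').map Sum.inr ++ (ls_JVal τ).map Sum.inl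

theorem mem_inl_JVal {τ τ' : T_JVal p} {i : ZMod p} :
    Sum.inl i ∈ cl_JVal τ τ' ↔ i ∈ ls_JVal τ := by simp [cl_JVal]

theorem mem_inr_JVal {τ τ' : T_JVal p} {i : ZMod p} :
    Sum.inr i ∈ cl_JVal τ τ' ↔ i ∈ ls_JVal τ' := by simp [cl_JVal]

theorem ls_sh_JVal (c : ZMod p) (τ : T_JVal p) :
    ls_JVal (sh_JVal c τ) = (ls_JVal τ).map (· + c) := by
  rcases τ with i | i | i <;> simp [ls_JVal, sh_JVal, add_right_comm _ c 1]

theorem cl_map_JVal (a b : (ZMod p)ˣ) (g : Cp p) (τ τ' : T_JVal p) :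
    (cl_JVal τ τ').map (Jα p a b g) =
      cl_JVal (sh_JVal (a.1 * g.toAdd) τ) (sh_JVal (b.1 * g.toAdd) τ') := by
  simp only [cl_JVal, ls_sh_JVal, List.map_append, List.map_map]
  rfl

theorem ne_JVal (hp : 5 ≤ p) : (1 : ZMod p) ≠ 0 ∧ (2 : ZMod p) ≠ 0 ∧ (3 : ZMod p) ≠ 0 := by
  have h : ∀ n : ℕ, 0 < n → n < 5 → (n : ZMod p) ≠ 0 := fun n h1 h2 h3 => by
    have := Nat.le_of_dvd h1 ((ZMod.natCast_eq_zero_iff n p).1 h3)
    omega
  exact ⟨by exact_mod_cast h 1 (by omega) (by omega), by exact_mod_cast h 2 (by omega) (by omega),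
    by exact_mod_cast h 3 (by omega) (by omega)⟩

theorem ls_inj_JVal (hp : 5 ≤ p) {τ τ' : T_JVal p} (h : ∀ i, i ∈ ls_JVal τ ↔ i ∈ ls_JVal τ') :
    τ = τ' := by
  obtain ⟨n1, n2, -⟩ := ne_JVal hp
  rcases τ with i | i | i <;> rcases τ' with j | j | j <;>
    simp only [ls_JVal, List.not_mem_nil, List.mem_cons, or_false, false_iff, iff_false] at h
  · rfl
  · exact absurd rfl (h j)
  · exact absurd (Or.inl rfl) (h j)
  · exact absurd rfl (h i)
  · rw [(h i).1 rfl]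
  · exact absurd (by linear_combination (h (j + 1)).2 (Or.inr rfl) - (h j).2 (Or.inl rfl)) n1
  · exact absurd (Or.inl rfl) (h i)
  · exact absurd (by linear_combination (h (i + 1)).1 (Or.inr rfl) - (h i).1 (Or.inl rfl)) n1
  · rcases (h i).1 (Or.inl rfl) with h1 | h1
    · rw [h1]
    · rcases (h (i + 1)).1 (Or.inr rfl) with h2 | h2
      · exact absurd (by linear_combination h2 - h1) n2
      · exact absurd (by linear_combination h2 - h1) n1

theorem ls_ex_JVal (hp : 5 ≤ p) (S : ZMod p → Prop)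
    (h : ∀ i j, S i → S j → i = j ∨ j = i + 1 ∨ i = j + 1) :
    ∃ τ : T_JVal p, ∀ i, i ∈ ls_JVal τ ↔ S i := by
  obtain ⟨n1, n2, n3⟩ := ne_JVal hp
  by_cases h1 : ∃ i, S i ∧ S (i + 1)
  · obtain ⟨i, hi, hi'⟩ := h1
    refine ⟨.inr (.inr i), fun j => ?_⟩
    simp only [ls_JVal, List.not_mem_nil, List.mem_cons, or_false]
    refine ⟨by rintro (rfl | rfl) <;> assumption, fun hj => ?_⟩
    rcases h i j hi hj with h2 | h2 | h2
    · exact Or.inl h2.symm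
    · exact Or.inr h2
    · rcases h (i + 1) j hi' hj with h3 | h3 | h3
      · exact Or.inr h3.symm
      · exact absurd (by linear_combination -h2 - h3) n3
      · exact absurd (by linear_combination h3 - h2) n1
  · by_cases h2 : ∃ i, S i
    · obtain ⟨i, hi⟩ := h2
      refine ⟨.inr (.inl i), fun j => ?_⟩
      simp only [ls_JVal, List.not_mem_nil, List.mem_cons, or_false]
      refine ⟨by rintro rfl; assumption, fun hj => ?_⟩
      rcases h i j hi hj with h3 | h3 | h3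
      · exact h3.symm
      · exact absurd ⟨i, hi, h3 ▸ hj⟩ h1
      · exact absurd ⟨j, hj, h3 ▸ hi⟩ h1
    · exact ⟨.inl (), fun j => ⟨fun hj => absurd hj List.not_mem_nil, fun hj => absurd ⟨j, hj⟩ h2⟩⟩

theorem ls_adj_JVal (τ : T_JVal p) :
    ∀ i ∈ ls_JVal τ, ∀ j ∈ ls_JVal τ, i = j ∨ j = i + 1 ∨ i = j + 1 := by
  rcases τ with k | k | k <;> simp [ls_JVal]

theorem adq_inl_JVal {i j : ZMod p} :
    Adq (JG p) (.inl i) (.inl j) ↔ i = j ∨ j = i + 1 ∨ i = j + 1 := by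
  by_cases h : i = j <;> simp [Adq, JG, h]

theorem adq_inr_JVal {i j : ZMod p} :
    Adq (JG p) (.inr i) (.inr j) ↔ i = j ∨ j = i + 1 ∨ i = j + 1 := by
  by_cases h : i = j <;> simp [Adq, JG, h]

theorem isCl_JVal (τ τ' : T_JVal p) : IsCl (JG p) Set.univ (cl_JVal τ τ') := by
  refine ⟨fun _ _ => trivial, ?_⟩
  rintro (i | i) hi (j | j) hj
  · exact adq_inl_JVal.2 (ls_adj_JVal τ i (mem_inl_JVal.1 hi) j (mem_inl_JVal.1 hj))
  · simp [Adq, JG]
  · simp [Adq, JG]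
  · exact adq_inr_JVal.2 (ls_adj_JVal τ' i (mem_inr_JVal.1 hi) j (mem_inr_JVal.1 hj))

theorem nodup_JVal (hp : 5 ≤ p) (τ τ' : T_JVal p) : (cl_JVal τ τ').Nodup := by
  have n1 := (ne_JVal hp).1
  rcases τ with i | i | i <;> rcases τ' with j | j | j <;> simp [cl_JVal, ls_JVal, n1]

/-- The orbit representatives. -/
def rp_JVal : (Unit ⊕ Unit) ⊕ (T_JVal p ⊕ T_JVal p) → T_JVal p × T_JVal p
  | .inl (.inl _) => (.inr (.inl 0), .inl ())
  | .inl (.inr _) => (.inr (.inr 0), .inl ())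
  | .inr (.inl τ) => (τ, .inr (.inl 0))
  | .inr (.inr τ) => (τ, .inr (.inr 0))

theorem orb_inj_JVal (a b : (ZMod p)ˣ) {g g' : ZMod p}
    {i i' : (Unit ⊕ Unit) ⊕ (T_JVal p ⊕ T_JVal p)}
    (h1 : sh_JVal (a.1 * g) (rp_JVal i).1 = sh_JVal (a.1 * g') (rp_JVal i').1)
    (h2 : sh_JVal (b.1 * g) (rp_JVal i).2 = sh_JVal (b.1 * g') (rp_JVal i').2) : g = g' ∧ i = i' := by
  have e1 : ∀ (c : ZMod p) u, sh_JVal c (.inl u) = .inl u := fun _ _ => rfl
  have e2 : ∀ c j : ZMod p, sh_JVal c (.inr (.inl j)) = .inr (.inl (j + c)) := fun _ _ => rfl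
  have e3 : ∀ c j : ZMod p, sh_JVal c (.inr (.inr j)) = .inr (.inr (j + c)) := fun _ _ => rfl
  rcases i with (i | i) | (i | i) <;> rcases i' with (i' | i') | (i' | i') <;>
    simp only [rp_JVal, e1, e2, e3, Sum.inr.injEq, Sum.inl.injEq, reduceCtorEq, zero_add,
      Units.mul_right_inj] at h1 h2
  · exact ⟨h1, rfl⟩
  · exact ⟨h1, rfl⟩
  · subst h2
    rw [(sh_JVal _).injective h1]
    exact ⟨rfl, rfl⟩
  · subst h2
    rw [(sh_JVal _).injective h1]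
    exact ⟨rfl, rfl⟩

theorem orb_ex_JVal (a b : (ZMod p)ˣ) (τ τ' : T_JVal p) (h : cl_JVal τ τ' ≠ []) :
    ∃ (g : ZMod p) (i : (Unit ⊕ Unit) ⊕ (T_JVal p ⊕ T_JVal p)),
      sh_JVal (a.1 * g) (rp_JVal i).1 = τ ∧ sh_JVal (b.1 * g) (rp_JVal i).2 = τ' := by
  rcases τ' with j | j | j
  · rcases τ with i | i | i
    · exact absurd rfl h
    · exact ⟨(a⁻¹).1 * i, .inl (.inl ()), by simp [sh_JVal, rp_JVal], rfl⟩
    · exact ⟨(a⁻¹).1 * i, .inl (.inr ()), by simp [sh_JVal, rp_JVal], rfl⟩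
  · exact ⟨(b⁻¹).1 * j, .inr (.inl ((sh_JVal _).symm τ)), Equiv.apply_symm_apply _ _,
      by simp [sh_JVal, rp_JVal]⟩
  · exact ⟨(b⁻¹).1 * j, .inr (.inr ((sh_JVal _).symm τ)), Equiv.apply_symm_apply _ _,
      by simp [sh_JVal, rp_JVal]⟩

/-- The frame of the join. -/
noncomputable def fr_JVal [NeZero p] (hp : 5 ≤ p) (a b : (ZMod p)ˣ) :
    Frame (JG p) Set.univ (Jα p a b) where
  I := (Unit ⊕ Unit) ⊕ (T_JVal p ⊕ T_JVal p)
  s i := cl_JVal (rp_JVal i).1 (rp_JVal i).2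
  nodup _ := nodup_JVal hp _ _
  ne := by
    rintro ((i | i) | (i | i)) <;> simp [cl_JVal, rp_JVal, ls_JVal]
  cl _ := isCl_JVal _ _
  rep σ h0 _ hc := by
    have hc' : ∀ x ∈ σ, ∀ y ∈ σ, Adq (JG p) x y := fun x hx y hy =>
      (eq_or_ne x y).imp id (hc hx hy)
    obtain ⟨τ, hτ⟩ := ls_ex_JVal hp (fun i => Sum.inl i ∈ σ)
      fun i j hi hj => adq_inl_JVal.1 (hc' _ hi _ hj)
    obtain ⟨τ', hτ'⟩ := ls_ex_JVal hp (fun i => Sum.inr i ∈ σ)
      fun i j hi hj => adq_inr_JVal.1 (hc' _ hi _ hj)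
    have hm : ∀ x, x ∈ cl_JVal τ τ' ↔ x ∈ σ := by
      rintro (i | i)
      · rw [mem_inl_JVal, hτ]
      · rw [mem_inr_JVal, hτ']
    obtain ⟨g, i, e1, e2⟩ := orb_ex_JVal a b τ τ' (by
      obtain ⟨x, hx⟩ := h0
      exact List.ne_nil_of_mem ((hm x).2 hx))
    refine ⟨(Multiplicative.ofAdd g, i), ?_, ?_⟩
    · simp only [← toFinset_map_FrA, cl_map_JVal, toAdd_ofAdd, e1, e2]
      ext x
      simp only [List.mem_toFinset, hm]
    · rintro ⟨g', i'⟩ e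
      simp only [← toFinset_map_FrA, cl_map_JVal] at e
      have hm' : ∀ x, x ∈ cl_JVal (sh_JVal (a.1 * g'.toAdd) (rp_JVal i').1)
          (sh_JVal (b.1 * g'.toAdd) (rp_JVal i').2) ↔ x ∈ cl_JVal τ τ' := fun x => by
        simp only [hm, e, List.mem_toFinset]
      have f1 := ls_inj_JVal hp fun j => mem_inl_JVal.symm.trans ((hm' _).trans mem_inl_JVal)
      have f2 := ls_inj_JVal hp fun j => mem_inr_JVal.symm.trans ((hm' _).trans mem_inr_JVal)
      obtain ⟨rfl, rfl⟩ := orb_inj_JVal a b (f1.trans e1.symm) (f2.trans e2.symm)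
      rfl

theorem act_ite_JVal {V C : Type} [CommGroup C] [Fintype C] {α : C →* Equiv.Perm V} (c : Prop)
    [Decidable c] (r : RC C) (z : EA V) :
    act α (if c then r else 0) z = if c then act α r z else 0 := by
  split_ifs
  · rfl
  · exact act_zero z

theorem act_sub_JVal {V C : Type} [CommGroup C] [Fintype C] {α : C →* Equiv.Perm V} (r s : RC C)
    (z : EA V) : act α (r - s) z = act α r z - act α s z := by
  rw [sub_eq_add_neg, act_add, act_neg, sub_eq_add_neg]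

theorem act_tp_JVal [NeZero p] (a b : (ZMod p)ˣ) (k : ZMod p) (τ τ' : T_JVal p) :
    act (Jα p a b) (tp p k) (wedge (cl_JVal τ τ')) =
      wedge (cl_JVal (sh_JVal (a.1 * k) τ) (sh_JVal (b.1 * k) τ')) := by
  rw [tp, act_single, one_smul, emap_wedge, cl_map_JVal, toAdd_ofAdd]

theorem sum_bd_JVal [NeZero p] (a b : (ZMod p)ˣ) (z : EA (ZMod p ⊕ ZMod p)) (τ : T_JVal p) :
    ∑ τ', act (Jα p a b) (bdT_JVal p _ τ' τ) (z * wedge (cl_JVal τ' (.inl ()))) =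
      z * bd (wedge (cl_JVal τ (.inl ()))) := by
  rcases τ with i | i | i <;>
    simp [bdT_JVal, bdP_JVal, Matrix.toBlocks₁₁, Fintype.sum_sum_type, act_zero, act_one, cl_JVal,
      ls_JVal, act_sub_JVal, act_ite_JVal, bd_vx_mul, mul_sub]

theorem sum_ph_JVal [NeZero p] (a b : (ZMod p)ˣ) (τ : T_JVal p) :
    ∑ τ', act (Jα p a b) (ph_JVal (sh_JVal (a.1 * (b⁻¹).1)) (tp p (b⁻¹).1) τ' τ)
      (wedge (cl_JVal τ' (.inr (.inl 0)))) =
      wedge (cl_JVal τ (.inr (.inl (0 + 1)))) - wedge (cl_JVal τ (.inr (.inl 0))) := by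
  obtain ⟨τ, rfl⟩ := (sh_JVal (a.1 * (b⁻¹).1)).surjective τ
  simp only [ph_JVal, Matrix.of_apply, act_sub_JVal, act_ite_JVal, Finset.sum_sub_distrib,
    EmbeddingLike.apply_eq_iff_eq, Finset.sum_ite_eq', Finset.mem_univ, if_true, act_one,
    act_tp_JVal, Units.mul_inv]
  rfl

/-- The boundary matrix of the join. -/
noncomputable def D_JVal [NeZero p] (a b : (ZMod p)ˣ) :
    Matrix ((Unit ⊕ Unit) ⊕ (T_JVal p ⊕ T_JVal p)) ((Unit ⊕ Unit) ⊕ (T_JVal p ⊕ T_JVal p))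
      (RC (Cp p)) :=
  Matrix.fromBlocks (two_JVal (tp p (a⁻¹).1 - 1))
    (Matrix.of fun x y => match x, y with
      | .inl _, .inl (.inr (.inl i)) => tp p ((a⁻¹).1 * i)
      | .inr _, .inl (.inr (.inr i)) => tp p ((a⁻¹).1 * i)
      | _, _ => 0) 0
    (Matrix.fromBlocks (-bdT_JVal p _) (ph_JVal (sh_JVal (a.1 * (b⁻¹).1)) (tp p (b⁻¹).1)) 0
      (bdT_JVal p _))

theorem deg_JVal [NeZero p] (hp : 5 ≤ p) (a b : (ZMod p)ˣ) : (fr_JVal hp a b).deg =
    Sum.elim (Sum.elim (fun _ => 0) fun _ => 1) (Sum.elim dT_JVal fun τ => dT_JVal τ + 1) := by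
  funext i
  rcases i with (i | i) | ((i | i | i) | (i | i | i)) <;> rfl

theorem isBd_JVal [NeZero p] (hp : 5 ≤ p) (a b : (ZMod p)ˣ) :
    (fr_JVal hp a b).IsBd (D_JVal a b) := by
  have w1 : ∀ (τ : T_JVal p) (j : ZMod p), wedge (cl_JVal τ (.inr (.inl j))) =
      vx (.inr j) * wedge (cl_JVal τ (.inl ())) := fun τ j => wedge_cons _ _
  have w2 : ∀ (τ : T_JVal p) (j : ZMod p), wedge (cl_JVal τ (.inr (.inr j))) =
      vx (.inr j) * vx (.inr (j + 1)) * wedge (cl_JVal τ (.inl ())) := fun τ j =>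
    (wedge_cons _ _).trans (by rw [mul_assoc]; exact congrArg _ (wedge_cons _ _))
  have ev : ∀ x : (Unit ⊕ Unit) ⊕ (T_JVal p ⊕ T_JVal p) → RC (Cp p), (fr_JVal hp a b).ev x =
      (act (Jα p a b) (x (.inl (.inl ()))) (wedge (cl_JVal (.inr (.inl 0)) (.inl ()))) +
        act (Jα p a b) (x (.inl (.inr ()))) (wedge (cl_JVal (.inr (.inr 0)) (.inl ())))) +
      (∑ τ, act (Jα p a b) (x (.inr (.inl τ))) (wedge (cl_JVal τ (.inr (.inl 0)))) +
        ∑ τ, act (Jα p a b) (x (.inr (.inr τ))) (wedge (cl_JVal τ (.inr (.inr 0))))) := by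
    intro x
    change ∑ i : (Unit ⊕ Unit) ⊕ (T_JVal p ⊕ T_JVal p), _ = _
    simp only [Fintype.sum_sum_type, Fintype.sum_unique]
    rfl
  have hs : ∀ i, (fr_JVal hp a b).s i = cl_JVal (rp_JVal i).1 (rp_JVal i).2 := fun _ => rfl
  rintro ((j | j) | (j | j)) <;> rw [ev, hs, deg_JVal] <;>
    simp only [D_JVal, Matrix.fromBlocks_apply₁₁, Matrix.fromBlocks_apply₁₂,
      Matrix.fromBlocks_apply₂₁, Matrix.fromBlocks_apply₂₂, two_JVal, Matrix.zero_apply, act_zero,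
      Finset.sum_const_zero, add_zero, zero_add, Matrix.of_apply, Sum.elim_inl, Sum.elim_inr,
      rp_JVal, Matrix.neg_apply, act_neg, Finset.sum_neg_distrib]
  · rfl
  · rw [act_sub_JVal, act_tp_JVal, act_one]
    simp [cl_JVal, ls_JVal, sh_JVal, bd_vx_mul]
  · simp only [w1, sum_bd_JVal, bd_vx_mul]
    rcases j with j | j | j <;> simp only [act_zero, act_tp_JVal] <;>
      simp [dT_JVal, cl_JVal, ls_JVal, sh_JVal, sub_eq_add_neg]
  · rw [sum_ph_JVal]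
    simp only [w1, w2, sum_bd_JVal]
    rw [if_neg (Nat.succ_ne_zero _), mul_assoc, mul_assoc, bd_vx_mul, bd_vx_mul, mul_sub]
    abel

end Pool.Agent.MP_6374aa_gt
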