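import Pool.Agent.MP_6374aa_gt.IfT
import Pool.Agent.MP_6374aa_gt.JValB

/-! The torsion of the join of two polygons. -/

namespace Pool.Agent.MP_6374aa_gt

theorem tor_JVal (hB : TorBlockStmt) (hS : TorSubStmt) (hM : TorMapStmt) (hR : TorReindexStmt)
    (hN : TorNegStmt) {p : ℕ} [NeZero p] (hp : 5 ≤ p) (a b : (ZMod p)ˣ)
    (hA : Act (JG p) Set.univ (Jα p a b)) :
    ∃ v, IsTor (fr_JVal hp a b).deg ((D_JVal a b).map (qq (Cp p))) v ∧
      (v = lens p a b ∨ v = -lens p a b) := by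
  have h0 : IsCx (Sum.elim (Sum.elim (fun _ => 0) fun _ => 1)
      (Sum.elim dT_JVal fun τ => dT_JVal τ + 1)) (D_JVal a b) := by
    have := (isBd_JVal hp a b).isCx hA
    rw [deg_JVal] at this
    exact this
  have h1 := (hM _ _ _ (qq (Cp p)) _ _ 0).1 h0
  obtain ⟨r', hr⟩ := unit_JVal a⁻¹
  obtain ⟨s', hs⟩ := unit_JVal b⁻¹
  obtain ⟨w, hw, h2⟩ := torM_JVal hp hB hS hR hN (a.1 * (b⁻¹).1) hs
  have e : (D_JVal a b).map (qq (Cp p)) =
      Matrix.fromBlocks (two_JVal (qq (Cp p) (tp p (a⁻¹).1) - 1))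
        ((D_JVal a b).map (qq (Cp p))).toBlocks₁₂ 0
        (Matrix.fromBlocks (-bdT_JVal p _)
          (ph_JVal (sh_JVal (a.1 * (b⁻¹).1)) (qq (Cp p) (tp p (b⁻¹).1))) 0 (bdT_JVal p _)) := by
    rw [D_JVal, Matrix.fromBlocks_map, Matrix.fromBlocks_map, two_map_JVal, ph_map_JVal,
      Matrix.map_neg _ (map_neg _), bdT_map_JVal, map_sub, map_one, Matrix.toBlocks_fromBlocks₁₂,
      Matrix.map_zero _ (map_zero _), Matrix.map_zero _ (map_zero _)]
  rw [e] at h1
  obtain ⟨v, hv, h3⟩ := hB _ _ _ _ _ _ _ _ _ w h1 (two_even_JVal hr) hw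
  rw [← e] at hv
  refine ⟨v, by rw [deg_JVal]; exact hv, ?_⟩
  rw [lens, map_mul, map_sub, map_sub, map_one]
  rcases h2 with rfl | rfl <;> rcases h3 with rfl | rfl
  · exact Or.inl rfl
  · exact Or.inr rfl
  · exact Or.inr (by ring)
  · exact Or.inl (by ring)

theorem jVal (hB : TorBlockStmt) (hS : TorSubStmt) (hC : TorChangeStmt) (hV : VposStmt)
    (hT : CctStmt) (hM : TorMapStmt) (hR : TorReindexStmt) (hN : TorNegStmt) (hN' : TorNegStmt')
    (hK : ConeStmt) (hI : InUStmt) (hP : JPackStmt) : JValStmt := by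
  have _ := hC
  have _ := hV
  have _ := hT
  have _ := hN'
  have _ := hK
  intro p _ hp a b
  obtain ⟨-, -, hZ, hF⟩ := hP p hp
  obtain ⟨v, hv, h⟩ := tor_JVal hB hS hM hR hN hp a b (hF a b).toAct
  refine ⟨fr_JVal hp a b, D_JVal a b, Empty, inferInstance, inferInstance, Empty.elim, Empty.elim,
    0, isBd_JVal hp a b, ⟨fun j => j.elim, fun j => j.elim, fun _ _ _ _ j => j.elim,
      fun n hn w hw => ⟨0, fun j => j.elim, ?_⟩⟩, fun j => j.elim, ?_⟩
  · rw [Finset.univ_eq_empty, Finset.sum_empty, sub_zero]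
    exact hZ n hn hw
  · have h1 := (hR _ _ _ (Equiv.sumEmpty (fr_JVal hp a b).I Empty) _ _ v).2 hv
    have e1 : (fr_JVal hp a b).deg ∘ Equiv.sumEmpty (fr_JVal hp a b).I Empty =
        Sum.elim (fr_JVal hp a b).deg Empty.elim := by
      funext x
      rcases x with x | x
      · rfl
      · exact x.elim
    have e2 : Matrix.submatrix (m := (fr_JVal hp a b).I) (n := (fr_JVal hp a b).I)
        ((D_JVal a b).map (qq (Cp p))) (Equiv.sumEmpty (fr_JVal hp a b).I Empty)
        (Equiv.sumEmpty (fr_JVal hp a b).I Empty) =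
        (Matrix.fromBlocks (D_JVal a b) 0 0 (0 : Matrix Empty Empty (RC (Cp p)))).map
          (qq (Cp p)) := by
      ext (i | i) (j | j)
      · rfl
      · exact j.elim
      · exact i.elim
      · exact i.elim
    rw [e1, e2] at h1
    obtain ⟨i1, -, i2, -⟩ := hI (Cp p)
    rcases h with rfl | rfl
    · have e3 : qq (Cp p) 1 * lens p a b = lens p a b := by rw [map_one, one_mul]
      exact ⟨1, i1, e3.symm ▸ h1⟩
    · have e3 : qq (Cp p) (-1) * lens p a b = -lens p a b := by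
        rw [map_neg, map_one]
        ring
      exact ⟨-1, i2 1 i1, e3.symm ▸ h1⟩

end Pool.Agent.MP_6374aa_gt
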