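import Pool.Agent.MP_6374aa_gt.IfT

/-! Local injectivity modulo the located cycles. -/

namespace Pool.Agent.MP_6374aa_gt

open Classical

theorem dec_La2 {U M : Type} [AddCommGroup M] [Module ℚ M] (N : U → Submodule ℚ M) {S : Set U}
    (s : Finset U) (hS : S ⊆ s) {x : M} (hx : x ∈ ⨆ u ∈ S, N u) :
    ∃ f : U → M, (∀ u, f u ∈ N u) ∧ (∀ u, u ∉ S → f u = 0) ∧ ∑ u ∈ s, f u = x := by
  have e : ⨆ u ∈ S, N u ≤ ⨆ u ∈ s.filter (· ∈ S), N u :=
    biSup_mono fun u hu => Finset.mem_filter.2 ⟨hS hu, hu⟩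
  obtain ⟨f, hf⟩ := (Submodule.mem_iSup_finset_iff_exists_sum _ _).1 (e hx)
  refine ⟨fun u => if u ∈ S then f u else 0, fun u => ?_, fun u hu => if_neg hu, ?_⟩
  · beta_reduce
    split_ifs
    · exact (f u).2
    · exact zero_mem _
  · rw [← hf, Finset.sum_filter]

theorem move_La2 {C : Type} [CommGroup C] {V' U : Type} {G' : SimpleGraph V'} {A' : Set V'}
    {α' : C →* Equiv.Perm V'} {γ : C →* Equiv.Perm U} {c : V' → U} (h : Act G' A' α')
    (he : Eqv A' α' γ c) (g : C) {u : U} {n : ℕ} {z : EA V'}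
    (hz : z ∈ Zy G' (A' ∩ c ⁻¹' {u}) n) : emap (α' g) z ∈ Zy G' (A' ∩ c ⁻¹' {γ g u}) n := by
  refine emap_mem_Zy ?_ hz
  refine ⟨fun a ha => ⟨h.mem g a ha.1, ?_⟩,
    fun a ha b hb hab => Or.inr (h.adj g a ha.1 b hb.1 hab)⟩
  have : c a = u := ha.2
  rw [Set.mem_preimage, he g a ha.1, this]
  rfl

theorem la2 : La2Stmt := by
  intro C _ _ V' U J _ G' A' α' H B γ c z dz loc hα hγ he hL hF' hF hc hz hind n S hS a ha hb hμ
  have ha' : a ∈ Zy G' A' n := Zy_mono Set.inter_subset_left n ha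
  by_cases hn : ¬ (n = 2 ∨ n = 3)
  · refine ⟨0, fun _ _ => rfl, fun j g hg => absurd rfl hg, ?_⟩
    simp only [Pi.zero_apply, act_zero, Finset.sum_const_zero, sub_zero]
    refine hL.s1 n S hS a ha hb ?_
    obtain rfl | rfl | rfl | h5 : n = 0 ∨ n = 1 ∨ n = 4 ∨ 5 ≤ n := by omega
    · exact PConn.Zy_zero_le hc.1 ha'
    · exact hc.Zy_one_le ha'
    · rw [hF.Bd_eq_bot hS le_rfl, Submodule.mem_bot] at hb
      rw [hL.top a ha' hb]
      exact zero_mem _
    · have h1 := (mem_Zy.1 ha').1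
      rw [hF'.Ch_eq_bot subset_rfl h5, Submodule.mem_bot] at h1
      rw [h1]
      exact zero_mem _
  rw [not_not] at hn
  obtain ⟨μ, hμ0, hμ1⟩ := hμ hn
  obtain ⟨b0, hb0, x, hx, e⟩ := Submodule.mem_sup.1 (hL.ls n hn S hS a ha hb)
  obtain ⟨f, hf1, hf2, hf3⟩ := dec_La2 _ hF.1.toFinset (by simpa using hS) hx
  have hterm : ∀ j g, (μ j).coeff g • emap (α' g) (z j) ∈
      Zy G' (A' ∩ c ⁻¹' {γ g (loc j)}) n := by
    intro j g
    by_cases hj : dz j = n
    · exact Submodule.smul_mem _ _ (move_La2 hα he g (hj ▸ (hz j).2))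
    · rw [hμ0 j hj]
      simp
  let ν : U → J → RC C := fun u j =>
    ∑ g, if γ g (loc j) = u then MonoidAlgebra.single g ((μ j).coeff g) else 0
  have hν : ∀ u j, act α' (ν u j) (z j) =
      ∑ g, if γ g (loc j) = u then (μ j).coeff g • emap (α' g) (z j) else 0 := by
    intro u j
    rw [act_sum]
    refine Finset.sum_congr rfl fun g _ => ?_
    split_ifs
    · exact act_single _ _ _
    · exact act_zero _
  have hm : ∀ u, ∑ j, act α' (ν u j) (z j) ∈ Zy G' (A' ∩ c ⁻¹' {u}) n := by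
    intro u
    refine Submodule.sum_mem _ fun j _ => ?_
    rw [hν]
    refine Submodule.sum_mem _ fun g _ => ?_
    split_ifs with h
    · exact h ▸ hterm j g
    · exact zero_mem _
  have hsum : ∑ u ∈ hF.1.toFinset, ∑ j, act α' (ν u j) (z j) = ∑ j, act α' (μ j) (z j) := by
    rw [Finset.sum_comm]
    refine Finset.sum_congr rfl fun j _ => ?_
    simp only [hν]
    rw [Finset.sum_comm]
    refine Finset.sum_congr rfl fun g _ => ?_
    rw [Finset.sum_ite_eq, if_pos (hF.1.mem_toFinset.2 (hγ.mem g _ (hz j).1))]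
  have hI := hL.ind n hn hF.1.toFinset (fun u => f u - ∑ j, act α' (ν u j) (z j)) (by simp)
    (fun u _ => sub_mem (hf1 u) (hm u)) (by
      rw [Finset.sum_sub_distrib, hf3, hsum]
      have h2 := sub_mem hμ1 (Bd_mono Set.inter_subset_left n hb0)
      rw [← e] at h2
      convert h2 using 1
      abel)
  have hloc : ∀ j g, (μ j).coeff g ≠ 0 → γ g (loc j) ∈ S := by
    intro j g hg
    by_contra hu
    have h1 := hI _ (hF.1.mem_toFinset.2 (hγ.mem g _ (hz j).1))
    simp only [hf2 _ hu, zero_sub, neg_mem_iff] at h1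
    have h2 := hind n _ (fun j hj => by simp [ν, hμ0 j hj]) h1 j
    have h3 := congrArg (fun r : RC C => r.coeff g) h2
    apply hg
    simp only [ν, MonoidAlgebra.coeff_sum, Finsupp.finsetSum_apply] at h3
    rw [Finset.sum_eq_single g (fun k _ hk => by
      split_ifs
      · simp [hk]
      · rfl) (by simp)] at h3
    simpa using h3
  refine ⟨μ, hμ0, hloc, hL.s1 n S hS _ (sub_mem ha ?_) ?_ hμ1⟩
  · refine Submodule.sum_mem _ fun j _ => Submodule.sum_mem _ fun g _ => ?_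
    by_cases hg : (μ j).coeff g = 0
    · rw [hg, zero_smul]
      exact zero_mem _
    · refine Zy_mono (Set.inter_subset_inter_right _ (Set.preimage_mono ?_)) n (hterm j g)
      simpa using hloc j g hg
  · have h0 : emap c (∑ j, act α' (μ j) (z j)) = 0 := by
      rw [map_sum]
      refine Finset.sum_eq_zero fun j _ => ?_
      rw [act, map_sum]
      exact Finset.sum_eq_zero fun g _ => emap_eq_zero_of_const (u := γ g (loc j))
        (fun v hv => hv.2) (by omega) (mem_Zy.1 (hterm j g)).1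
    rwa [map_sub, h0, sub_zero]

end Pool.Agent.MP_6374aa_gt
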