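import Pool.Agent.MP_6374aa_gt.IfA

/-! Controlled vanishing from circle valued coordinates. -/

namespace Pool.Agent.MP_6374aa_gt

open MonoidAlgebra

noncomputable section

section Md

variable {C A A' : Type}

theorem md_eq_Lift (E : C → A) (x : MonoidAlgebra ℚ C) :
    mapDomain E x = x.coeff.sum fun g r => single (E g) r := by
  conv_lhs => rw [← sum_coeff_single x]
  rw [mapDomain_sum]
  simp only [mapDomain_single]

theorem md_congr_Lift {E E' : C → A} {x : MonoidAlgebra ℚ C}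
    (h : ∀ g, x.coeff g ≠ 0 → E g = E' g) : mapDomain E x = mapDomain E' x := by
  rw [md_eq_Lift, md_eq_Lift]
  exact Finsupp.sum_congr fun g hg => by rw [h g (Finsupp.mem_support_iff.1 hg)]

theorem md_comp_Lift (φ : A → A') (E : C → A) (x : MonoidAlgebra ℚ C) :
    mapDomain φ (mapDomain E x) = mapDomain (fun g => φ (E g)) x := by
  ext1
  exact (Finsupp.mapDomain_comp (f := E) (g := φ)).symm

theorem md_id_Lift (x : MonoidAlgebra ℚ C) : mapDomain (fun g => g) x = x := by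
  rw [md_eq_Lift]
  exact sum_coeff_single x

theorem md_sum_Lift {I : Type} (s : Finset I) (E : C → A) (x : I → MonoidAlgebra ℚ C) :
    mapDomain E (∑ i ∈ s, x i) = ∑ i ∈ s, mapDomain E (x i) :=
  map_sum (AddMonoidHom.mk' (mapDomain E) (mapDomain_add E)) x s

theorem md_mul_Lift [Mul C] [Mul A] {E1 E2 E3 : C → A} {x y : MonoidAlgebra ℚ C}
    (h : ∀ g k, x.coeff g ≠ 0 → y.coeff k ≠ 0 → E1 g * E2 k = E3 (g * k)) :
    mapDomain E1 x * mapDomain E2 y = mapDomain E3 (x * y) := by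
  rw [mul_def x y, mapDomain_sum, md_eq_Lift E1, md_eq_Lift E2, Finsupp.sum_mul]
  refine Finsupp.sum_congr fun g hg => ?_
  rw [mapDomain_sum, Finsupp.mul_sum]
  refine Finsupp.sum_congr fun k hk => ?_
  rw [single_mul_single, mapDomain_single,
    h g k (Finsupp.mem_support_iff.1 hg) (Finsupp.mem_support_iff.1 hk)]

end Md

section Lf

variable {C : Type} [CommGroup C] {B : Type} {β : C →* Equiv.Perm B} {B0 : Set B}
  {ρ : B → B → Prop} {u : B → ℤ} {A A' I J : Type} [CommGroup A] [CommGroup A']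

/-- The lift of a matrix along an exponent function. -/
def lf_Lift (E : C → B → B → A) (pI : I → B) (pJ : J → B) (M : Matrix J I (RC C)) :
    Matrix J I (MonoidAlgebra ℚ A) :=
  Matrix.of fun j i => mapDomain (fun g => E g (pJ j) (pI i)) (M j i)

/-- Additive exponent functions on a region. -/
def Add_Lift (β : C →* Equiv.Perm B) (B0 : Set B) (ρ : B → B → Prop) (u : B → ℤ)
    (r : ℤ → Prop) (E : C → B → B → A) : Prop :=
  (∀ g k, ∀ a ∈ B0, ∀ b ∈ B0, ∀ c ∈ B0, r (u a) → r (u b) → r (u c) → ρ (β g a) b →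
    ρ (β k b) c → E g a b * E k b c = E (g * k) a c) ∧ ∀ a ∈ B0, r (u a) → E 1 a a = 1

theorem lf_id_Lift (pI : I → B) (pJ : J → B) (M : Matrix J I (RC C)) :
    lf_Lift (fun g _ _ => g) pI pJ M = M := by
  ext1 j i
  exact md_id_Lift _

theorem band0_Lift (hu : ∀ g, ∀ a ∈ B0, ∀ b ∈ B0, ρ (β g a) b → |u a - u b| ≤ 1)
    {pI : I → B} {pJ : J → B} (hI : ∀ i, pI i ∈ B0) (hJ : ∀ j, pJ j ∈ B0)
    {M : Matrix J I (RC C)} (hM : Ctl β ρ pI pJ M) :
    Band (fun i => u (pI i)) (fun j => u (pJ j)) M := by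
  intro j i h
  by_contra h1
  refine h ?_
  ext g
  by_contra h2
  exact h1 (hu g _ (hJ j) _ (hI i) (hM j i g (by simpa using h2)))

theorem band_Lift (hu : ∀ g, ∀ a ∈ B0, ∀ b ∈ B0, ρ (β g a) b → |u a - u b| ≤ 1)
    {pI : I → B} {pJ : J → B} (hI : ∀ i, pI i ∈ B0) (hJ : ∀ j, pJ j ∈ B0)
    {M : Matrix J I (RC C)} (hM : Ctl β ρ pI pJ M) (E : C → B → B → A) :
    Band (fun i => u (pI i)) (fun j => u (pJ j)) (lf_Lift E pI pJ M) := by
  intro j i h
  refine band0_Lift hu hI hJ hM j i fun h1 => h ?_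
  simp only [lf_Lift, Matrix.of_apply, h1, mapDomain_zero]

theorem mul_Lift [Fintype I] [DecidableEq J]
    (hu : ∀ g, ∀ a ∈ B0, ∀ b ∈ B0, ρ (β g a) b → |u a - u b| ≤ 1)
    {pI : I → B} {pJ : J → B} (hI : ∀ i, pI i ∈ B0) (hJ : ∀ j, pJ j ∈ B0)
    {M : Matrix J I (RC C)} {N : Matrix I J (RC C)} (hM : Ctl β ρ pI pJ M)
    (hN : Ctl β ρ pJ pI N) (hMN : M * N = 1) {r r' : ℤ → Prop}
    (hr : ∀ x y, r x → |x - y| ≤ 1 → r' y) {E : C → B → B → A}
    (hE : Add_Lift β B0 ρ u r' E) (j j' : J) (hj : r (u (pJ j))) (hj' : r (u (pJ j'))) :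
    (lf_Lift E pI pJ M * lf_Lift E pJ pI N) j j' = (1 : Matrix J J _) j j' := by
  have h0 : ∀ x, r x → r' x := fun x hx => hr x x hx (by simp)
  have h1 : (lf_Lift E pI pJ M * lf_Lift E pJ pI N) j j' =
      mapDomain (fun g => E g (pJ j) (pJ j')) ((M * N) j j') := by
    rw [Matrix.mul_apply, Matrix.mul_apply, md_sum_Lift]
    refine Finset.sum_congr rfl fun i _ => md_mul_Lift fun g k hg hk => ?_
    exact hE.1 g k _ (hJ j) _ (hI i) _ (hJ j') (h0 _ hj)
      (hr _ _ hj (hu g _ (hJ j) _ (hI i) (hM j i g hg))) (h0 _ hj') (hM j i g hg) (hN i j' k hk)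
  rw [h1, hMN]
  by_cases h : j = j'
  · subst h
    rw [Matrix.one_apply_eq, Matrix.one_apply_eq, one_def, mapDomain_single,
      hE.2 _ (hJ j) (h0 _ hj), one_def]
  · rw [Matrix.one_apply_ne h, Matrix.one_apply_ne h, mapDomain_zero]

theorem map_Lift {pI : I → B} {pJ : J → B} (hI : ∀ i, pI i ∈ B0) (hJ : ∀ j, pJ j ∈ B0)
    {M : Matrix J I (RC C)} (hM : Ctl β ρ pI pJ M) {r : ℤ → Prop} (φ : A →* A')
    {E : C → B → B → A} {E' : C → B → B → A'}
    (hφ : ∀ g, ∀ a ∈ B0, ∀ b ∈ B0, r (u a) → r (u b) → ρ (β g a) b → φ (E g a b) = E' g a b)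
    (j : J) (i : I) (hj : r (u (pJ j))) (hi : r (u (pI i))) :
    mapDomainRingHom ℚ φ (lf_Lift E pI pJ M j i) = lf_Lift E' pI pJ M j i :=
  (md_comp_Lift φ _ _).trans
    (md_congr_Lift fun g hg => hφ g _ (hJ j) _ (hI i) hj hi (hM j i g hg))

theorem liftOn_Lift [Fintype I] [DecidableEq I] [Fintype J] [DecidableEq J]
    (hu : ∀ g, ∀ a ∈ B0, ∀ b ∈ B0, ρ (β g a) b → |u a - u b| ≤ 1)
    {pI : I → B} {pJ : J → B} (hI : ∀ i, pI i ∈ B0) (hJ : ∀ j, pJ j ∈ B0)
    {M : Matrix J I (RC C)} {N : Matrix I J (RC C)} (hM : Ctl β ρ pI pJ M)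
    (hN : Ctl β ρ pJ pI N) (hMN : M * N = 1) (hNM : N * M = 1) {r r' : ℤ → Prop}
    (hr : ∀ x y, r x → |x - y| ≤ 1 → r' y) (φ : A →* A') {E : C → B → B → A}
    {E' : C → B → B → A'} (hE : Add_Lift β B0 ρ u r' E)
    (hφ : ∀ g, ∀ a ∈ B0, ∀ b ∈ B0, r (u a) → r (u b) → ρ (β g a) b → φ (E g a b) = E' g a b) :
    LiftOn (mapDomainRingHom ℚ φ) r (fun i => u (pI i)) (fun j => u (pJ j))
      (lf_Lift E pI pJ M) (lf_Lift E pJ pI N) (lf_Lift E' pI pJ M) (lf_Lift E' pJ pI N) where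
  bM := band_Lift hu hI hJ hM E
  bN := band_Lift hu hJ hI hN E
  lM := map_Lift hI hJ hM φ hφ
  lN := map_Lift hJ hI hN φ hφ
  MN j j' hj hj' := by
    rw [mul_Lift hu hI hJ hM hN hMN hr hE j j' hj hj', Matrix.one_apply]
    congr
  NM j j' hj hj' := by
    rw [mul_Lift hu hJ hI hN hM hNM hr hE j j' hj hj', Matrix.one_apply]
    congr

end Lf

theorem liftV (hS : SplitStmt) (hK : StdIdemStmt) (hF : StabFreeStmt) (hU : UnitStmt)
    (hI : InUStmt) : LiftStmt := by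
  intro C _ _ B β B0 ρ t u lam l ht hB hρ hc I J _ _ _ _ pI pJ hpI hpJ M N hMN hNM hM hN e
  choose s hs using fun g => Subgroup.mem_zpowers_iff.1 (ht g)
  have hu : ∀ g, ∀ a ∈ B0, ∀ b ∈ B0, ρ (β g a) b → |u a - u b| ≤ 1 := fun g a ha b hb h => by
    rw [← hc.uinv g a ha]
    exact hc.ulip _ (hB g a ha) b hb h
  set ex : Bool → C → B → B → ℤ :=
    fun σ g a b => l σ (β g a) b + s (lam σ b) - s (lam σ a) with hex
  have h1 : ∀ σ g, ∀ a ∈ B0, ∀ b ∈ B0, Reg σ (u a) → Reg σ (u b) → ρ (β g a) b →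
      t ^ ex σ g a b = g := by
    intro σ g a ha b hb ra rb h
    have h2 := hc.laml σ _ (hB g a ha) b hb (by rwa [hc.uinv g a ha]) rb h
    rw [hc.leqv σ g a ha ra] at h2
    simp only [hex]
    rw [zpow_sub, zpow_add, hs, hs, mul_comm (t ^ _), ← h2, mul_inv_cancel_right]
  have h2 : ∀ σ g k, ∀ a ∈ B0, ∀ b ∈ B0, ∀ c ∈ B0, Reg σ (u a) → Reg σ (u b) → Reg σ (u c) →
      ρ (β g a) b → ρ (β k b) c → ex σ g a b + ex σ k b c = ex σ (g * k) a c := by
    intro σ g k a ha b hb c hc' ra rb rc hab hbc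
    have e1 : β (g * k) a = β k (β g a) := by rw [mul_comm, map_mul]; rfl
    have ha' := hB g a ha
    have ra' : Reg σ (u (β g a)) := by rwa [hc.uinv g a ha]
    have e2 := hc.linv σ k _ ha' b hb ra' rb hab
    have e3 := hc.coc σ _ (hB k _ ha') _ (hB k b hb) c hc' (by rwa [hc.uinv k _ ha'])
      (by rwa [hc.uinv k b hb]) rc (hρ k _ ha' b hb hab) hbc
    simp only [hex]
    rw [e1, e3, e2]
    ring
  have h3 : ∀ σ, ∀ a ∈ B0, Reg σ (u a) → ex σ 1 a a = 0 := by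
    intro σ a ha ra
    simp only [hex]
    rw [map_one, Equiv.Perm.one_apply, hc.self σ a ha ra]
    ring
  have hA : ∀ σ, Add_Lift β B0 ρ u (Reg σ) fun g a b => Multiplicative.ofAdd (ex σ g a b) :=
    fun σ => ⟨fun g k a ha b hb c hc' ra rb rc hab hbc => by
      rw [← ofAdd_add, h2 σ g k a ha b hb c hc' ra rb rc hab hbc], fun a ha ra => by
      beta_reduce
      rw [h3 σ a ha ra, ofAdd_zero]⟩
  have hT : ∀ x : ℤ, |x| ≤ 12 → Reg true x := fun x hx => (abs_le.1 hx).1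
  have hT' : ∀ x : ℤ, |x| ≤ 12 → Reg false x := fun x hx => (abs_le.1 hx).2
  have hd : ∀ g, ∀ a ∈ B0, ∀ b ∈ B0, |u a| ≤ 12 → |u b| ≤ 12 → ρ (β g a) b →
      (orderOf t : ℤ) ∣ ex false g a b - ex true g a b := by
    intro g a ha b hb ra rb h
    rw [orderOf_dvd_iff_zpow_eq_one, zpow_sub, h1 false g a ha b hb (hT' _ ra) (hT' _ rb) h,
      h1 true g a ha b hb (hT _ ra) (hT _ rb) h, mul_inv_cancel]
  have hA0 : Add_Lift β B0 ρ u (fun x => |x| ≤ 12) fun g a b => Multiplicative.ofAdd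
      (ex true g a b, (ex false g a b - ex true g a b) / (orderOf t : ℤ)) :=
    ⟨fun g k a ha b hb c hc' ra rb rc hab hbc => by
      beta_reduce
      rw [← ofAdd_add, Prod.mk_add_mk, ← Int.add_ediv_of_dvd_left (hd g a ha b hb ra rb hab),
        ← h2 true g k a ha b hb c hc' (hT _ ra) (hT _ rb) (hT _ rc) hab hbc,
        ← h2 false g k a ha b hb c hc' (hT' _ ra) (hT' _ rb) (hT' _ rc) hab hbc]
      congr 3
      ring, fun a ha ra => by
      beta_reduce
      rw [h3 true a ha (hT _ ra), h3 false a ha (hT' _ ra)]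
      simp⟩
  set φp : Multiplicative (ℤ × ℤ) →* Multiplicative ℤ :=
    AddMonoidHom.toMultiplicative (AddMonoidHom.fst ℤ ℤ) with hφp
  set φm : Multiplicative (ℤ × ℤ) →* Multiplicative ℤ :=
    AddMonoidHom.toMultiplicative
      (AddMonoidHom.fst ℤ ℤ + (orderOf t : ℤ) • AddMonoidHom.snd ℤ ℤ) with hφm
  have ep : ∀ x z : ℤ, φp (Multiplicative.ofAdd (x, z)) = Multiplicative.ofAdd x :=
    fun x z => rfl
  have em : ∀ x z : ℤ, φm (Multiplicative.ofAdd (x, z)) =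
      Multiplicative.ofAdd (x + orderOf t * z) := fun x z => rfl
  have et : ∀ x : ℤ, zpowersHom C t (Multiplicative.ofAdd x) = t ^ x := fun x => rfl
  have hcomm : (zpowersHom C t).comp φp = (zpowersHom C t).comp φm := by
    refine MonoidHom.ext fun x => ?_
    obtain ⟨⟨x, z⟩, rfl⟩ := Multiplicative.ofAdd.surjective x
    rw [MonoidHom.comp_apply, MonoidHom.comp_apply, ep, em, et, et, zpow_add, zpow_mul,
      zpow_natCast, pow_orderOf_eq_one, one_zpow, mul_one]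
  have Lp := liftOn_Lift hu hpI hpJ hM hN hMN hNM (r := fun x => -10 ≤ x) (r' := Reg true)
    (fun x y hx h => by
      have := abs_le.1 h
      show -12 ≤ y
      omega) (zpowersHom C t) (E' := fun g _ _ => g) (hA true)
    (fun g a ha b hb ra rb h => h1 true g a ha b hb (by show -12 ≤ _; omega)
      (by show -12 ≤ _; omega) h)
  have Lm := liftOn_Lift hu hpI hpJ hM hN hMN hNM (r := fun x => x ≤ 10) (r' := Reg false)
    (fun x y hx h => by
      have := abs_le.1 h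
      show y ≤ 12
      omega) (zpowersHom C t) (E' := fun g _ _ => g) (hA false)
    (fun g a ha b hb ra rb h => h1 false g a ha b hb (by show _ ≤ 12; omega)
      (by show _ ≤ 12; omega) h)
  rw [lf_id_Lift, lf_id_Lift] at Lp Lm
  have hr : ∀ x y : ℤ, |x| ≤ 10 → |x - y| ≤ 1 → |y| ≤ 12 := fun x y hx h => by
    rw [abs_le] at *
    omega
  have L1 := liftOn_Lift hu hpI hpJ hM hN hMN hNM hr φp
    (E' := fun g a b => Multiplicative.ofAdd (ex true g a b)) hA0
    (fun g a _ b _ _ _ _ => ep _ _)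
  have L2 := liftOn_Lift hu hpI hpJ hM hN hMN hNM hr φm
    (E' := fun g a b => Multiplicative.ofAdd (ex false g a b)) hA0
    (fun g a ha b hb ra rb h => by
      rw [em, Int.mul_ediv_cancel' (hd g a ha b hb (by omega) (by omega) h)]
      congr 1
      ring)
  obtain ⟨up, um, h⟩ := hS _ _ _ _ I J _ _ _ _ _ _ M N _ _ _ _ _ _
    (fun x => by
      rw [← RingHom.comp_apply, ← mapDomainRingHom_comp, hcomm, mapDomainRingHom_comp,
        RingHom.comp_apply])
    (hK _ hF) hMN hNM (band0_Lift hu hpI hpJ hM) (band0_Lift hu hpJ hpI hN) Lp Lm L1 L2 e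
  have hin : ∀ v : (MonoidAlgebra ℚ (Multiplicative ℤ))ˣ,
      InU (mapDomainRingHom ℚ (zpowersHom C t) v) := fun v => by
    obtain ⟨r, n, hr, hv⟩ := hU v v.isUnit
    exact ⟨r, zpowersHom C t n, hr, by rw [hv]; exact mapDomain_single⟩
  rw [h]
  exact (hI C).2.1 _ _ (hin up) (hin um)

end

end Pool.Agent.MP_6374aa_gt
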