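import Pool.Agent.MP_6374aa_gt.IfD

namespace Pool.Agent.MP_6374aa_gt

open Classical Topology

theorem ne_LiftMap {V : Type} [Fintype V] {G : SimpleGraph V} {A : Set V} (x : Rl G A) :
    ∃ v, x.1 v ≠ 0 :=
  let ⟨v, _, h⟩ := Finset.exists_ne_zero_of_sum_ne_zero (ne_of_eq_of_ne x.2.2.1 one_ne_zero)
  ⟨v, h⟩

theorem ext_LiftMap {V E Λ : Type} [Fintype V] {G : SimpleGraph V} {A : Set V}
    [TopologicalSpace E] [Group Λ] [MulAction Λ E] {p : E → Rl G A} {lab : V → V → Λ}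
    {sh : E → V → Λ} (hS : Sheets G A p lab sh) {e e' : E} {v : V} (h1 : p e = p e')
    (hv : (p e').1 v ≠ 0) (h2 : sh e v = sh e' v) : e = e' := by
  obtain ⟨g, rfl⟩ := (hS.orbit _ _).1 h1
  rw [hS.smul g e' v hv, mul_eq_left, inv_eq_one] at h2
  rw [h2, one_smul]

theorem pi_LiftMap {V U : Type} [Fintype V] [Fintype U] {G : SimpleGraph V} {A : Set V}
    {H : SimpleGraph U} {B : Set U} {j : U → V} (hj : IsHom H B G A j) :
    ∃ π : Rl H B → Rl G A, Continuous π ∧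
      (∀ y v, (π y).1 v = ∑ w, if j w = v then y.1 w else 0) ∧
      ∀ y w, y.1 w ≠ 0 → (π y).1 (j w) ≠ 0 := by
  have h0 : ∀ (y : Rl H B) v w, 0 ≤ if j w = v then y.1 w else 0 := fun y v w => by
    split_ifs
    exacts [y.2.1 w, le_rfl]
  have h1 : ∀ (y : Rl H B) v, (∑ w, if j w = v then y.1 w else 0) ≠ 0 →
      ∃ w, j w = v ∧ y.1 w ≠ 0 := fun y v h => by
    obtain ⟨w, -, h2⟩ := Finset.exists_ne_zero_of_sum_ne_zero h
    exact ⟨w, ite_ne_right_iff.1 h2⟩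
  refine ⟨fun y => ⟨fun v => ∑ w, if j w = v then y.1 w else 0,
    fun v => Finset.sum_nonneg fun w _ => h0 y v w, ?_, fun v hv => ?_, fun u v hu hv => ?_⟩,
    Continuous.subtype_mk (continuous_pi fun v => continuous_finsetSum _ fun w _ => ?_) _,
    fun _ _ => rfl, fun y w hw h => hw ?_⟩
  · rw [Finset.sum_comm, ← y.2.2.1]
    exact Finset.sum_congr rfl fun w _ => by simp
  · obtain ⟨w, rfl, hw⟩ := h1 y v hv
    exact hj.1 w (y.2.2.2.1 w hw)
  · obtain ⟨w, rfl, hw⟩ := h1 y u hu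
    obtain ⟨w', rfl, hw'⟩ := h1 y v hv
    exact hj.adq (y.2.2.2.1 w hw) (y.2.2.2.1 w' hw') (y.2.2.2.2 w w' hw hw')
  · split_ifs
    exacts [(continuous_apply w).comp continuous_subtype_val, continuous_const]
  · have := (Finset.sum_eq_zero_iff_of_nonneg fun w' _ => h0 y (j w) w').1 h w (Finset.mem_univ w)
    rwa [if_pos rfl] at this

theorem liftMap : LiftMapStmt := by
  intro V E Λ U _ _ G A _ _ _ p lab sh H B i hS hi
  obtain ⟨π, p1, p2, p3⟩ := pi_LiftMap ((cov_fst_hom lab fun _ h => h).comp hi)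
  have key : ∀ w ∈ B, ∃ f : {y : Rl H B // y.1 w ≠ 0} → E, Continuous f ∧ ∀ y, p (f y) = π y.1 ∧
      ∀ w', y.1.1 w' ≠ 0 → sh (f y) (i w').1 = (i w').2 := fun w hw => by
    obtain ⟨s, s1, s2⟩ := hS.sec (i w).1 (hi.1 w hw)
    refine ⟨fun y => (i w).2⁻¹ • s ⟨π y.1, p3 y.1 w y.2⟩, (hS.csmul _).comp
      (s1.comp ((p1.comp continuous_subtype_val).subtype_mk _)), fun y => ?_⟩
    obtain ⟨a1, a2⟩ := s2 ⟨π y.1, p3 y.1 w y.2⟩
    have a3 : p ((i w).2⁻¹ • s ⟨π y.1, p3 y.1 w y.2⟩) = π y.1 :=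
      ((hS.orbit _ _).2 ⟨_, rfl⟩).trans a1
    refine ⟨a3, fun w' hw' => ?_⟩
    have a4 := y.1.2.2.2.1 w' hw'
    rw [hS.rel _ _ (i w).1 (a3 ▸ p3 y.1 w' hw') (a3 ▸ p3 y.1 w y.2),
      hS.smul _ _ _ (a1 ▸ p3 y.1 w y.2), a2, inv_inv, one_mul]
    exact ((cov_adq hS.flat (hi.1 w' a4) (hi.1 w hw)).1
      (hi.adq a4 hw (y.1.2.2.2.2 w' w hw' y.2))).2.symm
  have ex : ∀ y : Rl H B, ∃ e, p e = π y ∧ ∀ w, y.1 w ≠ 0 → sh e (i w).1 = (i w).2 := fun y => by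
    obtain ⟨w, hw⟩ := ne_LiftMap y
    obtain ⟨f, -, hf⟩ := key w (y.2.2.2.1 w hw)
    exact ⟨_, hf ⟨y, hw⟩⟩
  choose b b1 b2 using ex
  refine ⟨b, continuous_iff_continuousAt.2 fun y => ?_, fun y => ⟨fun v => ?_, b2 y⟩⟩
  · obtain ⟨w, hw⟩ := ne_LiftMap y
    obtain ⟨f, f1, f2⟩ := key w (y.2.2.2.1 w hw)
    have h1 : IsOpen {y : Rl H B | y.1 w ≠ 0} :=
      isOpen_ne_fun ((continuous_apply w).comp continuous_subtype_val) continuous_const
    refine ContinuousOn.continuousAt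
      (continuousOn_iff_continuous_domRestrict.2 (f1.congr fun z => ?_))
      (h1.mem_nhds hw)
    exact ext_LiftMap hS ((f2 z).1.trans (b1 z.1).symm) (b1 z.1 ▸ p3 z.1 w z.2)
      (((f2 z).2 w z.2).trans (b2 z.1 w z.2).symm)
  · rw [b1, p2]
    rfl

theorem covHomeo (hL : LiftMapStmt) (hB : RlBasicStmt) : CovHomeoStmt := by
  intro V E Λ _ G A _ _ _ _ _ p lab sh hS
  obtain ⟨b, b1, b2⟩ := hL V E Λ (V × Λ) G A p lab sh _ _ id hS (IsHom.id _ subset_rfl)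
  have h1 : ∀ y v l, y.1 (v, l) = if l = sh (b y) v then (p (b y)).1 v else 0 := fun y v l => by
    have h2 : ∀ l, l ≠ sh (b y) v → y.1 (v, l) = 0 := fun l hl => by
      by_contra h
      exact hl ((b2 y).2 (v, l) h).symm
    split_ifs with h
    · rw [(b2 y).1, Finset.sum_eq_single (v, l), if_pos (show (id (v, l)).1 = v from rfl)]
      · rintro ⟨u, m⟩ - h3
        refine ite_eq_right_iff.2 fun (h4 : u = v) => ?_
        subst h4
        exact h2 m fun h5 => h3 (by rw [h5, h])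
      · exact fun h3 => absurd (Finset.mem_univ _) h3
    · exact h2 l h
  have h2 : ∀ y e, (∀ v l, y.1 (v, l) = if l = sh e v then (p e).1 v else 0) → b y = e :=
    fun y e h => by
      obtain ⟨v, hv⟩ := ne_LiftMap (p e)
      refine ext_LiftMap hS (Subtype.ext (funext fun u => ?_)) hv
        ((b2 y).2 (v, sh e v) (by rwa [h, if_pos rfl]))
      rw [(b2 y).1, Fintype.sum_prod_type]
      simp [h]
  have h3 : Function.Bijective b := by
    refine ⟨fun y y' e => Subtype.ext (funext fun ⟨v, l⟩ => by rw [h1, h1, e]), fun e => ?_⟩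
    refine ⟨⟨fun w => if w.2 = sh e w.1 then (p e).1 w.1 else 0, fun w => ?_, ?_, fun w hw => ?_,
      fun ⟨u, m⟩ ⟨v, l⟩ hu hv => ?_⟩, h2 _ e fun _ _ => rfl⟩
    · dsimp only
      split_ifs
      exacts [(p e).2.1 _, le_rfl]
    · rw [Fintype.sum_prod_type, ← (p e).2.2.1]
      simp
    · exact (p e).2.2.2.1 _ (ite_ne_right_iff.1 hw).2
    · obtain ⟨rfl, a1⟩ : m = sh e u ∧ (p e).1 u ≠ 0 := ite_ne_right_iff.1 hu
      obtain ⟨rfl, a2⟩ : l = sh e v ∧ (p e).1 v ≠ 0 := ite_ne_right_iff.1 hv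
      exact (cov_adq hS.flat ((p e).2.2.2.1 u a1) ((p e).2.2.2.1 v a2)).2
        ⟨(p e).2.2.2.2 u v a1 a2, hS.rel e u v a1 a2⟩
  have := (hB _ (cov G lab Λ) (up A Λ)).1
  refine ⟨Continuous.homeoOfEquivCompactToT2 (f := Equiv.ofBijective b h3) b1,
    fun g y y' h => h2 y' (g • b y) fun v l => ?_⟩
  rw [← mul_inv_cancel_right l g, h, h1, (hS.orbit _ (b y)).2 ⟨g, rfl⟩]
  by_cases hv : (p (b y)).1 v = 0
  · rw [hv, ite_self, ite_self]
  · rw [hS.smul g _ v hv]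
    exact if_congr (mul_left_inj _).symm rfl rfl

end Pool.Agent.MP_6374aa_gt
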