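import Pool.Agent.MP_6374aa_gt.RA6
import Pool.Agent.MP_6374aa_gt.GrB4

/-! The doubling tower of the boundary. -/

namespace Pool.Agent.MP_6374aa_gt

open Classical

variable {V : Type} {Γ : SimpleGraph V}

attribute [local instance] rayTop bdryTop

theorem refl_RA7 {D : Set (W Γ)} {t : W Γ} (ht : t ∈ bw D) : IsRefl t := by
  obtain ⟨d, -, v, -, e⟩ := ht
  exact ⟨d, v, e⟩

theorem fin_RA7 [Finite V] {D : Set (W Γ)} (hD : D.Finite) : (bw D).Finite := by
  refine ((hD.prod (Set.finite_univ (α := V))).image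
    fun p => p.1 * sg Γ p.2 * p.1⁻¹).subset ?_
  rintro t ⟨d, hd, v, -, e⟩
  exact ⟨(d, v), ⟨hd, trivial⟩, e.symm⟩

theorem racg_tower [Finite V] (h : ∃ a b, ¬ Adq Γ a b) (hn : NoSquare Γ) :
    ∃ (L : ℕ → Lev C1) (c : ∀ n, (L (n + 1)).V → (L n).V)
      (K D O : ∀ n, (L n).V → Set (Bdry Γ)) (f : V → (L 0).V),
      IsTower (1 : C1 →* Equiv.Perm (Bdry Γ)) L c K D O ∧
      IsIso Γ Set.univ (L 0).G (L 0).A f ∧ ∀ n, IsDouble (L (n + 1)) (L n) (c n) := by
  obtain ⟨D, H, hD⟩ := exists_dseq h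
  have := t2Space_bdry h hn
  choose O hO1 hO2 using fun n => exists_swelling (fin_RA7 (hD.good n).1) shadow
    fun t ht => isCompact_shadow h (refl_RA7 ht)
  have hg : ∀ n, Graft (cross Γ) (bw (D n)) (mir (H n) (bw (D n))) (bw (D (n + 1))) (H n) :=
    fun n => hD.succ n ▸ (hD.good n).graft (hD.mem n)
  have hm : Monotone D := monotone_nat_of_le_succ fun n => hD.succ n ▸ Set.subset_union_left
  refine ⟨fun n => ⟨W Γ, cross Γ, bw (D n), 1⟩, fun n => col (bw (D n)) (H n), fun _ => shadow,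
    fun _ => shadow, O, sg Γ, ⟨fun n => freeAct_one _ _, fun n => (hg n).col_hom,
      fun n g a _ => rfl, fun n v hv => (hO1 n v hv).1, fun n x => shadow_cover (hD.good n) x,
      fun n v _ => subset_rfl, fun n v hv => (hO1 n v hv).2, ?_,
      fun n v hv w hw hvw => adq_of_shadow h hn (hD.good n) hv hw (hO2 n v hv w hw hvw),
      fun n v hv w hw hvw => shadow_meet h (refl_RA7 hv) (refl_RA7 hw) hvw, ?_,
      fun n g v _ => (Set.image_id _).symm, fun n g v _ => (Set.image_id _).symm⟩, ?_,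
    fun n => IsDouble.mk _ _ _ _ _ _ (hg n) ((hD.good n).iso_mir (hD.mem n))⟩
  · rintro n w hw x ⟨r, ⟨k, hk⟩, rfl⟩
    have hw' : w ∈ bw (dbl (D n) (H n)) := hD.succ n ▸ hw
    exact ⟨r, ⟨k, (hD.good n).plus_col (hD.mem n) hw' hk⟩, rfl⟩
  · intro U hU hc
    obtain ⟨R, hR⟩ := shadow_mesh h U hU hc
    obtain ⟨N, hN⟩ := hD.exh R
    exact ⟨N, fun n hn v hv => hR v (refl_RA7 hv) fun w hw =>
      (hD.good n).2.2 v hv w (hm hn (hN w hw))⟩
  · change IsIso Γ Set.univ (cross Γ) (bw (D 0)) (sg Γ)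
    rw [hD.zero]
    exact iso_bw_one

end Pool.Agent.MP_6374aa_gt
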