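import Pool.Agent.MP_6374aa_gt.IfD
import Pool.Agent.MP_6374aa_gt.RA7

/-! The assembly of the final statement. -/

namespace Pool.Agent.MP_6374aa_gt

open Classical

attribute [local instance] rayTop bdryTop

theorem sideS (hP : PieceStmt) (hS : SumStmt) (hT : TypStmt) (hM : ClosedMfStmt)
    (hB : MfBasicStmt) : SideStmt := by
  intro N
  choose χ Q h1 h2 h3 using fun i => hP N.U N.K (N.P i)
  obtain ⟨-, R, hR1, hR2⟩ := hS N.U N.ι N.K (fun i => (N.P i).A) (fun i => (N.P i).Λ) χ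
    (fun i => (h1 i).1) (fun i => ⟨(hM _ _ _ (N.P i).closed).1, Q i, h2 i, h3 i⟩) N.A Set.univ
    N.sum
  obtain ⟨hm, a, -, b, -, hab⟩ := hM _ _ _ N.closed
  obtain ⟨P0, e, he⟩ := hT N.V N.U N.Γ Set.univ N.K N.A N.homeo R (hB _ _ _ hm).1
  refine ⟨χ, P0, h1, hm, ⟨a, b, hab⟩, fun x => ?_, fun i hi => ?_⟩
  · obtain ⟨i, hi⟩ := hR1 (e x)
    exact ⟨i, he x _ _ (h1 i).1 hi⟩
  · obtain ⟨x, hx⟩ := hR2 i (Set.mem_univ i) hi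
    obtain ⟨x, rfl⟩ := e.surjective x
    exact ⟨x, he x _ _ (h1 i).1 hx⟩

theorem iso_MainS (hK : QCompStmt) (hQ : ClQ1Stmt) (hE : SiteExtStmt) (hM : MfIsoStmt)
    (hB : MfBasicStmt) {V U : Type} {Γ : SimpleGraph V} {A : Set V} {G : SimpleGraph U}
    {B : Set U} {f : V → U} (hf : IsIso Γ A G B f) (hm : Mf Γ A) (Q : Pack Γ A) :
    Mf G B ∧ ∃ (P : Pack G B) (j : Q.X → P.X), Function.Surjective j ∧
      ∀ x (Λ : Type) [Group Λ] (χ : Λ → ℝ), ClassFn χ → SiteOf Q x Λ χ → SiteOf P (j x) Λ χ := by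
  have hm' : Mf G B := (hM _ _ _ _ _ _ f hf).2 hm
  obtain ⟨a, -⟩ := Q.conn.1
  have : Nonempty V := ⟨a⟩
  obtain ⟨g, hg, -, -⟩ := hf.exists_inv
  have h1 := hQ _ _ _ _ _ _ g hg.cl (hB _ _ _ hm').1
  obtain ⟨P, j, hj, hs⟩ := h1.1.2 Q
  exact ⟨hm', P, j, hs, fun x Λ _ χ hχ hx => hE _ _ _ _ _ _ g Q P j x Λ χ hj
    ((hK _ _ _ _ _ _ _ G B g id).2.2.2.2 h1) hχ hx⟩

theorem step_MainS (hD : DoubleStmt) {ι ι' : Type} {Λ : ι → Type} [∀ i, Group (Λ i)]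
    {χ : ∀ i, Λ i → ℝ} {Λ' : ι' → Type} [∀ i, Group (Λ' i)] {χ' : ∀ i, Λ' i → ℝ}
    (h : ∀ i, ClassFn (χ i)) (h' : ∀ i, ClassFn (χ' i)) {L : ℕ → Lev C1}
    {c : ∀ n, (L (n + 1)).V → (L n).V} (hc : ∀ n, IsDouble (L (n + 1)) (L n) (c n))
    (hm : Mf (L 0).G (L 0).A) (P : Pack (L 0).G (L 0).A) (n : ℕ) :
    QD Λ χ Λ' χ' (L (n + 1)) (L n) (c n) := by
  have key : ∀ n, Mf (L n).G (L n).A ∧ Nonempty (Pack (L n).G (L n).A) := by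
    intro n
    induction n with
    | zero => exact ⟨hm, ⟨P⟩⟩
    | succ n ih =>
      obtain ⟨h1, h2, -⟩ := hD ι Λ χ _ _ _ h (hc n) ih.1 ih.2
      obtain ⟨R⟩ := ih.2
      obtain ⟨R', -⟩ := h2 R
      exact ⟨h1, ⟨R'⟩⟩
  obtain ⟨-, h2, h3, h4⟩ := hD ι Λ χ _ _ _ h (hc n) (key n).1 (key n).2
  exact ⟨h2, h3, h4, (hD ι' Λ' χ' _ _ _ h' (hc n) (key n).1 (key n).2).2.2.2⟩

theorem mainS (hS : SideStmt) (hI : InterStmt) (hD : DoubleStmt) (hC : CompareStmt)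
    (hH : SphHomeoStmt) (hK : QCompStmt) (hQ : ClQ1Stmt) (hE : SiteExtStmt) (hM : MfIsoStmt)
    (hB : MfBasicStmt) : MainStmt := by
  rintro N N' ⟨h⟩ j hj
  obtain ⟨χ, Q, a1, a2, a3, a4, -⟩ := hS N
  obtain ⟨χ', Q', b1, b2, b3, -, b5⟩ := hS N'
  obtain ⟨x, hx⟩ := b5 j hj
  obtain ⟨L2, c2, K2, D2, O2, f2, t2, i2, d2⟩ := racg_tower a3 N.nosq
  obtain ⟨L1, c1, K1, D1, O1, f1, t1, i1, d1⟩ := racg_tower b3 N'.nosq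
  obtain ⟨m2, P2, j2, s2, e2⟩ := iso_MainS hK hQ hE hM hB i2 a2 Q
  obtain ⟨m1, P0, j1, -, e1⟩ := iso_MainS hK hQ hE hM hB i1 b2 Q'
  have := compactSpace_bdry (Γ := N'.Γ)
  have := t2Space_bdry b3 N'.nosq
  have : Nonempty (Bdry N'.Γ) := ⟨bmk (exists_ray_through b3 1).choose⟩
  obtain ⟨L, φ, c, e, hsys, he, -, hc⟩ := hI C1 _ _ 1 1 L1 c1 K1 D1 O1 L2 c2 K2 D2 O2 h.symm
    (QD (fun i => (N.P i).Λ) χ (fun i => (N'.P i).Λ) χ') T0 t1 t2 (fun _ _ => rfl)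
    (fun L'' L' L f g hf hg => ⟨(hK _ _ _ _ _ _ _ _ _ f g).1 hf.1 hg.1,
      (hK _ _ _ _ _ _ _ _ _ f g).2.1 hf.2.1 hg.2.1, fun q => hg.2.2.1 (hf.2.2.1 q),
      fun q => hg.2.2.2 (hf.2.2.2 q)⟩)
    (step_MainS hD (fun i => (a1 i).1) (fun i => (b1 i).1) d1 m1 P0)
    (step_MainS hD (fun i => (a1 i).1) (fun i => (b1 i).1) d2 m2 P2)
  obtain ⟨P1, hP1⟩ := he.2.2.1 ⟨P2, fun y => by
    obtain ⟨y, rfl⟩ := s2 y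
    obtain ⟨i, hi⟩ := a4 y
    exact ⟨i, e2 y _ _ (a1 i).1 hi⟩⟩
  obtain ⟨x1, hx1⟩ := hC (Lev.cons (L1 0) L) φ c P0 P1 hsys (fun i => (hc i).1)
    (fun i => (hc i).2.1) (j1 x)
  obtain ⟨i, hi⟩ := hP1 x1
  obtain ⟨ω, hω⟩ := hx1 _ _ _ _ (e1 x _ _ (b1 j).1 hx) hi
  exact ⟨i, ⟨ω⟩, fun hf => hH _ _ _ _ _ _ _ _ ω (a1 i) (b1 j) hf
    (hω (Finite.of_equiv _ ω.toEquiv))⟩

end Pool.Agent.MP_6374aa_gt
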