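import Pool.Agent.MP_6374aa_gt.IfD

namespace Pool.Agent.MP_6374aa_gt

open Matrix

lemma reim_Nf {m n : Type} [Fintype n] (A : Matrix m n ℝ) (z : n → ℂ) (i : m) :
    ((A.map Complex.ofRealHom *ᵥ z) i).re = (A *ᵥ fun j => (z j).re) i ∧
      ((A.map Complex.ofRealHom *ᵥ z) i).im = (A *ᵥ fun j => (z j).im) i := by
  simp [mulVec, dotProduct]

lemma eig_Nf {A : Matrix (Fin 4) (Fin 4) ℝ} {z : Fin 4 → ℂ} {μ : ℂ}
    (h : A.map Complex.ofRealHom *ᵥ z = μ • z) :
    (A *ᵥ fun j => (z j).re) = (-μ.im • fun j => (z j).im) + μ.re • (fun j => (z j).re) ∧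
      (A *ᵥ fun j => (z j).im) = (μ.re • fun j => (z j).im) + μ.im • fun j => (z j).re := by
  constructor <;> funext i
  · rw [← (reim_Nf A z i).1, h]
    simp
    ring
  · rw [← (reim_Nf A z i).2, h]
    simp

lemma pair_Nf {p : ℕ} [NeZero p] (hp : 3 ≤ p) {M : Matrix (Fin 4) (Fin 4) ℝ} (h1 : Mᵀ * M = 1)
    (h2 : M ^ p = 1) (h3 : ∀ k : ℕ, ¬ p ∣ k → ∀ x, (M ^ k).mulVec x = x → x = 0)
    (U : Matrix (Fin 2) (Fin 4) ℝ) (R : Matrix (Fin 2) (Fin 2) ℝ) (hU : U * M = R * U) :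
    ∃ (a : (ZMod p)ˣ) (x y : Fin 4 → ℝ), x ⬝ᵥ x = 1 ∧ y ⬝ᵥ y = 1 ∧ x ⬝ᵥ y = 0 ∧ U *ᵥ x = 0 ∧
      U *ᵥ y = 0 ∧ M *ᵥ x = Real.cos (ang p a) • x + Real.sin (ang p a) • y ∧
      M *ᵥ y = -Real.sin (ang p a) • x + Real.cos (ang p a) • y := by
  have e1 : LinearMap.ker (U.map Complex.ofRealHom).mulVecLin ≠ ⊥ :=
    LinearMap.ker_ne_bot_of_finrank_lt (by simp)
  have := Submodule.nontrivial_iff_ne_bot.2 e1
  obtain ⟨μ, hμ⟩ := Module.End.exists_eigenvalue ((M.map Complex.ofRealHom).mulVecLin.restrict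
    (p := LinearMap.ker (U.map Complex.ofRealHom).mulVecLin) fun z hz => by
      rw [LinearMap.mem_ker, mulVecLin_apply] at hz ⊢
      rw [mulVecLin_apply, mulVec_mulVec, ← Matrix.map_mul, hU, Matrix.map_mul, ← mulVec_mulVec, hz,
        mulVec_zero])
  obtain ⟨⟨z, hz⟩, hz'⟩ := hμ.exists_hasEigenvector
  have e2 : M.map Complex.ofRealHom *ᵥ z = μ • z := congrArg Subtype.val hz'.apply_eq_smul
  have e3 : z ≠ 0 := fun h => hz'.2 (Subtype.ext h)
  have e4 : ∀ k : ℕ, (M ^ k).map Complex.ofRealHom *ᵥ z = μ ^ k • z := fun k => by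
    induction k with
    | zero => simp
    | succ k ih => rw [pow_succ, Matrix.map_mul, ← mulVec_mulVec, e2, mulVec_smul, ih, smul_smul,
        pow_succ']
  have e5 : IsPrimitiveRoot μ p := by
    refine ⟨?_, fun k hk => ?_⟩
    · have := e4 p
      rw [h2, Matrix.map_one _ (map_zero _) (map_one _), one_mulVec] at this
      exact smul_left_injective ℂ e3 (this.symm.trans (one_smul _ _).symm)
    · by_contra h
      obtain ⟨f1, f2⟩ := eig_Nf (e4 k)
      simp only [hk, Complex.one_im, Complex.one_re, neg_zero, zero_smul, one_smul, zero_add,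
        add_zero] at f1 f2
      exact e3 (funext fun i =>
        Complex.ext (congrFun (h3 k h _ f1) i) (congrFun (h3 k h _ f2) i))
  obtain ⟨i, hi, hc, e6⟩ := (Complex.isPrimitiveRoot_iff μ p (NeZero.ne p)).1 e5
  have e7 : μ = Complex.exp ((ang p (ZMod.unitOfCoprime i hc) : ℝ) * Complex.I) := by
    rw [← e6, ang, ZMod.coe_unitOfCoprime, ZMod.val_cast_of_lt hi]
    congr 1
    push_cast
    ring
  obtain ⟨f1, f2⟩ := eig_Nf e2
  have e8 : μ.im ≠ 0 := fun h => by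
    have g1 := Complex.sq_norm_sub_sq_re μ
    rw [e5.norm'_eq_one (NeZero.ne p), h] at g1
    have g2 : μ ^ 2 = 1 := by
      rw [← Complex.re_add_im μ, h, Complex.ofReal_zero, zero_mul, add_zero]
      exact_mod_cast (by linarith : μ.re ^ 2 = 1)
    have := Nat.le_of_dvd two_pos (e5.dvd_of_pow_eq_one 2 g2)
    omega
  have e9 := fun i => reim_Nf U z i
  rw [show U.map Complex.ofRealHom *ᵥ z = 0 from hz] at e9
  have g1 : U *ᵥ (fun j => (z j).re) = 0 := funext fun i => (e9 i).1.symm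
  have g2 : U *ᵥ (fun j => (z j).im) = 0 := funext fun i => (e9 i).2.symm
  have g3 : (fun j => (z j).im) = 0 → (fun j => (z j).re) ≠ 0 := fun h h' =>
    e3 (funext fun i => Complex.ext (congrFun h' i) (congrFun h i))
  rw [e7, Complex.exp_ofReal_mul_I_im] at e8
  rw [e7, Complex.exp_ofReal_mul_I_im, Complex.exp_ofReal_mul_I_re] at f1 f2
  refine ⟨ZMod.unitOfCoprime i hc, ?_⟩
  generalize (fun j => (z j).re) = y at *
  generalize (fun j => (z j).im) = x at *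
  have g4 := Real.cos_sq_add_sin_sq (ang p (ZMod.unitOfCoprime i hc))
  generalize Real.cos _ = c at *
  generalize Real.sin _ = s at *
  have g5 : ∀ u v, (M *ᵥ u) ⬝ᵥ (M *ᵥ v) = u ⬝ᵥ v := fun u v => by
    rw [dotProduct_mulVec, ← mulVec_transpose, mulVec_mulVec, h1, one_mulVec]
  have g6 := g5 x x
  have g7 := g5 x y
  simp only [f1, f2, add_dotProduct, dotProduct_add, smul_dotProduct, dotProduct_smul,
    smul_eq_mul, dotProduct_comm y x] at g6 g7
  have g8 : y ⬝ᵥ y = x ⬝ᵥ x := mul_left_cancel₀ e8 (by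
    linear_combination s * g6 + c * g7 - (s * (x ⬝ᵥ x) + c * (x ⬝ᵥ y) + s * (y ⬝ᵥ y - x ⬝ᵥ x)) * g4)
  have g9 : x ⬝ᵥ y = 0 := mul_left_cancel₀ (pow_ne_zero 2 e8) (by
    rw [g8] at g7
    linear_combination (-1 / 2) * g7 + (1 / 2 * (x ⬝ᵥ y)) * g4)
  have g10 : 0 < x ⬝ᵥ x := lt_of_le_of_ne (Finset.sum_nonneg fun i _ => mul_self_nonneg _) fun h =>
    g3 (dotProduct_self_eq_zero.1 h.symm) (dotProduct_self_eq_zero.1 (g8.trans h.symm))
  have g11 : (√(x ⬝ᵥ x))⁻¹ * ((√(x ⬝ᵥ x))⁻¹ * (x ⬝ᵥ x)) = 1 := by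
    rw [← mul_assoc, ← mul_inv, Real.mul_self_sqrt g10.le, inv_mul_cancel₀ g10.ne']
  refine ⟨(√(x ⬝ᵥ x))⁻¹ • x, (√(x ⬝ᵥ x))⁻¹ • y, ?_⟩
  simp only [smul_dotProduct, dotProduct_smul, smul_eq_mul, mulVec_smul, g1, g2, g8, g9, g11, f1,
    f2, mul_zero, smul_zero, smul_add, smul_comm (√(x ⬝ᵥ x))⁻¹, and_self]

theorem nf : NfStmt := by
  intro p _ hp M h1 h2 h3
  have key : ∀ (a b : (ZMod p)ˣ) (T : Matrix (Fin 4) (Fin 4) ℝ), Tᵀ * T = 1 →
      M * T = T * rot (ang p a) (ang p b) → M.trace = cosum p a b := fun a b T e1 e2 => by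
    rw [← mul_one M, ← mul_eq_one_comm.1 e1, ← mul_assoc, e2, trace_mul_comm, ← mul_assoc, e1,
      one_mul]
    simp [rot, cosum, ang, trace, Fin.sum_univ_four]
    ring
  rcases hp.eq_or_lt with rfl | hp
  · have e : M * 1 = 1 * rot (ang 2 1) (ang 2 1) := by
      have e1 : ang 2 1 = Real.pi := by
        rw [ang, Units.val_one, ZMod.val_one]
        push_cast
        ring
      have e2 : M = -1 := by
        refine toLin'.injective (LinearMap.ext fun x => ?_)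
        have := h3 1 (by decide) (M *ᵥ x + x) (by
          rw [pow_one, mulVec_add, mulVec_mulVec, ← pow_two, h2, one_mulVec, add_comm])
        simpa [neg_mulVec] using eq_neg_of_add_eq_zero_left this
      rw [e1, e2, mul_one, one_mul]
      ext i j
      fin_cases i <;> fin_cases j <;> simp [rot]
    exact ⟨1, 1, 1, by simp, e, key 1 1 1 (by simp) e⟩
  obtain ⟨a, x, y, a1, a2, a3, -, -, a4, a5⟩ := pair_Nf hp h1 h2 h3 0 0 (by simp)
  have e1 : Mᵀ * (of ![x, y])ᵀ = (!![Real.cos (ang p a), -Real.sin (ang p a);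
      Real.sin (ang p a), Real.cos (ang p a)] * of ![x, y])ᵀ := by
    have g4 := Real.cos_sq_add_sin_sq (ang p a)
    have g : ∀ u, Mᵀ *ᵥ (M *ᵥ u) = u := fun u => by rw [mulVec_mulVec, h1, one_mulVec]
    have g1 := g x
    have g2 := g y
    rw [a4, mulVec_add, mulVec_smul, mulVec_smul] at g1
    rw [a5, mulVec_add, mulVec_smul, mulVec_smul] at g2
    ext i j
    have g5 := congrFun g1 i
    have g6 := congrFun g2 i
    simp only [Pi.add_apply, Pi.smul_apply, smul_eq_mul] at g5 g6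
    fin_cases j
    · change (Mᵀ *ᵥ x) i = _
      simp
      linear_combination Real.cos (ang p a) * g5 - Real.sin (ang p a) * g6 - (Mᵀ *ᵥ x) i * g4
    · change (Mᵀ *ᵥ y) i = _
      simp
      linear_combination Real.sin (ang p a) * g5 + Real.cos (ang p a) * g6 - (Mᵀ *ᵥ y) i * g4
  obtain ⟨b, u, v, b1, b2, b3, b6, b7, b4, b5⟩ := pair_Nf hp h1 h2 h3 (of ![x, y]) _
    (transpose_injective ((transpose_mul _ _).trans e1))
  have c1 : x ⬝ᵥ u = 0 := congrFun b6 0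
  have c2 : y ⬝ᵥ u = 0 := congrFun b6 1
  have c3 : x ⬝ᵥ v = 0 := congrFun b7 0
  have c4 : y ⬝ᵥ v = 0 := congrFun b7 1
  have e2 : (of ![x, y, u, v])ᵀᵀ * (of ![x, y, u, v])ᵀ = 1 := by
    ext i j
    change ![x, y, u, v] i ⬝ᵥ ![x, y, u, v] j = _
    fin_cases i <;> fin_cases j <;>
      simp [a1, a2, a3, b1, b2, b3, c1, c2, c3, c4, dotProduct_comm y x, dotProduct_comm v u,
        dotProduct_comm u x, dotProduct_comm u y, dotProduct_comm v x, dotProduct_comm v y]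
  have e3 : M * (of ![x, y, u, v])ᵀ = (of ![x, y, u, v])ᵀ * rot (ang p a) (ang p b) := by
    ext i j
    change (M *ᵥ ![x, y, u, v] j) i = _
    fin_cases j <;> simp [a4, a5, b4, b5, rot, mul_apply, Fin.sum_univ_four, mul_comm]
  exact ⟨a, b, _, e2, e3, key a b _ e2 e3⟩

end Pool.Agent.MP_6374aa_gt
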