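import Pool.Agent.MP_6374aa_gt.IfB

/-! Infinite covers with vanishing second homology are one ended. -/

namespace Pool.Agent.MP_6374aa_gt

open Classical

theorem emap_iv_Oe {V V' : Type} {G' : SimpleGraph V'} {S : Set V'} {f : V' → V}
    (hf : Set.InjOn f S) {q : V'} (hq : q ∈ S) {n : ℕ} {x : EA V'} (hx : x ∈ Ch G' S n) :
    emap f (iv q x) = iv (f q) (emap f x) := by
  have key : ∀ l : List V', (∀ a ∈ l, a ∈ S) →
      emap f (iv q (wedge l)) = iv (f q) (emap f (wedge l)) := by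
    intro l
    induction l with
    | nil => simp
    | cons a l ih =>
      intro h
      have h1 := ih fun b hb => h b (List.mem_cons_of_mem _ hb)
      rw [wedge_cons, emap_mul, emap_vx]
      by_cases ha : a = q
      · rw [ha, iv_vx_mul_self, iv_vx_mul_self, map_sub, emap_mul, emap_vx, h1]
      · rw [iv_vx_mul_ne ha, iv_vx_mul_ne fun h2 => ha (hf (h a List.mem_cons_self) hq h2),
          map_neg, emap_mul, emap_vx, h1]
  refine Ch_induction (p := fun x => emap f (iv q x) = iv (f q) (emap f x)) (by simp)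
    (fun x y _ _ h1 h2 => by simp only [map_add, h1, h2])
    (fun r x _ h1 => by simp only [map_smul, h1]) (fun l _ _ hl => key l hl.1) hx

theorem oeS (hA : OeAbsStmt) (hB : MfBasicStmt) : OeStmt := by
  intro V G A L _ _ lab hM hF hc hZ
  refine ⟨inferInstance, fun S hS => ?_⟩
  obtain ⟨-, -, hL⟩ := hB V G A hM
  obtain ⟨hfin, hconn, -, ζ, hζ, hζ0⟩ := hM
  have iso : ∀ p ∈ up A L, IsIso (cov G lab L) (Lk (cov G lab L) (up A L) {p}) G (Lk G A {p.1})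
      Prod.fst := fun p hp => cov_link_iso hF (fun _ h => h) hp fun _ hw _ => hw
  have h1 : ∀ p ∈ up A L, ∃ z ∈ Zy (cov G lab L) (Lk (cov G lab L) (up A L) {p}) 3,
      emap Prod.fst z = iv p.1 ζ := fun p hp => (iso p hp).exists_Zy (iv_mem_Zy p.1 hζ)
  choose! η hη hη' using h1
  have h2 : ∀ p ∈ up A L, ∀ q ∈ Lk (cov G lab L) (up A L) {p},
      emap Prod.fst (iv q (η p)) = iv q.1 (iv p.1 ζ) := fun p hp q hq => by
    rw [emap_iv_Oe (iso p hp).1.injOn hq (mem_Zy.1 (hη p hp)).1, hη' p hp]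
  have h3 := hA _ (cov G lab L) (up A L) η hc
    (fun p hp => Set.Finite.of_injOn (iso p hp).1.mapsTo (iso p hp).1.injOn
      (hfin.subset fun _ h => h.1)) hη
    (fun p hp h => hζ0 p.1 hp (by rw [← hη' p hp, h, map_zero])) ?_ ?_ hZ
    {p | p ∈ up A L ∧ p.2 ∈ S} (fun _ h => h.1) ?_
  · obtain ⟨a, ha⟩ := hconn.1
    rcases h3 with h3 | h3
    · exact Or.inl ((h3.image Prod.snd).subset fun s hs => ⟨(a, s), ⟨ha, hs⟩, rfl⟩)
    · exact Or.inr ((h3.image Prod.snd).subset fun s hs =>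
        ⟨(a, s), ⟨ha, fun h => hs h.2⟩, rfl⟩)
  · intro p hp z hz
    obtain ⟨-, ξ, -, -, hξ, -⟩ := (hL p.1 hp).1
    obtain ⟨r, hr⟩ := hξ _ (emap_mem_Zy (iso p hp).isHom hz)
    obtain ⟨s, hs⟩ := hξ _ (iv_mem_Zy p.1 hζ)
    have hs0 : s ≠ 0 := fun h => hζ0 p.1 hp (by rw [hs, h, zero_smul])
    refine ⟨r / s, sub_eq_zero.1 (emap_eq_zero_of_injOn (iso p hp).1.injOn
      (sub_mem (mem_Zy.1 hz).1 (Submodule.smul_mem _ _ (mem_Zy.1 (hη p hp)).1)) ?_)⟩
    rw [map_sub, map_smul, hη' p hp, hr, hs, smul_smul, div_mul_cancel₀ _ hs0, sub_self]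
  · intro p hp q hq
    have hp' : p ∈ Lk (cov G lab L) (up A L) {q} :=
      ⟨hp, fun u hu => hu ▸ (hq.2 p rfl).symm⟩
    refine ⟨fun h => ?_, eq_neg_of_add_eq_zero_left
      (emap_eq_zero_of_injOn (G' := cov G lab L) (n := 2) (iso p hp).1.injOn (add_mem ?_ ?_) ?_)⟩
    · obtain ⟨-, ξ, -, -, hξ, hξ0⟩ := (hL p.1 hp).1
      obtain ⟨s, hs⟩ := hξ _ (iv_mem_Zy p.1 hζ)
      have hs0 : s ≠ 0 := fun h => hζ0 p.1 hp (by rw [hs, h, zero_smul])
      have h4 := h2 p hp q hq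
      rw [h, map_zero, hs, map_smul] at h4
      exact hξ0 q.1 ((iso p hp).1.mapsTo hq) ((smul_eq_zero.1 h4.symm).resolve_left hs0)
    · exact Ch_mono (fun _ h => h.1) 2 (iv_mem_Ch q (mem_Zy.1 (hη p hp)).1)
    · refine Ch_mono (fun w h => ?_) 2 (iv_mem_Ch p (mem_Zy.1 (hη q hq.1)).1)
      exact ⟨h.1.1, h.2⟩
    · rw [map_add, h2 p hp q hq, h2 q hq.1 p hp', iv_iv_comm, neg_add_cancel]
  · refine (hfin.prod (hfin.biUnion fun u _ => hfin.biUnion fun w _ => hS (lab u w))).subset ?_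
    rintro q ⟨hq, p, hp, h⟩
    refine ⟨hq, Set.mem_biUnion (show p.1 ∈ A from hp.1) (Set.mem_biUnion (show q.1 ∈ A from hq)
      fun h4 => h ?_)⟩
    have h5 : p.2 = lab p.1 q.1 * q.2 := (hp.2 q rfl).2.2
    exact ⟨fun h6 => ⟨hq, h4.2 (h5 ▸ h6.2)⟩, fun h6 => ⟨hp.1, h5 ▸ h4.1 h6.2⟩⟩

end Pool.Agent.MP_6374aa_gt
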