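import Pool.Agent.MP_6374aa_gt.IfB

/-! The abstract one-endedness criterion. -/

namespace Pool.Agent.MP_6374aa_gt

open Classical

variable {V : Type} {G : SimpleGraph V}

theorem iv_vx_OeAbs (p a : V) (w : EA V) :
    iv p (vx a * w) = (if p = a then w else 0) - vx a * iv p w := by
  by_cases h : p = a
  · subst h; rw [iv_vx_mul_self, if_pos rfl]
  · rw [iv_vx_mul_ne (Ne.symm h), if_neg h, zero_sub]

theorem euler_wedge_OeAbs (T : Finset V) (l : List V) (h : ∀ x ∈ l, x ∈ T) :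
    ∑ p ∈ T, vx p * iv p (wedge l) = (l.length : ℚ) • wedge l ∧
      ∑ p ∈ T, iv p (wedge l) = bd (wedge l) := by
  induction l with
  | nil => simp
  | cons a l ih =>
    obtain ⟨h1, h2⟩ := ih fun x hx => h x (List.mem_cons_of_mem _ hx)
    have ha : a ∈ T := h a List.mem_cons_self
    rw [wedge_cons]
    constructor
    · have e : ∀ p, vx p * iv p (vx a * wedge l) =
          (if p = a then vx a * wedge l else 0) + vx a * (vx p * iv p (wedge l)) := by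
        intro p
        rw [iv_vx_OeAbs, mul_sub, ← mul_assoc, vx_mul_vx_comm p a, neg_mul, sub_neg_eq_add,
          mul_assoc]
        congr 1
        split_ifs with hp
        · rw [hp]
        · rw [mul_zero]
      simp only [e, Finset.sum_add_distrib, Finset.sum_ite_eq', if_pos ha, ← Finset.mul_sum, h1]
      rw [List.length_cons, Nat.cast_succ, add_smul, one_smul, mul_smul_comm, add_comm]
    · simp only [iv_vx_OeAbs, Finset.sum_sub_distrib, Finset.sum_ite_eq', if_pos ha,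
        ← Finset.mul_sum, h2, bd_vx_mul]

theorem euler_OeAbs {S : Set V} {n : ℕ} (T : Finset V) (hT : S ⊆ T) {x : EA V}
    (hx : x ∈ Ch G S n) :
    ∑ p ∈ T, vx p * iv p x = (n : ℚ) • x ∧ ∑ p ∈ T, iv p x = bd x := by
  refine Ch_induction (p := fun x => ∑ p ∈ T, vx p * iv p x = (n : ℚ) • x ∧
    ∑ p ∈ T, iv p x = bd x) (by simp) ?_ ?_ ?_ hx
  · rintro x y _ _ ⟨h1, h2⟩ ⟨h3, h4⟩
    simp only [map_add, mul_add, Finset.sum_add_distrib, h1, h2, h3, h4, smul_add, and_self]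
  · rintro r x _ ⟨h1, h2⟩
    simp only [map_smul, mul_smul_comm, ← Finset.smul_sum, h1, h2, smul_comm r, and_self]
  · intro l hl _ hc
    rw [← hl]
    exact euler_wedge_OeAbs T l fun x hx => hT (hc.1 x hx)

theorem mem_Lk_OeAbs {A : Set V} {p q : V} : q ∈ Lk G A {p} ↔ q ∈ A ∧ G.Adj p q := by
  simp [Lk]

theorem fg_OeAbs {A : Set V} {n : ℕ} {N : Submodule ℚ (EA V)} (hN : N.FG) (h : N ≤ Bd G A n) :
    ∃ T : Set V, T.Finite ∧ T ⊆ A ∧ N ≤ Bd G T n := by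
  obtain ⟨s, rfl⟩ := hN
  have h1 : ∀ z ∈ s, ∃ T : Finset V, ↑T ⊆ A ∧ z ∈ Bd G (T : Set V) n := by
    intro z hz
    obtain ⟨w, hw, e⟩ := mem_Bd.1 (h (Submodule.subset_span hz))
    obtain ⟨T, hT, hw'⟩ := exists_finite_support hw
    exact ⟨T, hT, mem_Bd.2 ⟨w, hw', e⟩⟩
  choose! T hT using h1
  refine ⟨⋃ z ∈ s, (T z : Set V), s.finite_toSet.biUnion fun z _ => (T z).finite_toSet,
    Set.iUnion₂_subset fun z hz => (hT z hz).1, Submodule.span_le.2 fun z hz => ?_⟩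
  exact Bd_mono (Set.subset_biUnion_of_mem (u := fun z => (T z : Set V)) hz) n (hT z hz).2

theorem walk_OeAbs {A : Set V} {a b : V} {γ : Gp G A} (h : Path G A a b γ) :
    ∃ W : Set V, W.Finite ∧ W ⊆ A ∧ a ∈ W ∧ b ∈ W ∧ ∀ P : V → Prop,
      (∀ u ∈ W, ∀ v ∈ W, G.Adj u v → P u → P v) → P a → P b := by
  induction h with
  | @nil y hy => exact ⟨{y}, Set.finite_singleton _, by simpa, rfl, rfl, fun _ _ h => h⟩
  | @cons u w y γ hu huw _ ih =>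
    obtain ⟨W, h1, h2, h3, h4, h5⟩ := ih
    refine ⟨insert u W, h1.insert u, Set.insert_subset hu h2, Set.mem_insert _ _,
      Set.mem_insert_of_mem _ h4, fun P hP hPu => h5 P
        (fun x hx z hz => hP x (Set.mem_insert_of_mem _ hx) z (Set.mem_insert_of_mem _ hz)) ?_⟩
    rcases huw with rfl | huw
    · exact hPu
    · exact hP u (Set.mem_insert _ _) w (Set.mem_insert_of_mem _ h3) huw hPu

theorem nbhd_OeAbs {A : Set V} (hf : ∀ p ∈ A, (Lk G A {p}).Finite) {X : Set V} (hX : X.Finite)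
    (hA : X ⊆ A) : ∃ Y : Set V, Y.Finite ∧ Y ⊆ A ∧ X ⊆ Y ∧ ∀ x ∈ X, Lk G A {x} ⊆ Y :=
  ⟨X ∪ ⋃ x ∈ X, Lk G A {x}, hX.union (hX.biUnion fun x hx => hf x (hA hx)),
    Set.union_subset hA (Set.iUnion₂_subset fun _ _ _ h => h.1), Set.subset_union_left,
    fun _ hx => (Set.subset_biUnion_of_mem (u := fun x => Lk G A {x}) hx).trans
      Set.subset_union_right⟩

section

variable {A : Set V} {η : V → EA V} (hz : ∀ p ∈ A, η p ∈ Zy G (Lk G A {p}) 3)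
  (hs : ∀ p ∈ A, ∀ q ∈ Lk G A {p}, iv q (η p) ≠ 0 ∧ iv q (η p) = - iv p (η q))

include hz hs in
theorem anti_OeAbs {p q : V} (hp : p ∈ A) (hq : q ∈ A) : iv q (η p) = - iv p (η q) := by
  by_cases h : G.Adj p q
  · exact (hs p hp q (mem_Lk_OeAbs.2 ⟨hq, h⟩)).2
  · rw [iv_eq_zero (fun h' => h (mem_Lk_OeAbs.1 h').2) (mem_Zy.1 (hz p hp)).1,
      iv_eq_zero (fun h' => h (mem_Lk_OeAbs.1 h').2.symm) (mem_Zy.1 (hz q hq)).1, neg_zero]

include hz in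
theorem y_mem_OeAbs (Φ : Finset V) (hΦ : ↑Φ ⊆ A) : ∑ p ∈ Φ, vx p * η p ∈ Ch G A 4 :=
  Submodule.sum_mem _ fun p hp => vx_mul_mem_Ch (hΦ hp) (fun _ h => h.1)
    (fun _ h => Or.inr (mem_Lk_OeAbs.1 h).2) (mem_Zy.1 (hz p (hΦ hp))).1

include hz hs in
theorem iv_bd_y_OeAbs (Φ : Finset V) (hΦ : ↑Φ ⊆ A) {q : V} (hq : q ∈ A)
    (h : Lk G A {q} ⊆ Φ ∨ ∀ p ∈ Φ, p ∉ Lk G A {q}) : iv q (bd (∑ p ∈ Φ, vx p * η p)) = 0 := by
  have e : iv q (bd (∑ p ∈ Φ, vx p * η p)) = - ∑ p ∈ Φ, iv p (η q) := by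
    rw [map_sum, map_sum, ← Finset.sum_neg_distrib]
    refine Finset.sum_congr rfl fun p hp => ?_
    rw [bd_vx_mul, (mem_Zy.1 (hz p (hΦ hp))).2, mul_zero, sub_zero, anti_OeAbs hz hs (hΦ hp) hq]
  rw [e, neg_eq_zero]
  rcases h with h | h
  · rw [(euler_OeAbs Φ h (mem_Zy.1 (hz q hq)).1).2, (mem_Zy.1 (hz q hq)).2]
  · exact Finset.sum_eq_zero fun p hp => iv_eq_zero (h p hp) (mem_Zy.1 (hz q hq)).1

include hz hs in
theorem iv_y_OeAbs (Φ : Finset V) (hΦ : ↑Φ ⊆ A) {q : V} (hq : q ∈ A) :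
    iv q (∑ p ∈ Φ, vx p * η p) = (if q ∈ Φ then η q else 0) + ∑ p ∈ Φ, vx p * iv p (η q) := by
  rw [map_sum, ← Finset.sum_ite_eq Φ q η, ← Finset.sum_add_distrib]
  refine Finset.sum_congr rfl fun p hp => ?_
  rw [iv_vx_OeAbs, anti_OeAbs hz hs (hΦ hp) hq, mul_neg, sub_neg_eq_add]

end

theorem oeAbs : OeAbsStmt := by
  intro V G A η hc hf hz hne h1 hs hb S hS hD
  by_contra hcon
  rw [not_or] at hcon
  obtain ⟨hS1, hS2⟩ := hcon
  set D := {q | q ∈ A ∧ ∃ p ∈ Lk G A {q}, ¬ (p ∈ S ↔ q ∈ S)} with hDdef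
  have hDA : D ⊆ A := fun _ h => h.1
  have hfg : (Zy G D 3).FG := by
    have := finiteDimensional_Ch (G := G) hD 3
    have h2 : FiniteDimensional ℚ (Zy G D 3) :=
      Submodule.finiteDimensional_of_le (S₂ := Ch G D 3) inf_le_left
    exact Module.Finite.iff_fg.1 h2
  obtain ⟨T2, hT2, hT2A, hT2b⟩ := fg_OeAbs hfg ((Zy_mono hDA 3).trans hb)
  obtain ⟨q1, hq1, hq1'⟩ := Set.Infinite.exists_notMem_finite hS1 (hD.union hT2)
  obtain ⟨q2, hq2, hq2'⟩ := Set.Infinite.exists_notMem_finite hS2 (hD.union hT2)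
  rw [Set.mem_union, not_or] at hq1' hq2'
  obtain ⟨γ, hγ⟩ := hc.2 q1 (hS hq1) q2 hq2.1
  obtain ⟨W, hW, hWA, hW1, hW2, hWP⟩ := walk_OeAbs hγ
  obtain ⟨N, hN, hNA, hN1, hN2⟩ := nbhd_OeAbs hf (hW.union hD) (Set.union_subset hWA hDA)
  obtain ⟨Ψ, hΨ, hΨA, hΨ1, hΨ2⟩ := nbhd_OeAbs hf hN hNA
  obtain ⟨Φ, hΦ⟩ : ∃ Φ : Finset V, ∀ p, p ∈ Φ ↔ p ∈ S ∧ p ∈ Ψ :=
    ⟨(hΨ.inter_of_right S).toFinset, fun p => by simp⟩
  have hΦA : (Φ : Set V) ⊆ A := fun p hp => hS ((hΦ p).1 hp).1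
  set y := ∑ p ∈ Φ, vx p * η p with hy
  have hyA : y ∈ Ch G A 4 := y_mem_OeAbs hz Φ hΦA
  have hb1 : bd y ∈ Ch G (A ∩ (D ∪ Nᶜ)) 3 := by
    refine mem_Ch_of_iv (bd_mem_Ch hyA) fun q hq hq' => iv_bd_y_OeAbs hz hs Φ hΦA hq ?_
    rw [Set.mem_union, not_or, Set.mem_compl_iff, not_not] at hq'
    have h3 : ∀ p ∈ Lk G A {q}, (p ∈ S ↔ q ∈ S) := fun p hp => by
      by_contra h; exact hq'.1 ⟨hq, p, hp, h⟩
    by_cases hqS : q ∈ S
    · exact Or.inl fun p hp => (hΦ p).2 ⟨(h3 p hp).2 hqS, hΨ2 q hq'.2 hp⟩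
    · exact Or.inr fun p hp hp' => hqS ((h3 p hp').1 ((hΦ p).1 hp).1)
  have hsup : Ch G (A ∩ (D ∪ Nᶜ)) 3 ≤ Ch G D 3 ⊔ Ch G Nᶜ 3 := by
    refine Ch_le_sup fun l hl => ?_
    by_cases h : ∃ x ∈ l, x ∈ D
    · obtain ⟨x, hx, hxD⟩ := h
      refine Or.inl fun u hu => ?_
      rcases hl.2 x hx u hu with rfl | hxu
      · exact hxD
      · exact (hl.1 u hu).2.resolve_right
          (not_not.2 (hN2 x (Or.inr hxD) (mem_Lk_OeAbs.2 ⟨(hl.1 u hu).1, hxu⟩)))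
    · exact Or.inr fun u hu => (hl.1 u hu).2.resolve_left fun h' => h ⟨u, hu, h'⟩
  obtain ⟨z0, hz0, z1, hz1, e⟩ := Submodule.mem_sup.1 (hsup hb1)
  have hbz0 : bd z0 = 0 := by
    have e1 : bd z0 = - bd z1 := by
      rw [eq_neg_iff_add_eq_zero, ← map_add, e, bd_bd]
    refine eq_zero_of_iv (bd_mem_Ch hz0) fun v hv => ?_
    rw [e1, map_neg, iv_eq_zero (not_not.2 (hN1 (Or.inr hv))) (bd_mem_Ch hz1), neg_zero]
  obtain ⟨w, hw, ew⟩ := mem_Bd.1 (hT2b (mem_Zy.2 ⟨hz0, hbz0⟩))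
  have hY : y - w ∈ Ch G A 4 := sub_mem hyA (Ch_mono hT2A 4 hw)
  have hbY : bd (y - w) = z1 := by rw [map_sub, ew, ← e, add_sub_cancel_left]
  have hr : ∀ q ∈ W, ∃ r : ℚ, iv q (y - w) = r • η q := by
    intro q hq
    refine h1 q (hWA hq) _ (mem_Zy.2 ⟨iv_mem_Ch q hY, ?_⟩)
    rw [← neg_eq_zero, ← iv_bd, hbY]
    exact iv_eq_zero (not_not.2 (hN1 (Or.inl hq))) hz1
  have key := hWP (fun q => iv q (y - w) = (4 : ℚ) • η q) ?_ ?_
  · have h3 : ∀ p ∈ Φ, p ∉ Lk G A {q2} := fun p hp hp' =>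
      hq2'.1 ⟨hq2.1, p, hp', fun h => hq2.2 (h.1 ((hΦ p).1 hp).1)⟩
    rw [map_sub, iv_eq_zero hq2'.2 hw, sub_zero, hy, iv_y_OeAbs hz hs Φ hΦA hq2.1,
      if_neg fun h => hq2.2 ((hΦ _).1 h).1, zero_add, Finset.sum_eq_zero fun p hp => by
        rw [iv_eq_zero (h3 p hp) (mem_Zy.1 (hz q2 hq2.1)).1, mul_zero]] at key
    exact hne q2 hq2.1 ((smul_eq_zero.1 key.symm).resolve_left (by norm_num))
  · intro u hu v hv huv hP
    obtain ⟨r, hr'⟩ := hr v hv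
    obtain ⟨h4, h5⟩ := hs u (hWA hu) v (mem_Lk_OeAbs.2 ⟨hWA hv, huv⟩)
    have h6 := iv_iv_comm v u (y - w)
    rw [hP, hr', map_smul, map_smul, ← smul_neg, ← h5] at h6
    rw [hr', smul_left_injective ℚ h4 h6]
  · have h3 : Lk G A {q1} ⊆ Φ := fun p hp => (hΦ p).2 ⟨by
      by_contra h
      exact hq1'.1 ⟨hS hq1, p, hp, fun h' => h (h'.2 hq1)⟩, hΨ1 (hN2 q1 (Or.inl hW1) hp)⟩
    show iv q1 (y - w) = (4 : ℚ) • η q1
    rw [map_sub, iv_eq_zero hq1'.2 hw, sub_zero, hy, iv_y_OeAbs hz hs Φ hΦA (hS hq1),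
      if_pos ((hΦ _).2 ⟨hq1, hΨ1 (hN1 (Or.inl hW1))⟩),
      (euler_OeAbs Φ h3 (mem_Zy.1 (hz q1 (hS hq1))).1).1]
    module

end Pool.Agent.MP_6374aa_gt
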