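import Pool.Agent.MP_6374aa_gt.IfD

/-! Linear actions on the sphere are orthogonal; small lens values. -/

namespace Pool.Agent.MP_6374aa_gt

open Classical

noncomputable section

theorem single_mem_Orth (j : Fin 4) : (Pi.single j 1 : Fin 4 → ℝ) ∈ S3 := by
  change ∑ i, (Pi.single j 1 : Fin 4 → ℝ) i ^ 2 = 1
  rw [Finset.sum_eq_single j (fun i _ h => by simp [h]) (by simp)]
  simp

theorem ext_Orth {M N : Matrix (Fin 4) (Fin 4) ℝ} (h : ∀ x ∈ S3, M.mulVec x = N.mulVec x) :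
    M = N := by
  ext i j
  have h1 := congrFun (h _ (single_mem_Orth j)) i
  simpa using h1

theorem pair_mem_Orth {i j : Fin 4} (h : i ≠ j) :
    (Pi.single i (3 / 5) + Pi.single j (4 / 5) : Fin 4 → ℝ) ∈ S3 := by
  change ∑ k, (Pi.single i (3 / 5) + Pi.single j (4 / 5) : Fin 4 → ℝ) k ^ 2 = 1
  rw [Finset.sum_eq_add_of_mem i j (Finset.mem_univ _) (Finset.mem_univ _) h
    fun k _ hk => by simp [hk.1, hk.2]]
  simp [h, h.symm]
  norm_num

theorem tmul_Orth {M : Matrix (Fin 4) (Fin 4) ℝ} (h : ∀ x ∈ S3, M.mulVec x ∈ S3) :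
    M.transpose * M = 1 := by
  have h1 : ∀ i, ∑ k, M k i ^ 2 = 1 := fun i => by
    have h2 : ∑ k, (M.mulVec (Pi.single i 1)) k ^ 2 = 1 := h _ (single_mem_Orth i)
    simpa using h2
  ext i j
  rw [Matrix.mul_apply]
  simp only [Matrix.transpose_apply]
  by_cases hij : i = j
  · subst hij
    rw [Matrix.one_apply_eq, ← h1 i]
    exact Finset.sum_congr rfl fun k _ => (sq _).symm
  · rw [Matrix.one_apply_ne hij]
    have h2 : ∑ k, (M.mulVec (Pi.single i (3 / 5) + Pi.single j (4 / 5))) k ^ 2 = 1 :=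
      h _ (pair_mem_Orth hij)
    have h3 : ∀ k, (M.mulVec (Pi.single i (3 / 5) + Pi.single j (4 / 5))) k ^ 2 =
        9 / 25 * M k i ^ 2 + 16 / 25 * M k j ^ 2 + 24 / 25 * (M k i * M k j) := fun k => by
      simp only [Matrix.mulVec_add, Matrix.mulVec_single, Pi.add_apply, Pi.smul_apply,
        Matrix.col_apply, MulOpposite.smul_eq_mul_unop, MulOpposite.unop_op]
      ring
    simp only [h3, Finset.sum_add_distrib, ← Finset.mul_sum, h1] at h2
    linarith

theorem scale_Orth {x : Fin 4 → ℝ} (hx : x ≠ 0) : ∃ c : ℝ, c • x ∈ S3 := by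
  have h1 : 0 < ∑ i, x i ^ 2 := by
    obtain ⟨i, hi⟩ := Function.ne_iff.1 hx
    exact Finset.sum_pos' (fun _ _ => sq_nonneg _) ⟨i, Finset.mem_univ _, sq_pos_of_ne_zero hi⟩
  refine ⟨(Real.sqrt (∑ i, x i ^ 2))⁻¹, ?_⟩
  change ∑ i, ((Real.sqrt (∑ i, x i ^ 2))⁻¹ * x i) ^ 2 = 1
  simp only [mul_pow, ← Finset.mul_sum]
  rw [inv_pow, Real.sq_sqrt h1.le, inv_mul_cancel₀ h1.ne']

theorem orth : OrthStmt := by
  intro E Λ _ _ _ e L hL hf
  have h1 : ∀ g x (hx : x ∈ S3), (L g).mulVec x = (e (g • e.symm ⟨x, hx⟩)).1 := fun g x hx => by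
    rw [hL, e.apply_symm_apply]
  refine ⟨ext_Orth fun x hx => ?_, fun g h => ext_Orth fun x hx => ?_,
    fun g => tmul_Orth fun x hx => ?_, fun g hg x hx => ?_⟩
  · rw [h1 1 x hx, one_smul, e.apply_symm_apply, Matrix.one_mulVec]
  · rw [h1 _ x hx, mul_smul, hL, ← h1 h x hx, Matrix.mulVec_mulVec]
  · rw [h1 g x hx]
    exact (e _).2
  · by_contra h0
    obtain ⟨c, hc⟩ := scale_Orth h0
    refine hg (hf g (e.symm ⟨_, hc⟩) (e.injective (Subtype.ext ?_)))
    rw [← h1 g _ hc, e.apply_symm_apply, Matrix.mulVec_smul, hx]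

theorem cos_Orth (p : ℕ) [NeZero p] (hp : p ≤ 4) (a : (ZMod p)ˣ) :
    Real.cos (2 * Real.pi * ((a : ZMod p).val : ℝ) / p) = Real.cos (2 * Real.pi / p) := by
  have h1 := ZMod.val_coe_unit_coprime a
  have h2 := ZMod.val_lt (a : ZMod p)
  generalize (a : ZMod p).val = n at h1 h2
  have h3 : n = 1 ∨ n + 1 = p := by
    interval_cases p <;> interval_cases n <;> simp_all (config := {decide := true})
  rcases h3 with rfl | rfl
  · rw [Nat.cast_one, mul_one]
  · rw [← Real.cos_two_pi_sub]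
    congr 1
    push_cast
    field_simp
    ring

theorem small : SmallStmt := by
  intro p _ hp a b a' b'
  unfold cosum
  rw [cos_Orth p hp a, cos_Orth p hp b, cos_Orth p hp a', cos_Orth p hp b']

end

end Pool.Agent.MP_6374aa_gt
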