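import Pool.Agent.MP_6374aa_gt.IfC

/-! Pushing a pack forward along an equivalence. -/

namespace Pool.Agent.MP_6374aa_gt

open Classical

variable {V V' : Type} {G : SimpleGraph V} {A : Set V} {G' : SimpleGraph V'} {A' : Set V'}
  {f : V' → V}

theorem faith_Pf (h : SE G' A' G A f) {y : V'} (hy : y ∈ A') {δ : Gp G' A'}
    (hδ : δ ∈ Loop G' A' y) (e : gmap G' A' G A f δ = 1) : δ = 1 :=
  h.faith y δ ((mem_Loop hy).1 hδ) e

theorem inj_Pf (h : SE G' A' G A f) {y : V'} (hy : y ∈ A') {δ ε : Gp G' A'}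
    (hδ : δ ∈ Loop G' A' y) (hε : ε ∈ Loop G' A' y)
    (e : gmap G' A' G A f δ = gmap G' A' G A f ε) : δ = ε :=
  mul_inv_eq_one.1 (faith_Pf h hy (mul_mem hδ (inv_mem hε))
    (by rw [map_mul, map_inv, e, mul_inv_cancel]))

theorem full_Pf (h : SE G' A' G A f) {y : V'} (hy : y ∈ A') {γ : Gp G A}
    (hγ : γ ∈ Loop G A (f y)) : ∃ δ ∈ Loop G' A' y, gmap G' A' G A f δ = γ := by
  obtain ⟨δ, h1, h2⟩ := h.full y hy y hy γ ((mem_Loop (h.hom.1 y hy)).1 hγ)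
  exact ⟨δ, (mem_Loop hy).2 h1, h2⟩

theorem sec_Pf (h : SE G' A' G A f) (hc : PConn G A) {y : V'} (hy : y ∈ A') :
    ∃ s : Gp G A →* Gp G' A', (∀ δ ∈ Loop G' A' y, s (gmap G' A' G A f δ) = δ) ∧
      ∀ z ∈ A', ∀ δ ∈ Loop G' A' z, ∃ π, s (gmap G' A' G A f δ) = π * δ * π⁻¹ := by
  obtain ⟨R, p, p1, p2, p3, p4⟩ := exists_retraction hc (h.hom.1 y hy)
  let e : Loop G' A' y ≃* Loop G A (f y) := MulEquiv.ofBijective
    (((gmap G' A' G A f).comp (Loop G' A' y).subtype).codRestrict (Loop G A (f y))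
      fun δ => gmap_mem_Loop h.hom hy δ.2)
    ⟨fun δ ε e => Subtype.ext (inj_Pf h hy δ.2 ε.2 (congrArg Subtype.val e)), fun γ => by
      obtain ⟨δ, h1, h2⟩ := full_Pf h hy γ.2
      exact ⟨⟨δ, h1⟩, Subtype.ext h2⟩⟩
  let s : Gp G A →* Gp G' A' :=
    (Loop G' A' y).subtype.comp (e.symm.toMonoidHom.comp (R.codRestrict _ p4))
  have key : ∀ γ, ∀ δ ∈ Loop G' A' y, R γ = gmap G' A' G A f δ → s γ = δ := fun γ δ hδ e1 => by
    have : e.symm ⟨R γ, p4 γ⟩ = ⟨δ, hδ⟩ := e.symm_apply_eq.2 (Subtype.ext e1)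
    exact congrArg Subtype.val this
  refine ⟨s, fun δ hδ => key _ δ hδ ?_, fun z hz δ hδ => ?_⟩
  · rw [p3 _ _ _ (((mem_Loop hy).1 hδ).map h.hom), p2, one_mul, inv_one, mul_one]
  · obtain ⟨π, h1, h2⟩ := h.full y hy z hz _ (p1 _ (h.hom.1 z hz))
    refine ⟨π, key _ _ ((mem_Loop hy).2 ((h1.trans ((mem_Loop hz).1 hδ)).trans h1.symm)) ?_⟩
    rw [p3 _ _ _ (((mem_Loop hz).1 hδ).map h.hom), map_mul, map_mul, map_inv, h2]

theorem k1_Pf (h : SE G' A' G A f) (P' : Pack G' A') {y : V} (hy : y ∈ A)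
    (H : Subgroup (Gp G A)) (hH : H ≤ Loop G A y) (h0 : H ≠ ⊥) (hE : HasE H) :
    ∃ x γ, Path G A y (f (P'.a x)) γ ∧
      ∀ δ ∈ H, γ⁻¹ * δ * γ ∈ (P'.Λ x).map (gmap G' A' G A f) := by
  obtain ⟨y', hy', γ0, hγ0⟩ := h.ess y hy
  let c : Gp G' A' →* Gp G A := (MulAut.conj γ0).toMonoidHom.comp (gmap G' A' G A f)
  have hc : ∀ δ, c δ = γ0 * gmap G' A' G A f δ * γ0⁻¹ := fun _ => rfl
  have hs : ∀ δ ∈ H, ∃ δ' ∈ H.comap c ⊓ Loop G' A' y', c δ' = δ := fun δ hδ => by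
    obtain ⟨δ', h1, h2⟩ := full_Pf h hy' (hγ0.conj_mem_Loop (hH hδ))
    have h3 : c δ' = δ := by rw [hc, h2]; group
    exact ⟨δ', ⟨show c δ' ∈ H from h3 ▸ hδ, h1⟩, h3⟩
  let e : ↥(H.comap c ⊓ Loop G' A' y') ≃* H := MulEquiv.ofBijective
    ((c.comp (H.comap c ⊓ Loop G' A' y').subtype).codRestrict H fun δ => δ.2.1)
    ⟨fun δ ε e => Subtype.ext (inj_Pf h hy' δ.2.2 ε.2.2
      ((MulAut.conj γ0).injective (congrArg Subtype.val e))), fun γ => by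
      obtain ⟨δ, h1, h2⟩ := hs γ γ.2
      exact ⟨⟨δ, h1⟩, Subtype.ext h2⟩⟩
  obtain ⟨x, γ', h1, h2⟩ := P'.k1 y' hy' (H.comap c ⊓ Loop G' A' y') inf_le_right (fun e0 => h0 (by
    rw [eq_bot_iff]
    intro δ hδ
    obtain ⟨δ', h1, rfl⟩ := hs δ hδ
    rw [e0, Subgroup.mem_bot] at h1
    rw [h1, map_one]
    exact one_mem _)) (hE.congr e.symm)
  refine ⟨x, _, hγ0.trans (h1.map h.hom), fun δ hδ => ?_⟩
  obtain ⟨δ', h3, rfl⟩ := hs δ hδ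
  refine ⟨_, h2 δ' h3, ?_⟩
  rw [hc, map_mul, map_mul, map_inv]
  group

theorem bd_Pf (h : SE G' A' G A f) {n : ℕ} {z : EA V} {z' : EA V'} (h1 : z' ∈ Bd G' A' n)
    (h2 : emap f z' - z ∈ Bd G A n) : z ∈ Bd G A n := by
  simpa using sub_mem (emap_mem_Bd h.hom h1) h2

/-- The pack pushed forward. -/
noncomputable def pack_Pf (h : SE G' A' G A f) (P' : Pack G' A') (h3 : Fin3 G A) : Pack G A where
  X := P'.X
  a x := f (P'.a x)
  Λ x := (P'.Λ x).map (gmap G' A' G A f)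
  fin3 := h3
  conn := P'.conn.image h.hom h.ess
  mem x := h.hom.1 _ (P'.mem x)
  loop x := by
    rintro _ ⟨δ, hδ, rfl⟩
    exact gmap_mem_Loop h.hom (P'.mem x) (P'.loop x hδ)
  ne x e := P'.ne x (by
    rw [eq_bot_iff]
    intro δ hδ
    have := Subgroup.mem_map_of_mem (gmap G' A' G A f) hδ
    rw [e, Subgroup.mem_bot] at this
    exact faith_Pf h (P'.mem x) (P'.loop x hδ) this)
  hasE x := (P'.hasE x).map _ fun δ hδ => faith_Pf h (P'.mem x) (P'.loop x hδ)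
  k1 y hy H := k1_Pf h P' hy H
  k2 := by
    rintro x x' γ hγ _ ⟨δ, hδ, rfl⟩ h1 ⟨ε, hε, h2⟩
    obtain ⟨γ', h4, rfl⟩ := h.full _ (P'.mem x) _ (P'.mem x') γ hγ
    have h5 : γ'⁻¹ * δ * γ' = ε := inj_Pf h (P'.mem x') (h4.conj_mem_Loop (P'.loop x hδ))
      (P'.loop x' hε) (by rw [h2, map_mul, map_mul, map_inv])
    obtain ⟨h6, h7⟩ := P'.k2 x x' γ' h4 δ hδ (fun e => h1 (by rw [e, map_one])) (h5 ▸ hε)
    exact ⟨h6, γ', h7, rfl⟩
  k3 x := by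
    obtain ⟨ρ, r1, r2, r3⟩ := P'.k3 x
    obtain ⟨s, s1, s2⟩ := sec_Pf h (P'.conn.image h.hom h.ess) (P'.mem x)
    refine ⟨(gmap G' A' G A f).comp (ρ.comp s), ?_, fun δ => ⟨_, r2 _, rfl⟩, ?_⟩
    · rintro _ ⟨δ, hδ, rfl⟩
      rw [MonoidHom.comp_apply, MonoidHom.comp_apply, s1 δ (P'.loop x hδ), r1 δ hδ]
    · rintro y hy _ ⟨δ, hδ, rfl⟩
      obtain ⟨π, hπ⟩ := s2 _ (P'.mem y) δ (P'.loop y hδ)
      rw [MonoidHom.comp_apply, MonoidHom.comp_apply, hπ, map_mul ρ, map_mul ρ, r3 y hy δ hδ,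
        mul_one, ← map_mul, mul_inv_cancel, map_one, map_one]
  k4 y hy δ hδ := by
    obtain ⟨y', hy', γ0, hγ0⟩ := h.ess y hy
    obtain ⟨δ', h1, h2⟩ := full_Pf h hy' (hγ0.conj_mem_Loop hδ)
    have h4 : Subgroup.normalClosure (⋃ x, (P'.Λ x : Set (Gp G' A'))) ≤
        (Subgroup.normalClosure
          (⋃ x, ((P'.Λ x).map (gmap G' A' G A f) : Set (Gp G A)))).comap (gmap G' A' G A f) :=
      Subgroup.normalClosure_le_normal (Set.iUnion_subset fun x ε hε =>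
        Subgroup.subset_normalClosure (Set.mem_iUnion.2 ⟨x, ε, hε, rfl⟩))
    have h5 := Subgroup.normalClosure_normal.conj_mem _ (h4 (P'.k4 y' hy' h1)) γ0
    rw [h2] at h5
    convert h5 using 1
    group
  h1 y hy n hn z hz := by
    obtain ⟨y', hy', γ0, hγ0⟩ := h.ess y hy
    obtain ⟨z', h1, h2⟩ := h.isurj n hn y' hy' ⊥ bot_le z (II_le_II hγ0 (fun δ hδ => by
      rw [Subgroup.mem_bot.1 hδ, mul_one, inv_mul_cancel]
      exact one_mem _) n hz)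
    exact bd_Pf h (P'.h1 y' hy' n hn h1) h2
  h2 n hn z hz := by
    obtain ⟨z', h1, h2⟩ := h.hsurj n hn z hz
    have h4 : Bd G' A' n ⊔ ⨆ x, II G' A' (P'.Λ x) (P'.a x) n ≤ (Bd G A n ⊔
        ⨆ x, II G A ((P'.Λ x).map (gmap G' A' G A f)) (f (P'.a x)) n).comap (emap f) :=
      sup_le (fun w hw => Submodule.mem_sup_left (emap_mem_Bd h.hom hw)) (iSup_le fun x w hw =>
        Submodule.mem_sup_right (Submodule.mem_iSup_of_mem x (emap_mem_II h.hom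
          (Path.nil (h.hom.1 _ (P'.mem x))) (fun δ hδ => Subgroup.mem_map.2 ⟨δ, hδ, by simp⟩) hw)))
    have h5 := sub_mem (Submodule.mem_comap.1 (h4 (P'.h2 n hn h1))) (Submodule.mem_sup_left h2)
    rwa [sub_sub_cancel] at h5
  h3 n hn z hz hs x := by
    choose z' h1 h2 using fun x => h.isurj n hn _ (P'.mem x) _ (P'.loop x) (z x) (hz x)
    refine bd_Pf h (P'.h3 n hn z' h1 (h.hinj n hn _
      (Submodule.sum_mem _ fun x _ => II_le_Zy _ _ _ (h1 x)) ?_) x) (h2 x)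
    have := add_mem (Submodule.sum_mem _ fun x (_ : x ∈ Finset.univ) => h2 x) hs
    rwa [Finset.sum_sub_distrib, sub_add_cancel, ← map_sum] at this

theorem pf : PfStmt := fun _ _ _ _ _ _ _ P' h h3 =>
  ⟨pack_Pf h P' h3, Equiv.refl _, fun x =>
    ⟨fun _ hδ => faith_Pf h (P'.mem x) (P'.loop x hδ), 1, Path.nil (h.hom.1 _ (P'.mem x)),
      fun δ hδ => ⟨δ, hδ, by simp⟩, fun _ ⟨δ, hδ, e⟩ => ⟨δ, hδ, by simpa using e⟩⟩⟩

theorem seMatch : SeMatchStmt := by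
  rintro V V' G A G' A' f P P' x x' h ⟨-, γ, h1, -, h2⟩ n hn z hz
  refine h.isurj n hn _ (P'.mem x') _ (P'.loop x') z (II_le_II h1.symm (fun δ hδ => ?_) n hz)
  obtain ⟨δ', h3, rfl⟩ := h2 δ hδ
  exact ⟨δ', h3, by group⟩

end Pool.Agent.MP_6374aa_gt
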