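import Pool.Agent.MP_6374aa_gt.IfD

namespace Pool.Agent.MP_6374aa_gt

open Classical

variable {V L : Type} {G : SimpleGraph V} {A : Set V} [Group L] {lab : V → V → L}

theorem site_PieceS (hb : BaseStmt) (hD : DeckIsoStmt) [Nontrivial L] (hF : Fin3 G A)
    (hl : Flat G A lab) {y : V} (hy : y ∈ A) (h1 : SConn (cov G lab L) (up A L))
    (h2 : ∀ n, n = 2 ∨ n = 3 → Zy (cov G lab L) (up A L) n ≤ Bd (cov G lab L) (up A L) n)
    (h3 : HasE L) : ∃ (Q : Pack G A) (x : Q.X) (θ : Q.Λ x ≃* L), (∀ x', x' = x) ∧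
      Q.Λ x = Loop G A (Q.a x) ∧ ∀ δ : Q.Λ x, θ δ = glift G A lab δ := by
  obtain ⟨h4, θ, h5⟩ := hD V G A L lab y hl hy h1
  obtain ⟨Q, x, q1, q2, q3⟩ := hb V G A L lab y hF h4 hl hy h2
    ((Subgroup.nontrivial_iff_ne_bot _).1 θ.toEquiv.nontrivial) (h3.congr θ.symm)
  exact ⟨Q, x, (MulEquiv.subgroupCongr q3).trans θ, q1, q2 ▸ q3, fun δ => h5 _⟩

theorem cov_PieceS {Q : Pack G A} {x : Q.X} [Infinite (Q.Λ x)] (χ : Q.Λ x → ℝ) : Cov Q x χ := by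
  intro M _ _ ρ h
  have h1 : Function.Injective (ρ.comp (Q.Λ x).subtype) :=
    (injective_iff_map_eq_one _).2 fun δ h1 => Subtype.ext (h δ δ.2 h1)
  have := Finite.of_injective _ h1
  exact (not_finite (Q.Λ x)).elim

theorem iso_PieceS [Subsingleton L] : IsIso G A (cov G lab L) (up A L) fun v => (v, 1) :=
  ⟨⟨fun _ h => h, fun _ _ _ _ h => congrArg Prod.fst h,
    fun p hp => ⟨p.1, hp, Prod.ext rfl (Subsingleton.elim _ _)⟩⟩,
    fun _ _ _ _ => ⟨fun h => ⟨h, Subsingleton.elim _ _, Subsingleton.elim _ _⟩, fun h => h.1⟩⟩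

theorem pieceS (hS : SheetStmt) (hA : AsphCovStmt) (hC : SphCovStmt) (hT : SphSiteStmt)
    (hM : ClosedMfStmt) (hB : MfBasicStmt) (hO : OeStmt) (hH : HasEStmt) (hb : BaseStmt)
    (hE : EmptyStmt) (hD : DeckIsoStmt) (hR : OrthStmt) (hQ : ClQ1Stmt) : PieceStmt := by
  intro V _ G P
  obtain ⟨lab, sh, hs⟩ := hS V P.E P.Λ G P.A P.p P.cov
  obtain ⟨hm, y, hy, -⟩ := hM V G P.A P.closed
  have hF := (hB V G P.A hm).1
  rcases P.geom with ⟨g1, g2⟩ | ⟨g1, e, M, g2⟩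
  · obtain ⟨h1, h2⟩ := hA V P.E P.Λ G P.A P.p lab sh hs hF ⟨y, hy⟩
    obtain ⟨Q, x, θ, q1, -, -⟩ := site_PieceS hb hD hF hs.flat hy h1 (fun n _ => h2 n)
      ((hH _).2 (hO V G P.A P.Λ lab hm hs.flat h1.1 (h2 3)))
    have := Infinite.of_injective θ.symm θ.symm.injective
    refine ⟨fun _ => 0, Q, ⟨fun _ _ => rfl, fun _ => (not_finite P.Λ).elim⟩, fun x' => ?_,
      fun _ => ⟨x⟩⟩
    obtain rfl := q1 x'
    exact ⟨θ, cov_PieceS _⟩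
  · obtain ⟨-, r1, -, -⟩ := hR P.E P.Λ e M g2 fun g x hx => by
      obtain ⟨U, hU, h⟩ := P.cov.disjoint x
      exact h g ⟨x, ⟨x, mem_of_mem_nhds hU, hx⟩, mem_of_mem_nhds hU⟩
    have hχ : ClassFn fun g => (M g).trace := fun g h => by
      change (M (h * g * h⁻¹)).trace = (M g).trace
      rw [r1, Matrix.trace_mul_comm, ← r1, inv_mul_cancel_left]
    obtain ⟨h1, h2⟩ := hC V P.E P.Λ G P.A P.p lab sh e M hs hF g2
    refine ⟨fun g => (M g).trace, ?_⟩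
    rcases subsingleton_or_nontrivial P.Λ with _ | _
    · obtain ⟨Q0, h3⟩ := h1
      obtain ⟨Q, j, -, h4⟩ := (hQ _ _ _ _ _ _ _ (iso_PieceS (lab := lab)).cl hF).1.2 Q0
      exact ⟨Q, ⟨hχ, fun _ => ⟨e, M, g2, fun _ => rfl⟩⟩, fun x => (h3.false (h4 x).choose).elim,
        fun _ => (false_of_nontrivial_of_subsingleton P.Λ).elim⟩
    · obtain ⟨h3, h4⟩ := (hE _ _ _ (Fin3.cov hs.flat hF)).2 h1
      obtain ⟨Q, x, θ, q1, q2, q3⟩ := site_PieceS hb hD hF hs.flat hy h3 h4 ((hH _).1 g1)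
      refine ⟨Q, ⟨hχ, fun _ => ⟨e, M, g2, fun _ => rfl⟩⟩, fun x' => ?_, fun _ => ⟨x⟩⟩
      obtain rfl := q1 x'
      exact ⟨θ, hT V P.Λ G P.A lab _ Q x' θ hs.flat hχ q2 q3 h1 h2⟩

end Pool.Agent.MP_6374aa_gt
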