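import Pool.Agent.MP_6374aa_gt.IfB

namespace Pool.Agent.MP_6374aa_gt

open Classical

variable {V : Type} {G : SimpleGraph V} {S : Set V} {v : V} {e : ℕ}

theorem link_RemGen (h : LocS G S (e + 1)) (hv : v ∈ S) :
    HS G (Lk G S {v}) e ∧ LocS G (Lk G S {v}) e := by
  refine ⟨by simpa using (h {v} (by simp) (by simpa using hv) (by simp)).2, fun σ h1 h2 h3 => ?_⟩
  have h4 : ∀ x ∈ σ, G.Adj v x := fun x hx => (h2 hx).2 v rfl
  have h5 := h (insert v σ) (by simp)
    (by rw [Finset.coe_insert]; exact Set.insert_subset hv fun x hx => (h2 hx).1)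
    (by rw [Finset.coe_insert]; exact h3.insert fun x hx _ => h4 x hx)
  have h6 : Lk G S ↑(insert v σ) = Lk G (Lk G S {v}) σ := by
    ext x
    simp [Lk, and_assoc]
  rwa [Finset.card_insert_of_notMem fun hx => G.irrefl (h4 v hx), Nat.add_sub_add_right,
    Nat.add_le_add_iff_right, h6] at h5

theorem star_RemGen (h : HS G S (e + 1)) (hl : HS G (Lk G S {v}) e) (hv : v ∈ S) (n : ℕ) :
    Zy G (S \ {v}) n ≤ Bd G (S \ {v}) n := by
  obtain ⟨h1, ζ, h2, -, h3, h4⟩ := h
  intro z hz
  have hz' := Zy_mono Set.sdiff_subset n hz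
  by_cases hn : n = e + 1
  · subst hn
    obtain ⟨r, rfl⟩ := h3 z hz'
    have h5 := iv_eq_zero (v := v) (by simp) (mem_Zy.1 hz).1
    rw [map_smul, smul_eq_zero, or_iff_left (h4 v hv)] at h5
    rw [h5, zero_smul]
    exact zero_mem _
  refine mem_Bd_diff ?_ hz (h1 n hn hz')
  by_cases hn' : n = e
  · subst hn'
    obtain ⟨-, ξ, -, -, h5, -⟩ := hl
    have h6 := iv_mem_Zy v h2
    obtain ⟨s, hs⟩ := h5 _ h6
    have h7 : s ≠ 0 := fun h => h4 v hv (by rw [hs, h, zero_smul])
    have h8 : iv v ζ ∈ Bd G (S \ {v}) n := by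
      refine mem_Bd.2 ⟨_, neg_mem (sub_vx_mul_iv_mem_Ch v (mem_Zy.1 h2).1), ?_⟩
      rw [map_neg, map_sub, bd_vx_mul, (mem_Zy.1 h2).2, (mem_Zy.1 h6).2]
      simp
    intro y hy
    obtain ⟨r, rfl⟩ := h5 y hy
    rw [hs, Submodule.smul_mem_iff _ h7] at h8
    exact Submodule.smul_mem _ _ h8
  · exact (hl.1 n hn').trans (Bd_mono Lk_sub_ChC1 n)

theorem remGen : RemGenStmt := by
  intro V G d
  induction d with
  | zero => exact fun S _ h v hv => absurd (h {v} (by simp) (by simpa using hv) (by simp)).1 (by simp)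
  | succ e ih =>
    intro S hS h v hv U hU n
    have key : (∀ z ∈ Zy G (S \ insert v U) n, z ∈ Bd G (S \ {v}) n →
        z ∈ Bd G (S \ insert v U) n) ∧
        Zy G (S \ {v}) n ≤ Zy G (S \ insert v U) n ⊔ Bd G (S \ {v}) n := by
      have hf : U.Finite := hS.subset fun x hx => (hU hx).1
      induction U, hf using Set.Finite.induction_on with
      | empty => exact ⟨fun z _ h => by simpa using h, by simp⟩
      | @insert w U _ _ ih' =>
        obtain ⟨hw, hU'⟩ := Set.insert_subset_iff.1 hU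
        obtain ⟨i1, i2⟩ := ih' hU'
        obtain ⟨l1, l2⟩ := link_RemGen h hw.1
        have e1 : S \ insert v (insert w U) = (S \ insert v U) \ {w} := by
          ext x
          simp only [Set.mem_sdiff, Set.mem_insert_iff, Set.mem_singleton_iff]
          tauto
        have e2 : Lk G (S \ insert v U) {w} =
            Lk G S {w} \ insert v (U ∩ Lk G (Lk G S {w}) {v}) := by
          ext x
          have := @hU' x
          simp only [Lk, Set.mem_sdiff, Set.mem_insert_iff, Set.mem_singleton_iff, forall_eq,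
            Set.mem_ofPred_eq, Set.mem_inter_iff] at this ⊢
          tauto
        have a : ∀ m, Zy G (Lk G (S \ insert v U) {w}) m ≤ Bd G (Lk G (S \ insert v U) {w}) m :=
          fun m => e2 ▸ (ih _ (hS.subset fun x hx => hx.1) l2 v
            ⟨hv, fun u hu => hu ▸ (hw.2 v rfl).symm⟩ _ Set.inter_subset_right m).2.2 l1
        rw [e1]
        refine ⟨fun z hz hb => mem_Bd_diff ((a n).trans (Bd_mono Lk_sub_ChC1 n)) hz
          (i1 z (Zy_mono Set.sdiff_subset n hz) hb), i2.trans (sup_le ?_ le_sup_right)⟩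
        cases n with
        | zero =>
          exact le_sup_of_le_left fun z hz =>
            mem_Zy.2 ⟨mem_Ch_zero.2 (mem_Ch_zero.1 (mem_Zy.1 hz).1), (mem_Zy.1 hz).2⟩
        | succ m =>
          exact (Zy_le_diff (a m)).trans (sup_le_sup_left
            (Bd_mono (Set.sdiff_subset_sdiff_right (by simp)) _) _)
    exact ⟨key.1, key.2, fun hs z hz => key.1 z hz (star_RemGen hs (link_RemGen h hv).1 hv n
      (Zy_mono (Set.sdiff_subset_sdiff_right (by simp)) n hz))⟩

end Pool.Agent.MP_6374aa_gt
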