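import Pool.Agent.MP_6374aa_gt.IfD

/-! Real representations of a finite group with equal characters are isomorphic. -/

namespace Pool.Agent.MP_6374aa_gt

open Classical

noncomputable section

section

variable {A : Type} [Ring A] [Algebra ℝ A]

/-- The trace of an element of the algebra on a module. -/
def tr_Orth (V : Type) [AddCommGroup V] [Module ℝ V] [Module A V] [IsScalarTower ℝ A V] (a : A) :
    ℝ :=
  LinearMap.trace ℝ V (DistribSMul.toLinearMap ℝ V a)

variable {V W : Type} [AddCommGroup V] [Module ℝ V] [Module A V] [IsScalarTower ℝ A V]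
  [AddCommGroup W] [Module ℝ W] [Module A W] [IsScalarTower ℝ A W]

theorem tr_equiv_Orth (e : V ≃ₗ[A] W) (a : A) : tr_Orth V a = tr_Orth W a := by
  unfold tr_Orth
  rw [← LinearMap.trace_conj' _ (e.restrictScalars ℝ)]
  congr 1
  ext x
  simp [LinearEquiv.conj_apply]

theorem tr_prod_Orth [FiniteDimensional ℝ V] [FiniteDimensional ℝ W] (a : A) :
    tr_Orth (V × W) a = tr_Orth V a + tr_Orth W a := by
  unfold tr_Orth
  rw [← LinearMap.trace_prodMap']
  rfl

theorem tr_idem_Orth [FiniteDimensional ℝ V] {a : A} (h : IsIdempotentElem a) :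
    tr_Orth V a = 0 ↔ ∀ v : V, a • v = 0 := by
  have h1 : IsIdempotentElem (DistribSMul.toLinearMap ℝ V a) := by
    refine LinearMap.ext fun v => ?_
    change a • a • v = a • v
    rw [← mul_smul, h.eq]
  unfold tr_Orth
  rw [LinearMap.IsIdempotentElem.trace_eq_zero_iff h1, LinearMap.ext_iff]
  rfl

omit [Algebra ℝ A] [Module ℝ V] [IsScalarTower ℝ A V] in
theorem split_Orth [IsSemisimpleRing A] {I : Submodule A A} [IsSimpleModule A I] {a : A}
    (ha : a ∈ I) {v : V} (hv : a • v ≠ 0) :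
    ∃ V' : Submodule A V, V' ≠ ⊤ ∧ Nonempty (V ≃ₗ[A] I × V') := by
  let f : I →ₗ[A] V := (LinearMap.toSpanSingleton A V v).comp I.subtype
  have hf : f ≠ 0 := fun h => hv (LinearMap.congr_fun h ⟨a, ha⟩)
  have hi := LinearMap.injective_of_ne_zero hf
  obtain ⟨V', hV⟩ := exists_isCompl (LinearMap.range f)
  refine ⟨V', fun h => hf ?_, ⟨(Submodule.prodEquivOfIsCompl _ _ hV).symm.trans
    ((LinearEquiv.ofInjective f hi).symm.prodCongr (LinearEquiv.refl A V'))⟩⟩
  rw [h] at hV
  exact LinearMap.range_eq_bot.1 (disjoint_top.1 hV.disjoint)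

end

theorem iso_Orth {A : Type} [Ring A] [Algebra ℝ A] [IsSemisimpleRing A] [FiniteDimensional ℝ A]
    (n : ℕ) : ∀ (V W : Type) [AddCommGroup V] [Module ℝ V] [Module A V] [IsScalarTower ℝ A V]
      [FiniteDimensional ℝ V] [AddCommGroup W] [Module ℝ W] [Module A W] [IsScalarTower ℝ A W]
      [FiniteDimensional ℝ W], Module.finrank ℝ V = n →
      (∀ a : A, tr_Orth V a = tr_Orth W a) → Nonempty (V ≃ₗ[A] W) := by
  induction n using Nat.strong_induction_on with
  | _ n ih =>
  intro V W _ _ _ _ _ _ _ _ _ _ hn h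
  by_cases h0 : ∀ v : V, v = 0
  · have h1 : ∀ w : W, (1 : A) • w = 0 := by
      rw [← tr_idem_Orth IsIdempotentElem.one, ← h, tr_idem_Orth IsIdempotentElem.one]
      exact fun v => h0 _
    have : Subsingleton V := subsingleton_of_forall_eq 0 h0
    have : Subsingleton W := subsingleton_of_forall_eq 0 fun w => by rw [← h1 w, one_smul]
    exact ⟨LinearEquiv.ofSubsingleton V W⟩
  have h1 : ∃ (I : Submodule A A) (e : A), IsSimpleModule A I ∧ IsIdempotentElem e ∧ e ∈ I ∧
      ∃ v : V, e • v ≠ 0 := by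
    by_contra hc
    push Not at hc
    refine h0 fun v => ?_
    have h2 : (⊤ : Submodule A A) ≤ LinearMap.ker (LinearMap.toSpanSingleton A V v) := by
      rw [← IsSemisimpleModule.sSup_simples_eq_top A A]
      refine sSup_le fun I hI => ?_
      obtain ⟨e, he, rfl⟩ := IsSemisimpleRing.ideal_eq_span_idempotent I
      refine Submodule.span_le.2 (Set.singleton_subset_iff.2 ?_)
      exact hc _ e hI he (Submodule.mem_span_singleton_self e) v
    have h3 : (1 : A) • v = 0 := h2 (Submodule.mem_top (x := (1 : A)))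
    rwa [one_smul] at h3
  obtain ⟨I, e, hI, he, heI, v, hv⟩ := h1
  obtain ⟨w, hw⟩ : ∃ w : W, e • w ≠ 0 := by
    by_contra hc
    push Not at hc
    exact hv ((tr_idem_Orth he).1 ((h e).trans ((tr_idem_Orth he).2 hc)) v)
  obtain ⟨V', hV, ⟨eV⟩⟩ := split_Orth heI hv
  obtain ⟨W', -, ⟨eW⟩⟩ := split_Orth heI hw
  have : FiniteDimensional ℝ I :=
    Module.Finite.of_injective (I.subtype.restrictScalars ℝ) Subtype.val_injective
  have : FiniteDimensional ℝ V' :=
    Module.Finite.of_injective (V'.subtype.restrictScalars ℝ) Subtype.val_injective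
  have : FiniteDimensional ℝ W' :=
    Module.Finite.of_injective (W'.subtype.restrictScalars ℝ) Subtype.val_injective
  have hlt : Module.finrank ℝ V' < n := by
    rw [← hn]
    exact Submodule.finrank_lt (s := V'.restrictScalars ℝ)
      (fun h => hV ((Submodule.restrictScalars_eq_top_iff ℝ A V).1 h))
  obtain ⟨e'⟩ := ih _ hlt V' W' rfl fun a => by
    have h2 := h a
    rw [tr_equiv_Orth eV, tr_equiv_Orth eW, tr_prod_Orth, tr_prod_Orth] at h2
    exact add_left_cancel h2
  exact ⟨eV.trans (((LinearEquiv.refl A I).prodCongr e').trans eW.symm)⟩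

/-- The representation given by matrices. -/
def rho_Orth {Λ : Type} [Group Λ] (L : Λ →* Matrix (Fin 4) (Fin 4) ℝ) :
    Representation ℝ Λ (Fin 4 → ℝ) :=
  (Matrix.toLinAlgEquiv' : Matrix (Fin 4) (Fin 4) ℝ ≃ₐ[ℝ] _).toMonoidHom.comp L

theorem rho_apply_Orth {Λ : Type} [Group Λ] (L : Λ →* Matrix (Fin 4) (Fin 4) ℝ) (g : Λ) :
    rho_Orth L g = Matrix.toLin' (L g) := rfl

theorem tr_rho_Orth {Λ : Type} [Group Λ] (L : Λ →* Matrix (Fin 4) (Fin 4) ℝ)
    (a : MonoidAlgebra ℝ Λ) :
    tr_Orth (rho_Orth L).asModule a = LinearMap.trace ℝ _ ((rho_Orth L).asAlgebraHom a) := by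
  unfold tr_Orth
  rw [← LinearMap.trace_conj' _ (rho_Orth L).asModuleEquiv]
  congr 1

theorem rep : RepStmt := by
  intro Λ _ _ L L' h
  have : NeZero (Nat.card Λ : ℝ) := ⟨Nat.cast_ne_zero.2 Nat.card_pos.ne'⟩
  obtain ⟨e⟩ := iso_Orth (A := MonoidAlgebra ℝ Λ) _ (rho_Orth L).asModule (rho_Orth L').asModule
    rfl fun a => by
      rw [tr_rho_Orth, tr_rho_Orth]
      induction a using MonoidAlgebra.induction_on with
      | of g =>
        rw [Representation.asAlgebraHom_of, Representation.asAlgebraHom_of, rho_apply_Orth,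
          rho_apply_Orth, Matrix.trace_toLin'_eq, Matrix.trace_toLin'_eq, h]
      | add f g hf hg => rw [map_add, map_add, map_add, map_add, hf, hg]
      | smul r f hf => rw [map_smul, map_smul, map_smul, map_smul, hf]
  let φ : (Fin 4 → ℝ) ≃ₗ[ℝ] (Fin 4 → ℝ) :=
    (rho_Orth L).asModuleEquiv.symm.trans ((e.restrictScalars ℝ).trans (rho_Orth L').asModuleEquiv)
  have hφ : ∀ g, φ.toLinearMap.comp (Matrix.toLin' (L g)) =
      (Matrix.toLin' (L' g)).comp φ.toLinearMap := by
    intro g
    refine LinearMap.ext fun x => ?_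
    change (rho_Orth L').asModuleEquiv (e ((rho_Orth L).asModuleEquiv.symm (rho_Orth L g x))) =
      rho_Orth L' g ((rho_Orth L').asModuleEquiv (e ((rho_Orth L).asModuleEquiv.symm x)))
    rw [Representation.asModuleEquiv_symm_map_rho, map_smul,
      Representation.asModuleEquiv_map_smul, Representation.asAlgebraHom_of]
  refine ⟨LinearMap.toMatrix' φ.toLinearMap, LinearMap.toMatrix' φ.symm.toLinearMap, ?_, ?_,
    fun g => ?_⟩
  · rw [← LinearMap.toMatrix'_comp, LinearEquiv.comp_symm, LinearMap.toMatrix'_id]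
  · rw [← LinearMap.toMatrix'_comp, LinearEquiv.symm_comp, LinearMap.toMatrix'_id]
  · have h1 := congrArg LinearMap.toMatrix' (hφ g)
    rwa [LinearMap.toMatrix'_comp, LinearMap.toMatrix'_comp, LinearMap.toMatrix'_toLin',
      LinearMap.toMatrix'_toLin'] at h1

end

end Pool.Agent.MP_6374aa_gt
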