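import Pool.Agent.MP_6374aa_gt.IfB

namespace Pool.Agent.MP_6374aa_gt

open Classical

variable {V : Type} {G G' : SimpleGraph V} {S : Set V}

theorem vx_mem_Sc2 {a : V} (ha : a ∈ S) : vx a ∈ Ch G S 1 := by
  simpa using wedge_mem_Ch (G := G) (S := S) (l := [a])
    ⟨by simpa using ha, by simpa using Adq.refl G a⟩

/-- A homology sphere with top simplices of one vertex has at most two points. -/
theorem two_Sc2 (h : HS G S 1) {x y z : V} (hx : x ∈ S) (hy : y ∈ S) (hz : z ∈ S) (hxz : x ≠ z)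
    (hyz : y ≠ z) : x = y := by
  obtain ⟨-, ζ, -, -, h1, h2⟩ := h
  obtain ⟨r, hr⟩ := h1 (vx x - vx y) (mem_Zy.2 ⟨sub_mem (vx_mem_Sc2 hx) (vx_mem_Sc2 hy), by simp⟩)
  have h3 : ∀ a, a ≠ z → iv z (vx a) = 0 := fun a ha =>
    iv_eq_zero (G := G) (S := {a}) (fun e => ha (Set.mem_singleton_iff.1 e).symm) (vx_mem_Sc2 rfl)
  have h4 := congrArg (iv z) hr
  rw [map_sub, h3 x hxz, h3 y hyz, sub_zero, map_smul, eq_comm, smul_eq_zero] at h4
  rw [h4.resolve_right (h2 z hz), zero_smul, sub_eq_zero] at hr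
  exact vx_inj_GrA2 hr

theorem Ch_le_Sc2 (hG : G' ≤ G) (n : ℕ) : Ch G' S n ≤ Ch G S n := fun z hz => by
  simpa using emap_mem_Ch (G' := G') (G := G) (S' := S) (S := S) (f := id)
    ⟨fun _ ha => ha, fun _ _ _ _ h => Or.inr (hG h)⟩ hz

/-- Cliques of `G` that are not cliques of `G'`. -/
noncomputable def bad_Sc2 (G G' : SimpleGraph V) (hS : S.Finite) (n : ℕ) : Finset (Finset V) :=
  hS.toFinset.powerset.filter fun s =>
    G.IsClique (s : Set V) ∧ s.card = n ∧ ¬ G'.IsClique (s : Set V)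

theorem mem_bad_Sc2 {hS : S.Finite} {n : ℕ} {s : Finset V} : s ∈ bad_Sc2 G G' hS n ↔
    ↑s ⊆ S ∧ G.IsClique (s : Set V) ∧ s.card = n ∧ ¬ G'.IsClique (s : Set V) := by
  simp [bad_Sc2]

theorem count_Sc2 (hS : S.Finite) (hL : LocS G S 3)
    (h2 : ∀ u ∈ S, ∀ w ∈ S, ∀ x ∈ S, G.Adj u w → G'.Adj u x → G'.Adj x w → G'.Adj u w) :
    (bad_Sc2 G G' hS 3).card ≤ (bad_Sc2 G G' hS 2).card := by
  refine Nat.le_of_mul_le_mul_right (Finset.card_mul_le_card_mul (fun f e => e ⊆ f)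
    (m := 2) (n := 2) (fun f hf => ?_) fun e he => ?_) two_pos
  · obtain ⟨f1, f2, f3, f4⟩ := mem_bad_Sc2.1 hf
    have key : ∀ a ∈ f, ∀ b ∈ f, a ≠ b → ¬ G'.Adj a b →
        ({a, b} : Finset V) ∈ (bad_Sc2 G G' hS 2).bipartiteAbove (fun f e => e ⊆ f) f := by
      intro a ha b hb hab hn
      have hs : ({a, b} : Finset V) ⊆ f :=
        Finset.insert_subset ha (Finset.singleton_subset_iff.2 hb)
      refine (Finset.mem_bipartiteAbove _).2 ⟨mem_bad_Sc2.2 ⟨(Finset.coe_subset.2 hs).trans f1,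
        f2.subset (Finset.coe_subset.2 hs), Finset.card_pair hab, fun hc => hn ?_⟩, hs⟩
      exact hc (by simp) (by simp) hab
    obtain ⟨u, hu, w, hw, huw, hn⟩ : ∃ u ∈ f, ∃ w ∈ f, u ≠ w ∧ ¬ G'.Adj u w := by
      by_contra hc
      push Not at hc
      exact f4 fun u hu w hw huw => hc u hu w hw huw
    obtain ⟨x, hx, hx'⟩ := Finset.exists_mem_notMem_of_card_lt_card
      (s := ({u, w} : Finset V)) (t := f) (by rw [Finset.card_pair huw, f3]; norm_num)
    have hxu : x ≠ u := fun e => hx' (by simp [e])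
    have hxw : x ≠ w := fun e => hx' (by simp [e])
    refine Finset.one_lt_card.2 ⟨_, key u hu w hw huw hn, ?_⟩
    by_cases h : G'.Adj u x
    · exact ⟨_, key x hx w hw hxw fun h' => hn (h2 u (f1 hu) w (f1 hw) x (f1 hx)
        (f2 hu hw huw) h h'), fun e => hx' (e ▸ by simp)⟩
    · exact ⟨_, key u hu x hx hxu.symm h, fun e => hx' (e ▸ by simp)⟩
  · obtain ⟨e1, e2, e3, -⟩ := mem_bad_Sc2.1 he
    have hl : HS G (Lk G S e) 1 := by
      have := (hL e (Finset.card_pos.1 (by omega)) e1 e2).2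
      rwa [e3] at this
    have key : ∀ f ∈ (bad_Sc2 G G' hS 3).bipartiteBelow (fun f e => e ⊆ f) e,
        ∃ x ∈ Lk G S e, f = insert x e := by
      intro f hf
      obtain ⟨hf1, hf2⟩ := (Finset.mem_bipartiteBelow _).1 hf
      obtain ⟨f1, f2, f3, -⟩ := mem_bad_Sc2.1 hf1
      obtain ⟨x, hx, hx'⟩ := Finset.exists_mem_notMem_of_card_lt_card (s := e) (t := f) (by omega)
      refine ⟨x, ⟨f1 hx, fun u hu => f2 (hf2 hu) hx fun h => hx' (h ▸ hu)⟩, ?_⟩
      exact (Finset.eq_of_subset_of_card_le (Finset.insert_subset hx hf2)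
        (by rw [Finset.card_insert_of_notMem hx']; omega)).symm
    by_contra hc
    obtain ⟨a, b, c, ha, hb, hc, hab, hac, hbc⟩ := Finset.two_lt_card_iff.1 (not_le.1 hc)
    obtain ⟨x, hx, rfl⟩ := key a ha
    obtain ⟨y, hy, rfl⟩ := key b hb
    obtain ⟨z, hz, rfl⟩ := key c hc
    exact hab (by rw [two_Sc2 hl hx hy hz (fun e => hac (by rw [e])) fun e => hbc (by rw [e])])

theorem core_Sc2 (hS : S.Finite) (hH : HS G S 3) (hL : LocS G S 3) (hG : G' ≤ G)
    (h2 : ∀ u ∈ S, ∀ w ∈ S, ∀ x ∈ S, G.Adj u w → G'.Adj u x → G'.Adj x w → G'.Adj u w)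
    (hc : ∀ u ∈ S, ∀ w ∈ S, vx u - vx w ∈ Bd G' S 1) :
    ∀ u ∈ S, ∀ w ∈ S, G.Adj u w → G'.Adj u w := by
  obtain ⟨hZ, ζ, hζ, -, -, hζ2⟩ := hH
  choose φ hφ1 hφ2 using fun e : bad_Sc2 G G' hS 2 => exists_coef e.1.toList e.1.nodup_toList
  let Ψ : EA V →ₗ[ℚ] (bad_Sc2 G G' hS 2 → ℚ) := LinearMap.pi φ
  let ι : (bad_Sc2 G G' hS 3 → ℚ) →ₗ[ℚ] EA V :=
    Fintype.linearCombination ℚ fun f => wedge f.1.toList
  have hΨ : ∀ z ∈ Ch G' S 2, Ψ z = 0 := by
    refine fun z hz => (Ch_le_of (N := LinearMap.ker Ψ) fun l _ _ hl => ?_) hz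
    refine funext fun e => hφ2 e l fun h => (mem_bad_Sc2.1 e.2).2.2.2 ?_
    rw [Finset.toList_toFinset] at h
    exact h ▸ (isCl_toFinset hl).2
  have hdec : ∀ t ∈ Ch G S 3, ∃ c, t - ι c ∈ Ch G' S 3 := by
    intro t ht
    have h1 : Ch G S 3 ≤ LinearMap.range ι ⊔ Ch G' S 3 := by
      refine Ch_le_of fun l hl hn hcl => ?_
      by_cases h : G'.IsClique (l.toFinset : Set V)
      · refine Submodule.mem_sup_right (hl ▸ wedge_mem_Ch ⟨hcl.1, fun x hx y hy => ?_⟩)
        by_cases e : x = y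
        · exact Or.inl e
        · exact Or.inr (h (List.mem_toFinset.2 hx) (List.mem_toFinset.2 hy) e)
      · have hm : l.toFinset ∈ bad_Sc2 G G' hS 3 := mem_bad_Sc2.2 ⟨(isCl_toFinset hcl).1,
          (isCl_toFinset hcl).2, (List.toFinset_card_of_nodup hn).trans hl, h⟩
        have h3 : wedge l.toFinset.toList ∈ LinearMap.range ι :=
          ⟨Pi.single ⟨_, hm⟩ 1, by simp [ι]⟩
        refine Submodule.mem_sup_left ?_
        rcases wedge_perm (List.toFinset_toList hn).symm with e | e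
        · rw [e]; exact h3
        · rw [e]; exact neg_mem h3
    obtain ⟨_, ⟨c, rfl⟩, m, hm, rfl⟩ := Submodule.mem_sup.1 (h1 ht)
    exact ⟨c, by rwa [add_sub_cancel_left]⟩
  have hΦ : ∀ t c, t - ι c ∈ Ch G' S 3 → (Ψ ∘ₗ bd ∘ₗ ι) c = Ψ (bd t) := fun t c h => by
    have := hΨ _ (bd_mem_Ch h)
    rw [map_sub, map_sub, sub_eq_zero] at this
    exact this.symm
  have hsurj : Function.Surjective (Ψ ∘ₗ bd ∘ₗ ι) := by
    rw [← LinearMap.range_eq_top, eq_top_iff, ← (Pi.basisFun ℚ _).span_eq, Submodule.span_le]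
    rintro _ ⟨e, rfl⟩
    obtain ⟨e1, e2, e3, -⟩ := mem_bad_Sc2.1 e.2
    have hcl := isCl_toList e1 e2
    have hw := wedge_mem_Ch hcl
    rw [Finset.length_toList, e3] at hw
    obtain ⟨u, w, huw⟩ := List.length_eq_two.1 ((Finset.length_toList e.1).trans e3)
    obtain ⟨t', ht', h1⟩ := mem_Bd.1 (hc w (hcl.1 w (by simp [huw])) u (hcl.1 u (by simp [huw])))
    obtain ⟨t, ht, h3⟩ := mem_Bd.1 (hZ 2 (by norm_num) (mem_Zy.2 ⟨sub_mem hw (Ch_le_Sc2 hG _ ht'), by
      rw [map_sub, h1, huw]; simp [bd_vx_mul]⟩))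
    obtain ⟨c, hc⟩ := hdec t ht
    refine ⟨c, ?_⟩
    rw [hΦ t c hc, h3, map_sub, hΨ t' ht', sub_zero, Pi.basisFun_apply]
    funext e'
    by_cases h : e' = e
    · subst h
      rw [Pi.single_eq_same]
      exact hφ1 e'
    · rw [Pi.single_eq_of_ne h]
      exact hφ2 e' _ fun h' => h (Subtype.ext (by simpa using h'.symm))
  have hinj : Function.Injective (Ψ ∘ₗ bd ∘ₗ ι) := by
    refine (LinearMap.injective_iff_surjective_of_finrank_eq_finrank (le_antisymm ?_
      (LinearMap.finrank_le_finrank_of_surjective hsurj))).2 hsurj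
    simpa using count_Sc2 hS hL h2
  obtain ⟨c, hc⟩ := hdec ζ (mem_Zy.1 hζ).1
  have hc0 : c = 0 := hinj (by rw [hΦ ζ c hc, (mem_Zy.1 hζ).2, map_zero, map_zero])
  rw [hc0, map_zero, sub_zero] at hc
  intro u hu w hw huw
  have hl : HS G (Lk G S {u}) 2 := by
    simpa using (hL {u} (Finset.singleton_nonempty u) (by simpa using hu) (by simp)).2
  obtain ⟨-, ξ, -, -, h3, h4⟩ := hl
  obtain ⟨r, hr⟩ := h3 _ (iv_mem_Zy u hζ)
  by_contra hn
  have h5 : iv w (iv u ζ) = 0 :=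
    iv_eq_zero (fun h => hn (h.2 u rfl)) (iv_mem_Ch (G := G') u hc)
  rw [hr, map_smul, smul_eq_zero] at h5
  rcases h5 with h5 | h5
  · exact hζ2 u hu (by rw [hr, h5, zero_smul])
  · exact h4 w ⟨hw, fun x hx => Set.mem_singleton_iff.1 hx ▸ huw⟩ h5

/-- The edges on which the gauge transform of the generators is trivial. -/
def good_Sc2 (G : SimpleGraph V) (S : Set V) (p : V → Gp G S) : SimpleGraph V where
  Adj u w := G.Adj u w ∧ p u * gen G S u w = p w ∧ p w * gen G S w u = p u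
  symm := ⟨fun _ _ h => ⟨h.1.symm, h.2.2, h.2.1⟩⟩
  loopless := ⟨fun _ h => G.irrefl h.1⟩

theorem good_adj_Sc2 {p : V → Gp G S} {u w : V} (hu : u ∈ S) (hw : w ∈ S) (h : G.Adj u w)
    (hp : p u * gen G S u w = p w) : (good_Sc2 G S p).Adj u w :=
  ⟨h, hp, by rw [← hp, (flat_gen G S).symm hu hw (Or.inr h), mul_inv_cancel_right]⟩

theorem tree_Sc2 (hS : S.Finite) (hc : PConn G S) {y : V} (hy : y ∈ S) :
    ∃ p : V → Gp G S, ∀ v ∈ S, vx y - vx v ∈ Bd (good_Sc2 G S p) S 1 := by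
  obtain ⟨T, hT, hmax⟩ := Finset.exists_max_image (hS.toFinset.powerset.filter
    fun T : Finset V => y ∈ T ∧
    ∃ p : V → Gp G S, ∀ v ∈ T, vx y - vx v ∈ Bd (good_Sc2 G S p) T 1) Finset.card
    ⟨{y}, by simpa using hy⟩
  simp only [Finset.mem_filter, Finset.mem_powerset, Set.Finite.subset_toFinset] at hT hmax
  obtain ⟨hTS, hyT, p, hp⟩ := hT
  have key : ∀ u ∈ S, ∀ w ∈ T, G.Adj u w → u ∈ T := by
    intro u hu w hw huw
    by_contra hn
    have h1 := hmax (insert u T) ⟨by rw [Finset.coe_insert]; exact Set.insert_subset hu hTS,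
      Finset.mem_insert_of_mem hyT, Function.update p u (p w * gen G S w u), ?_⟩
    · rw [Finset.card_insert_of_notMem hn] at h1
      omega
    have hne : ∀ a ∈ T, Function.update p u (p w * gen G S w u) a = p a := fun a ha =>
      Function.update_of_ne (fun e : a = u => hn (e ▸ ha)) _ _
    have h2 : ∀ v ∈ T, vx y - vx v ∈ Bd (good_Sc2 G S (Function.update p u (p w * gen G S w u)))
        (insert u T : Finset V) 1 := fun v hv => by
      simpa using emap_mem_Bd (f := id) (S := (insert u T : Finset V)) (G' := good_Sc2 G S p)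
        (S' := T)
        (G := good_Sc2 G S (Function.update p u (p w * gen G S w u)))
        ⟨fun a ha => Finset.mem_insert_of_mem ha, fun a ha b hb h => Or.inr
          ⟨h.1, by simpa only [id, hne a ha, hne b hb] using h.2⟩⟩ (hp v hv)
    intro v hv
    rcases Finset.mem_insert.1 hv with rfl | hv
    · have h3 := Path.vx_sub_mem_Bd (Path.single
        (G := good_Sc2 G S (Function.update p v (p w * gen G S w v)))
        (A := (insert v T : Finset V)) (Finset.mem_insert_of_mem hw) (Finset.mem_insert_self v T)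
        (Or.inr (good_adj_Sc2 (hTS hw) hu huw.symm (by rw [hne w hw, Function.update_self]))))
      simpa using add_mem (h2 w hw) h3
    · exact h2 v hv
  have hall : ∀ a b γ, Path G S a b γ → b ∈ T → a ∈ T := by
    intro a b γ h
    induction h with
    | nil _ => exact id
    | cons hu huw _ ih =>
      intro hb
      rcases huw with rfl | huw
      · exact ih hb
      · exact key _ hu _ (ih hb) huw
  refine ⟨p, fun v hv => ?_⟩
  obtain ⟨γ, hγ⟩ := hc.2 v hv y hy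
  exact Bd_mono hTS 1 (hp v (hall _ _ _ hγ hyT))

theorem sc2 : Sc2Stmt := by
  intro V G S hS hH hL
  have hne : S.Nonempty := by
    obtain ⟨-, ζ, hζ, h0, -⟩ := hH
    by_contra hc
    exact h0 (eq_zero_of_iv (mem_Zy.1 hζ).1 fun v hv => absurd ⟨v, hv⟩ hc)
  have hc : PConn G S := pconn_of_Zy_one hne (hH.1 1 (by norm_num))
  obtain ⟨y, hy⟩ := hne
  obtain ⟨p, hp⟩ := tree_Sc2 hS hc hy
  have key := core_Sc2 (G' := good_Sc2 G S p) hS hH hL (fun _ _ h => h.1)
    (fun u hu w hw x hx h1 h2 h3 => good_adj_Sc2 hu hw h1 (by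
      rw [← flat_gen G S u hu x hx w hw (Or.inr h2.1) (Or.inr h3.1) (Or.inr h1), ← mul_assoc,
        h2.2.1, h3.2.1]))
    (fun u hu w hw => by simpa using sub_mem (hp w hw) (hp u hu))
  refine ⟨hc, fun a γ hγ => ?_⟩
  simpa using hγ.gauge' (ρ := MonoidHom.id _) (σ := 1) (k := fun v => (p v)⁻¹)
    fun u hu w hw huw => by
      rcases huw with rfl | huw
      · simpa using (flat_gen G S).self hu
      · simp [← (key u hu w hw huw).2.1]

end Pool.Agent.MP_6374aa_gt
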