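import Pool.Agent.MP_6374aa_gt.IfD

/-! The tower of iterated barycentric subdivisions. -/

namespace Pool.Agent.MP_6374aa_gt

open Classical

set_option linter.unusedSectionVars false

noncomputable section

theorem avg_Sd {W : Type} (σ τ : Finset W) (hσ : σ.Nonempty) (hστ : σ ⊆ τ) (h4 : τ.card ≤ 4)
    (f : W → ℝ) (r : ℝ) (hf : ∀ w ∈ τ, ∀ w' ∈ τ, |f w - f w'| ≤ r) :
    |(∑ w ∈ σ, f w) / σ.card - (∑ w ∈ τ, f w) / τ.card| ≤ 3 / 4 * r := by
  obtain ⟨w0, hw0⟩ := hσ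
  have hr : 0 ≤ r := by simpa using hf w0 (hστ hw0) w0 (hστ hw0)
  have hs : (0 : ℝ) < σ.card := by exact_mod_cast Finset.card_pos.2 ⟨w0, hw0⟩
  have ht' : 0 < τ.card := Finset.card_pos.2 ⟨w0, hστ hw0⟩
  have ht : (0 : ℝ) < τ.card := by exact_mod_cast ht'
  have ht4 : (τ.card : ℝ) ≤ 4 := by exact_mod_cast h4
  have h1 : ∀ w ∈ τ, |f w - (∑ u ∈ τ, f u) / τ.card| ≤ 3 / 4 * r := fun w hw => by
    have e : f w - (∑ u ∈ τ, f u) / τ.card = (∑ u ∈ τ.erase w, (f w - f u)) / τ.card := by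
      rw [Finset.sum_erase (f := fun u => f w - f u) τ (sub_self _), Finset.sum_sub_distrib,
        Finset.sum_const, nsmul_eq_mul]
      field_simp
    rw [e, abs_div, abs_of_pos ht, div_le_iff₀ ht]
    calc |∑ u ∈ τ.erase w, (f w - f u)| ≤ ∑ u ∈ τ.erase w, |f w - f u| :=
          Finset.abs_sum_le_sum_abs _ _
      _ ≤ (τ.erase w).card • r :=
          Finset.sum_le_card_nsmul _ _ _ fun u hu => hf w hw u (Finset.mem_of_mem_erase hu)
      _ = (τ.card - 1) * r := by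
          rw [Finset.card_erase_of_mem hw, nsmul_eq_mul, Nat.cast_sub ht', Nat.cast_one]
      _ ≤ 3 / 4 * r * τ.card := by nlinarith
  have e : (∑ w ∈ σ, f w) / σ.card - (∑ w ∈ τ, f w) / τ.card =
      (∑ w ∈ σ, (f w - (∑ u ∈ τ, f u) / τ.card)) / σ.card := by
    rw [Finset.sum_sub_distrib, Finset.sum_const, nsmul_eq_mul]
    field_simp
  rw [e, abs_div, abs_of_pos hs, div_le_iff₀ hs]
  calc |∑ w ∈ σ, (f w - (∑ u ∈ τ, f u) / τ.card)|
      ≤ ∑ w ∈ σ, |f w - (∑ u ∈ τ, f u) / τ.card| := Finset.abs_sum_le_sum_abs _ _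
    _ ≤ σ.card • (3 / 4 * r) := Finset.sum_le_card_nsmul _ _ _ fun u hu => h1 u (hστ hu)
    _ = 3 / 4 * r * σ.card := by rw [nsmul_eq_mul, mul_comm]

theorem max_ne_Sd {W : Type} [Fintype W] {H : SimpleGraph W} {B : Set W} (y : Rl H B) {w : W}
    (h : ∀ u, y.1 u ≤ y.1 w) : y.1 w ≠ 0 := fun h0 => by
  have h1 : ∑ u, y.1 u ≤ 0 := Finset.sum_nonpos fun u _ => h0 ▸ h u
  rw [y.2.2.1] at h1
  exact absurd h1 (by norm_num)

theorem mid_Sd {W : Type} [Fintype W] {H : SimpleGraph W} {B : Set W} {v w : W} (hv : v ∈ B)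
    (hw : w ∈ B) (h : Adq H v w) :
    ∃ y : Rl H B, (∀ u, y.1 u ≤ y.1 v) ∧ ∀ u, y.1 u ≤ y.1 w := by
  have key : ∀ u, ((if u = v then 1 else 0) + (if u = w then 1 else 0)) / 2 ≠ (0 : ℝ) →
      u = v ∨ u = w := fun u hu => by
    by_contra hc
    rw [not_or] at hc
    simp [hc.1, hc.2] at hu
  refine ⟨⟨fun u => ((if u = v then 1 else 0) + (if u = w then 1 else 0)) / 2, fun u => ?_, ?_,
    fun u hu => ?_, fun u u' hu hu' => ?_⟩, fun u => ?_, fun u => ?_⟩
  · positivity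
  · rw [← Finset.sum_div, Finset.sum_add_distrib]
    simp
  · rcases key u hu with rfl | rfl <;> assumption
  · rcases key u hu with rfl | rfl <;> rcases key u' hu' with rfl | rfl
    · exact Adq.refl _ _
    · exact h
    · exact h.symm
    · exact Adq.refl _ _
  · dsimp only
    split_ifs <;> simp_all
  · dsimp only
    split_ifs <;> simp_all

variable {C : Type} [CommGroup C] [Fintype C] {V : Type} [Fintype V] {G : SimpleGraph V}
  {A : Set V}

/-- A subdivision of the realisation. -/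
structure St_Sd (β : C →* Equiv.Perm (Rl G A)) where
  W : Type
  [fin : Fintype W]
  H : SimpleGraph W
  B : Set W
  a : C →* Equiv.Perm W
  free : FreeAct H B a
  fin3 : Fin3 H B
  ne : B.Nonempty
  h : Rl H B ≃ₜ Rl G A
  pt : W → V → ℝ
  r : ℝ
  hpt : ∀ y v, (h y).1 v = ∑ w, y.1 w * pt w v
  eqv : ∀ g y y', (∀ w, y'.1 (a g w) = y.1 w) → h y' = β g (h y)
  small : ∀ w ∈ B, ∀ w' ∈ B, Adq H w w' → ∀ v, |pt w v - pt w' v| ≤ r

attribute [instance] St_Sd.fin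

namespace St_Sd

variable {β : C →* Equiv.Perm (Rl G A)} (s : St_Sd β)

/-- The level. -/
def lev : Lev C := ⟨s.W, s.H, s.B, s.a⟩

/-- The dual cells. -/
def K (w : s.W) : Set (Rl G A) := {x | ∀ u, (s.h.symm x).1 u ≤ (s.h.symm x).1 w}

/-- The open stars. -/
def O (w : s.W) : Set (Rl G A) := {x | (s.h.symm x).1 w ≠ 0}

theorem isOpen_O (w : s.W) : IsOpen (s.O w) :=
  isOpen_ne_fun ((continuous_apply w).comp (continuous_subtype_val.comp s.h.symm.continuous))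
    continuous_const

theorem cover (x : Rl G A) : ∃ w ∈ s.B, x ∈ s.K w := by
  obtain ⟨w0, -⟩ := s.ne
  have : Nonempty s.W := ⟨w0⟩
  obtain ⟨w, hw⟩ := Finite.exists_max (s.h.symm x).1
  exact ⟨w, (s.h.symm x).2.2.2.1 w (max_ne_Sd _ hw), hw⟩

theorem KO (w : s.W) : s.K w ⊆ s.O w := fun _ hx => max_ne_Sd _ hx

theorem adq {v w : s.W} (h : (s.O v ∩ s.O w).Nonempty) : Adq s.H v w := by
  obtain ⟨x, h1, h2⟩ := h
  exact (s.h.symm x).2.2.2.2 v w h1 h2

theorem meet {v w : s.W} (hv : v ∈ s.B) (hw : w ∈ s.B) (h : Adq s.H v w) :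
    (s.K v ∩ s.K w).Nonempty := by
  obtain ⟨y, h1, h2⟩ := mid_Sd hv hw h
  refine ⟨s.h y, ?_, ?_⟩
  · simpa only [K, Set.mem_ofPred_eq, Homeomorph.symm_apply_apply] using h1
  · simpa only [K, Set.mem_ofPred_eq, Homeomorph.symm_apply_apply] using h2

theorem near {w : s.W} {x : Rl G A} (hx : x ∈ s.O w) (v : V) : |x.1 v - s.pt w v| ≤ s.r := by
  obtain ⟨y, rfl⟩ := s.h.surjective x
  have hy : y.1 w ≠ 0 := by
    simpa only [O, Set.mem_ofPred_eq, Homeomorph.symm_apply_apply] using hx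
  have e : (s.h y).1 v - s.pt w v = ∑ u, y.1 u * (s.pt u v - s.pt w v) := by
    simp only [mul_sub, Finset.sum_sub_distrib, ← Finset.sum_mul, y.2.2.1, one_mul, s.hpt]
  rw [e]
  calc |∑ u, y.1 u * (s.pt u v - s.pt w v)| ≤ ∑ u, |y.1 u * (s.pt u v - s.pt w v)| :=
        Finset.abs_sum_le_sum_abs _ _
    _ ≤ ∑ u, y.1 u * s.r := Finset.sum_le_sum fun u _ => by
        by_cases hu : y.1 u = 0
        · simp [hu]
        · rw [abs_mul, abs_of_nonneg (y.2.1 u)]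
          exact mul_le_mul_of_nonneg_left (s.small u (y.2.2.2.1 u hu) w (y.2.2.2.1 w hy)
            (y.2.2.2.2 u w hu hy) v) (y.2.1 u)
    _ = s.r := by rw [← Finset.sum_mul, y.2.2.1, one_mul]

theorem diam (hr : 0 ≤ s.r) {w : s.W} {x x' : Rl G A} (hx : x ∈ s.O w) (hx' : x' ∈ s.O w) :
    dist x x' ≤ 2 * s.r := by
  rw [Subtype.dist_eq, dist_pi_le_iff (by positivity)]
  intro v
  have h1 := abs_le.1 (s.near hx v)
  have h2 := abs_le.1 (s.near hx' v)
  rw [Real.dist_eq, abs_le]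
  constructor <;> linarith [h1.1, h1.2, h2.1, h2.2]

theorem symm_act (hB : RlBasicStmt) (g : C) (x : Rl G A) (w : s.W) :
    (s.h.symm (β g x)).1 (s.a g w) = (s.h.symm x).1 w := by
  obtain ⟨γ, hγ⟩ := (hB s.W s.H s.B).2 C s.a s.free.toAct
  have := s.eqv g (s.h.symm x) (γ g (s.h.symm x)) (hγ g _)
  rw [Homeomorph.apply_symm_apply] at this
  rw [← this, Homeomorph.symm_apply_apply, hγ]

theorem eK (hB : RlBasicStmt) (g : C) (w : s.W) : s.K (s.a g w) = β g '' s.K w := by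
  ext x
  obtain ⟨x, rfl⟩ := (β g).surjective x
  rw [(β g).injective.mem_set_image]
  simp only [K, Set.mem_ofPred_eq]
  rw [(s.a g).surjective.forall]
  simp only [s.symm_act hB]

theorem eO (hB : RlBasicStmt) (g : C) (w : s.W) : s.O (s.a g w) = β g '' s.O w := by
  ext x
  obtain ⟨x, rfl⟩ := (β g).surjective x
  rw [(β g).injective.mem_set_image]
  simp only [O, Set.mem_ofPred_eq, s.symm_act hB]

theorem step (hC : SdCombStmt) (hH : SdHomeoStmt) :
    ∃ (s' : St_Sd β) (c : s'.W → s.W), s'.r = 3 / 4 * s.r ∧ CL s'.H s'.B s.H s.B c ∧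
      Eqv s'.B s'.a s.a c ∧ ∀ w ∈ s'.B, s'.O w ⊆ s.O (c w) := by
  obtain ⟨w0, hw0⟩ := s.ne
  have : Nonempty s.W := ⟨w0⟩
  obtain ⟨ch, hch⟩ := s.free.exists_choice
  obtain ⟨h1, h2, h3⟩ := hC C s.W s.H s.B s.a
  obtain ⟨k, hk⟩ := hH s.W s.H s.B
  have hsub : ∀ σ ∈ sdA s.H s.B, ∀ τ ∈ sdA s.H s.B, σ ⊆ τ → ∀ v,
      |(∑ w ∈ σ, s.pt w v) / σ.card - (∑ w ∈ τ, s.pt w v) / τ.card| ≤ 3 / 4 * s.r :=
    fun σ hσ τ hτ hστ v => avg_Sd σ τ hσ.1 hστ (s.fin3.2 τ hτ.2.1 hτ.2.2) _ _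
      fun w hw w' hw' => s.small w (hτ.2.1 hw) w' (hτ.2.1 hw') (by
        by_cases e : w = w'
        · exact Or.inl e
        · exact Or.inr (hτ.2.2 hw hw' e)) v
  refine ⟨⟨Finset s.W, sdG s.W, sdA s.H s.B, sdα s.a, h1 s.free, h2 s.fin3,
    ⟨{w0}, by simp, by simpa using hw0, by simp⟩, k.trans s.h,
    fun σ v => (∑ w ∈ σ, s.pt w v) / σ.card, 3 / 4 * s.r, fun y v => ?_, fun g y y' hy => ?_,
    fun σ hσ τ hτ hστ v => ?_⟩, ch, rfl, h3 ch fun σ hσ => (hch σ hσ.1 hσ.2.1 hσ.2.2).1,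
    fun g σ hσ => (hch σ hσ.1 hσ.2.1 hσ.2.2).2 g, fun σ hσ x hx => ?_⟩
  · rw [Homeomorph.trans_apply, s.hpt]
    simp only [hk, Finset.sum_mul]
    rw [Finset.sum_comm]
    refine Finset.sum_congr rfl fun σ _ => ?_
    simp only [mul_assoc, ← Finset.mul_sum, ite_mul, zero_mul, Finset.sum_ite_mem,
      Finset.univ_inter]
    rw [div_eq_inv_mul]
  · refine s.eqv g (k y) (k y') fun w => ?_
    rw [hk, hk, ← Equiv.sum_comp (sdα s.a g)]
    refine Finset.sum_congr rfl fun σ _ => ?_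
    rw [hy]
    simp [sdα]
  · rcases hστ with rfl | h | h
    · exact hsub σ hσ σ hσ subset_rfl v
    · exact hsub σ hσ τ hτ h.subset v
    · rw [abs_sub_comm]
      exact hsub τ hτ σ hσ h.subset v
  · have hx' : (k.symm (s.h.symm x)).1 σ ≠ 0 := hx
    have hy := (k.symm (s.h.symm x)).2.1
    have e := hk (k.symm (s.h.symm x)) (ch σ)
    rw [Homeomorph.apply_symm_apply] at e
    show (s.h.symm x).1 (ch σ) ≠ 0
    rw [e]
    refine (Finset.sum_pos' (fun τ _ => mul_nonneg (hy τ) (by positivity))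
      ⟨σ, Finset.mem_univ _, ?_⟩).ne'
    rw [if_pos (hch σ hσ.1 hσ.2.1 hσ.2.2).1]
    have : (0 : ℝ) < σ.card := by exact_mod_cast Finset.card_pos.2 hσ.1
    exact mul_pos (lt_of_le_of_ne (hy σ) hx'.symm) (inv_pos.2 this)

end St_Sd

theorem cons_Sd {β : C →* Equiv.Perm (Rl G A)} (L0 : Lev C) (L M : ℕ → Lev C)
    (e : Lev.cons L0 L = M) (P : ∀ L' L : Lev C, (L'.V → L.V) → Prop) (O0 : L0.V → Set (Rl G A))
    (h : ∃ (c : ∀ n, (M (n + 1)).V → (M n).V) (K O : ∀ n, (M n).V → Set (Rl G A)),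
      IsTower β M c K O O ∧ HEq (O 0) O0 ∧ ∀ n, P (M (n + 1)) (M n) (c n)) :
    ∃ (c : ∀ n, (Lev.cons L0 L (n + 1)).V → (Lev.cons L0 L n).V)
      (K O : ∀ n, (Lev.cons L0 L n).V → Set (Rl G A)),
      IsTower β (Lev.cons L0 L) c K O O ∧ HEq (O 0) O0 ∧
        ∀ n, P (Lev.cons L0 L (n + 1)) (Lev.cons L0 L n) (c n) := by
  subst e
  exact h

end

theorem sdS (hB : RlBasicStmt) (hC : SdCombStmt) (hH : SdHomeoStmt) : SdStmt := by
  classical
  intro C _ _ V _ G A α β hα h3 hA hβ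
  choose nx cc hr hcl hev hnest using fun s : St_Sd β => s.step hC hH
  let s0 : St_Sd β := ⟨V, G, A, α, hα, h3, hA, Homeomorph.refl _,
    fun w v => if w = v then 1 else 0, 1, fun y v => by simp, fun g y y' hy => by
      refine Subtype.ext (funext fun v => ?_)
      obtain ⟨v, rfl⟩ := (α g).surjective v
      exact (hy v).trans (hβ g y v).symm,
    fun w _ w' _ _ v => by split_ifs <;> simp⟩
  let s : ℕ → St_Sd β := fun n => Nat.rec s0 (fun _ t => nx t) n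
  have hs : ∀ n, (s n).r = (3 / 4) ^ n := fun n => by
    induction n with
    | zero => exact (pow_zero _).symm
    | succ n ih => rw [pow_succ', ← ih]; exact hr (s n)
  obtain ⟨c, K, O, h1, h2, h4⟩ := cons_Sd (β := β) ⟨V, G, A, α⟩ (fun n => (s (n + 1)).lev)
    (fun n => (s n).lev) (funext fun n => by cases n <;> rfl)
    (fun L' L c => Fin3 L'.G L'.A ∧ CL L'.G L'.A L.G L.A c) (fun v : V => {x | x.1 v ≠ 0})
    ⟨fun n => cc (s n), fun n => (s n).K, fun n => (s n).O,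
      ⟨fun n => (s n).free, fun n => (hcl (s n)).1, fun n => hev (s n),
        fun n v _ => (s n).isOpen_O v, fun n => (s n).cover, fun n v _ => (s n).KO v,
        fun _ _ _ => subset_rfl, fun n => hnest (s n), fun n _ _ _ _ => (s n).adq,
        fun n _ hv _ hw => (s n).meet hv hw, fun U hU hU' => by
          have := (hB V G A).1
          obtain ⟨δ, hδ, hd⟩ := lebesgue_number_lemma_of_metric_sUnion (s := Set.univ)
            isCompact_univ hU fun x _ => hU' x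
          obtain ⟨N, hN⟩ := exists_pow_lt_of_lt_one (half_pos hδ) (by norm_num : (3 / 4 : ℝ) < 1)
          refine ⟨N, fun n hn v hv => ?_⟩
          obtain ⟨x, hx, -⟩ := (s n).meet hv hv (Adq.refl _ _)
          obtain ⟨u, hu, hu'⟩ := hd x trivial
          refine ⟨u, hu, fun x' hx' => hu' ?_⟩
          have h5 := (s n).diam (by rw [hs]; positivity) ((s n).KO v hx') ((s n).KO v hx)
          have h6 : (3 / 4 : ℝ) ^ n ≤ (3 / 4) ^ N :=
            pow_le_pow_of_le_one (by norm_num) (by norm_num) hn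
          rw [hs] at h5
          rw [Metric.mem_ball]
          linarith,
        fun n g v _ => (s n).eK hB g v, fun n g v _ => (s n).eO hB g v⟩,
      HEq.rfl, fun n => ⟨(s (n + 1)).fin3, hcl (s n)⟩⟩
  exact ⟨_, c, K, O, O, h1, congrFun (eq_of_heq h2), h4⟩

end Pool.Agent.MP_6374aa_gt
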