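import Pool.Agent.MP_6374aa_gt.IfD

/-! Basic facts on realisations and on the barycentric subdivision. -/

namespace Pool.Agent.MP_6374aa_gt

open Classical

theorem rlBasic : RlBasicStmt := by
  intro V _ G A
  refine ⟨isCompact_iff_compactSpace.1 ?_, fun C _ α h => ?_⟩
  · have e : Rl G A = stdSimplex ℝ V ∩ ((⋂ v, {x | x v ≠ 0 → v ∈ A}) ∩
        ⋂ u, ⋂ v, {x | x u ≠ 0 → x v ≠ 0 → Adq G u v}) := by
      ext x
      simp only [Rl, stdSimplex, Set.mem_ofPred_eq, Set.mem_inter_iff, Set.mem_iInter, and_assoc]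
    have o : ∀ v, IsOpen {x : V → ℝ | x v ≠ 0} := fun v =>
      isOpen_ne_fun (continuous_apply v) continuous_const
    rw [e]
    refine (isCompact_stdSimplex ℝ V).inter_right ((isClosed_iInter fun v => ?_).inter
      (isClosed_iInter fun u => isClosed_iInter fun v => ?_))
    · exact isClosed_imp (o v) isClosed_const
    · exact isClosed_imp (o u) (isClosed_imp (o v) isClosed_const)
  · have c : ∀ g v, α g (α g⁻¹ v) = v := fun g v => by
      rw [← Equiv.Perm.mul_apply, ← map_mul, mul_inv_cancel, map_one, Equiv.Perm.one_apply]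
    have m : ∀ (g : C) (x : Rl G A), (fun v => x.1 (α g⁻¹ v)) ∈ Rl G A := by
      rintro g ⟨x, h1, h2, h3, h4⟩
      refine ⟨fun v => h1 _, (Equiv.sum_comp (α g⁻¹) x).trans h2, fun v hv => ?_, fun u v hu hv => ?_⟩
      · rw [← c g v]
        exact h.mem g _ (h3 _ hv)
      · rw [← c g u, ← c g v]
        exact (h4 _ _ hu hv).imp (congrArg _) (h.adj g _ (h3 _ hu) _ (h3 _ hv))
    let b : C →* Function.End (Rl G A) :=
      { toFun := fun g x => ⟨_, m g x⟩
        map_one' := funext fun x => Subtype.ext (funext fun v => by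
          change x.1 (α 1⁻¹ v) = x.1 v
          rw [inv_one, map_one, Equiv.Perm.one_apply])
        map_mul' := fun g g' => funext fun x => Subtype.ext (funext fun v => by
          change x.1 (α (g * g')⁻¹ v) = x.1 (α g'⁻¹ (α g⁻¹ v))
          rw [mul_inv_rev, map_mul, Equiv.Perm.mul_apply]) }
    refine ⟨b.toHomPerm, fun g x v => ?_⟩
    change x.1 (α g⁻¹ (α g v)) = x.1 v
    have := c g⁻¹ v
    rw [inv_inv] at this
    rw [this]

variable {V : Type}

theorem adq_SdComb {a b : Finset V} : Adq (sdG V) a b ↔ a ⊆ b ∨ b ⊆ a := by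
  constructor
  · rintro (rfl | h | h)
    exacts [Or.inl le_rfl, Or.inl h.1, Or.inr h.1]
  · rintro (h | h)
    · exact h.eq_or_lt.imp id Or.inl
    · exact h.eq_or_lt.imp Eq.symm Or.inr

theorem chain_SdComb {s : Finset (Finset V)} (h : (sdG V).IsClique (s : Set (Finset V)))
    {a b : Finset V} (ha : a ∈ s) (hb : b ∈ s) (e : a.card = b.card) : a = b := by
  by_contra n
  rcases h ha hb n with h | h
  · exact (Finset.card_lt_card h).ne e
  · exact (Finset.card_lt_card h).ne e.symm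

/-- The maps of the contraction of a fibre. -/
noncomputable def cut_SdComb (τ : Finset V) (i : ℕ) (σ : Finset V) : Finset V :=
  if τ.card < i then τ else if (σ ∩ τ).card ≤ i then σ ∩ τ else σ

theorem cut_SdComb_le (τ : Finset V) {i j : ℕ} (h1 : i ≤ j) (h2 : j ≤ i + 1) {a b : Finset V}
    (h : a ⊆ b ∨ b ⊆ a) :
    cut_SdComb τ i a ⊆ cut_SdComb τ j b ∨ cut_SdComb τ j b ⊆ cut_SdComb τ i a := by
  have ha := Finset.card_le_card (Finset.inter_subset_right : a ∩ τ ⊆ τ)
  have m : ∀ {a b : Finset V}, a ⊆ b → a ∩ τ ⊆ b ∩ τ := fun h =>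
    Finset.inter_subset_inter_right h
  unfold cut_SdComb
  by_cases c1 : τ.card < i
  · rw [if_pos c1, if_pos (by omega)]
    exact Or.inl le_rfl
  rw [if_neg c1]
  by_cases c2 : τ.card < j
  · rw [if_pos c2, if_pos (by omega)]
    exact Or.inl Finset.inter_subset_right
  rw [if_neg c2]
  rcases h with h | h
  · have hc := Finset.card_le_card (m h)
    split_ifs with c3 c4 c4
    · exact Or.inl (m h)
    · exact Or.inl (Finset.inter_subset_left.trans h)
    · rw [← Finset.eq_of_subset_of_card_le (m h) (by omega)]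
      exact Or.inr Finset.inter_subset_left
    · exact Or.inl h
  · have hc := Finset.card_le_card (m h)
    split_ifs with c3 c4 c4
    · exact Or.inr (m h)
    · omega
    · exact Or.inr (Finset.inter_subset_left.trans h)
    · exact Or.inr h

theorem sdComb : SdCombStmt := by
  intro C _ _ V G A α
  refine ⟨fun h => ⟨⟨?_, ?_⟩, ?_⟩, fun h => ⟨?_, ?_⟩, fun ch hch => ⟨⟨?_, ?_⟩, ?_⟩⟩
  · rintro g σ ⟨h1, h2, h3⟩
    change σ.map (α g).toEmbedding ∈ sdA G A
    refine ⟨h1.map, ?_, ?_⟩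
    · intro x hx
      obtain ⟨y, hy, rfl⟩ := Finset.mem_map.1 hx
      exact h.mem g y (h2 hy)
    · intro x hx x' hx' n
      obtain ⟨y, hy, rfl⟩ := Finset.mem_map.1 hx
      obtain ⟨y', hy', rfl⟩ := Finset.mem_map.1 hx'
      exact h.adj g y (h2 hy) y' (h2 hy') (h3 hy hy' fun e => n (congrArg _ e))
  · intro g a _ b _ hab
    exact hab.imp Finset.map_ssubset_map.2 Finset.map_ssubset_map.2
  · rintro g s ⟨σ, hσ⟩ h1 h2 h3
    have h4 : σ.map (α g).toEmbedding ∈ s := by
      rw [← h3]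
      exact Finset.mem_map.2 ⟨σ, hσ, rfl⟩
    obtain ⟨h5, h6, h7⟩ := h1 hσ
    exact h.free g σ h5 h6 h7 (chain_SdComb h2 h4 hσ (Finset.card_map _))
  · refine (h.1.toFinset.powerset.finite_toSet).subset fun σ hσ => ?_
    exact Finset.mem_coe.2 (Finset.mem_powerset.2 fun x hx => h.1.mem_toFinset.2 (hσ.2.1 hx))
  · intro s h1 h2
    refine (Finset.card_le_card_of_injOn (t := Finset.Icc 1 4) Finset.card (fun σ hσ => ?_)
      fun a ha b hb e => chain_SdComb h2 ha hb e).trans (by simp)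
    obtain ⟨h5, h6, h7⟩ := h1 hσ
    exact Finset.mem_coe.2 (Finset.mem_Icc.2 ⟨h5.card_pos, h.2 σ h6 h7⟩)
  · exact fun σ hσ => hσ.2.1 (hch σ hσ)
  · have k : ∀ σ ∈ sdA G A, ∀ x ∈ σ, ∀ y ∈ σ, Adq G x y := fun σ hσ x hx y hy =>
      (eq_or_ne x y).imp id (hσ.2.2 hx hy)
    rintro a ha b hb (h | h)
    · exact k b hb _ (h.1 (hch a ha)) _ (hch b hb)
    · exact k a ha _ (hch a ha) _ (h.1 (hch b hb))
  · intro τ t1 t2 t3
    have hτ : τ ∈ sdA G A ∩ ch ⁻¹' τ := ⟨⟨t1, t2, t3⟩, hch τ ⟨t1, t2, t3⟩⟩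
    have n : ∀ σ ∈ sdA G A ∩ ch ⁻¹' τ, (σ ∩ τ).Nonempty := fun σ hσ =>
      ⟨ch σ, Finset.mem_inter.2 ⟨hch σ hσ.1, hσ.2⟩⟩
    refine ⟨τ.card + 1, cut_SdComb τ, τ, hτ, fun σ hσ => ?_, fun σ _ => if_pos (Nat.lt_succ_self _),
      fun i => ⟨fun σ hσ => ?_, fun a _ b _ h => adq_SdComb.2 (cut_SdComb_le τ le_rfl
        (Nat.le_succ i) (adq_SdComb.1 (Or.inr h)))⟩, fun i a _ b _ h =>
      adq_SdComb.2 (cut_SdComb_le τ (Nat.le_succ i) le_rfl (adq_SdComb.1 h))⟩
    · have := (n σ hσ).card_pos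
      unfold cut_SdComb
      rw [if_neg (Nat.not_lt_zero _), if_neg (by omega)]
    · unfold cut_SdComb
      split_ifs
      · exact hτ
      · have : σ ∩ τ ∈ sdA G A := ⟨n σ hσ, fun x hx => t2 (Finset.mem_inter.1 hx).2,
          t3.subset fun x hx => (Finset.mem_inter.1 hx).2⟩
        exact ⟨this, (Finset.mem_inter.1 (hch _ this)).2⟩
      · exact hσ

end Pool.Agent.MP_6374aa_gt
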