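import Pool.Agent.MP_6374aa_gt.IfD

/-! The realisation of the barycentric subdivision. -/

namespace Pool.Agent.MP_6374aa_gt

open Classical Finset

variable {V : Type} [Fintype V]

/-- The barycentric map. -/
noncomputable def bar_SdHomeo (y : Finset V → ℝ) (v : V) : ℝ :=
  ∑ σ : Finset V, y σ * (if v ∈ σ then ((σ.card : ℝ))⁻¹ else 0)

/-- Nonnegative functions supported on a chain of nonempty sets. -/
def Chn_SdHomeo (y : Finset V → ℝ) : Prop :=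
  (∀ σ, 0 ≤ y σ) ∧ y ∅ = 0 ∧ ∀ σ τ, y σ ≠ 0 → y τ ≠ 0 → σ ⊆ τ ∨ τ ⊆ σ

theorem sum_SdHomeo {y : Finset V → ℝ} (h : y ∅ = 0) : ∑ v, bar_SdHomeo y v = ∑ σ, y σ := by
  simp only [bar_SdHomeo]
  rw [sum_comm]
  refine sum_congr rfl fun σ _ => ?_
  rcases σ.eq_empty_or_nonempty with rfl | hσ
  · simp [h]
  · have : (σ.card : ℝ) ≠ 0 := by exact_mod_cast hσ.card_pos.ne'
    rw [← mul_sum, sum_ite_mem, univ_inter, sum_const, nsmul_eq_mul, mul_inv_cancel₀ this, mul_one]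

theorem supp_SdHomeo {y : Finset V → ℝ} {v : V} (h : bar_SdHomeo y v ≠ 0) :
    ∃ σ, y σ ≠ 0 ∧ v ∈ σ := by
  obtain ⟨σ, -, h1⟩ := exists_ne_zero_of_sum_ne_zero h
  exact ⟨σ, left_ne_zero_of_mul h1, by
    by_contra h2
    exact right_ne_zero_of_mul h1 (if_neg h2)⟩

theorem lt_SdHomeo {y y' : Finset V → ℝ} (hy : Chn_SdHomeo y) (hy' : Chn_SdHomeo y') {σ : Finset V}
    (h1 : y' σ < y σ) (h2 : ∀ τ, σ.card < τ.card → y τ = y' τ) :
    ∃ v, bar_SdHomeo y' v < bar_SdHomeo y v := by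
  have h3 : σ.Nonempty := nonempty_iff_ne_empty.2 fun h => by
    rw [h, hy.2.1, hy'.2.1] at h1
    exact lt_irrefl _ h1
  obtain ⟨v, hv, h4⟩ : ∃ v ∈ σ, ∀ τ, y' τ ≠ 0 → τ.card ≤ σ.card → τ ≠ σ → v ∉ τ := by
    rcases (univ.filter fun τ => y' τ ≠ 0 ∧ τ.card ≤ σ.card ∧ τ ≠ σ).eq_empty_or_nonempty with h | h
    · obtain ⟨v, hv⟩ := h3
      exact ⟨v, hv, fun τ a b c => absurd ⟨a, b, c⟩ (filter_eq_empty_iff.1 h (mem_univ τ))⟩
    obtain ⟨ω, h5, h6⟩ := exists_max_image _ Finset.card h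
    obtain ⟨-, a, b, c⟩ := mem_filter.1 h5
    obtain ⟨v, hv, hv'⟩ := not_subset.1 fun h7 : σ ⊆ ω => c (eq_of_subset_of_card_le h7 b).symm
    refine ⟨v, hv, fun τ a' b' c' h7 => hv' ?_⟩
    rcases hy'.2.2 τ ω a' a with h8 | h8
    · exact h8 h7
    · rwa [eq_of_subset_of_card_le h8 (h6 τ (mem_filter.2 ⟨mem_univ _, a', b', c'⟩))]
  refine ⟨v, sum_lt_sum (fun τ _ => ?_) ⟨σ, mem_univ _, ?_⟩⟩
  · split_ifs with h5
    · refine mul_le_mul_of_nonneg_right ?_ (by positivity)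
      rcases lt_or_ge σ.card τ.card with h6 | h6
      · exact (h2 τ h6).ge
      · by_cases h7 : τ = σ
        · rw [h7]; exact h1.le
        · rw [not_not.1 fun h8 => h4 τ h8 h6 h7 h5]; exact hy.1 τ
    · simp
  · rw [if_pos hv]
    exact mul_lt_mul_of_pos_right h1 (inv_pos.2 (by exact_mod_cast h3.card_pos))

theorem inj_SdHomeo {y y' : Finset V → ℝ} (hy : Chn_SdHomeo y) (hy' : Chn_SdHomeo y')
    (h : bar_SdHomeo y = bar_SdHomeo y') : y = y' := by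
  by_contra h1
  obtain ⟨σ, h2, h3⟩ := exists_max_image (univ.filter fun τ => y τ ≠ y' τ) Finset.card
    ((Function.ne_iff.1 h1).imp fun τ hτ => mem_filter.2 ⟨mem_univ _, hτ⟩)
  have h4 : ∀ τ, σ.card < τ.card → y τ = y' τ := fun τ hτ => by
    by_contra h5
    exact (h3 τ (mem_filter.2 ⟨mem_univ _, h5⟩)).not_gt hτ
  rcases lt_or_gt_of_ne (mem_filter.1 h2).2 with h5 | h5
  · obtain ⟨v, hv⟩ := lt_SdHomeo hy' hy h5 fun τ hτ => (h4 τ hτ).symm
    exact hv.ne (congrFun h v)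
  · obtain ⟨v, hv⟩ := lt_SdHomeo hy hy' h5 h4
    exact hv.ne' (congrFun h v)

theorem surj_SdHomeo (s : Finset V) : ∀ x : V → ℝ, (∀ v, 0 ≤ x v) → (∀ v ∉ s, x v = 0) →
    ∃ y, Chn_SdHomeo y ∧ (∀ σ, y σ ≠ 0 → σ ⊆ s) ∧ bar_SdHomeo y = x := by
  induction s using Finset.strongInduction with
  | H s ih =>
  intro x h1 h2
  rcases s.eq_empty_or_nonempty with rfl | hs
  · refine ⟨0, ⟨fun _ => le_rfl, rfl, fun _ _ h => absurd rfl h⟩, fun _ h => absurd rfl h, ?_⟩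
    funext v
    simp [bar_SdHomeo, h2 v]
  obtain ⟨a, ha, h3⟩ := exists_min_image s x hs
  obtain ⟨y, h4, h5, h6⟩ := ih (s.erase a) (erase_ssubset ha)
    (fun v => x v - if v ∈ s then x a else 0)
    (fun v => by
      split_ifs with h
      · exact sub_nonneg.2 (h3 v h)
      · simpa using h1 v)
    fun v hv => by
      by_cases h : v ∈ s
      · rw [if_pos h, not_not.1 fun h' => hv (mem_erase.2 ⟨h', h⟩), sub_self]
      · rw [if_neg h, h2 v h, sub_zero]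
  have h7 : ∀ σ, (y σ + if σ = s then x a * s.card else 0) ≠ 0 → σ = s ∨ y σ ≠ 0 := fun σ h => by
    by_contra h8
    rw [not_or, not_not] at h8
    exact h (by rw [if_neg h8.1, h8.2, add_zero])
  have h8 : ∀ σ, y σ ≠ 0 → σ ⊆ s := fun σ h => (h5 σ h).trans (erase_subset _ _)
  refine ⟨fun σ => y σ + if σ = s then x a * s.card else 0, ⟨fun σ => add_nonneg (h4.1 σ) ?_, ?_,
    fun σ τ hσ hτ => ?_⟩, fun σ h => (h7 σ h).elim Eq.subset (h8 σ), funext fun v => ?_⟩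
  · have := h1 a
    positivity
  · simp only [h4.2.1, if_neg hs.ne_empty.symm, add_zero]
  · rcases h7 σ hσ with rfl | h9
    · exact Or.inr ((h7 τ hτ).elim Eq.subset (h8 τ))
    · exact (h7 τ hτ).elim (fun h => Or.inl (h ▸ h8 σ h9)) (h4.2.2 σ τ h9)
  · have h9 := congrFun h6 v
    have h10 : (s.card : ℝ) ≠ 0 := by exact_mod_cast hs.card_pos.ne'
    simp only [bar_SdHomeo] at h9 ⊢
    simp only [add_mul, sum_add_distrib, h9, ite_mul, zero_mul, sum_ite_eq', mem_univ, if_true]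
    split_ifs
    · rw [mul_assoc, mul_inv_cancel₀ h10, mul_one, sub_add_cancel]
    · simp

theorem sdHomeo (h : RlBasicStmt) : SdHomeoStmt := by
  intro V _ G A
  have := (h (Finset V) (sdG V) (sdA G A)).1
  have hc : ∀ y : Rl (sdG V) (sdA G A), Chn_SdHomeo y.1 := fun y =>
    ⟨y.2.1, not_not.1 fun h => (y.2.2.2.1 _ h).1.ne_empty rfl, fun σ τ hσ hτ =>
      (y.2.2.2.2 σ τ hσ hτ).elim (fun h => Or.inl h.subset) (Or.imp (·.subset) (·.subset))⟩
  have hq : ∀ σ ∈ sdA G A, ∀ u ∈ σ, ∀ v ∈ σ, Adq G u v := fun σ hσ u hu v hv =>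
    (eq_or_ne u v).imp_right (hσ.2.2 hu hv)
  let f : Rl (sdG V) (sdA G A) → Rl G A := fun y => ⟨bar_SdHomeo y.1,
    fun v => sum_nonneg fun σ _ => mul_nonneg (y.2.1 σ) (by positivity),
    (sum_SdHomeo (hc y).2.1).trans y.2.2.1, fun v hv => by
      obtain ⟨σ, h1, h2⟩ := supp_SdHomeo hv
      exact (y.2.2.2.1 σ h1).2.1 h2, fun u v hu hv => by
      obtain ⟨σ, h1, h2⟩ := supp_SdHomeo hu
      obtain ⟨τ, h3, h4⟩ := supp_SdHomeo hv
      rcases (hc y).2.2 σ τ h1 h3 with h5 | h5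
      · exact hq τ (y.2.2.2.1 τ h3) u (h5 h2) v h4
      · exact hq σ (y.2.2.2.1 σ h1) u h2 v (h5 h4)⟩
  have hf : Function.Bijective f := by
    refine ⟨fun y y' h => Subtype.ext (inj_SdHomeo (hc y) (hc y') (congrArg Subtype.val h)),
      fun x => ?_⟩
    obtain ⟨y, h1, h2, h3⟩ := surj_SdHomeo (univ.filter fun v => x.1 v ≠ 0) x.1 x.2.1
      fun v hv => not_not.1 fun h => hv (mem_filter.2 ⟨mem_univ _, h⟩)
    have h4 : ∀ σ, y σ ≠ 0 → ∀ v ∈ σ, x.1 v ≠ 0 := fun σ h v hv => (mem_filter.1 (h2 σ h hv)).2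
    refine ⟨⟨y, h1.1, ?_, fun σ hσ => ⟨nonempty_iff_ne_empty.2 fun h => hσ (h ▸ h1.2.1),
      fun v hv => x.2.2.2.1 v (h4 σ hσ v hv), fun u hu v hv huv =>
        (x.2.2.2.2 u v (h4 σ hσ u hu) (h4 σ hσ v hv)).resolve_left huv⟩, fun σ τ hσ hτ => ?_⟩,
      Subtype.ext h3⟩
    · rw [← sum_SdHomeo h1.2.1, h3]
      exact x.2.2.1
    · exact (eq_or_ne σ τ).imp_right fun h => (h1.2.2 σ τ hσ hτ).imp
        (fun h' => Finset.ssubset_iff_subset_ne.2 ⟨h', h⟩)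
        fun h' => Finset.ssubset_iff_subset_ne.2 ⟨h', h.symm⟩
  have hcont : Continuous (Equiv.ofBijective f hf) :=
    Continuous.subtype_mk (continuous_pi fun v => continuous_finsetSum _ fun σ _ =>
      ((continuous_apply σ).comp continuous_subtype_val).mul continuous_const) _
  exact ⟨hcont.homeoOfEquivCompactToT2, fun _ _ => rfl⟩

end Pool.Agent.MP_6374aa_gt
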