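import Pool.Agent.MP_6374aa_gt.IfC

/-! Two out of six for equivalences. -/

namespace Pool.Agent.MP_6374aa_gt

theorem sc_SePhi {V V' : Type} {G : SimpleGraph V} {A : Set V} {G' : SimpleGraph V'}
    {A' : Set V'} {f g : V' → V} (hg : IsHom G' A' G A g) (h : SC G' A' G f g)
    (hf : SE G' A' G A f) : SE G' A' G A g := by
  have he : ∀ a ∈ A', Path G A (f a) (g a) (gen G A (f a) (g a)) := fun a ha =>
    Path.single (hf.hom.1 a ha) (hg.1 a ha) (h a ha a ha (Adq.refl _ _))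
  have hz : ∀ n, ∀ z' ∈ Zy G' A' n, ∀ z, emap f z' - z ∈ Bd G A n →
      emap g z' - z ∈ Bd G A n := fun n z' hz' z hb => by
    have := Submodule.sub_mem _ hb (emap_sub_mem_Bd hf.hom hg h hz')
    rwa [sub_sub_sub_cancel_left] at this
  refine ⟨hg, fun y hy => ?_, fun x' hx y' hy γ hγ => ?_, fun y' γ' hγ h1 => ?_,
    fun n hn z hz hb => ?_, fun n hn z hz0 => ?_, fun n hn y' hy Γ' hΓ z hz0 => ?_⟩
  · obtain ⟨y', hy', γ, hγ⟩ := hf.ess y hy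
    exact ⟨y', hy', _, hγ.trans (he y' hy')⟩
  · obtain ⟨γ', h1, h2⟩ := hf.full x' hx y' hy _ (((he x' hx).trans hγ).trans (he y' hy).symm)
    refine ⟨γ', h1, ?_⟩
    rw [Path.gmap_sc hf.hom hg h h1, h2]
    group
  · refine hf.faith y' γ' hγ ?_
    rw [Path.gmap_sc hf.hom hg h hγ] at h1
    have : gmap G' A' G A f γ' = gen G A (f y') (g y') *
        ((gen G A (f y') (g y'))⁻¹ * gmap G' A' G A f γ' * gen G A (f y') (g y')) *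
        (gen G A (f y') (g y'))⁻¹ := by group
    rw [this, h1]
    group
  · refine hf.hinj n hn z hz ?_
    have := Submodule.add_mem _ (emap_sub_mem_Bd hf.hom hg h hz) hb
    rwa [sub_add_cancel] at this
  · obtain ⟨z', h1, h2⟩ := hf.hsurj n hn z hz0
    exact ⟨z', h1, hz n z' h1 z h2⟩
  · have hle : II G A (Γ'.map (gmap G' A' G A g)) (g y') n ≤
        II G A (Γ'.map (gmap G' A' G A f)) (f y') n := by
      refine II_le_II (he y' hy).symm ?_ n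
      rintro _ ⟨δ, hδ, rfl⟩
      refine ⟨δ, hδ, ?_⟩
      rw [Path.gmap_sc hf.hom hg h ((mem_Loop hy).1 (hΓ hδ))]
      group
    obtain ⟨z', h1, h2⟩ := hf.isurj n hn y' hy Γ' hΓ z (hle hz0)
    exact ⟨z', h1, hz n z' (II_le_Zy _ _ _ h1) z h2⟩

theorem sePhi : SePhiStmt := by
  intro V0 V1 V2 V3 G0 A0 G1 A1 G2 A2 G3 A3 φ0 φ1 φ2 c0 c1 h0 h1 h2 s0 s1 e0 e1
  have a := sc_SePhi (h0.comp h1) s0 e0
  have b := sc_SePhi (h1.comp h2) s1 e1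
  have hl : ∀ y1 ∈ A1, ∃ y2 ∈ A2, ∃ η, Path G1 A1 y1 (φ1 y2) η ∧ ∀ δ, Path G1 A1 y1 y1 δ →
      ∃ δ2, Path G2 A2 y2 y2 δ2 ∧ gmap G2 A2 G1 A1 φ1 δ2 = η⁻¹ * δ * η := fun y1 hy => by
    obtain ⟨y3, hy3, η, hη⟩ := b.ess y1 hy
    refine ⟨φ2 y3, h2.1 y3 hy3, η, hη, fun δ hδ => ?_⟩
    obtain ⟨γ3, p3, q3⟩ := b.full y3 hy3 y3 hy3 _ ((hη.symm.trans hδ).trans hη)
    exact ⟨_, p3.map h2, by rw [gmap_comp h1 h2, q3]⟩
  refine ⟨h0, fun y hy => ?_, fun x1 hx y1 hy γ hγ => ?_, fun y1 γ hγ hq => ?_,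
    fun n hn z hz hb => ?_, fun n hn z hz => ?_, fun n hn y1 hy Γ hΓ z hz => ?_⟩
  · obtain ⟨y2, hy2, γ, hγ⟩ := a.ess y hy
    exact ⟨φ1 y2, h1.1 y2 hy2, γ, hγ⟩
  · obtain ⟨x2, hx2, η, hη, -⟩ := hl x1 hx
    obtain ⟨y2, hy2, θ, hθ, -⟩ := hl y1 hy
    obtain ⟨γ2, p2, q2⟩ := a.full x2 hx2 y2 hy2 _ (((hη.map h0).symm.trans hγ).trans (hθ.map h0))
    refine ⟨_, (hη.trans (p2.map h1)).trans hθ.symm, ?_⟩
    rw [map_mul, map_mul, map_inv, gmap_comp h0 h1, q2]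
    group
  · obtain ⟨y2, hy2, η, hη, hk⟩ := hl y1 hγ.mem_left
    obtain ⟨δ, p2, q2⟩ := hk γ hγ
    have : δ = 1 := a.faith y2 δ p2 (by
      rw [← gmap_comp h0 h1, q2, map_mul, map_mul, map_inv, hq]
      group)
    rw [this, map_one] at q2
    have h3 : γ = η * (η⁻¹ * γ * η) * η⁻¹ := by group
    rw [h3, ← q2]
    group
  · obtain ⟨z3, p3, q3⟩ := b.hsurj n hn z hz
    have hz2 : emap φ2 z3 ∈ Bd G2 A2 n := a.hinj n hn _ (emap_mem_Zy h2 p3) (by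
      have := Submodule.add_mem _ (emap_mem_Bd h0 q3) hb
      rwa [map_sub, sub_add_cancel, ← emap_comp φ1 φ2, emap_comp φ0 φ1] at this)
    have := Submodule.sub_mem _ (emap_mem_Bd h1 hz2) q3
    rwa [emap_comp, sub_sub_cancel] at this
  · obtain ⟨z2, p2, q2⟩ := a.hsurj n hn z hz
    exact ⟨emap φ1 z2, emap_mem_Zy h1 p2, by rwa [emap_comp]⟩
  · obtain ⟨y2, hy2, η, hη, hk⟩ := hl y1 hy
    let Γ2 : Subgroup (Gp G2 A2) := Loop G2 A2 y2 ⊓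
      Γ.comap ((MulAut.conj η).toMonoidHom.comp (gmap G2 A2 G1 A1 φ1))
    have hm : ∀ δ, δ ∈ Γ2 ↔ δ ∈ Loop G2 A2 y2 ∧ η * gmap G2 A2 G1 A1 φ1 δ * η⁻¹ ∈ Γ :=
      fun δ => Iff.rfl
    have hle : II G0 A0 (Γ.map (gmap G1 A1 G0 A0 φ0)) (φ0 y1) n ≤
        II G0 A0 (Γ2.map (gmap G2 A2 G0 A0 (φ0 ∘ φ1))) ((φ0 ∘ φ1) y2) n := by
      refine II_le_II (hη.map h0) ?_ n
      rintro _ ⟨δ, hδ, rfl⟩
      obtain ⟨δ2, p2, q2⟩ := hk δ ((mem_Loop hy).1 (hΓ hδ))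
      refine ⟨δ2, (hm δ2).2 ⟨(mem_Loop hy2).2 p2, ?_⟩, ?_⟩
      · have : η * (η⁻¹ * δ * η) * η⁻¹ = δ := by group
        rw [q2, this]
        exact hδ
      · rw [← gmap_comp h0 h1, q2, map_mul, map_mul, map_inv]
    obtain ⟨z2, p2, q2⟩ := a.isurj n hn y2 hy2 Γ2 inf_le_left z (hle hz)
    refine ⟨emap φ1 z2, emap_mem_II h1 hη.symm (fun δ hδ => ?_) p2, by rwa [emap_comp]⟩
    rw [inv_inv]
    exact ((hm δ).1 hδ).2

end Pool.Agent.MP_6374aa_gt
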