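import Pool.Agent.MP_6374aa_gt.IfD

/-! Sheets of a regular covering over the open stars. -/

namespace Pool.Agent.MP_6374aa_gt

open Classical Topology unitInterval

section

variable {V : Type} [Fintype V] {G : SimpleGraph V} {A : Set V}

/-- The supports of two points span a simplex. -/
def Cpt_Sheet (x y : Rl G A) : Prop := ∀ a b, x.1 a ≠ 0 → y.1 b ≠ 0 → Adq G a b

omit [Fintype V] in
theorem adq_symm_Sheet {a b : V} (h : Adq G a b) : Adq G b a :=
  h.elim (fun e => Or.inl e.symm) fun e => Or.inr e.symm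

theorem seg_supp_Sheet {t a b : ℝ} (h : (1 - t) * a + t * b ≠ 0) : a ≠ 0 ∨ b ≠ 0 := by
  by_contra hc
  rw [not_or, not_not, not_not] at hc
  exact h (by rw [hc.1, hc.2]; ring)

/-- A point of the segment between two points of a simplex. -/
def seg_Sheet (x y : Rl G A) (h : Cpt_Sheet x y) (t : I) : Rl G A :=
  ⟨fun a => (1 - t.1) * x.1 a + t.1 * y.1 a,
    fun a => add_nonneg (mul_nonneg (sub_nonneg.2 t.2.2) (x.2.1 a)) (mul_nonneg t.2.1 (y.2.1 a)),
    by
      rw [Finset.sum_add_distrib, ← Finset.mul_sum, ← Finset.mul_sum, x.2.2.1, y.2.2.1]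
      ring,
    fun a ha => (seg_supp_Sheet ha).elim (x.2.2.2.1 a) (y.2.2.2.1 a),
    fun a b ha hb => by
      rcases seg_supp_Sheet ha with ha | ha <;> rcases seg_supp_Sheet hb with hb | hb
      exacts [x.2.2.2.2 a b ha hb, h a b ha hb, adq_symm_Sheet (h b a hb ha),
        y.2.2.2.2 a b ha hb]⟩

theorem seg_ne_Sheet {x y : Rl G A} (h : Cpt_Sheet x y) (t : I) {a : V} (hx : x.1 a ≠ 0)
    (hy : y.1 a ≠ 0) : (seg_Sheet x y h t).1 a ≠ 0 := by
  have h1 := lt_of_le_of_ne (x.2.1 a) hx.symm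
  have h2 := lt_of_le_of_ne (y.2.1 a) hy.symm
  have h3 := t.2.1
  have h4 := t.2.2
  change (1 - t.1) * x.1 a + t.1 * y.1 a ≠ 0
  rcases eq_or_lt_of_le h3 with e | e
  · rw [← e]
    simpa using hx
  · exact (add_pos_of_nonneg_of_pos (mul_nonneg (sub_nonneg.2 h4) h1.le) (mul_pos e h2)).ne'

theorem seg_zero_Sheet {x y : Rl G A} (h : Cpt_Sheet x y) : seg_Sheet x y h 0 = x :=
  Subtype.ext (funext fun a => by simp [seg_Sheet])

theorem seg_one_Sheet {x y : Rl G A} (h : Cpt_Sheet x y) : seg_Sheet x y h 1 = y :=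
  Subtype.ext (funext fun a => by simp [seg_Sheet])

/-- There is a point whose support is the union of two compatible supports. -/
theorem mid_Sheet (x y : Rl G A) (h : Cpt_Sheet x y) :
    ∃ m : Rl G A, ∀ a, m.1 a ≠ 0 ↔ x.1 a ≠ 0 ∨ y.1 a ≠ 0 := by
  refine ⟨seg_Sheet x y h ⟨1 / 2, by norm_num, by norm_num⟩, fun a => ⟨seg_supp_Sheet, fun e => ?_⟩⟩
  have h1 := x.2.1 a
  have h2 := y.2.1 a
  change (1 - 1 / 2 : ℝ) * x.1 a + 1 / 2 * y.1 a ≠ 0
  rcases e with e | e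
  · have := lt_of_le_of_ne h1 e.symm
    linarith
  · have := lt_of_le_of_ne h2 e.symm
    linarith

theorem vtx_Sheet {v : V} (hv : v ∈ A) : ∃ m : Rl G A, ∀ a, m.1 a ≠ 0 ↔ a = v := by
  have key : ∀ a, (if a = v then (1 : ℝ) else 0) ≠ 0 ↔ a = v := fun a => by
    by_cases e : a = v <;> simp [e]
  refine ⟨⟨fun a => if a = v then 1 else 0, fun a => ?_, by simp, fun a ha => ?_,
    fun a b ha hb => ?_⟩, key⟩
  · dsimp only
    split_ifs <;> norm_num
  · rw [(key a).1 ha]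
    exact hv
  · exact Or.inl (((key a).1 ha).trans ((key b).1 hb).symm)

theorem edge_Sheet {u w : V} (hu : u ∈ A) (hw : w ∈ A) (h : Adq G u w) :
    ∃ m : Rl G A, ∀ a, m.1 a ≠ 0 ↔ a = u ∨ a = w := by
  obtain ⟨x, hx⟩ := vtx_Sheet (G := G) hu
  obtain ⟨y, hy⟩ := vtx_Sheet (G := G) hw
  obtain ⟨m, hm⟩ := mid_Sheet x y fun a b ha hb => by
    rw [(hx a).1 ha, (hy b).1 hb]
    exact h
  exact ⟨m, fun a => by rw [hm, hx, hy]⟩

variable {E : Type} [TopologicalSpace E] {p : E → Rl G A}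

theorem sec_Sheet (hp : IsCoveringMap p) (hs : Function.Surjective p) (v : V) :
    ∃ s : {x : Rl G A // x.1 v ≠ 0} → E, Continuous s ∧ ∀ x, p (s x) = x.1 := by
  by_cases hv : v ∈ A
  · obtain ⟨m, hm⟩ := vtx_Sheet (G := G) hv
    obtain ⟨e, he⟩ := hs m
    have hc : ∀ x : {x : Rl G A // x.1 v ≠ 0}, Cpt_Sheet m x.1 := fun x a b ha hb => by
      rw [(hm a).1 ha]
      exact x.1.2.2.2.2 v b x.2 hb
    let H : C(I × {x : Rl G A // x.1 v ≠ 0}, Rl G A) :=
      ⟨fun q => seg_Sheet m q.2.1 (hc q.2) q.1, by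
        refine Continuous.subtype_mk (continuous_pi fun a => ?_) _
        have h1 : Continuous fun q : I × {x : Rl G A // x.1 v ≠ 0} => q.2.1.1 a :=
          (continuous_apply a).comp
            (continuous_subtype_val.comp (continuous_subtype_val.comp continuous_snd))
        have h2 : Continuous fun q : I × {x : Rl G A // x.1 v ≠ 0} => q.1.1 :=
          continuous_subtype_val.comp continuous_fst
        exact ((continuous_const.sub h2).mul continuous_const).add (h2.mul h1)⟩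
    have h0 : ∀ x, H (0, x) = p (ContinuousMap.const _ e x) := fun x =>
      (seg_zero_Sheet (hc x)).trans he.symm
    refine ⟨fun x => hp.liftHomotopy H (ContinuousMap.const _ e) h0 (1, x), by fun_prop,
      fun x => ?_⟩
    exact (congrFun (hp.liftHomotopy_lifts H (ContinuousMap.const _ e) h0) (1, x)).trans
      (seg_one_Sheet (hc x))
  · have : IsEmpty {x : Rl G A // x.1 v ≠ 0} := ⟨fun x => hv (x.1.2.2.2.1 v x.2)⟩
    exact ⟨isEmptyElim, continuous_of_discreteTopology, fun x => isEmptyElim x⟩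

end

theorem sheet : SheetStmt := by
  intro V E Λ _ G A _ _ _ p hp
  have hcont : Continuous p := hp.toIsQuotientMap.continuous
  have hsm : ∀ g : Λ, Continuous fun e : E => g • e := hp.continuous_const_smul
  have horb : ∀ e e', p e = p e' ↔ ∃ g : Λ, e = g • e' := fun e e' =>
    hp.apply_eq_iff_mem_orbit.trans ⟨fun ⟨g, hg⟩ => ⟨g, hg.symm⟩, fun ⟨g, hg⟩ => ⟨g, hg.symm⟩⟩
  have hfree : ∀ (g g' : Λ) (e : E), g • e = g' • e → g = g' := fun g g' e h =>
    hp.isCancelSMul.right_cancel' g g' e h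
  choose s hs hps using sec_Sheet hp.isCoveringMap hp.toIsQuotientMap.surjective
  have hex : ∀ (e : E) (v : V), ∃ k : Λ, ∀ h : (p e).1 v ≠ 0, e = k⁻¹ • s v ⟨p e, h⟩ := by
    intro e v
    by_cases h : (p e).1 v ≠ 0
    · obtain ⟨g, hg⟩ := (horb e (s v ⟨p e, h⟩)).1 (hps v ⟨p e, h⟩).symm
      exact ⟨g⁻¹, fun _ => by rw [inv_inv]; exact hg⟩
    · exact ⟨1, fun h' => absurd h' h⟩
  choose sh hsh using hex
  have huniq : ∀ (e : E) (v : V) (x : {x : Rl G A // x.1 v ≠ 0}) (g : Λ), e = g • s v x →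
      sh e v = g⁻¹ := by
    intro e v x g hg
    have h1 : p e = x.1 := by rw [hg, hp.map_smul, hps]
    have h2 : (p e).1 v ≠ 0 := by rw [h1]; exact x.2
    have h3 : (⟨p e, h2⟩ : {x : Rl G A // x.1 v ≠ 0}) = x := Subtype.ext h1
    have h4 := hsh e v h2
    rw [h3] at h4
    rw [hfree _ _ _ (hg.symm.trans h4), inv_inv]
  have hsmul : ∀ (g : Λ) e v, (p e).1 v ≠ 0 → sh (g • e) v = sh e v * g⁻¹ := by
    intro g e v h
    rw [huniq (g • e) v ⟨p e, h⟩ (g * (sh e v)⁻¹) (by rw [mul_smul, ← hsh e v h]), mul_inv_rev,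
      inv_inv]
  have hloc : ∀ e v, (p e).1 v ≠ 0 → ∀ᶠ e' in 𝓝 e, sh e' v = sh e v := by
    intro e v h
    obtain ⟨N, hN, hd⟩ := hp.disjoint e
    have ho : IsOpen {e' : E | (p e').1 v ≠ 0} :=
      isOpen_ne_fun ((continuous_apply v).comp (continuous_subtype_val.comp hcont)) continuous_const
    have hφ : Continuous fun e' : {e' : E | (p e').1 v ≠ 0} => (sh e v)⁻¹ • s v ⟨p e'.1, e'.2⟩ :=
      (hsm _).comp ((hs v).comp ((hcont.comp continuous_subtype_val).subtype_mk _))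
    have h1 : ∀ᶠ e' : {e' : E | (p e').1 v ≠ 0} in 𝓝 ⟨e, h⟩,
        (sh e v)⁻¹ • s v ⟨p e'.1, e'.2⟩ ∈ N := by
      refine hφ.continuousAt.preimage_mem_nhds ?_
      rw [← hsh e v h]
      exact hN
    have h2 : ∀ᶠ e' : {e' : E | (p e').1 v ≠ 0} in 𝓝 ⟨e, h⟩, e'.1 ∈ N :=
      continuous_subtype_val.continuousAt.preimage_mem_nhds hN
    have h3 := ho.isOpenEmbedding_subtypeVal.map_nhds_eq ⟨e, h⟩
    rw [← h3, Filter.eventually_map]
    filter_upwards [h1, h2] with e' a1 a2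
    obtain ⟨k, hk⟩ := (horb e'.1 ((sh e v)⁻¹ • s v ⟨p e'.1, e'.2⟩)).1 (by rw [hp.map_smul, hps])
    have hk1 : k = 1 := hd k ⟨e'.1, ⟨_, a1, hk.symm⟩, a2⟩
    rw [hk1, one_smul] at hk
    rw [huniq _ v _ _ hk, inv_inv]
  have hconst : ∀ (u w : V) (x y : {x : Rl G A // x.1 u ≠ 0}), Cpt_Sheet x.1 y.1 → x.1.1 w ≠ 0 →
      y.1.1 w ≠ 0 → sh (s u x) w = sh (s u y) w := by
    intro u w x y hc hx hy
    have hγ : Continuous fun t : I => s u ⟨seg_Sheet x.1 y.1 hc t, seg_ne_Sheet hc t x.2 y.2⟩ := by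
      refine (hs u).comp (Continuous.subtype_mk (Continuous.subtype_mk
        (continuous_pi fun a => ?_) _) _)
      exact ((continuous_const.sub continuous_subtype_val).mul continuous_const).add
        (continuous_subtype_val.mul continuous_const)
    have hl : IsLocallyConstant fun t : I =>
        sh (s u ⟨seg_Sheet x.1 y.1 hc t, seg_ne_Sheet hc t x.2 y.2⟩) w := by
      refine (IsLocallyConstant.iff_eventually_eq _).2 fun t => ?_
      refine hγ.continuousAt.eventually (hloc _ w ?_)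
      rw [hps]
      exact seg_ne_Sheet hc t hx hy
    have h01 := hl.apply_eq_of_preconnectedSpace 0 1
    simpa only [seg_zero_Sheet, seg_one_Sheet] using h01
  have hlab : ∀ u w : V, ∃ l : Λ, ∀ x : {x : Rl G A // x.1 u ≠ 0}, x.1.1 w ≠ 0 →
      sh (s u x) w = l⁻¹ := by
    intro u w
    by_cases h : u ∈ A ∧ w ∈ A ∧ Adq G u w
    · obtain ⟨m, hm⟩ := edge_Sheet h.1 h.2.1 h.2.2
      refine ⟨(sh (s u ⟨m, (hm u).2 (Or.inl rfl)⟩) w)⁻¹, fun x hx => ?_⟩
      rw [inv_inv]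
      refine hconst u w x _ (fun a b ha hb => ?_) hx ((hm w).2 (Or.inr rfl))
      rcases (hm b).1 hb with e | e <;> rw [e]
      exacts [x.1.2.2.2.2 a u ha x.2, x.1.2.2.2.2 a w ha hx]
    · exact ⟨1, fun x hx =>
        absurd ⟨x.1.2.2.2.1 u x.2, x.1.2.2.2.1 w hx, x.1.2.2.2.2 u w x.2 hx⟩ h⟩
  choose lab hlab using hlab
  have hrel : ∀ e u w, (p e).1 u ≠ 0 → (p e).1 w ≠ 0 → sh e u = lab u w * sh e w := by
    intro e u w hu hw
    have h1 := hsmul (sh e u)⁻¹ (s u ⟨p e, hu⟩) w (by rw [hps]; exact hw)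
    rw [← hsh e u hu, hlab u w _ hw, inv_inv] at h1
    rw [h1, mul_inv_cancel_left]
  refine ⟨lab, sh, hcont, hsm, horb, ?_, hrel, hsmul, hloc, fun v _ => ⟨s v, hs v, fun x =>
    ⟨hps v x, (huniq _ v x 1 (one_smul _ _).symm).trans inv_one⟩⟩⟩
  intro u hu v hv w hw h1 h2 h3
  obtain ⟨x, hx⟩ := edge_Sheet hu hv h1
  obtain ⟨y, hy⟩ := vtx_Sheet (G := G) hw
  obtain ⟨m, hm⟩ := mid_Sheet x y fun a b ha hb => by
    rw [(hy b).1 hb]
    rcases (hx a).1 ha with e | e <;> rw [e]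
    exacts [h3, h2]
  obtain ⟨e, rfl⟩ := hp.toIsQuotientMap.surjective m
  have mu := (hm u).2 (Or.inl ((hx u).2 (Or.inl rfl)))
  have mv := (hm v).2 (Or.inl ((hx v).2 (Or.inr rfl)))
  have mw := (hm w).2 (Or.inr ((hy w).2 rfl))
  have a1 := hrel e u v mu mv
  rw [hrel e v w mv mw, hrel e u w mu mw, ← mul_assoc] at a1
  exact (mul_right_cancel a1).symm

end Pool.Agent.MP_6374aa_gt
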