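import Pool.Agent.MP_6374aa_gt.IfT

/-! The type of a site is preserved by extensions of packs. -/

namespace Pool.Agent.MP_6374aa_gt

open Classical

theorem conj_SiteExt {V V' : Type} {G : SimpleGraph V} {A : Set V} {G' : SimpleGraph V'}
    {A' : Set V'} {c : V' → V} (hc : IsHom G' A' G A c) {L : Type} [Group L]
    {ρ' : Gp G' A' →* L} {lab : V → V → L} {k : V' → L} (hl : Flat G A lab)
    (hk : ∀ u ∈ A', ∀ w ∈ A', Adq G' u w →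
      ρ' (gen G' A' u w) = k u * lab (c u) (c w) * (k w)⁻¹)
    {a : V'} (ha : a ∈ A') (γ : Gp G A) : ∃ m : L, ∀ δ ∈ Loop G' A' a,
      glift G A lab (γ⁻¹ * gmap G' A' G A c δ * γ) = m⁻¹ * ρ' δ * m := by
  refine ⟨k a * glift G A lab γ, fun δ hδ => ?_⟩
  have h1 := Path.gauge' (ρ := ρ') (σ := (glift G A lab).comp (gmap G' A' G A c)) (k := k)
    (fun u hu w hw huw => by
      rw [hk u hu w hw huw, MonoidHom.comp_apply, gmap_gen hc, glift_gen hl])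
    ((mem_Loop ha).1 hδ)
  rw [h1, MonoidHom.comp_apply, map_mul, map_mul, map_inv]
  group

theorem siteExt (hF : FlStmt) (hQ : ClQ1Stmt) : SiteExtStmt := by
  intro V V' G A G' A' c P P' j x Λ _ χ hE hC hχ ⟨θ, hcov⟩
  obtain ⟨e, γ, -, he⟩ := (hE.old x).exists_iso
  refine ⟨e.trans θ, ?_⟩
  intro L _ _ ρ' h1 h2 h3 p _ hp δ' ψ hψ hψ1
  obtain ⟨lab, k, hl, hk⟩ := hE.gauge L ρ' fun x' hx' => h3 x' fun e => hx' ⟨x, e.symm⟩
  obtain ⟨m, hm⟩ := conj_SiteExt hC.1 hl hk (P'.mem (j x)) γ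
  have hm' : ∀ δ : P'.Λ (j x), glift G A lab (e δ) = m⁻¹ * ρ' δ * m := fun δ => by
    rw [he, hm δ (P'.loop _ δ.2)]
  have g1 : ∀ δ ∈ P.Λ x, glift G A lab δ = 1 → δ = 1 := by
    intro δ hδ h
    obtain ⟨ε, hε⟩ := e.surjective ⟨δ, hδ⟩
    have h4 := hm' ε
    rw [hε, h] at h4
    have h5 : ρ' ε = 1 := by
      calc _ = m * (m⁻¹ * ρ' ε * m) * m⁻¹ := by group
        _ = 1 := by rw [← h4]; group
    have h6 : ε = 1 := Subtype.ext (h1 _ ε.2 h5)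
    rw [h6, map_one] at hε
    exact (congrArg Subtype.val hε).symm
  have g2 : ∀ l, ∃ δ ∈ P.Λ x, glift G A lab δ = l := by
    intro l
    obtain ⟨ε, hε, h4⟩ := h2 (m * l * m⁻¹)
    refine ⟨_, (e ⟨ε, hε⟩).2, ?_⟩
    rw [hm', h4]
    group
  have g3 : ∀ y, y ≠ x → ∀ δ ∈ P.Λ y, glift G A lab δ = 1 := by
    intro y hy δ hδ
    obtain ⟨-, γ', -, -, h4⟩ := hE.old y
    obtain ⟨ε, hε, rfl⟩ := h4 δ hδ
    obtain ⟨m', h5⟩ := conj_SiteExt hC.1 hl hk (P'.mem (j y)) γ'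
    rw [h5 ε (P'.loop _ hε), h3 (j y) (fun e => hy (hE.inj e)) ε hε]
    group
  obtain ⟨μ, hμ, hμ'⟩ := g2 m
  have key := hcov L (glift G A lab) g1 g2 g3 p hp (⟨μ, hμ⟩ * e δ' * (⟨μ, hμ⟩ : P.Λ x)⁻¹) ψ hψ (by
    rw [hψ1, Subgroup.coe_mul, Subgroup.coe_mul, Subgroup.coe_inv, map_mul, map_mul, map_inv,
      hm', hμ']
    group)
  rw [show (fun u w => glift G A lab (gen G A u w)) = lab from
    funext fun u => funext fun w => glift_gen hl u w] at key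
  obtain ⟨Q, hfr, a, b, hab, hv⟩ := key
  obtain ⟨Q', j', hE'⟩ := hC.2 L lab hl Q
  obtain ⟨hfr', hv'⟩ := hF (Cp p) _ _ _ _ (deck V ψ) _ _ (deck V' ψ) _ Q Q' j'
    (freeAct_deck hψ) (freeAct_deck hψ) (fun _ _ _ => rfl) hE' hfr
  have hiso := cov_gauge_iso (Ω := L) (lab' := fun u w => ρ' (gen G' A' u w)) (hl.pull hC.1) hk
  obtain ⟨Q'', j'', hE'', -⟩ :=
    (hQ _ _ _ _ _ _ _ hiso.cl (Fin3.cov (flat_hom ρ') P'.fin3)).1.2 Q'
  obtain ⟨hfr'', hv''⟩ := hF (Cp p) _ _ _ _ (deck V' ψ) _ _ (deck V' ψ) _ Q' Q'' j''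
    (freeAct_deck hψ) (freeAct_deck hψ)
    (fun _ _ _ => Prod.ext rfl (mul_assoc _ _ _).symm) hE'' hfr'
  refine ⟨Q'', hfr'', a, b, ?_, (hv'' _).2 ((hv' _).2 hv)⟩
  rw [← hab]
  dsimp only
  rw [map_mul, map_mul, map_inv, hχ]
  rfl

end Pool.Agent.MP_6374aa_gt
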