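import Pool.Agent.MP_6374aa_gt.IfT

/-! Transfer of the types of sites from level one to level zero. -/

namespace Pool.Agent.MP_6374aa_gt

open Classical

theorem sc_SiteTop {C : Type} [CommGroup C] {L : ℕ → Lev C} {φ : ∀ i, (L (i + 1)).V → (L i).V}
    {c : ∀ i, (L (i + 2)).V → (L i).V} (h : IsSys T0 L φ c) (i : ℕ) :
    SC (L (i + 2)).G (L (i + 2)).A (L i).G (c i) (φ i ∘ φ (i + 1)) := fun a ha b hb hab =>
  h.sc i a ha b hb (Near.mono ha (Nat.one_le_pow _ _ (by norm_num)) (Near.of_adq hb hab))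

theorem siteTop (hT : TopStmt) (hC : CovSysStmt) (hP : SePhiStmt) (hf : PfStmt) :
    SiteTopStmt := by
  intro L φ c P1 hs hfin hQ
  have hSE := hP _ _ _ _ _ _ _ _ _ _ _ _ (φ 0) (φ 1) (φ 2) (c 0) (c 1) (hs.hφ 0) (hs.hφ 1)
    (hs.hφ 2) (sc_SiteTop hs 0) (sc_SiteTop hs 1) (hQ 0).1.1 (hQ 1).1.1
  obtain ⟨P0, b, hb⟩ := hf _ _ _ _ _ _ (φ 0) P1 hSE (hfin 0)
  refine ⟨P0, b, fun x Λ _ χ hχ ⟨θ, hθ⟩ => ?_⟩
  obtain ⟨e, γ, -, he⟩ := (hb x).exists_iso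
  refine ⟨e.symm.trans θ, fun L' _ _ ρ h1 h2 h3 p _ hp δ ψ hψ hψ1 => ?_⟩
  have he' : ∀ δ' : P1.Λ (b x), ρ.comp (gmap (L 1).G (L 1).A (L 0).G (L 0).A (φ 0)) δ' =
      ρ γ * ρ (e δ') * (ρ γ)⁻¹ := fun δ' => by
    rw [he, map_mul, map_mul, map_inv, MonoidHom.comp_apply]
    group
  obtain ⟨κ, hκ, hκ'⟩ := h2 (ρ γ)
  have h4 := hθ L' (ρ.comp (gmap (L 1).G (L 1).A (L 0).G (L 0).A (φ 0))) (fun δ' hδ' h4 => by
      rw [he' ⟨δ', hδ'⟩, mul_inv_eq_one, mul_eq_left] at h4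
      have h5 : e ⟨δ', hδ'⟩ = 1 := Subtype.ext (h1 _ (e ⟨δ', hδ'⟩).2 h4)
      exact congrArg Subtype.val (e.map_eq_one_iff.1 h5))
    (fun l => by
      obtain ⟨δ0, h4, h5⟩ := h2 ((ρ γ)⁻¹ * l * ρ γ)
      refine ⟨e.symm ⟨δ0, h4⟩, (e.symm ⟨δ0, h4⟩).2, ?_⟩
      rw [he', e.apply_symm_apply, h5]
      group)
    (fun y hy δ' hδ' => by
      obtain ⟨y, rfl⟩ := b.surjective y
      obtain ⟨-, γ', -, h4, -⟩ := hb y
      have h5 := h3 y (fun h => hy (by rw [h])) _ (h4 δ' hδ')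
      rw [map_mul, map_mul, map_inv, mul_assoc, inv_mul_eq_one, eq_comm, mul_eq_right] at h5
      exact h5)
    p hp (e.symm ((⟨κ, hκ⟩ : P0.Λ x)⁻¹ * δ * ⟨κ, hκ⟩)) ψ hψ (by
      rw [he', e.apply_symm_apply, hψ1, Subgroup.coe_mul, Subgroup.coe_mul, Subgroup.coe_inv,
        map_mul, map_mul, map_inv, hκ']
      group)
  have key : (fun u w => ρ.comp (gmap (L 1).G (L 1).A (L 0).G (L 0).A (φ 0))
      (gen (L 1).G (L 1).A u w)) = labS L φ (fun u w => ρ (gen (L 0).G (L 0).A u w)) 1 := by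
    funext u w
    rw [MonoidHom.comp_apply, gmap_gen (hs.hφ 0)]
    rfl
  rw [key] at h4
  obtain ⟨Q, hQ1, a1, a2, h5, h6⟩ := h4
  obtain ⟨g1, -, g2⟩ := hC (Cp p) L' L φ c _ ψ hs (flat_hom ρ) hψ hfin
  obtain ⟨Q0, -, -, g3, g4⟩ := hT (Cp p) _ _ _ Q g1 (Fin3.cov (flat_hom ρ) (hfin 0))
    (fun i => g2 i (hQ i)) hQ1
  refine ⟨Q0, g3, a1, a2, ?_, (g4 _).1 h6⟩
  rw [← h5]
  have h7 := hχ (θ (e.symm δ)) (θ (e.symm ⟨κ, hκ⟩))⁻¹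
  simp only [map_mul, map_inv, MulEquiv.trans_apply, inv_inv] at h7 ⊢
  exact h7.symm

end Pool.Agent.MP_6374aa_gt
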