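import Pool.Agent.MP_6374aa_gt.IfD

/-! The universal cover of a spherical piece. -/

namespace Pool.Agent.MP_6374aa_gt

open Classical Topology Matrix

noncomputable section

theorem orth_SphCov {T : Matrix (Fin 4) (Fin 4) ℝ} (hT : T.transpose * T = 1) {x : Fin 4 → ℝ}
    (hx : x ∈ S3) : T.mulVec x ∈ S3 := by
  have h1 : ∀ y : Fin 4 → ℝ, ∑ i, y i ^ 2 = y ⬝ᵥ y := fun y => by
    simp only [dotProduct, sq]
  change ∑ i, (T.mulVec x) i ^ 2 = 1
  rw [h1, dotProduct_mulVec, ← mulVec_transpose, mulVec_mulVec, hT, one_mulVec, ← h1]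
  exact hx

/-- The homeomorphism of the sphere given by the transpose of an orthogonal matrix. -/
def tS_SphCov {T : Matrix (Fin 4) (Fin 4) ℝ} (hT : T.transpose * T = 1) : S3 ≃ₜ S3 where
  toFun x := ⟨T.transpose.mulVec x.1, orth_SphCov (by
    rw [transpose_transpose]; exact mul_eq_one_comm.1 hT) x.2⟩
  invFun x := ⟨T.mulVec x.1, orth_SphCov hT x.2⟩
  left_inv x := Subtype.ext (by
    change T.mulVec (T.transpose.mulVec x.1) = x.1
    rw [mulVec_mulVec, mul_eq_one_comm.1 hT, one_mulVec])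
  right_inv x := Subtype.ext (by
    change T.transpose.mulVec (T.mulVec x.1) = x.1
    rw [mulVec_mulVec, hT, one_mulVec])
  continuous_toFun :=
    Continuous.subtype_mk (Continuous.matrix_mulVec continuous_const continuous_subtype_val) _
  continuous_invFun :=
    Continuous.subtype_mk (Continuous.matrix_mulVec continuous_const continuous_subtype_val) _

theorem freeAct_SphCov {V : Type} (G : SimpleGraph V) (A : Set V) :
    FreeAct G A (1 : C1 →* Equiv.Perm V) :=
  ⟨⟨fun _ _ ha => ha, fun _ _ _ _ _ h => h⟩, fun _ _ _ _ _ _ => Subsingleton.elim _ _⟩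

theorem fr_SphCov {C V : Type} [CommGroup C] {G : SimpleGraph V} {A : Set V} (P : Pack G A)
    (h : IsEmpty P.X) (α : C →* Equiv.Perm V) : Fr P α := fun x => h.elim x

theorem pow_SphCov (q : ℕ) (k : ℕ) :
    (Multiplicative.ofAdd (1 : ZMod q)) ^ k = Multiplicative.ofAdd (k : ZMod q) := by
  rw [← ofAdd_nsmul, nsmul_one]

theorem eqv_SphCov {q : ℕ} [NeZero q] {X Y : Type} (β : Cp q →* Equiv.Perm X)
    (β' : Cp q →* Equiv.Perm Y) (h : X → Y)
    (h1 : ∀ x, h (β (Multiplicative.ofAdd 1) x) = β' (Multiplicative.ofAdd 1) (h x)) (g : Cp q)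
    (x : X) : h (β g x) = β' g (h x) := by
  have h2 : ∀ (n : ℕ) x, h (β (Multiplicative.ofAdd 1 ^ n) x) =
      β' (Multiplicative.ofAdd 1 ^ n) (h x) := by
    intro n
    induction n with
    | zero => intro x; simp
    | succ n ih =>
      intro x
      rw [pow_succ', map_mul, map_mul, Equiv.Perm.mul_apply, Equiv.Perm.mul_apply, h1, ih]
  have h3 : g = Multiplicative.ofAdd 1 ^ (g.toAdd.val) := by
    rw [pow_SphCov, ZMod.natCast_zmod_val]
    rfl
  rw [h3]
  exact h2 _ x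

theorem sphCov (hC : CovHomeoStmt) (hJ : JHomeoStmt) (hP : JPackStmt) (hV : JValStmt)
    (hT : TopHomeoStmt) (hE : EmptyStmt) (hO : OrthStmt) (hN : NfStmt) (hB : RlBasicStmt) :
    SphCovStmt := by
  intro V E Λ _ G A _ _ _ _ p lab sh e L hS h3 hL
  let _ : Fintype Λ := Fintype.ofFinite Λ
  have : T2Space E := e.symm.t2Space
  have free : ∀ (g : Λ) (x : E), g • x = x → g = 1 := by
    intro g x hg
    obtain ⟨v, -, hv⟩ := Finset.exists_ne_zero_of_sum_ne_zero
      (show ∑ v, (p x).1 v ≠ 0 by rw [(p x).2.2.1]; exact one_ne_zero)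
    have h1 := hS.smul g x v hv
    rw [hg] at h1
    exact inv_eq_one.1 (left_eq_mul.1 h1)
  obtain ⟨hc, hhc⟩ := hC V E Λ G A p lab sh hS
  have f3 : Fin3 (cov G lab Λ) (up A Λ) := Fin3.cov hS.flat h3
  refine ⟨?_, fun q _ hq ψ hψ => ?_⟩
  · obtain ⟨hj, -⟩ := hJ 5 le_rfl
    obtain ⟨j3, jc, jz, -⟩ := hP 5 le_rfl
    obtain ⟨P, hP0⟩ := (hE _ _ _ j3).1 ⟨jc, jz⟩
    obtain ⟨P0, b, -⟩ := hT C1 _ _ (cov G lab Λ) (up A Λ) 1 1 (JG 5) Set.univ 1 1
      (hc.trans (e.trans hj.symm)) P (freeAct_SphCov _ _) (freeAct_SphCov _ _) f3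
      (fun _ _ _ => rfl) (fun _ _ _ => rfl) (fun _ _ => rfl) (fr_SphCov P hP0 _)
    exact ⟨P0, b.isEmpty⟩
  · obtain ⟨l1, lm, lo, lf⟩ := hO E Λ e L hL free
    have lp : ∀ (g : Λ) (k : ℕ), L g ^ k = L (g ^ k) := by
      intro g k
      induction k with
      | zero => rw [pow_zero, pow_zero, l1]
      | succ k ih => rw [pow_succ, pow_succ, lm, ih]
    obtain ⟨a, b, T, hT1, hT2, htr⟩ := hN q (by omega) (L (ψ (Multiplicative.ofAdd 1))) (lo _)
      (by rw [lp, ← map_pow, pow_SphCov, ZMod.natCast_self, ofAdd_zero, map_one, l1])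
      (fun k hk => by
        rw [lp, ← map_pow, pow_SphCov]
        refine lf _ fun h0 => hk ?_
        have h1 : Multiplicative.ofAdd (k : ZMod q) = 1 := hψ (h0.trans (map_one ψ).symm)
        exact (ZMod.natCast_eq_zero_iff k q).1 (ofAdd_eq_one.1 h1))
    refine ⟨a, b, htr, ?_⟩
    obtain ⟨hj, hhj⟩ := hJ q hq
    obtain ⟨j3, jc, jz, jf⟩ := hP q hq
    obtain ⟨P, hP0⟩ := (hE _ _ _ j3).1 ⟨jc, jz⟩
    have fd : FreeAct (cov G lab Λ) (up A Λ) (deck V ψ) := freeAct_deck hψ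
    obtain ⟨β, hβ⟩ := (hB _ (cov G lab Λ) (up A Λ)).2 (Cp q) (deck V ψ) fd.toAct
    obtain ⟨β', hβ'⟩ := (hB _ (JG q) Set.univ).2 (Cp q) (Jα q a b) (jf a b).toAct
    have hT3 : T.transpose * L (ψ (Multiplicative.ofAdd 1)) =
        rot (ang q a) (ang q b) * T.transpose := by
      have h4 : T * T.transpose = 1 := mul_eq_one_comm.1 hT1
      calc T.transpose * L (ψ (Multiplicative.ofAdd 1))
          = T.transpose * (L (ψ (Multiplicative.ofAdd 1)) * T) * T.transpose := by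
            rw [Matrix.mul_assoc, Matrix.mul_assoc, h4, Matrix.mul_one]
        _ = _ := by rw [hT2, ← Matrix.mul_assoc, hT1, Matrix.one_mul]
    obtain ⟨P0, -, -, hv⟩ := hT (Cp q) _ _ (cov G lab Λ) (up A Λ) (deck V ψ) β (JG q) Set.univ
      (Jα q a b) β' (hc.trans (e.trans ((tS_SphCov hT1).trans hj.symm))) P fd (jf a b) f3 hβ hβ'
      (eqv_SphCov β β' _ fun y => by
        have h5 := hhc (ψ (Multiplicative.ofAdd 1)) y (β (Multiplicative.ofAdd 1) y)
          fun v l => hβ (Multiplicative.ofAdd 1) y (v, l)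
        refine hj.injective (Subtype.ext ?_)
        rw [hhj a b _ _ (hβ' (Multiplicative.ofAdd 1) _)]
        simp only [Homeomorph.trans_apply, Homeomorph.apply_symm_apply]
        change T.transpose.mulVec (e (hc _)).1 =
          (rot (ang q a) (ang q b)).mulVec (T.transpose.mulVec (e (hc y)).1)
        rw [h5, hL, mulVec_mulVec, mulVec_mulVec, hT3])
      (fr_SphCov P hP0 _)
    exact hv _ (hV q hq a b)

end

end Pool.Agent.MP_6374aa_gt
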