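import Pool.Agent.MP_6374aa_gt.IfD

/-!
The type of the unique site of a spherical piece.
-/

namespace Pool.Agent.MP_6374aa_gt

open Classical

theorem iso_SphSite {V Λ L : Type} {G : SimpleGraph V} {A : Set V} [Group Λ] [Group L]
    {lab : V → V → Λ} {lab' : V → V → L} (h : Flat G A lab) (h' : Flat G A lab') (ω : Λ ≃* L)
    {k : V → L} (hk : ∀ u ∈ A, ∀ w ∈ A, Adq G u w → lab' u w = k u * ω (lab u w) * (k w)⁻¹) :
    IsIso (cov G lab' L) (up A L) (cov G lab Λ) (up A Λ)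
      fun p => (p.1, ω.symm ((k p.1)⁻¹ * p.2)) := by
  refine ⟨⟨fun p hp => hp, ?_, fun q hq => ⟨(q.1, k q.1 * ω q.2), hq, by simp⟩⟩,
    fun p hp q hq => ?_⟩
  · rintro ⟨u, l⟩ - ⟨w, l'⟩ - e
    obtain ⟨rfl, e'⟩ := Prod.mk.inj e
    exact Prod.ext rfl (mul_left_cancel (ω.symm.injective e'))
  · rw [cov_adj'_GrB1 h' hp hq, cov_adj'_GrB1 h (by exact hp) (by exact hq)]
    refine and_congr_right fun ha => ?_
    simp only [smul_eq_mul]
    rw [hk _ hp _ hq (Or.inr ha), MulEquiv.symm_apply_eq, map_mul, MulEquiv.apply_symm_apply,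
      inv_mul_eq_iff_eq_mul, mul_assoc, mul_assoc]

theorem sphSite (hQ : ClQ1Stmt) (hF : FlStmt) : SphSiteStmt := by
  rintro V Λ G A _ _ lab χ P x θ hl - hΛ hθ ⟨Q, hQe⟩ hV L _ _ ρ hinj hsurj - p _ hp δ ψ hψ hψ1
  have hr : Function.Bijective (ρ.comp (P.Λ x).subtype) :=
    ⟨(injective_iff_map_eq_one _).2 fun γ hγ => Subtype.ext (hinj γ γ.2 hγ), fun l =>
      let ⟨γ, h1, h2⟩ := hsurj l
      ⟨⟨γ, h1⟩, h2⟩⟩
  let ω : Λ ≃* L := θ.symm.trans (MulEquiv.ofBijective _ hr)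
  have hω : ∀ γ : P.Λ x, ω (θ γ) = ρ γ := fun γ => by simp [ω]
  obtain ⟨k, -, hk⟩ := exists_gauge P.conn (P.mem x) (ρ := ρ)
    (σ := ω.toMonoidHom.comp (glift G A lab)) fun γ hγ => by
      have := hω ⟨γ, hΛ ▸ hγ⟩
      rw [hθ] at this
      exact this.symm
  have hi := iso_SphSite hl (flat_hom ρ) ω (k := k) fun u hu w hw huw => by
    rw [hk u hu w hw huw, MonoidHom.comp_apply, glift_gen hl]
    rfl
  have hψ' : Function.Injective (ω.symm.toMonoidHom.comp ψ) := ω.symm.injective.comp hψ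
  obtain ⟨a, b, h1, h2⟩ := hV p hp _ hψ'
  obtain ⟨P', j, hE, -⟩ := (hQ _ _ _ _ _ _ _ hi.cl (P.fin3.cov (flat_hom ρ))).1.2 Q
  obtain ⟨h3, h4⟩ := hF (Cp p) _ _ _ _ _ _ _ _ _ Q P' j (freeAct_deck hψ') (freeAct_deck hψ)
    (fun g q _ => by simp [deck, mul_assoc]) hE fun y => hQe.elim y
  refine ⟨P', h3, a, b, ?_, (h4 _).2 h2⟩
  rw [← h1, MonoidHom.comp_apply, hψ1, ← hω]
  exact congrArg χ (ω.symm_apply_apply _).symm

end Pool.Agent.MP_6374aa_gt
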