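import Pool.Agent.MP_6374aa_gt.IfA
import Pool.Agent.MP_f7db47_al.Reg

/-! Idempotent matrices over the Laurent ring in two variables are stably free. -/

namespace Pool.Agent.MP_6374aa_gt

open Pool.Agent.MP_f7db47_al

lemma regular_StabFree : RegularRing ℚ := by
  refine ⟨inferInstance, fun M _ => ?_⟩
  refine (CategoryTheory.projectiveDimension_ne_top_iff M).2 ⟨0, ?_⟩
  exact (CategoryTheory.projective_iff_hasProjectiveDimensionLE_zero M).1 inferInstance

lemma polyZ_StabFree : PolyZ (Multiplicative (ℤ × ℤ)) := by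
  refine PolyZ.ext _ (AddMonoidHom.toMultiplicative (AddMonoidHom.fst ℤ ℤ)) ?_
  refine PolyZ.ext _ ((AddMonoidHom.toMultiplicative (AddMonoidHom.snd ℤ ℤ)).comp
    (Subgroup.subtype _)) ?_
  refine PolyZ.triv _ ⟨fun a b => ?_⟩
  have key : ∀ c : ((AddMonoidHom.toMultiplicative (AddMonoidHom.snd ℤ ℤ)).comp
      (Subgroup.subtype (AddMonoidHom.toMultiplicative (AddMonoidHom.fst ℤ ℤ)).ker)).ker,
      c = 1 := by
    intro c
    have h1 := (MonoidHom.mem_ker).1 c.1.2
    have h2 := (MonoidHom.mem_ker).1 c.2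
    apply Subtype.ext
    apply Subtype.ext
    apply Multiplicative.toAdd.injective
    apply Prod.ext
    · exact congrArg Multiplicative.toAdd h1
    · exact congrArg Multiplicative.toAdd h2
  rw [key a, key b]

lemma factor_StabFree {k : ℕ} (e : Matrix (Fin k) (Fin k) ℚ) (he : e * e = e) :
    ∃ (l : ℕ) (U : Matrix (Fin k) (Fin l) ℚ) (V : Matrix (Fin l) (Fin k) ℚ),
      U * V = e ∧ V * U = 1 := by
  classical
  let f := Matrix.toLin' e
  let W := LinearMap.range f
  let b := Module.finBasis ℚ W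
  let c := Pi.basisFun ℚ (Fin k)
  refine ⟨_, LinearMap.toMatrix b c W.subtype, LinearMap.toMatrix c b f.rangeRestrict, ?_, ?_⟩
  · rw [← LinearMap.toMatrix_comp]
    have : W.subtype ∘ₗ f.rangeRestrict = f := by ext; rfl
    rw [this]
    simp [f, c]
  · rw [← LinearMap.toMatrix_comp]
    have : f.rangeRestrict ∘ₗ W.subtype = LinearMap.id := by
      apply LinearMap.ext
      rintro ⟨_, x, rfl⟩
      apply Subtype.ext
      show f (f x) = f x
      simp only [f, Matrix.toLin'_apply, Matrix.mulVec_mulVec, he]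
    rw [this, LinearMap.toMatrix_id]

theorem stabFree : StabFreeStmt := by
  intro n p hp
  obtain ⟨m, k, e, X, Y, he, h1, h2⟩ :=
    k0Onto_of_G0 (polyZ_base regular_StabFree polyZ_StabFree).2 n p hp
  obtain ⟨l, U, V, hUV, hVU⟩ := factor_StabFree e he
  refine ⟨m, l, X * U.map (MonoidAlgebra.single (1 : Multiplicative (ℤ × ℤ))),
    V.map (MonoidAlgebra.single (1 : Multiplicative (ℤ × ℤ))) * Y, ?_, ?_⟩
  · rw [Matrix.mul_assoc, ← Matrix.mul_assoc (U.map _), map_single_mul, hUV, one_mul, ← h2,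
      ← Matrix.mul_assoc, ← Matrix.mul_assoc, Matrix.mul_assoc (X * Y), h1,
      Matrix.fromBlocks_multiply]
    simp [hp]
  · rw [Matrix.mul_assoc, ← Matrix.mul_assoc Y, h2, map_single_mul, map_single_mul, ← hUV,
      Matrix.mul_assoc, hVU, Matrix.mul_one, hVU]
    simp only [one_mul]
    exact map_single_one_one

end Pool.Agent.MP_6374aa_gt
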