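import Pool.Agent.MP_6374aa_gt.IfA

/-! Stably free idempotents are stably conjugate to diagonal ones. -/

namespace Pool.Agent.MP_6374aa_gt

open Matrix

theorem core_StdIdem {S A K : Type} [CommRing S] [Fintype A] [DecidableEq A] [Fintype K]
    [DecidableEq K] (X : Matrix A K S) (Y : Matrix K A S) (h : Y * X = 1) :
    fromBlocks (1 - X * Y) X Y 0 * fromBlocks (1 - X * Y) X Y 0 = 1 ∧
      fromBlocks (1 - X * Y) X Y 0 * fromBlocks (X * Y) 0 0 0 * fromBlocks (1 - X * Y) X Y 0 =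
        fromBlocks 0 0 0 1 := by
  have h1 : (1 - X * Y) * X = 0 := by
    rw [Matrix.sub_mul, Matrix.one_mul, Matrix.mul_assoc, h, Matrix.mul_one, sub_self]
  have h2 : Y * (1 - X * Y) = 0 := by
    rw [Matrix.mul_sub, Matrix.mul_one, ← Matrix.mul_assoc, h, Matrix.one_mul, sub_self]
  have h3 : (1 - X * Y) * (X * Y) = 0 := by rw [← Matrix.mul_assoc, h1, Matrix.zero_mul]
  have h4 : Y * (X * Y) = Y := by rw [← Matrix.mul_assoc, h, Matrix.one_mul]
  constructor
  · rw [fromBlocks_multiply, h1, h2, h, mul_sub, mul_one, h3, ← fromBlocks_one]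
    simp
  · rw [fromBlocks_multiply, h3, h4, fromBlocks_multiply]
    simp [h2, h]

theorem stdIdem : StdIdemStmt := by
  intro S _ hS W _ _ e he
  let σ := Fintype.equivFin W
  obtain ⟨m, k, X, Y, h1, h2⟩ := hS _ (e.submatrix σ.symm σ.symm)
    (by rw [submatrix_mul_equiv, he])
  let τ : W ⊕ Fin m ≃ Fin (Fintype.card W) ⊕ Fin m := σ.sumCongr (Equiv.refl _)
  have h3 : X.submatrix τ id * Y.submatrix id τ = fromBlocks e 0 0 1 := by
    rw [← submatrix_mul X Y τ id τ Function.bijective_id, h1]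
    ext (i | i) (j | j) <;> simp [τ, one_apply]
  have h4 : Y.submatrix id τ * X.submatrix τ id = 1 := by
    rw [submatrix_mul_equiv, h2, submatrix_id_id]
  obtain ⟨c1, c2⟩ := core_StdIdem _ _ h4
  rw [h3] at c1 c2
  generalize fromBlocks (1 - fromBlocks e 0 0 1) (X.submatrix τ id) (Y.submatrix id τ) 0 = Q
    at c1 c2
  let a : W ⊕ Fin m ⊕ Fin k ≃ (W ⊕ Fin m) ⊕ Fin k := (Equiv.sumAssoc _ _ _).symm
  have c3 : Q.submatrix a a * Q.submatrix a a = 1 := by
    rw [submatrix_mul_equiv, c1, submatrix_one_equiv]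
  refine ⟨Fin m ⊕ Fin k, inferInstance, inferInstance, Sum.isLeft, fun x => (a x).isRight,
    Q.submatrix a a, Q.submatrix a a, c3, c3, ?_⟩
  have e1 : fromBlocks e 0 0 (diagonal fun x : Fin m ⊕ Fin k => if x.isLeft then (1 : S) else 0) =
      (fromBlocks (fromBlocks e 0 0 1) 0 0 0).submatrix a a := by
    ext (i | i | i) (j | j | j) <;> simp [a, one_apply, diagonal_apply]
  rw [e1, submatrix_mul_equiv, submatrix_mul_equiv, c2]
  ext (i | i | i) (j | j | j) <;> simp [a, one_apply, diagonal_apply]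

end Pool.Agent.MP_6374aa_gt
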