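import Pool.Agent.MP_6374aa_gt.IfD

/-! Typed packs of connected sums and of doubles. -/

namespace Pool.Agent.MP_6374aa_gt

open Classical

theorem fin3_SumS {V V' : Type} {G : SimpleGraph V} {A : Set V} {G' : SimpleGraph V'} {A' : Set V'}
    {f : V' → V} (h : IsIso G' A' G A f) (hA : Fin3 G A) : Fin3 G' A' := by
  refine ⟨Set.Finite.of_injOn h.1.mapsTo h.1.injOn hA.1, fun s hs hc => ?_⟩
  rw [← Finset.card_image_of_injOn (h.1.injOn.mono hs)]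
  refine hA.2 _ ?_ ?_
  · rw [Finset.coe_image]
    rintro _ ⟨x, hx, rfl⟩
    exact h.1.mapsTo (hs hx)
  · rw [Finset.coe_image]
    rintro _ ⟨x, hx, rfl⟩ _ ⟨y, hy, rfl⟩ hne
    exact (h.2 x (hs hx) y (hs hy)).1 (hc hx hy fun e => hne (by rw [e]))

theorem graft_SumS (hG : GraftStmt) (hC : GraftCovStmt) (hE : SiteExtStmt) {V : Type}
    {G : SimpleGraph V} {A M B : Set V} {v : V} (h : Graft G A M B v) (hA : Mf G A) (hM : Mf G M)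
    (P1 : Pack G A) (P2 : Pack G M) : ∃ (Q : Pack G B) (j1 : P1.X → Q.X) (j2 : P2.X → Q.X),
      (∀ x, x ∈ Set.range j1 ∨ x ∈ Set.range j2) ∧ ∀ (Λ : Type) [Group Λ] (χ : Λ → ℝ), ClassFn χ →
        (∀ x, SiteOf P1 x Λ χ → SiteOf Q (j1 x) Λ χ) ∧
          ∀ x, SiteOf P2 x Λ χ → SiteOf Q (j2 x) Λ χ := by
  obtain ⟨Q, j1, j2, e1, e2, h3⟩ := hG V G A M B v P1 P2 h hM
  exact ⟨Q, j1, j2, h3, fun Λ _ χ hχ =>
    ⟨fun x => hE _ _ _ _ _ _ _ _ _ _ x Λ χ e1 (hC _ _ _ _ _ _ h hM ⟨P2⟩) hχ,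
      fun x => hE _ _ _ _ _ _ _ _ _ _ x Λ χ (e2 hA) (hC _ _ _ _ _ _ h.symm hA ⟨P1⟩) hχ⟩⟩

theorem sumS (hG : GraftStmt) (hC : GraftCovStmt) (hM : MfGraftStmt) (hE : SiteExtStmt) :
    SumStmt := by
  intro V ι G S Λ _ χ hχ hS A s h
  induction h with
  | one i =>
    obtain ⟨h1, Q, h2, h3⟩ := hS i
    refine ⟨h1, Q, fun x => ⟨i, h2 x⟩, ?_⟩
    rintro _ rfl h4
    obtain ⟨x⟩ := h3 h4
    exact ⟨x, h2 x⟩
  | sum _ _ h ih1 ih2 =>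
    obtain ⟨a1, P1, a2, a3⟩ := ih1
    obtain ⟨b1, P2, b2, b3⟩ := ih2
    obtain ⟨Q, j1, j2, h1, h2⟩ := graft_SumS hG hC hE h a1 b1 P1 P2
    refine ⟨hM _ _ _ _ _ _ h a1 b1, Q, fun x => ?_, ?_⟩
    · rcases h1 x with ⟨y, rfl⟩ | ⟨y, rfl⟩
      · obtain ⟨i, hi⟩ := a2 y
        exact ⟨i, (h2 _ _ (hχ i)).1 y hi⟩
      · obtain ⟨i, hi⟩ := b2 y
        exact ⟨i, (h2 _ _ (hχ i)).2 y hi⟩
    · rintro i (hi | hi) h3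
      · obtain ⟨y, hy⟩ := a3 i hi h3
        exact ⟨_, (h2 _ _ (hχ i)).1 y hy⟩
      · obtain ⟨y, hy⟩ := b3 i hi h3
        exact ⟨_, (h2 _ _ (hχ i)).2 y hy⟩

theorem doubleS (hG : GraftStmt) (hC : GraftCovStmt) (hM : MfGraftStmt) (hE : SiteExtStmt)
    (hI : MfIsoStmt) (hQ : ClQ1Stmt) (hK : QCompStmt) : DoubleStmt := by
  intro ι Λ _ χ L' L c hχ h hA ⟨P0⟩
  cases h with
  | mk G A M A' v f h hf =>
    have h1 : Mf G M := (hI _ _ _ _ _ _ _ hf).1 hA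
    have h2 := hQ _ _ _ _ _ _ _ hf.cl (fin3_SumS hf P0.fin3)
    obtain ⟨P2, -⟩ := h2.1.2 P0
    refine ⟨hM _ _ _ _ _ _ h hA h1, fun P => ?_, hC _ _ _ _ _ _ h h1 ⟨P2⟩, ?_⟩
    · obtain ⟨Q, j1, _, e1, -⟩ := hG _ G A M A' v P P2 h h1
      exact ⟨Q, j1, e1⟩
    · rintro ⟨P, hP⟩
      obtain ⟨P', j, e, hj⟩ := h2.1.2 P
      obtain ⟨Q, j1, j2, h3, h4⟩ := graft_SumS hG hC hE h hA h1 P P'
      refine ⟨Q, fun x => ?_⟩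
      rcases h3 x with ⟨y, rfl⟩ | ⟨y, rfl⟩
      · obtain ⟨i, hi⟩ := hP y
        exact ⟨i, (h4 _ _ (hχ i)).1 y hi⟩
      · obtain ⟨z, rfl⟩ := hj y
        obtain ⟨i, hi⟩ := hP z
        exact ⟨i, (h4 _ _ (hχ i)).2 _ (hE _ _ _ _ _ _ _ _ _ _ z _ _ e
          ((hK _ _ _ G A G M G M f id).2.2.2.2 h2) (hχ i) hi)⟩

end Pool.Agent.MP_6374aa_gt
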