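import Pool.Agent.MP_6374aa_gt.IfT

/-! Interleaved systems preserve the value. -/

namespace Pool.Agent.MP_6374aa_gt

theorem sc_SysS {C : Type} [CommGroup C] [Fintype C] {L : ℕ → Lev C}
    {φ : ∀ i, (L (i + 1)).V → (L i).V} {c : ∀ i, (L (i + 2)).V → (L i).V} (h : IsSys T0 L φ c)
    (i : ℕ) : SC (L (i + 2)).G (L (i + 2)).A (L i).G (c i) (φ i ∘ φ (i + 1)) :=
  fun a ha b hb hab => h.sc i a ha b hb
    ((Near.of_adq hb hab).mono ha (Nat.one_le_pow _ _ (by norm_num)))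

theorem old_SysS {V0 V1 V2 : Type} {G0 : SimpleGraph V0} {A0 : Set V0} {G1 : SimpleGraph V1}
    {A1 : Set V1} {G2 : SimpleGraph V2} {A2 : Set V2} {φ0 : V1 → V0} {φ1 : V2 → V1} {c : V2 → V0}
    (h0 : IsHom G1 A1 G0 A0 φ0) (h1 : IsHom G2 A2 G1 A1 φ1) (hc : IsHom G2 A2 G0 A0 c)
    (hs : SC G2 A2 G0 c (φ0 ∘ φ1)) {P0 : Pack G0 A0} {P2 : Pack G2 A2} {x : P0.X} {x' : P2.X}
    (hm : MatchAt c P2 x' P0 x) (hk : ∀ δ ∈ P2.Λ x', gmap G2 A2 G1 A1 φ1 δ = 1) : False := by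
  refine P2.ne x' ((Subgroup.eq_bot_iff_forall _).2 fun δ hδ => hm.1 δ hδ ?_)
  have h2 := ((mem_Loop (P2.mem x')).1 (P2.loop x' hδ)).gmap_sc hc (h0.comp h1) hs
  rw [← gmap_comp h0 h1, hk δ hδ, map_one, eq_comm, mul_eq_one_iff_eq_inv,
    inv_mul_eq_iff_eq_mul, mul_inv_cancel] at h2
  exact h2

theorem sysS (hC : CtGeoStmt) (hG : GeoStmt) (hA : AdmStmt) (hF : FlStmt) (hD : DichStmt)
    (hE : ExtDichStmt) : SysStmt := by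
  intro C _ _ _ L φ c P0 P1 hs hq h0 h1
  have step : ∀ i (P : Pack (L i).G (L i).A), Fr P (L i).α →
      ∃ (P' : Pack (L (i + 2)).G (L (i + 2)).A) (j : P.X → P'.X), Ext (c i) P' P j ∧
        Fr P' (L (i + 2)).α ∧ ∀ τ, Val (L (i + 2)).G (L (i + 2)).A (L (i + 2)).α τ ↔
          Val (L i).G (L i).A (L i).α τ := fun i P hP => by
    obtain ⟨P', j, he⟩ := hq i P
    exact ⟨P', j, he, hF C _ _ _ _ _ _ _ _ _ P P' j (hs.free i) (hs.free (i + 2)) (hs.ec i) he hP⟩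
  have hall : ∀ i, ∃ P : Pack (L i).G (L i).A, Fr P (L i).α := fun i => by
    induction i using Nat.twoStepInduction with
    | zero => exact ⟨P0, h0⟩
    | one => exact ⟨P1, h1⟩
    | more i ih _ =>
      obtain ⟨P, hP⟩ := ih
      obtain ⟨P', -, -, h, -⟩ := step i P hP
      exact ⟨P', h⟩
  have hval : ∀ i τ, Val (L (i + 2)).G (L (i + 2)).A (L (i + 2)).α τ ↔
      Val (L i).G (L i).A (L i).α τ := fun i => by
    obtain ⟨P, hP⟩ := hall i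
    obtain ⟨-, -, -, -, h⟩ := step i P hP
    exact h
  have hloc : ∀ i, Loc (L (i + 2)).G (L (i + 2)).A (L i).G (L i).A (c i) := fun i => by
    obtain ⟨P, -⟩ := hall i
    obtain ⟨_, _, h⟩ := hq i P
    exact h.loc
  have hfin : ∀ i, Fin3 (L i).G (L i).A := fun i => (hall i).elim fun P _ => P.fin3
  obtain ⟨P5, h5⟩ := hall 5
  obtain ⟨P6, h6⟩ := hall 6
  obtain ⟨P7, j5, e5, h7, -⟩ := step 5 P5 h5
  obtain ⟨P8, j6, e6⟩ := hq 6 P6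
  obtain ⟨P9, j7, e7⟩ := hq 7 P7
  obtain ⟨b, hb⟩ := hD _ _ _ _ _ _ _ _ _ _ _ _ (φ 6) (φ 7) (φ 8) (c 6) (c 7) P6 P7 P8 P9 j6 j7
    (hs.hφ 6) (hs.hφ 7) (hs.hφ 8) (sc_SysS hs 6) (sc_SysS hs 7) (hE _ _ _ _ _ _ _ _ _ _ e6)
    (hE _ _ _ _ _ _ _ _ _ _ e7)
  obtain ⟨J1, J2, _, _, _, _, z, dz, y, dy, loc, ha, hl⟩ := hA C _ _ _ _ _ (L 6).α _ _ (L 7).α
    P6 P7 (φ 6) b (c 5) (L 5).A (hs.free 6).toAct (hs.free 7).toAct (hs.eφ 6) h7 hb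
    fun n hn x' hx' => e5.loc1 n hn x' (by
      rintro ⟨x, rfl⟩
      exact old_SysS (hs.hφ 5) (hs.hφ 6) (hs.hc 5) (sc_SysS hs 5) (e5.old x) (hb.kill _ hx'))
  obtain ⟨pos, pz, w, B0, hg⟩ := hC C L φ c J1 J2 z dz y dy loc hs hfin P7.conn hloc ha hl
  have h76 := hG C _ _ _ _ _ _ _ _ _ _ _ _ _ _ J1 J2 z dz y dy pz w P6 P7 (hs.free 6) (hs.free 7)
    h6 h7 (hs.hφ 6) (hs.eφ 6) hg ha
  intro τ
  exact ((((hval 5 τ).trans (hval 3 τ)).trans (hval 1 τ)).symm.trans (h76 τ)).trans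
    (((hval 4 τ).trans (hval 2 τ)).trans (hval 0 τ))

theorem topS (hS : SysStmt) (hP : SePhiStmt) (hf : PfStmt) (hR : FrSeStmt) : TopStmt := by
  intro C _ _ _ L φ c P1 hs h0 hq h1
  have hse := hP _ _ _ _ _ _ _ _ _ _ _ _ (φ 0) (φ 1) (φ 2) (c 0) (c 1) (hs.hφ 0) (hs.hφ 1)
    (hs.hφ 2) (sc_SysS hs 0) (sc_SysS hs 1) (hq 0).1 (hq 1).1
  obtain ⟨P0, b, hb⟩ := hf _ _ _ _ _ _ (φ 0) P1 hse h0
  have hfr := hR C _ _ _ _ (L 0).α _ _ (L 1).α (φ 0) P0 P1 b (hs.free 0).toAct (hs.free 1).toAct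
    (hs.eφ 0) hse hb h1
  exact ⟨P0, b, hb, hfr, hS C L φ c P0 P1 hs
    (fun i P => ((hq i).2 P).imp fun _ h => h.imp fun _ h => h.1) hfr h1⟩

end Pool.Agent.MP_6374aa_gt
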