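import Pool.Agent.MP_6374aa_gt.IfD

namespace Pool.Agent.MP_6374aa_gt

open Classical

theorem rl_ne_TopHomeo {U : Type} [Fintype U] (K : SimpleGraph U) {B : Set U} (hB : B.Nonempty) :
    Nonempty (Rl K B) := by
  obtain ⟨b, hb⟩ := hB
  have h : ∀ v, (if v = b then (1 : ℝ) else 0) ≠ 0 → v = b := fun v hv => by
    by_contra h
    exact hv (if_neg h)
  refine ⟨⟨fun v => if v = b then 1 else 0, fun v => ?_, by simp, fun v hv => h v hv ▸ hb,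
    fun u v hu hv => Or.inl ((h u hu).trans (h v hv).symm)⟩⟩
  dsimp only
  split_ifs
  exacts [zero_le_one, le_rfl]

theorem ne_rl_TopHomeo {V : Type} [Fintype V] {G : SimpleGraph V} {A : Set V} (x : Rl G A) :
    A.Nonempty := by
  obtain ⟨v, -, hv⟩ := Finset.exists_ne_zero_of_sum_ne_zero (x.2.2.1.trans_ne one_ne_zero)
  exact ⟨v, x.2.2.2.1 v hv⟩

theorem sys_TopHomeo (hI : InterStmt) (hS : SdStmt) (hB : RlBasicStmt) (hQ : ClQ1Stmt)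
    (hC : QCompStmt) {C : Type} [CommGroup C] [Fintype C] {V U : Type} [Fintype V] [Fintype U]
    {G : SimpleGraph V} {A : Set V} {α : C →* Equiv.Perm V} {β : C →* Equiv.Perm (Rl G A)}
    {K : SimpleGraph U} {B : Set U} {α' : C →* Equiv.Perm U} {β' : C →* Equiv.Perm (Rl K B)}
    (h : Rl G A ≃ₜ Rl K B) (P : Pack K B) (hα : FreeAct G A α) (hα' : FreeAct K B α')
    (hA : Fin3 G A) (hβ : IsRact α β) (hβ' : IsRact α' β') (he : ∀ g x, h (β g x) = β' g (h x)) :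
    ∃ (L : ℕ → Lev C)
      (φ : ∀ i, (Lev.cons ⟨V, G, A, α⟩ L (i + 1)).V → (Lev.cons ⟨V, G, A, α⟩ L i).V)
      (c : ∀ i, (Lev.cons ⟨V, G, A, α⟩ L (i + 2)).V → (Lev.cons ⟨V, G, A, α⟩ L i).V)
      (e : (L 0).V → U), IsSys T0 (Lev.cons ⟨V, G, A, α⟩ L) φ c ∧ Q1 (L 0).G (L 0).A K B e ∧
      Eqv (L 0).A (L 0).α α' e ∧
      (∀ i, Fin3 (Lev.cons ⟨V, G, A, α⟩ L i).G (Lev.cons ⟨V, G, A, α⟩ L i).A) ∧
      ∀ i, Q1 (Lev.cons ⟨V, G, A, α⟩ L (i + 2)).G (Lev.cons ⟨V, G, A, α⟩ L (i + 2)).A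
        (Lev.cons ⟨V, G, A, α⟩ L i).G (Lev.cons ⟨V, G, A, α⟩ L i).A (c i) := by
  obtain ⟨y⟩ := rl_ne_TopHomeo K P.conn.1
  have : Nonempty (Rl G A) := ⟨h.symm y⟩
  have := (hB V G A).1
  obtain ⟨L1, c1, K1, D1, O1, t1, -, q1⟩ :=
    hS C V G A α β hα hA (ne_rl_TopHomeo (h.symm y)) hβ
  obtain ⟨L2, c2, K2, D2, O2, t2, -, q2⟩ := hS C U K B α' β' hα' P.fin3 P.conn.1 hβ'
  obtain ⟨L, φ, c, e, hs, h1, h2, h3⟩ := hI C (Rl G A) (Rl K B) β β' _ c1 K1 D1 O1 _ c2 K2 D2 O2 h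
    (fun L' L f => Q1 L'.G L'.A L.G L.A f ∧ Fin3 L'.G L'.A) T0 t1 t2 he
    (fun L'' L' L f g hf hg => ⟨(hC _ _ _ _ _ _ _ _ _ f g).2.2.2.1 hf.1 hg.1, hg.2⟩)
    (fun n => ⟨hQ _ _ _ _ _ _ _ (q1 n).2 (q1 n).1, (q1 n).1⟩)
    (fun n => ⟨hQ _ _ _ _ _ _ _ (q2 n).2 (q2 n).1, (q2 n).1⟩)
  refine ⟨L, φ, c, e, hs, h1.1, h2, fun i => ?_, fun i => (h3 i).1⟩
  rcases i with _ | _ | i
  exacts [hA, h1.2, (h3 i).2]

theorem topHomeo (hI : InterStmt) (hS : SdStmt) (hB : RlBasicStmt) (hQ : ClQ1Stmt)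
    (hC : QCompStmt) (hT : TopStmt) (hF : FlStmt) : TopHomeoStmt := by
  intro C _ _ _ V U _ _ G A α β K B α' β' h P hα hα' hA hβ hβ' he hP
  obtain ⟨L, φ, c, e, hs, h1, h2, h3, h4⟩ := sys_TopHomeo hI hS hB hQ hC h P hα hα' hA hβ hβ' he
  obtain ⟨P1, j, hj, hj'⟩ := h1.1.2 P
  obtain ⟨f1, f2⟩ :=
    hF C U (L 0).V K B α' (L 0).G (L 0).A (L 0).α e P P1 j hα' (hs.free 1) h2 hj hP
  obtain ⟨P0, b, -, g1, g2⟩ := hT C _ φ c P1 hs (h3 0) (fun i => (h4 i).1) f1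
  exact ⟨P0, b.trans (Equiv.ofBijective j ⟨hj.inj, hj'⟩).symm, g1,
    fun τ hτ => (g2 τ).1 ((f2 τ).2 hτ)⟩

theorem typS (hI : InterStmt) (hS : SdStmt) (hB : RlBasicStmt) (hQ : ClQ1Stmt) (hC : QCompStmt)
    (hT : SiteTopStmt) (hE : SiteExtStmt) : TypStmt := by
  intro V U _ _ G A K B h P hA
  obtain ⟨L, φ, c, e, hs, h1, -, h3, h4⟩ := sys_TopHomeo (C := C1) (α := 1) (β := 1) (α' := 1)
    (β' := 1) hI hS hB hQ hC h P (freeAct_one G A) (freeAct_one K B) hA (fun _ _ _ => rfl)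
    (fun _ _ _ => rfl) fun _ _ => rfl
  obtain ⟨P1, j, hj, hj'⟩ := h1.1.2 P
  have hcov : CovQ (L 0).G (L 0).A K B e :=
    (hC U (L 0).V (L 0).V K B (L 0).G (L 0).A (L 0).G (L 0).A e id).2.2.2.2 h1
  obtain ⟨P0, b, g⟩ := hT _ φ c P1 hs h3 h4
  refine ⟨P0, b.trans (Equiv.ofBijective j ⟨hj.inj, hj'⟩).symm, fun x Λ _ χ hχ hx => ?_⟩
  refine g x Λ χ hχ ?_
  have := hE U (L 0).V K B (L 0).G (L 0).A e P P1 j _ Λ χ hj hcov hχ hx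
  exact (Equiv.ofBijective j ⟨hj.inj, hj'⟩).apply_symm_apply (b x) ▸ this

end Pool.Agent.MP_6374aa_gt
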