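import Pool.Agent.MP_6374aa_gt.IfA

/-! Multiplicativity of torsion for block triangular differentials. -/

namespace Pool.Agent.MP_6374aa_gt

open Matrix

theorem mul_ne_TorBlock {R I J K : Type} [CommRing R] [Fintype J] {x : Matrix I J R}
    {y : Matrix J K R} {i : I} {k : K} (h : (x * y) i k ≠ 0) : ∃ j, x i j ≠ 0 ∧ y j k ≠ 0 := by
  rw [mul_apply] at h
  obtain ⟨j, -, hj⟩ := Finset.exists_ne_zero_of_sum_ne_zero h
  exact ⟨j, left_ne_zero_of_mul hj, right_ne_zero_of_mul hj⟩

theorem torBlock : TorBlockStmt := by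
  intro R I J _ _ _ _ _ da dc a b c u w hc ⟨h, hh, e₁, hu⟩ ⟨k, hk, e₂, hw⟩
  have hab : a * b + b * c = 0 := by
    have := hc.2
    rw [fromBlocks_multiply, ← fromBlocks_zero, fromBlocks_inj] at this
    exact this.2.1
  refine ⟨u * w, ⟨fromBlocks h (-(h * b * k)) 0 k, ⟨?_, ?_⟩,
    Equiv.subtypeSum.trans ((e₁.sumCongr e₂).trans
      (Equiv.subtypeSum (p := fun i => ¬ Odd (Sum.elim da dc i))).symm), ?_⟩, Or.inl rfl⟩
  · rintro (i | i) (j | j) hij
    · exact hh.1 i j hij
    · rw [fromBlocks_apply₁₂, neg_apply, neg_ne_zero] at hij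
      obtain ⟨j', h1, h2⟩ := mul_ne_TorBlock hij
      obtain ⟨i', h3, h4⟩ := mul_ne_TorBlock h1
      have e1 := hh.1 _ _ h3
      have e2 := hk.1 _ _ h2
      have e3 : dc j' = da i' + 1 := hc.1 (Sum.inl i') (Sum.inr j') h4
      change da i = dc j + 1
      omega
    · exact absurd rfl hij
    · exact hk.1 i j hij
  · have e1 : a * h = 1 - h * a := eq_sub_of_add_eq hh.2
    have e2 : k * c = 1 - c * k := eq_sub_of_add_eq' hk.2
    have e3 : a * -(h * b * k) + b * k + (h * b + -(h * b * k) * c) = h * (a * b + b * c) * k := by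
      rw [Matrix.mul_neg, Matrix.neg_mul, ← Matrix.mul_assoc, ← Matrix.mul_assoc, e1,
        Matrix.mul_assoc (h * b) k c, e2]
      simp only [Matrix.sub_mul, Matrix.mul_sub, Matrix.mul_add, Matrix.add_mul, Matrix.one_mul,
        Matrix.mul_one, Matrix.mul_assoc]
      abel
    rw [fromBlocks_multiply, fromBlocks_multiply, fromBlocks_add, e3, hab, ← fromBlocks_one]
    simp only [Matrix.mul_zero, Matrix.zero_mul, add_zero, zero_add, hh.2, hk.2]
  · rw [hu, hw, ← det_fromBlocks_zero₂₁ _ (Matrix.of fun (i : {i // Odd (da i)})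
      (j : {j // Odd (dc j)}) => (b + -(h * b * k)) (e₁ i).1 j.1)]
    refine (det_submatrix_equiv_self
      (Equiv.subtypeSum (p := fun i => Odd (Sum.elim da dc i))) _).symm.trans (congrArg det ?_)
    ext ⟨i | i, hi⟩ ⟨j | j, hj⟩
    · rfl
    · rfl
    · exact (add_zero (0 : R)).symm
    · rfl

end Pool.Agent.MP_6374aa_gt
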