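import Pool.Agent.MP_6374aa_gt.IfA

namespace Pool.Agent.MP_6374aa_gt

open Matrix

section Blocks

variable {R I J K : Type} [CommRing R] [Fintype I] {dI : I → ℕ} {dJ : J → ℕ}

theorem left_TorChange (p : ℕ → Prop) [DecidablePred p] {A : Matrix J I R}
    (hA : ∀ j i, A j i ≠ 0 → dJ j = dI i) (X : Matrix I K R) (j : {j // p (dJ j)}) (k : K) :
    (A * X) j.1 k = ∑ i : {i // p (dI i)}, A j.1 i.1 * X i.1 k := by
  rw [mul_apply, ← Finset.sum_subtype (Finset.univ.filter fun i => p (dI i)) (by simp)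
    fun i => A j.1 i * X i k, Finset.sum_filter]
  refine Finset.sum_congr rfl fun i _ => ?_
  split_ifs with h
  · rfl
  · by_contra h1
    exact h (hA _ _ (left_ne_zero_of_mul h1) ▸ j.2)

theorem right_TorChange (p : ℕ → Prop) [DecidablePred p] {A : Matrix I J R}
    (hA : ∀ i j, A i j ≠ 0 → dJ j = dI i) (X : Matrix K I R) (k : K) (j : {j // p (dJ j)}) :
    (X * A) k j.1 = ∑ i : {i // p (dI i)}, X k i.1 * A i.1 j.1 := by
  rw [mul_apply, ← Finset.sum_subtype (Finset.univ.filter fun i => p (dI i)) (by simp)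
    fun i => X k i * A i j.1, Finset.sum_filter]
  refine Finset.sum_congr rfl fun i _ => ?_
  split_ifs with h
  · rfl
  · by_contra h1
    exact h (hA _ _ (right_ne_zero_of_mul h1) ▸ j.2)

theorem inv_TorChange [DecidableEq J] (p : ℕ → Prop) [DecidablePred p] {A : Matrix J I R}
    {A' : Matrix I J R} (hA : ∀ j i, A j i ≠ 0 → dJ j = dI i) (h : A * A' = 1) :
    A.submatrix (Subtype.val : {j // p (dJ j)} → J) (Subtype.val : {i // p (dI i)} → I) *
      A'.submatrix (Subtype.val : {i // p (dI i)} → I) (Subtype.val : {j // p (dJ j)} → J) = 1 := by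
  rw [← submatrix_one _ (Subtype.val_injective (p := fun j => p (dJ j))), ← h]
  ext j j'
  exact (left_TorChange p hA A' j j'.1).symm

theorem det_TorChange [Fintype J] [DecidableEq I] [DecidableEq J] {P : Matrix J I R}
    {Q : Matrix I J R} (hP : ∀ j i, P j i ≠ 0 → dJ j = dI i) (hQ : ∀ i j, Q i j ≠ 0 → dJ j = dI i)
    (X : Matrix I I R) (e : {i // Odd (dI i)} ≃ {i // ¬ Odd (dI i)})
    (eo : {j // Odd (dJ j)} ≃ {i // Odd (dI i)}) (ee : {i // ¬ Odd (dI i)} ≃ {j // ¬ Odd (dJ j)}) :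
    det (of fun j j' : {j // Odd (dJ j)} => (P * X * Q) (eo.trans (e.trans ee) j).1 j'.1) =
      det ((P.submatrix Subtype.val Subtype.val).submatrix ee id) *
        det ((Q.submatrix Subtype.val Subtype.val).submatrix eo id) *
        det (of fun i i' : {i // Odd (dI i)} => X (e i).1 i'.1) := by
  rw [mul_right_comm, ← det_submatrix_equiv_self (eo.trans e), ← det_submatrix_equiv_self eo
    (of fun i i' : {i // Odd (dI i)} => X (e i).1 i'.1), ← det_mul, ← det_mul]
  congr 1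
  ext j j'
  rw [of_apply, right_TorChange Odd hQ, mul_apply, ← eo.sum_comp]
  refine Finset.sum_congr rfl fun k _ => ?_
  rw [left_TorChange (fun n => ¬ Odd n) hP, mul_apply, ← (eo.trans e).sum_comp]
  rfl

theorem ctr_TorChange [Fintype J] [DecidableEq I] [DecidableEq J] {P : Matrix J I R}
    {Q : Matrix I J R} (hP : ∀ j i, P j i ≠ 0 → dJ j = dI i) (hQ : ∀ i j, Q i j ≠ 0 → dJ j = dI i)
    (h1 : P * Q = 1) (h2 : Q * P = 1) {d h : Matrix I I R} (hc : IsCtr dI d h) :
    IsCtr dJ (P * d * Q) (P * h * Q) := by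
  refine ⟨fun j j' h3 => ?_, ?_⟩
  · rw [Matrix.mul_apply] at h3
    obtain ⟨i', -, h4⟩ := Finset.exists_ne_zero_of_sum_ne_zero h3
    have h6 := left_ne_zero_of_mul h4
    rw [Matrix.mul_apply] at h6
    obtain ⟨i, -, h5⟩ := Finset.exists_ne_zero_of_sum_ne_zero h6
    rw [hP _ _ (left_ne_zero_of_mul h5), hc.1 _ _ (right_ne_zero_of_mul h5),
      hQ _ _ (right_ne_zero_of_mul h4)]
  · have h3 : ∀ x y : Matrix I I R, P * x * Q * (P * y * Q) = P * (x * y) * Q := fun x y => by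
      simp only [Matrix.mul_assoc]
      rw [← Matrix.mul_assoc Q, h2, Matrix.one_mul]
    rw [h3, h3, ← Matrix.add_mul, ← Matrix.mul_add, hc.2, Matrix.mul_one, h1]

end Blocks

theorem torChange (hI : InUStmt) : TorChangeStmt := by
  intro C _ _ B I J _ _ _ _ β B0 ρ pI pJ dI dJ P Q d d' τ hV hpI hpJ h1 h2 cP cQ hP hQ hd
    ⟨h, hc, e, hτ⟩
  have hQ' : ∀ i j, Q i j ≠ 0 → dI i = dJ j := fun i j h => (hQ i j h).symm
  have o1 := inv_TorChange Odd hP h1
  have o2 := inv_TorChange Odd hQ' h2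
  have e1 := inv_TorChange (fun n => ¬ Odd n) hP h1
  have e2 := inv_TorChange (fun n => ¬ Odd n) hQ' h2
  have eo : {j // Odd (dJ j)} ≃ {i // Odd (dI i)} := indexEquivOfInv o1 o2
  have ee : {i // ¬ Odd (dI i)} ≃ {j // ¬ Odd (dJ j)} := indexEquivOfInv e2 e1
  have u1 := hV _ _ (fun i : {i // ¬ Odd (dI i)} => pI i.1) (fun j : {j // ¬ Odd (dJ j)} => pJ j.1)
    (fun i => hpI i.1) (fun j => hpJ j.1) _ _ e1 e2 (fun j i => cP j.1 i.1) (fun i j => cQ i.1 j.1)
    ee
  have u2 := hV _ _ (fun j : {j // Odd (dJ j)} => pJ j.1) (fun i : {i // Odd (dI i)} => pI i.1)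
    (fun j => hpJ j.1) (fun i => hpI i.1) _ _ o2 o1 (fun i j => cQ i.1 j.1) (fun j i => cP j.1 i.1)
    eo
  have hPm : ∀ j i, P.map (qq C) j i ≠ 0 → dJ j = dI i := fun j i h =>
    hP j i fun h0 => h (by rw [map_apply, h0, map_zero])
  have hQm : ∀ i j, Q.map (qq C) i j ≠ 0 → dJ j = dI i := fun i j h =>
    hQ i j fun h0 => h (by rw [map_apply, h0, map_zero])
  have hd' : d'.map (qq C) = P.map (qq C) * d.map (qq C) * Q.map (qq C) := by
    rw [← Matrix.map_mul, ← Matrix.map_mul, hd, Matrix.mul_assoc, h1, Matrix.mul_one]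
  refine ⟨_, (hI C).2.1 _ _ u1 u2, P.map (qq C) * h * Q.map (qq C), ?_, eo.trans (e.trans ee), ?_⟩
  · rw [hd']
    refine ctr_TorChange hPm hQm ?_ ?_ hc
    · rw [← Matrix.map_mul, h1, Matrix.map_one _ (map_zero _) (map_one _)]
    · rw [← Matrix.map_mul, h2, Matrix.map_one _ (map_zero _) (map_one _)]
  · rw [hd', ← Matrix.add_mul, ← Matrix.mul_add, det_TorChange hPm hQm, ← hτ, map_mul,
      RingHom.map_det, RingHom.map_det]
    rfl

end Pool.Agent.MP_6374aa_gt
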