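import Pool.Agent.MP_6374aa_gt.IfA

namespace Pool.Agent.MP_6374aa_gt

theorem torMap : TorMapStmt := by
  intro R S I _ _ _ _ f deg d u
  have key : ∀ x, f x ≠ 0 → x ≠ 0 := fun x h e => h (e ▸ map_zero f)
  refine ⟨fun h => ⟨fun i j e => h.1 i j (key _ e), ?_⟩, ?_⟩
  · rw [← Matrix.map_mul, h.2, Matrix.map_zero _ (map_zero f)]
  · rintro ⟨h, ⟨h1, h2⟩, e, rfl⟩
    refine ⟨h.map f, ⟨fun i j e => h1 i j (key _ e), ?_⟩, e, ?_⟩
    · rw [← Matrix.map_mul, ← Matrix.map_mul, ← Matrix.map_add _ (map_add f), h2,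
        Matrix.map_one _ (map_zero f) (map_one f)]
    · rw [RingHom.map_det]
      exact congrArg Matrix.det (Matrix.ext fun i j => map_add f _ _)

theorem torReindex : TorReindexStmt := by
  intro R I J _ _ _ _ _ e deg d u
  refine ⟨fun h => ⟨fun i j h1 => h.1 _ _ h1, ?_⟩, ?_⟩
  · rw [Matrix.submatrix_mul_equiv, h.2]
    rfl
  · rintro ⟨h, ⟨h1, h2⟩, e', rfl⟩
    let a : {j // Odd ((deg ∘ e) j)} ≃ {i // Odd (deg i)} := e.subtypeEquiv fun _ => Iff.rfl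
    let b : {j // ¬ Odd ((deg ∘ e) j)} ≃ {i // ¬ Odd (deg i)} := e.subtypeEquiv fun _ => Iff.rfl
    refine ⟨h.submatrix e e, ⟨fun i j h3 => h1 _ _ h3, ?_⟩, a.trans (e'.trans b.symm), ?_⟩
    · rw [Matrix.submatrix_mul_equiv, Matrix.submatrix_mul_equiv, ← Matrix.submatrix_one_equiv e,
        ← h2]
      rfl
    · rw [← Matrix.det_submatrix_equiv_self a]
      refine congrArg Matrix.det (Matrix.ext fun i j => ?_)
      exact congrArg (fun x => (d + h) x (e j.1)) (e.apply_symm_apply _).symm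

theorem inU : InUStmt := by
  intro C _
  refine ⟨⟨1, 1, one_ne_zero, rfl⟩, ?_, ?_, ?_⟩
  · rintro _ _ ⟨r, g, h, rfl⟩ ⟨r', g', h', rfl⟩
    exact ⟨_, _, mul_ne_zero h h', MonoidAlgebra.single_mul_single _ _ _ _⟩
  · rintro _ ⟨r, g, h, rfl⟩
    exact ⟨-r, g, neg_ne_zero.2 h, (MonoidAlgebra.single_neg _ _).symm⟩
  · rintro _ ⟨r, g, h, rfl⟩
    exact ⟨_, ⟨r⁻¹, g⁻¹, inv_ne_zero h, rfl⟩, by
      rw [MonoidAlgebra.single_mul_single, mul_inv_cancel, mul_inv_cancel₀ h]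
      rfl⟩

end Pool.Agent.MP_6374aa_gt
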