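import Pool.Agent.MP_6374aa_gt.IfA

/-! Torsion of the shifted complex. -/

namespace Pool.Agent.MP_6374aa_gt

open Matrix

variable {R I : Type} [CommRing R] [Fintype I] [DecidableEq I] {deg : I → ℕ} {d h : Matrix I I R}

theorem key_TorNeg (hd : IsCx deg d) (hh : IsCtr deg d h) {J : Type} [Fintype J] [DecidableEq J]
    (a : J ≃ {i // Odd (deg i)}) (b : J ≃ {i // ¬ Odd (deg i)}) :
    det (of fun i j : J => (d + h) (b i).1 (a j).1) *
      det (of fun i j : J => (d + h) (a i).1 (b j).1) = 1 := by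
  have hsq : (d + h) * (d + h) = 1 + h * h := by
    rw [add_mul, mul_add, mul_add, hd.2, ← hh.2]
    abel
  have hz : ∀ i j, Odd (deg i) → Odd (deg j) → (d + h) i j = 0 := by
    rintro i j ⟨x, hx⟩ ⟨y, hy⟩
    have h1 : d i j = 0 := by_contra fun h1 => by have := hd.1 i j h1; omega
    have h2 : h i j = 0 := by_contra fun h1 => by have := hh.1 i j h1; omega
    rw [Matrix.add_apply, h1, h2, add_zero]
  have hn : ∀ i j, deg i ≤ deg j → (h * h) i j = 0 := fun i j hij => by
    rw [mul_apply]
    refine Finset.sum_eq_zero fun l _ => by_contra fun h1 => ?_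
    have := hh.1 i l (left_ne_zero_of_mul h1)
    have := hh.1 l j (right_ne_zero_of_mul h1)
    omega
  have e : (of fun i j : J => (d + h) (a i).1 (b j).1) *
      (of fun i j : J => (d + h) (b i).1 (a j).1) =
      1 + of fun i j : J => (h * h) (a i).1 (a j).1 := by
    ext i j
    have h1 := congrFun (congrFun hsq (a i).1) (a j).1
    rw [mul_apply, Matrix.add_apply] at h1
    rw [mul_apply, Matrix.add_apply, of_apply]
    refine (Fintype.sum_of_injective (fun k => (b k).1) (Subtype.val_injective.comp b.injective) _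
      _ (fun l hl => ?_) fun _ => rfl).trans (h1.trans ?_)
    · rw [hz _ l (a i).2 (by_contra fun h2 => hl ⟨b.symm ⟨l, h2⟩, by simp⟩), zero_mul]
    · simp [one_apply, Subtype.val_inj]
  have ht : BlockTriangular (1 + of fun i j : J => (h * h) (a i).1 (a j).1)ᵀ
      fun j => deg (a j).1 := fun i j hij => by
    rw [transpose_apply, Matrix.add_apply, of_apply, hn _ _ hij.le, add_zero, one_apply_ne]
    rintro rfl
    exact lt_irrefl _ hij
  rw [mul_comm, ← det_mul, e, ← det_transpose, ht.det]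
  refine Finset.prod_eq_one fun k _ => ?_
  rw [← det_one (n := {j // deg (a j).1 = k})]
  congr 1
  ext i j
  rw [toSquareBlock_def, of_apply, transpose_apply, Matrix.add_apply, of_apply,
    hn _ _ (j.2.trans i.2.symm).le, add_zero]
  simp [one_apply, Subtype.val_inj, eq_comm]

theorem neg_TorNeg {J : Type} [Fintype J] [DecidableEq J] {u : R} {Y : Matrix J J R}
    (h : u * det Y = 1) : u * det (-Y) = 1 ∨ u * det (-Y) = -1 := by
  rw [det_neg, mul_left_comm, h, mul_one]
  exact neg_one_pow_eq_or R _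

/-- The shift exchanges the parities. -/
def ev_TorNeg (deg : I → ℕ) : {i // Odd (deg i + 1)} ≃ {i // ¬ Odd (deg i)} :=
  Equiv.subtypeEquivRight fun _ => Nat.odd_add_one

/-- The shift exchanges the parities. -/
def od_TorNeg (deg : I → ℕ) : {i // ¬ Odd (deg i + 1)} ≃ {i // Odd (deg i)} :=
  Equiv.subtypeEquivRight fun _ => by rw [Nat.odd_add_one, not_not]

theorem torNeg (hU : TorUniqStmt) : TorNegStmt := by
  rintro R I _ _ _ deg d u hd ⟨h, hh, e, rfl⟩
  refine ⟨_, ⟨-h, ⟨fun i j h1 => ?_, by simpa using hh.2⟩,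
    (ev_TorNeg deg).trans (e.symm.trans (od_TorNeg deg).symm), rfl⟩, ?_⟩
  · exact congrArg (· + 1) (hh.1 i j (by simpa using h1))
  · rw [← det_submatrix_equiv_self (e.trans (ev_TorNeg deg).symm)]
    convert neg_TorNeg (key_TorNeg hd hh (Equiv.refl _) e) using 4 <;>
    · ext i j
      simp [ev_TorNeg, od_TorNeg, add_comm]

theorem torNeg' (hU : TorUniqStmt) : TorNegStmt' := by
  rintro R I _ _ _ deg d u hd ⟨h, hh, e, rfl⟩
  have hh' : IsCtr deg d (-h) :=
    ⟨fun i j h1 => Nat.succ_injective (hh.1 i j (by simpa using h1)), by simpa using hh.2⟩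
  refine ⟨_, ⟨-h, hh', (od_TorNeg deg).symm.trans (e.symm.trans (ev_TorNeg deg)), rfl⟩, ?_⟩
  rw [← det_submatrix_equiv_self (e.trans (od_TorNeg deg))]
  convert neg_TorNeg (key_TorNeg hd hh' (e.trans (od_TorNeg deg)) (ev_TorNeg deg)) using 4 <;>
  · ext i j
    simp [ev_TorNeg, od_TorNeg, add_comm]

end Pool.Agent.MP_6374aa_gt
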