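import Pool.Agent.MP_6374aa_gt.IfA

namespace Pool.Agent.MP_6374aa_gt

theorem card_sum_TorSub {I J : Type} [Fintype I] [Fintype J] (p : I ⊕ J → Prop) [DecidablePred p] :
    Fintype.card {s // p s} =
      Fintype.card {i // p (Sum.inl i)} + Fintype.card {j // p (Sum.inr j)} := by
  rw [Fintype.card_congr (Equiv.subtypeSum (p := p)), Fintype.card_sum]

theorem mul_ne_TorSub {R I J K : Type} [CommRing R] [Fintype J] {A : Matrix I J R}
    {B : Matrix J K R} {i : I} {k : K} (h : (A * B) i k ≠ 0) : ∃ j, A i j ≠ 0 ∧ B j k ≠ 0 := by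
  rw [Matrix.mul_apply] at h
  obtain ⟨j, -, hj⟩ := Finset.exists_ne_zero_of_sum_ne_zero h
  exact ⟨j, left_ne_zero_of_mul hj, right_ne_zero_of_mul hj⟩

theorem sub_ne_TorSub {R : Type} [CommRing R] {x y : R} (h : x - y ≠ 0) : x ≠ 0 ∨ y ≠ 0 := by
  by_contra hc
  rw [not_or, not_not, not_not] at hc
  exact h (by rw [hc.1, hc.2, sub_zero])

theorem sign_TorSub {R : Type} [CommRing R] {v v' x : R} (h : v' = v ∨ v' = -v)
    (h' : v' = x ∨ v' = -x) : v = x ∨ v = -x := by
  rcases h with h | h <;> rcases h' with h' | h'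
  · exact Or.inl (h.symm.trans h')
  · exact Or.inr (h.symm.trans h')
  · exact Or.inr (neg_eq_iff_eq_neg.1 (h.symm.trans h'))
  · exact Or.inl (neg_injective (h.symm.trans h'))

theorem torSub (hU : TorUniqStmt) (hB : TorBlockStmt) : TorSubStmt := by
  intro R I J _ _ _ _ _ da dc a b c v hD hv
  obtain ⟨H, ⟨hH, hH'⟩, e, he⟩ := id hv
  have hb : ∀ i j, b i j ≠ 0 → dc j = da i + 1 := fun i j h => hD.1 (Sum.inl i) (Sum.inr j) h
  have hab : a * b + b * c = 0 := by
    have := hD.2
    rw [Matrix.fromBlocks_multiply, ← Matrix.fromBlocks_zero, Matrix.fromBlocks_inj] at this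
    exact this.2.1
  have hab' : a * b = -(b * c) := eq_neg_of_add_eq_zero_left hab
  have h11 : ∀ i j, H.toBlocks₁₁ i j ≠ 0 → da i = da j + 1 :=
    fun i j h => hH (Sum.inl i) (Sum.inl j) h
  have h21 : ∀ i j, H.toBlocks₂₁ i j ≠ 0 → dc i = da j + 1 :=
    fun i j h => hH (Sum.inr i) (Sum.inl j) h
  have h22 : ∀ i j, H.toBlocks₂₂ i j ≠ 0 → dc i = dc j + 1 :=
    fun i j h => hH (Sum.inr i) (Sum.inr j) h
  rw [← Matrix.fromBlocks_toBlocks H, Matrix.fromBlocks_multiply, Matrix.fromBlocks_multiply,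
    Matrix.fromBlocks_add, ← Matrix.fromBlocks_one, Matrix.fromBlocks_inj] at hH'
  obtain ⟨e11, -, e21, e22⟩ := hH'
  simp only [Matrix.zero_mul, Matrix.mul_zero, zero_add, add_zero] at e11 e21 e22
  have e21' : H.toBlocks₂₁ * a = -(c * H.toBlocks₂₁) := eq_neg_of_add_eq_zero_right e21
  have hcard : Fintype.card {i // Odd (da i)} + Fintype.card {j // Odd (dc j)} =
      Fintype.card {i // ¬ Odd (da i)} + Fintype.card {j // ¬ Odd (dc j)} :=
    (card_sum_TorSub fun s => Odd (Sum.elim da dc s)).symm.trans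
      ((Fintype.card_congr e).trans (card_sum_TorSub fun s => ¬ Odd (Sum.elim da dc s)))
  refine ⟨fun w hw => ?_, fun u hu => ?_⟩
  · obtain ⟨k, ⟨hk, hk'⟩, f, -⟩ := id hw
    have hf := Fintype.card_congr f
    have hc : IsCtr da a (H.toBlocks₁₁ - b * k * H.toBlocks₂₁) := by
      refine ⟨fun i j h => ?_, ?_⟩
      · rcases sub_ne_TorSub h with h | h
        · exact h11 i j h
        · obtain ⟨x, h1, h2⟩ := mul_ne_TorSub h
          obtain ⟨y, h3, h4⟩ := mul_ne_TorSub h1
          have := h21 _ _ h2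
          have := hb _ _ h3
          have := hk _ _ h4
          omega
      · have h1 : a * (b * k * H.toBlocks₂₁) + b * k * H.toBlocks₂₁ * a =
            -(b * (c * k + k * c) * H.toBlocks₂₁) := by
          rw [Matrix.mul_assoc (b * k), e21', ← Matrix.mul_assoc a, ← Matrix.mul_assoc a, hab']
          simp only [Matrix.mul_add, Matrix.add_mul, Matrix.mul_assoc, Matrix.neg_mul,
            Matrix.mul_neg, neg_add]
        rw [hk', Matrix.mul_one] at h1
        rw [← e11, mul_sub, sub_mul, sub_add_sub_comm, h1]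
        abel
    have g : {i // Odd (da i)} ≃ {i // ¬ Odd (da i)} := Fintype.equivOfCardEq (by omega)
    have hu : IsTor da a _ := ⟨_, hc, g, rfl⟩
    obtain ⟨v', hv', hs⟩ := hB R I J da dc a b c _ w hD hu hw
    exact ⟨_, hu, sign_TorSub (hU R _ _ _ v v' hD hv hv').2 hs⟩
  · obtain ⟨k, ⟨hk, hk'⟩, f, -⟩ := id hu
    have hf := Fintype.card_congr f
    have hc : IsCtr dc c (H.toBlocks₂₂ - H.toBlocks₂₁ * k * b) := by
      refine ⟨fun i j h => ?_, ?_⟩
      · rcases sub_ne_TorSub h with h | h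
        · exact h22 i j h
        · obtain ⟨x, h1, h2⟩ := mul_ne_TorSub h
          obtain ⟨y, h3, h4⟩ := mul_ne_TorSub h1
          have := hb _ _ h2
          have := h21 _ _ h3
          have := hk _ _ h4
          omega
      · have h1 : c * (H.toBlocks₂₁ * k * b) + H.toBlocks₂₁ * k * b * c =
            -(H.toBlocks₂₁ * (a * k + k * a) * b) := by
          rw [Matrix.mul_assoc (H.toBlocks₂₁ * k) b c, ← neg_eq_iff_eq_neg.2 hab',
            ← Matrix.mul_assoc c, ← Matrix.mul_assoc c, ← neg_eq_iff_eq_neg.2 e21']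
          simp only [Matrix.mul_add, Matrix.add_mul, Matrix.mul_assoc, Matrix.neg_mul,
            Matrix.mul_neg, neg_add]
        rw [hk', Matrix.mul_one] at h1
        rw [← e22, mul_sub, sub_mul, sub_add_sub_comm, h1]
        abel
    have g : {i // Odd (dc i)} ≃ {i // ¬ Odd (dc i)} := Fintype.equivOfCardEq (by omega)
    have hw : IsTor dc c _ := ⟨_, hc, g, rfl⟩
    obtain ⟨v', hv', hs⟩ := hB R I J da dc a b c u _ hD hu hw
    exact ⟨_, hw, sign_TorSub (hU R _ _ _ v v' hD hv hv').2 hs⟩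

end Pool.Agent.MP_6374aa_gt
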