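import Pool.Agent.MP_6374aa_gt.IfA

/-! Units of the Laurent polynomial ring over `ℚ` are monomials. -/

namespace Pool.Agent.MP_6374aa_gt

theorem unitZ : UnitStmt := by
  classical
  intro u hu
  obtain ⟨v, hv⟩ := hu.exists_right_inv
  have hone : ∀ g : Multiplicative ℤ, (u * v).coeff g ≠ 0 → g = 1 := by
    intro g hg
    rw [hv, MonoidAlgebra.one_def, MonoidAlgebra.coeff_single] at hg
    by_contra h
    exact hg (Finsupp.single_eq_of_ne h)
  have hu0 : u ≠ 0 := by
    rintro rfl
    simp at hv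
  have hv0 : v ≠ 0 := by
    rintro rfl
    simp at hv
  have hcard : u.coeff.support.card * v.coeff.support.card ≤ 1 := by
    by_contra hlt
    push Not at hlt
    obtain ⟨p1, hp1, p2, hp2, hne, h1, h2⟩ := TwoUniqueProds.uniqueMul_of_one_lt_card hlt
    rw [Finset.mem_product] at hp1 hp2
    have e1 := hone (p1.1 * p1.2) (by
      rw [MonoidAlgebra.coeff_mul_mul_of_uniqueMul h1]
      exact mul_ne_zero (Finsupp.mem_support_iff.1 hp1.1) (Finsupp.mem_support_iff.1 hp1.2))
    have e2 := hone (p2.1 * p2.2) (by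
      rw [MonoidAlgebra.coeff_mul_mul_of_uniqueMul h2]
      exact mul_ne_zero (Finsupp.mem_support_iff.1 hp2.1) (Finsupp.mem_support_iff.1 hp2.2))
    obtain ⟨a, b⟩ := h1 hp2.1 hp2.2 (e2.trans e1.symm)
    exact hne (Prod.ext a.symm b.symm)
  have hu1 : 0 < u.coeff.support.card := by
    rw [Finset.card_pos, Finsupp.support_nonempty_iff]
    intro h
    exact hu0 (MonoidAlgebra.coeff_inj.1 (by simpa using h))
  have hv1 : 0 < v.coeff.support.card := by
    rw [Finset.card_pos, Finsupp.support_nonempty_iff]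
    intro h
    exact hv0 (MonoidAlgebra.coeff_inj.1 (by simpa using h))
  have h1 : u.coeff.support.card = 1 := by nlinarith
  obtain ⟨n, hn, hu'⟩ := Finsupp.card_support_eq_one.1 h1
  refine ⟨u.coeff n, n, hn, MonoidAlgebra.coeff_inj.1 ?_⟩
  rw [MonoidAlgebra.coeff_single]
  exact hu'

end Pool.Agent.MP_6374aa_gt
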