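import Pool.Agent.MP_6374aa_gt.IfT

/-! The torsion value does not depend on the choices. -/

namespace Pool.Agent.MP_6374aa_gt

open Classical

noncomputable section

variable {V : Type} {G : SimpleGraph V} {A : Set V} {C : Type} [CommGroup C] [Fintype C]
  {α : C →* Equiv.Perm V}

theorem ev_ValAny {F F0 : Frame G A α} {P : Matrix F.I F0.I (RC C)}
    (hP : F.IsCo P fun i => wedge (F0.s i)) (x : F0.I → RC C) : F.ev (P.mulVec x) = F0.ev x :=
  hP.ev_mulVec x

omit [Fintype C] in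
theorem wedge_ValAny (F : Frame G A α) (i : F.I) :
    wedge (F.s i) ∈ Ch G {v | v ∈ F.s i} (F.deg i + 1) := by
  have h1 : IsCl G {v | v ∈ F.s i} (F.s i) := ⟨fun _ hx => hx, (F.cl i).2⟩
  have h2 := wedge_mem_Ch h1
  rwa [F.length_eq] at h2

theorem exists_ValAny (h : Act G A α) (F F0 : Frame G A α) :
    ∃ P, F.IsCo P fun i => wedge (F0.s i) :=
  F.exists_isCo h _ fun i => ⟨_, Ch_mono (fun v hv => (F0.cl i).1 v hv) _ (wedge_ValAny F0 i)⟩

theorem inv_ValAny (h : Act G A α) {F F0 : Frame G A α} {P : Matrix F.I F0.I (RC C)}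
    {Q : Matrix F0.I F.I (RC C)} (hP : F.IsCo P fun i => wedge (F0.s i))
    (hQ : F0.IsCo Q fun i => wedge (F.s i)) : P * Q = 1 := by
  ext1 i j
  have : P.mulVec (fun i => Q i j) = Pi.single j 1 := by
    refine F.ev_injective h ?_
    rw [ev_ValAny hP, hQ j, F.ev_single, act_one]
  refine (congrFun this i).trans ?_
  rw [Pi.single_apply, Matrix.one_apply]

theorem col_ValAny (h : Act G A α) {F F0 : Frame G A α} {P : Matrix F.I F0.I (RC C)}
    (hP : F.IsCo P fun i => wedge (F0.s i)) (j : F0.I) :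
    (∀ i, F.deg i ≠ F0.deg j → P i j = 0) ∧ ∀ i g, (P i j).coeff g ≠ 0 →
      (F.s i).toFinset.map (α g).toEmbedding = (F0.s j).toFinset := by
  have h1 := wedge_ValAny F0 j
  rw [← show _ = wedge (F0.s j) from hP j] at h1
  obtain ⟨h2, h3⟩ := F.coord_of_mem h (fun v hv => (F0.cl j).1 v hv) h1
  refine ⟨h2, fun i g hg => Finset.eq_of_subset_of_card_le (fun v hv => ?_) ?_⟩
  · obtain ⟨w, hw, rfl⟩ := Finset.mem_map.1 hv
    exact List.mem_toFinset.2 (h3 i g hg w (List.mem_toFinset.1 hw))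
  · have h4 : F.deg i = F0.deg j := by_contra fun hne => hg (by simp [h2 i hne])
    rw [Finset.card_map, List.toFinset_card_of_nodup (F.nodup i),
      List.toFinset_card_of_nodup (F0.nodup j), F.length_eq, F0.length_eq, h4]

theorem bd_ValAny (h : Act G A α) {F F0 : Frame G A α} {P : Matrix F.I F0.I (RC C)}
    (hP : F.IsCo P fun i => wedge (F0.s i)) {D : Matrix F.I F.I (RC C)}
    {D0 : Matrix F0.I F0.I (RC C)} (hD : F.IsBd D) (hD0 : F0.IsBd D0) : P * D0 = D * P := by
  ext1 i j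
  have : P.mulVec (fun i => D0 i j) = D.mulVec fun i => P i j := by
    have h1 := (col_ValAny h hP j).1
    refine F.ev_injective h ?_
    rw [ev_ValAny hP, hD0 j]
    split_ifs with hj
    · rw [hD.mulVec_zero h fun i hi => h1 i (by omega), F.ev_zero]
    · rw [hD.ev_mulVec (n := F0.deg j - 1) fun i hi => h1 i (by omega), hP j]
  exact congrFun this i

/-- The columns of `P` express `z0` through `z` up to boundaries. -/
def Ex_ValAny (G : SimpleGraph V) (A : Set V) (α : C →* Equiv.Perm V) {J J0 : Type} [Fintype J]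
    (z : J → EA V) (dz : J → ℕ) (z0 : J0 → EA V) (dz0 : J0 → ℕ) (P : Matrix J J0 (RC C)) : Prop :=
  ∀ k, (∀ j, dz j ≠ dz0 k → P j k = 0) ∧ z0 k - ∑ j, act α (P j k) (z j) ∈ Bd G A (dz0 k)

theorem ex_ValAny {J J0 : Type} [Fintype J] [Fintype J0] {z : J → EA V} {dz : J → ℕ}
    {z0 : J0 → EA V} {dz0 : J0 → ℕ} (h : Adm G A α z dz) (h0 : Adm G A α z0 dz0) :
    ∃ P, Ex_ValAny G A α z dz z0 dz0 P := by
  choose μ h1 h2 using fun k => h.span _ (h0.deg k) _ (h0.cyc k)
  exact ⟨Matrix.of fun j k => μ k j, fun k => ⟨h1 k, h2 k⟩⟩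

theorem invz_ValAny (ha : Act G A α) {J J0 : Type} [Fintype J] [DecidableEq J] [Fintype J0]
    {z : J → EA V} {dz : J → ℕ} {z0 : J0 → EA V} {dz0 : J0 → ℕ} (h : Adm G A α z dz)
    {P : Matrix J J0 (RC C)} {Q : Matrix J0 J (RC C)} (hP : Ex_ValAny G A α z dz z0 dz0 P)
    (hQ : Ex_ValAny G A α z0 dz0 z dz Q) : P * Q = 1 := by
  ext1 i j
  have h1 : ∑ k, act α (Q k j) (z0 k - ∑ i, act α (P i k) (z i)) ∈ Bd G A (dz j) := by
    refine Submodule.sum_mem _ fun k _ => ?_
    by_cases hk : dz0 k = dz j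
    · exact act_mem_Bd ha _ (hk ▸ (hP k).2)
    · rw [(hQ j).1 k hk, act_zero]
      exact zero_mem _
  have h2 := add_mem (hQ j).2 h1
  have h3 := h.ind (dz j) (fun i => (1 : Matrix J J (RC C)) i j - (P * Q) i j) (fun i hi => by
    rw [Matrix.one_apply_ne (by rintro rfl; exact hi rfl), Matrix.mul_apply, zero_sub, neg_eq_zero]
    refine Finset.sum_eq_zero fun k _ => ?_
    by_cases hk : dz0 k = dz j
    · rw [(hP k).1 i (by rwa [hk]), zero_mul]
    · rw [(hQ j).1 k hk, mul_zero]) (by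
    convert h2 using 1
    have e1 : ∑ i, act α ((1 : Matrix J J (RC C)) i j) (z i) = z j := by
      rw [Finset.sum_eq_single j (fun i _ hi => by rw [Matrix.one_apply_ne hi, act_zero])
        (by simp), Matrix.one_apply_eq, act_one]
    have e2 : ∑ i, act α ((P * Q) i j) (z i) =
        ∑ k, act α (Q k j) (∑ i, act α (P i k) (z i)) := by
      simp only [Matrix.mul_apply, act_sum, act_sum_right, ← act_mul, mul_comm (Q _ _)]
      exact Finset.sum_comm
    simp only [sub_eq_add_neg (_ : RC C), act_add, act_neg, act_sub_right, Finset.sum_add_distrib,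
      Finset.sum_neg_distrib, Finset.sum_sub_distrib, e1, e2]
    abel) i
  exact (sub_eq_zero.1 h3).symm

/-- The action on positions. -/
def pos_ValAny {B : Type} (α : C →* Equiv.Perm V) (β : C →* Equiv.Perm B) :
    C →* Equiv.Perm (Finset V ⊕ B) where
  toFun g := Equiv.sumCongr (Equiv.finsetCongr (α g)) (β g)
  map_one' := by
    ext1 x
    cases x with
    | inl s => rw [map_one]; exact congrArg Sum.inl Finset.map_refl
    | inr b => rw [map_one β]; rfl
  map_mul' g k := by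
    ext1 x
    cases x with
    | inl s =>
      rw [map_mul]
      exact congrArg Sum.inl (Finset.map_map (α k).toEmbedding (α g).toEmbedding s).symm
    | inr b => rw [map_mul β]; rfl

theorem valAny (hP : AdmPosStmt) (hC : TorChangeStmt) (hV : VposStmt) (hI : InUStmt) :
    ValAnyStmt := by
  intro C _ _ V G A α P τ hF hFr hval F D J _ _ z dz Z hD hz hZ
  obtain ⟨F0, D0, J0, _, _, z0, dz0, Z0, hD0, hz0, hZ0, u0, hu0, ht⟩ := hval
  have ha := hF.toAct
  obtain ⟨B, β, B0, hfree, hpos⟩ := hP C V G A α P ha hFr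
  obtain ⟨p, p0, hp, hp0, c1, c2⟩ := hpos J J0 z dz z0 dz0 hz hz0
  obtain ⟨Pf, hPf⟩ := exists_ValAny ha F F0
  obtain ⟨Qf, hQf⟩ := exists_ValAny ha F0 F
  obtain ⟨Pz, hPz⟩ := ex_ValAny hz hz0
  obtain ⟨Qz, hQz⟩ := ex_ValAny hz0 hz
  choose y y1 y2 using fun k => mem_Bd.1 (hPz k).2
  obtain ⟨Y, hY⟩ := F.exists_isCo ha y fun k => ⟨_, y1 k⟩
  have hYd : ∀ k i, F.deg i ≠ dz0 k → Y i k = 0 := fun k => by
    have h1 := y1 k
    rw [← hY k] at h1
    exact (F.coord_of_mem ha subset_rfl h1).1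
  have e1 := inv_ValAny ha hPf hQf
  have e2 := inv_ValAny ha hQf hPf
  have e3 := invz_ValAny ha hz hPz hQz
  have e4 := invz_ValAny ha hz0 hQz hPz
  have e5 : Pf * Z0 = D * Y + Z * Pz := by
    ext1 i k
    have : Pf.mulVec (fun i => Z0 i k) = D.mulVec (fun i => Y i k) + Z.mulVec fun j => Pz j k := by
      refine F.ev_injective ha ?_
      have h1 := hz0.deg k
      rw [ev_ValAny hPf, hZ0 k, F.ev_add, hZ.ev_mulVec,
        hD.ev_mulVec (n := dz0 k - 1) fun i hi => hYd k i (by omega), hY k, y2 k, sub_add_cancel]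
    exact congrFun this i
  have hfr : ∀ (F : Frame G A α) i, (F.s i).toFinset.Nonempty ∧ ↑(F.s i).toFinset ⊆ A ∧
      G.IsClique ((F.s i).toFinset : Set V) := fun F i =>
    ⟨by simpa using F.ne i, isCl_toFinset (F.cl i)⟩
  obtain ⟨u, hu, h⟩ := hC C (Finset V ⊕ B) (F0.I ⊕ J0) (F.I ⊕ J) (pos_ValAny α β)
    {x | Sum.elim (fun σ : Finset V => σ.Nonempty ∧ ↑σ ⊆ A ∧ G.IsClique (σ : Set V))
      (fun b => b ∈ B0) x} (fun a b => a = b ∨ (a.isLeft ∧ b.isRight))
    (Sum.map (fun i => (F0.s i).toFinset) p0) (Sum.map (fun i => (F.s i).toFinset) p)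
    (Sum.elim F0.deg dz0) (Sum.elim F.deg dz) (Matrix.fromBlocks Pf Y 0 Pz)
    (Matrix.fromBlocks Qf (-(Qf * Y * Qz)) 0 Qz) (Matrix.fromBlocks D0 Z0 0 0)
    (Matrix.fromBlocks D Z 0 0) _
    (hV C _ _ _ _ (Sum.elim (fun _ => 0) fun _ => 1) (by rintro g (s | b) <;> rfl)
      (by
        rintro g (s | b) hb e
        · exact hF.free g s hb.1 hb.2.1 hb.2.2 (Sum.inl.inj e)
        · exact hfree g b hb (Sum.inr.inj e))
      (by
        rintro a b (e | e)
        · exact Or.inl e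
        · rcases a with a | a <;> rcases b with b | b <;> simp at e ⊢))
    (by rintro (i | k); exacts [hfr F0 i, hp0 k]) (by rintro (i | k); exacts [hfr F i, hp k])
    (by
      rw [Matrix.fromBlocks_multiply, Matrix.mul_neg, ← Matrix.mul_assoc, ← Matrix.mul_assoc, e1,
        e3]
      simp)
    (by
      rw [Matrix.fromBlocks_multiply, Matrix.neg_mul, Matrix.neg_mul, Matrix.mul_assoc _ Qz Pz, e2,
        e4]
      simp)
    (by
      rintro (i | j) (i0 | k) g hg
      · exact Or.inl (congrArg Sum.inl ((col_ValAny ha hPf i0).2 i g hg))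
      · exact Or.inr ⟨rfl, rfl⟩
      · exact absurd rfl hg
      · exact Or.inl (congrArg Sum.inr (c1 k (fun j => Pz j k) (hPz k).1 (hPz k).2 j g hg)))
    (by
      rintro (i0 | k) (i | j) g hg
      · exact Or.inl (congrArg Sum.inl ((col_ValAny ha hQf i).2 i0 g hg))
      · exact Or.inr ⟨rfl, rfl⟩
      · exact absurd rfl hg
      · exact Or.inl (congrArg Sum.inr (c2 j (fun k => Qz k j) (hQz j).1 (hQz j).2 k g hg)))
    (by
      rintro (i | j) (i0 | k) hne
      · exact by_contra fun h => hne ((col_ValAny ha hPf i0).1 i h)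
      · exact by_contra fun h => hne (hYd k i h)
      · exact absurd rfl hne
      · exact by_contra fun h => hne ((hPz k).1 j h))
    (by
      rintro (i0 | k) (i | j) hne
      · exact by_contra fun h => hne ((col_ValAny ha hQf i).1 i0 (Ne.symm h))
      · refine by_contra fun h => hne ?_
        show -(Qf * Y * Qz) i0 j = 0
        rw [neg_eq_zero, Matrix.mul_apply]
        refine Finset.sum_eq_zero fun k _ => ?_
        by_cases hk : dz0 k = dz j
        · rw [Matrix.mul_apply, Finset.sum_eq_zero, zero_mul]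
          intro i _
          by_cases hi : F.deg i = dz0 k
          · rw [(col_ValAny ha hQf i).1 i0 fun e => h (by
              show dz j = F0.deg i0
              omega), zero_mul]
          · rw [hYd k i hi, mul_zero]
        · rw [(hQz j).1 k hk, mul_zero]
      · exact absurd rfl hne
      · exact by_contra fun h => hne ((hQz j).1 k (Ne.symm h)))
    (by
      rw [Matrix.fromBlocks_multiply, Matrix.fromBlocks_multiply, bd_ValAny ha hPf hD hD0, e5]
      simp) ht
  refine ⟨u * u0, (hI C).2.1 _ _ hu hu0, ?_⟩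
  rwa [map_mul, mul_assoc]

theorem valUniq (hA : ValAnyStmt) (hU : TorUniqStmt) (hM : TorMapStmt) (hI : InUStmt) :
    ValUniqStmt := by
  intro C _ _ V G A α P τ τ' hF hFr h h'
  obtain ⟨F, D, J, _, _, z, dz, Z, hD, hz, hZ, u', hu', ht'⟩ := h'
  obtain ⟨u, hu, ht⟩ := hA C V G A α P τ hF hFr h F D J z dz Z hD hz hZ
  have hc := Frame.isCx_cone hF.toAct hD hZ (fun j => by have := hz.deg j; omega) hz.cyc
  obtain ⟨v, hv, e⟩ := (hI C).2.2.2 u hu
  have e1 : τ = qq C v * (qq C u * τ) := by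
    rw [← mul_assoc, ← map_mul, mul_comm v, e, map_one, one_mul]
  rcases (hU _ _ _ _ _ _ ((hM _ _ _ (qq C) _ _ 0).1 hc) ht' ht).2 with e2 | e2
  · exact ⟨v * u', (hI C).2.1 _ _ hv hu', by rw [e1, e2, map_mul, mul_assoc]⟩
  · exact ⟨-(v * u'), (hI C).2.2.1 _ ((hI C).2.1 _ _ hv hu'), by
      rw [e1, e2, map_neg, map_mul]; ring⟩

end

end Pool.Agent.MP_6374aa_gt
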