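import Pool.Agent.MP_6374aa_gt.IfD

namespace Pool.Agent.MP_6374aa_gt

open Classical Topology

theorem vertexS : VertexStmt := by
  intro V E Λ _ G A _ _ _ p lab sh h
  have h0 : ∀ x : Rl G A, ∃ v, x.1 v ≠ 0 ∧ ∀ u, x.1 u ≤ x.1 v := fun x => by
    have hs := x.2.2.1
    have : Nonempty V := by
      by_contra hV
      rw [not_nonempty_iff] at hV
      simp at hs
    obtain ⟨v, hv⟩ := Finite.exists_max x.1
    refine ⟨v, fun e => ?_, hv⟩
    have := Finset.sum_nonpos fun u (_ : u ∈ Finset.univ) => (hv u).trans e.le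
    linarith
  choose m hm hm' using h0
  have key : ∀ e u w, (p e).1 u ≠ 0 → (p e).1 w ≠ 0 →
      Adq (cov G lab Λ) (u, sh e u) (w, sh e w) := fun e u w hu hw =>
    (cov_adq h.flat ((p e).2.2.2.1 u hu) ((p e).2.2.2.1 w hw)).2
      ⟨(p e).2.2.2.2 u w hu hw, h.rel e u w hu hw⟩
  have hc : ∀ u, Continuous fun e => (p e).1 u := fun u =>
    (continuous_apply u).comp (continuous_subtype_val.comp h.cont)
  have h1 : ∀ e, (m (p e), sh e (m (p e))) ∈ up A Λ := fun e => (p e).2.2.2.1 _ (hm _)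
  have h2 : ∀ e, ∃ N ∈ 𝓝 e, ∀ e1 ∈ N, ∀ e2 ∈ N,
      Adq (cov G lab Λ) (m (p e1), sh e1 (m (p e1))) (m (p e2), sh e2 (m (p e2))) := fun e => by
    have h3 : ∀ᶠ e' in 𝓝 e, ∀ u, ((p e).1 u = 0 → (p e').1 u < (p e').1 (m (p e))) ∧
        ((p e).1 u ≠ 0 → sh e' u = sh e u) := Filter.eventually_all.2 fun u => by
      by_cases hu : (p e).1 u = 0
      · refine ((hc u).continuousAt.eventually_lt (hc (m (p e))).continuousAt
          (hu.trans_lt (((p e).2.1 _).lt_of_ne' (hm _)))).mono fun e' h' =>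
            ⟨fun _ => h', fun h'' => absurd hu h''⟩
      · exact (h.loc e u hu).mono fun e' h' => ⟨fun h'' => absurd h'' hu, fun _ => h'⟩
    refine ⟨_, h3, fun e1 k1 e2 k2 => ?_⟩
    have a1 : (p e).1 (m (p e1)) ≠ 0 := fun k => absurd ((k1 _).1 k) (not_lt.2 (hm' _ _))
    have a2 : (p e).1 (m (p e2)) ≠ 0 := fun k => absurd ((k2 _).1 k) (not_lt.2 (hm' _ _))
    rw [(k1 _).2 a1, (k2 _).2 a2]
    exact key e _ _ a1 a2
  refine ⟨fun e => (m (p e), sh e (m (p e))), h1, h2, fun e v hv => key e _ _ (hm _) hv,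
    fun hE ⟨v₀, hv₀⟩ => ⟨⟨(v₀, 1), hv₀⟩, ?_⟩⟩
  have h3 : ∀ e e', ∃ γ, Path (cov G lab Λ) (up A Λ) (m (p e), sh e (m (p e)))
      (m (p e'), sh e' (m (p e'))) γ := fun e e' => by
    refine PreconnectedSpace.induction₂' (fun e e' => ∃ γ, Path (cov G lab Λ) (up A Λ)
      (m (p e), sh e (m (p e))) (m (p e'), sh e' (m (p e'))) γ) (fun e => ?_)
      ⟨fun _ _ _ ⟨_, a⟩ ⟨_, b⟩ => ⟨_, a.trans b⟩⟩ e e'
    obtain ⟨N, hN, k⟩ := h2 e
    have k0 := mem_of_mem_nhds hN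
    exact Filter.mem_of_superset hN fun e' k' =>
      ⟨⟨_, Path.single (h1 _) (h1 _) (k _ k0 _ k')⟩, ⟨_, Path.single (h1 _) (h1 _) (k _ k' _ k0)⟩⟩
  have h4 : ∀ q ∈ up A Λ, ∃ e γ, Path (cov G lab Λ) (up A Λ) (m (p e), sh e (m (p e))) q γ := by
    rintro ⟨v, l⟩ hv
    obtain ⟨s, -, hs⟩ := h.sec v hv
    have hx : (Pi.single v 1 : V → ℝ) ∈ Rl G A := by
      have k : ∀ u, (Pi.single v 1 : V → ℝ) u ≠ 0 → u = v := fun u hu =>
        not_not.1 fun e => hu (Pi.single_eq_of_ne e _)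
      refine ⟨fun u => ?_, by simp, fun u hu => k u hu ▸ hv, fun u w hu hw =>
        Or.inl ((k u hu).trans (k w hw).symm)⟩
      rw [Pi.single_apply]
      split_ifs <;> norm_num
    obtain ⟨a, b⟩ := hs ⟨⟨_, hx⟩, by simp⟩
    generalize s _ = e at a b
    have c : (p e).1 v ≠ 0 := by rw [a]; simp
    have d : p (l⁻¹ • e) = p e := (h.orbit _ _).2 ⟨_, rfl⟩
    have := key (l⁻¹ • e) _ v (hm _) (d ▸ c)
    rw [h.smul _ e v c, b, one_mul, inv_inv] at this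
    exact ⟨_, _, Path.single (h1 _) hv this⟩
  intro a ha b hb
  obtain ⟨e, _, k1⟩ := h4 a ha
  obtain ⟨e', _, k2⟩ := h4 b hb
  obtain ⟨_, k3⟩ := h3 e e'
  exact ⟨_, (k1.symm.trans k3).trans k2⟩

theorem iso_Vertex {W : Type} (K : SimpleGraph W) (S : Finset W) :
    IsIso (K.comap (Subtype.val : S → W)) Set.univ K S Subtype.val :=
  ⟨⟨fun a _ => a.2, Subtype.val_injective.injOn, fun a ha => ⟨⟨a, ha⟩, trivial, rfl⟩⟩,
    fun _ _ _ _ => Iff.rfl⟩

theorem hom_Vertex {W : Type} (K : SimpleGraph W) {B : Set W} {S : Finset W} (hS : ↑S ⊆ B) :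
    IsHom (K.comap (Subtype.val : S → W)) Set.univ K B Subtype.val :=
  ⟨fun a _ => hS a.2, fun _ _ _ _ h => Or.inr h⟩

theorem path_Vertex {W : Type} {K : SimpleGraph W} {B : Set W} {x y : W} {γ : Gp K B}
    (h : Path K B x y γ) : ∃ S : Finset W, ↑S ⊆ B ∧ ∀ S' : Finset W, S ⊆ S' → ↑S' ⊆ B →
      ∃ (hx : x ∈ S') (hy : y ∈ S') (γ' : Gp (K.comap (Subtype.val : S' → W)) Set.univ),
        Path _ _ ⟨x, hx⟩ ⟨y, hy⟩ γ' ∧ gmap _ _ K B Subtype.val γ' = γ := by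
  induction h with
  | @nil y hy =>
    exact ⟨{y}, by simpa using hy, fun S' h _ => ⟨h (Finset.mem_singleton_self y),
      h (Finset.mem_singleton_self y), 1, Path.nil trivial, map_one _⟩⟩
  | @cons u w y γ hu huw _ ih =>
    obtain ⟨S, h1, h2⟩ := ih
    refine ⟨insert u S, by rw [Finset.coe_insert]; exact Set.insert_subset hu h1, fun S' h h' => ?_⟩
    obtain ⟨hw, hy, γ', h3, h4⟩ := h2 S' ((Finset.subset_insert _ _).trans h) h'
    have hu' := h (Finset.mem_insert_self _ _)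
    have h5 : Adq (K.comap (Subtype.val : S' → W)) ⟨u, hu'⟩ ⟨w, hw⟩ :=
      huw.elim (fun e => Or.inl (Subtype.ext e)) Or.inr
    refine ⟨hu', hy, _, Path.cons trivial h5 h3, ?_⟩
    rw [map_mul, h4, gmap_gen (hom_Vertex K h')]

theorem asphCov (hV : VertexStmt) (hL : LiftMapStmt) (hA : ApxStmt) : AsphCovStmt := by
  intro V E Λ _ G A _ _ _ _ p lab sh h h3 hne
  obtain ⟨a, a1, a2, a3, a4⟩ := hV V E Λ G A p lab sh h
  have key : ∀ S : Finset (V × Λ), ↑S ⊆ up A Λ →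
      (∀ n, ∀ z ∈ Zy ((cov G lab Λ).comap (Subtype.val : S → V × Λ)) Set.univ n,
        emap Subtype.val z ∈ Bd (cov G lab Λ) (up A Λ) n) ∧
      ∀ w γ, Path ((cov G lab Λ).comap (Subtype.val : S → V × Λ)) Set.univ w w γ →
        gmap _ _ (cov G lab Λ) (up A Λ) Subtype.val γ = 1 := fun S hS => by
    obtain ⟨b, b1, b2⟩ := hL V E Λ S G A p lab sh _ _ _ h (hom_Vertex _ hS)
    refine hA S (V × Λ) E _ _ _ _ a b _ ⟨Set.toFinite _, fun s _ hc => ?_⟩ a1 a2 b1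
      (hom_Vertex _ hS) fun y w hw => ?_
    · have hinj : Set.InjOn (fun q : S => q.1.1) s := fun p hp q hq hpq => by
        by_contra hne
        exact (hc hp hq hne).1.ne hpq
      rw [← Finset.card_image_of_injOn hinj]
      refine h3.2 _ (fun x hx => ?_) fun x hx y hy hxy => ?_
      · obtain ⟨p, -, rfl⟩ := Finset.mem_image.1 hx
        exact hS p.2
      · obtain ⟨p, hp, rfl⟩ := Finset.mem_image.1 hx
        obtain ⟨q, hq, rfl⟩ := Finset.mem_image.1 hy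
        exact (hc hp hq fun h1 => hxy (by rw [h1])).1
    · have := a3 (b y) w.1.1 (by
        rw [(b2 y).1]
        refine (Finset.sum_pos' (fun w' _ => ?_) ⟨w, Finset.mem_univ _, ?_⟩).ne'
        · split_ifs
          exacts [y.2.1 w', le_rfl]
        · rw [if_pos rfl]
          exact (y.2.1 w).lt_of_ne' hw)
      rwa [(b2 y).2 w hw] at this
  refine ⟨⟨a4 inferInstance hne, fun x γ hγ => ?_⟩, fun n z hz => ?_⟩
  · obtain ⟨S, h1, h2⟩ := path_Vertex hγ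
    obtain ⟨_, _, γ', h4, rfl⟩ := h2 S subset_rfl h1
    exact (key S h1).2 _ _ h4
  · obtain ⟨S, h1, h2⟩ := exists_finite_support (mem_Zy.1 hz).1
    obtain ⟨z', h4, rfl⟩ := (iso_Vertex _ S).exists_Zy (mem_Zy.2 ⟨h2, (mem_Zy.1 hz).2⟩)
    exact (key S h1).1 n z' h4

end Pool.Agent.MP_6374aa_gt
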