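import Pool.Agent.MP_6374aa_gt.IfC

/-! Van Kampen data of a graft. -/

namespace Pool.Agent.MP_6374aa_gt

open Classical

noncomputable section

variable {V : Type} {G : SimpleGraph V} {A M B L : Set V} {v l : V} {Pp : V → Gp G B}

/-- Collapse of the closed star. -/
def s_Vk (L : Set V) (v l x : V) : V := if x ∈ insert v L then l else x

/-- The edge to the centre of the star. -/
def k_Vk (G : SimpleGraph V) (A L : Set V) (v a : V) : Gp G A := gen G A a (s_Vk L v v a)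

/-- The labels of the inclusion. -/
def lab_Vk (v : V) (Pp : V → Gp G B) (a b : V) : Gp G B :=
  if a = v ∨ b = v then 1 else Pp a * gen G B a b * (Pp b)⁻¹

/-- The labels of the projection. -/
def r_Vk (G : SimpleGraph V) (A L : Set V) (v x y : V) : Gp G A :=
  (k_Vk G A L v (col A v x))⁻¹ * gen G A (col A v x) (col A v y) * k_Vk G A L v (col A v y)

/-- Paths in the link. -/
structure Cm_Vk (L : Set V) (l : V) (Pp : V → Gp G B) : Prop where
  mem : l ∈ L
  one : Pp l = 1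
  out : ∀ x, x ∉ L → Pp x = 1
  mul : ∀ a ∈ L, ∀ b ∈ L, Adq G a b → Pp a * gen G B a b = Pp b
  path : ∀ a ∈ L, Path G B l a (Pp a)
  kill : ∀ (H : Type) [Group H] (ρ : Gp G B →* H),
    (∀ a ∈ L, ∀ b ∈ L, Adq G a b → ρ (gen G B a b) = 1) → ∀ x, ρ (Pp x) = 1

theorem lk_Vk {x : V} : x ∈ Lk G A {v} ↔ x ∈ A ∧ G.Adj v x := by simp [Lk]

theorem star_Vk {x : V} (hx : x ∈ A) (h : Adq G v x) : x ∈ insert v (Lk G A {v}) :=
  h.imp Eq.symm fun h => lk_Vk.2 ⟨hx, h⟩

theorem adq_Vk {x : V} (hx : x ∈ insert v (Lk G A {v})) : Adq G x v :=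
  hx.imp id fun h => (lk_Vk.1 h).2.symm

theorem memB_Vk (h : Graft G A M B v) {x : V} (hx : x ∈ A \ {v}) : x ∈ B :=
  h.mem_GrB3.2 ⟨Or.inl hx.1, hx.2⟩

theorem lkB_Vk (h : Graft G A M B v) : Lk G A {v} ⊆ B := fun _ hx =>
  memB_Vk h ⟨(lk_Vk.1 hx).1, (lk_Vk.1 hx).2.ne'⟩

theorem pair_Vk (h : Graft G A M B v) {x y z : V} (hx : x ∈ B) (hy : y ∈ B) (hz : z ∈ B)
    (h1 : Adq G x y) (h2 : Adq G y z) (h3 : Adq G x z) :
    (x ∈ A \ {v} ∧ y ∈ A \ {v} ∧ z ∈ A \ {v}) ∨ (x ∈ M \ {v} ∧ y ∈ M \ {v} ∧ z ∈ M \ {v}) := by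
  have := h.clique (l := [x, y, z]) ⟨by simp [hx, hy, hz],
    by simp [Adq.refl, h1, h2, h3, h1.symm, h2.symm, h3.symm]⟩
  simpa only [List.mem_cons, List.not_mem_nil, or_false, forall_eq_or_imp, forall_eq] using this

theorem exists_Vk (h : Graft G A M B v) (hs : SConn G (Lk G A {v})) :
    ∃ (l : V) (Pp : V → Gp G B), Cm_Vk (Lk G A {v}) l Pp := by
  obtain ⟨l, hl⟩ := hs.1.1
  obtain ⟨p, hp, hp1⟩ := paths_GrA2 hs.1 hl
  have hi := IsHom.id G (lkB_Vk h)
  refine ⟨l, fun x => if x ∈ Lk G A {v} then gmap G _ G B id (p x) else 1, hl, ?_,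
    fun x hx => if_neg hx, fun a ha b hb hab => ?_, fun a ha => ?_, fun H _ ρ hρ x => ?_⟩
  · rw [if_pos hl, hp1, map_one]
  · rw [if_pos ha, if_pos hb, ← hs.path_unique ((hp a ha).trans (Path.single ha hb hab)) (hp b hb),
      map_mul, gmap_gen hi]
    rfl
  · rw [if_pos ha]
    exact (hp a ha).map hi
  · split_ifs with hx
    · simpa using (hp x hx).gauge' (ρ := ρ.comp (gmap G _ G B id)) (σ := 1) (k := fun _ => 1)
        fun u hu w hw huw => by simpa [gmap_gen hi] using hρ u hu w hw huw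
    · exact map_one ρ

theorem Ppath_Vk (h : Graft G A M B v) (c : Cm_Vk L l Pp) {x : V} (hx : x ∈ B) :
    Path G B (s_Vk L v l x) x (Pp x) := by
  unfold s_Vk
  split_ifs with h1
  · exact c.path x (h1.resolve_left fun e => h.not_mem (e ▸ hx))
  · rw [c.out x fun h2 => h1 (Or.inr h2)]
    exact Path.nil hx

theorem smem_Vk (h : Graft G A M B v) (hl : l ∈ Lk G A {v}) {x : V} (hx : x ∈ A ∪ M) :
    s_Vk (Lk G A {v}) v l x ∈ B := by
  unfold s_Vk
  split_ifs with h1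
  · exact lkB_Vk h hl
  · exact h.mem_GrB3.2 ⟨hx, fun e => h1 (Or.inl e)⟩

theorem lab_star_Vk (c : Cm_Vk L l Pp) {a b : V} (ha : a ∈ insert v L) (hb : b ∈ insert v L)
    (hab : Adq G a b) : lab_Vk v Pp a b = 1 := by
  unfold lab_Vk
  split_ifs with h1
  · rfl
  · push Not at h1
    rw [c.mul a (ha.resolve_left h1.1) b (hb.resolve_left h1.2) hab, mul_inv_cancel]

theorem flat_lab_Vk (h : Graft G A M B v) (c : Cm_Vk (Lk G A {v}) l Pp) :
    Flat G A (lab_Vk v Pp) := by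
  intro x hx y hy z hz h1 h2 h3
  by_cases h4 : x = v ∨ y = v ∨ z = v
  · have : Adq G v x ∧ Adq G v y ∧ Adq G v z := by
      rcases h4 with rfl | rfl | rfl
      exacts [⟨Adq.refl _ _, h1, h3⟩, ⟨h1.symm, Adq.refl _ _, h2⟩, ⟨h3.symm, h2.symm, Adq.refl _ _⟩]
    have a1 := star_Vk hx this.1
    have a2 := star_Vk hy this.2.1
    have a3 := star_Vk hz this.2.2
    rw [lab_star_Vk c a1 a2 h1, lab_star_Vk c a2 a3 h2, lab_star_Vk c a1 a3 h3, mul_one]
  · push Not at h4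
    simp only [lab_Vk, h4.1, h4.2.1, h4.2.2, or_self, if_false]
    exact (flat_gen G B).gauge Pp x (memB_Vk h ⟨hx, h4.1⟩) y (memB_Vk h ⟨hy, h4.2.1⟩) z
      (memB_Vk h ⟨hz, h4.2.2⟩) h1 h2 h3

theorem flat_r_Vk (h : Graft G A M B v) : Flat G B (r_Vk G A L v) := by
  have := ((flat_gen G A).pull h.col_hom).gauge fun x => (k_Vk G A L v (col A v x))⁻¹
  simp only [inv_inv] at this
  exact this

theorem k_star_Vk (hv : v ∈ A) {a b : V} (ha : a ∈ insert v (Lk G A {v}))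
    (hb : b ∈ insert v (Lk G A {v})) (hab : Adq G a b) :
    (k_Vk G A (Lk G A {v}) v a)⁻¹ * gen G A a b * k_Vk G A (Lk G A {v}) v b = 1 := by
  have hA : ∀ x ∈ insert v (Lk G A {v}), x ∈ A := fun x hx =>
    hx.elim (fun e => e ▸ hv) fun e => (lk_Vk.1 e).1
  rw [k_Vk, k_Vk, s_Vk, s_Vk, if_pos ha, if_pos hb, mul_assoc,
    flat_gen G A a (hA a ha) b (hA b hb) v hv hab (adq_Vk hb) (adq_Vk ha), inv_mul_cancel]

theorem r_one_Vk (h : Graft G A M B v) {x y : V} (hx : x ∈ M \ {v}) (hy : y ∈ M \ {v})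
    (hxy : Adq G x y) : r_Vk G A (Lk G A {v}) v x y = 1 := by
  have key : ∀ x ∈ M, col A v x ∈ insert v (Lk G A {v}) := fun x hx => by
    unfold col
    split_ifs with h1
    · exact h.inter ▸ ⟨h1, hx⟩
    · exact Or.inl rfl
  exact k_star_Vk h.memA (key x hx.1) (key y hy.1)
    (h.col_hom.adq (memB_Vk h.symm hx) (memB_Vk h.symm hy) hxy)

theorem r_A_Vk {x y : V} (hx : x ∈ A) (hy : y ∈ A) :
    r_Vk G A L v x y = (k_Vk G A L v x)⁻¹ * gen G A x y * k_Vk G A L v y := by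
  rw [r_Vk, col, col, if_pos hx, if_pos hy]

theorem half_Vk (h : Graft G A M B v) (hL : Lk G A {v} = L) (c : Cm_Vk L l Pp) {Q : Type}
    [Group Q] (ι : Gp G B →* Q) (jn : Gp G A →* Q) (pr : Q →* Gp G A)
    (h1 : ∀ x ∈ A \ {v}, ∀ y ∈ A \ {v}, Adq G x y → ι (gen G B x y) = jn (r_Vk G A L v x y))
    (h2 : ∀ x ∈ M \ {v}, ∀ y ∈ M \ {v}, Adq G x y → pr (ι (gen G B x y)) = 1)
    (h3 : ∀ γ, pr (jn γ) = γ) (h4 : ∀ w a a', a ≠ 1 → w⁻¹ * jn a * w = jn a' → w ∈ jn.range) :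
    VKH G A B v ι (s_Vk L v l) (s_Vk L v v) Pp (glift G A (lab_Vk v Pp)) (k_Vk G A L v) jn pr := by
  subst hL
  have hf := glift_gen (flat_lab_Vk h c)
  have st : ∀ a ∈ A, ∀ b ∈ A, Adq G a b → a = v ∨ b = v →
      a ∈ insert v (Lk G A {v}) ∧ b ∈ insert v (Lk G A {v}) := by
    rintro a ha b hb hab (rfl | rfl)
    exacts [⟨Or.inl rfl, star_Vk hb hab⟩, ⟨star_Vk ha hab.symm, Or.inl rfl⟩]
  refine ⟨fun a b γ hγ => ?_, fun a ha b hb _ => (hf a b).trans (if_neg fun e => e.elim ha.2 hb.2),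
    fun a _ => (hf a v).trans (if_pos (Or.inr rfl)), fun a b γ hγ => ?_, fun x y γ hγ => ?_,
    fun a ha => ?_, fun a ha => ?_, fun a ha => ?_, h3, h4⟩
  · induction hγ with
    | nil hy =>
      rw [map_one]
      exact Path.nil (smem_Vk h c.mem (Or.inl hy))
    | @cons u w y γ hu huw hp ih =>
      rw [map_mul, hf]
      refine Path.trans ?_ ih
      unfold lab_Vk
      split_ifs with e
      · obtain ⟨a1, a2⟩ := st u hu w hp.mem_left huw e
        rw [s_Vk, s_Vk, if_pos a1, if_pos a2]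
        exact Path.nil (lkB_Vk h c.mem)
      · push Not at e
        have a1 := memB_Vk h ⟨hu, e.1⟩
        have a2 := memB_Vk h ⟨hp.mem_left, e.2⟩
        exact ((Ppath_Vk h c a1).trans (Path.single a1 a2 huw)).trans (Ppath_Vk h c a2).symm
  · have hk := c.kill Q ι fun a ha b hb hab => by
      have a1 := lk_Vk.1 ha
      have a2 := lk_Vk.1 hb
      rw [h1 a ⟨a1.1, a1.2.ne'⟩ b ⟨a2.1, a2.2.ne'⟩ hab, r_A_Vk a1.1 a2.1,
        k_star_Vk h.memA (Or.inr ha) (Or.inr hb) hab, map_one]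
    simpa using hγ.gauge' (ρ := ι.comp (glift G A (lab_Vk v Pp))) (σ := jn)
      (k := fun a => jn (k_Vk G A (Lk G A {v}) v a)⁻¹) fun u hu w hw huw => by
        rw [MonoidHom.comp_apply, hf, ← map_inv, inv_inv, ← map_mul, ← map_mul]
        unfold lab_Vk
        split_ifs with e
        · obtain ⟨a1, a2⟩ := st u hu w hw huw e
          rw [k_star_Vk h.memA a1 a2 huw, map_one, map_one]
        · push Not at e
          rw [map_mul, map_mul, map_inv, hk, hk, h1 u ⟨hu, e.1⟩ w ⟨hw, e.2⟩ huw, r_A_Vk hu hw,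
            one_mul, inv_one, mul_one]
  · simpa using hγ.gauge' (ρ := pr.comp ι) (σ := gmap G B G A (col A v))
      (k := fun x => (k_Vk G A (Lk G A {v}) v (col A v x))⁻¹) fun u hu w hw huw => by
        rw [MonoidHom.comp_apply, gmap_gen h.col_hom, inv_inv, ← r_Vk]
        rcases pair_Vk h hu hw hw huw (Adq.refl _ _) huw with e | e
        · rw [h1 u e.1 w e.2.1 huw, h3]
        · rw [h2 u e.1 w e.2.1 huw, r_one_Vk h e.1 e.2.1 huw]
  · unfold k_Vk s_Vk
    split_ifs with e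
    · exact Path.single ha h.memA (adq_Vk e)
    · exact Path.single ha ha (Adq.refl _ _)
  · by_cases e : a ∈ insert v (Lk G A {v})
    · simp only [s_Vk, col, if_pos e, if_pos (lk_Vk.1 c.mem).1,
        if_pos (Set.mem_insert_of_mem v c.mem)]
    · simp only [s_Vk, col, if_neg e, if_pos ha]
  · unfold k_Vk s_Vk
    split_ifs with e
    · exact (hf a v).trans (if_pos (Or.inr rfl))
    · rw [(flat_gen G A).self ha, map_one]

theorem kap_Vk {Q : Type} [Group Q] {ι : Gp G B →* Q} {s t : V → V} {i : Gp G A →* Gp G B}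
    {jn : Gp G A →* Q} {pr : Q →* Gp G A} (h : VKH G A B v ι s t Pp i (k_Vk G A L v) jn pr)
    {x y : V} (hx : x ∈ A \ {v}) (hy : y ∈ A \ {v}) (hxy : Adq G x y) :
    i (r_Vk G A L v x y) = Pp x * gen G B x y * (Pp y)⁻¹ := by
  rw [r_A_Vk hx.1 hy.1, map_mul, map_mul, map_inv, h.ik x hx.1, h.ik y hy.1, h.edge x hx y hy hxy,
    inv_one, one_mul, mul_one]

open Monoid.Coprod in
theorem vk (hM : MalStmt) : VkStmt := by
  intro V G A M B v h hs
  obtain ⟨l, Pp, c⟩ := exists_Vk h hs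
  let lab : V → V → Monoid.Coprod (Gp G A) (Gp G M) := fun x y =>
    inl (r_Vk G A (Lk G A {v}) v x y) * inr (r_Vk G M (Lk G A {v}) v x y)
  have e1 : ∀ x ∈ A \ {v}, ∀ y ∈ A \ {v}, Adq G x y →
      lab x y = inl (r_Vk G A (Lk G A {v}) v x y) := fun x hx y hy hxy => by
    have := r_one_Vk h.symm hx hy hxy
    rw [← h.lk] at this
    simp only [lab, this, map_one, mul_one]
  have e2 : ∀ x ∈ M \ {v}, ∀ y ∈ M \ {v}, Adq G x y →
      lab x y = inr (r_Vk G M (Lk G A {v}) v x y) := fun x hx y hy hxy => by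
    simp only [lab, r_one_Vk h hx hy hxy, map_one, one_mul]
  have hf : Flat G B lab := fun x hx y hy z hz h1 h2 h3 => by
    rcases pair_Vk h hx hy hz h1 h2 h3 with e | e
    · rw [e1 x e.1 y e.2.1 h1, e1 y e.2.1 z e.2.2 h2, e1 x e.1 z e.2.2 h3, ← map_mul,
        flat_r_Vk h x hx y hy z hz h1 h2 h3]
    · rw [e2 x e.1 y e.2.1 h1, e2 y e.2.1 z e.2.2 h2, e2 x e.1 z e.2.2 h3, ← map_mul,
        flat_r_Vk h.symm x hx y hy z hz h1 h2 h3]
  have H1 := half_Vk h rfl c (glift G B lab) inl fst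
    (fun x hx y hy hxy => by rw [glift_gen hf, e1 x hx y hy hxy])
    (fun x hx y hy hxy => by rw [glift_gen hf, e2 x hx y hy hxy, fst_apply_inr])
    fst_apply_inl fun w => (hM _ _ w).1
  have H2 := half_Vk h.symm h.lk.symm c (glift G B lab) inr snd
    (fun x hx y hy hxy => by rw [glift_gen hf, e2 x hx y hy hxy])
    (fun x hx y hy hxy => by rw [glift_gen hf, e1 x hx y hy hxy, snd_apply_inl])
    snd_apply_inr fun w => (hM _ _ w).2
  refine ⟨{
    κ := lift (glift G A (lab_Vk v Pp)) (glift G M (lab_Vk v Pp))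
    h1 := H1
    h2 := H2
    pr12 := fst_apply_inr
    pr21 := snd_apply_inl
    κ1 := lift_apply_inl _ _
    κ2 := lift_apply_inr _ _
    kappa := fun x y γ hγ => ?_
    Ppath := fun x hx => Ppath_Vk h c hx
    Ps := fun x _ => ?_
    smem := fun x hx => smem_Vk h c.mem hx
    kur := fun H _ hH φ hφ => hH _ _ φ hφ
    .. }⟩
  · exact hγ.gauge' (ρ := (lift _ _).comp (glift G B lab)) (σ := MonoidHom.id _)
      fun u hu w hw huw => by
        rw [MonoidHom.comp_apply, glift_gen hf, MonoidHom.id_apply]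
        rcases pair_Vk h hu hw hw huw (Adq.refl _ _) huw with e | e
        · rw [e1 u e.1 w e.2.1 huw, lift_apply_inl, kap_Vk H1 e.1 e.2.1 huw]
        · rw [e2 u e.1 w e.2.1 huw, lift_apply_inr, kap_Vk H2 e.1 e.2.1 huw]
  · unfold s_Vk
    split_ifs with e
    · exact c.one
    · exact c.out x fun h2 => e (Or.inr h2)

end

end Pool.Agent.MP_6374aa_gt
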