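import Pool.Agent.MP_6374aa_gt.IfC

/-! Collapses of grafts on the images of loops; the retractions and the normal generation. -/

namespace Pool.Agent.MP_6374aa_gt

open Classical

section

variable {V : Type} {G : SimpleGraph V} {A M B : Set V} {v : V}

theorem col_mem_VkOne (hv : v ∈ A) (x : V) : col A v x ∈ A := by
  unfold col
  split_ifs with h
  · exact h
  · exact hv

theorem col_of_mem_VkOne {x : V} (hx : x ∈ A) : col A v x = x := by
  unfold col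
  rw [if_pos hx]

theorem col_of_not_mem_VkOne {x : V} (hx : x ∉ A) : col A v x = v := by
  unfold col
  rw [if_neg hx]

end

theorem vkOne : VkOneStmt := by
  intro V G A M B v D hg a ha
  have hl : ∀ δ ∈ Loop G A a, Path G B (D.s a) (D.s a) (D.i1 δ) := fun δ hδ =>
    D.h1.path a a δ ((mem_Loop ha).1 hδ)
  have hi : ∀ δ ∈ Loop G A a, D.ι (D.i1 δ) = D.jn1 ((D.k1 a)⁻¹ * δ * D.k1 a) := fun δ hδ =>
    D.h1.iota a a δ ((mem_Loop ha).1 hδ)
  refine ⟨⟨D.k1 (col A v (D.s a)) * (D.k1 a)⁻¹, ?_, fun δ hδ => ?_⟩, fun δ hδ => ?_,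
    fun δ hδ => (mem_Loop (D.smem a (Or.inl ha))).2 (hl δ hδ), fun hA hM => ?_⟩
  · have h1 := D.h1.kpath _ (col_mem_VkOne hg.memA (D.s a))
    rw [D.h1.ts a ha] at h1
    exact h1.trans (D.h1.kpath a ha).symm
  · have h1 := D.h1.proj _ _ _ (hl δ hδ)
    rw [hi δ hδ, D.h1.prjn] at h1
    calc _ = D.k1 a * ((D.k1 (col A v (D.s a)))⁻¹ * gmap G B G A (col A v) (D.i1 δ) *
          D.k1 (col A v (D.s a))) * (D.k1 a)⁻¹ := by group
      _ = δ := by rw [← h1]; group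
  · have h1 := D.h2.proj _ _ _ (hl δ hδ)
    rw [hi δ hδ, D.pr21] at h1
    calc _ = D.k2 (col M v (D.s a)) * ((D.k2 (col M v (D.s a)))⁻¹ *
          gmap G B G M (col M v) (D.i1 δ) * D.k2 (col M v (D.s a))) *
          (D.k2 (col M v (D.s a)))⁻¹ := by group
      _ = 1 := by rw [← h1]; group
  · have key : ∀ x ∈ B, ∃ γ, Path G B x (D.s v) γ := by
      intro x hx
      rcases (hg.mem_GrB3.1 hx).1 with h | h
      · obtain ⟨γ, hγ⟩ := hA.2 x h v hg.memA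
        exact ⟨_, (D.Ppath x hx).symm.trans (D.h1.path _ _ _ hγ)⟩
      · obtain ⟨γ, hγ⟩ := hM.2 x h v hg.memM
        exact ⟨_, (D.Ppath x hx).symm.trans (D.h2.path _ _ _ hγ)⟩
    refine ⟨⟨_, D.smem v (Or.inl hg.memA)⟩, fun x hx y hy => ?_⟩
    obtain ⟨γ, hγ⟩ := key x hx
    obtain ⟨δ, hδ⟩ := key y hy
    exact ⟨_, hγ.trans hδ.symm⟩

section

variable {V : Type} {G : SimpleGraph V} {A M B : Set V} {v : V}

theorem k3_side_VkOne (h : VkOneStmt) (D : VKD G A M B v) (P1 : Pack G A) (P2 : Pack G M)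
    (hg : Graft G A M B v) (x : P1.X) : ∃ ρ : Gp G B →* Gp G B,
      (∀ δ ∈ (P1.Λ x).map D.i1, ρ δ = δ) ∧ (∀ δ, ρ δ ∈ (P1.Λ x).map D.i1) ∧
      (∀ y, y ≠ x → ∀ δ ∈ (P1.Λ y).map D.i1, ρ δ = 1) ∧
      ∀ y, ∀ δ ∈ (P2.Λ y).map D.i2, ρ δ = 1 := by
  obtain ⟨ρ, h1, h2, h3⟩ := P1.k3 x
  obtain ⟨⟨γ, -, hγ⟩, -⟩ := h V G A M B v D hg (P1.a x) (P1.mem x)
  let τ : Gp G B →* Gp G B :=
    D.i1.comp (ρ.comp ((MulAut.conj γ⁻¹).toMonoidHom.comp (gmap G B G A (col A v))))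
  have hτ : ∀ δ, τ δ = D.i1 (ρ (γ⁻¹ * gmap G B G A (col A v) δ * γ)) := fun δ => by
    simp [τ]
  refine ⟨τ, ?_, fun δ => ?_, ?_, ?_⟩
  · rintro _ ⟨δ, hδ, rfl⟩
    rw [hτ, hγ δ (P1.loop x hδ), h1 δ hδ]
  · rw [hτ]
    exact ⟨_, h2 _, rfl⟩
  · rintro y hy _ ⟨δ, hδ, rfl⟩
    obtain ⟨⟨γ', -, hγ'⟩, -⟩ := h V G A M B v D hg (P1.a y) (P1.mem y)
    have h4 : gmap G B G A (col A v) (D.i1 δ) = γ' * δ * γ'⁻¹ := by
      conv_rhs => rw [← hγ' δ (P1.loop y hδ)]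
      group
    rw [hτ, h4]
    simp [h3 y hy δ hδ]
  · rintro y _ ⟨δ, hδ, rfl⟩
    have h4 : gmap G B G A (col A v) (D.i2 δ) = 1 :=
      (h V G M A B v D.swap hg.symm (P2.a y) (P2.mem y)).2.1 δ (P2.loop y hδ)
    rw [hτ, h4]
    simp

theorem kill_VkOne (P : Pack G A) {L : Type} [Group L] (ρ : Gp G A →* L)
    (h : ∀ x, ∀ δ ∈ P.Λ x, ρ δ = 1) {y : V} (hy : y ∈ A) {δ : Gp G A} (hδ : δ ∈ Loop G A y) :
    ρ δ = 1 := by
  have h1 : Subgroup.normalClosure (⋃ x, (P.Λ x : Set (Gp G A))) ≤ ρ.ker :=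
    Subgroup.normalClosure_le_normal fun g hg => by
      obtain ⟨x, hx⟩ := Set.mem_iUnion.1 hg
      exact h x g hx
  exact h1 (P.k4 y hy hδ)

theorem star_VkOne (D : VKD G A M B v) (hg : Graft G A M B v) {a b : V}
    (ha : a ∈ insert v (Lk G A {v})) (hb : b ∈ insert v (Lk G A {v})) (hab : Adq G a b) :
    D.i1 (gen G A a b) = 1 := by
  have key : ∀ c ∈ insert v (Lk G A {v}), c ∈ A ∧ Adq G c v ∧ D.i1 (gen G A c v) = 1 := by
    intro c hc
    rcases hc with rfl | hc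
    · exact ⟨hg.memA, Adq.refl _ _, by rw [(flat_gen G A).self hg.memA, map_one]⟩
    · exact ⟨hc.1, Or.inr (hc.2 v rfl).symm, D.h1.cone c hc⟩
  obtain ⟨a1, a2, a3⟩ := key a ha
  obtain ⟨b1, b2, b3⟩ := key b hb
  have h1 := congrArg D.i1 (flat_gen G A a a1 b b1 v hg.memA hab b2 a2)
  rwa [map_mul, a3, b3, mul_one] at h1

end

theorem gK3 (h : VkOneStmt) : GK3Stmt := by
  intro V G A M B v D P1 P2 hg x
  rcases x with x | x
  · obtain ⟨ρ, h1, h2, h3, h4⟩ := k3_side_VkOne h D P1 P2 hg x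
    refine ⟨ρ, h1, h2, ?_⟩
    rintro (y | y) hy
    · exact h3 y fun e => hy (congrArg _ e)
    · exact h4 y
  · obtain ⟨ρ, h1, h2, h3, h4⟩ := k3_side_VkOne h D.swap P2 P1 hg.symm x
    refine ⟨ρ, h1, h2, ?_⟩
    rintro (y | y) hy
    · exact h4 y
    · exact h3 y fun e => hy (congrArg _ e)

theorem gGauge : GGaugeStmt := by
  intro V G A M B v D P2 hg L _ ρ hρ
  obtain ⟨m, hm1, hm⟩ := exists_gauge (ρ := ρ.comp D.i2) (σ := 1) P2.conn hg.memM
    fun γ hγ => kill_VkOne P2 (ρ.comp D.i2) hρ hg.memM hγ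
  have hst : ∀ u ∈ M, u ∈ A → u ∈ insert v (Lk G A {v}) := fun u hu hu' => by
    rw [← hg.inter]
    exact ⟨hu', hu⟩
  have hL : ∀ u ∈ M, u ∈ A → m u = 1 := by
    intro u hu hu'
    rcases hst u hu hu' with rfl | h
    · exact hm1
    · rw [hg.lk] at h
      have h1 := hm u hu v hg.memM (Or.inr (h.2 v rfl).symm)
      simpa [D.h2.cone u h, hm1] using h1.symm
  have hc : ∀ u ∈ M, col A v u ∈ insert v (Lk G A {v}) := by
    intro u hu
    by_cases hu' : u ∈ A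
    · rw [col_of_mem_VkOne hu']
      exact hst u hu hu'
    · rw [col_of_not_mem_VkOne hu']
      exact Set.mem_insert _ _
  refine ⟨fun u => (ρ (D.Pp u))⁻¹ * if u ∈ A then 1 else m u, fun u hu w hw huw => ?_⟩
  have hcl : IsCl G B [u, w] := by
    refine ⟨fun x hx => ?_, fun x hx y hy => ?_⟩
    · rcases List.mem_pair.1 hx with rfl | rfl
      · exact hu
      · exact hw
    · rcases List.mem_pair.1 hx with rfl | rfl <;> rcases List.mem_pair.1 hy with rfl | rfl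
      · exact Adq.refl _ _
      · exact huw
      · exact huw.symm
      · exact Adq.refl _ _
  rcases hg.clique hcl with h | h
  · have h1 := h u (by simp)
    have h2 := h w (by simp)
    dsimp only
    rw [col_of_mem_VkOne h1.1, col_of_mem_VkOne h2.1, if_pos h1.1, if_pos h2.1,
      D.h1.edge u h1 w h2 huw, map_mul, map_mul, map_inv]
    group
  · have h1 := h u (by simp)
    have h2 := h w (by simp)
    have h3 : ∀ x ∈ M, (if x ∈ A then 1 else m x) = m x := by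
      intro x hx
      split_ifs with hx'
      · exact (hL x hx hx').symm
      · rfl
    have h4 := hm u h1.1 w h2.1 huw
    rw [MonoidHom.comp_apply, D.h2.edge u h1 w h2 huw, map_mul, map_mul, map_inv,
      MonoidHom.one_apply] at h4
    dsimp only
    rw [h3 u h1.1, h3 w h2.1,
      star_VkOne D hg (hc u h1.1) (hc w h2.1) (hg.col_hom.adq hu hw huw), map_one]
    calc _ = (ρ (D.Pp u))⁻¹ * (ρ (D.Pp u) * ρ (gen G B u w) * (ρ (D.Pp w))⁻¹) * ρ (D.Pp w) := by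
          group
      _ = _ := by rw [h4]; group

theorem gK4 (h : GGaugeStmt) : GK4Stmt := by
  intro V G A M B v D P1 P2 hg y hy δ hδ
  let N := Subgroup.normalClosure (⋃ x, (gL D P1 P2 x : Set (Gp G B)))
  have hN : ∀ x, ∀ g ∈ gL D P1 P2 x, QuotientGroup.mk' N g = 1 := fun x g hx =>
    (QuotientGroup.eq_one_iff g).2 (Subgroup.subset_normalClosure (Set.mem_iUnion.2 ⟨x, hx⟩))
  obtain ⟨k, hk⟩ := h V G A M B v D P2 hg (Gp G B ⧸ N) (QuotientGroup.mk' N)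
    fun x g hx => hN (Sum.inr x) _ ⟨g, hx, rfl⟩
  have h1 := Path.gauge' (ρ := QuotientGroup.mk' N)
    (σ := ((QuotientGroup.mk' N).comp D.i1).comp (gmap G B G A (col A v))) (k := k)
    (fun u hu w hw huw => by
      rw [hk u hu w hw huw, MonoidHom.comp_apply, MonoidHom.comp_apply, gmap_gen hg.col_hom])
    ((mem_Loop hy).1 hδ)
  have h2 := kill_VkOne P1 ((QuotientGroup.mk' N).comp D.i1)
    (fun x g hx => hN (Sum.inl x) _ ⟨g, hx, rfl⟩) (col_mem_VkOne hg.memA y)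
    (gmap_mem_Loop hg.col_hom hy hδ)
  rw [MonoidHom.comp_apply, h2, mul_one, mul_inv_cancel] at h1
  exact (QuotientGroup.eq_one_iff δ).1 h1

end Pool.Agent.MP_6374aa_gt
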