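import Pool.Agent.MP_6374aa_gt.IfA

namespace Pool.Agent.MP_6374aa_gt

theorem near_act_Vp {C V : Type} [CommGroup C] {G : SimpleGraph V} {A : Set V}
    {α : C →* Equiv.Perm V} (h : Act G A α) (g : C) (n : ℕ) :
    ∀ a ∈ A, ∀ b, Near G A n a b → Near G A n (α g a) (α g b) := by
  induction n with
  | zero => exact fun a _ b hab => congrArg (α g) hab
  | succ n ih =>
    rintro a ha b ⟨c, hc, h1, h2⟩
    exact ⟨α g c, h.mem g c hc, h1.imp (congrArg (α g)) (h.adj g a ha c hc), ih c hc b h2⟩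

theorem vp (hC : CoordStmt) (hL : LiftStmt) : VpStmt := by
  intro C _ _ _ V0 V1 G0 A0 α0 G1 A1 α1 φ R T h0 h3 h1 hφ he hb hT
  obtain ⟨t, ht⟩ := IsCyclic.exists_generator (α := C)
  obtain ⟨u, lam, l, hc⟩ := hC C V0 V1 G0 A0 α0 G1 A1 α1 φ R T t ht h0 h3 h1 hφ he hb hT
  exact hL C V1 α1 A1 _ t u lam l ht h1.mem (fun g a ha b _ => near_act_Vp h1 g R a ha b) hc

end Pool.Agent.MP_6374aa_gt
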