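import Pool.Agent.MP_6374aa_gt.IfA

/-! Vanishing of determinants for control in a free graded poset. -/

namespace Pool.Agent.MP_6374aa_gt

open Classical

theorem key_Vpos {C B : Type} [CommGroup C] (β : C →* Equiv.Perm B) (B0 : Set B)
    (hf : ∀ g, ∀ b ∈ B0, β g b = b → g = 1) :
    ∃ k : B → C, ∀ g a, ∀ b ∈ B0, β g a = b → g = (k a)⁻¹ * k b := by
  let s : Setoid B := ⟨fun a b => ∃ g, β g a = b, fun a => ⟨1, by simp⟩,
    fun ⟨g, h⟩ => ⟨g⁻¹, by simp [← h]⟩,
    fun ⟨g, h⟩ ⟨g', h'⟩ => ⟨g' * g, by simp [h, h']⟩⟩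
  have h1 : ∀ a, ∃ g, β g (Quotient.mk s a).out = a := fun a => Quotient.mk_out (s := s) a
  choose k hk using h1
  refine ⟨k, fun g a b hb h => ?_⟩
  have e : Quotient.mk s a = Quotient.mk s b := Quotient.sound ⟨g, h⟩
  have h2 : β (g * k a * (k b)⁻¹) b = b := by
    have h3 : β (k b)⁻¹ b = (Quotient.mk s a).out := by
      rw [e, map_inv, Equiv.Perm.inv_eq_iff_eq, hk]
    rw [map_mul, map_mul, Equiv.Perm.mul_apply, Equiv.Perm.mul_apply, h3, hk, h]
  have h4 := hf _ b hb h2
  rw [mul_inv_eq_one] at h4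
  rw [← h4, mul_comm g, inv_mul_cancel_left]

theorem det_Vpos {C I : Type} [CommGroup C] [Fintype I] [DecidableEq I] (a b : I → C)
    (P : Matrix I I (RC C)) (h : ∀ i j g, (P i j).coeff g ≠ 0 → g = a i * b j) :
    ∃ (r : ℚ) (g : C), P.det = MonoidAlgebra.single g r := by
  have e : P = Matrix.of fun i j => MonoidAlgebra.of ℚ C (a i) * (Matrix.of fun i j =>
      MonoidAlgebra.of ℚ C (b j) * ((algebraMap ℚ (RC C)).mapMatrix
        (Matrix.of fun i j => (P i j).coeff (a i * b j))) i j) i j := by
    ext i j g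
    simp only [Matrix.of_apply, RingHom.mapMatrix_apply, Matrix.map_apply, MonoidAlgebra.of_apply,
      MonoidAlgebra.coe_algebraMap, Function.comp_apply, MonoidAlgebra.single_mul_single, mul_one,
      one_mul, MonoidAlgebra.coeff_single, Finsupp.single_apply]
    split_ifs with h1
    · simp [h1]
    · by_contra h2
      exact h1 (h i j g h2).symm
  refine ⟨(Matrix.of fun i j => (P i j).coeff (a i * b j)).det, (∏ i, a i) * ∏ i, b i, ?_⟩
  rw [MonoidAlgebra.single_eq_algebraMap_mul_of, map_mul, map_prod, map_prod, RingHom.map_det]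
  conv_lhs => rw [e]
  rw [Matrix.det_mul_column, Matrix.det_mul_row]
  ring

theorem one_Vpos {R I J : Type} [CommRing R] [Fintype I] [DecidableEq I] [Fintype J] (u : I → ℕ)
    (v : J → ℕ) (M : Matrix J I R) (N : Matrix I J R) (h : N * M = 1)
    (hM : ∀ j i, u i < v j → M j i = 0) (hN : ∀ i j, v j < u i → N i j = 0) :
    ((Matrix.of fun i j => if u i = v j then N i j else 0) * M).det = 1 := by
  have h1 : ((Matrix.of fun i j => if u i = v j then N i j else 0) * M).BlockTriangular u := by
    intro i i' hi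
    rw [Matrix.mul_apply]
    refine Finset.sum_eq_zero fun j _ => ?_
    rw [Matrix.of_apply]
    split_ifs with e
    · rw [hM j i' (e ▸ hi), mul_zero]
    · exact zero_mul _
  rw [h1.det]
  refine Finset.prod_eq_one fun c _ => ?_
  have h2 : ((Matrix.of fun i j => if u i = v j then N i j else 0) * M).toSquareBlock u c = 1 := by
    ext i i'
    have h3 : (1 : Matrix {i // u i = c} {i // u i = c} R) i i' = (N * M) i.1 i'.1 := by
      rw [h]
      simp only [Matrix.one_apply, Subtype.ext_iff]
    rw [h3, Matrix.toSquareBlock_def, Matrix.of_apply, Matrix.mul_apply, Matrix.mul_apply]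
    refine Finset.sum_congr rfl fun j _ => ?_
    rw [Matrix.of_apply]
    split_ifs with e
    · rfl
    · rcases lt_or_gt_of_ne e with e' | e'
      · rw [hM j i'.1 (by rw [i'.2, ← i.2]; exact e'), mul_zero, mul_zero]
      · rw [hN i.1 j e']
  rw [h2, Matrix.det_one]

theorem vpos : VposStmt := by
  intro C _ _ B β B0 le ht hβ hf hle I J _ _ _ _ pI pJ _ hJ M N _ hNM hM hN e
  obtain ⟨k, hk⟩ := key_Vpos β B0 hf
  have h1 := one_Vpos (fun i => ht (pI i)) (fun j => ht (pJ j)) M N hNM (fun j i h => ?_)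
    (fun i j h => ?_)
  · obtain ⟨r, g, h2⟩ := det_Vpos (fun i => (k (pI i))⁻¹) (fun i => k (pJ (e i)))
      ((Matrix.of fun i j => if ht (pI i) = ht (pJ j) then N i j else 0).submatrix id e)
      fun i j g hg => by
        simp only [Matrix.submatrix_apply, Matrix.of_apply, id] at hg
        split_ifs at hg with h3
        · rcases hle _ _ (hN i (e j) g hg) with h4 | h4
          · exact hk g _ _ (hJ _) h4
          · rw [hβ, h3] at h4
            exact absurd h4 (lt_irrefl _)
        · exact absurd rfl hg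
    have h3 : MonoidAlgebra.single g r * (M.submatrix e id).det = 1 := by
      rw [← h2, ← Matrix.det_mul, Matrix.submatrix_mul_equiv, Matrix.submatrix_id_id, h1]
    have hr : r ≠ 0 := by
      rintro rfl
      simp at h3
    refine ⟨r⁻¹, g⁻¹, inv_ne_zero hr, ?_⟩
    have h4 : (MonoidAlgebra.single g⁻¹ r⁻¹ : RC C) * MonoidAlgebra.single g r = 1 := by
      rw [MonoidAlgebra.single_mul_single, inv_mul_cancel, inv_mul_cancel₀ hr,
        MonoidAlgebra.one_def]
    rw [← one_mul (M.submatrix e id).det, ← h4, mul_assoc, h3, mul_one]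
  · ext g
    by_contra hg
    rcases hle _ _ (hM j i g hg) with h4 | h4
    · rw [← h4, hβ] at h
      exact absurd h (lt_irrefl _)
    · rw [hβ] at h4
      exact absurd h (lt_asymm h4)
  · ext g
    by_contra hg
    rcases hle _ _ (hN i j g hg) with h4 | h4
    · rw [← h4, hβ] at h
      exact absurd h (lt_irrefl _)
    · rw [hβ] at h4
      exact absurd h (lt_asymm h4)

end Pool.Agent.MP_6374aa_gt
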