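import Pool.Agent.MP_6374aa_gt.TorUniq
import Pool.Agent.MP_6374aa_gt.TorMap
import Pool.Agent.MP_6374aa_gt.TorNeg
import Pool.Agent.MP_6374aa_gt.TorBlock
import Pool.Agent.MP_6374aa_gt.TorSub
import Pool.Agent.MP_6374aa_gt.TorChange
import Pool.Agent.MP_6374aa_gt.Cct
import Pool.Agent.MP_6374aa_gt.Vpos
import Pool.Agent.MP_6374aa_gt.Coord
import Pool.Agent.MP_6374aa_gt.StabFree
import Pool.Agent.MP_6374aa_gt.UnitZ
import Pool.Agent.MP_6374aa_gt.StdIdem
import Pool.Agent.MP_6374aa_gt.Split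
import Pool.Agent.MP_6374aa_gt.Lift
import Pool.Agent.MP_6374aa_gt.Vp
import Pool.Agent.MP_6374aa_gt.Gr
import Pool.Agent.MP_6374aa_gt.Cone
import Pool.Agent.MP_6374aa_gt.RemGen
import Pool.Agent.MP_6374aa_gt.MfBasic
import Pool.Agent.MP_6374aa_gt.Sc2
import Pool.Agent.MP_6374aa_gt.MfIso
import Pool.Agent.MP_6374aa_gt.HsGraft
import Pool.Agent.MP_6374aa_gt.Orient
import Pool.Agent.MP_6374aa_gt.HsUp
import Pool.Agent.MP_6374aa_gt.ClosedMf
import Pool.Agent.MP_6374aa_gt.GFacts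
import Pool.Agent.MP_6374aa_gt.OeAbs
import Pool.Agent.MP_6374aa_gt.Oe
import Pool.Agent.MP_6374aa_gt.Bs
import Pool.Agent.MP_6374aa_gt.TreeFin
import Pool.Agent.MP_6374aa_gt.TreeOne
import Pool.Agent.MP_6374aa_gt.Vk
import Pool.Agent.MP_6374aa_gt.VkOne
import Pool.Agent.MP_6374aa_gt.GK12
import Pool.Agent.MP_6374aa_gt.GLift
import Pool.Agent.MP_6374aa_gt.GraftPack
import Pool.Agent.MP_6374aa_gt.GExt
import Pool.Agent.MP_6374aa_gt.ExtComp
import Pool.Agent.MP_6374aa_gt.Congr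
import Pool.Agent.MP_6374aa_gt.ClGrp
import Pool.Agent.MP_6374aa_gt.ClFix
import Pool.Agent.MP_6374aa_gt.ClExt
import Pool.Agent.MP_6374aa_gt.Pb
import Pool.Agent.MP_6374aa_gt.Pf
import Pool.Agent.MP_6374aa_gt.GraftCov
import Pool.Agent.MP_6374aa_gt.SePhi
import Pool.Agent.MP_6374aa_gt.DichGrp
import Pool.Agent.MP_6374aa_gt.DichS
import Pool.Agent.MP_6374aa_gt.Base
import Pool.Agent.MP_6374aa_gt.AdmPos
import Pool.Agent.MP_6374aa_gt.ValAny
import Pool.Agent.MP_6374aa_gt.Fam
import Pool.Agent.MP_6374aa_gt.AdmS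
import Pool.Agent.MP_6374aa_gt.La2
import Pool.Agent.MP_6374aa_gt.GeoCone
import Pool.Agent.MP_6374aa_gt.GeoS
import Pool.Agent.MP_6374aa_gt.Fl
import Pool.Agent.MP_6374aa_gt.CtGeo
import Pool.Agent.MP_6374aa_gt.SysS
import Pool.Agent.MP_6374aa_gt.CovSys
import Pool.Agent.MP_6374aa_gt.SiteExt
import Pool.Agent.MP_6374aa_gt.SiteTop
import Pool.Agent.MP_6374aa_gt.Compare
import Pool.Agent.MP_6374aa_gt.JPack
import Pool.Agent.MP_6374aa_gt.JVal
import Pool.Agent.MP_6374aa_gt.Inter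
import Pool.Agent.MP_6374aa_gt.SdComb
import Pool.Agent.MP_6374aa_gt.SdHomeo
import Pool.Agent.MP_6374aa_gt.Sd
import Pool.Agent.MP_6374aa_gt.TopHomeo
import Pool.Agent.MP_6374aa_gt.Sheet
import Pool.Agent.MP_6374aa_gt.LiftMap
import Pool.Agent.MP_6374aa_gt.Apx
import Pool.Agent.MP_6374aa_gt.Vertex
import Pool.Agent.MP_6374aa_gt.JHomeo
import Pool.Agent.MP_6374aa_gt.Nf
import Pool.Agent.MP_6374aa_gt.Orth
import Pool.Agent.MP_6374aa_gt.Rep
import Pool.Agent.MP_6374aa_gt.SphHomeo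
import Pool.Agent.MP_6374aa_gt.SphCov
import Pool.Agent.MP_6374aa_gt.SphSite
import Pool.Agent.MP_6374aa_gt.PieceS
import Pool.Agent.MP_6374aa_gt.SumS
import Pool.Agent.MP_6374aa_gt.MainS

/-! Assembly of all the steps. -/

namespace Pool.Agent.MP_6374aa_gt

theorem g_torNeg : TorNegStmt := torNeg torUniq
theorem g_torNeg' : TorNegStmt' := torNeg' torUniq
theorem g_torSub : TorSubStmt := torSub torUniq torBlock
theorem g_torChange : TorChangeStmt := torChange inU
theorem g_cct : CctStmt := cct torEx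
theorem g_lift : LiftStmt := liftV split stdIdem stabFree unitZ inU
theorem g_vp : VpStmt := vp coord g_lift
theorem g_cone : ConeStmt := coneS torMap torReindex g_torNeg g_torNeg' torBlock g_torSub inU
theorem g_mfRem : MfRemStmt := mfRem remGen mfBasic
theorem g_mfGraft : MfGraftStmt := mfGraft remGen (hsGraft remGen) mfBasic g_mfRem
theorem g_closedMf : ClosedMfStmt := closedMf orient hs1 hsUp
theorem g_oe : OeStmt := oeS oeAbs mfBasic
theorem g_hasE : HasEStmt := hasE bs treeFin treeOne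
theorem g_vk : VkStmt := vk (mal bs)
theorem g_graftPack : GraftPackStmt :=
  graftPack vkOne (gK1 vkOne) (gK2 vkOne) (gK3 vkOne) (gK4 gGauge) gLift
theorem g_graft : GraftStmt :=
  graftS g_vk g_graftPack (gExt vkOne gGauge) gFacts gLoc mfBasic g_mfRem sc2
theorem g_qComp : QCompStmt := qComp (extComp locComp) seComp
theorem g_clQ1 : ClQ1Stmt := clQ1 clSe_ok pb clExt_ok clCov
theorem g_graftCov : GraftCovStmt := graftCov g_graft g_clQ1 mfIso g_qComp congrS mfBasic
theorem g_dich : DichStmt := dichS dichGrp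
theorem g_valAny : ValAnyStmt := valAny admPos g_torChange vpos inU
theorem g_valUniq : ValUniqStmt := valUniq g_valAny torUniq torMap inU
theorem g_adm : AdmStmt := admS fam
theorem g_geo : GeoStmt := geoS (geoCone g_cct) g_cone g_valAny
theorem g_fl : FlStmt := fl g_geo g_adm la2 vpos extDich (frExt extDich)
theorem g_sys : SysStmt := sysS (ctGeo la2 g_vp) g_geo g_adm g_fl g_dich extDich
theorem g_top : TopStmt := topS g_sys sePhi pf (frSe seMatch)
theorem g_covSys : CovSysStmt := covSys g_clQ1 g_qComp congrS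
theorem g_siteExt : SiteExtStmt := siteExt g_fl g_clQ1
theorem g_siteTop : SiteTopStmt := siteTop g_top g_covSys sePhi pf
theorem g_compare : CompareStmt := compareS g_dich extDich g_sys g_covSys g_valUniq gr
theorem g_jVal : JValStmt :=
  jVal torBlock g_torSub g_torChange vpos g_cct torMap torReindex g_torNeg g_torNeg' g_cone inU
    jPack
theorem g_sd : SdStmt := sdS rlBasic sdComb (sdHomeo rlBasic)
theorem g_topHomeo : TopHomeoStmt := topHomeo inter g_sd rlBasic g_clQ1 g_qComp g_top g_fl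
theorem g_typ : TypStmt := typS inter g_sd rlBasic g_clQ1 g_qComp g_siteTop g_siteExt
theorem g_asphCov : AsphCovStmt := asphCov vertexS liftMap (apx g_sd rlBasic clSe_ok seComp)
theorem g_sphCov : SphCovStmt :=
  sphCov (covHomeo liftMap rlBasic) (jHomeo rlBasic) jPack g_jVal g_topHomeo emptyS orth nf rlBasic
theorem g_piece : PieceStmt :=
  pieceS sheet g_asphCov g_sphCov (sphSite g_clQ1 g_fl) g_closedMf mfBasic g_oe g_hasE baseS
    emptyS deckIso orth g_clQ1
theorem g_side : SideStmt :=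
  sideS g_piece (sumS g_graft g_graftCov g_mfGraft g_siteExt) g_typ g_closedMf mfBasic

theorem main_ok : MainStmt :=
  mainS g_side inter (doubleS g_graft g_graftCov g_mfGraft g_siteExt mfIso g_clQ1 g_qComp)
    g_compare (sphHomeo orth nf small rep) g_qComp g_clQ1 g_siteExt mfIso mfBasic

end Pool.Agent.MP_6374aa_gt
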