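import Pool.Agent.MP_6374aa_gt.IfG
import Pool.Agent.MP_6374aa_gt.GrB1
import Pool.Agent.MP_6374aa_gt.GrB3

/-! Free product decompositions of grafts, and the base cases. -/

namespace Pool.Agent.MP_6374aa_gt

open Classical

section Abs

variable {π π1 π2 X1 X2 S1 S2 : Type} [Group π] [Group π1] [Group π2] {H : Subgroup π}
  {H1 : Subgroup π1} {H2 : Subgroup π2} {i1 : π1 →* π} {i2 : π2 →* π}
  {Λ1 : X1 → Subgroup π1} {Λ2 : X2 → Subgroup π2} {t1 : S1 → π1} {t2 : S2 → π2}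

theorem gen_GraftG (F1 : FP H1 Λ1 t1) (K : Subgroup π) (h1 : ∀ x, (Λ1 x).map i1 ≤ K)
    (h2 : ∀ s, i1 (t1 s) ∈ K) : H1.map i1 ≤ K := by
  rw [Subgroup.map_le_iff_le_comap]
  refine F1.gen.trans ((Subgroup.closure_le _).2 ?_)
  rintro δ (hδ | ⟨s, rfl⟩)
  · obtain ⟨x, hx⟩ := Set.mem_iUnion.1 hδ
    exact h1 x (Subgroup.mem_map_of_mem i1 hx)
  · exact h2 s

theorem ne_GraftG (F1 : FP H1 Λ1 t1) (j1 : ∀ δ ∈ H1, i1 δ = 1 → δ = 1) (x : X1) :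
    (Λ1 x).map i1 ≠ ⊥ := fun h => F1.ne x <| (Subgroup.eq_bot_iff_forall _).2 fun δ hδ =>
  j1 δ (F1.le x hδ) ((Subgroup.eq_bot_iff_forall _).1 h _ (Subgroup.mem_map_of_mem i1 hδ))

theorem fp_GraftG (F1 : FP H1 Λ1 t1) (F2 : FP H2 Λ2 t2) (l1 : ∀ δ ∈ H1, i1 δ ∈ H)
    (l2 : ∀ δ ∈ H2, i2 δ ∈ H) (gn : H ≤ H1.map i1 ⊔ H2.map i2)
    (ext : ∀ (L : Type) [Group L] (ρ1 : π1 →* L) (ρ2 : π2 →* L), ∃ ρ : π →* L,
      (∀ δ ∈ H1, ρ (i1 δ) = ρ1 δ) ∧ ∀ δ ∈ H2, ρ (i2 δ) = ρ2 δ)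
    (j1 : ∀ δ ∈ H1, i1 δ = 1 → δ = 1) (j2 : ∀ δ ∈ H2, i2 δ = 1 → δ = 1) :
    FP H (Sum.elim (fun x => (Λ1 x).map i1) fun x => (Λ2 x).map i2)
      (Sum.elim (fun s => i1 (t1 s)) fun s => i2 (t2 s)) where
  le := by
    rintro (x | x) _ ⟨δ, hδ, rfl⟩
    exacts [l1 δ (F1.le x hδ), l2 δ (F2.le x hδ)]
  mem := by
    rintro (s | s)
    exacts [l1 _ (F1.mem s), l2 _ (F2.mem s)]
  gen := gn.trans <| sup_le
    (gen_GraftG F1 _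
      (fun x _ h => Subgroup.subset_closure (Or.inl (Set.mem_iUnion.2 ⟨Sum.inl x, h⟩)))
      fun s => Subgroup.subset_closure (Or.inr ⟨Sum.inl s, rfl⟩))
    (gen_GraftG F2 _
      (fun x _ h => Subgroup.subset_closure (Or.inl (Set.mem_iUnion.2 ⟨Sum.inr x, h⟩)))
      fun s => Subgroup.subset_closure (Or.inr ⟨Sum.inr s, rfl⟩))
  ext := by
    intro L _ f g
    obtain ⟨ρ1, a1, b1⟩ := F1.ext L
      (fun x => MonoidHom.comp (f (Sum.inl x)) (i1.subgroupMap (Λ1 x))) fun s => g (Sum.inl s)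
    obtain ⟨ρ2, a2, b2⟩ := F2.ext L
      (fun x => MonoidHom.comp (f (Sum.inr x)) (i2.subgroupMap (Λ2 x))) fun s => g (Sum.inr s)
    obtain ⟨ρ, c1, c2⟩ := ext L ρ1 ρ2
    refine ⟨ρ, ?_, ?_⟩
    · rintro (x | x) ⟨_, δ, hδ, rfl⟩
      · exact (c1 δ (F1.le x hδ)).trans (a1 x ⟨δ, hδ⟩)
      · exact (c2 δ (F2.le x hδ)).trans (a2 x ⟨δ, hδ⟩)
    · rintro (s | s)
      · exact (c1 _ (F1.mem s)).trans (b1 s)
      · exact (c2 _ (F2.mem s)).trans (b2 s)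
  ne := by
    rintro (x | x)
    exacts [ne_GraftG F1 j1 x, ne_GraftG F2 j2 x]
  hasE := by
    rintro (x | x)
    exacts [(F1.hasE x).map i1 fun δ hδ => j1 δ (F1.le x hδ),
      (F2.hasE x).map i2 fun δ hδ => j2 δ (F2.le x hδ)]

theorem gda_GraftG {X' : Type} (F1 : FP H1 Λ1 t1) (l1 : ∀ δ ∈ H1, i1 δ ∈ H) (ψ : π →* π1)
    (hψ : ∀ δ ∈ H, ψ δ ∈ H1) (h1 : ∀ δ ∈ H1, ψ (i1 δ) = δ) (h2 : ∀ δ ∈ H2, ψ (i2 δ) = 1)
    (Λ' : X' → Subgroup π) (j : X1 → X') (hj : Function.Injective j)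
    (e : ∀ x, Λ' (j x) = (Λ1 x).map i1) (hk : ∀ x', x' ∉ Set.range j → Λ' x' ≤ H2.map i2) :
    GDa ψ H H1 Λ' Λ1 j where
  map := hψ
  onto := fun δ hδ => ⟨i1 δ, l1 δ hδ, h1 δ hδ⟩
  inj := hj
  mat := by
    intro x
    rw [e]
    refine ⟨?_, 1, one_mem _, ?_, fun δ hδ => ⟨i1 δ, Subgroup.mem_map_of_mem i1 hδ, ?_⟩⟩
    · rintro _ ⟨δ, hδ, rfl⟩ h
      rw [h1 δ (F1.le x hδ)] at h
      rw [h, map_one]
    · rintro _ ⟨δ, hδ, rfl⟩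
      rwa [h1 δ (F1.le x hδ), inv_one, one_mul, mul_one]
    · rw [h1 δ (F1.le x hδ), inv_one, one_mul, mul_one]
  kill := by
    intro x' hx δ hδ
    obtain ⟨δ', h', rfl⟩ := hk x' hx hδ
    exact h2 δ' h'

end Abs

theorem gcj_mem_GraftG {V V' : Type} {G : SimpleGraph V} {G' : SimpleGraph V'} {A : Set V}
    {A' : Set V'} {f : V' → V} (hf : IsHom G' A' G A f) {y' : V'} (hy : y' ∈ A') {y : V}
    {γ : Gp G A} (hγ : Path G A (f y') y γ) {δ : Gp G' A'} (hδ : δ ∈ Loop G' A' y') :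
    gcj G' A' G A f γ δ ∈ Loop G A y := by
  have := hγ.conj_mem_Loop (gmap_mem_Loop hf hy hδ)
  simpa [gcj] using this

theorem graftG : GraftGStmt := by
  intro V G A M B v l i1 i2 Pp P1 P2 hg hv e1 e2
  obtain ⟨γ1, a1, b1, c1⟩ := hv.p1
  obtain ⟨γ2, a2, b2, c2⟩ := hv.p2
  have F1 := P1.fp
  have F2 := P2.fp
  rw [e1] at F1
  rw [e2] at F2
  have F := fp_GraftG F1 F2 hv.l1 hv.l2 hv.gn hv.ext
    (fun δ hδ h => by rw [← b1 δ hδ, h, map_one]) (fun δ hδ h => by rw [← b2 δ hδ, h, map_one])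
  refine ⟨⟨P1.X ⊕ P2.X, P1.S ⊕ P2.S, l, _, _, hg.fin3 P1.fin3 P2.fin3, hv.conn P1.conn P2.conn,
    hv.mem, F⟩, Sum.inl, Sum.inr, ?_, fun _ _ => Sum.inl_ne_inr, fun _ => rfl, fun _ => rfl,
    nonempty_sum, ⟨hg.col_hom, γ1, e1 ▸ a1, ?_⟩, ⟨hg.symm.col_hom, γ2, e2 ▸ a2, ?_⟩⟩
  · rintro (x | x)
    exacts [Or.inl ⟨x, rfl⟩, Or.inr ⟨x, rfl⟩]
  · rw [e1]
    refine gda_GraftG F1 hv.l1 _ (fun δ hδ => gcj_mem_GraftG hg.col_hom hv.mem a1 hδ) b1 c1 _ _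
      Sum.inl_injective (fun _ => rfl) ?_
    rintro (x | x) hx
    exacts [absurd ⟨x, rfl⟩ hx, Subgroup.map_mono (F2.le x)]
  · rw [e2]
    refine gda_GraftG F2 hv.l2 _ (fun δ hδ => gcj_mem_GraftG hg.symm.col_hom hv.mem a2 hδ) b2 c2
      _ _ Sum.inr_injective (fun _ => rfl) ?_
    rintro (x | x) hx
    exacts [Subgroup.map_mono (F1.le x), absurd ⟨x, rfl⟩ hx]

theorem retr_GraftG {V : Type} {G : SimpleGraph V} {A : Set V} (hc : PConn G A) {y : V}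
    (hy : y ∈ A) : ∃ R : Gp G A →* Loop G A y, ∀ δ : Loop G A y, R δ = δ := by
  obtain ⟨R, p, -, h1, h2, h3⟩ := exists_retraction hc hy
  refine ⟨R.codRestrict _ h3, fun δ => Subtype.ext ?_⟩
  change R δ = δ
  rw [h2 y y δ ((mem_Loop hy).1 δ.2), h1, inv_one, one_mul, mul_one]

theorem baseG : BaseGStmt := by
  intro V G A h3 hc y hy
  obtain ⟨R, hR⟩ := retr_GraftG hc hy
  refine ⟨fun h => ?_, fun h hE => ?_, fun ⟨θ⟩ => ?_⟩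
  · exact ⟨⟨Empty, Empty, y, Empty.elim, Empty.elim, h3, hc, hy, fun x => x.elim, fun x => x.elim,
      by rw [h]; exact bot_le, fun L _ _ _ => ⟨1, fun x => x.elim, fun x => x.elim⟩,
      fun x => x.elim, fun x => x.elim⟩, ⟨Empty.elim⟩,
      ⟨Empty.elim⟩⟩
  · exact ⟨⟨Unit, Empty, y, fun _ => Loop G A y, Empty.elim, h3, hc, hy, fun _ => le_rfl,
      fun x => x.elim,
      fun δ hδ => Subgroup.subset_closure (Or.inl (Set.mem_iUnion.2 ⟨(), hδ⟩)),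
      fun L _ f _ => ⟨(f ()).comp R, fun _ δ => congrArg (f ()) (hR δ), fun x => x.elim⟩,
      fun _ => h, fun _ => hE⟩, (), fun _ => rfl, rfl, ⟨Empty.elim⟩⟩
  · refine ⟨⟨Empty, Unit, y, Empty.elim, fun _ => (θ.symm (Multiplicative.ofAdd 1) : Loop G A y),
      h3, hc, hy, fun x => x.elim, fun _ => (θ.symm _).2, fun δ hδ => ?_,
      fun L _ _ g => ⟨(zpowersHom L (g ())).comp (θ.toMonoidHom.comp R), fun x => x.elim,
        fun _ => ?_⟩, fun x => x.elim, fun x => x.elim⟩, ⟨Empty.elim⟩, ⟨()⟩⟩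
    · have e : (⟨δ, hδ⟩ : Loop G A y) =
          θ.symm (Multiplicative.ofAdd 1) ^ (θ ⟨δ, hδ⟩).toAdd := by
        rw [← map_zpow, ← ofAdd_zsmul, smul_eq_mul, mul_one, ofAdd_toAdd, θ.symm_apply_apply]
      have e' := congrArg Subtype.val e
      rw [Subgroup.coe_zpow] at e'
      rw [show δ = _ from e']
      refine Subgroup.zpow_mem _ (Subgroup.subset_closure ?_) _
      exact Or.inr ⟨(), rfl⟩
    · simp [hR]

theorem pConnCov : PConnCovStmt := by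
  intro V L _ G A lab hf hc y hy
  refine ⟨fun h l => ?_, fun h => ⟨⟨(y, 1), hy⟩, ?_⟩⟩
  · obtain ⟨γ, hγ⟩ := h.2 (y, l) hy (y, 1) hy
    refine ⟨_, (mem_Loop hy).2 (hγ.map (up_hom_GrB1 lab)), ?_⟩
    have := hγ.proj hf
    rw [smul_eq_mul, mul_one] at this
    exact this.symm
  · have key : ∀ p ∈ up A L, ∃ γ, Path (cov G lab L) (up A L) p (y, 1) γ := by
      rintro ⟨a, l⟩ ha
      obtain ⟨γ, hγ⟩ := hc.2 a ha y hy
      obtain ⟨δ, hδ, e⟩ := h ((glift G A lab γ)⁻¹ * l)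
      obtain ⟨γ', h', -⟩ := (hγ.trans ((mem_Loop hy).1 hδ)).lift hf (1 : L)
      rw [map_mul, e, smul_eq_mul, mul_one, mul_inv_cancel_left] at h'
      exact ⟨γ', h'⟩
    intro p hp q hq
    obtain ⟨γ, hγ⟩ := key p hp
    obtain ⟨δ, hδ⟩ := key q hq
    exact ⟨_, hγ.trans hδ.symm⟩

end Pool.Agent.MP_6374aa_gt
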