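import Pool.Agent.MP_6374aa_gt.IfM

/-! The value of a graft on cyclic covers, and the types of the sites of a graft. -/

namespace Pool.Agent.MP_6374aa_gt

open Classical

variable {V : Type} {G : SimpleGraph V} {A M B : Set V} {v l : V}

theorem cst_mem_GraftVal (hv : v ∈ M) {a : V} (ha : a ∈ cst G M v) : a ∈ M ∧ Adq G a v := by
  rcases ha with rfl | ha
  · exact ⟨hv, Adq.refl G _⟩
  · exact ⟨ha.1, Or.inr (ha.2 v rfl).symm⟩

theorem inter_GraftVal (hg : Graft G A M B v) {a : V} (ha : a ∈ A) (ha' : a ∈ M) :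
    a ∈ cst G A v ∧ a ∈ cst G M v := by
  have h : a ∈ cst G A v := by
    rw [cst, ← hg.inter]
    exact ⟨ha, ha'⟩
  refine ⟨h, ?_⟩
  rwa [cst, ← hg.lk]

theorem paths_GraftVal (hc : PConn G M) (hv : v ∈ M) : ∃ q : V → Gp G M,
    (∀ a ∈ M, Path G M a v (q a)) ∧ ∀ a ∈ cst G M v, q a = gen G M a v := by
  obtain ⟨r, hr, -⟩ := paths_GrA2 hc hv
  refine ⟨fun a => if a ∈ cst G M v then gen G M a v else (r a)⁻¹, fun a ha => ?_,
    fun a ha => if_pos ha⟩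
  by_cases h : a ∈ cst G M v
  · simp only [if_pos h]
    exact Path.single ha hv (cst_mem_GraftVal hv h).2
  · simp only [if_neg h]
    exact (hr a ha).symm

theorem lift_GraftVal (p : ℕ) [NeZero p] (P : GP G M) (σ : Gp G M →* Cp p)
    (hk : ∀ x, ∀ δ ∈ P.Λ x, σ δ = 1) : ∃ (π : Zm →* Cp p) (lam : Gp G M →* Zm),
      (∀ x, ∀ δ ∈ P.Λ x, lam δ = 1) ∧ ∀ δ ∈ Loop G M P.y, π (lam δ) = σ δ := by
  let π : Zm →* Cp p := AddMonoidHom.toMultiplicative (Int.castAddHom (ZMod p))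
  have hs : Function.Surjective π := fun c => by
    obtain ⟨n, hn⟩ := ZMod.intCast_surjective (n := p) c.toAdd
    exact ⟨Multiplicative.ofAdd n, congrArg Multiplicative.ofAdd hn⟩
  choose g hg using fun s => hs (σ (P.t s))
  obtain ⟨lam, h1, h2⟩ := P.fp.ext Zm (fun _ => 1) g
  refine ⟨π, lam, fun x δ hδ => h1 x ⟨δ, hδ⟩, fun δ hδ => ?_⟩
  have h : Subgroup.closure ((⋃ x, (P.Λ x : Set (Gp G M))) ∪ Set.range P.t) ≤
      MonoidHom.eqLocus (π.comp lam) σ := by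
    refine (Subgroup.closure_le _).2 ?_
    rintro ε (hε | ⟨s, rfl⟩)
    · obtain ⟨x, hx⟩ := Set.mem_iUnion.1 hε
      change π (lam ε) = σ ε
      have e : lam ε = 1 := h1 x ⟨ε, hx⟩
      rw [e, map_one, hk x ε hx]
    · change π (lam (P.t s)) = σ (P.t s)
      rw [h2, hg]
  exact h (P.fp.gen hδ)

theorem graftVal (hM : MvValStmt) (hT : SideTFStmt) (hG : ValGaugeStmt) : GraftValStmt := by
  intro p _ V G A M B v l i1 i2 Pp P2 ρ hp hg hv mA mM hy hk τ hτ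
  obtain ⟨π, lam, k1, k2⟩ := lift_GraftVal p P2 (ρ.comp i2) hk
  rw [hy] at k2
  obtain ⟨q, q1, q2⟩ := paths_GraftVal P2.conn hg.memM
  let lz : V → V → Zm := fun u w => (lam (q u))⁻¹ * lam (gen G M u w) * ((lam (q w))⁻¹)⁻¹
  have lz' : ∀ u w, lz u w = lam ((q u)⁻¹ * gen G M u w * q w) := fun u w => by
    simp only [lz, map_mul, map_inv, inv_inv]
  have fz : Flat G M lz := (flat_hom lam).gauge fun u => (lam (q u))⁻¹
  have oz : ∀ a ∈ cst G M v, ∀ b ∈ cst G M v, Adq G a b → lz a b = 1 := by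
    intro a ha b hb hab
    obtain ⟨a1, a2⟩ := cst_mem_GraftVal hg.memM ha
    obtain ⟨b1, b2⟩ := cst_mem_GraftVal hg.memM hb
    rw [lz', q2 a ha, q2 b hb, mul_assoc, flat_gen G M a a1 b b1 v hg.memM hab b2 a2,
      inv_mul_cancel, map_one]
  have tf : TF G M v lz := by
    refine hT V G M v lz P2 hy fz oz fun x δ hδ => ?_
    have hδ' : Path G M P2.y P2.y δ := (mem_Loop P2.mem).1 (P2.fp.le x hδ)
    rw [Path.gauge' (ρ := glift G M lz) (σ := lam) (k := fun u => (lam (q u))⁻¹)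
      (fun u _ w _ _ => glift_gen fz u w) hδ', k1 x δ hδ, mul_one, mul_inv_cancel]
  let lab : V → V → Cp p := fun a b =>
    if a ∈ A ∧ b ∈ A then ρ (i1 (gen G A a b)) else π (lz a b)
  have lA : ∀ a ∈ A, ∀ b ∈ A, lab a b = ρ (i1 (gen G A a b)) := fun a ha b hb => if_pos ⟨ha, hb⟩
  have lM : ∀ a ∈ M, ∀ b ∈ M, Adq G a b → lab a b = π (lz a b) := by
    intro a ha b hb hab
    by_cases h : a ∈ A ∧ b ∈ A
    · obtain ⟨a1, a2⟩ := inter_GraftVal hg h.1 ha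
      obtain ⟨b1, b2⟩ := inter_GraftVal hg h.2 hb
      rw [lA a h.1 b h.2, hv.c1 a a1 b b1 hab, oz a a2 b b2 hab, map_one, map_one]
    · exact if_neg h
  have fA : Flat G A fun u w => ρ (i1 (gen G A u w)) := flat_hom (ρ.comp i1)
  have fl : Flat G A lab := by
    intro a ha b hb c hc h1 h2 h3
    rw [lA a ha b hb, lA b hb c hc, lA a ha c hc]
    exact fA a ha b hb c hc h1 h2 h3
  have v1 : ValC G A p lab τ :=
    (hG p V G A _ lab (fun _ => 1) mA.1 fA (fun u hu w hw _ => by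
      rw [lA u hu w hw, inv_one, one_mul, mul_one]) τ).2 hτ
  have v2 : ValC G B p lab τ := hM p V G A M B v lab lz π hp hg mA mM fl fz lM oz tf τ v1
  have fB : B.Finite := by
    rw [hg.eq]
    exact (mA.1.union mM.1).sdiff
  let K : V → Cp p := fun a => if a ∈ A then ρ (Pp a) else (ρ (i2 (q a)))⁻¹ * ρ (Pp a)
  have KA : ∀ a ∈ A, K a = ρ (Pp a) := fun a ha => if_pos ha
  have KM : ∀ a ∈ M, K a = (ρ (i2 (q a)))⁻¹ * ρ (Pp a) := by
    intro a ha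
    by_cases h : a ∈ A
    · have a2 := (inter_GraftVal hg h ha).2
      rw [KA a h, q2 a a2, hv.c2 a a2 v (Set.mem_insert _ _) (cst_mem_GraftVal hg.memM a2).2,
        map_one, inv_one, one_mul]
    · exact if_neg h
  refine (hG p V G B _ lab K fB (flat_hom ρ) (fun u hu w hw huw => ?_) τ).1 v2
  have hc : IsCl G B [u, w] := by
    refine ⟨by simp [hu, hw], ?_⟩
    simp [Adq.refl, huw, huw.symm]
  rcases hg.clique hc with h | h
  · have h1 := h u (by simp)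
    have h2 := h w (by simp)
    rw [lA u h1.1 w h2.1, hv.e1 u h1 w h2 huw, KA u h1.1, KA w h2.1, map_mul, map_mul, map_inv]
  · have h1 := h u (by simp)
    have h2 := h w (by simp)
    have hl : (q u)⁻¹ * gen G M u w * q w ∈ Loop G M v := (mem_Loop hg.memM).2
      (((q1 u h1.1).symm.trans (Path.single h1.1 h2.1 huw)).trans (q1 w h2.1))
    rw [lM u h1.1 w h2.1 huw, lz', k2 _ hl, KM u h1.1, KM w h2.1]
    simp only [MonoidHom.comp_apply, map_mul, map_inv, hv.e2 u h1 w h2 huw, mul_inv_rev, inv_inv,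
      mul_assoc]

theorem vk2_symm_GraftVal {i1 : Gp G A →* Gp G B} {i2 : Gp G M →* Gp G B} {Pp : V → Gp G B}
    (h : VK2 G A M B v l i1 i2 Pp) : VK2 G M A B v l i2 i1 Pp where
  mem := h.mem
  e1 := h.e2
  e2 := h.e1
  c1 := h.c2
  c2 := h.c1
  l1 := h.l2
  l2 := h.l1
  gn := h.gn.trans (sup_comm _ _).le
  ext := fun L _ ρ1 ρ2 => by
    obtain ⟨ρ, a, b⟩ := h.ext L ρ2 ρ1
    exact ⟨ρ, b, a⟩
  p1 := h.p2
  p2 := h.p1
  conn := fun a b => h.conn b a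

theorem pass_GraftVal (hW : GraftValStmt) {i1 : Gp G A →* Gp G B} {i2 : Gp G M →* Gp G B}
    {Pp : V → Gp G B} (hg : Graft G A M B v) (hv : VK2 G A M B v l i1 i2 Pp) (mA : Mf G A)
    (mM : Mf G M) {Q1 : GP G A} {Q2 : GP G M} (y1 : Q1.y = v) (y2 : Q2.y = v) {P' : GP G B}
    {j1 : Q1.X → P'.X} {j2 : Q2.X → P'.X} (hj : Function.Injective j1)
    (hd : ∀ x y, j1 x ≠ j2 y) (e1 : ∀ x, P'.Λ (j1 x) = (Q1.Λ x).map i1)
    (e2 : ∀ x, P'.Λ (j2 x) = (Q2.Λ x).map i2) : Pass Q1 P' j1 := by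
  rintro x L _ t χ ⟨θ, hθ⟩
  obtain ⟨γ, -, b, -⟩ := hv.p1
  have inj : ∀ δ ∈ Q1.Λ x, i1 δ = 1 → δ = 1 := fun δ hδ h => by
    have hδ' : δ ∈ Loop G A v := y1 ▸ Q1.fp.le x hδ
    rw [← b δ hδ', h, map_one]
  have bij : Function.Bijective (i1.subgroupMap (Q1.Λ x)) := by
    refine ⟨(injective_iff_map_eq_one _).2 fun δ h => ?_, i1.subgroupMap_surjective _⟩
    exact Subtype.ext (inj δ δ.2 (congrArg Subtype.val h))
  let e : Q1.Λ x ≃* P'.Λ (j1 x) :=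
    (MulEquiv.ofBijective _ bij).trans (MulEquiv.subgroupCongr (e1 x).symm)
  have he : ∀ δ : Q1.Λ x, (e δ : Gp G B) = i1 δ := fun δ => rfl
  refine ⟨e.symm.trans θ, fun ht p _ hp ρ hu => ?_⟩
  have hu' : Unw Q1 x (ρ.comp i1) := by
    refine ⟨fun δ hδ h => inj δ hδ (hu.inj _ ?_ h), fun c => ?_, fun y hy δ hδ => ?_⟩
    · rw [e1]
      exact Subgroup.mem_map_of_mem i1 hδ
    · obtain ⟨δ, hδ, h⟩ := hu.surj c
      rw [e1] at hδ
      obtain ⟨δ', h', rfl⟩ := hδ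
      exact ⟨δ', h', h⟩
    · refine hu.kill (j1 y) (fun h => hy (hj h)) (i1 δ) ?_
      rw [e1]
      exact Subgroup.mem_map_of_mem i1 hδ
  obtain ⟨a, c, h1, h2⟩ := hθ ht p hp (ρ.comp i1) hu'
  refine ⟨a, c, fun δ => ?_,
    hW p V G A M B v l i1 i2 Pp Q2 ρ hp hg hv mA mM y2 (fun y δ hδ => ?_) _ h2⟩
  · have h := h1 (e.symm δ)
    rw [MonoidHom.comp_apply, ← he, MulEquiv.apply_symm_apply] at h
    exact h
  · refine hu.kill (j2 y) (hd x y).symm (i2 δ) ?_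
    rw [e2]
    exact Subgroup.mem_map_of_mem i2 hδ

theorem graftSite2 (hV : Vk2Stmt) (hG : GraftGStmt) (hW : GraftValStmt) (hQ : QSTypeStmt)
    (hC : ClQSStmt) (hD : GDCompStmt) (hB : MfBasicStmt) (hS : Sc2Stmt) : GraftSite2Stmt := by
  intro V G A M B v P1 P2 hg mA mM
  have qs : ∀ {S : Set V}, Fin3 G S → QS G S G S id := fun {S} h =>
    hC V V G S G S id (IsIso.cl ⟨Set.bijOn_id S, fun _ _ _ _ => Iff.rfl⟩) h
  obtain ⟨Q1, b1, y1, d1, s1, p1⟩ := hQ V V G A G A id P1 (qs P1.fin3) v hg.memA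
  obtain ⟨Q2, b2, y2, d2, s2, p2⟩ := hQ V V G M G M id P2 (qs P2.fin3) v hg.memM
  obtain ⟨-, -, hl⟩ := hB V G A mA
  obtain ⟨l, i1, i2, Pp, hv⟩ := hV V G A M B v hg
    (hS V G _ (mA.1.subset fun _ h => h.1) (hl v hg.memA).1 (hl v hg.memA).2)
  obtain ⟨P', j1, j2, cv, hd, e1, e2, s, g1, g2⟩ :=
    hG V G A M B v l i1 i2 Pp Q1 Q2 hg hv y1 y2
  have r1 : Pass Q1 P' j1 := by
    obtain ⟨-, γ, -, g⟩ := g1
    exact pass_GraftVal hW hg hv mA mM y1 y2 g.inj hd e1 e2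
  have r2 : Pass Q2 P' j2 := by
    obtain ⟨-, γ, -, g⟩ := g2
    exact pass_GraftVal hW hg.symm (vk2_symm_GraftVal hv) mM mA y2 y1 g.inj
      (fun x y => (hd y x).symm) e2 e1
  refine ⟨P', j1 ∘ b1, j2 ∘ b2, (hD V V V G A G A G B id (col A v)).1 P1 Q1 P' b1 j1 d1 g1,
    fun x' => ?_, by rw [s, s1, s2], fun x L _ t χ h => r1 _ L t χ (p1 x L t χ h),
    fun x L _ t χ h => r2 _ L t χ (p2 x L t χ h)⟩
  rcases cv x' with ⟨x, rfl⟩ | ⟨x, rfl⟩
  · exact Or.inl ⟨b1.symm x, by simp⟩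
  · exact Or.inr ⟨b2.symm x, by simp⟩

end Pool.Agent.MP_6374aa_gt
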