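import Pool.Agent.MP_6374aa_gt.IfQ

/-! The controlled idempotent describing the kernel of a map of nonzero degree. -/

namespace Pool.Agent.MP_6374aa_gt

open Classical Matrix

noncomputable section

section Aux

variable {V V' W : Type} {G : SimpleGraph V} {A : Set V} {G' : SimpleGraph V'} {A' : Set V'}
  {C : Type} [CommGroup C] [Fintype C] {α : C →* Equiv.Perm V} {α' : C →* Equiv.Perm V'}
  [Fintype W]

theorem kill_IdemE (hI : PDinjStmt) (hα : Act G A α) (hM : Mf G A) {ζ : EA V}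
    (hζ : ζ ∈ Zy G A 4) (h0 : ζ ≠ 0) {a : V → V → ℚ} (hc : Coc G A a)
    (hb : cap1 (lc ζ) a ∈ Bd G A 3) {z : EA V} (hz : z ∈ Zy G A 2) : prR α a z = 0 := by
  obtain ⟨w, hw, e⟩ := mem_Bd.1 hb
  obtain ⟨F, -, -, hF, -⟩ := hI V G A _ a w (eta_of_mf hM hζ h0) hc (fs_of_finite G hM.1 a) hw
    e.symm
  rw [prR_congr hα (mem_Zy.1 hz).1 hF, prR_cob hα F hz]

theorem cap_IdemE (hα : Act G A α) {ζ : EA V} (hζ : ∀ g, emap (α g) ζ = ζ) {x y : W → EA V}
    (h : ∀ j, cap1 (lc ζ) (ef (x j)) - y j ∈ Bd G A 3) (μ : W → RC C) :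
    cap1 (lc ζ) (ef (∑ j, act α (μ j) (x j))) - ∑ j, act α (μ j) (y j) ∈ Bd G A 3 := by
  rw [cap1_ef_sum, ← Finset.sum_sub_distrib]
  refine Submodule.sum_mem _ fun j _ => ?_
  rw [cap1_ef_act hζ, ← act_sub_right]
  exact act_mem_Bd hα _ (h j)

theorem prl_IdemE (x : W → EA V) (μ : W → RC C) (z : EA V) :
    prR α (ef (∑ j, act α (μ j) (x j))) z = ∑ j, star (μ j) * prR α (ef (x j)) z := by
  simp only [prR_ef_sum, prR_ef_act]

theorem prr_IdemE (a : V → V → ℚ) (z : W → EA V) (μ : W → RC C) :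
    prR α a (∑ j, act α (μ j) (z j)) = ∑ j, μ j * prR α a (z j) := by
  simp only [prR_sum, prR_act]

theorem coc_sub_IdemE {x y : EA V} (hx : Coc G A (ef x)) (hy : Coc G A (ef y)) :
    Coc G A (ef (x - y)) := by
  have : ef (x - y) = fun p q => ef x p q - ef y p q := by
    funext p q
    exact ef_sub x y p q
  rw [this]
  exact hx.sub hy

theorem one_IdemE [DecidableEq W] (μ : W → RC C) (k : W) :
    ∑ j, μ j * (1 : Matrix W W (RC C)) j k = μ k := by
  simp [Matrix.one_apply]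

theorem kd_IdemE [DecidableEq W] (hα : Act G A α) {ζ : EA V} (hζ : ∀ g, emap (α g) ζ = ζ)
    {ν y a : W → EA V} (kd : KData G A α ζ ν y a 1) {e : Matrix W W (RC C)} (he : e * e = e) :
    KData G A α ζ (cmb α ν e) (cmb α y eᴴ) (cmb α a eᴴ) e where
  h1 _ := Submodule.sum_mem _ fun i _ => act_mem_Zy hα _ (kd.h1 i)
  h2 _ := Submodule.sum_mem _ fun i _ => act_mem_Zy hα _ (kd.h2 i)
  ha _ := Submodule.sum_mem _ fun i _ => act_mem_Ch hα _ (kd.ha i)
  coc _ := coc_sum_act hα kd.coc _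
  pair i j := by
    have h : (Matrix.of fun i k => prR α (ef (a i)) (ν k)) = 1 := Matrix.ext kd.pair
    rw [prR_cmb, h, conjTranspose_conjTranspose, Matrix.mul_one, he]
  cap _ := cap_IdemE hα hζ kd.cap _
  idem := he
  fix1 j := by rw [cmb_cmb, he]
  fix2 j := by rw [cmb_cmb, ← conjTranspose_mul, he]
  rel1 μ h := by
    rw [sum_act_cmb] at h
    simpa using kd.rel1 _ h
  rel2 μ h := by
    rw [sum_act_cmb] at h
    simpa using kd.rel2 _ h

/-- The cochains dual to the images of the cycles. -/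
theorem dual_IdemE (hS : PDsurjStmt) {f : V' → V} (hf : IsHom G' A' G A f) (hM : Mf G A)
    (hM' : Mf G' A') {ζ' : EA V'} (hζ : ζ' ∈ Zy G' A' 4) (h0 : emap f ζ' ≠ 0) {S : Set V'}
    (hSA : S ⊆ A') {y : EA V'} (hy : y ∈ Zy G' S 3) :
    ∃ β ∈ Ch G A 2, ∃ a0 ∈ Ch G' A' 2, Coc G A (ef β) ∧ Coc G' A' (ef a0) ∧
      (∀ p ∈ A', ∀ q ∈ A', G'.Adj p q → ef a0 p q = ef β (f p) (f q)) ∧
      (∀ p q, ef β p q ≠ 0 → p ∈ f '' S ∨ q ∈ f '' S) ∧
      cap1 (lc (emap f ζ')) (ef β) - emap f y ∈ Bd G A 3 := by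
  have hη := eta_of_mf hM (emap_mem_Zy hf hζ) h0
  obtain ⟨b, b1, b2, b3, b4⟩ := hS V G A (f '' S) _ hη
    (by rintro _ ⟨p, hp, rfl⟩; exact hf.1 p (hSA hp)) (emap f y)
    (emap_mem_Zy (hf.mono hSA fun p hp => Set.mem_image_of_mem f hp) hy)
  obtain ⟨β, c1, c2, c3⟩ := b1.exists_ef b2
  obtain ⟨a0, d1, d2, d3⟩ := (c2.pull hf).exists_ef (fs_of_finite G' hM'.1 _)
  refine ⟨β, c1, a0, d1, c2, d2, d3, fun p q h => ?_, ?_⟩
  · obtain ⟨h1, h2, h3⟩ := ef_ne_zero c1 h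
    exact b3 p q (c3 p h1 q h2 h3 ▸ h)
  · rw [cap1_congr hη.toEta0 c3]
    exact b4

end Aux

theorem idemE (hS : PDsurjStmt) (hI : PDinjStmt) (hD : DegStmt) : IdemEStmt := by
  intro C _ _ V V' U W _ _ G A α G' A' α' H B γ f c ζ' ν y a loc hα hα' hf ef' ec hM hM' hζ' h0
    hker hDF
  have kd := hDF.kd
  have hζ := hζ'.map hf ef'
  have h0' : ζ' ≠ 0 := fun h => h0 (by rw [h, map_zero])
  have hη' := eta0_lc hM'.1 hζ'.1
  have hη := eta0_lc hM.1 hζ.1
  have fs' := fs_of_finite G' hM'.1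
  choose β hβ a0 ha0 cβ ca0 hpull hsupp hcap using fun i =>
    dual_IdemE hS hf hM hM' hζ'.1 h0 Set.inter_subset_left (hDF.l2 i)
  have hν : ∀ j, ν j ∈ Ch G' A' 2 := fun j => (mem_Zy.1 (kd.h1 j)).1
  have hy : ∀ j, ∃ n, y j ∈ Ch G' A' n := fun j => ⟨3, (mem_Zy.1 (kd.h2 j)).1⟩
  have fA : ∀ i, ∀ z ∈ Ch G' A' 2, prR α' (ef (a0 i)) z = prR α (ef (β i)) (emap f z) :=
    fun i z hz => by rw [prR_emap ef' _ hz, prR_congr hα' hz (hpull i)]
  have fB : ∀ i, emap f (cap1 (lc ζ') (ef (a0 i))) = cap1 (lc (emap f ζ')) (ef (β i)) :=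
    fun i => by rw [cap1_congr hη' (hpull i), emap_cap1]
  obtain ⟨P, hP⟩ : ∃ P : Matrix W W (RC C), ∀ i j, P i j = prR α' (ef (a0 i)) (ν j) :=
    ⟨Matrix.of fun i j => prR α' (ef (a0 i)) (ν j), fun _ _ => rfl⟩
  have b2 : ∀ j, emap f (cmb α' y (1 - P)ᴴ j) ∈ Bd G A 3 := by
    intro j
    have h1 : y j - cap1 (lc ζ') (ef (a0 j)) ∈ Zy G' A' 3 :=
      sub_mem (kd.h2 j) (cap1_mem_Zy hη' (fs' _) (ca0 j))
    have h2 : emap f (y j - cap1 (lc ζ') (ef (a0 j))) ∈ Bd G A 3 := by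
      rw [map_sub, fB, ← neg_sub]
      exact neg_mem (hcap j)
    obtain ⟨μ, hμ⟩ := hDF.k2 _ h1 (hker 3 (Or.inr rfl) _ h1 h2)
    have h3 : cap1 (lc ζ') (ef (a j - a0 j - ∑ i, act α' (μ i) (a i))) ∈ Bd G' A' 3 := by
      have := sub_mem (add_mem hμ (kd.cap j)) (cap_IdemE hα' hζ'.2 kd.cap μ)
      rw [cap1_ef_sub, cap1_ef_sub]
      refine (congrArg (· ∈ Bd G' A' 3) ?_).mp this
      abel
    have h4 : ∀ k, μ k = (1 - P)ᴴ k j := fun k => by
      have := kill_IdemE hI hα' hM' hζ'.1 h0' (coc_sub_IdemE (coc_sub_IdemE (kd.coc j) (ca0 j))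
        (coc_sum_act hα' kd.coc μ)) h3 (kd.h1 k)
      rw [prR_ef_sub, prR_ef_sub, prl_IdemE, ← hP] at this
      simp only [kd.pair] at this
      rw [one_IdemE (fun i => star (μ i)), sub_eq_zero] at this
      rw [conjTranspose_apply, Matrix.sub_apply, this, star_star]
    have h5 : cmb α' y (1 - P)ᴴ j = ∑ i, act α' (μ i) (y i) := by
      simp only [cmb, h4]
    have := sub_mem h2 (emap_mem_Bd hf hμ)
    rwa [← map_sub, sub_sub_cancel, ← h5] at this
  have k2 : ∀ μ : W → RC C, emap f (∑ j, act α' (μ j) (y j)) ∈ Bd G A 3 →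
      (1 - P)ᴴ.mulVec μ = μ := by
    intro μ h
    rw [emap_sum_act ef' hy] at h
    have h1 := add_mem (cap_IdemE hα hζ.2 hcap μ) h
    rw [sub_add_cancel] at h1
    rw [conjTranspose_sub, conjTranspose_one, Matrix.sub_mulVec, Matrix.one_mulVec, sub_eq_self]
    funext k
    have := kill_IdemE hI hα hM hζ.1 h0 (coc_sum_act hα cβ μ) h1 (emap_mem_Zy hf (kd.h1 k))
    rw [prl_IdemE] at this
    have h2 := congrArg star this
    rw [star_zero, star_sum] at h2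
    refine Eq.trans (Finset.sum_congr rfl fun i _ => ?_) h2
    rw [star_mul, star_star, ← fA i _ (hν k), ← hP]
    rfl
  have k1 : ∀ μ : W → RC C, emap f (∑ j, act α' (μ j) (ν j)) ∈ Bd G A 2 →
      (1 - P).mulVec μ = μ := by
    intro μ h
    rw [Matrix.sub_mulVec, Matrix.one_mulVec, sub_eq_self]
    funext i
    have := prR_bd hα (cβ i) h
    rw [← fA i _ (Submodule.sum_mem _ fun j _ => act_mem_Ch hα' _ (hν j)), prr_IdemE] at this
    refine Eq.trans (Finset.sum_congr rfl fun j _ => ?_) this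
    rw [← hP, mul_comm]
  have b1 : ∀ j, emap f (cmb α' ν (1 - P) j) ∈ Bd G A 2 := by
    intro k
    have hk : cmb α' ν (1 - P) k ∈ Ch G' A' 2 :=
      Submodule.sum_mem _ fun j _ => act_mem_Ch hα' _ (hν j)
    refine mem_Bd_of_coc (emap_mem_Ch hf hk) fun b hb => ?_
    obtain ⟨l, hl⟩ : ∃ l : W → RC C, ∀ j, star (l j) = prR α' (fun p q => b (f p) (f q)) (ν j) :=
      ⟨fun j => star (prR α' (fun p q => b (f p) (f q)) (ν j)), fun j => star_star _⟩
    have cx := coc_sum_act hα' kd.coc l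
    have capx := cap_IdemE hα' hζ'.2 kd.cap l
    have hxν : ∀ j, prR α' (ef (∑ i, act α' (l i) (a i))) (ν j) = star (l j) := fun j => by
      rw [prl_IdemE]
      simp only [kd.pair]
      exact one_IdemE (fun i => star (l i)) j
    generalize ∑ i, act α' (l i) (a i) = x at cx capx hxν
    obtain ⟨b', F, hb', hF⟩ := exists_coc_push hf (hD V V' G A G' A' f ζ' hf hM hM' hζ'.1 h0).onto
      cx (fun z hz h => by
        obtain ⟨μ, hμ⟩ := hDF.k1 z hz (hker 2 (Or.inl rfl) z hz h)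
        have h1 := prR_bd hα' ((hb.pull hf).sub cx) hμ
        rw [prR_sub, prr_IdemE] at h1
        simp only [prR_sub_left, hxν, hl, sub_self, mul_zero, Finset.sum_const_zero,
          sub_zero] at h1
        rw [← prR_emap ef' b (mem_Zy.1 hz).1, prR_bd hα hb h, zero_sub, neg_eq_zero] at h1
        rw [← prR_one_FrC (α := α'), h1]
        rfl)
    have h2 : cap1 (lc ζ') (fun p q => b' (f p) (f q)) - ∑ i, act α' (l i) (y i) ∈
        Bd G' A' 3 := by
      have := sub_mem capx (cap1_cob_mem hη' (F := F) (hM'.1.subset fun _ h => h.1))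
      rwa [cap1_congr hη' hF, cap1_add hη' (fs' _) (fs' _), sub_right_comm,
        add_sub_cancel_right] at this
    have h3 : cap1 (lc (emap f ζ')) (fun p q => b' p q - ef (∑ i, act α (l i) (β i)) p q) ∈
        Bd G A 3 := by
      have h4 := emap_mem_Bd hf h2
      rw [map_sub, emap_cap1, emap_sum_act ef' hy] at h4
      have := sub_mem h4 (cap_IdemE hα hζ.2 hcap l)
      rwa [sub_sub_sub_cancel_right, ← cap1_sub hη (fs_of_finite G hM.1 _)
        (fs_of_finite G hM.1 _)] at this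
    have h5 := kill_IdemE hI hα hM hζ.1 h0 (hb'.sub (coc_sum_act hα cβ l)) h3
      (emap_mem_Zy hf (kd.h1 k))
    have h6 := hxν k
    rw [prR_congr hα' (hν k) hF, prR_add_left, prR_cob hα' F (kd.h1 k), add_zero,
      ← prR_emap ef' b' (hν k)] at h6
    rw [prR_sub_left, h6, prl_IdemE] at h5
    have h7 : prR α b (emap f (cmb α' ν (1 - P) k)) = 0 := by
      rw [prR_emap ef' b hk, cmb, prr_IdemE, ← h5, ← one_IdemE (fun i => star (l i)) k,
        ← Finset.sum_sub_distrib]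
      refine Finset.sum_congr rfl fun i _ => ?_
      rw [← hl, ← fA i _ (hν k), ← hP, Matrix.sub_apply]
      ring
    rw [← prR_one_FrC (α := α), h7]
    rfl
  have idem : (1 - P) * (1 - P) = 1 - P :=
    Matrix.ext fun i j => congrFun (k1 (fun i => (1 - P) i j) (b1 j)) i
  refine ⟨1 - P, kd_IdemE hα' hζ'.2 kd idem, b1, b2, k1, k2, fun i j g hg => ?_⟩
  by_cases hij : i = j ∧ g = 1
  · exact Or.inl hij
  right
  have h1 : ((1 : Matrix W W (RC C)) i j).coeff g = 0 := by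
    by_cases e : i = j
    · have : g ≠ 1 := fun h => hij ⟨e, h⟩
      rw [e, Matrix.one_apply_eq, MonoidAlgebra.one_def]
      simp [this]
    · rw [Matrix.one_apply_ne e]
      rfl
  have h2 : evE (ef (a0 i)) (emap (α' g⁻¹) (ν j)) ≠ 0 := fun h => hg (by
    rw [Matrix.sub_apply, MonoidAlgebra.coeff_sub, Finsupp.sub_apply, h1, hP, prR_coeff, h,
      sub_zero])
  have h3 : emap (α' g⁻¹) (ν j) ∈ Ch G' {p | p ∈ A' ∧ c (α' g p) = loc j} 2 :=
    emap_mem_Ch ((hα'.isIso g⁻¹).isHom.mono (S := {p | p ∈ A' ∧ c (α' g p) = loc j})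
      Set.inter_subset_left fun p hp => ⟨hα'.mem _ p hp.1, by
        rw [map_inv, Equiv.Perm.inv_def, Equiv.apply_symm_apply]
        exact hp.2⟩) (mem_Zy.1 (hDF.l1 j)).1
  obtain ⟨p, hp, q, hq, hpq, h4⟩ := evE_ne_zero h3 h2
  rw [hpull i p hp.1 q hq.1 hpq] at h4
  have key : ∀ p, p ∈ A' ∧ c (α' g p) = loc j → f p ∈ f '' (A' ∩ c ⁻¹' {loc i}) →
      ∃ p ∈ A', ∃ q ∈ A', c q = γ g (loc i) ∧ c p = loc j ∧ f p = f q := by
    rintro p hp ⟨q, hq, e⟩
    refine ⟨α' g p, hα'.mem _ p hp.1, α' g q, hα'.mem _ q hq.1, ?_, hp.2, ?_⟩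
    · rw [ec g q hq.1, show c q = loc i from hq.2]
    · rw [ef' g p hp.1, ef' g q hq.1, e]
  exact (hsupp i _ _ h4).elim (key p hp) (key q hq)

end

end Pool.Agent.MP_6374aa_gt
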