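import Pool.Agent.MP_6374aa_gt.IfD

/-! Fine levels of a tower map equivariantly to a given cover. -/

namespace Pool.Agent.MP_6374aa_gt

open Classical

variable {C : Type} [CommGroup C] {X : Type}

theorem star0_Inter [UniformSpace X] [CompactSpace X] (U : Set (Set X)) (h1 : ∀ u ∈ U, IsOpen u)
    (h2 : ∀ x, ∃ u ∈ U, x ∈ u) : ∃ U' : Set (Set X), (∀ u ∈ U', IsOpen u) ∧
      (∀ x, ∃ u ∈ U', x ∈ u) ∧ ∀ a ∈ U', ∃ u ∈ U, ∀ b ∈ U', (a ∩ b).Nonempty → b ⊆ u := by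
  obtain ⟨E, hE, h3⟩ := lebesgue_number_lemma_sUnion (K := Set.univ) isCompact_univ h1
    fun x _ => h2 x
  obtain ⟨F, hF, -, h4⟩ := comp_symm_mem_uniformity_sets hE
  obtain ⟨W, hW, o, _, h5⟩ := comp_open_symm_mem_uniformity_sets hF
  refine ⟨Set.range fun x => UniformSpace.ball x W, ?_,
    fun x => ⟨_, ⟨x, rfl⟩, UniformSpace.mem_ball_self x hW⟩, ?_⟩
  · rintro _ ⟨x, rfl⟩
    exact UniformSpace.isOpen_ball x o
  · rintro _ ⟨x, rfl⟩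
    obtain ⟨u, hu, h6⟩ := h3 x (Set.mem_univ x)
    refine ⟨u, hu, ?_⟩
    rintro _ ⟨y, rfl⟩ ⟨z, hz, hz'⟩ t ht
    exact h6 (h4 (UniformSpace.mem_ball_comp
      (h5 (UniformSpace.mem_ball_comp hz (UniformSpace.mem_ball_symmetry.1 hz')))
      (h5 (subset_comp_self_of_mem_uniformity hW ht))))

variable [TopologicalSpace X] [CompactSpace X] [T2Space X]

/-- Star refinements. -/
theorem star_Inter (U : Set (Set X)) (h1 : ∀ u ∈ U, IsOpen u)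
    (h2 : ∀ x, ∃ u ∈ U, x ∈ u) : ∃ U' : Set (Set X), (∀ u ∈ U', IsOpen u) ∧
      (∀ x, ∃ u ∈ U', x ∈ u) ∧ ∀ a ∈ U', ∃ u ∈ U, ∀ b ∈ U', (a ∩ b).Nonempty → b ⊆ u :=
  @star0_Inter X uniformSpaceOfCompactR1 ‹_› U h1 h2

variable {β : C →* Equiv.Perm X} {L : ℕ → Lev C} {c : ∀ n, (L (n + 1)).V → (L n).V}
  {K D O : ∀ n, (L n).V → Set X}

theorem leb_Inter (h : IsTower β L c K D O) (T : ℕ) : ∀ U : Set (Set X), (∀ u ∈ U, IsOpen u) →
    (∀ x, ∃ u ∈ U, x ∈ u) → ∃ N, ∀ n, N ≤ n → ∀ w ∈ (L n).A, ∃ u ∈ U,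
      ∀ w', Near (L n).G (L n).A T w w' → K n w' ⊆ u := by
  induction T with
  | zero =>
    intro U h1 h2
    obtain ⟨N, hN⟩ := h.mesh U h1 h2
    refine ⟨N, fun n hn w hw => ?_⟩
    obtain ⟨u, hu, h3⟩ := hN n hn w hw
    exact ⟨u, hu, fun w' e => (show w = w' from e) ▸ h3⟩
  | succ T ih =>
    intro U h1 h2
    obtain ⟨U', o, cv, st⟩ := star_Inter U h1 h2
    obtain ⟨N, hN⟩ := ih U' o cv
    refine ⟨N, fun n hn w hw => ?_⟩
    obtain ⟨a, ha, h3⟩ := hN n hn w hw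
    obtain ⟨u, hu, h4⟩ := st a ha
    refine ⟨u, hu, ?_⟩
    rintro w' ⟨v, hv, h5, h6⟩
    obtain ⟨b, hb, h7⟩ := hN n hn v hv
    obtain ⟨x, hx, hx'⟩ := h.meet n w hw v hv h5
    exact (h7 w' h6).trans (h4 b hb ⟨x, h3 w (Near.refl hw T) hx, h7 v (Near.refl hv T) hx'⟩)

/-- Equivariant choice over a free action. -/
theorem choice_Inter {V V' : Type} [Nonempty V] {G' : SimpleGraph V'} {A' : Set V'}
    {α' : C →* Equiv.Perm V'} (α : C →* Equiv.Perm V) (h : FreeAct G' A' α') (R : V' → V → Prop)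
    (h1 : ∀ w ∈ A', ∃ v, R w v) (h2 : ∀ g, ∀ w ∈ A', ∀ v, R w v → R (α' g w) (α g v)) :
    ∃ φ : V' → V, Eqv A' α' α φ ∧ ∀ w ∈ A', R w (φ w) := by
  have hm : ∀ (g g' : C) (w : V'), α' g (α' g' w) = α' (g * g') w := fun g g' w => by
    rw [map_mul, Equiv.Perm.mul_apply]
  have h0 : ∀ w : V', α' 1 w = w := fun w => by rw [map_one, Equiv.Perm.one_apply]
  let s : Setoid V' := ⟨fun w w' => ∃ g, α' g w = w', fun w => ⟨1, h0 w⟩,
    fun ⟨g, e⟩ => ⟨g⁻¹, by rw [← e, hm, inv_mul_cancel, h0]⟩,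
    fun ⟨g, e⟩ ⟨g', e'⟩ => ⟨g' * g, by rw [← hm, e, e']⟩⟩
  choose k hk using fun w => Quotient.mk_out (s := s) w
  refine ⟨fun w => α (k w) (Classical.epsilon (R (Quotient.mk s w).out)), fun g w hw => ?_,
    fun w hw => ?_⟩
  · have h3 : Quotient.mk s (α' g w) = Quotient.mk s w := (Quotient.sound (s := s) ⟨g, rfl⟩).symm
    have h4 := hk (α' g w)
    rw [h3] at h4
    have h5 := h.free (k w * (k (α' g w))⁻¹ * g) {w} (Finset.singleton_nonempty w)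
      (by simpa using hw) (by simp) (by
        rw [Finset.map_singleton]
        congr 1
        change α' _ w = w
        rw [← hm, ← hm]
        nth_rw 2 [← h4]
        rw [hm _ (k _), inv_mul_cancel, h0, hk])
    have h6 : k (α' g w) = g * k w := by
      rw [mul_right_comm, mul_inv_eq_one] at h5
      rw [← h5, mul_comm]
    beta_reduce
    rw [h3, h6, map_mul, Equiv.Perm.mul_apply]
  · have h3 : (Quotient.mk s w).out ∈ A' := by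
      have h4 := h.mem (k w)⁻¹ w hw
      nth_rw 2 [← hk w] at h4
      rwa [hm, inv_mul_cancel, h0] at h4
    have h4 := h2 (k w) _ h3 _ (Classical.epsilon_spec (h1 _ h3))
    rwa [hk] at h4

/-- A level with its closed and open covers. -/
structure Pl_Inter (C X : Type) [CommGroup C] where
  L : Lev C
  K : L.V → Set X
  O : L.V → Set X

structure Ok_Inter (β : C →* Equiv.Perm X) (p : Pl_Inter C X) : Prop where
  free : FreeAct p.L.G p.L.A p.L.α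
  isOpen : ∀ v ∈ p.L.A, IsOpen (p.O v)
  cover : ∀ x, ∃ v ∈ p.L.A, x ∈ p.K v
  KO : ∀ v ∈ p.L.A, p.K v ⊆ p.O v
  adq : ∀ v ∈ p.L.A, ∀ w ∈ p.L.A, (p.O v ∩ p.O w).Nonempty → Adq p.L.G v w
  meet : ∀ v ∈ p.L.A, ∀ w ∈ p.L.A, Adq p.L.G v w → (p.K v ∩ p.K w).Nonempty
  eO : ∀ g, ∀ v ∈ p.L.A, p.O (p.L.α g v) = β g '' p.O v

/-- A map subordinate to the covers. -/
def Sub_Inter (T : ℕ) (p' p : Pl_Inter C X) (φ : p'.L.V → p.L.V) : Prop :=
  Eqv p'.L.A p'.L.α p.L.α φ ∧ ∀ w ∈ p'.L.A, φ w ∈ p.L.A ∧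
    ∀ w', Near p'.L.G p'.L.A T w w' → p'.K w' ⊆ p.O (φ w)

omit [CompactSpace X] [T2Space X] in
theorem ok_Inter (h : IsTower β L c K D O) (n : ℕ) : Ok_Inter β ⟨L n, K n, O n⟩ :=
  ⟨h.free n, h.isOpen n, h.cover n, fun v hv => (h.KD n v hv).trans (h.DO n v hv), h.adq n,
    h.meet n, h.eO n⟩

theorem sub_Inter [Nonempty X] (h : IsTower β L c K D O) (T : ℕ) {p : Pl_Inter C X}
    (hp : Ok_Inter β p) : ∃ N, ∀ n, N ≤ n → ∃ φ, Sub_Inter T ⟨L n, K n, O n⟩ p φ := by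
  obtain ⟨N, hN⟩ := leb_Inter h T (p.O '' p.L.A) (by
    rintro _ ⟨v, hv, rfl⟩
    exact hp.isOpen v hv) fun x => by
      obtain ⟨v, hv, hx⟩ := hp.cover x
      exact ⟨_, ⟨v, hv, rfl⟩, hp.KO v hv hx⟩
  refine ⟨N, fun n hn => ?_⟩
  obtain ⟨v0, -⟩ := hp.cover (Classical.arbitrary X)
  have : Nonempty p.L.V := ⟨v0⟩
  refine choice_Inter p.L.α (h.free n) (fun w v => v ∈ p.L.A ∧
    ∀ w', Near (L n).G (L n).A T w w' → K n w' ⊆ p.O v) (fun w hw => ?_) ?_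
  · obtain ⟨_, ⟨v, hv, rfl⟩, h1⟩ := hN n hn w hw
    exact ⟨v, hv, h1⟩
  · rintro g w hw v ⟨hv, h1⟩
    refine ⟨hp.free.mem g v hv, fun w' h2 => ?_⟩
    have ha := (h.free n).toAct
    have h3 := Near.map (f := (L n).α g⁻¹) ⟨ha.mem g⁻¹, fun a h4 b h5 h6 =>
      Or.inr (ha.adj g⁻¹ a h4 b h5 h6)⟩ (ha.mem g w hw) h2
    have h4 : (L n).α g⁻¹ ((L n).α g w) = w := by simp
    have h5 : (L n).α g ((L n).α g⁻¹ w') = w' := by simp
    rw [h4] at h3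
    rw [← h5, h.eK n g _ (h3.mem hw), hp.eO g v hv]
    exact Set.image_mono (h1 _ h3)

end Pool.Agent.MP_6374aa_gt
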