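import Pool.Agent.MP_6374aa_gt.IfD
import Pool.Agent.MP_6374aa_gt.InterA

/-! Interleaving two towers. -/

namespace Pool.Agent.MP_6374aa_gt

open Classical

variable {C : Type} [CommGroup C] {X X' : Type} [TopologicalSpace X] [TopologicalSpace X']
  {β : C →* Equiv.Perm X} {β' : C →* Equiv.Perm X'} {L : ℕ → Lev C}
  {c : ∀ n, (L (n + 1)).V → (L n).V} {Q : ∀ L' L : Lev C, (L'.V → L.V) → Prop}

theorem tr_Inter {K D O : ∀ n, (L n).V → Set X'} (t : IsTower β' L c K D O) (h : X ≃ₜ X')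
    (e : ∀ g x, h (β g x) = β' g (h x)) :
    IsTower β L c (fun n v => h ⁻¹' K n v) (fun n v => h ⁻¹' D n v) fun n v => h ⁻¹' O n v := by
  have key : ∀ g (S : Set X'), h ⁻¹' (β' g '' S) = β g '' (h ⁻¹' S) := fun g S => by
    ext x
    constructor
    · rintro ⟨y, hy, h1⟩
      obtain ⟨z, rfl⟩ := h.surjective y
      exact ⟨z, hy, h.injective ((e g z).trans h1)⟩
    · rintro ⟨z, hz, rfl⟩
      exact ⟨h z, hz, (e g z).symm⟩
  refine ⟨t.free, t.hom, t.eqv, fun n v hv => (t.isOpen n v hv).preimage h.continuous,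
    fun n x => t.cover n (h x), fun n v hv => Set.preimage_mono (t.KD n v hv),
    fun n v hv => Set.preimage_mono (t.DO n v hv), fun n v hv => Set.preimage_mono (t.nest n v hv),
    fun n v hv w hw ⟨x, hx⟩ => t.adq n v hv w hw ⟨h x, hx⟩, fun n v hv w hw a => ?_,
    fun U h1 h2 => ?_, fun n g v hv => by rw [t.eK n g v hv, key],
    fun n g v hv => by rw [t.eO n g v hv, key]⟩
  · obtain ⟨y, hy⟩ := t.meet n v hv w hw a
    obtain ⟨z, rfl⟩ := h.surjective y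
    exact ⟨z, hy⟩
  · obtain ⟨N, hN⟩ := t.mesh ((fun u => h.symm ⁻¹' u) '' U) (by
      rintro _ ⟨u, hu, rfl⟩
      exact (h1 u hu).preimage h.symm.continuous) fun y => by
        obtain ⟨u, hu, hy⟩ := h2 (h.symm y)
        exact ⟨_, ⟨u, hu, rfl⟩, hy⟩
    refine ⟨N, fun n hn v hv => ?_⟩
    obtain ⟨_, ⟨u, hu, rfl⟩, h3⟩ := hN n hn v hv
    exact ⟨u, hu, fun x hx => by simpa using h3 hx⟩

variable {K D O : ∀ n, (L n).V → Set X}

theorem cc_Inter (t : IsTower β L c K D O)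
    (hQ : ∀ (L'' L' L : Lev C) (f : L'.V → L.V) (g : L''.V → L'.V), Q L' L f → Q L'' L' g →
      Q L'' L (f ∘ g)) (q : ∀ n, Q (L (n + 1)) (L n) (c n)) (n m : ℕ) :
    ∃ f : (L (n + m + 1)).V → (L n).V,
      IsHom (L (n + m + 1)).G (L (n + m + 1)).A (L n).G (L n).A f ∧
      Eqv (L (n + m + 1)).A (L (n + m + 1)).α (L n).α f ∧ Q (L (n + m + 1)) (L n) f ∧
      ∀ w ∈ (L (n + m + 1)).A, D (n + m + 1) w ⊆ D n (f w) := by
  induction m with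
  | zero => exact ⟨c n, t.hom n, t.eqv n, q n, t.nest n⟩
  | succ m ih =>
    obtain ⟨f, h1, h2, h3, h4⟩ := ih
    have h5 := t.hom (n + m + 1)
    exact ⟨f ∘ c (n + m + 1), h1.comp h5,
      fun g a ha => (congrArg f (t.eqv (n + m + 1) g a ha)).trans (h2 g _ (h5.1 a ha)),
      hQ _ _ _ _ _ h3 (q (n + m + 1)),
      fun w hw => (t.nest (n + m + 1) w hw).trans (h4 _ (h5.1 w hw))⟩

/-- A composite of structure maps. -/
def Cmp_Inter (Q : ∀ L' L : Lev C, (L'.V → L.V) → Prop) (p' p : Pl_Inter C X)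
    (f : p'.L.V → p.L.V) : Prop :=
  IsHom p'.L.G p'.L.A p.L.G p.L.A f ∧ Eqv p'.L.A p'.L.α p.L.α f ∧ Q p'.L p.L f ∧
    ∀ w ∈ p'.L.A, p'.K w ⊆ p.O (f w)

/-- A class of levels with arbitrarily fine members. -/
def Cls_Inter (β : C →* Equiv.Perm X) (Q : ∀ L' L : Lev C, (L'.V → L.V) → Prop) (T : ℕ)
    (F : Pl_Inter C X → Prop) : Prop :=
  ∀ p0, F p0 → Ok_Inter β p0 ∧ ∀ p, Ok_Inter β p →
    ∃ p', F p' ∧ (∃ f, Cmp_Inter Q p' p0 f) ∧ ∃ φ, Sub_Inter T p' p φ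

theorem cls_Inter [CompactSpace X] [T2Space X] [Nonempty X] (t : IsTower β L c K D O)
    (hQ : ∀ (L'' L' L : Lev C) (f : L'.V → L.V) (g : L''.V → L'.V), Q L' L f → Q L'' L' g →
      Q L'' L (f ∘ g)) (q : ∀ n, Q (L (n + 1)) (L n) (c n)) (T : ℕ) :
    Cls_Inter β Q T fun p => ∃ n, p = ⟨L n, K n, O n⟩ := by
  rintro _ ⟨n, rfl⟩
  refine ⟨ok_Inter t n, fun p hp => ?_⟩
  obtain ⟨N, hN⟩ := sub_Inter t T hp
  obtain ⟨f, h1, h2, h3, h4⟩ := cc_Inter t hQ q n N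
  exact ⟨_, ⟨n + N + 1, rfl⟩, ⟨f, h1, h2, h3,
    fun w hw => ((t.KD _ w hw).trans (h4 w hw)).trans (t.DO n _ (h1.1 w hw))⟩, hN _ (by omega)⟩

/-- The states of the recursion. -/
structure St_Inter (T : ℕ) (F : Bool → Pl_Inter C X → Prop) where
  b : Bool
  p : Pl_Inter C X
  p' : Pl_Inter C X
  φ : p'.L.V → p.L.V
  h : F b p
  h' : F (!b) p'
  sub : Sub_Inter T p' p φ

theorem seq_Inter {T : ℕ} {F : Bool → Pl_Inter C X → Prop} (hF : ∀ b, Cls_Inter β Q T (F b))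
    (s0 : St_Inter T F) : ∃ (P : ℕ → Pl_Inter C X) (φ : ∀ i, (P (i + 1)).L.V → (P i).L.V)
      (f : ∀ i, (P (i + 2)).L.V → (P i).L.V), P 0 = s0.p ∧ P 1 = s0.p' ∧
      ∀ i, Ok_Inter β (P i) ∧ Sub_Inter T (P (i + 1)) (P i) (φ i) ∧
        Cmp_Inter Q (P (i + 2)) (P i) (f i) := by
  have key := fun s : St_Inter T F => (hF s.b s.p s.h).2 s.p' (hF _ s.p' s.h').1
  choose n h1 h2 h3 using key
  choose f hf using h2
  choose φ hφ using h3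
  let nx : St_Inter T F → St_Inter T F := fun s =>
    ⟨!s.b, s.p', n s, φ s, s.h', by rw [Bool.not_not]; exact h1 s, hφ s⟩
  let S : ℕ → St_Inter T F := fun i => Nat.rec s0 (fun _ s => nx s) i
  exact ⟨fun i => (S i).p, fun i => (S i).φ, fun i => f (S i), rfl, rfl,
    fun i => ⟨(hF _ _ (S i).h).1, (S i).sub, hf (S i)⟩⟩

theorem sys_Inter {T : ℕ} {P : ℕ → Pl_Inter C X} {φ : ∀ i, (P (i + 1)).L.V → (P i).L.V}
    {f : ∀ i, (P (i + 2)).L.V → (P i).L.V} (h : ∀ i, Ok_Inter β (P i) ∧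
      Sub_Inter (T + 1) (P (i + 1)) (P i) (φ i) ∧ Cmp_Inter Q (P (i + 2)) (P i) (f i)) :
    IsSys T (fun i => (P i).L) φ f := by
  have bl : ∀ i, ∀ a ∈ (P (i + 1)).L.A, ∀ b ∈ (P (i + 1)).L.A,
      Near (P (i + 1)).L.G (P (i + 1)).L.A (T + 1) a b → Adq (P i).L.G (φ i a) (φ i b) := by
    intro i a ha b hb hab
    obtain ⟨x, hx, -⟩ := (h (i + 1)).1.meet b hb b hb (Adq.refl _ b)
    obtain ⟨h1, h2⟩ := (h i).2.1.2 a ha
    obtain ⟨h3, h4⟩ := (h i).2.1.2 b hb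
    exact (h i).1.adq _ h1 _ h3 ⟨x, h2 b hab hx, h4 b (Near.refl hb _) hx⟩
  refine ⟨fun i => (h i).1.free, fun i => ⟨fun a ha => ((h i).2.1.2 a ha).1,
    fun a ha b hb hab => bl i a ha b hb ((Near.of_adq hb (Or.inr hab)).mono ha (by omega))⟩,
    fun i => (h i).2.2.1, fun i => (h i).2.1.1, fun i => (h i).2.2.2.1,
    fun i a ha b hb hab => bl i a ha b hb (hab.succ ha), fun i a ha b hb hab => ?_⟩
  obtain ⟨x, hx, -⟩ := (h (i + 2)).1.meet a ha a ha (Adq.refl _ a)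
  obtain ⟨h1, h2⟩ := (h (i + 1)).2.1.2 b hb
  obtain ⟨v, hv, h3⟩ := (h (i + 1)).1.cover x
  have h4 := (h (i + 1)).1.adq _ h1 v hv
    ⟨x, h2 a ((hab.symm ha).succ hb) hx, (h (i + 1)).1.KO v hv h3⟩
  obtain ⟨h5, h6⟩ := (h i).2.1.2 _ h1
  exact (h i).1.adq _ ((h i).2.2.1.1 a ha) _ h5 ⟨x, (h i).2.2.2.2.2 a ha hx,
    h6 v ((Near.of_adq hv h4).mono h1 (by omega)) h3⟩

theorem inter : InterStmt := by
  intro C _ _ X X' _ _ _ _ _ β β' L1 c1 K1 D1 O1 L2 c2 K2 D2 O2 h Q T t1 t2 e hQ q1 q2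
  have a1 := cls_Inter t1 hQ q1 (T + 1)
  have a2 := cls_Inter (tr_Inter t2 h e) hQ q2 (T + 1)
  obtain ⟨p', h1, ⟨e0, h2⟩, φ0, h3⟩ := (a2 _ ⟨0, rfl⟩).2 _ (a1 _ ⟨0, rfl⟩).1
  obtain ⟨P, φ, f, h4, h5, h6⟩ := seq_Inter (β := β) (Q := Q) (T := T + 1)
    (F := fun b p => Bool.rec (∃ n, p = ⟨L1 n, K1 n, O1 n⟩)
      (∃ n, p = ⟨L2 n, fun v => h ⁻¹' K2 n v, fun v => h ⁻¹' O2 n v⟩) b)
    (fun b => by cases b; exacts [a1, a2]) ⟨false, _, p', φ0, ⟨0, rfl⟩, h1, h3⟩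
  refine ⟨fun i => (P (i + 1)).L, ?_⟩
  have h7 : Lev.cons (L1 0) (fun i => (P (i + 1)).L) = fun i => (P i).L := by
    funext i
    cases i with
    | zero => exact (congrArg Pl_Inter.L h4).symm
    | succ i => rfl
  rw [h7]
  obtain rfl : P 1 = p' := h5
  exact ⟨φ, f, e0, sys_Inter h6, h2.2.2.1, h2.2.1, fun i => (h6 i).2.2.2.2.1⟩

end Pool.Agent.MP_6374aa_gt
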