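import Pool.Agent.MP_6374aa_gt.IfG
import Pool.Agent.MP_6374aa_gt.TreeFin
import Pool.Agent.MP_6374aa_gt.TreeOne

/-! An indecomposable group other than the infinite cyclic group fixes a vertex. -/

namespace Pool.Agent.MP_6374aa_gt

lemma side_Kur {T : Type} {X : SimpleGraph T} (hX : X.IsTree) {s : Set (Sym2 T)} {a b u v : T}
    (hab : X.Adj a b) (h : (X.deleteEdges s).Reachable u v) (hs : s(a, b) ∈ s)
    (h1 : X.dist u b < X.dist u a) : X.dist v b < X.dist v a := by
  obtain ⟨p⟩ := h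
  induction p with
  | nil => exact h1
  | @cons u w v huw p ih =>
    refine ih ?_
    rw [SimpleGraph.deleteEdges_adj] at huw
    by_contra h2
    obtain ⟨rfl, rfl⟩ := sep_adj_TreeOne hX huw.1 hab h1 h2
    exact huw.2 (Sym2.eq_swap ▸ hs)

lemma move_Kur (hA : KurAStmt) {H T : Type} [Group H] [MulAction H T] {X : SimpleGraph T}
    {κ : T → Bool} (hT : TreeAct H T X κ) (hI : Indec H) (hZ : ¬ Nonempty (H ≃* Zm)) {g : H}
    {x : T} (hx : x ≠ g • x) : ∃ y, X.Adj x y ∧ X.dist (g • x) y < X.dist (g • x) x ∧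
      (∀ h : H, RE X x y h x → h = 1) ∧ ∀ h : H, RE X x y h y := by
  obtain ⟨y, hy, hd⟩ := pred_TreeOne hT.tree hx
  refine ⟨y, hy, hd, ?_⟩
  rcases hA H T X κ x y hT hy hI with h | h | h
  · exact absurd h hZ
  · exact h
  · have := side_Kur hT.tree hy (h.2 g) ⟨1, by rw [one_smul, one_smul]⟩ hd
    rw [X.dist_self] at this
    omega

theorem kur (hA : KurAStmt) (hB : BsStmt) : KurStmt := by
  intro H _ hI
  refine (em (Nonempty (H ≃* Zm))).symm.imp_left fun hZ =>
    hasE_TreeFin hB H fun T _ X κ hT => ?_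
  obtain ⟨x0⟩ := hT.tree.connected.nonempty
  have : Nonempty T := ⟨x0⟩
  by_cases h0 : ∀ h : H, h = 1
  · exact ⟨x0, fun g => by rw [h0 g, one_smul]⟩
  push Not at h0
  obtain ⟨h, hh⟩ := h0
  let r : T → ℕ := fun x => X.dist x (h • x)
  have h1 : Function.argmin r = h • Function.argmin r := by
    by_contra h1
    obtain ⟨y, hy, hd, -, h2⟩ := move_Kur hA hT hI hZ h1
    have h3 := side_Kur hT.tree (hT.adj h _ _ hy) (h2 h) ⟨h, rfl⟩ (by
      rw [X.dist_self]
      exact hT.tree.connected.pos_dist_of_ne (hT.adj h _ _ hy).ne')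
    have h4 : X.dist (Function.argmin r) (h • Function.argmin r) ≤ X.dist y (h • y) :=
      Function.argmin_le r y
    rw [X.dist_comm (u := h • Function.argmin r), X.dist_comm (u := h • Function.argmin r)] at hd
    omega
  refine ⟨Function.argmin r, fun g => ?_⟩
  by_contra h2
  obtain ⟨y, -, -, h3, -⟩ := move_Kur hA hT hI hZ (Ne.symm h2)
  refine hh (h3 h ?_)
  unfold RE
  rw [← h1]

end Pool.Agent.MP_6374aa_gt
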