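import Pool.Agent.MP_6374aa_gt.IfG
import Pool.Agent.MP_6374aa_gt.TreeOne

/-! Collapsing a tree onto one orbit of edges: ping-pong. -/

namespace Pool.Agent.MP_6374aa_gt

open Monoid

section PingPong

/-- Reduced words in a free product, with the factor of the first letter. -/
inductive NF_KurA {K K' : Type} [Group K] [Group K'] : Bool → Coprod K K' → Prop
  | one (i : Bool) : NF_KurA i 1
  | l (k : K) (q : Coprod K K') : k ≠ 1 → NF_KurA false q → NF_KurA true (Coprod.inl k * q)
  | r (k : K') (q : Coprod K K') : k ≠ 1 → NF_KurA true q → NF_KurA false (Coprod.inr k * q)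

variable {K K' : Type} [Group K] [Group K']

theorem nf_KurA (q : Coprod K K') : ∃ i, NF_KurA i q := by
  have hl : ∀ (k : K) (q : Coprod K K'), NF_KurA false q → ∃ i, NF_KurA i (Coprod.inl k * q) := by
    intro k q h
    by_cases hk : k = 1
    · exact ⟨false, by rwa [hk, map_one, one_mul]⟩
    · exact ⟨true, .l k q hk h⟩
  have hr : ∀ (k : K') (q : Coprod K K'), NF_KurA true q → ∃ i, NF_KurA i (Coprod.inr k * q) := by
    intro k q h
    by_cases hk : k = 1
    · exact ⟨true, by rwa [hk, map_one, one_mul]⟩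
    · exact ⟨false, .r k q hk h⟩
  induction q using Coprod.induction_on' with
  | one => exact ⟨true, .one _⟩
  | inl_mul m x ih =>
    obtain ⟨i, h⟩ := ih
    cases h with
    | one => exact hl m 1 (.one _)
    | l k q hk h =>
      rw [← mul_assoc, ← map_mul]
      exact hl _ q h
    | r k q hk h => exact hl m _ (.r k q hk h)
  | inr_mul m x ih =>
    obtain ⟨i, h⟩ := ih
    cases h with
    | one => exact hr m 1 (.one _)
    | l k q hk h => exact hr m _ (.l k q hk h)
    | r k q hk h =>
      rw [← mul_assoc, ← map_mul]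
      exact hr _ q h

theorem pp_KurA {H T : Type} [Group H] [MulAction H T] (f : K →* H) (f' : K' →* H) (D : Set T)
    (a : T) (h0 : Function.Injective f) (h1 : ∀ k, f k • a ∉ D)
    (h2 : ∀ k, k ≠ 1 → ∀ x ∈ D, f k • x ∉ D) (h3 : ∀ k, k ≠ 1 → ∀ x, x ∉ D → f' k • x ∈ D) :
    Function.Injective (Coprod.lift f f') := by
  have ha : a ∉ D := by simpa using h1 1
  have key : ∀ i q, NF_KurA i q →
      (i = true → Coprod.lift f f' q • a ∉ D ∧ (Coprod.lift f f' q = 1 → q = 1)) ∧
        (i = false → q = 1 ∨ Coprod.lift f f' q • a ∈ D) := by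
    intro i q h
    induction h with
    | one i => exact ⟨fun _ => ⟨by simpa using ha, fun _ => rfl⟩, fun _ => Or.inl rfl⟩
    | l k q hk _ ih =>
      refine ⟨fun _ => ?_, fun e => absurd e (by decide)⟩
      rw [map_mul, Coprod.lift_apply_inl]
      rcases ih.2 rfl with e | e
      · rw [e, map_one, mul_one]
        exact ⟨h1 k, fun e' => absurd (h0 (e'.trans (map_one f).symm)) hk⟩
      · refine ⟨by rw [mul_smul]; exact h2 k hk _ e, fun e' => ?_⟩
        rw [← eq_inv_of_mul_eq_one_right e' |>.symm, ← map_inv] at e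
        exact absurd e (h1 _)
    | r k q hk _ ih =>
      refine ⟨fun e => absurd e (by decide), fun _ => Or.inr ?_⟩
      rw [map_mul, Coprod.lift_apply_inr, mul_smul]
      exact h3 k hk _ (ih.1 rfl).1
  rw [injective_iff_map_eq_one]
  intro q hq
  obtain ⟨i, h⟩ := nf_KurA q
  cases i with
  | true => exact ((key _ q h).1 rfl).2 hq
  | false =>
    refine ((key _ q h).2 rfl).resolve_right fun e => ha ?_
    rwa [hq, one_smul] at e

end PingPong

section Tree

variable {T : Type} {X : SimpleGraph T}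

theorem cross_KurA (hX : X.IsTree) {a b : T} (hab : X.Adj a b) {x c : T}
    (hx : X.dist x b < X.dist x a) (hc : ¬ X.dist c b < X.dist c a) :
    X.dist x a + X.dist a c ≤ X.dist x c := by
  obtain ⟨p, hp⟩ := hX.connected.exists_walk_length_eq_dist x c
  rw [← hp]
  clear hp
  induction p with
  | nil => exact absurd hx hc
  | @cons x z c hxz q ih =>
    rw [SimpleGraph.Walk.length_cons]
    have e1 := hX.dist_eq_dist_add_one_of_adj a hxz
    rw [X.dist_comm (u := a), X.dist_comm (u := a)] at e1
    by_cases hz : X.dist z b < X.dist z a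
    · have := ih hz hc
      omega
    · have e2 := SimpleGraph.dist_le q
      obtain ⟨rfl, rfl⟩ := sep_adj_TreeOne hX hxz hab hx hz
      rw [X.dist_self] at e1
      omega

/-- Two different oriented edges pointing away from each other have disjoint far sides. -/
theorem nest_KurA (hX : X.IsTree) {a b c d : T} (hab : X.Adj a b) (hcd : X.Adj c d)
    (h1 : ¬ X.dist c b < X.dist c a) (h2 : ¬ X.dist a d < X.dist a c) {x : T}
    (hx : X.dist x b < X.dist x a) (hx' : X.dist x d < X.dist x c) : a = c ∧ b = d := by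
  have e1 := cross_KurA hX hab hx h1
  have e2 := cross_KurA hX hcd hx' h2
  obtain rfl : a = c := hX.connected.dist_eq_zero_iff.1 (by omega)
  exact ⟨rfl, uniq_TreeOne hX hab hcd hx hx'⟩

variable {H : Type} [Group H] [MulAction H T] {κ : T → Bool}

/-- The graph with the orbit of an edge removed. -/
def Y_KurA (H : Type) [Group H] [MulAction H T] (X : SimpleGraph T) (a b : T) : SimpleGraph T :=
  X.deleteEdges {e | ∃ g : H, e = s(g • a, g • b)}

theorem Y_symm_KurA (a b : T) : Y_KurA H X a b = Y_KurA H X b a := by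
  unfold Y_KurA
  congr 1
  ext e
  exact exists_congr fun g => by rw [Sym2.eq_swap]

theorem R_smul_KurA (hT : TreeAct H T X κ) (a b : T) (g : H) {x y : T}
    (h : (Y_KurA H X a b).Reachable x y) : (Y_KurA H X a b).Reachable (g • x) (g • y) := by
  refine h.map (⟨fun x => g • x, fun {x y} hxy => ?_⟩ : Y_KurA H X a b →g Y_KurA H X a b)
  rw [Y_KurA, SimpleGraph.deleteEdges_adj] at hxy ⊢
  refine ⟨hT.adj g _ _ hxy.1, fun ⟨g', e⟩ => hxy.2 ⟨g⁻¹ * g', ?_⟩⟩
  have := congrArg (Sym2.map fun z => g⁻¹ • z) e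
  simpa [mul_smul] using this

theorem R_side_KurA (hT : TreeAct H T X κ) {a b : T} (hab : X.Adj a b) (g : H) {x y : T}
    (h : (Y_KurA H X a b).Reachable x y) (hx : X.dist x (g • b) < X.dist x (g • a)) :
    X.dist y (g • b) < X.dist y (g • a) := by
  obtain ⟨p⟩ := h
  induction p with
  | nil => exact hx
  | @cons x z y hxz q ih =>
    refine ih ?_
    rw [Y_KurA, SimpleGraph.deleteEdges_adj] at hxz
    by_contra hz
    obtain ⟨e1, e2⟩ := sep_adj_TreeOne hT.tree hxz.1 (hT.adj g a b hab) hx hz
    exact hxz.2 ⟨g, by rw [e1, e2, Sym2.eq_swap]⟩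

/-- The stabiliser of the component of `x`. -/
def St_KurA (hT : TreeAct H T X κ) (a b x : T) : Subgroup H where
  carrier := {h | (Y_KurA H X a b).Reachable (h • x) x}
  one_mem' := by
    show (Y_KurA H X a b).Reachable ((1 : H) • x) x
    rw [one_smul]
  mul_mem' := fun {g h} hg hh => by
    show (Y_KurA H X a b).Reachable ((g * h) • x) x
    rw [mul_smul]
    exact (R_smul_KurA hT a b g hh).trans hg
  inv_mem' := fun {g} hg => by
    have := R_smul_KurA hT a b g⁻¹ hg
    rw [inv_smul_smul] at this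
    exact this.symm

theorem gen_KurA (hT : TreeAct H T X κ) (a b : T) (L : Subgroup H) (h1 : St_KurA hT a b a ≤ L)
    (h2 : St_KurA hT a b b ≤ L) (h3 : ∀ t : H, (Y_KurA H X a b).Reachable (t • a) b → t ∈ L) :
    L = ⊤ := by
  have k1 : ∀ g ∈ L, ∀ h : H, (Y_KurA H X a b).Reachable (h • a) (g • a) ∨
      (Y_KurA H X a b).Reachable (h • a) (g • b) → h ∈ L := by
    intro g hg h hh
    refine (L.mul_mem_cancel_left (L.inv_mem hg)).1 ?_
    rcases hh with hh | hh <;> have := R_smul_KurA hT a b g⁻¹ hh <;>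
      rw [inv_smul_smul, ← mul_smul] at this
    · exact h1 this
    · exact h3 _ this
  have k2 : ∀ g ∈ L, ∀ h : H, (Y_KurA H X a b).Reachable (h • b) (g • a) ∨
      (Y_KurA H X a b).Reachable (h • b) (g • b) → h ∈ L := by
    intro g hg h hh
    refine L.inv_mem_iff.1 ((L.mul_mem_cancel_right hg).1 ?_)
    rcases hh with hh | hh <;> have := R_smul_KurA hT a b h⁻¹ hh.symm <;>
      rw [inv_smul_smul, ← mul_smul] at this
    · exact h3 _ this
    · exact h2 this
  have key : ∀ x y : T, X.Reachable x y → (∃ g ∈ L, (Y_KurA H X a b).Reachable x (g • a) ∨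
      (Y_KurA H X a b).Reachable x (g • b)) → ∃ g ∈ L, (Y_KurA H X a b).Reachable y (g • a) ∨
      (Y_KurA H X a b).Reachable y (g • b) := by
    rintro x y ⟨p⟩
    induction p with
    | nil => exact id
    | @cons x z y hxz q ih =>
      rintro ⟨g, hg, hx⟩
      refine ih ?_
      by_cases he : ∃ h : H, s(x, z) = s(h • a, h • b)
      · obtain ⟨h, e⟩ := he
        rcases Sym2.eq_iff.1 e with ⟨rfl, rfl⟩ | ⟨rfl, rfl⟩
        · exact ⟨h, k1 g hg h hx, Or.inr .rfl⟩
        · exact ⟨h, k2 g hg h hx, Or.inl .rfl⟩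
      · have : (Y_KurA H X a b).Reachable z x :=
          (SimpleGraph.Adj.reachable (SimpleGraph.deleteEdges_adj.2 ⟨hxz, he⟩)).symm
        exact ⟨g, hg, hx.imp this.trans this.trans⟩
  rw [eq_top_iff]
  intro h _
  obtain ⟨g, hg, hh⟩ := key a (h • a) (hT.tree.connected.preconnected _ _)
    ⟨1, L.one_mem, Or.inl (by rw [one_smul])⟩
  exact k1 g hg h hh

theorem own_KurA {a b : T} : ¬ X.dist a b < X.dist a a := by
  rw [X.dist_self]
  exact Nat.not_lt_zero _

/-- Oriented edges of the orbit starting in one component have disjoint far sides. -/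
theorem far_KurA (hT : TreeAct H T X κ) {a b c d c' d' : T} (hab : X.Adj a b) (g g' : H)
    (h : c = a ∧ d = b ∨ c = b ∧ d = a) (h' : c' = a ∧ d' = b ∨ c' = b ∧ d' = a)
    (hR : (Y_KurA H X a b).Reachable (g • c) (g' • c')) {x : T}
    (hx : X.dist x (g • d) < X.dist x (g • c)) (hx' : X.dist x (g' • d') < X.dist x (g' • c')) :
    g = g' ∧ c = c' := by
  have side : ∀ {c d : T}, (c = a ∧ d = b ∨ c = b ∧ d = a) → X.Adj c d ∧ ∀ (g : H) (y : T),
      (Y_KurA H X a b).Reachable y (g • c) → ¬ X.dist y (g • d) < X.dist y (g • c) := by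
    rintro c d (⟨rfl, rfl⟩ | ⟨rfl, rfl⟩)
    · exact ⟨hab, fun g y hy e => own_KurA (R_side_KurA hT hab g hy e)⟩
    · exact ⟨hab.symm, fun g y hy e =>
        own_KurA (R_side_KurA hT hab.symm g (Y_symm_KurA (H := H) (X := X) d c ▸ hy) e)⟩
  obtain ⟨e1, e2⟩ := nest_KurA hT.tree (hT.adj g _ _ (side h).1) (hT.adj g' _ _ (side h').1)
    ((side h).2 g _ hR.symm) ((side h').2 g' _ hR) hx hx'
  have hκ : κ c = κ c' := by rw [← hT.inv g c, e1, hT.inv]
  have hab' := hT.col a b hab
  have hc : c = c' ∧ d = d' := by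
    rcases h with ⟨rfl, rfl⟩ | ⟨rfl, rfl⟩ <;> rcases h' with ⟨rfl, rfl⟩ | ⟨rfl, rfl⟩
    · exact ⟨rfl, rfl⟩
    · exact absurd hκ hab'
    · exact absurd hκ.symm hab'
    · exact ⟨rfl, rfl⟩
  obtain ⟨rfl, rfl⟩ := hc
  refine ⟨(inv_mul_eq_one.1 (hT.free (g⁻¹ * g') c d (side h).1 ?_ ?_)), rfl⟩
  · rw [mul_smul, ← e1, inv_smul_smul]
  · rw [mul_smul, ← e2, inv_smul_smul]

end Tree

theorem kurA : KurAStmt := by
  intro H T _ _ X κ a b hT hab hI
  have hds := dist_smul_TreeOne hT.tree hT.adj
  have hne : a ≠ b := hab.ne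
  have mv : ∀ (k g : H) (x c d : T), X.dist x (g • d) < X.dist x (g • c) →
      X.dist (k • x) ((k * g) • d) < X.dist (k • x) ((k * g) • c) := by
    intro k g x c d h
    rwa [mul_smul, mul_smul, hds, hds]
  have cpl : ∀ (g : H) (x : T), ¬ X.dist x (g • b) < X.dist x (g • a) ↔
      X.dist x (g • a) < X.dist x (g • b) := by
    intro g x
    have := hT.tree.dist_ne_of_adj x (hT.adj g a b hab)
    omega
  have ab : (a = a ∧ b = b ∨ a = b ∧ b = a) := Or.inl ⟨rfl, rfl⟩
  have ba : (b = a ∧ a = b ∨ b = b ∧ a = a) := Or.inr ⟨rfl, rfl⟩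
  by_cases ht : ∃ t : H, (Y_KurA H X a b).Reachable (t • a) b
  · left
    obtain ⟨t, ht⟩ := ht
    have ht' : (Y_KurA H X a b).Reachable (t⁻¹ • b) ((1 : H) • a) := by
      have := R_smul_KurA hT a b t⁻¹ ht
      rw [inv_smul_smul] at this
      rw [one_smul]
      exact this.symm
    have up : ∀ (n : ℕ) (x : T), X.dist x (t⁻¹ • b) < X.dist x (t⁻¹ • a) →
        X.dist (t ^ (n + 1) • x) ((1 : H) • b) < X.dist (t ^ (n + 1) • x) ((1 : H) • a) := by
      intro n
      induction n with
      | zero => intro x hx; simpa using mv t _ x _ _ hx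
      | succ n ih =>
        intro x hx
        rw [pow_succ, mul_smul]
        refine ih _ ?_
        by_contra hc
        have h1 := mv t _ x _ _ hx
        rw [mul_inv_cancel] at h1
        exact hne (far_KurA hT hab 1 t⁻¹ ab ba ht'.symm h1 ((cpl _ _).1 hc)).2
    have dn : ∀ (n : ℕ) (x : T), X.dist x ((1 : H) • a) < X.dist x ((1 : H) • b) →
        X.dist (t⁻¹ ^ (n + 1) • x) (t⁻¹ • a) < X.dist (t⁻¹ ^ (n + 1) • x) (t⁻¹ • b) := by
      intro n
      induction n with
      | zero => intro x hx; simpa using mv t⁻¹ _ x _ _ hx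
      | succ n ih =>
        intro x hx
        rw [pow_succ, mul_smul]
        refine ih _ ((cpl _ _).1 fun hc => ?_)
        have h1 := mv t⁻¹ _ x _ _ hx
        rw [mul_one] at h1
        exact hne (far_KurA hT hab 1 t⁻¹ ab ba ht'.symm hc h1).2
    have hinj := pp_KurA (St_KurA hT a b a).subtype (zpowersHom H t)
      {x | X.dist x ((1 : H) • b) < X.dist x ((1 : H) • a) ∨
        X.dist x (t⁻¹ • a) < X.dist x (t⁻¹ • b)} a (St_KurA hT a b a).subtype_injective
      (by
        rintro ⟨k, hk⟩ (h | h)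
        · have := R_side_KurA hT hab 1 hk h
          rw [one_smul, one_smul] at this
          exact own_KurA this
        · have hk' : (Y_KurA H X a b).Reachable (k • a) (t⁻¹ • b) :=
            SimpleGraph.Reachable.trans hk (by simpa using ht'.symm)
          exact own_KurA (R_side_KurA hT hab.symm t⁻¹
            (Y_symm_KurA (H := H) (X := X) a b ▸ hk') h))
      (by
        rintro ⟨k, hk⟩ hk1 x hx hx'
        have hk1' : k ≠ 1 := fun e => hk1 (Subtype.ext e)
        have r1 : (Y_KurA H X a b).Reachable ((k * 1) • a) ((1 : H) • a) := by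
          rw [mul_one, one_smul]; exact hk
        have r2 : (Y_KurA H X a b).Reachable ((k * t⁻¹) • b) ((1 : H) • a) := by
          refine .trans ?_ r1
          rw [mul_smul, mul_smul]
          exact R_smul_KurA hT a b k ht'
        rcases hx with h | h <;> have h1 := mv k _ x _ _ h <;> rcases hx' with h' | h'
        · exact hk1' (by simpa using (far_KurA hT hab _ _ ab ab r1 h1 h').1)
        · exact hne (far_KurA hT hab _ _ ab ba (r1.trans ht'.symm) h1 h').2
        · exact hne (far_KurA hT hab _ _ ba ab r2 h1 h').2.symm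
        · exact hk1' (by simpa using (far_KurA hT hab _ _ ba ba (r2.trans ht'.symm) h1 h').1))
      (by
        intro k hk x hx
        rw [Set.mem_ofPred_eq, not_or] at hx
        obtain ⟨m, rfl⟩ := Multiplicative.ofAdd.surjective k
        show _ ∨ _
        rw [zpowersHom_apply, toAdd_ofAdd]
        rcases m with (_ | n) | n
        · exact absurd rfl hk
        · left
          rw [Int.ofNat_eq_natCast, zpow_natCast]
          refine up n x ?_
          by_contra hc
          exact hx.2 ((cpl _ _).1 hc)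
        · right
          rw [zpow_negSucc, ← inv_pow]
          exact dn n x ((cpl _ _).1 hx.1))
    have htop : (St_KurA hT a b a).subtype.range ⊔ (zpowersHom H t).range = ⊤ := by
      have m1 : ∀ k : H, (Y_KurA H X a b).Reachable (k • a) a →
          k ∈ (St_KurA hT a b a).subtype.range ⊔ (zpowersHom H t).range :=
        fun k hk => Subgroup.mem_sup_left ⟨⟨k, hk⟩, rfl⟩
      have m2 : t ∈ (St_KurA hT a b a).subtype.range ⊔ (zpowersHom H t).range :=
        Subgroup.mem_sup_right ⟨Multiplicative.ofAdd 1, by simp⟩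
      have m3 : ∀ k : H, (Y_KurA H X a b).Reachable (k • a) b →
          k ∈ (St_KurA hT a b a).subtype.range ⊔ (zpowersHom H t).range := by
        intro k hk
        refine (Subgroup.mul_mem_cancel_left _ (Subgroup.inv_mem _ m2)).1 (m1 _ ?_)
        have := R_smul_KurA hT a b t⁻¹ (hk.trans ht.symm)
        rwa [inv_smul_smul, ← mul_smul] at this
      refine gen_KurA hT a b _ m1 (fun k hk => ?_) m3
      refine (Subgroup.mul_mem_cancel_right _ m2).1 (m3 _ ?_)
      rw [mul_smul]
      exact (R_smul_KurA hT a b k ht).trans hk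
    have hsur : Function.Surjective
        (Coprod.lift (St_KurA hT a b a).subtype (zpowersHom H t)) := by
      rw [← MonoidHom.range_eq_top, Coprod.range_lift, htop]
    rcases hI _ _ ⟨(MulEquiv.ofBijective _ ⟨hinj, hsur⟩).symm⟩ with h | h
    · refine ⟨(MulEquiv.ofBijective (zpowersHom H t) ⟨fun x y e => ?_, ?_⟩).symm⟩
      · exact Coprod.inr_injective (hinj (by simpa using e))
      · rw [← MonoidHom.range_eq_top, ← htop, Subsingleton.elim (St_KurA hT a b a).subtype 1,
          MonoidHom.range_one, bot_sup_eq]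
    · exact absurd (h.elim (Multiplicative.ofAdd 0) (Multiplicative.ofAdd 1)) (by decide)
  · right
    have hinj := pp_KurA (St_KurA hT a b a).subtype (St_KurA hT a b b).subtype
      {x | X.dist x ((1 : H) • b) < X.dist x ((1 : H) • a)} a
      (St_KurA hT a b a).subtype_injective
      (by
        rintro ⟨k, hk⟩ h
        have := R_side_KurA hT hab 1 hk h
        rw [one_smul, one_smul] at this
        exact own_KurA this)
      (by
        rintro ⟨k, hk⟩ hk1 x hx hx'
        have r1 : (Y_KurA H X a b).Reachable ((k * 1) • a) ((1 : H) • a) := by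
          rw [mul_one, one_smul]; exact hk
        exact hk1 (Subtype.ext (by
          simpa using (far_KurA hT hab _ _ ab ab r1 (mv k _ x _ _ hx) hx').1)))
      (by
        rintro ⟨k, hk⟩ hk1 x hx
        by_contra hx'
        have r1 : (Y_KurA H X a b).Reachable ((k * 1) • b) ((1 : H) • b) := by
          rw [mul_one, one_smul]; exact hk
        exact hk1 (Subtype.ext (by
          simpa using (far_KurA hT hab _ _ ba ba r1 (mv k _ x _ _ ((cpl _ _).1 hx))
            ((cpl _ _).1 hx')).1)))
    have htop : St_KurA hT a b a ⊔ St_KurA hT a b b = ⊤ :=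
      gen_KurA hT a b _ le_sup_left le_sup_right fun t h => absurd ⟨t, h⟩ ht
    have hsur : Function.Surjective
        (Coprod.lift (St_KurA hT a b a).subtype (St_KurA hT a b b).subtype) := by
      rw [← MonoidHom.range_eq_top, Coprod.range_lift, Subgroup.range_subtype,
        Subgroup.range_subtype, htop]
    rcases hI _ _ ⟨(MulEquiv.ofBijective _ ⟨hinj, hsur⟩).symm⟩ with h | h
    · have e : St_KurA hT a b a = ⊥ := Subgroup.eq_bot_of_subsingleton _
      rw [e, bot_sup_eq] at htop
      exact Or.inl ⟨fun g hg => (Subgroup.eq_bot_iff_forall _).1 e g hg,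
        fun g => (Subgroup.eq_top_iff' _).1 htop g⟩
    · have e : St_KurA hT a b b = ⊥ := Subgroup.eq_bot_of_subsingleton _
      rw [e, sup_bot_eq] at htop
      exact Or.inr ⟨fun g hg => (Subgroup.eq_bot_iff_forall _).1 e g hg,
        fun g => (Subgroup.eq_top_iff' _).1 htop g⟩

end Pool.Agent.MP_6374aa_gt
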