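import Pool.Agent.MP_6374aa_gt.IfP
import Pool.Agent.MP_6374aa_gt.Lift
import Pool.Agent.MP_6374aa_gt.Vp

/-! Controlled vanishing with an idempotent from circle valued coordinates. -/

namespace Pool.Agent.MP_6374aa_gt

open MonoidAlgebra Matrix

noncomputable section

section Reg

variable {S I J K : Type} [CommRing S] {r r' : ℤ → Prop} {uI : I → ℤ} {uJ : J → ℤ} {uK : K → ℤ}

omit [CommRing S] in
theorem eqR_trans_LiftE {M N P : Matrix J I S} (h : EqR r uI uJ M N) (h' : EqR r uI uJ N P) :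
    EqR r uI uJ M P := fun j i hj hi => (h j i hj hi).trans (h' j i hj hi)

theorem eqR_mulR_LiftE [Fintype J] (hr : ∀ x y, r x → |x - y| ≤ 1 → r' y) {M : Matrix K J S}
    (hM : Band uJ uK M) {N N' : Matrix J I S} (h : EqR r' uI uJ N N') :
    EqR r uI uK (M * N) (M * N') := by
  intro k i hk hi
  rw [Matrix.mul_apply, Matrix.mul_apply]
  refine Finset.sum_congr rfl fun j _ => ?_
  by_cases h0 : M k j = 0
  · rw [h0, zero_mul, zero_mul]
  · rw [h j i (hr _ _ hk (hM k j h0)) (hr _ _ hi (by simp))]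

theorem eqR_mulL_LiftE [Fintype J] (hr : ∀ x y, r x → |x - y| ≤ 1 → r' y) {N : Matrix J I S}
    (hN : Band uI uJ N) {M M' : Matrix K J S} (h : EqR r' uJ uK M M') :
    EqR r uI uK (M * N) (M' * N) := by
  intro k i hk hi
  rw [Matrix.mul_apply, Matrix.mul_apply]
  refine Finset.sum_congr rfl fun j _ => ?_
  by_cases h0 : N j i = 0
  · rw [h0, mul_zero, mul_zero]
  · rw [h k j (hr _ _ hk (by simp)) (hr _ _ hi (by rw [abs_sub_comm]; exact hN j i h0))]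

end Reg

section Lf

variable {C : Type} [CommGroup C] {B : Type} {β : C →* Equiv.Perm B} {B0 : Set B}
  {ρ : B → B → Prop} {u : B → ℤ} {A A' I J K W : Type} [CommGroup A] [CommGroup A']

theorem mul_LiftE [Fintype J]
    (hu : ∀ g, ∀ a ∈ B0, ∀ b ∈ B0, ρ (β g a) b → |u a - u b| ≤ 1)
    {pI : I → B} {pJ : J → B} {pK : K → B} (hI : ∀ i, pI i ∈ B0) (hJ : ∀ j, pJ j ∈ B0)
    (hK : ∀ k, pK k ∈ B0) {M : Matrix K J (RC C)} {N : Matrix J I (RC C)} (hM : Ctl β ρ pJ pK M)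
    (hN : Ctl β ρ pI pJ N) {r r' : ℤ → Prop}
    (hr : ∀ x y, r x → |x - y| ≤ 1 → r' y) {E : C → B → B → A}
    (hE : Add_Lift β B0 ρ u r' E) :
    EqR r (fun i => u (pI i)) (fun k => u (pK k)) (lf_Lift E pJ pK M * lf_Lift E pI pJ N)
      (lf_Lift E pI pK (M * N)) := by
  intro k i hk hi
  have h0 : ∀ x, r x → r' x := fun x hx => hr x x hx (by simp)
  show _ = mapDomain (fun g => E g (pK k) (pI i)) ((M * N) k i)
  rw [Matrix.mul_apply, Matrix.mul_apply, md_sum_Lift]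
  refine Finset.sum_congr rfl fun j _ => md_mul_Lift fun g l hg hl => ?_
  exact hE.1 g l _ (hK k) _ (hJ j) _ (hI i) (h0 _ hk)
    (hr _ _ hk (hu g _ (hK k) _ (hJ j) (hM k j g hg))) (h0 _ hi) (hM k j g hg) (hN j i l hl)

theorem star_md_LiftE (x : RC A) : star x = mapDomain (fun g => g⁻¹) x := rfl

theorem conj_LiftE {pW : W → B} (hW : ∀ w, pW w ∈ B0) {e : Matrix W W (RC C)}
    (h1 : Ctl β ρ pW pW e) (h2 : Ctl β ρ pW pW eᴴ) {r' : ℤ → Prop} {E : C → B → B → A}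
    (hE : Add_Lift β B0 ρ u r' E) :
    EqR r' (fun w => u (pW w)) (fun w => u (pW w)) (lf_Lift E pW pW eᴴ)
      ((lf_Lift E pW pW e : Matrix W W (RC A))ᴴ) := by
  intro j i hj hi
  show mapDomain (fun g => E g (pW j) (pW i)) (star (e i j)) =
    star (mapDomain (fun g => E g (pW i) (pW j)) (e i j) : RC A)
  rw [star_md_LiftE, star_md_LiftE, md_comp_Lift, md_comp_Lift]
  refine md_congr_Lift fun g hg => ?_
  have h3 : (eᴴ j i).coeff g⁻¹ ≠ 0 := by
    rw [Matrix.conjTranspose_apply, coeff_star, inv_inv]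
    exact hg
  have h4 := hE.1 g g⁻¹ _ (hW i) _ (hW j) _ (hW i) hi hj hi (h1 i j g hg) (h2 j i g⁻¹ h3)
  rw [mul_inv_cancel, hE.2 _ (hW i) hi] at h4
  exact eq_inv_of_mul_eq_one_right h4

theorem oe_LiftE [DecidableEq I] {pI : I → B} {pW : W → B} (hI : ∀ i, pI i ∈ B0)
    {e : Matrix W W (RC C)} {r' : ℤ → Prop} {E : C → B → B → A} (hE : Add_Lift β B0 ρ u r' E)
    {d : Matrix W W (RC A)}
    (hd : EqR r' (fun w => u (pW w)) (fun w => u (pW w)) (lf_Lift E pW pW e) d) :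
    EqR r' (fun i => u (Sum.elim pI pW i)) (fun i => u (Sum.elim pI pW i))
      (lf_Lift E (Sum.elim pI pW) (Sum.elim pI pW) (oe I e)) (oe I d) := by
  rintro (j | j) (i | i) hj hi
  · show mapDomain (fun g => E g (pI j) (pI i)) ((1 : Matrix I I (RC C)) j i) =
      (1 : Matrix I I (RC A)) j i
    by_cases h : j = i
    · subst h
      rw [Matrix.one_apply_eq, Matrix.one_apply_eq, one_def, mapDomain_single,
        hE.2 _ (hI j) hj, one_def]
    · rw [Matrix.one_apply_ne h, Matrix.one_apply_ne h, mapDomain_zero]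
  · exact mapDomain_zero _
  · exact mapDomain_zero _
  · exact hd j i hj hi

theorem ctl_oe_LiftE [DecidableEq I] (hrefl : ∀ a ∈ B0, ρ a a) {pI : I → B} {pW : W → B}
    (hI : ∀ i, pI i ∈ B0) {e : Matrix W W (RC C)} (h : Ctl β ρ pW pW e) :
    Ctl β ρ (Sum.elim pI pW) (Sum.elim pI pW) (oe I e) := by
  rintro (j | j) (i | i) g hg
  · change ((1 : Matrix I I (RC C)) j i).coeff g ≠ 0 at hg
    by_cases hji : j = i
    · subst hji
      rw [Matrix.one_apply_eq, one_def] at hg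
      have hg1 : g = 1 := by
        by_contra h1
        exact hg (by simp [Ne.symm h1])
      subst hg1
      rw [map_one]
      exact hrefl _ (hI j)
    · rw [Matrix.one_apply_ne hji] at hg
      exact absurd rfl hg
  · exact absurd rfl hg
  · exact absurd rfl hg
  · exact h j i g hg

theorem elim_mem_LiftE {pI : I → B} {pW : W → B} (hI : ∀ i, pI i ∈ B0) (hW : ∀ w, pW w ∈ B0) :
    ∀ x, Sum.elim pI pW x ∈ B0 := by
  rintro (x | x)
  · exact hI x
  · exact hW x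

theorem elim_u_LiftE (u : B → ℤ) (pI : I → B) (pW : W → B) :
    Sum.elim (fun i => u (pI i)) (fun w => u (pW w)) = fun x => u (Sum.elim pI pW x) := by
  funext x
  cases x <;> rfl

theorem tri_LiftE [Fintype I] [DecidableEq I] [Fintype J] [DecidableEq J] [Fintype W]
    (hu : ∀ g, ∀ a ∈ B0, ∀ b ∈ B0, ρ (β g a) b → |u a - u b| ≤ 1) (hrefl : ∀ a ∈ B0, ρ a a)
    {pI : I → B} {pJ : J → B} {pW : W → B} (hI : ∀ i, pI i ∈ B0) (hJ : ∀ j, pJ j ∈ B0)
    (hW : ∀ w, pW w ∈ B0) {Ψ : Matrix (J ⊕ W) (I ⊕ W) (RC C)}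
    {Ψ' : Matrix (I ⊕ W) (J ⊕ W) (RC C)} {e : Matrix W W (RC C)} (hee : e * e = e)
    (c1 : Ctl β ρ pW pW e) (c2 : Ctl β ρ pW pW eᴴ)
    (hΨ : Ctl β ρ (Sum.elim pI pW) (Sum.elim pJ pW) Ψ)
    (hΨ' : Ctl β ρ (Sum.elim pJ pW) (Sum.elim pI pW) Ψ') (e1 : Ψ' * Ψ = oe I eᴴ)
    (e2 : Ψ * Ψ' = oe J e) (e3 : Ψ * oe I eᴴ = Ψ) (e4 : Ψ' * oe J e = Ψ') {r r' : ℤ → Prop}
    (hr : ∀ x y, r x → |x - y| ≤ 1 → r' y) {E : C → B → B → A} (hE : Add_Lift β B0 ρ u r' E) :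
    Tri (S := RC A) r (fun i => u (pI i)) (fun j => u (pJ j)) (fun w => u (pW w))
      (lf_Lift E (Sum.elim pI pW) (Sum.elim pJ pW) Ψ)
      (lf_Lift E (Sum.elim pJ pW) (Sum.elim pI pW) Ψ') (lf_Lift E pW pW e) := by
  have h0 : ∀ x, r x → r' x := fun x hx => hr x x hx (by simp)
  have mI := elim_mem_LiftE hI hW
  have mJ := elim_mem_LiftE hJ hW
  have e5 : oe J e * Ψ = Ψ := by rw [← e2, Matrix.mul_assoc, e1, e3]
  have e6 : oe I eᴴ * Ψ' = Ψ' := by rw [← e1, Matrix.mul_assoc, e2, e4]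
  have oI := oe_LiftE (pW := pW) hI hE (conj_LiftE hW c1 c2 hE)
  have oJ := oe_LiftE (pW := pW) (e := e) hJ hE (fun _ _ _ _ => rfl)
  have cI := ctl_oe_LiftE hrefl hI c2
  have cJ := ctl_oe_LiftE hrefl hJ c1
  have b1 := band_Lift hu mI mJ hΨ E
  have b2 := band_Lift hu mJ mI hΨ' E
  refine ⟨?_, ?_, band_Lift hu hW hW c1 E, ?_, ?_, ?_, ?_, ?_, ?_, ?_⟩
  · rw [elim_u_LiftE, elim_u_LiftE]
    exact b1
  · rw [elim_u_LiftE, elim_u_LiftE]
    exact b2
  · have := mul_LiftE hu hW hW hW c1 c1 hr hE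
    rwa [hee] at this
  · rw [elim_u_LiftE]
    have := mul_LiftE hu mI mJ mI hΨ' hΨ hr hE
    rw [e1] at this
    exact eqR_trans_LiftE this fun j i hj hi => oI j i (h0 _ hj) (h0 _ hi)
  · rw [elim_u_LiftE]
    have := mul_LiftE hu mJ mI mJ hΨ hΨ' hr hE
    rw [e2] at this
    exact eqR_trans_LiftE this fun j i hj hi => oJ j i (h0 _ hj) (h0 _ hi)
  · rw [elim_u_LiftE, elim_u_LiftE]
    have := mul_LiftE hu mI mI mJ hΨ cI hr hE
    rw [e3] at this
    exact eqR_trans_LiftE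
      (eqR_mulR_LiftE hr b1 fun j i hj hi => (oI j i hj hi).symm) this
  · rw [elim_u_LiftE, elim_u_LiftE]
    have := mul_LiftE hu mI mJ mJ cJ hΨ hr hE
    rw [e5] at this
    exact eqR_trans_LiftE
      (eqR_mulL_LiftE hr b1 fun j i hj hi => (oJ j i hj hi).symm) this
  · rw [elim_u_LiftE, elim_u_LiftE]
    have := mul_LiftE hu mJ mJ mI hΨ' cJ hr hE
    rw [e4] at this
    exact eqR_trans_LiftE
      (eqR_mulR_LiftE hr b2 fun j i hj hi => (oJ j i hj hi).symm) this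
  · rw [elim_u_LiftE, elim_u_LiftE]
    have := mul_LiftE hu mJ mI mI cI hΨ' hr hE
    rw [e6] at this
    exact eqR_trans_LiftE
      (eqR_mulL_LiftE hr b2 fun j i hj hi => (oI j i hj hi).symm) this

theorem agr_LiftE [Fintype I] [DecidableEq I] [Fintype J] [DecidableEq J] [Fintype W]
    {pI : I → B} {pJ : J → B} {pW : W → B} (hI : ∀ i, pI i ∈ B0) (hJ : ∀ j, pJ j ∈ B0)
    (hW : ∀ w, pW w ∈ B0) {Ψ : Matrix (J ⊕ W) (I ⊕ W) (RC C)}
    {Ψ' : Matrix (I ⊕ W) (J ⊕ W) (RC C)} {e : Matrix W W (RC C)} (c1 : Ctl β ρ pW pW e)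
    (hΨ : Ctl β ρ (Sum.elim pI pW) (Sum.elim pJ pW) Ψ)
    (hΨ' : Ctl β ρ (Sum.elim pJ pW) (Sum.elim pI pW) Ψ') {r : ℤ → Prop} (φ : A →* A')
    {E : C → B → B → A} {E' : C → B → B → A'}
    (hφ : ∀ g, ∀ a ∈ B0, ∀ b ∈ B0, r (u a) → r (u b) → ρ (β g a) b → φ (E g a b) = E' g a b) :
    Agr (S := RC A) (S' := RC A') (mapDomainRingHom ℚ φ) r (fun i => u (pI i))
      (fun j => u (pJ j)) (fun w => u (pW w))
      (lf_Lift E (Sum.elim pI pW) (Sum.elim pJ pW) Ψ)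
      (lf_Lift E (Sum.elim pJ pW) (Sum.elim pI pW) Ψ') (lf_Lift E pW pW e)
      (lf_Lift E' (Sum.elim pI pW) (Sum.elim pJ pW) Ψ)
      (lf_Lift E' (Sum.elim pJ pW) (Sum.elim pI pW) Ψ') (lf_Lift E' pW pW e) := by
  have mI := elim_mem_LiftE hI hW
  have mJ := elim_mem_LiftE hJ hW
  refine ⟨?_, ?_, map_Lift hW hW c1 φ hφ⟩
  · rw [elim_u_LiftE, elim_u_LiftE]
    exact map_Lift mI mJ hΨ φ hφ
  · rw [elim_u_LiftE, elim_u_LiftE]
    exact map_Lift mJ mI hΨ' φ hφ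

end Lf

theorem liftE (hV : VanAlgStmt) (hK : StdIdemStmt) (hF : StabFreeStmt) (hF2 : StabFree2Stmt)
    (hU : UnitStmt) (hI : InUStmt) : LiftEStmt := by
  intro C _ _ B β B0 ρ t u lam l ht hB hρ hrefl hc W _ _ pW e hpW hee c1 c2 I J _ _ _ _ pI pJ
    hpI hpJ Ψ Ψ' hΨ hΨ' q1 q2 q3 q4 ε
  choose s hs using fun g => Subgroup.mem_zpowers_iff.1 (ht g)
  have hu : ∀ g, ∀ a ∈ B0, ∀ b ∈ B0, ρ (β g a) b → |u a - u b| ≤ 1 := fun g a ha b hb h => by
    rw [← hc.uinv g a ha]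
    exact hc.ulip _ (hB g a ha) b hb h
  set ex : Bool → C → B → B → ℤ :=
    fun σ g a b => l σ (β g a) b + s (lam σ b) - s (lam σ a) with hex
  have h1 : ∀ σ g, ∀ a ∈ B0, ∀ b ∈ B0, Reg σ (u a) → Reg σ (u b) → ρ (β g a) b →
      t ^ ex σ g a b = g := by
    intro σ g a ha b hb ra rb h
    have h2 := hc.laml σ _ (hB g a ha) b hb (by rwa [hc.uinv g a ha]) rb h
    rw [hc.leqv σ g a ha ra] at h2
    simp only [hex]
    rw [_root_.zpow_sub, _root_.zpow_add, hs, hs, mul_comm (t ^ _), ← h2, mul_inv_cancel_right]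
  have h2 : ∀ σ g k, ∀ a ∈ B0, ∀ b ∈ B0, ∀ c ∈ B0, Reg σ (u a) → Reg σ (u b) → Reg σ (u c) →
      ρ (β g a) b → ρ (β k b) c → ex σ g a b + ex σ k b c = ex σ (g * k) a c := by
    intro σ g k a ha b hb c hc' ra rb rc hab hbc
    have e1 : β (g * k) a = β k (β g a) := by rw [mul_comm, map_mul]; rfl
    have ha' := hB g a ha
    have ra' : Reg σ (u (β g a)) := by rwa [hc.uinv g a ha]
    have e2 := hc.linv σ k _ ha' b hb ra' rb hab
    have e3 := hc.coc σ _ (hB k _ ha') _ (hB k b hb) c hc' (by rwa [hc.uinv k _ ha'])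
      (by rwa [hc.uinv k b hb]) rc (hρ k _ ha' b hb hab) hbc
    simp only [hex]
    rw [e1, e3, e2]
    ring
  have h3 : ∀ σ, ∀ a ∈ B0, Reg σ (u a) → ex σ 1 a a = 0 := by
    intro σ a ha ra
    simp only [hex]
    rw [map_one, Equiv.Perm.one_apply, hc.self σ a ha ra]
    ring
  have hA : ∀ σ, Add_Lift β B0 ρ u (Reg σ) fun g a b => Multiplicative.ofAdd (ex σ g a b) :=
    fun σ => ⟨fun g k a ha b hb c hc' ra rb rc hab hbc => by
      rw [← ofAdd_add, h2 σ g k a ha b hb c hc' ra rb rc hab hbc], fun a ha ra => by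
      beta_reduce
      rw [h3 σ a ha ra, ofAdd_zero]⟩
  have hT : ∀ x : ℤ, |x| ≤ 12 → Reg true x := fun x hx => (abs_le.1 hx).1
  have hT' : ∀ x : ℤ, |x| ≤ 12 → Reg false x := fun x hx => (abs_le.1 hx).2
  have hd : ∀ g, ∀ a ∈ B0, ∀ b ∈ B0, |u a| ≤ 12 → |u b| ≤ 12 → ρ (β g a) b →
      (orderOf t : ℤ) ∣ ex false g a b - ex true g a b := by
    intro g a ha b hb ra rb h
    rw [orderOf_dvd_iff_zpow_eq_one, _root_.zpow_sub, h1 false g a ha b hb (hT' _ ra) (hT' _ rb) h,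
      h1 true g a ha b hb (hT _ ra) (hT _ rb) h, mul_inv_cancel]
  have hA0 : Add_Lift β B0 ρ u (fun x => |x| ≤ 12) fun g a b => Multiplicative.ofAdd
      (ex true g a b, (ex false g a b - ex true g a b) / (orderOf t : ℤ)) :=
    ⟨fun g k a ha b hb c hc' ra rb rc hab hbc => by
      beta_reduce
      rw [← ofAdd_add, Prod.mk_add_mk, ← Int.add_ediv_of_dvd_left (hd g a ha b hb ra rb hab),
        ← h2 true g k a ha b hb c hc' (hT _ ra) (hT _ rb) (hT _ rc) hab hbc,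
        ← h2 false g k a ha b hb c hc' (hT' _ ra) (hT' _ rb) (hT' _ rc) hab hbc]
      congr 3
      ring, fun a ha ra => by
      beta_reduce
      rw [h3 true a ha (hT _ ra), h3 false a ha (hT' _ ra)]
      simp⟩
  have hA1 : Add_Lift β B0 ρ u (fun _ => True) fun (g : C) (_ _ : B) => g :=
    ⟨fun _ _ _ _ _ _ _ _ _ _ _ _ _ => rfl, fun _ _ _ => rfl⟩
  set φp : Multiplicative (ℤ × ℤ) →* Multiplicative ℤ :=
    AddMonoidHom.toMultiplicative (AddMonoidHom.fst ℤ ℤ) with hφp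
  set φm : Multiplicative (ℤ × ℤ) →* Multiplicative ℤ :=
    AddMonoidHom.toMultiplicative
      (AddMonoidHom.fst ℤ ℤ + (orderOf t : ℤ) • AddMonoidHom.snd ℤ ℤ) with hφm
  have ep : ∀ x z : ℤ, φp (Multiplicative.ofAdd (x, z)) = Multiplicative.ofAdd x :=
    fun x z => rfl
  have em : ∀ x z : ℤ, φm (Multiplicative.ofAdd (x, z)) =
      Multiplicative.ofAdd (x + orderOf t * z) := fun x z => rfl
  have et : ∀ x : ℤ, zpowersHom C t (Multiplicative.ofAdd x) = t ^ x := fun x => rfl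
  have hcomm : (zpowersHom C t).comp φp = (zpowersHom C t).comp φm := by
    refine MonoidHom.ext fun x => ?_
    obtain ⟨⟨x, z⟩, rfl⟩ := Multiplicative.ofAdd.surjective x
    rw [MonoidHom.comp_apply, MonoidHom.comp_apply, ep, em, et, et, _root_.zpow_add, _root_.zpow_mul,
      _root_.zpow_natCast, pow_orderOf_eq_one, _root_.one_zpow, mul_one]
  have hr : ∀ x y : ℤ, |x| ≤ 10 → |x - y| ≤ 1 → |y| ≤ 12 := fun x y hx h => by
    rw [abs_le] at *
    omega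
  have T := tri_LiftE hu hrefl hpI hpJ hpW hee c1 c2 hΨ hΨ' q1 q2 q3 q4 (r := fun _ => True)
    (fun _ _ _ _ => trivial) hA1
  have Tp := tri_LiftE hu hrefl hpI hpJ hpW hee c1 c2 hΨ hΨ' q1 q2 q3 q4 (r := fun x => -10 ≤ x)
    (r' := Reg true) (fun x y hx h => by
      have := abs_le.1 h
      show -12 ≤ y
      omega) (hA true)
  have Tm := tri_LiftE hu hrefl hpI hpJ hpW hee c1 c2 hΨ hΨ' q1 q2 q3 q4 (r := fun x => x ≤ 10)
    (r' := Reg false) (fun x y hx h => by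
      have := abs_le.1 h
      show y ≤ 12
      omega) (hA false)
  have T0 := tri_LiftE hu hrefl hpI hpJ hpW hee c1 c2 hΨ hΨ' q1 q2 q3 q4 hr hA0
  have Ap := agr_LiftE (u := u) hpI hpJ hpW c1 hΨ hΨ' (r := fun x => -10 ≤ x) (zpowersHom C t)
    (E := fun g a b => Multiplicative.ofAdd (ex true g a b)) (E' := fun g _ _ => g)
    (fun g a ha b hb ra rb h => h1 true g a ha b hb (by show -12 ≤ _; omega)
      (by show -12 ≤ _; omega) h)
  have Am := agr_LiftE (u := u) hpI hpJ hpW c1 hΨ hΨ' (r := fun x => x ≤ 10) (zpowersHom C t)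
    (E := fun g a b => Multiplicative.ofAdd (ex false g a b)) (E' := fun g _ _ => g)
    (fun g a ha b hb ra rb h => h1 false g a ha b hb (by show _ ≤ 12; omega)
      (by show _ ≤ 12; omega) h)
  rw [lf_id_Lift, lf_id_Lift, lf_id_Lift] at T Ap Am
  have Bp := agr_LiftE (u := u) hpI hpJ hpW c1 hΨ hΨ' (r := fun x => |x| ≤ 10) φp
    (E := fun g a b => Multiplicative.ofAdd
      (ex true g a b, (ex false g a b - ex true g a b) / (orderOf t : ℤ)))
    (E' := fun g a b => Multiplicative.ofAdd (ex true g a b)) (fun g a _ b _ _ _ _ => ep _ _)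
  have Bm := agr_LiftE (u := u) hpI hpJ hpW c1 hΨ hΨ' (r := fun x => |x| ≤ 10) φm
    (E := fun g a b => Multiplicative.ofAdd
      (ex true g a b, (ex false g a b - ex true g a b) / (orderOf t : ℤ)))
    (E' := fun g a b => Multiplicative.ofAdd (ex false g a b))
    (fun g a ha b hb ra rb h => by
      rw [em, Int.mul_ediv_cancel' (hd g a ha b hb (by omega) (by omega) h)]
      congr 1
      ring)
  obtain ⟨up, um, h⟩ := hV (RC (Multiplicative (ℤ × ℤ))) (RC Zm) (RC Zm) (RC C) I J W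
    _ _ _ _ _ _ _ Ψ Ψ' e _ _ _ _ _ _ _ _ _
    ⟨fun x => by
      rw [← RingHom.comp_apply, ← mapDomainRingHom_comp, hcomm, mapDomainRingHom_comp,
        RingHom.comp_apply], mapDomain_star _, mapDomain_star _, mapDomain_star _,
      mapDomain_star _⟩
    (hK _ hF) (hK _ hF2.2) hF2.1 hF2.1 ⟨T, Tp, Tm, T0, Ap, Am, Bp, Bm⟩ ε
  have hin : ∀ v : (MonoidAlgebra ℚ (Multiplicative ℤ))ˣ,
      InU (mapDomainRingHom ℚ (zpowersHom C t) v) := fun v => by
    obtain ⟨r, n, hr, hv⟩ := hU v v.isUnit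
    exact ⟨r, zpowersHom C t n, hr, by rw [hv]; exact mapDomain_single⟩
  obtain ⟨g, s0, hs0, hg⟩ := ((hI C).2.1 _ _ (hin up) (hin um)).inP
  refine ⟨g, s0, hs0, fun χ => ?_⟩
  obtain ⟨r1, hr1, k1⟩ := h (evc χ.1) (evc_star χ.1)
  obtain ⟨r2, hr2, k2⟩ := hg χ
  refine ⟨r1 * r2, mul_pos hr1 hr2, ?_⟩
  rw [evH_apply] at k2 ⊢
  refine k1.trans ?_
  rw [k2, Complex.ofReal_mul]
  ring

theorem near_refl_LiftE {V : Type} (G : SimpleGraph V) (A : Set V) (n : ℕ) :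
    ∀ a ∈ A, Near G A n a a := by
  induction n with
  | zero => exact fun _ _ => rfl
  | succ n ih => exact fun a ha => ⟨a, ha, Or.inl rfl, ih a ha⟩

theorem vpP (hC : CoordStmt) (hL : LiftEStmt) : VpPStmt := by
  intro C _ _ _ V0 V1 G0 A0 α0 G1 A1 α1 φ R T h0 h3 h1 hφ he hb hT
  obtain ⟨t, ht⟩ := IsCyclic.exists_generator (α := C)
  obtain ⟨u, lam, l, hc⟩ := hC C V0 V1 G0 A0 α0 G1 A1 α1 φ R T t ht h0 h3 h1 hφ he hb hT
  exact hL C V1 α1 A1 _ t u lam l ht h1.mem (fun g a ha b _ => near_act_Vp h1 g R a ha b)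
    (near_refl_LiftE G1 A1 R) hc

theorem vanOne : VanOneStmt := by
  intro C B W _ _ _ _ β B0 ρ pW hW hV I J _ _ _ _ pI pJ hI hJ Ψ Ψ' hΨ hΨ' q1 q2 _ _ ε
  rw [Matrix.conjTranspose_one, Matrix.fromBlocks_one] at q1
  rw [Matrix.fromBlocks_one] at q2
  rw [sub_self, zero_mul, Matrix.fromBlocks_zero, add_zero]
  exact (hV _ _ _ _ (elim_mem_LiftE hI hW) (elim_mem_LiftE hJ hW) Ψ Ψ' q2 q1 hΨ hΨ'
    (ε.sumCongr (Equiv.refl W))).inP

end

end Pool.Agent.MP_6374aa_gt
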