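import Pool.Agent.MP_6374aa_gt.IfM
import Pool.Agent.MP_6374aa_gt.RA7

/-! The assembly of the final statement for arbitrary prime summands. -/

namespace Pool.Agent.MP_6374aa_gt

open Classical

attribute [local instance] rayTop bdryTop

theorem typed_TypS2 {V U ι : Type} {Γ : SimpleGraph V} {A : Set V} {G : SimpleGraph U}
    {B : Set U} {Q : GP Γ A} {P : GP G B} {b : Q.X ≃ P.X} (hs : Nonempty P.S ↔ Nonempty Q.S)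
    (hp : Pass Q P b) {Λ : ι → Type} [∀ i, Group (Λ i)] {l : ι → Prop} {χ : ∀ i, Λ i → ℝ}
    (h : Typed2 Q Λ l χ) : Typed2 P Λ l χ := by
  refine ⟨fun y => ?_, fun hy => h.2 (hs.1 hy)⟩
  obtain ⟨x, rfl⟩ := b.surjective y
  obtain ⟨i, hi⟩ := h.1 x
  exact ⟨i, hp x _ _ _ hi⟩

theorem occ_TypS2 {V U : Type} {Γ : SimpleGraph V} {A : Set V} {G : SimpleGraph U}
    {B : Set U} {Q : GP Γ A} {P : GP G B} {b : Q.X → P.X} (hs : Nonempty P.S ↔ Nonempty Q.S)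
    (hp : Pass Q P b) {L : Type} [Group L] {l : Prop} {χ : L → ℝ}
    (h : Occ Q L l χ) : Occ P L l χ := by
  intro hL
  rcases h hL with ⟨x, hx⟩ | ⟨h1, h2⟩
  · exact Or.inl ⟨b x, hp x _ _ _ hx⟩
  · exact Or.inr ⟨h1, hs.2 h2⟩

theorem sideS2 (hP : PieceS2Stmt) (hS : SumS2Stmt) (hT : TypS2Stmt) (hM : ClosedMfStmt)
    (hB : MfBasicStmt) : SideS2Stmt := by
  intro N
  choose χ Q h1 h2 using fun i => hP N.U N.K (N.P i)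
  obtain ⟨-, R, hR1, hR2⟩ := hS N.U N.ι N.K (fun i => (N.P i).A) (fun i => (N.P i).Λ)
    (fun i => IsLens (N.P i)) χ (fun i => ⟨(hM _ _ _ (N.P i).closed).1, Q i, h2 i⟩) N.A Set.univ
    N.sum
  obtain ⟨hm, a, -, b, -, hab⟩ := hM _ _ _ N.closed
  obtain ⟨P0, e, hs, he⟩ := hT N.V N.U N.Γ Set.univ N.K N.A N.homeo R (hB _ _ _ hm).1
  exact ⟨χ, P0, h1, hm, ⟨a, b, hab⟩, typed_TypS2 hs he hR1,
    fun i => occ_TypS2 hs he (hR2 i (Set.mem_univ i))⟩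

theorem iso_TypS2 (hQ : ClQSStmt) (hT : QSTypeStmt) (hM : MfIsoStmt) (hB : MfBasicStmt)
    {V U : Type} {Γ : SimpleGraph V} {A : Set V} {G : SimpleGraph U} {B : Set U} {f : V → U}
    (hf : IsIso Γ A G B f) (hm : Mf Γ A) (Q : GP Γ A) :
    Mf G B ∧ ∃ (P : GP G B) (b : Q.X ≃ P.X), (Nonempty P.S ↔ Nonempty Q.S) ∧ Pass Q P b := by
  have hm' : Mf G B := (hM _ _ _ _ _ _ f hf).2 hm
  have : Nonempty V := ⟨Q.y⟩
  obtain ⟨g, hg, -, -⟩ := hf.exists_inv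
  obtain ⟨y, hy⟩ := hm'.2.1.1
  obtain ⟨P, b, -, -, hs, hp⟩ :=
    hT _ _ _ _ _ _ g Q (hQ _ _ _ _ _ _ g hg.cl (hB _ _ _ hm').1) y hy
  exact ⟨hm', P, b, hs, hp⟩

/-- The class of maps used for the doubling towers. -/
def QD_TypS2 {ι : Type} (Λ : ι → Type) [∀ i, Group (Λ i)] (l : ι → Prop) (χ : ∀ i, Λ i → ℝ)
    (L' L : Lev C1) (c : L'.V → L.V) : Prop :=
  Mf L'.G L'.A ∧ GQ L'.G L'.A L.G L.A c ∧ CovL L'.G L'.A L.G L.A c ∧ Prop2 Λ l χ L' L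

theorem step_TypS2 (hD : DoubleS2Stmt) {ι : Type} (Λ : ι → Type) [∀ i, Group (Λ i)]
    (l : ι → Prop) (χ : ∀ i, Λ i → ℝ) {L : ℕ → Lev C1} {c : ∀ n, (L (n + 1)).V → (L n).V}
    (hc : ∀ n, IsDouble (L (n + 1)) (L n) (c n)) (hm : Mf (L 0).G (L 0).A) (n : ℕ) :
    QD_TypS2 Λ l χ (L (n + 1)) (L n) (c n) := by
  have key : ∀ n, Mf (L n).G (L n).A := by
    intro n
    induction n with
    | zero => exact hm
    | succ n ih => exact (hD _ _ _ (hc n) ih).1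
  obtain ⟨h1, h2, h3, h4⟩ := hD _ _ _ (hc n) (key n)
  exact ⟨h1, h2, h3, h4 ι Λ l χ⟩

theorem mainS2 (hS : SideS2Stmt) (hI : InterStmt) (hD : DoubleS2Stmt) (hC : Compare2Stmt)
    (hH : LensHomeoStmt) (hK : QSCompStmt) (hG : GDCompStmt) (hQ : ClQSStmt) (hT : QSTypeStmt)
    (hM : MfIsoStmt) (hB : MfBasicStmt) : MainS2Stmt := by
  rintro N N' ⟨h⟩ j hj
  obtain ⟨χ, Q, a1, a2, a3, a4, -⟩ := hS N
  obtain ⟨χ', Q', b1, b2, b3, -, b5⟩ := hS N'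
  obtain ⟨L2, c2, K2, D2, O2, f2, t2, i2, d2⟩ := racg_tower a3 N.nosq
  obtain ⟨L1, c1, K1, D1, O1, f1, t1, i1, d1⟩ := racg_tower b3 N'.nosq
  obtain ⟨m2, P2, j2, s2, e2⟩ := iso_TypS2 hQ hT hM hB i2 a2 Q
  obtain ⟨m1, P0, j1, s1, e1⟩ := iso_TypS2 hQ hT hM hB i1 b2 Q'
  have := compactSpace_bdry (Γ := N'.Γ)
  have := t2Space_bdry b3 N'.nosq
  have : Nonempty (Bdry N'.Γ) := ⟨bmk (exists_ray_through b3 1).choose⟩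
  obtain ⟨L, φ, c, e, hsys, he, -, hc⟩ := hI C1 _ _ 1 1 L1 c1 K1 D1 O1 L2 c2 K2 D2 O2 h.symm
    (QD_TypS2 (fun i => (N.P i).Λ) (fun i => IsLens (N.P i)) χ) T0 t1 t2 (fun _ _ => rfl)
    (fun L'' L' L f g hf hg => ⟨hg.1, (hG _ _ _ _ _ _ _ _ _ f g).2 hf.2.1 hg.2.1,
      (hK _ _ _ _ _ _ _ _ _ f g).1 hf.2.2.1 hg.2.2.1, fun q => hg.2.2.2 (hf.2.2.2 q)⟩)
    (step_TypS2 hD _ _ χ d1 m1) (step_TypS2 hD _ _ χ d2 m2)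
  obtain ⟨P1, hP1⟩ := he.2.2.2 ⟨P2, typed_TypS2 s2 e2 a4⟩
  have hmf : ∀ i, Mf (Lev.cons (L1 0) L i).G (Lev.cons (L1 0) L i).A := by
    intro i
    rcases i with _ | _ | i
    exacts [m1, he.1, (hc i).1]
  obtain ⟨k1, k2⟩ := hC (Lev.cons (L1 0) L) φ c P0 P1 hsys hmf (fun i => (hc i).2.1)
    (fun i => (hc i).2.2.1)
  rcases occ_TypS2 s1 e1 (b5 j) hj with ⟨x, hx⟩ | ⟨⟨z⟩, hn⟩
  · obtain ⟨x1, hx1⟩ := k2 x
    obtain ⟨i, hi⟩ := hP1.1 x1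
    obtain ⟨ω, hω⟩ := hx1 _ _ _ _ _ _ hx hi
    exact ⟨i, ⟨ω⟩, fun l1 l0 => hH _ _ _ _ _ _ _ _ ω l1 l0 (a1 i) (b1 j) (hω l0 l1 l0.1 l0.2.1)⟩
  · obtain ⟨i, ⟨w⟩⟩ := hP1.2 (k1 hn)
    refine ⟨i, ⟨w.trans z.symm⟩, fun l1 _ => ?_⟩
    have := l1.1
    have : Finite Zm := Finite.of_equiv _ w.toEquiv
    exact (not_finite Zm).elim

end Pool.Agent.MP_6374aa_gt
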