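import Pool.Agent.MP_6374aa_gt.MvAlgA

/-! Normalisation of dual pairs for a union along a contractible part. -/

namespace Pool.Agent.MP_6374aa_gt

open Classical Matrix

noncomputable section

variable {R I E Y P L S J : Type} [CommRing R]

theorem ctr_MvAlg [Fintype I] [DecidableEq I] {deg : I → ℕ} {d h : Matrix I I R}
    (hh : IsCtr deg d h) {n : ℕ} (X : Matrix I Y R) (hX : ∀ i y, deg i ≠ n → X i y = 0)
    (hd : d * X = 0) : ∃ W : Matrix I Y R, (∀ i y, deg i ≠ n + 1 → W i y = 0) ∧ d * W = X := by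
  refine ⟨h * X, fun i y hi => ?_, ?_⟩
  · rw [Matrix.mul_apply]
    refine Finset.sum_eq_zero fun k _ => ?_
    by_cases hk : h i k = 0
    · rw [hk, zero_mul]
    · rw [hX k y (fun e => hi (by rw [hh.1 i k hk, e])), mul_zero]
  · have h1 := congrArg (· * X) hh.2
    simp only [Matrix.add_mul, Matrix.mul_assoc, hd, Matrix.mul_zero, add_zero,
      Matrix.one_mul] at h1
    exact h1

theorem ctr2_MvAlg [Fintype I] [Fintype E] {i1 : DecidableEq (I ⊕ E)} {deg : I → ℕ} {dz : E → ℕ}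
    {D : Matrix I I R} {B : Matrix I E R} {h : Matrix (I ⊕ E) (I ⊕ E) R}
    (hh : IsCtr (Sum.elim deg dz) (fromBlocks D B 0 0) h) {n : ℕ} (hz : ∀ e, dz e ≠ n + 1)
    (X : Matrix I Y R) (hX : ∀ i y, deg i ≠ n → X i y = 0) (hd : D * X = 0) :
    ∃ W : Matrix I Y R, (∀ i y, deg i ≠ n + 1 → W i y = 0) ∧ D * W = X := by
  obtain ⟨W, h1, h2⟩ := ctr_MvAlg hh (n := n) (fromRows X 0)
    (by
      rintro (i | e) y hi
      · exact hX i y hi
      · rfl)
    (by rw [fromBlocks_mul_fromRows, hd]; simp)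
  refine ⟨W.toRows₁, fun i y hi => h1 (Sum.inl i) y hi, ?_⟩
  have h3 : W.toRows₂ = 0 := by
    ext e y
    exact h1 (Sum.inr e) y (hz e)
  rw [← fromRows_toRows W, h3, fromBlocks_mul_fromRows] at h2
  have h4 := congrArg toRows₁ h2
  simpa using h4

theorem degmul_MvAlg [Fintype I] {deg : I → ℕ} {D : Matrix I I R}
    (hD : ∀ i j, D i j ≠ 0 → deg j = deg i + 1) {n : ℕ} {V : Matrix I Y R}
    (hV : ∀ i y, deg i ≠ n → V i y = 0) (i : I) (y : Y) (hi : deg i + 1 ≠ n) :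
    (D * V) i y = 0 := by
  rw [Matrix.mul_apply]
  refine Finset.sum_eq_zero fun k _ => ?_
  by_cases hk : D i k = 0
  · rw [hk, zero_mul]
  · rw [hV k y (fun e => hi (by rw [← e, hD i k hk])), mul_zero]

variable [Fintype P] [Fintype L] [Fintype S]
  {nP : P → ℕ} {nL : L → ℕ} {nS : S → ℕ}
  {dPP : Matrix P P R} {dLP : Matrix L P R} {dLL : Matrix L L R} {dLS : Matrix L S R}
  {dSS : Matrix S S R}

theorem mvD_mul_MvAlg (xP : Matrix P Y R) (xL : Matrix L Y R) (xS : Matrix S Y R) :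
    mvD dPP dLP dLL dLS dSS * fromRows xP (fromRows xL xS) =
      fromRows (dPP * xP) (fromRows (dLP * xP + dLL * xL + dLS * xS) (dSS * xS)) := by
  ext i y
  rcases i with p | l | s <;>
    simp [Matrix.mul_apply, Fintype.sum_sum_type, mvD, add_assoc]

theorem rows3_MvAlg {xP yP : Matrix P Y R} {xL yL : Matrix L Y R} {xS yS : Matrix S Y R}
    (h : fromRows xP (fromRows xL xS) = fromRows yP (fromRows yL yS)) :
    xP = yP ∧ xL = yL ∧ xS = yS := by
  refine ⟨?_, ?_, ?_⟩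
  · ext p y
    exact congrFun (congrFun h (Sum.inl p)) y
  · ext l y
    exact congrFun (congrFun h (Sum.inr (Sum.inl l))) y
  · ext s y
    exact congrFun (congrFun h (Sum.inr (Sum.inr s))) y

omit [Fintype P] [Fintype L] [Fintype S] in
theorem split3_MvAlg (W : Matrix (P ⊕ (L ⊕ S)) Y R) :
    W = fromRows W.toRows₁ (fromRows W.toRows₂.toRows₁ W.toRows₂.toRows₂) := by
  rw [fromRows_toRows, fromRows_toRows]

omit [Fintype P] [Fintype L] [Fintype S] in
theorem zero3_MvAlg : (0 : Matrix (P ⊕ (L ⊕ S)) Y R) = fromRows 0 (fromRows 0 0) := by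
  simp

/-- Removing the part in `S` of a chain of degree one. -/
theorem kill_MvAlg
    (cA : ∀ i j, mvD dPP dLP dLL dLS dSS i j ≠ 0 →
      Sum.elim nP (Sum.elim nL nS) j = Sum.elim nP (Sum.elim nL nS) i + 1)
    (hl : ∀ X : Matrix S Y R, (∀ i y, nS i ≠ 1 → X i y = 0) → dSS * X = 0 →
      ∃ W : Matrix S Y R, (∀ i y, nS i ≠ 1 + 1 → W i y = 0) ∧ dSS * W = X)
    (W : Matrix (P ⊕ (L ⊕ S)) Y R) (hW : ∀ i y, Sum.elim nP (Sum.elim nL nS) i ≠ 1 → W i y = 0)
    (hc : (mvD dPP dLP dLL dLS dSS * W).toRows₂.toRows₂ = 0) :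
    ∃ (wP : Matrix P Y R) (wL : Matrix L Y R) (V : Matrix (P ⊕ (L ⊕ S)) Y R),
      (∀ i y, Sum.elim nP (Sum.elim nL nS) i ≠ 1 → fromRows wP (fromRows wL 0) i y = 0) ∧
      fromRows wP (fromRows wL 0) = W - mvD dPP dLP dLL dLS dSS * V := by
  rw [split3_MvAlg W, mvD_mul_MvAlg] at hc
  simp only [toRows₂_fromRows] at hc
  obtain ⟨U, hU, hU2⟩ := hl W.toRows₂.toRows₂ (fun i y hi => hW (Sum.inr (Sum.inr i)) y hi) hc
  obtain ⟨V, hVd⟩ : ∃ V : Matrix (P ⊕ (L ⊕ S)) Y R, V = fromRows 0 (fromRows 0 U) := ⟨_, rfl⟩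
  have hV : ∀ i y, Sum.elim nP (Sum.elim nL nS) i ≠ 2 → V i y = 0 := by
    rw [hVd]
    rintro (p | l | s) y hi
    · rfl
    · rfl
    · exact hU s y hi
  have he : fromRows (W - mvD dPP dLP dLL dLS dSS * V).toRows₁
      (fromRows (W - mvD dPP dLP dLL dLS dSS * V).toRows₂.toRows₁ 0) =
      W - mvD dPP dLP dLL dLS dSS * V := by
    ext i y
    rcases i with p | l | s
    · rfl
    · rfl
    · rw [hVd, mvD_mul_MvAlg, hU2]
      show (0 : R) = W (Sum.inr (Sum.inr s)) y - W (Sum.inr (Sum.inr s)) y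
      rw [sub_self]
  refine ⟨_, _, V, fun i y hi => ?_, he⟩
  rw [he, Matrix.sub_apply, hW i y hi, degmul_MvAlg cA hV i y (by omega), sub_zero]

variable [StarRing R]

theorem conj_mul_MvAlg (xP : Matrix P Y R) (xL : Matrix L Y R) (xS : Matrix S Y R) :
    (fromRows xP (fromRows xL xS))ᴴ * mvD dPP dLP dLL dLS dSS =
      fromCols (xPᴴ * dPP + xLᴴ * dLP) (fromCols (xLᴴ * dLL) (xLᴴ * dLS + xSᴴ * dSS)) := by
  ext y i
  rcases i with p | l | s <;>
    simp [Matrix.mul_apply, Fintype.sum_sum_type, mvD]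

theorem conj_rows_MvAlg {Y' : Type} (xP : Matrix P Y R) (xL : Matrix L Y R) (xS : Matrix S Y R)
    (zP : Matrix P Y' R) (zL : Matrix L Y' R) (zS : Matrix S Y' R) :
    (fromRows xP (fromRows xL xS))ᴴ * fromRows zP (fromRows zL zS) =
      xPᴴ * zP + xLᴴ * zL + xSᴴ * zS := by
  ext y i
  simp [Matrix.mul_apply, Fintype.sum_sum_type, add_assoc]

/-- Removing the part in `I` of a cocycle of degree one. -/
theorem cokill_MvAlg [Fintype I] [DecidableEq I] {nI : I → ℕ} {dIP : Matrix I P R}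
    {e H : Matrix I I R}
    (cA : ∀ i j, fromBlocks dPP 0 dIP e i j ≠ 0 → Sum.elim nP nI j = Sum.elim nP nI i + 1)
    (hH : ∀ i j, nI j = 1 → (e * H + H * e) i j = (1 : Matrix I I R) i j)
    (A : Matrix (P ⊕ I) Y R) (hA : ∀ i y, Sum.elim nP nI i ≠ 1 → A i y = 0)
    (hc : Aᴴ * (fromBlocks dPP 0 dIP e : Matrix (P ⊕ I) (P ⊕ I) R) = 0) :
    ∃ (a : Matrix P Y R) (B : Matrix (P ⊕ I) Y R),
      (∀ i y, Sum.elim nP nI i ≠ 1 → fromRows a (0 : Matrix I Y R) i y = 0) ∧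
      (fromRows a (0 : Matrix I Y R))ᴴ =
        Aᴴ - Bᴴ * (fromBlocks dPP 0 dIP e : Matrix (P ⊕ I) (P ⊕ I) R) := by
  have h1 : A.toRows₂ᴴ * e = 0 := by
    ext y i
    have := congrFun (congrFun hc y) (Sum.inr i)
    simpa [Matrix.mul_apply, Fintype.sum_sum_type] using this
  let β : Matrix I Y R := Matrix.of fun i y => if nI i = 0 then (Hᴴ * A.toRows₂) i y else 0
  obtain ⟨B, hBd⟩ : ∃ B : Matrix (P ⊕ I) Y R, B = fromRows 0 β := ⟨_, rfl⟩
  have hB : ∀ i y, Sum.elim nP nI i ≠ 0 → B i y = 0 := by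
    rw [hBd]
    rintro (p | i) y hi
    · rfl
    · exact if_neg hi
  obtain ⟨D, hDd⟩ : ∃ D : Matrix (P ⊕ I) (P ⊕ I) R, D = fromBlocks dPP 0 dIP e := ⟨_, rfl⟩
  rw [← hDd] at cA ⊢
  have hd : ∀ y i, Sum.elim nP nI i ≠ 1 → (Bᴴ * D) y i = 0 := by
    intro y i hi
    rw [Matrix.mul_apply]
    refine Finset.sum_eq_zero fun k _ => ?_
    by_cases hk : D k i = 0
    · rw [hk, mul_zero]
    · rw [conjTranspose_apply, hB k y (fun h0 => hi (by rw [cA k i hk, h0])), star_zero, zero_mul]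
  have h2 : ∀ y i, (Bᴴ * D) y (Sum.inr i) = Aᴴ y (Sum.inr i) := by
    intro y i
    by_cases hi : nI i = 1
    · have h3 : (Bᴴ * D) y (Sum.inr i) = (A.toRows₂ᴴ * H * e) y i := by
        rw [hDd] at cA
        rw [Matrix.mul_apply, Fintype.sum_sum_type, Matrix.mul_apply, hDd, hBd]
        simp only [fromBlocks_apply₁₂, Matrix.zero_apply, mul_zero, Finset.sum_const_zero,
          zero_add, fromBlocks_apply₂₂]
        refine Finset.sum_congr rfl fun k _ => ?_
        by_cases hk : e k i = 0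
        · rw [hk, mul_zero, mul_zero]
        · have h4 : nI i = nI k + 1 := cA (Sum.inr k) (Sum.inr i) hk
          have h5 : β k y = (Hᴴ * A.toRows₂) k y := if_pos (by omega)
          rw [conjTranspose_apply, fromRows_apply_inr, h5, ← conjTranspose_apply,
            conjTranspose_mul, conjTranspose_conjTranspose]
      have h6 : (A.toRows₂ᴴ * (e * H + H * e)) y i = (A.toRows₂ᴴ * (1 : Matrix I I R)) y i := by
        rw [Matrix.mul_apply, Matrix.mul_apply]
        exact Finset.sum_congr rfl fun k _ => by rw [hH k i hi]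
      rw [Matrix.mul_add, ← Matrix.mul_assoc, h1, Matrix.zero_mul, zero_add, Matrix.mul_one,
        ← Matrix.mul_assoc] at h6
      rw [h3, h6]
      rfl
    · rw [hd y (Sum.inr i) hi, conjTranspose_apply, hA (Sum.inr i) y hi, star_zero]
  have he : (fromRows (Aᴴ - Bᴴ * D)ᴴ.toRows₁ (0 : Matrix I Y R))ᴴ = Aᴴ - Bᴴ * D := by
    ext y i
    rcases i with p | i
    · exact star_star _
    · rw [Matrix.sub_apply, h2, sub_self]
      simp
  refine ⟨_, B, fun i y hi => ?_, he⟩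
  have h7 := congrFun (congrFun he y) i
  rw [Matrix.sub_apply, hd y i hi, conjTranspose_apply, conjTranspose_apply, hA i y hi,
    star_zero, sub_zero] at h7
  exact star_eq_zero.1 h7

end

end Pool.Agent.MP_6374aa_gt
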