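import Pool.Agent.MP_6374aa_gt.IfP
import Pool.Agent.MP_6374aa_gt.MvAlgB

/-! The algebra of a connected sum. -/

namespace Pool.Agent.MP_6374aa_gt

open Classical Matrix

noncomputable section

theorem detP_MvAlg {C I : Type} [CommGroup C] [Fintype I] [DecidableEq I] (w : I → RH C)
    (hw : ∀ i, InP (w i)) (p : I → Prop) [DecidablePred p] :
    InP (det ((diagonal w).toSquareBlockProp p)) := by
  have h : (diagonal w).toSquareBlockProp p = diagonal fun i : {i // p i} => w i.1 := by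
    ext i j
    rw [toSquareBlockProp_def, Matrix.of_apply, diagonal_apply, diagonal_apply]
    simp only [Subtype.ext_iff]
  rw [h, det_diagonal]
  exact InP.prod _ fun i _ => hw i.1

theorem neg_MvAlg (hT : TorChgStmt) {C S : Type} [CommGroup C] [Fintype S] [DecidableEq S]
    {nS : S → ℕ} {dSS : Matrix S S (RH C)} {ω : S → RH C} {ut : RH C}
    (h : IsTor (dg4 nS) (ext1 dSS ω) ut) (hu : InP ut) :
    ∃ u, IsTor (dg4 nS) (ext1 dSS (-ω)) u ∧ InP u := by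
  let w : S ⊕ Unit → RH C := Sum.elim (fun _ => 1) fun _ => -1
  have hw : ∀ i, InP (w i) := by
    rintro (s | u)
    · exact InP.one
    · exact InP.one.neg
  have hd : ∀ i j, diagonal w i j ≠ 0 → dg4 nS i = dg4 nS j := fun i j hij => by
    by_contra hne
    exact hij (diagonal_apply_ne _ fun e => hne (by rw [e]))
  obtain ⟨u, h1, h2⟩ := hT (RH C) _ (dg4 nS) (ext1 dSS ω) (ext1 dSS (-ω)) (diagonal w)
    (diagonal w) ut
    (by
      rw [diagonal_mul_diagonal, ← diagonal_one]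
      congr 1
      funext i
      rcases i with s | u <;> simp [w])
    hd hd
    (by
      ext i j
      rw [diagonal_mul, mul_diagonal]
      rcases i with s | u <;> rcases j with s' | u' <;> simp [w, ext1])
    h
  obtain ⟨v, hv, rfl⟩ := Sim.of_mul_eq (detP_MvAlg w hw _) (detP_MvAlg w hw _) h2
  exact ⟨_, h1, hv.mul hu⟩

theorem gam_MvAlg {R P X Y I : Type} [CommRing R] [Fintype P] [Fintype X] (Γ : Matrix I (P ⊕ X) R)
    (a : Matrix P Y R) :
    Γ * fromRows a (0 : Matrix X Y R) = Γ.submatrix id Sum.inl * a := by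
  ext i y
  simp [Matrix.mul_apply, Fintype.sum_sum_type]

theorem gam2_MvAlg {R P L X Y I : Type} [CommRing R] [Fintype P] [Fintype L] [Fintype X]
    (Γ : Matrix I (P ⊕ (L ⊕ X)) R) (a : Matrix X Y R) :
    Γ * fromRows (0 : Matrix P Y R) (fromRows (0 : Matrix L Y R) a) =
      Γ.submatrix id (Sum.inr ∘ Sum.inr) * a := by
  ext i y
  simp [Matrix.mul_apply, Fintype.sum_sum_type]

/-- A dual pair without parts in the contractible piece. -/
theorem norm_MvAlg {R P L S J : Type} [CommRing R] [StarRing R] [Fintype P] [DecidableEq P]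
    [Fintype L] [DecidableEq L] [Fintype S] [DecidableEq S] [Fintype J] [DecidableEq J]
    {nP : P → ℕ} {nL : L → ℕ} {nS : S → ℕ} {dPP : Matrix P P R} {dLP : Matrix L P R}
    {dLL : Matrix L L R} {dLS : Matrix L S R} {dSS : Matrix S S R}
    {H : Matrix (L ⊕ S) (L ⊕ S) R} {Z0 A0 : Matrix (P ⊕ (L ⊕ S)) J R}
    (cA : IsCx (Sum.elim nP (Sum.elim nL nS)) (mvD dPP dLP dLL dLS dSS))
    (hH : ∀ i j, Sum.elim nL nS j = 1 →
      (fromBlocks dLL dLS 0 dSS * H + H * fromBlocks dLL dLS 0 dSS) i j =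
        (1 : Matrix (L ⊕ S) (L ⊕ S) R) i j)
    (hl : ∀ X : Matrix S J R, (∀ i y, nS i ≠ 1 → X i y = 0) → dSS * X = 0 →
      ∃ W : Matrix S J R, (∀ i y, nS i ≠ 1 + 1 → W i y = 0) ∧ dSS * W = X)
    (dp : DualPair (Sum.elim nP (Sum.elim nL nS)) (mvD dPP dLP dLL dLS dSS) Z0 A0)
    (sp : Spans (Sum.elim nP (Sum.elim nL nS)) (mvD dPP dLP dLL dLS dSS) Z0) :
    ∃ (zP a : Matrix P J R) (zL : Matrix L J R),
      DualPair (Sum.elim nP (Sum.elim nL nS)) (mvD dPP dLP dLL dLS dSS)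
        (fromRows zP (fromRows zL 0)) (fromRows a 0) ∧
      Spans (Sum.elim nP (Sum.elim nL nS)) (mvD dPP dLP dLL dLS dSS)
        (fromRows zP (fromRows zL 0)) := by
  obtain ⟨zP, zL, V, hz1, hz2⟩ := kill_MvAlg cA.1 hl Z0 dp.dZ (by rw [dp.cyc]; rfl)
  obtain ⟨a, B, ha1, ha2⟩ := cokill_MvAlg (nI := Sum.elim nL nS) cA.1 hH A0 dp.dA dp.coc
  have ha3 : (fromRows a (0 : Matrix (L ⊕ S) J R))ᴴ = A0ᴴ - Bᴴ * mvD dPP dLP dLL dLS dSS := ha2
  have hc : mvD dPP dLP dLL dLS dSS * (Z0 - mvD dPP dLP dLL dLS dSS * V) = 0 := by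
    rw [Matrix.mul_sub, dp.cyc, ← Matrix.mul_assoc, cA.2, Matrix.zero_mul, sub_zero]
  refine ⟨zP, a, zL, ⟨hz1, ha1, ?_, ?_, ?_⟩, fun x hx hd => ?_⟩
  · rw [hz2, hc]
  · rw [ha3, Matrix.sub_mul, dp.coc, Matrix.mul_assoc, cA.2, Matrix.mul_zero, sub_zero]
  · rw [ha3, hz2, Matrix.sub_mul, Matrix.mul_assoc, hc, Matrix.mul_zero, sub_zero,
      Matrix.mul_sub, dp.pair, ← Matrix.mul_assoc, dp.coc, Matrix.zero_mul, sub_zero]
  · obtain ⟨μ, y, hy⟩ := sp x hx hd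
    refine ⟨μ, y + V.mulVec μ, ?_⟩
    rw [hz2, hy, Matrix.sub_mulVec, Matrix.mulVec_add, Matrix.mulVec_mulVec]
    abel

theorem mvAlg (hA : ValAnyMStmt) (hB : TorBlockStmt) (hS : TorSubStmt) (hR : TorReindexStmt)
    (hT : TorChgStmt) : MvAlgStmt := by
  intro C P L S Q K _ _ _ _ _ _ _ _ _ _ _ _ nP nL nS nQ dPP gPP dLP gLP dLL dLS dSS dLQ gLQ dQQ gQQ
    ΓA ΓB H Z A m μ ω us ut τ capA capB eA eB1 eB2 hH cS tS pS dpQ cQ tQ pQ h6 hval
  obtain ⟨ut', tS', pS'⟩ := neg_MvAlg hT tS pS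
  obtain ⟨kS, hkS, -⟩ := tS
  have hl : ∀ (Y : Type) (X : Matrix S Y (RH C)), (∀ i y, nS i ≠ 1 → X i y = 0) → dSS * X = 0 →
      ∃ W : Matrix S Y (RH C), (∀ i y, nS i ≠ 1 + 1 → W i y = 0) ∧ dSS * W = X :=
    fun Y X h1 h2 => ctr2_MvAlg (dz := fun _ : Unit => 4) hkS (fun _ => by norm_num) X h1 h2
  have h5 : dSS.mulVec ω = 0 := by
    funext s
    have := congrFun (congrFun cS.2 (Sum.inl s)) (Sum.inr ())
    simpa [Matrix.mul_apply, Fintype.sum_sum_type, ext1, Matrix.mulVec, dotProduct] using this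
  have g5 : ∀ s, ω s ≠ 0 → 4 = nS s + 1 := fun s h => cS.1 (Sum.inl s) (Sum.inr ()) h
  obtain ⟨J, _, _, Z0, A0, u0, dp0, ⟨h0, hh0, -⟩, -⟩ := id hval
  obtain ⟨zP, a, zL, dp1, sp1⟩ := norm_MvAlg capA.cx hH (hl J) dp0 (spans_of_isCtr hh0)
  obtain ⟨u1, t1, s1⟩ := hA C _ J _ _ ΓA _ _ τ capA hval dp1 sp1
  have cA := capA.isCx_cx2 dp1
  have eΓ : ΓA * fromRows a (0 : Matrix (L ⊕ S) J (RH C)) =
      fromRows (gPP * a) (fromRows (gLP * a) 0) := by
    rw [gam_MvAlg, eA, fromRows_mul, fromRows_mul, Matrix.zero_mul]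
  rw [eΓ] at t1 cA
  have g1 : ∀ l q, dLQ l q ≠ 0 → nQ q = nL l + 1 := fun l q h =>
    capB.cx.1 (Sum.inr (Sum.inl l)) (Sum.inr (Sum.inr q)) h
  obtain ⟨X, hX⟩ : ∃ X : Matrix (P ⊕ (L ⊕ S)) K (RH C),
    X = fromRows 0 (fromRows (dLQ * Z) 0) := ⟨_, rfl⟩
  have hX0 : ∀ i y, Sum.elim nP (Sum.elim nL nS) i ≠ 0 → X i y = 0 := by
    rw [hX]
    rintro (p | l | s) y hi
    · rfl
    · show (dLQ * Z) l y = 0
      rw [Matrix.mul_apply]
      refine Finset.sum_eq_zero fun q _ => ?_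
      by_cases hq : dLQ l q = 0
      · rw [hq, zero_mul]
      · rw [dpQ.dZ q y (by have := g1 l q hq; have : nL l ≠ 0 := hi; omega), mul_zero]
    · rfl
  have hX1 : mvD dPP dLP dLL dLS dSS * X = 0 := by
    exact Matrix.ext fun i y => degmul_MvAlg capA.cx.1 hX0 i y (by omega)
  obtain ⟨h1, hh1, -⟩ := id t1
  obtain ⟨W, hW1, hW2⟩ := ctr2_MvAlg (dz := d23 J) hh1 (n := 0)
    (by rintro (j | j) <;> simp [d23]) X hX0 hX1
  obtain ⟨wP, wL, V, hw1, hw2⟩ := kill_MvAlg capA.cx.1 (hl K) W hW1 (by rw [hW2, hX]; rfl)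
  have hw3 : mvD dPP dLP dLL dLS dSS * fromRows wP (fromRows wL (0 : Matrix S K (RH C))) = X := by
    rw [hw2, Matrix.mul_sub, hW2, ← Matrix.mul_assoc, capA.cx.2, Matrix.zero_mul, sub_zero]
  rw [mvD_mul_MvAlg, hX] at hw3
  obtain ⟨w1, w2, -⟩ := rows3_MvAlg hw3
  have hz := dp1.cyc
  rw [mvD_mul_MvAlg, zero3_MvAlg] at hz
  obtain ⟨z1, z2, -⟩ := rows3_MvAlg hz
  rw [Matrix.mul_zero, add_zero] at w2 z2
  have a1 : aᴴ * dPP = 0 := by
    have := dp1.coc
    rw [← fromRows_zero, conj_mul_MvAlg] at this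
    have h := congrArg toCols₁ this
    rw [toCols₁_fromCols] at h
    have h' : toCols₁ (0 : Matrix J (P ⊕ (L ⊕ S)) (RH C)) = 0 := rfl
    rw [h'] at h
    simpa using h
  have a2 : aᴴ * zP = 1 := by
    have := dp1.pair
    rw [← fromRows_zero, conj_rows_MvAlg] at this
    simpa using this
  obtain ⟨cP, hcP⟩ : ∃ cP, cP = zP * (aᴴ * wP) - wP := ⟨_, rfl⟩
  obtain ⟨cL, hcL⟩ : ∃ cL, cL = zL * (aᴴ * wP) - wL := ⟨_, rfl⟩
  have c1 : aᴴ * cP = 0 := by
    rw [hcP, Matrix.mul_sub, ← Matrix.mul_assoc, a2, Matrix.one_mul, sub_self]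
  have h2 : dPP * cP = 0 := by
    rw [hcP, Matrix.mul_sub, ← Matrix.mul_assoc, z1, w1, Matrix.zero_mul, sub_zero]
  have h3 : dLP * cP + dLL * cL + dLQ * Z = 0 := by
    have h7 : dLP * (zP * (aᴴ * wP)) + dLL * (zL * (aᴴ * wP)) = 0 := by
      rw [← Matrix.mul_assoc, ← Matrix.mul_assoc dLL, ← Matrix.add_mul, z2, Matrix.zero_mul]
    rw [hcP, hcL, Matrix.mul_sub, Matrix.mul_sub, ← w2, eq_neg_of_add_eq_zero_left h7]
    abel
  have g2 : ∀ p k, nP p ≠ 1 → cP p k = 0 := fun p k hp => by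
    rw [hcP, Matrix.sub_apply, show wP p k = 0 from hw1 (Sum.inl p) k hp, sub_zero,
      Matrix.mul_apply]
    exact Finset.sum_eq_zero fun j _ => by
      rw [show zP p j = 0 from dp1.dZ (Sum.inl p) j hp, zero_mul]
  have g3 : ∀ l k, nL l ≠ 1 → cL l k = 0 := fun l k hp => by
    rw [hcL, Matrix.sub_apply, show wL l k = 0 from hw1 (Sum.inr (Sum.inl l)) k hp, sub_zero,
      Matrix.mul_apply]
    exact Finset.sum_eq_zero fun j _ => by
      rw [show zL l j = 0 from dp1.dZ (Sum.inr (Sum.inl l)) j hp, zero_mul]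
  have g4 : ∀ l k, nL l ≠ 2 → (gLQ * A) l k = 0 := fun l k hp => by
    rw [Matrix.mul_apply]
    refine Finset.sum_eq_zero fun q _ => ?_
    have h7 : gLQ l q = ΓB (Sum.inr (Sum.inl l)) (Sum.inr (Sum.inr q)) :=
      (congrFun (congrFun eB2 (Sum.inr (Sum.inl l))) q).symm
    have h8 : gLQ l q = 0 := by
      by_contra hne
      rw [h7] at hne
      exact hp (capB.dΓ (Sum.inr (Sum.inl l)) (Sum.inr (Sum.inr q)) hne).1
    rw [h8, zero_mul]
  have dpB : DualPair (Sum.elim nP (Sum.elim nL nQ)) (mvD dPP dLP dLL dLQ dQQ)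
      (fromCols (fromRows zP (fromRows zL 0)) (fromRows cP (fromRows cL Z)))
      (fromCols (fromRows a (fromRows 0 0)) (fromRows 0 (fromRows 0 A))) := by
    refine ⟨?_, ?_, ?_, ?_, ?_⟩
    · rintro (p | l | q) (j | k) hi
      · exact dp1.dZ (Sum.inl p) j hi
      · exact g2 p k hi
      · exact dp1.dZ (Sum.inr (Sum.inl l)) j hi
      · exact g3 l k hi
      · rfl
      · exact dpQ.dZ q k hi
    · rintro (p | l | q) (j | k) hi
      · exact dp1.dA (Sum.inl p) j hi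
      · rfl
      · rfl
      · rfl
      · rfl
      · exact dpQ.dA q k hi
    · rw [mul_fromCols, mvD_mul_MvAlg, mvD_mul_MvAlg, z1, z2, h2, h3, dpQ.cyc]
      simp
    · rw [conjTranspose_fromCols_eq_fromRows_conjTranspose, fromRows_mul, conj_mul_MvAlg,
        conj_mul_MvAlg, a1, dpQ.coc]
      simp
    · rw [conjTranspose_fromCols_eq_fromRows_conjTranspose, fromRows_mul_fromCols,
        conj_rows_MvAlg, conj_rows_MvAlg, conj_rows_MvAlg, conj_rows_MvAlg, a2, c1, dpQ.pair]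
      simp
  have eΓ2 : ΓB * fromRows (0 : Matrix P K (RH C)) (fromRows (0 : Matrix L K (RH C)) A) =
      fromRows 0 (fromRows (gLQ * A) (gQQ * A)) := by
    rw [gam2_MvAlg, eB2, fromRows_mul, fromRows_mul, Matrix.zero_mul]
  have eΓB : ΓB * fromCols (fromRows a (fromRows (0 : Matrix L J (RH C)) (0 : Matrix Q J (RH C))))
      (fromRows (0 : Matrix P K (RH C)) (fromRows (0 : Matrix L K (RH C)) A)) =
      fromCols (fromRows (gPP * a) (fromRows (gLP * a) 0))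
        (fromRows 0 (fromRows (gLQ * A) (gQQ * A))) := by
    rw [mul_fromCols, eΓ2, fromRows_zero, gam_MvAlg, eB1, fromRows_mul, fromRows_mul,
      Matrix.zero_mul]
  have h1' : dLL * dLQ + dLQ * dQQ = 0 := by
    refine Matrix.ext fun l q => ?_
    have := congrFun (congrFun capB.cx.2 (Sum.inr (Sum.inl l))) (Sum.inr (Sum.inr q))
    simpa [Matrix.mul_apply, Fintype.sum_sum_type, mvD] using this
  have h4 : dLL * (gLQ * A) + dLQ * (gQQ * A) = 0 := by
    obtain ⟨Γ2, hΓ⟩ := capB.up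
    have h7 : (fromRows (0 : Matrix P K (RH C)) (fromRows (0 : Matrix L K (RH C)) A))ᴴ *
        mvD dPP dLP dLL dLQ dQQ = 0 := by
      rw [conj_mul_MvAlg, dpQ.coc]
      simp
    have h8 : mvD dPP dLP dLL dLQ dQQ *
        (ΓB * fromRows (0 : Matrix P K (RH C)) (fromRows (0 : Matrix L K (RH C)) A)) = 0 := by
      have h9 := congrArg conjTranspose h7
      rw [conjTranspose_mul, conjTranspose_conjTranspose, conjTranspose_zero] at h9
      rw [← Matrix.mul_assoc, hΓ, Matrix.mul_assoc, h9, Matrix.mul_zero]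
    rw [eΓ2, mvD_mul_MvAlg, zero3_MvAlg] at h8
    have := (rows3_MvAlg h8).2.1
    rwa [Matrix.mul_zero, zero_add] at this
  obtain ⟨u, v, tu, hv1, hv2⟩ := core_MvAlg hB hS hR h1' h2 h3 h4 h5 h6 g1 g2 g3 g4 g5 cA
    (inst_MvAlg t1) cQ (inst_MvAlg tQ) (inst_MvAlg tS')
  refine ⟨J ⊕ K, inferInstance, inferInstance, _, _, u, dpB, ?_, ?_⟩
  · rw [eΓB]
    exact inst_MvAlg tu
  · have s2 : Sim v τ := (s1.mul_left pQ).of_eq_or (by rw [mul_comm us]; exact hv1)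
    refine Sim.of_mul_left pS' (s2.of_eq_or ?_)
    rw [mul_comm ut']
    rcases hv2 with h | h
    · exact Or.inl h.symm
    · exact Or.inr (by rw [h, neg_neg])

end

end Pool.Agent.MP_6374aa_gt
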