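import Pool.Agent.MP_6374aa_gt.IfM

/-! The value of a connected sum on a cyclic cover. -/

namespace Pool.Agent.MP_6374aa_gt

open Classical Matrix

variable {V : Type} {G : SimpleGraph V}

section Map

variable {R R' : Type} [CommRing R] [CommRing R'] (f : R →+* R')

theorem mvD_map_MvVal {P L X : Type} (dPP : Matrix P P R) (dLP : Matrix L P R)
    (dLL : Matrix L L R) (dLX : Matrix L X R) (dXX : Matrix X X R) :
    (mvD dPP dLP dLL dLX dXX).map f =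
      mvD (dPP.map f) (dLP.map f) (dLL.map f) (dLX.map f) (dXX.map f) := by
  ext (i | i | i) (j | j | j) <;> simp [mvD]

theorem ext1_map_MvVal {I : Type} (D : Matrix I I R) (w : I → R) :
    (ext1 D w).map f = ext1 (D.map f) (f ∘ w) := by
  ext (i | i) (j | j) <;> simp [ext1]

theorem cx2_map_MvVal {I J : Type} (D : Matrix I I R) (Z Y : Matrix I J R) :
    (cx2 D Z Y).map f = cx2 (D.map f) (Z.map f) (Y.map f) := by
  ext (i | i) (j | j | j) <;> simp [cx2]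

theorem elim_map_MvVal {I J : Type} (m : I → R) (μ : J → R) :
    f ∘ Sum.elim m (Sum.elim (0 : J → R) μ) =
      Sum.elim (f ∘ m) (Sum.elim (0 : J → R') (f ∘ μ)) := by
  ext (i | i | i) <;> simp

theorem rows1_MvVal {P L X J : Type} (a : Matrix P J R) (b : Matrix L J R) :
    (fromRows a (fromRows b (0 : Matrix X J R))).map f =
      fromRows (a.map f) (fromRows (b.map f) 0) := by
  ext (i | i | i) j <;> simp

theorem rows2_MvVal {P L X J : Type} (a : Matrix L J R) (b : Matrix X J R) :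
    (fromRows (0 : Matrix P J R) (fromRows a b)).map f =
      fromRows 0 (fromRows (a.map f) (b.map f)) := by
  ext (i | i | i) j <;> simp

theorem htpy_MvVal {L S : Type} [Fintype L] [DecidableEq L] [Fintype S] [DecidableEq S]
    (a : Matrix L L R) (b : Matrix L S R) (c : Matrix S S R) (H : Matrix (L ⊕ S) (L ⊕ S) R)
    (i j : L ⊕ S) (h : (fromBlocks a b 0 c * H + H * fromBlocks a b 0 c) i j =
      (1 : Matrix (L ⊕ S) (L ⊕ S) R) i j) :
    (fromBlocks (a.map f) (b.map f) 0 (c.map f) * H.map f +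
      H.map f * fromBlocks (a.map f) (b.map f) 0 (c.map f)) i j =
      (1 : Matrix (L ⊕ S) (L ⊕ S) R') i j := by
  have e : fromBlocks (a.map f) (b.map f) 0 (c.map f) = (fromBlocks a b 0 c).map f := by
    ext (i | i) (j | j) <;> simp
  rw [e, ← Matrix.map_mul, ← Matrix.map_mul, Matrix.add_apply, Matrix.map_apply,
    Matrix.map_apply, ← map_add, ← Matrix.add_apply, h, Matrix.one_apply, Matrix.one_apply]
  split_ifs <;> simp

end Map

section Tw

variable {C I J : Type} [CommGroup C] {X : Set V} {lab lab' : V → V → C}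

theorem adq_MvVal {σ : Finset V} (h : σ ∈ sdA G X) {a b : V} (ha : a ∈ σ) (hb : b ∈ σ) :
    Adq G a b := by
  by_cases e : a = b
  · exact Or.inl e
  · exact Or.inr (h.2.2 ha hb e)

theorem twD_MvVal (v : V) {σ : I → Finset V} {τ : J → Finset V} (hσ : ∀ i, (σ i).Nonempty)
    (hτ : ∀ j, τ j ∈ sdA G X) (h : ∀ a ∈ X, ∀ b ∈ X, Adq G a b → lab a b = lab' a b) :
    tw v lab bD σ τ = tw v lab' bD σ τ := by
  refine tw_congr v (fun _ _ => rfl) fun i j hij => ?_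
  have h1 := hd_mem v (hτ j).1
  have h2 := (bD_ne hij).1 (hd_mem v (hσ i))
  exact h _ ((hτ j).2.1 h1) _ ((hτ j).2.1 h2) (adq_MvVal (hτ j) h1 h2)

theorem twG_MvVal (v : V) {η : V → EA V} (hη : Eta0 G X η) (σ : I → Finset V) (τ : J → Finset V)
    (h : ∀ a ∈ X, ∀ b ∈ X, Adq G a b → lab a b = lab' a b) :
    tw v lab (bG η) σ τ = tw v lab' (bG η) σ τ := by
  refine tw_congr v (fun _ _ => rfl) fun i j hij => ?_
  obtain ⟨c1, c2, hu, -⟩ := bG_ne hη hij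
  have h1 : hd v (τ j) ∈ σ i ∪ τ j :=
    Finset.mem_union_right _ (hd_mem v (Finset.card_pos.1 (by omega)))
  have h2 : hd v (σ i) ∈ σ i ∪ τ j :=
    Finset.mem_union_left _ (hd_mem v (Finset.card_pos.1 (by omega)))
  exact h _ (hu.2.1 h1) _ (hu.2.1 h2) (adq_MvVal hu h1 h2)

theorem twOne_MvVal (v : V) {σ : I → Finset V} {τ : J → Finset V} (hσ : ∀ i, (σ i).Nonempty)
    (hτ : ∀ j, τ j ∈ sdA G X) (h : ∀ a ∈ X, ∀ b ∈ X, Adq G a b → lab a b = 1) :
    (tw v lab bD σ τ).map (evH C) = (bM σ τ).map (algebraMap ℚ (RH C)) := by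
  rw [twD_MvVal (lab' := fun _ _ => 1) v hσ hτ h]
  exact Matrix.ext fun i j => evH_algebraMap (C := C) (bD (σ i) (τ j))

theorem mem_MvVal {σ : I → Finset V} {Y : Set (Finset V)} (h : Enum σ Y) (i : I) : σ i ∈ Y :=
  h.2 ▸ Set.mem_range_self i

end Tw

theorem top_MvVal {A M B : Set V} {v : V} (h : Graft G A M B v) (hA : Mf G A) (hM : Mf G M) :
    ∃ ζA ∈ Zy G A 4, ∃ ζM ∈ Zy G M 4, ζA ≠ 0 ∧ ζM ≠ 0 ∧ ζA + ζM ∈ Zy G B 4 ∧ ζA + ζM ≠ 0 := by
  obtain ⟨ζA, hζA, nA⟩ := hA.2.2.2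
  obtain ⟨ζ, hζ, nM⟩ := hM.2.2.2
  have h0 : ζ ≠ 0 := fun e => nM v h.memM (by rw [e, map_zero])
  have hA0 : ζA ≠ 0 := fun e => nA v h.memA (by rw [e, map_zero])
  obtain ⟨r, hr⟩ := (eta_of_mf hM hζ h0).gen0 h.memM (h.lk ▸ iv_mem_Zy v hζA)
  have hr0 : r ≠ 0 := fun e => nA v h.memA (by rw [hr, e, zero_smul])
  have hζM : (-r) • ζ ∈ Zy G M 4 := Submodule.smul_mem _ _ hζ
  refine ⟨ζA, hζA, (-r) • ζ, hζM, hA0, smul_ne_zero (neg_ne_zero.2 hr0) h0, ?_, fun e => hA0 ?_⟩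
  · have hU : ζA + (-r) • ζ ∈ Zy G (A ∪ M) 4 :=
      add_mem (Zy_mono Set.subset_union_left 4 hζA) (Zy_mono Set.subset_union_right 4 hζM)
    rw [h.eq]
    refine mem_Zy.2 ⟨mem_Ch_diff_of_iv (mem_Zy.1 hU).1 ?_, (mem_Zy.1 hU).2⟩
    rw [map_add, map_smul, hr, lc, neg_smul, add_neg_cancel]
  · have hF : Fin3 G A := ⟨hA.1, fun s hs hc => by
      rcases s.eq_empty_or_nonempty with rfl | hne
      · simp
      · exact (hA.2.2.1 s hne hs hc).1⟩
    have h1 : ζA ∈ Ch G M 4 := by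
      rw [eq_neg_of_add_eq_zero_left e]
      exact neg_mem (mem_Zy.1 hζM).1
    have h2 : ζA ∈ Zy G (A ∩ M) 4 :=
      mem_Zy.2 ⟨mem_Ch_inter (mem_Zy.1 hζA).1 h1, (mem_Zy.1 hζA).2⟩
    have h3 := Zy_le_Bd_of_cone (G := G) h.memA (Set.inter_subset_left (t := M)) (fun t ht => by
      rw [h.inter] at ht
      rcases ht with rfl | ht
      · exact Or.inl rfl
      · exact Or.inr (ht.2 v rfl)) 4 h2
    rwa [hF.Bd_eq_bot subset_rfl le_rfl, Submodule.mem_bot] at h3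

theorem flat_MvVal {A M B : Set V} {v : V} (h : Graft G A M B v) {L : Type} [Group L]
    {lab : V → V → L} (hA : Flat G A lab) (hM : Flat G M lab) : Flat G B lab := by
  intro a ha b hb c hc h1 h2 h3
  have hl : IsCl G B [a, b, c] := by
    refine ⟨by simp [ha, hb, hc], ?_⟩
    simp [h1, h2, h3, h1.symm, h2.symm, h3.symm, Adq.refl]
  rcases h.clique hl with k | k
  · exact hA a (k a (by simp)).1 b (k b (by simp)).1 c (k c (by simp)).1 h1 h2 h3
  · exact hM a (k a (by simp)).1 b (k b (by simp)).1 c (k c (by simp)).1 h1 h2 h3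

theorem mvVal (hA : MvAlgStmt) (hM : MvMatStmt) (hF : CovFrameStmt) (hS : SideMatStmt)
    (hT : StarSStmt) (hG : MfGraftStmt) (hR : TorMapStmt) : MvValStmt := by
  intro p _ V G A M B v lab lz π hp hg mA mM fA fM hl h1 tf τ hτ
  have := nontrivial_RH p (by omega)
  obtain ⟨ζA, zA, ζM, zM, nA, nM, zB, nB⟩ := top_MvVal hg mA mM
  have mB := hG V G A M B v hg mA mM
  have fB : Flat G B lab := flat_MvVal hg fA fun a ha b hb c hc k1 k2 k3 => by
    rw [hl a ha b hb k1, hl b hb c hc k2, hl a ha c hc k3, ← map_mul, fM a ha b hb c hc k1 k2 k3]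
  obtain ⟨P, _, _, σP, eP⟩ := exists_enum (X := {σ | σ ∈ sdA G A ∧ ¬ ↑σ ⊆ cst G A v})
    ((sdA_finite G mA.1).subset fun _ h => h.1)
  obtain ⟨L, _, _, σL, eL⟩ := exists_enum (X := sdA G (Lk G M {v}))
    (sdA_finite G (mM.1.subset fun _ h => h.1))
  obtain ⟨S, _, _, σS, eS⟩ := exists_enum (X := {σ | σ ∈ sdA G M ∧ v ∈ σ})
    ((sdA_finite G mM.1).subset fun _ h => h.1)
  obtain ⟨Q, _, _, σQ, eQ⟩ := exists_enum (X := {σ | σ ∈ sdA G M ∧ ¬ ↑σ ⊆ cst G M v})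
    ((sdA_finite G mM.1).subset fun _ h => h.1)
  obtain ⟨eA, eB, dA, dB, g1, g2, g3⟩ :=
    hM (Cp p) V P L S Q G A M B v lab ζA ζM σP σL σS σQ hg mA.1 mM.1 zA zM eP eL eS eQ
  obtain ⟨cA, vA⟩ := hF p V _ G A v lab _ ζA mA fA eA zA nA
  obtain ⟨cB, vB⟩ := hF p V _ G B v lab _ (ζA + ζM) mB fB eB zB nB
  obtain ⟨K, _, _, Z, Ac, m, μ, u, dp, rf, cx, tor, hu⟩ :=
    hS V L Q G M v lz ζM σL σQ ⟨mM, hg.memM, fM, h1, zM, nM, eL, eQ⟩ tf
  obtain ⟨⟨H, hH⟩, cs, ⟨u0, hu0, ts⟩, hω⟩ := hT V L S G M v ζM σL σS mM hg.memM zM nM eL eS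
  have gA : dgc (Sum.elim σP (Sum.elim σL σS)) =
      Sum.elim (dgc σP) (Sum.elim (dgc σL) (dgc σS)) := by
    ext (i | i | i) <;> rfl
  have gB : dgc (Sum.elim σP (Sum.elim σL σQ)) =
      Sum.elim (dgc σP) (Sum.elim (dgc σL) (dgc σQ)) := by
    ext (i | i | i) <;> rfl
  -- the star
  have hc : cst G M v ⊆ M := Set.insert_subset hg.memM fun _ h => h.1
  have l1 : ∀ a ∈ cst G M v, ∀ b ∈ cst G M v, Adq G a b → lab a b = 1 := fun a ha b hb k => by
    rw [hl a (hc ha) b (hc hb) k, h1 a ha b hb k, map_one]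
  have sL : ∀ i, σL i ∈ sdA G (cst G M v) := fun i =>
    ⟨(mem_MvVal eL i).1, (mem_MvVal eL i).2.1.trans (Set.subset_insert _ _), (mem_MvVal eL i).2.2⟩
  have sS : ∀ i, σS i ∈ sdA G (cst G M v) := fun i => by
    obtain ⟨k1, k2⟩ := mem_MvVal eS i
    refine ⟨k1.1, fun a ha => ?_, k1.2.2⟩
    rcases adq_MvVal k1 k2 ha with e | e
    · exact Or.inl e.symm
    · exact Or.inr ⟨k1.2.1 ha, fun w hw => by rwa [Set.mem_singleton_iff.1 hw]⟩
  have tLL := twOne_MvVal v (fun i => (sL i).1) sL l1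
  have tLS := twOne_MvVal v (fun i => (sL i).1) sS l1
  have tSS := twOne_MvVal v (fun i => (sS i).1) sS l1
  -- the side
  obtain ⟨f, hf⟩ : ∃ f : RC Zm →+* RH (Cp p),
      f = (evH (Cp p)).comp (MonoidAlgebra.mapDomainRingHom ℚ π) := ⟨_, rfl⟩
  have fs : ∀ x, f (star x) = star (f x) := fun x => by
    rw [hf, RingHom.comp_apply, mapDomain_star, evH_star, RingHom.comp_apply]
  have fq : ∀ r : ℚ, f (MonoidAlgebra.single 1 r) = algebraMap ℚ (RH (Cp p)) r := fun r => by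
    rw [hf, RingHom.comp_apply, ← evH_algebraMap]
    simp
  have ft : ∀ {I J : Type} (N : Finset V → Finset V → ℚ) (σ : I → Finset V) (σ' : J → Finset V),
      (tw v lz N σ σ').map f = (tw v (fun a b => π (lz a b)) N σ σ').map (evH (Cp p)) := by
    intro I J N σ σ'
    rw [← tw_map, Matrix.map_map, hf, RingHom.coe_comp]
  have sQ : ∀ i, σQ i ∈ sdA G M := fun i => (mem_MvVal eQ i).1
  have e0 := (eta_of_mf mM zM nM).toEta0
  have tQQ : (tw v lab bD σQ σQ).map (evH (Cp p)) = (tw v lz bD σQ σQ).map f := by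
    rw [ft, twD_MvVal v (fun i => (sQ i).1) sQ hl]
  have tLQ : (tw v lab bD σL σQ).map (evH (Cp p)) = (tw v lz bD σL σQ).map f := by
    rw [ft, twD_MvVal v (fun i => (sL i).1) sQ hl]
  have uQQ : (tw v lab (bG (lc ζM)) σQ σQ).map (evH (Cp p)) =
      (tw v lz (bG (lc ζM)) σQ σQ).map f := by
    rw [ft, twG_MvVal v e0 _ _ hl]
  have uLQ : (tw v lab (bG (lc ζM)) σL σQ).map (evH (Cp p)) =
      (tw v lz (bG (lc ζM)) σL σQ).map f := by
    rw [ft, twG_MvVal v e0 _ _ hl]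
  have cx' := (hR _ _ _ f _ _ u).1 cx
  have tor' := (hR _ _ _ f _ _ u).2 tor
  have cs' := (hR _ _ _ (algebraMap ℚ (RH (Cp p))) _ _ u0).1 cs
  have ts' := (hR _ _ _ (algebraMap ℚ (RH (Cp p))) _ _ u0).2 ts
  rw [ext1_map_MvVal, cx2_map_MvVal, Matrix.map_mul, elim_map_MvVal] at cx' tor'
  rw [ext1_map_MvVal] at cs' ts'
  rw [vA] at hτ
  rw [vB]
  rw [gA, dA, mvD_map_MvVal, tLL, tLS, tSS] at cA hτ
  rw [gB, dB, mvD_map_MvVal, tLL, tLQ, tQQ] at cB ⊢
  refine hA (Cp p) P L S Q K _ _ _ _ _ ((tw v lab (bG (lc ζA)) σP σP).map (evH (Cp p))) _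
    ((tw v lab (bG (lc ζA)) σL σP).map (evH (Cp p))) _ _ _ _
    ((tw v lz (bG (lc ζM)) σL σQ).map f) _ _ _ _ (H.map (algebraMap ℚ (RH (Cp p)))) _ _ _ _ _
    _ _ τ cA cB ?_ ?_ ?_ (fun i j k => htpy_MvVal _ _ _ _ _ i j (hH i j k)) cs' ts'
    (InP.rat hu0) (dp.map f fs) cx' tor' ?_ ?_ hτ
  · rw [← rows1_MvVal, ← g1]
    rfl
  · rw [← rows1_MvVal, ← g2]
    rfl
  · rw [← uLQ, ← uQQ, ← rows2_MvVal, ← g3]
    rfl
  · rw [hf]
    exact (hu.mapDomain π).inP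
  · funext l
    rw [← Matrix.map_mul, Pi.add_apply, ← RingHom.map_mulVec, ← RingHom.map_mulVec,
      ← RingHom.map_mulVec, ← map_add, ← Pi.add_apply, rf.e2, hω, fq]

end Pool.Agent.MP_6374aa_gt
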