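import Pool.Agent.MP_6374aa_gt.IfQ

/-! Injectivity of the duality map. -/

namespace Pool.Agent.MP_6374aa_gt

open Classical

noncomputable section

section
variable {V : Type} {G : SimpleGraph V} {A : Set V} {η : V → EA V} {a : V → V → ℚ}

/-- The local part of the cap product. -/
def t_PDinj (η : V → EA V) (a : V → V → ℚ) (p : V) : EA V :=
  ∑ q ∈ (iv_finite (η p)).toFinset, a p q • (vx q * iv q (η p))

theorem t_eq_PDinj (η : V → EA V) (a : V → V → ℚ) (p : V) (T : Finset V)
    (hT : ∀ q, iv q (η p) ≠ 0 → q ∈ T) :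
    t_PDinj η a p = ∑ q ∈ T, a p q • (vx q * iv q (η p)) := by
  refine Finset.sum_subset (fun q hq => hT q (by simpa using hq)) fun q _ hq => ?_
  have : iv q (η p) = 0 := by simpa using hq
  rw [this, mul_zero, smul_zero]

theorem t_mem_PDinj (h : Eta0 G A η) (a : V → V → ℚ) (p : V) :
    t_PDinj η a p ∈ Ch G (Lk G A {p}) 3 := by
  refine Submodule.sum_mem _ fun q hq => Submodule.smul_mem _ _ ?_
  have h1 := h.ne (p := p) (q := q) (by simpa using hq)
  refine vx_mul_mem_Ch (S := Lk G A {p}) (T := Lk G A {p, q}) ⟨h1.2.1, fun u hu => ?_⟩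
    (fun w hw => ⟨hw.1, fun u hu => hw.2 u (Or.inl hu)⟩)
    (fun w hw => Or.inr (hw.2 q (Or.inr rfl))) (mem_Zy.1 (h.edge_mem p q)).1
  rw [Set.mem_singleton_iff.1 hu]
  exact h1.2.2

theorem bd_t_PDinj (h : Eta0 G A η) (a : V → V → ℚ) (p : V) (T : Finset V)
    (hT : ∀ q, iv q (η p) ≠ 0 → q ∈ T) :
    bd (t_PDinj η a p) = ∑ q ∈ T, a p q • iv q (η p) := by
  rw [t_eq_PDinj η a p T hT, map_sum]
  refine Finset.sum_congr rfl fun q _ => ?_
  rw [map_smul, bd_vx_mul, (mem_Zy.1 (h.edge_mem p q)).2, mul_zero, sub_zero]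

theorem iv_t_PDinj (η : V → EA V) (a : V → V → ℚ) (p q : V) (T : Finset V)
    (hT : ∀ r, iv r (η p) ≠ 0 → r ∈ T) (hq : q ∈ T) :
    iv q (t_PDinj η a p) =
      a p q • iv q (η p) + ∑ r ∈ T, a p r • (vx r * iv r (iv q (η p))) := by
  have h1 : ∀ r, iv q (a p r • (vx r * iv r (η p))) =
      (if q = r then a p r • iv r (η p) else 0) + a p r • (vx r * iv r (iv q (η p))) := by
    intro r
    rw [map_smul, iv_CapA, iv_iv_comm q r, mul_neg, sub_neg_eq_add, smul_add]
    split_ifs
    · rw [one_smul]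
    · rw [zero_smul, smul_zero]
  rw [t_eq_PDinj η a p T hT, map_sum]
  simp only [h1, Finset.sum_add_distrib]
  rw [Finset.sum_ite_eq, if_pos hq]

theorem tri_PDinj (h : Eta0 G A η) (hc : Coc G A a) {x p q : V} (h0 : iv q (iv p (η x)) ≠ 0) :
    a x p + a p q = a x q := by
  have b1 := h.ne (p := p) (q := q) fun e' => h0 (by
    rw [h.anti x p, map_neg, iv_iv_comm, e', map_zero, neg_zero, neg_zero])
  have b2 := h.ne (p := x) (q := p) fun e' => h0 (by rw [e', map_zero])
  have b3 := h.ne (p := x) (q := q) fun e' => h0 (by rw [iv_iv_comm, e', map_zero, neg_zero])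
  exact hc.tri x b2.1 p b1.1 q b1.2.1 b2.2.2 b1.2.2 b3.2.2

theorem anti_PDinj (h : Eta0 G A η) (hc : Coc G A a) (p q : V) :
    a q p • iv p (η q) = a p q • iv q (η p) := by
  rw [h.anti q p]
  by_cases h0 : iv q (η p) = 0
  · rw [h0, neg_zero, smul_zero, smul_zero]
  · have b := h.ne h0
    rw [hc.anti p b.1 q b.2.1 b.2.2, neg_smul, smul_neg, neg_neg]

theorem edge_PDinj (h : Eta0 G A η) (hc : Coc G A a) (p q : V) :
    iv q (t_PDinj η a p) + iv p (t_PDinj η a q) = (4 * a p q) • iv q (η p) := by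
  obtain ⟨T, h1, h2, h3, h4⟩ : ∃ T : Finset V, (∀ r, iv r (η p) ≠ 0 → r ∈ T) ∧
      (∀ r, iv r (η q) ≠ 0 → r ∈ T) ∧ p ∈ T ∧ q ∈ T :=
    ⟨(iv_finite (η p)).toFinset ∪ (iv_finite (η q)).toFinset ∪ {p, q},
      fun r hr => by simp [hr], fun r hr => by simp [hr], by simp, by simp⟩
  have h5 : ∀ r, a p r • (vx r * iv r (iv q (η p))) + a q r • (vx r * iv r (iv p (η q))) =
      a p q • (vx r * iv r (iv q (η p))) := by
    intro r
    rw [h.anti q p, map_neg, mul_neg, smul_neg]
    by_cases h0 : iv r (iv q (η p)) = 0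
    · rw [h0, mul_zero, smul_zero, smul_zero, smul_zero, neg_zero, add_zero]
    · rw [← tri_PDinj h hc h0, add_smul, add_neg_cancel_right]
  rw [iv_t_PDinj η a p q T h1 h4, iv_t_PDinj η a q p T h2 h3, anti_PDinj h hc p q, add_add_add_comm,
    ← Finset.sum_add_distrib]
  simp only [h5]
  rw [← Finset.smul_sum, sum_vx_iv (mem_Zy.1 (h.edge_mem p q)).1 T fun r hr => (two_CapC h1 hr).2,
    smul_smul, ← add_smul, ← add_smul]
  congr 1
  push_cast
  ring

theorem iv_cap_PDinj (h : Eta0 G A η) (ha : FS G A a) (hc : Coc G A a) (x : V) :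
    iv x (cap1 η a) = (3 : ℚ) • bd (t_PDinj η a x) := by
  obtain ⟨T, h0, h1, h2⟩ : ∃ T : Finset V, x ∈ T ∧ (∀ p, iv p (η x) ≠ 0 → p ∈ T) ∧
      ∀ p q, a p q ≠ 0 → iv q (η p) ≠ 0 → (p, q) ∈ T ×ˢ T := by
    refine ⟨insert x ((iv_finite (η x)).toFinset ∪
      (ha.toFinset.image Prod.fst ∪ ha.toFinset.image Prod.snd)), Finset.mem_insert_self _ _,
      fun p hp => Finset.mem_insert_of_mem (Finset.mem_union_left _ (by simpa using hp)),
      fun p q h1 h2 => ?_⟩
    have h3 : (p, q) ∈ ha.toFinset :=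
      ha.mem_toFinset.2 ⟨(h.ne h2).1, (h.ne h2).2.1, (h.ne h2).2.2, h1⟩
    exact Finset.mem_product.2
      ⟨Finset.mem_insert_of_mem (Finset.mem_union_right _
        (Finset.mem_union_left _ (Finset.mem_image_of_mem _ h3))),
        Finset.mem_insert_of_mem (Finset.mem_union_right _
          (Finset.mem_union_right _ (Finset.mem_image_of_mem _ h3)))⟩
  have h3 : ∀ p q, iv x (a p q • (vx q * iv q (η p))) =
      (if x = q then a x p • iv p (η x) else 0) + a x p • (vx q * iv q (iv p (η x))) -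
        a x q • (vx q * iv q (iv p (η x))) := by
    intro p q
    have e : iv x (iv q (η p)) = iv q (iv p (η x)) := by
      rw [iv_iv_comm, h.anti p x, map_neg, neg_neg]
    have e1 : a p q • ((if x = q then (1 : ℚ) else 0) • iv q (η p)) =
        if x = q then a x p • iv p (η x) else 0 := by
      split_ifs with hx
      · rw [one_smul, ← hx, anti_PDinj h hc x p]
      · rw [zero_smul, smul_zero]
    rw [map_smul, iv_CapA, e, smul_sub, e1]
    by_cases h0 : iv q (iv p (η x)) = 0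
    · rw [h0, mul_zero, smul_zero, smul_zero, smul_zero, add_zero]
    · rw [← tri_PDinj h hc h0, add_smul]
      abel
  have h4 := (mem_Zy.1 (mem_CapC h x)).2
  rw [cap1_eq_sum _ h2, map_sum, Finset.sum_product, bd_t_PDinj h a x T h1, Finset.smul_sum]
  simp only [h3, Finset.sum_add_distrib, Finset.sum_sub_distrib]
  rw [Finset.sum_comm (f := fun p q => a x q • (vx q * iv q (iv p (η x))))]
  simp only [← Finset.smul_sum, ← Finset.mul_sum, ← map_sum]
  rw [sum_iv _ T h1, h4]
  simp only [map_zero, mul_zero, smul_zero, Finset.sum_const_zero, sub_zero]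
  rw [← Finset.sum_add_distrib, Finset.smul_sum]
  refine Finset.sum_congr rfl fun p _ => ?_
  rw [Finset.sum_ite_eq, if_pos h0,
    sum_vx_iv (mem_Zy.1 (h.edge_mem x p)).1 T fun r hr => (two_CapC h1 hr).2,
    smul_smul, smul_smul, ← add_smul]
  congr 1
  push_cast
  ring

end

theorem pDinj : PDinjStmt := by
  intro V G A η a W h hc ha hW e
  have key : ∀ p, ∃ r : ℚ, (p ∉ A → r = 0) ∧
      (p ∈ A → iv p W + (3 : ℚ) • t_PDinj η a p = r • η p) := by
    intro p
    by_cases hp : p ∈ A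
    · obtain ⟨r, hr⟩ := h.gen0 hp (z := iv p W + (3 : ℚ) • t_PDinj η a p) (mem_Zy.2
        ⟨Submodule.add_mem _ (iv_mem_Ch p hW)
          (Submodule.smul_mem _ _ (t_mem_PDinj h.toEta0 a p)), by
          rw [map_add, map_smul, ← iv_cap_PDinj h.toEta0 ha hc, e, iv_bd, add_neg_cancel]⟩)
      exact ⟨r, fun h' => absurd hp h', fun _ => hr⟩
    · exact ⟨0, fun _ => rfl, fun h' => absurd h' hp⟩
  choose F F0 F1 using key
  have tz : ∀ p ∈ A, (∀ q ∈ A, G.Adj p q → a p q = 0) → t_PDinj η a p = 0 := by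
    intro p _ h0
    refine Finset.sum_eq_zero fun q hq => ?_
    have b := h.toEta0.ne (p := p) (q := q) (by simpa using hq)
    rw [h0 q b.2.1 b.2.2, zero_smul]
  refine ⟨fun p => F p / 12, ?_, fun p hp => ?_, fun p hp q hq hpq => ?_, fun p hp h0 => ?_⟩
  · refine ((iv_finite W).union (ha.image Prod.fst)).subset fun p hp => ?_
    have h1 : F p ≠ 0 := fun e' => hp (by beta_reduce; rw [e', zero_div])
    have hpA : p ∈ A := not_not.1 fun e' => h1 (F0 p e')
    by_contra hn
    rw [Set.mem_union, not_or] at hn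
    have h2 : iv p W = 0 := not_not.1 hn.1
    have h3 := F1 p hpA
    rw [h2, tz p hpA fun q hq hpq => not_not.1 fun e' => hn.2 ⟨(p, q), ⟨hpA, hq, hpq, e'⟩, rfl⟩,
      smul_zero, add_zero] at h3
    exact smul_ne_zero h1 (h.ne p hpA) h3.symm
  · beta_reduce
    rw [F0 p hp, zero_div]
  · have h1 := congrArg (iv q) (F1 p hp)
    have h2 := congrArg (iv p) (F1 q hq)
    rw [map_add, map_smul, map_smul] at h1 h2
    rw [iv_iv_comm p q, h.anti q p] at h2
    have h3 := edge_PDinj h.toEta0 hc p q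
    have h4 : (12 * a p q - (F p - F q)) • iv q (η p) = 0 := by
      have h5 : (12 * a p q - (F p - F q)) • iv q (η p) =
          (3 : ℚ) • ((4 * a p q) • iv q (η p)) - (F p • iv q (η p) + F q • -iv q (η p)) := by
        module
      rw [h5, ← h1, ← h2, ← h3]
      module
    have h6 := (smul_eq_zero.1 h4).resolve_right (h.ne1 hp hq hpq)
    beta_reduce
    linarith
  · have h1 := F1 p hp
    rw [tz p hp h0, smul_zero, add_zero] at h1
    rw [h1]
    congr 1
    ring

end

end Pool.Agent.MP_6374aa_gt
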