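import Pool.Agent.MP_6374aa_gt.IfQ

/-! Surjectivity of the cap product with a locally finite fundamental cycle. -/

namespace Pool.Agent.MP_6374aa_gt

open Classical

noncomputable section

variable {V : Type} {G : SimpleGraph V} {A S : Set V} {η : V → EA V}

theorem loc_PDsurj (h : Eta G A η) (hS : S ⊆ A) {y : EA V} (hy : y ∈ Zy G S 3) (p : V) :
    ∃ x ∈ Ch G (Lk G A {p}) 3, bd x = iv p y ∧ (iv p y = 0 → x = 0) := by
  by_cases h0 : iv p y = 0
  · exact ⟨0, Submodule.zero_mem _, by rw [map_zero, h0], fun _ => rfl⟩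
  · have hp : p ∈ A := by_contra fun hp => h0 (iv_eq_zero (fun e => hp (hS e)) hy.1)
    obtain ⟨x, h1, h2⟩ := mem_Bd.1 (h.link_acyclic hp (n := 2) (by norm_num)
      (iv_mem_Zy p (Zy_mono hS 3 hy)))
    exact ⟨x, h1, h2, fun e => absurd e h0⟩

theorem edge_PDsurj (h : Eta G A η) {y : EA V} {x : V → EA V}
    (x1 : ∀ p, x p ∈ Ch G (Lk G A {p}) 3) (x2 : ∀ p, bd (x p) = iv p y)
    (x3 : ∀ p, x p ≠ 0 → p ∈ A) (p q : V) :
    ∃ r : ℚ, iv q (x p) + iv p (x q) = r • iv q (η p) ∧ (iv q (x p) + iv p (x q) = 0 → r = 0) := by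
  by_cases h0 : iv q (x p) + iv p (x q) = 0
  · exact ⟨0, by rw [h0, zero_smul], fun _ => rfl⟩
  have key : ∀ p q, iv q (x p) ≠ 0 → p ∈ A ∧ q ∈ A ∧ G.Adj p q := fun p q e => by
    have h1 : q ∈ Lk G A {p} := by_contra fun hq => e (iv_eq_zero hq (x1 p))
    exact ⟨x3 p fun e' => e (by rw [e', map_zero]), h1.1, h1.2 p rfl⟩
  have h1 : p ∈ A ∧ q ∈ A ∧ G.Adj p q := by
    by_cases e : iv q (x p) = 0
    · have := key q p fun e' => h0 (by rw [e, e', add_zero])
      exact ⟨this.2.1, this.1, this.2.2.symm⟩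
    · exact key p q e
  have h2 : iv q (x p) + iv p (x q) ∈ Zy G (Lk G A {p, q}) 2 := by
    refine mem_Zy.2 ⟨Submodule.add_mem _ ?_ ?_, ?_⟩
    · rw [← lk_lk]
      exact iv_mem_Ch q (x1 p)
    · rw [Set.pair_comm, ← lk_lk]
      exact iv_mem_Ch p (x1 q)
    · rw [← neg_eq_zero, map_add, neg_add, ← iv_bd, ← iv_bd, x2, x2, iv_iv_comm, neg_add_cancel]
  obtain ⟨r, hr⟩ := h.gen1 h1.1 h1.2.1 h1.2.2 h2
  exact ⟨r, hr, fun e => absurd e h0⟩

theorem coc_PDsurj (h : Eta G A η) {x : V → EA V} {b : V → V → ℚ}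
    (b1 : ∀ p q, iv q (x p) + iv p (x q) = b p q • iv q (η p)) (b0 : ∀ p, b p p = 0) :
    Coc G A b := by
  refine ⟨fun p hp q hq e => ?_, fun p hp q hq r hr e1 e2 e3 => ?_, b0⟩
  · have h1 := b1 q p
    rw [add_comm, b1 p q, h.anti q p, smul_neg, eq_neg_iff_add_eq_zero, ← add_smul] at h1
    have h2 := (smul_eq_zero.1 h1).resolve_right (h.ne1 hp hq e)
    linarith
  · have h1 := congrArg (iv r) (b1 p q)
    have h2 := congrArg (iv p) (b1 q r)
    have h3 := congrArg (iv q) (b1 p r)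
    rw [map_add, map_smul] at h1 h2 h3
    rw [iv_iv_comm p r (η q), h.anti q p, map_neg, neg_neg, iv_iv_comm p r, iv_iv_comm p q] at h2
    rw [iv_iv_comm q r (η p), iv_iv_comm q r, smul_neg] at h3
    have h4 : (b p q + b q r - b p r) • iv r (iv q (η p)) = 0 := by
      rw [sub_smul, add_smul, ← h1, ← h2, sub_eq_add_neg, ← h3]
      abel
    have h5 := (smul_eq_zero.1 h4).resolve_right (h.ne2 hp hq hr e1 e2 e3)
    linarith

theorem pDsurj : PDsurjStmt := by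
  intro V G A S η h hS y hy
  choose x x1 x2 x3 using loc_PDsurj h hS hy
  have x4 : ∀ p, x p ≠ 0 → p ∈ S := fun p e =>
    by_contra fun hp => e (x3 p (iv_eq_zero hp hy.1))
  choose b b1 b2 using edge_PDsurj h x1 x2 fun p e => hS (x4 p e)
  have b0 : ∀ p, b p p = 0 := fun p => b2 p p (by
    rw [iv_eq_zero (fun e : p ∈ Lk G A {p} => G.irrefl (e.2 p rfl)) (x1 p), add_zero])
  obtain ⟨s, s1, s2⟩ : ∃ s : Finset V, (∀ p, iv p y ≠ 0 → p ∈ s) ∧
      ∀ p q, iv q (x p) ≠ 0 → q ∈ s := by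
    refine ⟨((iv_finite y).union ((iv_finite y).biUnion fun p _ => iv_finite (x p))).toFinset,
      fun p e => (Set.Finite.mem_toFinset _).2 (Or.inl e), fun p q e =>
      (Set.Finite.mem_toFinset _).2 (Or.inr (Set.mem_biUnion (x := p) ?_ e))⟩
    exact fun e' => e (by rw [x3 p e', map_zero])
  have s3 : ∀ p q, iv q (x p) ≠ 0 → p ∈ s ∧ q ∈ s := fun p q e =>
    ⟨s1 p fun e' => e (by rw [x3 p e', map_zero]), s2 p q e⟩
  have b3 : ∀ p q, b p q ≠ 0 → iv q (x p) ≠ 0 ∨ iv p (x q) ≠ 0 := fun p q e => by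
    by_contra h1
    push Not at h1
    exact e (b2 p q (by rw [h1.1, h1.2, add_zero]))
  have b4 : ∀ p q, b p q ≠ 0 → (p, q) ∈ s ×ˢ s := fun p q e =>
    Finset.mem_product.2 ((b3 p q e).elim (s3 p q) fun e' => (s3 q p e').symm)
  have hF : FS G A b := (s ×ˢ s).finite_toSet.subset fun e he => b4 e.1 e.2 he.2.2.2
  have e1 : ∑ p ∈ s, vx p * bd (x p) = (3 : ℚ) • y := by
    simp only [x2]
    simpa using sum_vx_iv hy.1 s s1
  have e2 : cap1 η b = (3 : ℚ) • ∑ p ∈ s, x p + (3 : ℚ) • y := by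
    rw [cap1_eq_sum (s ×ˢ s) fun p q e _ => b4 p q e, Finset.sum_product]
    simp only [← mul_smul_comm, ← b1, mul_add, Finset.sum_add_distrib]
    rw [Finset.sum_comm (f := fun p q => vx q * iv p (x q)), ← e1, Finset.smul_sum]
    congr 1
    · exact Finset.sum_congr rfl fun p _ => by simpa using sum_vx_iv (x1 p) s (s2 p)
    · exact Finset.sum_congr rfl fun q _ => by rw [← Finset.mul_sum, sum_iv (x q) s (s2 q)]
  have e3 : bd (∑ p ∈ s, vx p * x p) = ∑ p ∈ s, x p - (3 : ℚ) • y := by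
    rw [map_sum, ← e1, ← Finset.sum_sub_distrib]
    exact Finset.sum_congr rfl fun p _ => bd_vx_mul p (x p)
  refine ⟨fun p q => (1 / 12 : ℚ) * b p q, (coc_PDsurj h b1 b0).mul _, hF.mul _,
    fun p q e => ?_, mem_Bd.2 ⟨(1 / 4 : ℚ) • ∑ p ∈ s, vx p * x p,
      Submodule.smul_mem _ _ (Submodule.sum_mem _ fun p _ => ?_), ?_⟩⟩
  · exact (b3 p q (right_ne_zero_of_mul e)).imp
      (fun e' => x4 p fun e'' => e' (by rw [e'', map_zero]))
      fun e' => x4 q fun e'' => e' (by rw [e'', map_zero])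
  · by_cases e : x p = 0
    · rw [e, mul_zero]
      exact Submodule.zero_mem _
    · exact vx_mul_mem_Ch (hS (x4 p e)) (fun t ht => ht.1) (fun t ht => Or.inr (ht.2 p rfl)) (x1 p)
  · rw [map_smul, e3, cap1_mul, e2]
    module

end

end Pool.Agent.MP_6374aa_gt
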