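import Pool.Agent.MP_6374aa_gt.IfP

/-! Dual bases over the Laurent polynomial ring. -/

namespace Pool.Agent.MP_6374aa_gt

open Classical Matrix

noncomputable section

theorem pid_PidS : IsPrincipalIdealRing (RC Zm) := by
  have : IsPrincipalIdealRing (LaurentPolynomial ℚ) := ⟨fun J => by
    rw [← IsLocalization.map_under (Submonoid.powers (Polynomial.X : Polynomial ℚ))
      (LaurentPolynomial ℚ) J]
    obtain ⟨a, ha⟩ := (IsPrincipalIdealRing.principal (J.under (Polynomial ℚ))).principal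
    rw [ha, Ideal.submodule_span_eq, Ideal.map_span, Set.image_singleton]
    exact ⟨⟨_, rfl⟩⟩⟩
  exact IsPrincipalIdealRing.of_surjective (AddMonoidAlgebra.toMultiplicative ℚ ℤ)
    (AddMonoidAlgebra.toMultiplicative ℚ ℤ).surjective

section

variable {S I : Type} [CommRing S] [Fintype I] [DecidableEq I]

/-- The projection to the vectors of degree `n`. -/
def pr_PidS (S : Type) [CommRing S] (deg : I → ℕ) (n : ℕ) : Matrix I I S :=
  diagonal fun i => if deg i = n then 1 else 0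

theorem dg_iff_PidS {deg : I → ℕ} {n : ℕ} {x : I → S} :
    Dg deg n x ↔ (pr_PidS S deg n).mulVec x = x := by
  constructor
  · intro h
    funext i
    rw [pr_PidS, mulVec_diagonal]
    split_ifs with e
    · exact one_mul _
    · rw [h i e, mul_zero]
  · intro h i e
    rw [← h, pr_PidS, mulVec_diagonal, if_neg e, zero_mul]

theorem pp_PidS (deg : I → ℕ) (n : ℕ) : pr_PidS S deg n * pr_PidS S deg n = pr_PidS S deg n := by
  rw [pr_PidS, diagonal_mul_diagonal]
  congr 1
  funext i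
  split_ifs <;> simp

theorem dp_PidS {deg : I → ℕ} {d : Matrix I I S} (h : IsCx deg d) (n : ℕ) :
    d * pr_PidS S deg (n + 1) = pr_PidS S deg n * d := by
  ext i j
  rw [pr_PidS, pr_PidS, mul_diagonal, diagonal_mul]
  by_cases e : d i j = 0
  · rw [e, zero_mul, mul_zero]
  · simp only [h.1 i j e, add_left_inj, mul_comm]

variable [StarRing S]

omit [Fintype I] in
theorem ph_PidS (deg : I → ℕ) (n : ℕ) : (pr_PidS S deg n)ᴴ = pr_PidS S deg n := by
  rw [pr_PidS, diagonal_conjTranspose]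
  congr 1
  funext i
  simp only [Pi.star_apply]
  split_ifs <;> simp

theorem gen_PidS [IsDomain S] [IsPrincipalIdealRing S] (deg : I → ℕ) (d : Matrix I I S)
    (hd : IsCx deg d) (h0 : ∀ x, Dg deg 0 x → ∃ y, Dg deg 1 y ∧ d.mulVec y = x)
    (h1 : ∀ x, Dg deg 1 x → d.mulVec x = 0 → ∀ r : S, r ≠ 0 → ∀ y, Dg deg 2 y →
      r • x = d.mulVec y → ∃ y', x = d.mulVec y') :
    ∃ (K : Type) (_ : Fintype K) (_ : DecidableEq K) (Z A : Matrix I K S), SideP deg d Z A := by
  obtain ⟨s, s1, s0, ds⟩ : ∃ s : Matrix I I S, pr_PidS S deg 1 * s = s ∧ s * pr_PidS S deg 0 = s ∧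
      d * s = pr_PidS S deg 0 := by
    choose y hy hy' using fun j => h0 ((pr_PidS S deg 0).mulVec (Pi.single j 1))
      (dg_iff_PidS.2 (by rw [mulVec_mulVec, pp_PidS]))
    refine ⟨(of y)ᵀ * pr_PidS S deg 0, ?_, by rw [Matrix.mul_assoc, pp_PidS], ?_⟩
    · rw [← Matrix.mul_assoc]
      congr 1
      ext i j
      exact congrFun (dg_iff_PidS.1 (hy j)) i
    · rw [← Matrix.mul_assoc]
      refine Eq.trans ?_ (pp_PidS deg 0)
      congr 1
      ext i j
      exact (congrFun (hy' j) i).trans (by rw [mulVec_single_one, col_apply])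
  obtain ⟨r, hr⟩ : ∃ r, r = pr_PidS S deg 1 - s * d := ⟨_, rfl⟩
  have dr : d * r = 0 := by rw [hr, Matrix.mul_sub, ← Matrix.mul_assoc, ds, dp_PidS hd 0, sub_self]
  have pr : pr_PidS S deg 1 * r = r := by
    rw [hr, Matrix.mul_sub, ← Matrix.mul_assoc, s1, pp_PidS]
  have rp : r * pr_PidS S deg 1 = r := by
    rw [hr, Matrix.sub_mul, Matrix.mul_assoc, dp_PidS hd 0, ← Matrix.mul_assoc, s0, pp_PidS]
  have rd : r * d = d * pr_PidS S deg 2 := by
    rw [hr, Matrix.sub_mul, Matrix.mul_assoc, hd.2, Matrix.mul_zero, sub_zero, dp_PidS hd 1]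
  have rx : ∀ x, Dg deg 1 x → d.mulVec x = 0 → r.mulVec x = x := fun x hx hx' => by
    rw [hr, sub_mulVec, ← mulVec_mulVec, hx', mulVec_zero, sub_zero, dg_iff_PidS.1 hx]
  have r1 : ∀ x, Dg deg 1 (r.mulVec x) := fun x => dg_iff_PidS.2 (by rw [mulVec_mulVec, pr])
  have r2 : ∀ x, d.mulVec (r.mulVec x) = 0 := fun x => by rw [mulVec_mulVec, dr, zero_mulVec]
  let B1 : Submodule S (I → S) := LinearMap.range (d * pr_PidS S deg 2).mulVecLin
  let φ := B1.mkQ ∘ₗ r.mulVecLin
  have hφ : ∀ x, φ.rangeRestrict x = 0 ↔ ∃ y, (d * pr_PidS S deg 2).mulVec y = r.mulVec x :=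
    fun x => Subtype.ext_iff.trans (Submodule.Quotient.mk_eq_zero B1)
  have hφr : ∀ x, φ.rangeRestrict (r.mulVec x) = φ.rangeRestrict x := fun x =>
    Subtype.ext (congrArg B1.mkQ (rx _ (r1 x) (r2 x)))
  have : Module.IsTorsionFree S (LinearMap.range φ) := by
    refine Module.IsTorsionFree.of_smul_eq_zero fun a m h => ?_
    obtain ⟨x, rfl⟩ := φ.surjective_rangeRestrict m
    refine (eq_or_ne a 0).imp_right fun ha => ?_
    rw [← map_smul, hφ] at h
    obtain ⟨y, hy⟩ := h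
    obtain ⟨y', hy'⟩ := h1 _ (r1 x) (r2 x) a ha ((pr_PidS S deg 2).mulVec y)
      (dg_iff_PidS.2 (by rw [mulVec_mulVec, pp_PidS])) (by rw [mulVec_mulVec, hy, mulVec_smul])
    exact (hφ x).2 ⟨y', by rw [← rd, ← mulVec_mulVec, ← hy', rx _ (r1 x) (r2 x)]⟩
  let b := Module.finBasis S (LinearMap.range φ)
  choose z hz using fun k => φ.surjective_rangeRestrict (b k)
  let B := LinearMap.toMatrix' (b.equivFun.toLinearMap ∘ₗ φ.rangeRestrict)
  have hB : ∀ x, B.mulVec x = b.equivFun (φ.rangeRestrict x) := fun x =>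
    LinearMap.toMatrix'_mulVec _ x
  have Br : B * r = B := by
    refine ext_of_mulVec_single fun j => ?_
    rw [← mulVec_mulVec, hB, hB, hφr]
  have BZ : B * (r * (of z)ᵀ) = 1 := by
    rw [← Matrix.mul_assoc, Br]
    ext k l
    refine (congrFun (hB (z l)) k).trans ?_
    rw [hz, Module.Basis.equivFun_self, one_apply]
    simp only [eq_comm]
  have sp : Spans deg d (r * (of z)ᵀ) := fun x hx hx' => by
    obtain ⟨y, hy⟩ := (hφ (x - (r * (of z)ᵀ).mulVec (B.mulVec x))).1 (b.equivFun.injective (by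
      rw [← hB, mulVec_sub, mulVec_mulVec, BZ, one_mulVec, sub_self, map_zero]))
    refine ⟨B.mulVec x, (pr_PidS S deg 2).mulVec y, ?_⟩
    rw [mulVec_mulVec y, hy, mulVec_sub, rx x hx hx', ← mulVec_mulVec _ r, rx _ (r1 _) (r2 _),
      add_sub_cancel]
  refine ⟨_, inferInstance, inferInstance, r * (of z)ᵀ, Bᴴ, hd, ⟨fun i k hi => r1 (z k) i hi,
    fun i k hi => ?_, by rw [← Matrix.mul_assoc, dr, Matrix.zero_mul], ?_,
    by rwa [conjTranspose_conjTranspose]⟩, sp, h0, fun c hc c1 c2 => ?_⟩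
  · rw [conjTranspose_apply, ← Br, ← rp, ← Matrix.mul_assoc, pr_PidS, mul_diagonal, if_neg hi,
      mul_zero, star_zero]
  · rw [conjTranspose_conjTranspose]
    refine ext_of_mulVec_single fun j => ?_
    rw [← mulVec_mulVec, hB, (hφ _).2 ⟨Pi.single j 1, by rw [mulVec_mulVec, rd]⟩, map_zero,
      zero_mulVec]
  · choose μ y hy using fun j => sp _ (r1 (Pi.single j 1)) (r2 _)
    have e : r = r * (of z)ᵀ * (of μ)ᵀ + d * (of y)ᵀ := by
      ext i j
      have := congrFun (hy j) i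
      rwa [mulVec_single_one, col_apply] at this
    have e' : rᴴ.mulVec c = 0 := by
      rw [e, conjTranspose_add, conjTranspose_mul, conjTranspose_mul d, add_mulVec,
        ← mulVec_mulVec, ← mulVec_mulVec, c1, c2, mulVec_zero, mulVec_zero, add_zero]
    rw [hr, conjTranspose_sub, ph_PidS, conjTranspose_mul, sub_mulVec, dg_iff_PidS.1 hc,
      ← mulVec_mulVec, sub_eq_zero] at e'
    refine ⟨_, dg_iff_PidS.2 ?_, e'⟩
    rw [mulVec_mulVec, ← ph_PidS, ← conjTranspose_mul, s0]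

end

theorem pidS : PidStmt := fun _ _ _ deg d hd h0 h1 =>
  have := pid_PidS
  gen_PidS deg d hd h0 h1

end

end Pool.Agent.MP_6374aa_gt
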