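import Pool.Agent.MP_6374aa_gt.IfM
import Pool.Agent.MP_6374aa_gt.SphSite
import Pool.Agent.MP_6374aa_gt.CapD

/-! The typed decomposition of a prime summand. -/

namespace Pool.Agent.MP_6374aa_gt

open Classical

theorem lensSite (h1 : ValV1Stmt) (hI : ValIsoStmt) (hG : ValGaugeStmt) : LensSiteStmt := by
  intro V Λ G A _ _ lab χ P x θ y hm hl hy hΛ hθ hz hV p _ hp ρ hU
  have hr : Function.Bijective (ρ.comp (P.Λ x).subtype) :=
    ⟨(injective_iff_map_eq_one _).2 fun γ hγ => Subtype.ext (hU.inj γ γ.2 hγ), fun l =>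
      let ⟨γ, h1, h2⟩ := hU.surj l
      ⟨⟨γ, h1⟩, h2⟩⟩
  let ω : Λ ≃* Cp p := θ.symm.trans (MulEquiv.ofBijective _ hr)
  have hω : ∀ γ : P.Λ x, ω (θ γ) = ρ γ := fun γ => by simp [ω]
  obtain ⟨k, -, hk⟩ := exists_gauge hm.2.1 hy (ρ := ρ)
    (σ := ω.toMonoidHom.comp (glift G A lab)) fun γ hγ => by
      have := hω ⟨γ, hΛ ▸ hγ⟩
      rw [hθ] at this
      exact this.symm
  have hi := iso_SphSite hl (flat_hom ρ) ω (k := k) fun u hu w hw huw => by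
    rw [hk u hu w hw huw, MonoidHom.comp_apply, glift_gen hl]
    rfl
  have hψ : Function.Injective ω.symm.toMonoidHom := ω.symm.injective
  obtain ⟨a, b, h2, h3⟩ := hV p hp _ hψ
  refine ⟨a, b, fun δ => ?_, ?_⟩
  · rw [← h2, ← hω]
    exact congrArg χ (ω.symm_apply_apply _).symm
  · obtain ⟨hA, -, -, ζ, z1, z2⟩ := hm
    have z3 : ζ ≠ 0 := fun e => z2 y hy (by rw [e, map_zero])
    obtain ⟨ζ', w1, -, w2, w3⟩ := exists_top_lift hA hl z1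
    have h4 := h1 p _ _ _ _ a b ζ' (freeAct_deck hψ).toAct (fin_CapD hA) hz
      ⟨w1, w3 _ _⟩ (w2 z3) h3
    exact (hI (Cp p) _ _ _ _ _ _ _ _ _ (freeAct_deck hψ).toAct
      (freeAct_deck (ψ := MonoidHom.id (Cp p)) Function.injective_id).toAct (fin_CapD hA) hi
      (fun g q _ => by simp [deck, mul_assoc]) _).2 h4

theorem chi_PieceS2 {V : Type} [Fintype V] {G : SimpleGraph V} (P : Prime3 G) :
    ∃ χ : P.Λ → ℝ, Chi2 P χ := by
  by_cases h : IsLens P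
  · obtain ⟨e, L, hL⟩ := h.2.2
    exact ⟨fun g => (L g).trace, fun _ => ⟨e, L, hL, fun _ => rfl⟩⟩
  · exact ⟨fun _ => 0, fun h' => (h h').elim⟩

theorem pieceS2 (hS : SheetStmt) (hC : SCovStmt) (hD : DeckIsoStmt) (hK : KurStmt)
    (hB : BaseGStmt) (hP : SphCov2Stmt) (hL : LensSiteStmt) (hM : ClosedMfStmt)
    (hF : MfBasicStmt) : PieceS2Stmt := by
  intro V _ G P
  obtain ⟨lab, sh, hs⟩ := hS V P.E P.Λ G P.A P.p P.cov
  obtain ⟨hm, y, hy, -⟩ := hM V G P.A P.closed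
  have h3 := (hF V G P.A hm).1
  have := P.sc
  have h1 := hC V P.E P.Λ G P.A P.p lab sh hs ⟨y, hy⟩
  obtain ⟨h4, θ, h5⟩ := hD V G P.A P.Λ lab y hs.flat hy h1
  obtain ⟨χ, hχ⟩ := chi_PieceS2 P
  obtain ⟨b1, b2, b3⟩ := hB V G P.A h3 h4 y hy
  refine ⟨χ, ?_⟩
  by_cases hz : Nonempty (P.Λ ≃* Zm)
  · obtain ⟨Q, qX, qS⟩ := b3 ⟨θ.trans hz.some⟩
    exact ⟨Q, hχ, fun x => (qX.false x).elim, fun _ => hz, fun _ => Or.inr ⟨hz, qS⟩⟩
  rcases subsingleton_or_nontrivial P.Λ with _ | _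
  · have := θ.toEquiv.subsingleton
    obtain ⟨Q, qX, qS⟩ := b1 (Subgroup.eq_bot_of_subsingleton _)
    exact ⟨Q, hχ, fun x => (qX.false x).elim, fun h => (qS.false h.some).elim,
      fun _ => (false_of_nontrivial_of_subsingleton P.Λ).elim⟩
  · have hE : HasE P.Λ := (hK P.Λ P.indec).resolve_right hz
    obtain ⟨Q, x, q1, q3, qS⟩ :=
      b2 ((Subgroup.nontrivial_iff_ne_bot _).1 θ.toEquiv.nontrivial) (hE.congr θ.symm)
    have hx : SiteOf2 Q x P.Λ (IsLens P) χ := by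
      refine ⟨(MulEquiv.subgroupCongr q3).trans θ, fun hl => ?_⟩
      have := hl.1
      obtain ⟨e, L, l1, l2⟩ := hχ hl
      obtain ⟨s1, s2⟩ := hP V P.E P.Λ G P.A P.p lab sh e L hs h3 l1
      refine hL V P.Λ G P.A lab χ Q x _ y hm hs.flat hy q3 (fun δ => h5 _) s1 ?_
      intro q _ hq ψ hψ
      obtain ⟨a, b, t1, t2⟩ := s2 q hq ψ hψ
      exact ⟨a, b, fun k => (l2 _).trans (t1 k), t2⟩
    exact ⟨Q, hχ, fun x' => q1 x' ▸ hx, fun h => (qS.false h.some).elim,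
      fun _ => Or.inl ⟨x, hx⟩⟩

end Pool.Agent.MP_6374aa_gt
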