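import Pool.Agent.MP_6374aa_gt.PosAlgA

/-! The compressed cone has trivial phase. -/

namespace Pool.Agent.MP_6374aa_gt

open Classical Matrix

noncomputable section

/-- The pointwise comparison of the two determinants. -/
theorem pt_PosAlg (hP : Pos2Stmt) {C : Type} [CommGroup C] [Fintype C] {I J W K : Type}
    [Fintype I] [DecidableEq I] [Fintype J] [DecidableEq J] [Fintype W] [DecidableEq W]
    [Fintype K] [DecidableEq K] (Ψ : Matrix (J ⊕ W) (I ⊕ W) (RC C)) (e : Matrix W W (RC C))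
    (X : Matrix W K (RH C)) (Y : Matrix K W (RH C)) (ε : I ≃ J)
    (hXY : X * Y = e.map (evH C)) (hYX : Y * X = 1)
    (h1 : (fromBlocks 1 0 0 eᴴ : Matrix (J ⊕ W) (J ⊕ W) (RC C)) * Ψ = Ψ)
    (h2 : Ψ * (fromBlocks 1 0 0 e : Matrix (I ⊕ W) (I ⊕ W) (RC C)) = Ψ)
    (hv : InP (evH C (det ((Ψ + fromBlocks 0 0 0 ((1 - eᴴ) * (1 - eᴴ)ᴴ)).submatrix
      (ε.sumCongr (Equiv.refl W)) id)))) :
    InP (det (((fromBlocks 1 0 0 Xᴴ : Matrix (J ⊕ K) (J ⊕ W) (RH C)) * Ψ.map (evH C) *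
      (fromBlocks 1 0 0 X : Matrix (I ⊕ W) (I ⊕ K) (RH C))).submatrix
        (ε.sumCongr (Equiv.refl K)) id)) := by
  obtain ⟨g, s, hs, hv⟩ := hv
  refine ⟨g, s, hs, fun χ => ?_⟩
  obtain ⟨r', hr', hv⟩ := hv χ
  let π : RH C →+* ℂ := Pi.evalRingHom (fun _ : Chr C => ℂ) χ
  let φ : RC C →+* ℂ := evc χ.1
  have hφ : ∀ {a b : Type} (M : Matrix a b (RC C)), (M.map (evH C)).map π = M.map φ := by
    intro a b M
    rfl
  have hφs : ∀ {a b : Type} (M : Matrix a b (RC C)), Mᴴ.map φ = (M.map φ)ᴴ := by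
    intro a b M
    ext i j
    simp only [map_apply, conjTranspose_apply]
    exact evc_star χ.1 _
  have hπs : ∀ {a b : Type} (M : Matrix a b (RH C)), Mᴴ.map π = (M.map π)ᴴ := by
    intro a b M
    rfl
  have hb : ∀ {S a b c : Type} [CommRing S] [DecidableEq a] (f : S →+* ℂ) (M : Matrix b c S),
      (fromBlocks 1 0 0 M : Matrix (a ⊕ b) (a ⊕ c) S).map f = fromBlocks 1 0 0 (M.map f) := by
    intro S a b c _ _ f M
    simp [fromBlocks_map, Matrix.map_one f (map_zero f) (map_one f),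
      Matrix.map_zero f (map_zero f)]
  obtain ⟨r, hr, hd⟩ := hP I J W K (Ψ.map φ) (eᴴ.map φ) (X.map π) (Y.map π) ε
    (by rw [← Matrix.map_mul, hXY, hφ, hφs, conjTranspose_conjTranspose])
    (by rw [← Matrix.map_mul, hYX, Matrix.map_one π (map_zero π) (map_one π)])
    (by rw [oe, ← hb φ, ← Matrix.map_mul, h1])
    (by rw [oe, hφs, conjTranspose_conjTranspose, ← hb φ, ← Matrix.map_mul, h2])
  refine ⟨r * r', mul_pos hr hr', ?_⟩
  have e1 : evH C (det ((Ψ + fromBlocks 0 0 0 ((1 - eᴴ) * (1 - eᴴ)ᴴ)).submatrix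
      (ε.sumCongr (Equiv.refl W)) id)) χ =
      det ((Ψ.map φ + ze J I ((1 - eᴴ.map φ) * (1 - eᴴ.map φ)ᴴ)).submatrix
        (ε.sumCongr (Equiv.refl W)) id) := by
    change φ _ = _
    rw [RingHom.map_det]
    congr 1
    have : (1 - eᴴ.map φ) = (1 - eᴴ).map φ := by
      rw [Matrix.map_sub _ (map_sub φ), Matrix.map_one φ (map_zero φ) (map_one φ)]
    rw [this, ← hφs, ← Matrix.map_mul]
    generalize (1 - eᴴ) * (1 - eᴴ)ᴴ = G
    ext i j
    rcases i with i | i <;> rcases j with j | j <;> simp [ze]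
  have e2 : det (((fromBlocks 1 0 0 Xᴴ : Matrix (J ⊕ K) (J ⊕ W) (RH C)) * Ψ.map (evH C) *
      (fromBlocks 1 0 0 X : Matrix (I ⊕ W) (I ⊕ K) (RH C))).submatrix
        (ε.sumCongr (Equiv.refl K)) id) χ =
      det (((fromBlocks 1 0 0 (X.map π) : Matrix (J ⊕ W) (J ⊕ K) ℂ)ᴴ * Ψ.map φ *
        (fromBlocks 1 0 0 (X.map π) : Matrix (I ⊕ W) (I ⊕ K) ℂ)).submatrix
          (ε.sumCongr (Equiv.refl K)) id) := by
    refine (RingHom.map_det π _).trans ?_
    rw [RingHom.mapMatrix_apply, ← submatrix_map, Matrix.map_mul,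
      Matrix.map_mul, hb, hb, hφ, hπs, fromBlocks_conjTranspose]
    simp
  rw [e2, hd, ← e1, hv]
  push_cast
  ring

theorem posAlg (hP : Pos2Stmt) (hE : TorExStmt) : PosAlgStmt := by
  intro C _ _ _ B I I' W K _ _ _ _ _ _ _ _ β B0 ρ pI pI' pW deg deg' D Φ Wm D' Z e h X Y hI hI' hcx
    hh hdh hhh heh hhe hee hW hZ hctl hV hXY hYX
  have hec : econe I I' e = q4_PosAlg I I' e eᴴ := rfl
  rw [hec] at hdh heh hhe
  set d := cone D Φ Wm D' Z with hd
  set ep := q4_PosAlg I I' e eᴴ with hep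
  have hde : d * ep = d := by
    have := q4_cone_PosAlg (1 : Matrix W W (RC C)) 1 e eᴴ D Φ Wm D' Z
    rwa [q4_one_PosAlg, Matrix.one_mul, hW, hZ] at this
  have hed : ep * d = d := by
    have := q4_cone_PosAlg e eᴴ (1 : Matrix W W (RC C)) 1 D Φ Wm D' Z
    rwa [q4_one_PosAlg, Matrix.mul_one, fromBlocks_one, Matrix.mul_one, Matrix.mul_one] at this
  set In := q4_PosAlg I I' X Yᴴ with hIn
  set Out := q4_PosAlg I I' Y Xᴴ with hOut
  have hOI : Out * In = 1 := by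
    rw [q4_mul_PosAlg, ← conjTranspose_mul, hYX, conjTranspose_one, q4_one_PosAlg]
  have hIO : In * Out = ep.map (evH C) := by
    rw [q4_mul_PosAlg, ← conjTranspose_mul, hXY, q4_map_PosAlg, map_evH_conj]
  have hK : cone (D.map (evH C)) (Φ.map (evH C)) (Wm.map (evH C) * fromBlocks X 0 0 Yᴴ)
      (D'.map (evH C)) (Z.map (evH C) * fromBlocks X 0 0 Yᴴ) = Out * d.map (evH C) * In := by
    rw [cone_map_PosAlg, q4_cone_PosAlg]
  rw [hK]
  have hmul : ∀ a b : Matrix (I ⊕ (I' ⊕ (W ⊕ W))) (I ⊕ (I' ⊕ (W ⊕ W))) (RC C),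
      Out * a.map (evH C) * In * (Out * b.map (evH C) * In) =
        Out * (a * ep * b).map (evH C) * In := by
    intro a b
    rw [Matrix.map_mul, Matrix.map_mul, ← hIO]
    simp only [Matrix.mul_assoc]
  have hne : ∀ (a : Matrix (I ⊕ (I' ⊕ (W ⊕ W))) (I ⊕ (I' ⊕ (W ⊕ W))) (RC C)) i j,
      (Out * a.map (evH C) * In) i j ≠ 0 → ∃ k l, a k l ≠ 0 ∧
        dcone deg deg' (d23 K) i = dcone deg deg' (d23 W) k ∧
        dcone deg deg' (d23 W) l = dcone deg deg' (d23 K) j := by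
    intro a i j hij
    obtain ⟨k, l, h1, h2, h3⟩ := mul3_ne_PosAlg _ _ _ i j hij
    refine ⟨k, l, fun h0 => h2 ?_, q4_deg_PosAlg deg deg' _ _ _ _ h1,
      q4_deg_PosAlg deg deg' _ _ _ _ h3⟩
    rw [map_apply, h0, map_zero]
  have hcxK : IsCx (dcone deg deg' (d23 K)) (Out * d.map (evH C) * In) := by
    constructor
    · intro i j hij
      obtain ⟨k, l, h1, h2, h3⟩ := hne d i j hij
      rw [h2, ← h3]
      exact hcx.1 k l h1
    · rw [hmul, hde, hcx.2, Matrix.map_zero _ (map_zero _), Matrix.mul_zero, Matrix.zero_mul]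
  have hctK : IsCtr (dcone deg deg' (d23 K)) (Out * d.map (evH C) * In)
      (Out * h.map (evH C) * In) := by
    constructor
    · intro i j hij
      obtain ⟨k, l, h1, h2, h3⟩ := hne h i j hij
      rw [h2, ← h3]
      exact hh k l h1
    · rw [hmul, hmul, hde, hhe, ← Matrix.add_mul, ← Matrix.mul_add,
        ← Matrix.map_add _ (map_add _), hdh, ← hIO, ← Matrix.mul_assoc, hOI, Matrix.one_mul, hOI]
  refine ⟨hcxK, ?_⟩
  obtain ⟨ε1⟩ := hE (RH C) _ _ _ _ hcxK hctK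
  have hcard : Fintype.card (Io_PosAlg deg deg') = Fintype.card (Ie_PosAlg deg deg') := by
    have := Fintype.card_congr ((eqL_PosAlg (sg_PosAlg deg deg' K) _ (sg_odd_PosAlg deg deg' K)
      (sg_even_PosAlg deg deg' K)).trans (ε1.trans (eqR_PosAlg (sg_PosAlg deg deg' K) _
      (sg_odd_PosAlg deg deg' K) (sg_even_PosAlg deg deg' K)).symm))
    simpa only [Fintype.card_sum, add_left_inj] using this
  let ε0 := Fintype.equivOfCardEq hcard
  refine ⟨_, ?_, isTor_PosAlg (sg_PosAlg deg deg' K) _ (sg_odd_PosAlg deg deg' K)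
    (sg_even_PosAlg deg deg' K) _ _ hctK (ε0.sumCongr (Equiv.refl K))⟩
  rw [← Matrix.add_mul, ← Matrix.mul_add, ← Matrix.map_add _ (map_add _), q4_blk_PosAlg,
    submatrix_map]
  set σ := sg_PosAlg deg deg' W with hσ
  have hoo : (d + h).submatrix (σ ∘ Sum.inl) (σ ∘ Sum.inl) = 0 := by
    refine Matrix.ext fun i j => ?_
    exact par_PosAlg hcx.1 hh _ _ (iff_of_true (sg_odd_PosAlg deg deg' W i)
      (sg_odd_PosAlg deg deg' W j))
  have hee' : (d + h).submatrix (σ ∘ Sum.inr) (σ ∘ Sum.inr) = 0 := by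
    refine Matrix.ext fun i j => ?_
    exact par_PosAlg hcx.1 hh _ _ (iff_of_false (sg_even_PosAlg deg deg' W i)
      (sg_even_PosAlg deg deg' W j))
  have hsq : (d + h) * (d + h) = ep := by
    rw [Matrix.add_mul, Matrix.mul_add, Matrix.mul_add, hcx.2, hhh, zero_add, add_zero, hdh]
  have hMe : (d + h) * ep = d + h := by rw [Matrix.add_mul, hde, hhe]
  have heM : ep * (d + h) = d + h := by rw [Matrix.mul_add, hed, heh]
  have a1 := splitS_PosAlg σ (d + h) (d + h) (σ ∘ Sum.inl) (σ ∘ Sum.inl)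
  rw [hsq, hoo, Matrix.zero_mul, zero_add, q4_oo_PosAlg] at a1
  have a2 := splitS_PosAlg σ (d + h) (d + h) (σ ∘ Sum.inr) (σ ∘ Sum.inr)
  rw [hsq, hee', Matrix.zero_mul, add_zero, q4_ee_PosAlg] at a2
  have a3 := splitS_PosAlg σ (d + h) ep (σ ∘ Sum.inr) (σ ∘ Sum.inl)
  rw [hMe, hee', Matrix.zero_mul, add_zero, q4_oo_PosAlg] at a3
  have a4 := splitS_PosAlg σ (d + h) ep (σ ∘ Sum.inl) (σ ∘ Sum.inr)
  rw [hMe, hoo, Matrix.zero_mul, zero_add, q4_ee_PosAlg] at a4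
  have a5 := splitS_PosAlg σ ep (d + h) (σ ∘ Sum.inr) (σ ∘ Sum.inl)
  rw [heM, hoo, Matrix.mul_zero, zero_add, q4_ee_PosAlg] at a5
  refine pt_PosAlg hP _ e X Y ε0 hXY hYX a5.symm a3.symm ?_
  let p0 : I ⊕ I' → B := Sum.elim pI pI'
  have hp0 : ∀ i, p0 i ∈ B0 := by
    rintro (i | i)
    · exact hI i
    · exact hI' i
  have po : ∀ i, Sum.elim pI (Sum.elim pI' (Sum.elim pW pW)) (σ (Sum.inl i)) =
      Sum.elim (fun a : Io_PosAlg deg deg' => p0 a.1) pW i := by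
    rintro (⟨i | i, hi⟩ | i) <;> rfl
  have pe : ∀ i, Sum.elim pI (Sum.elim pI' (Sum.elim pW pW)) (σ (Sum.inr i)) =
      Sum.elim (fun a : Ie_PosAlg deg deg' => p0 a.1) pW i := by
    rintro (⟨i | i, hi⟩ | i) <;> rfl
  refine hV _ _ (fun a : Io_PosAlg deg deg' => p0 a.1) (fun a : Ie_PosAlg deg deg' => p0 a.1)
    (fun a => hp0 _) (fun a => hp0 _) _ ((d + h).submatrix (σ ∘ Sum.inl) (σ ∘ Sum.inr)) ?_ ?_ ?_
    a2.symm ?_ a4.symm ε0
  · intro j i g hg
    rw [← po, ← pe]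
    exact hctl _ _ g hg
  · intro j i g hg
    rw [← po, ← pe]
    exact hctl _ _ g hg
  · rw [conjTranspose_conjTranspose]
    exact a1.symm
  · rw [conjTranspose_conjTranspose]
    exact a3.symm

end

end Pool.Agent.MP_6374aa_gt
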