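import Pool.Agent.MP_6374aa_gt.IfP

/-! Determinants of positive completions. -/

namespace Pool.Agent.MP_6374aa_gt

open Matrix
open scoped ComplexOrder

section

variable {m n I J W K : Type} [Fintype m] [DecidableEq m] [Fintype n] [DecidableEq n] [Fintype I]
  [DecidableEq I] [Fintype W] [DecidableEq W] [Fintype K] [DecidableEq K]

omit [DecidableEq m] in
lemma gram_PosS (Z : Matrix m n ℂ) (L : Matrix n m ℂ) (h : L * Z = 1) :
    ∃ r : ℝ, 0 < r ∧ det (Zᴴ * Z) = r := by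
  have hinj : Function.Injective Z.mulVec := fun a b e => by
    have := congrArg L.mulVec e
    rwa [mulVec_mulVec, mulVec_mulVec, h, one_mulVec, one_mulVec] at this
  have hp := (Matrix.PosDef.conjTranspose_mul_self Z hinj).det_pos
  obtain ⟨h1, h2⟩ := Complex.pos_iff.1 hp
  exact ⟨_, h1, Complex.ext rfl h2.symm⟩

lemma cong_PosS (R : Matrix m n ℂ) (L : Matrix n m ℂ) (h : L * R = 1) (τ : n ≃ m)
    (N : Matrix m m ℂ) : ∃ r : ℝ, 0 < r ∧ det (Rᴴ * N * R) = r * det N := by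
  have h1 : L.submatrix id τ * R.submatrix τ id = 1 := by
    rw [submatrix_mul_equiv, h, submatrix_id_id]
  have h2 : det (R.submatrix τ id) ≠ 0 := fun e => by
    have := congrArg det h1
    rw [det_mul, e, mul_zero, det_one] at this
    exact zero_ne_one this
  have h3 : Rᴴ * N * R = (R.submatrix τ id)ᴴ * N.submatrix τ τ * R.submatrix τ id := by
    rw [conjTranspose_submatrix, submatrix_mul_equiv, submatrix_mul_equiv, submatrix_id_id]
  refine ⟨Complex.normSq (det (R.submatrix τ id)), Complex.normSq_pos.2 h2, ?_⟩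
  rw [h3, det_mul, det_mul, det_conjTranspose, det_submatrix_equiv_self,
    Complex.normSq_eq_conj_mul_self, Complex.star_def]
  ring

lemma core_PosS (A : Matrix I I ℂ) (B : Matrix I W ℂ) (C : Matrix W I ℂ) (D g : Matrix W W ℂ)
    (X : Matrix W K ℂ) (Y : Matrix K W ℂ) (h1 : X * Y + g = 1) (h2 : Y * X = 1) (hB : B * g = 0)
    (hD : D * g = 0) : ∃ r : ℝ, 0 < r ∧ det (fromBlocks A (B * X) (Xᴴ * C) (Xᴴ * D * X)) =
      r * det (fromBlocks A B C (D + gᴴ * g)) := by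
  have hg : g = 1 - X * Y := eq_sub_of_add_eq' h1
  have gX : g * X = 0 := by
    rw [hg, Matrix.sub_mul, Matrix.one_mul, Matrix.mul_assoc, h2, Matrix.mul_one, sub_self]
  have Yg : Y * g = 0 := by
    rw [hg, Matrix.mul_sub, Matrix.mul_one, ← Matrix.mul_assoc, h2, Matrix.one_mul, sub_self]
  have gg : g * g = g := by
    nth_rewrite 2 [hg]
    rw [Matrix.mul_sub, Matrix.mul_one, ← Matrix.mul_assoc, gX, Matrix.zero_mul, sub_zero]
  have Xg : Xᴴ * gᴴ = 0 := by rw [← conjTranspose_mul, gX, conjTranspose_zero]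
  have gg' : gᴴ * gᴴ = gᴴ := by rw [← conjTranspose_mul, gg]
  obtain ⟨τ⟩ : Nonempty ((I ⊕ K) ⊕ W ≃ (I ⊕ W) ⊕ K) :=
    ⟨Fintype.equivOfCardEq (by simp only [Fintype.card_sum]; ring)⟩
  obtain ⟨r, hr, e⟩ := cong_PosS
    (fromBlocks (fromBlocks 1 0 0 X) (fromRows 0 g) 0 Y : Matrix ((I ⊕ W) ⊕ K) ((I ⊕ K) ⊕ W) ℂ)
    (fromBlocks (fromBlocks 1 0 0 Y) 0 (fromCols 0 g) X) (by
      rw [fromBlocks_multiply, fromBlocks_multiply, fromBlocks_mul_fromRows,
        fromCols_mul_fromBlocks, fromCols_mul_fromRows]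
      simp [h2, gX, Yg, gg, add_comm g, h1]) τ
    (fromBlocks (fromBlocks A B C (D + gᴴ * g)) 0 0 1)
  obtain ⟨s, hs, e'⟩ := gram_PosS (fromRows g Y) (fromCols 1 X) (by
    rw [fromCols_mul_fromRows, Matrix.one_mul, add_comm, h1])
  rw [conjTranspose_fromRows_eq_fromCols_conjTranspose, fromCols_mul_fromRows] at e'
  have a1 : fromBlocks A B C (D + gᴴ * g) * (fromRows 0 g : Matrix (I ⊕ W) W ℂ) =
      fromRows 0 (gᴴ * g) := by
    rw [fromBlocks_mul_fromRows, Matrix.mul_zero, Matrix.mul_zero, zero_add, zero_add, hB,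
      Matrix.add_mul, hD, zero_add, Matrix.mul_assoc, gg]
  have a2 : (fromBlocks 1 0 0 X : Matrix (I ⊕ W) (I ⊕ K) ℂ)ᴴ *
      (fromRows 0 (gᴴ * g) : Matrix (I ⊕ W) W ℂ) = 0 := by
    rw [fromBlocks_conjTranspose, fromBlocks_mul_fromRows, ← Matrix.mul_assoc Xᴴ, Xg]
    simp
  have a3 : (fromRows 0 g : Matrix (I ⊕ W) W ℂ)ᴴ * (fromRows 0 (gᴴ * g) : Matrix (I ⊕ W) W ℂ) =
      gᴴ * g := by
    rw [conjTranspose_fromRows_eq_fromCols_conjTranspose, fromCols_mul_fromRows, Matrix.mul_zero,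
      zero_add, ← Matrix.mul_assoc, gg']
  have a4 : (fromBlocks 1 0 0 X : Matrix (I ⊕ W) (I ⊕ K) ℂ)ᴴ *
      (fromBlocks A B C (D + gᴴ * g) * (fromBlocks 1 0 0 X : Matrix (I ⊕ W) (I ⊕ K) ℂ)) =
      fromBlocks A (B * X) (Xᴴ * C) (Xᴴ * D * X) := by
    rw [fromBlocks_conjTranspose, fromBlocks_multiply, fromBlocks_multiply]
    simp [Matrix.add_mul, Matrix.mul_assoc, gX]
  rw [Matrix.mul_assoc, fromBlocks_multiply, fromBlocks_conjTranspose, fromBlocks_multiply] at e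
  simp only [Matrix.mul_zero, Matrix.zero_mul, add_zero, zero_add, Matrix.one_mul,
    conjTranspose_zero, a1, a2, a3, a4] at e
  rw [det_fromBlocks_zero₁₂, det_fromBlocks_zero₁₂, det_one, mul_one, e'] at e
  refine ⟨r / s, div_pos hr hs, ?_⟩
  have hs' : (s : ℂ) ≠ 0 := Complex.ofReal_ne_zero.2 hs.ne'
  rw [Complex.ofReal_div, div_mul_eq_mul_div, eq_div_iff hs', e]

end

lemma sub_PosS {I J W K : Type} (A : Matrix J I ℂ) (B : Matrix J K ℂ) (C : Matrix W I ℂ)
    (D : Matrix W K ℂ) (ε : I ≃ J) :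
    (fromBlocks A B C D).submatrix (ε.sumCongr (Equiv.refl W)) id =
      fromBlocks (A.submatrix ε id) (B.submatrix ε id) C D := by
  ext (i | i) (j | j) <;> rfl

theorem posS : PosStmt := by
  intro I J W K _ _ _ _ _ _ _ _ Ψ e X Y ε h1 h2 h3
  obtain ⟨r, hr, hS⟩ := gram_PosS Yᴴ Xᴴ (by rw [← conjTranspose_mul, h2, conjTranspose_one])
  rw [conjTranspose_conjTranspose] at hS
  refine ⟨r, hr, ?_⟩
  have he : e = 1 - X * Y := by rw [h1, sub_sub_cancel]
  have Ye : Y * e = 0 := by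
    rw [he, Matrix.mul_sub, Matrix.mul_one, ← Matrix.mul_assoc, h2, Matrix.one_mul, sub_self]
  have key : Ψ + ze J I ((1 - e) * (1 - e)ᴴ) =
      oe J (1 + X * ((Y * Yᴴ - 1) * Y)) * (Ψ + ze J I (X * Xᴴ)) := by
    rw [Matrix.mul_add]
    congr 1
    · nth_rewrite 2 [← h3]
      rw [← Matrix.mul_assoc, oe, oe, fromBlocks_multiply]
      simp only [Matrix.mul_zero, Matrix.zero_mul, add_zero, zero_add, Matrix.one_mul,
        Matrix.add_mul, Matrix.mul_assoc, Ye]
      exact h3.symm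
    · rw [oe, ze, ze, fromBlocks_multiply, ← h1, conjTranspose_mul]
      simp only [Matrix.mul_zero, Matrix.zero_mul, add_zero, zero_add, Matrix.one_mul,
        Matrix.add_mul, Matrix.mul_assoc]
      rw [← Matrix.mul_assoc Y X, h2, Matrix.one_mul, Matrix.sub_mul, Matrix.one_mul,
        Matrix.mul_sub, add_sub_cancel, Matrix.mul_assoc]
  rw [key, ← submatrix_mul_equiv _ _ _ (ε.sumCongr (Equiv.refl W)), det_mul,
    det_submatrix_equiv_self, oe, det_fromBlocks_zero₁₂, det_one, one_mul, det_one_add_mul_comm,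
    Matrix.mul_assoc, h2, Matrix.mul_one, add_sub_cancel, hS]

theorem pos2S : Pos2Stmt := by
  intro I J W K _ _ _ _ _ _ _ _ Ψ e X Y ε h1 h2 _ h4
  obtain ⟨A, B, C, D, rfl⟩ : ∃ A B C D, Ψ = fromBlocks A B C D :=
    ⟨_, _, _, _, (fromBlocks_toBlocks Ψ).symm⟩
  rw [oe, fromBlocks_multiply, fromBlocks_inj] at h4
  simp only [Matrix.mul_zero, zero_add] at h4
  obtain ⟨-, hB, -, hD⟩ := h4
  obtain ⟨r, hr, key⟩ := core_PosS (A.submatrix ε id) (B.submatrix ε id) C D (1 - e)ᴴ X Y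
    (by rw [h1, conjTranspose_sub, conjTranspose_one, add_sub_cancel]) h2
    (by
      have : B * (1 - e)ᴴ = 0 := by
        rw [conjTranspose_sub, conjTranspose_one, Matrix.mul_sub, Matrix.mul_one, hB, sub_self]
      exact congrArg (fun M => M.submatrix ε id) this)
    (by rw [conjTranspose_sub, conjTranspose_one, Matrix.mul_sub, Matrix.mul_one, hD, sub_self])
  refine ⟨r, hr, ?_⟩
  rw [conjTranspose_conjTranspose] at key
  rw [ze, fromBlocks_add, fromBlocks_conjTranspose, fromBlocks_multiply, fromBlocks_multiply,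
    sub_PosS, sub_PosS]
  simp only [Matrix.mul_zero, Matrix.zero_mul, add_zero, zero_add, Matrix.one_mul, Matrix.mul_one,
    conjTranspose_zero, conjTranspose_one]
  exact key

end Pool.Agent.MP_6374aa_gt
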