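import Pool.Agent.MP_6374aa_gt.IfG

/-! The combinatorial cover of a simply connected covering space is simply connected. -/

namespace Pool.Agent.MP_6374aa_gt

open Classical Topology

noncomputable section

/-- Joined points in one fibre of a covering of a simply connected space are equal. -/
theorem joined_SCov {Y E : Type} [TopologicalSpace Y] [TopologicalSpace E]
    [SimplyConnectedSpace E] {q : Y → E} (hq : IsCoveringMap q) {x y : Y} (h : Joined x y)
    (e : q y = q x) : x = y := by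
  obtain ⟨Γ⟩ := h
  let γ : _root_.Path (q x) (q x) := (Γ.map hq.continuous).cast rfl e.symm
  have h1 := hq.liftPath_apply_one_eq_of_homotopicRel
    (SimplyConnectedSpace.paths_homotopic γ (_root_.Path.refl (q x))) x γ.source rfl
  have h2 : (Γ : C(unitInterval, Y)) = hq.liftPath γ x γ.source :=
    (hq.eq_liftPath_iff' _).2 ⟨rfl, Γ.source⟩
  have h3 := hq.liftPath_const (e := x) rfl
  exact (((Γ.target.symm.trans (DFunLike.congr_fun h2 1)).trans h1).trans
    (DFunLike.congr_fun h3 1)).symm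

section

variable {W E L : Type} [TopologicalSpace E] [Group L] [TopologicalSpace L] [DiscreteTopology L]
  {K : SimpleGraph W} {S : Set W} {lab : W → W → L} {a : E → W} {N : E → Set E}

/-- The covering space given by a flat labelling. -/
def core_SCov (hl : Flat K S lab) (haS : ∀ e, a e ∈ S) (hN : ∀ e, N e ∈ 𝓝 e)
    (hA : ∀ e, ∀ e1 ∈ N e, ∀ e2 ∈ N e, Adq K (a e1) (a e2)) : FiberBundleCore E E L where
  baseSet i := interior (N i)
  isOpen_baseSet _ := isOpen_interior
  indexAt := id
  mem_baseSet_at x := mem_interior_iff_mem_nhds.2 (hN x)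
  coordChange i j x v := v * lab (a i) (a x) * lab (a x) (a j)
  coordChange_self i x hx v := by
    have h := hA i i (mem_of_mem_nhds (hN i)) x (interior_subset hx)
    rw [mul_assoc, hl _ (haS i) _ (haS x) _ (haS i) h h.symm (Adq.refl _ _), hl.self (haS i),
      mul_one]
  continuousOn_coordChange i j := by
    rcases (interior (N i) ∩ interior (N j)).eq_empty_or_nonempty with h | ⟨x, hi, hj⟩
    · simp [h]
    refine ContinuousOn.congr (f := fun p : E × L => p.2 * lab (a i) (a x) * lab (a x) (a j))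
      ((continuous_of_discreteTopology
        (f := fun v : L => v * lab (a i) (a x) * lab (a x) (a j))).comp
          continuous_snd).continuousOn ?_
    rintro ⟨y, v⟩ ⟨⟨hi', hj'⟩, -⟩
    have i0 := mem_of_mem_nhds (hN i)
    have j0 := mem_of_mem_nhds (hN j)
    have xi := interior_subset hi
    have xj := interior_subset hj
    have yi : y ∈ N i := interior_subset hi'
    have yj : y ∈ N j := interior_subset hj'
    simp only
    rw [← hl _ (haS i) _ (haS x) _ (haS y) (hA i _ i0 _ xi) (hA i _ xi _ yi) (hA i _ i0 _ yi),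
      ← hl _ (haS x) _ (haS y) _ (haS j) (hA j _ xj _ yj) (hA j _ yj _ j0) (hA j _ xj _ j0)]
    simp only [mul_assoc]
  coordChange_comp i j k x hx v := by
    have h := hA j j (mem_of_mem_nhds (hN j)) x (interior_subset hx.1.2)
    rw [mul_assoc (v * _), hl _ (haS x) _ (haS j) _ (haS x) h.symm h (Adq.refl _ _),
      hl.self (haS x), mul_one]

theorem half_SCov (hl : Flat K S lab) (haS : ∀ e, a e ∈ S) (hN : ∀ e, N e ∈ 𝓝 e)
    (hA : ∀ e, ∀ e1 ∈ N e, ∀ e2 ∈ N e, Adq K (a e1) (a e2)) (f : unitInterval → E)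
    (hf : Continuous f) {u : W} (hu : u ∈ S) (hfu : ∀ t, Adq K (a (f t)) u) (y : L) :
    Joined (⟨f 0, y * lab u (a (f 0))⟩ : (core_SCov hl haS hN hA).TotalSpace)
      ⟨f 1, y * lab u (a (f 1))⟩ := by
  refine ⟨⟨⟨fun t => ⟨f t, y * lab u (a (f t))⟩, ?_⟩, rfl, rfl⟩⟩
  rw [continuous_iff_continuousAt]
  intro t0
  rw [FiberBundle.continuousAt_totalSpace]
  refine ⟨hf.continuousAt, ?_⟩
  refine ContinuousAt.congr (f := fun _ => y * lab u (a (f t0))) continuousAt_const ?_
  filter_upwards [hf.continuousAt (hN (f t0))] with t ht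
  change y * lab u (a (f t0)) =
    y * lab u (a (f t)) * lab (a (f t)) (a (f t)) * lab (a (f t)) (a (f t0))
  rw [hl.self (haS _), mul_one, mul_assoc, hl _ hu _ (haS _) _ (haS _) (hfu t).symm
    (hA (f t0) _ ht _ (mem_of_mem_nhds (hN _))) (hfu t0).symm]

end

theorem loop_SCov {W E : Type} [TopologicalSpace E] [SimplyConnectedSpace E] {K : SimpleGraph W}
    {S : Set W} {a : E → W} (haS : ∀ e, a e ∈ S)
    (ha : ∀ e, ∃ N ∈ 𝓝 e, ∀ e1 ∈ N, ∀ e2 ∈ N, Adq K (a e1) (a e2)) (e : W → E)
    (he : ∀ u ∈ S, ∀ w ∈ S, Adq K u w → ∃ f g : unitInterval → E, Continuous f ∧ Continuous g ∧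
      f 0 = e u ∧ g 0 = e w ∧ f 1 = g 1 ∧ (∀ t, Adq K (a (f t)) u) ∧ ∀ t, Adq K (a (g t)) w)
    {u : W} {γ : Gp K S} (h : Path K S u u γ) : γ = 1 := by
  choose N hN hA using ha
  let _ : TopologicalSpace (Gp K S) := ⊥
  have : DiscreteTopology (Gp K S) := ⟨rfl⟩
  have hl := flat_gen K S
  have key : ∀ u w γ, Path K S u w γ → ∀ y : Gp K S,
      Joined (⟨e u, y * gen K S u (a (e u))⟩ : (core_SCov hl haS hN hA).TotalSpace)
        ⟨e w, y * γ * gen K S w (a (e w))⟩ := by
    intro u w γ hp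
    induction hp with
    | nil _ =>
      intro y
      rw [mul_one]
    | @cons u w z γ hu huw hp ih =>
      intro y
      obtain ⟨f, g, hf, hg, f0, g0, fg, hfu, hgw⟩ := he u hu w hp.mem_left huw
      have h1 := half_SCov hl haS hN hA f hf hu hfu y
      have h2 := half_SCov hl haS hN hA g hg hp.mem_left hgw (y * gen K S u w)
      rw [f0, fg, ← hl _ hu _ hp.mem_left _ (haS (g 1)) huw (hgw 1).symm (fg ▸ (hfu 1).symm),
        ← mul_assoc] at h1
      rw [g0] at h2
      rw [← mul_assoc]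
      exact (h1.trans h2.symm).trans (ih _)
  have h1 := joined_SCov (FiberBundle.isCoveringMap (F := Gp K S)
    (E := (core_SCov hl haS hN hA).Fiber)) (key u u γ h 1) rfl
  have h2 : (1 : Gp K S) * gen K S u (a (e u)) = 1 * γ * gen K S u (a (e u)) :=
    eq_of_heq (Bundle.TotalSpace.mk.inj h1).2
  rw [one_mul, one_mul] at h2
  exact (mul_eq_right.1 h2.symm)

/-- Half of the standard edge. -/
def seg_SCov (k : Bool) (t : unitInterval) : Rl (⊤ : SimpleGraph Bool) Set.univ :=
  ⟨fun j => if j = k then 1 - t.1 / 2 else t.1 / 2, fun j => by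
    have h0 := t.2.1
    have h1 := t.2.2
    simp only
    split_ifs <;> linarith, by cases k <;> simp, fun _ _ => trivial, fun u v _ _ => by
    by_cases h : u = v
    exacts [Or.inl h, Or.inr h]⟩

theorem seg_cont_SCov (k : Bool) : Continuous (seg_SCov k) := by
  refine Continuous.subtype_mk (continuous_pi fun j => ?_) _
  split_ifs <;> fun_prop

theorem seg_one_SCov (k : Bool) : seg_SCov k 1 = seg_SCov true 1 := by
  refine Subtype.ext (funext fun j => ?_)
  cases k <;> cases j <;> norm_num [seg_SCov]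

theorem seg_pos_SCov (k : Bool) (t : unitInterval) : 0 < (seg_SCov k t).1 k := by
  have h1 := t.2.2
  simp only [seg_SCov, if_true]
  linarith

theorem sCov (hV : VertexStmt) (hL : LiftMapStmt) : SCovStmt := by
  intro V E Λ _ G A _ _ _ _ p lab sh hS hne
  obtain ⟨a, haS, ha, hap, hc⟩ := hV V E Λ G A p lab sh hS
  refine ⟨hc inferInstance hne, ?_⟩
  let P : V × Λ → E → Prop := fun u e =>
    (∀ v, (p e).1 v = if u.1 = v then 1 else 0) ∧ sh e u.1 = u.2
  have uniq : ∀ u e e', P u e → P u e' → e = e' := by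
    rintro u e e' ⟨h1, h2⟩ ⟨h3, h4⟩
    obtain ⟨g, rfl⟩ := (hS.orbit e e').1 (Subtype.ext (funext fun v => (h1 v).trans (h3 v).symm))
    rw [hS.smul g e' u.1 (by simp [h3]), h4, mul_eq_left, inv_eq_one] at h2
    rw [h2, one_smul]
  have edge : ∀ i : Bool → V × Λ, (∀ k, i k ∈ up A Λ) → Adq (cov G lab Λ) (i false) (i true) →
      ∃ f : Bool → unitInterval → E, (∀ k, Continuous (f k) ∧ P (i k) (f k 0) ∧
        ∀ t, Adq (cov G lab Λ) (a (f k t)) (i k)) ∧ f false 1 = f true 1 := by
    intro i hi hadq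
    obtain ⟨b, hb, hbi⟩ := hL V E Λ Bool G A p lab sh ⊤ Set.univ i hS ⟨fun k _ => hi k, by
      rintro (_ | _) _ (_ | _) _ _
      exacts [Adq.refl _ _, hadq, hadq.symm, Adq.refl _ _]⟩
    refine ⟨fun k t => b (seg_SCov k t), fun k => ⟨hb.comp (seg_cont_SCov k), ⟨fun v => ?_,
      (hbi _).2 k (seg_pos_SCov k 0).ne'⟩, fun t => ?_⟩, by simp only [seg_one_SCov false]⟩
    · rw [(hbi _).1]
      cases k <;> simp [seg_SCov]
    · have h1 := hap (b (seg_SCov k t)) (i k).1 (by
        rw [(hbi _).1]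
        refine (Finset.sum_pos' (fun j _ => ?_) ⟨k, Finset.mem_univ _, ?_⟩).ne'
        · split_ifs
          exacts [(seg_SCov k t).2.1 j, le_rfl]
        · rw [if_pos rfl]
          exact seg_pos_SCov k t)
      rwa [(hbi _).2 k (seg_pos_SCov k t).ne'] at h1
  have hex : ∀ u ∈ up A Λ, ∃ e, P u e := fun u hu => by
    obtain ⟨f, hf, -⟩ := edge (fun _ => u) (fun _ => hu) (Adq.refl _ _)
    exact ⟨_, (hf true).2.1⟩
  choose! e he using hex
  intro u γ h
  refine loop_SCov haS ha e (fun u hu w hw huw => ?_) h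
  obtain ⟨f, hf, h1⟩ := edge (fun k => cond k w u) (by rintro (_ | _); exacts [hu, hw]) huw
  exact ⟨f false, f true, (hf false).1, (hf true).1, uniq u _ _ (hf false).2.1 (he u hu),
    uniq w _ _ (hf true).2.1 (he w hw), h1, (hf false).2.2, (hf true).2.2⟩

end

end Pool.Agent.MP_6374aa_gt
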