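import Pool.Agent.MP_6374aa_gt.IfM

/-! The relative complex of the second summand. -/

namespace Pool.Agent.MP_6374aa_gt

open Classical Matrix

noncomputable section

section Alg

variable {R Q K : Type} [CommRing R] [Fintype Q] [Fintype K]

/-- A vector from its four parts. -/
def v4_SideA (x : Q → R) (a b : K → R) (c : R) : (Q ⊕ K ⊕ K) ⊕ Unit → R :=
  Sum.elim (Sum.elim x (Sum.elim a b)) fun _ => c

omit [CommRing R] [Fintype Q] [Fintype K] in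
theorem exists_v4_SideA (X : (Q ⊕ K ⊕ K) ⊕ Unit → R) : ∃ x a b c, X = v4_SideA x a b c :=
  ⟨fun i => X (.inl (.inl i)), fun k => X (.inl (.inr (.inl k))),
    fun k => X (.inl (.inr (.inr k))), X (.inr ()), by
    ext ((i | k | k) | u) <;> rfl⟩

omit [Fintype Q] [Fintype K] in
theorem v4_zero_SideA : v4_SideA (0 : Q → R) (0 : K → R) 0 0 = 0 := by
  ext ((i | k | k) | u) <;> rfl

theorem mv_SideA (d : Matrix Q Q R) (Z Y : Matrix Q K R) (m : Q → R) (μ : K → R) (x : Q → R)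
    (a b : K → R) (c : R) :
    (ext1 (cx2 d Z Y) (Sum.elim m (Sum.elim 0 μ))).mulVec (v4_SideA x a b c) =
      v4_SideA (d.mulVec x + Z.mulVec a + Y.mulVec b + c • m) 0 (c • μ) 0 := by
  ext ((i | k | k) | u) <;>
    simp [v4_SideA, ext1, cx2, mulVec, dotProduct, Fintype.sum_sum_type, mul_comm, add_assoc]

theorem dg_mulVec_SideA {deg : Q → ℕ} {n : ℕ} {A : Matrix Q K R}
    (h : ∀ i j, deg i ≠ n → A i j = 0) (μ : K → R) : Dg deg n (A.mulVec μ) := by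
  intro i hi
  simp [mulVec, dotProduct, h i _ hi]

variable [DecidableEq Q] [DecidableEq K]

theorem cx_SideA {deg : Q → ℕ} {d : Matrix Q Q R} {Z Y : Matrix Q K R} {m : Q → R} {μ : K → R}
    (hd : IsCx deg d) (hZ : ∀ i j, deg i ≠ 1 → Z i j = 0) (hY : ∀ b, Dg deg 2 (Y.mulVec b))
    (hm : Dg deg 3 m) (dZ : d * Z = 0) (dY : ∀ b, d.mulVec (Y.mulVec b) = 0)
    (e : d.mulVec m + Y.mulVec μ = 0) :
    IsCx (dg4 (Sum.elim deg (d23 K))) (ext1 (cx2 d Z Y) (Sum.elim m (Sum.elim 0 μ))) := by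
  constructor
  · rintro ((i | k | k) | u) ((j | l | l) | w) h
    · exact hd.1 i j h
    · exact congrArg (· + 1) (by_contra fun hi => h (hZ i l (Ne.symm hi)) : 1 = deg i)
    · refine congrArg (· + 1) (by_contra fun hi => h ?_ : 2 = deg i)
      have := hY (Pi.single l 1) i (Ne.symm hi)
      rw [mulVec_single_one] at this
      exact this
    · exact congrArg (· + 1) (by_contra fun hi => h (hm i (Ne.symm hi)) : 3 = deg i)
    all_goals first | exact (h rfl).elim | rfl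
  · apply Matrix.toLin'.injective
    ext1
    ext1
    simp only [map_zero, LinearMap.comp_apply, LinearMap.zero_apply, toLin'_apply, ← mulVec_mulVec]
    obtain ⟨x, a, b, c, hX⟩ := exists_v4_SideA (R := R) (Q := Q) (K := K)
      (LinearMap.single R (fun _ => R) _ 1)
    rw [hX, mv_SideA, mv_SideA, ← v4_zero_SideA]
    congr 1
    · have h1 : d.mulVec (c • m) + Y.mulVec (c • μ) = 0 := by
        rw [mulVec_smul, mulVec_smul, ← smul_add, e, smul_zero]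
      simp only [mulVec_add, mulVec_mulVec x, mulVec_mulVec a, hd.2, dZ, dY, zero_mulVec,
        mulVec_zero, zero_add, add_zero, zero_smul, h1]
    · exact zero_smul _ _

variable [StarRing R]

theorem exact_SideA {deg : Q → ℕ} {d : Matrix Q Q R} {Z A Y : Matrix Q K R} {m : Q → R}
    {μ : K → R} (hP : SideP deg d Z A) (hle : ∀ i, deg i ≤ 3)
    (h2 : ∀ x, Dg deg 2 x → d.mulVec x = 0 → ∃ y ν, x = d.mulVec y + Y.mulVec ν)
    (h3 : ∀ w lam, Dg deg 3 w → d.mulVec w + Y.mulVec lam = 0 → ∃ c : R, w = c • m ∧ lam = c • μ)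
    (h4 : ∀ c : R, c • m = 0 → c • μ = 0 → c = 0) (n : ℕ) (X : (Q ⊕ K ⊕ K) ⊕ Unit → R)
    (hX : Dg (dg4 (Sum.elim deg (d23 K))) n X)
    (h0 : (ext1 (cx2 d Z Y) (Sum.elim m (Sum.elim 0 μ))).mulVec X = 0) :
    ∃ W, (ext1 (cx2 d Z Y) (Sum.elim m (Sum.elim 0 μ))).mulVec W = X := by
  obtain ⟨x, a, b, c, rfl⟩ := exists_v4_SideA X
  rw [mv_SideA] at h0
  have e1 : d.mulVec x + Z.mulVec a + Y.mulVec b + c • m = 0 :=
    funext fun i => congrFun h0 (.inl (.inl i))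
  have e2 : c • μ = 0 := funext fun k => congrFun h0 (.inl (.inr (.inr k)))
  have hx : Dg deg n x := fun i hi => hX (.inl (.inl i)) hi
  have ha : 2 ≠ n → a = 0 := fun h => funext fun k => hX (.inl (.inr (.inl k))) h
  have hb : 3 ≠ n → b = 0 := fun h => funext fun k => hX (.inl (.inr (.inr k))) h
  have hc : 4 ≠ n → c = 0 := fun h => hX (.inr ()) h
  have hx0 : 4 ≤ n → x = 0 := fun h => funext fun i => hx i (by have := hle i; omega)
  rcases n with _ | _ | _ | _ | _ | n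
  · obtain ⟨y, -, rfl⟩ := hP.h0 x hx
    refine ⟨v4_SideA y 0 0 0, ?_⟩
    simp [mv_SideA, ha, hb, hc]
  · obtain ⟨ν, y, rfl⟩ := hP.sp x hx (by simpa [ha, hb, hc] using e1)
    refine ⟨v4_SideA y ν 0 0, ?_⟩
    simp [mv_SideA, ha, hb, hc, add_comm]
  · have e3 : d.mulVec x + Z.mulVec a = 0 := by simpa [hb, hc] using e1
    have e4 : a = 0 := by
      have := congrArg Aᴴ.mulVec e3
      simpa [mulVec_add, mulVec_mulVec, hP.dp.coc, hP.dp.pair] using this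
    obtain ⟨y, ν, rfl⟩ := h2 x hx (by simpa [e4] using e3)
    refine ⟨v4_SideA y 0 ν 0, ?_⟩
    simp [mv_SideA, e4, hb, hc]
  · obtain ⟨c', rfl, rfl⟩ := h3 x b hx (by simpa [ha, hc] using e1)
    refine ⟨v4_SideA 0 0 0 c', ?_⟩
    simp [mv_SideA, ha, hc]
  · have e3 : c = 0 := h4 c (by simpa [ha, hb, hx0] using e1) e2
    exact ⟨0, by simp [ha, hb, hx0, e3, v4_zero_SideA]⟩
  · exact ⟨0, by simp [ha, hb, hx0, hc, v4_zero_SideA]⟩

end Alg

variable {V L Q : Type} [Fintype L] [Fintype Q] {G : SimpleGraph V} {M : Set V} {v : V}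
  {lz : V → V → Zm} {ζ : EA V} {σL : L → Finset V} {σQ : Q → Finset V}

theorem evL_SideA (h : SideH G M v lz ζ σL σQ) {n : ℕ} {x : L → RC Zm} (hx : Dg (dgc σL) n x) :
    evT v lz σL x ∈ Ch (cov G lz Zm) (up (cst G M v) Zm) (n + 1) :=
  Ch_mono (up_lk_sub G M v Zm) _ (h.evL_mem hx)

theorem tool_SideA (h : SideH G M v lz ζ σL σQ) {n : ℕ} {x : Q → RC Zm}
    (hx : evT v lz σQ x ∈ Ch (cov G lz Zm) (up (cst G M v) Zm) (n + 1) ⊔
      Bd (cov G lz Zm) (up M Zm) (n + 1)) :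
    ∃ y, Dg (dgc σQ) (n + 1) y ∧ (tw v lz bD σQ σQ).mulVec y = x := by
  obtain ⟨c, hc, b, hb, e⟩ := Submodule.mem_sup.1 hx
  obtain ⟨W, hW, rfl⟩ := mem_Bd.1 hb
  obtain ⟨y, c', hy, hc', rfl⟩ := h.decomp hW
  refine ⟨y, hy, (sub_eq_zero.1 (h.eq_zero (n := n + 1) ?_)).symm⟩
  rw [map_add, h.bd_ev hy] at e
  have : evT v lz σQ (x - (tw v lz bD σQ σQ).mulVec y) =
      c + evT v lz σL ((tw v lz bD σL σQ).mulVec y) + bd c' := by
    rw [evT_sub, ← e]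
    abel
  rw [this]
  exact add_mem (add_mem hc (evL_SideA h (h.dg_d hy).2)) (bd_mem_Ch hc')

theorem sideA (hP : PidStmt) : SideAStmt := by
  intro V L Q _ _ _ G M v lz ζ σL σQ h hT
  refine hP Q _ _ h.isCx (fun x hx => tool_SideA h ?_) fun x hx h0 r hr y hy e => ?_
  · refine Ch_le_of (fun l hl _ hc => ?_) (h.ev_mem hx)
    obtain ⟨p, rfl⟩ := List.length_eq_one_iff.1 hl
    obtain ⟨n, γ, hγ⟩ := h.reach (hc.1 p (by simp))
    rw [wedge_cons, wedge_nil, mul_one, ← add_sub_cancel (vx (v, n)) (vx p)]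
    exact Submodule.add_mem_sup (vx_mem_GrA2 (Set.mem_insert _ _)) hγ.vx_sub_mem_Bd
  · have h1 := hT _ (h.ev_mem hx) (by
      rw [h.bd_ev (n := 0) hx, h0, evT_zero, zero_add]
      exact evL_SideA h (h.dg_d (n := 0) hx).2) r hr (by
      rw [← evT_smul, e, eq_sub_of_add_eq (h.bd_ev (n := 1) hy).symm, sub_eq_neg_add]
      exact Submodule.add_mem_sup (neg_mem (evL_SideA h (h.dg_d (n := 1) hy).2))
        (mem_Bd.2 ⟨_, h.ev_mem hy, rfl⟩))
    obtain ⟨y', -, e'⟩ := tool_SideA h h1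
    exact ⟨y', e'.symm⟩

/-- Cocycles can be normalised on the lifts of the star. -/
theorem norm_SideA (h : SideH G M v lz ζ σL σQ) {b : V × Zm → V × Zm → ℚ}
    (hb : Coc (cov G lz Zm) (up M Zm) b) (hf : FS (cov G lz Zm) (up M Zm) b) :
    ∃ β : Q → RC Zm, Dg (dgc σQ) 1 β ∧ (tw v lz bD σQ σQ)ᴴ.mulVec β = 0 ∧
      cap1 (etaL lz (lc ζ)) b - cap1 (etaL lz (lc ζ)) (ef (evT v lz σQ β)) ∈
        Bd (cov G lz Zm) (up M Zm) 3 := by
  let F : V × Zm → ℚ := fun p => if p ∈ up (cst G M v) Zm then b p (v, p.2) else 0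
  have hF : {p | p ∈ up M Zm ∧ F p ≠ 0}.Finite := by
    refine (hf.image Prod.fst).subset ?_
    rintro p ⟨hp, h0⟩
    by_cases hs : p ∈ up (cst G M v) Zm
    · simp only [F, if_pos hs] at h0
      rcases h.adq_centre hs with e | e
      · exact (h0 (by rw [← e]; exact hb.self p)).elim
      · exact ⟨(p, (v, p.2)), ⟨hp, h.mem, e, h0⟩, rfl⟩
    · exact (h0 (if_neg hs)).elim
  have hF' := fs_cob h.eta.lf hF
  obtain ⟨β, h1, h2, h3⟩ := h.exists_cocycle (hb.sub (coc_cob _ _ F)) (hf.sub hF') (by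
    intro p hp q hq hpq
    have e := h.same_sheet hp hq hpq
    have := hb.tri_CapA (r := (v, q.2)) (up_cst_sub h.mem hp) (up_cst_sub h.mem hq) h.mem
      (Or.inr hpq) (h.adq_centre hq) (e ▸ h.adq_centre hp)
    simp only [F, if_pos hp, if_pos hq, e]
    linarith)
  refine ⟨β, h1, h2, ?_⟩
  rw [cap1_congr h.eta.toEta0 h3, cap1_sub h.eta.toEta0 hf hF', sub_sub_cancel]
  exact cap1_cob_mem h.eta.toEta0 hF

theorem cob_SideA (h : SideH G M v lz ζ σL σQ) {γ : Q → RC Zm} (hγ : Dg (dgc σQ) 0 γ) :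
    cap1 (etaL lz (lc ζ)) (ef (evT v lz σQ ((tw v lz bD σQ σQ)ᴴ.mulVec γ))) ∈
      Bd (cov G lz Zm) (up M Zm) 3 := by
  rw [cap1_congr (b := fun p q => -sc (iv p (evT v lz σQ γ)) - -sc (iv q (evT v lz σQ γ)))
    h.eta.toEta0 fun p hp q hq hpq => by rw [(h.cob hγ).2 p hp q hq hpq]; ring]
  refine cap1_cob_mem (F := fun p => -sc (iv p (evT v lz σQ γ))) h.eta.toEta0
    ((iv_finite (evT v lz σQ γ)).subset fun p hp h0 => hp.2 ?_)
  simp only [h0, map_zero, neg_zero]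

theorem dA_SideA {R K : Type} [CommRing R] [StarRing R] [DecidableEq Q] [Fintype K]
    [DecidableEq K] {deg : Q → ℕ} {d : Matrix Q Q R} {Z A : Matrix Q K R}
    (h : DualPair deg d Z A) : dᴴ * A = 0 ∧ Zᴴ * A = 1 := by
  constructor
  · simpa using congrArg conjTranspose h.coc
  · simpa using congrArg conjTranspose h.pair

theorem sideC (hS : PDsurjStmt) : SideCStmt := by
  intro V L Q K _ _ _ _ _ G M v lz ζ σL σQ Z A h hP x hx h0
  have h1 : bd (evT v lz σQ x) ∈ Zy (cov G lz Zm) (up (cst G M v) Zm) 2 := by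
    refine mem_Zy.2 ⟨?_, bd_bd _⟩
    rw [h.bd_ev (n := 1) hx, h0, evT_zero, zero_add]
    exact evL_SideA h (h.dg_d (n := 1) hx).2
  obtain ⟨c, hc, e⟩ := mem_Bd.1 (h.star_acyclic le_rfl h1)
  obtain ⟨b, hb, hf, -, h2⟩ := hS _ _ _ _ _ h.eta subset_rfl (evT v lz σQ x - c) (mem_Zy.2
    ⟨sub_mem (h.ev_mem hx) (Ch_mono (up_cst_sub h.mem) _ hc), by rw [map_sub, e, sub_self]⟩)
  obtain ⟨β, b1, b2, b3⟩ := norm_SideA h hb hf
  obtain ⟨γ, hγ, e'⟩ := hP.cob (β - A.mulVec (Zᴴ.mulVec β))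
    (fun i hi => by rw [Pi.sub_apply, b1 i hi, dg_mulVec_SideA hP.dp.dA _ i hi, sub_zero])
    (by rw [mulVec_sub, b2, mulVec_mulVec, (dA_SideA hP.dp).1, zero_mulVec, sub_zero])
    (by rw [mulVec_sub, mulVec_mulVec (Zᴴ.mulVec β), (dA_SideA hP.dp).2, one_mulVec, sub_self])
  have h3 := cob_SideA h hγ
  rw [← e', evT_sub, cap1_ef_sub, h.cap_ev (A.mulVec _)] at h3
  obtain ⟨y, -, e''⟩ := tool_SideA h (n := 2)
    (x := x - (tw v lz (bG (lc ζ)) σQ σQ).mulVec (A.mulVec (Zᴴ.mulVec β))) (by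
      refine Submodule.mem_sup.2 ⟨_, add_mem hc (evL_SideA h (h.dg_g (A.mulVec (Zᴴ.mulVec β))).2),
        _, sub_mem (add_mem b3 h3) h2, ?_⟩
      rw [evT_sub]
      abel)
  exact ⟨y, Zᴴ.mulVec β, by rw [e'', ← mulVec_mulVec, sub_add_cancel]⟩

theorem dg_SideA (h : SideH G M v lz ζ σL σQ) {a : Q → RC Zm} (ha : Dg (dgc σQ) 1 a)
    (h0 : (tw v lz bD σQ σQ)ᴴ.mulVec a = 0) :
    (tw v lz bD σQ σQ).mulVec ((tw v lz (bG (lc ζ)) σQ σQ).mulVec a) = 0 := by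
  have h1 := bd_cap1 h.eta.toEta0 (ef_fs _ _ _) ((h.coc_iff ha).1 h0)
  rw [h.cap_ev, map_add, h.bd_ev (n := 1) (h.dg_g a).1, add_assoc] at h1
  refine h.eq_zero (n := 2) ?_
  rw [eq_neg_of_add_eq_zero_left h1]
  exact neg_mem (add_mem (evL_SideA h (h.dg_d (n := 1) (h.dg_g a).1).2)
    (bd_mem_Ch (evL_SideA h (h.dg_g a).2)))

theorem sideMat (hA : SideAStmt) (hB : SideBStmt) (hC : SideCStmt) (hD : SideDStmt)
    (hE : ExactStmt) (hX : TorExStmt) (hU : TorUniqStmt) (hZ : UnitStmt) : SideMatStmt := by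
  intro V L Q _ _ _ G M v lz ζ σL σQ h hT
  obtain ⟨K, _, _, Z, A, hP⟩ := hA V L Q G M v lz ζ σL σQ h hT
  obtain ⟨m, μ, hR⟩ := hB V L Q K G M v lz ζ σL σQ Z A h hP
  obtain ⟨h3, h4⟩ := hD V L Q K G M v lz ζ σL σQ Z A m μ h hP hR
  have hcx := cx_SideA (Y := tw v lz (bG (lc ζ)) σQ σQ * A) (μ := μ) hP.cx hP.dp.dZ
    (fun b => by rw [← mulVec_mulVec]; exact (h.dg_g _).1) hR.dg hP.dp.cyc (fun b => by
      rw [← mulVec_mulVec]
      exact dg_SideA h (dg_mulVec_SideA hP.dp.dA b)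
        (by rw [mulVec_mulVec, (dA_SideA hP.dp).1, zero_mulVec])) hR.e1
  obtain ⟨H, hH⟩ := hE _ _ _ _ hcx
    (exact_SideA hP h.dgc_le (hC V L Q K G M v lz ζ σL σQ Z A h hP) h3 h4)
  obtain ⟨e⟩ := hX _ _ _ _ _ hcx hH
  obtain ⟨u, hu⟩ : ∃ u, IsTor (dg4 (Sum.elim (dgc σQ) (d23 K))) (ext1 (cx2 (tw v lz bD σQ σQ) Z
      (tw v lz (bG (lc ζ)) σQ σQ * A)) (Sum.elim m (Sum.elim 0 μ))) u := ⟨_, H, hH, e, rfl⟩
  exact ⟨K, inferInstance, inferInstance, Z, A, m, μ, u, hP.dp, hR, hcx, hu,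
    hZ u (hU _ _ _ _ _ _ hcx hu hu).1⟩

end

end Pool.Agent.MP_6374aa_gt
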