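import Pool.Agent.MP_6374aa_gt.IfM

/-! The relative fundamental class of the second summand: existence and uniqueness. -/

namespace Pool.Agent.MP_6374aa_gt

open Classical Matrix

theorem iv_cap0_SideB {V : Type} {G : SimpleGraph V} {A : Set V} {η : V → EA V} (h : Eta0 G A η)
    {F : V → ℚ} (hF : {p | p ∈ A ∧ F p ≠ 0}.Finite) {u : V} (hu : u ∈ A)
    (hc : ∀ p ∈ A, G.Adj u p → F p = F u) : iv u (cap0 η F) = (4 * F u) • η u := by
  have h0 : iv u (η u) = 0 := by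
    by_contra h1
    exact G.irrefl (h.ne h1).2.2
  obtain ⟨s, hs⟩ : ∃ s : Finset V, ∀ p, p ∈ s ↔
      p = u ∨ (p ∈ A ∧ F p ≠ 0) ∨ iv p (η u) ≠ 0 :=
    ⟨insert u (hF.toFinset ∪ (iv_finite (η u)).toFinset), fun p => by simp⟩
  have h1 : ∀ p ∈ s, iv u (F p • (vx p * η p)) =
      (if p = u then F u • η u else 0) + F u • (vx p * iv p (η u)) := by
    intro p _
    rw [map_smul]
    by_cases hp : p = u
    · rw [hp, if_pos rfl, iv_vx_mul_self, h0, mul_zero, sub_zero, smul_zero, add_zero]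
    · rw [if_neg hp, zero_add, iv_vx_mul_ne hp, h.anti p u, mul_neg, neg_neg]
      by_cases h2 : iv p (η u) = 0
      · rw [h2, mul_zero, smul_zero, smul_zero]
      · rw [hc p (h.ne h2).2.1 (h.ne h2).2.2]
  rw [cap0_eq_sum s fun p h2 h3 => (hs p).2 (Or.inr (Or.inl
      ⟨by_contra fun h4 => h3 (h.out p h4), h2⟩)), map_sum, Finset.sum_congr rfl h1,
    Finset.sum_add_distrib, Finset.sum_ite_eq' s u, if_pos ((hs u).2 (Or.inl rfl)),
    ← Finset.smul_sum, sum_vx_iv (mem_Zy.1 (h.mem u hu)).1 s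
      fun p hp => (hs p).2 (Or.inr (Or.inr hp)), smul_smul, ← add_smul]
  congr 1
  push_cast
  ring

theorem ev_smul_SideB {V C I : Type} [CommGroup C] [Fintype I] {v0 : V} {lab : V → V → C}
    {σ : I → Finset V} (r : ℚ) (x : I → RC C) :
    evT v0 lab σ ((MonoidAlgebra.single 1 r : RC C) • x) = r • evT v0 lab σ x := by
  rw [evT_smul, actG_single, map_one, Equiv.Perm.coe_one, emap_id]

theorem dg_add_SideB {S I : Type} [CommRing S] {deg : I → ℕ} {n : ℕ} {x y : I → S}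
    (hx : Dg deg n x) (hy : Dg deg n y) : Dg deg n (x + y) := fun i hi => by
  rw [Pi.add_apply, hx i hi, hy i hi, add_zero]

theorem dg_sub_SideB {S I : Type} [CommRing S] {deg : I → ℕ} {n : ℕ} {x y : I → S}
    (hx : Dg deg n x) (hy : Dg deg n y) : Dg deg n (x - y) := fun i hi => by
  rw [Pi.sub_apply, hx i hi, hy i hi, sub_zero]

theorem dg_smul_SideB {S I : Type} [CommRing S] {deg : I → ℕ} {n : ℕ} {x : I → S} (c : S)
    (hx : Dg deg n x) : Dg deg n (c • x) := fun i hi => by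
  rw [Pi.smul_apply, hx i hi, smul_zero]

section Pair

variable {S I J : Type} [CommRing S] [StarRing S] [Fintype I] [DecidableEq I] [Fintype J]
  [DecidableEq J] {deg : I → ℕ} {D : Matrix I I S} {Z A : Matrix I J S}

omit [DecidableEq I] in
theorem pair_SideB (h : DualPair deg D Z A) (μ : J → S) : Dg deg 1 (A.mulVec μ) ∧
    Dᴴ.mulVec (A.mulVec μ) = 0 ∧ Zᴴ.mulVec (A.mulVec μ) = μ := by
  refine ⟨fun i hi => Finset.sum_eq_zero fun j _ => ?_, ?_, ?_⟩
  · change A i j * _ = 0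
    rw [h.dA i j hi, zero_mul]
  · have h1 := congrArg Matrix.conjTranspose h.coc
    rw [conjTranspose_mul, conjTranspose_conjTranspose, conjTranspose_zero] at h1
    rw [mulVec_mulVec, h1, zero_mulVec]
  · have h1 := congrArg Matrix.conjTranspose h.pair
    rw [conjTranspose_mul, conjTranspose_conjTranspose, conjTranspose_one] at h1
    rw [mulVec_mulVec, h1, one_mulVec]

end Pair

section Side

variable {V L Q K : Type} [Fintype L] [Fintype Q] [Fintype K] {G : SimpleGraph V} {M : Set V}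
  {v : V} {lz : V → V → Zm} {ζ : EA V} {σL : L → Finset V} {σQ : Q → Finset V}
  (h : SideH G M v lz ζ σL σQ)

include h

theorem split_SideB (A : Matrix Q K (RC Zm)) {w : Q → RC Zm} (hw : Dg (dgc σQ) 3 w)
    (μ : K → RC Zm) :
    bd (evT v lz σQ w) + cap1 (etaL lz (lc ζ)) (ef (evT v lz σQ (A.mulVec μ))) =
      evT v lz σQ ((tw v lz bD σQ σQ).mulVec w + (tw v lz (bG (lc ζ)) σQ σQ * A).mulVec μ) +
      evT v lz σL ((tw v lz bD σL σQ).mulVec w + (tw v lz (bG (lc ζ)) σL σQ * A).mulVec μ) := by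
  rw [h.bd_ev (n := 2) hw, h.cap_ev, evT_add, evT_add, mulVec_mulVec, mulVec_mulVec]
  abel

theorem dgL_SideB (A : Matrix Q K (RC Zm)) {w : Q → RC Zm} (hw : Dg (dgc σQ) 3 w)
    (μ : K → RC Zm) : Dg (dgc σL) 2
      ((tw v lz bD σL σQ).mulVec w + (tw v lz (bG (lc ζ)) σL σQ * A).mulVec μ) := by
  rw [← mulVec_mulVec]
  exact dg_add_SideB (h.dg_d (n := 2) hw).2 (h.dg_g _).2

omit [Fintype L] [Fintype Q] in
theorem dg_e_SideB : Dg (dgc σL) 2
    (fun l => (MonoidAlgebra.single 1 (cf (σL l) (iv v ζ)) : RC Zm)) := by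
  intro l hl
  have h1 : cf (σL l) (iv v ζ) = 0 := by
    by_contra h2
    have h3 := (cf_ne_zero (iv_mem_Ch (n := 3) v (mem_Zy.1 h.top).1) h2).1
    exact hl (by rw [dgc, h3])
  change MonoidAlgebra.single 1 (cf (σL l) (iv v ζ)) = 0
  rw [h1, MonoidAlgebra.single_zero]

theorem uniq_SideB (hI : PDinjStmt) [DecidableEq Q] [DecidableEq K] {Z A : Matrix Q K (RC Zm)}
    (hP : SideP (dgc σQ) (tw v lz bD σQ σQ) Z A) {w : Q → RC Zm} {lam : K → RC Zm}
    (hw : Dg (dgc σQ) 3 w)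
    (e1 : (tw v lz bD σQ σQ).mulVec w + (tw v lz (bG (lc ζ)) σQ σQ * A).mulVec lam = 0)
    (e2 : (tw v lz bD σL σQ).mulVec w + (tw v lz (bG (lc ζ)) σL σQ * A).mulVec lam = 0) :
    w = 0 ∧ lam = 0 := by
  obtain ⟨p1, p2, p3⟩ := pair_SideB hP.dp lam
  have hs := split_SideB h A hw lam
  rw [e1, e2, evT_zero, evT_zero, add_zero] at hs
  have hW : -evT v lz σQ w ∈ Ch (cov G lz Zm) (up M Zm) 4 := neg_mem (h.ev_mem hw)
  obtain ⟨F, f1, -, f3, f4⟩ := hI _ _ _ _ _ _ h.eta ((h.coc_iff p1).1 p2) (ef_fs _ _ _) hW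
    (by rw [map_neg]; exact eq_neg_of_add_eq_zero_right hs)
  have hc : ∀ n : Zm, (v, n) ∈ up (cst G M v) Zm := fun n => Set.mem_insert _ _
  have hm : ∀ n : Zm, (v, n) ∈ up M Zm := fun n => h.mem
  have g1 : ∀ n : Zm, F (v, n) = 0 := by
    intro n
    have h1 := f4 _ (hm n) fun q hq hpq =>
      h.ef_star _ (hc n) (up_lk_sub G M v Zm (h.mem_star hq hpq).1)
    rw [map_neg, h.iv_centre, neg_zero] at h1
    have h2 := (smul_eq_zero.1 h1.symm).resolve_right (h.eta.ne _ (hm n))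
    linarith
  have g2 : ∀ p ∈ up (cst G M v) Zm, F p = 0 := by
    intro p hp
    rcases h.adq_centre hp with e | e
    · rw [e]
      exact g1 _
    · have h1 := f3 p (up_cst_sub h.mem hp) _ (hm p.2) e
      rw [h.ef_star _ hp (hc _), g1] at h1
      linarith
  obtain ⟨g, k1, k2⟩ := h.exists_fun (F := F) (f1.subset fun p hp => hp.2) g2
  obtain ⟨k3, k4⟩ := h.cob k1
  have k5 : A.mulVec lam = -(tw v lz bD σQ σQ)ᴴ.mulVec g := by
    refine h.eq_of_ef p1 (fun i hi => by rw [Pi.neg_apply, k3 i hi, neg_zero]) fun p hp q hq e => ?_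
    rw [evT_neg, ef_neg, k4 p hp q hq e, k2 p hp, k2 q hq, f3 p hp q hq e, neg_sub]
  have k6 : lam = 0 := by
    rw [← p3, k5, mulVec_neg, mulVec_mulVec, ← conjTranspose_mul, hP.dp.cyc, conjTranspose_zero,
      zero_mulVec, neg_zero]
  refine ⟨?_, k6⟩
  rw [k6, mulVec_zero, evT_zero] at f3 f4
  have g3 := h.const_zero (F := F)
    (fun p hp q hq e => sub_eq_zero.1 ((f3 p hp q hq e).symm.trans (ef_zero p q))) g1
  have g4 : -evT v lz σQ w = 0 := eq_zero_of_iv hW fun p hp => by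
    rw [f4 p hp fun q _ _ => ef_zero p q, g3 p hp, mul_zero, zero_smul]
  refine h.eq_zero (n := 0) ?_
  rw [neg_eq_zero.1 g4]
  exact Submodule.zero_mem _

end Side

theorem sideB : SideBStmt := by
  intro V L Q K _ _ _ _ _ G M v lz ζ σL σQ Z A h hP
  have hη := h.eta.toEta0
  have hc : ∀ n : Zm, (v, n) ∈ up (cst G M v) Zm := fun n => Set.mem_insert _ _
  have hm : ∀ n : Zm, (v, n) ∈ up M Zm := fun n => h.mem
  obtain ⟨F, hF⟩ : ∃ F : V × Zm → ℚ, ∀ p,
      F p = if p ∈ up (cst G M v) Zm ∧ p.2 = 1 then 1 else 0 := ⟨_, fun _ => rfl⟩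
  have f1 : {p | p ∈ up M Zm ∧ F p ≠ 0}.Finite := by
    refine (h.mf.1.prod (Set.finite_singleton (1 : Zm))).subset fun p hp => ⟨hp.1, ?_⟩
    by_contra h1
    exact hp.2 (by rw [hF, if_neg fun h2 => h1 h2.2])
  have f2 : ∀ p ∈ up (cst G M v) Zm, F p = if p.2 = 1 then 1 else 0 := fun p hp => by
    simp only [hF, hp, true_and]
  obtain ⟨β, b1, b2, b3⟩ := h.exists_cocycle (coc_cob _ _ F) (fs_cob hη.lf f1)
    fun p hp q hq e => by rw [f2 p hp, f2 q hq, h.same_sheet hp hq e, sub_self]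
  obtain ⟨p1, p2, p3⟩ := pair_SideB hP.dp (Zᴴ.mulVec β)
  obtain ⟨g, k1, k2⟩ := hP.cob (β - A.mulVec (Zᴴ.mulVec β)) (dg_sub_SideB b1 p1)
    (by rw [mulVec_sub, b2, p2, sub_zero]) (by rw [mulVec_sub, p3, sub_self])
  generalize Zᴴ.mulVec β = μ0 at p1 p2 p3 k2
  obtain ⟨-, k4⟩ := h.cob k1
  obtain ⟨F', hF'⟩ : ∃ F' : V × Zm → ℚ, ∀ p, F' p = F p + sc (iv p (evT v lz σQ g)) :=
    ⟨_, fun _ => rfl⟩
  have f3 : {p | p ∈ up M Zm ∧ F' p ≠ 0}.Finite := by
    refine (f1.union (iv_finite (evT v lz σQ g))).subset fun p hp => ?_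
    by_contra h1
    rw [Set.mem_union, not_or] at h1
    have h2 : F p = 0 := by_contra fun h3 => h1.1 ⟨hp.1, h3⟩
    have h3 : iv p (evT v lz σQ g) = 0 := by_contra fun h3 => h1.2 h3
    exact hp.2 (by rw [hF', h2, h3, map_zero, add_zero])
  have f4 : ∀ p ∈ up (cst G M v) Zm, F' p = if p.2 = 1 then 1 else 0 := fun p hp => by
    rw [hF', h.sc_star _ hp, add_zero, f2 p hp]
  have c1 : cap1 (etaL lz (lc ζ)) (ef (evT v lz σQ (A.mulVec μ0))) =
      (3 : ℚ) • bd (cap0 (etaL lz (lc ζ)) F') := by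
    rw [← cap1_cob hη f3]
    refine cap1_congr hη fun p hp q hq e => ?_
    have h1 := k4 p hp q hq e
    rw [← k2, evT_sub, ef_sub, b3 p hp q hq e] at h1
    rw [hF', hF']
    linarith
  obtain ⟨w, c, w1, w2, w3⟩ := h.decomp (n := 3) (cap0_mem' hη f3)
  have c2 : ∀ n : Zm, iv (v, n) c = (4 * if n = 1 then 1 else 0 : ℚ) • etaL lz (lc ζ) (v, n) := by
    intro n
    have h1 := iv_cap0_SideB hη f3 (hm n) fun p hp e => by
      obtain ⟨h2, h3⟩ := h.mem_star hp e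
      rw [f4 p (up_lk_sub G M v Zm h2), f4 _ (hc n), h3]
    rwa [w3, map_add, h.iv_centre, zero_add, f4 _ (hc n)] at h1
  have c3 : bd c = (4 : ℚ) • etaL lz (lc ζ) (v, 1) := by
    rw [h.star_top w2 {1} fun n hn => Finset.mem_singleton.2 (by_contra fun h1 => hn (by
      rw [c2, if_neg h1, mul_zero, zero_smul])), Finset.sum_singleton, c2, if_pos rfl, mul_one,
      bd_vx_mul, map_smul, (mem_Zy.1 (hη.mem _ (hm 1))).2, smul_zero, mul_zero, sub_zero]
  have m1 : Dg (dgc σQ) 3 ((MonoidAlgebra.single 1 (-1 / 4) : RC Zm) • w) := dg_smul_SideB _ w1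
  have hs := split_SideB h A m1 ((MonoidAlgebra.single 1 (1 / 12) : RC Zm) • μ0)
  have c4 : bd (evT v lz σQ ((MonoidAlgebra.single 1 (-1 / 4) : RC Zm) • w)) +
      cap1 (etaL lz (lc ζ)) (ef (evT v lz σQ
        (A.mulVec ((MonoidAlgebra.single 1 (1 / 12) : RC Zm) • μ0)))) = etaL lz (lc ζ) (v, 1) := by
    rw [mulVec_smul, ev_smul_SideB, ev_smul_SideB, cap1_ef_smul, c1, w3, map_add, c3, map_smul]
    module
  have m2 := dgL_SideB h A m1 ((MonoidAlgebra.single 1 (1 / 12) : RC Zm) • μ0)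
  rw [c4, ← h.evL_eta] at hs
  have m3 := h.eq_zero (n := 3) (by
    rw [← sub_eq_iff_eq_add.2 hs, ← evT_sub]
    exact Ch_mono (up_lk_sub G M v Zm) 3 (h.evL_mem (dg_sub_SideB (dg_e_SideB h) m2)))
  refine ⟨_, _, m1, m3, ?_⟩
  rw [m3, evT_zero, zero_add] at hs
  exact sub_eq_zero.1 (h.evL_inj (by rw [evT_sub, ← hs, sub_self]))

theorem sideD (hI : PDinjStmt) : SideDStmt := by
  intro V L Q K _ _ _ _ _ G M v lz ζ σL σQ Z A m μ h hP hR
  refine ⟨fun w lam hw e1 => ?_, fun c h1 h2 => ?_⟩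
  · obtain ⟨p1, p2, -⟩ := pair_SideB hP.dp lam
    have hs := split_SideB h A hw lam
    rw [e1, evT_zero, zero_add] at hs
    obtain ⟨c, hc⟩ := h.link_top (dgL_SideB h A hw lam) (by
      rw [← hs, map_add, bd_bd, bd_cap1 h.eta.toEta0 (ef_fs _ _ _) ((h.coc_iff p1).1 p2), add_zero])
    obtain ⟨u1, u2⟩ := uniq_SideB h hI hP (w := w - c • m) (lam := lam - c • μ)
      (dg_sub_SideB hw (dg_smul_SideB c hR.dg))
      (by rw [mulVec_sub, mulVec_sub, mulVec_smul, mulVec_smul, sub_add_sub_comm, ← smul_add, e1,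
        hR.e1, smul_zero, sub_zero])
      (by rw [mulVec_sub, mulVec_sub, mulVec_smul, mulVec_smul, sub_add_sub_comm, ← smul_add, hc,
        hR.e2, sub_self])
    exact ⟨c, sub_eq_zero.1 u1, sub_eq_zero.1 u2⟩
  · obtain ⟨l, hl⟩ := h.exists_cf
    have h3 := congrArg (fun x => (c • x) l) hR.e2
    simp only [smul_add, ← mulVec_smul, h1, h2, mulVec_zero, add_zero] at h3
    have h4 : c * MonoidAlgebra.single 1 (cf (σL l) (iv v ζ)) = 0 := h3.symm
    have h5 := congrArg (· * (MonoidAlgebra.single 1 (cf (σL l) (iv v ζ))⁻¹ : RC Zm)) h4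
    simpa [mul_assoc, hl, ← MonoidAlgebra.one_def] using h5

end Pool.Agent.MP_6374aa_gt
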