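import Pool.Agent.MP_6374aa_gt.IfM

/-! The relative first homology of the infinite cyclic cover is torsion free. -/

namespace Pool.Agent.MP_6374aa_gt

open Classical

theorem tf_SideTF {N : Type} [AddCommGroup N] [Module ℚ N] (r : Zm →₀ ℚ) (hr : r ≠ 0)
    (x : Zm →₀ N) (h : (r.sum fun g c => c • x.mapDomain fun k => g * k) = 0) : x = 0 := by
  by_contra hx
  obtain ⟨a, ha, b, hb, hu⟩ := UniqueProds.uniqueMul_of_nonempty
    (Finsupp.support_nonempty_iff.2 hr) (Finsupp.support_nonempty_iff.2 hx)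
  have e : ∀ g, (x.mapDomain fun k => g * k) (a * b) = x (g⁻¹ * (a * b)) := fun g => by
    conv_lhs => rw [← mul_inv_cancel_left g (a * b)]
    exact Finsupp.mapDomain_apply (mul_right_injective g) x _
  have h1 := DFunLike.congr_fun h (a * b)
  rw [Finsupp.sum, Finsupp.finsetSum_apply, Finset.sum_eq_single a] at h1
  · rw [Finsupp.smul_apply, e, inv_mul_cancel_left, Finsupp.zero_apply, smul_eq_zero] at h1
    exact h1.elim (Finsupp.mem_support_iff.1 ha) (Finsupp.mem_support_iff.1 hb)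
  · intro g hg hne
    rw [Finsupp.smul_apply, e]
    by_cases h0 : x (g⁻¹ * (a * b)) = 0
    · rw [h0, smul_zero]
    · exact absurd (hu hg (Finsupp.mem_support_iff.2 h0) (mul_inv_cancel_left _ _)).1 hne
  · exact fun h => absurd ha h

theorem crossed_SideTF {V N : Type} [AddCommGroup N] {G : SimpleGraph V} {M : Set V}
    {lz : V → V → Zm} (hf : Flat G M lz) (T : Zm → N →+ N) (h1 : ∀ n, T 1 n = n)
    (hm : ∀ g h n, T (g * h) n = T g (T h n)) (e : V → V → N)
    (he : ∀ u ∈ M, ∀ v ∈ M, ∀ w ∈ M, Adq G u v → Adq G v w → Adq G u w →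
      e u v + T (lz u v) (e v w) = e u w) :
    ∃ δ : Gp G M → N, (∀ a b, δ (a * b) = δ a + T (glift G M lz a) (δ b)) ∧
      ∀ u w, δ (gen G M u w) = e u w := by
  let φ : Zm →* MulAut (Multiplicative N) :=
    { toFun := fun g =>
        { toFun := fun n => Multiplicative.ofAdd (T g n.toAdd)
          invFun := fun n => Multiplicative.ofAdd (T g⁻¹ n.toAdd)
          left_inv := fun n => by simp [← hm, h1]
          right_inv := fun n => by simp [← hm, h1]
          map_mul' := fun a b => by simp }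
      map_one' := by ext n; simp [h1]
      map_mul' := fun g h => by ext n; simp [hm] }
  let lab : V → V → SemidirectProduct (Multiplicative N) Zm φ :=
    fun u w => ⟨Multiplicative.ofAdd (e u w), lz u w⟩
  have hl : Flat G M lab := fun u hu v hv w hw e1 e2 e3 =>
    SemidirectProduct.ext (congrArg Multiplicative.ofAdd (he u hu v hv w hw e1 e2 e3))
      (hf u hu v hv w hw e1 e2 e3)
  have hr : SemidirectProduct.rightHom.comp (glift G M lab) = glift G M lz :=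
    Gp.hom_ext fun u w => by rw [MonoidHom.comp_apply, glift_gen hl, glift_gen hf]; rfl
  refine ⟨fun a => (glift G M lab a).left.toAdd, fun a b => ?_, fun u w => ?_⟩
  · rw [← hr]
    simp only [map_mul, SemidirectProduct.mul_left, toAdd_mul]
    rfl
  · simp only [glift_gen hl]
    rfl

theorem lin2_SideTF {W P : Type} [AddCommGroup P] [Module ℚ P] (S : W → W → P) :
    ∃ s : EA W →ₗ[ℚ] P, ∀ p q, s (vx p * vx q) = (1 / 2 : ℚ) • (S p q - S q p) := by
  let f : EA W →ₗ[ℚ] (W × W →₀ ℚ) :=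
    { toFun := fun z => Finsupp.ofSupportFinite (fun e => ef z e.1 e.2) (ef_finite z)
      map_add' := fun x y => Finsupp.ext fun e => ef_add x y e.1 e.2
      map_smul' := fun r x => Finsupp.ext fun e => ef_smul r x e.1 e.2 }
  refine ⟨Finsupp.linearCombination ℚ (fun e : W × W => (1 / 2 : ℚ) • S e.1 e.2) ∘ₗ f,
    fun p q => ?_⟩
  have e : f (vx p * vx q) = Finsupp.single (p, q) 1 - Finsupp.single (q, p) 1 := by
    ext ⟨a, b⟩
    show ef (vx p * vx q) a b = _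
    rw [ef_vx_vx, Finsupp.sub_apply, Finsupp.single_apply, Finsupp.single_apply]
    simp only [Prod.mk.injEq, eq_comm]
  rw [LinearMap.comp_apply, e, map_sub, Finsupp.linearCombination_single,
    Finsupp.linearCombination_single, one_smul, one_smul, smul_sub]

theorem lin1_SideTF {W P : Type} [AddCommGroup P] [Module ℚ P] (F : W → P) :
    ∃ s : EA W →ₗ[ℚ] P, ∀ p, s (vx p) = F p :=
  ⟨Finsupp.linearCombination ℚ F ∘ₗ ExteriorAlgebra.ιInv, fun p => by
    rw [LinearMap.comp_apply, vx, ExteriorAlgebra.ι_leftInverse, Finsupp.linearCombination_single,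
      one_smul]⟩

theorem ext_SideTF {W P : Type} [AddCommGroup P] [Module ℚ P] {K : SimpleGraph W} {S : Set W}
    {n : ℕ} (f g : EA W →ₗ[ℚ] P)
    (h : ∀ l : List W, l.length = n → IsCl K S l → f (wedge l) = g (wedge l)) {z : EA W}
    (hz : z ∈ Ch K S n) : f z = g z :=
  LinearMap.eqOn_span (by rintro _ ⟨l, h1, h2, rfl⟩; exact h l h1 h2) hz

theorem ext1_SideTF {W P : Type} [AddCommGroup P] [Module ℚ P] {K : SimpleGraph W} {S : Set W}
    (f g : EA W →ₗ[ℚ] P) (h : ∀ p ∈ S, f (vx p) = g (vx p)) {z : EA W} (hz : z ∈ Ch K S 1) :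
    f z = g z := by
  refine ext_SideTF f g (fun l h1 h2 => ?_) hz
  obtain ⟨p, rfl⟩ := List.length_eq_one_iff.1 h1
  rw [wedge_cons, wedge_nil, mul_one]
  exact h p (h2.1 p (by simp))

theorem ext2_SideTF {W P : Type} [AddCommGroup P] [Module ℚ P] {K : SimpleGraph W} {S : Set W}
    (f g : EA W →ₗ[ℚ] P) (h : ∀ p ∈ S, ∀ q ∈ S, Adq K p q → f (vx p * vx q) = g (vx p * vx q))
    {z : EA W} (hz : z ∈ Ch K S 2) : f z = g z := by
  refine ext_SideTF f g (fun l h1 h2 => ?_) hz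
  obtain ⟨p, q, rfl⟩ := List.length_eq_two.1 h1
  rw [wedge_cons, wedge_cons, wedge_nil, mul_one]
  exact h p (h2.1 p (by simp)) q (h2.1 q (by simp)) (h2.2 p (by simp) q (by simp))

theorem bd3_SideTF {W : Type} (p q r : W) :
    bd (wedge [p, q, r]) = vx p * vx q + vx q * vx r - vx p * vx r := by
  rw [wedge_cons, wedge_cons, wedge_cons, wedge_nil, mul_one, bd_vx_mul, bd_edge_UCT, mul_sub]
  abel

theorem cl_SideTF {W : Type} {K : SimpleGraph W} {S : Set W} {p q r : W} (hp : p ∈ S) (hq : q ∈ S)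
    (hr : r ∈ S) (e1 : Adq K p q) (e2 : Adq K q r) (e3 : Adq K p r) : IsCl K S [p, q, r] := by
  refine ⟨fun x hx => ?_, fun x hx y hy => ?_⟩
  · simp only [List.mem_cons, List.not_mem_nil, or_false] at hx
    rcases hx with rfl | rfl | rfl <;> assumption
  · simp only [List.mem_cons, List.not_mem_nil, or_false] at hx hy
    rcases hx with rfl | rfl | rfl <;> rcases hy with rfl | rfl | rfl <;>
      first | assumption | exact Adq.refl _ _ | exact Adq.symm (by assumption)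

theorem edge_SideTF {W : Type} {K : SimpleGraph W} {S : Set W} {p q : W} (hp : p ∈ S) (hq : q ∈ S)
    (e : Adq K p q) : vx p * vx q ∈ Ch K S 2 := by
  rcases e with rfl | e
  · rw [vx_mul_vx_self]; exact zero_mem _
  · exact edge_mem_UCT hp hq e

theorem adq_SideTF {V : Type} {G : SimpleGraph V} {M : Set V} {lz : V → V → Zm}
    (hf : Flat G M lz) {a b : V} (ha : a ∈ M) (hb : b ∈ M) (e : Adq G a b) {k k' : Zm}
    (h : k' = lz b a * k) : Adq (cov G lz Zm) (a, k) (b, k') := by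
  rcases e with rfl | e
  · rw [h, hf.self ha, one_mul]; exact Adq.refl _ _
  · refine Or.inr ⟨e, ?_, h⟩
    show k = lz a b * k'
    rw [h, hf.symm ha hb (Or.inr e), mul_inv_cancel_left]

theorem adq'_SideTF {V : Type} {G : SimpleGraph V} {M : Set V} {lz : V → V → Zm}
    (hf : Flat G M lz) {p q : V × Zm} (hp : p.1 ∈ M) (e : Adq (cov G lz Zm) p q) :
    Adq G p.1 q.1 ∧ p.2 = lz p.1 q.1 * q.2 ∧ q.2 = lz q.1 p.1 * p.2 := by
  rcases e with rfl | e
  · rw [hf.self hp, one_mul]; exact ⟨Adq.refl _ _, rfl, rfl⟩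
  · exact ⟨Or.inr e.1, e.2.1, e.2.2⟩

theorem map_SideTF {N : Type} [AddCommGroup N] (g h : Zm) (x : Zm →₀ N) :
    (x.mapDomain fun k => h * k).mapDomain (fun k => g * k) = x.mapDomain fun k => g * h * k := by
  rw [← Finsupp.mapDomain_comp]
  exact congrArg (fun f => x.mapDomain f) (funext fun k => (mul_assoc g h k).symm)

theorem sum_SideTF {N : Type} [AddCommGroup N] {T : Zm → N →+ N}
    (hm : ∀ g h n, T (g * h) n = T g (T h n)) (g : Zm) (x : Zm →₀ N) :
    ((x.mapDomain fun k => g * k).sum fun k n => T k n) = T g (x.sum fun k n => T k n) := by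
  rw [Finsupp.sum_mapDomain_index (fun k => map_zero _) fun k _ _ => map_add _ _ _,
    map_finsuppSum]
  simp only [hm]

theorem cst_SideTF {V : Type} {G : SimpleGraph V} {M : Set V} {v a : V} (hv : v ∈ M)
    (ha : a ∈ cst G M v) : a ∈ M ∧ Adq G a v := by
  rcases ha with rfl | ha
  · exact ⟨hv, Adq.refl _ _⟩
  · exact ⟨ha.1, Or.inr (ha.2 v rfl).symm⟩

theorem lift_SideTF (hD : DLStmt) {V N : Type} [AddCommGroup N] {G : SimpleGraph V} {M : Set V}
    {lz : V → V → Zm} (P : GP G M) (hf : Flat G M lz)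
    (hΛ : ∀ x, ∀ δ ∈ P.Λ x, glift G M lz δ = 1) (T : Zm → N →+ N) (h1 : ∀ n, T 1 n = n)
    (hm : ∀ g h n, T (g * h) n = T g (T h n)) (e : V → V → N)
    (he : ∀ u ∈ M, ∀ v ∈ M, ∀ w ∈ M, Adq G u v → Adq G v w → Adq G u w →
      e u v + T (lz u v) (e v w) = e u w) :
    ∃ (F : V → N) (D : V → V → Zm →₀ N), (∀ a ∈ cst G M P.y, F a = e a P.y) ∧
      (∀ a ∈ cst G M P.y, ∀ b ∈ cst G M P.y, Adq G a b → D a b = 0) ∧
      (∀ a ∈ M, ∀ b ∈ M, ∀ c ∈ M, Adq G a b → Adq G b c → Adq G a c →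
        D a b + (D b c).mapDomain (fun k => lz a b * k) = D a c) ∧
      ∀ a ∈ M, ∀ b ∈ M, Adq G a b →
        F a + ((D a b).sum fun k n => T k n) = e a b + T (lz a b) (F b) := by
  obtain ⟨δ, hδ, hg⟩ := crossed_SideTF hf T h1 hm e he
  obtain ⟨δ', h2, h3⟩ := hD _ _ _ N _ P.Λ P.t (glift G M lz) T δ P.fp hΛ h1 hm
    fun a _ b _ => hδ a b
  choose! p hp using fun a ha => P.conn.2 a ha P.y P.mem
  obtain ⟨q, hq, hc⟩ : ∃ q : V → Gp G M, (∀ a ∈ M, Path G M a P.y (q a)) ∧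
      ∀ a ∈ cst G M P.y, q a = gen G M a P.y := by
    refine ⟨fun a => if a ∈ cst G M P.y then gen G M a P.y else p a, fun a ha => ?_,
      fun a ha => if_pos ha⟩
    dsimp only
    split_ifs with h
    · exact Path.single ha P.mem (cst_SideTF P.mem h).2
    · exact hp a ha
  have hH : ∀ a ∈ M, ∀ b ∈ M, Adq G a b → (q a)⁻¹ * gen G M a b * q b ∈ Loop G M P.y :=
    fun a ha b hb e => (mem_Loop P.mem).2
      (((hq a ha).symm.trans (Path.single ha hb e)).trans (hq b hb))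
  have hl : ∀ a b, glift G M lz (q a) * glift G M lz ((q a)⁻¹ * gen G M a b * q b) =
      lz a b * glift G M lz (q b) := fun a b => by
    rw [← map_mul, ← glift_gen hf, ← map_mul]
    congr 1
    group
  refine ⟨fun a => δ (q a), fun a b => (δ' ((q a)⁻¹ * gen G M a b * q b)).mapDomain
    fun k => glift G M lz (q a) * k, fun a ha => by rw [← hg, ← hc a ha],
    fun a ha b hb e => ?_, fun a ha b hb c hc e1 e2 e3 => ?_, fun a ha b hb e => ?_⟩
  · have h0 := h2 1 (one_mem _) 1 (one_mem _)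
    simp only [map_one, one_mul, left_eq_add] at h0
    replace h0 : δ' 1 = 0 := Finsupp.mapDomain_id.symm.trans h0
    obtain ⟨a1, a2⟩ := cst_SideTF P.mem ha
    obtain ⟨b1, b2⟩ := cst_SideTF P.mem hb
    dsimp only
    rw [hc a ha, hc b hb, mul_assoc, flat_gen G M a a1 b b1 _ P.mem e b2 a2, inv_mul_cancel, h0,
      Finsupp.mapDomain_zero]
  · have h0 := h2 _ (hH a ha b hb e1) _ (hH b hb c hc e2)
    have e0 : (q a)⁻¹ * gen G M a b * q b * ((q b)⁻¹ * gen G M b c * q c) =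
        (q a)⁻¹ * gen G M a c * q c := by
      rw [← flat_gen G M a ha b hb c hc e1 e2 e3]
      group
    dsimp only
    rw [← e0, h0, Finsupp.mapDomain_add, map_SideTF, map_SideTF, hl]
  · dsimp only
    rw [sum_SideTF hm, h3 _ (hH a ha b hb e), ← hδ, ← hg, ← glift_gen hf, ← hδ]
    congr 1
    group

theorem main_SideTF (hD : DLStmt) {V N : Type} [AddCommGroup N] [Module ℚ N] {G : SimpleGraph V}
    {M : Set V} {lz : V → V → Zm} (P : GP G M) (hf : Flat G M lz)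
    (hΛ : ∀ x, ∀ δ ∈ P.Λ x, glift G M lz δ = 1) (π : EA (V × Zm) →ₗ[ℚ] N) (T : Zm → N →ₗ[ℚ] N)
    (h1 : ∀ n, T 1 n = n) (hm : ∀ g h n, T (g * h) n = T g (T h n))
    (hTa : ∀ g x, T g (π x) = π (emap (dk V Zm g) x))
    (hc : ∀ x ∈ Ch (cov G lz Zm) (up (cst G M P.y) Zm) 2, π x = 0)
    (hb : ∀ x ∈ Ch (cov G lz Zm) (up M Zm) 3, π (bd x) = 0) :
    ∃ (s : EA (V × Zm) →ₗ[ℚ] (Zm →₀ N)) (φ : EA (V × Zm) →ₗ[ℚ] N),
      (∀ x ∈ Ch (cov G lz Zm) (up (cst G M P.y) Zm) 2, s x = 0) ∧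
      (∀ x ∈ Ch (cov G lz Zm) (up M Zm) 3, s (bd x) = 0) ∧
      (∀ x ∈ Ch (cov G lz Zm) (up (cst G M P.y) Zm) 1, φ x = 0) ∧
      ∀ z ∈ Ch (cov G lz Zm) (up M Zm) 2, Finsupp.lsum ℚ T (s z) = π z + φ (bd z) ∧
        ∀ g, s (emap (dk V Zm g) z) = (s z).mapDomain fun k => g * k := by
  have hdk : ∀ (g : Zm) (p : V × Zm), dk V Zm g p = (p.1, p.2 * g⁻¹) := fun g p => rfl
  have hTe : ∀ g a b, T g (π (vx (a, 1) * vx (b, lz b a))) =
      π (vx (a, g⁻¹) * vx (b, lz b a * g⁻¹)) := fun g a b => by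
    rw [hTa, emap_mul, emap_vx, emap_vx, hdk, hdk, one_mul]
  obtain ⟨F, D, hF, hD0, hD1, hD2⟩ := lift_SideTF hD P hf hΛ (fun g => (T g).toAddMonoidHom) h1 hm
    (fun a b => π (vx (a, 1) * vx (b, lz b a))) (fun a ha b hb' c hc' e1 e2 e3 => by
      have e4 := hf c hc' b hb' a ha e2.symm e1.symm e3.symm
      have e5 : IsCl (cov G lz Zm) (up M Zm) [(a, 1), (b, lz b a), (c, lz c a)] :=
        cl_SideTF ha hb' hc' (adq_SideTF hf ha hb' e1 (mul_one _).symm)
          (adq_SideTF hf hb' hc' e2 e4.symm) (adq_SideTF hf ha hc' e3 (mul_one _).symm)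
      have e7 := wedge_mem_Ch e5
      have e6 := hb _ e7
      rw [bd3_SideTF, map_sub, map_add, sub_eq_zero] at e6
      rw [LinearMap.toAddMonoidHom_coe, hTe, ← hf.symm ha hb' e1, e4, e6])
  let S : V × Zm → V × Zm → Zm →₀ N := fun p q => (D p.1 q.1).mapDomain fun k => p.2⁻¹ * k
  have hS : ∀ p ∈ up M Zm, ∀ q ∈ up M Zm, ∀ t ∈ up M Zm, Adq (cov G lz Zm) p q →
      Adq (cov G lz Zm) q t → Adq (cov G lz Zm) p t → S p q + S q t = S p t :=
    fun p hp q hq t ht e1 e2 e3 => by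
      obtain ⟨a1, a2, -⟩ := adq'_SideTF hf hp e1
      simp only [S]
      rw [← hD1 _ hp _ hq _ ht a1 (adq'_SideTF hf hq e2).1 (adq'_SideTF hf hp e3).1,
        Finsupp.mapDomain_add, map_SideTF, a2, mul_inv_rev, inv_mul_cancel_right]
  obtain ⟨s, hs⟩ := lin2_SideTF S
  have hs' : ∀ p ∈ up M Zm, ∀ q ∈ up M Zm, Adq (cov G lz Zm) p q → s (vx p * vx q) = S p q :=
    fun p hp q hq e => by
      have e1 := hS p hp q hq p hp e e.symm (Adq.refl _ _)
      have e2 := hS p hp p hp p hp (Adq.refl _ _) (Adq.refl _ _) (Adq.refl _ _)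
      rw [left_eq_add.1 e2.symm] at e1
      rw [hs, eq_neg_of_add_eq_zero_right e1, sub_neg_eq_add, ← two_smul ℚ, smul_smul]
      norm_num
  have hup : ∀ p ∈ up (cst G M P.y) Zm, p ∈ up M Zm := fun p hp => (cst_SideTF P.mem hp).1
  obtain ⟨φ, hφ⟩ := lin1_SideTF fun p : V × Zm => T p.2⁻¹ (F p.1)
  refine ⟨s, φ, fun x hx => ext2_SideTF s 0 (fun p hp q hq e => ?_) hx,
    fun w hw => ext_SideTF (s ∘ₗ bd) 0 (fun l l1 l2 => ?_) hw,
    fun x hx => ext1_SideTF φ 0 (fun p hp => ?_) hx, fun z hz =>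
      ⟨ext2_SideTF (Finsupp.lsum ℚ T ∘ₗ s) (π + φ ∘ₗ bd) (fun p hp q hq e => ?_) hz, fun g =>
        ext2_SideTF (s ∘ₗ emap (dk V Zm g)) (Finsupp.lmapDomain _ ℚ (fun k => g * k) ∘ₗ s)
          (fun p hp q hq e => ?_) hz⟩⟩
  · rw [hs' p (hup p hp) q (hup q hq) e]
    simp only [S]
    rw [hD0 _ hp _ hq (adq'_SideTF hf (hup p hp) e).1, Finsupp.mapDomain_zero]
    rfl
  · obtain ⟨p, q, t, rfl⟩ := List.length_eq_three.1 l1
    have hp := l2.1 p (by simp)
    have hq := l2.1 q (by simp)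
    have ht := l2.1 t (by simp)
    have e1 := l2.2 p (by simp) q (by simp)
    have e2 := l2.2 q (by simp) t (by simp)
    have e3 := l2.2 p (by simp) t (by simp)
    rw [LinearMap.comp_apply, bd3_SideTF, map_sub, map_add, hs' p hp q hq e1, hs' q hq t ht e2,
      hs' p hp t ht e3, hS p hp q hq t ht e1 e2 e3, sub_self, LinearMap.zero_apply]
  · obtain ⟨a1, a2⟩ := cst_SideTF P.mem hp
    rw [hφ, hF _ hp, hTe, LinearMap.zero_apply]
    exact hc _ (edge_SideTF (S := up (cst G M P.y) Zm) hp (Set.mem_insert _ _)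
      (adq_SideTF hf a1 P.mem a2 rfl))
  · obtain ⟨a1, a2, a3⟩ := adq'_SideTF hf hp e
    have e1 := congrArg (T p.2⁻¹) (hD2 _ hp _ hq a1)
    rw [LinearMap.comp_apply, hs' p hp q hq e, LinearMap.add_apply, LinearMap.comp_apply,
      bd_edge_UCT, map_sub, hφ, hφ, Finsupp.lsum_apply]
    have e2 := sum_SideTF (T := fun g => (T g).toAddMonoidHom) hm p.2⁻¹ (D p.1 q.1)
    simp only [LinearMap.toAddMonoidHom_coe] at e1 e2
    rw [map_add, map_add, hTe, ← hm, inv_inv, mul_comm (lz _ _), mul_comm p.2, ← a3, ← e2] at e1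
    have e3 : p.2⁻¹ * lz p.1 q.1 = q.2⁻¹ := by rw [a2, mul_inv_rev, inv_mul_cancel_right]
    rw [e3] at e1
    rw [add_sub, ← e1, add_sub_cancel_left]
  · rw [LinearMap.comp_apply, LinearMap.comp_apply, emap_mul, emap_vx, emap_vx, hs' p hp q hq e,
      hs' _ ((dk_hom G M lz g).1 p hp) _ ((dk_hom G M lz g).1 q hq) ((dk_hom G M lz g).adq hp hq e),
      Finsupp.lmapDomain_apply]
    simp only [S, hdk]
    rw [map_SideTF, mul_inv_rev, inv_inv]

theorem sideTF (hD : DLStmt) : SideTFStmt := by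
  intro V G M v lz P hv hf _ hΛ z hz hb r hr hrz
  subst hv
  obtain ⟨N0, hN⟩ : ∃ N0, N0 = Ch (cov G lz Zm) (up (cst G M P.y) Zm) 2 ⊔
    Bd (cov G lz Zm) (up M Zm) 2 := ⟨_, rfl⟩
  have hT : ∀ g : Zm, N0 ≤ N0.comap (emap (dk V Zm g)) := fun g => hN ▸ sup_le
    (fun x hx => Submodule.mem_sup_left (emap_mem_Ch (dk_hom G _ lz g) hx))
    fun x hx => Submodule.mem_sup_right (emap_mem_Bd (dk_hom G _ lz g) hx)
  obtain ⟨T, hTa⟩ : ∃ T : Zm → (EA (V × Zm) ⧸ N0) →ₗ[ℚ] (EA (V × Zm) ⧸ N0),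
      ∀ g x, T g (N0.mkQ x) = N0.mkQ (emap (dk V Zm g) x) :=
    ⟨fun g => N0.mapQ N0 _ (hT g), fun g x => rfl⟩
  have h0 : ∀ x, N0.mkQ x = 0 ↔ x ∈ N0 := fun x => Submodule.Quotient.mk_eq_zero _
  obtain ⟨s, φ, k1, k2, k3, k4⟩ := main_SideTF hD P hf hΛ N0.mkQ T (fun n => by
      obtain ⟨x, rfl⟩ := N0.mkQ_surjective n
      rw [hTa, map_one, Equiv.Perm.coe_one, emap_id]) (fun g h n => by
      obtain ⟨x, rfl⟩ := N0.mkQ_surjective n
      rw [hTa, hTa, hTa, emap_comp, map_mul, Equiv.Perm.coe_mul]) hTa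
    (fun x hx => (h0 x).2 (hN ▸ Submodule.mem_sup_left hx))
    fun x hx => (h0 _).2 (hN ▸ Submodule.mem_sup_right (mem_Bd.2 ⟨x, hx, rfl⟩))
  obtain ⟨k5, k6⟩ := k4 z hz
  have hz0 : s z = 0 := by
    refine tf_SideTF r.coeff (fun h => hr (MonoidAlgebra.coeff_injective h)) _ ?_
    have e : _ ≤ LinearMap.ker s := sup_le k1 fun x hx => by
      obtain ⟨w, hw, rfl⟩ := (mem_Bd (G := cov G lz Zm) (S := up M Zm) (n := 2)).1 hx
      exact k2 w hw
    have := e hrz
    rw [LinearMap.mem_ker, actG, map_finsuppSum] at this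
    simpa only [map_smul, k6] using this
  rw [hz0, map_zero, k3 _ hb, add_zero] at k5
  exact hN ▸ (h0 z).1 k5.symm

end Pool.Agent.MP_6374aa_gt
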