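import Pool.Agent.MP_6374aa_gt.IfP

/-! Phases of lens values determine the traces. -/

namespace Pool.Agent.MP_6374aa_gt

open Classical Matrix

theorem beatty_SignS (hB : BeattyStmt) (n a b c : ℕ) (hn : 5 ≤ n)
    (ha : 1 ≤ a ∧ 2 * a < n ∧ Nat.Coprime a n) (hb : 1 ≤ b ∧ 2 * b < n ∧ Nat.Coprime b n)
    (hc : 1 ≤ c ∧ 2 * c < n ∧ Nat.Coprime c n)
    (h : ∀ j, 0 < j → j < n → Even (j * a / n + j * b / n + j * c / n)) :
    (a = b ∧ c = 1) ∨ (a = c ∧ b = 1) ∨ (b = c ∧ a = 1) := by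
  have key : ∀ x y z : ℕ, (1 ≤ x ∧ 2 * x < n ∧ Nat.Coprime x n) →
      (1 ≤ y ∧ 2 * y < n ∧ Nat.Coprime y n) → (1 ≤ z ∧ 2 * z < n ∧ Nat.Coprime z n) →
      (∀ j, j * x / n + j * y / n + j * z / n = j * a / n + j * b / n + j * c / n) →
      z ≤ y → y ≤ x → x = y ∧ z = 1 := fun x y z hx hy hz e h1 h2 =>
    hB n x y z hn hz.1 h1 h2 hx.2.1 hx.2.2 hy.2.2 hz.2.2 fun j j0 j1 => e j ▸ h j j0 j1
  have k1 := key a b c ha hb hc fun _ => rfl
  have k2 := key b a c hb ha hc fun _ => by ring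
  have k3 := key a c b ha hc hb fun _ => by ring
  have k4 := key c a b hc ha hb fun _ => by ring
  have k5 := key b c a hb hc ha fun _ => by ring
  have k6 := key c b a hc hb ha fun _ => by ring
  omega

theorem rep_SignS (p : ℕ) [NeZero p] (hp : 5 ≤ p) (y : (ZMod p)ˣ) :
    ∃ c : ℕ, (1 ≤ c ∧ 2 * c < p ∧ Nat.Coprime c p) ∧ ((y : ZMod p) = c ∨ (y : ZMod p) = -c) := by
  have h1 := ZMod.val_coe_unit_coprime y
  have h2 := ZMod.val_lt (y : ZMod p)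
  have h3 := ZMod.natCast_zmod_val (y : ZMod p)
  generalize (y : ZMod p).val = v at h1 h2 h3
  have h4 : v ≠ 0 := by
    rintro rfl
    rw [Nat.coprime_zero_left] at h1
    omega
  have h5 : 2 * v ≠ p := fun e => by
    have := Nat.Coprime.eq_one_of_dvd h1 ⟨2, by omega⟩
    omega
  by_cases h6 : 2 * v < p
  · exact ⟨v, ⟨by omega, h6, h1⟩, Or.inl h3.symm⟩
  · refine ⟨p - v, ⟨by omega, by omega, (Nat.coprime_self_sub_left h2.le).2 h1⟩, Or.inr ?_⟩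
    rw [Nat.cast_sub h2.le, ZMod.natCast_self, zero_sub, neg_neg, h3]

theorem pm_SignS {p : ℕ} {u v w : (ZMod p)ˣ} {c : ZMod p}
    (h1 : ((u⁻¹ * w : (ZMod p)ˣ) : ZMod p) = c ∨ ((u⁻¹ * w : (ZMod p)ˣ) : ZMod p) = -c)
    (h2 : ((v⁻¹ * w : (ZMod p)ˣ) : ZMod p) = c ∨ ((v⁻¹ * w : (ZMod p)ˣ) : ZMod p) = -c) :
    (u : ZMod p) = v ∨ (u : ZMod p) = -v := by
  have e1 : ((u⁻¹ * w : (ZMod p)ˣ) : ZMod p) * (u * v * w⁻¹ : (ZMod p)ˣ) = v := by
    rw [← Units.val_mul]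
    congr 1
    rw [mul_mul_mul_comm, inv_mul_cancel_left, mul_inv_cancel, mul_one]
  have e2 : ((v⁻¹ * w : (ZMod p)ˣ) : ZMod p) * (u * v * w⁻¹ : (ZMod p)ˣ) = u := by
    rw [← Units.val_mul]
    congr 1
    rw [mul_comm u v, mul_mul_mul_comm, inv_mul_cancel_left, mul_inv_cancel, mul_one]
  rw [← e1, ← e2]
  rcases h1 with h1 | h1 <;> rcases h2 with h2 | h2 <;> rw [h1, h2] <;> simp

theorem cos_SignS (p : ℕ) [NeZero p] {u v : ZMod p} (h : u = v ∨ u = -v) (k : ZMod p) :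
    Real.cos (2 * Real.pi * ((u * k).val : ℝ) / p) =
      Real.cos (2 * Real.pi * ((v * k).val : ℝ) / p) := by
  rcases h with rfl | rfl
  · rfl
  rw [neg_mul, ZMod.neg_val]
  split_ifs with h
  · rw [h, ZMod.val_zero]
  · have hp : (p : ℝ) ≠ 0 := Nat.cast_ne_zero.2 (NeZero.ne p)
    rw [Nat.cast_sub (ZMod.val_lt _).le, ← Real.cos_two_pi_sub]
    congr 1
    field_simp
    ring

theorem flip_SignS (p : ℕ) [NeZero p] {y c : ZMod p} (h : y = c ∨ y = -c) :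
    ∃ (σ : ℂ) (g : ZMod p), (σ = 1 ∨ σ = -1) ∧ ∀ t : ZMod p, ZMod.stdAddChar (t * y) - 1 =
      σ * ZMod.stdAddChar (t * g) * (ZMod.stdAddChar (t * c) - 1) := by
  rcases h with rfl | rfl
  · exact ⟨1, 0, Or.inl rfl, fun t => by simp⟩
  · refine ⟨-1, -c, Or.inr rfl, fun t => ?_⟩
    have h1 : ZMod.stdAddChar (t * -c) * ZMod.stdAddChar (t * c) = 1 := by
      rw [← AddChar.map_add_eq_mul]
      simp
    linear_combination h1

theorem e_nat_SignS (p : ℕ) [NeZero p] (n : ℕ) :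
    ZMod.stdAddChar (n : ZMod p) = (Complex.exp (Real.pi / p * Complex.I) ^ n) ^ 2 := by
  rw [← Int.cast_natCast, ZMod.stdAddChar_coe, ← pow_mul, ← Complex.exp_nat_mul]
  congr 1
  push_cast
  ring

theorem half_SignS (p : ℕ) [NeZero p] (n : ℕ) (hn : ¬ p ∣ n) :
    ∃ ρ : ℝ, 0 < ρ ∧ ZMod.stdAddChar (n : ZMod p) - 1 =
      2 * Complex.I * (-1) ^ (n / p) * ρ * Complex.exp (Real.pi / p * Complex.I) ^ n := by
  have hp : 0 < p := Nat.pos_of_ne_zero (NeZero.ne p)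
  have hp' : (0 : ℝ) < p := Nat.cast_pos.2 hp
  have h1 : 0 < n % p := Nat.pos_of_ne_zero fun h => hn (Nat.dvd_of_mod_eq_zero h)
  have h2 : ((n % p : ℕ) : ℝ) < p := Nat.cast_lt.2 (Nat.mod_lt n hp)
  have h3 : (0 : ℝ) < (n % p : ℕ) := Nat.cast_pos.2 h1
  refine ⟨Real.sin ((n % p : ℕ) * (Real.pi / p)), Real.sin_pos_of_pos_of_lt_pi (by positivity) ?_,
    ?_⟩
  · rw [← mul_div_assoc, div_lt_iff₀ hp', mul_comm]
    exact mul_lt_mul_of_pos_left h2 Real.pi_pos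
  have h4 : Real.sin (n * (Real.pi / p)) =
      (-1) ^ (n / p) * Real.sin ((n % p : ℕ) * (Real.pi / p)) := by
    rw [← Real.sin_add_nat_mul_pi]
    congr 1
    have h5 : (n : ℝ) = (n % p : ℕ) + p * (n / p : ℕ) := by
      exact_mod_cast (Nat.mod_add_div n p).symm
    conv_lhs => rw [h5]
    field_simp
  have h6 : Complex.exp (Real.pi / p * Complex.I) ^ n =
      Complex.exp ((n * (Real.pi / p) : ℝ) * Complex.I) := by
    rw [← Complex.exp_nat_mul]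
    congr 1
    push_cast
    ring
  have h7 : ((-1 : ℂ) ^ (n / p)) * (Real.sin ((n % p : ℕ) * (Real.pi / p)) : ℝ) =
      Complex.sin ((n * (Real.pi / p) : ℝ) : ℂ) := by
    rw [← Complex.ofReal_sin, h4]
    push_cast
    rfl
  rw [e_nat_SignS, mul_assoc (2 * Complex.I), h7, h6, Complex.exp_mul_I]
  have h8 := Complex.sin_sq_add_cos_sq ((n * (Real.pi / p) : ℝ) : ℂ)
  generalize Complex.sin ((n * (Real.pi / p) : ℝ) : ℂ) = S at h8 ⊢
  generalize Complex.cos ((n * (Real.pi / p) : ℝ) : ℂ) = C at h8 ⊢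
  linear_combination h8 - S ^ 2 * Complex.I_sq

theorem unit_SignS {z s : ℂ} {r r' : ℝ} (hz : ‖z‖ = 1) (hs : ‖s‖ = 1) (hr : 0 < r) (hr' : 0 < r')
    (h : z * r = s * r') : z = s := by
  have h1 := congrArg norm h
  rw [norm_mul, norm_mul, hz, hs, one_mul, one_mul, Complex.norm_real, Complex.norm_real,
    Real.norm_of_nonneg hr.le, Real.norm_of_nonneg hr'.le] at h1
  rw [← h1] at h
  exact mul_right_cancel₀ (Complex.ofReal_ne_zero.2 hr.ne') h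

theorem even_SignS (p : ℕ) [NeZero p] (hp : 5 ≤ p) (a b c : ℕ)
    (ha : 1 ≤ a ∧ 2 * a < p ∧ Nat.Coprime a p) (hb : 1 ≤ b ∧ 2 * b < p ∧ Nat.Coprime b p)
    (hc : 1 ≤ c ∧ 2 * c < p ∧ Nat.Coprime c p) (g : ZMod p) (s : ℂ) (hs : s = 1 ∨ s = -1)
    (h : ∀ t : ZMod p, t ≠ 0 → ∃ r : ℝ, 0 < r ∧
      (ZMod.stdAddChar (t * (a : ZMod p)) - 1) * (ZMod.stdAddChar (t * (b : ZMod p)) - 1) =
        s * ZMod.stdAddChar (t * g) * r *
          ((ZMod.stdAddChar (t * (c : ZMod p)) - 1) * (ZMod.stdAddChar t - 1)))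
    (j : ℕ) (j0 : 0 < j) (j1 : j < p) : Even (j * a / p + j * b / p + j * c / p) := by
  obtain ⟨ω, hω⟩ : ∃ ω, ω = Complex.exp (Real.pi / p * Complex.I) := ⟨_, rfl⟩
  have n1 : ‖ω‖ = 1 := by
    rw [hω, ← Complex.norm_exp_ofReal_mul_I (Real.pi / p)]
    push_cast
    rfl
  have n0 : ω ≠ 0 := hω ▸ Complex.exp_ne_zero _
  have ns : ‖s‖ = 1 := by rcases hs with rfl | rfl <;> simp
  have key : ∀ j : ℕ, 0 < j → j < p → (-1) ^ (j * a / p + j * b / p + j * c / p) *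
      (ω ^ (a + b) / ω ^ (c + 1 + 2 * g.val)) ^ j = s := by
    intro j j0 j1
    have nd : ¬ p ∣ j := Nat.not_dvd_of_pos_of_lt j0 j1
    have nd' : ∀ x, Nat.Coprime x p → ¬ p ∣ j * x := fun x hx hd =>
      nd (hx.symm.dvd_of_dvd_mul_right hd)
    obtain ⟨r, r0, hr⟩ := h j fun e => nd ((ZMod.natCast_eq_zero_iff j p).1 e)
    obtain ⟨r1, p1, e1⟩ := half_SignS p _ (nd' a ha.2.2)
    obtain ⟨r2, p2, e2⟩ := half_SignS p _ (nd' b hb.2.2)
    obtain ⟨r3, p3, e3⟩ := half_SignS p _ (nd' c hc.2.2)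
    obtain ⟨r4, p4, e4⟩ := half_SignS p j nd
    have e5 := e_nat_SignS p (j * g.val)
    rw [Nat.cast_mul] at e1 e2 e3 e5
    rw [ZMod.natCast_zmod_val] at e5
    rw [e1, e2, e3, e4, e5, ← hω, Nat.div_eq_of_lt j1] at hr
    refine unit_SignS (r := r1 * r2) (r' := r * r3 * r4) (by simp [n1]) ns (by positivity)
      (by positivity) ?_
    have e6 : ((-1 : ℂ) ^ (j * c / p)) ^ 2 = 1 := by
      rw [← pow_mul, mul_comm, pow_mul, neg_one_sq, one_pow]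
    have e7 : (ω ^ (c + 1 + 2 * g.val)) ^ j ≠ 0 := pow_ne_zero _ (pow_ne_zero _ n0)
    rw [div_pow, ← mul_div_assoc, div_mul_eq_mul_div, div_eq_iff e7]
    have e8 : (ω ^ (a + b)) ^ j = ω ^ (j * a) * ω ^ (j * b) := by ring
    have e9 : (ω ^ (c + 1 + 2 * g.val)) ^ j = ω ^ (j * c) * ω ^ j * (ω ^ (j * g.val)) ^ 2 := by
      ring
    rw [e8, e9, pow_add, pow_add]
    push_cast
    generalize (-1 : ℂ) ^ (j * c / p) = ε at *
    have e10 : (2 * Complex.I) ^ 2 ≠ 0 := pow_ne_zero _ (by simp)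
    refine mul_left_cancel₀ e10 ?_
    linear_combination ε * hr + (2 * Complex.I) ^ 2 * s * r * r3 * r4 *
      (ω ^ (j * c) * ω ^ j * (ω ^ (j * g.val)) ^ 2) * e6
  have k1 := key 1 one_pos (by omega)
  have k2 := key 2 two_pos (by omega)
  rw [Nat.div_eq_of_lt (by omega), Nat.div_eq_of_lt (by omega), Nat.div_eq_of_lt (by omega),
    pow_zero, one_mul] at k1 k2
  rw [pow_one] at k1
  have k3 := key j j0 j1
  rw [k1] at k2 k3
  rcases hs with rfl | rfl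
  · rw [one_pow, mul_one] at k3
    exact (neg_one_pow_eq_one_iff_even (by norm_num)).1 k3
  · norm_num at k2

theorem eval_SignS (p : ℕ) [NeZero p] (a b a' b' : (ZMod p)ˣ)
    (h : Sim (lensH p a b) (lensH p a' b')) :
    ∃ (g : ZMod p) (s : ℂ), (s = 1 ∨ s = -1) ∧ ∀ t : ZMod p, t ≠ 0 → ∃ r : ℝ, 0 < r ∧
      (ZMod.stdAddChar (t * (a⁻¹).val) - 1) * (ZMod.stdAddChar (t * (b⁻¹).val) - 1) =
        s * ZMod.stdAddChar (t * g) * r * ((ZMod.stdAddChar (t * (a'⁻¹).val) - 1) *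
          (ZMod.stdAddChar (t * (b'⁻¹).val) - 1)) := by
  obtain ⟨w, ⟨g, s, hs, hw⟩, e⟩ := h
  refine ⟨g.toAdd, s, hs, fun t ht => ?_⟩
  let χ : Cp p →* ℂˣ := ((ZMod.stdAddChar (N := p)).mulShift t).toMonoidHom.toHomUnits
  have hχ : ∀ k : Cp p, (χ k : ℂ) = ZMod.stdAddChar (t * k.toAdd) := fun k => rfl
  have h1 : χ ≠ 1 := fun e => ht (ZMod.injective_stdAddChar (by
    have h2 := hχ (Multiplicative.ofAdd 1)
    rw [e, toAdd_ofAdd, mul_one] at h2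
    rw [← h2, AddChar.map_zero_eq_one]
    rfl))
  have h2 : ∀ k : ZMod p, evc χ (tp p k) = ZMod.stdAddChar (t * k) := fun k => by
    simp [evc, tp, hχ]
  have h3 : ∀ a b : (ZMod p)ˣ, lensH p a b ⟨χ, h1⟩ =
      (ZMod.stdAddChar (t * (a⁻¹).val) - 1) *
        (ZMod.stdAddChar (t * (b⁻¹).val) - 1) := fun a b => by
    change evc χ _ = _
    rw [map_mul, map_sub, map_sub, map_one, h2, h2]
  obtain ⟨r, r0, hr⟩ := hw ⟨χ, h1⟩
  refine ⟨r, r0, ?_⟩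
  rw [← h3, ← h3, e, Pi.mul_apply, hr, hχ]

theorem signS (hB : BeattyStmt) : SignStmt := by
  intro p _ hp a b a' b' h
  obtain ⟨g, s, hs, h⟩ := eval_SignS p a b a' b' h
  obtain ⟨c1, p1, e1⟩ := rep_SignS p hp (a⁻¹ * b')
  obtain ⟨c2, p2, e2⟩ := rep_SignS p hp (b⁻¹ * b')
  obtain ⟨c3, p3, e3⟩ := rep_SignS p hp (a'⁻¹ * b')
  obtain ⟨σ1, g1, s1, f1⟩ := flip_SignS p e1
  obtain ⟨σ2, g2, s2, f2⟩ := flip_SignS p e2
  obtain ⟨σ3, g3, s3, f3⟩ := flip_SignS p e3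
  have hev := even_SignS p hp c1 c2 c3 p1 p2 p3 (b' * g + g3 - g1 - g2) (s * σ1 * σ2 * σ3)
    (by rcases hs with rfl | rfl <;> rcases s1 with rfl | rfl <;> rcases s2 with rfl | rfl <;>
      rcases s3 with rfl | rfl <;> simp)
    fun t ht => by
      obtain ⟨r, r0, hr⟩ := h (t * b') (by rwa [Ne, Units.mul_left_eq_zero])
      refine ⟨r, r0, ?_⟩
      have m : ∀ u : (ZMod p)ˣ, t * b' * (u⁻¹ : (ZMod p)ˣ) = t * (u⁻¹ * b' : (ZMod p)ˣ) :=
        fun u => by rw [Units.val_mul]; ring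
      rw [m, m, m, m, f1, f2, f3, inv_mul_cancel, Units.val_one, mul_one] at hr
      have q : ZMod.stdAddChar (t * (b'.val * g + g3 - g1 - g2)) *
          (ZMod.stdAddChar (t * g1) * ZMod.stdAddChar (t * g2)) =
          ZMod.stdAddChar (t * b'.val * g) * ZMod.stdAddChar (t * g3) := by
        simp only [← AddChar.map_add_eq_mul]
        congr 1
        ring
      have q1 : σ1 ^ 2 = 1 := by rcases s1 with rfl | rfl <;> simp
      have q2 : σ2 ^ 2 = 1 := by rcases s2 with rfl | rfl <;> simp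
      have q3 : ZMod.stdAddChar (t * g1) * ZMod.stdAddChar (t * g2) ≠ 0 := by
        rw [← AddChar.map_add_eq_mul]
        exact ((ZMod.stdAddChar (N := p)).val_isUnit _).ne_zero
      refine mul_right_cancel₀ q3 ?_
      generalize ZMod.stdAddChar (t * (c1 : ZMod p)) - 1 = A at *
      generalize ZMod.stdAddChar (t * (c2 : ZMod p)) - 1 = B at *
      generalize ZMod.stdAddChar (t * (c3 : ZMod p)) - 1 = C at *
      generalize ZMod.stdAddChar t - 1 = D at *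
      linear_combination σ1 * σ2 * hr - s * σ1 * σ2 * σ3 * r * C * D * q -
        A * B * (ZMod.stdAddChar (t * g1) * ZMod.stdAddChar (t * g2)) * (σ2 ^ 2 * q1 + q2)
  have e4 : ((b'⁻¹ * b' : (ZMod p)ˣ) : ZMod p) = (1 : ℕ) ∨
      ((b'⁻¹ * b' : (ZMod p)ˣ) : ZMod p) = -(1 : ℕ) := Or.inl (by simp)
  rcases beatty_SignS hB p c1 c2 c3 hp p1 p2 p3 hev with ⟨rfl, rfl⟩ | ⟨rfl, rfl⟩ | ⟨rfl, rfl⟩
  · refine ⟨a⁻¹ * a', fun k => ?_⟩
    have m : (a : ZMod p) * ((a⁻¹ * a' : (ZMod p)ˣ) * k) = a' * k := by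
      rw [← mul_assoc, ← Units.val_mul, mul_inv_cancel_left]
    rw [tr2, tr2, cos_SignS p (pm_SignS e2 e1), m, cos_SignS p (pm_SignS e4 e3)]
  · refine ⟨1, fun k => ?_⟩
    rw [tr2, tr2, Units.val_one, one_mul, cos_SignS p (pm_SignS e1 e3),
      cos_SignS p (pm_SignS e2 e4)]
  · refine ⟨1, fun k => ?_⟩
    rw [tr2, tr2, Units.val_one, one_mul, cos_SignS p (pm_SignS e1 e4),
      cos_SignS p (pm_SignS e2 e3), add_comm]

end Pool.Agent.MP_6374aa_gt
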