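import Pool.Agent.MP_6374aa_gt.IfM
import Pool.Agent.MP_6374aa_gt.SphCov

/-! The universal cover of a lens space, with the traces of all deck transformations. -/

namespace Pool.Agent.MP_6374aa_gt

open Classical Topology Matrix

noncomputable section

theorem rot_mul_SphCov2 (s t s' t' : ℝ) : rot s t * rot s' t' = rot (s + s') (t + t') := by
  ext i j
  fin_cases i <;> fin_cases j <;>
    simp [rot, Matrix.mul_apply, Fin.sum_univ_four, Real.cos_add, Real.sin_add] <;> ring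

theorem rot_pow_SphCov2 (s t : ℝ) (n : ℕ) : rot s t ^ n = rot (n * s) (n * t) := by
  induction n with
  | zero =>
    ext i j
    fin_cases i <;> fin_cases j <;> simp [rot]
  | succ n ih =>
    rw [pow_succ, ih, rot_mul_SphCov2]
    congr 1 <;> push_cast <;> ring

theorem rot_tr_SphCov2 (s t : ℝ) : (rot s t).trace = 2 * Real.cos s + 2 * Real.cos t := by
  simp [rot, Matrix.trace, Fin.sum_univ_four]
  ring

theorem cos_SphCov2 (q : ℕ) [NeZero q] (a : (ZMod q)ˣ) (k : ZMod q) :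
    Real.cos (k.val * ang q a) = Real.cos (2 * Real.pi * (((a : ZMod q) * k).val : ℝ) / q) := by
  have hq : (q : ℝ) ≠ 0 := Nat.cast_ne_zero.2 (NeZero.ne q)
  have h1 : (((a : ZMod q).val : ℝ) * k.val) =
      (((a : ZMod q) * k).val : ℝ) + q * (((a : ZMod q).val * k.val / q : ℕ) : ℝ) := by
    rw [ZMod.val_mul]
    exact_mod_cast (Nat.mod_add_div _ _).symm
  rw [← Real.cos_add_nat_mul_two_pi (2 * Real.pi * (((a : ZMod q) * k).val : ℝ) / q)
    ((a : ZMod q).val * k.val / q)]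
  congr 1
  unfold ang
  field_simp
  linear_combination h1

theorem tr_SphCov2 {q : ℕ} [NeZero q] {a b : (ZMod q)ˣ} {M T : Matrix (Fin 4) (Fin 4) ℝ}
    (h1 : T.transpose * T = 1) (h2 : M * T = T * rot (ang q a) (ang q b)) (k : ZMod q) :
    tr2 q a b k = (M ^ k.val).trace := by
  have h3 : ∀ n : ℕ, M ^ n * T = T * rot (ang q a) (ang q b) ^ n := by
    intro n
    induction n with
    | zero => simp
    | succ n ih => rw [pow_succ', Matrix.mul_assoc, ih, ← Matrix.mul_assoc, h2, pow_succ',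
        Matrix.mul_assoc]
  have h4 : (M ^ k.val).trace = (M ^ k.val * T * T.transpose).trace := by
    rw [Matrix.mul_assoc, mul_eq_one_comm.1 h1, Matrix.mul_one]
  rw [h4, h3, Matrix.trace_mul_comm, ← Matrix.mul_assoc, h1, Matrix.one_mul, rot_pow_SphCov2,
    rot_tr_SphCov2, cos_SphCov2, cos_SphCov2, tr2]

theorem sphCov2 (hC : CovHomeoStmt) (hJ : JHomeoStmt) (hP : JPackStmt) (hV : JValStmt)
    (hT : TopHomeoStmt) (hE : EmptyStmt) (hO : OrthStmt) (hN : NfStmt) (hB : RlBasicStmt) :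
    SphCov2Stmt := by
  intro V E Λ _ G A _ _ _ _ p lab sh e L hS h3 hL
  let _ : Fintype Λ := Fintype.ofFinite Λ
  have : T2Space E := e.symm.t2Space
  have free : ∀ (g : Λ) (x : E), g • x = x → g = 1 := by
    intro g x hg
    obtain ⟨v, -, hv⟩ := Finset.exists_ne_zero_of_sum_ne_zero
      (show ∑ v, (p x).1 v ≠ 0 by rw [(p x).2.2.1]; exact one_ne_zero)
    have h1 := hS.smul g x v hv
    rw [hg] at h1
    exact inv_eq_one.1 (left_eq_mul.1 h1)
  obtain ⟨hc, hhc⟩ := hC V E Λ G A p lab sh hS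
  have f3 : Fin3 (cov G lab Λ) (up A Λ) := Fin3.cov hS.flat h3
  refine ⟨?_, fun q _ hq ψ hψ => ?_⟩
  · obtain ⟨hj, -⟩ := hJ 5 le_rfl
    obtain ⟨j3, jc, jz, -⟩ := hP 5 le_rfl
    obtain ⟨P, hP0⟩ := (hE _ _ _ j3).1 ⟨jc, jz⟩
    obtain ⟨P0, b, -⟩ := hT C1 _ _ (cov G lab Λ) (up A Λ) 1 1 (JG 5) Set.univ 1 1
      (hc.trans (e.trans hj.symm)) P (freeAct_SphCov _ _) (freeAct_SphCov _ _) f3
      (fun _ _ _ => rfl) (fun _ _ _ => rfl) (fun _ _ => rfl) (fr_SphCov P hP0 _)
    exact ((hE _ _ _ f3).2 ⟨P0, b.isEmpty⟩).2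
  · obtain ⟨l1, lm, lo, lf⟩ := hO E Λ e L hL free
    have lp : ∀ (g : Λ) (k : ℕ), L g ^ k = L (g ^ k) := by
      intro g k
      induction k with
      | zero => rw [pow_zero, pow_zero, l1]
      | succ k ih => rw [pow_succ, pow_succ, lm, ih]
    obtain ⟨a, b, T, hT1, hT2, -⟩ := hN q (by omega) (L (ψ (Multiplicative.ofAdd 1))) (lo _)
      (by rw [lp, ← map_pow, pow_SphCov, ZMod.natCast_self, ofAdd_zero, map_one, l1])
      (fun k hk => by
        rw [lp, ← map_pow, pow_SphCov]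
        refine lf _ fun h0 => hk ?_
        have h1 : Multiplicative.ofAdd (k : ZMod q) = 1 := hψ (h0.trans (map_one ψ).symm)
        exact (ZMod.natCast_eq_zero_iff k q).1 (ofAdd_eq_one.1 h1))
    refine ⟨a, b, fun k => ?_, ?_⟩
    · have h3 : k = Multiplicative.ofAdd 1 ^ (k.toAdd.val) := by
        rw [pow_SphCov, ZMod.natCast_zmod_val]
        rfl
      rw [tr_SphCov2 hT1 hT2, lp, ← map_pow, ← h3]
    obtain ⟨hj, hhj⟩ := hJ q hq
    obtain ⟨j3, jc, jz, jf⟩ := hP q hq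
    obtain ⟨P, hP0⟩ := (hE _ _ _ j3).1 ⟨jc, jz⟩
    have fd : FreeAct (cov G lab Λ) (up A Λ) (deck V ψ) := freeAct_deck hψ
    obtain ⟨β, hβ⟩ := (hB _ (cov G lab Λ) (up A Λ)).2 (Cp q) (deck V ψ) fd.toAct
    obtain ⟨β', hβ'⟩ := (hB _ (JG q) Set.univ).2 (Cp q) (Jα q a b) (jf a b).toAct
    have hT3 : T.transpose * L (ψ (Multiplicative.ofAdd 1)) =
        rot (ang q a) (ang q b) * T.transpose := by
      have h4 : T * T.transpose = 1 := mul_eq_one_comm.1 hT1
      calc T.transpose * L (ψ (Multiplicative.ofAdd 1))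
          = T.transpose * (L (ψ (Multiplicative.ofAdd 1)) * T) * T.transpose := by
            rw [Matrix.mul_assoc, Matrix.mul_assoc, h4, Matrix.mul_one]
        _ = _ := by rw [hT2, ← Matrix.mul_assoc, hT1, Matrix.one_mul]
    obtain ⟨P0, -, -, hv⟩ := hT (Cp q) _ _ (cov G lab Λ) (up A Λ) (deck V ψ) β (JG q) Set.univ
      (Jα q a b) β' (hc.trans (e.trans ((tS_SphCov hT1).trans hj.symm))) P fd (jf a b) f3 hβ hβ'
      (eqv_SphCov β β' _ fun y => by
        have h5 := hhc (ψ (Multiplicative.ofAdd 1)) y (β (Multiplicative.ofAdd 1) y)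
          fun v l => hβ (Multiplicative.ofAdd 1) y (v, l)
        refine hj.injective (Subtype.ext ?_)
        rw [hhj a b _ _ (hβ' (Multiplicative.ofAdd 1) _)]
        simp only [Homeomorph.trans_apply, Homeomorph.apply_symm_apply]
        change T.transpose.mulVec (e (hc _)).1 =
          (rot (ang q a) (ang q b)).mulVec (T.transpose.mulVec (e (hc y)).1)
        rw [h5, hL, mulVec_mulVec, mulVec_mulVec, hT3])
      (fr_SphCov P hP0 _)
    exact hv _ (hV q hq a b)

/-- A lens space as a piece. -/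
def piece_SphCov2 {V : Type} [Fintype V] {G : SimpleGraph V} (P : Prime3 G) (h : IsLens P) :
    Piece G where
  A := P.A
  closed := P.closed
  E := P.E
  Λ := P.Λ
  p := P.p
  cov := P.cov
  geom := Or.inr ⟨h.1, h.2.2⟩

theorem chi_SphCov2 {V : Type} [Fintype V] {G : SimpleGraph V} (P : Prime3 G) (h : IsLens P)
    (χ : P.Λ → ℝ) (hχ : Chi2 P χ) : PieceChi (piece_SphCov2 P h) χ := by
  refine ⟨fun (g k : P.Λ) => ?_, fun _ => hχ h⟩
  have := h.2.1
  change χ (k * g * k⁻¹) = χ g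
  rw [IsCyclic.commGroup.mul_comm k g, mul_inv_cancel_right]

theorem lensHomeo (hH : SphHomeoStmt) : LensHomeoStmt := by
  intro V V' _ _ G G' P P' χ χ' ω h h' c c' e
  exact hH V V' G G' (piece_SphCov2 P h) (piece_SphCov2 P' h') χ χ' ω (chi_SphCov2 P h χ c)
    (chi_SphCov2 P' h' χ' c') h.1 e

end

end Pool.Agent.MP_6374aa_gt
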