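import Pool.Agent.MP_6374aa_gt.IfD

namespace Pool.Agent.MP_6374aa_gt

open Topology Matrix

theorem descend_SphHomeo {E E' X X' : Type} [TopologicalSpace E] [TopologicalSpace E']
    [TopologicalSpace X] [TopologicalSpace X'] {p : E → X} {p' : E' → X'} (hp : IsQuotientMap p)
    (hp' : IsQuotientMap p') (h : E ≃ₜ E') (H : ∀ a b, p a = p b ↔ p' (h a) = p' (h b)) :
    Nonempty (X ≃ₜ X') := by
  have e1 : ∀ a, p' (h (Function.surjInv hp.surjective (p a))) = p' (h a) := fun a =>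
    (H _ _).1 (Function.surjInv_eq _ _)
  have e2 : ∀ b, p (h.symm (Function.surjInv hp'.surjective (p' b))) = p (h.symm b) := fun b =>
    (H _ _).2 (by rw [h.apply_symm_apply, h.apply_symm_apply, Function.surjInv_eq hp'.surjective])
  refine ⟨{ toFun := fun x => p' (h (Function.surjInv hp.surjective x))
            invFun := fun x => p (h.symm (Function.surjInv hp'.surjective x))
            left_inv := fun x => ?_
            right_inv := fun x => ?_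
            continuous_toFun := hp.continuous_iff.2 ?_
            continuous_invFun := hp'.continuous_iff.2 ?_ }⟩
  · beta_reduce
    rw [e2, h.symm_apply_apply, Function.surjInv_eq hp.surjective]
  · beta_reduce
    rw [e1, h.apply_symm_apply, Function.surjInv_eq hp'.surjective]
  · exact (hp'.continuous.comp h.continuous).congr fun a => (e1 a).symm
  · exact (hp.continuous.comp h.symm.continuous).congr fun b => (e2 b).symm

theorem mem_S3_SphHomeo {x : Fin 4 → ℝ} : x ∈ S3 ↔ x ⬝ᵥ x = 1 := by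
  simp only [S3, Set.mem_ofPred_eq, dotProduct, sq]

theorem pos_SphHomeo {T T' : Matrix (Fin 4) (Fin 4) ℝ} (h : T' * T = 1) (x : S3) :
    0 < √(T *ᵥ x.1 ⬝ᵥ T *ᵥ x.1) := by
  refine Real.sqrt_pos.2 (lt_of_le_of_ne (Finset.sum_nonneg fun _ _ => mul_self_nonneg _) ?_)
  intro h0
  have h1 : T *ᵥ x.1 = 0 := dotProduct_self_eq_zero.1 h0.symm
  have h2 : x.1 = 0 := by rw [← one_mulVec x.1, ← h, ← mulVec_mulVec, h1, mulVec_zero]
  have h3 := mem_S3_SphHomeo.1 x.2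
  rw [h2] at h3
  simp at h3

/-- The radial projection of a linear isomorphism. -/
noncomputable def rad_SphHomeo {T T' : Matrix (Fin 4) (Fin 4) ℝ} (h : T' * T = 1) (x : S3) : S3 :=
  ⟨(√(T *ᵥ x.1 ⬝ᵥ T *ᵥ x.1))⁻¹ • T *ᵥ x.1, mem_S3_SphHomeo.2 (by
    have h1 := pos_SphHomeo h x
    have h2 := Real.mul_self_sqrt (Real.sqrt_pos.1 h1).le
    rw [smul_dotProduct, dotProduct_smul, smul_eq_mul, smul_eq_mul]
    generalize √(T *ᵥ x.1 ⬝ᵥ T *ᵥ x.1) = s at h1 h2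
    rw [← h2]
    field_simp)⟩

theorem rad_cont_SphHomeo {T T' : Matrix (Fin 4) (Fin 4) ℝ} (h : T' * T = 1) :
    Continuous (rad_SphHomeo h) := by
  have h1 : Continuous fun x : S3 => T *ᵥ x.1 :=
    continuous_const.matrix_mulVec continuous_subtype_val
  have h2 : Continuous fun x : S3 => (√(T *ᵥ x.1 ⬝ᵥ T *ᵥ x.1))⁻¹ :=
    (h1.dotProduct h1).sqrt.inv₀ fun x => (pos_SphHomeo h x).ne'
  exact (h2.smul h1).subtype_mk _

theorem rad_rad_SphHomeo {T T' : Matrix (Fin 4) (Fin 4) ℝ} (h : T' * T = 1) (h' : T * T' = 1)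
    (x : S3) : rad_SphHomeo h' (rad_SphHomeo h x) = x := by
  refine Subtype.ext ?_
  have h1 := inv_pos.2 (pos_SphHomeo h x)
  have e : T' *ᵥ (rad_SphHomeo h x).1 = (√(T *ᵥ x.1 ⬝ᵥ T *ᵥ x.1))⁻¹ • x.1 := by
    simp only [rad_SphHomeo, mulVec_smul, mulVec_mulVec, h, one_mulVec]
  change (√(T' *ᵥ (rad_SphHomeo h x).1 ⬝ᵥ T' *ᵥ (rad_SphHomeo h x).1))⁻¹ •
    T' *ᵥ (rad_SphHomeo h x).1 = x.1
  rw [e]
  generalize (√(T *ᵥ x.1 ⬝ᵥ T *ᵥ x.1))⁻¹ = c at h1
  rw [smul_dotProduct, dotProduct_smul, mem_S3_SphHomeo.1 x.2, smul_eq_mul, smul_eq_mul, mul_one,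
    Real.sqrt_mul_self h1.le, smul_smul, inv_mul_cancel₀ h1.ne', one_smul]

theorem rad_eqv_SphHomeo {T T' M M' : Matrix (Fin 4) (Fin 4) ℝ} (h : T' * T = 1)
    (hM : T * M = M' * T) (ho : M'ᵀ * M' = 1) (x y : S3) (hy : y.1 = M *ᵥ x.1) :
    (rad_SphHomeo h y).1 = M' *ᵥ (rad_SphHomeo h x).1 := by
  have e : T *ᵥ y.1 = M' *ᵥ (T *ᵥ x.1) := by rw [hy, mulVec_mulVec, mulVec_mulVec, hM]
  have e2 : ∀ v, M' *ᵥ v ⬝ᵥ M' *ᵥ v = v ⬝ᵥ v := fun v => by
    rw [dotProduct_mulVec, vecMul_mulVec, ho, vecMul_one]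
  simp only [rad_SphHomeo]
  rw [e, e2, mulVec_smul]

theorem tr_SphHomeo (hN : NfStmt) {Λ : Type} [Group Λ] (L : Λ →* Matrix (Fin 4) (Fin 4) ℝ)
    (ho : ∀ g, (L g)ᵀ * L g = 1) (hf : ∀ g, g ≠ 1 → ∀ x, L g *ᵥ x = x → x = 0) (g : Λ)
    [NeZero (orderOf g)] (h2 : 2 ≤ orderOf g) :
    ∃ a b, (L g).trace = cosum (orderOf g) a b := by
  obtain ⟨a, b, _, -, -, h⟩ := hN (orderOf g) h2 (L g) (ho g)
    (by rw [← map_pow, pow_orderOf_eq_one, map_one])
    (fun k hk x hx => hf (g ^ k) (fun e => hk (orderOf_dvd_of_pow_eq_one e)) x (by rwa [map_pow]))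
  exact ⟨a, b, h⟩

theorem sphHomeo (hO : OrthStmt) (hN : NfStmt) (hS : SmallStmt) (hR : RepStmt) : SphHomeoStmt := by
  intro V V' _ _ G G' P P' χ χ' ω hχ hχ' hfin h5
  obtain ⟨e, L, hL, ht⟩ := hχ.2 hfin
  obtain ⟨e', L', hL', ht'⟩ := hχ'.2 (Finite.of_equiv _ ω.toEquiv)
  obtain ⟨a1, a2, a3, a4⟩ := hO _ _ e L hL fun g x hx =>
    isCancelSMul_iff_eq_one_of_smul_eq.1 P.cov.isCancelSMul g x hx
  obtain ⟨b1, b2, b3, b4⟩ := hO _ _ e' L' hL' fun g x hx =>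
    isCancelSMul_iff_eq_one_of_smul_eq.1 P'.cov.isCancelSMul g x hx
  let M : P.Λ →* Matrix (Fin 4) (Fin 4) ℝ := ⟨⟨L, a1⟩, a2⟩
  let M' : P.Λ →* Matrix (Fin 4) (Fin 4) ℝ :=
    (⟨⟨L', b1⟩, b2⟩ : P'.Λ →* Matrix (Fin 4) (Fin 4) ℝ).comp ω.toMonoidHom
  have htr : ∀ g, (M g).trace = (M' g).trace := fun g => by
    rcases le_or_gt 5 (orderOf g) with h | h
    · exact (ht g).symm.trans ((h5 g h).symm.trans (ht' _))
    have h0 := orderOf_pos g
    rcases le_or_gt 2 (orderOf g) with h2 | h2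
    · have : NeZero (orderOf g) := ⟨h0.ne'⟩
      obtain ⟨a, b, c1⟩ := tr_SphHomeo hN M a3 a4 g h2
      obtain ⟨a', b', c2⟩ := tr_SphHomeo hN M' (fun g => b3 (ω g))
        (fun g hg => b4 (ω g) (by simpa using hg)) g h2
      rw [c1, c2]
      exact hS _ (by omega) a b a' b'
    · rw [orderOf_eq_one_iff.1 (by omega : orderOf g = 1), map_one, map_one]
  obtain ⟨T, T', c1, c2, c3⟩ := hR _ M M' htr
  let r : S3 ≃ₜ S3 :=
    { toFun := rad_SphHomeo c2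
      invFun := rad_SphHomeo c1
      left_inv := rad_rad_SphHomeo c2 c1
      right_inv := rad_rad_SphHomeo c1 c2
      continuous_toFun := rad_cont_SphHomeo c2
      continuous_invFun := rad_cont_SphHomeo c1 }
  let H : P.E ≃ₜ P'.E := (e.trans r).trans e'.symm
  have hH : ∀ (g : P.Λ) x, H (g • x) = ω g • H x := fun g x => by
    refine e'.injective (Subtype.ext ?_)
    have d : ∀ y, e' (H y) = rad_SphHomeo c2 (e y) := fun y => e'.apply_symm_apply _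
    rw [hL', d, d]
    exact rad_eqv_SphHomeo c2 (c3 g) (b3 (ω g)) _ _ (hL g x)
  refine descend_SphHomeo P.cov.toIsQuotientMap P'.cov.toIsQuotientMap H fun a b => ?_
  rw [P.cov.apply_eq_iff_mem_orbit, P'.cov.apply_eq_iff_mem_orbit]
  constructor
  · rintro ⟨g, rfl⟩
    exact ⟨ω g, (hH g b).symm⟩
  · rintro ⟨g, hg⟩
    refine ⟨ω.symm g, H.injective ?_⟩
    beta_reduce at hg ⊢
    rw [hH, ω.apply_symm_apply, hg]

end Pool.Agent.MP_6374aa_gt
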