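import Pool.Agent.MP_6374aa_gt.IfA

namespace Pool.Agent.MP_6374aa_gt

open Matrix

section
variable {S R X Y Z : Type} [CommRing S] [CommRing R] [DecidableEq X] [DecidableEq Y]

/-- Coordinate projections. -/
def D_Split (S : Type) [CommRing S] (x : X → Bool) : Matrix X X S :=
  diagonal fun a => if x a then 1 else 0

lemma not_Split (x : X → Bool) : D_Split S (fun a => !x a) = 1 - D_Split S x := by
  rw [D_Split, D_Split, ← diagonal_one, diagonal_sub]
  congr 1
  funext a
  cases x a <;> simp

lemma map_Split (f : S →+* R) (x : X → Bool) : (D_Split S x).map f = D_Split R x := by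
  rw [D_Split, D_Split, diagonal_map (map_zero f)]
  congr 1
  funext a
  cases x a <;> simp

lemma elim_Split (x : X → Bool) (y : Y → Bool) :
    D_Split S (Sum.elim x y) = fromBlocks (D_Split S x) 0 0 (D_Split S y) := by
  rw [D_Split, D_Split, D_Split, fromBlocks_diagonal]
  congr 1
  funext a
  cases a <;> rfl

variable [Fintype X] [Fintype Y]

lemma le_Split {y t : X → Bool} (h : ∀ a, y a → t a) :
    D_Split S y * D_Split S t = D_Split S y ∧ D_Split S t * D_Split S y = D_Split S y := by
  simp only [D_Split, diagonal_mul_diagonal]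
  constructor <;> congr 1 <;> funext a <;> by_cases e : y a <;> simp [e, h a]

lemma ext_Split {t : X → Bool} {t' : Y → Bool} {A B : Matrix X Y S}
    (h : ∀ a b, t a → t' b → A a b = B a b) :
    D_Split S t * A * D_Split S t' = D_Split S t * B * D_Split S t' := by
  ext a b
  simp only [D_Split, mul_diagonal, diagonal_mul]
  by_cases e : t a <;> by_cases e' : t' b <;> simp [e, e', h a b]

lemma app_Split {W : Type} (A : Matrix Z X S) (x : X → Bool) (B : Matrix X W S) (a : Z) (b : W) :
    (A * D_Split S x * B) a b = ∑ i, if x i then A a i * B i b else 0 := by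
  simp only [mul_apply (N := B), D_Split, mul_diagonal, mul_ite, mul_one, mul_zero, ite_mul,
    zero_mul]

lemma sum_Split {W : Type} (A : Matrix Z X S) (x : X → Bool) (B : Matrix X W S) (a : Z) (b : W) :
    (A * D_Split S x * B) a b = ∑ i : {i // x i}, A a i * B i b := by
  rw [app_Split, ← Finset.sum_filter]
  exact Finset.sum_subtype _ (by simp) _

lemma card_Split [Nontrivial R] {A : Matrix X Y R} {B : Matrix Y X R} (h : B * A = 1)
    {x : Y → Bool} {y : X → Bool} (h1 : A * D_Split R x * B = D_Split R y) :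
    Nonempty ({i // x i} ≃ {i // y i}) := by
  have h2 : B * D_Split R y * A = D_Split R x := by
    rw [← h1, ← Matrix.mul_assoc, ← Matrix.mul_assoc, h, Matrix.one_mul, Matrix.mul_assoc, h,
      Matrix.mul_one]
  refine ⟨indexEquivOfInv (A := R) (M := B.submatrix Subtype.val Subtype.val)
    (M' := A.submatrix Subtype.val Subtype.val) ?_ ?_⟩
  · ext a b
    refine (sum_Split B y A a b).symm.trans ?_
    rw [h2]
    simp [D_Split, diagonal_apply, one_apply, a.2, Subtype.ext_iff]
  · ext a b
    refine (sum_Split A x B a b).symm.trans ?_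
    rw [h1]
    simp [D_Split, diagonal_apply, one_apply, a.2, Subtype.ext_iff]

lemma equiv_Split [Nontrivial R] {A : Matrix X Y R} {B : Matrix Y X R} (h : B * A = 1)
    (h' : A * B = 1) {x : Y → Bool} {y : X → Bool} (h1 : A * D_Split R x * B = D_Split R y) :
    ∃ σ : X ≃ Y, ∀ a, x (σ a) = y a := by
  obtain ⟨e1⟩ := card_Split h h1
  obtain ⟨e2⟩ := card_Split (x := fun a => !x a) (y := fun a => !y a) h (by
    rw [not_Split, not_Split, Matrix.mul_sub, Matrix.sub_mul, Matrix.mul_one, h', h1])
  let e3 : {i // ¬ y i} ≃ {i // ¬ x i} := ((Equiv.subtypeEquivRight fun a => by simp).trans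
    e2.symm).trans (Equiv.subtypeEquivRight fun a => by simp)
  refine ⟨(Equiv.sumCompl fun a => y a).symm.trans ((e1.symm.sumCongr e3).trans
    (Equiv.sumCompl fun a => x a)), fun a => ?_⟩
  obtain ⟨a | a, rfl⟩ := (Equiv.sumCompl fun a => y a).surjective a
  · rw [Equiv.trans_apply, Equiv.symm_apply_apply]
    exact (e1.symm a).2.trans a.2.symm
  · rw [Equiv.trans_apply, Equiv.symm_apply_apply]
    exact (Bool.eq_false_iff.2 (e3 a).2).trans (Bool.eq_false_iff.2 a.2).symm

lemma idem_Split {T : Type} [Ring T] {P : T} (hP : P * P = P) (a b : T) :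
    (P * a * P + (1 - P)) * (P * b * P + (1 - P)) = P * a * P * b * P + (1 - P) ∧
      (a * P = P * a → (P * a * P + (1 - P)) * ((1 - P) * a * (1 - P) + (1 - (1 - P))) = a) := by
  have e1 : ∀ x, P * (P * x) = P * x := fun x => by rw [← mul_assoc, hP]
  constructor
  · simp only [mul_add, add_mul, mul_sub, sub_mul, mul_one, one_mul, mul_assoc, e1, hP]
    abel
  · intro h
    have e2 : ∀ x, a * (P * x) = P * (a * x) := fun x => by rw [← mul_assoc, h, mul_assoc]
    simp only [mul_add, add_mul, mul_sub, sub_mul, mul_one, one_mul, mul_assoc, e1, hP, e2, h]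
    abel

lemma side_Split (f : S →+* R) (As Bs Q Q' V : Matrix X X S) (A : Matrix X X R) (y t : X → Bool)
    (hy : ∀ a, y a → t a) (hQ : D_Split S t * Q = Q * D_Split S t)
    (hQ' : D_Split S t * Q' = Q' * D_Split S t)
    (h1 : ∀ a b, t a → t b → (As * D_Split S y * Bs) a b = V a b) (h2 : Q * V * Q' = D_Split S y)
    (h3 : ∀ a b, t a → y b → A a b = f (As a b)) : ∃ u : Sˣ,
      (D_Split R y * (Q.map f * A) * D_Split R y + (1 - D_Split R y)).det = f u := by
  have hP := (le_Split (S := S) (y := y) fun _ => id).1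
  have e1 : D_Split S y * Q = D_Split S y * Q * D_Split S t := by
    rw [mul_assoc, ← hQ, ← mul_assoc, (le_Split hy).1]
  have e2 : Q' * D_Split S y = D_Split S t * (Q' * D_Split S y) := by
    rw [← mul_assoc, hQ', mul_assoc, (le_Split hy).2]
  have e3 : ∀ U, D_Split S y * Q * U * (Q' * D_Split S y) =
      D_Split S y * Q * (D_Split S t * U * D_Split S t) * (Q' * D_Split S y) := fun U => by
    conv_lhs => rw [e1, e2]
    simp only [mul_assoc]
  have e4 := e3 (As * D_Split S y * Bs)
  rw [ext_Split h1, ← e3 V] at e4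
  have e5 : D_Split S y * (Q * As) * D_Split S y * (Bs * Q') * D_Split S y = D_Split S y := by
    simp only [mul_assoc] at e4 h2 ⊢
    rw [e4, ← mul_assoc V, ← mul_assoc Q, h2, hP, hP]
  have e6 := (idem_Split hP (Q * As) (Bs * Q')).1
  rw [e5, add_sub_cancel] at e6
  obtain ⟨u, hu⟩ := isUnit_det_of_right_inverse e6
  refine ⟨u, ?_⟩
  have e7 := congrArg f.mapMatrix e1
  have e8 := ext_Split (B := As.map f) h3
  rw [hu, RingHom.map_det]
  simp only [map_add, map_sub, map_mul, map_one, RingHom.mapMatrix_apply, map_Split] at e7 ⊢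
  rw [← mul_assoc, ← mul_assoc, e7]
  simp only [mul_assoc] at e8 ⊢
  rw [e8]

end

section
variable {S S0 I J K : Type} [CommRing S] [CommRing S0] [Fintype I] [DecidableEq I] [Fintype J]
  [DecidableEq J] [Fintype K] [DecidableEq K] {uI : I → ℤ} {uJ : J → ℤ} {M : Matrix J I S}
  {N : Matrix I J S} {M0 : Matrix J I S0} {N0 : Matrix I J S0}

omit [Fintype I] [DecidableEq I] [Fintype J] [DecidableEq J] in
lemma far_Split (h : Band uI uJ M) {j : J} {i : I} (h1 : uJ j + 1 < uI i ∨ uI i + 1 < uJ j) :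
    M j i = 0 := by
  by_contra h2
  have := abs_le.1 (h j i h2)
  omega

omit [Fintype J] in
lemma out_Split (bM : Band uI uJ M) (bN : Band uJ uI N) {j j' : J}
    (h : (M * N) j j' = if j = j' then 1 else 0) (h1 : ¬ (|uJ j| ≤ 1 ∧ |uJ j'| ≤ 1)) :
    (M * D_Split S (fun i => decide (uI i ≤ 0)) * N) j j' =
      if j = j' then if uJ j ≤ 0 then 1 else 0 else 0 := by
  rw [abs_le, abs_le] at h1
  rw [app_Split]
  by_cases h2 : 1 < uJ j ∨ 1 < uJ j'
  · rw [Finset.sum_eq_zero fun i _ => ?_]
    · split_ifs with e e'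
      · subst e
        omega
      · rfl
      · rfl
    · split_ifs with e
      · rw [decide_eq_true_iff] at e
        rcases h2 with h2 | h2
        · rw [far_Split bM (by omega), zero_mul]
        · rw [far_Split bN (by omega), mul_zero]
      · rfl
  · rw [Finset.sum_congr rfl (g := fun i => M j i * N i j') fun i _ => ?_, ← mul_apply, h]
    · split_ifs with e e'
      · rfl
      · subst e
        omega
      · rfl
    · split_ifs with e
      · rfl
      · rw [decide_eq_true_iff] at e
        by_cases h3 : uJ j < -1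
        · rw [far_Split bM (by omega), zero_mul]
        · rw [far_Split bN (by omega), mul_zero]

lemma e0_Split (bM : Band uI uJ M0) (bN : Band uJ uI N0)
    (MN : ∀ j j', |uJ j| ≤ 10 → |uJ j'| ≤ 10 → (M0 * N0) j j' = if j = j' then 1 else 0)
    (NM : ∀ i i', |uI i| ≤ 10 → |uI i'| ≤ 10 → (N0 * M0) i i' = if i = i' then 1 else 0)
    {E : Matrix J J S0} (hE : E = M0 * D_Split S0 (fun i => decide (uI i ≤ 0)) * N0) {j j' : J}
    (hj : |uJ j| ≤ 1) (hj' : |uJ j'| ≤ 1) :
    (E * D_Split S0 (fun j => decide (|uJ j| ≤ 1)) * E) j j' = E j j' := by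
  have h0 := abs_le.1 hj
  have h0' := abs_le.1 hj'
  have h1 : ∀ a, (M0 * N0) j a = if j = a then 1 else 0 := fun a => by
    by_cases h : |uJ a| ≤ 10
    · exact MN j a (by omega) h
    · rw [if_neg (by rintro rfl; omega), mul_apply]
      rw [abs_le] at h
      refine Finset.sum_eq_zero fun i _ => ?_
      by_cases h2 : uJ j + 1 < uI i ∨ uI i + 1 < uJ j
      · rw [far_Split bM h2, zero_mul]
      · rw [far_Split bN (by omega), mul_zero]
  rw [app_Split, Finset.sum_congr rfl (g := fun a => E j a * E a j') fun a _ => ?_, ← mul_apply]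
  swap
  · split_ifs with h
    · rfl
    · rw [decide_eq_true_iff] at h
      rw [hE, out_Split bM bN (h1 a) fun h2 => h h2.2, if_neg (by rintro rfl; exact h hj),
        zero_mul]
  have h2 : E * E = M0 * D_Split S0 (fun i => decide (uI i ≤ 0)) *
      (N0 * M0 * D_Split S0 (fun i => decide (uI i ≤ 0)) * N0) := by
    simp only [hE, Matrix.mul_assoc]
  rw [h2, hE, app_Split, app_Split]
  refine Finset.sum_congr rfl fun i _ => ?_
  split_ifs with h
  swap
  · rfl
  by_cases h3 : |uI i| ≤ 10
  swap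
  · rw [abs_le] at h3
    rw [far_Split bM (by omega), zero_mul, zero_mul]
  rw [app_Split, Finset.sum_eq_single i (fun a _ ha => ?_) fun h => absurd (Finset.mem_univ i) h,
    if_pos h, NM i i h3 h3, if_pos rfl, one_mul]
  split_ifs
  · by_cases h4 : |uI a| ≤ 10
    · rw [NM i a h3 h4, if_neg ha.symm, zero_mul]
    · rw [abs_le] at h4
      rw [far_Split bN (by omega), mul_zero]
  · rfl

/-- Regrouping of the rows. -/
def phi_Split (w : J → Bool) (K : Type) : ({j // w j} ⊕ K) ⊕ {j // ¬ w j} ≃ J ⊕ K :=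
  ((Equiv.sumAssoc _ _ _).trans ((Equiv.refl _).sumCongr (Equiv.sumComm _ _))).trans
    ((Equiv.sumAssoc _ _ _).symm.trans ((Equiv.sumCompl fun j => w j).sumCongr (Equiv.refl K)))

omit [Fintype J] in
lemma key_Split (f : S0 →+* S) (bM : Band uI uJ M) (bN : Band uJ uI N) (bM0 : Band uI uJ M0)
    (lM : ∀ j i, |uJ j| ≤ 10 → |uI i| ≤ 10 → f (M0 j i) = M j i)
    (lN : ∀ i j, |uI i| ≤ 10 → |uJ j| ≤ 10 → f (N0 i j) = N i j) (t : J → Bool)
    (MN : ∀ j j', t j → t j' → (M * N) j j' = if j = j' then 1 else 0)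
    (π : K → Bool) (a b : ({j // decide (|uJ j| ≤ 1)} ⊕ K) ⊕ {j // ¬ decide (|uJ j| ≤ 1)})
    (ha : Sum.elim t (fun _ => true) (phi_Split _ K a) = true)
    (hb : Sum.elim t (fun _ => true) (phi_Split _ K b) = true) :
    (fromBlocks M 0 0 (1 : Matrix K K S) * D_Split S (Sum.elim (fun i => decide (uI i ≤ 0)) π) *
      fromBlocks N 0 0 (1 : Matrix K K S)) (phi_Split _ K a) (phi_Split _ K b) =
      f (fromBlocks (fromBlocks ((M0 * D_Split S0 (fun i => decide (uI i ≤ 0)) * N0).submatrix
        Subtype.val Subtype.val) 0 0 (D_Split S0 π)) 0 0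
        (D_Split S0 fun j => decide (uJ j.1 ≤ 0)) a b) ∧
    (fromBlocks M 0 0 (1 : Matrix K K S) * fromBlocks N 0 0 (1 : Matrix K K S)) (phi_Split _ K a)
      (phi_Split _ K b) = (1 : Matrix _ _ S) a b := by
  constructor
  · rw [elim_Split, fromBlocks_multiply, fromBlocks_multiply]
    simp only [Matrix.mul_zero, Matrix.zero_mul, add_zero, zero_add, Matrix.mul_one,
      Matrix.one_mul]
    rcases a with (⟨a, h1⟩ | a) | ⟨a, h1⟩ <;> rcases b with (⟨b, h2⟩ | b) | ⟨b, h2⟩
    · have h3 := abs_le.1 (of_decide_eq_true h1)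
      have h4 := of_decide_eq_true h2
      refine (app_Split M _ N a b).trans ((congrArg f (app_Split M0 _ N0 a b)).trans ?_).symm
      symm
      rw [map_sum]
      refine Finset.sum_congr rfl fun i _ => ?_
      split_ifs
      · by_cases h : |uI i| ≤ 10
        · rw [map_mul, lM a i (by rw [abs_le]; omega) h, lN i b h (by omega)]
        · rw [abs_le] at h
          rw [far_Split bM (by omega), far_Split bM0 (by omega), zero_mul, zero_mul, map_zero]
      · exact (map_zero f).symm
    · exact (map_zero f).symm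
    · refine (out_Split bM bN (MN a b ha hb) fun h => h2 (decide_eq_true h.2)).trans ?_
      rw [if_neg (by rintro rfl; exact h2 h1)]
      exact (map_zero f).symm
    · exact (map_zero f).symm
    · exact (congrFun (congrFun (map_Split f π) a) b).symm
    · exact (map_zero f).symm
    · refine (out_Split bM bN (MN a b ha hb) fun h => h1 (decide_eq_true h.1)).trans ?_
      rw [if_neg (by rintro rfl; exact h1 h2)]
      exact (map_zero f).symm
    · exact (map_zero f).symm
    · refine (out_Split bM bN (MN a b ha hb) fun h => h1 (decide_eq_true h.1)).trans ?_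
      simp [D_Split, diagonal_apply, apply_ite f]
  · rw [← submatrix_one_equiv (phi_Split _ K), submatrix_apply, fromBlocks_multiply,
      ← fromBlocks_one]
    simp only [Matrix.mul_zero, Matrix.zero_mul, add_zero, zero_add, Matrix.mul_one]
    generalize phi_Split _ K a = c at ha
    generalize phi_Split _ K b = d at hb
    rcases c with c | c <;> rcases d with d | d
    · exact MN c d ha hb
    · rfl
    · rfl
    · rfl

end

theorem split : SplitStmt := by
  intro S0 Sp Sm R I J _ _ _ _ _ _ _ _ _ qp qm rp rm uI uJ M N Mp Np Mm Nm M0 N0 hq hS hMN hNM bM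
    bN Lp Lm Lp0 Lm0 e
  obtain ⟨K, _, _, π, π', Q, Q', hQ1, hQ2, hQ3⟩ := hS {j // decide (|uJ j| ≤ 1)}
    ((M0 * D_Split S0 (fun i => decide (uI i ≤ 0)) * N0).submatrix Subtype.val Subtype.val) (by
      ext a b
      exact (sum_Split _ _ _ a.1 b.1).symm.trans (e0_Split Lp0.bM Lp0.bN
        (fun j j' h h' => by convert Lp0.MN j j' h h')
        (fun j j' h h' => by convert Lp0.NM j j' h h') rfl (of_decide_eq_true a.2) (of_decide_eq_true b.2)))
  have kp := fun a b ha hb => key_Split qp Lp.bM Lp.bN Lp0.bM Lp0.lM Lp0.lN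
    (fun j => decide (-1 ≤ uJ j)) (fun j j' h h' => by
      convert Lp.MN j j' (by have := of_decide_eq_true h; omega)
        (by have := of_decide_eq_true h'; omega)) π a b ha hb
  have km := fun a b ha hb => key_Split qm Lm.bM Lm.bN Lm0.bM Lm0.lM Lm0.lN
    (fun j => decide (uJ j ≤ 1)) (fun j j' h h' => by
      convert Lm.MN j j' (by have := of_decide_eq_true h; omega)
        (by have := of_decide_eq_true h'; omega)) π a b ha hb
  have kr := fun a b => key_Split (rp.comp qp) bM bN Lp0.bM
    (fun j i h h' => by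
      rw [RingHom.comp_apply, Lp0.lM j i h h', Lp.lM j i (abs_le.1 h).1 (abs_le.1 h').1])
    (fun j i h h' => by
      rw [RingHom.comp_apply, Lp0.lN j i h h', Lp.lN j i (abs_le.1 h).1 (abs_le.1 h').1])
    (fun _ => true) (fun j j' _ _ => by rw [hMN, one_apply]) π a b
    (by cases phi_Split _ K a <;> rfl) (by cases phi_Split _ K b <;> rfl)
  have hT : ∀ (S : Type) [CommRing S] (t : J → Bool), (∀ j, |uJ j| ≤ 1 → t j) →
      ∀ U : Matrix ({j // decide (|uJ j| ≤ 1)} ⊕ K) _ S,
      D_Split S (fun a => Sum.elim t (fun _ => true) (phi_Split _ K a)) * fromBlocks U 0 0 1 =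
        fromBlocks U 0 0 1 * D_Split S fun a => Sum.elim t (fun _ => true) (phi_Split _ K a) := by
    intro S _ t ht U
    have h1 : (fun a => Sum.elim t (fun _ => true) (phi_Split (fun j => decide (|uJ j| ≤ 1)) K a)) =
        Sum.elim (fun _ => true) fun j => t j.1 := by
      funext a
      rcases a with (a | a) | a
      · exact ht a (of_decide_eq_true a.2)
      · rfl
      · rfl
    rw [h1, elim_Split, fromBlocks_multiply, fromBlocks_multiply]
    simp [D_Split]
  have hZ : fromBlocks Q 0 0 1 * fromBlocks (fromBlocks ((M0 * D_Split S0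
      (fun i => decide (uI i ≤ 0)) * N0).submatrix Subtype.val Subtype.val) 0 0 (D_Split S0 π)) 0 0
        (D_Split S0 fun j : {j // ¬ decide (|uJ j| ≤ 1)} => decide (uJ j.1 ≤ 0)) *
      fromBlocks Q' 0 0 1 = D_Split S0 (Sum.elim π' fun j => decide (uJ j.1 ≤ 0)) := by
    rw [elim_Split, fromBlocks_multiply, fromBlocks_multiply]
    simp only [Matrix.mul_zero, Matrix.zero_mul, add_zero, zero_add, Matrix.mul_one,
      Matrix.one_mul]
    exact congrArg (fromBlocks · 0 0 _) hQ3
  have hQ : ∀ A B : Matrix ({j // decide (|uJ j| ≤ 1)} ⊕ K) ({j // decide (|uJ j| ≤ 1)} ⊕ K) S0,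
      A * B = 1 → fromBlocks A 0 0 1 * fromBlocks B 0 0 (1 : Matrix {j // ¬ decide (|uJ j| ≤ 1)}
        {j // ¬ decide (|uJ j| ≤ 1)} S0) = (1 : Matrix (_ ⊕ {j // ¬ decide (|uJ j| ≤ 1)}) _ S0) := by
    intro A B h
    rw [fromBlocks_multiply, ← fromBlocks_one]
    simp [h]
  have hTp := fun U => hT Sp (fun j => decide (-1 ≤ uJ j))
    (fun j h => decide_eq_true (abs_le.1 h).1) (Matrix.map U qp)
  have hTm := fun U => hT Sm (fun j => decide (uJ j ≤ 1))
    (fun j h => decide_eq_true (abs_le.1 h).2) (Matrix.map U qm)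
  have hb : ∀ (S : Type) [CommRing S] (f : S0 →+* S)
      (U : Matrix ({j // decide (|uJ j| ≤ 1)} ⊕ K) ({j // decide (|uJ j| ≤ 1)} ⊕ K) S0),
      fromBlocks (U.map f) 0 0 1 = (fromBlocks U 0 0 (1 : Matrix {j // ¬ decide (|uJ j| ≤ 1)}
        {j // ¬ decide (|uJ j| ≤ 1)} S0)).map f := fun S _ f U => by
    rw [fromBlocks_map]
    simp
  simp only [hb] at hTp hTm
  have hyp : ∀ a, (!Sum.elim π' (fun j => decide (uJ j.1 ≤ 0)) a) = true → Sum.elim
      (fun j => decide (-1 ≤ uJ j)) (fun _ => true)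
      (phi_Split (fun j => decide (|uJ j| ≤ 1)) K a) = true := by
    rintro ((a | a) | a) h
    · exact decide_eq_true (abs_le.1 (of_decide_eq_true a.2)).1
    · rfl
    · exact decide_eq_true (by simp at h; exact (by omega : -1 ≤ uJ a.1))
  have hym : ∀ a, Sum.elim π' (fun j => decide (uJ j.1 ≤ 0)) a = true → Sum.elim
      (fun j => decide (uJ j ≤ 1)) (fun _ => true)
      (phi_Split (fun j => decide (|uJ j| ≤ 1)) K a) = true := by
    rintro ((a | a) | a) h
    · exact decide_eq_true (abs_le.1 (of_decide_eq_true a.2)).2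
    · rfl
    · exact decide_eq_true (by simp at h; exact (by omega : uJ a.1 ≤ 1))
  have hQ4 := hQ Q Q' hQ1
  have hQ5 := hQ Q' Q hQ2
  have hTp1 := hTp Q
  have hTp2 := hTp Q'
  have hTm1 := hTm Q
  have hTm2 := hTm Q'
  clear hT hQ hTp hTm hb hQ1 hQ2 hQ3
  generalize fromBlocks Q 0 0 (1 : Matrix {j // ¬ decide (|uJ j| ≤ 1)}
    {j // ¬ decide (|uJ j| ≤ 1)} S0) = P at hZ hQ4 hQ5 hTp1 hTm1
  generalize fromBlocks Q' 0 0 (1 : Matrix {j // ¬ decide (|uJ j| ≤ 1)}
    {j // ¬ decide (|uJ j| ≤ 1)} S0) = P' at hZ hQ4 hQ5 hTp2 hTm2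
  generalize Sum.elim π' (fun j : {j // ¬ decide (|uJ j| ≤ 1)} => decide (uJ j.1 ≤ 0)) = y
    at hZ hyp hym
  generalize fromBlocks (fromBlocks ((M0 * D_Split S0 (fun i => decide (uI i ≤ 0)) *
    N0).submatrix Subtype.val Subtype.val) 0 0 (D_Split S0 π)) 0 0
      (D_Split S0 fun j : {j // ¬ decide (|uJ j| ≤ 1)} => decide (uJ j.1 ≤ 0)) = Z at hZ kp km kr
  generalize phi_Split (fun j => decide (|uJ j| ≤ 1)) K = φ at kp km kr hyp hym hTp1 hTp2 hTm1 hTm2
  have hm : ∀ (S : Type) [CommRing S] (f : S0 →+* S), P.map f * P'.map f = 1 ∧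
      P'.map f * P.map f = 1 ∧ P.map f * Z.map f * P'.map f = D_Split S y := fun S _ f => by
    simp only [← Matrix.map_mul, hQ4, hQ5, hZ, map_Split, Matrix.map_one, map_zero, map_one,
      and_self]
  obtain ⟨r1, r2, r3⟩ := hm R (rp.comp qp)
  have h1 : fromBlocks N 0 0 (1 : Matrix K K R) * fromBlocks M 0 0 (1 : Matrix K K R) = 1 := by
    rw [fromBlocks_multiply, hNM, ← fromBlocks_one]
    simp
  have k1 : (fromBlocks M 0 0 (1 : Matrix K K R) * D_Split R (Sum.elim (fun i => decide (uI i ≤ 0))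
      π) * fromBlocks N 0 0 (1 : Matrix K K R)).submatrix φ φ = Z.map (rp.comp qp) :=
    Matrix.ext fun a b => (kr a b).1
  have k2 : (fromBlocks M 0 0 (1 : Matrix K K R) * fromBlocks N 0 0 (1 : Matrix K K R)).submatrix
      φ φ = 1 := Matrix.ext fun a b => (kr a b).2
  have h2 : P.map (rp.comp qp) * (fromBlocks M 0 0 (1 : Matrix K K R)).submatrix φ (Equiv.refl _) *
      D_Split R (Sum.elim (fun i => decide (uI i ≤ 0)) π) *
      ((fromBlocks N 0 0 (1 : Matrix K K R)).submatrix (Equiv.refl _) φ * P'.map (rp.comp qp)) = D_Split R y := by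
    rw [← r3, ← k1, ← submatrix_mul_equiv (e₂ := Equiv.refl _),
      ← submatrix_mul_equiv (e₂ := Equiv.refl _)]
    simp only [Matrix.mul_assoc]
    rfl
  have h3 : (fromBlocks N 0 0 (1 : Matrix K K R)).submatrix (Equiv.refl _) φ * P'.map (rp.comp qp) *
      (P.map (rp.comp qp) * (fromBlocks M 0 0 (1 : Matrix K K R)).submatrix φ (Equiv.refl (I ⊕ K))) = 1 := by
    rw [Matrix.mul_assoc, ← Matrix.mul_assoc (P'.map _), r2, Matrix.one_mul, submatrix_mul_equiv,
      h1, submatrix_one_equiv]
  obtain ⟨σ, hσ⟩ := equiv_Split h3 (by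
    rw [Matrix.mul_assoc, ← Matrix.mul_assoc (submatrix _ _ _), submatrix_mul_equiv, k2,
      Matrix.one_mul, r1]) h2
  obtain rfl : y = fun a => Sum.elim (fun i => decide (uI i ≤ 0)) π (σ a) :=
    funext fun a => (hσ a).symm
  have hD : ∀ (S : Type) [CommRing S] (x : I ⊕ K → Bool) (A : Matrix (J ⊕ K) (I ⊕ K) S)
      (B : Matrix (I ⊕ K) (J ⊕ K) S), A.submatrix φ σ * D_Split S (fun a => x (σ a)) *
        B.submatrix σ φ = (A * D_Split S x * B).submatrix φ φ := fun S _ x A B => by
    rw [← submatrix_mul_equiv (e₂ := σ), ← submatrix_mul_equiv (e₂ := σ), D_Split, D_Split,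
      submatrix_diagonal_equiv]
    rfl
  obtain ⟨um, hum⟩ := side_Split rm ((fromBlocks Mm 0 0 (1 : Matrix K K Sm)).submatrix φ σ)
    ((fromBlocks Nm 0 0 (1 : Matrix K K Sm)).submatrix σ φ) _ _ _ ((fromBlocks M 0 0 (1 : Matrix K K R)).submatrix φ σ) _ _ hym hTm1
    hTm2 (fun a b ha hb => by rw [hD]; exact (km a b ha hb).1) (hm Sm qm).2.2 fun a b ha hb => by
      rw [submatrix_apply, submatrix_apply]
      generalize φ a = c at ha
      generalize σ b = d at hb
      rcases c with c | c <;> rcases d with d | d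
      · exact (Lm.lM c d (by simp at ha; omega) (by simp at hb; omega)).symm
      · exact (map_zero rm).symm
      · exact (map_zero rm).symm
      · simp [one_apply, apply_ite rm]
  obtain ⟨up, hup⟩ := side_Split rp ((fromBlocks Mp 0 0 (1 : Matrix K K Sp)).submatrix φ σ)
    ((fromBlocks Np 0 0 (1 : Matrix K K Sp)).submatrix σ φ) _ _ (1 - Z.map qp) ((fromBlocks M 0 0 (1 : Matrix K K R)).submatrix φ σ)
    _ _ hyp hTp1 hTp2 (fun a b ha hb => by
      rw [hD Sp fun c => !Sum.elim (fun i => decide (uI i ≤ 0)) π c, not_Split, Matrix.mul_sub,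
        Matrix.sub_mul, Matrix.mul_one, submatrix_apply, Matrix.sub_apply, (kp a b ha hb).1,
        (kp a b ha hb).2]
      rfl)
    (by rw [mul_sub, sub_mul, mul_one, (hm Sp qp).1, (hm Sp qp).2.2, not_Split])
    fun a b ha hb => by
      rw [submatrix_apply, submatrix_apply]
      beta_reduce at hb
      generalize φ a = c at ha
      generalize σ b = d at hb
      rcases c with c | c <;> rcases d with d | d
      · exact (Lp.lM c d (by simp at ha; omega) (by simp at hb; omega)).symm
      · exact (map_zero rp).symm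
      · exact (map_zero rp).symm
      · simp [one_apply, apply_ite rp]
  rw [Matrix.map_map, ← RingHom.coe_comp] at hum hup
  rw [show rm.comp qm = rp.comp qp from RingHom.ext fun x => (hq x).symm] at hum
  have h4 : P.map (rp.comp qp) * (fromBlocks M 0 0 (1 : Matrix K K R)).submatrix φ σ *
      D_Split R (fun a => Sum.elim (fun i => decide (uI i ≤ 0)) π (σ a)) =
      D_Split R (fun a => Sum.elim (fun i => decide (uI i ≤ 0)) π (σ a)) *
        (P.map (rp.comp qp) * (fromBlocks M 0 0 (1 : Matrix K K R)).submatrix φ σ) := by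
    have h5 := hD R (Sum.elim (fun i => decide (uI i ≤ 0)) π) (fromBlocks M 0 0 (1 : Matrix K K R))
      (fromBlocks N 0 0 (1 : Matrix K K R))
    rw [k1] at h5
    conv_rhs => rw [← r3, mul_assoc, ← mul_assoc (P'.map _), r2, one_mul, ← h5, mul_assoc,
      mul_assoc, submatrix_mul_equiv, h1, submatrix_one_equiv, mul_one, ← mul_assoc]
  have h5 := congrArg det ((idem_Split (le_Split fun _ => id).1 _ 0).2 h4)
  rw [det_mul, hum, ← not_Split, hup, det_mul] at h5
  have h6 : ((fromBlocks M 0 0 (1 : Matrix K K R)).submatrix φ σ).det =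
      (Equiv.Perm.sign ((σ.symm.trans φ).trans (e.sumCongr (Equiv.refl K)).symm) : ℤ) *
        (M.submatrix e id).det := by
    rw [← mul_one (det (M.submatrix e id)), ← det_one (n := K) (R := R),
      ← det_fromBlocks_zero₂₁ _ 0, ← det_permute, ← det_submatrix_equiv_self σ]
    congr 1
    ext a b
    simp only [submatrix_apply, id, Equiv.trans_apply, Equiv.symm_apply_apply]
    obtain ⟨c, hc⟩ := (e.sumCongr (Equiv.refl K)).surjective (φ a)
    rw [← hc, Equiv.symm_apply_apply]
    rcases c with c | c <;> rcases σ b with d | d <;> rfl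
  obtain ⟨v, hv⟩ := isUnit_det_of_left_inverse (hm Sp qp).1
  have h7 : rp v * (P.map (rp.comp qp)).det = 1 := by
    rw [hv, RingHom.map_det, ← det_mul, RingHom.mapMatrix_apply, Matrix.map_map,
      ← RingHom.coe_comp, r2, det_one]
  rw [h6] at h5
  rcases Int.units_eq_one_or (Equiv.Perm.sign ((σ.symm.trans φ).trans
    (e.sumCongr (Equiv.refl K)).symm)) with h | h <;> rw [h] at h5
  · refine ⟨up * v, um, ?_⟩
    push_cast at h5 ⊢
    rw [map_mul]
    linear_combination (-rp v) * h5 - (M.submatrix e id).det * h7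
  · refine ⟨-(up * v), um, ?_⟩
    push_cast at h5 ⊢
    rw [map_neg, map_mul]
    linear_combination (rp v) * h5 - (M.submatrix e id).det * h7

end Pool.Agent.MP_6374aa_gt
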