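import Pool.Agent.MP_6374aa_gt.IfP
import Pool.Agent.MP_6374aa_gt.Split

/-! Splitting the determinant of an isomorphism along idempotents. -/

namespace Pool.Agent.MP_6374aa_gt

open Matrix

section
variable {S0 S Sp Sm R I J L : Type} [CommRing S0] [CommRing S] [CommRing Sp] [CommRing Sm]
  [CommRing R] [Fintype I] [DecidableEq I] [Fintype J] [DecidableEq J] [Fintype L] [DecidableEq L]

/-- The part of `M` on the image of `k` is defined over `S` and maps onto the image of `q`. -/
def Sd_Split2 (g : S0 →+* S) (f : S →+* R) (k : Matrix I I S0) (q : Matrix J J S0)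
    (M : Matrix J I R) : Prop :=
  ∃ (A : Matrix J I S) (B : Matrix I J S),
    (A * k.map g).map f = M * (k.map g).map f ∧ A * k.map g * B = q.map g

/-- The data of the splitting. -/
structure H_Split2 (qp : S0 →+* Sp) (qm : S0 →+* Sm) (rp : Sp →+* R) (rm : Sm →+* R)
    (k : Matrix I I S0) (q : Matrix J J S0) (M : Matrix J I R) (N : Matrix I J R) : Prop where
  MN : M * N = 1
  NM : N * M = 1
  qq : q * q = q
  cj : M * k.map (rp.comp qp) * N = q.map (rp.comp qp)
  p : Sd_Split2 qp rp k q M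
  m : Sd_Split2 qm rm (1 - k) (1 - q) M

omit [DecidableEq I] [Fintype J] [DecidableEq J] in
lemma sd_Split2 {g : S0 →+* S} {f : S →+* R} {k : Matrix I I S0} {q : Matrix J J S0}
    {M : Matrix J I R} (h : Sd_Split2 g f k q M) (d : Matrix L L S0) :
    Sd_Split2 g f (fromBlocks k 0 0 d) (fromBlocks q 0 0 d) (fromBlocks M 0 0 1) := by
  obtain ⟨A, B, h1, h2⟩ := h
  refine ⟨fromBlocks A 0 0 1, fromBlocks B 0 0 1, ?_, ?_⟩
  · simpa [fromBlocks_multiply, fromBlocks_map] using h1
  · simp [fromBlocks_multiply, fromBlocks_map, h2]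

omit [Fintype I] [Fintype L] in
lemma sub_Split2 (k : Matrix I I S0) (d : Matrix L L S0) :
    1 - fromBlocks k 0 0 d = fromBlocks (1 - k) 0 0 (1 - d) := by
  rw [sub_eq_iff_eq_add, fromBlocks_add, sub_add_cancel, sub_add_cancel, add_zero, add_zero,
    fromBlocks_one]

variable {qp : S0 →+* Sp} {qm : S0 →+* Sm} {rp : Sp →+* R} {rm : Sm →+* R}
  {k : Matrix I I S0} {q : Matrix J J S0} {M : Matrix J I R} {N : Matrix I J R}

lemma stab_Split2 (h : H_Split2 qp qm rp rm k q M N) (π : L → Bool) :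
    H_Split2 qp qm rp rm (fromBlocks k 0 0 (D_Split S0 π)) (fromBlocks q 0 0 (D_Split S0 π))
      (fromBlocks M 0 0 1) (fromBlocks N 0 0 1) where
  MN := by simp [fromBlocks_multiply, h.MN]
  NM := by simp [fromBlocks_multiply, h.NM]
  qq := by simp [fromBlocks_multiply, h.qq, (le_Split (S := S0) (y := π) fun _ => id).1]
  cj := by
    rw [fromBlocks_map, fromBlocks_map, ← h.cj]
    simp [fromBlocks_multiply]
  p := sd_Split2 h.p _
  m := by
    rw [sub_Split2, sub_Split2]
    exact sd_Split2 h.m _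

omit [DecidableEq I] in
lemma side_Split2 {g : S0 →+* S} {f : S →+* R} (h : Sd_Split2 g f k q M) (hq : q * q = q)
    {U : Matrix J I S0} {U' : Matrix I J S0} (h1 : U * U' = 1) (h2 : U' * q * U = k) :
    ∃ u : Sˣ, (q.map (f.comp g) * (M * U'.map (f.comp g)) * q.map (f.comp g) +
      (1 - q.map (f.comp g))).det = f u := by
  obtain ⟨A, B, a1, a2⟩ := h
  have e1 : k * U' = U' * q := by rw [← h2, Matrix.mul_assoc, h1, Matrix.mul_one]
  have e2 : q.map g * q.map g = q.map g := by rw [← Matrix.map_mul, hq]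
  have e3 := (idem_Split e2 (A * U'.map g) (U.map g * B)).1
  have e4 : q.map g * (A * U'.map g) * q.map g * (U.map g * B) * q.map g = q.map g := by
    rw [← h2, Matrix.map_mul, Matrix.map_mul] at a2
    calc _ = q.map g * (A * (U'.map g * q.map g * U.map g) * B) * q.map g := by
          simp only [Matrix.mul_assoc]
      _ = _ := by rw [a2, e2, e2]
  rw [e4, add_sub_cancel] at e3
  obtain ⟨u, hu⟩ := isUnit_det_of_right_inverse e3
  refine ⟨u, ?_⟩
  have e5 : (q.map g * (A * U'.map g) * q.map g).map f =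
      q.map (f.comp g) * (M * U'.map (f.comp g)) * q.map (f.comp g) := by
    rw [Matrix.mul_assoc, Matrix.mul_assoc, ← Matrix.map_mul, ← e1, Matrix.map_mul (L := k),
      ← Matrix.mul_assoc, ← Matrix.mul_assoc, Matrix.mul_assoc (q.map g), Matrix.map_mul,
      Matrix.map_mul, a1, Matrix.mul_assoc _ _ (q.map _), Matrix.mul_assoc M, ← Matrix.map_mul,
      ← e1, Matrix.map_mul (L := k)]
    simp only [Matrix.mul_assoc]
    rfl
  rw [hu, RingHom.map_det, ← e5, map_add, map_sub, map_one]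
  rfl

lemma core_Split2 (hc : ∀ x, rp (qp x) = rm (qm x)) (h : H_Split2 qp qm rp rm k q M N)
    {U : Matrix J I S0} {U' : Matrix I J S0} (h0 : U' * U = 1) (h1 : U * U' = 1)
    (h2 : U' * q * U = k) (e : I ≃ J) :
    ∃ (up : Spˣ) (um : Smˣ), det (M.submatrix e id) = rp up * rm um := by
  obtain ⟨up, hp⟩ := side_Split2 h.p h.qq h1 h2
  obtain ⟨um, hm⟩ := side_Split2 h.m (by rw [mul_sub, mul_one, sub_mul, h.qq, one_mul, sub_self,
    sub_zero]) h1 (by rw [Matrix.mul_sub, Matrix.sub_mul, Matrix.mul_one, h0, h2])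
  rw [show rm.comp qm = rp.comp qp from RingHom.ext fun x => (hc x).symm,
    show (1 - q).map (rp.comp qp) = 1 - q.map (rp.comp qp) from
      (map_sub (rp.comp qp).mapMatrix 1 q).trans (by rw [map_one]; rfl)] at hm
  have e1 : k * U' = U' * q := by rw [← h2, Matrix.mul_assoc, h1, Matrix.mul_one]
  have e2 := congrArg det ((idem_Split (P := q.map (rp.comp qp))
    (by rw [← Matrix.map_mul, h.qq]) (M * U'.map (rp.comp qp)) 0).2 (by
      rw [Matrix.mul_assoc, ← Matrix.map_mul, ← e1, Matrix.map_mul, ← h.cj, Matrix.mul_assoc,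
        Matrix.mul_assoc, ← Matrix.mul_assoc N, h.NM, Matrix.one_mul]))
  rw [det_mul, hp, hm, ← det_submatrix_equiv_self e, ← submatrix_mul_equiv (e₂ := Equiv.refl I),
    det_mul] at e2
  have e3 : (U'.submatrix id e).det * (U.submatrix e id).det = 1 := by
    rw [← det_mul, submatrix_mul_equiv, h0, submatrix_id_id, det_one]
  have e4 : (U'.map (rp.comp qp)).submatrix (Equiv.refl I) e =
      (rp.comp qp).mapMatrix (U'.submatrix id e) := rfl
  obtain ⟨v, hv⟩ := (IsUnit.of_mul_eq_one_right _ e3).map qp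
  have e5 := congrArg (rp.comp qp) e3
  rw [e4, ← RingHom.map_det] at e2
  rw [map_mul, map_one, RingHom.comp_apply _ _ (det (U.submatrix e id)), ← hv] at e5
  refine ⟨up * v, um, ?_⟩
  rw [Units.val_mul, map_mul]
  change _ = (M.submatrix e id).det * _ at e2
  linear_combination (-rp v) * e2 - (M.submatrix e id).det * e5

lemma diag_Split2 [Nontrivial R] (hc : ∀ x, rp (qp x) = rm (qm x))
    (h : H_Split2 qp qm rp rm k q M N) {P P' : Matrix I I S0} {Q Q' : Matrix J J S0}
    {x : I → Bool} {y : J → Bool} (p1 : P * P' = 1) (p2 : P' * P = 1)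
    (p3 : P * k * P' = D_Split S0 x) (q1 : Q * Q' = 1) (q2 : Q' * Q = 1)
    (q3 : Q * q * Q' = D_Split S0 y) (e : I ≃ J) :
    ∃ (up : Spˣ) (um : Smˣ), det (M.submatrix e id) = rp up * rm um := by
  have p4 : P' * D_Split S0 x * P = k := by
    rw [← p3, ← mul_assoc, ← mul_assoc, p2, one_mul, mul_assoc, p2, mul_one]
  have m1 : ∀ {X : Type} [Fintype X] [DecidableEq X] {A B : Matrix X X S0}, A * B = 1 →
      A.map (rp.comp qp) * B.map (rp.comp qp) = 1 := fun h => by
    rw [← Matrix.map_mul, h, Matrix.map_one _ (map_zero _) (map_one _)]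
  obtain ⟨σ, hσ⟩ := equiv_Split (A := Q.map (rp.comp qp) * M * P'.map (rp.comp qp))
    (B := P.map (rp.comp qp) * N * Q'.map (rp.comp qp)) (x := x) (y := y)
    (by rw [Matrix.mul_assoc _ M, Matrix.mul_assoc, ← Matrix.mul_assoc (Q'.map _), m1 q2,
      Matrix.one_mul, Matrix.mul_assoc, ← Matrix.mul_assoc N, h.NM, Matrix.one_mul, m1 p1])
    (by rw [Matrix.mul_assoc _ N, Matrix.mul_assoc, ← Matrix.mul_assoc (P'.map _), m1 p2,
      Matrix.one_mul, Matrix.mul_assoc, ← Matrix.mul_assoc M, h.MN, Matrix.one_mul, m1 q1])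
    (by
      rw [← map_Split (rp.comp qp), ← map_Split (rp.comp qp), ← q3, Matrix.map_mul, Matrix.map_mul,
        ← h.cj, ← p4, Matrix.map_mul, Matrix.map_mul]
      simp only [Matrix.mul_assoc])
  have e1 : D_Split S0 y = (D_Split S0 x).submatrix σ σ := by
    rw [D_Split, D_Split, submatrix_diagonal_equiv]
    congr 1
    funext a
    rw [← hσ]
    rfl
  refine core_Split2 hc h (U := Q' * P.submatrix σ id) (U' := P'.submatrix id σ * Q) ?_ ?_ ?_ e
  · rw [Matrix.mul_assoc, ← Matrix.mul_assoc Q, q1, Matrix.one_mul, submatrix_mul_equiv, p2,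
      submatrix_id_id]
  · rw [Matrix.mul_assoc, ← Matrix.mul_assoc (P.submatrix _ _),
      show P.submatrix σ id * P'.submatrix id σ = _ from submatrix_mul_equiv P P' σ (.refl I) σ,
      p1, submatrix_one_equiv, Matrix.one_mul, q2]
  · rw [Matrix.mul_assoc _ Q, Matrix.mul_assoc, ← Matrix.mul_assoc (Q * q), q3, e1,
      submatrix_mul_equiv, submatrix_mul_equiv, ← Matrix.mul_assoc, p4, submatrix_id_id]

end

theorem split2 : Split2Stmt := by
  intro S0 Sp Sm R I J _ _ _ _ _ _ _ _ _ qp qm rp rm k q M N Mp Np Mm Nm hc hS MN NM kk qq a1 a2 a3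
    b1 _ b3 e
  have h : H_Split2 qp qm rp rm k q M N := ⟨MN, NM, qq, by
    have e1 : Mp * k.map qp * (k.map qp * Np) = q.map qp := by
      rw [← Matrix.mul_assoc, Matrix.mul_assoc Mp, ← Matrix.map_mul, kk, a3]
    have e2 := congrArg (fun A => Matrix.map A rp) e1
    beta_reduce at e2
    rw [Matrix.map_mul, a1, a2, ← Matrix.mul_assoc, Matrix.mul_assoc M, ← Matrix.map_mul,
      ← Matrix.map_mul, kk] at e2
    exact e2, ⟨Mp, Np, a1, a3⟩, ⟨Mm, Nm, b1, b3⟩⟩
  obtain ⟨L, _, _, π, x, P, P', p1, p2, p3⟩ := hS I k kk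
  have h1 := stab_Split2 h π
  obtain ⟨L', _, _, π', y, Q, Q', q1, q2, q3⟩ := hS (J ⊕ L) _ h1.qq
  obtain ⟨up, um, hu⟩ := diag_Split2 hc (stab_Split2 h1 π') (P := fromBlocks P 0 0 1)
    (P' := fromBlocks P' 0 0 1) (x := Sum.elim x π') (by simp [fromBlocks_multiply, p1])
    (by simp [fromBlocks_multiply, p2]) (by
      rw [elim_Split, show D_Split S0 x = P * fromBlocks k 0 0 (D_Split S0 π) * P' from p3.symm]
      simp [fromBlocks_multiply]) q1 q2 q3 ((e.sumCongr (.refl L)).sumCongr (.refl L'))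
  refine ⟨up, um, Eq.trans ?_ hu⟩
  have e1 : (fromBlocks (fromBlocks M 0 0 (1 : Matrix L L R)) 0 0 (1 : Matrix L' L' R)).submatrix
      ((e.sumCongr (.refl L)).sumCongr (.refl L')) id =
      fromBlocks (fromBlocks (M.submatrix e id) 0 0 1) 0 0 1 := by
    ext ((a | a) | a) ((b | b) | b) <;> rfl
  rw [e1, det_fromBlocks_zero₂₁, det_fromBlocks_zero₂₁, det_one, det_one, mul_one, mul_one]

end Pool.Agent.MP_6374aa_gt
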