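import Pool.Agent.MP_6374aa_gt.IfP
import Pool.Agent.MP_6374aa_gt.StabFree

/-! Idempotent matrices over the Laurent rings in one and in three variables are stably free. -/

namespace Pool.Agent.MP_6374aa_gt

open Pool.Agent.MP_f7db47_al

lemma gen_StabFree2 {G : Type} [CommGroup G] (hG : PolyZ G) : StabFree (MonoidAlgebra ℚ G) := by
  intro n p hp
  obtain ⟨m, k, e, X, Y, he, h1, h2⟩ := k0Onto_of_G0 (polyZ_base regular_StabFree hG).2 n p hp
  obtain ⟨l, U, V, hUV, hVU⟩ := factor_StabFree e he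
  refine ⟨m, l, X * U.map (MonoidAlgebra.single (1 : G)),
    V.map (MonoidAlgebra.single (1 : G)) * Y, ?_, ?_⟩
  · rw [Matrix.mul_assoc, ← Matrix.mul_assoc (U.map _), map_single_mul, hUV, one_mul, ← h2,
      ← Matrix.mul_assoc, ← Matrix.mul_assoc, Matrix.mul_assoc (X * Y), h1,
      Matrix.fromBlocks_multiply]
    simp [hp]
  · rw [Matrix.mul_assoc, ← Matrix.mul_assoc Y, h2, map_single_mul, map_single_mul, ← hUV,
      Matrix.mul_assoc, hVU, Matrix.mul_one, hVU]
    simp only [one_mul]
    exact map_single_one_one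

lemma equiv_StabFree2 {S T : Type} [CommRing S] [CommRing T] (f : S ≃+* T) (h : StabFree S) :
    StabFree T := by
  intro n p hp
  obtain ⟨m, k, X, Y, h1, h2⟩ := h n (p.map (f.symm : T →+* S)) (by rw [← Matrix.map_mul, hp])
  refine ⟨m, k, X.map (f : S →+* T), Y.map (f : S →+* T), ?_, ?_⟩
  · rw [← Matrix.map_mul, h1, Matrix.fromBlocks_map, Matrix.map_zero _ (map_zero _),
      Matrix.map_zero _ (map_zero _), Matrix.map_one _ (map_zero _) (map_one _), Matrix.map_map]
    congr 1
    ext1 i j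
    exact f.apply_symm_apply (p i j)
  · rw [← Matrix.map_mul, h2, Matrix.map_one _ (map_zero _) (map_one _)]

lemma inj_StabFree2 {G : Type} [Group G] (h : PolyZ G) :
    ∀ (H : Type) [Group H] (f : H →* G), Function.Injective f → PolyZ H := by
  induction h with
  | triv G h => exact fun H _ f hf => PolyZ.triv H hf.subsingleton
  | ext G h _ ih =>
    intro H _ f hf
    exact PolyZ.ext H (h.comp f) (ih _ ((f.comp (h.comp f).ker.subtype).codRestrict h.ker
      fun x => x.2) fun x y e => Subtype.ext (hf (congrArg Subtype.val e)))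

theorem stabFree2 (hF : StabFreeStmt) : StabFree2Stmt := by
  have _ := hF
  refine ⟨gen_StabFree2 (PolyZ.ext _ (MonoidHom.id _) (PolyZ.triv _ ⟨fun a b =>
    Subtype.ext ((MonoidHom.mem_ker.1 a.2).trans (MonoidHom.mem_ker.1 b.2).symm)⟩)), ?_⟩
  refine equiv_StabFree2 MonoidAlgebra.curryRingEquiv (gen_StabFree2
    (PolyZ.ext _ (MonoidHom.fst _ _) (inj_StabFree2 polyZ_StabFree _
      ((MonoidHom.snd _ _).comp (Subgroup.subtype _)) fun a b e => Subtype.ext (Prod.ext ?_ e))))
  exact (MonoidHom.mem_ker.1 a.2).trans (MonoidHom.mem_ker.1 b.2).symm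

end Pool.Agent.MP_6374aa_gt
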