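import Pool.Agent.MP_6374aa_gt.IfM

/-! The explicit matrices of a graft. -/

namespace Pool.Agent.MP_6374aa_gt

open Classical Matrix

variable {V : Type} {G : SimpleGraph V} {A M B : Set V} {v : V}

theorem star_sub_StarS {σ : Finset V} (h : σ ∈ sdA G M) (hv : v ∈ σ) : ↑σ ⊆ cst G M v := by
  intro u hu
  by_cases e : u = v
  · exact Or.inl e
  · exact Or.inr ⟨h.2.1 hu, fun w hw => by
      rw [Set.mem_singleton_iff.1 hw]
      exact h.2.2 hv hu (Ne.symm e)⟩

theorem not_mem_lk_StarS (G : SimpleGraph V) (M : Set V) (v : V) : v ∉ Lk G M {v} :=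
  fun h => G.irrefl (h.2 v rfl)

theorem lk_of_cst_StarS {σ : Finset V} (h : ↑σ ⊆ cst G M v) (hv : v ∉ σ) :
    ↑σ ⊆ Lk G M {v} := by
  intro u hu
  rcases h hu with e | e
  · exact absurd (e ▸ hu) hv
  · exact e

theorem bG_add_StarS {ζ ζ' : EA V} {n : ℕ} (hζ' : ζ' ∈ Ch G M n) {σ : Finset V}
    (hx : ¬ ↑σ ⊆ M) (τ : Finset V) : bG (lc (ζ + ζ')) τ σ = bG (lc ζ) τ σ := by
  by_cases hc : σ.card = 2
  · refine bG_congr (fun p hp q hq => ?_) τ
    have h0 : iv q (iv p ζ') = 0 := by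
      by_cases e : p = q
      · rw [e]
        exact ctr_ctr_ChA2 _ _
      · obtain ⟨x, hx1, hx2⟩ := Set.not_subset.1 hx
        have h1 : ({p, q} : Finset V) = σ :=
          Finset.eq_of_subset_of_card_le (by simp [Finset.insert_subset_iff, hp, hq])
            (by rw [hc, Finset.card_pair e])
        rw [← h1] at hx1
        simp only [Finset.coe_insert, Finset.coe_singleton, Set.mem_insert_iff,
          Set.mem_singleton_iff] at hx1
        rcases hx1 with rfl | rfl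
        · rw [iv_eq_zero hx2 hζ', map_zero]
        · rw [iv_iv_comm, iv_eq_zero hx2 hζ', map_zero, neg_zero]
    simp only [lc, map_add, h0, add_zero]
  · simp only [bG, cap1_ef_of_ne _ (top_FrG σ) hc]

theorem tw_zero_StarS {C I J : Type} [CommGroup C] {lab : V → V → C}
    {N : Finset V → Finset V → ℚ} {σ : I → Finset V} {τ : J → Finset V} {i : I} {j : J}
    (h : ¬ N (σ i) (τ j) ≠ 0) : tw v lab N σ τ i j = 0 := by
  rw [not_not] at h
  simp [tw, h]

theorem enum_congr_StarS {I : Type} {σ : I → Finset V} {X Y : Set (Finset V)} (h : Enum σ X)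
    (e : ∀ s, s ∈ Y ↔ s ∈ X) : Enum σ Y :=
  ⟨h.1, h.2.trans (Set.ext e).symm⟩

theorem mvMat_StarS : MvMatStmt := by
  intro C V P L S Q _ G A M B v lab ζA ζM σP σL σS σQ h hA hM hζA hζM eP eL eS eQ
  have cA : cst G A v = A ∩ M := h.inter.symm
  have cM : cst G M v = A ∩ M := by rw [← cA, cst, cst, h.lk]
  have mP : ∀ p, σP p ∈ sdA G A ∧ ¬ ↑(σP p) ⊆ A ∩ M := fun p => cA ▸ eP.mem_FrH p
  have mQ : ∀ q, σQ q ∈ sdA G M ∧ ¬ ↑(σQ q) ⊆ A ∩ M := fun q => cM ▸ eQ.mem_FrH q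
  have lkc : Lk G M {v} ⊆ A ∩ M := cM ▸ Set.subset_insert _ _
  have mL : ∀ l, ↑(σL l) ⊆ A ∩ M := fun l => (eL.mem_FrH l).2.1.trans lkc
  have vL : ∀ l, v ∉ σL l := fun l hv => not_mem_lk_StarS G M v ((eL.mem_FrH l).2.1 hv)
  have vS : ∀ s, v ∈ σS s := fun s => (eS.mem_FrH s).2
  have mS : ∀ s, ↑(σS s) ⊆ A ∩ M := fun s => cM ▸ star_sub_StarS (eS.mem_FrH s).1 (vS s)
  have vP : ∀ p, v ∉ σP p := fun p hv => (mP p).2 (cA ▸ star_sub_StarS (mP p).1 hv)
  have PM : ∀ p, ¬ ↑(σP p) ⊆ M := fun p hp => (mP p).2 (Set.subset_inter (mP p).1.2.1 hp)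
  have QA : ∀ q, ¬ ↑(σQ q) ⊆ A := fun q hq => (mQ q).2 (Set.subset_inter hq (mQ q).1.2.1)
  have sub : ∀ {σ τ : Finset V} {T : Set V}, bD σ τ ≠ 0 → ↑τ ⊆ T → ↑σ ⊆ T := fun h1 h2 =>
    (Finset.coe_subset.2 (bD_ne h1).1).trans h2
  have hηA := eta0_lc hA hζA
  have hηM := eta0_lc hM hζM
  rw [cA] at eP
  rw [cM] at eQ
  refine ⟨?_, ?_, ?_, ?_, ?_, ?_, ?_⟩
  · have h1 := eP.sum (eL.sum eS ?_) ?_
    · refine enum_congr_StarS h1 fun σ => ?_
      constructor
      · intro hσ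
        by_cases e : ↑σ ⊆ A ∩ M
        · by_cases hv : v ∈ σ
          · exact Or.inr (Or.inr ⟨⟨hσ.1, e.trans Set.inter_subset_right, hσ.2.2⟩, hv⟩)
          · exact Or.inr (Or.inl ⟨hσ.1, lk_of_cst_StarS (cM ▸ e) hv, hσ.2.2⟩)
        · exact Or.inl ⟨hσ, e⟩
      · rintro (hσ | hσ | hσ)
        · exact hσ.1
        · exact ⟨hσ.1, (hσ.2.1.trans lkc).trans Set.inter_subset_left, hσ.2.2⟩
        · exact ⟨hσ.1.1, (cM ▸ star_sub_StarS hσ.1 hσ.2 : ↑σ ⊆ A ∩ M).trans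
            Set.inter_subset_left, hσ.1.2.2⟩
    · exact Set.disjoint_left.2 fun σ h1 h2 => not_mem_lk_StarS G M v (h1.2.1 h2.2)
    · refine Set.disjoint_left.2 fun σ h1 h2 => h1.2 ?_
      rcases h2 with h2 | h2
      · exact h2.2.1.trans lkc
      · exact cM ▸ star_sub_StarS h2.1 h2.2
  · have h1 := eP.sum (eL.sum eQ ?_) ?_
    · refine enum_congr_StarS h1 fun σ => ?_
      constructor
      · intro hσ
        have hv : v ∉ σ := fun hv => h.not_mem (hσ.2.1 hv)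
        by_cases e : ↑σ ⊆ A ∩ M
        · exact Or.inr (Or.inl ⟨hσ.1, lk_of_cst_StarS (cM ▸ e) hv, hσ.2.2⟩)
        · rcases h.clique (isCl_toList hσ.2.1 hσ.2.2) with h2 | h2
          · exact Or.inl ⟨⟨hσ.1, fun x hx => (h2 x (Finset.mem_toList.2 hx)).1, hσ.2.2⟩, e⟩
          · exact Or.inr (Or.inr
              ⟨⟨hσ.1, fun x hx => (h2 x (Finset.mem_toList.2 hx)).1, hσ.2.2⟩, e⟩)
      · rintro (hσ | hσ | hσ)
        · refine ⟨hσ.1.1, fun x hx => h.mem_GrB3.2 ⟨Or.inl (hσ.1.2.1 hx), ?_⟩, hσ.1.2.2⟩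
          rintro rfl
          exact hσ.2 (cA ▸ star_sub_StarS hσ.1 hx)
        · refine ⟨hσ.1, fun x hx => h.mem_GrB3.2 ⟨Or.inl (lkc (hσ.2.1 hx)).1, ?_⟩, hσ.2.2⟩
          rintro rfl
          exact not_mem_lk_StarS G M x (hσ.2.1 hx)
        · refine ⟨hσ.1.1, fun x hx => h.mem_GrB3.2 ⟨Or.inr (hσ.1.2.1 hx), ?_⟩, hσ.1.2.2⟩
          rintro rfl
          exact hσ.2 (cM ▸ star_sub_StarS hσ.1 hx)
    · exact Set.disjoint_left.2 fun σ h1 h2 => h2.2 (h1.2.1.trans lkc)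
    · refine Set.disjoint_left.2 fun σ h1 h2 => h1.2 ?_
      rcases h2 with h2 | h2
      · exact h2.2.1.trans lkc
      · exact Set.subset_inter h1.1.2.1 h2.1.2.1
  · ext1 i j
    rcases i with i | i | i <;> rcases j with j | j | j
    · rfl
    · exact tw_zero_StarS fun e => (mP i).2 (sub e (mL j))
    · exact tw_zero_StarS fun e => (mP i).2 (sub e (mS j))
    · rfl
    · rfl
    · rfl
    · exact tw_zero_StarS fun e => vP j ((bD_ne e).1 (vS i))
    · exact tw_zero_StarS fun e => vL j ((bD_ne e).1 (vS i))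
    · rfl
  · ext1 i j
    rcases i with i | i | i <;> rcases j with j | j | j
    · rfl
    · exact tw_zero_StarS fun e => (mP i).2 (sub e (mL j))
    · exact tw_zero_StarS fun e => PM i (sub e (mQ j).1.2.1)
    · rfl
    · rfl
    · rfl
    · exact tw_zero_StarS fun e => QA i (sub e (mP j).1.2.1)
    · exact tw_zero_StarS fun e => (mQ i).2 (sub e (mL j))
    · rfl
  · ext1 i j
    rcases i with i | i | i
    · rfl
    · rfl
    · refine tw_zero_StarS fun e => (mP j).2 ?_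
      have h1 := star_sub_StarS (bG_ne hηA e).2.2.1 (Finset.mem_union_left _ (vS i))
      rw [cA] at h1
      exact (Finset.coe_subset.2 Finset.subset_union_right).trans h1
  · rw [tw_congr v (lab' := lab) (N' := bG (lc ζA))
      (fun i j => bG_add_StarS (mem_Zy.1 hζM).1 (PM j) _) (fun _ _ _ => rfl)]
    ext1 i j
    rcases i with i | i | i
    · rfl
    · rfl
    · exact tw_zero_StarS fun e => QA i
        ((Finset.coe_subset.2 Finset.subset_union_left).trans (bG_ne hηA e).2.2.1.2.1)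
  · rw [add_comm, tw_congr v (lab' := lab) (N' := bG (lc ζM))
      (fun i j => bG_add_StarS (mem_Zy.1 hζA).1 (QA j) _) (fun _ _ _ => rfl)]
    ext1 i j
    rcases i with i | i | i
    · exact tw_zero_StarS fun e => PM i
        ((Finset.coe_subset.2 Finset.subset_union_left).trans (bG_ne hηM e).2.2.1.2.1)
    · rfl
    · rfl

end Pool.Agent.MP_6374aa_gt
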