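import Pool.Agent.MP_6374aa_gt.IfM
import Pool.Agent.MP_6374aa_gt.StarSA

/-! The star of the centre. -/

namespace Pool.Agent.MP_6374aa_gt

open Classical Matrix

variable {V : Type} {G : SimpleGraph V} {M : Set V} {v : V}

/-- The chain with the given coordinates. -/
noncomputable def ev_StarS {I : Type} [Fintype I] (σ : I → Finset V) (x : I → ℚ) : EA V :=
  ∑ i, x i • wedge (σ i).toList

/-- The coordinates of the cone on a chain. -/
noncomputable def co_StarS {I : Type} (v : V) (σ : I → Finset V) (y : EA V) : I → ℚ :=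
  fun s => cf (σ s) (vx v * y)

section

variable {I J : Type} [Fintype I] [Fintype J] {σ : I → Finset V} {τ : J → Finset V}

theorem cf_ev_StarS (hσ : Function.Injective σ) (x : I → ℚ) (i : I) :
    cf (σ i) (ev_StarS σ x) = x i := by
  rw [ev_StarS, cf_sum, Finset.sum_eq_single i]
  · rw [cf_smul, cf_wedge_self, mul_one]
  · intro j _ hj
    rw [cf_smul, cf_toList_FrG, if_neg (fun e => hj (hσ e)), mul_zero]
  · intro h
    exact absurd (Finset.mem_univ i) h

omit [Fintype I] in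
theorem bM_mulVec_StarS (x : J → ℚ) (i : I) :
    (bM σ τ).mulVec x i = cf (σ i) (bd (ev_StarS τ x)) := by
  simp only [ev_StarS, map_sum, map_smul, cf_sum, cf_smul, mulVec, dotProduct, bM, of_apply, bD,
    mul_comm]

omit [Fintype I] in
theorem co_mulVec_StarS (x : J → ℚ) :
    (Matrix.of fun s l => cf (σ s) (vx v * wedge (τ l).toList)).mulVec x =
      co_StarS v σ (ev_StarS τ x) := by
  funext s
  simp only [co_StarS, ev_StarS, Finset.mul_sum, mul_smul_comm, cf_sum, cf_smul, mulVec,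
    dotProduct, of_apply, mul_comm]

theorem cone_mem_StarS (hv : v ∈ M) {n : ℕ} {y : EA V} (hy : y ∈ Ch G (Lk G M {v}) n) :
    vx v * y ∈ Ch G M (n + 1) :=
  vx_mul_mem_Ch hv (fun _ h => h.1) (fun _ h => Or.inr (h.2 v rfl)) hy

theorem cf_cone_StarS {s : Finset V} (h : v ∉ s) (y : EA V) : cf s (vx v * y) = 0 := by
  rw [cf_eq_FrG]
  exact vx_FrG _ (fun e => h (Finset.mem_toList.1 e)) y

theorem cf_link_StarS {s : Finset V} (h : v ∈ s) {n : ℕ} {y : EA V}
    (hy : y ∈ Ch G (Lk G M {v}) n) : cf s y = 0 := by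
  by_contra e
  exact not_mem_lk_StarS G M v ((cf_ne_zero hy e).2.1 h)

theorem ev_co_StarS (hv : v ∈ M) (eS : Enum σ {s | s ∈ sdA G M ∧ v ∈ s}) {n : ℕ} {y : EA V}
    (hy : y ∈ Ch G (Lk G M {v}) n) : ev_StarS σ (co_StarS v σ y) = vx v * y := by
  refine (eq_sum_cf eS.1 (cone_mem_StarS hv hy) fun s hs => ?_).symm
  have h1 : v ∈ s := by
    by_contra e
    exact hs (cf_cone_StarS e y)
  rw [eS.2]
  have h2 := cf_ne_zero (cone_mem_StarS hv hy) hs
  exact ⟨⟨⟨v, h1⟩, h2.2.1, h2.2.2⟩, h1⟩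

theorem ev_cf_StarS {S : Set V} (eL : Enum σ (sdA G S)) {n : ℕ} {y : EA V}
    (hy : y ∈ Ch G S (n + 1)) : ev_StarS σ (fun l => cf (σ l) y) = y := by
  refine (eq_sum_cf eL.1 hy fun s hs => ?_).symm
  rw [eL.2]
  have h2 := cf_ne_zero hy hs
  exact ⟨Finset.card_pos.1 (by omega), h2.2.1, h2.2.2⟩

theorem bM_co_StarS (hv : v ∈ M) (eS : Enum σ {s | s ∈ sdA G M ∧ v ∈ s}) {n : ℕ} {y : EA V}
    (hy : y ∈ Ch G (Lk G M {v}) n) :
    (bM σ σ).mulVec (co_StarS v σ y) = - co_StarS v σ (bd y) := by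
  funext s
  rw [bM_mulVec_StarS, ev_co_StarS hv eS hy, bd_vx_mul, cf_sub,
    cf_link_StarS (eS.mem_FrH s).2 hy, zero_sub]
  rfl

omit [Fintype J] in
theorem bM_co2_StarS (hv : v ∈ M) (eS : Enum σ {s | s ∈ sdA G M ∧ v ∈ s})
    (eL : Enum τ (sdA G (Lk G M {v}))) {n : ℕ} {y : EA V} (hy : y ∈ Ch G (Lk G M {v}) n) :
    (bM τ σ).mulVec (co_StarS v σ y) = fun l => cf (τ l) y := by
  funext l
  rw [bM_mulVec_StarS, ev_co_StarS hv eS hy, bd_vx_mul, cf_sub, cf_cone_StarS, sub_zero]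
  exact fun e => not_mem_lk_StarS G M v ((eL.mem_FrH l).2.1 e)

theorem co_inj_StarS (hv : v ∈ M) (eS : Enum σ {s | s ∈ sdA G M ∧ v ∈ s}) {n : ℕ} {y : EA V}
    (hy : y ∈ Ch G (Lk G M {v}) n) (h : co_StarS v σ y = 0) : y = 0 := by
  have h1 := ev_co_StarS hv eS hy
  have h2 := iv_vx_mul_self v y
  rw [← h1, h, iv_eq_zero (not_mem_lk_StarS G M v) hy] at h2
  simpa [ev_StarS] using h2.symm

theorem exists_co_StarS (eS : Enum σ {s | s ∈ sdA G M ∧ v ∈ s}) {n : ℕ} {x : I → ℚ}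
    (hx : Dg (dgc σ) n x) : ∃ y ∈ Ch G (Lk G M {v}) n, x = co_StarS v σ y := by
  have h1 : ev_StarS σ x ∈ Ch G M (n + 1) := by
    refine Submodule.sum_mem _ fun i _ => ?_
    by_cases e : x i = 0
    · rw [e, zero_smul]
      exact Submodule.zero_mem _
    · rw [← hx.card_FrH (fun i => (eS.mem_FrH i).1.1) e]
      exact Submodule.smul_mem _ _ (wedge_toList_mem (eS.mem_FrH i).1)
  refine ⟨iv v (ev_StarS σ x), iv_mem_Ch v h1, ?_⟩
  have h2 : vx v * iv v (ev_StarS σ x) = ev_StarS σ x := by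
    simp only [ev_StarS, map_sum, map_smul, Finset.mul_sum, mul_smul_comm]
    refine Finset.sum_congr rfl fun i _ => ?_
    congr 1
    rcases iv_wedge_mem_ChA2 (σ i).nodup_toList (Finset.mem_toList.2 (eS.mem_FrH i).2) with
      h | h
    · rw [h.2, ← h.1]
    · rw [h.2, mul_neg, ← h.1]
  funext i
  rw [co_StarS, h2, cf_ev_StarS eS.1]

omit [Fintype I] in
theorem co_smul_StarS (r : ℚ) (y : EA V) : co_StarS v σ (r • y) = r • co_StarS v σ y := by
  funext s
  simp only [co_StarS, mul_smul_comm, cf_smul, Pi.smul_apply, smul_eq_mul]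

omit [Fintype I] in
theorem co_zero_StarS : co_StarS v σ 0 = 0 := by
  funext s
  simp only [co_StarS, mul_zero, cf_zero, Pi.zero_apply]

theorem bd_mem_StarS {S : Set V} {n : ℕ} {y : EA V} (hy : y ∈ Ch G S n) :
    bd y ∈ Ch G S (n - 1) := by
  cases n with
  | zero => rw [bd_eq_zero_of_Ch_zero hy]; exact Submodule.zero_mem _
  | succ n => exact bd_mem_Ch hy

omit [Fintype I] in
theorem dg_single_StarS [DecidableEq I] (deg : I → ℕ) (j : I) :
    Dg deg (deg j) (Pi.single j (1 : ℚ)) := fun i hi =>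
  Pi.single_eq_of_ne (fun e => hi (by rw [e])) _

theorem ext1_mulVec_StarS (D : Matrix I I ℚ) (w : I → ℚ) (x : I ⊕ Unit → ℚ) :
    (ext1 D w).mulVec x =
      Sum.elim (D.mulVec (x ∘ Sum.inl) + x (Sum.inr ()) • w) 0 := by
  rw [ext1, fromBlocks_mulVec]
  congr 1
  · congr 1
    funext i
    simp [mulVec, dotProduct, mul_comm]
  · simp

omit [Fintype I] in
theorem ent_StarS [DecidableEq J] (N : Matrix I J ℚ) (i : I) (j : J) :
    N i j = N.mulVec (Pi.single j 1) i := by
  rw [mulVec_single_one]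
  rfl

theorem ev_single_StarS [DecidableEq I] (i : I) :
    ev_StarS σ (Pi.single i 1) = wedge (σ i).toList := by
  rw [ev_StarS, Finset.sum_eq_single i]
  · simp
  · intro j _ hj
    rw [Pi.single_eq_of_ne hj, zero_smul]
  · intro h
    exact absurd (Finset.mem_univ i) h

theorem hmt_StarS [DecidableEq I] [DecidableEq J] (hv : v ∈ M)
    (eL : Enum τ (sdA G (Lk G M {v}))) (eS : Enum σ {s | s ∈ sdA G M ∧ v ∈ s}) :
    ∃ H : Matrix (J ⊕ I) (J ⊕ I) ℚ, ∀ i j, Sum.elim (dgc τ) (dgc σ) j = 1 →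
      (fromBlocks (bM τ τ) (bM τ σ) 0 (bM σ σ) * H +
        H * fromBlocks (bM τ τ) (bM τ σ) 0 (bM σ σ)) i j =
        (1 : Matrix (J ⊕ I) (J ⊕ I) ℚ) i j := by
  refine ⟨fromBlocks 0 0 (Matrix.of fun s l => cf (σ s) (vx v * wedge (τ l).toList)) 0, ?_⟩
  rw [fromBlocks_multiply, fromBlocks_multiply, fromBlocks_add, ← fromBlocks_one]
  simp only [Matrix.mul_zero, Matrix.zero_mul, add_zero, zero_add]
  rintro (i | i) (j | j) hj
  · rw [fromBlocks_apply₁₁, fromBlocks_apply₁₁]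
    refine (ent_StarS _ i j).trans ?_
    rw [← mulVec_mulVec, co_mulVec_StarS,
      ev_single_StarS, bM_co2_StarS hv eS eL (wedge_toList_mem (eL.mem_FrH j)), one_apply]
    simp only [cf_toList_FrG, eL.1.eq_iff, eq_comm]
  · rfl
  · have h1 := wedge_toList_mem (eL.mem_FrH j)
    have h2 : (τ j).card = 1 + 1 := by
      have h3 := (eL.mem_FrH j).1.card_pos
      change (τ j).card - 1 = 1 at hj
      omega
    have h4 : (bM τ τ).mulVec (Pi.single j 1) = fun l => cf (τ l) (bd (wedge (τ j).toList)) := by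
      funext l
      rw [bM_mulVec_StarS, ev_single_StarS]
    rw [h2] at h1
    rw [fromBlocks_apply₂₁, fromBlocks_apply₂₁]
    refine (ent_StarS _ i j).trans ?_
    rw [add_mulVec, ← mulVec_mulVec,
      ← mulVec_mulVec, co_mulVec_StarS, co_mulVec_StarS, ev_single_StarS, bM_co_StarS hv eS h1,
      h4, ev_cf_StarS eL (bd_mem_Ch h1), neg_add_cancel]
    rfl
  · obtain ⟨y, hy, e⟩ := exists_co_StarS eS (dg_single_StarS (dgc σ) j)
    change dgc σ j = 1 at hj
    rw [hj] at hy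
    rw [fromBlocks_apply₂₂, fromBlocks_apply₂₂]
    refine (ent_StarS _ i j).trans ?_
    rw [← mulVec_mulVec, co_mulVec_StarS, e,
      bM_co2_StarS hv eS eL hy, ev_cf_StarS eL hy, ← e, one_apply, Pi.single_apply]

end

theorem starS (hE : ExactStmt) (hX : TorExStmt) (hU : TorUniqStmt) : StarSStmt := by
  intro V L S _ _ _ _ G M v ζ σL σS hM hv hζ h0 eL eS
  have hη := eta_of_mf hM hζ h0
  have hz : iv v ζ ∈ Zy G (Lk G M {v}) 3 := iv_mem_Zy v hζ
  have hz1 := (mem_Zy.1 hz).1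
  have hw : (fun s => cf (σS s) (vx v * iv v ζ)) = co_StarS v σS (iv v ζ) := rfl
  have hDw : (bM σS σS).mulVec (co_StarS v σS (iv v ζ)) = 0 := by
    rw [bM_co_StarS hv eS hz1, (mem_Zy.1 hz).2, co_zero_StarS, neg_zero]
  have hcx : IsCx (dg4 (dgc σS)) (ext1 (bM σS σS) (co_StarS v σS (iv v ζ))) := by
    constructor
    · rintro (i | i) (j | j) h
      · have h1 := (bD_ne (show bD (σS i) (σS j) ≠ 0 from h)).2
        have h2 := (eS.mem_FrH i).1.1.card_pos
        change (σS j).card - 1 = (σS i).card - 1 + 1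
        omega
      · have h1 := (cf_ne_zero (cone_mem_StarS hv hz1)
          (show cf (σS i) (vx v * iv v ζ) ≠ 0 from h)).1
        change 4 = (σS i).card - 1 + 1
        omega
      · exact absurd rfl h
      · exact absurd rfl h
    · have hDD : bM σS σS * bM σS σS = 0 := by
        ext i j
        obtain ⟨y, hy, e⟩ := exists_co_StarS eS (dg_single_StarS (dgc σS) j)
        refine (ent_StarS _ i j).trans ?_
        rw [← mulVec_mulVec, e, bM_co_StarS hv eS hy, mulVec_neg,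
          bM_co_StarS hv eS (bd_mem_StarS hy), bd_bd, co_zero_StarS, neg_neg]
        rfl
      rw [ext_iff_mulVec]
      intro x
      rw [← mulVec_mulVec, ext1_mulVec_StarS, ext1_mulVec_StarS, Sum.elim_comp_inl, mulVec_add,
        mulVec_mulVec, hDD, mulVec_smul, hDw]
      funext i
      rcases i with i | i <;> simp
  have hex : ∀ n x, Dg (dg4 (dgc σS)) n x →
      (ext1 (bM σS σS) (co_StarS v σS (iv v ζ))).mulVec x = 0 →
      ∃ y, (ext1 (bM σS σS) (co_StarS v σS (iv v ζ))).mulVec y = x := by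
    intro n x hx hd
    rw [ext1_mulVec_StarS] at hd
    have hd1 : (bM σS σS).mulVec (x ∘ Sum.inl) + x (Sum.inr ()) • co_StarS v σS (iv v ζ) = 0 :=
      funext fun i => congrFun hd (Sum.inl i)
    have hx1 : Dg (dgc σS) n (x ∘ Sum.inl) := fun i hi => hx (Sum.inl i) hi
    by_cases h4 : n = 4
    · have h1 : x ∘ Sum.inl = 0 := by
        funext i
        refine hx1 i ?_
        have h2 := eS.mem_FrH i
        have h3 := (hM.2.2.1 _ h2.1.1 h2.1.2.1 h2.1.2.2).1
        rw [dgc]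
        omega
      rw [h1, mulVec_zero, zero_add, ← co_smul_StarS] at hd1
      have h2 := co_inj_StarS hv eS (Submodule.smul_mem _ _ hz1) hd1
      have h3 : x (Sum.inr ()) = 0 := (smul_eq_zero.1 h2).resolve_right (hη.ne v hv)
      refine ⟨0, ?_⟩
      rw [mulVec_zero]
      funext i
      rcases i with i | i
      · exact (congrFun h1 i).symm
      · exact h3.symm
    · have h3 : x (Sum.inr ()) = 0 := hx _ (Ne.symm h4)
      obtain ⟨y, hy, e⟩ := exists_co_StarS eS hx1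
      rw [h3, zero_smul, add_zero, e, bM_co_StarS hv eS hy, neg_eq_zero] at hd1
      have h5 : y ∈ Zy G (Lk G M {v}) n :=
        mem_Zy.2 ⟨hy, co_inj_StarS hv eS (bd_mem_StarS hy) hd1⟩
      have fin : ∀ z : S → ℚ, z = co_StarS v σS y → Sum.elim z 0 = x := by
        intro z hz
        funext i
        rcases i with i | i
        · exact congrFun (hz.trans e.symm) i
        · exact h3.symm
      by_cases h6 : n = 3
      · subst h6
        obtain ⟨r, hr⟩ := hη.gen0 hv h5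
        refine ⟨Sum.elim 0 fun _ => r, ?_⟩
        rw [ext1_mulVec_StarS]
        refine fin _ ?_
        rw [Sum.elim_comp_inl, mulVec_zero, zero_add, hr, co_smul_StarS]
        rfl
      · obtain ⟨y', hy', e'⟩ := mem_Bd.1 (hη.link_acyclic hv h6 h5)
        refine ⟨Sum.elim (- co_StarS v σS y') 0, ?_⟩
        rw [ext1_mulVec_StarS]
        refine fin _ ?_
        rw [Sum.elim_comp_inl, mulVec_neg, bM_co_StarS hv eS hy', neg_neg, e']
        simp
  rw [hw]
  refine ⟨hmt_StarS hv eL eS, hcx, ?_, bM_co2_StarS hv eS eL hz1⟩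
  obtain ⟨h, hh⟩ := hE ℚ _ _ _ hcx hex
  obtain ⟨e⟩ := hX ℚ _ _ _ h hcx hh
  have ht : IsTor _ _ _ := ⟨h, hh, e, rfl⟩
  exact ⟨_, (hU ℚ _ _ _ _ _ hcx ht ht).1.ne_zero, ht⟩

theorem mvMat : MvMatStmt := mvMat_StarS

end Pool.Agent.MP_6374aa_gt
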