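import Pool.Agent.MP_6374aa_gt.IfQ
import Pool.Agent.MP_6374aa_gt.SysS

/-! Interleaved systems preserve the phase invariant. -/

namespace Pool.Agent.MP_6374aa_gt

open Matrix

theorem eqv_Sys2 {C V V' : Type} [CommGroup C] {G' : SimpleGraph V'} {A' : Set V'}
    {α : C →* Equiv.Perm V} {α' : C →* Equiv.Perm V'} {f : V' → V} (he : Eqv A' α' α f) (g : C)
    {n : ℕ} {z : EA V'} (hz : z ∈ Ch G' A' n) :
    emap f (emap (α' g) z) = emap (α g) (emap f z) := by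
  rw [emap_comp, emap_comp, emap_congr (f := f ∘ α' g) (g := α g ∘ f) (he g) hz]

theorem topC_Sys2 {C V V' : Type} [CommGroup C] [Fintype C] {G : SimpleGraph V} {A : Set V}
    {G' : SimpleGraph V'} {A' : Set V'} {α : C →* Equiv.Perm V} {α' : C →* Equiv.Perm V'}
    {f : V' → V} (hf : IsHom G' A' G A f) (he : Eqv A' α' α f) {ζ : EA V'}
    (h : TopC G' A' α' ζ) : TopC G A α (emap f ζ) :=
  ⟨emap_mem_Zy hf h.1, fun g => by rw [← eqv_Sys2 he g (mem_Zy.1 h.1).1, h.2 g]⟩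

theorem lift_Sys2 {C V V' : Type} [CommGroup C] [Fintype C] {G : SimpleGraph V} {A : Set V}
    {G' : SimpleGraph V'} {A' : Set V'} {α : C →* Equiv.Perm V} {α' : C →* Equiv.Perm V'}
    {c : V' → V} (ha : Act G' A' α') (hc : Loc G' A' G A c) (he : Eqv A' α' α c) (hA : Fin3 G A)
    {ζ : EA V} (h : TopC G A α ζ) : ∃ ζ', TopC G' A' α' ζ' ∧ emap c ζ' = ζ := by
  obtain ⟨ζ', h1, h2⟩ := hc.s2 4 A subset_rfl ζ h.1
  rw [hA.Bd_eq_bot subset_rfl le_rfl, Submodule.mem_bot, sub_eq_zero] at h2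
  have h3 : ζ' ∈ Zy G' A' 4 := Zy_mono Set.inter_subset_left 4 h1
  refine ⟨ζ', ⟨h3, fun g => ?_⟩, h2⟩
  have hg : IsHom G' A' G' A' (α' g) :=
    ⟨ha.mem g, fun a h1 b h2 h3 => Or.inr (ha.adj g a h1 b h2 h3)⟩
  refine sub_eq_zero.1 (hc.top _ (Submodule.sub_mem _ (emap_mem_Zy hg h3) h3) ?_)
  rw [map_sub, eqv_Sys2 he g (mem_Zy.1 h3).1, h2, h.2 g, sub_self]

theorem kd_Sys2 {C V : Type} [CommGroup C] [Fintype C] (G : SimpleGraph V) (A : Set V)
    (α : C →* Equiv.Perm V) (ζ : EA V) (z1 z2 a : Empty → EA V) (e : Matrix Empty Empty (RC C)) :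
    KData G A α ζ z1 z2 a e :=
  ⟨fun j => j.elim, fun j => j.elim, fun j => j.elim, fun j => j.elim, fun j => j.elim,
    fun j => j.elim, Subsingleton.elim _ _, fun j => j.elim, fun j => j.elim,
    fun _ _ => Subsingleton.elim _ _, fun _ _ => Subsingleton.elim _ _⟩

theorem sys2 (hF : Fl2Stmt) (hD : FamDStmt) (hE : IdemEStmt) (hC : CtGeo2Stmt) (hG : GeoS2Stmt) :
    Sys2Stmt := by
  intro C _ _ _ _ L φ c hs hfin hconn hloc hcase
  have hval : ∀ i τ, Val2 (L (i + 2)).G (L (i + 2)).A (L (i + 2)).α τ ↔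
      Val2 (L i).G (L i).A (L i).α τ := fun i =>
    hF C _ _ _ _ _ _ _ _ (c i) (hs.free i) (hs.free (i + 2)) (hs.ec i) (hloc i) (hfin i)
      (hfin (i + 2)) (hconn (i + 2)) (hcase.imp (fun h => ⟨h i, h (i + 2)⟩) fun h => h i)
  have hsub : ∀ i n, ∀ z ∈ Zy (L (i + 2)).G (L (i + 2)).A n,
      emap (c i) z - emap (φ i) (emap (φ (i + 1)) z) ∈ Bd (L i).G (L i).A n := fun i n z hz => by
    rw [emap_comp]
    exact emap_sub_mem_Bd (hs.hc i) ((hs.hφ i).comp (hs.hφ (i + 1))) (sc_SysS hs i) hz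
  have htop : ∀ i, ∀ z ∈ Zy (L (i + 2)).G (L (i + 2)).A 4,
      emap (c i) z = emap (φ i) (emap (φ (i + 1)) z) := fun i z hz => by
    have h := hsub i 4 z hz
    rwa [(hfin i).Bd_eq_bot subset_rfl le_rfl, Submodule.mem_bot, sub_eq_zero] at h
  have key : ∀ ζ, TopC (L 7).G (L 7).A (L 7).α ζ → emap (φ 6) ζ ≠ 0 → ∀ τ,
      ValZ (L 7).G (L 7).A (L 7).α ζ τ ↔ ValZ (L 6).G (L 6).A (L 6).α (emap (φ 6) ζ) τ := by
    intro ζ hζ h0
    obtain ⟨W, _, _, ν, y, a, loc, e, hdf, hid⟩ : ∃ (W : Type) (_ : Fintype W) (_ : DecidableEq W)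
        (ν y a : W → EA (L 7).V) (loc : W → (L 5).V) (e : Matrix W W (RC C)),
        DF (L 7).G (L 7).A (L 7).α ζ (L 5).G (L 5).A (c 5) ν y a loc ∧
        IdE (L 7).G (L 7).A (L 7).α ζ (L 6).G (L 6).A (φ 6) (c 5) (L 5).α ν y a loc e := by
      rcases hcase with h | h
      · obtain ⟨W, _, _, ν, y, a, loc, hdf⟩ := hD C _ _ _ _ _ _ _ _ (c 5) ζ (hs.free 5)
          (hs.free 7).toAct (hs.ec 5) (hloc 5) (h 5) (h 7) hζ (by
            rintro rfl
            exact h0 (map_zero _))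
        obtain ⟨e, he⟩ := hE C _ _ _ W _ _ _ _ _ _ _ _ _ (φ 6) (c 5) ζ ν y a loc (hs.free 6).toAct
          (hs.free 7).toAct (hs.hφ 6) (hs.eφ 6) (hs.ec 5) (h 6) (h 7) hζ h0
          (fun n _ z hz hb => by
            have h1 := Submodule.add_mem _ (hsub 5 n z hz) (emap_mem_Bd (hs.hφ 5) hb)
            rwa [sub_add_cancel] at h1) hdf
        exact ⟨W, _, _, ν, y, a, loc, e, hdf, he⟩
      · refine ⟨Empty, inferInstance, inferInstance, Empty.elim, Empty.elim, Empty.elim,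
          Empty.elim, 0, ⟨kd_Sys2 _ _ _ _ _ _ _ _, fun j => j.elim, fun j => j.elim,
            fun j => j.elim, fun w hw hb => ⟨0, ?_⟩, fun w hw hb => ⟨0, ?_⟩⟩,
          ⟨kd_Sys2 _ _ _ _ _ _ _ _, fun j => j.elim, fun j => j.elim,
            fun _ _ => Subsingleton.elim _ _, fun _ _ => Subsingleton.elim _ _, fun j => j.elim⟩⟩
        · rw [Finset.univ_eq_empty, Finset.sum_empty, sub_zero]
          exact h 5 2 (Or.inl rfl) w hw hb
        · rw [Finset.univ_eq_empty, Finset.sum_empty, sub_zero]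
          exact h 5 3 (Or.inr rfl) w hw hb
    obtain ⟨pos, pz, w, B0, hg⟩ := hC C L φ c W ζ ν y a loc e hs hfin (hconn 7) hloc hdf hid
    exact hG C _ _ _ W _ _ _ _ _ _ (φ 6) _ B0 _ pos _ _ _ pz w e ζ (hs.free 6) (hs.free 7) (hfin 6)
      (hfin 7) (hs.hφ 6) (hs.eφ 6) hζ hg hid.kd
  have h76 : ∀ τ, Val2 (L 7).G (L 7).A (L 7).α τ ↔ Val2 (L 6).G (L 6).A (L 6).α τ := by
    intro τ
    constructor
    · rintro ⟨ζ, hζ, h0, hv⟩
      have h1 : emap (φ 6) ζ ≠ 0 := fun h1 => h0 ((hloc 5).top ζ hζ.1 (by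
        rw [htop 5 ζ hζ.1]
        exact (congrArg (emap (φ 5)) h1).trans (map_zero _)))
      exact ⟨_, topC_Sys2 (hs.hφ 6) (hs.eφ 6) hζ, h1, (key ζ hζ h1 τ).1 hv⟩
    · rintro ⟨ζ, hζ, h0, hv⟩
      obtain ⟨ζ', h1, rfl⟩ := lift_Sys2 (hs.free 8).toAct (hloc 6) (hs.ec 6) (hfin 6) hζ
      rw [htop 6 ζ' h1.1] at h0 hv
      have h2 := topC_Sys2 (hs.hφ 7) (hs.eφ 7) h1
      exact ⟨_, h2, fun h3 => h0 ((congrArg (emap (φ 6)) h3).trans (map_zero _)),
        (key _ h2 h0 τ).2 hv⟩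
  intro τ
  exact ((((hval 5 τ).trans (hval 3 τ)).trans (hval 1 τ)).symm.trans (h76 τ)).trans
    (((hval 4 τ).trans (hval 2 τ)).trans (hval 0 τ))

theorem sysCov (hS : Sys2Stmt) (h1 : CovSysStmt) (h2 : CovSys2Stmt) : SysCovStmt := by
  intro L φ c p _ lab hs hfin hcl hcase hp hl c0 c1 τ
  have := nontrivial_RH p (by omega)
  have fl : ∀ i, Flat (L i).G (L i).A (labS L φ lab i) := fun i => by
    induction i with
    | zero => exact hl
    | succ i ih => exact ih.pull (hs.hφ i)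
  have s1 := (h1 (Cp p) (Cp p) L φ c lab (MonoidHom.id _) hs hl (fun _ _ h => h) hfin).1
  have s2 := h2 (Cp p) (Cp p) L φ c lab (MonoidHom.id _) hs hl hfin
  have hconn : ∀ i, PConn (covL L φ lab (MonoidHom.id (Cp p)) i).G
      (covL L φ lab (MonoidHom.id (Cp p)) i).A := fun i => by
    induction i using Nat.twoStepInduction with
    | zero => exact c0
    | one => exact c1
    | more i ih _ => exact ((s2 i).1 (hcl i)).2 ih
  exact hS (Cp p) (covL L φ lab (MonoidHom.id _)) (covφ L φ lab (MonoidHom.id _))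
    (covc L φ c lab (MonoidHom.id _)) s1 (fun i => (hfin i).cov (fl i)) hconn
    (fun i => ((s2 i).1 (hcl i)).1)
    (hcase.imp (fun h i => (h i).cov (fl i) (hconn i)) fun h i => (s2 i).2 (h i)) τ

end Pool.Agent.MP_6374aa_gt
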