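import Pool.Agent.MP_6374aa_gt.IfP
import Pool.Agent.MP_6374aa_gt.TorChange
import Pool.Agent.MP_6374aa_gt.Cct

/-! Change of basis for torsion, exact complexes, splitting of idempotents. -/

namespace Pool.Agent.MP_6374aa_gt

open Matrix

theorem torChg : TorChgStmt := by
  intro R I _ _ _ deg d d' P Q u h1 hP hQ hd ⟨h, hc, e, hu⟩
  have h2 : Q * P = 1 := mul_eq_one_comm.1 h1
  have hQ' : ∀ i j, Q i j ≠ 0 → deg j = deg i := fun i j h => (hQ i j h).symm
  have hd' : d' = P * d * Q := by rw [hd, Matrix.mul_assoc, h1, Matrix.mul_one]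
  have o1 := congrArg det (inv_TorChange Odd hP h1)
  rw [det_mul, det_one] at o1
  refine ⟨_, ⟨P * h * Q, hd' ▸ ctr_TorChange hP hQ' h1 h2 hc,
    (Equiv.refl _).trans (e.trans (Equiv.refl _)), rfl⟩, ?_⟩
  rw [hd', ← Matrix.add_mul, ← Matrix.mul_add, det_TorChange hP hQ', ← hu]
  change det (P.submatrix Subtype.val Subtype.val) * det (Q.submatrix Subtype.val Subtype.val) * u *
    det (P.submatrix Subtype.val Subtype.val) = u * det (P.submatrix Subtype.val Subtype.val)
  linear_combination (u * det (P.submatrix (Subtype.val : {i // ¬ Odd (deg i)} → I)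
    (Subtype.val : {i // ¬ Odd (deg i)} → I))) * o1

theorem unip_TorChg {R I J : Type} [CommRing R] [Fintype J] [DecidableEq I] [DecidableEq J]
    (B : Matrix I J R) (p : I ⊕ J → Prop) [Fintype {x // p x}] :
    det ((fromBlocks 1 B 0 1 : Matrix (I ⊕ J) (I ⊕ J) R).toSquareBlockProp p) = 1 := by
  let X : Matrix {x // p x} J R := of fun x b => fromRows B 0 x.1 b
  let Y : Matrix J {x // p x} R := of fun b y => if y.1 = Sum.inr b then 1 else 0
  have h1 : (fromBlocks 1 B 0 1 : Matrix (I ⊕ J) (I ⊕ J) R).toSquareBlockProp p = 1 + X * Y := by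
    ext ⟨x, hx⟩ ⟨y, hy⟩
    rcases x with x | x <;> rcases y with y | y <;>
      simp [toSquareBlockProp_def, X, Y, Matrix.mul_apply, Matrix.one_apply]
  have h2 : Y * X = 0 := by
    ext b b'
    rw [Matrix.mul_apply, Matrix.zero_apply]
    refine Finset.sum_eq_zero fun ⟨y, hy⟩ _ => ?_
    rcases y with y | y <;> simp [X, Y]
  rw [h1, det_one_add_mul_comm, h2, add_zero, det_one]

theorem dg_TorChg {R I J : Type} [CommRing R] [DecidableEq I] [DecidableEq J] {deg : I → ℕ}
    {dz : J → ℕ} {B : Matrix I J R} (hB : ∀ i j, B i j ≠ 0 → deg i = dz j) (x y : I ⊕ J)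
    (h : (fromBlocks 1 B 0 1 : Matrix (I ⊕ J) (I ⊕ J) R) x y ≠ 0) :
    Sum.elim deg dz x = Sum.elim deg dz y := by
  rcases x with x | x <;> rcases y with y | y
  · by_cases e : x = y
    · rw [e]
    · exact absurd (Matrix.one_apply_ne e) h
  · exact hB x y h
  · exact absurd rfl h
  · by_cases e : x = y
    · rw [e]
    · exact absurd (Matrix.one_apply_ne e) h

theorem torShear (hT : TorChgStmt) : TorShearStmt := by
  intro R I J _ _ _ _ _ deg dz D Z K u hK hu
  obtain ⟨u', h1, h2⟩ := hT R (I ⊕ J) (Sum.elim deg dz) (fromBlocks D Z 0 0)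
    (fromBlocks D (Z + D * K) 0 0) (fromBlocks 1 (-K) 0 1) (fromBlocks 1 K 0 1) u
    (by simp [fromBlocks_multiply])
    (dg_TorChg fun i j h => hK i j fun h0 => h (by rw [Matrix.neg_apply, h0, neg_zero]))
    (dg_TorChg hK) (by simp [fromBlocks_multiply]) hu
  rw [unip_TorChg, unip_TorChg, mul_one, mul_one] at h2
  exact h2 ▸ h1

theorem lift_TorChg {R I : Type} [CommRing R] [Fintype I] [DecidableEq I] {deg : I → ℕ}
    {d : Matrix I I R} (hd : IsCx deg d) {n : ℕ} {x y : I → R} (hx : Dg deg n x)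
    (hy : d.mulVec y = x) : ∃ y', Dg deg (n + 1) y' ∧ d.mulVec y' = x := by
  refine ⟨fun i => if deg i = n + 1 then y i else 0, fun i hi => if_neg hi, ?_⟩
  funext i
  by_cases hi : deg i = n
  · rw [← hy]
    refine Finset.sum_congr rfl fun j _ => ?_
    by_cases hj : d i j = 0
    · simp [hj]
    · have := hd.1 _ _ hj
      simp only
      rw [if_pos (by omega)]
  · rw [hx i hi]
    refine Finset.sum_eq_zero fun j _ => ?_
    by_cases hj : d i j = 0
    · simp [hj]
    · have := hd.1 _ _ hj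
      simp only
      rw [if_neg (by omega), mul_zero]

theorem contr_TorChg {R I : Type} [CommRing R] [Fintype I] [DecidableEq I] {deg : I → ℕ}
    {d : Matrix I I R} (hd : IsCx deg d)
    (hs : ∀ n x, Dg deg n x → d.mulVec x = 0 → ∃ y, d.mulVec y = x) (n : ℕ) :
    ∃ h : Matrix I I R, (∀ i j, h i j ≠ 0 → deg i = deg j + 1) ∧
      ∀ i j, deg j < n → (d * h + h * d) i j = (1 : Matrix I I R) i j := by
  induction n with
  | zero => exact ⟨0, fun i j h => absurd rfl h, fun i j h => by omega⟩
  | succ n ih =>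
    obtain ⟨h, h1, h3⟩ := ih
    have hy : ∀ j, deg j = n → ∃ y : I → R, Dg deg (n + 1) y ∧
        d.mulVec y = fun i => (1 - h * d) i j := by
      intro j hj
      have hx : Dg deg n fun i => (1 - h * d) i j := fun i hi' => by
        simp only
        rw [Matrix.sub_apply, Matrix.one_apply_ne (fun e : i = j => hi' (by rw [e, hj])), zero_sub,
          neg_eq_zero]
        by_contra hne
        obtain ⟨m, hm1, hm2⟩ := mul_ne_Cct hne
        have := h1 _ _ hm1
        have := hd.1 _ _ hm2
        omega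
      obtain ⟨y, hy⟩ := hs n _ hx (by
        funext i
        have e1 : ((d * h + h * d) * d) i j = ((1 : Matrix I I R) * d) i j :=
          mul_congr_Cct fun m hm' => h3 i m (by have := hd.1 _ _ hm'; omega)
        rw [add_mul, mul_assoc h, hd.2, mul_zero, add_zero, one_mul] at e1
        change (d * (1 - h * d)) i j = 0
        rw [mul_sub, mul_one, ← mul_assoc, Matrix.sub_apply, e1, sub_self])
      exact lift_TorChg hd hx hy
    choose! y hy1 hy3 using hy
    refine ⟨Matrix.of fun i j => if deg j = n then y j i else h i j, fun i j hij => ?_,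
      fun i j hj => ?_⟩
    · rw [Matrix.of_apply] at hij
      split_ifs at hij with hj
      · by_contra hne
        exact hij (hy1 j hj i (by rwa [← hj]))
      · exact h1 i j hij
    · have e1 : ((Matrix.of fun i j => if deg j = n then y j i else h i j) * d) i j =
          (h * d) i j := mul_congr_Cct fun m hm' => by
        have := hd.1 _ _ hm'
        rw [Matrix.of_apply, if_neg (by omega)]
      rw [Matrix.add_apply, e1]
      by_cases hj' : deg j = n
      · have e2 : (d * Matrix.of fun i j => if deg j = n then y j i else h i j) i j =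
            (1 - h * d) i j := by
          rw [← congrFun (hy3 j hj') i]
          simp [Matrix.mul_apply, Matrix.mulVec, dotProduct, hj']
        rw [e2, Matrix.sub_apply, sub_add_cancel]
      · have e2 : (d * Matrix.of fun i j => if deg j = n then y j i else h i j) i j =
            (d * h) i j := by
          simp [Matrix.mul_apply, hj']
        rw [e2, ← Matrix.add_apply]
        exact h3 i j (by omega)

theorem exactS : ExactStmt := by
  intro R I _ _ _ deg d hd hs
  obtain ⟨h, h1, h3⟩ := contr_TorChg hd hs (Finset.univ.sup deg + 1)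
  refine ⟨h, h1, ?_⟩
  ext1 i j
  exact h3 i j (Nat.lt_succ_of_le (Finset.le_sup (Finset.mem_univ j)))

theorem split_TorChg {W : Type} [Fintype W] [DecidableEq W] (E : Matrix W W ℂ) (hE : E * E = E) :
    ∃ (n : ℕ) (X : Matrix W (Fin n) ℂ) (Y : Matrix (Fin n) W ℂ), X * Y = E ∧ Y * X = 1 := by
  let U := LinearMap.range (Matrix.mulVecLin E)
  let b := Module.finBasis ℂ U
  let q : (W → ℂ) →ₗ[ℂ] U := (Matrix.mulVecLin E).rangeRestrict
  refine ⟨_, LinearMap.toMatrix b (Pi.basisFun ℂ W) U.subtype,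
    LinearMap.toMatrix (Pi.basisFun ℂ W) b q, ?_, ?_⟩
  · rw [← LinearMap.toMatrix_comp]
    have : U.subtype ∘ₗ q = Matrix.toLin' E := rfl
    rw [this, LinearMap.toMatrix_eq_toMatrix', LinearMap.toMatrix'_toLin']
  · rw [← LinearMap.toMatrix_comp]
    have : q ∘ₗ U.subtype = LinearMap.id := by
      ext1 ⟨x, y, rfl⟩
      apply Subtype.ext
      change E.mulVec (E.mulVec y) = E.mulVec y
      rw [Matrix.mulVec_mulVec, hE]
    rw [this, LinearMap.toMatrix_id]

theorem idemSplit : IdemSplitStmt := by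
  intro C W _ _ _ e c he hc
  rcases isEmpty_or_nonempty (Chr C) with h0 | ⟨⟨χ0⟩⟩
  · exact ⟨0, 0, 0, Subsingleton.elim _ _, Subsingleton.elim _ _⟩
  have h1 : ∀ χ : Chr C, ∃ (n : ℕ) (X : Matrix W (Fin n) ℂ) (Y : Matrix (Fin n) W ℂ),
      (X * Y = e.map (Pi.evalRingHom (fun _ => ℂ) χ) ∧ Y * X = 1) ∧ (n : ℂ) = c := by
    intro χ
    obtain ⟨n, X, Y, h2, h3⟩ := split_TorChg (e.map (Pi.evalRingHom (fun _ => ℂ) χ))
      (by rw [← Matrix.map_mul, he])
    refine ⟨n, X, Y, ⟨h2, h3⟩, ?_⟩
    have h4 := congrArg trace h2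
    rw [trace_mul_comm, h3, trace_one, Fintype.card_fin] at h4
    rw [h4, ← hc χ]
    simp [trace]
  obtain ⟨n, -, -, -, hn⟩ := h1 χ0
  have h2 : ∀ χ : Chr C, ∃ (X : Matrix W (Fin n) ℂ) (Y : Matrix (Fin n) W ℂ),
      X * Y = e.map (Pi.evalRingHom (fun _ => ℂ) χ) ∧ Y * X = 1 := by
    intro χ
    obtain ⟨m, X, Y, h3, hm⟩ := h1 χ
    obtain rfl : m = n := by exact_mod_cast hm.trans hn.symm
    exact ⟨X, Y, h3⟩
  choose X Y h3 h4 using h2
  refine ⟨n, of fun w k χ => X χ w k, of fun k w χ => Y χ k w, ?_, ?_⟩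
  · ext w w' χ
    have := congrFun (congrFun (h3 χ) w) w'
    simpa [Matrix.mul_apply] using this
  · ext k k' χ
    have := congrFun (congrFun (h4 χ) k) k'
    rw [Matrix.mul_apply] at this
    simp only [Matrix.mul_apply, of_apply, Finset.sum_apply, Pi.mul_apply, this, Matrix.one_apply]
    split_ifs <;> rfl

end Pool.Agent.MP_6374aa_gt
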