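import Pool.Agent.MP_6374aa_gt.IfA

namespace Pool.Agent.MP_6374aa_gt

open Matrix

section

variable {R I : Type} [CommRing R] [Fintype I] [DecidableEq I] {deg : I → ℕ}

/-- Homogeneous matrices of degree `m`. -/
def Hg_TorUniq (deg : I → ℕ) (m : ℤ) (M : Matrix I I R) : Prop :=
  ∀ i j, M i j ≠ 0 → (deg i : ℤ) = deg j + m

omit [DecidableEq I] in
theorem Hg_mul_TorUniq {m n : ℤ} {M N : Matrix I I R} (hM : Hg_TorUniq deg m M)
    (hN : Hg_TorUniq deg n N) : Hg_TorUniq deg (m + n) (M * N) := by
  intro i j h
  rw [mul_apply] at h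
  obtain ⟨l, -, hl⟩ := Finset.exists_ne_zero_of_sum_ne_zero h
  have h1 := hM i l (left_ne_zero_of_mul hl)
  have h2 := hN l j (right_ne_zero_of_mul hl)
  omega

omit [Fintype I] [DecidableEq I] in
theorem Hg_sub_TorUniq {m : ℤ} {M N : Matrix I I R} (hM : Hg_TorUniq deg m M)
    (hN : Hg_TorUniq deg m N) : Hg_TorUniq deg m (M - N) := by
  intro i j h
  by_cases h1 : M i j = 0
  · exact hN i j fun h2 => h (by rw [Matrix.sub_apply, h1, h2, sub_zero])
  · exact hM i j h1

omit [Fintype I] in
theorem Hg_one_TorUniq : Hg_TorUniq deg 0 (1 : Matrix I I R) := by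
  intro i j h
  by_cases hij : i = j
  · subst hij; simp
  · exact absurd (one_apply_ne hij) h

omit [DecidableEq I] in
theorem blk_mul_TorUniq (P Q S : I → Prop) [DecidablePred Q] (M N : Matrix I I R)
    (h : ∀ i j, P i → ¬ Q j → M i j = 0) :
    (M * N).toBlock P S = M.toBlock P Q * N.toBlock Q S := by
  classical
  have : (M.toBlock P fun i => ¬ Q i) = 0 := by
    ext i j
    exact h i.1 j.1 i.2 j.2
  rw [toBlock_mul_eq_add P Q S, this, Matrix.zero_mul, add_zero]

theorem key_TorUniq {d h k : Matrix I I R} (hd : IsCx deg d) (hh : IsCtr deg d h)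
    (hk : IsCtr deg d k) (P Q : I → Prop) [DecidablePred P] [DecidablePred Q]
    (hP : ∀ i j, P i → ¬ P j → deg i % 2 ≠ deg j % 2)
    (hQ : ∀ i j, P i → ¬ Q j → deg i % 2 = deg j % 2) :
    ((d + k).toBlock P Q * (d + h).toBlock Q P).det = 1 := by
  have gd : Hg_TorUniq deg (-1) d := fun i j hij => by have := hd.1 i j hij; omega
  have gh : Hg_TorUniq deg 1 h := fun i j hij => by have := hh.1 i j hij; omega
  have gk : Hg_TorUniq deg 1 k := fun i j hij => by have := hk.1 i j hij; omega
  set N := (k - h) * d with hN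
  set p := d * h with hp
  set U := (1 - N) * (k * h) with hU
  have gN : Hg_TorUniq deg 0 N := by simpa using Hg_mul_TorUniq (Hg_sub_TorUniq gk gh) gd
  have gp : Hg_TorUniq deg 0 p := by simpa using Hg_mul_TorUniq gd gh
  have gU : Hg_TorUniq deg 2 U := by
    have := Hg_mul_TorUniq (Hg_sub_TorUniq Hg_one_TorUniq gN) (Hg_mul_TorUniq gk gh)
    norm_num at this
    exact this
  have e1 : h * d = 1 - d * h := eq_sub_of_add_eq' hh.2
  have e2 : k * d = 1 - d * k := eq_sub_of_add_eq' hk.2
  have eN : N = d * (h - k) := by rw [hN, sub_mul, mul_sub, e1, e2]; abel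
  have hpN : p * N = N := by
    have : d * h * d = d := by
      rw [mul_assoc, e1, mul_sub, mul_one, ← mul_assoc, hd.2, zero_mul, sub_zero]
    rw [eN, hp, ← mul_assoc, this]
  have hNp : N * p = 0 := by
    rw [hN, hp, mul_assoc, ← mul_assoc d, hd.2, zero_mul, mul_zero]
  have hNN : N * N = 0 := by
    calc N * N = N * (p * N) := by rw [hpN]
      _ = 0 := by rw [← mul_assoc, hNp, zero_mul]
  have hfac : (d + k) * (d + h) = (1 + N) * (1 + U) := by
    have : (1 + N) * U = k * h := by
      rw [hU, ← mul_assoc, add_mul, one_mul, mul_sub, mul_one, hNN, sub_zero, sub_add_cancel,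
        one_mul]
    rw [mul_add (1 + N), mul_one, this, add_mul, mul_add, mul_add, hd.2, eN, mul_sub, e2]
    abel
  have z0 : ∀ {M : Matrix I I R}, Hg_TorUniq deg 0 M → ∀ i j, P i → ¬ P j → M i j = 0 := by
    intro M hM i j hi hj
    by_contra hne
    have := hM i j hne
    have := hP i j hi hj
    omega
  have b1 : ∀ M : Matrix I I R, (1 + M).toBlock P P = 1 + M.toBlock P P := by
    intro M
    rw [← toBlock_one_self P]
    rfl
  rw [← blk_mul_TorUniq P Q P, hfac, blk_mul_TorUniq P P P, det_mul, b1, b1]
  · have d1 : (1 + N.toBlock P P).det = 1 := by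
      rw [← hpN, blk_mul_TorUniq P P P _ _ (z0 gp), det_one_add_mul_comm,
        ← blk_mul_TorUniq P P P _ _ (z0 gN), hNp]
      have : (0 : Matrix I I R).toBlock P P = 0 := rfl
      rw [this, add_zero, det_one]
    have d2 : (1 + U.toBlock P P).det = 1 := by
      have ht : BlockTriangular (1 + U.toBlock P P)ᵀ fun i => deg i.1 := by
        intro i j hij
        have hne : j ≠ i := by rintro rfl; exact lt_irrefl _ hij
        rw [transpose_apply, Matrix.add_apply, one_apply_ne hne, zero_add, toBlock_apply]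
        by_contra hz
        have := gU _ _ hz
        simp only at hij
        omega
      rw [← det_transpose, ht.det]
      refine Finset.prod_eq_one fun a _ => ?_
      have : ((1 + U.toBlock P P)ᵀ.toSquareBlock (fun i => deg i.1) a) = 1 := by
        ext i j
        have hz : U j.1.1 i.1.1 = 0 := by
          by_contra hz
          have := gU _ _ hz
          have hi := i.2
          have hj := j.2
          omega
        simp only [toSquareBlock_def, of_apply, transpose_apply, Matrix.add_apply, toBlock_apply, hz,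
          add_zero, one_apply, Subtype.ext_iff]
        exact if_congr eq_comm rfl rfl
      rw [this, det_one]
    rw [d1, d2, mul_one]
  · intro i j hi hj
    have hne : i ≠ j := by rintro rfl; exact hj hi
    rw [Matrix.add_apply, one_apply_ne hne, zero_add, z0 gN i j hi hj]
  · intro i j hi hj
    have := hQ i j hi hj
    have h1 : d i j = 0 := by
      by_contra hz
      have := gd _ _ hz
      omega
    have h2 : k i j = 0 := by
      by_contra hz
      have := gk _ _ hz
      omega
    rw [Matrix.add_apply, h1, h2, add_zero]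

theorem odd_TorUniq {d h k : Matrix I I R} (hd : IsCx deg d) (hh : IsCtr deg d h)
    (hk : IsCtr deg d k) :
    ((d + k).toBlock (fun i => Odd (deg i)) (fun i => ¬ Odd (deg i)) *
      (d + h).toBlock (fun i => ¬ Odd (deg i)) fun i => Odd (deg i)).det = 1 :=
  key_TorUniq hd hh hk _ _
    (fun i j hi hj => by rw [Nat.odd_iff] at hi hj; omega)
    (fun i j hi hj => by rw [not_not, Nat.odd_iff] at hj; rw [Nat.odd_iff] at hi; omega)

theorem even_TorUniq {d h k : Matrix I I R} (hd : IsCx deg d) (hh : IsCtr deg d h)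
    (hk : IsCtr deg d k) :
    ((d + k).toBlock (fun i => ¬ Odd (deg i)) (fun i => Odd (deg i)) *
      (d + h).toBlock (fun i => Odd (deg i)) fun i => ¬ Odd (deg i)).det = 1 :=
  key_TorUniq hd hh hk _ _
    (fun i j hi hj => by rw [not_not, Nat.odd_iff] at hj; rw [Nat.odd_iff] at hi; omega)
    (fun i j hi hj => by rw [Nat.odd_iff] at hi hj; omega)

end

theorem torUniq : TorUniqStmt := by
  rintro R I _ _ _ deg d u u' hd ⟨h, hh, e, rfl⟩ ⟨h', hh', e', rfl⟩
  let X : Matrix I I R → Matrix {i // ¬ Odd (deg i)} {i // Odd (deg i)} R := fun h =>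
    (d + h).toBlock (fun i => ¬ Odd (deg i)) fun i => Odd (deg i)
  let Y : Matrix {i // Odd (deg i)} {i // ¬ Odd (deg i)} R :=
    (d + h).toBlock (fun i => Odd (deg i)) fun i => ¬ Odd (deg i)
  have key : ∀ g, IsCtr deg d g → (Y.submatrix id e).det * ((X g).submatrix e id).det = 1 := by
    intro g hg
    rw [← det_mul, submatrix_mul_equiv, submatrix_id_id]
    exact odd_TorUniq hd hg hh
  show IsUnit ((X h).submatrix e id).det ∧
    (((X h').submatrix e' id).det = ((X h).submatrix e id).det ∨
      ((X h').submatrix e' id).det = -((X h).submatrix e id).det)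
  refine ⟨IsUnit.of_mul_eq_one_right _ (key h hh), ?_⟩
  have h1 : ((X h').submatrix e id).det = ((X h).submatrix e id).det :=
    (IsUnit.of_mul_eq_one _ (key h hh)).mul_left_cancel ((key h' hh').trans (key h hh).symm)
  have h2 : (X h').submatrix e' id = ((X h').submatrix e id).submatrix (e'.trans e.symm) id := by
    ext i j
    simp
  rw [h2, det_permute, h1]
  rcases Int.units_eq_one_or (Equiv.Perm.sign (e'.trans e.symm)) with hs | hs <;> simp [hs]

theorem torEx : TorExStmt := by
  intro R I _ _ _ _ deg d h hd hh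
  have h1 := rank_of_isUnit _ ((isUnit_iff_isUnit_det _).2 (odd_TorUniq hd hh hh ▸ isUnit_one))
  have h2 := rank_of_isUnit _ ((isUnit_iff_isUnit_det _).2 (even_TorUniq hd hh hh ▸ isUnit_one))
  refine ⟨Fintype.equivOfCardEq (le_antisymm ?_ ?_)⟩
  · rw [← h1]
    exact (rank_mul_le_left _ _).trans (rank_le_card_width _)
  · rw [← h2]
    exact (rank_mul_le_left _ _).trans (rank_le_card_width _)

end Pool.Agent.MP_6374aa_gt
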