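import Pool.Agent.MP_6374aa_gt.IfM
import Pool.Agent.MP_6374aa_gt.TopHomeo
import Pool.Agent.MP_6374aa_gt.SysS

/-! Typed free product decompositions are invariants of homeomorphisms. -/

namespace Pool.Agent.MP_6374aa_gt

open Classical

theorem sys_TypS2 (hI : InterStmt) (hS : SdStmt) (hB : RlBasicStmt) (hQ : ClQSStmt)
    (hC : QSCompStmt) {V U : Type} [Fintype V] [Fintype U] {G : SimpleGraph V} {A : Set V}
    {K : SimpleGraph U} {B : Set U} (h : Rl G A ≃ₜ Rl K B) (P : GP K B) (hA : Fin3 G A) :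
    ∃ (L : ℕ → Lev C1)
      (φ : ∀ i, (Lev.cons ⟨V, G, A, 1⟩ L (i + 1)).V → (Lev.cons ⟨V, G, A, 1⟩ L i).V)
      (c : ∀ i, (Lev.cons ⟨V, G, A, 1⟩ L (i + 2)).V → (Lev.cons ⟨V, G, A, 1⟩ L i).V)
      (e : (L 0).V → U), IsSys T0 (Lev.cons ⟨V, G, A, 1⟩ L) φ c ∧ QS (L 0).G (L 0).A K B e ∧
      ∀ i, QS (Lev.cons ⟨V, G, A, 1⟩ L (i + 2)).G (Lev.cons ⟨V, G, A, 1⟩ L (i + 2)).A
        (Lev.cons ⟨V, G, A, 1⟩ L i).G (Lev.cons ⟨V, G, A, 1⟩ L i).A (c i) := by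
  obtain ⟨y⟩ := rl_ne_TopHomeo K P.conn.1
  have : Nonempty (Rl G A) := ⟨h.symm y⟩
  have := (hB V G A).1
  obtain ⟨L1, c1, K1, D1, O1, t1, -, q1⟩ :=
    hS C1 V G A 1 1 (freeAct_one G A) hA (ne_rl_TopHomeo (h.symm y)) (fun _ _ _ => rfl)
  obtain ⟨L2, c2, K2, D2, O2, t2, -, q2⟩ :=
    hS C1 U K B 1 1 (freeAct_one K B) P.fin3 P.conn.1 (fun _ _ _ => rfl)
  obtain ⟨L, φ, c, e, hs, h1, -, h3⟩ := hI C1 (Rl G A) (Rl K B) 1 1 _ c1 K1 D1 O1 _ c2 K2 D2 O2 h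
    (fun L' L f => QS L'.G L'.A L.G L.A f) T0 t1 t2 (fun _ _ => rfl)
    (fun L'' L' L f g hf hg => (hC _ _ _ _ _ _ _ _ _ f g).2 hf hg)
    (fun n => hQ _ _ _ _ _ _ _ (q1 n).2 (q1 n).1)
    (fun n => hQ _ _ _ _ _ _ _ (q2 n).2 (q2 n).1)
  exact ⟨L, φ, c, e, hs, h1, h3⟩

theorem pconn_TypS2 (hN : PConnCovStmt) {V V' L : Type} [Group L] {G : SimpleGraph V} {A : Set V}
    {G' : SimpleGraph V'} {A' : Set V'} {f : V' → V} (hf : SE G' A' G A f) (hA : PConn G A)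
    (hA' : PConn G' A') {lab : V → V → L} (hl : Flat G A lab)
    (hc : PConn (cov G lab L) (up A L)) :
    PConn (cov G' (fun u w => lab (f u) (f w)) L) (up A' L) := by
  obtain ⟨y, hy⟩ := hA'.1
  have hfy := hf.hom.1 y hy
  refine (hN V' L G' A' _ (hl.pull hf.hom) hA' y hy).2 fun l => ?_
  obtain ⟨δ, hδ, rfl⟩ := (hN V L G A lab hl hA (f y) hfy).1 hc l
  obtain ⟨δ', h1, rfl⟩ := hf.full y hy y hy δ ((mem_Loop hfy).1 hδ)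
  exact ⟨δ', (mem_Loop hy).2 h1, (glift_gmap hl hf.hom δ').symm⟩

theorem typS2 (hI : InterStmt) (hS : SdStmt) (hB : RlBasicStmt) (hQ : ClQSStmt) (hC : QSCompStmt)
    (hT : QSTypeStmt) (hP : SePhiStmt) (hF : PfGStmt) (hV : SysCovStmt) (hD : SiteDownStmt)
    (hN : PConnCovStmt) : TypS2Stmt := by
  intro V U _ _ G A K B h P hA
  obtain ⟨L, φ, c, e, hs, h1, h4⟩ := sys_TypS2 hI hS hB hQ hC h P hA
  have h3 : ∀ i, Fin3 (Lev.cons ⟨V, G, A, 1⟩ L i).G (Lev.cons ⟨V, G, A, 1⟩ L i).A := by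
    intro i
    rcases i with _ | _ | i
    exacts [hA, h1.fin, (h4 i).fin]
  obtain ⟨y', hy', -⟩ := h1.se.ess P.y P.mem
  obtain ⟨P1, b1, -, -, s1, p1⟩ := hT U (L 0).V K B (L 0).G (L 0).A e P h1 y' hy'
  have hse : SE (L 0).G (L 0).A G A (φ 0) :=
    hP _ _ _ _ _ _ _ _ _ _ _ _ (φ 0) (φ 1) (φ 2) (c 0) (c 1) (hs.hφ 0) (hs.hφ 1)
      (hs.hφ 2) (sc_SysS hs 0) (sc_SysS hs 1) (h4 0).se (h4 1).se
  obtain ⟨P0, b0, g0, s0⟩ := hF V (L 0).V G A (L 0).G (L 0).A (φ 0) P1 hse hA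
  have hcv : CovV (L 0).G (L 0).A G A (φ 0) := fun p _ hp lab hl hc =>
    hV (Lev.cons ⟨V, G, A, 1⟩ L) φ c p lab hs h3 (fun i => (h4 i).cl) (Or.inr fun i => (h4 i).ci)
      hp hl hc (pconn_TypS2 hN hse P0.conn P1.conn hl hc)
  refine ⟨P0, b1.trans b0.symm, s0.symm.trans s1, fun x Λ _ l χ hx => ?_⟩
  refine hD V (L 0).V G A (L 0).G (L 0).A (φ 0) P0 P1 b0 g0 hcv _ Λ l χ ?_
  rw [Equiv.trans_apply, Equiv.apply_symm_apply]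
  exact p1 x Λ l χ hx

end Pool.Agent.MP_6374aa_gt
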