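import Pool.Agent.MP_6374aa_gt.IfP

/-! The value of a complex with a cap product does not depend on the dual pair. -/

namespace Pool.Agent.MP_6374aa_gt

open Classical Matrix

noncomputable section

section Det

variable {R I J : Type} [CommRing R] [Fintype I] [DecidableEq I] [Fintype J] [DecidableEq J]

/-- The rows of `P` with property `q`, the rows of the identity elsewhere. -/
def rs_ValAnyM (q : I → Prop) (P : Matrix I I R) : Matrix I I R :=
  Matrix.of fun i j => if q i then P i j else (1 : Matrix I I R) i j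

theorem det_blk_ValAnyM (q : I → Prop) [DecidablePred q]
    (P : Matrix I I R) : det (P.toSquareBlockProp q) = det (rs_ValAnyM q P) := by
  have h := twoBlockTriangular_det (rs_ValAnyM q P) q (by
    intro i hi j hj
    have : i ≠ j := fun e => hi (e ▸ hj)
    simp [rs_ValAnyM, hi, this])
  have h1 : (rs_ValAnyM q P).toSquareBlockProp q = P.toSquareBlockProp q := by
    ext i j
    simp [rs_ValAnyM, toSquareBlockProp, toBlock, i.2]
  have h2 : (rs_ValAnyM q P).toSquareBlockProp (fun i => ¬ q i) = 1 := by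
    ext i j
    simp [rs_ValAnyM, toSquareBlockProp, toBlock, i.2, one_apply, Subtype.ext_iff]
  rw [h1, h2, det_one, mul_one] at h
  exact h.symm

theorem rs_blk_ValAnyM (q : I ⊕ J → Prop) (a : Matrix I I R) (b : Matrix I J R)
    (c : Matrix J J R) : det (rs_ValAnyM q (fromBlocks a b 0 c)) =
      det (rs_ValAnyM (fun i => q (Sum.inl i)) a) * det (rs_ValAnyM (fun j => q (Sum.inr j)) c) := by
  rw [← det_fromBlocks_zero₂₁ _ (Matrix.of fun i j => if q (Sum.inl i) then b i j else 0)]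
  congr 1
  ext (i | i) (j | j) <;> simp [rs_ValAnyM, one_apply]

omit [Fintype I] in
theorem rs_all_ValAnyM (q : I → Prop) (hq : ∀ i, q i) (a : Matrix I I R) : rs_ValAnyM q a = a := by
  ext i j
  simp [rs_ValAnyM, hq]

omit [Fintype I] in
theorem rs_none_ValAnyM (q : I → Prop) (hq : ∀ i, ¬ q i) (a : Matrix I I R) :
    rs_ValAnyM q a = 1 := by
  ext i j
  simp [rs_ValAnyM, hq]

omit [Fintype I] in
theorem rs_one_ValAnyM (q : I → Prop) : rs_ValAnyM q (1 : Matrix I I R) = 1 := by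
  ext i j
  simp [rs_ValAnyM]

theorem det_rs_diag_ValAnyM (q : I → Prop) (w : I → R) :
    det (rs_ValAnyM q (diagonal w)) = ∏ i, if q i then w i else 1 := by
  rw [← det_diagonal]
  congr 1
  ext i j
  by_cases h : i = j
  · subst h
    simp [rs_ValAnyM]
  · simp [rs_ValAnyM, h]

omit [DecidableEq I] [DecidableEq J] in
theorem row_ValAnyM {deg : I → ℕ} {n : ℕ} {p : Matrix I I R} {m : Matrix I J R}
    (μ : Matrix J J R) (hp : ∀ i j, p i j ≠ 0 → deg i = deg j)
    (hm : ∀ i j, deg i ≠ n → m i j = 0) (i : I) (j : J) (hi : deg i ≠ n) :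
    (p * m * μ) i j = 0 := by
  rw [mul_apply]
  refine Finset.sum_eq_zero fun a _ => ?_
  rw [mul_apply, Finset.sum_eq_zero, zero_mul]
  intro b _
  by_cases h : p i b = 0
  · rw [h, zero_mul]
  · rw [hm b a (hp i b h ▸ hi), mul_zero]

omit [Fintype I] [DecidableEq I] [Fintype J] [DecidableEq J] in
theorem pres_ValAnyM {deg : I → ℕ} {p : Matrix I I R} {m k : Matrix I J R} (μ ν : Matrix J J R)
    (hp : ∀ i j, p i j ≠ 0 → deg i = deg j) (hm : ∀ i j, deg i ≠ 2 → m i j = 0)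
    (hk : ∀ i j, deg i ≠ 3 → k i j = 0) (i j : I ⊕ (J ⊕ J))
    (h : fromBlocks p (fromCols m k) 0 (fromBlocks μ 0 0 ν) i j ≠ 0) :
    Sum.elim deg (d23 J) i = Sum.elim deg (d23 J) j := by
  rcases i with i | i | i <;> rcases j with j | j | j <;>
    simp only [fromBlocks_apply₁₁, fromBlocks_apply₁₂, fromBlocks_apply₂₁, fromBlocks_apply₂₂,
      fromCols_apply_inl, fromCols_apply_inr, Matrix.zero_apply, ne_eq, not_true_eq_false,
      Sum.elim_inl, Sum.elim_inr, d23] at h ⊢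
  · exact hp i j h
  · by_contra e
    exact h (hm i j e)
  · by_contra e
    exact h (hk i j e)

/-- Block triangular changes of basis. -/
theorem chg_ValAnyM (hT : TorChgStmt) {deg : I → ℕ} {D D' p p' : Matrix I I R}
    {Z Y Z' Y' m k : Matrix I J R} {μ μ' ν ν' : Matrix J J R} {u : R}
    (hp : ∀ i j, p i j ≠ 0 → deg i = deg j) (hp' : ∀ i j, p' i j ≠ 0 → deg i = deg j)
    (hm : ∀ i j, deg i ≠ 2 → m i j = 0) (hk : ∀ i j, deg i ≠ 3 → k i j = 0)
    (e1 : p * p' = 1) (e2 : μ * μ' = 1) (e3 : ν * ν' = 1) (c1 : p * D = D' * p)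
    (c2 : p * Z = D' * m + Z' * μ) (c3 : p * Y = D' * k + Y' * ν)
    (hu : IsTor (Sum.elim deg (d23 J)) (cx2 D Z Y) u) :
    ∃ u', IsTor (Sum.elim deg (d23 J)) (cx2 D' Z' Y') u' ∧
      u' * (det (rs_ValAnyM (fun i => Odd (deg i)) p) * det ν) =
        u * (det (rs_ValAnyM (fun i => ¬ Odd (deg i)) p) * det μ) := by
  obtain ⟨u', h1, h2⟩ := hT R (I ⊕ (J ⊕ J)) (Sum.elim deg (d23 J)) (cx2 D Z Y) (cx2 D' Z' Y')
    (fromBlocks p (fromCols m k) 0 (fromBlocks μ 0 0 ν))
    (fromBlocks p' (fromCols (-(p' * m * μ')) (-(p' * k * ν'))) 0 (fromBlocks μ' 0 0 ν')) u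
    (by
      rw [fromBlocks_multiply, fromBlocks_multiply, mul_fromCols, fromCols_mul_fromBlocks]
      simp only [Matrix.mul_zero, Matrix.zero_mul, add_zero, zero_add, e1, e2, e3,
        Matrix.mul_neg, ← Matrix.mul_assoc, Matrix.one_mul, fromBlocks_one]
      have : fromCols (-(m * μ')) (-(k * ν')) + fromCols (m * μ') (k * ν') = 0 := by
        ext i (j | j) <;> simp
      rw [this, fromBlocks_one])
    (pres_ValAnyM μ ν hp hm hk)
    (pres_ValAnyM μ' ν' hp'
      (fun i j hi => by rw [Matrix.neg_apply, row_ValAnyM μ' hp' hm i j hi, neg_zero])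
      (fun i j hi => by rw [Matrix.neg_apply, row_ValAnyM ν' hp' hk i j hi, neg_zero]))
    (by
      rw [cx2, cx2, fromBlocks_multiply, fromBlocks_multiply, mul_fromCols, mul_fromCols,
        fromCols_mul_fromBlocks]
      simp only [Matrix.mul_zero, Matrix.zero_mul, add_zero, zero_add, c1, c2, c3]
      congr 1 <;> ext i (j | j) <;> simp) hu
  refine ⟨u', h1, ?_⟩
  rw [det_blk_ValAnyM, det_blk_ValAnyM, rs_blk_ValAnyM, rs_blk_ValAnyM, rs_blk_ValAnyM,
    rs_blk_ValAnyM, rs_none_ValAnyM _ (by simp [d23]) μ, rs_all_ValAnyM _ (by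
      simp only [Sum.elim_inr, d23]
      exact fun _ => by decide) ν, rs_all_ValAnyM _ (by
      simp only [Sum.elim_inr, Sum.elim_inl, d23]
      exact fun _ => by decide) μ, rs_none_ValAnyM _ (by
      simp only [Sum.elim_inr, d23]
      exact fun _ => by decide) ν, det_one, one_mul, mul_one] at h2
  exact h2

end Det

section Re

variable {S I I' J J' : Type} [CommRing S] [StarRing S] [Fintype I] [DecidableEq I] [Fintype J]
  [DecidableEq J] [Fintype I'] [DecidableEq I'] [Fintype J'] [DecidableEq J']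

omit [DecidableEq I] [Fintype J] [DecidableEq I'] [Fintype J'] in
theorem dp_re_ValAnyM {deg : I → ℕ} {D : Matrix I I S} {Z A : Matrix I J S}
    (h : DualPair deg D Z A) (e : I' ≃ I) (f : J' ≃ J) :
    DualPair (deg ∘ e) (D.submatrix e e) (Z.submatrix e f) (A.submatrix e f) where
  dZ i j hi := h.dZ _ _ hi
  dA i j hi := h.dA _ _ hi
  cyc := by rw [submatrix_mul_equiv, h.cyc, submatrix_zero]; rfl
  coc := by rw [conjTranspose_submatrix, submatrix_mul_equiv, h.coc, submatrix_zero]; rfl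
  pair := by rw [conjTranspose_submatrix, submatrix_mul_equiv, h.pair, submatrix_one_equiv]

omit [StarRing S] in
theorem tor_re_ValAnyM (hR : TorReindexStmt) {deg : I → ℕ} {D Γ : Matrix I I S}
    {Z A : Matrix I J S} {u : S} (h : IsTor (Sum.elim deg (d23 J)) (cx2 D Z (Γ * A)) u)
    (e : I' ≃ I) (f : J' ≃ J) :
    IsTor (Sum.elim (deg ∘ e) (d23 J'))
      (cx2 (D.submatrix e e) (Z.submatrix e f) (Γ.submatrix e e * A.submatrix e f)) u := by
  have h1 := (hR S _ _ (e.sumCongr (f.sumCongr f)) _ _ u).2 h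
  have h2 : Sum.elim deg (d23 J) ∘ (e.sumCongr (f.sumCongr f)) =
      Sum.elim (deg ∘ e) (d23 J') := by
    funext i
    rcases i with i | i | i <;> rfl
  have h3 : (cx2 D Z (Γ * A)).submatrix (e.sumCongr (f.sumCongr f)) (e.sumCongr (f.sumCongr f)) =
      cx2 (D.submatrix e e) (Z.submatrix e f) (Γ.submatrix e e * A.submatrix e f) := by
    rw [submatrix_mul_equiv]
    ext i j
    rcases i with i | i | i <;> rcases j with j | j | j <;> rfl
  rwa [h2, h3] at h1

omit [StarRing S] in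
/-- A cocycle that vanishes on the attached cells is a coboundary. -/
theorem cob_ValAnyM {deg : I → ℕ} {D : Matrix I I S} {Z Y : Matrix I J S}
    {h : Matrix (I ⊕ (J ⊕ J)) (I ⊕ (J ⊕ J)) S}
    (hh : IsCtr (Sum.elim deg (d23 J)) (cx2 D Z Y) h) (y : Matrix J I S) (h1 : y * D = 0)
    (h2 : y * Z = 0) (h3 : y * Y = 0) : ∃ b : Matrix J I S, y = b * D := by
  obtain ⟨x, hx⟩ : ∃ x : Matrix J (I ⊕ (J ⊕ J)) S, x = fromCols y 0 := ⟨_, rfl⟩
  have h4 : x * cx2 D Z Y = 0 := by
    rw [hx, cx2, fromCols_mul_fromBlocks, mul_fromCols, h1, h2, h3]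
    ext i j
    rcases j with j | j | j <;> simp
  have h5 : x = x * h * cx2 D Z Y := by
    conv_lhs => rw [← Matrix.mul_one x, ← hh.2, Matrix.mul_add, ← Matrix.mul_assoc,
      h4, Matrix.zero_mul, zero_add, ← Matrix.mul_assoc]
  obtain ⟨t, ht⟩ : ∃ t, t = x * h := ⟨_, rfl⟩
  refine ⟨t.toCols₁, ?_⟩
  rw [← ht, hx, ← fromCols_toCols t, cx2, fromCols_mul_fromBlocks] at h5
  have := (fromCols_ext_iff _ _ _ _).1 h5
  simpa using this.1

end Re

theorem same_ValAnyM (hT : TorChgStmt) {C I J : Type} [CommGroup C] [Fintype I] [DecidableEq I]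
    [Fintype J] [DecidableEq J] {deg : I → ℕ} {D Γ : Matrix I I (RH C)}
    {Z A Z0 A0 : Matrix I J (RH C)} {u0 : RH C} (hc : CapM deg D Γ) (h0 : DualPair deg D Z0 A0)
    (hu : IsTor (Sum.elim deg (d23 J)) (cx2 D Z0 (Γ * A0)) u0) (h : DualPair deg D Z A)
    (hs : Spans deg D Z) :
    ∃ u, IsTor (Sum.elim deg (d23 J)) (cx2 D Z (Γ * A)) u ∧ Sim u u0 := by
  obtain ⟨μ, m, hm, e1⟩ := hs.deg hc.cx h.dZ Z0 h0.dZ (fun j => by
    funext i
    exact congrFun (congrFun h0.cyc i) j)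
  obtain ⟨H, hH, -⟩ := id hu
  obtain ⟨μ', m', -, e2⟩ := (spans_of_isCtr hH).deg hc.cx h0.dZ Z h.dZ (fun j => by
    funext i
    exact congrFun (congrFun h.cyc i) j)
  have f1 : Aᴴ * Z0 = μ := by
    rw [e1, Matrix.mul_add, ← Matrix.mul_assoc, ← Matrix.mul_assoc, h.pair, h.coc,
      Matrix.one_mul, Matrix.zero_mul, add_zero]
  have f2 : μ * μ' = 1 := by
    rw [← h.pair, e2, Matrix.mul_add, ← Matrix.mul_assoc, ← Matrix.mul_assoc, h.coc, f1,
      Matrix.zero_mul, add_zero]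
  have f3 : μ' * μ = 1 := mul_eq_one_comm.1 f2
  obtain ⟨b, hb⟩ := cob_ValAnyM hH (A0ᴴ - μ' * Aᴴ)
    (by rw [Matrix.sub_mul, Matrix.mul_assoc, h0.coc, h.coc, Matrix.mul_zero, sub_zero])
    (by rw [Matrix.sub_mul, Matrix.mul_assoc, h0.pair, f1, f3, sub_self])
    (by
      have g : ∀ B : Matrix I J (RH C), (∀ i j, deg i ≠ 1 → B i j = 0) → Bᴴ * Γ = 0 := by
        intro B hB
        ext1 i j
        rw [mul_apply, Matrix.zero_apply]
        refine Finset.sum_eq_zero fun a _ => ?_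
        by_cases ha : Γ a j = 0
        · rw [ha, mul_zero]
        · rw [conjTranspose_apply, hB a i (by rw [(hc.dΓ a j ha).1]; decide), star_zero, zero_mul]
      rw [← Matrix.mul_assoc, Matrix.sub_mul, Matrix.mul_assoc, g A0 h0.dA, g A h.dA,
        Matrix.mul_zero, sub_zero, Matrix.zero_mul])
  obtain ⟨Γ0, hΓ0, hlo⟩ := hc.lo
  have f4 : A0 = Dᴴ * bᴴ + A * μ'ᴴ := by
    have := congrArg conjTranspose hb
    rw [conjTranspose_sub, conjTranspose_mul, conjTranspose_mul, conjTranspose_conjTranspose,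
      conjTranspose_conjTranspose] at this
    rw [← this, sub_add_cancel]
  have hone : ∀ i j, (1 : Matrix I I (RH C)) i j ≠ 0 → deg i = deg j := by
    intro i j hij
    by_contra e
    exact hij (one_apply_ne fun e' => e (by rw [e']))
  obtain ⟨u, h1, h2⟩ := chg_ValAnyM (D' := D) (Z' := Z) (Y' := Γ * A) (k := Γ0 * bᴴ)
    (ν := μ'ᴴ) (ν' := μᴴ) hT hone hone hm
    (by
      intro i j hi
      rw [mul_apply]
      refine Finset.sum_eq_zero fun a _ => ?_
      by_cases ha : Γ0 i a = 0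
      · rw [ha, zero_mul]
      · exact absurd (hΓ0 i a ha).1 hi)
    (Matrix.mul_one 1) f2 (by rw [← conjTranspose_mul, f2, conjTranspose_one])
    (by rw [Matrix.one_mul, Matrix.mul_one]) (by rw [Matrix.one_mul, add_comm]; exact e1)
    (by
      rw [Matrix.one_mul, ← Matrix.mul_assoc, ← hlo, Matrix.mul_assoc, Matrix.mul_assoc,
        ← Matrix.mul_add, ← f4]) hu
  refine ⟨u, h1, det μ * star (det μ), InP.mul_star (isUnit_det_of_right_inverse f2), ?_⟩
  rw [rs_one_ValAnyM, rs_one_ValAnyM, det_one, one_mul, one_mul, det_conjTranspose] at h2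
  have f5 : star (det μ') * star (det μ) = 1 := by
    rw [← star_mul, ← det_mul, f2, det_one, star_one]
  linear_combination star (det μ) * h2 - u * f5

theorem valAnyM (hT : TorChgStmt) (hR : TorReindexStmt) : ValAnyMStmt := by
  intro C I J _ _ _ _ _ _ deg D Γ Z A τ hc hv h hs
  obtain ⟨J0, _, _, Z0, A0, u0, h0, hu, hτ⟩ := hv
  obtain ⟨μ, m, -, e1⟩ := hs.deg hc.cx h.dZ Z0 h0.dZ (fun j => by
    funext i
    exact congrFun (congrFun h0.cyc i) j)
  obtain ⟨H, hH, -⟩ := id hu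
  obtain ⟨μ', m', -, e2⟩ := (spans_of_isCtr hH).deg hc.cx h0.dZ Z h.dZ (fun j => by
    funext i
    exact congrFun (congrFun h.cyc i) j)
  have f1 : Aᴴ * Z0 = μ := by
    rw [e1, Matrix.mul_add, ← Matrix.mul_assoc, ← Matrix.mul_assoc, h.pair, h.coc,
      Matrix.one_mul, Matrix.zero_mul, add_zero]
  have f1' : A0ᴴ * Z = μ' := by
    rw [e2, Matrix.mul_add, ← Matrix.mul_assoc, ← Matrix.mul_assoc, h0.pair, h0.coc,
      Matrix.one_mul, Matrix.zero_mul, add_zero]
  have f2 : μ * μ' = 1 := by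
    rw [← h.pair, e2, Matrix.mul_add, ← Matrix.mul_assoc, ← Matrix.mul_assoc, h.coc, f1,
      Matrix.zero_mul, add_zero]
  have f3 : μ' * μ = 1 := by
    rw [← h0.pair, e1, Matrix.mul_add, ← Matrix.mul_assoc, ← Matrix.mul_assoc, h0.coc, f1',
      Matrix.zero_mul, add_zero]
  have f := Fintype.equivOfCardEq (Matrix.square_of_invertible μ μ' f2 f3)
  obtain ⟨u, h1, h2⟩ := same_ValAnyM hT hc (dp_re_ValAnyM h0 (Equiv.refl I) f)
    (tor_re_ValAnyM hR hu (Equiv.refl I) f) h hs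
  exact ⟨u, h1, h2.trans hτ⟩

theorem valUniqM (hA : ValAnyMStmt) (hU : TorUniqStmt) : ValUniqMStmt := by
  intro C I _ _ _ _ deg D Γ τ τ' hc hv hv'
  obtain ⟨J, _, _, Z, A, u', h, hu', hτ'⟩ := hv'
  obtain ⟨H, hH, -⟩ := id hu'
  obtain ⟨u, hu, hτ⟩ := hA C I J deg D Γ Z A τ hc hv h (spans_of_isCtr hH)
  exact (hτ.of_eq_or (hU _ _ _ _ u u' (hc.isCx_cx2 h) hu hu').2).symm.trans hτ'

theorem valScale (hT : TorChgStmt) : ValScaleStmt := by
  intro C I _ _ _ deg D Γ τ r hr hv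
  obtain ⟨J, _, _, Z, A, u, h, hu, hτ⟩ := hv
  have hone : ∀ i j, (1 : Matrix I I (RH C)) i j ≠ 0 → deg i = deg j := by
    intro i j hij
    by_contra e
    exact hij (one_apply_ne fun e' => e (by rw [e']))
  obtain ⟨u', h1, h2⟩ := chg_ValAnyM (D' := D) (Z' := Z) (Y' := (r • Γ) * A) (m := 0) (k := 0)
    (μ := 1) (μ' := 1) (ν := r⁻¹ • 1) (ν' := r • 1) hT hone hone (fun _ _ _ => rfl)
    (fun _ _ _ => rfl) (Matrix.mul_one 1) (Matrix.mul_one 1)
    (by rw [Matrix.smul_mul, Matrix.one_mul, smul_smul, inv_mul_cancel₀ hr, one_smul])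
    (by rw [Matrix.one_mul, Matrix.mul_one]) (by simp)
    (by
      rw [Matrix.one_mul, Matrix.mul_zero, zero_add, Matrix.mul_smul, Matrix.mul_one,
        Matrix.smul_mul, smul_smul, inv_mul_cancel₀ hr, one_smul]) hu
  refine ⟨J, _, _, Z, A, u', h, h1, Sim.trans (Sim.of_mul_eq ?_ ?_ h2) hτ⟩
  · rw [rs_one_ValAnyM, det_one, one_mul, ← algebraMap_smul (RH C), det_smul, det_one, mul_one]
    exact (InP.rat (inv_ne_zero hr)).pow _
  · rw [rs_one_ValAnyM, det_one, det_one, one_mul]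
    exact InP.one

theorem valMono (hT : TorChgStmt) (hR : TorReindexStmt) : ValMonoStmt := by
  intro C I I' _ _ _ _ _ deg D Γ e w τ hw hv
  obtain ⟨J, _, _, Z, A, u, h, hu, hτ⟩ := hv
  have e1 : diagonal w * (diagonal w)ᴴ = 1 := by
    rw [diagonal_conjTranspose, diagonal_mul_diagonal, ← diagonal_one]
    congr 1
    funext i
    exact (hw i).2
  have e2 : (diagonal w)ᴴ * diagonal w = 1 := mul_eq_one_comm.1 e1
  have e3 : ∀ {K : Type} (X : Matrix I K (RH C)), (diagonal w)ᴴ * (diagonal w * X) = X := by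
    intro K X
    rw [← Matrix.mul_assoc, e2, Matrix.one_mul]
  have hd : ∀ (v : I → RH C) i j, diagonal v i j ≠ 0 → deg i = deg j := by
    intro v i j hij
    by_contra e
    exact hij (diagonal_apply_ne _ fun e' => e (by rw [e']))
  have h' : DualPair deg (diagonal w * D * (diagonal w)ᴴ) (diagonal w * Z) (diagonal w * A) := by
    refine ⟨fun i j hi => ?_, fun i j hi => ?_, ?_, ?_, ?_⟩
    · rw [diagonal_mul, h.dZ i j hi, mul_zero]
    · rw [diagonal_mul, h.dA i j hi, mul_zero]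
    · rw [Matrix.mul_assoc, e3, Matrix.mul_assoc, h.cyc, Matrix.mul_zero]
    · rw [conjTranspose_mul, Matrix.mul_assoc, Matrix.mul_assoc, e3, ← Matrix.mul_assoc, h.coc,
        Matrix.zero_mul]
    · rw [conjTranspose_mul, Matrix.mul_assoc, e3, h.pair]
  obtain ⟨u', h1, h2⟩ := chg_ValAnyM (D' := diagonal w * D * (diagonal w)ᴴ) (Z' := diagonal w * Z)
    (Y' := diagonal w * Γ * (diagonal w)ᴴ * (diagonal w * A)) (m := 0) (k := 0)
    (μ := 1) (μ' := 1) (ν := 1) (ν' := 1) (p' := (diagonal w)ᴴ) hT (hd w)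
    (by rw [diagonal_conjTranspose]; exact hd _) (fun _ _ _ => rfl)
    (fun _ _ _ => rfl) e1 (Matrix.mul_one 1) (Matrix.mul_one 1)
    (by rw [Matrix.mul_assoc _ _ (diagonal w), e2, Matrix.mul_one])
    (by rw [Matrix.mul_zero, zero_add, Matrix.mul_one])
    (by rw [Matrix.mul_zero, zero_add, Matrix.mul_one, Matrix.mul_assoc _ _ (diagonal w * A), e3,
      Matrix.mul_assoc]) hu
  have hq : ∀ q : I → Prop, InP (det (rs_ValAnyM q (diagonal w)) * det (1 : Matrix J J (RH C))) := by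
    intro q
    rw [det_one, mul_one, det_rs_diag_ValAnyM]
    refine InP.prod _ fun i _ => ?_
    split_ifs
    · exact (hw i).1
    · exact InP.one
  exact ⟨J, _, _, _, _, u', dp_re_ValAnyM h' e (Equiv.refl J),
    tor_re_ValAnyM hR h1 e (Equiv.refl J), Sim.trans (Sim.of_mul_eq (hq _) (hq _) h2) hτ⟩

end

end Pool.Agent.MP_6374aa_gt
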