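import Pool.Agent.MP_6374aa_gt.IfQ

/-! The value is invariant under equivariant isomorphisms and gauge transformations. -/

namespace Pool.Agent.MP_6374aa_gt

open Classical Matrix

noncomputable section

section

variable {V V' : Type} {G : SimpleGraph V} {A : Set V} {G' : SimpleGraph V'} {A' : Set V'}
  {C : Type} [CommGroup C] [Fintype C] {α : C →* Equiv.Perm V} {α' : C →* Equiv.Perm V'}
  {f : V' → V}

omit [Fintype C] in
theorem img_ValIso (he : Eqv A' α' α f) {l : List V'} (hl : ∀ x ∈ l, x ∈ A') (g : C) :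
    (l.toFinset.map (α' g).toEmbedding).image f = (l.map f).toFinset.map (α g).toEmbedding := by
  ext y
  simp only [Finset.mem_image, Finset.mem_map, List.mem_toFinset, List.mem_map,
    Equiv.coe_toEmbedding]
  constructor
  · rintro ⟨_, ⟨x, hx, rfl⟩, rfl⟩
    exact ⟨f x, ⟨x, hx, rfl⟩, (he g x (hl x hx)).symm⟩
  · rintro ⟨_, ⟨x, hx, rfl⟩, rfl⟩
    exact ⟨α' g x, ⟨x, hx, rfl⟩, he g x (hl x hx)⟩

/-- The image of a frame. -/
def frame_ValIso (h' : Act G' A' α') (hf : IsIso G' A' G A f) (he : Eqv A' α' α f)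
    (F' : Frame G' A' α') : Frame G A α where
  I := F'.I
  s i := (F'.s i).map f
  nodup i := (F'.nodup i).map_on fun x hx y hy e =>
    hf.1.injOn ((F'.cl i).1 x hx) ((F'.cl i).1 y hy) e
  ne i := by simpa using F'.ne i
  cl i := by
    refine ⟨fun x hx => ?_, fun x hx y hy => ?_⟩
    · obtain ⟨a, ha, rfl⟩ := List.mem_map.1 hx
      exact hf.1.mapsTo ((F'.cl i).1 a ha)
    · obtain ⟨a, ha, rfl⟩ := List.mem_map.1 hx
      obtain ⟨b, hb, rfl⟩ := List.mem_map.1 hy
      exact hf.isHom.adq ((F'.cl i).1 a ha) ((F'.cl i).1 b hb) ((F'.cl i).2 a ha b hb)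
  rep σ hne hσ hc := by
    have h1 : (σ : Set V) ⊆ f '' A' := by
      rw [hf.1.image_eq]
      exact hσ
    obtain ⟨σ', hσ', rfl⟩ := Finset.subset_set_image_iff.1 h1
    have hc' : G'.IsClique (σ' : Set V') := by
      intro x hx y hy hxy
      refine (hf.2 x (hσ' hx) y (hσ' hy)).2 (hc ?_ ?_ fun e => hxy ?_)
      · exact Finset.mem_coe.2 (Finset.mem_image_of_mem f hx)
      · exact Finset.mem_coe.2 (Finset.mem_image_of_mem f hy)
      · exact hf.1.injOn (hσ' hx) (hσ' hy) e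
    obtain ⟨p, hp, hu⟩ := F'.rep σ' (Finset.image_nonempty.1 hne) hσ' hc'
    refine ⟨p, ?_, fun q hq => hu q ?_⟩
    · change σ'.image f = _
      rw [← img_ValIso he (F'.cl p.2).1, ← hp]
    · have h2 : σ'.image f = ((F'.s q.2).toFinset.map (α' q.1).toEmbedding).image f := by
        rw [img_ValIso he (F'.cl q.2).1]
        exact hq
      have h3 : (((F'.s q.2).toFinset.map (α' q.1).toEmbedding : Finset V') : Set V') ⊆ A' := by
        intro x hx
        obtain ⟨a, ha, rfl⟩ := Finset.mem_map.1 (Finset.mem_coe.1 hx)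
        exact h'.mem q.1 a ((F'.cl q.2).1 a (List.mem_toFinset.1 ha))
      apply Finset.coe_injective
      apply (hf.1.injOn.image_eq_image_iff hσ' h3).1
      rw [← Finset.coe_image, ← Finset.coe_image, h2]

omit [Fintype C] in
theorem deg_ValIso (h' : Act G' A' α') (hf : IsIso G' A' G A f) (he : Eqv A' α' α f)
    (F' : Frame G' A' α') : (frame_ValIso h' hf he F').deg = F'.deg := by
  funext i
  change ((F'.s i).map f).length - 1 = (F'.s i).length - 1
  rw [List.length_map]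

theorem ev_ValIso (h' : Act G' A' α') (hf : IsIso G' A' G A f) (he : Eqv A' α' α f)
    (F' : Frame G' A' α') (x : F'.I → RC C) :
    (frame_ValIso h' hf he F').ev x = emap f (F'.ev x) := by
  change ∑ i : F'.I, act α (x i) (wedge ((F'.s i).map f)) =
    emap f (∑ i : F'.I, act α' (x i) (wedge (F'.s i)))
  rw [map_sum]
  refine Finset.sum_congr rfl fun i _ => ?_
  rw [emap_act he _ (wedge_mem_Ch (F'.cl i)), emap_wedge]

theorem ef_ValIso (hf : Set.InjOn f A') {l : List V'} (hl : ∀ x ∈ l, x ∈ A') (h2 : l.length = 2)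
    {p q : V'} (hp : p ∈ A') (hq : q ∈ A') :
    ef (wedge (l.map f)) (f p) (f q) = ef (wedge l) p q := by
  obtain ⟨x, y, rfl⟩ := List.length_eq_two.1 h2
  have hx : x ∈ A' := hl x (by simp)
  have hy : y ∈ A' := hl y (by simp)
  have e1 : wedge ([x, y].map f) = vx (f x) * vx (f y) := by simp [wedge]
  have e2 : wedge [x, y] = vx x * vx y := by simp [wedge]
  rw [e1, e2, ef_vx_vx, ef_vx_vx]
  simp only [hf.eq_iff hp hx, hf.eq_iff hq hy, hf.eq_iff hp hy, hf.eq_iff hq hx]

theorem dir_ValIso (h' : Act G' A' α') (hA : A'.Finite) (hf : IsIso G' A' G A f)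
    (he : Eqv A' α' α f) {τ : RH C} (h : Val2 G' A' α' τ) : Val2 G A α τ := by
  obtain ⟨ζ, hζ, hne, F', D, Γ, hD, hΓ, hv⟩ := h
  have k1 : ∀ j : F'.I, emap f (F'.ev fun i => D i j) =
      if F'.deg j = 0 then 0 else bd (wedge ((F'.s j).map f)) := by
    intro j
    rw [hD j]
    split_ifs
    · exact map_zero _
    · rw [emap_bd, emap_wedge]
  have k2 : ∀ j : F'.I, emap f (F'.ev fun i => Γ i j) =
      if F'.deg j = 1 then cap1 (lc (emap f ζ)) (ef (wedge ((F'.s j).map f))) else 0 := by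
    intro j
    rw [hΓ j]
    split_ifs with hj
    · rw [← emap_cap1]
      congr 1
      refine cap1_congr (eta0_lc hA hζ.1) fun p hp q hq _ => ?_
      refine (ef_ValIso hf.1.injOn (F'.cl j).1 ?_ hp hq).symm
      rw [F'.length_eq j, hj]
    · exact map_zero _
  refine ⟨emap f ζ, hζ.map hf.isHom he,
    fun e => hne (emap_eq_zero_of_injOn hf.1.injOn (mem_Zy.1 hζ.1).1 e),
    frame_ValIso h' hf he F', D, Γ, fun j => ?_, fun j => ?_, ?_⟩
  · rw [deg_ValIso]
    exact (ev_ValIso h' hf he F' _).trans (k1 j)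
  · rw [deg_ValIso]
    exact (ev_ValIso h' hf he F' _).trans (k2 j)
  · rw [deg_ValIso]
    exact hv

end

theorem valIso : ValIsoStmt := by
  intro C _ _ V V' G A α G' A' α' f h h' hA hf he τ
  have hA' : A'.Finite := Set.Finite.of_injOn hf.1.mapsTo hf.1.injOn hA
  refine ⟨dir_ValIso h' hA' hf he, fun hv => ?_⟩
  have hne : Nonempty V' := by
    obtain ⟨ζ, hζ, hne, -⟩ := hv
    by_contra hc
    apply hne
    refine eq_zero_of_iv (n := 3) (mem_Zy.1 hζ.1).1 fun v hv => ?_
    obtain ⟨w, -, -⟩ := hf.1.surjOn hv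
    exact absurd ⟨w⟩ hc
  obtain ⟨g, hg, h1, h2⟩ := hf.exists_inv
  refine dir_ValIso h hA hg (fun c a ha => ?_) hv
  have ha' : g a ∈ A' := hg.1.mapsTo ha
  rw [← h1 _ (h'.mem c _ ha'), he c _ ha', h2 a ha]

theorem valGauge (hI : ValIsoStmt) : ValGaugeStmt := by
  intro p _ V G A lab lab' k hA hl hk τ
  have hfin : (up A (Cp p)).Finite := by
    refine (hA.prod (Set.finite_univ (α := Cp p))).subset fun x hx => ⟨hx, trivial⟩
  refine hI (Cp p) _ _ _ _ _ _ _ _ (fun x => (x.1, (k x.1)⁻¹ • x.2))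
    (freeAct_deck (ψ := MonoidHom.id (Cp p)) fun _ _ e => e).toAct
    (freeAct_deck (ψ := MonoidHom.id (Cp p)) fun _ _ e => e).toAct hfin
    (cov_gauge_iso hl hk) (fun g a _ => ?_) τ
  change (a.1, (k a.1)⁻¹ * (a.2 * g⁻¹)) = (a.1, (k a.1)⁻¹ * a.2 * g⁻¹)
  rw [mul_assoc]

theorem valV1 (hM : TorMapStmt) (hR : TorReindexStmt) : ValV1Stmt := by
  intro p _ V G A α a b ζ h hA hz hζ hne hv
  obtain ⟨F, D, J, _, _, z, dz, Z, hD, hadm, -, u, hu, ht⟩ := hv
  have hJ : IsEmpty J := ⟨fun j => by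
    have h1 := hadm.ind (dz j) (Pi.single j 1)
      (fun i hi => Pi.single_eq_of_ne (fun e => hi (by rw [e])) _) (by
        rw [Finset.sum_eq_single j (fun i _ hi => by rw [Pi.single_eq_of_ne hi, act_zero])
          (by simp), Pi.single_eq_same, act_one]
        exact hz _ (hadm.deg j) (hadm.cyc j)) j
    rw [Pi.single_eq_same] at h1
    exact one_ne_zero h1⟩
  obtain ⟨f, hf⟩ := exists_evQ (Cp p)
  obtain ⟨Γ, hΓ⟩ := F.exists_isCap h hA hζ.1
  have h2 := (hM _ _ _ f _ _ _).2 ht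
  let e : F.I ⊕ (Empty ⊕ Empty) ≃ F.I ⊕ J := (Equiv.refl F.I).sumCongr (Equiv.equivOfIsEmpty _ _)
  have h3 := (hR _ _ _ e _ _ _).2 h2
  refine ⟨ζ, hζ, hne, F, D, Γ, hD, hΓ, Empty, inferInstance, inferInstance, 0, 0,
    f (qq (Cp p) u * lens p a b), ⟨fun _ _ _ => rfl, fun _ _ _ => rfl, Matrix.mul_zero _, ?_,
      Subsingleton.elim _ _⟩, ?_, evH _ u, hu.inP, ?_⟩
  · exact Subsingleton.elim _ _
  · have e1 : Sum.elim F.deg (d23 Empty) = Sum.elim F.deg dz ∘ e := by
      funext i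
      rcases i with i | i
      · rfl
      · exact isEmptyElim i
    have e2 : cx2 (D.map (evH (Cp p))) (0 : Matrix F.I Empty (RH (Cp p)))
        (Γ.map (evH (Cp p)) * (0 : Matrix F.I Empty (RH (Cp p)))) =
        (((Matrix.fromBlocks D Z 0 (0 : Matrix J J (RC (Cp p)))).map (qq (Cp p))).map
          f).submatrix e e := by
      ext1 i j
      rcases i with i | i
      · rcases j with j | j
        · exact (hf _).symm
        · exact isEmptyElim j
      · exact isEmptyElim i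
    rw [e1, e2]
    exact h3
  · rw [map_mul, hf, lens, hf, lensH]

end

end Pool.Agent.MP_6374aa_gt
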