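import Pool.Agent.MP_6374aa_gt.IfP

/-! The algebraic vanishing statement. -/

namespace Pool.Agent.MP_6374aa_gt

open Classical Matrix

noncomputable section

section St

variable {S S' I J K W N : Type} [CommRing S] [CommRing S']

/-- Stabilisation of a matrix. -/
def st_VanAlg (M : Matrix (J ⊕ W) (I ⊕ W) S) (D : Matrix N N S) :
    Matrix (J ⊕ (W ⊕ N)) (I ⊕ (W ⊕ N)) S :=
  (fromBlocks M 0 0 D).submatrix (Equiv.sumAssoc J W N).symm (Equiv.sumAssoc I W N).symm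

lemma st_mul_VanAlg [Fintype J] [Fintype W] [Fintype N] (M : Matrix (K ⊕ W) (J ⊕ W) S)
    (M' : Matrix (J ⊕ W) (I ⊕ W) S) (D D' : Matrix N N S) :
    st_VanAlg M D * st_VanAlg M' D' = st_VanAlg (M * M') (D * D') := by
  unfold st_VanAlg
  rw [submatrix_mul_equiv, fromBlocks_multiply]
  simp

lemma st_oe_VanAlg [DecidableEq I] (e : Matrix W W S) (D : Matrix N N S) :
    oe I (fromBlocks e 0 0 D) = st_VanAlg (oe I e) D := by
  ext (i | i | i) (j | j | j) <;> simp [oe, st_VanAlg]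

lemma st_map_VanAlg (f : S →+* S') (M : Matrix (J ⊕ W) (I ⊕ W) S) (D : Matrix N N S) :
    (st_VanAlg M D).map f = st_VanAlg (M.map f) (D.map f) := by
  ext (i | i | i) (j | j | j) <;> simp [st_VanAlg]

lemma st_eqR_VanAlg {r : ℤ → Prop} {uI : I → ℤ} {uJ : J → ℤ} {uW : W → ℤ}
    {M M' : Matrix (J ⊕ W) (I ⊕ W) S} (h : EqR r (Sum.elim uI uW) (Sum.elim uJ uW) M M')
    (D : Matrix N N S) :
    EqR r (Sum.elim uI (Sum.elim uW fun _ : N => 0)) (Sum.elim uJ (Sum.elim uW fun _ : N => 0))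
      (st_VanAlg M D) (st_VanAlg M' D) := by
  rintro (j | j | j) (i | i | i) hj hi <;> simp only [st_VanAlg, submatrix_apply,
    Equiv.sumAssoc_symm_apply_inl, Equiv.sumAssoc_symm_apply_inr_inl,
    Equiv.sumAssoc_symm_apply_inr_inr, fromBlocks_apply₁₁, fromBlocks_apply₁₂,
    fromBlocks_apply₂₁, fromBlocks_apply₂₂] <;> exact h _ _ hj hi

lemma st_band_VanAlg {uI : I → ℤ} {uJ : J → ℤ} {uW : W → ℤ}
    {M : Matrix (J ⊕ W) (I ⊕ W) S} (h : Band (Sum.elim uI uW) (Sum.elim uJ uW) M)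
    (D : Matrix N N S) :
    Band (Sum.elim uI (Sum.elim uW fun _ : N => 0)) (Sum.elim uJ (Sum.elim uW fun _ : N => 0))
      (st_VanAlg M D) := by
  rintro (j | j | j) (i | i | i) <;> simp only [st_VanAlg, submatrix_apply,
    Equiv.sumAssoc_symm_apply_inl, Equiv.sumAssoc_symm_apply_inr_inl,
    Equiv.sumAssoc_symm_apply_inr_inr, fromBlocks_apply₁₁, fromBlocks_apply₁₂,
    fromBlocks_apply₂₁, fromBlocks_apply₂₂] <;>
    first
      | exact h _ _
      | simp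

lemma bl_eqR_VanAlg {r : ℤ → Prop} {uW : W → ℤ} {e e' : Matrix W W S} (h : EqR r uW uW e e')
    (D : Matrix N N S) :
    EqR r (Sum.elim uW fun _ : N => 0) (Sum.elim uW fun _ : N => 0) (fromBlocks e 0 0 D)
      (fromBlocks e' 0 0 D) := by
  rintro (j | j) (i | i) hj hi
  · exact h _ _ hj hi
  all_goals rfl

lemma bl_band_VanAlg {uW : W → ℤ} {e : Matrix W W S} (h : Band uW uW e) (D : Matrix N N S) :
    Band (Sum.elim uW fun _ : N => 0) (Sum.elim uW fun _ : N => 0) (fromBlocks e 0 0 D) := by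
  rintro (j | j) (i | i)
  · exact h _ _
  all_goals simp

lemma dg_mul_VanAlg [Fintype N] [DecidableEq N] (δ : N → Bool) : dg S δ * dg S δ = dg S δ := by
  unfold dg
  rw [diagonal_mul_diagonal]
  congr 1
  funext a
  split_ifs <;> simp

lemma dg_map_VanAlg [DecidableEq N] (f : S →+* S') (δ : N → Bool) :
    (dg S δ).map f = dg S' δ := by
  unfold dg
  rw [diagonal_map (map_zero f)]
  congr 1
  funext a
  split_ifs <;> simp

lemma dg_ct_VanAlg [StarRing S] [DecidableEq N] (δ : N → Bool) : (dg S δ)ᴴ = dg S δ := by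
  unfold dg
  rw [diagonal_conjTranspose]
  congr 1
  funext a
  simp only [Pi.star_apply]
  split_ifs <;> simp

lemma bl_ct_VanAlg [StarRing S] [DecidableEq N] (e : Matrix W W S) (δ : N → Bool) :
    (fromBlocks e 0 0 (dg S δ))ᴴ = fromBlocks eᴴ 0 0 (dg S δ) := by
  rw [fromBlocks_conjTranspose, dg_ct_VanAlg]
  simp

lemma tri_VanAlg [StarRing S] [Fintype I] [DecidableEq I] [Fintype J] [DecidableEq J] [Fintype W]
    [Fintype N] [DecidableEq N] {r : ℤ → Prop} {uI : I → ℤ} {uJ : J → ℤ} {uW : W → ℤ}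
    {Ψ : Matrix (J ⊕ W) (I ⊕ W) S} {Ψ' : Matrix (I ⊕ W) (J ⊕ W) S} {e : Matrix W W S}
    (h : Tri r uI uJ uW Ψ Ψ' e) (δ : N → Bool) :
    Tri r uI uJ (Sum.elim uW fun _ : N => 0) (st_VanAlg Ψ (dg S δ)) (st_VanAlg Ψ' (dg S δ))
      (fromBlocks e 0 0 (dg S δ)) where
  b1 := st_band_VanAlg h.b1 _
  b2 := st_band_VanAlg h.b2 _
  b3 := bl_band_VanAlg h.b3 _
  ee := by
    have := bl_eqR_VanAlg h.ee (dg S δ)
    rw [fromBlocks_multiply]
    simpa [dg_mul_VanAlg] using this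
  l := by
    rw [bl_ct_VanAlg, st_oe_VanAlg, st_mul_VanAlg, dg_mul_VanAlg]
    exact st_eqR_VanAlg h.l _
  rr := by
    rw [st_oe_VanAlg, st_mul_VanAlg, dg_mul_VanAlg]
    exact st_eqR_VanAlg h.rr _
  n1 := by
    rw [bl_ct_VanAlg, st_oe_VanAlg, st_mul_VanAlg, dg_mul_VanAlg]
    exact st_eqR_VanAlg h.n1 _
  n2 := by
    rw [st_oe_VanAlg, st_mul_VanAlg, dg_mul_VanAlg]
    exact st_eqR_VanAlg h.n2 _
  n3 := by
    rw [st_oe_VanAlg, st_mul_VanAlg, dg_mul_VanAlg]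
    exact st_eqR_VanAlg h.n3 _
  n4 := by
    rw [bl_ct_VanAlg, st_oe_VanAlg, st_mul_VanAlg, dg_mul_VanAlg]
    exact st_eqR_VanAlg h.n4 _

lemma agr_VanAlg [DecidableEq N] {f : S →+* S'} {r : ℤ → Prop} {uI : I → ℤ} {uJ : J → ℤ}
    {uW : W → ℤ} {Ψ : Matrix (J ⊕ W) (I ⊕ W) S} {Ψ' : Matrix (I ⊕ W) (J ⊕ W) S}
    {e : Matrix W W S} {Θ : Matrix (J ⊕ W) (I ⊕ W) S'} {Θ' : Matrix (I ⊕ W) (J ⊕ W) S'}
    {d : Matrix W W S'} (h : Agr f r uI uJ uW Ψ Ψ' e Θ Θ' d) (δ : N → Bool) :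
    Agr f r uI uJ (Sum.elim uW fun _ : N => 0) (st_VanAlg Ψ (dg S δ)) (st_VanAlg Ψ' (dg S δ))
      (fromBlocks e 0 0 (dg S δ)) (st_VanAlg Θ (dg S' δ)) (st_VanAlg Θ' (dg S' δ))
      (fromBlocks d 0 0 (dg S' δ)) where
  a1 := by
    rw [st_map_VanAlg, dg_map_VanAlg]
    exact st_eqR_VanAlg h.a1 _
  a2 := by
    rw [st_map_VanAlg, dg_map_VanAlg]
    exact st_eqR_VanAlg h.a2 _
  a3 := by
    have := bl_eqR_VanAlg h.a3 (dg S' δ)
    rw [fromBlocks_map, dg_map_VanAlg]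
    simpa using this

lemma det_VanAlg [StarRing S] [Fintype I] [DecidableEq I] [Fintype W] [DecidableEq W] [Fintype N]
    [DecidableEq N] (Ψ : Matrix (J ⊕ W) (I ⊕ W) S) (e : Matrix W W S) (δ : N → Bool) (ε : I ≃ J) :
    det ((st_VanAlg Ψ (dg S δ) + ze J I ((1 - fromBlocks e 0 0 (dg S δ)) *
      (1 - fromBlocks e 0 0 (dg S δ))ᴴ)).submatrix (ε.sumCongr (Equiv.refl (W ⊕ N))) id) =
      det ((Ψ + ze J I ((1 - e) * (1 - e)ᴴ)).submatrix (ε.sumCongr (Equiv.refl W)) id) := by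
  have h1 : (1 : Matrix (W ⊕ N) (W ⊕ N) S) - fromBlocks e 0 0 (dg S δ) =
      fromBlocks (1 - e) 0 0 (1 - dg S δ) := by
    ext (i | i) (j | j) <;> simp [one_apply]
  have h2 : (1 - dg S δ) * (1 - dg S δ)ᴴ = 1 - dg S δ := by
    rw [conjTranspose_sub, conjTranspose_one, dg_ct_VanAlg, mul_sub, sub_mul, sub_mul,
      dg_mul_VanAlg]
    simp
  have h3 : (st_VanAlg Ψ (dg S δ) + ze J I ((1 - fromBlocks e 0 0 (dg S δ)) *
      (1 - fromBlocks e 0 0 (dg S δ))ᴴ)).submatrix (ε.sumCongr (Equiv.refl (W ⊕ N))) id =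
      (fromBlocks ((Ψ + ze J I ((1 - e) * (1 - e)ᴴ)).submatrix (ε.sumCongr (Equiv.refl W)) id)
        0 0 1).submatrix (Equiv.sumAssoc I W N).symm (Equiv.sumAssoc I W N).symm := by
    rw [h1, fromBlocks_conjTranspose, fromBlocks_multiply, h2]
    generalize (1 - e) * (1 - e)ᴴ = g
    ext (i | i | i) (j | j | j) <;> simp [st_VanAlg, ze]
  rw [h3, det_submatrix_equiv_self, det_fromBlocks_zero₂₁, det_one, mul_one]

lemma comm_VanAlg [Fintype W] [DecidableEq W] {u : W → ℤ} {P e e' : Matrix W W S} (hP : Std u P)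
    (hb : Band u u e) (hb' : Band u u e') (h : EqR (fun x => |x| ≤ 10) u u e' e)
    (hc : P * e' = e' * P) : P * e = e * P := by
  have key : ∀ a b, (e - e') a b ≠ 0 → (1 < u a ∧ 1 < u b) ∨ (u a < 0 ∧ u b < 0) := by
    intro a b hab
    have h1 : |u a - u b| ≤ 1 := by
      by_contra hn
      apply hab
      have h2 : e a b = 0 := by
        by_contra h2
        exact hn (hb a b h2)
      have h3 : e' a b = 0 := by
        by_contra h3
        exact hn (hb' a b h3)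
      simp [h2, h3]
    have h2 : ¬ (|u a| ≤ 10 ∧ |u b| ≤ 10) := by
      rintro ⟨ha, hb⟩
      apply hab
      simp [h a b ha hb]
    rw [abs_le, abs_le] at h2
    rw [abs_le] at h1
    omega
  have h4 : P * (e - e') = (e - e') * P := by
    generalize e - e' = Δ at key
    ext a b
    have h5 : (P * Δ) a b = if 0 < u a then Δ a b else 0 := by
      rw [mul_apply, Finset.sum_eq_single a]
      · by_cases h6 : Δ a b = 0
        · simp [h6]
        · have h7 := (hP a a (by have := key a b h6; omega)).1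
          rw [h7]
          split_ifs <;> simp_all
      · intro c _ hca
        by_cases h6 : Δ c b = 0
        · simp [h6]
        · have h7 := (hP c a (by have := key c b h6; omega)).2
          rw [h7, if_neg (fun h => hca h.1), zero_mul]
      · simp
    have h8 : (Δ * P) a b = if 0 < u b then Δ a b else 0 := by
      rw [mul_apply, Finset.sum_eq_single b]
      · by_cases h6 : Δ a b = 0
        · simp [h6]
        · have h7 := (hP b b (by have := key a b h6; omega)).1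
          rw [h7]
          split_ifs <;> simp_all
      · intro c _ hcb
        by_cases h6 : Δ a c = 0
        · simp [h6]
        · have h7 := (hP c b (by have := key a c h6; omega)).1
          rw [h7, if_neg (fun h => hcb h.1), mul_zero]
      · simp
    rw [h5, h8]
    by_cases h6 : Δ a b = 0
    · simp [h6]
    · have := key a b h6
      split_ifs <;> first | rfl | omega
  rw [mul_sub, sub_mul, hc] at h4
  exact sub_left_injective h4

lemma idem_VanAlg [Fintype W] [DecidableEq W] {u : W → ℤ} {r : ℤ → Prop} {P e : Matrix W W S}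
    (hPP : P * P = P) (hc : P * e = e * P) (he : EqR r u u (e * e) e)
    (h1 : ∀ a b, P a b ≠ 0 → r (u a) ∧ r (u b)) :
    (1 - e) * P * ((1 - e) * P) = (1 - e) * P := by
  have h2 : P * (e * e - e) * P = 0 := by
    ext a b
    rw [mul_apply]
    refine Finset.sum_eq_zero fun d _ => ?_
    by_cases hd : P d b = 0
    · rw [hd, mul_zero]
    rw [mul_apply, Finset.sum_eq_zero, zero_mul]
    intro c _
    by_cases hcc : P a c = 0
    · rw [hcc, zero_mul]
    rw [Matrix.sub_apply, he c d (h1 a c hcc).2 (h1 d b hd).1, sub_self, mul_zero]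
  have h3 : P * e * P = e * P := by rw [hc, mul_assoc, hPP]
  have h4 : P * (e * e) * P = e * P * e * P := by
    rw [← mul_assoc, hc]
  rw [mul_sub, sub_mul, h3, h4, sub_eq_zero] at h2
  have h5 : (1 - e) * P * ((1 - e) * P) = P * P - P * e * P - e * (P * P) + e * P * e * P := by
    noncomm_ring
  rw [h5, hPP, h3, h2]
  noncomm_ring

lemma free_VanAlg [Fintype W] [DecidableEq W] (hS : StabFree S) (e : Matrix W W S)
    (he : e * e = e) : ∃ (m k : ℕ) (X : Matrix (W ⊕ Fin m) (Fin k) S)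
      (Y : Matrix (Fin k) (W ⊕ Fin m) S), X * Y = fromBlocks e 0 0 1 ∧ Y * X = 1 := by
  let σ := Fintype.equivFin W
  obtain ⟨m, k, X, Y, h1, h2⟩ := hS _ (e.submatrix σ.symm σ.symm)
    (by rw [submatrix_mul_equiv, he])
  let τ : W ⊕ Fin m ≃ Fin (Fintype.card W) ⊕ Fin m := σ.sumCongr (Equiv.refl _)
  refine ⟨m, k, X.submatrix τ id, Y.submatrix id τ, ?_, ?_⟩
  · rw [← submatrix_mul X Y τ id τ Function.bijective_id, h1]
    ext (i | i) (j | j) <;> simp [τ, one_apply]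
  · rw [submatrix_mul_equiv, h2, submatrix_id_id]

lemma pad_VanAlg {A B Z : Type} [Fintype A] [Fintype B] [Fintype Z] [Fintype K] [DecidableEq K]
    (X : Matrix A K S) (Y : Matrix K A S) (h : Y * X = 1) (a : Z ≃ A ⊕ B) :
    ∃ (X' : Matrix Z K S) (Y' : Matrix K Z S),
      X' * Y' = (fromBlocks (X * Y) 0 0 0).submatrix a a ∧ Y' * X' = 1 := by
  refine ⟨(fromRows X 0).submatrix a id, (fromCols Y 0).submatrix id a, ?_, ?_⟩
  · rw [← submatrix_mul _ _ a id a Function.bijective_id, fromRows_mul_fromCols]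
    simp
  · rw [submatrix_mul_equiv, fromCols_mul_fromRows, h]
    simp

lemma map_VanAlg [StarRing S] [StarRing S'] [Fintype K] (φ : S →+* S')
    (hφ : ∀ x, φ (star x) = star (φ x)) (Ψ : Matrix (J ⊕ W) (I ⊕ W) S) (A : Matrix W K S) :
    (Ψ + ze J I (A * Aᴴ)).map φ = Ψ.map φ + ze J I (A.map φ * (A.map φ)ᴴ) := by
  rw [← conjTranspose_map φ hφ, ← Matrix.map_mul]
  generalize A * Aᴴ = g
  ext (i | i) (j | j) <;> simp [ze]

end St

section Main

variable {S0 Sp Sm R I J : Type} [CommRing S0] [StarRing S0] [CommRing Sp] [StarRing Sp]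
  [CommRing Sm] [StarRing Sm] [CommRing R] [StarRing R] [Fintype I] [DecidableEq I] [Fintype J]
  [DecidableEq J] {qp : S0 →+* Sp} {qm : S0 →+* Sm} {rp : Sp →+* R} {rm : Sm →+* R}
  {uI : I → ℤ} {uJ : J → ℤ} {W : Type} [Fintype W] [DecidableEq W] {uW : W → ℤ}
  {Ψ : Matrix (J ⊕ W) (I ⊕ W) R} {Ψ' : Matrix (I ⊕ W) (J ⊕ W) R} {e : Matrix W W R}
  {Ψp : Matrix (J ⊕ W) (I ⊕ W) Sp} {Ψp' : Matrix (I ⊕ W) (J ⊕ W) Sp} {ep : Matrix W W Sp}
  {Ψm : Matrix (J ⊕ W) (I ⊕ W) Sm} {Ψm' : Matrix (I ⊕ W) (J ⊕ W) Sm} {em : Matrix W W Sm}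
  {Ψ0 : Matrix (J ⊕ W) (I ⊕ W) S0} {Ψ0' : Matrix (I ⊕ W) (J ⊕ W) S0} {e0 : Matrix W W S0}

omit [DecidableEq W] in
lemma tri4_VanAlg (h : Tri4 qp qm rp rm uI uJ uW Ψ Ψ' e Ψp Ψp' ep Ψm Ψm' em Ψ0 Ψ0' e0)
    {N : Type} [Fintype N] [DecidableEq N] (δ : N → Bool) :
    Tri4 qp qm rp rm uI uJ (Sum.elim uW fun _ : N => 0)
      (st_VanAlg Ψ (dg R δ)) (st_VanAlg Ψ' (dg R δ)) (fromBlocks e 0 0 (dg R δ))
      (st_VanAlg Ψp (dg Sp δ)) (st_VanAlg Ψp' (dg Sp δ)) (fromBlocks ep 0 0 (dg Sp δ))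
      (st_VanAlg Ψm (dg Sm δ)) (st_VanAlg Ψm' (dg Sm δ)) (fromBlocks em 0 0 (dg Sm δ))
      (st_VanAlg Ψ0 (dg S0 δ)) (st_VanAlg Ψ0' (dg S0 δ)) (fromBlocks e0 0 0 (dg S0 δ)) :=
  ⟨tri_VanAlg h.t δ, tri_VanAlg h.tp δ, tri_VanAlg h.tm δ, tri_VanAlg h.t0 δ, agr_VanAlg h.ap δ,
    agr_VanAlg h.am δ, agr_VanAlg h.bp δ, agr_VanAlg h.bm δ⟩

lemma fin_VanAlg [Nontrivial R] (hV : VanCoreStmt) (hP : PosStmt) {Kp Km : Type} [Fintype Kp]
    [DecidableEq Kp] [Fintype Km] [DecidableEq Km] {π : Matrix W W S0} {Xp : Matrix W Kp Sp}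
    {Yp : Matrix Kp W Sp} {Xm : Matrix W Km Sm} {Ym : Matrix Km W Sm} (h4 : Ring4 qp qm rp rm)
    (hS : StdIdem S0) (h : Tri4 qp qm rp rm uI uJ uW Ψ Ψ' e Ψp Ψp' ep Ψm Ψm' em Ψ0 Ψ0' e0)
    (h1 : π * π = π) (h2 : π * e0 = e0 * π) (h3 : Std uW π)
    (p1 : Xp * Yp = (1 - ep) * π.map qp) (p2 : Yp * Xp = 1)
    (m1 : Xm * Ym = (1 - em) * (1 - π).map qm) (m2 : Ym * Xm = 1) (ε : I ≃ J) :
    ∃ (up : Spˣ) (um : Smˣ), ∀ φ : R →+* ℂ, (∀ x, φ (star x) = star (φ x)) →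
      ∃ r : ℝ, 0 < r ∧
        φ (det ((Ψ + ze J I ((1 - e) * (1 - e)ᴴ)).submatrix (ε.sumCongr (Equiv.refl W)) id)) =
          r * φ (rp up * rm um) := by
  obtain ⟨c1, c2, c3⟩ := hV S0 Sp Sm R I J W Kp Km qp qm rp rm uI uJ uW Ψ Ψ' e Ψp Ψp' ep Ψm Ψm'
    em Ψ0 Ψ0' e0 π Xp Yp Xm Ym h4 hS h h1 h2 h3 p1 p2 m1 m2
  obtain ⟨up, um, c4⟩ := c3 ε
  refine ⟨up, um, fun φ hφ => ?_⟩
  generalize fromCols (Xp.map rp) (Xm.map rm) = X at c1 c2 c4
  generalize fromRows (Yp.map rp) (Ym.map rm) = Y at c1 c2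
  have d0 : (1 - e).map φ = 1 - e.map φ := by
    rw [Matrix.map_sub φ (map_sub φ), Matrix.map_one φ (map_zero φ) (map_one φ)]
  have d1 : X.map φ * Y.map φ = 1 - e.map φ := by rw [← Matrix.map_mul, c1, d0]
  have d2 : Y.map φ * X.map φ = 1 := by
    rw [← Matrix.map_mul, c2, Matrix.map_one φ (map_zero φ) (map_one φ)]
  have d3 : oe J e * Ψ = Ψ := by
    ext j i
    exact h.t.n2 j i trivial trivial
  have d4 : oe J (e.map φ) = (oe J e).map φ := by
    ext (i | i) (j | j) <;> simp [oe, one_apply, apply_ite φ]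
  obtain ⟨r, hr, d5⟩ := hP I J W (Kp ⊕ Km) (Ψ.map φ) (e.map φ) (X.map φ) (Y.map φ) ε d1 d2
    (by rw [d4, ← Matrix.map_mul, d3])
  refine ⟨r, hr, ?_⟩
  rw [← c4, RingHom.map_det, RingHom.map_det, RingHom.mapMatrix_apply, RingHom.mapMatrix_apply,
    ← submatrix_map, ← submatrix_map, map_VanAlg φ hφ, map_VanAlg φ hφ, d0, d5]

lemma mid_VanAlg [Nontrivial R] (hV : VanCoreStmt) (hP : PosStmt) {π : Matrix W W S0}
    (h4 : Ring4 qp qm rp rm) (hS : StdIdem S0) (fp : StabFree Sp) (fm : StabFree Sm)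
    (h : Tri4 qp qm rp rm uI uJ uW Ψ Ψ' e Ψp Ψp' ep Ψm Ψm' em Ψ0 Ψ0' e0)
    (h1 : π * π = π) (h2 : π * e0 = e0 * π) (h3 : Std uW π) (ε : I ≃ J) :
    ∃ (up : Spˣ) (um : Smˣ), ∀ φ : R →+* ℂ, (∀ x, φ (star x) = star (φ x)) →
      ∃ r : ℝ, 0 < r ∧
        φ (det ((Ψ + ze J I ((1 - e) * (1 - e)ᴴ)).submatrix (ε.sumCongr (Equiv.refl W)) id)) =
          r * φ (rp up * rm um) := by
  have sd : ∀ {T : Type} [CommRing T] (q : S0 →+* T), Std uW (π.map q) := by
    intro T _ q a b hab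
    obtain ⟨e1, e2⟩ := h3 a b hab
    simp only [map_apply, e1, e2, apply_ite q, map_one, map_zero, and_self]
  have bd : ∀ {T : Type} [CommRing T] (q : S0 →+* T), Band uW uW (e0.map q) := by
    intro T _ q a b hab
    refine h.t0.b3 a b fun h0 => hab ?_
    rw [map_apply, h0, map_zero]
  have cm : ∀ {T : Type} [CommRing T] (q : S0 →+* T), π.map q * e0.map q = e0.map q * π.map q := by
    intro T _ q
    rw [← Matrix.map_mul, ← Matrix.map_mul, h2]
  have om : (1 - π).map qm = 1 - π.map qm := by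
    rw [Matrix.map_sub qm (map_sub qm), Matrix.map_one qm (map_zero qm) (map_one qm)]
  have cp := comm_VanAlg (sd qp) h.tp.b3 (bd qp) h.bp.a3 (cm qp)
  have cn := comm_VanAlg (sd qm) h.tm.b3 (bd qm) h.bm.a3 (cm qm)
  have ip := idem_VanAlg (P := π.map qp) (by rw [← Matrix.map_mul, h1]) cp h.tp.ee (by
    intro a b hab
    constructor
    · by_contra hn
      apply hab
      rw [(sd qp a b (by omega)).1, if_neg (by omega)]
    · by_contra hn
      apply hab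
      rw [(sd qp b a (by omega)).2, if_neg (by omega)])
  have im := idem_VanAlg (P := 1 - π.map qm)
    (by rw [mul_sub, sub_mul, sub_mul, ← Matrix.map_mul, h1]; simp)
    (by rw [mul_sub, sub_mul, cn]; simp) h.tm.ee (by
    intro a b hab
    constructor
    · by_contra hn
      apply hab
      have : 0 < uW a := by omega
      rw [Matrix.sub_apply, (sd qm a b (by omega)).1, one_apply]
      simp [this]
    · by_contra hn
      apply hab
      have : 0 < uW b := by omega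
      rw [Matrix.sub_apply, (sd qm b a (by omega)).2, one_apply]
      simp [this, eq_comm])
  obtain ⟨mp, kp, Xp, Yp, p1, p2⟩ := free_VanAlg fp _ ip
  obtain ⟨mm, km, Xm, Ym, m1, m2⟩ := free_VanAlg fm _ im
  obtain ⟨Xp', Yp', p3, p4⟩ := pad_VanAlg Xp Yp p2 (Equiv.sumAssoc W (Fin mp) (Fin mm)).symm
  obtain ⟨Xm', Ym', m3, m4⟩ := pad_VanAlg Xm Ym m2
    (((Equiv.refl W).sumCongr (Equiv.sumComm (Fin mp) (Fin mm))).trans
      (Equiv.sumAssoc W (Fin mm) (Fin mp)).symm)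
  have z : ∀ {T : Type} [CommRing T], dg T (fun _ : Fin mp ⊕ Fin mm => false) = 0 := by
    intro T _
    simp [dg]
  have o : ∀ {T : Type} [CommRing T] (x : Matrix W W T)
      (y : Matrix (Fin mp ⊕ Fin mm) (Fin mp ⊕ Fin mm) T),
      1 - fromBlocks x 0 0 y = fromBlocks (1 - x) 0 0 (1 - y) := by
    intro T _ x y
    ext (i | i) (j | j) <;> simp [one_apply]
  have := fin_VanAlg hV hP (π := fromBlocks π 0 0 (dg S0 (Sum.isLeft : Fin mp ⊕ Fin mm → Bool)))
    (Xp := Xp') (Yp := Yp') (Xm := Xm') (Ym := Ym') h4 hS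
    (tri4_VanAlg h fun _ : Fin mp ⊕ Fin mm => false)
    (by rw [fromBlocks_multiply]; simp [h1, dg_mul_VanAlg])
    (by rw [z, fromBlocks_multiply, fromBlocks_multiply]; simp [h2])
    (by
      rintro (a | a) (b | b) hab
      · simpa using h3 a b hab
      · simp
      · simp at hab
      · simp at hab)
    (by
      rw [p3, p1, z, o, fromBlocks_map, dg_map_VanAlg, fromBlocks_multiply]
      generalize (1 - ep) * π.map qp = g
      ext (i | i | i) (j | j | j) <;> simp [dg, one_apply, diagonal_apply])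
    p4
    (by
      rw [m3, m1, z, o, o, fromBlocks_map, om, fromBlocks_multiply]
      generalize (1 - em) * (1 - π.map qm) = g
      ext (i | i | i) (j | j | j) <;> simp [dg, one_apply, diagonal_apply, apply_ite qm])
    m4 ε
  rwa [det_VanAlg] at this

end Main

theorem vanAlg (hC : CutStmt) (hV : VanCoreStmt) (hP : PosStmt) : VanAlgStmt := by
  intro S0 Sp Sm R I J W _ _ _ _ _ _ _ _ _ _ _ _ _ _ _ qp qm rp rm uI uJ uW Ψ Ψ' e Ψp Ψp' ep Ψm
    Ψm' em Ψ0 Ψ0' e0 h4 hS hZ fp fm h ε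
  obtain ⟨N, _, _, δ, π, h1, h2, h3⟩ := hC S0 W uW e0 hZ h.t0.b3 h.t0.ee
  have := mid_VanAlg hV hP h4 hS fp fm (tri4_VanAlg h δ) h1 h2 h3 ε
  rwa [det_VanAlg] at this

end

end Pool.Agent.MP_6374aa_gt
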