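import Pool.Agent.MP_6374aa_gt.IfG
import Pool.Agent.MP_6374aa_gt.Vk

/-! Van Kampen data of a graft, based at the centre. -/

namespace Pool.Agent.MP_6374aa_gt

open Classical

noncomputable section

variable {V : Type} {G : SimpleGraph V} {A M B L : Set V} {v l : V} {Pp : V → Gp G B}

theorem iota_Vk2 (h : Graft G A M B v) (hL : Lk G A {v} = L) (c : Cm_Vk L l Pp) {Q : Type}
    [Group Q] (ι : Gp G B →* Q) (jn : Gp G A →* Q)
    (h1 : ∀ x ∈ A \ {v}, ∀ y ∈ A \ {v}, Adq G x y → ι (gen G B x y) = jn (r_Vk G A L v x y))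
    {δ : Gp G A} (hδ : δ ∈ Loop G A v) : ι (glift G A (lab_Vk v Pp) δ) = jn δ := by
  subst hL
  have hf := glift_gen (flat_lab_Vk h c)
  have st : ∀ a ∈ A, ∀ b ∈ A, Adq G a b → a = v ∨ b = v →
      a ∈ insert v (Lk G A {v}) ∧ b ∈ insert v (Lk G A {v}) := by
    rintro a ha b hb hab (rfl | rfl)
    exacts [⟨Or.inl rfl, star_Vk hb hab⟩, ⟨star_Vk ha hab.symm, Or.inl rfl⟩]
  have hk := c.kill Q ι fun a ha b hb hab => by
    have a1 := lk_Vk.1 ha
    have a2 := lk_Vk.1 hb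
    rw [h1 a ⟨a1.1, a1.2.ne'⟩ b ⟨a2.1, a2.2.ne'⟩ hab, r_A_Vk a1.1 a2.1,
      k_star_Vk h.memA (Or.inr ha) (Or.inr hb) hab, map_one]
  have kv : k_Vk G A (Lk G A {v}) v v = 1 := by
    rw [k_Vk, s_Vk, if_pos (Set.mem_insert _ _), (flat_gen G A).self h.memA]
  simpa [kv] using ((mem_Loop h.memA).1 hδ).gauge' (ρ := ι.comp (glift G A (lab_Vk v Pp)))
    (σ := jn) (k := fun a => jn (k_Vk G A (Lk G A {v}) v a)⁻¹) fun u hu w hw huw => by
      rw [MonoidHom.comp_apply, hf, ← map_inv, inv_inv, ← map_mul, ← map_mul]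
      unfold lab_Vk
      split_ifs with e
      · obtain ⟨a1, a2⟩ := st u hu w hw huw e
        rw [k_star_Vk h.memA a1 a2 huw, map_one, map_one]
      · push Not at e
        rw [map_mul, map_mul, map_inv, hk, hk, h1 u ⟨hu, e.1⟩ w ⟨hw, e.2⟩ huw, r_A_Vk hu hw,
          one_mul, inv_one, mul_one]

theorem half_Vk2 (h : Graft G A M B v) (hL : Lk G A {v} = L) (c : Cm_Vk L l Pp) :
    VKH G A B v (glift G B (r_Vk G A L v)) (s_Vk L v l) (s_Vk L v v) Pp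
      (glift G A (lab_Vk v Pp)) (k_Vk G A L v) (MonoidHom.id _) (MonoidHom.id _) :=
  half_Vk h hL c _ _ _ (fun x _ y _ _ => glift_gen (flat_r_Vk h) x y)
    (fun x hx y hy hxy => by
      subst hL
      exact (glift_gen (flat_r_Vk h) x y).trans (r_one_Vk h hx hy hxy))
    (fun _ => rfl) fun w _ _ _ _ => ⟨w, rfl⟩

theorem path_Vk2 (h : Graft G A M B v) (hL : Lk G A {v} = L) (c : Cm_Vk L l Pp) {δ : Gp G A}
    (hδ : δ ∈ Loop G A v) : Path G B l l (glift G A (lab_Vk v Pp) δ) := by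
  have := (half_Vk2 h hL c).path v v δ ((mem_Loop h.memA).1 hδ)
  rwa [s_Vk, if_pos (Set.mem_insert _ _)] at this

theorem proj_Vk2 (h : Graft G A M B v) (hL : Lk G A {v} = L) (c : Cm_Vk L l Pp) :
    ∃ γ, Path G A (col A v l) v γ ∧
      (∀ δ ∈ Loop G A v, gcj G B G A (col A v) γ (glift G A (lab_Vk v Pp) δ) = δ) ∧
      ∀ δ ∈ Loop G M v, gcj G B G A (col A v) γ (glift G M (lab_Vk v Pp) δ) = 1 := by
  have H := half_Vk2 h hL c
  have hl : l ∈ Lk G A {v} := hL ▸ c.mem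
  have e : col A v l = l := if_pos (lk_Vk.1 hl).1
  have key : ∀ γ, Path G B l l γ → gcj G B G A (col A v) (k_Vk G A L v (col A v l)) γ =
      glift G B (r_Vk G A L v) γ := fun γ hγ => by
    have := H.proj l l γ hγ
    rw [MonoidHom.id_apply] at this
    rw [this]
    simp [gcj]
  refine ⟨k_Vk G A L v (col A v l), ?_, fun δ hδ => ?_, fun δ hδ => ?_⟩
  · have := H.kpath l (lk_Vk.1 hl).1
    rwa [s_Vk, if_pos (Set.mem_insert_of_mem v c.mem), ← e] at this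
  · rw [key _ (path_Vk2 h hL c hδ)]
    exact iota_Vk2 h hL c _ (MonoidHom.id _) (fun x _ y _ _ => glift_gen (flat_r_Vk h) x y) hδ
  · rw [key _ (path_Vk2 h.symm (h.lk.symm.trans hL) c hδ)]
    exact iota_Vk2 h.symm (h.lk.symm.trans hL) c _ 1 (fun x hx y hy hxy => by
      subst hL
      exact (glift_gen (flat_r_Vk h) x y).trans (r_one_Vk h hx hy hxy)) hδ

/-- The element `g` is the image of a path to the centre, up to `K`. -/
def T_Vk2 (G : SimpleGraph V) (A : Set V) (v : V) (Pp : V → Gp G B) (K : Subgroup (Gp G B))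
    (x : V) (g : Gp G B) : Prop :=
  ∃ α, Path G A x v α ∧ (glift G A (lab_Vk v Pp) α)⁻¹ * g ∈ K

theorem star_Vk2 (h : Graft G A M B v) (hL : Lk G A {v} = L) (c : Cm_Vk L l Pp) {a b : V}
    (ha : a ∈ insert v L) (hb : b ∈ insert v L) (hab : Adq G a b) :
    glift G A (lab_Vk v Pp) (gen G A a b) = 1 := by
  subst hL
  rw [glift_gen (flat_lab_Vk h c), lab_star_Vk c ha hb hab]

theorem sw_Vk2 (h : Graft G A M B v) (hL : Lk G A {v} = L) (c : Cm_Vk L l Pp)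
    {K : Subgroup (Gp G B)} (hK : (Loop G A v).map (glift G A (lab_Vk v Pp)) ≤ K) {x : V}
    (hx : x ∈ insert v L) {g : Gp G B} : T_Vk2 G A v Pp K x g ↔ g ∈ K := by
  have hx' : x ∈ insert v (Lk G A {v}) := hL ▸ hx
  have hA : x ∈ A := hx'.elim (fun e => e ▸ h.memA) fun e => (lk_Vk.1 e).1
  have ha := adq_Vk hx'
  refine ⟨fun ⟨α, h1, h2⟩ => ?_, fun hg => ⟨_, Path.single hA h.memA ha, ?_⟩⟩
  · have h3 := hK ⟨_, (mem_Loop h.memA).2 ((Path.single h.memA hA ha.symm).trans h1), rfl⟩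
    rw [map_mul, star_Vk2 h hL c (Set.mem_insert _ _) hx ha.symm, one_mul] at h3
    simpa using K.mul_mem h3 h2
  · rwa [star_Vk2 h hL c hx (Set.mem_insert _ _) ha, inv_one, one_mul]

theorem step_Vk2 (h : Graft G A M B v) (hL : Lk G A {v} = L) (c : Cm_Vk L l Pp)
    {K : Subgroup (Gp G B)} (hK : (Loop G A v).map (glift G A (lab_Vk v Pp)) ≤ K)
    (hK' : (Loop G M v).map (glift G M (lab_Vk v Pp)) ≤ K) {u w : V} (hu : u ∈ A \ {v})
    (hw : w ∈ A \ {v}) (huw : Adq G u w) {γ : Gp G B}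
    (ih : T_Vk2 G A v Pp K w (Pp w * γ) ∨ T_Vk2 G M v Pp K w (Pp w * γ)) :
    T_Vk2 G A v Pp K u (Pp u * (gen G B u w * γ)) := by
  have h1 : T_Vk2 G A v Pp K w (Pp w * γ) := ih.elim id fun e => by
    have hM : w ∈ M := e.choose_spec.1.mem_left
    have hs : w ∈ insert v L := hL ▸ h.inter ▸ ⟨hw.1, hM⟩
    exact (sw_Vk2 h hL c hK hs).2 ((sw_Vk2 h.symm (h.lk.symm.trans hL) c hK' hs).1 e)
  obtain ⟨α, h2, h3⟩ := h1
  refine ⟨_, Path.cons hu.1 huw h2, ?_⟩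
  rw [map_mul, (half_Vk2 h hL c).edge u hu w hw huw]
  convert h3 using 1
  group

theorem gn_Vk2 (h : Graft G A M B v) (c : Cm_Vk (Lk G A {v}) l Pp) :
    Loop G B l ≤ (Loop G A v).map (glift G A (lab_Vk v Pp)) ⊔
      (Loop G M v).map (glift G M (lab_Vk v Pp)) := by
  intro δ hδ
  set K := (Loop G A v).map (glift G A (lab_Vk v Pp)) ⊔
    (Loop G M v).map (glift G M (lab_Vk v Pp))
  have hK : (Loop G A v).map (glift G A (lab_Vk v Pp)) ≤ K := le_sup_left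
  have hK' : (Loop G M v).map (glift G M (lab_Vk v Pp)) ≤ K := le_sup_right
  have hl : l ∈ insert v (Lk G A {v}) := Set.mem_insert_of_mem v c.mem
  have key : ∀ x y γ, Path G B x y γ → y = l →
      T_Vk2 G A v Pp K x (Pp x * γ) ∨ T_Vk2 G M v Pp K x (Pp x * γ) := by
    intro x y γ hγ
    induction hγ with
    | nil hy =>
      rintro rfl
      exact Or.inl ((sw_Vk2 h rfl c hK hl).2 (by rw [c.one, mul_one]; exact K.one_mem))
    | @cons u w y γ hu huw hp ih =>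
      intro e
      rcases pair_Vk h hu hp.mem_left hp.mem_left huw (Adq.refl _ _) huw with p | p
      · exact Or.inl (step_Vk2 h rfl c hK hK' p.1 p.2.1 huw (ih e))
      · exact Or.inr (step_Vk2 h.symm h.lk.symm c hK' hK p.1 p.2.1 huw (ih e).symm)
  have := key l l δ ((mem_Loop (lkB_Vk h c.mem)).1 hδ) rfl
  rw [sw_Vk2 h rfl c hK hl, sw_Vk2 h.symm h.lk.symm c hK' hl, or_self, c.one, one_mul] at this
  exact this

theorem ext_Vk2 (h : Graft G A M B v) (c : Cm_Vk (Lk G A {v}) l Pp) (Q : Type) [Group Q]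
    (ρ1 : Gp G A →* Q) (ρ2 : Gp G M →* Q) : ∃ ρ : Gp G B →* Q,
      (∀ δ ∈ Loop G A v, ρ (glift G A (lab_Vk v Pp) δ) = ρ1 δ) ∧
      ∀ δ ∈ Loop G M v, ρ (glift G M (lab_Vk v Pp) δ) = ρ2 δ := by
  let lab : V → V → Q := fun x y =>
    ρ1 (r_Vk G A (Lk G A {v}) v x y) * ρ2 (r_Vk G M (Lk G A {v}) v x y)
  have e1 : ∀ x ∈ A \ {v}, ∀ y ∈ A \ {v}, Adq G x y →
      lab x y = ρ1 (r_Vk G A (Lk G A {v}) v x y) := fun x hx y hy hxy => by
    have := r_one_Vk h.symm hx hy hxy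
    rw [← h.lk] at this
    simp only [lab, this, map_one, mul_one]
  have e2 : ∀ x ∈ M \ {v}, ∀ y ∈ M \ {v}, Adq G x y →
      lab x y = ρ2 (r_Vk G M (Lk G A {v}) v x y) := fun x hx y hy hxy => by
    simp only [lab, r_one_Vk h hx hy hxy, map_one, one_mul]
  have hf : Flat G B lab := fun x hx y hy z hz h1 h2 h3 => by
    rcases pair_Vk h hx hy hz h1 h2 h3 with e | e
    · rw [e1 x e.1 y e.2.1 h1, e1 y e.2.1 z e.2.2 h2, e1 x e.1 z e.2.2 h3, ← map_mul,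
        flat_r_Vk h x hx y hy z hz h1 h2 h3]
    · rw [e2 x e.1 y e.2.1 h1, e2 y e.2.1 z e.2.2 h2, e2 x e.1 z e.2.2 h3, ← map_mul,
        flat_r_Vk h.symm x hx y hy z hz h1 h2 h3]
  exact ⟨glift G B lab,
    fun δ hδ => iota_Vk2 h rfl c _ _
      (fun x hx y hy hxy => by rw [glift_gen hf, e1 x hx y hy hxy]) hδ,
    fun δ hδ => iota_Vk2 h.symm h.lk.symm c _ _
      (fun x hx y hy hxy => by rw [glift_gen hf, e2 x hx y hy hxy]) hδ⟩

theorem vk2 : Vk2Stmt := by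
  intro V G A M B v h hs
  obtain ⟨l, Pp, c⟩ := exists_Vk h hs
  have hl := lkB_Vk h c.mem
  have H1 := half_Vk2 h rfl c
  have H2 := half_Vk2 h.symm h.lk.symm c
  refine ⟨l, glift G A (lab_Vk v Pp), glift G M (lab_Vk v Pp), Pp, hl, H1.edge, H2.edge,
    fun a ha b hb hab => star_Vk2 h rfl c ha hb hab,
    fun a ha b hb hab => star_Vk2 h.symm h.lk.symm c (h.lk ▸ ha) (h.lk ▸ hb) hab,
    fun δ hδ => (mem_Loop hl).2 (path_Vk2 h rfl c hδ),
    fun δ hδ => (mem_Loop hl).2 (path_Vk2 h.symm h.lk.symm c hδ), gn_Vk2 h c,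
    fun Q _ => ext_Vk2 h c Q, proj_Vk2 h rfl c, proj_Vk2 h.symm h.lk.symm c, fun hA hM => ?_⟩
  have key : ∀ x ∈ B, ∃ γ, Path G B x (s_Vk (Lk G A {v}) v l v) γ := by
    intro x hx
    rcases (h.mem_GrB3.1 hx).1 with e | e
    · obtain ⟨γ, hγ⟩ := hA.2 x e v h.memA
      exact ⟨_, (Ppath_Vk h c hx).symm.trans (H1.path _ _ _ hγ)⟩
    · obtain ⟨γ, hγ⟩ := hM.2 x e v h.memM
      exact ⟨_, (Ppath_Vk h c hx).symm.trans (H2.path _ _ _ hγ)⟩
  refine ⟨⟨l, hl⟩, fun x hx y hy => ?_⟩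
  obtain ⟨γ, hγ⟩ := key x hx
  obtain ⟨δ, hδ⟩ := key y hy
  exact ⟨_, hγ.trans hδ.symm⟩

end

end Pool.Agent.MP_6374aa_gt
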