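import Pool.Agent.MP_6374aa_gt.Glue
import Pool.Agent.MP_6374aa_gt.Sheet
import Pool.Agent.MP_6374aa_gt.Vertex
import Pool.Agent.MP_6374aa_gt.LiftMap
import Pool.Agent.MP_6374aa_gt.SCov
import Pool.Agent.MP_6374aa_gt.Base
import Pool.Agent.MP_6374aa_gt.KurA
import Pool.Agent.MP_6374aa_gt.Bs
import Pool.Agent.MP_6374aa_gt.Kur
import Pool.Agent.MP_6374aa_gt.GraftG
import Pool.Agent.MP_6374aa_gt.SdComb
import Pool.Agent.MP_6374aa_gt.JHomeo
import Pool.Agent.MP_6374aa_gt.JPack
import Pool.Agent.MP_6374aa_gt.Orth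
import Pool.Agent.MP_6374aa_gt.Nf
import Pool.Agent.MP_6374aa_gt.SphCov2
import Pool.Agent.MP_6374aa_gt.TorMap
import Pool.Agent.MP_6374aa_gt.ValIso
import Pool.Agent.MP_6374aa_gt.PieceS2
import Pool.Agent.MP_6374aa_gt.MfBasic
import Pool.Agent.MP_6374aa_gt.Vk2
import Pool.Agent.MP_6374aa_gt.TorChg
import Pool.Agent.MP_6374aa_gt.ValAnyM
import Pool.Agent.MP_6374aa_gt.TorBlock
import Pool.Agent.MP_6374aa_gt.MvAlg
import Pool.Agent.MP_6374aa_gt.StarS
import Pool.Agent.MP_6374aa_gt.ValAny2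
import Pool.Agent.MP_6374aa_gt.CovFrame
import Pool.Agent.MP_6374aa_gt.PidS
import Pool.Agent.MP_6374aa_gt.SideA
import Pool.Agent.MP_6374aa_gt.SideB
import Pool.Agent.MP_6374aa_gt.PDsurj
import Pool.Agent.MP_6374aa_gt.PDinj
import Pool.Agent.MP_6374aa_gt.TorUniq
import Pool.Agent.MP_6374aa_gt.UnitZ
import Pool.Agent.MP_6374aa_gt.MvVal
import Pool.Agent.MP_6374aa_gt.GDComp
import Pool.Agent.MP_6374aa_gt.SideTF
import Pool.Agent.MP_6374aa_gt.GraftVal
import Pool.Agent.MP_6374aa_gt.PbG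
import Pool.Agent.MP_6374aa_gt.CctP
import Pool.Agent.MP_6374aa_gt.PosS
import Pool.Agent.MP_6374aa_gt.PosAlg
import Pool.Agent.MP_6374aa_gt.GeoCone2
import Pool.Agent.MP_6374aa_gt.ConeR
import Pool.Agent.MP_6374aa_gt.GeoKey
import Pool.Agent.MP_6374aa_gt.GeoAlg
import Pool.Agent.MP_6374aa_gt.Deg
import Pool.Agent.MP_6374aa_gt.FamD
import Pool.Agent.MP_6374aa_gt.La2
import Pool.Agent.MP_6374aa_gt.Vpos
import Pool.Agent.MP_6374aa_gt.LiftE
import Pool.Agent.MP_6374aa_gt.Fl2
import Pool.Agent.MP_6374aa_gt.SiteUp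
import Pool.Agent.MP_6374aa_gt.ClFix
import Pool.Agent.MP_6374aa_gt.ClGrp
import Pool.Agent.MP_6374aa_gt.Congr
import Pool.Agent.MP_6374aa_gt.CovSys2
import Pool.Agent.MP_6374aa_gt.Sc2
import Pool.Agent.MP_6374aa_gt.Inter
import Pool.Agent.MP_6374aa_gt.ExtComp
import Pool.Agent.MP_6374aa_gt.SePhi
import Pool.Agent.MP_6374aa_gt.IdemE
import Pool.Agent.MP_6374aa_gt.Coord
import Pool.Agent.MP_6374aa_gt.CutS
import Pool.Agent.MP_6374aa_gt.Split2
import Pool.Agent.MP_6374aa_gt.VanCore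
import Pool.Agent.MP_6374aa_gt.VanAlg
import Pool.Agent.MP_6374aa_gt.StdIdem
import Pool.Agent.MP_6374aa_gt.StabFree
import Pool.Agent.MP_6374aa_gt.StabFree2
import Pool.Agent.MP_6374aa_gt.CtGeo2
import Pool.Agent.MP_6374aa_gt.Sys2
import Pool.Agent.MP_6374aa_gt.TypS2
import Pool.Agent.MP_6374aa_gt.MainS2
import Pool.Agent.MP_6374aa_gt.MfIso
import Pool.Agent.MP_6374aa_gt.GFacts
import Pool.Agent.MP_6374aa_gt.DichAbs
import Pool.Agent.MP_6374aa_gt.FPk
import Pool.Agent.MP_6374aa_gt.TreeFin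
import Pool.Agent.MP_6374aa_gt.Beatty
import Pool.Agent.MP_6374aa_gt.SignS
import Pool.Agent.MP_6374aa_gt.Compare2
import Pool.Agent.MP_6374aa_gt.Rep
import Pool.Agent.MP_6374aa_gt.SphHomeo

/-! Assembly of the second main theorem from the separately proved statements. -/

namespace Pool.Agent.MP_6374aa_gt

theorem u_sCov : SCovStmt := sCov vertexS liftMap
theorem u_kur : KurStmt := kur kurA bs
theorem u_covHomeo : CovHomeoStmt := covHomeo liftMap rlBasic
theorem u_jHomeo : JHomeoStmt := jHomeo rlBasic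
theorem u_sphCov2 : SphCov2Stmt :=
  sphCov2 u_covHomeo u_jHomeo jPack g_jVal g_topHomeo emptyS orth nf rlBasic
theorem u_valV1 : ValV1Stmt := valV1 torMap torReindex
theorem u_valGauge : ValGaugeStmt := valGauge valIso
theorem u_lensSite : LensSiteStmt := lensSite u_valV1 valIso u_valGauge
theorem u_pieceS2 : PieceS2Stmt :=
  pieceS2 sheet u_sCov deckIso u_kur baseG u_sphCov2 u_lensSite g_closedMf mfBasic
theorem u_valAnyM : ValAnyMStmt := valAnyM torChg torReindex
theorem u_mvAlg : MvAlgStmt := mvAlg u_valAnyM torBlock g_torSub torReindex torChg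
theorem u_valMono : ValMonoStmt := valMono torChg torReindex
theorem u_valAny2 : ValAny2Stmt := valAny2 u_valMono
theorem u_valScale : ValScaleStmt := valScale torChg
theorem u_covFrameS : CovFrameStmt := covFrameS u_valAny2 u_valScale
theorem u_sideA : SideAStmt := sideA pidS
theorem u_sideC : SideCStmt := sideC pDsurj
theorem u_sideD : SideDStmt := sideD pDinj
theorem u_sideMat : SideMatStmt := sideMat u_sideA sideB u_sideC u_sideD exactS torEx torUniq unitZ
theorem u_starS : StarSStmt := starS exactS torEx torUniq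
theorem u_mvVal : MvValStmt := mvVal u_mvAlg mvMat u_covFrameS u_sideMat u_starS g_mfGraft torMap
theorem u_sideTF : SideTFStmt := sideTF dL
theorem u_graftVal : GraftValStmt := graftVal u_mvVal u_sideTF u_valGauge
theorem u_posAlg : PosAlgStmt := posAlg pos2S torEx
theorem u_geoCone2 : GeoCone2Stmt := geoCone2 cctP u_posAlg
theorem u_coneR : ConeRStmt := coneR torReindex g_torNeg g_torNeg' torBlock g_torSub torUniq
theorem u_torShear : TorShearStmt := torShear torChg
theorem u_geoKey : GeoKeyStmt := geoKey u_coneR u_torShear torReindex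
theorem u_geoAlg : GeoAlgStmt := geoAlg u_geoKey u_valAnyM idemSplit
theorem u_geoS2 : GeoS2Stmt := geoS2 u_geoCone2 idemSplit u_geoAlg u_valAny2
theorem u_degS : DegStmt := degS pDsurj pDinj
theorem u_famU : FamUStmt := famU pDsurj pDinj u_degS
theorem u_famD : FamDStmt := famD u_famU pDinj
theorem u_fl2 : Fl2Stmt := fl2 u_geoS2 u_famD la2 vpos vanOne
theorem u_qsCovV : QsCovVStmt := qsCovV u_fl2
theorem u_siteUp : SiteUpStmt := siteUp gDIso pConnCov u_valGauge
theorem u_qSType : QSTypeStmt := qSType pbG u_qsCovV u_siteUp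
theorem u_clQS : ClQSStmt := clQS clSe_ok clLoc clCov
theorem u_graftSite2 : GraftSite2Stmt :=
  graftSite2 vk2 graftG u_graftVal u_qSType u_clQS gDComp mfBasic sc2
theorem u_sumS2 : SumS2Stmt := sumS2 u_graftSite2 g_mfGraft
theorem u_qSComp : QSCompStmt := qSComp locComp seComp
theorem u_idemE : IdemEStmt := idemE pDsurj pDinj u_degS
theorem u_vanCore : VanCoreStmt := vanCore split2
theorem u_vanAlg : VanAlgStmt := vanAlg cutS u_vanCore posS
theorem u_stabFree2 : StabFree2Stmt := stabFree2 stabFree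
theorem u_liftE : LiftEStmt := liftE u_vanAlg stdIdem stabFree u_stabFree2 unitZ inU
theorem u_vpP : VpPStmt := vpP coord u_liftE
theorem u_ctGeo2 : CtGeo2Stmt := ctGeo2 la2 g_vp u_vpP
theorem u_sys2 : Sys2Stmt := sys2 u_fl2 u_famD u_idemE u_ctGeo2 u_geoS2
theorem u_covSys2 : CovSys2Stmt := covSys2 clLoc locComp
theorem u_sysCov : SysCovStmt := sysCov u_sys2 g_covSys u_covSys2
theorem u_siteDown : SiteDownStmt := siteDown gDIso pConnCov
theorem u_typS2 : TypS2Stmt :=
  typS2 inter g_sd rlBasic u_clQS u_qSComp u_qSType sePhi pfG u_sysCov u_siteDown pConnCov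
theorem u_sideS2 : SideS2Stmt := sideS2 u_pieceS2 u_sumS2 u_typS2 g_closedMf mfBasic
theorem u_graftCovL : GraftCovLStmt := graftCovL gFacts gLoc g_mfRem mfIso clLoc locComp
theorem u_doubleS2 : DoubleS2Stmt :=
  doubleS2 u_graftSite2 g_mfGraft mfIso mfBasic u_qSType u_clQS u_graftCovL
theorem u_mal : MalStmt := mal bs
theorem u_fPk2 : FPk2Stmt := fPk2 u_mal
theorem u_dichG : DichGStmt := dichG dichAbs fPk1 u_fPk2
theorem u_valUniqM : ValUniqMStmt := valUniqM u_valAnyM torUniq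
theorem u_valUniq2 : ValUniq2Stmt := valUniq2 u_valAny2 u_valUniqM u_valScale
theorem u_signS : SignStmt := signS beatty
theorem u_compare2 : Compare2Stmt :=
  compare2 u_dichG gDS gDIso u_sysCov u_valUniq2 u_signS pConnCov mfBasic
theorem u_sphHomeo : SphHomeoStmt := sphHomeo orth nf small rep
theorem u_lensHomeo : LensHomeoStmt := lensHomeo u_sphHomeo
theorem u_mainS2 : MainS2Stmt :=
  mainS2 u_sideS2 inter u_doubleS2 u_compare2 u_lensHomeo u_qSComp gDComp u_clQS u_qSType mfIso mfBasic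

theorem main2_ok : MainS2Stmt := u_mainS2

end Pool.Agent.MP_6374aa_gt
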