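import Pool.Agent.MP_6374aa_gt.Core2

/-! Statements: algebra of torsion and controlled vanishing. -/

namespace Pool.Agent.MP_6374aa_gt

open Classical

noncomputable section

def TorUniqStmt : Prop :=
  ∀ (R I : Type) [CommRing R] [Fintype I] [DecidableEq I] (deg : I → ℕ) (d : Matrix I I R)
    (u u' : R), IsCx deg d → IsTor deg d u → IsTor deg d u' → IsUnit u ∧ (u' = u ∨ u' = -u)

def TorExStmt : Prop :=
  ∀ (R I : Type) [CommRing R] [Nontrivial R] [Fintype I] [DecidableEq I] (deg : I → ℕ)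
    (d h : Matrix I I R), IsCx deg d → IsCtr deg d h →
    Nonempty ({i // Odd (deg i)} ≃ {i // ¬ Odd (deg i)})

def TorMapStmt : Prop :=
  ∀ (R S I : Type) [CommRing R] [CommRing S] [Fintype I] [DecidableEq I] (f : R →+* S)
    (deg : I → ℕ) (d : Matrix I I R) (u : R),
    (IsCx deg d → IsCx deg (d.map f)) ∧ (IsTor deg d u → IsTor deg (d.map f) (f u))

def TorReindexStmt : Prop :=
  ∀ (R I J : Type) [CommRing R] [Fintype I] [DecidableEq I] [Fintype J] [DecidableEq J]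
    (e : J ≃ I) (deg : I → ℕ) (d : Matrix I I R) (u : R),
    (IsCx deg d → IsCx (deg ∘ e) (d.submatrix e e)) ∧
      (IsTor deg d u → IsTor (deg ∘ e) (d.submatrix e e) u)

def TorNegStmt : Prop :=
  ∀ (R I : Type) [CommRing R] [Fintype I] [DecidableEq I] (deg : I → ℕ) (d : Matrix I I R)
    (u : R), IsCx deg d → IsTor deg d u →
    ∃ w, IsTor (fun i => deg i + 1) (-d) w ∧ (u * w = 1 ∨ u * w = -1)

def TorNegStmt' : Prop :=
  ∀ (R I : Type) [CommRing R] [Fintype I] [DecidableEq I] (deg : I → ℕ) (d : Matrix I I R)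
    (w : R), IsCx deg d → IsTor (fun i => deg i + 1) (-d) w →
    ∃ u, IsTor deg d u ∧ (u * w = 1 ∨ u * w = -1)

def TorBlockStmt : Prop :=
  ∀ (R I J : Type) [CommRing R] [Fintype I] [DecidableEq I] [Fintype J] [DecidableEq J]
    (da : I → ℕ) (dc : J → ℕ) (a : Matrix I I R) (b : Matrix I J R) (c : Matrix J J R) (u w : R),
    IsCx (Sum.elim da dc) (Matrix.fromBlocks a b 0 c) → IsTor da a u → IsTor dc c w →
    ∃ v, IsTor (Sum.elim da dc) (Matrix.fromBlocks a b 0 c) v ∧ (v = u * w ∨ v = -(u * w))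

def TorSubStmt : Prop :=
  ∀ (R I J : Type) [CommRing R] [Fintype I] [DecidableEq I] [Fintype J] [DecidableEq J]
    (da : I → ℕ) (dc : J → ℕ) (a : Matrix I I R) (b : Matrix I J R) (c : Matrix J J R) (v : R),
    IsCx (Sum.elim da dc) (Matrix.fromBlocks a b 0 c) →
    IsTor (Sum.elim da dc) (Matrix.fromBlocks a b 0 c) v →
    (∀ w, IsTor dc c w → ∃ u, IsTor da a u ∧ (v = u * w ∨ v = -(u * w))) ∧
      ∀ u, IsTor da a u → ∃ w, IsTor dc c w ∧ (v = u * w ∨ v = -(u * w))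

/-- Trivial units form a group containing `-1`. -/
def InUStmt : Prop :=
  ∀ (C : Type) [CommGroup C], InU (1 : RC C) ∧ (∀ u v : RC C, InU u → InU v → InU (u * v)) ∧
    (∀ u : RC C, InU u → InU (-u)) ∧ ∀ u : RC C, InU u → ∃ v, InU v ∧ u * v = 1

/-- Change of basis by a controlled degree preserving matrix. -/
def TorChangeStmt : Prop :=
  ∀ (C : Type) [CommGroup C] [Fintype C] (B I J : Type) [Fintype I] [DecidableEq I] [Fintype J]
    [DecidableEq J] (β : C →* Equiv.Perm B) (B0 : Set B) (ρ : B → B → Prop) (pI : I → B)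
    (pJ : J → B) (dI : I → ℕ) (dJ : J → ℕ) (P : Matrix J I (RC C)) (Q : Matrix I J (RC C))
    (d : Matrix I I (RC C)) (d' : Matrix J J (RC C)) (τ : RQ C),
    Vanish β B0 ρ → (∀ i, pI i ∈ B0) → (∀ j, pJ j ∈ B0) → P * Q = 1 → Q * P = 1 →
    Ctl β ρ pI pJ P → Ctl β ρ pJ pI Q → (∀ j i, P j i ≠ 0 → dJ j = dI i) →
    (∀ i j, Q i j ≠ 0 → dJ j = dI i) → P * d = d' * P → IsTor dI (d.map (qq C)) τ →
    ∃ u, InU u ∧ IsTor dJ (d'.map (qq C)) (qq C u * τ)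

/-- Controlled contractions. -/
def CctStmt : Prop :=
  ∀ (C : Type) [CommGroup C] [Fintype C] (B I : Type) [Fintype I] [DecidableEq I]
    (β : C →* Equiv.Perm B) (B0 : Set B) (ρ : ℕ → B → B → Prop) (pos : I → B) (deg : I → ℕ)
    (d : Matrix I I (RC C)),
    (∀ i, pos i ∈ B0) → (∀ i, deg i ≤ 4) → IsCx deg d → (∀ g, ∀ b ∈ B0, β g b ∈ B0) →
    (∀ k g a b, ρ k a b → ρ k (β g a) (β g b)) → (∀ k, ∀ a ∈ B0, ρ k a a) →
    (∀ k a b, ρ k a b → ρ (k + 1) a b) →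
    (∀ k, ∀ a ∈ B0, ∀ b ∈ B0, ∀ c ∈ B0, ρ k a b → ρ k b c → ρ (k + 1) a c) →
    Ctl β (ρ 0) pos pos d →
    (∀ k n, ∀ b ∈ B0, ∀ x : I → RC C, (∀ i, deg i ≠ n → x i = 0) →
      (∀ i g, (x i).coeff g ≠ 0 → ρ k (β g (pos i)) b) → d.mulVec x = 0 →
      ∃ y : I → RC C, (∀ i, deg i ≠ n + 1 → y i = 0) ∧
        (∀ i g, (y i).coeff g ≠ 0 → ρ (k + 1) (β g (pos i)) b) ∧ d.mulVec y = x) →
    Vanish β B0 (ρ 30) → ∃ u, InU u ∧ IsTor deg d u

/-- Vanishing for control in a free graded poset. -/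
def VposStmt : Prop :=
  ∀ (C : Type) [CommGroup C] [Fintype C] (B : Type) (β : C →* Equiv.Perm B) (B0 : Set B)
    (le : B → B → Prop) (ht : B → ℕ), (∀ g b, ht (β g b) = ht b) →
    (∀ g, ∀ b ∈ B0, β g b = b → g = 1) → (∀ a b, le a b → a = b ∨ ht a < ht b) → Vanish β B0 le

/-- The two overlapping regions. -/
def Reg (s : Bool) (x : ℤ) : Prop := if s then -12 ≤ x else x ≤ 12

/-- A height function and circle valued coordinates on the two sides. -/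
structure Coord {C B : Type} [CommGroup C] (β : C →* Equiv.Perm B) (B0 : Set B)
    (ρ : B → B → Prop) (t : C) (u : B → ℤ) (lam : Bool → B → C) (l : Bool → B → B → ℤ) :
    Prop where
  uinv : ∀ g, ∀ b ∈ B0, u (β g b) = u b
  ulip : ∀ a ∈ B0, ∀ b ∈ B0, ρ a b → |u a - u b| ≤ 1
  leqv : ∀ s g, ∀ b ∈ B0, Reg s (u b) → lam s (β g b) = g * lam s b
  linv : ∀ s g, ∀ a ∈ B0, ∀ b ∈ B0, Reg s (u a) → Reg s (u b) → ρ a b →
    l s (β g a) (β g b) = l s a b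
  laml : ∀ s, ∀ a ∈ B0, ∀ b ∈ B0, Reg s (u a) → Reg s (u b) → ρ a b →
    lam s a = lam s b * t ^ l s a b
  self : ∀ s, ∀ a ∈ B0, Reg s (u a) → l s a a = 0
  coc : ∀ s, ∀ a ∈ B0, ∀ b ∈ B0, ∀ c ∈ B0, Reg s (u a) → Reg s (u b) → Reg s (u c) →
    ρ a b → ρ b c → l s a c = l s a b + l s b c

def CoordStmt : Prop :=
  ∀ (C : Type) [CommGroup C] [Fintype C] (V0 V1 : Type) (G0 : SimpleGraph V0) (A0 : Set V0)
    (α0 : C →* Equiv.Perm V0) (G1 : SimpleGraph V1) (A1 : Set V1) (α1 : C →* Equiv.Perm V1)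
    (φ : V1 → V0) (R T : ℕ) (t : C), (∀ g, g ∈ Subgroup.zpowers t) →
    FreeAct G0 A0 α0 → Fin3 G0 A0 → Act G1 A1 α1 → (∀ a ∈ A1, φ a ∈ A0) → Eqv A1 α1 α0 φ →
    (∀ a ∈ A1, ∀ b ∈ A1, Near G1 A1 T a b → Adq G0 (φ a) (φ b)) → 1000 * (R + 1) ≤ T →
    ∃ u lam l, Coord α1 A1 (Near G1 A1 R) t u lam l

/-- Idempotents are stably free. -/
def StabFree (S : Type) [CommRing S] : Prop :=
  ∀ (n : ℕ) (p : Matrix (Fin n) (Fin n) S), p * p = p →
    ∃ (m k : ℕ) (X : Matrix (Fin n ⊕ Fin m) (Fin k) S) (Y : Matrix (Fin k) (Fin n ⊕ Fin m) S),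
      X * Y = Matrix.fromBlocks p 0 0 1 ∧ Y * X = 1

/-- Idempotents are stably conjugate to diagonal ones. -/
def StdIdem (S : Type) [CommRing S] : Prop :=
  ∀ (W : Type) [Fintype W] [DecidableEq W] (e : Matrix W W S), e * e = e →
    ∃ (N : Type) (_ : Fintype N) (_ : DecidableEq N) (π : N → Bool) (π' : W ⊕ N → Bool)
      (Q Q' : Matrix (W ⊕ N) (W ⊕ N) S), Q * Q' = 1 ∧ Q' * Q = 1 ∧
      Q * Matrix.fromBlocks e 0 0 (Matrix.diagonal fun x => if π x then 1 else 0) * Q' =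
        Matrix.diagonal fun x => if π' x then 1 else 0

def StabFreeStmt : Prop := StabFree (MonoidAlgebra ℚ (Multiplicative (ℤ × ℤ)))

def StdIdemStmt : Prop := ∀ (S : Type) [CommRing S], StabFree S → StdIdem S

def UnitStmt : Prop :=
  ∀ u : MonoidAlgebra ℚ (Multiplicative ℤ), IsUnit u →
    ∃ (r : ℚ) (n : Multiplicative ℤ), r ≠ 0 ∧ u = MonoidAlgebra.single n r

/-- Entries vanish unless the heights differ by at most one. -/
def Band {S I J : Type} [CommRing S] (uI : I → ℤ) (uJ : J → ℤ) (M : Matrix J I S) : Prop :=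
  ∀ j i, M j i ≠ 0 → |uJ j - uI i| ≤ 1

/-- `M'`, `N'` are banded, inverse to each other on the region `r`, and lift `M`, `N` there. -/
structure LiftOn {S R I J : Type} [CommRing S] [CommRing R] [Fintype I] [Fintype J]
    (f : S →+* R) (r : ℤ → Prop) (uI : I → ℤ) (uJ : J → ℤ) (M' : Matrix J I S)
    (N' : Matrix I J S) (M : Matrix J I R) (N : Matrix I J R) : Prop where
  bM : Band uI uJ M'
  bN : Band uJ uI N'
  lM : ∀ j i, r (uJ j) → r (uI i) → f (M' j i) = M j i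
  lN : ∀ i j, r (uI i) → r (uJ j) → f (N' i j) = N i j
  MN : ∀ j j', r (uJ j) → r (uJ j') → (M' * N') j j' = if j = j' then 1 else 0
  NM : ∀ i i', r (uI i) → r (uI i') → (N' * M') i i' = if i = i' then 1 else 0

/-- Splitting a banded isomorphism along a wall. -/
def SplitStmt : Prop :=
  ∀ (S0 Sp Sm R I J : Type) [CommRing S0] [CommRing Sp] [CommRing Sm] [CommRing R]
    [Nontrivial R] [Fintype I] [DecidableEq I] [Fintype J] [DecidableEq J]
    (qp : S0 →+* Sp) (qm : S0 →+* Sm) (rp : Sp →+* R) (rm : Sm →+* R) (uI : I → ℤ) (uJ : J → ℤ)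
    (M : Matrix J I R) (N : Matrix I J R) (Mp : Matrix J I Sp) (Np : Matrix I J Sp)
    (Mm : Matrix J I Sm) (Nm : Matrix I J Sm) (M0 : Matrix J I S0) (N0 : Matrix I J S0),
    (∀ x, rp (qp x) = rm (qm x)) → StdIdem S0 → M * N = 1 → N * M = 1 →
    Band uI uJ M → Band uJ uI N →
    LiftOn rp (fun x => -10 ≤ x) uI uJ Mp Np M N → LiftOn rm (fun x => x ≤ 10) uI uJ Mm Nm M N →
    LiftOn qp (fun x => |x| ≤ 10) uI uJ M0 N0 Mp Np →
    LiftOn qm (fun x => |x| ≤ 10) uI uJ M0 N0 Mm Nm →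
    ∀ e : I ≃ J, ∃ (up : Spˣ) (um : Smˣ), Matrix.det (M.submatrix e id) = rp up * rm um

def LiftStmt : Prop :=
  ∀ (C : Type) [CommGroup C] [Fintype C] (B : Type) (β : C →* Equiv.Perm B) (B0 : Set B)
    (ρ : B → B → Prop) (t : C) (u : B → ℤ) (lam : Bool → B → C) (l : Bool → B → B → ℤ),
    (∀ g, g ∈ Subgroup.zpowers t) → (∀ g, ∀ b ∈ B0, β g b ∈ B0) →
    (∀ g, ∀ a ∈ B0, ∀ b ∈ B0, ρ a b → ρ (β g a) (β g b)) → Coord β B0 ρ t u lam l →
    Vanish β B0 ρ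

/-- Controlled vanishing over a free three dimensional complex. -/
def VpStmt : Prop :=
  ∀ (C : Type) [CommGroup C] [Fintype C] [IsCyclic C] (V0 V1 : Type) (G0 : SimpleGraph V0)
    (A0 : Set V0) (α0 : C →* Equiv.Perm V0) (G1 : SimpleGraph V1) (A1 : Set V1)
    (α1 : C →* Equiv.Perm V1) (φ : V1 → V0) (R T : ℕ),
    FreeAct G0 A0 α0 → Fin3 G0 A0 → Act G1 A1 α1 → (∀ a ∈ A1, φ a ∈ A0) → Eqv A1 α1 α0 φ →
    (∀ a ∈ A1, ∀ b ∈ A1, Near G1 A1 T a b → Adq G0 (φ a) (φ b)) → 1000 * (R + 1) ≤ T →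
    Vanish α1 A1 (Near G1 A1 R)

/-- Lens values determine the trace. -/
def GrStmt : Prop :=
  ∀ (p : ℕ) [NeZero p], 5 ≤ p → ∀ (a b a' b' : (ZMod p)ˣ) (u : RC (Cp p)), InU u →
    lens p a b = qq (Cp p) u * lens p a' b' → cosum p a b = cosum p a' b'

/-- The algebra of the mapping cone. -/
def ConeStmt : Prop :=
  ∀ (C : Type) [CommGroup C] [Fintype C] (I I' J1 J2 : Type) [Fintype I] [DecidableEq I]
    [Fintype I'] [DecidableEq I'] [Fintype J1] [DecidableEq J1] [Fintype J2] [DecidableEq J2]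
    (dI : I → ℕ) (dI' : I' → ℕ) (dz : J1 → ℕ) (dy : J2 → ℕ) (D : Matrix I I (RC C))
    (D' : Matrix I' I' (RC C)) (Φ : Matrix I I' (RC C)) (Wm : Matrix I J1 (RC C))
    (Z : Matrix I' J1 (RC C)) (Y : Matrix I' J2 (RC C)) (u : RC C) (τ : RQ C),
    IsCx (Sum.elim dI (Sum.elim (fun i => dI' i + 1) fun j => dz j + 1))
      (Matrix.fromBlocks D (Matrix.fromCols Φ Wm) 0 (-Matrix.fromBlocks D' Z 0 0)) →
    IsCx (Sum.elim dI' (Sum.elim dz dy)) (Matrix.fromBlocks D' (Matrix.fromCols Z Y) 0 0) →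
    InU u →
    IsTor (Sum.elim dI (Sum.elim (fun i => dI' i + 1) fun j => dz j + 1))
      (Matrix.fromBlocks D (Matrix.fromCols Φ Wm) 0 (-Matrix.fromBlocks D' Z 0 0)) u →
    ((∃ v, InU v ∧ IsTor (Sum.elim dI' (Sum.elim dz dy))
        ((Matrix.fromBlocks D' (Matrix.fromCols Z Y) 0
          (0 : Matrix (J1 ⊕ J2) (J1 ⊕ J2) (RC C))).map (qq C)) (qq C v * τ)) ↔
      ∃ v, InU v ∧ IsTor (Sum.elim dI dy)
        ((Matrix.fromBlocks D (Φ * Y) 0 (0 : Matrix J2 J2 (RC C))).map (qq C)) (qq C v * τ))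

end

end Pool.Agent.MP_6374aa_gt
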