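import Pool.Agent.MP_6374aa_gt.IfB

/-! Statements: van Kampen data, packs of grafts, equivalences. -/

namespace Pool.Agent.MP_6374aa_gt

open Classical

noncomputable section

/-- One half of the van Kampen data. -/
structure VKH {V : Type} (G : SimpleGraph V) (A B : Set V) (v : V) {Q : Type} [Group Q]
    (ι : Gp G B →* Q) (s t : V → V) (Pp : V → Gp G B) (i : Gp G A →* Gp G B) (k : V → Gp G A)
    (jn : Gp G A →* Q) (pr : Q →* Gp G A) : Prop where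
  path : ∀ a b γ, Path G A a b γ → Path G B (s a) (s b) (i γ)
  edge : ∀ a ∈ A \ {v}, ∀ b ∈ A \ {v}, Adq G a b →
    i (gen G A a b) = Pp a * gen G B a b * (Pp b)⁻¹
  cone : ∀ l ∈ Lk G A {v}, i (gen G A l v) = 1
  iota : ∀ a b γ, Path G A a b γ → ι (i γ) = jn ((k a)⁻¹ * γ * k b)
  proj : ∀ x y γ, Path G B x y γ →
    pr (ι γ) = (k (col A v x))⁻¹ * gmap G B G A (col A v) γ * k (col A v y)
  kpath : ∀ a ∈ A, Path G A a (t a) (k a)
  ts : ∀ a ∈ A, t (col A v (s a)) = t a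
  ik : ∀ a ∈ A, i (k a) = 1
  prjn : ∀ γ, pr (jn γ) = γ
  mal : ∀ w a a', a ≠ 1 → w⁻¹ * jn a * w = jn a' → w ∈ jn.range

/-- Van Kampen data of a graft. -/
structure VKD {V : Type} (G : SimpleGraph V) (A M B : Set V) (v : V) where
  Q : Type
  [grp : Group Q]
  ι : Gp G B →* Q
  κ : Q →* Gp G B
  s : V → V
  t : V → V
  Pp : V → Gp G B
  i1 : Gp G A →* Gp G B
  k1 : V → Gp G A
  jn1 : Gp G A →* Q
  pr1 : Q →* Gp G A
  i2 : Gp G M →* Gp G B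
  k2 : V → Gp G M
  jn2 : Gp G M →* Q
  pr2 : Q →* Gp G M
  h1 : VKH G A B v ι s t Pp i1 k1 jn1 pr1
  h2 : VKH G M B v ι s t Pp i2 k2 jn2 pr2
  pr12 : ∀ γ, pr1 (jn2 γ) = 1
  pr21 : ∀ γ, pr2 (jn1 γ) = 1
  κ1 : ∀ γ, κ (jn1 γ) = i1 γ
  κ2 : ∀ γ, κ (jn2 γ) = i2 γ
  kappa : ∀ x y γ, Path G B x y γ → κ (ι γ) = Pp x * γ * (Pp y)⁻¹
  Ppath : ∀ x ∈ B, Path G B (s x) x (Pp x)
  Ps : ∀ x ∈ A ∪ M, Pp (s x) = 1
  smem : ∀ x ∈ A ∪ M, s x ∈ B
  kur : ∀ (H : Type) [Group H], HasE H → ∀ φ : H →* Q, Function.Injective φ →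
    ∃ w : Q, (∀ h, w⁻¹ * φ h * w ∈ jn1.range) ∨ ∀ h, w⁻¹ * φ h * w ∈ jn2.range

attribute [instance] VKD.grp

def VKD.swap {V : Type} {G : SimpleGraph V} {A M B : Set V} {v : V} (D : VKD G A M B v) :
    VKD G M A B v where
  Q := D.Q
  ι := D.ι
  κ := D.κ
  s := D.s
  t := D.t
  Pp := D.Pp
  i1 := D.i2
  k1 := D.k2
  jn1 := D.jn2
  pr1 := D.pr2
  i2 := D.i1
  k2 := D.k1
  jn2 := D.jn1
  pr2 := D.pr1
  h1 := D.h2
  h2 := D.h1
  pr12 := D.pr21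
  pr21 := D.pr12
  κ1 := D.κ2
  κ2 := D.κ1
  kappa := D.kappa
  Ppath := D.Ppath
  Ps := fun x hx => D.Ps x (by rwa [Set.union_comm])
  smem := fun x hx => D.smem x (by rwa [Set.union_comm])
  kur := fun H _ hH φ hφ => (D.kur H hH φ hφ).imp fun _ h => h.symm

def VkStmt : Prop :=
  ∀ (V : Type) (G : SimpleGraph V) (A M B : Set V) (v : V), Graft G A M B v →
    SConn G (Lk G A {v}) → Nonempty (VKD G A M B v)

section

variable {V : Type} {G : SimpleGraph V} {A M B : Set V} {v : V}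

/-- Base points of the sites of a graft. -/
def gA (D : VKD G A M B v) (P1 : Pack G A) (P2 : Pack G M) : P1.X ⊕ P2.X → V :=
  Sum.elim (fun x => D.s (P1.a x)) fun x => D.s (P2.a x)

/-- Groups of the sites of a graft. -/
def gL (D : VKD G A M B v) (P1 : Pack G A) (P2 : Pack G M) : P1.X ⊕ P2.X → Subgroup (Gp G B) :=
  Sum.elim (fun x => (P1.Λ x).map D.i1) fun x => (P2.Λ x).map D.i2

/-- The sites of `P'` are those of `P1` and `P2`. -/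
structure GSites (D : VKD G A M B v) (P1 : Pack G A) (P2 : Pack G M) (P' : Pack G B)
    (j1 : P1.X → P'.X) (j2 : P2.X → P'.X) : Prop where
  inj1 : Function.Injective j1
  inj2 : Function.Injective j2
  disj : ∀ x y, j1 x ≠ j2 y
  surj : ∀ x', x' ∈ Set.range j1 ∨ x' ∈ Set.range j2
  a1 : ∀ x, P'.a (j1 x) = D.s (P1.a x)
  a2 : ∀ x, P'.a (j2 x) = D.s (P2.a x)
  L1 : ∀ x, P'.Λ (j1 x) = (P1.Λ x).map D.i1
  L2 : ∀ x, P'.Λ (j2 x) = (P2.Λ x).map D.i2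

end

/-- What the two collapses do to the image of a group of loops of `A`. -/
def VkOneStmt : Prop :=
  ∀ (V : Type) (G : SimpleGraph V) (A M B : Set V) (v : V) (D : VKD G A M B v),
    Graft G A M B v → ∀ a ∈ A,
      (∃ γ, Path G A (col A v (D.s a)) a γ ∧
        ∀ δ ∈ Loop G A a, γ⁻¹ * gmap G B G A (col A v) (D.i1 δ) * γ = δ) ∧
      (∀ δ ∈ Loop G A a, gmap G B G M (col M v) (D.i1 δ) = 1) ∧
      (∀ δ ∈ Loop G A a, D.i1 δ ∈ Loop G B (D.s a)) ∧ (PConn G A → PConn G M → PConn G B)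

def GK1Stmt : Prop :=
  ∀ (V : Type) (G : SimpleGraph V) (A M B : Set V) (v : V) (D : VKD G A M B v) (P1 : Pack G A)
    (P2 : Pack G M), Graft G A M B v → ∀ y ∈ B, ∀ H : Subgroup (Gp G B), H ≤ Loop G B y →
    H ≠ ⊥ → HasE H → ∃ x γ, Path G B y (gA D P1 P2 x) γ ∧ ∀ δ ∈ H, γ⁻¹ * δ * γ ∈ gL D P1 P2 x

def GK2Stmt : Prop :=
  ∀ (V : Type) (G : SimpleGraph V) (A M B : Set V) (v : V) (D : VKD G A M B v) (P1 : Pack G A)
    (P2 : Pack G M), Graft G A M B v → ∀ x x' γ, Path G B (gA D P1 P2 x) (gA D P1 P2 x') γ →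
    ∀ δ ∈ gL D P1 P2 x, δ ≠ 1 → γ⁻¹ * δ * γ ∈ gL D P1 P2 x' → x = x' ∧ γ ∈ gL D P1 P2 x

def GK3Stmt : Prop :=
  ∀ (V : Type) (G : SimpleGraph V) (A M B : Set V) (v : V) (D : VKD G A M B v) (P1 : Pack G A)
    (P2 : Pack G M), Graft G A M B v → ∀ x, ∃ ρ : Gp G B →* Gp G B,
    (∀ δ ∈ gL D P1 P2 x, ρ δ = δ) ∧ (∀ δ, ρ δ ∈ gL D P1 P2 x) ∧
      ∀ y, y ≠ x → ∀ δ ∈ gL D P1 P2 y, ρ δ = 1

/-- A homomorphism that kills the sites of `M` is a gauge transform of a pull back. -/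
def GGaugeStmt : Prop :=
  ∀ (V : Type) (G : SimpleGraph V) (A M B : Set V) (v : V) (D : VKD G A M B v) (P2 : Pack G M),
    Graft G A M B v → ∀ (L : Type) [Group L] (ρ : Gp G B →* L),
    (∀ x, ∀ δ ∈ P2.Λ x, ρ (D.i2 δ) = 1) → ∃ k : V → L, ∀ u ∈ B, ∀ w ∈ B, Adq G u w →
      ρ (gen G B u w) = k u * ρ (D.i1 (gen G A (col A v u) (col A v w))) * (k w)⁻¹

def GK4Stmt : Prop :=
  ∀ (V : Type) (G : SimpleGraph V) (A M B : Set V) (v : V) (D : VKD G A M B v) (P1 : Pack G A)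
    (P2 : Pack G M), Graft G A M B v → ∀ y ∈ B,
    Loop G B y ≤ Subgroup.normalClosure (⋃ x, (gL D P1 P2 x : Set (Gp G B)))

/-- Lifting pure classes of `A` to the graft. -/
def GLiftStmt : Prop :=
  ∀ (V : Type) (G : SimpleGraph V) (A M B : Set V) (v : V) (D : VKD G A M B v),
    Graft G A M B v → (∀ n, n = 1 ∨ n = 2 → Zy G (Lk G A {v}) n ≤ Bd G (Lk G A {v}) n) →
    ∀ a ∈ A, ∀ Γ : Subgroup (Gp G A), ∀ n, n = 2 ∨ n = 3 → ∀ z ∈ II G A Γ a n,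
      ∃ z' ∈ II G B (Γ.map D.i1) (D.s a) n, emap (col A v) z' - z ∈ Bd G A n

def GraftPackStmt : Prop :=
  ∀ (V : Type) (G : SimpleGraph V) (A M B : Set V) (v : V) (D : VKD G A M B v) (P1 : Pack G A)
    (P2 : Pack G M), Graft G A M B v → GFacts G A M B v →
    (∀ n, n = 1 ∨ n = 2 → Zy G (Lk G A {v}) n ≤ Bd G (Lk G A {v}) n) →
    ∃ (P' : Pack G B) (j1 : P1.X → P'.X) (j2 : P2.X → P'.X), GSites D P1 P2 P' j1 j2

def GExtStmt : Prop :=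
  ∀ (V : Type) (G : SimpleGraph V) (A M B : Set V) (v : V) (D : VKD G A M B v) (P1 : Pack G A)
    (P2 : Pack G M) (P' : Pack G B) (j1 : P1.X → P'.X) (j2 : P2.X → P'.X), Graft G A M B v →
    GFacts G A M B v → Loc G B G A (col A v) → GSites D P1 P2 P' j1 j2 → Ext (col A v) P' P1 j1

/-- Packs of grafts. -/
def GraftStmt : Prop :=
  ∀ (V : Type) (G : SimpleGraph V) (A M B : Set V) (v : V) (P1 : Pack G A) (P2 : Pack G M),
    Graft G A M B v → Mf G M → ∃ (P' : Pack G B) (j1 : P1.X → P'.X) (j2 : P2.X → P'.X),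
      Ext (col A v) P' P1 j1 ∧ (Mf G A → Ext (col M v) P' P2 j2) ∧
      ∀ x', x' ∈ Set.range j1 ∨ x' ∈ Set.range j2

def LocCompStmt : Prop :=
  ∀ (V V' V'' : Type) (G : SimpleGraph V) (A : Set V) (G' : SimpleGraph V') (A' : Set V')
    (G'' : SimpleGraph V'') (A'' : Set V'') (c : V' → V) (c' : V'' → V'),
    Loc G' A' G A c → Loc G'' A'' G' A' c' → Loc G'' A'' G A (c ∘ c')

def ExtCompStmt : Prop :=
  ∀ (V V' V'' : Type) (G : SimpleGraph V) (A : Set V) (G' : SimpleGraph V') (A' : Set V')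
    (G'' : SimpleGraph V'') (A'' : Set V'') (c : V' → V) (c' : V'' → V') (P : Pack G A)
    (P' : Pack G' A') (P'' : Pack G'' A'') (j : P.X → P'.X) (j' : P'.X → P''.X),
    Ext c P' P j → Ext c' P'' P' j' → Ext (c ∘ c') P'' P (j' ∘ j)

def CongrStmt : Prop :=
  ∀ (V V' : Type) (G : SimpleGraph V) (A : Set V) (G' : SimpleGraph V') (A' : Set V')
    (c c' : V' → V), (∀ a ∈ A', c a = c' a) →
    (∀ (P : Pack G A) (P' : Pack G' A') (j : P.X → P'.X), Ext c P' P j → Ext c' P' P j) ∧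
      (SE G' A' G A c → SE G' A' G A c')

def SeCompStmt : Prop :=
  ∀ (V V' V'' : Type) (G : SimpleGraph V) (A : Set V) (G' : SimpleGraph V') (A' : Set V')
    (G'' : SimpleGraph V'') (A'' : Set V'') (c : V' → V) (c' : V'' → V'),
    SE G' A' G A c → SE G'' A'' G' A' c' → SE G'' A'' G A (c ∘ c')

/-- Cell-like maps lift to cell-like maps of covers. -/
def ClCovStmt : Prop :=
  ∀ (V V' : Type) (G : SimpleGraph V) (A : Set V) (G' : SimpleGraph V') (A' : Set V')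
    (c : V' → V) (L Ω : Type) [Group L] [MulAction L Ω] (lab : V → V → L), Flat G A lab →
    CL G' A' G A c →
    CL (cov G' (fun u w => lab (c u) (c w)) Ω) (up A' Ω) (cov G lab Ω) (up A Ω) (lift1 c Ω)

/-- Cell-like maps have an inverse on the edge path groupoid. -/
def ClGrpStmt : Prop :=
  ∀ (V V' : Type) (G : SimpleGraph V) (A : Set V) (G' : SimpleGraph V') (A' : Set V')
    (c : V' → V), CL G' A' G A c → (∀ y ∈ A, ∃ y' ∈ A', c y' = y) ∧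
    ∃ (σ : Gp G A →* Gp G' A') (s : V → V') (k : V' → Gp G' A'),
      (∀ y ∈ A, s y ∈ A' ∧ c (s y) = y) ∧
      (∀ a b γ, Path G A a b γ → Path G' A' (s a) (s b) (σ γ) ∧ gmap G' A' G A c (σ γ) = γ) ∧
      (∀ x ∈ A', Path G' A' x (s (c x)) (k x) ∧ gmap G' A' G A c (k x) = 1) ∧
      ∀ x y γ, Path G' A' x y γ → γ = k x * σ (gmap G' A' G A c γ) * (k y)⁻¹

def ClSeStmt : Prop :=
  ∀ (V V' : Type) (G : SimpleGraph V) (A : Set V) (G' : SimpleGraph V') (A' : Set V')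
    (c : V' → V), CL G' A' G A c → SE G' A' G A c

def ClLocStmt : Prop :=
  ∀ (V V' : Type) (G : SimpleGraph V) (A : Set V) (G' : SimpleGraph V') (A' : Set V')
    (c : V' → V), CL G' A' G A c → Fin3 G' A' → Loc G' A' G A c

def PbStmt : Prop :=
  ∀ (V V' : Type) (G : SimpleGraph V) (A : Set V) (G' : SimpleGraph V') (A' : Set V')
    (f : V' → V) (P : Pack G A), SE G' A' G A f → Fin3 G' A' →
    ∃ (P' : Pack G' A') (b : P.X ≃ P'.X), ∀ x, MatchAt f P' (b x) P x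

def PfStmt : Prop :=
  ∀ (V V' : Type) (G : SimpleGraph V) (A : Set V) (G' : SimpleGraph V') (A' : Set V')
    (f : V' → V) (P' : Pack G' A'), SE G' A' G A f → Fin3 G A →
    ∃ (P : Pack G A) (b : P.X ≃ P'.X), ∀ x, MatchAt f P' (b x) P x

/-- Matched sites of an equivalence have the same homology. -/
def SeMatchStmt : Prop :=
  ∀ (V V' : Type) (G : SimpleGraph V) (A : Set V) (G' : SimpleGraph V') (A' : Set V')
    (f : V' → V) (P : Pack G A) (P' : Pack G' A') (x : P.X) (x' : P'.X), SE G' A' G A f →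
    MatchAt f P' x' P x → ∀ n, n = 2 ∨ n = 3 → ∀ z ∈ P.I x n,
      ∃ z' ∈ P'.I x' n, emap f z' - z ∈ Bd G A n

def ClExtStmt : Prop :=
  ∀ (V V' : Type) (G : SimpleGraph V) (A : Set V) (G' : SimpleGraph V') (A' : Set V')
    (c : V' → V) (P : Pack G A) (P' : Pack G' A') (b : P.X ≃ P'.X), CL G' A' G A c →
    (∀ x, MatchAt c P' (b x) P x) → Ext c P' P b

def ClQ1Stmt : Prop :=
  ∀ (V V' : Type) (G : SimpleGraph V) (A : Set V) (G' : SimpleGraph V') (A' : Set V')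
    (c : V' → V), CL G' A' G A c → Fin3 G' A' → Q1 G' A' G A c

def QCompStmt : Prop :=
  ∀ (V V' V'' : Type) (G : SimpleGraph V) (A : Set V) (G' : SimpleGraph V') (A' : Set V')
    (G'' : SimpleGraph V'') (A'' : Set V'') (c : V' → V) (c' : V'' → V'),
    (ExtQ G' A' G A c → ExtQ G'' A'' G' A' c' → ExtQ G'' A'' G A (c ∘ c')) ∧
    (CovQ G' A' G A c → CovQ G'' A'' G' A' c' → CovQ G'' A'' G A (c ∘ c')) ∧
    (Q0 G' A' G A c → Q0 G'' A'' G' A' c' → Q0 G'' A'' G A (c ∘ c')) ∧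
    (Q1 G' A' G A c → Q1 G'' A'' G' A' c' → Q1 G'' A'' G A (c ∘ c')) ∧
    (Q1 G' A' G A c → CovQ G' A' G A c)

def GraftCovStmt : Prop :=
  ∀ (V : Type) (G : SimpleGraph V) (A M B : Set V) (v : V), Graft G A M B v → Mf G M →
    Nonempty (Pack G M) → CovQ G B G A (col A v)

/-- Two out of six for equivalences. -/
def SePhiStmt : Prop :=
  ∀ (V0 V1 V2 V3 : Type) (G0 : SimpleGraph V0) (A0 : Set V0) (G1 : SimpleGraph V1) (A1 : Set V1)
    (G2 : SimpleGraph V2) (A2 : Set V2) (G3 : SimpleGraph V3) (A3 : Set V3) (φ0 : V1 → V0)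
    (φ1 : V2 → V1) (φ2 : V3 → V2) (c0 : V2 → V0) (c1 : V3 → V1),
    IsHom G1 A1 G0 A0 φ0 → IsHom G2 A2 G1 A1 φ1 → IsHom G3 A3 G2 A2 φ2 →
    SC G2 A2 G0 c0 (φ0 ∘ φ1) → SC G3 A3 G1 c1 (φ1 ∘ φ2) → SE G2 A2 G0 A0 c0 →
    SE G3 A3 G1 A1 c1 → SE G1 A1 G0 A0 φ0

/-- Every site is killed or matched. -/
structure Dich {V V' : Type} {G : SimpleGraph V} {A : Set V} {G' : SimpleGraph V'} {A' : Set V'}
    (f : V' → V) (P' : Pack G' A') (P : Pack G A) (b : P.X → P'.X) : Prop where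
  hom : IsHom G' A' G A f
  inj : Function.Injective b
  mat : ∀ x, MatchAt f P' (b x) P x
  kill : ∀ x', x' ∉ Set.range b → ∀ δ ∈ P'.Λ x', gmap G' A' G A f δ = 1
  hinj : ∀ n, n = 2 ∨ n = 3 → ∀ x, ∀ z ∈ P'.I (b x) n, emap f z ∈ Bd G A n → z ∈ Bd G' A' n
  hsurj : ∀ n, n = 2 ∨ n = 3 → ∀ x, ∀ z ∈ P.I x n,
    ∃ z' ∈ P'.I (b x) n, emap f z' - z ∈ Bd G A n

def ExtDichStmt : Prop :=
  ∀ (V V' : Type) (G : SimpleGraph V) (A : Set V) (G' : SimpleGraph V') (A' : Set V')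
    (c : V' → V) (P : Pack G A) (P' : Pack G' A') (j : P.X → P'.X), Ext c P' P j → Dich c P' P j

/-- The group theoretic part of the dichotomy. -/
def DichGrpStmt : Prop :=
  ∀ (V0 V1 V2 V3 : Type) (G0 : SimpleGraph V0) (A0 : Set V0) (G1 : SimpleGraph V1) (A1 : Set V1)
    (G2 : SimpleGraph V2) (A2 : Set V2) (G3 : SimpleGraph V3) (A3 : Set V3) (φ0 : V1 → V0)
    (φ1 : V2 → V1) (φ2 : V3 → V2) (c0 : V2 → V0) (c1 : V3 → V1) (P0 : Pack G0 A0)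
    (P1 : Pack G1 A1) (P2 : Pack G2 A2) (P3 : Pack G3 A3) (j0 : P0.X → P2.X) (j1 : P1.X → P3.X),
    IsHom G1 A1 G0 A0 φ0 → IsHom G2 A2 G1 A1 φ1 → IsHom G3 A3 G2 A2 φ2 →
    SC G2 A2 G0 c0 (φ0 ∘ φ1) → SC G3 A3 G1 c1 (φ1 ∘ φ2) → Dich c0 P2 P0 j0 → Dich c1 P3 P1 j1 →
    ∃ b : P0.X → P1.X, Function.Injective b ∧ (∀ x, MatchAt φ0 P1 (b x) P0 x) ∧
      (∀ x, MatchAt φ1 P2 (j0 x) P1 (b x)) ∧ (∀ x, MatchAt φ2 P3 (j1 (b x)) P2 (j0 x)) ∧
      ∀ x', x' ∉ Set.range b → ∀ δ ∈ P1.Λ x', gmap G1 A1 G0 A0 φ0 δ = 1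

def DichStmt : Prop :=
  ∀ (V0 V1 V2 V3 : Type) (G0 : SimpleGraph V0) (A0 : Set V0) (G1 : SimpleGraph V1) (A1 : Set V1)
    (G2 : SimpleGraph V2) (A2 : Set V2) (G3 : SimpleGraph V3) (A3 : Set V3) (φ0 : V1 → V0)
    (φ1 : V2 → V1) (φ2 : V3 → V2) (c0 : V2 → V0) (c1 : V3 → V1) (P0 : Pack G0 A0)
    (P1 : Pack G1 A1) (P2 : Pack G2 A2) (P3 : Pack G3 A3) (j0 : P0.X → P2.X) (j1 : P1.X → P3.X),
    IsHom G1 A1 G0 A0 φ0 → IsHom G2 A2 G1 A1 φ1 → IsHom G3 A3 G2 A2 φ2 →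
    SC G2 A2 G0 c0 (φ0 ∘ φ1) → SC G3 A3 G1 c1 (φ1 ∘ φ2) → Dich c0 P2 P0 j0 → Dich c1 P3 P1 j1 →
    ∃ b : P0.X → P1.X, Dich φ0 P1 P0 b

/-- A pack with one site. -/
def BaseStmt : Prop :=
  ∀ (V : Type) (G : SimpleGraph V) (A : Set V) (L : Type) [Group L] (lab : V → V → L) (y : V),
    Fin3 G A → PConn G A → Flat G A lab → y ∈ A →
    (∀ n, n = 2 ∨ n = 3 → Zy (cov G lab L) (up A L) n ≤ Bd (cov G lab L) (up A L) n) →
    Loop G A y ≠ ⊥ → HasE (Loop G A y) →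
    ∃ (P : Pack G A) (x : P.X), (∀ x', x' = x) ∧ P.a x = y ∧ P.Λ x = Loop G A y

/-- A pack without sites. -/
def EmptyStmt : Prop :=
  ∀ (V : Type) (G : SimpleGraph V) (A : Set V), Fin3 G A →
    ((SConn G A ∧ ∀ n, n = 2 ∨ n = 3 → Zy G A n ≤ Bd G A n) ↔ ∃ P : Pack G A, IsEmpty P.X)

/-- Loops downstairs and the deck group. -/
def DeckIsoStmt : Prop :=
  ∀ (V : Type) (G : SimpleGraph V) (A : Set V) (L : Type) [Group L] (lab : V → V → L) (y : V),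
    Flat G A lab → y ∈ A → SConn (cov G lab L) (up A L) →
    PConn G A ∧ ∃ θ : Loop G A y ≃* L, ∀ δ : Loop G A y, θ δ = glift G A lab δ

end

end Pool.Agent.MP_6374aa_gt
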