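import Pool.Agent.MP_6374aa_gt.IfT

/-! Statements: towers, realisations, coverings, spheres, and the assembly. -/

namespace Pool.Agent.MP_6374aa_gt

open Classical Topology

noncomputable section

/-- Two towers over homeomorphic spaces can be interleaved. -/
def InterStmt : Prop :=
  ∀ (C : Type) [CommGroup C] [Fintype C] (X X' : Type) [TopologicalSpace X] [CompactSpace X]
    [T2Space X] [Nonempty X] [TopologicalSpace X'] (β : C →* Equiv.Perm X) (β' : C →* Equiv.Perm X')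
    (L1 : ℕ → Lev C) (c1 : ∀ n, (L1 (n + 1)).V → (L1 n).V) (K1 D1 O1 : ∀ n, (L1 n).V → Set X)
    (L2 : ℕ → Lev C) (c2 : ∀ n, (L2 (n + 1)).V → (L2 n).V) (K2 D2 O2 : ∀ n, (L2 n).V → Set X')
    (h : X ≃ₜ X') (Q : ∀ L' L : Lev C, (L'.V → L.V) → Prop) (T : ℕ),
    IsTower β L1 c1 K1 D1 O1 → IsTower β' L2 c2 K2 D2 O2 → (∀ g x, h (β g x) = β' g (h x)) →
    (∀ (L'' L' L : Lev C) (f : L'.V → L.V) (g : L''.V → L'.V), Q L' L f → Q L'' L' g →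
      Q L'' L (f ∘ g)) →
    (∀ n, Q (L1 (n + 1)) (L1 n) (c1 n)) → (∀ n, Q (L2 (n + 1)) (L2 n) (c2 n)) →
    ∃ (L : ℕ → Lev C) (φ : ∀ i, (Lev.cons (L1 0) L (i + 1)).V → (Lev.cons (L1 0) L i).V)
      (c : ∀ i, (Lev.cons (L1 0) L (i + 2)).V → (Lev.cons (L1 0) L i).V) (e : (L 0).V → (L2 0).V),
      IsSys T (Lev.cons (L1 0) L) φ c ∧ Q (L 0) (L2 0) e ∧ Eqv (L 0).A (L 0).α (L2 0).α e ∧
      ∀ i, Q (Lev.cons (L1 0) L (i + 2)) (Lev.cons (L1 0) L i) (c i)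

section sd

variable {V : Type}

/-- The barycentric subdivision. -/
def sdG (V : Type) : SimpleGraph (Finset V) where
  Adj σ τ := σ ⊂ τ ∨ τ ⊂ σ
  symm := ⟨fun _ _ h => h.symm⟩
  loopless := ⟨fun _ h => h.elim (fun h => lt_irrefl _ h) fun h => lt_irrefl _ h⟩

def sdA (G : SimpleGraph V) (A : Set V) : Set (Finset V) :=
  {σ | σ.Nonempty ∧ ↑σ ⊆ A ∧ G.IsClique (σ : Set V)}

def sdα {C : Type} [CommGroup C] (α : C →* Equiv.Perm V) : C →* Equiv.Perm (Finset V) where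
  toFun g := Equiv.finsetCongr (α g)
  map_one' := by ext x; simp [Equiv.Perm.one_def]
  map_mul' g h := by ext x; simp [Equiv.Perm.mul_def]

/-- `β` is the action on the realisation induced by `α`. -/
def IsRact [Fintype V] {G : SimpleGraph V} {A : Set V} {C : Type} [CommGroup C]
    (α : C →* Equiv.Perm V) (β : C →* Equiv.Perm (Rl G A)) : Prop :=
  ∀ g x v, (β g x).1 (α g v) = x.1 v

end sd

def RlBasicStmt : Prop :=
  ∀ (V : Type) [Fintype V] (G : SimpleGraph V) (A : Set V),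
    CompactSpace (Rl G A) ∧ ∀ (C : Type) [CommGroup C] (α : C →* Equiv.Perm V), Act G A α →
      ∃ β : C →* Equiv.Perm (Rl G A), IsRact α β

def SdCombStmt : Prop :=
  ∀ (C : Type) [CommGroup C] [Fintype C] (V : Type) (G : SimpleGraph V) (A : Set V)
    (α : C →* Equiv.Perm V), (FreeAct G A α → FreeAct (sdG V) (sdA G A) (sdα α)) ∧
    (Fin3 G A → Fin3 (sdG V) (sdA G A)) ∧
    ∀ ch : Finset V → V, (∀ σ ∈ sdA G A, ch σ ∈ σ) → CL (sdG V) (sdA G A) G A ch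

def SdHomeoStmt : Prop :=
  ∀ (V : Type) [Fintype V] (G : SimpleGraph V) (A : Set V),
    ∃ h : Rl (sdG V) (sdA G A) ≃ₜ Rl G A, ∀ y v,
      (h y).1 v = ∑ σ : Finset V, y.1 σ * (if v ∈ σ then ((σ.card : ℝ))⁻¹ else 0)

/-- The tower of barycentric subdivisions. -/
def SdStmt : Prop :=
  ∀ (C : Type) [CommGroup C] [Fintype C] (V : Type) [Fintype V] (G : SimpleGraph V) (A : Set V)
    (α : C →* Equiv.Perm V) (β : C →* Equiv.Perm (Rl G A)), FreeAct G A α → Fin3 G A →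
    A.Nonempty → IsRact α β →
    ∃ (L : ℕ → Lev C) (c : ∀ n, (Lev.cons ⟨V, G, A, α⟩ L (n + 1)).V →
        (Lev.cons ⟨V, G, A, α⟩ L n).V)
      (K D O : ∀ n, (Lev.cons ⟨V, G, A, α⟩ L n).V → Set (Rl G A)),
      IsTower β (Lev.cons ⟨V, G, A, α⟩ L) c K D O ∧ (∀ v : V, O 0 v = {x | x.1 v ≠ 0}) ∧
      ∀ n, Fin3 (L n).G (L n).A ∧ CL (L n).G (L n).A (Lev.cons ⟨V, G, A, α⟩ L n).G
        (Lev.cons ⟨V, G, A, α⟩ L n).A (c n)

/-- Packs and values are invariants of equivariant homeomorphisms. -/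
def TopHomeoStmt : Prop :=
  ∀ (C : Type) [CommGroup C] [Fintype C] [IsCyclic C] (V U : Type) [Fintype V] [Fintype U]
    (G : SimpleGraph V) (A : Set V) (α : C →* Equiv.Perm V) (β : C →* Equiv.Perm (Rl G A))
    (K : SimpleGraph U) (B : Set U) (α' : C →* Equiv.Perm U) (β' : C →* Equiv.Perm (Rl K B))
    (h : Rl G A ≃ₜ Rl K B) (P : Pack K B), FreeAct G A α → FreeAct K B α' → Fin3 G A →
    IsRact α β → IsRact α' β' → (∀ g x, h (β g x) = β' g (h x)) → Fr P α' →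
    ∃ (P0 : Pack G A) (_ : P0.X ≃ P.X), Fr P0 α ∧ ∀ τ, Val K B α' τ → Val G A α τ

/-- Typed packs are invariants of homeomorphisms. -/
def TypStmt : Prop :=
  ∀ (V U : Type) [Fintype V] [Fintype U] (G : SimpleGraph V) (A : Set V) (K : SimpleGraph U)
    (B : Set U) (_ : Rl G A ≃ₜ Rl K B) (P : Pack K B), Fin3 G A →
    ∃ (P0 : Pack G A) (b : P0.X ≃ P.X), ∀ (x : P0.X) (Λ : Type) [Group Λ] (χ : Λ → ℝ),
      ClassFn χ → SiteOf P (b x) Λ χ → SiteOf P0 x Λ χ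

/-- Sheets of a regular covering over the open stars. -/
structure Sheets {V E Λ : Type} [Fintype V] (G : SimpleGraph V) (A : Set V) [TopologicalSpace E]
    [Group Λ] [MulAction Λ E] (p : E → Rl G A) (lab : V → V → Λ) (sh : E → V → Λ) : Prop where
  cont : Continuous p
  csmul : ∀ g : Λ, Continuous fun e : E => g • e
  orbit : ∀ e e', p e = p e' ↔ ∃ g : Λ, e = g • e'
  flat : Flat G A lab
  rel : ∀ e u w, (p e).1 u ≠ 0 → (p e).1 w ≠ 0 → sh e u = lab u w * sh e w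
  smul : ∀ (g : Λ) e v, (p e).1 v ≠ 0 → sh (g • e) v = sh e v * g⁻¹
  loc : ∀ e v, (p e).1 v ≠ 0 → ∀ᶠ e' in 𝓝 e, sh e' v = sh e v
  sec : ∀ v ∈ A, ∃ s : {x : Rl G A // x.1 v ≠ 0} → E, Continuous s ∧
    ∀ x, p (s x) = x.1 ∧ sh (s x) v = 1

def SheetStmt : Prop :=
  ∀ (V E Λ : Type) [Fintype V] (G : SimpleGraph V) (A : Set V) [TopologicalSpace E] [Group Λ]
    [MulAction Λ E] (p : E → Rl G A), IsQuotientCoveringMap p Λ →
    ∃ (lab : V → V → Λ) (sh : E → V → Λ), Sheets G A p lab sh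

/-- Simplicial maps to the combinatorial cover give maps to the covering space. -/
def LiftMapStmt : Prop :=
  ∀ (V E Λ U : Type) [Fintype V] [Fintype U] (G : SimpleGraph V) (A : Set V) [TopologicalSpace E]
    [Group Λ] [MulAction Λ E] (p : E → Rl G A) (lab : V → V → Λ) (sh : E → V → Λ)
    (H : SimpleGraph U) (B : Set U) (i : U → V × Λ), Sheets G A p lab sh →
    IsHom H B (cov G lab Λ) (up A Λ) i →
    ∃ b : Rl H B → E, Continuous b ∧ ∀ y,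
      (∀ v, (p (b y)).1 v = ∑ w, if (i w).1 = v then y.1 w else 0) ∧
      ∀ w, y.1 w ≠ 0 → sh (b y) (i w).1 = (i w).2

/-- Simplicial approximation of a contraction. -/
def ApxStmt : Prop :=
  ∀ (U V E : Type) [Fintype U] (H : SimpleGraph U) (B : Set U) (G : SimpleGraph V) (A : Set V)
    [TopologicalSpace E] [ContractibleSpace E] (a : E → V) (b : Rl H B → E) (i : U → V),
    Fin3 H B → (∀ e, a e ∈ A) → (∀ e, ∃ N ∈ 𝓝 e, ∀ e1 ∈ N, ∀ e2 ∈ N, Adq G (a e1) (a e2)) →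
    Continuous b → IsHom H B G A i → (∀ y w, y.1 w ≠ 0 → Adq G (a (b y)) (i w)) →
    (∀ n, ∀ z ∈ Zy H B n, emap i z ∈ Bd G A n) ∧
      ∀ w γ, Path H B w w γ → gmap H B G A i γ = 1

/-- The vertex map of a covering space. -/
def VertexStmt : Prop :=
  ∀ (V E Λ : Type) [Fintype V] (G : SimpleGraph V) (A : Set V) [TopologicalSpace E] [Group Λ]
    [MulAction Λ E] (p : E → Rl G A) (lab : V → V → Λ) (sh : E → V → Λ), Sheets G A p lab sh →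
    ∃ a : E → V × Λ, (∀ e, a e ∈ up A Λ) ∧
      (∀ e, ∃ N ∈ 𝓝 e, ∀ e1 ∈ N, ∀ e2 ∈ N, Adq (cov G lab Λ) (a e1) (a e2)) ∧
      (∀ e v, (p e).1 v ≠ 0 → Adq (cov G lab Λ) (a e) (v, sh e v)) ∧
      (PreconnectedSpace E → A.Nonempty → PConn (cov G lab Λ) (up A Λ))

def AsphCovStmt : Prop :=
  ∀ (V E Λ : Type) [Fintype V] (G : SimpleGraph V) (A : Set V) [TopologicalSpace E]
    [ContractibleSpace E] [Group Λ] [MulAction Λ E] (p : E → Rl G A) (lab : V → V → Λ)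
    (sh : E → V → Λ), Sheets G A p lab sh → Fin3 G A → A.Nonempty →
    SConn (cov G lab Λ) (up A Λ) ∧
      ∀ n, Zy (cov G lab Λ) (up A Λ) n ≤ Bd (cov G lab Λ) (up A Λ) n

def CovHomeoStmt : Prop :=
  ∀ (V E Λ : Type) [Fintype V] (G : SimpleGraph V) (A : Set V) [TopologicalSpace E] [T2Space E]
    [Group Λ] [Fintype Λ] [MulAction Λ E] (p : E → Rl G A) (lab : V → V → Λ) (sh : E → V → Λ),
    Sheets G A p lab sh → ∃ h : Rl (cov G lab Λ) (up A Λ) ≃ₜ E,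
      ∀ (g : Λ) (y y' : Rl (cov G lab Λ) (up A Λ)),
        (∀ v l, y'.1 (v, l * g⁻¹) = y.1 (v, l)) → h y' = g • h y

/-- The rotation of `ℝ^4` by the two angles. -/
def rot (s t : ℝ) : Matrix (Fin 4) (Fin 4) ℝ :=
  !![Real.cos s, -Real.sin s, 0, 0; Real.sin s, Real.cos s, 0, 0;
    0, 0, Real.cos t, -Real.sin t; 0, 0, Real.sin t, Real.cos t]

def ang (p : ℕ) (a : (ZMod p)ˣ) : ℝ := 2 * Real.pi * ((a : ZMod p).val : ℝ) / p

def JHomeoStmt : Prop :=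
  ∀ (p : ℕ) [NeZero p], 5 ≤ p → ∃ h : Rl (JG p) Set.univ ≃ₜ S3,
    ∀ (a b : (ZMod p)ˣ) (y y' : Rl (JG p) Set.univ),
      (∀ v, y'.1 (Jα p a b (Multiplicative.ofAdd 1) v) = y.1 v) →
      (h y').1 = (rot (ang p a) (ang p b)).mulVec (h y).1

/-- Normal form of a free orthogonal transformation of finite order. -/
def NfStmt : Prop :=
  ∀ (p : ℕ) [NeZero p], 2 ≤ p → ∀ M : Matrix (Fin 4) (Fin 4) ℝ, M.transpose * M = 1 →
    M ^ p = 1 → (∀ k : ℕ, ¬ p ∣ k → ∀ x, (M ^ k).mulVec x = x → x = 0) →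
    ∃ (a b : (ZMod p)ˣ) (T : Matrix (Fin 4) (Fin 4) ℝ), T.transpose * T = 1 ∧
      M * T = T * rot (ang p a) (ang p b) ∧ M.trace = cosum p a b

/-- A linear action on the sphere is an orthogonal representation, free if the action is. -/
def OrthStmt : Prop :=
  ∀ (E Λ : Type) [TopologicalSpace E] [Group Λ] [MulAction Λ E] (e : E ≃ₜ S3)
    (L : Λ → Matrix (Fin 4) (Fin 4) ℝ), (∀ g x, (e (g • x)).1 = (L g).mulVec (e x).1) →
    (∀ (g : Λ) (x : E), g • x = x → g = 1) →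
    L 1 = 1 ∧ (∀ g h, L (g * h) = L g * L h) ∧ (∀ g, (L g).transpose * L g = 1) ∧
      ∀ g, g ≠ 1 → ∀ x, (L g).mulVec x = x → x = 0

def RepStmt : Prop :=
  ∀ (Λ : Type) [Group Λ] [Finite Λ] (L L' : Λ →* Matrix (Fin 4) (Fin 4) ℝ),
    (∀ g, (L g).trace = (L' g).trace) →
    ∃ T T' : Matrix (Fin 4) (Fin 4) ℝ, T * T' = 1 ∧ T' * T = 1 ∧ ∀ g, T * L g = L' g * T

def SmallStmt : Prop :=
  ∀ (p : ℕ) [NeZero p], p ≤ 4 → ∀ a b a' b' : (ZMod p)ˣ, cosum p a b = cosum p a' b'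

/-- The trace data of a piece. -/
def PieceChi {V : Type} [Fintype V] {G : SimpleGraph V} (P : Piece G) (χ : P.Λ → ℝ) : Prop :=
  ClassFn χ ∧ (Finite P.Λ → ∃ (e : P.E ≃ₜ S3) (L : P.Λ → Matrix (Fin 4) (Fin 4) ℝ),
    (∀ g x, (e (g • x)).1 = (L g).mulVec (e x).1) ∧ ∀ g, χ g = (L g).trace)

/-- Spherical pieces with equal traces are homeomorphic. -/
def SphHomeoStmt : Prop :=
  ∀ (V V' : Type) [Fintype V] [Fintype V'] (G : SimpleGraph V) (G' : SimpleGraph V') (P : Piece G)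
    (P' : Piece G') (χ : P.Λ → ℝ) (χ' : P'.Λ → ℝ) (ω : P.Λ ≃* P'.Λ), PieceChi P χ →
    PieceChi P' χ' → Finite P.Λ → (∀ g, 5 ≤ orderOf g → χ' (ω g) = χ g) →
    Nonempty (Rl G P.A ≃ₜ Rl G' P'.A)

/-- The universal cover of a spherical piece. -/
def SphCovStmt : Prop :=
  ∀ (V E Λ : Type) [Fintype V] (G : SimpleGraph V) (A : Set V) [TopologicalSpace E] [Group Λ]
    [Finite Λ] [MulAction Λ E] (p : E → Rl G A) (lab : V → V → Λ) (sh : E → V → Λ) (e : E ≃ₜ S3)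
    (L : Λ → Matrix (Fin 4) (Fin 4) ℝ), Sheets G A p lab sh → Fin3 G A →
    (∀ g x, (e (g • x)).1 = (L g).mulVec (e x).1) →
    (∃ Q : Pack (cov G lab Λ) (up A Λ), IsEmpty Q.X) ∧
    ∀ (q : ℕ) [NeZero q], 5 ≤ q → ∀ ψ : Cp q →* Λ, Function.Injective ψ →
      ∃ a b : (ZMod q)ˣ, (L (ψ (Multiplicative.ofAdd 1))).trace = cosum q a b ∧
        Val (cov G lab Λ) (up A Λ) (deck V ψ) (lens q a b)

/-- The type of the unique site. -/
def SphSiteStmt : Prop :=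
  ∀ (V Λ : Type) (G : SimpleGraph V) (A : Set V) [Group Λ] [Finite Λ] (lab : V → V → Λ)
    (χ : Λ → ℝ) (P : Pack G A) (x : P.X) (θ : P.Λ x ≃* Λ), Flat G A lab → ClassFn χ →
    P.Λ x = Loop G A (P.a x) → (∀ δ : P.Λ x, θ δ = glift G A lab δ) →
    (∃ Q : Pack (cov G lab Λ) (up A Λ), IsEmpty Q.X) →
    (∀ (q : ℕ) [NeZero q], 5 ≤ q → ∀ ψ : Cp q →* Λ, Function.Injective ψ →
      ∃ a b : (ZMod q)ˣ, χ (ψ (Multiplicative.ofAdd 1)) = cosum q a b ∧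
        Val (cov G lab Λ) (up A Λ) (deck V ψ) (lens q a b)) →
    Cov P x fun δ => χ (θ δ)

def PieceStmt : Prop :=
  ∀ (V : Type) [Fintype V] (G : SimpleGraph V) (P : Piece G), ∃ (χ : P.Λ → ℝ) (Q : Pack G P.A),
    PieceChi P χ ∧ (∀ x, SiteOf Q x P.Λ χ) ∧ (Nontrivial P.Λ → Nonempty Q.X)

/-- All sites have a type in the family. -/
def Typed {V ι : Type} {G : SimpleGraph V} {A : Set V} (Q : Pack G A) (Λ : ι → Type)
    [∀ i, Group (Λ i)] (χ : ∀ i, Λ i → ℝ) : Prop :=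
  ∀ x, ∃ i, SiteOf Q x (Λ i) (χ i)

def SumStmt : Prop :=
  ∀ (V ι : Type) (G : SimpleGraph V) (S : ι → Set V) (Λ : ι → Type) [∀ i, Group (Λ i)]
    (χ : ∀ i, Λ i → ℝ), (∀ i, ClassFn (χ i)) →
    (∀ i, Mf G (S i) ∧ ∃ Q : Pack G (S i), (∀ x, SiteOf Q x (Λ i) (χ i)) ∧
      (Nontrivial (Λ i) → Nonempty Q.X)) →
    ∀ A s, IsSum G S A s → Mf G A ∧ ∃ Q : Pack G A, Typed Q Λ χ ∧
      ∀ i ∈ s, Nontrivial (Λ i) → ∃ x, SiteOf Q x (Λ i) (χ i)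

/-- The class of maps used for the doubling towers. -/
def QD {ι ι' : Type} (Λ : ι → Type) [∀ i, Group (Λ i)] (χ : ∀ i, Λ i → ℝ) (Λ' : ι' → Type)
    [∀ i, Group (Λ' i)] (χ' : ∀ i, Λ' i → ℝ) (L' L : Lev C1) (c : L'.V → L.V) : Prop :=
  ExtQ L'.G L'.A L.G L.A c ∧ CovQ L'.G L'.A L.G L.A c ∧
    ((∃ Q : Pack L.G L.A, Typed Q Λ χ) → ∃ Q : Pack L'.G L'.A, Typed Q Λ χ) ∧
    ((∃ Q : Pack L.G L.A, Typed Q Λ' χ') → ∃ Q : Pack L'.G L'.A, Typed Q Λ' χ')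

def DoubleStmt : Prop :=
  ∀ (ι : Type) (Λ : ι → Type) [∀ i, Group (Λ i)] (χ : ∀ i, Λ i → ℝ) (L' L : Lev C1)
    (c : L'.V → L.V), (∀ i, ClassFn (χ i)) → IsDouble L' L c → Mf L.G L.A →
    Nonempty (Pack L.G L.A) → Mf L'.G L'.A ∧ ExtQ L'.G L'.A L.G L.A c ∧
      CovQ L'.G L'.A L.G L.A c ∧
      ((∃ Q : Pack L.G L.A, Typed Q Λ χ) → ∃ Q : Pack L'.G L'.A, Typed Q Λ χ)

def SideStmt : Prop :=
  ∀ N : Side, ∃ (χ : ∀ i, (N.P i).Λ → ℝ) (Q : Pack N.Γ Set.univ),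
    (∀ i, PieceChi (N.P i) (χ i)) ∧ Mf N.Γ Set.univ ∧ (∃ a b, ¬ Adq N.Γ a b) ∧
    Typed Q (fun i => (N.P i).Λ) χ ∧
    ∀ i, Nontrivial (N.P i).Λ → ∃ x, SiteOf Q x (N.P i).Λ (χ i)

/-- The final statement. -/
def MainStmt : Prop :=
  ∀ (N N' : Side), Nonempty (@Homeomorph (Bdry N.Γ) (Bdry N'.Γ) (bdryTop _) (bdryTop _)) →
    ∀ j : N'.ι, Nontrivial (N'.P j).Λ → ∃ i : N.ι, Nonempty ((N.P i).Λ ≃* (N'.P j).Λ) ∧
      (Finite (N.P i).Λ → Nonempty (Rl N.K (N.P i).A ≃ₜ Rl N'.K (N'.P j).A))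

end

end Pool.Agent.MP_6374aa_gt
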