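import Pool.Agent.MP_6374aa_gt.Core4

/-! Statements: free products with free generators. -/

namespace Pool.Agent.MP_6374aa_gt

open Classical

noncomputable section

/-- Not a free product of two nontrivial groups. -/
def Indec (H : Type) [Group H] : Prop :=
  ∀ (K K' : Type) [Group K] [Group K'], Nonempty (H ≃* Monoid.Coprod K K') →
    Subsingleton K ∨ Subsingleton K'

/-- The consequences of a free product decomposition. -/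
structure FPk {π : Type} [Group π] (H : Subgroup π) {X : Type} (Λ : X → Subgroup π) : Prop where
  k1 : ∀ K : Subgroup π, K ≤ H → K ≠ ⊥ → HasE K → ∃ x, ∃ k ∈ H, ∀ δ ∈ K, k⁻¹ * δ * k ∈ Λ x
  k2 : ∀ x x', ∀ k ∈ H, ∀ δ ∈ Λ x, δ ≠ 1 → k⁻¹ * δ * k ∈ Λ x' → x = x' ∧ k ∈ Λ x

def FPk1Stmt : Prop :=
  ∀ (π X S : Type) [Group π] [Finite X] [Finite S] (H : Subgroup π) (Λ : X → Subgroup π)
    (t : S → π), FP H Λ t → ∀ K : Subgroup π, K ≤ H → K ≠ ⊥ → HasE K →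
    ∃ x, ∃ k ∈ H, ∀ δ ∈ K, k⁻¹ * δ * k ∈ Λ x

def FPk2Stmt : Prop :=
  ∀ (π X S : Type) [Group π] (H : Subgroup π) (Λ : X → Subgroup π) (t : S → π), FP H Λ t →
    ∀ x x', ∀ k ∈ H, ∀ δ ∈ Λ x, δ ≠ 1 → k⁻¹ * δ * k ∈ Λ x' → x = x' ∧ k ∈ Λ x

/-- The abstract dichotomy. -/
def DichAbsStmt : Prop :=
  ∀ (π0 π1 π2 π3 X0 X1 X2 X3 : Type) [Group π0] [Group π1] [Group π2] [Group π3]
    (H0 : Subgroup π0) (H1 : Subgroup π1) (H2 : Subgroup π2) (H3 : Subgroup π3)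
    (Λ0 : X0 → Subgroup π0) (Λ1 : X1 → Subgroup π1) (Λ2 : X2 → Subgroup π2)
    (Λ3 : X3 → Subgroup π3) (f0 : π1 →* π0) (f1 : π2 →* π1) (f2 : π3 →* π2) (c0 : π2 →* π0)
    (c1 : π3 →* π1) (k0 : π0) (k1 : π1) (j0 : X0 → X2) (j1 : X1 → X3),
    FPk H0 Λ0 → FPk H1 Λ1 → FPk H2 Λ2 → (∀ x, Λ1 x ≤ H1 ∧ Λ1 x ≠ ⊥ ∧ HasE (Λ1 x)) →
    (∀ x, Λ2 x ≤ H2 ∧ Λ2 x ≠ ⊥ ∧ HasE (Λ2 x)) → (∀ x, Λ3 x ≤ H3 ∧ Λ3 x ≠ ⊥ ∧ HasE (Λ3 x)) →
    (∀ δ ∈ H1, f0 δ ∈ H0) → (∀ δ ∈ H2, f1 δ ∈ H1) → (∀ δ ∈ H3, f2 δ ∈ H2) → k0 ∈ H0 → k1 ∈ H1 →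
    (∀ δ ∈ H2, c0 δ = k0⁻¹ * f0 (f1 δ) * k0) → (∀ δ ∈ H3, c1 δ = k1⁻¹ * f1 (f2 δ) * k1) →
    GDa c0 H2 H0 Λ2 Λ0 j0 → GDa c1 H3 H1 Λ3 Λ1 j1 → ∃ b : X0 → X1, GDa f0 H1 H0 Λ1 Λ0 b

def DichGStmt : Prop :=
  ∀ (V0 V1 V2 V3 : Type) (G0 : SimpleGraph V0) (A0 : Set V0) (G1 : SimpleGraph V1) (A1 : Set V1)
    (G2 : SimpleGraph V2) (A2 : Set V2) (G3 : SimpleGraph V3) (A3 : Set V3) (φ0 : V1 → V0)
    (φ1 : V2 → V1) (φ2 : V3 → V2) (c0 : V2 → V0) (c1 : V3 → V1) (P0 : GP G0 A0)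
    (P1 : GP G1 A1) (P2 : GP G2 A2) (P3 : GP G3 A3) (j0 : P0.X → P2.X) (j1 : P1.X → P3.X),
    IsHom G1 A1 G0 A0 φ0 → IsHom G2 A2 G1 A1 φ1 → IsHom G3 A3 G2 A2 φ2 →
    SC G2 A2 G0 c0 (φ0 ∘ φ1) → SC G3 A3 G1 c1 (φ1 ∘ φ2) → GD c0 P2 P0 j0 → GD c1 P3 P1 j1 →
    ∃ b : P0.X → P1.X, GD φ0 P1 P0 b

/-- `h` moves `x` inside its component after the orbit of the edge `a b` is removed. -/
def RE {H T : Type} [Group H] [MulAction H T] (X : SimpleGraph T) (a b : T) (h : H) (x : T) :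
    Prop :=
  (X.deleteEdges {e | ∃ g : H, e = s(g • a, g • b)}).Reachable (h • x) x

/-- Collapsing a tree onto one orbit of edges. -/
def KurAStmt : Prop :=
  ∀ (H T : Type) [Group H] [MulAction H T] (X : SimpleGraph T) (κ : T → Bool) (a b : T),
    TreeAct H T X κ → X.Adj a b → Indec H → Nonempty (H ≃* Zm) ∨
      ((∀ h : H, RE X a b h a → h = 1) ∧ ∀ h : H, RE X a b h b) ∨
      ((∀ h : H, RE X a b h b → h = 1) ∧ ∀ h : H, RE X a b h a)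

def KurStmt : Prop := ∀ (H : Type) [Group H], Indec H → HasE H ∨ Nonempty (H ≃* Zm)

/-- The combinatorial cover of a simply connected covering space is simply connected. -/
def SCovStmt : Prop :=
  ∀ (V E Λ : Type) [Fintype V] (G : SimpleGraph V) (A : Set V) [TopologicalSpace E]
    [SimplyConnectedSpace E] [Group Λ] [MulAction Λ E] (p : E → Rl G A) (lab : V → V → Λ)
    (sh : E → V → Λ), Sheets G A p lab sh → A.Nonempty → SConn (cov G lab Λ) (up A Λ)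

def Vk2Stmt : Prop :=
  ∀ (V : Type) (G : SimpleGraph V) (A M B : Set V) (v : V), Graft G A M B v →
    SConn G (Lk G A {v}) → ∃ (l : V) (i1 : Gp G A →* Gp G B) (i2 : Gp G M →* Gp G B)
      (Pp : V → Gp G B), VK2 G A M B v l i1 i2 Pp

/-- The decomposition of a graft. -/
def GraftGStmt : Prop :=
  ∀ (V : Type) (G : SimpleGraph V) (A M B : Set V) (v l : V) (i1 : Gp G A →* Gp G B)
    (i2 : Gp G M →* Gp G B) (Pp : V → Gp G B) (P1 : GP G A) (P2 : GP G M), Graft G A M B v →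
    VK2 G A M B v l i1 i2 Pp → P1.y = v → P2.y = v →
    ∃ (P' : GP G B) (j1 : P1.X → P'.X) (j2 : P2.X → P'.X),
      (∀ x', x' ∈ Set.range j1 ∨ x' ∈ Set.range j2) ∧ (∀ x y, j1 x ≠ j2 y) ∧
      (∀ x, P'.Λ (j1 x) = (P1.Λ x).map i1) ∧ (∀ x, P'.Λ (j2 x) = (P2.Λ x).map i2) ∧
      (Nonempty P'.S ↔ Nonempty P1.S ∨ Nonempty P2.S) ∧
      GD (col A v) P' P1 j1 ∧ GD (col M v) P' P2 j2

def PbGStmt : Prop :=
  ∀ (V V' : Type) (G : SimpleGraph V) (A : Set V) (G' : SimpleGraph V') (A' : Set V')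
    (f : V' → V) (P : GP G A), SE G' A' G A f → Fin3 G' A' → ∀ y' ∈ A',
    ∃ (P' : GP G' A') (b : P.X ≃ P'.X), P'.y = y' ∧ GD f P' P b ∧ (Nonempty P'.S ↔ Nonempty P.S)

def PfGStmt : Prop :=
  ∀ (V V' : Type) (G : SimpleGraph V) (A : Set V) (G' : SimpleGraph V') (A' : Set V')
    (f : V' → V) (P' : GP G' A'), SE G' A' G A f → Fin3 G A →
    ∃ (P : GP G A) (b : P.X ≃ P'.X), GD f P' P b ∧ (Nonempty P'.S ↔ Nonempty P.S)

def GDCompStmt : Prop :=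
  ∀ (V V' V'' : Type) (G : SimpleGraph V) (A : Set V) (G' : SimpleGraph V') (A' : Set V')
    (G'' : SimpleGraph V'') (A'' : Set V'') (c : V' → V) (c' : V'' → V'),
    (∀ (P : GP G A) (P' : GP G' A') (P'' : GP G'' A'') (j : P.X → P'.X) (j' : P'.X → P''.X),
      GD c P' P j → GD c' P'' P' j' → GD (c ∘ c') P'' P (j' ∘ j)) ∧
    (GQ G' A' G A c → GQ G'' A'' G' A' c' → GQ G'' A'' G A (c ∘ c'))

/-- Free generators persist. -/
def GDSStmt : Prop :=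
  ∀ (V V' : Type) (G : SimpleGraph V) (A : Set V) (G' : SimpleGraph V') (A' : Set V')
    (f : V' → V) (P : GP G A) (P' : GP G' A') (j : P.X → P'.X), GD f P' P j → Nonempty P.S →
    Nonempty P'.S

/-- Matched sites are isomorphic, and unwrapping homomorphisms pull back. -/
def GDIsoStmt : Prop :=
  ∀ (V V' : Type) (G : SimpleGraph V) (A : Set V) (G' : SimpleGraph V') (A' : Set V')
    (f : V' → V) (P : GP G A) (P' : GP G' A') (j : P.X → P'.X), GD f P' P j → ∀ x,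
    ∃ m : P'.Λ (j x) ≃* P.Λ x, ∀ (L : Type) [CommGroup L] (ρ : Gp G A →* L),
      (∀ δ : P'.Λ (j x), ρ (gmap G' A' G A f δ) = ρ (m δ)) ∧
      (Unw P x ρ ↔ Unw P' (j x) (ρ.comp (gmap G' A' G A f)))

def PConnCovStmt : Prop :=
  ∀ (V L : Type) [Group L] (G : SimpleGraph V) (A : Set V) (lab : V → V → L), Flat G A lab →
    PConn G A → ∀ y ∈ A,
      (PConn (cov G lab L) (up A L) ↔ ∀ l, ∃ δ ∈ Loop G A y, glift G A lab δ = l)

/-- Decompositions with at most one factor. -/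
def BaseGStmt : Prop :=
  ∀ (V : Type) (G : SimpleGraph V) (A : Set V), Fin3 G A → PConn G A → ∀ y ∈ A,
    (Loop G A y = ⊥ → ∃ P : GP G A, IsEmpty P.X ∧ IsEmpty P.S) ∧
    (Loop G A y ≠ ⊥ → HasE (Loop G A y) →
      ∃ (P : GP G A) (x : P.X), (∀ x', x' = x) ∧ P.Λ x = Loop G A y ∧ IsEmpty P.S) ∧
    (Nonempty (Loop G A y ≃* Zm) → ∃ P : GP G A, IsEmpty P.X ∧ Nonempty P.S)

/-- Crossed homomorphisms lift to the induced module. -/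
def DLStmt : Prop :=
  ∀ (π X S N : Type) [Group π] [AddCommGroup N] (H : Subgroup π) (Λ : X → Subgroup π)
    (t : S → π) (lam : π →* Zm) (T : Zm → N →+ N) (δ : π → N), FP H Λ t →
    (∀ x, ∀ γ ∈ Λ x, lam γ = 1) → (∀ n, T 1 n = n) → (∀ g h n, T (g * h) n = T g (T h n)) →
    (∀ a ∈ H, ∀ b ∈ H, δ (a * b) = δ a + T (lam a) (δ b)) →
    ∃ δ' : π → Zm →₀ N,
      (∀ a ∈ H, ∀ b ∈ H, δ' (a * b) = δ' a + (δ' b).mapDomain fun g => lam a * g) ∧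
      ∀ a ∈ H, ((δ' a).sum fun g n => T g n) = δ a

end

end Pool.Agent.MP_6374aa_gt
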