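import Pool.Agent.MP_6374aa_gt.SdA

/-! The lifts of the star in the infinite cyclic cover of the second summand. -/

namespace Pool.Agent.MP_6374aa_gt

open Classical Matrix

variable {V L Q : Type} [Fintype L] [Fintype Q] {G : SimpleGraph V} {M : Set V} {v : V}
  {lz : V → V → Zm} {ζ : EA V} {σL : L → Finset V} {σQ : Q → Finset V}

theorem lin_SdB {W I : Type} [AddCommGroup W] [Module ℚ W] [Fintype I] {σ : I → Finset V}
    (φ : EA (V × Zm) →ₗ[ℚ] W) (x : I → RC Zm)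
    (H : ∀ i g, φ (wedge (tl_FrH v lz g (σ i))) = 0) : φ (evT v lz σ x) = 0 :=
  (LinearMap.ker φ).sum_mem fun i _ => actG_mem _ fun g _ => by
    rw [emap_sl_FrH]; exact H i g

theorem path_SdB {U : Type} {K : SimpleGraph U} {A : Set U} {F : U → ℚ}
    (hF : ∀ p ∈ A, ∀ q ∈ A, K.Adj p q → F p = F q) {a b : U} {γ : Gp K A} (hγ : Path K A a b γ) :
    F a = F b := by
  induction hγ with
  | nil _ => rfl
  | cons hu huw hw ih =>
    rcases huw with rfl | e
    exacts [ih, (hF _ hu _ hw.mem_left e).trans ih]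

theorem adq_SdB {u : V} (hu : u ∈ cst G M v) : Adq G u v := by
  rcases hu with rfl | hu
  exacts [Or.inl rfl, Or.inr (hu.2 v rfl).symm]

theorem lk_sub_SdB : Lk G M {v} ⊆ cst G M v := Set.subset_insert _ _

theorem centre_SdB (n : Zm) : (v, n) ∈ up (cst G M v) Zm := Set.mem_insert _ _

namespace SideH

variable (h : SideH G M v lz ζ σL σQ)

include h

omit [Fintype L] [Fintype Q] in
theorem not_mem_SdB (i : Q) : v ∉ σQ i := fun hv => (h.eQ.mem_FrH i).2 fun u hu => by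
  obtain ⟨-, h1, h2⟩ := (h.eQ.mem_FrH i).1
  by_cases e : u = v
  · exact Or.inl e
  · exact Or.inr ⟨h1 hu, fun w hw => by
      rw [show w = v from hw]; exact h2 hv hu (Ne.symm e)⟩

omit [Fintype L] in
theorem cfl_SdB (x : Q → RC Zm) {m : List (V × Zm)} (hm : ∀ p ∈ m, p ∈ up (cst G M v) Zm) :
    cfl_FrH m (evT v lz σQ x) = 0 :=
  lin_SdB _ x fun i _ => cfl_ne_FrH fun e => (h.eQ.mem_FrH i).2 fun _ hu =>
    hm _ ((e _).1 (mk_mem_tl_FrH hu))

omit [Fintype L] [Fintype Q] in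
theorem top_SdB : iv v ζ ∈ Zy G (Lk G M {v}) 3 := iv_mem_Zy v h.top

omit [Fintype L] [Fintype Q] in
theorem range_SdB {n : ℕ} {z : EA V} (hz : z ∈ Ch G (Lk G M {v}) (n + 1)) {s : Finset V}
    (hs : cf s z ≠ 0) : s ∈ Set.range σL := by
  obtain ⟨h1, h2, h3⟩ := cf_ne_zero hz hs
  rw [h.eL.2]
  exact ⟨Finset.card_pos.1 (by omega), h2, h3⟩

theorem iv_centre (x : Q → RC Zm) (n : Zm) : iv (v, n) (evT v lz σQ x) = 0 :=
  lin_SdB _ x fun i _ => iv_wedge_ChA2 _ fun e => h.not_mem_SdB i (mem_tl_FrH.1 e).1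

theorem ef_star (x : Q → RC Zm) {p q : V × Zm} (hp : p ∈ up (cst G M v) Zm)
    (hq : q ∈ up (cst G M v) Zm) : ef (evT v lz σQ x) p q = 0 :=
  h.cfl_SdB x (m := [p, q]) (by simpa using ⟨hp, hq⟩)

theorem sc_star (x : Q → RC Zm) {p : V × Zm} (hp : p ∈ up (cst G M v) Zm) :
    sc (iv p (evT v lz σQ x)) = 0 := h.cfl_SdB x (m := [p]) (by simpa using hp)

theorem same_sheet {p q : V × Zm} (hp : p ∈ up (cst G M v) Zm) (hq : q ∈ up (cst G M v) Zm)
    (hpq : (cov G lz Zm).Adj p q) : p.2 = q.2 := by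
  have := hpq.2.1
  rwa [h.one p.1 hp q.1 hq (Or.inr hpq.1), one_smul] at this

theorem adq_centre {p : V × Zm} (hp : p ∈ up (cst G M v) Zm) : Adq (cov G lz Zm) p (v, p.2) :=
  (cov_adq (u := p.1) (ω := p.2) h.flat (up_cst_sub h.mem hp) h.mem).2
    ⟨adq_SdB hp, by rw [h.one p.1 hp v (Set.mem_insert _ _) (adq_SdB hp), one_smul]⟩

theorem mem_star {p : V × Zm} {n : Zm} (hp : p ∈ up M Zm) (hpn : (cov G lz Zm).Adj (v, n) p) :
    p ∈ up (Lk G M {v}) Zm ∧ p.2 = n := by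
  have h1 : p ∈ up (Lk G M {v}) Zm := ⟨hp, fun w hw => by rw [show w = v from hw]; exact hpn.1⟩
  exact ⟨h1, (h.same_sheet (centre_SdB n) (lk_sub_SdB h1) hpn).symm⟩

theorem star_acyclic {n : ℕ} (hn : 2 ≤ n) :
    Zy (cov G lz Zm) (up (cst G M v) Zm) n ≤ Bd (cov G lz Zm) (up (cst G M v) Zm) n := by
  intro z hz
  have hg : IsHom (cov G lz Zm) (up (cst G M v) Zm) (cov G lz Zm) (up {v} Zm)
      fun p => (v, p.2) :=
    ⟨fun _ _ => rfl, fun p hp q hq e => Or.inl (congrArg (Prod.mk v) (h.same_sheet hp hq e))⟩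
  have h1 := emap_sub_mem_Bd (IsHom.id _ subset_rfl)
    (hg.mono subset_rfl fun p _ => centre_SdB p.2) (fun p hp q hq e => by
      have e' : p.2 = q.2 := by
        rcases e with rfl | e
        exacts [rfl, h.same_sheet hp hq e]
      change Adq _ p (v, q.2)
      exact e' ▸ h.adq_centre hp) hz
  have h2 := emap_mem_Ch hg hz.1
  rw [Ch_eq_bot fun s hs hc e => by
    obtain ⟨a, ha, b, hb, hab⟩ := Finset.one_lt_card.1 (show 1 < s.card by omega)
    have := (hc ha hb hab).1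
    rw [show a.1 = v from hs ha, show b.1 = v from hs hb] at this
    exact G.irrefl this, Submodule.mem_bot] at h2
  rwa [h2, sub_zero, emap_id] at h1

/-- Every vertex of the cover can be joined to a lift of the centre. -/
theorem reach {p : V × Zm} (hp : p ∈ up M Zm) :
    ∃ n γ, Path (cov G lz Zm) (up M Zm) p (v, n) γ := by
  obtain ⟨γ, hγ⟩ := h.mf.2.1.2 p.1 hp v h.mem
  obtain ⟨γ', h', -⟩ := hγ.lift h.flat ((glift G M lz γ)⁻¹ * p.2)
  rw [smul_eq_mul, mul_inv_cancel_left] at h'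
  exact ⟨_, γ', h'⟩

/-- A function that is constant along edges and vanishes at the centres vanishes. -/
theorem const_zero {F : V × Zm → ℚ}
    (hF : ∀ p ∈ up M Zm, ∀ q ∈ up M Zm, (cov G lz Zm).Adj p q → F p = F q)
    (h0 : ∀ n, F (v, n) = 0) : ∀ p ∈ up M Zm, F p = 0 := by
  intro p hp
  obtain ⟨n, γ, hγ⟩ := h.reach hp
  rw [path_SdB hF hγ, h0]

theorem exists_cocycle {b : V × Zm → V × Zm → ℚ} (hb : Coc (cov G lz Zm) (up M Zm) b)
    (hf : FS (cov G lz Zm) (up M Zm) b)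
    (h0 : ∀ p ∈ up (cst G M v) Zm, ∀ q ∈ up (cst G M v) Zm, (cov G lz Zm).Adj p q → b p q = 0) :
    ∃ x : Q → RC Zm, Dg (dgc σQ) 1 x ∧ (tw v lz bD σQ σQ)ᴴ.mulVec x = 0 ∧
      ∀ p ∈ up M Zm, ∀ q ∈ up M Zm, (cov G lz Zm).Adj p q → ef (evT v lz σQ x) p q = b p q := by
  obtain ⟨z, hz, hc, he⟩ := hb.exists_ef hf
  obtain ⟨x, c, hx, hc', e⟩ := h.decomp (n := 1) hz
  have e0 : c = 0 := Pool.Agent.MP_6374aa_gt.eq_of_ef hc' (zero_mem _) fun p hp q hq hpq => by
    have := he p (up_cst_sub h.mem hp) q (up_cst_sub h.mem hq) hpq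
    rw [e, ef_add, h.ef_star x hp hq, zero_add, h0 p hp q hq hpq] at this
    rw [this, ef_zero]
  rw [e0, add_zero] at e
  subst e
  exact ⟨x, hx, (h.coc_iff hx).2 hc, he⟩

theorem exists_fun {F : V × Zm → ℚ} (hF : {p | p ∈ up M Zm ∧ F p ≠ 0}.Finite)
    (h0 : ∀ p ∈ up (cst G M v) Zm, F p = 0) :
    ∃ x : Q → RC Zm, Dg (dgc σQ) 0 x ∧ ∀ p ∈ up M Zm, sc (iv p (evT v lz σQ x)) = F p := by
  have hz : ∑ p ∈ hF.toFinset, F p • vx p ∈ Ch (cov G lz Zm) (up M Zm) (0 + 1) :=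
    Submodule.sum_mem _ fun p hp =>
      Submodule.smul_mem _ _ (vx_mem_GrA2 (hF.mem_toFinset.1 hp).1)
  obtain ⟨x, c, hx, hc, e⟩ := h.decomp hz
  refine ⟨x, hx, fun p hp => ?_⟩
  by_cases hs : p ∈ up (cst G M v) Zm
  · rw [h.sc_star x hs, h0 p hs]
  · have e' := congrArg (fun z => sc (iv p z)) e
    simp only [map_add, iv_eq_zero hs hc, add_zero, map_sum, map_smul] at e'
    rw [← e', Finset.sum_eq_single p]
    · rw [iv_self_MfBasic, sc_one, smul_eq_mul, mul_one]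
    · intro q _ hq
      rw [iv_ne_MfBasic hq, map_zero, smul_zero]
    · intro hp'
      have : F p = 0 := by_contra fun e => hp' (hF.mem_toFinset.2 ⟨hp, e⟩)
      rw [this, zero_smul]

theorem eq_of_ef {x y : Q → RC Zm} (hx : Dg (dgc σQ) 1 x) (hy : Dg (dgc σQ) 1 y)
    (e : ∀ p ∈ up M Zm, ∀ q ∈ up M Zm, (cov G lz Zm).Adj p q →
      ef (evT v lz σQ x) p q = ef (evT v lz σQ y) p q) : x = y := by
  have e' := Pool.Agent.MP_6374aa_gt.eq_of_ef (h.ev_mem hx) (h.ev_mem hy) e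
  exact sub_eq_zero.1 (evT_injective (v0 := v) (lab := lz) h.eQ.1
    (fun i => (h.eQ.mem_FrH i).1.1) (by rw [evT_sub, e', sub_self]))

theorem evL_eta : evT v lz σL (fun l => MonoidAlgebra.single 1 (cf (σL l) (iv v ζ))) =
    etaL lz (lc ζ) (v, 1) := by
  rw [evT_triv h.eL.1 (fun a ha b hb => h.one a (lk_sub_SdB ha) b (lk_sub_SdB hb)) h.top_SdB.1
    fun s hs => h.range_SdB h.top_SdB.1 hs]
  refine emap_congr (fun a ha => ?_) h.top_SdB.1
  rw [h.one a (lk_sub_SdB ha) v (Set.mem_insert _ _) (adq_SdB (lk_sub_SdB ha)), one_mul]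

theorem exists_cf : ∃ l, cf (σL l) (iv v ζ) ≠ 0 := by
  by_contra hn
  refine (eta_of_mf h.mf h.top h.ne).ne v h.mem (eq_zero_of_cf h.top_SdB.1 fun s => ?_)
  by_contra hs
  obtain ⟨l, rfl⟩ := h.range_SdB h.top_SdB.1 hs
  exact hn ⟨l, hs⟩

/-- Top cycles of the lifts of the link. -/
theorem link_top {x : L → RC Zm} (hx : Dg (dgc σL) 2 x) (h0 : bd (evT v lz σL x) = 0) :
    ∃ c : RC Zm, x = c • fun l => MonoidAlgebra.single 1 (cf (σL l) (iv v ζ)) := by
  have hm := h.eL.mem_FrH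
  have hc : ∀ l, x l ≠ 0 → (σL l).card = 3 := fun l hl => hx.card_FrH (fun i => (hm i).1) hl
  have h1 := evT_bd (v0 := v) (h.flat.mono fun _ hu => hu.1) h.eL hm (x := x)
    fun l hl => by rw [hc l hl]; omega
  rw [h0] at h1
  have h2 := h.evL_inj h1
  have key : ∀ g, ∃ r : ℚ, ∀ l, (x l).coeff g = r * cf (σL l) (iv v ζ) := by
    intro g
    have hz : ∑ l, (x l).coeff g • wedge (σL l).toList ∈ Ch G (Lk G M {v}) 3 :=
      Submodule.sum_mem _ fun l _ => by
        by_cases e : x l = 0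
        · simp [e]
        · exact Submodule.smul_mem _ _ (hc l e ▸ wedge_toList_mem (hm l))
    have hb : bd (∑ l, (x l).coeff g • wedge (σL l).toList) = 0 := by
      refine eq_zero_of_cf (bd_mem_Ch hz) fun s => by_contra fun hs => ?_
      obtain ⟨i, rfl⟩ := h.range_SdB (bd_mem_Ch hz) hs
      have h3 := congrArg (fun r : RC Zm => r.coeff g) (congrFun h2 i)
      simp only [Matrix.mulVec, dotProduct, MonoidAlgebra.coeff_sum, Finsupp.finsetSum_apply,
        Pi.zero_apply, MonoidAlgebra.coeff_zero, Finsupp.zero_apply] at h3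
      refine hs (Eq.trans ?_ h3)
      rw [map_sum, cf_sum]
      refine Finset.sum_congr rfl fun j _ => ?_
      rw [map_smul, cf_smul]
      change _ * bD (σL i) (σL j) = (MonoidAlgebra.single _ (bD (σL i) (σL j)) * x j).coeff g
      by_cases e : bD (σL i) (σL j) = 0
      · simp [e]
      · have a1 := hd_mem v (hm j).1
        have a2 := (bD_ne e).1 (hd_mem v (hm i).1)
        rw [h.one _ (lk_sub_SdB ((hm j).2.1 a1)) _ (lk_sub_SdB ((hm j).2.1 a2))
          ((isCl_toList (hm j).2.1 (hm j).2.2).2 _ (Finset.mem_toList.2 a1) _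
            (Finset.mem_toList.2 a2)), MonoidAlgebra.coeff_single_one_mul, mul_comm]
    obtain ⟨r, hr⟩ := (eta_of_mf h.mf h.top h.ne).gen0 h.mem (mem_Zy.2 ⟨hz, hb⟩)
    refine ⟨r, fun l => ?_⟩
    have h4 := congrArg (cf (σL l)) hr
    rw [cf_smul, cf_sum, Finset.sum_eq_single l] at h4
    · rwa [cf_smul, cf_wedge_self, mul_one] at h4
    · intro j _ hj
      rw [cf_smul, cf_toList_FrG, if_neg fun e => hj (h.eL.1 e), mul_zero]
    · exact fun e => absurd (Finset.mem_univ l) e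
  obtain ⟨l0, hl0⟩ := h.exists_cf
  refine ⟨(cf (σL l0) (iv v ζ))⁻¹ • x l0, funext fun l => ?_⟩
  ext g
  obtain ⟨r, hr⟩ := key g
  rw [Pi.smul_apply, smul_eq_mul, MonoidAlgebra.coeff_mul_single_one, MonoidAlgebra.coeff_smul,
    Finsupp.smul_apply, hr, hr, smul_eq_mul, mul_comm r (cf (σL l0) _), inv_mul_cancel_left₀ hl0]

/-- Top chains of the lifts of the star are cones. -/
theorem star_top {c : EA (V × Zm)} (hc : c ∈ Ch (cov G lz Zm) (up (cst G M v) Zm) 4)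
    (s : Finset Zm) (hs : ∀ n, iv (v, n) c ≠ 0 → n ∈ s) :
    c = ∑ n ∈ s, vx (v, n) * iv (v, n) c := by
  have hd : c - ∑ n ∈ s, vx (v, n) * iv (v, n) c ∈ Ch (cov G lz Zm) (up (cst G M v) Zm) 4 :=
    sub_mem hc (Submodule.sum_mem _ fun n _ => vx_mul_mem_Ch (centre_SdB n) (fun _ hp => hp.1)
      (fun _ hp => Or.inr (hp.2 _ rfl)) (iv_mem_Ch _ hc))
  have h1 : ∀ m, iv (v, m) (c - ∑ n ∈ s, vx (v, n) * iv (v, n) c) = 0 := by
    intro m
    rw [map_sub, map_sum, Finset.sum_eq_single m]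
    · rw [iv_vx_mul_self, iv_iv_self, mul_zero, sub_zero, sub_self]
    · intro n _ hn
      rw [iv_vx_mul_ne fun e => hn (congrArg Prod.snd e),
        iv_eq_zero (v := (v, m)) (fun e => G.irrefl (e.2 _ rfl).1) (iv_mem_Ch (v, n) hc), mul_zero,
        neg_zero]
    · intro hm
      have : iv (v, m) c = 0 := by_contra fun e => hm (hs m e)
      rw [this, mul_zero, map_zero]
  have h2 := mem_Ch_of_iv (T := up (Lk G M {v}) Zm) hd (by
    rintro ⟨u, m⟩ (hu | hu) hu'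
    · rw [show u = v from hu]; exact h1 m
    · exact absurd hu hu')
  have h3 := Ch_mono Set.inter_subset_right _ h2
  rw [Ch_eq_bot fun t ht hk e => by
    have := (((loc_MfBasic h.mf.2.2.1 h.mem).cov (h.flat.mono fun _ hu => hu.1)) t
      (Finset.card_pos.1 (by omega)) ht hk).1
    omega, Submodule.mem_bot] at h3
  exact sub_eq_zero.1 h3

end SideH

end Pool.Agent.MP_6374aa_gt
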