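import Pool.Agent.MP_6374aa_gt.IfQ
import Pool.Agent.MP_6374aa_gt.IfG
import Pool.Agent.MP_6374aa_gt.SdB

/-! Statements: the value of a connected sum, and the assembly. -/

namespace Pool.Agent.MP_6374aa_gt

open Classical Matrix

noncomputable section

def SideTFStmt : Prop :=
  ∀ (V : Type) (G : SimpleGraph V) (M : Set V) (v : V) (lz : V → V → Zm) (P : GP G M), P.y = v →
    Flat G M lz → (∀ a ∈ cst G M v, ∀ b ∈ cst G M v, Adq G a b → lz a b = 1) →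
    (∀ x, ∀ δ ∈ P.Λ x, glift G M lz δ = 1) → TF G M v lz

def SideAStmt : Prop :=
  ∀ (V L Q : Type) [Fintype L] [Fintype Q] [DecidableEq Q] (G : SimpleGraph V) (M : Set V) (v : V)
    (lz : V → V → Zm) (ζ : EA V) (σL : L → Finset V) (σQ : Q → Finset V),
    SideH G M v lz ζ σL σQ → TF G M v lz →
    ∃ (K : Type) (_ : Fintype K) (_ : DecidableEq K) (Z A : Matrix Q K (RC Zm)),
      SideP (dgc σQ) (tw v lz bD σQ σQ) Z A

/-- The relative fundamental class in coordinates. -/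
structure RelF {V L Q K : Type} [Fintype Q] [Fintype K] (v : V) (lz : V → V → Zm) (ζ : EA V)
    (σL : L → Finset V) (σQ : Q → Finset V) (A : Matrix Q K (RC Zm)) (m : Q → RC Zm)
    (μ : K → RC Zm) : Prop where
  dg : Dg (dgc σQ) 3 m
  e1 : (tw v lz bD σQ σQ).mulVec m + (tw v lz (bG (lc ζ)) σQ σQ * A).mulVec μ = 0
  e2 : (tw v lz bD σL σQ).mulVec m + (tw v lz (bG (lc ζ)) σL σQ * A).mulVec μ =
    fun l => MonoidAlgebra.single 1 (cf (σL l) (iv v ζ))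

def SideBStmt : Prop :=
  ∀ (V L Q K : Type) [Fintype L] [Fintype Q] [DecidableEq Q] [Fintype K] [DecidableEq K]
    (G : SimpleGraph V) (M : Set V) (v : V) (lz : V → V → Zm) (ζ : EA V) (σL : L → Finset V)
    (σQ : Q → Finset V) (Z A : Matrix Q K (RC Zm)), SideH G M v lz ζ σL σQ →
    SideP (dgc σQ) (tw v lz bD σQ σQ) Z A → ∃ m μ, RelF v lz ζ σL σQ A m μ

def SideCStmt : Prop :=
  ∀ (V L Q K : Type) [Fintype L] [Fintype Q] [DecidableEq Q] [Fintype K] [DecidableEq K]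
    (G : SimpleGraph V) (M : Set V) (v : V) (lz : V → V → Zm) (ζ : EA V) (σL : L → Finset V)
    (σQ : Q → Finset V) (Z A : Matrix Q K (RC Zm)), SideH G M v lz ζ σL σQ →
    SideP (dgc σQ) (tw v lz bD σQ σQ) Z A → ∀ x, Dg (dgc σQ) 2 x →
    (tw v lz bD σQ σQ).mulVec x = 0 →
    ∃ y μ, x = (tw v lz bD σQ σQ).mulVec y + (tw v lz (bG (lc ζ)) σQ σQ * A).mulVec μ

def SideDStmt : Prop :=
  ∀ (V L Q K : Type) [Fintype L] [Fintype Q] [DecidableEq Q] [Fintype K] [DecidableEq K]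
    (G : SimpleGraph V) (M : Set V) (v : V) (lz : V → V → Zm) (ζ : EA V) (σL : L → Finset V)
    (σQ : Q → Finset V) (Z A : Matrix Q K (RC Zm)) (m : Q → RC Zm) (μ : K → RC Zm),
    SideH G M v lz ζ σL σQ → SideP (dgc σQ) (tw v lz bD σQ σQ) Z A → RelF v lz ζ σL σQ A m μ →
    (∀ w lam, Dg (dgc σQ) 3 w →
      (tw v lz bD σQ σQ).mulVec w + (tw v lz (bG (lc ζ)) σQ σQ * A).mulVec lam = 0 →
      ∃ c : RC Zm, w = c • m ∧ lam = c • μ) ∧ ∀ c : RC Zm, c • m = 0 → c • μ = 0 → c = 0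

/-- The completed relative complex of the second summand has trivial torsion. -/
def SideMatStmt : Prop :=
  ∀ (V L Q : Type) [Fintype L] [Fintype Q] [DecidableEq Q] (G : SimpleGraph V) (M : Set V) (v : V)
    (lz : V → V → Zm) (ζ : EA V) (σL : L → Finset V) (σQ : Q → Finset V),
    SideH G M v lz ζ σL σQ → TF G M v lz →
    ∃ (K : Type) (_ : Fintype K) (_ : DecidableEq K) (Z A : Matrix Q K (RC Zm)) (m : Q → RC Zm)
      (μ : K → RC Zm) (u : RC Zm), DualPair (dgc σQ) (tw v lz bD σQ σQ) Z A ∧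
      RelF v lz ζ σL σQ A m μ ∧
      IsCx (dg4 (Sum.elim (dgc σQ) (d23 K))) (ext1 (cx2 (tw v lz bD σQ σQ) Z
        (tw v lz (bG (lc ζ)) σQ σQ * A)) (Sum.elim m (Sum.elim 0 μ))) ∧
      IsTor (dg4 (Sum.elim (dgc σQ) (d23 K))) (ext1 (cx2 (tw v lz bD σQ σQ) Z
        (tw v lz (bG (lc ζ)) σQ σQ * A)) (Sum.elim m (Sum.elim 0 μ))) u ∧ InU u

/-- The star of the centre. -/
def StarSStmt : Prop :=
  ∀ (V L S : Type) [Fintype L] [DecidableEq L] [Fintype S] [DecidableEq S] (G : SimpleGraph V)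
    (M : Set V) (v : V) (ζ : EA V) (σL : L → Finset V) (σS : S → Finset V), Mf G M → v ∈ M →
    ζ ∈ Zy G M 4 → ζ ≠ 0 → Enum σL (sdA G (Lk G M {v})) →
    Enum σS {σ | σ ∈ sdA G M ∧ v ∈ σ} →
    (∃ H : Matrix (L ⊕ S) (L ⊕ S) ℚ, ∀ i j, Sum.elim (dgc σL) (dgc σS) j = 1 →
      (fromBlocks (bM σL σL) (bM σL σS) 0 (bM σS σS) * H +
        H * fromBlocks (bM σL σL) (bM σL σS) 0 (bM σS σS)) i j =
        (1 : Matrix (L ⊕ S) (L ⊕ S) ℚ) i j) ∧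
    IsCx (dg4 (dgc σS)) (ext1 (bM σS σS) fun s => cf (σS s) (vx v * iv v ζ)) ∧
    (∃ u : ℚ, u ≠ 0 ∧ IsTor (dg4 (dgc σS)) (ext1 (bM σS σS) fun s => cf (σS s) (vx v * iv v ζ)) u) ∧
    (bM σL σS).mulVec (fun s => cf (σS s) (vx v * iv v ζ)) = fun l => cf (σL l) (iv v ζ)

/-- The explicit matrices of a graft. -/
def MvMatStmt : Prop :=
  ∀ (C V P L S Q : Type) [CommGroup C] (G : SimpleGraph V) (A M B : Set V) (v : V)
    (lab : V → V → C) (ζA ζM : EA V) (σP : P → Finset V) (σL : L → Finset V) (σS : S → Finset V)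
    (σQ : Q → Finset V), Graft G A M B v → A.Finite → M.Finite → ζA ∈ Zy G A 4 → ζM ∈ Zy G M 4 →
    Enum σP {σ | σ ∈ sdA G A ∧ ¬ ↑σ ⊆ cst G A v} → Enum σL (sdA G (Lk G M {v})) →
    Enum σS {σ | σ ∈ sdA G M ∧ v ∈ σ} → Enum σQ {σ | σ ∈ sdA G M ∧ ¬ ↑σ ⊆ cst G M v} →
    Enum (Sum.elim σP (Sum.elim σL σS)) (sdA G A) ∧ Enum (Sum.elim σP (Sum.elim σL σQ)) (sdA G B) ∧
    tw v lab bD (Sum.elim σP (Sum.elim σL σS)) (Sum.elim σP (Sum.elim σL σS)) =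
      mvD (tw v lab bD σP σP) (tw v lab bD σL σP) (tw v lab bD σL σL) (tw v lab bD σL σS)
        (tw v lab bD σS σS) ∧
    tw v lab bD (Sum.elim σP (Sum.elim σL σQ)) (Sum.elim σP (Sum.elim σL σQ)) =
      mvD (tw v lab bD σP σP) (tw v lab bD σL σP) (tw v lab bD σL σL) (tw v lab bD σL σQ)
        (tw v lab bD σQ σQ) ∧
    tw v lab (bG (lc ζA)) (Sum.elim σP (Sum.elim σL σS)) σP =
      fromRows (tw v lab (bG (lc ζA)) σP σP) (fromRows (tw v lab (bG (lc ζA)) σL σP) 0) ∧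
    tw v lab (bG (lc (ζA + ζM))) (Sum.elim σP (Sum.elim σL σQ)) σP =
      fromRows (tw v lab (bG (lc ζA)) σP σP) (fromRows (tw v lab (bG (lc ζA)) σL σP) 0) ∧
    tw v lab (bG (lc (ζA + ζM))) (Sum.elim σP (Sum.elim σL σQ)) σQ =
      fromRows 0 (fromRows (tw v lab (bG (lc ζM)) σL σQ) (tw v lab (bG (lc ζM)) σQ σQ))

def MvValStmt : Prop :=
  ∀ (p : ℕ) [NeZero p] (V : Type) (G : SimpleGraph V) (A M B : Set V) (v : V) (lab : V → V → Cp p)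
    (lz : V → V → Zm) (π : Zm →* Cp p), 5 ≤ p → Graft G A M B v → Mf G A → Mf G M →
    Flat G A lab → Flat G M lz → (∀ a ∈ M, ∀ b ∈ M, Adq G a b → lab a b = π (lz a b)) →
    (∀ a ∈ cst G M v, ∀ b ∈ cst G M v, Adq G a b → lz a b = 1) → TF G M v lz →
    ∀ τ, ValC G A p lab τ → ValC G B p lab τ

def GraftValStmt : Prop :=
  ∀ (p : ℕ) [NeZero p] (V : Type) (G : SimpleGraph V) (A M B : Set V) (v l : V)
    (i1 : Gp G A →* Gp G B) (i2 : Gp G M →* Gp G B) (Pp : V → Gp G B) (P2 : GP G M)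
    (ρ : Gp G B →* Cp p), 5 ≤ p → Graft G A M B v → VK2 G A M B v l i1 i2 Pp → Mf G A → Mf G M →
    P2.y = v → (∀ x, ∀ δ ∈ P2.Λ x, ρ (i2 δ) = 1) →
    ∀ τ, ValC G A p (fun u w => ρ (i1 (gen G A u w))) τ → ValC G B p (fun u w => ρ (gen G B u w)) τ

/-! ### The assembly -/

def SphCov2Stmt : Prop :=
  ∀ (V E Λ : Type) [Fintype V] (G : SimpleGraph V) (A : Set V) [TopologicalSpace E] [Group Λ]
    [Finite Λ] [MulAction Λ E] (p : E → Rl G A) (lab : V → V → Λ) (sh : E → V → Λ) (e : E ≃ₜ S3)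
    (L : Λ → Matrix (Fin 4) (Fin 4) ℝ), Sheets G A p lab sh → Fin3 G A →
    (∀ g x, (e (g • x)).1 = (L g).mulVec (e x).1) →
    (∀ n, n = 2 ∨ n = 3 → Zy (cov G lab Λ) (up A Λ) n ≤ Bd (cov G lab Λ) (up A Λ) n) ∧
    ∀ (q : ℕ) [NeZero q], 5 ≤ q → ∀ ψ : Cp q →* Λ, Function.Injective ψ →
      ∃ a b : (ZMod q)ˣ, (∀ k : Cp q, (L (ψ k)).trace = tr2 q a b k.toAdd) ∧
        Val (cov G lab Λ) (up A Λ) (deck V ψ) (lens q a b)

def LensSiteStmt : Prop :=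
  ∀ (V Λ : Type) (G : SimpleGraph V) (A : Set V) [Group Λ] [Finite Λ] (lab : V → V → Λ)
    (χ : Λ → ℝ) (P : GP G A) (x : P.X) (θ : P.Λ x ≃* Λ) (y : V), Mf G A → Flat G A lab →
    y ∈ A → P.Λ x = Loop G A y → (∀ δ : P.Λ x, θ δ = glift G A lab δ) →
    (∀ n, n = 2 ∨ n = 3 → Zy (cov G lab Λ) (up A Λ) n ≤ Bd (cov G lab Λ) (up A Λ) n) →
    (∀ (q : ℕ) [NeZero q], 5 ≤ q → ∀ ψ : Cp q →* Λ, Function.Injective ψ →
      ∃ a b : (ZMod q)ˣ, (∀ k : Cp q, χ (ψ k) = tr2 q a b k.toAdd) ∧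
        Val (cov G lab Λ) (up A Λ) (deck V ψ) (lens q a b)) →
    Cov2 P x fun δ => χ (θ δ)

/-- A decomposition all of whose factors have one given type. -/
def Mono2 {V : Type} {G : SimpleGraph V} {A : Set V} (Q : GP G A) (L : Type) [Group L] (l : Prop)
    (χ : L → ℝ) : Prop :=
  (∀ x, SiteOf2 Q x L l χ) ∧ (Nonempty Q.S → Nonempty (L ≃* Zm)) ∧ Occ Q L l χ

def PieceS2Stmt : Prop :=
  ∀ (V : Type) [Fintype V] (G : SimpleGraph V) (P : Prime3 G), ∃ (χ : P.Λ → ℝ) (Q : GP G P.A),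
    Chi2 P χ ∧ Mono2 Q P.Λ (IsLens P) χ

def SiteDownStmt : Prop :=
  ∀ (V V' : Type) (G : SimpleGraph V) (A : Set V) (G' : SimpleGraph V') (A' : Set V')
    (f : V' → V) (P : GP G A) (P' : GP G' A') (j : P.X → P'.X), GD f P' P j → CovV G' A' G A f →
    ∀ (x : P.X) (L : Type) [Group L] (l : Prop) (χ : L → ℝ),
      SiteOf2 P' (j x) L l χ → SiteOf2 P x L l χ

def SiteUpStmt : Prop :=
  ∀ (V V' : Type) (G : SimpleGraph V) (A : Set V) (G' : SimpleGraph V') (A' : Set V')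
    (f : V' → V) (P : GP G A) (P' : GP G' A') (j : P.X → P'.X), SE G' A' G A f → GD f P' P j →
    CovV G' A' G A f → Pass P P' j

def QSTypeStmt : Prop :=
  ∀ (V V' : Type) (G : SimpleGraph V) (A : Set V) (G' : SimpleGraph V') (A' : Set V')
    (f : V' → V) (P : GP G A), QS G' A' G A f → ∀ y' ∈ A', ∃ (P' : GP G' A') (b : P.X ≃ P'.X),
      P'.y = y' ∧ GD f P' P b ∧ (Nonempty P'.S ↔ Nonempty P.S) ∧ Pass P P' b

def GraftSite2Stmt : Prop :=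
  ∀ (V : Type) (G : SimpleGraph V) (A M B : Set V) (v : V) (P1 : GP G A) (P2 : GP G M),
    Graft G A M B v → Mf G A → Mf G M →
    ∃ (P' : GP G B) (j1 : P1.X → P'.X) (j2 : P2.X → P'.X), GD (col A v) P' P1 j1 ∧
      (∀ x', x' ∈ Set.range j1 ∨ x' ∈ Set.range j2) ∧
      (Nonempty P'.S ↔ Nonempty P1.S ∨ Nonempty P2.S) ∧ Pass P1 P' j1 ∧ Pass P2 P' j2

def SumS2Stmt : Prop :=
  ∀ (V ι : Type) (G : SimpleGraph V) (S : ι → Set V) (Λ : ι → Type) [∀ i, Group (Λ i)]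
    (l : ι → Prop) (χ : ∀ i, Λ i → ℝ),
    (∀ i, Mf G (S i) ∧ ∃ Q : GP G (S i), Mono2 Q (Λ i) (l i) (χ i)) →
    ∀ A s, IsSum G S A s → Mf G A ∧ ∃ Q : GP G A, Typed2 Q Λ l χ ∧
      ∀ i ∈ s, Occ Q (Λ i) (l i) (χ i)

/-- Typed decompositions propagate along `c`. -/
def Prop2 {ι : Type} (Λ : ι → Type) [∀ i, Group (Λ i)] (l : ι → Prop) (χ : ∀ i, Λ i → ℝ)
    (L' L : Lev C1) : Prop :=
  (∃ Q : GP L.G L.A, Typed2 Q Λ l χ) → ∃ Q : GP L'.G L'.A, Typed2 Q Λ l χ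

def DoubleS2Stmt : Prop :=
  ∀ (L' L : Lev C1) (c : L'.V → L.V), IsDouble L' L c → Mf L.G L.A →
    Mf L'.G L'.A ∧ GQ L'.G L'.A L.G L.A c ∧ CovL L'.G L'.A L.G L.A c ∧
      ∀ (ι : Type) (Λ : ι → Type) [∀ i, Group (Λ i)] (l : ι → Prop) (χ : ∀ i, Λ i → ℝ),
        Prop2 Λ l χ L' L

/-- Typed decompositions are invariants of homeomorphisms. -/
def TypS2Stmt : Prop :=
  ∀ (V U : Type) [Fintype V] [Fintype U] (G : SimpleGraph V) (A : Set V) (K : SimpleGraph U)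
    (B : Set U) (_ : Rl G A ≃ₜ Rl K B) (P : GP K B), Fin3 G A →
    ∃ (P0 : GP G A) (b : P.X ≃ P0.X), (Nonempty P0.S ↔ Nonempty P.S) ∧ Pass P P0 b

def SideS2Stmt : Prop :=
  ∀ N : Side2, ∃ (χ : ∀ i, (N.P i).Λ → ℝ) (Q : GP N.Γ Set.univ),
    (∀ i, Chi2 (N.P i) (χ i)) ∧ Mf N.Γ Set.univ ∧ (∃ a b, ¬ Adq N.Γ a b) ∧
    Typed2 Q (fun i => (N.P i).Λ) (fun i => IsLens (N.P i)) χ ∧
    ∀ i, Occ Q (N.P i).Λ (IsLens (N.P i)) (χ i)

/-- Matched typed sites have the same traces. -/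
def Compare2Stmt : Prop :=
  ∀ (L : ℕ → Lev C1) (φ : ∀ i, (L (i + 1)).V → (L i).V) (c : ∀ i, (L (i + 2)).V → (L i).V)
    (P0 : GP (L 0).G (L 0).A) (P1 : GP (L 1).G (L 1).A), IsSys T0 L φ c →
    (∀ i, Mf (L i).G (L i).A) → (∀ i, GQ (L (i + 2)).G (L (i + 2)).A (L i).G (L i).A (c i)) →
    (∀ i, CovL (L (i + 2)).G (L (i + 2)).A (L i).G (L i).A (c i)) →
    (Nonempty P0.S → Nonempty P1.S) ∧
    ∀ x0 : P0.X, ∃ x1 : P1.X, ∀ (Λ0 Λ1 : Type) [Group Λ0] [Group Λ1] (l0 l1 : Prop)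
      (χ0 : Λ0 → ℝ) (χ1 : Λ1 → ℝ), SiteOf2 P0 x0 Λ0 l0 χ0 → SiteOf2 P1 x1 Λ1 l1 χ1 →
      ∃ ω : Λ1 ≃* Λ0, l0 → l1 → Finite Λ0 → IsCyclic Λ0 →
        ∀ g, 5 ≤ orderOf g → χ0 (ω g) = χ1 g

def LensHomeoStmt : Prop :=
  ∀ (V V' : Type) [Fintype V] [Fintype V'] (G : SimpleGraph V) (G' : SimpleGraph V')
    (P : Prime3 G) (P' : Prime3 G') (χ : P.Λ → ℝ) (χ' : P'.Λ → ℝ) (ω : P.Λ ≃* P'.Λ),
    IsLens P → IsLens P' → Chi2 P χ → Chi2 P' χ' → (∀ g, 5 ≤ orderOf g → χ' (ω g) = χ g) →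
    Nonempty (Rl G P.A ≃ₜ Rl G' P'.A)

/-- The final statement. -/
def MainS2Stmt : Prop :=
  ∀ (N N' : Side2), Nonempty (@Homeomorph (Bdry N.Γ) (Bdry N'.Γ) (bdryTop _) (bdryTop _)) →
    ∀ j : N'.ι, Nontrivial (N'.P j).Λ → ∃ i : N.ι, Nonempty ((N.P i).Λ ≃* (N'.P j).Λ) ∧
      (IsLens (N.P i) → IsLens (N'.P j) → Nonempty (Rl N.K (N.P i).A ≃ₜ Rl N'.K (N'.P j).A))

end

end Pool.Agent.MP_6374aa_gt
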