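import Pool.Agent.MP_6374aa_gt.InPA

/-! Statements: algebra of phases. -/

namespace Pool.Agent.MP_6374aa_gt

open Classical Matrix

noncomputable section

def BeattyStmt : Prop :=
  ∀ n a b c : ℕ, 5 ≤ n → 1 ≤ c → c ≤ b → b ≤ a → 2 * a < n → Nat.Coprime a n → Nat.Coprime b n →
    Nat.Coprime c n → (∀ j, 0 < j → j < n → Even (j * a / n + j * b / n + j * c / n)) →
    a = b ∧ c = 1

/-- Phases of lens values determine the traces up to an automorphism. -/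
def SignStmt : Prop :=
  ∀ (p : ℕ) [NeZero p], 5 ≤ p → ∀ a b a' b' : (ZMod p)ˣ, Sim (lensH p a b) (lensH p a' b') →
    ∃ m : (ZMod p)ˣ, ∀ k : ZMod p, tr2 p a b (m * k) = tr2 p a' b' k

def StabFree2Stmt : Prop :=
  StabFree (RC Zm) ∧ StabFree (MonoidAlgebra (RC (Multiplicative (ℤ × ℤ))) Zm)

section Reg

variable {S S' I J W : Type} [CommRing S] [CommRing S']

/-- Equality of the entries in the region `r`. -/
def EqR (r : ℤ → Prop) (uI : I → ℤ) (uJ : J → ℤ) (M N : Matrix J I S) : Prop :=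
  ∀ j i, r (uJ j) → r (uI i) → M j i = N j i

/-- `π` is the projection to positive heights away from the heights zero and one. -/
def Std [DecidableEq W] (u : W → ℤ) (π : Matrix W W S) : Prop :=
  ∀ a b, (u a < 0 ∨ 1 < u a) → π a b = (if a = b ∧ 0 < u a then 1 else 0) ∧
    π b a = (if a = b ∧ 0 < u a then 1 else 0)

/-- The identity on `I` and `e` on `W`. -/
def oe (I : Type) [DecidableEq I] (e : Matrix W W S) : Matrix (I ⊕ W) (I ⊕ W) S :=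
  fromBlocks 1 0 0 e

/-- The matrix `g` placed on `W`. -/
def ze (J I : Type) (g : Matrix W W S) : Matrix (J ⊕ W) (I ⊕ W) S := fromBlocks 0 0 0 g

variable [StarRing S] [Fintype I] [DecidableEq I] [Fintype J] [DecidableEq J] [Fintype W]

/-- Banded matrices that are inverse to each other on the region `r`, relative to `e`. -/
structure Tri (r : ℤ → Prop) (uI : I → ℤ) (uJ : J → ℤ) (uW : W → ℤ)
    (Ψ : Matrix (J ⊕ W) (I ⊕ W) S) (Ψ' : Matrix (I ⊕ W) (J ⊕ W) S) (e : Matrix W W S) : Prop where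
  b1 : Band (Sum.elim uI uW) (Sum.elim uJ uW) Ψ
  b2 : Band (Sum.elim uJ uW) (Sum.elim uI uW) Ψ'
  b3 : Band uW uW e
  ee : EqR r uW uW (e * e) e
  l : EqR r (Sum.elim uI uW) (Sum.elim uI uW) (Ψ' * Ψ) (oe I eᴴ)
  rr : EqR r (Sum.elim uJ uW) (Sum.elim uJ uW) (Ψ * Ψ') (oe J e)
  n1 : EqR r (Sum.elim uI uW) (Sum.elim uJ uW) (Ψ * oe I eᴴ) Ψ
  n2 : EqR r (Sum.elim uI uW) (Sum.elim uJ uW) (oe J e * Ψ) Ψ
  n3 : EqR r (Sum.elim uJ uW) (Sum.elim uI uW) (Ψ' * oe J e) Ψ'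
  n4 : EqR r (Sum.elim uJ uW) (Sum.elim uI uW) (oe I eᴴ * Ψ') Ψ'

/-- The first triple is mapped to the second on the region `r`. -/
structure Agr (f : S →+* S') (r : ℤ → Prop) (uI : I → ℤ) (uJ : J → ℤ) (uW : W → ℤ)
    (Ψ : Matrix (J ⊕ W) (I ⊕ W) S) (Ψ' : Matrix (I ⊕ W) (J ⊕ W) S) (e : Matrix W W S)
    (Θ : Matrix (J ⊕ W) (I ⊕ W) S') (Θ' : Matrix (I ⊕ W) (J ⊕ W) S') (d : Matrix W W S') :
    Prop where
  a1 : EqR r (Sum.elim uI uW) (Sum.elim uJ uW) (Ψ.map f) Θ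
  a2 : EqR r (Sum.elim uJ uW) (Sum.elim uI uW) (Ψ'.map f) Θ'
  a3 : EqR r uW uW (e.map f) d

end Reg

/-- Cutting a banded idempotent. -/
def CutStmt : Prop :=
  ∀ (S W : Type) [CommRing S] [Fintype W] [DecidableEq W] (u : W → ℤ) (e : Matrix W W S),
    StdIdem (MonoidAlgebra S Zm) → Band u u e → EqR (fun x => |x| ≤ 10) u u (e * e) e →
    ∃ (N : Type) (_ : Fintype N) (_ : DecidableEq N) (δ : N → Bool)
      (π : Matrix (W ⊕ N) (W ⊕ N) S), π * π = π ∧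
      π * fromBlocks e 0 0 (dg S δ) = fromBlocks e 0 0 (dg S δ) * π ∧
      Std (Sum.elim u fun _ => 0) π

/-- Splitting an isomorphism along idempotents defined over `S0`. -/
def Split2Stmt : Prop :=
  ∀ (S0 Sp Sm R I J : Type) [CommRing S0] [CommRing Sp] [CommRing Sm] [CommRing R]
    [Nontrivial R] [Fintype I] [DecidableEq I] [Fintype J] [DecidableEq J]
    (qp : S0 →+* Sp) (qm : S0 →+* Sm) (rp : Sp →+* R) (rm : Sm →+* R)
    (k : Matrix I I S0) (q : Matrix J J S0) (M : Matrix J I R) (N : Matrix I J R)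
    (Mp : Matrix J I Sp) (Np : Matrix I J Sp) (Mm : Matrix J I Sm) (Nm : Matrix I J Sm),
    (∀ x, rp (qp x) = rm (qm x)) → StdIdem S0 → M * N = 1 → N * M = 1 → k * k = k → q * q = q →
    (Mp * k.map qp).map rp = M * (k.map qp).map rp →
    (k.map qp * Np).map rp = (k.map qp).map rp * N → Mp * k.map qp * Np = q.map qp →
    (Mm * (1 - k).map qm).map rm = M * ((1 - k).map qm).map rm →
    ((1 - k).map qm * Nm).map rm = ((1 - k).map qm).map rm * N →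
    Mm * (1 - k).map qm * Nm = (1 - q).map qm →
    ∀ e : I ≃ J, ∃ (up : Spˣ) (um : Smˣ), det (M.submatrix e id) = rp up * rm um

/-- The four rings of the splitting argument. -/
structure Ring4 {S0 Sp Sm R : Type} [CommRing S0] [StarRing S0] [CommRing Sp] [StarRing Sp]
    [CommRing Sm] [StarRing Sm] [CommRing R] [StarRing R] (qp : S0 →+* Sp) (qm : S0 →+* Sm)
    (rp : Sp →+* R) (rm : Sm →+* R) : Prop where
  comm : ∀ x, rp (qp x) = rm (qm x)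
  s1 : ∀ x, qp (star x) = star (qp x)
  s2 : ∀ x, qm (star x) = star (qm x)
  s3 : ∀ x, rp (star x) = star (rp x)
  s4 : ∀ x, rm (star x) = star (rm x)

/-- The four triples of the splitting argument. -/
structure Tri4 {S0 Sp Sm R I J W : Type} [CommRing S0] [StarRing S0] [CommRing Sp] [StarRing Sp]
    [CommRing Sm] [StarRing Sm] [CommRing R] [StarRing R] [Fintype I] [DecidableEq I] [Fintype J]
    [DecidableEq J] [Fintype W] (qp : S0 →+* Sp) (qm : S0 →+* Sm) (rp : Sp →+* R) (rm : Sm →+* R)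
    (uI : I → ℤ) (uJ : J → ℤ) (uW : W → ℤ)
    (Ψ : Matrix (J ⊕ W) (I ⊕ W) R) (Ψ' : Matrix (I ⊕ W) (J ⊕ W) R) (e : Matrix W W R)
    (Ψp : Matrix (J ⊕ W) (I ⊕ W) Sp) (Ψp' : Matrix (I ⊕ W) (J ⊕ W) Sp) (ep : Matrix W W Sp)
    (Ψm : Matrix (J ⊕ W) (I ⊕ W) Sm) (Ψm' : Matrix (I ⊕ W) (J ⊕ W) Sm) (em : Matrix W W Sm)
    (Ψ0 : Matrix (J ⊕ W) (I ⊕ W) S0) (Ψ0' : Matrix (I ⊕ W) (J ⊕ W) S0) (e0 : Matrix W W S0) :
    Prop where
  t : Tri (fun _ => True) uI uJ uW Ψ Ψ' e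
  tp : Tri (fun x => -10 ≤ x) uI uJ uW Ψp Ψp' ep
  tm : Tri (fun x => x ≤ 10) uI uJ uW Ψm Ψm' em
  t0 : Tri (fun x => |x| ≤ 10) uI uJ uW Ψ0 Ψ0' e0
  ap : Agr rp (fun x => -10 ≤ x) uI uJ uW Ψp Ψp' ep Ψ Ψ' e
  am : Agr rm (fun x => x ≤ 10) uI uJ uW Ψm Ψm' em Ψ Ψ' e
  bp : Agr qp (fun x => |x| ≤ 10) uI uJ uW Ψ0 Ψ0' e0 Ψp Ψp' ep
  bm : Agr qm (fun x => |x| ≤ 10) uI uJ uW Ψ0 Ψ0' e0 Ψm Ψm' em

def VanCoreStmt : Prop :=
  ∀ (S0 Sp Sm R I J W Kp Km : Type) [CommRing S0] [StarRing S0] [CommRing Sp] [StarRing Sp]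
    [CommRing Sm] [StarRing Sm] [CommRing R] [StarRing R] [Nontrivial R] [Fintype I]
    [DecidableEq I] [Fintype J] [DecidableEq J] [Fintype W] [DecidableEq W] [Fintype Kp]
    [DecidableEq Kp] [Fintype Km] [DecidableEq Km] (qp : S0 →+* Sp) (qm : S0 →+* Sm)
    (rp : Sp →+* R) (rm : Sm →+* R) (uI : I → ℤ) (uJ : J → ℤ) (uW : W → ℤ)
    (Ψ : Matrix (J ⊕ W) (I ⊕ W) R) (Ψ' : Matrix (I ⊕ W) (J ⊕ W) R) (e : Matrix W W R)
    (Ψp : Matrix (J ⊕ W) (I ⊕ W) Sp) (Ψp' : Matrix (I ⊕ W) (J ⊕ W) Sp) (ep : Matrix W W Sp)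
    (Ψm : Matrix (J ⊕ W) (I ⊕ W) Sm) (Ψm' : Matrix (I ⊕ W) (J ⊕ W) Sm) (em : Matrix W W Sm)
    (Ψ0 : Matrix (J ⊕ W) (I ⊕ W) S0) (Ψ0' : Matrix (I ⊕ W) (J ⊕ W) S0) (e0 : Matrix W W S0)
    (π : Matrix W W S0) (Xp : Matrix W Kp Sp) (Yp : Matrix Kp W Sp) (Xm : Matrix W Km Sm)
    (Ym : Matrix Km W Sm),
    Ring4 qp qm rp rm → StdIdem S0 →
    Tri4 qp qm rp rm uI uJ uW Ψ Ψ' e Ψp Ψp' ep Ψm Ψm' em Ψ0 Ψ0' e0 →
    π * π = π → π * e0 = e0 * π → Std uW π →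
    Xp * Yp = (1 - ep) * π.map qp → Yp * Xp = 1 →
    Xm * Ym = (1 - em) * (1 - π).map qm → Ym * Xm = 1 →
    fromCols (Xp.map rp) (Xm.map rm) * fromRows (Yp.map rp) (Ym.map rm) = 1 - e ∧
    fromRows (Yp.map rp) (Ym.map rm) * fromCols (Xp.map rp) (Xm.map rm) = 1 ∧
    ∀ ε : I ≃ J, ∃ (up : Spˣ) (um : Smˣ),
      det ((Ψ + ze J I (fromCols (Xp.map rp) (Xm.map rm) *
        (fromCols (Xp.map rp) (Xm.map rm))ᴴ)).submatrix (ε.sumCongr (Equiv.refl W)) id) =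
        rp up * rm um

/-- Two positive completions have determinants with a positive ratio. -/
def PosStmt : Prop :=
  ∀ (I J W K : Type) [Fintype I] [DecidableEq I] [Fintype J] [DecidableEq J] [Fintype W]
    [DecidableEq W] [Fintype K] [DecidableEq K] (Ψ : Matrix (J ⊕ W) (I ⊕ W) ℂ) (e : Matrix W W ℂ)
    (X : Matrix W K ℂ) (Y : Matrix K W ℂ) (ε : I ≃ J), X * Y = 1 - e → Y * X = 1 →
    oe J e * Ψ = Ψ → ∃ r : ℝ, 0 < r ∧
      det ((Ψ + ze J I ((1 - e) * (1 - e)ᴴ)).submatrix (ε.sumCongr (Equiv.refl W)) id) =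
        r * det ((Ψ + ze J I (X * Xᴴ)).submatrix (ε.sumCongr (Equiv.refl W)) id)

/-- Compression to the image of the idempotent. -/
def Pos2Stmt : Prop :=
  ∀ (I J W K : Type) [Fintype I] [DecidableEq I] [Fintype J] [DecidableEq J] [Fintype W]
    [DecidableEq W] [Fintype K] [DecidableEq K] (Ψ : Matrix (J ⊕ W) (I ⊕ W) ℂ) (e : Matrix W W ℂ)
    (X : Matrix W K ℂ) (Y : Matrix K W ℂ) (ε : I ≃ J), X * Y = eᴴ → Y * X = 1 →
    oe J e * Ψ = Ψ → Ψ * oe I eᴴ = Ψ → ∃ r : ℝ, 0 < r ∧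
      det (((fromBlocks 1 0 0 X : Matrix (J ⊕ W) (J ⊕ K) ℂ)ᴴ * Ψ *
        (fromBlocks 1 0 0 X : Matrix (I ⊕ W) (I ⊕ K) ℂ)).submatrix
          (ε.sumCongr (Equiv.refl K)) id) =
        r * det ((Ψ + ze J I ((1 - e) * (1 - e)ᴴ)).submatrix (ε.sumCongr (Equiv.refl W)) id)

def VanAlgStmt : Prop :=
  ∀ (S0 Sp Sm R I J W : Type) [CommRing S0] [StarRing S0] [CommRing Sp] [StarRing Sp]
    [CommRing Sm] [StarRing Sm] [CommRing R] [StarRing R] [Nontrivial R] [Fintype I]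
    [DecidableEq I] [Fintype J] [DecidableEq J] [Fintype W] [DecidableEq W] (qp : S0 →+* Sp)
    (qm : S0 →+* Sm) (rp : Sp →+* R) (rm : Sm →+* R) (uI : I → ℤ) (uJ : J → ℤ) (uW : W → ℤ)
    (Ψ : Matrix (J ⊕ W) (I ⊕ W) R) (Ψ' : Matrix (I ⊕ W) (J ⊕ W) R) (e : Matrix W W R)
    (Ψp : Matrix (J ⊕ W) (I ⊕ W) Sp) (Ψp' : Matrix (I ⊕ W) (J ⊕ W) Sp) (ep : Matrix W W Sp)
    (Ψm : Matrix (J ⊕ W) (I ⊕ W) Sm) (Ψm' : Matrix (I ⊕ W) (J ⊕ W) Sm) (em : Matrix W W Sm)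
    (Ψ0 : Matrix (J ⊕ W) (I ⊕ W) S0) (Ψ0' : Matrix (I ⊕ W) (J ⊕ W) S0) (e0 : Matrix W W S0),
    Ring4 qp qm rp rm → StdIdem S0 → StdIdem (MonoidAlgebra S0 Zm) → StabFree Sp → StabFree Sm →
    Tri4 qp qm rp rm uI uJ uW Ψ Ψ' e Ψp Ψp' ep Ψm Ψm' em Ψ0 Ψ0' e0 →
    ∀ ε : I ≃ J, ∃ (up : Spˣ) (um : Smˣ), ∀ φ : R →+* ℂ, (∀ x, φ (star x) = star (φ x)) →
      ∃ r : ℝ, 0 < r ∧
        φ (det ((Ψ + ze J I ((1 - e) * (1 - e)ᴴ)).submatrix (ε.sumCongr (Equiv.refl W)) id)) =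
          r * φ (rp up * rm um)

def LiftEStmt : Prop :=
  ∀ (C : Type) [CommGroup C] [Fintype C] (B : Type) (β : C →* Equiv.Perm B) (B0 : Set B)
    (ρ : B → B → Prop) (t : C) (u : B → ℤ) (lam : Bool → B → C) (l : Bool → B → B → ℤ),
    (∀ g, g ∈ Subgroup.zpowers t) → (∀ g, ∀ b ∈ B0, β g b ∈ B0) →
    (∀ g, ∀ a ∈ B0, ∀ b ∈ B0, ρ a b → ρ (β g a) (β g b)) → (∀ a ∈ B0, ρ a a) →
    Coord β B0 ρ t u lam l → VanishP β B0 ρ

def VpPStmt : Prop :=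
  ∀ (C : Type) [CommGroup C] [Fintype C] [IsCyclic C] (V0 V1 : Type) (G0 : SimpleGraph V0)
    (A0 : Set V0) (α0 : C →* Equiv.Perm V0) (G1 : SimpleGraph V1) (A1 : Set V1)
    (α1 : C →* Equiv.Perm V1) (φ : V1 → V0) (R T : ℕ),
    FreeAct G0 A0 α0 → Fin3 G0 A0 → Act G1 A1 α1 → (∀ a ∈ A1, φ a ∈ A0) → Eqv A1 α1 α0 φ →
    (∀ a ∈ A1, ∀ b ∈ A1, Near G1 A1 T a b → Adq G0 (φ a) (φ b)) → 1000 * (R + 1) ≤ T →
    VanishP α1 A1 (Near G1 A1 R)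

def VanOneStmt : Prop :=
  ∀ (C B W : Type) [CommGroup C] [Fintype C] [Fintype W] [DecidableEq W] (β : C →* Equiv.Perm B)
    (B0 : Set B) (ρ : B → B → Prop) (pW : W → B), (∀ w, pW w ∈ B0) → Vanish β B0 ρ →
    VanE β B0 ρ pW 1

/-- Change of basis. -/
def TorChgStmt : Prop :=
  ∀ (R I : Type) [CommRing R] [Fintype I] [DecidableEq I] (deg : I → ℕ) (d d' P Q : Matrix I I R)
    (u : R), P * Q = 1 → (∀ i j, P i j ≠ 0 → deg i = deg j) → (∀ i j, Q i j ≠ 0 → deg i = deg j) →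
    P * d = d' * P → IsTor deg d u → ∃ u', IsTor deg d' u' ∧
      u' * det (P.toSquareBlockProp fun i => Odd (deg i)) =
        u * det (P.toSquareBlockProp fun i => ¬ Odd (deg i))

/-- Changing the attaching cycles by boundaries and by an invertible matrix. -/
def TorShearStmt : Prop :=
  ∀ (R I J : Type) [CommRing R] [Fintype I] [DecidableEq I] [Fintype J] [DecidableEq J]
    (deg : I → ℕ) (dz : J → ℕ) (D : Matrix I I R) (Z : Matrix I J R) (K : Matrix I J R) (u : R),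
    (∀ i j, K i j ≠ 0 → deg i = dz j) → IsTor (Sum.elim deg dz) (fromBlocks D Z 0 0) u →
    IsTor (Sum.elim deg dz) (fromBlocks D (Z + D * K) 0 0) u

/-- The algebra of the mapping cone over any ring. -/
def ConeRStmt : Prop :=
  ∀ (R I I' J1 J2 : Type) [CommRing R] [Fintype I] [DecidableEq I] [Fintype I'] [DecidableEq I']
    [Fintype J1] [DecidableEq J1] [Fintype J2] [DecidableEq J2] (dI : I → ℕ) (dI' : I' → ℕ)
    (dz : J1 → ℕ) (dy : J2 → ℕ) (D : Matrix I I R) (D' : Matrix I' I' R) (Φ : Matrix I I' R)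
    (Wm : Matrix I J1 R) (Z : Matrix I' J1 R) (Y : Matrix I' J2 R) (u : R),
    IsCx (dcone dI dI' dz) (cone D Φ Wm D' Z) →
    IsCx (Sum.elim dI' (Sum.elim dz dy)) (fromBlocks D' (fromCols Z Y) 0 0) →
    IsTor (dcone dI dI' dz) (cone D Φ Wm D' Z) u →
    (∀ v, IsTor (Sum.elim dI' (Sum.elim dz dy)) (fromBlocks D' (fromCols Z Y) 0 0) v →
      ∃ w, IsTor (Sum.elim dI dy) (fromBlocks D (Φ * Y) 0 0) w ∧ (w = u * v ∨ w = -(u * v))) ∧
    ∀ w, IsTor (Sum.elim dI dy) (fromBlocks D (Φ * Y) 0 0) w →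
      ∃ v, IsTor (Sum.elim dI' (Sum.elim dz dy)) (fromBlocks D' (fromCols Z Y) 0 0) v ∧
        (w = u * v ∨ w = -(u * v))

/-- Controlled contractions relative to an idempotent. -/
def CctPStmt : Prop :=
  ∀ (C : Type) [CommGroup C] [Fintype C] (B I : Type) [Fintype I] [DecidableEq I]
    (β : C →* Equiv.Perm B) (B0 : Set B) (ρ : ℕ → B → B → Prop) (pos : I → B) (deg : I → ℕ)
    (d ε : Matrix I I (RC C)),
    (∀ i, pos i ∈ B0) → (∀ i, deg i ≤ 4) → IsCx deg d → (∀ g, ∀ b ∈ B0, β g b ∈ B0) →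
    (∀ k g a b, ρ k a b → ρ k (β g a) (β g b)) → (∀ k, ∀ a ∈ B0, ρ k a a) →
    (∀ k a b, ρ k a b → ρ (k + 1) a b) →
    (∀ k, ∀ a ∈ B0, ∀ b ∈ B0, ∀ c ∈ B0, ρ k a b → ρ k b c → ρ (k + 1) a c) →
    Ctl β (ρ 0) pos pos d → Ctl β (ρ 0) pos pos ε → (∀ i j, ε i j ≠ 0 → deg i = deg j) →
    ε * ε = ε → ε * d = d → d * ε = d →
    (∀ k n, ∀ b ∈ B0, ∀ x : I → RC C, (∀ i, deg i ≠ n → x i = 0) →
      (∀ i g, (x i).coeff g ≠ 0 → ρ k (β g (pos i)) b) → d.mulVec x = 0 → ε.mulVec x = x →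
      ∃ y : I → RC C, (∀ i, deg i ≠ n + 1 → y i = 0) ∧
        (∀ i g, (y i).coeff g ≠ 0 → ρ (k + 1) (β g (pos i)) b) ∧ d.mulVec y = x) →
    ∃ h : Matrix I I (RC C), (∀ i j, h i j ≠ 0 → deg i = deg j + 1) ∧ d * h + h * d = ε ∧
      h * h = 0 ∧ ε * h = h ∧ h * ε = h ∧ Ctl β (ρ 30) pos pos h

/-- The idempotent on the cells of the cone. -/
def econe {S W : Type} [CommRing S] [StarRing S] (I I' : Type) [DecidableEq I] [DecidableEq I']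
    (e : Matrix W W S) : Matrix (I ⊕ (I' ⊕ (W ⊕ W))) (I ⊕ (I' ⊕ (W ⊕ W))) S :=
  fromBlocks 1 0 0 (fromBlocks 1 0 0 (fromBlocks e 0 0 eᴴ))

/-- The compressed cone has trivial phase. -/
def PosAlgStmt : Prop :=
  ∀ (C : Type) [CommGroup C] [Fintype C] [Nontrivial (RH C)] (B I I' W K : Type) [Fintype I]
    [DecidableEq I] [Fintype I'] [DecidableEq I'] [Fintype W] [DecidableEq W] [Fintype K]
    [DecidableEq K] (β : C →* Equiv.Perm B) (B0 : Set B) (ρ : B → B → Prop) (pI : I → B)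
    (pI' : I' → B) (pW : W → B) (deg : I → ℕ) (deg' : I' → ℕ) (D : Matrix I I (RC C))
    (Φ : Matrix I I' (RC C)) (Wm : Matrix I (W ⊕ W) (RC C)) (D' : Matrix I' I' (RC C))
    (Z : Matrix I' (W ⊕ W) (RC C)) (e : Matrix W W (RC C))
    (h : Matrix (I ⊕ (I' ⊕ (W ⊕ W))) (I ⊕ (I' ⊕ (W ⊕ W))) (RC C)) (X : Matrix W K (RH C))
    (Y : Matrix K W (RH C)),
    (∀ i, pI i ∈ B0) → (∀ i, pI' i ∈ B0) → IsCx (dcone deg deg' (d23 W)) (cone D Φ Wm D' Z) →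
    (∀ i j, h i j ≠ 0 → dcone deg deg' (d23 W) i = dcone deg deg' (d23 W) j + 1) →
    cone D Φ Wm D' Z * h + h * cone D Φ Wm D' Z = econe I I' e → h * h = 0 →
    econe I I' e * h = h → h * econe I I' e = h → e * e = e →
    Wm * fromBlocks e 0 0 eᴴ = Wm → Z * fromBlocks e 0 0 eᴴ = Z →
    Ctl β ρ (Sum.elim pI (Sum.elim pI' (Sum.elim pW pW)))
      (Sum.elim pI (Sum.elim pI' (Sum.elim pW pW))) (cone D Φ Wm D' Z + h) →
    VanE β B0 ρ pW eᴴ → X * Y = e.map (evH C) → Y * X = 1 →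
    IsCx (dcone deg deg' (d23 K)) (cone (D.map (evH C)) (Φ.map (evH C))
      (Wm.map (evH C) * fromBlocks X 0 0 Yᴴ) (D'.map (evH C))
      (Z.map (evH C) * fromBlocks X 0 0 Yᴴ)) ∧
    ∃ u, InP u ∧ IsTor (dcone deg deg' (d23 K)) (cone (D.map (evH C)) (Φ.map (evH C))
      (Wm.map (evH C) * fromBlocks X 0 0 Yᴴ) (D'.map (evH C))
      (Z.map (evH C) * fromBlocks X 0 0 Yᴴ)) u

/-- Idempotents of constant trace split. -/
def IdemSplitStmt : Prop :=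
  ∀ (C W : Type) [CommGroup C] [Fintype W] [DecidableEq W] (e : Matrix W W (RH C)) (c : ℂ),
    e * e = e → (∀ χ, e.trace χ = c) →
    ∃ (n : ℕ) (X : Matrix W (Fin n) (RH C)) (Y : Matrix (Fin n) W (RH C)), X * Y = e ∧ Y * X = 1

/-- The value does not depend on the dual pair. -/
def ValAnyMStmt : Prop :=
  ∀ (C I J : Type) [CommGroup C] [Nontrivial (RH C)] [Fintype I] [DecidableEq I] [Fintype J]
    [DecidableEq J] (deg : I → ℕ) (D Γ : Matrix I I (RH C)) (Z A : Matrix I J (RH C)) (τ : RH C),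
    CapM deg D Γ → ValM deg D Γ τ → DualPair deg D Z A → Spans deg D Z →
    ∃ u, IsTor (Sum.elim deg (d23 J)) (cx2 D Z (Γ * A)) u ∧ Sim u τ

def ValUniqMStmt : Prop :=
  ∀ (C I : Type) [CommGroup C] [Nontrivial (RH C)] [Fintype I] [DecidableEq I] (deg : I → ℕ)
    (D Γ : Matrix I I (RH C)) (τ τ' : RH C), CapM deg D Γ → ValM deg D Γ τ → ValM deg D Γ τ' →
    Sim τ τ'

def ValScaleStmt : Prop :=
  ∀ (C I : Type) [CommGroup C] [Fintype I] [DecidableEq I] (deg : I → ℕ)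
    (D Γ : Matrix I I (RH C)) (τ : RH C) (r : ℚ), r ≠ 0 → ValM deg D Γ τ → ValM deg D (r • Γ) τ

/-- Monomial changes of basis. -/
def ValMonoStmt : Prop :=
  ∀ (C I I' : Type) [CommGroup C] [Fintype I] [DecidableEq I] [Fintype I'] [DecidableEq I']
    (deg : I → ℕ) (D Γ : Matrix I I (RH C)) (e : I' ≃ I) (w : I → RH C) (τ : RH C),
    (∀ i, InP (w i) ∧ w i * star (w i) = 1) → ValM deg D Γ τ →
    ValM (deg ∘ e) ((diagonal w * D * (diagonal w)ᴴ).submatrix e e)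
      ((diagonal w * Γ * (diagonal w)ᴴ).submatrix e e) τ

/-- A map whose completed cone has trivial phase. -/
structure GAH {C I I' J : Type} [CommGroup C] [Fintype I] [DecidableEq I] [Fintype I']
    [DecidableEq I'] [Fintype J] [DecidableEq J] (deg : I → ℕ) (deg' : I' → ℕ)
    (D Γ : Matrix I I (RH C)) (D' Γ' : Matrix I' I' (RH C)) (Φ : Matrix I I' (RH C))
    (Wm : Matrix I (J ⊕ J) (RH C)) (Z A Y K : Matrix I' J (RH C)) (u : RH C) : Prop where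
  cap : CapM deg D Γ
  cap' : CapM deg' D' Γ'
  nat : Φ * Γ' * Φᴴ = Γ
  dp : DualPair deg' D' Z A
  dK : ∀ i j, deg' i ≠ 3 → K i j = 0
  hY : Y = Γ' * A + D' * K
  cx : IsCx (dcone deg deg' (d23 J)) (cone D Φ Wm D' (fromCols Z Y))
  tor : IsTor (dcone deg deg' (d23 J)) (cone D Φ Wm D' (fromCols Z Y)) u
  inp : InP u

def GeoKeyStmt : Prop :=
  ∀ (C I I' J J0 : Type) [CommGroup C] [Fintype I] [DecidableEq I] [Fintype I'] [DecidableEq I']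
    [Fintype J] [DecidableEq J] [Fintype J0] [DecidableEq J0] (deg : I → ℕ) (deg' : I' → ℕ)
    (D Γ : Matrix I I (RH C)) (D' Γ' : Matrix I' I' (RH C)) (Φ : Matrix I I' (RH C))
    (Wm : Matrix I (J ⊕ J) (RH C)) (Z A Y K : Matrix I' J (RH C)) (u : RH C)
    (Z0 A0 m : Matrix I J0 (RH C)) (Z1 : Matrix I' J0 (RH C)),
    GAH deg deg' D Γ D' Γ' Φ Wm Z A Y K u → DualPair deg D Z0 A0 →
    (∀ i j, deg' i ≠ 1 → Z1 i j = 0) → D' * Z1 = 0 → Aᴴ * Z1 = 0 →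
    (∀ i j, deg i ≠ 2 → m i j = 0) → Φ * Z1 = Z0 + D * m →
    DualPair deg' D' (fromCols Z Z1) (fromCols A (Φᴴ * A0)) ∧ ∀ τ,
      (∃ v, IsTor (Sum.elim deg (d23 J0)) (cx2 D Z0 (Γ * A0)) v ∧ Sim v τ) ↔
      ∃ v, IsTor (Sum.elim deg' (d23 (J ⊕ J0)))
        (cx2 D' (fromCols Z Z1) (Γ' * fromCols A (Φᴴ * A0))) v ∧ Sim v τ

/-- The comparison along a map whose completed cone has trivial phase. -/
def GeoAlgStmt : Prop :=
  ∀ (C I I' J : Type) [CommGroup C] [Nontrivial (RH C)] [Fintype I] [DecidableEq I] [Fintype I']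
    [DecidableEq I'] [Fintype J] [DecidableEq J] (deg : I → ℕ) (deg' : I' → ℕ)
    (D Γ : Matrix I I (RH C)) (D' Γ' : Matrix I' I' (RH C)) (Φ : Matrix I I' (RH C))
    (Wm : Matrix I (J ⊕ J) (RH C)) (Z A Y K : Matrix I' J (RH C)) (u : RH C),
    GAH deg deg' D Γ D' Γ' Φ Wm Z A Y K u → ∀ τ, ValM deg' D' Γ' τ ↔ ValM deg D Γ τ

/-- Exact finite free complexes are contractible. -/
def ExactStmt : Prop :=
  ∀ (R I : Type) [CommRing R] [Fintype I] [DecidableEq I] (deg : I → ℕ) (d : Matrix I I R),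
    IsCx deg d → (∀ n x, Dg deg n x → d.mulVec x = 0 → ∃ y, d.mulVec y = x) →
    ∃ h, IsCtr deg d h

/-- Dual bases over the Laurent polynomial ring. -/
def PidStmt : Prop :=
  ∀ (I : Type) [Fintype I] [DecidableEq I] (deg : I → ℕ) (d : Matrix I I (RC Zm)), IsCx deg d →
    (∀ x, Dg deg 0 x → ∃ y, Dg deg 1 y ∧ d.mulVec y = x) →
    (∀ x, Dg deg 1 x → d.mulVec x = 0 → ∀ r : RC Zm, r ≠ 0 → ∀ y, Dg deg 2 y →
      r • x = d.mulVec y → ∃ y', x = d.mulVec y') →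
    ∃ (K : Type) (_ : Fintype K) (_ : DecidableEq K) (Z A : Matrix I K (RC Zm)), SideP deg d Z A

/-- The algebra of a connected sum. -/
def MvAlgStmt : Prop :=
  ∀ (C P L S Q K : Type) [CommGroup C] [Nontrivial (RH C)] [Fintype P] [DecidableEq P]
    [Fintype L] [DecidableEq L] [Fintype S] [DecidableEq S] [Fintype Q] [DecidableEq Q]
    [Fintype K] [DecidableEq K] (nP : P → ℕ) (nL : L → ℕ) (nS : S → ℕ) (nQ : Q → ℕ)
    (dPP gPP : Matrix P P (RH C)) (dLP gLP : Matrix L P (RH C)) (dLL : Matrix L L (RH C))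
    (dLS : Matrix L S (RH C)) (dSS : Matrix S S (RH C)) (dLQ gLQ : Matrix L Q (RH C))
    (dQQ gQQ : Matrix Q Q (RH C)) (ΓA : Matrix (P ⊕ (L ⊕ S)) (P ⊕ (L ⊕ S)) (RH C))
    (ΓB : Matrix (P ⊕ (L ⊕ Q)) (P ⊕ (L ⊕ Q)) (RH C)) (H : Matrix (L ⊕ S) (L ⊕ S) (RH C))
    (Z A : Matrix Q K (RH C)) (m : Q → RH C) (μ : K → RH C) (ω : S → RH C) (us ut τ : RH C),
    CapM (Sum.elim nP (Sum.elim nL nS)) (mvD dPP dLP dLL dLS dSS) ΓA →
    CapM (Sum.elim nP (Sum.elim nL nQ)) (mvD dPP dLP dLL dLQ dQQ) ΓB →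
    ΓA.submatrix id Sum.inl = fromRows gPP (fromRows gLP 0) →
    ΓB.submatrix id Sum.inl = fromRows gPP (fromRows gLP 0) →
    ΓB.submatrix id (Sum.inr ∘ Sum.inr) = fromRows 0 (fromRows gLQ gQQ) →
    (∀ i j, Sum.elim nL nS j = 1 →
      (fromBlocks dLL dLS 0 dSS * H + H * fromBlocks dLL dLS 0 dSS) i j =
        (1 : Matrix (L ⊕ S) (L ⊕ S) (RH C)) i j) →
    IsCx (dg4 nS) (ext1 dSS ω) → IsTor (dg4 nS) (ext1 dSS ω) ut → InP ut →
    DualPair nQ dQQ Z A →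
    IsCx (dg4 (Sum.elim nQ (d23 K))) (ext1 (cx2 dQQ Z (gQQ * A)) (Sum.elim m (Sum.elim 0 μ))) →
    IsTor (dg4 (Sum.elim nQ (d23 K))) (ext1 (cx2 dQQ Z (gQQ * A)) (Sum.elim m (Sum.elim 0 μ)))
      us → InP us → dLQ.mulVec m + (gLQ * A).mulVec μ = dLS.mulVec ω →
    ValM (Sum.elim nP (Sum.elim nL nS)) (mvD dPP dLP dLL dLS dSS) ΓA τ →
    ValM (Sum.elim nP (Sum.elim nL nQ)) (mvD dPP dLP dLL dLQ dQQ) ΓB τ

end

end Pool.Agent.MP_6374aa_gt
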