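import Pool.Agent.MP_6374aa_gt.CapA

/-! Universal coefficients in degree one. -/

namespace Pool.Agent.MP_6374aa_gt

open Classical

variable {V V' : Type} {G : SimpleGraph V} {G' : SimpleGraph V'} {A : Set V} {A' : Set V'}

/-- A functional that kills the kernel of `T` factors through `T`. -/
theorem factor_UCT {W N : Type} [AddCommGroup W] [Module ℚ W] [AddCommGroup N] [Module ℚ N]
    (T : W →ₗ[ℚ] N) (ψ : W →ₗ[ℚ] ℚ) (h : ∀ w, T w = 0 → ψ w = 0) :
    ∃ φ : N →ₗ[ℚ] ℚ, ∀ w, φ (T w) = ψ w := by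
  obtain ⟨g, hg⟩ := T.rangeRestrict.exists_rightInverse_of_surjective T.range_rangeRestrict
  obtain ⟨φ, hφ⟩ := (ψ ∘ₗ g).exists_extend
  refine ⟨φ, fun w => ?_⟩
  have h1 : φ (T w) = ψ (g (T.rangeRestrict w)) := by
    simpa using LinearMap.congr_fun hφ (T.rangeRestrict w)
  have h2 : T (g (T.rangeRestrict w)) = T w := by
    have := congrArg Subtype.val (LinearMap.congr_fun hg (T.rangeRestrict w))
    simpa using this
  have h3 := h (g (T.rangeRestrict w) - w) (by rw [map_sub, h2, sub_self])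
  rw [map_sub] at h3
  rw [h1]
  exact sub_eq_zero.1 h3

/-- Evaluation as a linear map. -/
noncomputable def evL_UCT (a : V → V → ℚ) : EA V →ₗ[ℚ] ℚ where
  toFun := evE a
  map_add' := evE_add a
  map_smul' r x := by simpa using evE_smul a r x

theorem edge_mem_UCT {p q : V} (hp : p ∈ A) (hq : q ∈ A) (h : G.Adj p q) :
    vx p * vx q ∈ Ch G A 2 := by
  have hc : IsCl G A [p, q] := by
    refine ⟨by simp [hp, hq], ?_⟩
    simp [Adq, h, h.symm]
  simpa [wedge] using wedge_mem_Ch hc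

theorem bd_edge_UCT (p q : V) : bd (vx p * vx q) = vx q - vx p := by
  have h1 : bd (1 : EA V) = 0 := ctr_one_ChA2 _
  have h2 : bd (vx q) = 1 := by
    have := bd_vx_mul q (1 : EA V)
    rwa [h1, mul_one, mul_zero, sub_zero] at this
  rw [bd_vx_mul, h2, mul_one]

theorem exists_coc (φ : EA V →ₗ[ℚ] ℚ) (h : ∀ z ∈ Bd G A 2, φ z = 0) :
    ∃ a, Coc G A a ∧ ∀ z ∈ Ch G A 2, evE a z = φ z := by
  have hanti : ∀ p q : V, φ (vx q * vx p) = - φ (vx p * vx q) := fun p q => by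
    rw [vx_mul_vx_comm, map_neg]
  have key : ∀ z ∈ Ch G A 2, evE (fun p q => φ (vx p * vx q)) z = φ z := by
    intro z hz
    refine Ch_induction (p := fun z => evE (fun p q => φ (vx p * vx q)) z = φ z) ?_ ?_ ?_ ?_ hz
    · simp [evE_zero]
    · intro x y _ _ hx hy
      simp only [evE_add, map_add, hx, hy]
    · intro r x _ hx
      simp only [evE_smul, map_smul, hx, smul_eq_mul]
    · intro l hl _ _
      obtain ⟨p, q, rfl⟩ := List.length_eq_two.1 hl
      have : wedge [p, q] = vx p * vx q := by simp [wedge]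
      simp only [this, evE_vx_vx, hanti p q]
      ring
  refine ⟨fun p q => φ (vx p * vx q), coc_of_evE hanti fun z hz => ?_, key⟩
  rw [key z (mem_Zy.1 (Bd_le_Zy A 2 hz)).1, h z hz]

theorem mem_Bd_of_coc {z : EA V} (hz : z ∈ Ch G A 2) (h : ∀ a, Coc G A a → evE a z = 0) :
    z ∈ Bd G A 2 := by
  by_contra hn
  obtain ⟨φ, h1, h2⟩ := Submodule.exists_dual_map_eq_bot_of_notMem hn inferInstance
  have h3 : ∀ w ∈ Bd G A 2, φ w = 0 := fun w hw => by
    have : φ w ∈ (Bd G A 2).map φ := Submodule.mem_map_of_mem hw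
    rwa [h2, Submodule.mem_bot] at this
  obtain ⟨a, ha, hb⟩ := exists_coc φ h3
  exact h1 (by rw [← hb z hz, h a ha])

theorem exists_cob {a : V → V → ℚ} (ha : ∀ p ∈ A, ∀ q ∈ A, G.Adj p q → a q p = - a p q)
    (h : ∀ z ∈ Zy G A 2, evE a z = 0) :
    ∃ F : V → ℚ, ∀ p ∈ A, ∀ q ∈ A, G.Adj p q → a p q = F p - F q := by
  obtain ⟨φ, hφ⟩ := factor_UCT (bd ∘ₗ (Ch G A 2).subtype) (evL_UCT a ∘ₗ (Ch G A 2).subtype)
    fun w hw => h w.1 (mem_Zy.2 ⟨w.2, hw⟩)
  refine ⟨fun p => - φ (vx p), fun p hp q hq hpq => ?_⟩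
  have h1 : φ (bd (vx p * vx q)) = evE a (vx p * vx q) := hφ ⟨_, edge_mem_UCT hp hq hpq⟩
  rw [bd_edge_UCT, map_sub, evE_vx_vx, ha p hp q hq hpq] at h1
  linarith

/-- A cocycle that kills the kernel of a map onto in homology is a pull back. -/
theorem exists_coc_push {f : V' → V} (hf : IsHom G' A' G A f)
    (hs : ∀ z ∈ Zy G A 2, ∃ z' ∈ Zy G' A' 2, emap f z' - z ∈ Bd G A 2) {a : V' → V' → ℚ}
    (ha : Coc G' A' a) (hk : ∀ z ∈ Zy G' A' 2, emap f z ∈ Bd G A 2 → evE a z = 0) :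
    ∃ (b : V → V → ℚ) (F : V' → ℚ), Coc G A b ∧
      ∀ p ∈ A', ∀ q ∈ A', G'.Adj p q → a p q = b (f p) (f q) + (F p - F q) := by
  have _hs := hs
  obtain ⟨φ, hφ⟩ := factor_UCT
    (LinearMap.coprod (emap f ∘ₗ (Zy G' A' 2).subtype) (Bd G A 2).subtype)
    (evL_UCT a ∘ₗ (Zy G' A' 2).subtype ∘ₗ LinearMap.fst ℚ _ _) fun w hw => by
      refine hk w.1.1 w.1.2 ?_
      have h1 : emap f w.1.1 + w.2.1 = 0 := hw
      rw [eq_neg_of_add_eq_zero_left h1]
      exact neg_mem w.2.2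
  have h1 : ∀ z ∈ Bd G A 2, φ z = 0 := fun z hz => by
    have : φ (emap f 0 + z) = evE a 0 := hφ (0, ⟨z, hz⟩)
    simpa [evE_zero] using this
  have h2 : ∀ z ∈ Zy G' A' 2, φ (emap f z) = evE a z := fun z hz => by
    have : φ (emap f z + 0) = evE a z := hφ (⟨z, hz⟩, 0)
    simpa using this
  obtain ⟨b, hb, hbe⟩ := exists_coc φ h1
  obtain ⟨F, hF⟩ := exists_cob (ha.sub (hb.pull hf)).anti fun z hz => by
    rw [evE_sub_left, ← evE_emap b f, hbe _ (emap_mem_Ch hf (mem_Zy.1 hz).1), h2 z hz, sub_self]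
  refine ⟨b, F, hb, fun p hp q hq hpq => ?_⟩
  have := hF p hp q hq hpq
  linarith

end Pool.Agent.MP_6374aa_gt
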