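import Pool.Agent.MP_6374aa_gt.IfP
import Pool.Agent.MP_6374aa_gt.UCT
import Pool.Agent.MP_6374aa_gt.FrC
import Pool.Agent.MP_6374aa_gt.FrH

/-! Statements: duality and the phase invariant of equivariant complexes. -/

namespace Pool.Agent.MP_6374aa_gt

open Classical Matrix

noncomputable section

def PDsurjStmt : Prop :=
  ∀ (V : Type) (G : SimpleGraph V) (A S : Set V) (η : V → EA V), Eta G A η → S ⊆ A →
    ∀ y ∈ Zy G S 3, ∃ b, Coc G A b ∧ FS G A b ∧ (∀ p q, b p q ≠ 0 → p ∈ S ∨ q ∈ S) ∧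
      cap1 η b - y ∈ Bd G A 3

def PDinjStmt : Prop :=
  ∀ (V : Type) (G : SimpleGraph V) (A : Set V) (η : V → EA V) (a : V → V → ℚ) (W : EA V),
    Eta G A η → Coc G A a → FS G A a → W ∈ Ch G A 4 → cap1 η a = bd W →
    ∃ F : V → ℚ, {p | F p ≠ 0}.Finite ∧ (∀ p, p ∉ A → F p = 0) ∧
      (∀ p ∈ A, ∀ q ∈ A, G.Adj p q → a p q = F p - F q) ∧
      ∀ p ∈ A, (∀ q ∈ A, G.Adj p q → a p q = 0) → iv p W = (12 * F p) • η p

/-- Maps of nonzero degree. -/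
structure DegF {V V' : Type} (G : SimpleGraph V) (A : Set V) (G' : SimpleGraph V') (A' : Set V')
    (f : V' → V) (ζ' : EA V') : Prop where
  onto : ∀ z ∈ Zy G A 2, ∃ z' ∈ Zy G' A' 2, emap f z' - z ∈ Bd G A 2
  n1 : ∀ ν ∈ Zy G' A' 2, emap f ν ∈ Bd G A 2 →
    (∀ a, Coc G' A' a → emap f (cap1 (lc ζ') a) ∈ Bd G A 3 → evE a ν = 0) → ν ∈ Bd G' A' 2
  n2 : ∀ a, Coc G' A' a → emap f (cap1 (lc ζ') a) ∈ Bd G A 3 →
    (∀ ν ∈ Zy G' A' 2, emap f ν ∈ Bd G A 2 → evE a ν = 0) → cap1 (lc ζ') a ∈ Bd G' A' 3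

def DegStmt : Prop :=
  ∀ (V V' : Type) (G : SimpleGraph V) (A : Set V) (G' : SimpleGraph V') (A' : Set V')
    (f : V' → V) (ζ' : EA V'), IsHom G' A' G A f → Mf G A → Mf G' A' → ζ' ∈ Zy G' A' 4 →
    emap f ζ' ≠ 0 → DegF G A G' A' f ζ'

/-- Dual bases of the homology carried by the set `S`. -/
structure DualOn {V W : Type} [Fintype W] [DecidableEq W] (G : SimpleGraph V) (A S : Set V)
    (ζ : EA V) (ν y a : W → EA V) : Prop where
  h1 : ∀ j, ν j ∈ Zy G S 2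
  h2 : ∀ j, y j ∈ Zy G S 3
  ha : ∀ j, a j ∈ Ch G A 2
  coc : ∀ j, Coc G A (ef (a j))
  supp : ∀ j p q, ef (a j) p q ≠ 0 → p ∈ S ∨ q ∈ S
  cap : ∀ j, cap1 (lc ζ) (ef (a j)) - y j ∈ Bd G A 3
  pair : ∀ i j, evE (ef (a i)) (ν j) = if i = j then 1 else 0
  s1 : ∀ w ∈ Zy G S 2, ∃ μ : W → ℚ, w - ∑ j, μ j • ν j ∈ Bd G A 2
  s2 : ∀ w ∈ Zy G S 3, ∃ μ : W → ℚ, w - ∑ j, μ j • y j ∈ Bd G A 3

def FamUStmt : Prop :=
  ∀ (V V' : Type) (G : SimpleGraph V) (A : Set V) (G' : SimpleGraph V') (A' : Set V')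
    (c : V' → V) (ζ' : EA V'), Loc G' A' G A c → Mf G A → Mf G' A' → ζ' ∈ Zy G' A' 4 → ζ' ≠ 0 →
    ∀ u ∈ A, ∃ (n : ℕ) (ν y a : Fin n → EA V'), DualOn G' A' (A' ∩ c ⁻¹' {u}) ζ' ν y a

def FamDStmt : Prop :=
  ∀ (C : Type) [CommGroup C] [Fintype C] (V V' : Type) (G : SimpleGraph V) (A : Set V)
    (α : C →* Equiv.Perm V) (G' : SimpleGraph V') (A' : Set V') (α' : C →* Equiv.Perm V')
    (c : V' → V) (ζ' : EA V'), FreeAct G A α → Act G' A' α' → Eqv A' α' α c → Loc G' A' G A c →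
    Mf G A → Mf G' A' → TopC G' A' α' ζ' → ζ' ≠ 0 →
    ∃ (W : Type) (_ : Fintype W) (_ : DecidableEq W) (ν y a : W → EA V') (loc : W → V),
      DF G' A' α' ζ' G A c ν y a loc

def IdemEStmt : Prop :=
  ∀ (C : Type) [CommGroup C] [Fintype C] (V V' U W : Type) [Fintype W] [DecidableEq W]
    (G : SimpleGraph V) (A : Set V) (α : C →* Equiv.Perm V) (G' : SimpleGraph V') (A' : Set V')
    (α' : C →* Equiv.Perm V') (H : SimpleGraph U) (B : Set U) (γ : C →* Equiv.Perm U)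
    (f : V' → V) (c : V' → U) (ζ' : EA V') (ν y a : W → EA V') (loc : W → U),
    Act G A α → Act G' A' α' → IsHom G' A' G A f → Eqv A' α' α f → Eqv A' α' γ c → Mf G A →
    Mf G' A' → TopC G' A' α' ζ' → emap f ζ' ≠ 0 →
    (∀ n, n = 2 ∨ n = 3 → ∀ z ∈ Zy G' A' n, emap f z ∈ Bd G A n → emap c z ∈ Bd H B n) →
    DF G' A' α' ζ' H B c ν y a loc → ∃ e, IdE G' A' α' ζ' G A f c γ ν y a loc e

/-- The value does not depend on the frame. -/
def ValAny2Stmt : Prop :=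
  ∀ (C : Type) [CommGroup C] [Fintype C] (V : Type) (G : SimpleGraph V) (A : Set V)
    (α : C →* Equiv.Perm V) (ζ : EA V) (τ : RH C), Act G A α → TopC G A α ζ → ValZ G A α ζ τ →
    ∀ (F : Frame G A α) (D Γ : Matrix F.I F.I (RC C)), F.IsBd D → F.IsCap (lc ζ) Γ →
      ValM F.deg (D.map (evH C)) (Γ.map (evH C)) τ

def ValUniq2Stmt : Prop :=
  ∀ (C : Type) [CommGroup C] [Fintype C] [Nontrivial (RH C)] (V : Type) (G : SimpleGraph V)
    (A : Set V) (α : C →* Equiv.Perm V) (τ τ' : RH C), Act G A α → Mf G A → Val2 G A α τ →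
    Val2 G A α τ' → Sim τ τ'

def ValIsoStmt : Prop :=
  ∀ (C : Type) [CommGroup C] [Fintype C] (V V' : Type) (G : SimpleGraph V) (A : Set V)
    (α : C →* Equiv.Perm V) (G' : SimpleGraph V') (A' : Set V') (α' : C →* Equiv.Perm V')
    (f : V' → V), Act G A α → Act G' A' α' → A.Finite → IsIso G' A' G A f → Eqv A' α' α f →
    ∀ τ, Val2 G' A' α' τ ↔ Val2 G A α τ

def ValGaugeStmt : Prop :=
  ∀ (p : ℕ) [NeZero p] (V : Type) (G : SimpleGraph V) (A : Set V) (lab lab' : V → V → Cp p)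
    (k : V → Cp p), A.Finite → Flat G A lab →
    (∀ u ∈ A, ∀ w ∈ A, Adq G u w → lab' u w = k u * lab u w * (k w)⁻¹) →
    ∀ τ, ValC G A p lab' τ ↔ ValC G A p lab τ

/-- The compressed mapping cone has trivial phase. -/
def GeoCone2Stmt : Prop :=
  ∀ (C : Type) [CommGroup C] [Fintype C] [Nontrivial (RH C)] (V V' B W K : Type) [Fintype W]
    [DecidableEq W] [Fintype K] [DecidableEq K] (G : SimpleGraph V) (A : Set V)
    (α : C →* Equiv.Perm V) (G' : SimpleGraph V') (A' : Set V') (α' : C →* Equiv.Perm V')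
    (f : V' → V) (β : C →* Equiv.Perm B) (B0 : Set B) (St : ℕ → B → Set V) (pos : Finset V → B)
    (z1 z2 a : W → EA V') (pz : W → B) (w : W ⊕ W → EA V) (e : Matrix W W (RC C)) (ζ' : EA V')
    (F : Frame G A α) (F' : Frame G' A' α') (D : Matrix F.I F.I (RC C))
    (D' : Matrix F'.I F'.I (RC C)) (Φ : Matrix F.I F'.I (RC C)) (Wm : Matrix F.I (W ⊕ W) (RC C))
    (Z : Matrix F'.I (W ⊕ W) (RC C)) (X : Matrix W K (RH C)) (Y : Matrix K W (RH C)),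
    Act G A α → Act G' A' α' → Fin3 G A → Fin3 G' A' → IsHom G' A' G A f → Eqv A' α' α f →
    Geo2 G A α G' A' α' f β B0 St pos z1 z2 pz w e → KData G' A' α' ζ' z1 z2 a e →
    F.IsBd D → F'.IsBd D' → F.IsCo Φ (fun i => emap f (wedge (F'.s i))) → F.IsCo Wm w →
    F'.IsCo Z (Sum.elim z1 z2) → X * Y = e.map (evH C) → Y * X = 1 →
    IsCx (dcone F.deg F'.deg (d23 K)) (cone (D.map (evH C)) (Φ.map (evH C))
      (Wm.map (evH C) * fromBlocks X 0 0 Yᴴ) (D'.map (evH C))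
      (Z.map (evH C) * fromBlocks X 0 0 Yᴴ)) ∧
    ∃ u, InP u ∧ IsTor (dcone F.deg F'.deg (d23 K)) (cone (D.map (evH C)) (Φ.map (evH C))
      (Wm.map (evH C) * fromBlocks X 0 0 Yᴴ) (D'.map (evH C))
      (Z.map (evH C) * fromBlocks X 0 0 Yᴴ)) u

def GeoS2Stmt : Prop :=
  ∀ (C : Type) [CommGroup C] [Fintype C] [Nontrivial (RH C)] (V V' B W : Type) [Fintype W]
    [DecidableEq W] (G : SimpleGraph V) (A : Set V) (α : C →* Equiv.Perm V) (G' : SimpleGraph V')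
    (A' : Set V') (α' : C →* Equiv.Perm V') (f : V' → V) (β : C →* Equiv.Perm B) (B0 : Set B)
    (St : ℕ → B → Set V) (pos : Finset V → B) (z1 z2 a : W → EA V') (pz : W → B)
    (w : W ⊕ W → EA V) (e : Matrix W W (RC C)) (ζ' : EA V'),
    FreeAct G A α → FreeAct G' A' α' → Fin3 G A → Fin3 G' A' → IsHom G' A' G A f →
    Eqv A' α' α f → TopC G' A' α' ζ' → Geo2 G A α G' A' α' f β B0 St pos z1 z2 pz w e →
    KData G' A' α' ζ' z1 z2 a e → ∀ τ, ValZ G' A' α' ζ' τ ↔ ValZ G A α (emap f ζ') τ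

/-- Collapses preserve the value. -/
def Fl2Stmt : Prop :=
  ∀ (C : Type) [CommGroup C] [Fintype C] [Nontrivial (RH C)] (V V' : Type) (G : SimpleGraph V)
    (A : Set V) (α : C →* Equiv.Perm V) (G' : SimpleGraph V') (A' : Set V')
    (α' : C →* Equiv.Perm V') (c : V' → V), FreeAct G A α → FreeAct G' A' α' → Eqv A' α' α c →
    Loc G' A' G A c → Fin3 G A → Fin3 G' A' → PConn G' A' →
    ((Mf G A ∧ Mf G' A') ∨ HInj G' A' G A c) → ∀ τ, Val2 G' A' α' τ ↔ Val2 G A α τ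

/-- The control data on levels seven and six. -/
def CtGeo2Stmt : Prop :=
  ∀ (C : Type) [CommGroup C] [Fintype C] [IsCyclic C] (L : ℕ → Lev C)
    (φ : ∀ i, (L (i + 1)).V → (L i).V) (c : ∀ i, (L (i + 2)).V → (L i).V) (W : Type) [Fintype W]
    [DecidableEq W] (ζ : EA (L 7).V) (ν y a : W → EA (L 7).V) (loc : W → (L 5).V)
    (e : Matrix W W (RC C)), IsSys T0 L φ c → (∀ i, Fin3 (L i).G (L i).A) →
    PConn (L 7).G (L 7).A → (∀ i, Loc (L (i + 2)).G (L (i + 2)).A (L i).G (L i).A (c i)) →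
    DF (L 7).G (L 7).A (L 7).α ζ (L 5).G (L 5).A (c 5) ν y a loc →
    IdE (L 7).G (L 7).A (L 7).α ζ (L 6).G (L 6).A (φ 6) (c 5) (L 5).α ν y a loc e →
    ∃ (pos : Finset (L 6).V → (L 1).V) (pz : W → (L 1).V) (w : W ⊕ W → EA (L 6).V)
      (B0 : Set (L 1).V), Geo2 (L 6).G (L 6).A (L 6).α (L 7).G (L 7).A (L 7).α (φ 6) (L 1).α B0
        (St6 L φ) pos (cmb (L 7).α ν e) (cmb (L 7).α y eᴴ) pz w e

def Sys2Stmt : Prop :=
  ∀ (C : Type) [CommGroup C] [Fintype C] [IsCyclic C] [Nontrivial (RH C)] (L : ℕ → Lev C)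
    (φ : ∀ i, (L (i + 1)).V → (L i).V) (c : ∀ i, (L (i + 2)).V → (L i).V), IsSys T0 L φ c →
    (∀ i, Fin3 (L i).G (L i).A) → (∀ i, PConn (L i).G (L i).A) →
    (∀ i, Loc (L (i + 2)).G (L (i + 2)).A (L i).G (L i).A (c i)) →
    ((∀ i, Mf (L i).G (L i).A) ∨
      ∀ i, HInj (L (i + 2)).G (L (i + 2)).A (L i).G (L i).A (c i)) →
    ∀ τ, Val2 (L 1).G (L 1).A (L 1).α τ ↔ Val2 (L 0).G (L 0).A (L 0).α τ

/-- The system of covers. -/
def CovSys2Stmt : Prop :=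
  ∀ (C Λ : Type) [CommGroup C] [Group Λ] [Finite Λ] (L : ℕ → Lev C1)
    (φ : ∀ i, (L (i + 1)).V → (L i).V) (c : ∀ i, (L (i + 2)).V → (L i).V)
    (lab : (L 0).V → (L 0).V → Λ) (ψ : C →* Λ), IsSys T0 L φ c → Flat (L 0).G (L 0).A lab →
    (∀ i, Fin3 (L i).G (L i).A) → ∀ i,
    (CovL (L (i + 2)).G (L (i + 2)).A (L i).G (L i).A (c i) →
      Loc (covL L φ lab ψ (i + 2)).G (covL L φ lab ψ (i + 2)).A (covL L φ lab ψ i).G
        (covL L φ lab ψ i).A (covc L φ c lab ψ i) ∧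
      (PConn (covL L φ lab ψ i).G (covL L φ lab ψ i).A →
        PConn (covL L φ lab ψ (i + 2)).G (covL L φ lab ψ (i + 2)).A)) ∧
    (CovI (L (i + 2)).G (L (i + 2)).A (L i).G (L i).A (c i) →
      HInj (covL L φ lab ψ (i + 2)).G (covL L φ lab ψ (i + 2)).A (covL L φ lab ψ i).G
        (covL L φ lab ψ i).A (covc L φ c lab ψ i))

def SysCovStmt : Prop :=
  ∀ (L : ℕ → Lev C1) (φ : ∀ i, (L (i + 1)).V → (L i).V) (c : ∀ i, (L (i + 2)).V → (L i).V)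
    (p : ℕ) [NeZero p] (lab : (L 0).V → (L 0).V → Cp p), IsSys T0 L φ c →
    (∀ i, Fin3 (L i).G (L i).A) → (∀ i, CovL (L (i + 2)).G (L (i + 2)).A (L i).G (L i).A (c i)) →
    ((∀ i, Mf (L i).G (L i).A) ∨
      ∀ i, CovI (L (i + 2)).G (L (i + 2)).A (L i).G (L i).A (c i)) →
    5 ≤ p → Flat (L 0).G (L 0).A lab → PConn (cov (L 0).G lab (Cp p)) (up (L 0).A (Cp p)) →
    PConn (cov (L 1).G (fun u w => lab (φ 0 u) (φ 0 w)) (Cp p)) (up (L 1).A (Cp p)) →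
    ∀ τ, ValC (L 1).G (L 1).A p (fun u w => lab (φ 0 u) (φ 0 w)) τ ↔ ValC (L 0).G (L 0).A p lab τ

/-- The old value gives the new value on a rational homology sphere. -/
def ValV1Stmt : Prop :=
  ∀ (p : ℕ) [NeZero p] (V : Type) (G : SimpleGraph V) (A : Set V) (α : Cp p →* Equiv.Perm V)
    (a b : (ZMod p)ˣ) (ζ : EA V), Act G A α → A.Finite →
    (∀ n, n = 2 ∨ n = 3 → Zy G A n ≤ Bd G A n) → TopC G A α ζ → ζ ≠ 0 →
    Val G A α (lens p a b) → Val2 G A α (lensH p a b)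

def ClQSStmt : Prop :=
  ∀ (V V' : Type) (G : SimpleGraph V) (A : Set V) (G' : SimpleGraph V') (A' : Set V')
    (c : V' → V), CL G' A' G A c → Fin3 G' A' → QS G' A' G A c

def QSCompStmt : Prop :=
  ∀ (V V' V'' : Type) (G : SimpleGraph V) (A : Set V) (G' : SimpleGraph V') (A' : Set V')
    (G'' : SimpleGraph V'') (A'' : Set V'') (c : V' → V) (c' : V'' → V'),
    (CovL G' A' G A c → CovL G'' A'' G' A' c' → CovL G'' A'' G A (c ∘ c')) ∧
    (QS G' A' G A c → QS G'' A'' G' A' c' → QS G'' A'' G A (c ∘ c'))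

def QsCovVStmt : Prop :=
  ∀ (V V' : Type) (G : SimpleGraph V) (A : Set V) (G' : SimpleGraph V') (A' : Set V')
    (c : V' → V), QS G' A' G A c → Fin3 G A → CovV G' A' G A c

def GraftCovLStmt : Prop :=
  ∀ (V : Type) (G : SimpleGraph V) (A M B : Set V) (v : V), Graft G A M B v → Fin3 G A →
    Mf G M → CovL G B G A (col A v)

/-- The value of a cyclic cover in explicit coordinates. -/
def CovFrameStmt : Prop :=
  ∀ (p : ℕ) [NeZero p] (V I : Type) [Fintype I] [DecidableEq I] (G : SimpleGraph V) (A : Set V)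
    (v0 : V) (lab : V → V → Cp p) (σ : I → Finset V) (ζ : EA V), Mf G A → Flat G A lab →
    Enum σ (sdA G A) → ζ ∈ Zy G A 4 → ζ ≠ 0 →
    CapM (dgc σ) ((tw v0 lab bD σ σ).map (evH (Cp p)))
      ((tw v0 lab (bG (lc ζ)) σ σ).map (evH (Cp p))) ∧
    ∀ τ, ValC G A p lab τ ↔ ValM (dgc σ) ((tw v0 lab bD σ σ).map (evH (Cp p)))
      ((tw v0 lab (bG (lc ζ)) σ σ).map (evH (Cp p))) τ

end

end Pool.Agent.MP_6374aa_gt
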