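import Pool.Agent.MP_6374aa_gt.IfA
import Pool.Agent.MP_6374aa_gt.IfC
import Pool.Agent.MP_6374aa_gt.FrA

/-! Statements: the torsion invariant of equivariant complexes. -/

namespace Pool.Agent.MP_6374aa_gt

open Classical

noncomputable section

/-- The value does not depend on the frame and the admissible family. -/
def ValAnyStmt : Prop :=
  ∀ (C : Type) [CommGroup C] [Fintype C] (V : Type) (G : SimpleGraph V) (A : Set V)
    (α : C →* Equiv.Perm V) (P : Pack G A) (τ : RQ C), FreeAct G A α → Fr P α → Val G A α τ →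
    ∀ (F : Frame G A α) (D : Matrix F.I F.I (RC C)) (J : Type) [Fintype J] [DecidableEq J]
      (z : J → EA V) (dz : J → ℕ) (Z : Matrix F.I J (RC C)),
      F.IsBd D → Adm G A α z dz → F.IsCo Z z → ValF F D Z dz τ

/-- Positions of admissible cycles. -/
def AdmPosStmt : Prop :=
  ∀ (C : Type) [CommGroup C] [Fintype C] (V : Type) (G : SimpleGraph V) (A : Set V)
    (α : C →* Equiv.Perm V) (P : Pack G A), Act G A α → Fr P α →
    ∃ (B : Type) (β : C →* Equiv.Perm B) (B0 : Set B), (∀ g, ∀ b ∈ B0, β g b = b → g = 1) ∧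
      ∀ (J J' : Type) [Fintype J] [Fintype J'] (z : J → EA V) (dz : J → ℕ) (z' : J' → EA V)
        (dz' : J' → ℕ), Adm G A α z dz → Adm G A α z' dz' → ∃ (p : J → B) (p' : J' → B),
        (∀ j, p j ∈ B0) ∧ (∀ j, p' j ∈ B0) ∧
        (∀ j' (μ : J → RC C), (∀ j, dz j ≠ dz' j' → μ j = 0) →
          z' j' - ∑ j, act α (μ j) (z j) ∈ Bd G A (dz' j') →
          ∀ j g, (μ j).coeff g ≠ 0 → β g (p j) = p' j') ∧
        ∀ j (μ : J' → RC C), (∀ j', dz' j' ≠ dz j → μ j' = 0) →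
          z j - ∑ j', act α (μ j') (z' j') ∈ Bd G A (dz j) →
          ∀ j' g, (μ j').coeff g ≠ 0 → β g (p' j') = p j

def ValUniqStmt : Prop :=
  ∀ (C : Type) [CommGroup C] [Fintype C] (V : Type) (G : SimpleGraph V) (A : Set V)
    (α : C →* Equiv.Perm V) (P : Pack G A) (τ τ' : RQ C), FreeAct G A α → Fr P α →
    Val G A α τ → Val G A α τ' → ∃ u, InU u ∧ τ = qq C u * τ'

/-- Existence of admissible families adapted to the sites. -/
def FamStmt : Prop :=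
  ∀ (C : Type) [CommGroup C] [Fintype C] (V : Type) (G : SimpleGraph V) (A : Set V)
    (α : C →* Equiv.Perm V) (P : Pack G A) (N : P.X → ℕ → Submodule ℚ (EA V)),
    Act G A α → Fr P α → (∀ x n, n = 2 ∨ n = 3 → P.I x n ≤ N x n ⊔ Bd G A n) →
    ∃ (J : Type) (_ : Fintype J) (_ : DecidableEq J) (z : J → EA V) (dz : J → ℕ)
      (site : J → P.X), Adm G A α z dz ∧ ∀ j, z j ∈ P.I (site j) (dz j) ∧ z j ∈ N (site j) (dz j)

/-- Families adapted to a map. -/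
structure Adapt {C : Type} [CommGroup C] [Fintype C] {V V' : Type} (G : SimpleGraph V) (A : Set V)
    (α : C →* Equiv.Perm V) (G' : SimpleGraph V') (A' : Set V') (α' : C →* Equiv.Perm V')
    (f : V' → V) {J1 J2 : Type} [Fintype J1] [Fintype J2] (z : J1 → EA V') (dz : J1 → ℕ)
    (y : J2 → EA V') (dy : J2 → ℕ) : Prop where
  src : Adm G' A' α' (Sum.elim z y) (Sum.elim dz dy)
  tgt : Adm G A α (fun j => emap f (y j)) dy
  kill : ∀ j, emap f (z j) ∈ Bd G A (dz j)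
  ker : ∀ n, n = 2 ∨ n = 3 → ∀ w ∈ Zy G' A' n, emap f w ∈ Bd G A n →
    ∃ μ : J1 → RC C, (∀ j, dz j ≠ n → μ j = 0) ∧ w - ∑ j, act α' (μ j) (z j) ∈ Bd G' A' n

def AdmStmt : Prop :=
  ∀ (C : Type) [CommGroup C] [Fintype C] (V V' U : Type) (G : SimpleGraph V) (A : Set V)
    (α : C →* Equiv.Perm V) (G' : SimpleGraph V') (A' : Set V') (α' : C →* Equiv.Perm V')
    (P : Pack G A) (P' : Pack G' A') (f : V' → V) (b : P.X → P'.X) (π : V' → U) (U0 : Set U),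
    Act G A α → Act G' A' α' → Eqv A' α' α f → Fr P' α' → Dich f P' P b →
    (∀ n, n = 2 ∨ n = 3 → ∀ x', x' ∉ Set.range b →
      ∃ u ∈ U0, P'.I x' n ≤ Zy G' (A' ∩ π ⁻¹' {u}) n ⊔ Bd G' A' n) →
    ∃ (J1 J2 : Type) (_ : Fintype J1) (_ : DecidableEq J1) (_ : Fintype J2) (_ : DecidableEq J2)
      (z : J1 → EA V') (dz : J1 → ℕ) (y : J2 → EA V') (dy : J2 → ℕ) (loc : J1 → U),
      Adapt G A α G' A' α' f z dz y dy ∧
      ∀ j, loc j ∈ U0 ∧ z j ∈ Zy G' (A' ∩ π ⁻¹' {loc j}) (dz j)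

/-- Local injectivity modulo the located cycles. -/
def La2Stmt : Prop :=
  ∀ (C : Type) [CommGroup C] [Fintype C] (V' U J : Type) [Fintype J] (G' : SimpleGraph V')
    (A' : Set V') (α' : C →* Equiv.Perm V') (H : SimpleGraph U) (B : Set U)
    (γ : C →* Equiv.Perm U) (c : V' → U) (z : J → EA V') (dz : J → ℕ) (loc : J → U),
    Act G' A' α' → Act H B γ → Eqv A' α' γ c → Loc G' A' H B c → Fin3 G' A' → Fin3 H B →
    PConn G' A' → (∀ j, loc j ∈ B ∧ z j ∈ Zy G' (A' ∩ c ⁻¹' {loc j}) (dz j)) →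
    (∀ n (μ : J → RC C), (∀ j, dz j ≠ n → μ j = 0) → ∑ j, act α' (μ j) (z j) ∈ Bd G' A' n →
      ∀ j, μ j = 0) →
    ∀ n, ∀ S ⊆ B, ∀ a ∈ Zy G' (A' ∩ c ⁻¹' S) n, emap c a ∈ Bd H S n →
      ((n = 2 ∨ n = 3) → ∃ μ : J → RC C, (∀ j, dz j ≠ n → μ j = 0) ∧
        a - ∑ j, act α' (μ j) (z j) ∈ Bd G' A' n) →
      ∃ μ : J → RC C, (∀ j, dz j ≠ n → μ j = 0) ∧
        (∀ j g, (μ j).coeff g ≠ 0 → γ g (loc j) ∈ S) ∧
        a - ∑ j, act α' (μ j) (z j) ∈ Bd G' (A' ∩ c ⁻¹' S) n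

/-- Control data and local acyclicity of the mapping cone. -/
structure Geo {C : Type} [CommGroup C] [Fintype C] {V V' B : Type} (G : SimpleGraph V)
    (A : Set V) (α : C →* Equiv.Perm V) (G' : SimpleGraph V') (A' : Set V')
    (α' : C →* Equiv.Perm V') (f : V' → V) (β : C →* Equiv.Perm B) (B0 : Set B)
    (St : ℕ → B → Set V) (pos : Finset V → B) {J : Type} [Fintype J] (z : J → EA V')
    (dz : J → ℕ) (pz : J → B) (w : J → EA V) : Prop where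
  inv : ∀ g, ∀ b ∈ B0, β g b ∈ B0
  eqv : ∀ k b g v, v ∈ St k b → α g v ∈ St k (β g b)
  mono : ∀ k b, St k b ⊆ St (k + 1) b
  sub : ∀ k b, St k b ⊆ A
  hpos : ∀ σ : Finset V, σ.Nonempty → ↑σ ⊆ A → G.IsClique (σ : Set V) →
    pos σ ∈ B0 ∧ ↑σ ⊆ St 0 (pos σ) ∧
      ∀ k, ∀ b ∈ B0, ↑σ ⊆ St k b → St 0 (pos σ) ⊆ St (k + 1) b
  trans : ∀ k, ∀ a ∈ B0, ∀ b ∈ B0, St 0 a ⊆ St k b → St k a ⊆ St (k + 1) b
  hz : ∀ j, pz j ∈ B0 ∧ z j ∈ Ch G' (A' ∩ f ⁻¹' St 0 (pz j)) (dz j) ∧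
    w j ∈ Ch G (St 0 (pz j)) (dz j + 1) ∧ bd (w j) = emap f (z j)
  la0 : ∀ k, ∀ b ∈ B0, ∀ v ∈ St k b, ∃ v' ∈ A', f v' ∈ St (k + 1) b ∧ Adq G v (f v')
  la1 : ∀ k n, ∀ b ∈ B0, ∀ x ∈ Zy G (St k b) n,
    ∃ a ∈ Zy G' (A' ∩ f ⁻¹' St (k + 1) b) n, emap f a - x ∈ Bd G (St (k + 1) b) n
  la2 : ∀ k n, ∀ b ∈ B0, ∀ a ∈ Zy G' (A' ∩ f ⁻¹' St k b) n, emap f a ∈ Bd G (St k b) n →
    ∃ μ : J → RC C, (∀ j, dz j ≠ n → μ j = 0) ∧
      (∀ j g, (μ j).coeff g ≠ 0 → St 0 (β g (pz j)) ⊆ St (k + 1) b) ∧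
      a - ∑ j, act α' (μ j) (z j) ∈ Bd G' (A' ∩ f ⁻¹' St (k + 1) b) n
  van : Vanish β B0 fun a b => St 0 a ⊆ St 100 b

/-- The mapping cone has trivial torsion. -/
def GeoConeStmt : Prop :=
  ∀ (C : Type) [CommGroup C] [Fintype C] (V V' B : Type) (G : SimpleGraph V) (A : Set V)
    (α : C →* Equiv.Perm V) (G' : SimpleGraph V') (A' : Set V') (α' : C →* Equiv.Perm V')
    (f : V' → V) (β : C →* Equiv.Perm B) (B0 : Set B) (St : ℕ → B → Set V) (pos : Finset V → B)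
    (J : Type) [Fintype J] [DecidableEq J] (z : J → EA V') (dz : J → ℕ) (pz : J → B)
    (w : J → EA V) (F : Frame G A α) (F' : Frame G' A' α') (D : Matrix F.I F.I (RC C))
    (D' : Matrix F'.I F'.I (RC C)) (Φ : Matrix F.I F'.I (RC C)) (Wm : Matrix F.I J (RC C))
    (Z : Matrix F'.I J (RC C)),
    Act G A α → Act G' A' α' → Fin3 G A → Fin3 G' A' → IsHom G' A' G A f → Eqv A' α' α f →
    Geo G A α G' A' α' f β B0 St pos z dz pz w → (∀ j, dz j = 2 ∨ dz j = 3) →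
    (∀ j, bd (z j) = 0) →
    (∀ n (μ : J → RC C), (∀ j, dz j ≠ n → μ j = 0) → ∑ j, act α' (μ j) (z j) ∈ Bd G' A' n →
      ∀ j, μ j = 0) →
    F.IsBd D → F'.IsBd D' → F.IsCo Φ (fun i => emap f (wedge (F'.s i))) → F.IsCo Wm w →
    F'.IsCo Z z →
    IsCx (Sum.elim F.deg (Sum.elim (fun i => F'.deg i + 1) fun j => dz j + 1))
      (Matrix.fromBlocks D (Matrix.fromCols Φ Wm) 0 (-Matrix.fromBlocks D' Z 0 0)) ∧
    ∃ u, InU u ∧ IsTor (Sum.elim F.deg (Sum.elim (fun i => F'.deg i + 1) fun j => dz j + 1))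
      (Matrix.fromBlocks D (Matrix.fromCols Φ Wm) 0 (-Matrix.fromBlocks D' Z 0 0)) u

def GeoStmt : Prop :=
  ∀ (C : Type) [CommGroup C] [Fintype C] (V V' B : Type) (G : SimpleGraph V) (A : Set V)
    (α : C →* Equiv.Perm V) (G' : SimpleGraph V') (A' : Set V') (α' : C →* Equiv.Perm V')
    (f : V' → V) (β : C →* Equiv.Perm B) (B0 : Set B) (St : ℕ → B → Set V) (pos : Finset V → B)
    (J1 J2 : Type) [Fintype J1] [DecidableEq J1] [Fintype J2] [DecidableEq J2]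
    (z : J1 → EA V') (dz : J1 → ℕ) (y : J2 → EA V') (dy : J2 → ℕ) (pz : J1 → B)
    (w : J1 → EA V) (P : Pack G A) (P' : Pack G' A'),
    FreeAct G A α → FreeAct G' A' α' → Fr P α → Fr P' α' → IsHom G' A' G A f → Eqv A' α' α f →
    Geo G A α G' A' α' f β B0 St pos z dz pz w → Adapt G A α G' A' α' f z dz y dy →
    ∀ τ, Val G' A' α' τ ↔ Val G A α τ

def FrExtStmt : Prop :=
  ∀ (C : Type) [CommGroup C] [Fintype C] (V V' : Type) (G : SimpleGraph V) (A : Set V)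
    (α : C →* Equiv.Perm V) (G' : SimpleGraph V') (A' : Set V') (α' : C →* Equiv.Perm V')
    (c : V' → V) (P : Pack G A) (P' : Pack G' A') (j : P.X → P'.X),
    FreeAct G A α → Act G' A' α' → Eqv A' α' α c → Ext c P' P j → Fr P α → Fr P' α'

def FrSeStmt : Prop :=
  ∀ (C : Type) [CommGroup C] [Fintype C] (V V' : Type) (G : SimpleGraph V) (A : Set V)
    (α : C →* Equiv.Perm V) (G' : SimpleGraph V') (A' : Set V') (α' : C →* Equiv.Perm V')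
    (f : V' → V) (P : Pack G A) (P' : Pack G' A') (b : P.X → P'.X),
    Act G A α → Act G' A' α' → Eqv A' α' α f → SE G' A' G A f →
    (∀ x, MatchAt f P' (b x) P x) → Fr P' α' → Fr P α

/-- Collapses preserve the value. -/
def FlStmt : Prop :=
  ∀ (C : Type) [CommGroup C] [Fintype C] (V V' : Type) (G : SimpleGraph V) (A : Set V)
    (α : C →* Equiv.Perm V) (G' : SimpleGraph V') (A' : Set V') (α' : C →* Equiv.Perm V')
    (c : V' → V) (P : Pack G A) (P' : Pack G' A') (j : P.X → P'.X),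
    FreeAct G A α → FreeAct G' A' α' → Eqv A' α' α c → Ext c P' P j → Fr P α →
    Fr P' α' ∧ ∀ τ, Val G' A' α' τ ↔ Val G A α τ

/-- The radii used in the controlled comparison. -/
def rad (k : ℕ) : ℕ := 10 * 3 ^ k

/-- The control sets on level six. -/
def St6 {C : Type} [CommGroup C] (L : ℕ → Lev C) (φ : ∀ i, (L (i + 1)).V → (L i).V) (k : ℕ)
    (b : (L 1).V) : Set (L 6).V :=
  {v | v ∈ (L 6).A ∧ Near (L 1).G (L 1).A (rad k) (φ 1 (φ 2 (φ 3 (φ 4 (φ 5 v))))) b}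

/-- The control data on levels seven and six. -/
def CtGeoStmt : Prop :=
  ∀ (C : Type) [CommGroup C] [Fintype C] [IsCyclic C] (L : ℕ → Lev C)
    (φ : ∀ i, (L (i + 1)).V → (L i).V) (c : ∀ i, (L (i + 2)).V → (L i).V)
    (J1 J2 : Type) [Fintype J1] [Fintype J2] (z : J1 → EA (L 7).V) (dz : J1 → ℕ)
    (y : J2 → EA (L 7).V) (dy : J2 → ℕ) (loc : J1 → (L 5).V),
    IsSys T0 L φ c → (∀ i, Fin3 (L i).G (L i).A) → PConn (L 7).G (L 7).A →
    (∀ i, Loc (L (i + 2)).G (L (i + 2)).A (L i).G (L i).A (c i)) →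
    Adapt (L 6).G (L 6).A (L 6).α (L 7).G (L 7).A (L 7).α (φ 6) z dz y dy →
    (∀ j, loc j ∈ (L 5).A ∧ z j ∈ Zy (L 7).G ((L 7).A ∩ c 5 ⁻¹' {loc j}) (dz j)) →
    ∃ (pos : Finset (L 6).V → (L 1).V) (pz : J1 → (L 1).V) (w : J1 → EA (L 6).V)
      (B0 : Set (L 1).V), Geo (L 6).G (L 6).A (L 6).α (L 7).G (L 7).A (L 7).α (φ 6) (L 1).α B0
        (St6 L φ) pos z dz pz w

def SysStmt : Prop :=
  ∀ (C : Type) [CommGroup C] [Fintype C] [IsCyclic C] (L : ℕ → Lev C)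
    (φ : ∀ i, (L (i + 1)).V → (L i).V) (c : ∀ i, (L (i + 2)).V → (L i).V)
    (P0 : Pack (L 0).G (L 0).A) (P1 : Pack (L 1).G (L 1).A), IsSys T0 L φ c →
    (∀ i, ExtQ (L (i + 2)).G (L (i + 2)).A (L i).G (L i).A (c i)) → Fr P0 (L 0).α →
    Fr P1 (L 1).α → ∀ τ, Val (L 1).G (L 1).A (L 1).α τ ↔ Val (L 0).G (L 0).A (L 0).α τ

/-- Transfer of packs and values from level one to level zero. -/
def TopStmt : Prop :=
  ∀ (C : Type) [CommGroup C] [Fintype C] [IsCyclic C] (L : ℕ → Lev C)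
    (φ : ∀ i, (L (i + 1)).V → (L i).V) (c : ∀ i, (L (i + 2)).V → (L i).V)
    (P1 : Pack (L 1).G (L 1).A), IsSys T0 L φ c → Fin3 (L 0).G (L 0).A →
    (∀ i, Q0 (L (i + 2)).G (L (i + 2)).A (L i).G (L i).A (c i)) → Fr P1 (L 1).α →
    ∃ (P0 : Pack (L 0).G (L 0).A) (b : P0.X ≃ P1.X), (∀ x, MatchAt (φ 0) P1 (b x) P0 x) ∧
      Fr P0 (L 0).α ∧ ∀ τ, Val (L 1).G (L 1).A (L 1).α τ ↔ Val (L 0).G (L 0).A (L 0).α τ

section cov

variable {C Λ : Type} [CommGroup C] [Group Λ] (L : ℕ → Lev C1)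
  (φ : ∀ i, (L (i + 1)).V → (L i).V) (c : ∀ i, (L (i + 2)).V → (L i).V)
  (lab : (L 0).V → (L 0).V → Λ) (ψ : C →* Λ)

/-- Pulled back labellings. -/
def labS : ∀ i, (L i).V → (L i).V → Λ
  | 0 => lab
  | i + 1 => fun u w => labS i (φ i u) (φ i w)

def covL (i : ℕ) : Lev C :=
  ⟨(L i).V × Λ, cov (L i).G (labS L φ lab i) Λ, up (L i).A Λ, deck (L i).V ψ⟩

def covφ (i : ℕ) : (covL L φ lab ψ (i + 1)).V → (covL L φ lab ψ i).V := lift1 (φ i) Λ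

def covc (i : ℕ) : (covL L φ lab ψ (i + 2)).V → (covL L φ lab ψ i).V := fun p =>
  (c i p.1, labS L φ lab i (c i p.1) (φ i (φ (i + 1) p.1)) * p.2)

end cov

/-- The system of covers. -/
def CovSysStmt : Prop :=
  ∀ (C Λ : Type) [CommGroup C] [Fintype C] [Group Λ] [Finite Λ] (L : ℕ → Lev C1)
    (φ : ∀ i, (L (i + 1)).V → (L i).V) (c : ∀ i, (L (i + 2)).V → (L i).V)
    (lab : (L 0).V → (L 0).V → Λ) (ψ : C →* Λ), IsSys T0 L φ c → Flat (L 0).G (L 0).A lab →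
    Function.Injective ψ → (∀ i, Fin3 (L i).G (L i).A) →
    IsSys T0 (covL L φ lab ψ) (covφ L φ lab ψ) (covc L φ c lab ψ) ∧
    (∀ i, CovQ (L (i + 2)).G (L (i + 2)).A (L i).G (L i).A (c i) →
      ExtQ (covL L φ lab ψ (i + 2)).G (covL L φ lab ψ (i + 2)).A (covL L φ lab ψ i).G
        (covL L φ lab ψ i).A (covc L φ c lab ψ i)) ∧
    ∀ i, Q1 (L (i + 2)).G (L (i + 2)).A (L i).G (L i).A (c i) →
      Q0 (covL L φ lab ψ (i + 2)).G (covL L φ lab ψ (i + 2)).A (covL L φ lab ψ i).G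
        (covL L φ lab ψ i).A (covc L φ c lab ψ i)

def SiteExtStmt : Prop :=
  ∀ (V V' : Type) (G : SimpleGraph V) (A : Set V) (G' : SimpleGraph V') (A' : Set V')
    (c : V' → V) (P : Pack G A) (P' : Pack G' A') (j : P.X → P'.X) (x : P.X) (Λ : Type)
    [Group Λ] (χ : Λ → ℝ), Ext c P' P j → CovQ G' A' G A c → ClassFn χ → SiteOf P x Λ χ →
    SiteOf P' (j x) Λ χ

/-- Transfer of types from level one to level zero of a system of equivalences. -/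
def SiteTopStmt : Prop :=
  ∀ (L : ℕ → Lev C1) (φ : ∀ i, (L (i + 1)).V → (L i).V) (c : ∀ i, (L (i + 2)).V → (L i).V)
    (P1 : Pack (L 1).G (L 1).A), IsSys T0 L φ c → (∀ i, Fin3 (L i).G (L i).A) →
    (∀ i, Q1 (L (i + 2)).G (L (i + 2)).A (L i).G (L i).A (c i)) →
    ∃ (P0 : Pack (L 0).G (L 0).A) (b : P0.X ≃ P1.X), ∀ (x : P0.X) (Λ : Type) [Group Λ]
      (χ : Λ → ℝ), ClassFn χ → SiteOf P1 (b x) Λ χ → SiteOf P0 x Λ χ

/-- Matched typed sites have the same traces. -/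
def CompareStmt : Prop :=
  ∀ (L : ℕ → Lev C1) (φ : ∀ i, (L (i + 1)).V → (L i).V) (c : ∀ i, (L (i + 2)).V → (L i).V)
    (P0 : Pack (L 0).G (L 0).A) (P1 : Pack (L 1).G (L 1).A), IsSys T0 L φ c →
    (∀ i, ExtQ (L (i + 2)).G (L (i + 2)).A (L i).G (L i).A (c i)) →
    (∀ i, CovQ (L (i + 2)).G (L (i + 2)).A (L i).G (L i).A (c i)) →
    ∀ x0 : P0.X, ∃ x1 : P1.X, ∀ (Λ0 Λ1 : Type) [Group Λ0] [Group Λ1] (χ0 : Λ0 → ℝ)
      (χ1 : Λ1 → ℝ), SiteOf P0 x0 Λ0 χ0 → SiteOf P1 x1 Λ1 χ1 →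
      ∃ ω : Λ1 ≃* Λ0, Finite Λ0 → ∀ g, 5 ≤ orderOf g → χ0 (ω g) = χ1 g

/-! ### The join of two polygons -/

def JG (p : ℕ) : SimpleGraph (ZMod p ⊕ ZMod p) :=
  SimpleGraph.fromRel fun x y => match x, y with
    | Sum.inl i, Sum.inl j => j = i + 1
    | Sum.inr i, Sum.inr j => j = i + 1
    | Sum.inl _, Sum.inr _ => True
    | Sum.inr _, Sum.inl _ => True

def Jα (p : ℕ) (a b : (ZMod p)ˣ) : Cp p →* Equiv.Perm (ZMod p ⊕ ZMod p) where
  toFun g := Equiv.sumCongr (Equiv.addRight ((a : ZMod p) * g.toAdd))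
    (Equiv.addRight ((b : ZMod p) * g.toAdd))
  map_one' := by ext x; cases x <;> simp
  map_mul' g h := by ext x; cases x <;> simp [mul_add, add_assoc, add_comm]

def JPackStmt : Prop :=
  ∀ (p : ℕ) [NeZero p], 5 ≤ p → Fin3 (JG p) Set.univ ∧ SConn (JG p) Set.univ ∧
    (∀ n, n = 2 ∨ n = 3 → Zy (JG p) Set.univ n ≤ Bd (JG p) Set.univ n) ∧
    ∀ a b : (ZMod p)ˣ, FreeAct (JG p) Set.univ (Jα p a b)

def JValStmt : Prop :=
  ∀ (p : ℕ) [NeZero p], 5 ≤ p → ∀ a b : (ZMod p)ˣ, Val (JG p) Set.univ (Jα p a b) (lens p a b)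

end

end Pool.Agent.MP_6374aa_gt
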