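import Pool.Agent.MP_6374aa_gt.IfT

/-! The torsion of the join of two polygons: algebra of the explicit matrices. -/

namespace Pool.Agent.MP_6374aa_gt

open Matrix

/-- Faces of the polygon: the empty face, vertices, edges. -/
abbrev T_JVal (p : ℕ) : Type := Unit ⊕ (ZMod p ⊕ ZMod p)

variable {p : ℕ}

/-- Rotation of the polygon. -/
def sh_JVal (c : ZMod p) : Equiv.Perm (T_JVal p) :=
  Equiv.sumCongr (Equiv.refl _) (Equiv.sumCongr (Equiv.addRight c) (Equiv.addRight c))

/-- The number of vertices. -/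
def dT_JVal : T_JVal p → ℕ
  | .inl _ => 0
  | .inr (.inl _) => 1
  | .inr (.inr _) => 2

/-- The boundary of the augmented polygon with a disc attached. -/
def bdP_JVal (p : ℕ) (R : Type) [CommRing R] :
    Matrix (T_JVal p ⊕ Unit) (T_JVal p ⊕ Unit) R :=
  Matrix.of fun x y => match x, y with
    | .inl (.inl _), .inl (.inr (.inl _)) => 1
    | .inl (.inr (.inl i)), .inl (.inr (.inr j)) =>
        (if i = j + 1 then 1 else 0) - (if i = j then 1 else 0)
    | .inl (.inr (.inr _)), .inr _ => 1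
    | _, _ => 0

/-- A contraction. -/
def ctP_JVal (p : ℕ) (R : Type) [CommRing R] :
    Matrix (T_JVal p ⊕ Unit) (T_JVal p ⊕ Unit) R :=
  Matrix.of fun x y => match x, y with
    | .inl (.inr (.inl i)), .inl (.inl _) => if i = 0 then 1 else 0
    | .inl (.inr (.inr j)), .inl (.inr (.inl i)) => if j.val < i.val then 1 else 0
    | .inr _, .inl (.inr (.inr j)) => if j = -1 then 1 else 0
    | _, _ => 0

/-- The boundary of the augmented polygon. -/
def bdT_JVal (p : ℕ) (R : Type) [CommRing R] : Matrix (T_JVal p) (T_JVal p) R :=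
  (bdP_JVal p R).toBlocks₁₁

/-- The twisted rotation minus the identity. -/
def ph_JVal {I R : Type} [DecidableEq I] [CommRing R] (σ : Equiv.Perm I) (s : R) : Matrix I I R :=
  Matrix.of fun x y => (if σ x = y then s else 0) - if x = y then 1 else 0

variable {R : Type} [CommRing R]

theorem val_succ_JVal [NeZero p] (hp : 5 ≤ p) (j : ZMod p) :
    (j + 1).val = if j.val + 1 = p then 0 else j.val + 1 := by
  have : Fact (1 < p) := ⟨by omega⟩
  have h := ZMod.val_lt j
  rw [ZMod.val_add, ZMod.val_one]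
  split_ifs with h1
  · rw [h1, Nat.mod_self]
  · exact Nat.mod_eq_of_lt (by omega)

theorem cx_JVal [NeZero p] :
    IsCx (Sum.elim (dT_JVal (p := p)) fun _ : Unit => 3) (bdP_JVal p R) := by
  constructor
  · rintro ((i | i | i) | i) ((j | j | j) | j) h <;>
      first | rfl | exact absurd rfl h
  · ext ((i | i | i) | i) ((j | j | j) | j) <;>
      simp [bdP_JVal, mul_apply, Fintype.sum_sum_type]
    simp only [← sub_eq_iff_eq_add, Finset.filter_eq, Finset.mem_univ, if_true,
      Finset.card_singleton, Nat.cast_one, sub_self]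

theorem ctr_JVal [NeZero p] (hp : 5 ≤ p) :
    IsCtr (Sum.elim (dT_JVal (p := p)) fun _ : Unit => 3) (bdP_JVal p R) (ctP_JVal p R) := by
  constructor
  · rintro ((i | i | i) | i) ((j | j | j) | j) h <;>
      first | rfl | exact absurd rfl h
  · have key : ∀ i j : ZMod p, ((if j = -1 then 1 else 0) +
        ((if i.val < (j + 1).val then 1 else 0) - if i.val < j.val then 1 else 0) : R) =
        if i = j then 1 else 0 := by
      intro i j
      have h1 : j = -1 ↔ j.val + 1 = p := by
        rw [← add_eq_zero_iff_eq_neg, ← ZMod.val_eq_zero, val_succ_JVal hp]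
        split_ifs with h <;> simp [h]
      have h2 : i = j ↔ i.val = j.val := (ZMod.val_injective p).eq_iff.symm
      have h3 := ZMod.val_lt i
      have h4 := ZMod.val_lt j
      simp only [h1, h2, val_succ_JVal hp]
      split_ifs <;> first | omega | simp
    have key2 : ∀ i j : ZMod p, ((if (i - 1).val < j.val then 1 else 0) -
        (if i.val < j.val then 1 else 0) + (if i = 0 then 1 else 0) : R) =
        if i = j then 1 else 0 := by
      intro i j
      obtain ⟨k, rfl⟩ : ∃ k, i = k + 1 := ⟨i - 1, (sub_add_cancel i 1).symm⟩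
      have h1 : k + 1 = 0 ↔ k.val + 1 = p := by
        rw [← ZMod.val_eq_zero, val_succ_JVal hp]
        split_ifs with h <;> simp [h]
      have h2 : k + 1 = j ↔ (k + 1).val = j.val := (ZMod.val_injective p).eq_iff.symm
      have h3 := ZMod.val_lt k
      have h4 := ZMod.val_lt j
      simp only [h1, h2, val_succ_JVal hp, add_sub_cancel_right]
      split_ifs <;> first | omega | simp
    ext ((i | i | i) | i) ((j | j | j) | j) <;>
      simp [bdP_JVal, ctP_JVal, mul_apply, Fintype.sum_sum_type, one_apply, mul_sub, key]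
    have h5 : ∀ x : ZMod p, ((if x.val < j.val then (if i = x + 1 then 1 else 0) -
        if i = x then 1 else 0 else 0) : R) =
        (if i - 1 = x then (if x.val < j.val then 1 else 0) else 0) -
          if i = x then (if x.val < j.val then 1 else 0) else 0 := by
      intro x
      simp only [sub_eq_iff_eq_add]
      split_ifs <;> simp
    simp only [h5, Finset.sum_sub_distrib, Finset.sum_ite_eq, Finset.mem_univ, if_true]
    exact key2 i j

/-- The involution exchanging the parities. -/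
def inv_JVal : T_JVal p ⊕ Unit → T_JVal p ⊕ Unit
  | .inl (.inl u) => .inr u
  | .inl (.inr (.inl i)) => .inl (.inr (.inr i))
  | .inl (.inr (.inr i)) => .inl (.inr (.inl i))
  | .inr u => .inl (.inl u)

theorem torP_JVal [NeZero p] (hp : 5 ≤ p) :
    ∃ u, IsTor (Sum.elim (dT_JVal (p := p)) fun _ : Unit => 3) (bdP_JVal p R) u := by
  have hi : Function.Involutive (inv_JVal (p := p)) := by
    rintro ((i | i | i) | i) <;> rfl
  refine ⟨_, ctP_JVal p R, ctr_JVal hp, (hi.toPerm _).subtypeEquiv ?_, rfl⟩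
  rintro ((i | i | i) | i) <;> simp [inv_JVal, dT_JVal] <;> decide

theorem uniq_JVal {I : Type} [Fintype I] [DecidableEq I] {deg : I → ℕ} {d h : Matrix I I R}
    (hc : IsCtr deg d h) (i0 i1 : I) (h1 : ∀ i, Odd (deg i) ↔ i = i1)
    (h0 : ∀ i, ¬ Odd (deg i) ↔ i = i0) : IsTor deg d ((d + h) i0 i1) := by
  let u1 : Unique {i // Odd (deg i)} :=
    ⟨⟨⟨i1, (h1 i1).2 rfl⟩⟩, fun x => Subtype.ext ((h1 x.1).1 x.2)⟩
  let u0 : Unique {i // ¬ Odd (deg i)} :=
    ⟨⟨⟨i0, (h0 i0).2 rfl⟩⟩, fun x => Subtype.ext ((h0 x.1).1 x.2)⟩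
  refine ⟨h, hc, Equiv.ofUnique _ _, ?_⟩
  rw [det_unique]
  rfl

/-- The complex with two generators. -/
def two_JVal (c : R) : Matrix (Unit ⊕ Unit) (Unit ⊕ Unit) R :=
  fromBlocks 0 (Matrix.of fun _ _ => c) 0 0

theorem two_ctr_JVal (n : ℕ) {c c' : R} (h : c * c' = 1) :
    IsCtr (Sum.elim (fun _ : Unit => n) fun _ : Unit => n + 1) (two_JVal c)
      (fromBlocks 0 0 (Matrix.of fun _ _ => c') 0) := by
  constructor
  · rintro (i | i) (j | j) h <;> first | rfl | exact absurd rfl h
  · ext (i | i) (j | j) <;> simp [two_JVal, mul_apply, h, mul_comm c']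

theorem two_even_JVal {c c' : R} (h : c * c' = 1) :
    IsTor (Sum.elim (fun _ : Unit => 0) fun _ : Unit => 1) (two_JVal c) c := by
  have := uniq_JVal (two_ctr_JVal 0 h) (.inl ()) (.inr ())
    (by rintro (i | i) <;> simp) (by rintro (i | i) <;> simp)
  simpa [two_JVal] using this

theorem two_odd_JVal {c c' : R} (h : c * c' = 1) :
    IsTor (Sum.elim (fun _ : Unit => 3) fun _ : Unit => 4) (two_JVal c) c' := by
  have := uniq_JVal (two_ctr_JVal 3 h) (.inr ()) (.inl ())
    (by rintro (i | i) <;> simp <;> decide) (by rintro (i | i) <;> simp <;> decide)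
  simpa [two_JVal] using this

theorem comm_JVal {I : Type} [Fintype I] [DecidableEq I] (σ : Equiv.Perm I) (s : R)
    (d : Matrix I I R) (h : ∀ i j, d (σ i) (σ j) = d i j) : d * ph_JVal σ s = ph_JVal σ s * d := by
  ext i j
  obtain ⟨k, rfl⟩ := σ.surjective j
  simp only [ph_JVal, mul_apply, of_apply, mul_sub, sub_mul, Finset.sum_sub_distrib, mul_ite,
    ite_mul, mul_zero, zero_mul, mul_one, one_mul, EmbeddingLike.apply_eq_iff_eq,
    Finset.sum_ite_eq, Finset.sum_ite_eq', Finset.mem_univ, if_true, h, mul_comm s]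

theorem torM_JVal [NeZero p] (hp : 5 ≤ p) (hB : TorBlockStmt) (hS : TorSubStmt)
    (hR : TorReindexStmt) (hN : TorNegStmt) (c : ZMod p) {s s' : R} (hs : (s - 1) * s' = 1) :
    ∃ u, IsTor (Sum.elim dT_JVal fun τ => dT_JVal τ + 1)
      (fromBlocks (-bdT_JVal p R) (ph_JVal (sh_JVal c) s) 0 (bdT_JVal p R)) u ∧
      (u = s - 1 ∨ u = -(s - 1)) := by
  let deg : T_JVal p ⊕ Unit → ℕ := Sum.elim dT_JVal fun _ => 3
  let σ : Equiv.Perm (T_JVal p ⊕ Unit) := Equiv.sumCongr (sh_JVal c) (Equiv.refl _)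
  have hinv : ∀ i j, bdP_JVal p R (σ i) (σ j) = bdP_JVal p R i j := by
    rintro ((i | i | i) | i) ((j | j | j) | j) <;>
      simp [σ, sh_JVal, bdP_JVal, add_right_comm _ c 1]
  have hdeg : ∀ i, deg (σ i) = deg i := by
    rintro ((i | i | i) | i) <;> rfl
  have hcx : IsCx deg (-bdP_JVal p R) :=
    ⟨fun i j hij => cx_JVal.1 i j (by simpa using hij), by rw [neg_mul_neg, cx_JVal.2]⟩
  obtain ⟨u0, hu0⟩ : ∃ u, IsTor deg (-bdP_JVal p R) u := by
    obtain ⟨_, h, hh, e, -⟩ := torP_JVal (R := R) hp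
    exact ⟨_, -h, ⟨fun i j hij => hh.1 i j (by simpa using hij), by simpa using hh.2⟩, e, rfl⟩
  obtain ⟨w0, hw0, h0⟩ := hN R _ deg _ u0 hcx hu0
  rw [neg_neg] at hw0
  have hbig : IsCx (Sum.elim deg fun i => deg i + 1)
      (fromBlocks (-bdP_JVal p R) (ph_JVal σ s) 0 (bdP_JVal p R)) := by
    constructor
    · rintro (i | i) (j | j) hij
      · exact hcx.1 i j hij
      · change deg j + 1 = deg i + 1
        by_contra hne
        apply hij
        have h1 : σ i ≠ j := fun h => hne (by rw [← h, hdeg])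
        have h2 : i ≠ j := fun h => hne (by rw [h])
        simp [ph_JVal, h1, h2]
      · exact absurd rfl hij
      · exact congrArg (· + 1) (cx_JVal.1 i j hij)
    · rw [fromBlocks_multiply, hcx.2, cx_JVal.2, Matrix.neg_mul, comm_JVal σ s _ hinv]
      simp
  obtain ⟨v, hv, h1⟩ := hB R _ _ _ _ _ _ _ u0 w0 hbig hu0 hw0
  let e : (T_JVal p ⊕ T_JVal p) ⊕ (Unit ⊕ Unit) ≃ (T_JVal p ⊕ Unit) ⊕ (T_JVal p ⊕ Unit) :=
    Equiv.sumSumSumComm _ _ _ _
  obtain ⟨c1, c2⟩ := hR R _ _ e (Sum.elim deg fun i => deg i + 1)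
    (fromBlocks (-bdP_JVal p R) (ph_JVal σ s) 0 (bdP_JVal p R)) v
  have e1 : (Sum.elim deg fun i => deg i + 1) ∘ e = Sum.elim
      (Sum.elim dT_JVal fun τ => dT_JVal τ + 1)
      (Sum.elim (fun _ : Unit => 3) fun _ : Unit => 4) := by
    funext x
    rcases x with (x | x) | (x | x) <;> rfl
  have e2 : (fromBlocks (-bdP_JVal p R) (ph_JVal σ s) 0 (bdP_JVal p R)).submatrix e e =
      fromBlocks (fromBlocks (-bdT_JVal p R) (ph_JVal (sh_JVal c) s) 0 (bdT_JVal p R))
        ((fromBlocks (-bdP_JVal p R) (ph_JVal σ s) 0 (bdP_JVal p R)).submatrix e e).toBlocks₁₂ 0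
        (two_JVal (s - 1)) := by
    ext ((i | i) | (i | i)) ((j | j) | (j | j)) <;>
      simp [e, σ, bdT_JVal, toBlocks₁₁, toBlocks₁₂, ph_JVal, two_JVal, bdP_JVal]
  rw [e1, e2] at c1 c2
  obtain ⟨u, hu, h2⟩ := (hS R _ _ _ _ _ _ _ v (c1 hbig) (c2 hv)).1 s' (two_odd_JVal hs)
  refine ⟨u, hu, ?_⟩
  have h3 : u * s' = 1 ∨ u * s' = -1 := by
    rcases h0 with h0 | h0 <;> rcases h1 with h1 | h1 <;> rcases h2 with h2 | h2 <;>
      first
      | (left; linear_combination -h2 + h1 + h0)
      | (left; linear_combination h2 - h1 + h0)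
      | (left; linear_combination -h2 + h1 - h0)
      | (left; linear_combination h2 - h1 - h0)
      | (right; linear_combination -h2 + h1 + h0)
      | (right; linear_combination h2 - h1 + h0)
      | (right; linear_combination -h2 + h1 - h0)
      | (right; linear_combination h2 - h1 - h0)
  rcases h3 with h3 | h3
  · left
    linear_combination (s - 1) * h3 - u * hs
  · right
    linear_combination (s - 1) * h3 - u * hs

theorem unit_JVal [NeZero p] (k : (ZMod p)ˣ) :
    ∃ s', (qq (Cp p) (tp p k) - 1) * s' = 1 := by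
  have h1 : ∀ g : Cp p, tp p k - 1 ∣ MonoidAlgebra.single g 1 - 1 := by
    intro g
    have h2 : (MonoidAlgebra.single g 1 : RC (Cp p)) =
        tp p k ^ ((k⁻¹ : (ZMod p)ˣ) * g.toAdd : ZMod p).val := by
      rw [tp, MonoidAlgebra.single_pow, one_pow, ← ofAdd_nsmul, nsmul_eq_mul, ZMod.natCast_zmod_val,
        mul_comm, Units.mul_inv_cancel_left, ofAdd_toAdd]
    rw [h2]
    exact sub_one_dvd_pow_sub_one _ _
  have h3 := map_dvd (qq (Cp p)) (Finset.dvd_sum fun g (_ : g ∈ Finset.univ) => h1 g)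
  have h4 : qq (Cp p) (nrm (Cp p)) = 0 :=
    Ideal.Quotient.eq_zero_iff_mem.2 (Ideal.subset_span rfl)
  rw [Finset.sum_sub_distrib, map_sub, map_sub, map_one, Finset.sum_const, ← nrm, h4, zero_sub,
    nsmul_eq_mul, mul_one, map_natCast] at h3
  have h5 : IsUnit ((Finset.univ : Finset (Cp p)).card : RQ (Cp p)) := by
    rw [← map_natCast (algebraMap ℚ (RQ (Cp p)))]
    exact (Ne.isUnit (Nat.cast_ne_zero.2 Finset.univ_nonempty.card_pos.ne')).map _
  exact (isUnit_of_dvd_unit h3 h5.neg).exists_right_inv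

theorem bdT_map_JVal {S : Type} [CommRing S] (f : R →+* S) :
    (bdT_JVal p R).map f = bdT_JVal p S := by
  ext (i | i | i) (j | j | j) <;> simp [bdT_JVal, bdP_JVal, toBlocks₁₁, apply_ite f]

theorem ph_map_JVal {I S : Type} [DecidableEq I] [CommRing S] (f : R →+* S) (σ : Equiv.Perm I)
    (s : R) : (ph_JVal σ s).map f = ph_JVal σ (f s) := by
  ext i j
  simp [ph_JVal, apply_ite f]

theorem two_map_JVal {S : Type} [CommRing S] (f : R →+* S) (c : R) :
    (two_JVal c).map f = two_JVal (f c) := by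
  ext (i | i) (j | j) <;> simp [two_JVal]

end Pool.Agent.MP_6374aa_gt
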