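import Pool.Agent.MP_6374aa_gt.IfP

/-! The total complex of a connected sum. -/

namespace Pool.Agent.MP_6374aa_gt

open Classical Matrix

noncomputable section

variable {R P L S Q J K : Type} [CommRing R]

theorem inst_MvAlg {I : Type} [Fintype I] {i1 i2 : DecidableEq I} {deg : I → ℕ}
    {d : Matrix I I R} {u : R} (h : @IsTor R I _ _ i1 deg d u) : @IsTor R I _ _ i2 deg d u := by
  cases Subsingleton.elim i1 i2
  exact h

/-- The off diagonal block of the total complex. -/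
def off_MvAlg (J : Type) (dLQ : Matrix L Q R) (cP : Matrix P K R) (cL wL : Matrix L K R)
    (ω : S → R) : Matrix ((P ⊕ (L ⊕ S)) ⊕ (J ⊕ J)) ((Q ⊕ (K ⊕ K)) ⊕ Unit) R :=
  fromRows (fromRows (fromCols (fromCols 0 (fromCols cP 0)) 0)
    (fromRows (fromCols (fromCols dLQ (fromCols cL wL)) 0)
      (fromCols 0 (Matrix.of fun i _ => -ω i)))) 0

/-- The two ways to group the cells of the total complex. -/
def eqv_MvAlg (P L S Q J K : Type) :
    ((P ⊕ (L ⊕ Q)) ⊕ ((J ⊕ K) ⊕ (J ⊕ K))) ⊕ (S ⊕ Unit) ≃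
      ((P ⊕ (L ⊕ S)) ⊕ (J ⊕ J)) ⊕ ((Q ⊕ (K ⊕ K)) ⊕ Unit) where
  toFun := Sum.elim
    (Sum.elim
      (Sum.elim (fun p => .inl (.inl (.inl p)))
        (Sum.elim (fun l => .inl (.inl (.inr (.inl l)))) fun q => .inr (.inl (.inl q))))
      (Sum.elim
        (Sum.elim (fun j => .inl (.inr (.inl j))) fun k => .inr (.inl (.inr (.inl k))))
        (Sum.elim (fun j => .inl (.inr (.inr j))) fun k => .inr (.inl (.inr (.inr k))))))
    (Sum.elim (fun s => .inl (.inl (.inr (.inr s)))) fun u => .inr (.inr u))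
  invFun := Sum.elim
    (Sum.elim
      (Sum.elim (fun p => .inl (.inl (.inl p)))
        (Sum.elim (fun l => .inl (.inl (.inr (.inl l)))) fun s => .inr (.inl s)))
      (Sum.elim (fun j => .inl (.inr (.inl (.inl j)))) fun j => .inl (.inr (.inr (.inl j)))))
    (Sum.elim
      (Sum.elim (fun q => .inl (.inl (.inr (.inr q))))
        (Sum.elim (fun k => .inl (.inr (.inl (.inr k)))) fun k => .inl (.inr (.inr (.inr k)))))
      fun u => .inr (.inr u))
  left_inv := by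
    rintro (((p | l | q) | ((j | k) | (j | k))) | (s | u)) <;> rfl
  right_inv := by
    rintro (((p | l | s) | (j | j)) | ((q | k | k) | u)) <;> rfl

variable [Fintype P] [DecidableEq P] [Fintype L] [DecidableEq L] [Fintype S] [DecidableEq S]
  [Fintype Q] [DecidableEq Q] [Fintype J] [DecidableEq J] [Fintype K] [DecidableEq K]
  {nP : P → ℕ} {nL : L → ℕ} {nS : S → ℕ} {nQ : Q → ℕ}
  {dPP : Matrix P P R} {dLP : Matrix L P R} {dLL : Matrix L L R} {dLS : Matrix L S R}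
  {dSS : Matrix S S R} {dLQ : Matrix L Q R} {dQQ : Matrix Q Q R}
  {ZA YA : Matrix (P ⊕ (L ⊕ S)) J R} {Z wQ : Matrix Q K R} {cP : Matrix P K R}
  {cL wL : Matrix L K R} {m : Q → R} {μ : K → R} {ω : S → R}

theorem sq_MvAlg (h1 : dLL * dLQ + dLQ * dQQ = 0) (h2 : dPP * cP = 0)
    (h3 : dLP * cP + dLL * cL + dLQ * Z = 0) (h4 : dLL * wL + dLQ * wQ = 0)
    (h5 : dSS.mulVec ω = 0) (h6 : dLQ.mulVec m + wL.mulVec μ = dLS.mulVec ω) :
    cx2 (mvD dPP dLP dLL dLS dSS) ZA YA * off_MvAlg J dLQ cP cL wL ω +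
      off_MvAlg J dLQ cP cL wL ω * ext1 (cx2 dQQ Z wQ) (Sum.elim m (Sum.elim 0 μ)) = 0 := by
  ext i j
  rcases i with (p | l | s) | i
  · rcases j with (q | k | k) | u
    · simp [Matrix.mul_apply, Fintype.sum_sum_type, off_MvAlg, cx2, mvD, ext1]
    · have := congrFun (congrFun h2 p) k
      simpa [Matrix.mul_apply, Fintype.sum_sum_type, off_MvAlg, cx2, mvD, ext1] using this
    · simp [Matrix.mul_apply, Fintype.sum_sum_type, off_MvAlg, cx2, mvD, ext1]
    · simp [Matrix.mul_apply, Fintype.sum_sum_type, off_MvAlg, cx2, mvD, ext1]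
  · rcases j with (q | k | k) | u
    · have := congrFun (congrFun h1 l) q
      simpa [Matrix.mul_apply, Fintype.sum_sum_type, off_MvAlg, cx2, mvD, ext1] using this
    · have := congrFun (congrFun h3 l) k
      simpa [Matrix.mul_apply, Fintype.sum_sum_type, off_MvAlg, cx2, mvD, ext1] using this
    · have := congrFun (congrFun h4 l) k
      simpa [Matrix.mul_apply, Fintype.sum_sum_type, off_MvAlg, cx2, mvD, ext1] using this
    · have := congrFun h6 l
      simp only [Matrix.mulVec, dotProduct, Pi.add_apply] at this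
      simp [Matrix.mul_apply, Fintype.sum_sum_type, off_MvAlg, cx2, mvD, ext1, this]
  · rcases j with (q | k | k) | u
    · simp [Matrix.mul_apply, Fintype.sum_sum_type, off_MvAlg, cx2, mvD, ext1]
    · simp [Matrix.mul_apply, Fintype.sum_sum_type, off_MvAlg, cx2, mvD, ext1]
    · simp [Matrix.mul_apply, Fintype.sum_sum_type, off_MvAlg, cx2, mvD, ext1]
    · have := congrFun h5 s
      simp only [Matrix.mulVec, dotProduct, Pi.zero_apply] at this
      simp [Matrix.mul_apply, Fintype.sum_sum_type, off_MvAlg, cx2, mvD, ext1, this]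
  · simp [Matrix.mul_apply, Fintype.sum_sum_type, off_MvAlg, cx2, mvD, ext1]

theorem deg_MvAlg (g1 : ∀ l q, dLQ l q ≠ 0 → nQ q = nL l + 1)
    (g2 : ∀ p k, nP p ≠ 1 → cP p k = 0) (g3 : ∀ l k, nL l ≠ 1 → cL l k = 0)
    (g4 : ∀ l k, nL l ≠ 2 → wL l k = 0) (g5 : ∀ s, ω s ≠ 0 → 4 = nS s + 1) :
    ∀ i j, off_MvAlg J dLQ cP cL wL ω i j ≠ 0 → dg4 (Sum.elim nQ (d23 K)) j =
      Sum.elim (Sum.elim nP (Sum.elim nL nS)) (d23 J) i + 1 := by
  rintro ((p | l | s) | i) ((q | k | k) | u) h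
  · exact absurd rfl h
  · by_contra hn
    exact h (g2 p k fun e => hn (show 2 = nP p + 1 by omega))
  · exact absurd rfl h
  · exact absurd rfl h
  · exact g1 l q h
  · by_contra hn
    exact h (g3 l k fun e => hn (show 2 = nL l + 1 by omega))
  · by_contra hn
    exact h (g4 l k fun e => hn (show 3 = nL l + 1 by omega))
  · exact absurd rfl h
  · exact absurd rfl h
  · exact absurd rfl h
  · exact absurd rfl h
  · exact g5 s fun e => h (show -ω s = 0 by rw [e, neg_zero])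
  · exact absurd rfl h
  · exact absurd rfl h
  · exact absurd rfl h
  · exact absurd rfl h

theorem core_MvAlg (hB : TorBlockStmt) (hS : TorSubStmt) (hR : TorReindexStmt)
    {zP yP : Matrix P J R} {zL yL : Matrix L J R} {u1 us ut : R}
    (h1 : dLL * dLQ + dLQ * dQQ = 0) (h2 : dPP * cP = 0)
    (h3 : dLP * cP + dLL * cL + dLQ * Z = 0) (h4 : dLL * wL + dLQ * wQ = 0)
    (h5 : dSS.mulVec ω = 0) (h6 : dLQ.mulVec m + wL.mulVec μ = dLS.mulVec ω)
    (g1 : ∀ l q, dLQ l q ≠ 0 → nQ q = nL l + 1)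
    (g2 : ∀ p k, nP p ≠ 1 → cP p k = 0) (g3 : ∀ l k, nL l ≠ 1 → cL l k = 0)
    (g4 : ∀ l k, nL l ≠ 2 → wL l k = 0) (g5 : ∀ s, ω s ≠ 0 → 4 = nS s + 1)
    (cA : IsCx (Sum.elim (Sum.elim nP (Sum.elim nL nS)) (d23 J))
      (cx2 (mvD dPP dLP dLL dLS dSS) (fromRows zP (fromRows zL 0)) (fromRows yP (fromRows yL 0))))
    (tA : IsTor (Sum.elim (Sum.elim nP (Sum.elim nL nS)) (d23 J))
      (cx2 (mvD dPP dLP dLL dLS dSS) (fromRows zP (fromRows zL 0)) (fromRows yP (fromRows yL 0)))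
      u1)
    (cQ : IsCx (dg4 (Sum.elim nQ (d23 K))) (ext1 (cx2 dQQ Z wQ) (Sum.elim m (Sum.elim 0 μ))))
    (tQ : IsTor (dg4 (Sum.elim nQ (d23 K))) (ext1 (cx2 dQQ Z wQ) (Sum.elim m (Sum.elim 0 μ))) us)
    (tS : IsTor (dg4 nS) (ext1 dSS (-ω)) ut) :
    ∃ u v, IsTor (Sum.elim (Sum.elim nP (Sum.elim nL nQ)) (d23 (J ⊕ K)))
      (cx2 (mvD dPP dLP dLL dLQ dQQ)
        (fromCols (fromRows zP (fromRows zL 0)) (fromRows cP (fromRows cL Z)))
        (fromCols (fromRows yP (fromRows yL 0)) (fromRows 0 (fromRows wL wQ)))) u ∧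
      (v = u1 * us ∨ v = -(u1 * us)) ∧ (v = u * ut ∨ v = -(u * ut)) := by
  have cT : IsCx (Sum.elim (Sum.elim (Sum.elim nP (Sum.elim nL nS)) (d23 J))
      (dg4 (Sum.elim nQ (d23 K))))
      (fromBlocks (cx2 (mvD dPP dLP dLL dLS dSS) (fromRows zP (fromRows zL 0))
        (fromRows yP (fromRows yL 0))) (off_MvAlg J dLQ cP cL wL ω) 0
        (ext1 (cx2 dQQ Z wQ) (Sum.elim m (Sum.elim 0 μ)))) := by
    refine ⟨?_, ?_⟩
    · rintro (i | i) (j | j) h
      · exact cA.1 i j h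
      · exact deg_MvAlg g1 g2 g3 g4 g5 i j h
      · exact absurd rfl h
      · exact cQ.1 i j h
    · rw [fromBlocks_multiply, cA.2, cQ.2, sq_MvAlg h1 h2 h3 h4 h5 h6]
      simp
  obtain ⟨v, tT, hv⟩ := hB R _ _ _ _ _ _ _ u1 us cT tA tQ
  obtain ⟨c1, t1⟩ := hR R _ _ (eqv_MvAlg P L S Q J K) _ _ v
  have c2 := c1 cT
  have t2 := t1 tT
  have e1 : Sum.elim (Sum.elim (Sum.elim nP (Sum.elim nL nS)) (d23 J))
      (dg4 (Sum.elim nQ (d23 K))) ∘ eqv_MvAlg P L S Q J K =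
      Sum.elim (Sum.elim (Sum.elim nP (Sum.elim nL nQ)) (d23 (J ⊕ K))) (dg4 nS) := by
    funext x
    rcases x with ((p | l | q) | ((j | k) | (j | k))) | (s | u) <;> rfl
  obtain ⟨b, e2⟩ : ∃ b, (fromBlocks (cx2 (mvD dPP dLP dLL dLS dSS) (fromRows zP (fromRows zL 0))
        (fromRows yP (fromRows yL 0))) (off_MvAlg J dLQ cP cL wL ω) 0
        (ext1 (cx2 dQQ Z wQ) (Sum.elim m (Sum.elim 0 μ)))).submatrix (eqv_MvAlg P L S Q J K)
        (eqv_MvAlg P L S Q J K) =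
      fromBlocks (cx2 (mvD dPP dLP dLL dLQ dQQ)
        (fromCols (fromRows zP (fromRows zL 0)) (fromRows cP (fromRows cL Z)))
        (fromCols (fromRows yP (fromRows yL 0)) (fromRows 0 (fromRows wL wQ)))) b 0
        (ext1 dSS (-ω)) := by
    refine ⟨toBlocks₁₂ ((fromBlocks (cx2 (mvD dPP dLP dLL dLS dSS) (fromRows zP (fromRows zL 0))
        (fromRows yP (fromRows yL 0))) (off_MvAlg J dLQ cP cL wL ω) 0
        (ext1 (cx2 dQQ Z wQ) (Sum.elim m (Sum.elim 0 μ)))).submatrix (eqv_MvAlg P L S Q J K)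
        (eqv_MvAlg P L S Q J K)), ?_⟩
    ext x y
    rcases x with ((p | l | q) | ((j | k) | (j | k))) | (s | u) <;>
      rcases y with ((p' | l' | q') | ((j' | k') | (j' | k'))) | (s' | u') <;> rfl
  rw [e1, e2] at c2 t2
  obtain ⟨u, tu, hu⟩ := (hS R _ _ _ _ _ _ _ v c2 (inst_MvAlg t2)).1 ut tS
  exact ⟨u, v, tu, hv, hu⟩

end

end Pool.Agent.MP_6374aa_gt
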