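import Pool.Agent.MP_6374aa_gt.IfG

/-! Transport of free product decompositions along equivalences. -/

namespace Pool.Agent.MP_6374aa_gt

open Classical

section Abs

variable {π π' X S : Type} [Group π] [Group π'] {H : Subgroup π} {H' : Subgroup π'}

/-- Two homomorphisms that restrict to inverse isomorphisms of `H'` and `H`. -/
structure Inv_PbG (ψ : π' →* π) (s : π →* π') (H' : Subgroup π') (H : Subgroup π) : Prop where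
  m1 : ∀ δ ∈ H', ψ δ ∈ H
  m2 : ∀ δ ∈ H, s δ ∈ H'
  e1 : ∀ δ ∈ H', s (ψ δ) = δ
  e2 : ∀ δ ∈ H, ψ (s δ) = δ

theorem Inv_PbG.symm {ψ : π' →* π} {s : π →* π'} (h : Inv_PbG ψ s H' H) : Inv_PbG s ψ H H' :=
  ⟨h.m2, h.m1, h.e2, h.e1⟩

theorem exists_inv_PbG (ψ : π' →* π) (R : π →* π) (r1 : ∀ δ, R δ ∈ H) (r2 : ∀ δ ∈ H, R δ = δ)
    (m : ∀ δ ∈ H', ψ δ ∈ H) (hi : ∀ δ ∈ H', ψ δ = 1 → δ = 1)
    (hs : ∀ δ ∈ H, ∃ δ' ∈ H', ψ δ' = δ) : ∃ s : π →* π', Inv_PbG ψ s H' H := by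
  let e : H' ≃* H := MulEquiv.ofBijective ((ψ.comp H'.subtype).codRestrict H fun δ => m δ δ.2)
    ⟨(injective_iff_map_eq_one _).2 fun δ h => Subtype.ext (hi δ δ.2 (congrArg Subtype.val h)),
      fun δ => by
        obtain ⟨δ', h1, h2⟩ := hs δ δ.2
        exact ⟨⟨δ', h1⟩, Subtype.ext h2⟩⟩
  have he : ∀ δ : H', (e δ : π) = ψ δ := fun _ => rfl
  refine ⟨H'.subtype.comp (e.symm.toMonoidHom.comp (R.codRestrict H r1)), m,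
    fun δ _ => (e.symm _).2, fun δ hδ => ?_, fun δ hδ => ?_⟩
  · have : e.symm ⟨R (ψ δ), r1 _⟩ = ⟨δ, hδ⟩ := e.symm_apply_eq.2 (Subtype.ext (r2 _ (m δ hδ)))
    exact congrArg Subtype.val this
  · have := he (e.symm ⟨R δ, r1 _⟩)
    rw [e.apply_symm_apply] at this
    exact this.symm.trans (r2 δ hδ)

theorem fp_map_PbG {ψ : π' →* π} {s : π →* π'} (h : Inv_PbG ψ s H' H) {Λ : X → Subgroup π}
    {t : S → π} (F : FP H Λ t) : FP H' (fun x => (Λ x).map s) (fun i => s (t i)) := by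
  have hi : ∀ x, ∀ δ ∈ Λ x, s δ = 1 → δ = 1 := fun x δ hδ e => by
    rw [← h.e2 δ (F.le x hδ), e, map_one]
  refine ⟨fun x => ?_, fun i => h.m2 _ (F.mem i), fun δ hδ => ?_, fun L _ f g => ?_,
    fun x e => F.ne x ?_, fun x => (F.hasE x).map s (hi x)⟩
  · rintro _ ⟨δ, hδ, rfl⟩
    exact h.m2 δ (F.le x hδ)
  · have h1 := Subgroup.mem_map_of_mem s (F.gen (h.m1 δ hδ))
    rw [h.e1 δ hδ, MonoidHom.map_closure] at h1
    refine Subgroup.closure_mono ?_ h1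
    rintro _ ⟨d, hd | ⟨i, rfl⟩, rfl⟩
    · obtain ⟨x, hx⟩ := Set.mem_iUnion.1 hd
      exact Or.inl (Set.mem_iUnion.2 ⟨x, d, hx, rfl⟩)
    · exact Or.inr ⟨i, rfl⟩
  · obtain ⟨ρ, h1, h2⟩ := F.ext L (fun x => (f x).comp (s.subgroupMap (Λ x))) g
    refine ⟨ρ.comp ψ, ?_, fun i => ?_⟩
    · rintro x ⟨_, δ, hδ, rfl⟩
      rw [MonoidHom.comp_apply, h.e2 δ (F.le x hδ)]
      exact h1 x ⟨δ, hδ⟩
    · rw [MonoidHom.comp_apply, h.e2 _ (F.mem i), h2]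
  · exact (Subgroup.eq_bot_iff_forall _).2 fun δ hδ =>
      hi x δ hδ ((Subgroup.eq_bot_iff_forall _).1 e _ ⟨δ, hδ, rfl⟩)

theorem gda_pb_PbG {ψ : π' →* π} {s : π →* π'} (h : Inv_PbG ψ s H' H) {Λ : X → Subgroup π}
    (hΛ : ∀ x, Λ x ≤ H) : GDa ψ H' H (fun x => (Λ x).map s) Λ (Equiv.refl X) := by
  refine ⟨h.m1, fun δ hδ => ⟨s δ, h.m2 δ hδ, h.e2 δ hδ⟩, (Equiv.refl X).injective,
    fun x => ⟨?_, 1, one_mem _, ?_, fun δ hδ => ⟨s δ, ⟨δ, hδ, rfl⟩, ?_⟩⟩,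
    fun x hx => absurd ⟨x, rfl⟩ hx⟩
  · rintro _ ⟨δ, hδ, rfl⟩ e
    rw [h.e2 δ (hΛ x hδ)] at e
    rw [e, map_one]
  · rintro _ ⟨δ, hδ, rfl⟩
    rw [h.e2 δ (hΛ x hδ), inv_one, one_mul, mul_one]
    exact hδ
  · rw [h.e2 δ (hΛ x hδ), inv_one, one_mul, mul_one]

theorem gda_pf_PbG {ψ : π' →* π} {s : π →* π'} (h : Inv_PbG ψ s H' H) {Λ : X → Subgroup π'}
    (hΛ : ∀ x, Λ x ≤ H') : GDa ψ H' H Λ (fun x => (Λ x).map ψ) (Equiv.refl X) := by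
  refine ⟨h.m1, fun δ hδ => ⟨s δ, h.m2 δ hδ, h.e2 δ hδ⟩, (Equiv.refl X).injective,
    fun x => ⟨fun δ hδ e => ?_, 1, one_mem _, fun δ hδ => ?_, ?_⟩,
    fun x hx => absurd ⟨x, rfl⟩ hx⟩
  · rw [← h.e1 δ (hΛ x hδ), e, map_one]
  · rw [inv_one, one_mul, mul_one]
    exact ⟨δ, hδ, rfl⟩
  · rintro _ ⟨δ, hδ, rfl⟩
    exact ⟨δ, hδ, by rw [inv_one, one_mul, mul_one]⟩

end Abs

variable {V V' : Type} {G : SimpleGraph V} {A : Set V} {G' : SimpleGraph V'} {A' : Set V'}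
  {f : V' → V}

theorem gcj_PbG (γ : Gp G A) (δ : Gp G' A') :
    gcj G' A' G A f γ δ = γ⁻¹ * gmap G' A' G A f δ * γ := by
  simp [gcj]

theorem se_inv_PbG (h : SE G' A' G A f) (hc : PConn G A) {y' : V'} (hy : y' ∈ A') {y : V}
    {γ : Gp G A} (hγ : Path G A (f y') y γ) :
    ∃ s : Gp G A →* Gp G' A', Inv_PbG (gcj G' A' G A f γ) s (Loop G' A' y') (Loop G A y) := by
  obtain ⟨R, p, -, p2, p3, p4⟩ := exists_retraction hc hγ.mem_right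
  refine exists_inv_PbG _ R p4 (fun δ hδ => ?_) (fun δ hδ => ?_) (fun δ hδ e => ?_)
    (fun δ hδ => ?_)
  · rw [p3 _ _ _ ((mem_Loop hγ.mem_right).1 hδ), p2, one_mul, inv_one, mul_one]
  · rw [gcj_PbG]
    exact hγ.conj_mem_Loop (gmap_mem_Loop h.hom hy hδ)
  · rw [gcj_PbG] at e
    refine h.faith y' δ ((mem_Loop hy).1 hδ) ?_
    simpa [mul_assoc] using congrArg (fun t => γ * t * γ⁻¹) e
  · obtain ⟨δ', h1, h2⟩ := h.full y' hy y' hy _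
      ((hγ.trans ((mem_Loop hγ.mem_right).1 hδ)).trans hγ.symm)
    refine ⟨δ', (mem_Loop hy).2 h1, ?_⟩
    rw [gcj_PbG, h2]
    group

theorem conn_pb_PbG (h : SE G' A' G A f) (hc : PConn G A) : PConn G' A' := by
  obtain ⟨a, ha⟩ := hc.1
  obtain ⟨y, hy, -⟩ := h.ess a ha
  refine ⟨⟨y, hy⟩, fun a ha b hb => ?_⟩
  obtain ⟨γ, h1⟩ := hc.2 _ (h.hom.1 a ha) _ (h.hom.1 b hb)
  exact (h.full a ha b hb γ h1).imp fun _ h2 => h2.1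

theorem conn_pf_PbG (h : SE G' A' G A f) (hc : PConn G' A') : PConn G A := by
  obtain ⟨a, ha⟩ := hc.1
  refine ⟨⟨f a, h.hom.1 a ha⟩, fun a ha b hb => ?_⟩
  obtain ⟨a', ha', γ1, h1⟩ := h.ess a ha
  obtain ⟨b', hb', γ2, h2⟩ := h.ess b hb
  obtain ⟨γ, h3⟩ := hc.2 a' ha' b' hb'
  exact ⟨_, (h1.trans (h3.map h.hom)).trans h2.symm⟩

theorem pbG : PbGStmt := by
  intro V V' G A G' A' f P h hF y' hy
  obtain ⟨γ, hγ⟩ := P.conn.2 _ (h.hom.1 y' hy) _ P.mem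
  obtain ⟨s, hs⟩ := se_inv_PbG h P.conn hy hγ
  exact ⟨⟨P.X, P.S, y', fun x => (P.Λ x).map s, fun i => s (P.t i), hF, conn_pb_PbG h P.conn, hy,
    fp_map_PbG hs P.fp⟩, Equiv.refl _, rfl, ⟨h.hom, γ, hγ, gda_pb_PbG hs P.fp.le⟩, Iff.rfl⟩

theorem pfG : PfGStmt := by
  intro V V' G A G' A' f P' h hF
  have hc := conn_pf_PbG h P'.conn
  have hy := h.hom.1 _ P'.mem
  have hγ : Path G A (f P'.y) (f P'.y) 1 := Path.nil hy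
  obtain ⟨s, hs⟩ := se_inv_PbG h hc P'.mem hγ
  exact ⟨⟨P'.X, P'.S, f P'.y, fun x => (P'.Λ x).map (gcj G' A' G A f 1),
    fun i => gcj G' A' G A f 1 (P'.t i), hF, hc, hy, fp_map_PbG hs.symm P'.fp⟩, Equiv.refl _,
    ⟨h.hom, 1, hγ, gda_pf_PbG hs P'.fp.le⟩, Iff.rfl⟩

end Pool.Agent.MP_6374aa_gt
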