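import Pool.Agent.MP_6374aa_gt.IfP

/-! Block matrices on the cells of the cone. -/

namespace Pool.Agent.MP_6374aa_gt

open Classical Matrix

noncomputable section

section Gen

variable {R N O E : Type} [CommRing R]

theorem splitS_PosAlg [Fintype N] [Fintype O] [Fintype E] {a b a' b' : Type} (σ : O ⊕ E ≃ N)
    (A : Matrix a N R) (B : Matrix N b R) (f : a' → a) (g : b' → b) :
    (A * B).submatrix f g = A.submatrix f (σ ∘ Sum.inl) * B.submatrix (σ ∘ Sum.inl) g +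
      A.submatrix f (σ ∘ Sum.inr) * B.submatrix (σ ∘ Sum.inr) g := by
  ext i j
  simp only [Matrix.mul_apply, Matrix.add_apply, submatrix_apply, Function.comp]
  rw [← Equiv.sum_comp σ, Fintype.sum_sum_type]

/-- The first summand enumerates the elements with `p`. -/
def eqL_PosAlg (σ : O ⊕ E ≃ N) (p : N → Prop) (h1 : ∀ a, p (σ (Sum.inl a)))
    (h2 : ∀ b, ¬ p (σ (Sum.inr b))) : O ≃ {i // p i} :=
  Equiv.ofBijective (fun a => ⟨σ (Sum.inl a), h1 a⟩) (by
    constructor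
    · intro a b hab
      have := σ.injective (congrArg Subtype.val hab)
      exact Sum.inl_injective this
    · rintro ⟨i, hi⟩
      obtain ⟨x, rfl⟩ := σ.surjective i
      rcases x with a | b
      · exact ⟨a, rfl⟩
      · exact absurd hi (h2 b))

/-- The second summand enumerates the elements without `p`. -/
def eqR_PosAlg (σ : O ⊕ E ≃ N) (p : N → Prop) (h1 : ∀ a, p (σ (Sum.inl a)))
    (h2 : ∀ b, ¬ p (σ (Sum.inr b))) : E ≃ {i // ¬ p i} :=
  Equiv.ofBijective (fun a => ⟨σ (Sum.inr a), h2 a⟩) (by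
    constructor
    · intro a b hab
      have := σ.injective (congrArg Subtype.val hab)
      exact Sum.inr_injective this
    · rintro ⟨i, hi⟩
      obtain ⟨x, rfl⟩ := σ.surjective i
      rcases x with a | b
      · exact absurd (h1 a) hi
      · exact ⟨b, rfl⟩)

theorem isTor_PosAlg [Fintype N] [DecidableEq N] [Fintype O] [DecidableEq O] (σ : O ⊕ E ≃ N)
    (deg : N → ℕ) (h1 : ∀ a, Odd (deg (σ (Sum.inl a)))) (h2 : ∀ b, ¬ Odd (deg (σ (Sum.inr b))))
    (d h : Matrix N N R) (hc : IsCtr deg d h) (ε : O ≃ E) :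
    IsTor deg d (det (((d + h).submatrix (σ ∘ Sum.inr) (σ ∘ Sum.inl)).submatrix ε id)) := by
  let l := eqL_PosAlg σ (fun i => Odd (deg i)) h1 h2
  let r := eqR_PosAlg σ (fun i => Odd (deg i)) h1 h2
  refine ⟨h, hc, l.symm.trans (ε.trans r), ?_⟩
  rw [← det_submatrix_equiv_self l]
  congr 1
  ext i j
  simp only [submatrix_apply, of_apply, Equiv.trans_apply, Equiv.symm_apply_apply, id,
    Function.comp]
  rfl

theorem par_PosAlg [Fintype N] [DecidableEq N] {deg : N → ℕ} {d h : Matrix N N R}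
    (hd : ∀ i j, d i j ≠ 0 → deg j = deg i + 1) (hh : ∀ i j, h i j ≠ 0 → deg i = deg j + 1)
    (i j : N) (hij : Odd (deg i) ↔ Odd (deg j)) : (d + h) i j = 0 := by
  have h1 : d i j = 0 := by
    by_contra hne
    have := hd i j hne
    rw [this, Nat.odd_add_one] at hij
    tauto
  have h2 : h i j = 0 := by
    by_contra hne
    have := hh i j hne
    rw [this, Nat.odd_add_one] at hij
    tauto
  simp [h1, h2]

theorem mul3_ne_PosAlg {a b c e : Type} [Fintype b] [Fintype c] (A : Matrix a b R)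
    (B : Matrix b c R) (C : Matrix c e R) (i : a) (j : e) (h : (A * B * C) i j ≠ 0) :
    ∃ k l, A i k ≠ 0 ∧ B k l ≠ 0 ∧ C l j ≠ 0 := by
  rw [Matrix.mul_apply] at h
  obtain ⟨l, -, hl⟩ := Finset.exists_ne_zero_of_sum_ne_zero h
  have h1 := left_ne_zero_of_mul hl
  rw [Matrix.mul_apply] at h1
  obtain ⟨k, -, hk⟩ := Finset.exists_ne_zero_of_sum_ne_zero h1
  exact ⟨k, l, left_ne_zero_of_mul hk, right_ne_zero_of_mul hk, right_ne_zero_of_mul hl⟩

end Gen

section Q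

variable {R I I' W1 W2 W3 : Type} [CommRing R] [DecidableEq I] [DecidableEq I']

/-- The identity on `I` and `I'`, and `A`, `B` on the two copies. -/
def q4_PosAlg (I I' : Type) [DecidableEq I] [DecidableEq I'] (A B : Matrix W1 W2 R) :
    Matrix (I ⊕ (I' ⊕ (W1 ⊕ W1))) (I ⊕ (I' ⊕ (W2 ⊕ W2))) R :=
  fromBlocks 1 0 0 (fromBlocks 1 0 0 (fromBlocks A 0 0 B))

theorem q4_mul_PosAlg [Fintype I] [Fintype I'] [Fintype W2] (A B : Matrix W1 W2 R)
    (A' B' : Matrix W2 W3 R) :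
    q4_PosAlg I I' A B * q4_PosAlg I I' A' B' = q4_PosAlg I I' (A * A') (B * B') := by
  simp [q4_PosAlg, fromBlocks_multiply]

theorem q4_one_PosAlg [DecidableEq W1] :
    q4_PosAlg I I' (1 : Matrix W1 W1 R) 1 = 1 := by
  simp [q4_PosAlg, fromBlocks_one]

theorem q4_map_PosAlg {S : Type} [CommRing S] (f : R →+* S) (A B : Matrix W1 W2 R) :
    (q4_PosAlg I I' A B).map f = q4_PosAlg I I' (A.map f) (B.map f) := by
  simp [q4_PosAlg, fromBlocks_map, Matrix.map_one f (map_zero f) (map_one f),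
    Matrix.map_zero f (map_zero f)]

theorem q4_deg_PosAlg (deg : I → ℕ) (deg' : I' → ℕ) (A B : Matrix W1 W2 R)
    (i : I ⊕ (I' ⊕ (W1 ⊕ W1))) (j : I ⊕ (I' ⊕ (W2 ⊕ W2))) (h : q4_PosAlg I I' A B i j ≠ 0) :
    dcone deg deg' (d23 W1) i = dcone deg deg' (d23 W2) j := by
  rcases i with i | i | i | i <;> rcases j with j | j | j | j <;>
    simp [q4_PosAlg, dcone, d23, Matrix.one_apply] at h ⊢
  · rw [h.1]
  · rw [h.1]

theorem q4_cone_PosAlg [Fintype I] [Fintype I'] [Fintype W2] (A B : Matrix W1 W2 R)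
    (A' B' : Matrix W2 W1 R) (D : Matrix I I R) (Φ : Matrix I I' R) (Wm : Matrix I (W2 ⊕ W2) R)
    (D' : Matrix I' I' R) (Z : Matrix I' (W2 ⊕ W2) R) :
    q4_PosAlg I I' A B * cone D Φ Wm D' Z * q4_PosAlg I I' A' B' =
      cone D Φ (Wm * fromBlocks A' 0 0 B') D' (Z * fromBlocks A' 0 0 B') := by
  simp [q4_PosAlg, cone, fromBlocks_multiply, fromCols_mul_fromBlocks, fromBlocks_neg]

omit [DecidableEq I] [DecidableEq I'] in
theorem cone_map_PosAlg {S K : Type} [CommRing S] (f : R →+* S) (D : Matrix I I R)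
    (Φ : Matrix I I' R) (Wm : Matrix I K R) (D' : Matrix I' I' R) (Z : Matrix I' K R) :
    (cone D Φ Wm D' Z).map f = cone (D.map f) (Φ.map f) (Wm.map f) (D'.map f) (Z.map f) := by
  ext i j
  rcases i with i | i | i <;> rcases j with j | j | j <;> simp [cone]

/-- The parity predicate on the cells of `I` and `I'`. -/
def par0_PosAlg (deg : I → ℕ) (deg' : I' → ℕ) (i : I ⊕ I') : Prop :=
  Odd (Sum.elim deg (fun i => deg' i + 1) i)

/-- Odd cells. -/
abbrev Io_PosAlg (deg : I → ℕ) (deg' : I' → ℕ) : Type := {i // par0_PosAlg deg deg' i}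

/-- Even cells. -/
abbrev Ie_PosAlg (deg : I → ℕ) (deg' : I' → ℕ) : Type := {i // ¬ par0_PosAlg deg deg' i}

/-- Odd and even cells. -/
def sg_PosAlg (deg : I → ℕ) (deg' : I' → ℕ) (W : Type) :
    (Io_PosAlg deg deg' ⊕ W) ⊕ (Ie_PosAlg deg deg' ⊕ W) ≃ I ⊕ (I' ⊕ (W ⊕ W)) :=
  (Equiv.sumSumSumComm _ _ _ _).trans
    (((Equiv.sumCompl (par0_PosAlg deg deg')).sumCongr (Equiv.refl _)).trans
      (Equiv.sumAssoc _ _ _))

/-- The inclusion of the cells of `I` and `I'`. -/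
def inc_PosAlg (W : Type) : I ⊕ I' → I ⊕ (I' ⊕ (W ⊕ W)) := Sum.elim Sum.inl (Sum.inr ∘ Sum.inl)

variable (deg : I → ℕ) (deg' : I' → ℕ)

omit [DecidableEq I] [DecidableEq I'] in
theorem sg_ll_PosAlg (W : Type) (a) :
    sg_PosAlg deg deg' W (Sum.inl (Sum.inl a)) = inc_PosAlg W a.1 := by
  obtain ⟨a | a, ha⟩ := a <;> rfl

omit [DecidableEq I] [DecidableEq I'] in
theorem sg_rl_PosAlg (W : Type) (a) :
    sg_PosAlg deg deg' W (Sum.inr (Sum.inl a)) = inc_PosAlg W a.1 := by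
  obtain ⟨a | a, ha⟩ := a <;> rfl

omit [DecidableEq I] [DecidableEq I'] in
theorem sg_lr_PosAlg (W : Type) (a) :
    sg_PosAlg deg deg' W (Sum.inl (Sum.inr a)) = Sum.inr (Sum.inr (Sum.inl a)) := rfl

omit [DecidableEq I] [DecidableEq I'] in
theorem sg_rr_PosAlg (W : Type) (a) :
    sg_PosAlg deg deg' W (Sum.inr (Sum.inr a)) = Sum.inr (Sum.inr (Sum.inr a)) := rfl

omit [DecidableEq I] [DecidableEq I'] in
theorem sg_odd_PosAlg (W : Type) (a) :
    Odd (dcone deg deg' (d23 W) (sg_PosAlg deg deg' W (Sum.inl a))) := by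
  rcases a with ⟨a | a, ha⟩ | a
  · exact ha
  · exact ha
  · exact (by decide : Odd 3)

omit [DecidableEq I] [DecidableEq I'] in
theorem sg_even_PosAlg (W : Type) (a) :
    ¬ Odd (dcone deg deg' (d23 W) (sg_PosAlg deg deg' W (Sum.inr a))) := by
  rcases a with ⟨a | a, ha⟩ | a
  · exact ha
  · exact ha
  · exact (by decide : ¬ Odd 4)

theorem q4_inc_PosAlg (A B : Matrix W1 W2 R) (a b : I ⊕ I') :
    q4_PosAlg I I' A B (inc_PosAlg W1 a) (inc_PosAlg W2 b) = if a = b then 1 else 0 := by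
  rcases a with a | a <;> rcases b with b | b <;> simp [q4_PosAlg, inc_PosAlg, Matrix.one_apply]

theorem q4_incl_PosAlg (A B : Matrix W1 W2 R) (a : I ⊕ I') (b : W2 ⊕ W2) :
    q4_PosAlg I I' A B (inc_PosAlg W1 a) (Sum.inr (Sum.inr b)) = 0 := by
  rcases a with a | a <;> simp [q4_PosAlg, inc_PosAlg]

theorem q4_incr_PosAlg (A B : Matrix W1 W2 R) (a : I ⊕ I') (b : W1 ⊕ W1) :
    q4_PosAlg I I' A B (Sum.inr (Sum.inr b)) (inc_PosAlg W2 a) = 0 := by
  rcases a with a | a <;> simp [q4_PosAlg, inc_PosAlg]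

theorem q4_oo_PosAlg (A B : Matrix W1 W2 R) :
    (q4_PosAlg I I' A B).submatrix (sg_PosAlg deg deg' W1 ∘ Sum.inl)
      (sg_PosAlg deg deg' W2 ∘ Sum.inl) = fromBlocks 1 0 0 A := by
  ext i j
  rcases i with i | i <;> rcases j with j | j <;>
    simp only [submatrix_apply, Function.comp, sg_ll_PosAlg, sg_lr_PosAlg, q4_inc_PosAlg,
      q4_incl_PosAlg, q4_incr_PosAlg]
  · simp [Matrix.one_apply, Subtype.ext_iff]
  · simp
  · simp
  · simp [q4_PosAlg]

theorem q4_ee_PosAlg (A B : Matrix W1 W2 R) :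
    (q4_PosAlg I I' A B).submatrix (sg_PosAlg deg deg' W1 ∘ Sum.inr)
      (sg_PosAlg deg deg' W2 ∘ Sum.inr) = fromBlocks 1 0 0 B := by
  ext i j
  rcases i with i | i <;> rcases j with j | j <;>
    simp only [submatrix_apply, Function.comp, sg_rl_PosAlg, sg_rr_PosAlg, q4_inc_PosAlg,
      q4_incl_PosAlg, q4_incr_PosAlg]
  · simp [Matrix.one_apply, Subtype.ext_iff]
  · simp
  · simp
  · simp [q4_PosAlg]

theorem q4_oe_PosAlg (A B : Matrix W1 W2 R) :
    (q4_PosAlg I I' A B).submatrix (sg_PosAlg deg deg' W1 ∘ Sum.inl)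
      (sg_PosAlg deg deg' W2 ∘ Sum.inr) = 0 := by
  ext i j
  by_contra hne
  have := q4_deg_PosAlg deg deg' A B _ _ hne
  exact sg_even_PosAlg deg deg' W2 j (this ▸ sg_odd_PosAlg deg deg' W1 i)

theorem q4_eo_PosAlg (A B : Matrix W1 W2 R) :
    (q4_PosAlg I I' A B).submatrix (sg_PosAlg deg deg' W1 ∘ Sum.inr)
      (sg_PosAlg deg deg' W2 ∘ Sum.inl) = 0 := by
  ext i j
  by_contra hne
  have := q4_deg_PosAlg deg deg' A B _ _ hne
  exact sg_even_PosAlg deg deg' W1 i (this ▸ sg_odd_PosAlg deg deg' W2 j)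

/-- The odd to even block of a compressed matrix. -/
theorem q4_blk_PosAlg [Fintype I] [Fintype I'] [Fintype W2] (A B : Matrix W1 W2 R)
    (A' B' : Matrix W2 W3 R) (M : Matrix (I ⊕ (I' ⊕ (W2 ⊕ W2))) (I ⊕ (I' ⊕ (W2 ⊕ W2))) R) :
    (q4_PosAlg I I' A B * M * q4_PosAlg I I' A' B').submatrix (sg_PosAlg deg deg' W1 ∘ Sum.inr)
      (sg_PosAlg deg deg' W3 ∘ Sum.inl) =
    (fromBlocks 1 0 0 B : Matrix (Ie_PosAlg deg deg' ⊕ W1) (Ie_PosAlg deg deg' ⊕ W2) R) *
      M.submatrix (sg_PosAlg deg deg' W2 ∘ Sum.inr) (sg_PosAlg deg deg' W2 ∘ Sum.inl) *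
      (fromBlocks 1 0 0 A' : Matrix (Io_PosAlg deg deg' ⊕ W2) (Io_PosAlg deg deg' ⊕ W3) R) := by
  rw [splitS_PosAlg (sg_PosAlg deg deg' W2), q4_oo_PosAlg, q4_eo_PosAlg, Matrix.mul_zero, add_zero,
    splitS_PosAlg (sg_PosAlg deg deg' W2), q4_ee_PosAlg, q4_eo_PosAlg, Matrix.zero_mul, zero_add]

end Q

end

end Pool.Agent.MP_6374aa_gt
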