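import Pool.Agent.MP_6374aa_gt.FrH

/-! Relative coordinates on the infinite cyclic cover of the second summand. -/

namespace Pool.Agent.MP_6374aa_gt

open Classical Matrix

set_option linter.unusedSectionVars false

variable {V L Q : Type} [Fintype L] [Fintype Q] {G : SimpleGraph V} {M : Set V} {v : V}
  {lz : V → V → Zm} {ζ : EA V} {σL : L → Finset V} {σQ : Q → Finset V}

theorem up_lk_sub (G : SimpleGraph V) (M : Set V) (v : V) (Ω : Type) :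
    up (Lk G M {v}) Ω ⊆ up (cst G M v) Ω := fun _ hp => Set.mem_insert_of_mem _ hp

theorem cst_sub_SdA (hv : v ∈ M) : cst G M v ⊆ M := by
  rintro w (rfl | hw)
  · exact hv
  · exact hw.1

theorem up_cst_sub {Ω : Type} (hv : v ∈ M) : up (cst G M v) Ω ⊆ up M Ω :=
  fun _ hp => cst_sub_SdA hv hp

theorem star_SdA {s : Finset V} (hs : s ∈ sdA G M) (hv : v ∈ s) : ↑s ⊆ cst G M v := by
  intro w hw
  by_cases e : w = v
  · exact Or.inl e
  · refine Or.inr ⟨hs.2.1 hw, ?_⟩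
    rintro u rfl
    exact hs.2.2 hv hw (Ne.symm e)

theorem tw_zero_SdA {I J : Type} {σ : I → Finset V} {τ : J → Finset V}
    {N : Finset V → Finset V → ℚ} (h : ∀ i j, N (σ i) (τ j) = 0) : tw v lz N σ τ = 0 := by
  ext1 i j
  by_contra h1
  exact tw_ne_FrH h1 (h i j)

omit [Fintype L] in
theorem elim_SdA {J : Type} [Fintype J] (N : Finset V → Finset V → ℚ) (τ : J → Finset V)
    (x : J → RC Zm) : (tw v lz N (Sum.elim σQ σL) τ).mulVec x =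
      Sum.elim ((tw v lz N σQ τ).mulVec x) ((tw v lz N σL τ).mulVec x) := by
  funext i
  cases i <;> rfl

theorem blocks_SdA : tw v lz bD (Sum.elim σQ σL) (Sum.elim σQ σL) = fromBlocks (tw v lz bD σQ σQ)
    (tw v lz bD σQ σL) (tw v lz bD σL σQ) (tw v lz bD σL σL) := by
  ext1 i j
  cases i <;> cases j <;> rfl

theorem adj_SdA (h : tw v lz bD σQ σL = 0) (x : Q → RC Zm) :
    (tw v lz bD (Sum.elim σQ σL) (Sum.elim σQ σL))ᴴ.mulVec (Sum.elim x 0) =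
      Sum.elim ((tw v lz bD σQ σQ)ᴴ.mulVec x) 0 := by
  rw [blocks_SdA, h, fromBlocks_conjTranspose, fromBlocks_mulVec]
  simp

theorem dg_SdA {n : ℕ} {x : Q → RC Zm} (hx : Dg (dgc σQ) n x) :
    Dg (dgc (Sum.elim σQ σL)) n (Sum.elim x 0) := by
  rintro (i | i) hi
  · exact hx i hi
  · rfl

theorem dg_mul_SdA {I J : Type} [Fintype J] {σ : I → Finset V} {τ : J → Finset V}
    {N : Finset V → Finset V → ℚ} {n : ℕ} {x : J → RC Zm}
    (h : ∀ i j, N (σ i) (τ j) ≠ 0 → x j ≠ 0 → dgc σ i = n) :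
    Dg (dgc σ) n ((tw v lz N σ τ).mulVec x) := by
  intro i hi
  by_contra h1
  obtain ⟨j, -, hj⟩ := Finset.exists_ne_zero_of_sum_ne_zero h1
  exact hi (h i j (tw_ne_FrH (left_ne_zero_of_mul hj)) (right_ne_zero_of_mul hj))

namespace SideH

variable (h : SideH G M v lz ζ σL σQ)

include h

theorem memQ_SdA (i : Q) : σQ i ∈ sdA G M := (h.eQ.mem_FrH i).1

theorem subL_SdA (i : L) : ↑(σL i) ⊆ Lk G M {v} := (h.eL.mem_FrH i).2.1

theorem memL_SdA (i : L) : σL i ∈ sdA G M :=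
  ⟨(h.eL.mem_FrH i).1, fun _ hw => (h.subL_SdA i hw).1, (h.eL.mem_FrH i).2.2⟩

theorem ex_SdA : ∃ (S : Type) (_ : Fintype S) (σS : S → Finset V),
    Enum (Sum.elim σQ (Sum.elim σL σS)) (sdA G M) ∧ (∀ s, v ∈ σS s) ∧
      (∀ r, ↑(Sum.elim σL σS r) ⊆ cst G M v) ∧ tw v lz bD σQ (Sum.elim σL σS) = 0 := by
  obtain ⟨S, _, _, σS, hS⟩ := exists_enum (X := {s | s ∈ sdA G M ∧ v ∈ s})
    ((sdA_finite G h.mf.1).subset fun _ hs => hs.1)
  have h1 : ∀ s ∈ sdA G (Lk G M {v}), v ∉ s := fun s hs hv => (G.irrefl ((hs.2.1 hv).2 v rfl))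
  have h2 := h.eL.sum hS (Set.disjoint_left.2 fun s hs hs' => h1 s hs hs'.2)
  have h3 : ∀ s ∈ sdA G (Lk G M {v}) ∪ {s | s ∈ sdA G M ∧ v ∈ s}, ↑s ⊆ cst G M v := by
    rintro s (hs | hs)
    · exact hs.2.1.trans (Set.subset_insert _ _)
    · exact star_SdA hs.1 hs.2
  have h4 := h.eQ.sum h2 (Set.disjoint_left.2 fun s hs hs' => hs.2 (h3 s hs'))
  have h5 : ∀ r, ↑(Sum.elim σL σS r) ⊆ cst G M v := fun r => h3 _ (h2.mem_FrH r)
  refine ⟨S, inferInstance, σS, ⟨h4.1, h4.2.trans ?_⟩, fun s => (hS.mem_FrH s).2, h5,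
    tw_zero_SdA fun i j => ?_⟩
  · ext s
    constructor
    · rintro (hs | hs | hs)
      · exact hs.1
      · exact ⟨hs.1, fun _ hw => (hs.2.1 hw).1, hs.2.2⟩
      · exact hs.1
    · intro hs
      by_cases e : ↑s ⊆ cst G M v
      · by_cases hv : v ∈ s
        · exact Or.inr (Or.inr ⟨hs, hv⟩)
        · refine Or.inr (Or.inl ⟨hs.1, fun w hw => ?_, hs.2.2⟩)
          rcases e hw with rfl | e
          · exact absurd hw hv
          · exact e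
      · exact Or.inl ⟨hs, e⟩
  · by_contra e
    exact (h.eQ.mem_FrH i).2 ((Finset.coe_subset.2 (bD_ne e).1).trans (h5 j))

theorem eta : Eta (cov G lz Zm) (up M Zm) (etaL lz (lc ζ)) :=
  (eta_of_mf h.mf h.top h.ne).cov h.flat

theorem ev_mem {n : ℕ} {x : Q → RC Zm} (hx : Dg (dgc σQ) n x) :
    evT v lz σQ x ∈ Ch (cov G lz Zm) (up M Zm) (n + 1) :=
  evT_mem h.flat h.memQ_SdA fun i hi =>
    ⟨hx.card_FrH (fun i => (h.memQ_SdA i).1) hi, (h.memQ_SdA i).2.1⟩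

theorem evL_mem {n : ℕ} {x : L → RC Zm} (hx : Dg (dgc σL) n x) :
    evT v lz σL x ∈ Ch (cov G lz Zm) (up (Lk G M {v}) Zm) (n + 1) :=
  evT_mem h.flat h.memL_SdA fun i hi =>
    ⟨hx.card_FrH (fun i => (h.memL_SdA i).1) hi, h.subL_SdA i⟩

theorem evL_inj {x : L → RC Zm} (hx : evT v lz σL x = 0) : x = 0 :=
  evT_injective h.eL.1 (fun i => (h.memL_SdA i).1) hx

theorem dg_d {n : ℕ} {x : Q → RC Zm} (hx : Dg (dgc σQ) (n + 1) x) :
    Dg (dgc σQ) n ((tw v lz bD σQ σQ).mulVec x) ∧ Dg (dgc σL) n ((tw v lz bD σL σQ).mulVec x) := by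
  constructor <;> refine dg_mul_SdA fun i j h1 h2 => ?_ <;>
  · have h3 := (bD_ne h1).2
    have h4 := hx.card_FrH (fun i => (h.memQ_SdA i).1) h2
    unfold dgc
    omega

theorem dg_g (x : Q → RC Zm) : Dg (dgc σQ) 2 ((tw v lz (bG (lc ζ)) σQ σQ).mulVec x) ∧
    Dg (dgc σL) 2 ((tw v lz (bG (lc ζ)) σL σQ).mulVec x) := by
  constructor <;> refine dg_mul_SdA fun i j h1 _ => ?_ <;>
  · have h3 := (bG_ne (eta0_lc h.mf.1 h.top) h1).1
    unfold dgc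
    omega

theorem dgc_le (i : Q) : dgc σQ i ≤ 3 := by
  have := (h.mf.2.2.1 (σQ i) (h.memQ_SdA i).1 (h.memQ_SdA i).2.1 (h.memQ_SdA i).2.2).1
  unfold dgc
  omega

theorem bd_ev {n : ℕ} {x : Q → RC Zm} (hx : Dg (dgc σQ) (n + 1) x) :
    bd (evT v lz σQ x) = evT v lz σQ ((tw v lz bD σQ σQ).mulVec x) +
      evT v lz σL ((tw v lz bD σL σQ).mulVec x) := by
  obtain ⟨S, _, σS, h1, h2, -, -⟩ := h.ex_SdA
  have h3 : tw v lz bD σS σQ = 0 := tw_zero_SdA fun i j => by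
    by_contra e
    exact (h.eQ.mem_FrH j).2 (star_SdA (h.memQ_SdA j) ((bD_ne e).1 (h2 i)))
  rw [← evT_bd h.flat h1 h.memQ_SdA fun j hj => by
    have := hx.card_FrH (fun i => (h.memQ_SdA i).1) hj
    omega, elim_SdA, elim_SdA, evT_elim, evT_elim, h3, zero_mulVec, evT_zero, add_zero]

theorem cap_ev (x : Q → RC Zm) : cap1 (etaL lz (lc ζ)) (ef (evT v lz σQ x)) =
    evT v lz σQ ((tw v lz (bG (lc ζ)) σQ σQ).mulVec x) +
      evT v lz σL ((tw v lz (bG (lc ζ)) σL σQ).mulVec x) := by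
  obtain ⟨S, _, σS, h1, h2, -, -⟩ := h.ex_SdA
  have h0 := eta0_lc h.mf.1 h.top
  have h3 : tw v lz (bG (lc ζ)) σS σQ = 0 := tw_zero_SdA fun i j => by
    by_contra e
    exact (h.eQ.mem_FrH j).2 ((Finset.coe_subset.2 Finset.subset_union_right).trans
      (star_SdA (bG_ne h0 e).2.2.1 (Finset.mem_union_left _ (h2 i))))
  rw [← evT_cap h.flat h0 h1 h.memQ_SdA, elim_SdA, elim_SdA, evT_elim, evT_elim, h3, zero_mulVec,
    evT_zero, add_zero]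

theorem decomp {n : ℕ} {z : EA (V × Zm)} (hz : z ∈ Ch (cov G lz Zm) (up M Zm) (n + 1)) :
    ∃ x c, Dg (dgc σQ) n x ∧ c ∈ Ch (cov G lz Zm) (up (cst G M v) Zm) (n + 1) ∧
      z = evT v lz σQ x + c := by
  obtain ⟨S, _, σS, h1, -, h2, -⟩ := h.ex_SdA
  obtain ⟨y, hy, rfl⟩ := exists_evT (v0 := v) h.flat subset_rfl (by simp)
    (fun s hs _ => h1.2.symm ▸ hs) hz
  refine ⟨y ∘ Sum.inl, evT v lz (Sum.elim σL σS) (y ∘ Sum.inr), fun i hi => ?_,
    evT_mem h.flat (fun r => h1.mem_FrH (Sum.inr r)) fun r hr => ⟨(hy (Sum.inr r) hr).1, h2 r⟩,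
    by rw [← evT_elim, Sum.elim_comp_inl_inr]⟩
  by_contra e
  have : (σQ i).card = n + 1 := (hy (Sum.inl i) e).1
  exact hi (by rw [dgc, this]; rfl)

theorem eq_zero {n : ℕ} {x : Q → RC Zm}
    (hx : evT v lz σQ x ∈ Ch (cov G lz Zm) (up (cst G M v) Zm) n) : x = 0 := by
  funext i
  by_contra e
  exact (h.eQ.mem_FrH i).2 (coord_evT h.flat h.eQ.1 h.memQ_SdA (cst_sub_SdA h.mem) hx i e).2

theorem isCx [DecidableEq Q] : IsCx (dgc σQ) (tw v lz bD σQ σQ) := by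
  obtain ⟨S, _, σS, h1, -, -, h2⟩ := h.ex_SdA
  obtain ⟨h3, h4⟩ := isCx_tw (v0 := v) h.flat h1
  refine ⟨fun i j e => h3 (Sum.inl i) (Sum.inl j) e, ?_⟩
  rw [blocks_SdA, h2, fromBlocks_multiply, ← fromBlocks_zero, fromBlocks_inj] at h4
  simpa using h4.1

theorem coc_iff {x : Q → RC Zm} (hx : Dg (dgc σQ) 1 x) : (tw v lz bD σQ σQ)ᴴ.mulVec x = 0 ↔
    Coc (cov G lz Zm) (up M Zm) (ef (evT v lz σQ x)) := by
  obtain ⟨S, _, σS, h1, -, -, h2⟩ := h.ex_SdA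
  have h3 := evT_coc (v0 := v) h.flat h1 (dg_SdA hx)
  rw [adj_SdA h2, evT_elim, evT_zero, add_zero] at h3
  rw [← h3]
  exact ⟨fun e => by rw [e]; simp, fun e => funext fun i => congrFun e (Sum.inl i)⟩

theorem cob {x : Q → RC Zm} (hx : Dg (dgc σQ) 0 x) :
    Dg (dgc σQ) 1 ((tw v lz bD σQ σQ)ᴴ.mulVec x) ∧
      ∀ p ∈ up M Zm, ∀ q ∈ up M Zm, (cov G lz Zm).Adj p q →
        ef (evT v lz σQ ((tw v lz bD σQ σQ)ᴴ.mulVec x)) p q =
          sc (iv q (evT v lz σQ x)) - sc (iv p (evT v lz σQ x)) := by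
  obtain ⟨S, _, σS, h1, -, -, h2⟩ := h.ex_SdA
  have h3 := evT_cob (v0 := v) h.flat h1 (dg_SdA hx)
  rw [adj_SdA h2, evT_elim, evT_elim, evT_zero, add_zero, add_zero] at h3
  exact ⟨fun i hi => h3.1 (Sum.inl i) hi, h3.2⟩

end SideH

end Pool.Agent.MP_6374aa_gt
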