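import Pool.Agent.MP_6374aa_gt.IfM

/-! Types of sites pass along equivalences, connected sums and doubles. -/

namespace Pool.Agent.MP_6374aa_gt

open Classical

theorem pconn_SiteUp (hP : PConnCovStmt) {V L : Type} [Group L] {G : SimpleGraph V} {A : Set V}
    {P : GP G A} {x : P.X} {ρ : Gp G A →* L} (h : Unw P x ρ) :
    PConn (cov G (fun u w => ρ (gen G A u w)) L) (up A L) := by
  refine (hP V L G A _ (flat_hom ρ) P.conn P.y P.mem).2 fun l => ?_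
  obtain ⟨δ, h1, h2⟩ := h.surj l
  refine ⟨δ, P.fp.le x h1, ?_⟩
  rw [Gp.hom_ext (ρ := glift G A fun u w => ρ (gen G A u w)) (σ := ρ) (glift_gen (flat_hom ρ)), h2]

theorem val_SiteUp (hP : PConnCovStmt) {V V' : Type} {G : SimpleGraph V} {A : Set V}
    {G' : SimpleGraph V'} {A' : Set V'} {f : V' → V} (hf : IsHom G' A' G A f)
    (hV : CovV G' A' G A f) {P : GP G A} {x : P.X} {p : ℕ} [NeZero p] (hp : 5 ≤ p)
    {ρ : Gp G A →* Cp p} (h : Unw P x ρ) (τ : RH (Cp p)) :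
    ValC G' A' p (fun u w => (ρ.comp (gmap G' A' G A f)) (gen G' A' u w)) τ ↔
      ValC G A p (fun u w => ρ (gen G A u w)) τ := by
  have e : (fun u w => (ρ.comp (gmap G' A' G A f)) (gen G' A' u w)) =
      fun u w => ρ (gen G A (f u) (f w)) := by
    funext u w
    rw [MonoidHom.comp_apply, gmap_gen hf]
  rw [e]
  exact hV p hp _ (flat_hom ρ) (pconn_SiteUp hP h) τ

theorem inv_SiteUp {π π' : Type} [Group π] [Group π'] {ψ : π' →* π} {H' : Subgroup π'}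
    {H : Subgroup π} (h1 : ∀ δ ∈ H', ψ δ ∈ H) (h2 : ∀ δ ∈ H, ∃ δ' ∈ H', ψ δ' = δ)
    (h3 : ∀ δ ∈ H', ψ δ = 1 → δ = 1) (R : π →* π) (r1 : ∀ δ, R δ ∈ H) (r2 : ∀ δ ∈ H, R δ = δ) :
    ∃ σ : π →* π', ∀ δ ∈ H', σ (ψ δ) = δ := by
  let φ : H' →* H := (ψ.comp H'.subtype).codRestrict H fun δ => h1 δ δ.2
  have hb : Function.Bijective φ := by
    refine ⟨(injective_iff_map_eq_one φ).2 fun δ e =>
      Subtype.ext (h3 δ δ.2 (congrArg Subtype.val e)), fun δ => ?_⟩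
    obtain ⟨δ', a, b⟩ := h2 δ δ.2
    exact ⟨⟨δ', a⟩, Subtype.ext b⟩
  refine ⟨H'.subtype.comp ((MulEquiv.ofBijective φ hb).symm.toMonoidHom.comp (R.codRestrict H r1)),
    fun δ hδ => ?_⟩
  have e : R.codRestrict H r1 (ψ δ) = MulEquiv.ofBijective φ hb ⟨δ, hδ⟩ :=
    Subtype.ext (r2 _ (h1 δ hδ))
  change ((MulEquiv.ofBijective φ hb).symm (R.codRestrict H r1 (ψ δ)) : π') = δ
  rw [e, MulEquiv.symm_apply_apply]

theorem siteDown (hI : GDIsoStmt) (hP : PConnCovStmt) : SiteDownStmt := by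
  intro V V' G A G' A' f P P' j hD hV x L _ l χ ⟨θ, h⟩
  obtain ⟨m, hm⟩ := hI _ _ _ _ _ _ _ _ _ _ hD x
  refine ⟨m.symm.trans θ, fun hl p _ hp ρ hρ => ?_⟩
  obtain ⟨a, b, h1, h2⟩ := h hl p hp _ ((hm (Cp p) ρ).2.1 hρ)
  refine ⟨a, b, fun δ => ?_, (val_SiteUp hP hD.1 hV hp hρ _).1 h2⟩
  have := h1 (m.symm δ)
  rw [MonoidHom.comp_apply, (hm (Cp p) ρ).1, MulEquiv.apply_symm_apply] at this
  exact this

theorem siteUp (hI : GDIsoStmt) (hP : PConnCovStmt) (hG : ValGaugeStmt) : SiteUpStmt := by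
  intro V V' G A G' A' f P P' j hS hD hV x L _ l χ ⟨θ, h⟩
  obtain ⟨m, hm⟩ := hI _ _ _ _ _ _ _ _ _ _ hD x
  refine ⟨m.trans θ, fun hl p _ hp ρ' hρ => ?_⟩
  obtain ⟨hf, γ, -, hγ⟩ := hD
  obtain ⟨R, q, -, r1, r2, r3⟩ := exists_retraction P.conn P.mem
  obtain ⟨σ, hσ⟩ := inv_SiteUp hγ.map hγ.onto (fun δ hδ e => hS.faith _ δ ((mem_Loop P'.mem).1 hδ)
    ((MulAut.conj γ⁻¹).injective (e.trans (map_one _).symm))) R r3 fun δ hδ => by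
      rw [r2 _ _ δ ((mem_Loop P.mem).1 hδ), r1, inv_one, one_mul, mul_one]
  have he : ∀ δ ∈ Loop G' A' P'.y, ρ' δ = ((ρ'.comp σ).comp (gmap G' A' G A f)) δ := fun δ hδ => by
    have e : (ρ'.comp σ) (γ⁻¹ * gmap G' A' G A f δ * γ⁻¹⁻¹) = ρ' δ := congrArg ρ' (hσ δ hδ)
    rw [map_mul, map_mul, mul_right_comm, ← map_mul, mul_inv_cancel, map_one, one_mul] at e
    exact e.symm
  have hu : Unw P x (ρ'.comp σ) := (hm (Cp p) _).2.2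
    ⟨fun δ hδ e => hρ.inj δ hδ ((he δ (P'.fp.le _ hδ)).trans e), fun c => by
      obtain ⟨δ, a, b⟩ := hρ.surj c
      exact ⟨δ, a, (he δ (P'.fp.le _ a)).symm.trans b⟩,
    fun y hy δ hδ => (he δ (P'.fp.le _ hδ)).symm.trans (hρ.kill y hy δ hδ)⟩
  obtain ⟨a, b, h1, h2⟩ := h hl p hp _ hu
  obtain ⟨k, -, hk⟩ := exists_gauge P'.conn P'.mem he
  refine ⟨a, b, fun δ => ?_, (hG p V' G' A' _ _ k P'.fin3.1 (flat_hom _) hk _).2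
    ((val_SiteUp hP hf hV hp hu _).2 h2)⟩
  rw [he δ (P'.fp.le _ δ.2), MonoidHom.comp_apply, (hm (Cp p) _).1]
  exact h1 (m δ)

theorem qSType (hB : PbGStmt) (hV : QsCovVStmt) (hU : SiteUpStmt) : QSTypeStmt := by
  intro V V' G A G' A' f P hQ y' hy
  obtain ⟨P', b, h1, h2, h3⟩ := hB _ _ _ _ _ _ _ P hQ.se hQ.fin y' hy
  exact ⟨P', b, h1, h2, h3, hU _ _ _ _ _ _ _ _ _ _ hQ.se h2 (hV _ _ _ _ _ _ _ hQ P.fin3)⟩

theorem typed_SiteUp {V ι : Type} {G : SimpleGraph V} {A M B : Set V} {P1 : GP G A} {P2 : GP G M}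
    {Q : GP G B} {j1 : P1.X → Q.X} {j2 : P2.X → Q.X} {Λ : ι → Type} [∀ i, Group (Λ i)]
    {l : ι → Prop} {χ : ∀ i, Λ i → ℝ} (h1 : ∀ x', x' ∈ Set.range j1 ∨ x' ∈ Set.range j2)
    (h2 : Nonempty Q.S ↔ Nonempty P1.S ∨ Nonempty P2.S) (h3 : Pass P1 Q j1) (h4 : Pass P2 Q j2)
    (a : Typed2 P1 Λ l χ) (b : Typed2 P2 Λ l χ) : Typed2 Q Λ l χ := by
  refine ⟨fun x => ?_, fun h => (h2.1 h).elim a.2 b.2⟩
  rcases h1 x with ⟨y, rfl⟩ | ⟨y, rfl⟩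
  · obtain ⟨i, hi⟩ := a.1 y
    exact ⟨i, h3 y _ _ _ hi⟩
  · obtain ⟨i, hi⟩ := b.1 y
    exact ⟨i, h4 y _ _ _ hi⟩

theorem occ_SiteUp {V : Type} {G : SimpleGraph V} {A B : Set V} {P : GP G A} {Q : GP G B}
    {j : P.X → Q.X} {L : Type} [Group L] {l : Prop} {χ : L → ℝ}
    (h1 : Nonempty P.S → Nonempty Q.S) (h2 : Pass P Q j) (a : Occ P L l χ) : Occ Q L l χ :=
  fun h => (a h).imp (fun ⟨y, hy⟩ => ⟨j y, h2 y _ _ _ hy⟩) fun b => ⟨b.1, h1 b.2⟩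

theorem sumS2 (hG : GraftSite2Stmt) (hM : MfGraftStmt) : SumS2Stmt := by
  intro V ι G S Λ _ l χ hS A s h
  induction h with
  | one i =>
    obtain ⟨h1, Q, h2, h3, h4⟩ := hS i
    refine ⟨h1, Q, ⟨fun x => ⟨i, h2 x⟩, fun h => ⟨i, h3 h⟩⟩, ?_⟩
    rintro _ rfl
    exact h4
  | sum _ _ h ih1 ih2 =>
    obtain ⟨a1, P1, a2, a3⟩ := ih1
    obtain ⟨b1, P2, b2, b3⟩ := ih2
    obtain ⟨Q, j1, j2, -, h1, h2, h3, h4⟩ := hG _ _ _ _ _ _ P1 P2 h a1 b1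
    refine ⟨hM _ _ _ _ _ _ h a1 b1, Q, typed_SiteUp h1 h2 h3 h4 a2 b2, ?_⟩
    rintro i (hi | hi)
    · exact occ_SiteUp (fun e => h2.2 (Or.inl e)) h3 (a3 i hi)
    · exact occ_SiteUp (fun e => h2.2 (Or.inr e)) h4 (b3 i hi)

theorem doubleS2 (hG : GraftSite2Stmt) (hM : MfGraftStmt) (hI : MfIsoStmt) (hB : MfBasicStmt)
    (hQ : QSTypeStmt) (hC : ClQSStmt) (hL : GraftCovLStmt) : DoubleS2Stmt := by
  intro L' L c h hA
  cases h with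
  | mk G A M A' v f h hf =>
    have h1 : Mf G M := (hI _ _ _ _ _ _ _ hf).1 hA
    have h2 := hC _ _ _ _ _ _ _ hf.cl (hB _ _ _ h1).1
    refine ⟨hM _ _ _ _ _ _ h hA h1, fun P => ?_, hL _ _ _ _ _ _ h (hB _ _ _ hA).1 h1, ?_⟩
    · obtain ⟨P', -⟩ := hQ _ _ _ _ _ _ _ P h2 v h.memM
      obtain ⟨Q, j1, _, e1, -⟩ := hG _ G A M A' v P P' h hA h1
      exact ⟨Q, j1, e1⟩
    · rintro ι Λ _ l χ ⟨P, hP⟩
      obtain ⟨P', b, -, -, e1, e2⟩ := hQ _ _ _ _ _ _ _ P h2 v h.memM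
      obtain ⟨Q, j1, j2, -, h3, h4, h5, h6⟩ := hG _ G A M A' v P P' h hA h1
      refine ⟨Q, typed_SiteUp h3 h4 h5 h6 hP ⟨fun y => ?_, fun e => hP.2 (e1.1 e)⟩⟩
      obtain ⟨z, rfl⟩ := b.surjective y
      obtain ⟨i, hi⟩ := hP.1 z
      exact ⟨i, e2 z _ _ _ hi⟩

end Pool.Agent.MP_6374aa_gt
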