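import Pool.Agent.MP_6374aa_gt.IfQ

/-! The phase value does not depend on the frame and is unique up to trivial phases. -/

namespace Pool.Agent.MP_6374aa_gt

open Classical Matrix

noncomputable section

variable {V : Type} {G : SimpleGraph V} {A : Set V} {C : Type} [CommGroup C] [Fintype C]
  {α : C →* Equiv.Perm V}

omit [Fintype C] in
theorem rep_ValAny2 (F F0 : Frame G A α) (i : F.I) : ∃ p : C × F0.I,
    (F.s i).toFinset = (F0.s p.2).toFinset.map (α p.1).toEmbedding :=
  (F0.rep _ (by simpa using F.ne i) (isCl_toFinset (F.cl i)).1 (isCl_toFinset (F.cl i)).2).exists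

omit [Fintype C] in
theorem inv_ValAny2 (F : Frame G A α) {i i' : F.I} {σ : Finset V} {g k : C}
    (h1 : (F.s i).toFinset = σ.map (α g).toEmbedding)
    (h2 : σ = (F.s i').toFinset.map (α k).toEmbedding) : i' = i := by
  have h3 := (F.rep _ (by simpa using F.ne i) (isCl_toFinset (F.cl i)).1
    (isCl_toFinset (F.cl i)).2).unique (y₁ := (g * k, i')) (y₂ := (1, i))
    (by rw [h1, h2, Finset.map_map, map_mul]; rfl)
    (by rw [map_one]; exact Finset.map_refl.symm)
  exact (Prod.mk.inj h3).2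

theorem mono_ValAny2 (F F0 : Frame G A α) : ∃ (e : F.I ≃ F0.I) (c : F.I → RC C),
    (∀ i, InU (star (c i)) ∧ star (c i) * c i = 1) ∧ F0.deg ∘ e = F.deg ∧
    ∀ i, wedge (F.s i) = act α (c i) (wedge (F0.s (e i))) := by
  choose p hp using rep_ValAny2 F F0
  choose q hq using rep_ValAny2 F0 F
  have hperm : ∀ i, (F.s i).Perm ((F0.s (p i).2).map (α (p i).1)) := fun i =>
    List.perm_of_nodup_nodup_toFinset_eq (F.nodup i) ((F0.nodup _).map (α _).injective)
      ((hp i).trans (toFinset_map_FrA _ _).symm)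
  have hs : ∀ i, ∃ s : ℚ, s * s = 1 ∧
      wedge (F.s i) = s • wedge ((F0.s (p i).2).map (α (p i).1)) := fun i => by
    rcases wedge_perm (hperm i) with h | h
    · exact ⟨1, one_mul 1, by rw [h, one_smul]⟩
    · exact ⟨-1, by norm_num, by rw [h, neg_one_smul]⟩
  choose s s1 s2 using hs
  refine ⟨⟨fun i => (p i).2, fun j => (q j).2, fun i => inv_ValAny2 F (hp i) (hq _),
    fun j => inv_ValAny2 F0 (hq j) (hp _)⟩, fun i => MonoidAlgebra.single (p i).1 (s i),
    fun i => ⟨⟨s i, (p i).1⁻¹, left_ne_zero_of_mul_eq_one (s1 i), star_single _ _⟩, ?_⟩,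
    funext fun i => ?_, fun i => ?_⟩
  · rw [star_single, MonoidAlgebra.single_mul_single, inv_mul_cancel, s1 i]
    rfl
  · have h := (hperm i).length_eq
    rw [List.length_map] at h
    exact congrArg (· - 1) h.symm
  · rw [act_single, emap_wedge]
    exact s2 i

theorem ent_ValAny2 (h : Act G A α) {F F0 : Frame G A α} {e : F.I ≃ F0.I} {c : F.I → RC C}
    (hc : ∀ i, star (c i) * c i = 1) (hw : ∀ i, wedge (F.s i) = act α (c i) (wedge (F0.s (e i))))
    {M : Matrix F.I F.I (RC C)} {M0 : Matrix F0.I F0.I (RC C)}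
    (H : ∀ j, F.ev (fun i => M i j) = act α (c j) (F0.ev fun k => M0 k (e j))) :
    M.map (evH C) = (diagonal (fun k => evH C (star (c (e.symm k)))) * M0.map (evH C) *
      (diagonal fun k => evH C (star (c (e.symm k))))ᴴ).submatrix e e := by
  ext1 i j
  have h1 : (fun k => M (e.symm k) j * c (e.symm k)) = c j • fun k => M0 k (e j) := by
    refine F0.ev_injective h ?_
    rw [F0.ev_smul, ← H j, Frame.ev, Frame.ev, ← e.sum_comp]
    refine Finset.sum_congr rfl fun i _ => ?_
    rw [e.symm_apply_apply, act_mul, ← hw i]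
  have h2 : M i j * c i = c j * M0 (e i) (e j) := by
    simpa using congrFun h1 (e i)
  have h3 : M i j = star (c i) * M0 (e i) (e j) * c j := by
    linear_combination star (c i) * h2 - M i j * hc i
  rw [submatrix_apply, diagonal_conjTranspose, mul_diagonal, diagonal_mul, Pi.star_apply,
    e.symm_apply_apply, e.symm_apply_apply, ← evH_star, star_star, map_apply, map_apply, h3,
    map_mul, map_mul]

theorem valAny2 (hM : ValMonoStmt) : ValAny2Stmt := by
  intro C _ _ V G A α ζ τ h hζ hval F D Γ hD hΓ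
  obtain ⟨F0, D0, Γ0, hD0, hΓ0, hv⟩ := hval
  obtain ⟨e, c, hc, hd, hw⟩ := mono_ValAny2 F F0
  have hd' : ∀ j, F0.deg (e j) = F.deg j := congrFun hd
  rw [ent_ValAny2 h (fun i => (hc i).2) hw (M0 := D0) fun j => ?_,
    ent_ValAny2 h (fun i => (hc i).2) hw (M0 := Γ0) fun j => ?_, ← hd]
  · refine hM C _ _ _ _ _ e _ τ (fun k => ⟨(hc _).1.inP, ?_⟩) hv
    rw [← evH_star, star_star, ← map_mul, (hc _).2, map_one]
  · rw [hΓ j, hΓ0 (e j), hd' j]
    split_ifs
    · rw [hw j, cap1_ef_act hζ.2]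
    · rw [act_zero_right]
  · rw [hD j, hD0 (e j), hd' j]
    split_ifs
    · rw [act_zero_right]
    · rw [hw j, bd_act]

theorem valUniq2 (hA : ValAny2Stmt) (hU : ValUniqMStmt) (hS : ValScaleStmt) : ValUniq2Stmt := by
  intro C _ _ _ V G A α τ τ' h hm h1 h2
  obtain ⟨ζ, hζ, h0, F, D, Γ, hD, hΓ, hv⟩ := h1
  obtain ⟨ζ', hζ', h0', hv'⟩ := h2
  obtain ⟨r, rfl⟩ := hm.top_smul hζ.1 h0 hζ'.1
  have hr : r ≠ 0 := by
    rintro rfl
    exact h0' (zero_smul _ _)
  have e : (r • Γ).map (evH C) = r • Γ.map (evH C) := by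
    ext1 i j
    rw [map_apply, Matrix.smul_apply, Matrix.smul_apply, map_apply, map_rat_smul]
  have h3 := hA C V G A α _ τ' h hζ' hv' F D _ hD (hΓ.smul r)
  refine hU C _ _ _ _ τ τ' ((Frame.capM h (mfBasic V G A hm).1 hζ' hD (hΓ.smul r)).map _
    evH_star) ?_ h3
  rw [e]
  exact hS C _ _ _ _ τ r hr hv

end

end Pool.Agent.MP_6374aa_gt
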