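import Pool.Agent.MP_6374aa_gt.VanCoreA

set_option linter.unusedSectionVars false

namespace Pool.Agent.MP_6374aa_gt

open Classical Matrix

noncomputable section

variable {S S' I J W : Type} [CommRing S] [CommRing S'] [StarRing S] [StarRing S'] [Fintype I]
  [DecidableEq I] [Fintype J] [DecidableEq J] [Fintype W] [DecidableEq W] {r : ℤ → Prop}
  {uI : I → ℤ} {uJ : J → ℤ} {uW : W → ℤ} {Ψ : Matrix (J ⊕ W) (I ⊕ W) S}
  {Ψ' : Matrix (I ⊕ W) (J ⊕ W) S} {e π : Matrix W W S}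

lemma elim_refl_VanCore (uI : I → ℤ) (uW : W → ℤ) :
    Sum.elim (fun a => 1 - uI a) (fun a => 1 - uW a) = fun a => 1 - Sum.elim uI uW a := by
  funext a
  cases a <;> rfl

lemma band_refl_VanCore {X Y : Type} {u : X → ℤ} {v : Y → ℤ} {M : Matrix Y X S} (h : Band u v M) :
    Band (fun a => 1 - u a) (fun a => 1 - v a) M := by
  intro j i h1
  have := abs_le.1 (h j i h1)
  rw [abs_le]
  dsimp only
  omega

lemma eqr_refl_VanCore {X Y : Type} {u : X → ℤ} {v : Y → ℤ} {M N : Matrix Y X S}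
    (h : EqR r u v M N) : EqR (fun x => r (1 - x)) (fun a => 1 - u a) (fun a => 1 - v a) M N :=
  fun j i h1 h2 => h j i (by simpa using h1) (by simpa using h2)

lemma tri_refl_VanCore (h : Tri r uI uJ uW Ψ Ψ' e) :
    Tri (fun x => r (1 - x)) (fun a => 1 - uI a) (fun a => 1 - uJ a) (fun a => 1 - uW a)
      Ψ Ψ' e := by
  refine ⟨?_, ?_, band_refl_VanCore h.b3, eqr_refl_VanCore h.ee, ?_, ?_, ?_, ?_, ?_, ?_⟩ <;>
    simp only [elim_refl_VanCore]
  exacts [band_refl_VanCore h.b1, band_refl_VanCore h.b2, eqr_refl_VanCore h.l,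
    eqr_refl_VanCore h.rr, eqr_refl_VanCore h.n1, eqr_refl_VanCore h.n2, eqr_refl_VanCore h.n3,
    eqr_refl_VanCore h.n4]

lemma agr_refl_VanCore {f : S →+* S'} {Θ : Matrix (J ⊕ W) (I ⊕ W) S'}
    {Θ' : Matrix (I ⊕ W) (J ⊕ W) S'} {d : Matrix W W S'} (h : Agr f r uI uJ uW Ψ Ψ' e Θ Θ' d) :
    Agr f (fun x => r (1 - x)) (fun a => 1 - uI a) (fun a => 1 - uJ a) (fun a => 1 - uW a)
      Ψ Ψ' e Θ Θ' d := by
  refine ⟨?_, ?_, eqr_refl_VanCore h.a3⟩ <;> simp only [elim_refl_VanCore]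
  exacts [eqr_refl_VanCore h.a1, eqr_refl_VanCore h.a2]

/-- The transported idempotent. -/
def QQ_VanCore (uI : I → ℤ) (Ψ : Matrix (J ⊕ W) (I ⊕ W) S) (Ψ' : Matrix (I ⊕ W) (J ⊕ W) S)
    (e π : Matrix W W S) : Matrix (J ⊕ W) (J ⊕ W) S :=
  Ψ * kk_VanCore uI π * Ψ' + ze J J ((1 - e) * π)

lemma near_VanCore {x y n : ℤ} (h : |x - y| ≤ n) : x - n ≤ y ∧ y ≤ x + n := by
  have := abs_le.1 h
  omega

lemma q_lo_VanCore (h : Tri r uI uJ uW Ψ Ψ' e) (hπ : Std uW π) :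
    RE_VanCore (Sum.elim uJ uW) (fun x => x ≤ -2) (QQ_VanCore uI Ψ Ψ' e π) 0 := by
  have h1 := ((std_lo_VanCore (std_kk_VanCore uI hπ)).mull (s := fun x => x ≤ -2)
    (bn_VanCore h.b1) (fun x y h1 h2 => by have := near_VanCore h2; omega)).mulr Ψ'
  have h2 := ((std_lo_VanCore hπ).mull (s := fun x => x ≤ -2)
    ((BN_VanCore.one zero_le_one).sub (bn_VanCore h.b3))
    (fun x y h1 h2 => by have := near_VanCore h2; omega)).ze (I := J) (uJ := uJ)
  refine (h1.add h2).trans (RE_VanCore.of_eq ?_)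
  simp [ze_zero_VanCore]

lemma one_VanCore (h : Tri r uI uJ uW Ψ Ψ' e) {s : ℤ → Prop}
    (hs : ∀ x y, s x → |x - y| ≤ 2 → r y) :
    RE_VanCore (Sum.elim uJ uW) s (Ψ * Ψ' + ze J J (1 - e)) 1 := by
  have h1 := re_VanCore (n := 2) h.rr (((bn_VanCore h.b1).mul (bn_VanCore h.b2)).mono (by norm_num))
    (((bn_VanCore h.b3).oe zero_le_one).mono (by norm_num)) (by norm_num) hs
  exact (h1.add RE_VanCore.rfl').trans (RE_VanCore.of_eq (oe_ze_VanCore e))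

lemma q_hi_VanCore (h : Tri r uI uJ uW Ψ Ψ' e) (hπ : Std uW π) {s : ℤ → Prop}
    (h3 : ∀ x, s x → 3 ≤ x) (hs : ∀ x y, s x → |x - y| ≤ 2 → r y) :
    RE_VanCore (Sum.elim uJ uW) s (QQ_VanCore uI Ψ Ψ' e π) 1 := by
  have h1 := ((std_hi_VanCore (std_kk_VanCore uI hπ)).mull (s := s)
    (bn_VanCore h.b1) (fun x y h1 h2 => by
      have := near_VanCore h2; have := h3 x h1; omega)).mulr Ψ'
  have h2 := ((std_hi_VanCore hπ).mull (s := s)
    ((BN_VanCore.one zero_le_one).sub (bn_VanCore h.b3))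
    (fun x y h1 h2 => by have := near_VanCore h2; have := h3 x h1; omega)).ze (I := J) (uJ := uJ)
  refine (h1.add h2).trans ?_
  rw [Matrix.mul_one, Matrix.mul_one]
  exact one_VanCore h hs

lemma q_bn_VanCore (h : Tri r uI uJ uW Ψ Ψ' e) (hπ : Std uW π) :
    BN_VanCore 3 (Sum.elim uJ uW) (Sum.elim uJ uW) (QQ_VanCore uI Ψ Ψ' e π) :=
  ((((bn_VanCore h.b1).mul (std_bn_VanCore (std_kk_VanCore uI hπ))).mul
    (bn_VanCore h.b2)).mono (by norm_num)).add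
    ((((BN_VanCore.one zero_le_one).sub (bn_VanCore h.b3)).mul (std_bn_VanCore hπ)).ze.mono
      (by norm_num))

lemma ee_VanCore (h : Tri r uI uJ uW Ψ Ψ' e) {s : ℤ → Prop}
    (hs : ∀ x y, s x → |x - y| ≤ 2 → r y) :
    RE_VanCore uW s (e * (1 - e)) 0 ∧ CE_VanCore uW s (e * (1 - e)) 0 := by
  have b := bn_VanCore h.b3
  have h1 := re_VanCore (n := 2) h.ee ((b.mul b).mono (by norm_num)) (b.mono (by norm_num))
    (by norm_num) hs
  have h2 := ce_VanCore (n := 2) h.ee ((b.mul b).mono (by norm_num)) (b.mono (by norm_num))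
    (by norm_num) hs
  constructor
  · intro j i hj
    rw [Matrix.mul_sub, Matrix.mul_one, Matrix.sub_apply, h1 j i hj, sub_self, Matrix.zero_apply]
  · intro j i hj
    rw [Matrix.mul_sub, Matrix.mul_one, Matrix.sub_apply, h2 j i hj, sub_self, Matrix.zero_apply]

lemma q_sq_VanCore (h : Tri r uI uJ uW Ψ Ψ' e) (hr : ∀ x, -9 ≤ x → x ≤ 9 → r x) (hπ : Std uW π)
    (h1 : π * π = π) (h2 : π * e = e * π) :
    RE_VanCore (Sum.elim uJ uW) (fun x => -1 ≤ x ∧ x ≤ 2)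
      (QQ_VanCore uI Ψ Ψ' e π * QQ_VanCore uI Ψ Ψ' e π) (QQ_VanCore uI Ψ Ψ' e π) := by
  have b1 := bn_VanCore h.b1
  have b2 := bn_VanCore h.b2
  have b3 := bn_VanCore h.b3
  have bπ := std_bn_VanCore hπ
  have bk := std_bn_VanCore (std_kk_VanCore uI hπ)
  have b4 := (BN_VanCore.one zero_le_one).sub b3
  have hk := kk_idem_VanCore uI h1
  have hc := kk_oe_VanCore uI h2
  have hs : ∀ x y, (-5 ≤ x ∧ x ≤ 6) → |x - y| ≤ 2 → r y := fun x y a1 a2 => by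
    have := near_VanCore a2
    exact hr y (by omega) (by omega)
  have r1 := re_VanCore (n := 2) h.l ((b2.mul b1).mono (by norm_num))
    ((b3.star.oe zero_le_one).mono (by norm_num)) (by norm_num) hs
  have r2 := re_VanCore (n := 2) h.n1 ((b1.mul (b3.star.oe zero_le_one)).mono (by norm_num))
    (b1.mono (by norm_num)) (by norm_num) hs
  have r3 := re_VanCore (n := 2) h.n3 ((b2.mul (b3.oe zero_le_one)).mono (by norm_num))
    (b2.mono (by norm_num)) (by norm_num) hs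
  have r4 := re_VanCore (n := 2) h.n2 (((b3.oe zero_le_one).mul b1).mono (by norm_num))
    (b1.mono (by norm_num)) (by norm_num) hs
  have r5 := (ee_VanCore h hs).1
  have hw : ∀ n : ℤ, n ≤ 3 → ∀ x y : ℤ, (-1 ≤ x ∧ x ≤ 2) → |x - y| ≤ n → (-5 ≤ y ∧ y ≤ 6) :=
    fun n hn x y a1 a2 => by have := near_VanCore a2; omega
  have hw0 : ∀ x : ℤ, (-1 ≤ x ∧ x ≤ 2) → (-5 ≤ x ∧ x ≤ 6) := fun x a => by omega
  unfold QQ_VanCore
  generalize kk_VanCore uI π = k at *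
  have c1 : (1 - e) * π = π * (1 - e) := by
    rw [Matrix.mul_sub, Matrix.sub_mul, h2, Matrix.mul_one, Matrix.one_mul]
  have t1 : RE_VanCore (Sum.elim uJ uW) (fun x => -1 ≤ x ∧ x ≤ 2) (Ψ * k * Ψ' * (Ψ * k * Ψ'))
      (Ψ * k * Ψ') := by
    have a1 := (r1.mull (b1.mul bk) (hw _ (by norm_num))).mulr (k * Ψ')
    have a2 := (r2.mono hw0).mulr (k * Ψ')
    refine (RE_VanCore.of_eq ?_).trans (a1.trans ((RE_VanCore.of_eq ?_).trans
      (a2.trans (RE_VanCore.of_eq ?_))))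
    · simp only [Matrix.mul_assoc]
    · rw [Matrix.mul_assoc Ψ k, hc, Matrix.mul_assoc, Matrix.mul_assoc, ← Matrix.mul_assoc k k, hk,
        Matrix.mul_assoc]
    · simp only [Matrix.mul_assoc]
  have t2 : RE_VanCore (Sum.elim uJ uW) (fun x => -1 ≤ x ∧ x ≤ 2)
      (Ψ * k * Ψ' * ze J J ((1 - e) * π)) 0 := by
    have a1 := (r3.symm.mull (b1.mul bk) (hw _ (by norm_num))).mulr (ze J J ((1 - e) * π))
    have a2 := ((r5.mulr π).ze (I := J) (uJ := uJ)).mull ((b1.mul bk).mul b2) (hw _ (by norm_num))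
    refine a1.trans ((RE_VanCore.of_eq ?_).trans (a2.trans (RE_VanCore.of_eq ?_)))
    · rw [← Matrix.mul_assoc, Matrix.mul_assoc _ (oe J e), oe, fb_ze_VanCore, Matrix.mul_assoc e]
    · simp [ze_zero_VanCore]
  have t3 : RE_VanCore (Sum.elim uJ uW) (fun x => -1 ≤ x ∧ x ≤ 2)
      (ze J J ((1 - e) * π) * (Ψ * k * Ψ')) 0 := by
    have a1 := (r4.symm.mull ((b4.mul bπ).ze (uJ := uJ)) (hw _ (by norm_num))).mulr (k * Ψ')
    have a2 := ((r5.mull bπ (hw _ (by norm_num))).ze (I := J) (uJ := uJ)).mulr (Ψ * (k * Ψ'))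
    refine (RE_VanCore.of_eq ?_).trans (a1.trans ((RE_VanCore.of_eq ?_).trans
      (a2.trans (RE_VanCore.of_eq ?_))))
    · simp only [Matrix.mul_assoc]
    · rw [← Matrix.mul_assoc (ze J J _) (oe J e), oe, ze_fb_VanCore, c1, Matrix.mul_assoc,
        Matrix.mul_assoc π, Matrix.sub_mul, Matrix.mul_sub e, Matrix.mul_one, Matrix.one_mul]
    · simp [ze_zero_VanCore]
  have t4 : RE_VanCore (Sum.elim uJ uW) (fun x => -1 ≤ x ∧ x ≤ 2)
      (ze J J ((1 - e) * π) * ze J J ((1 - e) * π)) (ze J J ((1 - e) * π)) := by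
    rw [ze_ze_VanCore]
    refine RE_VanCore.ze ?_
    have a1 := (RE_VanCore.rfl' (M := (1 - e) * π)).sub ((r5.mono hw0).mulr π)
    refine (RE_VanCore.of_eq ?_).trans (a1.trans (RE_VanCore.of_eq (by simp)))
    rw [Matrix.mul_assoc, ← Matrix.mul_assoc π, ← c1, Matrix.mul_assoc (1 - e) π, h1,
      Matrix.sub_mul 1 e ((1 - e) * π), Matrix.one_mul, Matrix.mul_assoc]
  refine (RE_VanCore.of_eq ?_).trans (((t1.add t2).add (t3.add t4)).trans (RE_VanCore.of_eq ?_))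
  · rw [Matrix.add_mul, Matrix.mul_add, Matrix.mul_add]
  · rw [add_zero, zero_add]

section Side

variable {S0 R K : Type} [CommRing S0] [StarRing S0] [CommRing R] [StarRing R] [Fintype K]
  [DecidableEq K] {f : S0 →+* S} {g : S →+* R} {r0 r1 : ℤ → Prop}
  {Ψ0 : Matrix (J ⊕ W) (I ⊕ W) S0} {Ψ0' : Matrix (I ⊕ W) (J ⊕ W) S0} {e0 π0 : Matrix W W S0}
  {Θ : Matrix (J ⊕ W) (I ⊕ W) R} {Θ' : Matrix (I ⊕ W) (J ⊕ W) R} {d : Matrix W W R}
  {X : Matrix W K S} {Y : Matrix K W S}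

lemma comm_VanCore (h : Tri r uI uJ uW Ψ Ψ' e) (h0 : Tri r1 uI uJ uW Ψ0 Ψ0' e0)
    (a : Agr f r0 uI uJ uW Ψ0 Ψ0' e0 Ψ Ψ' e) (hr0 : ∀ x, -9 ≤ x → x ≤ 9 → r0 x)
    (hπ : Std uW π0) (hc : π0 * e0 = e0 * π0) : π0.map f * e = e * π0.map f := by
  have hs := std_map_VanCore hπ f
  have b3 := bn_VanCore h.b3
  have r3 : RE_VanCore uW (fun x => -5 ≤ x ∧ x ≤ 6) (e0.map f) e :=
    re_VanCore a.a3 ((bn_VanCore h0.b3).map f) b3 zero_le_one fun x y a1 a2 => by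
      have := near_VanCore a2
      exact hr0 y (by omega) (by omega)
  refine RE_VanCore.ext3 (v := uW) ?_ ?_ ?_
  · have a1 := ((std_lo_VanCore hs).mono (s := fun x => x ≤ -2) fun x hx => by omega).mulr e
    have a2 := (std_lo_VanCore hs).mull (s := fun x => x ≤ -2) b3 fun x y a1 a2 => by
      have := near_VanCore a2; omega
    exact a1.trans ((RE_VanCore.of_eq (by simp)).trans a2.symm)
  · have a1 := r3.mull (s := fun x => -1 ≤ x ∧ x ≤ 2) (std_bn_VanCore hs) fun x y a1 a2 => by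
      have := near_VanCore a2; omega
    have a2 := (r3.mono (s := fun x => -1 ≤ x ∧ x ≤ 2) fun x hx => by omega).mulr (π0.map f)
    exact a1.symm.trans ((RE_VanCore.of_eq (by rw [← Matrix.map_mul, hc, Matrix.map_mul])).trans a2)
  · have a1 := ((std_hi_VanCore hs).mono (s := fun x => 3 ≤ x) fun x hx => by omega).mulr e
    have a2 := (std_hi_VanCore hs).mull (s := fun x => 3 ≤ x) b3 fun x y a1 a2 => by
      have := near_VanCore a2; omega
    exact a1.trans ((RE_VanCore.of_eq (by simp)).trans a2.symm)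

lemma q_agr_VanCore (hf : ∀ x, f (star x) = star (f x)) (h : Tri r uI uJ uW Ψ Ψ' e)
    (h0 : Tri r1 uI uJ uW Ψ0 Ψ0' e0) (a : Agr f r0 uI uJ uW Ψ0 Ψ0' e0 Ψ Ψ' e)
    (hr0 : ∀ x, -9 ≤ x → x ≤ 9 → r0 x) (hπ : Std uW π0) :
    RE_VanCore (Sum.elim uJ uW) (fun x => -1 ≤ x ∧ x ≤ 2) (QQ_VanCore uI Ψ Ψ' e (π0.map f))
      ((QQ_VanCore uI Ψ0 Ψ0' e0 π0).map f) := by
  have hs : ∀ x y, (-5 ≤ x ∧ x ≤ 6) → |x - y| ≤ 1 → r0 y := fun x y a1 a2 => by
    have := near_VanCore a2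
    exact hr0 y (by omega) (by omega)
  have r1 := re_VanCore a.a1 ((bn_VanCore h0.b1).map f) (bn_VanCore h.b1) zero_le_one hs
  have r2 := re_VanCore a.a2 ((bn_VanCore h0.b2).map f) (bn_VanCore h.b2) zero_le_one hs
  have r3 := re_VanCore a.a3 ((bn_VanCore h0.b3).map f) (bn_VanCore h.b3) zero_le_one hs
  have hw0 : ∀ x : ℤ, (-1 ≤ x ∧ x ≤ 2) → (-5 ≤ x ∧ x ≤ 6) := fun x a => by omega
  have a1 := ((r1.mono hw0).mulr (kk_VanCore uI (π0.map f))).mulr (Ψ0'.map f)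
  have a2 := r2.mull (s := fun x => -1 ≤ x ∧ x ≤ 2) ((bn_VanCore h.b1).mul
    (std_bn_VanCore (std_kk_VanCore uI (std_map_VanCore hπ f)))) fun x y a1 a2 => by
      have := near_VanCore a2; omega
  have a3 := (((RE_VanCore.rfl' (M := 1)).sub (r3.mono hw0)).mulr (π0.map f)).ze (I := J) (uJ := uJ)
  refine ((a1.trans a2).add a3).symm.trans (RE_VanCore.of_eq ?_)
  unfold QQ_VanCore
  rw [Matrix.map_add _ (map_add f), Matrix.map_mul, Matrix.map_mul, ze_map_VanCore,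
    kk_map_VanCore uI f hf, Matrix.map_mul, Matrix.map_sub _ (map_sub f),
    Matrix.map_one _ (map_zero f) (map_one f)]

lemma xy_VanCore (h : Tri r uI uJ uW Ψ Ψ' e) (hr : ∀ x, -9 ≤ x → r x) (hπ : Std uW π)
    (h1 : π * π = π) (hc : π * e = e * π) (hX : X * Y = (1 - e) * π) (hY : Y * X = 1) :
    π * X = X ∧ Y * π = Y ∧ (Ψ + ze J I (X * Xᴴ)) * kk_VanCore uI π * (Ψ' + ze I J (Yᴴ * Y)) =
      QQ_VanCore uI Ψ Ψ' e π := by
  have c1 : (1 - e) * π = π * (1 - e) := by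
    rw [Matrix.mul_sub, Matrix.sub_mul, hc, Matrix.mul_one, Matrix.one_mul]
  have eX : X = (1 - e) * π * X := by rw [← hX, Matrix.mul_assoc, hY, Matrix.mul_one]
  have eY : Y = Y * ((1 - e) * π) := by rw [← hX, ← Matrix.mul_assoc, hY, Matrix.one_mul]
  have p1 : π * X = X := by
    conv_lhs => rw [eX, c1, ← Matrix.mul_assoc, ← Matrix.mul_assoc, h1, ← c1]
    exact eX.symm
  have p2 : Y * π = Y := by
    conv_lhs => rw [eY, Matrix.mul_assoc, Matrix.mul_assoc, h1]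
    exact eY.symm
  have hs : ∀ x y, 0 ≤ x → |x - y| ≤ 2 → r y := fun x y a1 a2 => by
    have := near_VanCore a2
    exact hr y (by omega)
  obtain ⟨e1, e2⟩ := ee_VanCore h hs
  have p3 : e * X = 0 := by
    rw [eX, ← Matrix.mul_assoc, ← Matrix.mul_assoc, e2.kill (std_lo_VanCore hπ)]
    simp
  have p4 : Y * e = 0 := by
    have c2 : (1 - e) * e = e * (1 - e) := by
      rw [Matrix.mul_sub, Matrix.sub_mul, Matrix.mul_one, Matrix.one_mul]
    rw [eY, c1, Matrix.mul_assoc, Matrix.mul_assoc, c2, e1.kill (std_lc_VanCore hπ)]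
    simp
  have b1 := bn_VanCore h.b1
  have b2 := bn_VanCore h.b2
  have b3 := bn_VanCore h.b3
  have hk := std_kk_VanCore uI hπ
  have n1 := (ce_VanCore (n := 2) h.n1 ((b1.mul (b3.star.oe zero_le_one)).mono (by norm_num))
    (b1.mono (by norm_num)) (by norm_num) hs).kill (std_lo_VanCore hk)
  have n4 := (re_VanCore (n := 2) h.n4 (((b3.star.oe zero_le_one).mul b2).mono (by norm_num))
    (b2.mono (by norm_num)) (by norm_num) hs).kill (std_lc_VanCore hk)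
  have k1 : kk_VanCore uI π * ze I J (Yᴴ * Y) = ze I J (Yᴴ * Y) := by
    rw [kk_VanCore, fb_ze_VanCore, ← Matrix.mul_assoc, ← conjTranspose_mul, p2]
  have k2 : ze J I (X * Xᴴ) * kk_VanCore uI π = ze J I (X * Xᴴ) := by
    rw [kk_VanCore, ze_fb_VanCore, Matrix.mul_assoc, ← conjTranspose_mul, p1]
  have z1 : Ψ * kk_VanCore uI π * ze I J (Yᴴ * Y) = 0 := by
    rw [← n1, Matrix.mul_assoc, k1, Matrix.mul_assoc, oe, fb_ze_VanCore, ← Matrix.mul_assoc,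
      ← conjTranspose_mul, p4]
    simp [ze_zero_VanCore]
  have z2 : ze J I (X * Xᴴ) * kk_VanCore uI π * Ψ' = 0 := by
    rw [Matrix.mul_assoc, ← n4, ← Matrix.mul_assoc, k2, ← Matrix.mul_assoc, oe, ze_fb_VanCore,
      Matrix.mul_assoc X, ← conjTranspose_mul, p3]
    simp [ze_zero_VanCore]
  refine ⟨p1, p2, ?_⟩
  rw [Matrix.add_mul, Matrix.add_mul, Matrix.mul_add, Matrix.mul_add, z1, z2, k2, ze_ze_VanCore,
    add_zero, zero_add, Matrix.mul_assoc X, ← Matrix.mul_assoc Xᴴ, ← conjTranspose_mul, hY,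
    conjTranspose_one, Matrix.one_mul, hX]
  rfl

lemma up_VanCore {r2 : ℤ → Prop} (h : Tri r1 uI uJ uW Ψ Ψ' e) (hR : Tri r2 uI uJ uW Θ Θ' d)
    (a : Agr g r uI uJ uW Ψ Ψ' e Θ Θ' d) (hr : ∀ x, -9 ≤ x → r x) {ρ : Matrix W W R}
    (hρ : Std uW ρ) :
    (1 - e.map g) * ρ = (1 - d) * ρ ∧ Ψ.map g * kk_VanCore uI ρ = Θ * kk_VanCore uI ρ ∧
      kk_VanCore uI ρ * Ψ'.map g = kk_VanCore uI ρ * Θ' := by
  have hs : ∀ x y, 0 ≤ x → |x - y| ≤ 1 → r y := fun x y a1 a2 => by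
    have := near_VanCore a2
    exact hr y (by omega)
  have hk := std_kk_VanCore uI hρ
  refine ⟨?_, (ce_VanCore a.a1 ((bn_VanCore h.b1).map g) (bn_VanCore hR.b1) zero_le_one hs).kill
    (std_lo_VanCore hk), (re_VanCore a.a2 ((bn_VanCore h.b2).map g) (bn_VanCore hR.b2)
      zero_le_one hs).kill (std_lc_VanCore hk)⟩
  rw [Matrix.sub_mul, Matrix.sub_mul, (ce_VanCore a.a3 ((bn_VanCore h.b3).map g)
    (bn_VanCore hR.b3) zero_le_one hs).kill (std_lo_VanCore hρ)]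

/-- Everything that is needed on one side of the wall. -/
lemma side_VanCore {r2 : ℤ → Prop} (hf : ∀ x, f (star x) = star (f x))
    (h : Tri r uI uJ uW Ψ Ψ' e) (h0 : Tri r0 uI uJ uW Ψ0 Ψ0' e0) (hR : Tri r2 uI uJ uW Θ Θ' d)
    (a : Agr g r uI uJ uW Ψ Ψ' e Θ Θ' d) (b : Agr f r0 uI uJ uW Ψ0 Ψ0' e0 Ψ Ψ' e)
    (hr : ∀ x, -9 ≤ x → r x) (hr0 : ∀ x, -9 ≤ x → x ≤ 9 → r0 x) (hπ : Std uW π0)
    (h1 : π0 * π0 = π0) (hc : π0 * e0 = e0 * π0) (hX : X * Y = (1 - e) * π0.map f)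
    (hY : Y * X = 1) :
    (π0.map f).map g * X.map g = X.map g ∧ Y.map g * (π0.map f).map g = Y.map g ∧
    X.map g * Y.map g = (1 - d) * (π0.map f).map g ∧
    Ψ.map g * kk_VanCore uI ((π0.map f).map g) = Θ * kk_VanCore uI ((π0.map f).map g) ∧
    kk_VanCore uI ((π0.map f).map g) * Ψ'.map g = kk_VanCore uI ((π0.map f).map g) * Θ' ∧
    ∀ q : Matrix (J ⊕ W) (J ⊕ W) S0, RE_VanCore (Sum.elim uJ uW) (fun x => x ≤ -2) q 0 →
      RE_VanCore (Sum.elim uJ uW) (fun x => -1 ≤ x ∧ x ≤ 2) q (QQ_VanCore uI Ψ0 Ψ0' e0 π0) →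
      RE_VanCore (Sum.elim uJ uW) (fun x => 3 ≤ x) q 1 →
      (Ψ + ze J I (X * Xᴴ)) * kk_VanCore uI (π0.map f) * (Ψ' + ze I J (Yᴴ * Y)) = q.map f := by
  have hs := std_map_VanCore hπ f
  obtain ⟨p1, p2, p3⟩ := xy_VanCore h hr hs (by rw [← Matrix.map_mul, h1])
    (comm_VanCore h h0 b hr0 hπ hc) hX hY
  obtain ⟨u1, u2, u3⟩ := up_VanCore h hR a hr (std_map_VanCore hs g)
  refine ⟨by rw [← Matrix.map_mul, p1], by rw [← Matrix.map_mul, p2], ?_, u2, u3, ?_⟩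
  · rw [← Matrix.map_mul, hX, Matrix.map_mul, Matrix.map_sub _ (map_sub g),
      Matrix.map_one _ (map_zero g) (map_one g), u1]
  · intro q q1 q2 q3
    rw [p3]
    refine RE_VanCore.ext3 (v := Sum.elim uJ uW) ?_ ?_ ?_
    · exact (q_lo_VanCore h hs).trans ((q1.map f).trans (RE_VanCore.of_eq (by simp))).symm
    · exact (q_agr_VanCore hf h h0 b hr0 hπ).trans (q2.map f).symm
    · refine (q_hi_VanCore h hs (fun _ => id) fun x y a1 a2 => ?_).trans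
        ((q3.map f).trans (RE_VanCore.of_eq (by simp))).symm
      have := near_VanCore a2
      exact hr y (by omega)

end Side

end

end Pool.Agent.MP_6374aa_gt
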