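import Pool.Agent.MP_6374aa_gt.IfP
import Pool.Agent.MP_6374aa_gt.VanCoreB

set_option linter.unusedSectionVars false

namespace Pool.Agent.MP_6374aa_gt

open Classical Matrix

noncomputable section

variable {S R I J W K K' : Type} [CommRing S] [CommRing R] [StarRing S] [StarRing R] [Fintype I]
  [DecidableEq I] [Fintype J] [DecidableEq J] [Fintype W] [DecidableEq W] [Fintype K] [Fintype K']

lemma lift_VanCore {g : S →+* R} (hg : ∀ x, g (star x) = star (g x)) (uI : I → ℤ)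
    {Ψ : Matrix (J ⊕ W) (I ⊕ W) S} {Ψ' : Matrix (I ⊕ W) (J ⊕ W) S} {π : Matrix W W S}
    {Θ : Matrix (J ⊕ W) (I ⊕ W) R} {Θ' : Matrix (I ⊕ W) (J ⊕ W) R} (X : Matrix W K S)
    (Y : Matrix K W S) {X' : Matrix W K' R} {Y' : Matrix K' W R} {G H : Matrix W W R}
    (h1 : Ψ.map g * kk_VanCore uI (π.map g) = Θ * kk_VanCore uI (π.map g))
    (h2 : kk_VanCore uI (π.map g) * Ψ'.map g = kk_VanCore uI (π.map g) * Θ')
    (hX : π.map g * X' = 0) (hY : Y' * π.map g = 0) (hG : G = X.map g * (X.map g)ᴴ + X' * X'ᴴ)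
    (hH : H = (Y.map g)ᴴ * Y.map g + Y'ᴴ * Y') :
    ((Ψ + ze J I (X * Xᴴ)) * kk_VanCore uI π).map g = (Θ + ze J I G) * (kk_VanCore uI π).map g ∧
      (kk_VanCore uI π * (Ψ' + ze I J (Yᴴ * Y))).map g =
        (kk_VanCore uI π).map g * (Θ' + ze I J H) := by
  have z1 : ze J I (X' * X'ᴴ) * kk_VanCore uI (π.map g) = 0 := by
    rw [kk_VanCore, ze_fb_VanCore, Matrix.mul_assoc, ← conjTranspose_mul, hX]
    simp [ze_zero_VanCore]
  have z2 : kk_VanCore uI (π.map g) * ze I J (Y'ᴴ * Y') = 0 := by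
    rw [kk_VanCore, fb_ze_VanCore, ← Matrix.mul_assoc, ← conjTranspose_mul, hY]
    simp [ze_zero_VanCore]
  constructor
  · rw [Matrix.map_mul, Matrix.map_add _ (map_add g), ze_map_VanCore, Matrix.map_mul,
      conjTranspose_map g hg, kk_map_VanCore uI g hg, hG, ze_add_VanCore, Matrix.add_mul,
      Matrix.add_mul, Matrix.add_mul, z1, h1, add_zero]
  · rw [Matrix.map_mul, Matrix.map_add _ (map_add g), ze_map_VanCore, Matrix.map_mul,
      conjTranspose_map g hg, kk_map_VanCore uI g hg, hH, ze_add_VanCore, Matrix.mul_add,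
      Matrix.mul_add, Matrix.mul_add, z2, h2, add_zero]

lemma inv_VanCore [DecidableEq K] {uI : I → ℤ} {uJ : J → ℤ} {uW : W → ℤ}
    {Ψ : Matrix (J ⊕ W) (I ⊕ W) R} {Ψ' : Matrix (I ⊕ W) (J ⊕ W) R} {e : Matrix W W R}
    (h : Tri (fun _ => True) uI uJ uW Ψ Ψ' e) {X : Matrix W K R} {Y : Matrix K W R}
    (hX : X * Y = 1 - e) (hY : Y * X = 1) :
    (Ψ + ze J I (X * Xᴴ)) * (Ψ' + ze I J (Yᴴ * Y)) = 1 ∧
      (Ψ' + ze I J (Yᴴ * Y)) * (Ψ + ze J I (X * Xᴴ)) = 1 := by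
  have ee : e * e = e := Matrix.ext fun a b => h.ee a b trivial trivial
  have l : Ψ' * Ψ = oe I eᴴ := Matrix.ext fun a b => h.l a b trivial trivial
  have rr : Ψ * Ψ' = oe J e := Matrix.ext fun a b => h.rr a b trivial trivial
  have n1 : Ψ * oe I eᴴ = Ψ := Matrix.ext fun a b => h.n1 a b trivial trivial
  have n2 : oe J e * Ψ = Ψ := Matrix.ext fun a b => h.n2 a b trivial trivial
  have n3 : Ψ' * oe J e = Ψ' := Matrix.ext fun a b => h.n3 a b trivial trivial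
  have n4 : oe I eᴴ * Ψ' = Ψ' := Matrix.ext fun a b => h.n4 a b trivial trivial
  have p1 : e * X = 0 := by
    rw [← Matrix.mul_one X, ← hY, ← Matrix.mul_assoc X, hX, ← Matrix.mul_assoc, Matrix.mul_sub, ee]
    simp
  have p2 : Y * e = 0 := by
    rw [← Matrix.one_mul Y, ← hY, Matrix.mul_assoc Y X, hX, Matrix.mul_assoc, Matrix.sub_mul, ee]
    simp
  have z1 : Ψ * ze I J (Yᴴ * Y) = 0 := by
    rw [← n1, Matrix.mul_assoc, oe, fb_ze_VanCore, ← Matrix.mul_assoc, ← conjTranspose_mul, p2]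
    simp [ze_zero_VanCore]
  have z2 : ze J I (X * Xᴴ) * Ψ' = 0 := by
    rw [← n4, ← Matrix.mul_assoc, oe, ze_fb_VanCore, Matrix.mul_assoc X, ← conjTranspose_mul, p1]
    simp [ze_zero_VanCore]
  have z3 : Ψ' * ze J I (X * Xᴴ) = 0 := by
    rw [← n3, Matrix.mul_assoc, oe, fb_ze_VanCore, ← Matrix.mul_assoc, p1]
    simp [ze_zero_VanCore]
  have z4 : ze I J (Yᴴ * Y) * Ψ = 0 := by
    rw [← n2, ← Matrix.mul_assoc, oe, ze_fb_VanCore, Matrix.mul_assoc Yᴴ, p2]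
    simp [ze_zero_VanCore]
  constructor
  · rw [Matrix.add_mul, Matrix.mul_add, Matrix.mul_add, z1, z2, rr, ze_ze_VanCore, add_zero,
      zero_add, Matrix.mul_assoc X, ← Matrix.mul_assoc Xᴴ, ← conjTranspose_mul, hY,
      conjTranspose_one, Matrix.one_mul, hX, oe_ze_VanCore]
  · rw [Matrix.add_mul, Matrix.mul_add, Matrix.mul_add, z3, z4, l, ze_ze_VanCore, add_zero,
      zero_add, Matrix.mul_assoc Yᴴ, ← Matrix.mul_assoc Y, hY, Matrix.one_mul,
      ← conjTranspose_mul, hX, conjTranspose_sub, conjTranspose_one, oe_ze_VanCore]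

lemma q_ex_VanCore {uI : I → ℤ} {uJ : J → ℤ} {uW : W → ℤ} {Ψ : Matrix (J ⊕ W) (I ⊕ W) S}
    {Ψ' : Matrix (I ⊕ W) (J ⊕ W) S} {e π : Matrix W W S}
    (h : Tri (fun x => |x| ≤ 10) uI uJ uW Ψ Ψ' e) (hπ : Std uW π) (h1 : π * π = π)
    (hc : π * e = e * π) :
    ∃ q : Matrix (J ⊕ W) (J ⊕ W) S, q * q = q ∧
      RE_VanCore (Sum.elim uJ uW) (fun x => x ≤ -2) q 0 ∧
      RE_VanCore (Sum.elim uJ uW) (fun x => -1 ≤ x ∧ x ≤ 2) q (QQ_VanCore uI Ψ Ψ' e π) ∧
      RE_VanCore (Sum.elim uJ uW) (fun x => 3 ≤ x) q 1 ∧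
      RE_VanCore (Sum.elim uJ uW) (fun x => -1 ≤ x ∧ x ≤ 2) (1 - q)
        (QQ_VanCore (fun a => 1 - uI a) Ψ Ψ' e (1 - π)) := by
  obtain ⟨q, hq⟩ : ∃ q : Matrix (J ⊕ W) (J ⊕ W) S, ∀ a b, q a b =
      if Sum.elim uJ uW a ≤ 2 then QQ_VanCore uI Ψ Ψ' e π a b
      else (1 : Matrix (J ⊕ W) (J ⊕ W) S) a b := ⟨fun a b => _, fun _ _ => rfl⟩
  have q0 : RE_VanCore (Sum.elim uJ uW) (fun x => x ≤ 2) q (QQ_VanCore uI Ψ Ψ' e π) :=
    fun a b ha => by rw [hq, if_pos ha]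
  have q1 := (q0.mono (s := fun x => x ≤ -2) fun x hx => by omega).trans (q_lo_VanCore h hπ)
  have q2 := q0.mono (s := fun x => -1 ≤ x ∧ x ≤ 2) fun x hx => hx.2
  have q3 : RE_VanCore (Sum.elim uJ uW) (fun x => 3 ≤ x) q 1 :=
    fun a b ha => by rw [hq, if_neg (by omega)]
  have q4 : RE_VanCore (Sum.elim uJ uW) (fun x => x ≤ 5) q (QQ_VanCore uI Ψ Ψ' e π) := by
    have a1 := q_hi_VanCore h hπ (s := fun x => 3 ≤ x ∧ x ≤ 5) (fun _ hx => hx.1)
      fun x y a1 a2 => by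
        have := near_VanCore a2
        rw [abs_le]
        omega
    intro a b ha
    by_cases h2 : Sum.elim uJ uW a ≤ 2
    · exact q0 a b h2
    · exact (q3 a b (by omega)).trans (a1 a b ⟨by omega, ha⟩).symm
  refine ⟨q, RE_VanCore.ext3 (v := Sum.elim uJ uW) ?_ ?_ ?_, q1, q2, q3, ?_⟩
  · exact (q1.mulr q).trans ((RE_VanCore.of_eq (by simp)).trans q1.symm)
  · refine (q2.mulr q).trans ((q4.mull (q_bn_VanCore h hπ) fun x y a1 a2 => ?_).trans
      ((q_sq_VanCore h (fun x a1 a2 => ?_) hπ h1 hc).trans q2.symm))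
    · have := near_VanCore a2
      omega
    · rw [abs_le]
      omega
  · exact (q3.mulr q).trans (RE_VanCore.of_eq (by simp))
  · have a1 := one_VanCore h (s := fun x => -1 ≤ x ∧ x ≤ 2) fun x y a1 a2 => by
      have := near_VanCore a2
      rw [abs_le]
      omega
    refine (a1.symm.sub q2).trans (RE_VanCore.of_eq ?_)
    unfold QQ_VanCore
    have a2 : ze J J (1 - e) = ze J J ((1 - e) * (1 - π)) + ze J J ((1 - e) * π) := by
      rw [← ze_add_VanCore, ← Matrix.mul_add, sub_add_cancel, Matrix.mul_one]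
    rw [kk_refl_VanCore, a2, Matrix.mul_sub Ψ, Matrix.mul_one, Matrix.sub_mul Ψ]
    abel

theorem vanCore (hS : Split2Stmt) : VanCoreStmt := by
  intro S0 Sp Sm R I J W Kp Km _ _ _ _ _ _ _ _ _ _ _ _ _ _ _ _ _ _ _ qp qm rp rm uI uJ uW Ψ Ψ' e
    Ψp Ψp' ep Ψm Ψm' em Ψ0 Ψ0' e0 π Xp Yp Xm Ym hR hS0 T h1 hc hπ hXp hYp hXm hYm
  obtain ⟨p1, p2, p3, p4, p5, p6⟩ := side_VanCore hR.s1 T.tp T.t0 T.t T.ap T.bp
    (fun x hx => by omega) (fun x a1 a2 => by rw [abs_le]; omega) hπ h1 hc hXp hYp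
  obtain ⟨m1, m2, m3, m4, m5, m6⟩ := side_VanCore hR.s2 (tri_refl_VanCore T.tm)
    (tri_refl_VanCore T.t0) (tri_refl_VanCore T.t) (agr_refl_VanCore T.am) (agr_refl_VanCore T.bm)
    (fun x hx => by omega) (fun x a1 a2 => by rw [abs_le]; omega) (std_refl_VanCore hπ)
    (by rw [Matrix.mul_sub, Matrix.mul_one, Matrix.sub_mul, h1]; simp)
    (by rw [Matrix.mul_sub, Matrix.sub_mul, hc]; simp) hXm hYm
  have hρ : ((1 - π).map qm).map rm = 1 - (π.map qp).map rp := by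
    ext a b
    simp only [map_apply, Matrix.sub_apply, map_sub, hR.comm, one_apply]
    split_ifs <;> simp
  have hρ1 : (π.map qp).map rp * (1 - (π.map qp).map rp) = 0 := by
    rw [Matrix.mul_sub, ← Matrix.map_mul, ← Matrix.map_mul, h1]
    simp
  have hρ2 : (1 - (π.map qp).map rp) * (π.map qp).map rp = 0 := by
    rw [Matrix.sub_mul, ← Matrix.map_mul, ← Matrix.map_mul, h1]
    simp
  have x1 : (π.map qp).map rp * Xm.map rm = 0 := by
    rw [← m1, hρ, ← Matrix.mul_assoc, hρ1, Matrix.zero_mul]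
  have x2 : Ym.map rm * (π.map qp).map rp = 0 := by
    rw [← m2, hρ, Matrix.mul_assoc, hρ2, Matrix.mul_zero]
  have x3 : ((1 - π).map qm).map rm * Xp.map rp = 0 := by
    rw [← p1, hρ, ← Matrix.mul_assoc, hρ2, Matrix.zero_mul]
  have x4 : Yp.map rp * ((1 - π).map qm).map rm = 0 := by
    rw [← p2, hρ, Matrix.mul_assoc, hρ1, Matrix.mul_zero]
  have hXY : fromCols (Xp.map rp) (Xm.map rm) * fromRows (Yp.map rp) (Ym.map rm) = 1 - e := by
    rw [fromCols_mul_fromRows, p3, m3, hρ, ← Matrix.mul_add, add_sub_cancel, Matrix.mul_one]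
  have hYX : fromRows (Yp.map rp) (Ym.map rm) * fromCols (Xp.map rp) (Xm.map rm) = 1 := by
    have y1 : Yp.map rp * Xm.map rm = 0 := by
      rw [← p2, Matrix.mul_assoc, x1, Matrix.mul_zero]
    have y2 : Ym.map rm * Xp.map rp = 0 := by
      rw [← m2, Matrix.mul_assoc, x3, Matrix.mul_zero]
    rw [fromRows_mul_fromCols, y1, y2, ← Matrix.map_mul, ← Matrix.map_mul, hYp, hYm,
      Matrix.map_one _ (map_zero rp) (map_one rp), Matrix.map_one _ (map_zero rm) (map_one rm),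
      fromBlocks_one]
  refine ⟨hXY, hYX, fun ε => ?_⟩
  obtain ⟨i1, i2⟩ := inv_VanCore T.t hXY hYX
  obtain ⟨q, q0, q1, q2, q3, q4⟩ := q_ex_VanCore T.t0 hπ h1 hc
  have hG : fromCols (Xp.map rp) (Xm.map rm) * (fromCols (Xp.map rp) (Xm.map rm))ᴴ =
      Xp.map rp * (Xp.map rp)ᴴ + Xm.map rm * (Xm.map rm)ᴴ := by
    rw [conjTranspose_fromCols_eq_fromRows_conjTranspose, fromCols_mul_fromRows]
  have hH : (fromRows (Yp.map rp) (Ym.map rm))ᴴ * fromRows (Yp.map rp) (Ym.map rm) =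
      (Yp.map rp)ᴴ * Yp.map rp + (Ym.map rm)ᴴ * Ym.map rm := by
    rw [conjTranspose_fromRows_eq_fromCols_conjTranspose, fromCols_mul_fromRows]
  obtain ⟨l1, l2⟩ := lift_VanCore hR.s3 uI Xp Yp p4 p5 x1 x2 hG hH
  obtain ⟨l3, l4⟩ := lift_VanCore hR.s4 _ Xm Ym m4 m5 x3 x4 (hG.trans (add_comm _ _))
    (hH.trans (add_comm _ _))
  have l5 := p6 q q1 q2 q3
  have l6 := m6 (1 - q) (by
      rw [elim_refl_VanCore]
      intro a b ha
      dsimp only at ha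
      rw [Matrix.sub_apply, q3 a b (by omega), sub_self, Matrix.zero_apply])
    (by
      rw [elim_refl_VanCore]
      intro a b ha
      dsimp only at ha
      exact q4 a b (by omega))
    (by
      rw [elim_refl_VanCore]
      intro a b ha
      dsimp only at ha
      rw [Matrix.sub_apply, q1 a b (by omega), Matrix.zero_apply, sub_zero])
  rw [← kk_map_VanCore uI qp hR.s1] at l1 l2 l5
  rw [← kk_map_VanCore _ qm hR.s2, kk_refl_VanCore] at l3 l4 l6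
  exact hS S0 Sp Sm R (I ⊕ W) (J ⊕ W) qp qm rp rm (kk_VanCore uI π) q _ _ _ _ _ _ hR.comm hS0 i1 i2
    (kk_idem_VanCore uI h1) q0 l1 l2 l5 l3 l4 l6 _

end

end Pool.Agent.MP_6374aa_gt
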