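import Pool.Agent.MP_6374aa_gt.IfP

set_option linter.unusedSectionVars false

namespace Pool.Agent.MP_6374aa_gt

open Classical Matrix

noncomputable section

section Calc

variable {S S' X Y Z : Type} [CommRing S] [CommRing S']

/-- Bandwidth at most `n`. -/
def BN_VanCore (n : ℤ) (v : Y → ℤ) (u : X → ℤ) (M : Matrix Y X S) : Prop :=
  ∀ j i, M j i ≠ 0 → |v j - u i| ≤ n

/-- The rows with height in `s` agree. -/
def RE_VanCore (v : Y → ℤ) (s : ℤ → Prop) (M N : Matrix Y X S) : Prop :=
  ∀ j i, s (v j) → M j i = N j i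

/-- The columns with height in `s` agree. -/
def CE_VanCore (u : X → ℤ) (s : ℤ → Prop) (M N : Matrix Y X S) : Prop :=
  ∀ j i, s (u i) → M j i = N j i

variable {u : X → ℤ} {v : Y → ℤ} {w : Z → ℤ} {s t r : ℤ → Prop} {m n : ℤ}

lemma bn_VanCore {M : Matrix Y X S} (h : Band u v M) : BN_VanCore 1 v u M := h

namespace BN_VanCore

lemma mono {M : Matrix Y X S} (h : BN_VanCore m v u M) (hmn : m ≤ n) : BN_VanCore n v u M :=
  fun j i h1 => (h j i h1).trans hmn

lemma mul [Fintype Y] {A : Matrix Z Y S} {B : Matrix Y X S} (hA : BN_VanCore m w v A)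
    (hB : BN_VanCore n v u B) : BN_VanCore (m + n) w u (A * B) := by
  intro j i h
  rw [mul_apply] at h
  obtain ⟨a, -, ha⟩ := Finset.exists_ne_zero_of_sum_ne_zero h
  have h1 := abs_le.1 (hA j a (left_ne_zero_of_mul ha))
  have h2 := abs_le.1 (hB a i (right_ne_zero_of_mul ha))
  rw [abs_le]
  omega

lemma add {A B : Matrix Y X S} (hA : BN_VanCore n v u A) (hB : BN_VanCore n v u B) :
    BN_VanCore n v u (A + B) := by
  intro j i h
  by_cases h1 : A j i = 0
  · exact hB j i (by simpa [h1] using h)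
  · exact hA j i h1

lemma sub {A B : Matrix Y X S} (hA : BN_VanCore n v u A) (hB : BN_VanCore n v u B) :
    BN_VanCore n v u (A - B) := by
  intro j i h
  by_cases h1 : A j i = 0
  · exact hB j i (by simpa [h1] using h)
  · exact hA j i h1

lemma one [DecidableEq X] (hn : 0 ≤ n) : BN_VanCore n u u (1 : Matrix X X S) := by
  intro j i h
  obtain rfl : j = i := by
    by_contra h1
    exact h (one_apply_ne h1)
  simpa using hn

lemma map {A : Matrix Y X S} (hA : BN_VanCore n v u A) (f : S →+* S') :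
    BN_VanCore n v u (A.map f) := by
  intro j i h
  refine hA j i fun h1 => h ?_
  rw [map_apply, h1, map_zero]

lemma star [StarRing S] {A : Matrix Y X S} (hA : BN_VanCore n v u A) :
    BN_VanCore n u v Aᴴ := by
  intro j i h
  rw [abs_sub_comm]
  refine hA i j fun h1 => h ?_
  rw [conjTranspose_apply, h1, star_zero]

lemma ze {I J : Type} {uI : I → ℤ} {uJ : J → ℤ} {g : Matrix X X S} (h : BN_VanCore n u u g) :
    BN_VanCore n (Sum.elim uJ u) (Sum.elim uI u) (ze J I g) := by
  rintro (j | j) (i | i) h1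
  · exact absurd rfl h1
  · exact absurd rfl h1
  · exact absurd rfl h1
  · exact h j i h1

lemma oe {I : Type} [DecidableEq I] {uI : I → ℤ} {g : Matrix X X S} (hn : 0 ≤ n)
    (h : BN_VanCore n u u g) : BN_VanCore n (Sum.elim uI u) (Sum.elim uI u) (oe I g) := by
  rintro (j | j) (i | i) h1
  · exact one hn j i h1
  · exact absurd rfl h1
  · exact absurd rfl h1
  · exact h j i h1

end BN_VanCore

lemma re_VanCore {M N : Matrix Y X S} (h : EqR r u v M N) (hM : BN_VanCore n v u M)
    (hN : BN_VanCore n v u N) (hn : 0 ≤ n) (hs : ∀ x y, s x → |x - y| ≤ n → r y) :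
    RE_VanCore v s M N := by
  intro j i hj
  by_cases h1 : |v j - u i| ≤ n
  · exact h j i (hs _ _ hj (by simpa using hn)) (hs _ _ hj h1)
  · rw [not_not.1 (mt (hM j i) h1), not_not.1 (mt (hN j i) h1)]

lemma ce_VanCore {M N : Matrix Y X S} (h : EqR r u v M N) (hM : BN_VanCore n v u M)
    (hN : BN_VanCore n v u N) (hn : 0 ≤ n) (hs : ∀ x y, s x → |x - y| ≤ n → r y) :
    CE_VanCore u s M N := by
  intro j i hi
  by_cases h1 : |v j - u i| ≤ n
  · exact h j i (hs _ _ hi (by rwa [abs_sub_comm])) (hs _ _ hi (by simpa using hn))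
  · rw [not_not.1 (mt (hM j i) h1), not_not.1 (mt (hN j i) h1)]

namespace RE_VanCore

lemma rfl' {M : Matrix Y X S} : RE_VanCore v s M M := fun _ _ _ => rfl

lemma of_eq {M N : Matrix Y X S} (h : M = N) : RE_VanCore v s M N := h ▸ rfl'

lemma symm {M N : Matrix Y X S} (h : RE_VanCore v s M N) : RE_VanCore v s N M :=
  fun j i hj => (h j i hj).symm

lemma trans {M N P : Matrix Y X S} (h : RE_VanCore v s M N) (h' : RE_VanCore v s N P) :
    RE_VanCore v s M P := fun j i hj => (h j i hj).trans (h' j i hj)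

lemma mono {M N : Matrix Y X S} (h : RE_VanCore v t M N) (hs : ∀ x, s x → t x) :
    RE_VanCore v s M N := fun j i hj => h j i (hs _ hj)

lemma add {M N M' N' : Matrix Y X S} (h : RE_VanCore v s M N) (h' : RE_VanCore v s M' N') :
    RE_VanCore v s (M + M') (N + N') := fun j i hj => by
  rw [Matrix.add_apply, Matrix.add_apply, h j i hj, h' j i hj]

lemma sub {M N M' N' : Matrix Y X S} (h : RE_VanCore v s M N) (h' : RE_VanCore v s M' N') :
    RE_VanCore v s (M - M') (N - N') := fun j i hj => by
  rw [Matrix.sub_apply, Matrix.sub_apply, h j i hj, h' j i hj]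

lemma map {M N : Matrix Y X S} (h : RE_VanCore v s M N) (f : S →+* S') :
    RE_VanCore v s (M.map f) (N.map f) := fun j i hj => by
  rw [map_apply, map_apply, h j i hj]

lemma mulr [Fintype X] {M N : Matrix Y X S} (h : RE_VanCore v s M N) (B : Matrix X Z S) :
    RE_VanCore v s (M * B) (N * B) := fun j i hj => by
  simp only [mul_apply, h j _ hj]

lemma mull [Fintype Y] {M N : Matrix Y X S} (h : RE_VanCore v t M N) {A : Matrix Z Y S}
    (hA : BN_VanCore n w v A) (hs : ∀ x y, s x → |x - y| ≤ n → t y) :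
    RE_VanCore w s (A * M) (A * N) := fun j i hj => by
  simp only [mul_apply]
  refine Finset.sum_congr rfl fun a _ => ?_
  by_cases h1 : A j a = 0
  · rw [h1, zero_mul, zero_mul]
  · rw [h a i (hs _ _ hj (hA j a h1))]

lemma ze {I J : Type} {uJ : J → ℤ} {g g' : Matrix X X S} (h : RE_VanCore u s g g') :
    RE_VanCore (Sum.elim uJ u) s (ze J I g) (ze J I g') := by
  rintro (j | j) (i | i) h1
  · rfl
  · rfl
  · rfl
  · exact h j i h1

lemma kill [Fintype Y] {M N : Matrix Y X S} (h : RE_VanCore v s M N) {K : Matrix Z Y S}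
    (hK : CE_VanCore v (fun x => ¬ s x) K 0) : K * M = K * N := by
  ext j i
  simp only [mul_apply]
  refine Finset.sum_congr rfl fun a _ => ?_
  by_cases h1 : s (v a)
  · rw [h a i h1]
  · rw [hK j a h1, Matrix.zero_apply, zero_mul, zero_mul]

lemma ext3 {M N : Matrix Y X S} (h1 : RE_VanCore v (fun x => x ≤ -2) M N)
    (h2 : RE_VanCore v (fun x => -1 ≤ x ∧ x ≤ 2) M N) (h3 : RE_VanCore v (fun x => 3 ≤ x) M N) :
    M = N := by
  ext j i
  by_cases a1 : v j ≤ -2
  · exact h1 j i a1
  · by_cases a2 : 3 ≤ v j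
    · exact h3 j i a2
    · exact h2 j i (by constructor <;> omega)

end RE_VanCore

lemma CE_VanCore.kill [Fintype X] {M N : Matrix Y X S} (h : CE_VanCore u s M N) {K : Matrix X Z S}
    (hK : RE_VanCore u (fun x => ¬ s x) K 0) : M * K = N * K := by
  ext j i
  simp only [mul_apply]
  refine Finset.sum_congr rfl fun a _ => ?_
  by_cases h1 : s (u a)
  · rw [h j a h1]
  · rw [hK a i h1, Matrix.zero_apply, mul_zero, mul_zero]

variable [DecidableEq X] {π : Matrix X X S}

lemma std_hi_VanCore (h : Std u π) : RE_VanCore u (fun x => 2 ≤ x) π 1 := by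
  intro a b ha
  have h1 : 0 < u a := by omega
  rw [(h a b (Or.inr (by omega))).1, one_apply]
  simp [h1]

lemma std_lo_VanCore (h : Std u π) : RE_VanCore u (fun x => ¬ 0 ≤ x) π 0 := by
  intro a b ha
  have h1 : ¬ 0 < u a := by omega
  rw [(h a b (Or.inl (by omega))).1]
  simp [h1]

lemma std_lc_VanCore (h : Std u π) : CE_VanCore u (fun x => ¬ 0 ≤ x) π 0 := by
  intro a b hb
  have h1 : ¬ 0 < u b := by omega
  rw [(h b a (Or.inl (by omega))).2]
  simp [h1]

lemma std_bn_VanCore (h : Std u π) : BN_VanCore 1 u u π := by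
  intro a b h1
  by_cases ha : u a < 0 ∨ 1 < u a
  · rw [(h a b ha).1] at h1
    obtain rfl : a = b := by
      by_contra h2
      simp [h2] at h1
    simp
  · by_cases hb : u b < 0 ∨ 1 < u b
    · rw [(h b a hb).2] at h1
      obtain rfl : b = a := by
        by_contra h2
        simp [h2] at h1
      simp
    · rw [abs_le]
      omega

lemma std_map_VanCore (h : Std u π) (f : S →+* S') : Std u (π.map f) := by
  intro a b ha
  rw [map_apply, map_apply, (h a b ha).1, (h a b ha).2]
  split_ifs <;> simp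

lemma std_refl_VanCore (h : Std u π) : Std (fun a => 1 - u a) (1 - π) := by
  intro a b ha
  dsimp only at ha ⊢
  have h1 := h a b (by omega)
  rw [Matrix.sub_apply, Matrix.sub_apply, h1.1, h1.2, one_apply, one_apply]
  by_cases e : a = b
  · subst e
    by_cases h2 : 0 < u a
    · have h3 : ¬ u a < 1 := by omega
      simp [h2, h3]
    · have h3 : u a < 1 := by omega
      simp [h2, h3]
  · simp [e, Ne.symm e]

/-- The idempotent on the columns. -/
def kk_VanCore [StarRing S] {I : Type} [DecidableEq I] (uI : I → ℤ) (π : Matrix X X S) :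
    Matrix (I ⊕ X) (I ⊕ X) S := fromBlocks (dg S fun i => decide (0 < uI i)) 0 0 πᴴ

lemma std_kk_VanCore [StarRing S] {I : Type} [DecidableEq I] (uI : I → ℤ) (h : Std u π) :
    Std (Sum.elim uI u) (kk_VanCore uI π) := by
  rintro (a | a) (b | b) ha
  · by_cases e : a = b
    · subst e
      simp [kk_VanCore, dg]
    · simp [kk_VanCore, dg, e, Ne.symm e]
  · simp [kk_VanCore]
  · simp [kk_VanCore]
  · have h1 := h a b ha
    simp only [kk_VanCore, fromBlocks_apply₂₂, conjTranspose_apply, h1.1, h1.2, Sum.inr.injEq,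
      Sum.elim_inr]
    split_ifs <;> simp

lemma kk_map_VanCore [StarRing S] [StarRing S'] {I : Type} [DecidableEq I] (uI : I → ℤ)
    (f : S →+* S') (hf : ∀ x, f (star x) = star (f x)) :
    (kk_VanCore uI π).map f = kk_VanCore uI (π.map f) := by
  ext (a | a) (b | b)
  · by_cases e : a = b
    · subst e
      simp [kk_VanCore, dg, apply_ite f]
    · simp [kk_VanCore, dg, e]
  · simp [kk_VanCore]
  · simp [kk_VanCore]
  · simp [kk_VanCore, hf]

lemma kk_refl_VanCore [StarRing S] {I : Type} [DecidableEq I] (uI : I → ℤ) :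
    kk_VanCore (fun a => 1 - uI a) (1 - π) = 1 - kk_VanCore uI π := by
  ext (a | a) (b | b)
  · by_cases e : a = b
    · subst e
      by_cases h2 : 0 < uI a
      · have h3 : ¬ uI a < 1 := by omega
        simp [kk_VanCore, dg, h2, h3]
      · have h3 : uI a < 1 := by omega
        simp [kk_VanCore, dg, h2, h3]
    · simp [kk_VanCore, dg, e]
  · simp [kk_VanCore]
  · simp [kk_VanCore]
  · simp [kk_VanCore, one_apply]

variable [Fintype X]

lemma kk_idem_VanCore [StarRing S] {I : Type} [DecidableEq I] [Fintype I] (uI : I → ℤ)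
    (h : π * π = π) : kk_VanCore uI π * kk_VanCore uI π = kk_VanCore uI π := by
  unfold kk_VanCore
  rw [fromBlocks_multiply]
  simp only [Matrix.mul_zero, Matrix.zero_mul, add_zero, zero_add, ← conjTranspose_mul, h, dg,
    diagonal_mul_diagonal]
  congr 2
  funext a
  split_ifs <;> simp

lemma kk_oe_VanCore [StarRing S] {I : Type} [DecidableEq I] [Fintype I] (uI : I → ℤ)
    {e : Matrix X X S} (h : π * e = e * π) :
    kk_VanCore uI π * oe I eᴴ = oe I eᴴ * kk_VanCore uI π := by
  unfold kk_VanCore oe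
  rw [fromBlocks_multiply, fromBlocks_multiply]
  simp [← conjTranspose_mul, h]

omit [DecidableEq X] in
lemma ze_fb_VanCore {I J : Type} [Fintype I] (g h : Matrix X X S) (a : Matrix I I S) :
    ze J I g * fromBlocks a 0 0 h = ze J I (g * h) := by
  unfold ze
  rw [fromBlocks_multiply]
  simp

omit [DecidableEq X] in
lemma fb_ze_VanCore {I J : Type} [Fintype J] (g h : Matrix X X S) (a : Matrix J J S) :
    fromBlocks a 0 0 h * ze J I g = ze J I (h * g) := by
  unfold ze
  rw [fromBlocks_multiply]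
  simp

omit [DecidableEq X] in
lemma ze_ze_VanCore {I J K : Type} [Fintype J] (g h : Matrix X X S) :
    ze K J g * ze J I h = ze K I (g * h) := by
  unfold ze
  rw [fromBlocks_multiply]
  simp

omit [DecidableEq X] [Fintype X] in
lemma ze_zero_VanCore {I J : Type} : ze J I (0 : Matrix X X S) = 0 := by
  unfold ze
  simp

omit [DecidableEq X] [Fintype X] in
lemma ze_add_VanCore {I J : Type} (g h : Matrix X X S) : ze J I (g + h) = ze J I g + ze J I h := by
  unfold ze
  rw [fromBlocks_add]
  simp

omit [DecidableEq X] [Fintype X] in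
lemma ze_map_VanCore {I J : Type} (g : Matrix X X S) (f : S →+* S') :
    (ze J I g).map f = ze J I (g.map f) := by
  unfold ze
  rw [fromBlocks_map]
  simp

omit [Fintype X] in
lemma oe_ze_VanCore {I : Type} [DecidableEq I] (e : Matrix X X S) :
    oe I e + ze I I (1 - e) = 1 := by
  unfold ze oe
  rw [fromBlocks_add, ← fromBlocks_one]
  simp

end Calc

end

end Pool.Agent.MP_6374aa_gt
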